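import Mathlib
import Pool.Agent.Lib.MP_b0e20b_ag_R.ADefs

/-!
# MP_b0e20b_ag, project K: definitions

`d = 3`, all formats. `A`, `B`, `C` are finite types with distinguished indices `oA`, `oB`, `oC`,
`T : A → B → C → ℝ` a real tensor, `h : B → ℝ`, `h' : C → ℝ` real vectors with `h oB = 0`, `h' oC
= 0`.
`TX T SA X Y u v w α β γ`: singular tuples for the rows `SA` and the subspaces `X`, `Y`.
`FX` (fully real): all of them are real, nondegenerate, with nonzero multipliers.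
`HY3`: the hypotheses on `T`, `h`, `h'` which imply that all critical points of the tensors
`L • (T + small) + L ^ (7 / 5) • (h (v) u_o w_o + h' (w) u_o v_o)` are real for large `L` (level
W). Level T
constructs `T`, `h`, `h'` with `HY3`.
All limits are taken along the ultrafilter `uf` on `ℕ`.
-/

set_option autoImplicit false

open scoped BigOperators Topology
open Filter

namespace Pool.Agent.MPb0eK

open MPb0eR (c1 c2 c3 tr q Sup Rl Rea uf Nrm cj AF scl)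

section

variable {A B C : Type} [Fintype A] [Fintype B] [Fintype C]

/-- The bilinear pairing. -/
def dt (x y : A → ℂ) : ℂ := ∑ a, x a * y a

/-- The pairing with a real vector. -/
def pr (f : A → ℝ) (x : A → ℂ) : ℂ := ∑ a, (f a : ℂ) * x a

/-- The subspace is stable under complex conjugation. -/
def Cj (X : Submodule ℂ (A → ℂ)) : Prop := ∀ x ∈ X, cj x ∈ X

/-- Singular tuples for the rows `SA` and the subspaces `X`, `Y`. -/
structure TX (T : A → B → C → ℝ) (SA : Finset A) (X : Submodule ℂ (B → ℂ))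
    (Y : Submodule ℂ (C → ℂ)) (u : A → ℂ) (v : B → ℂ) (w : C → ℂ) (α β γ : ℂ) : Prop where
  su : Sup SA u
  sv : v ∈ X
  sw : w ∈ Y
  e1 : ∀ a ∈ SA, c1 T v w a = α * u a
  e2 : ∀ z ∈ X, dt (c2 T u w) z = β * dt v z
  e3 : ∀ z ∈ Y, dt (c3 T u v) z = γ * dt w z

/-- The kernel of the linearised equations of `TX`. -/
structure KX (T : A → B → C → ℝ) (SA : Finset A) (X : Submodule ℂ (B → ℂ))
    (Y : Submodule ℂ (C → ℂ)) (u : A → ℂ) (v : B → ℂ) (w : C → ℂ) (α β γ : ℂ) (du : A → ℂ)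
    (dv : B → ℂ) (dw : C → ℂ) (dα dβ dγ : ℂ) : Prop where
  su : Sup SA du
  sv : dv ∈ X
  sw : dw ∈ Y
  e1 : ∀ a ∈ SA, c1 T dv w a + c1 T v dw a = α * du a + dα * u a
  e2 : ∀ z ∈ X, dt (c2 T du w) z + dt (c2 T u dw) z = β * dt dv z + dβ * dt v z
  e3 : ∀ z ∈ Y, dt (c3 T du v) z + dt (c3 T u dv) z = γ * dt dw z + dγ * dt w z

/-- Nondegenerate: the kernel of the linearised equations consists of rescalings. -/
def NX (T : A → B → C → ℝ) (SA : Finset A) (X : Submodule ℂ (B → ℂ)) (Y : Submodule ℂ (C → ℂ))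
    (u : A → ℂ) (v : B → ℂ) (w : C → ℂ) (α β γ : ℂ) : Prop :=
  ∀ du dv dw dα dβ dγ, KX T SA X Y u v w α β γ du dv dw dα dβ dγ →
    (∃ r : ℂ, du = r • u) ∧ (∃ r : ℂ, dv = r • v) ∧ ∃ r : ℂ, dw = r • w

/-- The conclusion for one tuple. -/
structure OkX (T : A → B → C → ℝ) (SA : Finset A) (X : Submodule ℂ (B → ℂ))
    (Y : Submodule ℂ (C → ℂ)) (u : A → ℂ) (v : B → ℂ) (w : C → ℂ) (α β γ : ℂ) : Prop where
  ru : Rl u
  rv : Rl v
  rw' : Rl w
  hα : α ≠ 0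
  hβ : β ≠ 0
  hγ : γ ≠ 0
  nd : NX T SA X Y u v w α β γ

/-- Fully real. -/
def FX (T : A → B → C → ℝ) (SA : Finset A) (X : Submodule ℂ (B → ℂ)) (Y : Submodule ℂ (C → ℂ)) :
    Prop :=
  ∀ u v w α β γ, TX T SA X Y u v w α β γ → u ≠ 0 → v ≠ 0 → w ≠ 0 → OkX T SA X Y u v w α β γ

/-- The three masks: everything, `v o = 0`, and `v o = 0` and `h (v) = 0`. -/
def XM (o : B) (h : B → ℝ) (x : Fin 3) : Submodule ℂ (B → ℂ) where
  carrier := {v | (x ≠ 0 → v o = 0) ∧ (x = 2 → pr h v = 0)}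
  add_mem' := by
    rintro a b ⟨h1, h2⟩ ⟨h3, h4⟩
    refine ⟨fun hx => by rw [Pi.add_apply, h1 hx, h3 hx, add_zero], fun hx => ?_⟩
    have e : pr h (a + b) = pr h a + pr h b := by
      simp only [pr, Pi.add_apply, mul_add, Finset.sum_add_distrib]
    rw [e, h2 hx, h4 hx, add_zero]
  zero_mem' := ⟨fun _ => rfl, fun _ => by simp [pr]⟩
  smul_mem' := by
    rintro c a ⟨h1, h2⟩
    refine ⟨fun hx => by rw [Pi.smul_apply, h1 hx, smul_zero], fun hx => ?_⟩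
    have e : pr h (c • a) = c * pr h a := by
      simp only [pr, Pi.smul_apply, smul_eq_mul, Finset.mul_sum]
      exact Finset.sum_congr rfl fun b _ => by ring
    rw [e, h2 hx, mul_zero]

/-- The limit equations of type D0. -/
structure D0 (T : A → B → C → ℝ) (oA : A) (oB : B) (oC : C) (h : B → ℝ) (h' : C → ℝ) (u : A → ℂ)
    (v : B → ℂ) (w : C → ℂ) (N N' : ℂ) : Prop where
  su : u oA = 0
  e1 : ∀ a, a ≠ oA → c1 T v w a = 0
  e2 : ∀ b, b ≠ oB → c2 T u w b + N * h b = 0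
  e3 : ∀ c, c ≠ oC → c3 T u v c + N' * h' c = 0
  e4 : N' * w oC = N * v oB

/-- The linearised equations of type D0. -/
structure KD0 (T : A → B → C → ℝ) (oA : A) (oB : B) (oC : C) (h : B → ℝ) (h' : C → ℝ)
    (u : A → ℂ) (v : B → ℂ) (w : C → ℂ) (N N' : ℂ) (du : A → ℂ) (dv : B → ℂ) (dw : C → ℂ)
    (dN dN' : ℂ) : Prop where
  su : du oA = 0
  e1 : ∀ a, a ≠ oA → c1 T dv w a + c1 T v dw a = 0
  e2 : ∀ b, b ≠ oB → c2 T du w b + c2 T u dw b + dN * h b = 0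
  e3 : ∀ c, c ≠ oC → c3 T du v c + c3 T u dv c + dN' * h' c = 0
  e4 : dN' * w oC + N' * dw oC = dN * v oB + N * dv oB

/-- The limit equations of type D1. -/
structure D1 (T : A → B → C → ℝ) (oA : A) (oB : B) (oC : C) (h : B → ℝ) (h' : C → ℝ) (u : A → ℂ)
    (v : B → ℂ) (w : C → ℂ) (N N' : ℂ) : Prop where
  sv : v oB = 0
  sw : w oC = 0
  e1 : ∀ a, a ≠ oA → c1 T v w a = 0
  e2 : ∀ b, b ≠ oB → c2 T u w b + N * h b = 0
  e3 : ∀ c, c ≠ oC → c3 T u v c + N' * h' c = 0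

/-- The linearised equations of type D1. -/
structure KD1 (T : A → B → C → ℝ) (oA : A) (oB : B) (oC : C) (h : B → ℝ) (h' : C → ℝ)
    (u : A → ℂ) (v : B → ℂ) (w : C → ℂ) (N N' : ℂ) (du : A → ℂ) (dv : B → ℂ) (dw : C → ℂ)
    (dN dN' : ℂ) : Prop where
  sv : dv oB = 0
  sw : dw oC = 0
  e1 : ∀ a, a ≠ oA → c1 T dv w a + c1 T v dw a = 0
  e2 : ∀ b, b ≠ oB → c2 T du w b + c2 T u dw b + dN * h b = 0
  e3 : ∀ c, c ≠ oC → c3 T du v c + c3 T u dv c + dN' * h' c = 0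

/-- The conclusion for one solution of type D: real and nondegenerate. -/
structure OkD (u : A → ℂ) (v : B → ℂ) (w : C → ℂ)
    (K : (A → ℂ) → (B → ℂ) → (C → ℂ) → ℂ → ℂ → Prop) : Prop where
  ru : Rl u
  rv : Rl v
  rw' : Rl w
  nd : ∀ du dv dw dN dN', K du dv dw dN dN' →
    (∃ r : ℂ, du = r • u) ∧ (∃ r : ℂ, dv = r • v) ∧ ∃ r : ℂ, dw = r • w

/-- The hypotheses on the first order tensor. -/
structure HY3 [DecidableEq A] (T : A → B → C → ℝ) (oA : A) (oB : B) (oC : C) (h : B → ℝ)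
    (h' : C → ℝ) : Prop where
  ho : h oB = 0
  ho' : h' oC = 0
  hne : h ≠ 0
  hne' : h' ≠ 0
  f' : ∀ x y : Fin 3, FX T (Finset.univ.erase oA) (XM oB h x) (XM oC h' y)
  f : ∀ x y : Fin 3, x ≠ 0 → y ≠ 0 → ¬ (x = 2 ∧ y = 2) → FX T Finset.univ (XM oB h x) (XM oC h' y)
  s2 : ∀ y : Fin 3, y ≠ 2 → ∀ u v w α β γ,
    TX T (Finset.univ.erase oA) (XM oB h 1) (XM oC h' y) u v w α β γ →
    u ≠ 0 → v ≠ 0 → w ≠ 0 → Rea u → Rea v → Rea w → 0 < (β * pr h v * c2 T u w oB).re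
  s1 : ∀ x : Fin 3, x ≠ 2 → ∀ u v w α β γ,
    TX T (Finset.univ.erase oA) (XM oB h x) (XM oC h' 1) u v w α β γ →
    u ≠ 0 → v ≠ 0 → w ≠ 0 → Rea u → Rea v → Rea w → 0 < (γ * pr h' w * c3 T u v oC).re
  g0 : ∀ u v w α β γ, TX T (Finset.univ.erase oA) (XM oB h 1) (XM oC h' 1) u v w α β γ →
    u ≠ 0 → v ≠ 0 → w ≠ 0 → c1 T v w oA ≠ 0
  t1 : ∀ u v w α β γ, TX T Finset.univ (XM oB h 1) (XM oC h' 1) u v w α β γ →
    u ≠ 0 → v ≠ 0 → w ≠ 0 → Rea u → Rea v → Rea w →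
    0 < (c1 T v w oA * pr h v * pr h' w).re
  t2 : ∀ u v w α β γ N, TX T (Finset.univ.erase oA) (XM oB h 2) (XM oC h' 1) u v w α β γ →
    (∀ b, b ≠ oB → c2 T u w b + N * h b = β * v b) →
    u ≠ 0 → v ≠ 0 → w ≠ 0 → Rea u → Rea v → Rea w →
    0 < (N * c3 T u v oC * c1 T v w oA).re
  t3 : ∀ u v w α β γ N, TX T (Finset.univ.erase oA) (XM oB h 1) (XM oC h' 2) u v w α β γ →
    (∀ c, c ≠ oC → c3 T u v c + N * h' c = γ * w c) →
    u ≠ 0 → v ≠ 0 → w ≠ 0 → Rea u → Rea v → Rea w →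
    0 < (N * c2 T u w oB * c1 T v w oA).re
  d0 : ∀ u v w N N', D0 T oA oB oC h h' u v w N N' → u ≠ 0 → v ≠ 0 → w ≠ 0 → N ≠ 0 → N' ≠ 0 →
    v oB ≠ 0 → w oC ≠ 0 → OkD u v w (KD0 T oA oB oC h h' u v w N N')
  d1 : ∀ u v w N N', D1 T oA oB oC h h' u v w N N' → u oA ≠ 0 → v ≠ 0 → w ≠ 0 → N ≠ 0 → N' ≠ 0 →
    OkD u v w (KD1 T oA oB oC h h' u v w N N')

/-- The homogeneous critical equations; `l = 1 / L`, `O = Ω`. -/
structure HS (T : A → B → C → ℝ) (oA : A) (oB : B) (oC : C) (h : B → ℝ) (h' : C → ℝ) (l O : ℝ)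
    (u : A → ℂ) (v : B → ℂ) (w : C → ℂ) (α β γ N N' : ℂ) : Prop where
  xo : u oA ≠ 0
  yo : v oB ≠ 0
  zo : w oC ≠ 0
  e1 : ∀ a, a ≠ oA → c1 T v w a = α * u a
  e2 : ∀ b, b ≠ oB → c2 T u w b + N * h b = β * v b
  e3 : ∀ c, c ≠ oC → c3 T u v c + N' * h' c = γ * w c
  eN : N = (O : ℂ) * (u oA * w oC)
  eN' : N' = (O : ℂ) * (u oA * v oB)
  eα : u oA * v oB * w oC * α = (l : ℂ) * (q v * q w)
  eβ : u oA * v oB * w oC * β = (l : ℂ) * (q u * q w)
  eγ : u oA * v oB * w oC * γ = (l : ℂ) * (q u * q v)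

/-- Sequences of normalised solutions of the homogeneous critical equations, `l = ε ^ 10`,
`O = ε ^ (-4)`. -/
structure SqH (T : ℕ → A → B → C → ℝ) (T0 : A → B → C → ℝ) (oA : A) (oB : B) (oC : C) (h : B → ℝ)
    (h' : C → ℝ) (ε : ℕ → ℝ) (ia : A) (ib : B) (ic : C) (u : ℕ → A → ℂ) (v : ℕ → B → ℂ)
    (w : ℕ → C → ℂ) (α β γ N N' : ℕ → ℂ) : Prop where
  hT : Tendsto T uf (𝓝 T0)
  hε : Tendsto ε uf (𝓝 0)
  pos : ∀ n, 0 < ε n
  sol : ∀ n, HS (T n) oA oB oC h h' (ε n ^ 10) ((ε n ^ 4)⁻¹) (u n) (v n) (w n) (α n) (β n) (γ n)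
    (N n) (N' n)
  nu : ∀ n, Nrm (u n) ia
  nv : ∀ n, Nrm (v n) ib
  nw : ∀ n, Nrm (w n) ic

/-- The limits of a sequence. -/
structure LmH (u : ℕ → A → ℂ) (v : ℕ → B → ℂ) (w : ℕ → C → ℂ) (α β γ N N' : ℕ → ℂ) (u0 : A → ℂ)
    (v0 : B → ℂ) (w0 : C → ℂ) (α0 β0 γ0 N0 N0' : ℂ) : Prop where
  hu : Tendsto u uf (𝓝 u0)
  hv : Tendsto v uf (𝓝 v0)
  hw : Tendsto w uf (𝓝 w0)
  hα : Tendsto α uf (𝓝 α0)
  hβ : Tendsto β uf (𝓝 β0)
  hγ : Tendsto γ uf (𝓝 γ0)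
  hN : Tendsto N uf (𝓝 N0)
  hN' : Tendsto N' uf (𝓝 N0')

/-- The unknowns of the local systems: three vectors and three multipliers. -/
abbrev PK (A B C : Type) : Type := (A → ℂ) × (B → ℂ) × (C → ℂ) × (Fin 3 → ℂ)

/-- The values of the local systems. -/
abbrev QK (A B C : Type) : Type := (A → ℂ) × (B → ℂ) × (C → ℂ) × (Fin 3 → ℂ)

/-- The conjugate point. -/
def cjK (p : PK A B C) : PK A B C := (cj p.1, cj p.2.1, cj p.2.2.1, cj p.2.2.2)

end

section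

variable {A B C : Type} [Fintype A] [Fintype B] [Fintype C] [DecidableEq A] [DecidableEq B]
  [DecidableEq C]

/-- The local system of the types E, as a function of the tensor `z.1`, of the parameters
`z.2 = ![eA, eB, eC, n, n', a1, b1, c1, d1, f1, a2, b2, c2, d2, f2]` and of the point
`p = (u, v, w, ![α, β, γ])`; here the coordinates `X = u oA`, `Y = v oB`, `Z = w oC` of the point
are
the original ones divided by `eA`, `eB`, `eC`. The components: the critical equations for `a ≠ oA`,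
`b ≠ oB`, `c ≠ oC` (with `N = n X Z`, `N' = n' X Y`); two linear combinations of the five numbers
`X (τA - α eA X)`, `Y (τB - β eB Y)`, `X Z h (v)`, `Z (τC - γ eC Z)`, `X Y h' (w)`;
`X Y Z α = q v q w`; and the normalisations. -/
def locE (oA : A) (oB : B) (oC : C) (h : B → ℝ) (h' : C → ℝ) (ia : A) (ib : B) (ic : C)
    (z : (A → B → C → ℝ) × (Fin 15 → ℝ)) (p : PK A B C) : QK A B C :=
  let u := scl oA (z.2 0) 1 p.1
  let v := scl oB (z.2 1) 1 p.2.1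
  let w := scl oC (z.2 2) 1 p.2.2.1
  let X := p.1 oA
  let Y := p.2.1 oB
  let Z := p.2.2.1 oC
  let k1 := X * (c1 z.1 v w oA - p.2.2.2 0 * u oA)
  let k2 := Y * (c2 z.1 u w oB - p.2.2.2 1 * v oB)
  let k3 := X * Z * pr h v
  let k4 := Z * (c3 z.1 u v oC - p.2.2.2 2 * w oC)
  let k5 := X * Y * pr h' w
  (fun a => if a = oA then (z.2 5 : ℂ) * k1 + (z.2 6 : ℂ) * k2 + (z.2 7 : ℂ) * k3
        + (z.2 8 : ℂ) * k4 + (z.2 9 : ℂ) * k5
      else c1 z.1 v w a - p.2.2.2 0 * p.1 a,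
    fun b => if b = oB then (z.2 10 : ℂ) * k1 + (z.2 11 : ℂ) * k2 + (z.2 12 : ℂ) * k3
        + (z.2 13 : ℂ) * k4 + (z.2 14 : ℂ) * k5
      else c2 z.1 u w b + (z.2 3 : ℂ) * (X * Z) * h b - p.2.2.2 1 * p.2.1 b,
    fun c => if c = oC then X * Y * Z * p.2.2.2 0 - q v * q w
      else c3 z.1 u v c + (z.2 4 : ℂ) * (X * Y) * h' c - p.2.2.2 2 * p.2.2.1 c,
    ![p.1 ia - 1, p.2.1 ib - 1, p.2.2.1 ic - 1])

/-- The local system of the types D and PL, as a function of the tensor `z.1`, of the parameters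
`z.2 = ![eA, eB, eC, fA, fC, n, n', m, mB]` and of the point `p = (u, v, w, ![α, β, γ])`; the
coordinates of the point at `oA`, `oB`, `oC` are the original ones divided by `eA`, `eB`, `eC`,
the other
coordinates of `u` and `w` are the original ones divided by `fA` and `fC`. The components: the
critical
equations (`N = n X Z`, `N' = n' X Y`, `α`, `γ` multiplied by `m`, the equations of the second
factor
with the factor `mB` at the contraction); the three equations `X Y Z α = q v q w` and so on. -/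
def locD (oA : A) (oB : B) (oC : C) (h : B → ℝ) (h' : C → ℝ) (ia : A) (ib : B) (ic : C)
    (z : (A → B → C → ℝ) × (Fin 9 → ℝ)) (p : PK A B C) : QK A B C :=
  let u := scl oA (z.2 0) (z.2 3) p.1
  let v := scl oB (z.2 1) 1 p.2.1
  let w := scl oC (z.2 2) (z.2 4) p.2.2.1
  let X := p.1 oA
  let Y := p.2.1 oB
  let Z := p.2.2.1 oC
  (fun a => if a = oA then X * Y * Z * p.2.2.2 0 - q v * q w
      else c1 z.1 v w a - (z.2 7 : ℂ) * (p.2.2.2 0 * p.1 a),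
    fun b => if b = oB then X * Y * Z * p.2.2.2 1 - q u * q w
      else (z.2 8 : ℂ) * c2 z.1 u w b + (z.2 5 : ℂ) * (X * Z) * h b
        - (z.2 7 : ℂ) * (p.2.2.2 1 * p.2.1 b),
    fun c => if c = oC then X * Y * Z * p.2.2.2 2 - q u * q v
      else c3 z.1 u v c + (z.2 6 : ℂ) * (X * Y) * h' c - (z.2 7 : ℂ) * (p.2.2.2 2 * p.2.2.1 c),
    ![p.1 ia - 1, p.2.1 ib - 1, p.2.2.1 ic - 1])

end

end Pool.Agent.MPb0eK
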