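import Mathlib
import Pool.Agent.Lib.MP_b0e20b_ag_K.Defs
import Pool.Agent.Lib.MP_b0e20b_ag_R.Alg2
import Pool.Agent.Lib.MP_b0e20b_ag_R.Cpt

/-!
# MP_b0e20b_ag, project K: elementary facts on `dt`, `pr` and singular tuples
-/

set_option autoImplicit false

open scoped BigOperators Topology
open Filter

namespace Pool.Agent.MPb0eK

open MPb0eR (c1 c2 c3 tr q Sup Rl Rea uf Nrm cj AF scl)

section

variable {A B C : Type} [Fintype A] [Fintype B] [Fintype C] [DecidableEq A] [DecidableEq B]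
  [DecidableEq C]

theorem dt_comm (x y : A → ℂ) : dt x y = dt y x := by
  unfold dt
  exact Finset.sum_congr rfl fun a _ => mul_comm _ _

theorem dt_self (x : A → ℂ) : dt x x = q x := by
  unfold dt q
  exact Finset.sum_congr rfl fun a _ => (pow_two _).symm

theorem dt_add_left (x x' y : A → ℂ) : dt (x + x') y = dt x y + dt x' y := by
  unfold dt
  rw [← Finset.sum_add_distrib]
  exact Finset.sum_congr rfl fun a _ => by rw [Pi.add_apply, add_mul]

theorem dt_add_right (x y y' : A → ℂ) : dt x (y + y') = dt x y + dt x y' := by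
  unfold dt
  rw [← Finset.sum_add_distrib]
  exact Finset.sum_congr rfl fun a _ => by rw [Pi.add_apply, mul_add]

theorem dt_smul_left (r : ℂ) (x y : A → ℂ) : dt (r • x) y = r * dt x y := by
  unfold dt
  rw [Finset.mul_sum]
  exact Finset.sum_congr rfl fun a _ => by rw [Pi.smul_apply, smul_eq_mul, mul_assoc]

theorem dt_smul_right (r : ℂ) (x y : A → ℂ) : dt x (r • y) = r * dt x y := by
  unfold dt
  rw [Finset.mul_sum]
  exact Finset.sum_congr rfl fun a _ => by rw [Pi.smul_apply, smul_eq_mul]; ring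

theorem dt_cj (x y : A → ℂ) : dt (cj x) (cj y) = starRingEnd ℂ (dt x y) := by
  unfold dt cj
  rw [map_sum]
  exact Finset.sum_congr rfl fun a _ => by rw [map_mul]

/-- `dt x (cj x)` is the sum of the squared norms. -/
theorem dt_cj_pos (x : A → ℂ) (hx : x ≠ 0) : 0 < (dt x (cj x)).re ∧ (dt x (cj x)).im = 0 := by
  have h1 : dt x (cj x) = ((∑ a, Complex.normSq (x a) : ℝ) : ℂ) := by
    unfold dt cj
    rw [Complex.ofReal_sum]
    exact Finset.sum_congr rfl fun a _ => Complex.mul_conj _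
  rw [h1, Complex.ofReal_re, Complex.ofReal_im]
  refine ⟨?_, rfl⟩
  obtain ⟨a, ha⟩ := Function.ne_iff.1 hx
  exact Finset.sum_pos' (fun b _ => Complex.normSq_nonneg _)
    ⟨a, Finset.mem_univ _, Complex.normSq_pos.2 ha⟩

/-- `q` of a real nonzero vector is a positive real number. -/
theorem q_rea_pos {u : A → ℂ} (h : Rea u) (hu : u ≠ 0) : 0 < (q u).re ∧ (q u).im = 0 := by
  have h1 : q u = ((∑ a, (u a).re ^ 2 : ℝ) : ℂ) := by
    unfold q
    rw [Complex.ofReal_sum]
    refine Finset.sum_congr rfl fun a _ => ?_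
    have h2 : u a = ((u a).re : ℂ) := Complex.ext rfl (by rw [h a, Complex.ofReal_im])
    rw [Complex.ofReal_pow, ← h2]
  rw [h1, Complex.ofReal_re, Complex.ofReal_im]
  refine ⟨?_, rfl⟩
  obtain ⟨a, ha⟩ := Function.ne_iff.1 hu
  refine Finset.sum_pos' (fun b _ => sq_nonneg _) ⟨a, Finset.mem_univ _, ?_⟩
  have h3 : (u a).re ≠ 0 := fun h3 => ha (Complex.ext h3 (h a))
  positivity

/-- `q` of a vector which is real up to scaling and nonzero does not vanish. -/
theorem q_ne {u : A → ℂ} (h : Rl u) (hu : u ≠ 0) : q u ≠ 0 := by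
  obtain ⟨r, hr, h1⟩ := h
  have h2 : q (r • u) = r ^ 2 * q u := by
    unfold q
    rw [Finset.mul_sum]
    exact Finset.sum_congr rfl fun a _ => by rw [Pi.smul_apply, smul_eq_mul, mul_pow]
  have h3 : Rea (r • u) := fun a => h1 a
  have h4 := (q_rea_pos h3 (smul_ne_zero hr hu)).1
  intro h5
  rw [h2, h5, mul_zero, Complex.zero_re] at h4
  exact lt_irrefl _ h4

theorem pr_add (f : A → ℝ) (x y : A → ℂ) : pr f (x + y) = pr f x + pr f y := by
  unfold pr
  rw [← Finset.sum_add_distrib]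
  exact Finset.sum_congr rfl fun a _ => by rw [Pi.add_apply, mul_add]

theorem pr_smul (f : A → ℝ) (r : ℂ) (x : A → ℂ) : pr f (r • x) = r * pr f x := by
  unfold pr
  rw [Finset.mul_sum]
  exact Finset.sum_congr rfl fun a _ => by rw [Pi.smul_apply, smul_eq_mul]; ring

theorem pr_cj (f : A → ℝ) (x : A → ℂ) : pr f (cj x) = starRingEnd ℂ (pr f x) := by
  unfold pr cj
  rw [map_sum]
  exact Finset.sum_congr rfl fun a _ => by rw [map_mul, Complex.conj_ofReal]

theorem pr_re (f : A → ℝ) {x : A → ℂ} (hx : Rea x) : (pr f x).im = 0 := by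
  unfold pr
  rw [Complex.im_sum]
  exact Finset.sum_eq_zero fun a _ => by rw [Complex.im_ofReal_mul, hx a, mul_zero]

theorem continuous_pr (f : A → ℝ) : Continuous (pr f : (A → ℂ) → ℂ) := by
  unfold pr
  exact continuous_finsetSum _ fun a _ => continuous_const.mul (continuous_apply a)

theorem mem_XM {o : B} {h : B → ℝ} {x : Fin 3} {v : B → ℂ} :
    v ∈ XM o h x ↔ (x ≠ 0 → v o = 0) ∧ (x = 2 → pr h v = 0) :=
  Iff.rfl

theorem XM_cj (o : B) (h : B → ℝ) (x : Fin 3) : Cj (XM o h x) := by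
  rintro v ⟨h1, h2⟩
  refine ⟨fun hx => ?_, fun hx => ?_⟩
  · change starRingEnd ℂ (v o) = 0
    rw [h1 hx, map_zero]
  · rw [pr_cj, h2 hx, map_zero]

/-- `α q u = T (u, v, w) = β q v = γ q w`. Proof: `e1` times `u a`, `e2` for `z = v`, `e3` for `z
= w`
(`tr_c1`, `tr_c2`, `tr_c3` of R). -/
theorem TX.tr {T : A → B → C → ℝ} {SA : Finset A} {X : Submodule ℂ (B → ℂ)}
    {Y : Submodule ℂ (C → ℂ)} {u : A → ℂ} {v : B → ℂ} {w : C → ℂ} {α β γ : ℂ}
    (ht : TX T SA X Y u v w α β γ) :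
    α * q u = MPb0eR.tr T u v w ∧ β * q v = MPb0eR.tr T u v w ∧ γ * q w = MPb0eR.tr T u v w := by
  refine ⟨?_, ?_, ?_⟩
  · rw [MPb0eR.tr_c1]
    unfold q
    rw [Finset.mul_sum]
    refine Finset.sum_congr rfl fun a _ => ?_
    by_cases ha : a ∈ SA
    · rw [ht.e1 a ha]; ring
    · rw [ht.su a ha]; ring
  · rw [← dt_self, ← ht.e2 v ht.sv, MPb0eR.tr_c2]
    exact Finset.sum_congr rfl fun b _ => mul_comm _ _
  · rw [← dt_self, ← ht.e3 w ht.sw, MPb0eR.tr_c3]
    exact Finset.sum_congr rfl fun c _ => mul_comm _ _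

/-- The multipliers of a real nonzero tuple are real. Proof: `TX.tr` and `q_rea_pos`. -/
theorem TX.re {T : A → B → C → ℝ} {SA : Finset A} {X : Submodule ℂ (B → ℂ)}
    {Y : Submodule ℂ (C → ℂ)} {u : A → ℂ} {v : B → ℂ} {w : C → ℂ} {α β γ : ℂ}
    (ht : TX T SA X Y u v w α β γ) (hu : u ≠ 0) (hv : v ≠ 0) (hw : w ≠ 0) (ru : Rea u) (rv : Rea v)
    (rw' : Rea w) : α.im = 0 ∧ β.im = 0 ∧ γ.im = 0 := by
  obtain ⟨h1, h2, h3⟩ := ht.tr
  have h0 : (MPb0eR.tr T u v w).im = 0 := by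
    rw [MPb0eR.tr_c1, Complex.im_sum]
    refine Finset.sum_eq_zero fun a _ => ?_
    rw [Complex.mul_im, ru a, MPb0eR.c1_re T v w rv rw' a, mul_zero, zero_mul, add_zero]
  have key : ∀ {x t : ℂ}, x * t = MPb0eR.tr T u v w → 0 < t.re ∧ t.im = 0 → x.im = 0 := by
    intro x t hx hp
    have h4 := congrArg Complex.im hx
    rw [Complex.mul_im, hp.2, mul_zero, zero_add, h0] at h4
    exact (mul_eq_zero.1 h4).resolve_right hp.1.ne'
  exact ⟨key h1 (q_rea_pos ru hu), key h2 (q_rea_pos rv hv), key h3 (q_rea_pos rw' hw)⟩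

/-- A normalised vector which is real up to scaling is real. -/
theorem rea_of_rl {u : A → ℂ} (h : Rl u) {ia : A} (h1 : u ia = 1) : Rea u :=
  MPb0eR.Rl.rea h h1

end

end Pool.Agent.MPb0eK
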