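import Mathlib
import Pool.Agent.Lib.MP_b0e20b_ag_K.Defs

/-!
# MP_b0e20b_ag, project K, level W: parameters and linearised local systems

`zE k ε`, `zD k ε`: the parameters of the local systems `locE`, `locD` for the type `k`; `zE k 0`,
`zD k 0` are the limit parameters. Exponents of `ε` for `u oA, v oB, w oC`:
E types `0: (10,0,0)`, `1: (7,3,0)`, `2: (4,6,0)`, `3: (4,3,3)`, `4: (2,4,4)`, `5: (2,6,2)`,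
`6: (0,5,5)`, `7: (0,6,4)`; D types `0: (4,0,0)` (D0), `1: (0,4,4)` (D1), `2: (0,14,0)` (PL).
`Mir`: the exchange of the second and the third factor.
-/

set_option autoImplicit false

open scoped BigOperators Topology
open Filter

namespace Pool.Agent.MPb0eK

open MPb0eR (c1 c2 c3 tr q Sup Rl Rea uf Nrm cj AF scl)

/-- The exponents of the E types. -/
def xE : Fin 8 → Fin 3 → ℕ :=
  ![![10, 0, 0], ![7, 3, 0], ![4, 6, 0], ![4, 3, 3], ![2, 4, 4], ![2, 6, 2], ![0, 5, 5], ![0, 6, 4]]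

/-- The parameters of the E types. -/
def zE (k : Fin 8) (e : ℝ) : Fin 15 → ℝ :=
  (![![e ^ 10, 1, 1, e ^ 6, e ^ 6, -e ^ 10, 1, -e ^ 6, 0, 0, -e ^ 10, 0, 0, 1, -e ^ 6],
    ![e ^ 7, e ^ 3, 1, e ^ 3, e ^ 6, -e ^ 4, 1, -1, 0, 0, -e ^ 7, 0, 0, 1, -e ^ 6],
    ![e ^ 4, e ^ 6, 1, 1, e ^ 6, -e ^ 4, e ^ 6, -1, 0, 0, -e ^ 4, 0, 0, 1, -e ^ 6],
    ![e ^ 4, e ^ 3, e ^ 3, e ^ 3, e ^ 3, -e, 1, -1, 0, 0, -e, 0, 0, 1, -1],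
    ![e ^ 2, e ^ 4, e ^ 4, e ^ 2, e ^ 2, -1, e ^ 2, -1, 0, 0, -1, 0, 0, e ^ 2, -1],
    ![e ^ 2, e ^ 6, e ^ 2, 1, e ^ 4, -e ^ 2, e ^ 6, -1, 0, 0, -1, 0, 0, 1, -e ^ 2],
    ![1, e ^ 5, e ^ 5, e, e, -1, e ^ 5, -e, 0, 0, 0, e ^ 4, -1, -e ^ 4, 1],
    ![1, e ^ 6, e ^ 4, 1, e ^ 2, -1, e ^ 6, -1, 0, 0, -1, 0, 0, e ^ 4, -e ^ 2]] :
      Fin 8 → Fin 15 → ℝ) k

/-- The exponents of the D types. -/
def xD : Fin 3 → Fin 3 → ℕ := ![![4, 0, 0], ![0, 4, 4], ![0, 14, 0]]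

/-- The parameters of the D types. -/
def zD (k : Fin 3) (e : ℝ) : Fin 9 → ℝ :=
  (![![e ^ 4, 1, 1, 1, 1, 1, 1, e ^ 6, 1], ![1, e ^ 4, e ^ 4, 1, 1, 1, 1, e ^ 2, 1],
    ![1, e ^ 14, 1, e ^ 4, e ^ 4, 1, e ^ 10, 1, e ^ 4]] : Fin 3 → Fin 9 → ℝ) k

section

variable {A B C : Type} [Fintype A] [Fintype B] [Fintype C] [DecidableEq A] [DecidableEq B]
  [DecidableEq C]

/-- The linearised system `locE` at the point `p`, direction `x`. -/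
structure KerE (oA : A) (oB : B) (oC : C) (h : B → ℝ) (h' : C → ℝ) (ia : A) (ib : B) (ic : C)
    (z : (A → B → C → ℝ) × (Fin 15 → ℝ)) (p x : PK A B C) : Prop where
  e1 : ∀ a, a ≠ oA → c1 z.1 (scl oB (z.2 1) 1 x.2.1) (scl oC (z.2 2) 1 p.2.2.1) a
    + c1 z.1 (scl oB (z.2 1) 1 p.2.1) (scl oC (z.2 2) 1 x.2.2.1) a
    = p.2.2.2 0 * x.1 a + x.2.2.2 0 * p.1 a
  e2 : ∀ b, b ≠ oB → c2 z.1 (scl oA (z.2 0) 1 x.1) (scl oC (z.2 2) 1 p.2.2.1) b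
    + c2 z.1 (scl oA (z.2 0) 1 p.1) (scl oC (z.2 2) 1 x.2.2.1) b
    + (z.2 3 : ℂ) * (x.1 oA * p.2.2.1 oC + p.1 oA * x.2.2.1 oC) * h b
    = p.2.2.2 1 * x.2.1 b + x.2.2.2 1 * p.2.1 b
  e3 : ∀ c, c ≠ oC → c3 z.1 (scl oA (z.2 0) 1 x.1) (scl oB (z.2 1) 1 p.2.1) c
    + c3 z.1 (scl oA (z.2 0) 1 p.1) (scl oB (z.2 1) 1 x.2.1) c
    + (z.2 4 : ℂ) * (x.1 oA * p.2.1 oB + p.1 oA * x.2.1 oB) * h' c
    = p.2.2.2 2 * x.2.2.1 c + x.2.2.2 2 * p.2.2.1 c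
  e4 : ∃ k1 k2 k3 k4 k5 : ℂ,
    k1 = x.1 oA * (c1 z.1 (scl oB (z.2 1) 1 p.2.1) (scl oC (z.2 2) 1 p.2.2.1) oA
        - p.2.2.2 0 * (z.2 0 * p.1 oA))
      + p.1 oA * (c1 z.1 (scl oB (z.2 1) 1 x.2.1) (scl oC (z.2 2) 1 p.2.2.1) oA
        + c1 z.1 (scl oB (z.2 1) 1 p.2.1) (scl oC (z.2 2) 1 x.2.2.1) oA
        - p.2.2.2 0 * (z.2 0 * x.1 oA) - x.2.2.2 0 * (z.2 0 * p.1 oA)) ∧
    k2 = x.2.1 oB * (c2 z.1 (scl oA (z.2 0) 1 p.1) (scl oC (z.2 2) 1 p.2.2.1) oB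
        - p.2.2.2 1 * (z.2 1 * p.2.1 oB))
      + p.2.1 oB * (c2 z.1 (scl oA (z.2 0) 1 x.1) (scl oC (z.2 2) 1 p.2.2.1) oB
        + c2 z.1 (scl oA (z.2 0) 1 p.1) (scl oC (z.2 2) 1 x.2.2.1) oB
        - p.2.2.2 1 * (z.2 1 * x.2.1 oB) - x.2.2.2 1 * (z.2 1 * p.2.1 oB)) ∧
    k3 = (x.1 oA * p.2.2.1 oC + p.1 oA * x.2.2.1 oC) * pr h (scl oB (z.2 1) 1 p.2.1)
      + p.1 oA * p.2.2.1 oC * pr h (scl oB (z.2 1) 1 x.2.1) ∧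
    k4 = x.2.2.1 oC * (c3 z.1 (scl oA (z.2 0) 1 p.1) (scl oB (z.2 1) 1 p.2.1) oC
        - p.2.2.2 2 * (z.2 2 * p.2.2.1 oC))
      + p.2.2.1 oC * (c3 z.1 (scl oA (z.2 0) 1 x.1) (scl oB (z.2 1) 1 p.2.1) oC
        + c3 z.1 (scl oA (z.2 0) 1 p.1) (scl oB (z.2 1) 1 x.2.1) oC
        - p.2.2.2 2 * (z.2 2 * x.2.2.1 oC) - x.2.2.2 2 * (z.2 2 * p.2.2.1 oC)) ∧
    k5 = (x.1 oA * p.2.1 oB + p.1 oA * x.2.1 oB) * pr h' (scl oC (z.2 2) 1 p.2.2.1)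
      + p.1 oA * p.2.1 oB * pr h' (scl oC (z.2 2) 1 x.2.2.1) ∧
    (z.2 5 : ℂ) * k1 + (z.2 6 : ℂ) * k2 + (z.2 7 : ℂ) * k3 + (z.2 8 : ℂ) * k4
      + (z.2 9 : ℂ) * k5 = 0 ∧
    (z.2 10 : ℂ) * k1 + (z.2 11 : ℂ) * k2 + (z.2 12 : ℂ) * k3 + (z.2 13 : ℂ) * k4
      + (z.2 14 : ℂ) * k5 = 0
  e5 : (x.1 oA * p.2.1 oB * p.2.2.1 oC + p.1 oA * x.2.1 oB * p.2.2.1 oC
      + p.1 oA * p.2.1 oB * x.2.2.1 oC) * p.2.2.2 0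
      + p.1 oA * p.2.1 oB * p.2.2.1 oC * x.2.2.2 0
    = 2 * dt (scl oB (z.2 1) 1 p.2.1) (scl oB (z.2 1) 1 x.2.1) * q (scl oC (z.2 2) 1 p.2.2.1)
      + q (scl oB (z.2 1) 1 p.2.1)
        * (2 * dt (scl oC (z.2 2) 1 p.2.2.1) (scl oC (z.2 2) 1 x.2.2.1))
  n1 : x.1 ia = 0
  n2 : x.2.1 ib = 0
  n3 : x.2.2.1 ic = 0

/-- The linearised system `locD` at the point `p`, direction `x`. -/
structure KerD (oA : A) (oB : B) (oC : C) (h : B → ℝ) (h' : C → ℝ) (ia : A) (ib : B) (ic : C)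
    (z : (A → B → C → ℝ) × (Fin 9 → ℝ)) (p x : PK A B C) : Prop where
  e1 : ∀ a, a ≠ oA → c1 z.1 (scl oB (z.2 1) 1 x.2.1) (scl oC (z.2 2) (z.2 4) p.2.2.1) a
    + c1 z.1 (scl oB (z.2 1) 1 p.2.1) (scl oC (z.2 2) (z.2 4) x.2.2.1) a
    = (z.2 7 : ℂ) * (p.2.2.2 0 * x.1 a + x.2.2.2 0 * p.1 a)
  e2 : ∀ b, b ≠ oB →
    (z.2 8 : ℂ) * (c2 z.1 (scl oA (z.2 0) (z.2 3) x.1) (scl oC (z.2 2) (z.2 4) p.2.2.1) b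
    + c2 z.1 (scl oA (z.2 0) (z.2 3) p.1) (scl oC (z.2 2) (z.2 4) x.2.2.1) b)
    + (z.2 5 : ℂ) * (x.1 oA * p.2.2.1 oC + p.1 oA * x.2.2.1 oC) * h b
    = (z.2 7 : ℂ) * (p.2.2.2 1 * x.2.1 b + x.2.2.2 1 * p.2.1 b)
  e3 : ∀ c, c ≠ oC → c3 z.1 (scl oA (z.2 0) (z.2 3) x.1) (scl oB (z.2 1) 1 p.2.1) c
    + c3 z.1 (scl oA (z.2 0) (z.2 3) p.1) (scl oB (z.2 1) 1 x.2.1) c
    + (z.2 6 : ℂ) * (x.1 oA * p.2.1 oB + p.1 oA * x.2.1 oB) * h' c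
    = (z.2 7 : ℂ) * (p.2.2.2 2 * x.2.2.1 c + x.2.2.2 2 * p.2.2.1 c)
  e4 : (x.1 oA * p.2.1 oB * p.2.2.1 oC + p.1 oA * x.2.1 oB * p.2.2.1 oC
      + p.1 oA * p.2.1 oB * x.2.2.1 oC) * p.2.2.2 0
      + p.1 oA * p.2.1 oB * p.2.2.1 oC * x.2.2.2 0
    = 2 * dt (scl oB (z.2 1) 1 p.2.1) (scl oB (z.2 1) 1 x.2.1)
        * q (scl oC (z.2 2) (z.2 4) p.2.2.1)
      + q (scl oB (z.2 1) 1 p.2.1)
        * (2 * dt (scl oC (z.2 2) (z.2 4) p.2.2.1) (scl oC (z.2 2) (z.2 4) x.2.2.1))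
  e5 : (x.1 oA * p.2.1 oB * p.2.2.1 oC + p.1 oA * x.2.1 oB * p.2.2.1 oC
      + p.1 oA * p.2.1 oB * x.2.2.1 oC) * p.2.2.2 1
      + p.1 oA * p.2.1 oB * p.2.2.1 oC * x.2.2.2 1
    = 2 * dt (scl oA (z.2 0) (z.2 3) p.1) (scl oA (z.2 0) (z.2 3) x.1)
        * q (scl oC (z.2 2) (z.2 4) p.2.2.1)
      + q (scl oA (z.2 0) (z.2 3) p.1)
        * (2 * dt (scl oC (z.2 2) (z.2 4) p.2.2.1) (scl oC (z.2 2) (z.2 4) x.2.2.1))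
  e6 : (x.1 oA * p.2.1 oB * p.2.2.1 oC + p.1 oA * x.2.1 oB * p.2.2.1 oC
      + p.1 oA * p.2.1 oB * x.2.2.1 oC) * p.2.2.2 2
      + p.1 oA * p.2.1 oB * p.2.2.1 oC * x.2.2.2 2
    = 2 * dt (scl oA (z.2 0) (z.2 3) p.1) (scl oA (z.2 0) (z.2 3) x.1)
        * q (scl oB (z.2 1) 1 p.2.1)
      + q (scl oA (z.2 0) (z.2 3) p.1)
        * (2 * dt (scl oB (z.2 1) 1 p.2.1) (scl oB (z.2 1) 1 x.2.1))
  n1 : x.1 ia = 0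
  n2 : x.2.1 ib = 0
  n3 : x.2.2.1 ic = 0

/-- The coordinates `u oA`, `v oB`, `w oC` have the exact orders `ε ^ x i`. -/
def Sc (oA : A) (oB : B) (oC : C) (ε : ℕ → ℝ) (u : ℕ → A → ℂ) (v : ℕ → B → ℂ) (w : ℕ → C → ℂ)
    (x : Fin 3 → ℕ) : Prop :=
  ∃ X Y Z : ℂ, X ≠ 0 ∧ Y ≠ 0 ∧ Z ≠ 0 ∧
    Tendsto (fun n => u n oA / (ε n : ℂ) ^ x 0) uf (𝓝 X) ∧
    Tendsto (fun n => v n oB / (ε n : ℂ) ^ x 1) uf (𝓝 Y) ∧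
    Tendsto (fun n => w n oC / (ε n : ℂ) ^ x 2) uf (𝓝 Z)

/-- The limit equations. -/
structure LE (T : A → B → C → ℝ) (oA : A) (oB : B) (oC : C) (h : B → ℝ) (h' : C → ℝ) (u : A → ℂ)
    (v : B → ℂ) (w : C → ℂ) (α β γ N N' : ℂ) : Prop where
  hu : u ≠ 0
  hv : v ≠ 0
  hw : w ≠ 0
  e1 : ∀ a, a ≠ oA → c1 T v w a = α * u a
  e2 : ∀ b, b ≠ oB → c2 T u w b + N * h b = β * v b
  e3 : ∀ c, c ≠ oC → c3 T u v c + N' * h' c = γ * w c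

/-- The E case of the classification: the mask `x` of the second factor and `y` of the third factor;
`f = true` if the first factor has its full mask. -/
structure CE (T : A → B → C → ℝ) (oA : A) (oB : B) (oC : C) (h : B → ℝ) (h' : C → ℝ) (u : A → ℂ)
    (v : B → ℂ) (w : C → ℂ) (α β γ N N' : ℂ) (f : Bool) (x y : Fin 3) : Prop where
  le : LE T oA oB oC h h' u v w α β γ N N'
  tx : TX T (if f then Finset.univ else Finset.univ.erase oA) (XM oB h x) (XM oC h' y) u v w α β γ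
  hf : f = true ↔ u oA ≠ 0
  hx : x = 0 ↔ v oB ≠ 0
  hy : y = 0 ↔ w oC ≠ 0
  hN : x = 2 ↔ N ≠ 0
  hN' : y = 2 ↔ N' ≠ 0
  hxy : ¬ (x = 2 ∧ y = 2)
  hfx : f = true → x ≠ 0 ∧ y ≠ 0

end

end Pool.Agent.MPb0eK
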