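import Mathlib
import Pool.Agent.Lib.MP_b0e20b_ag_K.WDefs
import Pool.Agent.Lib.MP_b0e20b_ag_K.TXa
import Pool.Agent.Lib.MP_b0e20b_ag_R.AAlg

/-!
# MP_b0e20b_ag, project K: from the critical equations to the homogeneous system
-/

set_option autoImplicit false

open scoped BigOperators Topology
open Filter

namespace Pool.Agent.MPb0eK

open MPb0eR (c1 c2 c3 tr q Sup Rl Rea uf Nrm cj AF scl)

section

variable {A B C : Type} [Fintype A] [Fintype B] [Fintype C] [DecidableEq A] [DecidableEq B]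
  [DecidableEq C] {oA : A} {oB : B} {oC : C}
  {h : B → ℝ} {h' : C → ℝ}

variable {T : A → B → C → ℝ} {u : A → ℂ} {v : B → ℂ} {w : C → ℂ}

/-- The windowed tensor. -/
noncomputable def win (T : A → B → C → ℝ) (oA : A) (oB : B) (oC : C) (h : B → ℝ) (h' : C → ℝ) (l O
: ℝ) :
    A → B → C → ℝ :=
  fun a b c => l⁻¹ * (T a b c + (if a = oA ∧ c = oC then O * h b else 0)
    + if a = oA ∧ b = oB then O * h' c else 0)

private theorem afhs_c1 (l O : ℝ) (v : B → ℂ) (w : C → ℂ) {a : A} (ha : a ≠ oA) :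
    c1 (win T oA oB oC h h' l O) v w a = (l : ℂ)⁻¹ * c1 T v w a := by
  simp only [c1, win, Finset.mul_sum]
  refine Finset.sum_congr rfl fun b _ => Finset.sum_congr rfl fun c _ => ?_
  rw [if_neg fun x => ha x.1, if_neg fun x => ha x.1]
  push_cast
  ring

private theorem afhs_c2 (l O : ℝ) (u : A → ℂ) (w : C → ℂ) {b : B} (hb : b ≠ oB) :
    c2 (win T oA oB oC h h' l O) u w b =
      (l : ℂ)⁻¹ * (c2 T u w b + (O : ℂ) * (u oA * w oC) * h b) := by
  have e : (O : ℂ) * (u oA * w oC) * h b =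
      ∑ a, ∑ c, (if a = oA ∧ c = oC then (O : ℂ) * h b else 0) * u a * w c := by
    rw [Finset.sum_eq_single oA, Finset.sum_eq_single oC]
    · rw [if_pos ⟨rfl, rfl⟩]
      ring
    · intro c _ hc
      rw [if_neg fun x => hc x.2, zero_mul, zero_mul]
    · intro x
      exact absurd (Finset.mem_univ _) x
    · intro a _ ha
      refine Finset.sum_eq_zero fun c _ => ?_
      rw [if_neg fun x => ha x.1, zero_mul, zero_mul]
    · intro x
      exact absurd (Finset.mem_univ _) x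
  rw [e]
  simp only [c2, win]
  rw [← Finset.sum_add_distrib, Finset.mul_sum]
  refine Finset.sum_congr rfl fun a _ => ?_
  rw [← Finset.sum_add_distrib, Finset.mul_sum]
  refine Finset.sum_congr rfl fun c _ => ?_
  rw [if_neg (fun x => hb x.2 : ¬ (a = oA ∧ b = oB))]
  by_cases hx : a = oA ∧ c = oC
  · rw [if_pos hx, if_pos hx]
    push_cast
    ring
  · rw [if_neg hx, if_neg hx]
    push_cast
    ring

private theorem afhs_c3 (l O : ℝ) (u : A → ℂ) (v : B → ℂ) {c : C} (hc : c ≠ oC) :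
    c3 (win T oA oB oC h h' l O) u v c =
      (l : ℂ)⁻¹ * (c3 T u v c + (O : ℂ) * (u oA * v oB) * h' c) := by
  have e : (O : ℂ) * (u oA * v oB) * h' c =
      ∑ a, ∑ b, (if a = oA ∧ b = oB then (O : ℂ) * h' c else 0) * u a * v b := by
    rw [Finset.sum_eq_single oA, Finset.sum_eq_single oB]
    · rw [if_pos ⟨rfl, rfl⟩]
      ring
    · intro b _ hb
      rw [if_neg fun x => hb x.2, zero_mul, zero_mul]
    · intro x
      exact absurd (Finset.mem_univ _) x
    · intro a _ ha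
      refine Finset.sum_eq_zero fun b _ => ?_
      rw [if_neg fun x => ha x.1, zero_mul, zero_mul]
    · intro x
      exact absurd (Finset.mem_univ _) x
  rw [e]
  simp only [c3, win]
  rw [← Finset.sum_add_distrib, Finset.mul_sum]
  refine Finset.sum_congr rfl fun a _ => ?_
  rw [← Finset.sum_add_distrib, Finset.mul_sum]
  refine Finset.sum_congr rfl fun b _ => ?_
  rw [if_neg (fun x => hc x.2 : ¬ (a = oA ∧ c = oC))]
  by_cases hx : a = oA ∧ b = oB
  · rw [if_pos hx, if_pos hx]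
    push_cast
    ring
  · rw [if_neg hx, if_neg hx]
    push_cast
    ring

/-- The scaled vectors of a solution of `AF` for the windowed tensor satisfy `HS`.

Proof. For `a ≠ oA` the additional entries do not matter: `c1 T v w a = l q v q w u a`. For
`b ≠ oB`: `c2 T u w b + O h b u_o w_o = l q u q w v b` with `u_o = w_o = 1` (the entries with
`b' = oB` do not matter), for `c ≠ oC` the same. This is `HS` for `r = t = k = 1`,
`α = l q v q w` and so on. Rescaling: `u ↦ r u` and so on, `α ↦ t k r⁻¹ α`, `β ↦ r k t⁻¹ β`,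
`γ ↦ r t k⁻¹ γ`, `N ↦ r k N`, `N' ↦ r t N'`. -/
theorem hs_of_AF (ho : h oB = 0) (ho' : h' oC = 0) {l O : ℝ} (hl : l ≠ 0)
    (hA : AF (win T oA oB oC h h' l O) oA oB oC u v w) {r t k : ℂ} (hr : r ≠ 0) (ht : t ≠ 0)
    (hk : k ≠ 0) :
    ∃ α β γ N N' : ℂ, HS T oA oB oC h h' l O (r • u) (t • v) (k • w) α β γ N N' := by
  have hl' : (l : ℂ) ≠ 0 := Complex.ofReal_ne_zero.2 hl
  have e1 : ∀ a, a ≠ oA → c1 T v w a = l * (q v * q w * u a) := by
    intro a ha
    have h1 := hA.e1 a ha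
    rw [afhs_c1 l O v w ha] at h1
    rw [← h1]
    field_simp
  have e2 : ∀ b, b ≠ oB → c2 T u w b + (O : ℂ) * h b = l * (q u * q w * v b) := by
    intro b hb
    have h1 := hA.e2 b hb
    rw [afhs_c2 l O u w hb, hA.nu, hA.nw] at h1
    rw [← h1]
    field_simp
  have e3 : ∀ c, c ≠ oC → c3 T u v c + (O : ℂ) * h' c = l * (q u * q v * w c) := by
    intro c hc
    have h1 := hA.e3 c hc
    rw [afhs_c3 l O u v hc, hA.nu, hA.nv] at h1
    rw [← h1]
    field_simp
  refine ⟨t * k / r * (l * (q v * q w)), r * k / t * (l * (q u * q w)),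
    r * t / k * (l * (q u * q v)), r * k * O, r * t * O, ?_, ?_, ?_, ?_, ?_, ?_, ?_, ?_, ?_, ?_, ?_⟩
  · rw [Pi.smul_apply, smul_eq_mul, hA.nu, mul_one]
    exact hr
  · rw [Pi.smul_apply, smul_eq_mul, hA.nv, mul_one]
    exact ht
  · rw [Pi.smul_apply, smul_eq_mul, hA.nw, mul_one]
    exact hk
  · intro a ha
    rw [MPb0eR.c1_smul_left, MPb0eR.c1_smul_right, e1 a ha, Pi.smul_apply, smul_eq_mul]
    field_simp
  · intro b hb
    have h1 := e2 b hb
    rw [MPb0eR.c2_smul_left, MPb0eR.c2_smul_right, Pi.smul_apply, smul_eq_mul]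
    have h3 : r * k / t * (l * (q u * q w)) * (t * v b) = r * k * (l * (q u * q w * v b)) := by
      field_simp
    rw [h3, ← h1]
    ring
  · intro c hc
    have h1 := e3 c hc
    rw [MPb0eR.c3_smul_left, MPb0eR.c3_smul_right, Pi.smul_apply, smul_eq_mul]
    have h3 : r * t / k * (l * (q u * q v)) * (k * w c) = r * t * (l * (q u * q v * w c)) := by
      field_simp
    rw [h3, ← h1]
    ring
  · rw [Pi.smul_apply, Pi.smul_apply, smul_eq_mul, smul_eq_mul, hA.nu, hA.nw]
    ring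
  · rw [Pi.smul_apply, Pi.smul_apply, smul_eq_mul, smul_eq_mul, hA.nu, hA.nv]
    ring
  · rw [Pi.smul_apply, Pi.smul_apply, Pi.smul_apply, smul_eq_mul, smul_eq_mul, smul_eq_mul,
      hA.nu, hA.nv, hA.nw, MPb0eR.q_smul, MPb0eR.q_smul]
    field_simp
  · rw [Pi.smul_apply, Pi.smul_apply, Pi.smul_apply, smul_eq_mul, smul_eq_mul, smul_eq_mul,
      hA.nu, hA.nv, hA.nw, MPb0eR.q_smul, MPb0eR.q_smul]
    field_simp
  · rw [Pi.smul_apply, Pi.smul_apply, Pi.smul_apply, smul_eq_mul, smul_eq_mul, smul_eq_mul,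
      hA.nu, hA.nv, hA.nw, MPb0eR.q_smul, MPb0eR.q_smul]
    field_simp

end

end Pool.Agent.MPb0eK
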