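import Mathlib
import Pool.Agent.Lib.MP_b0e20b_ag_K.WDefs
import Pool.Agent.Lib.MP_b0e20b_ag_K.TXa
import Pool.Agent.Lib.MP_b0e20b_ag_R.Alg

/-!
# MP_b0e20b_ag, project K: identities of the homogeneous critical equations
-/

set_option autoImplicit false

open scoped BigOperators Topology
open Filter

namespace Pool.Agent.MPb0eK

open MPb0eR (c1 c2 c3 tr q Sup Rl Rea uf Nrm cj AF scl)

section

variable {A B C : Type} [Fintype A] [Fintype B] [Fintype C] [DecidableEq A] [DecidableEq B]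
  [DecidableEq C] {oA : A} {oB : B} {oC : C}
  {h : B → ℝ} {h' : C → ℝ}

variable {T : A → B → C → ℝ} {l O : ℝ} {u : A → ℂ} {v : B → ℂ} {w : C → ℂ} {α β γ N N' : ℂ}

/-- `α q u = β q v = γ q w` (multiply by `u_o v_o w_o`). -/
theorem HS.pi (hs : HS T oA oB oC h h' l O u v w α β γ N N') :
    α * q u = β * q v ∧ α * q u = γ * q w := by
  have hne : u oA * v oB * w oC ≠ 0 := mul_ne_zero (mul_ne_zero hs.xo hs.yo) hs.zo
  have e1 := hs.eα
  have e2 := hs.eβ
  have e3 := hs.eγ
  constructor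
  · apply mul_left_cancel₀ hne
    linear_combination q u * e1 - q v * e2
  · apply mul_left_cancel₀ hne
    linear_combination q u * e1 - q w * e3

/-- `N' w_o = N v_o`. -/
theorem HS.rr (hs : HS T oA oB oC h h' l O u v w α β γ N N') :
    N' * w oC = N * v oB ∧ N * v oB = (O : ℂ) * (u oA * v oB * w oC) := by
  rw [hs.eN, hs.eN']
  constructor <;> ring

/-- The products with `π = α q u`. -/
theorem HS.np (hs : HS T oA oB oC h h' l O u v w α β γ N N') :
    N * v oB * (α * q u) = (O : ℂ) * l * (q u * q v * q w) ∧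
    N * N' * (α * q u) = (O : ℂ) ^ 2 * l * (u oA * (q u * q v * q w)) ∧
    β * (N ^ 2 * v oB) = (O : ℂ) * l * (N * (q u * q w)) ∧
    γ * (N' ^ 2 * w oC) = (O : ℂ) * l * (N' * (q u * q v)) := by
  have e1 := hs.eα
  have e2 := hs.eβ
  have e3 := hs.eγ
  have eN := hs.eN
  have eN' := hs.eN'
  refine ⟨?_, ?_, ?_, ?_⟩
  · rw [eN]
    linear_combination (O : ℂ) * q u * e1
  · rw [eN, eN']
    linear_combination (O : ℂ) ^ 2 * u oA * q u * e1
  · rw [eN]
    linear_combination (O : ℂ) * ((O : ℂ) * (u oA * w oC)) * e2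
  · rw [eN']
    linear_combination (O : ℂ) * ((O : ℂ) * (u oA * v oB)) * e3

private theorem Ids_sum {ι : Type} [Fintype ι] [DecidableEq ι] (o : ι) (x c : ι → ℂ)
    (f : ι → ℝ) (m n : ℂ) (hf : f o = 0) (he : ∀ i, i ≠ o → c i + n * f i = m * x i) :
    ∑ i, x i * c i = x o * (c o - m * x o) + m * q x - n * pr f x := by
  have e : ∀ i ∈ Finset.univ.erase o, x i * c i = m * x i ^ 2 - n * ((f i : ℂ) * x i) := by
    intro i hi
    have := he i (Finset.ne_of_mem_erase hi)
    linear_combination x i * this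
  have e1 : ∑ i ∈ Finset.univ.erase o, x i * c i
      = m * (∑ i ∈ Finset.univ.erase o, x i ^ 2)
        - n * ∑ i ∈ Finset.univ.erase o, (f i : ℂ) * x i := by
    rw [Finset.sum_congr rfl e, Finset.sum_sub_distrib, Finset.mul_sum, Finset.mul_sum]
  have e2 : q x = x o ^ 2 + ∑ i ∈ Finset.univ.erase o, x i ^ 2 := by
    rw [q, Finset.add_sum_erase _ (fun i => x i ^ 2) (Finset.mem_univ o)]
  have e3 : pr f x = (f o : ℂ) * x o + ∑ i ∈ Finset.univ.erase o, (f i : ℂ) * x i := by
    rw [pr, Finset.add_sum_erase _ (fun i => (f i : ℂ) * x i) (Finset.mem_univ o)]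
  rw [← Finset.add_sum_erase _ (fun i => x i * c i) (Finset.mem_univ o), e1, e2, e3, hf]
  push_cast
  ring

/-- The trace identities. With `τA = c1 T v w oA` and so on: `T (u, v, w) - π` equals
`u_o (τA - α u_o)`, `v_o (τB - β v_o) - N h (v)` and `w_o (τC - γ w_o) - N' h' (w)`.

Proof. `tr_c1`: `T (u, v, w) = u_o τA + ∑ a ≠ oA, u a * (α * u a)`, and the other two
(`h oB = 0`, so the sum of `h b v b` over `b ≠ oB` is `pr h v`). -/
theorem HS.st (ho : h oB = 0) (ho' : h' oC = 0) (hs : HS T oA oB oC h h' l O u v w α β γ N N') :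
    u oA * (c1 T v w oA - α * u oA) = v oB * (c2 T u w oB - β * v oB) - N * pr h v ∧
    u oA * (c1 T v w oA - α * u oA) = w oC * (c3 T u v oC - γ * w oC) - N' * pr h' w := by
  obtain ⟨p1, p2⟩ := hs.pi
  have t1 := MPb0eR.tr_c1 T u v w
  have t2 := MPb0eR.tr_c2 T u v w
  have t3 := MPb0eR.tr_c3 T u v w
  have s1 := Ids_sum oA u (c1 T v w) (fun _ => 0) α 0 rfl fun a ha => by
    rw [hs.e1 a ha]
    simp
  have s2 := Ids_sum oB v (c2 T u w) h β N ho hs.e2
  have s3 := Ids_sum oC w (c3 T u v) h' γ N' ho' hs.e3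
  rw [s1] at t1
  rw [s2] at t2
  rw [s3] at t3
  constructor
  · linear_combination t2 - t1 - p1
  · linear_combination t3 - t1 - p2

end

end Pool.Agent.MPb0eK
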