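import Mathlib
import Pool.Agent.Lib.MP_b0e20b_ag_K.WDefs
import Pool.Agent.Lib.MP_b0e20b_ag_K.TXa
import Pool.Agent.Lib.MP_b0e20b_ag_K.Ids
import Pool.Agent.Lib.MP_b0e20b_ag_R.Cpt

/-!
# MP_b0e20b_ag, project K: classification: large `N`
-/

set_option autoImplicit false

open scoped BigOperators Topology
open Filter

namespace Pool.Agent.MPb0eK

open MPb0eR (c1 c2 c3 tr q Sup Rl Rea uf Nrm cj AF scl)

section

variable {A B C : Type} [Fintype A] [Fintype B] [Fintype C] [DecidableEq A] [DecidableEq B]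
  [DecidableEq C] {oA : A} {oB : B} {oC : C}
  {h : B → ℝ} {h' : C → ℝ}

variable {T : ℕ → A → B → C → ℝ} {T0 : A → B → C → ℝ} {ε : ℕ → ℝ} {ia : A} {ib : B} {ic : C}
  {u : ℕ → A → ℂ} {v : ℕ → B → ℂ} {w : ℕ → C → ℂ} {α β γ N N' : ℕ → ℂ}

omit [Fintype A] [DecidableEq A] [DecidableEq B] [DecidableEq C] in
private theorem Cls1_c1 {T : ℕ → A → B → C → ℝ} {T0 : A → B → C → ℝ}
    (hT : Tendsto T uf (𝓝 T0)) {v : ℕ → B → ℂ} {w : ℕ → C → ℂ} {v0 : B → ℂ} {w0 : C → ℂ}
    (hv : Tendsto v uf (𝓝 v0)) (hw : Tendsto w uf (𝓝 w0)) (a : A) :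
    Tendsto (fun n => c1 (T n) (v n) (w n) a) uf (𝓝 (c1 T0 v0 w0 a)) := by
  unfold MPb0eR.c1
  refine tendsto_finsetSum _ fun b _ => tendsto_finsetSum _ fun c _ => ?_
  have h1 := tendsto_pi_nhds.1 (tendsto_pi_nhds.1 (tendsto_pi_nhds.1 hT a) b) c
  exact ((Complex.continuous_ofReal.tendsto _).comp h1).mul
    ((tendsto_pi_nhds.1 hv b).mul (tendsto_pi_nhds.1 hw c))

omit [Fintype B] [DecidableEq A] [DecidableEq B] [DecidableEq C] in
private theorem Cls1_c2 {T : ℕ → A → B → C → ℝ} {T0 : A → B → C → ℝ}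
    (hT : Tendsto T uf (𝓝 T0)) {u : ℕ → A → ℂ} {w : ℕ → C → ℂ} {u0 : A → ℂ} {w0 : C → ℂ}
    (hu : Tendsto u uf (𝓝 u0)) (hw : Tendsto w uf (𝓝 w0)) (b : B) :
    Tendsto (fun n => c2 (T n) (u n) (w n) b) uf (𝓝 (c2 T0 u0 w0 b)) := by
  unfold MPb0eR.c2
  refine tendsto_finsetSum _ fun a _ => tendsto_finsetSum _ fun c _ => ?_
  have h1 := tendsto_pi_nhds.1 (tendsto_pi_nhds.1 (tendsto_pi_nhds.1 hT a) b) c
  exact ((Complex.continuous_ofReal.tendsto _).comp h1).mul
    ((tendsto_pi_nhds.1 hu a).mul (tendsto_pi_nhds.1 hw c))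

omit [Fintype C] [DecidableEq A] [DecidableEq B] [DecidableEq C] in
private theorem Cls1_c3 {T : ℕ → A → B → C → ℝ} {T0 : A → B → C → ℝ}
    (hT : Tendsto T uf (𝓝 T0)) {u : ℕ → A → ℂ} {v : ℕ → B → ℂ} {u0 : A → ℂ} {v0 : B → ℂ}
    (hu : Tendsto u uf (𝓝 u0)) (hv : Tendsto v uf (𝓝 v0)) (c : C) :
    Tendsto (fun n => c3 (T n) (u n) (v n) c) uf (𝓝 (c3 T0 u0 v0 c)) := by
  unfold MPb0eR.c3
  refine tendsto_finsetSum _ fun a _ => tendsto_finsetSum _ fun b _ => ?_
  have h1 := tendsto_pi_nhds.1 (tendsto_pi_nhds.1 (tendsto_pi_nhds.1 hT a) b) c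
  exact ((Complex.continuous_ofReal.tendsto _).comp h1).mul
    ((tendsto_pi_nhds.1 hu a).mul (tendsto_pi_nhds.1 hv b))

private theorem Cls1_top {x y z : ℕ → ℂ} {y0 : ℂ} (h : ∀ n, x n * y n = z n)
    (hy : Tendsto y uf (𝓝 y0)) (hz : Tendsto (fun n => ‖z n‖) uf atTop) :
    Tendsto (fun n => ‖x n‖) uf atTop := by
  have hM : 0 < ‖y0‖ + 1 := by positivity
  have h1 : ∀ᶠ n in uf, ‖y n‖ ≤ ‖y0‖ + 1 :=
    (hy.norm.eventually_lt_const (lt_add_one _)).mono fun n hn => hn.le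
  refine tendsto_atTop_mono' _ ?_ (hz.atTop_div_const hM)
  filter_upwards [h1] with n hn
  rw [div_le_iff₀ hM, ← h n, norm_mul]
  exact mul_le_mul_of_nonneg_left hn (norm_nonneg _)

private theorem Cls1_inv {x : ℕ → ℂ} (hx : Tendsto (fun n => ‖x n‖) uf atTop) :
    Tendsto (fun n => (x n)⁻¹) uf (𝓝 0) := by
  rw [tendsto_zero_iff_norm_tendsto_zero]
  simp only [norm_inv]
  exact hx.inv_tendsto_atTop

private theorem Cls1_zero {x y z : ℕ → ℂ} {z0 : ℂ} (h : ∀ n, x n * y n = z n)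
    (hx : Tendsto (fun n => ‖x n‖) uf atTop) (hz : Tendsto z uf (𝓝 z0)) :
    Tendsto y uf (𝓝 0) := by
  have h1 := hz.mul (Cls1_inv hx)
  rw [mul_zero] at h1
  refine h1.congr' ?_
  filter_upwards [hx.eventually_gt_atTop 0] with n hn
  rw [← h n]
  field_simp [norm_pos_iff.1 hn]

private theorem Cls1_mul_top {x y : ℕ → ℂ} {y0 : ℂ} (hy0 : y0 ≠ 0)
    (hx : Tendsto (fun n => ‖x n‖) uf atTop) (hy : Tendsto y uf (𝓝 y0)) :
    Tendsto (fun n => ‖x n * y n‖) uf atTop := by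
  simp only [norm_mul]
  exact hx.atTop_mul_pos (norm_pos_iff.2 hy0) hy.norm

/-- If `N` is unbounded, then the solution is near the point of type PL.

Proof (everything along `uf`). Let `β' = β / N`; from `e2`, `h b + c2 T u w b / N = β' v b` for
`b ≠ oB`, and `c2` is bounded. As `h ≠ 0` and `‖v b‖ ≤ 1`, `‖β'‖` is bounded below. From `HS.np`:
`β' (N ^ 2 v_o) = O l (q u q w)`, where `O l = ε ^ 6 → 0` (divide the third identity by `N`). So
`N ^ 2 v_o → 0`, `v_o → 0`. So `ib ≠ oB`, `v ib = 1` and `β' = h ib + o(1)`: `β'` tends to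
`b' := h ib ≠ 0` (real) and `v b → h b / b'` for `b ≠ oB`. So `q v` tends to `∑ h b ^ 2 / b' ^ 2 >
    0`, and
`π = β q v = β' N q v` is unbounded. `α q u = π` and `γ q w = π` and `q u`, `q w` are bounded, so
`‖α‖, ‖γ‖ → ∞`. As `α u a = c1` is bounded for `a ≠ oA`: `u a → 0`, so `ia = oA`, `u → e_oA`.
`N N' π = O ^ 2 l u_o q u q v q w` is bounded (`O ^ 2 l = ε ^ 2`), so `N' → 0`, and
`γ w c = c3 + N' h' c` is bounded, so `w c → 0` for `c ≠ oC`, `ic = oC`, `w → e_oC`.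
Scaling: `N = ε ^ (-4) u_o w_o`, `u_o w_o = 1` (the normalised coordinates), so `ε ^ 4 β = β'`
converges. `u_o v_o w_o β = ε ^ 10 q u q w`: `v_o / ε ^ 14 = q u q w / (ε ^ 4 β)`. `ε ^ 4 α =
ε ^ 4 β q v / q u` converges to a nonzero limit, the same for `γ`; `u a / ε ^ 4 = c1 / (ε ^ 4 α)`,
`w c / ε ^ 4 = (c3 + N' h' c) / (ε ^ 4 γ)` with `N' = ε ^ (-4) u_o v_o → 0`. -/
theorem cls1 (hY : HY3 T0 oA oB oC h h')
    (hS : SqH T T0 oA oB oC h h' ε ia ib ic u v w α β γ N N')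
    (hN : Tendsto (fun n => ‖N n‖) uf atTop) :
    ia = oA ∧ ib ≠ oB ∧ ic = oC ∧ ∃ (U : A → ℂ) (V : B → ℂ) (W : C → ℂ) (α0 β0 γ0 : ℂ),
      U oA = 1 ∧ V oB ≠ 0 ∧ W oC = 1 ∧
      Tendsto (fun n a => if a = oA then u n a else u n a / (ε n : ℂ) ^ 4) uf (𝓝 U) ∧
      Tendsto (fun n b => if b = oB then v n b / (ε n : ℂ) ^ 14 else v n b) uf (𝓝 V) ∧
      Tendsto (fun n c => if c = oC then w n c else w n c / (ε n : ℂ) ^ 4) uf (𝓝 W) ∧
      Tendsto (fun n => (ε n : ℂ) ^ 4 * α n) uf (𝓝 α0) ∧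
      Tendsto (fun n => (ε n : ℂ) ^ 4 * β n) uf (𝓝 β0) ∧
      Tendsto (fun n => (ε n : ℂ) ^ 4 * γ n) uf (𝓝 γ0) := by
  obtain ⟨u0, hu⟩ := MPb0eR.ulim_vec u 1 fun n a => (hS.nu n).2 a
  obtain ⟨v0, hv⟩ := MPb0eR.ulim_vec v 1 fun n a => (hS.nv n).2 a
  obtain ⟨w0, hw⟩ := MPb0eR.ulim_vec w 1 fun n a => (hS.nw n).2 a
  have hub := tendsto_pi_nhds.1 hu
  have hvb := tendsto_pi_nhds.1 hv
  have hwb := tendsto_pi_nhds.1 hw
  have hqu := MPb0eR.lim_q hu
  have hqv := MPb0eR.lim_q hv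
  have hqw := MPb0eR.lim_q hw
  have hεne : ∀ n, (ε n : ℂ) ≠ 0 := fun n => Complex.ofReal_ne_zero.2 (hS.pos n).ne'
  have hεc : Tendsto (fun n => (ε n : ℂ)) uf (𝓝 0) := by
    have h1 := (Complex.continuous_ofReal.tendsto 0).comp hS.hε
    rw [Complex.ofReal_zero] at h1
    exact h1
  have hNe : ∀ n, N n ≠ 0 := by
    intro n
    rw [(hS.sol n).eN]
    refine mul_ne_zero ?_ (mul_ne_zero (hS.sol n).xo (hS.sol n).zo)
    exact Complex.ofReal_ne_zero.2 (inv_ne_zero (pow_ne_zero _ (hS.pos n).ne'))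
  have hNi : Tendsto (fun n => (N n)⁻¹) uf (𝓝 0) := Cls1_inv hN
  have hb1 : ∀ b, b ≠ oB → Tendsto (fun n => β n / N n * v n b) uf (𝓝 (h b : ℂ)) := by
    intro b hb
    have h1 : (fun n => β n / N n * v n b)
        = fun n => c2 (T n) (u n) (w n) b * (N n)⁻¹ + h b := by
      funext n
      have h2 := (hS.sol n).e2 b hb
      have h3 := hNe n
      field_simp
      linear_combination -h2
    rw [h1]
    have h4 := ((Cls1_c2 hS.hT hu hw b).mul hNi).add_const (h b : ℂ)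
    simpa using h4
  obtain ⟨b1, hb1'⟩ := Function.ne_iff.1 hY.hne
  rw [Pi.zero_apply] at hb1'
  have hb1o : b1 ≠ oB := fun e => hb1' (by rw [e, hY.ho])
  have hc0 : 0 < ‖(h b1 : ℂ)‖ := norm_pos_iff.2 (Complex.ofReal_ne_zero.2 hb1')
  have hlow : ∀ᶠ n in uf, ‖(h b1 : ℂ)‖ / 2 ≤ ‖β n / N n‖ := by
    filter_upwards [(hb1 b1 hb1o).norm.eventually_const_lt (half_lt_self hc0)] with n hn
    rw [norm_mul] at hn
    refine hn.le.trans ?_
    exact mul_le_of_le_one_right (norm_nonneg _) ((hS.nv n).2 b1)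
  have hX : Tendsto (fun n => N n ^ 2 * v n oB) uf (𝓝 0) := by
    have h1 : Tendsto (fun n => (ε n : ℂ) ^ 6 * (q (u n) * q (w n))) uf (𝓝 0) := by
      have h2 := (hεc.pow 6).mul (hqu.mul hqw)
      simpa using h2
    have h3 : Tendsto (fun n => ‖(ε n : ℂ) ^ 6 * (q (u n) * q (w n))‖ / (‖(h b1 : ℂ)‖ / 2)) uf
        (𝓝 0) := by
      have h4 := h1.norm.div_const (‖(h b1 : ℂ)‖ / 2)
      simpa using h4
    refine squeeze_zero_norm' ?_ h3
    filter_upwards [hlow] with n hn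
    have h5 : β n / N n * (N n ^ 2 * v n oB) = (ε n : ℂ) ^ 6 * (q (u n) * q (w n)) := by
      have h6 := (hS.sol n).np.2.2.1
      have h7 := hNe n
      have h8 := hεne n
      rw [div_mul_eq_mul_div, h6]
      push_cast
      field_simp
    rw [le_div_iff₀ (half_pos hc0), ← h5, norm_mul (β n / N n) (N n ^ 2 * v n oB),
      mul_comm ‖N n ^ 2 * v n oB‖]
    exact mul_le_mul_of_nonneg_right hn (norm_nonneg _)
  have hvo : Tendsto (fun n => v n oB) uf (𝓝 0) := by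
    have h1 := hX.mul (hNi.mul hNi)
    rw [mul_zero, mul_zero] at h1
    refine h1.congr fun n => ?_
    have h2 := hNe n
    field_simp
  have hib : ib ≠ oB := by
    intro e
    have h1 : Tendsto (fun n => v n oB) uf (𝓝 1) := by
      refine tendsto_const_nhds.congr fun n => ?_
      rw [← e, (hS.nv n).1]
    exact one_ne_zero (tendsto_nhds_unique h1 hvo)
  have hβ' : Tendsto (fun n => β n / N n) uf (𝓝 (h ib : ℂ)) := by
    refine (hb1 ib hib).congr fun n => ?_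
    rw [(hS.nv n).1, mul_one]
  have hv0 : ∀ b, b ≠ oB → (h b : ℂ) = h ib * v0 b := fun b hb =>
    tendsto_nhds_unique (hb1 b hb) (hβ'.mul (hvb b))
  have hib0 : (h ib : ℂ) ≠ 0 := by
    intro e
    have h1 := hv0 b1 hb1o
    rw [e, zero_mul] at h1
    exact hb1' (Complex.ofReal_eq_zero.1 h1)
  have hv0o : v0 oB = 0 := tendsto_nhds_unique (hvb oB) hvo
  have hnv0 := MPb0eR.Nrm.lim hS.nv hv
  have hre : Rea v0 := by
    intro b
    by_cases hb : b = oB
    · rw [hb, hv0o, Complex.zero_im]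
    · have h1 : v0 b = ((h b / h ib : ℝ) : ℂ) := by
        rw [Complex.ofReal_div, hv0 b hb]
        field_simp
      rw [h1, Complex.ofReal_im]
  have hqv0 : q v0 ≠ 0 := q_ne (MPb0eR.Rea.rl hre) (MPb0eR.Nrm.ne hnv0)
  have hπ : Tendsto (fun n => ‖β n * q (v n)‖) uf atTop := by
    have h1 := Cls1_mul_top (mul_ne_zero hib0 hqv0) hN (hβ'.mul hqv)
    refine h1.congr fun n => ?_
    have h2 := hNe n
    congr 1
    field_simp
  have hα : Tendsto (fun n => ‖α n‖) uf atTop :=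
    Cls1_top (fun n => (hS.sol n).pi.1) hqu hπ
  have hγ : Tendsto (fun n => ‖γ n‖) uf atTop :=
    Cls1_top (fun n => (hS.sol n).pi.2.symm.trans (hS.sol n).pi.1) hqw hπ
  have hua : ∀ a, a ≠ oA → Tendsto (fun n => u n a) uf (𝓝 0) := fun a ha =>
    Cls1_zero (fun n => ((hS.sol n).e1 a ha).symm) hα (Cls1_c1 hS.hT hv hw a)
  have hN' : Tendsto N' uf (𝓝 0) := by
    have h1 : Tendsto (fun n => ‖N n * (α n * q (u n))‖) uf atTop := by
      have h2 : Tendsto (fun n => ‖α n * q (u n)‖) uf atTop := by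
        refine hπ.congr fun n => ?_
        rw [(hS.sol n).pi.1]
      have h3 := hN.atTop_mul_atTop₀ h2
      refine h3.congr fun n => ?_
      rw [norm_mul (N n)]
    refine Cls1_zero (z := fun n => (ε n : ℂ) ^ 2 *
      (u n oA * (q (u n) * q (v n) * q (w n)))) ?_ h1
      ((hεc.pow 2).mul ((hub oA).mul ((hqu.mul hqv).mul hqw)))
    intro n
    have h4 := (hS.sol n).np.2.1
    have h8 := hεne n
    have h9 : N n * (α n * q (u n)) * N' n = N n * N' n * (α n * q (u n)) := by ring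
    rw [h9, h4]
    push_cast
    field_simp
  have hwc : ∀ c, c ≠ oC → Tendsto (fun n => w n c) uf (𝓝 0) := fun c hc =>
    Cls1_zero (fun n => ((hS.sol n).e3 c hc).symm) hγ
      ((Cls1_c3 hS.hT hu hv c).add (hN'.mul_const (h' c : ℂ)))
  have hia : ia = oA := by
    by_contra e
    have h1 : Tendsto (fun n => u n ia) uf (𝓝 1) :=
      tendsto_const_nhds.congr fun n => ((hS.nu n).1).symm
    exact one_ne_zero (tendsto_nhds_unique h1 (hua ia e))
  have hic : ic = oC := by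
    by_contra e
    have h1 : Tendsto (fun n => w n ic) uf (𝓝 1) :=
      tendsto_const_nhds.congr fun n => ((hS.nw n).1).symm
    exact one_ne_zero (tendsto_nhds_unique h1 (hwc ic e))
  have huo : ∀ n, u n oA = 1 := fun n => by rw [← hia]; exact (hS.nu n).1
  have hwo : ∀ n, w n oC = 1 := fun n => by rw [← hic]; exact (hS.nw n).1
  have hu0 : ∀ a, a ≠ oA → u0 a = 0 := fun a ha => tendsto_nhds_unique (hub a) (hua a ha)
  have hw0 : ∀ c, c ≠ oC → w0 c = 0 := fun c hc => tendsto_nhds_unique (hwb c) (hwc c hc)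
  have hu1 : u0 oA = 1 := by
    refine tendsto_nhds_unique (hub oA) (tendsto_const_nhds.congr fun n => (huo n).symm)
  have hw1 : w0 oC = 1 := by
    refine tendsto_nhds_unique (hwb oC) (tendsto_const_nhds.congr fun n => (hwo n).symm)
  have hqu0 : q u0 = 1 := by
    unfold MPb0eR.q
    rw [Finset.sum_eq_single oA (fun a _ ha => by rw [hu0 a ha]; ring)
      (fun hn => absurd (Finset.mem_univ _) hn), hu1, one_pow]
  have hqw0 : q w0 = 1 := by
    unfold MPb0eR.q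
    rw [Finset.sum_eq_single oC (fun a _ ha => by rw [hw0 a ha]; ring)
      (fun hn => absurd (Finset.mem_univ _) hn), hw1, one_pow]
  have hN1 : ∀ n, N n = ((ε n : ℂ) ^ 4)⁻¹ := by
    intro n
    rw [(hS.sol n).eN, huo n, hwo n]
    push_cast
    ring
  have hβ : Tendsto (fun n => (ε n : ℂ) ^ 4 * β n) uf (𝓝 (h ib : ℂ)) := by
    refine hβ'.congr fun n => ?_
    rw [hN1 n, div_inv_eq_mul, mul_comm]
  have hqune : ∀ᶠ n in uf, q (u n) ≠ 0 := by
    rw [hqu0] at hqu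
    exact hqu.eventually_ne one_ne_zero
  have hqwne : ∀ᶠ n in uf, q (w n) ≠ 0 := by
    rw [hqw0] at hqw
    exact hqw.eventually_ne one_ne_zero
  have hαl : Tendsto (fun n => (ε n : ℂ) ^ 4 * α n) uf (𝓝 (h ib * q v0)) := by
    have h1 := (hβ.mul hqv).div hqu (by rw [hqu0]; exact one_ne_zero)
    rw [hqu0, div_one] at h1
    refine h1.congr' ?_
    filter_upwards [hqune] with n hn
    have h2 := (hS.sol n).pi.1
    simp only [Pi.div_apply]
    field_simp
    linear_combination (-(ε n : ℂ) ^ 4) * h2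
  have hγl : Tendsto (fun n => (ε n : ℂ) ^ 4 * γ n) uf (𝓝 (h ib * q v0)) := by
    have h1 := (hβ.mul hqv).div hqw (by rw [hqw0]; exact one_ne_zero)
    rw [hqw0, div_one] at h1
    refine h1.congr' ?_
    filter_upwards [hqwne] with n hn
    have h2 := (hS.sol n).pi.2.symm.trans (hS.sol n).pi.1
    simp only [Pi.div_apply]
    field_simp
    linear_combination (-(ε n : ℂ) ^ 4) * h2
  have hk0 : (h ib : ℂ) * q v0 ≠ 0 := mul_ne_zero hib0 hqv0
  have hαne : ∀ᶠ n in uf, (ε n : ℂ) ^ 4 * α n ≠ 0 := hαl.eventually_ne hk0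
  have hγne : ∀ᶠ n in uf, (ε n : ℂ) ^ 4 * γ n ≠ 0 := hγl.eventually_ne hk0
  have hβne : ∀ᶠ n in uf, (ε n : ℂ) ^ 4 * β n ≠ 0 := hβ.eventually_ne hib0
  refine ⟨hia, hib, hic, fun a => if a = oA then 1 else c1 T0 v0 w0 a / (h ib * q v0),
    fun b => if b = oB then 1 * 1 / (h ib : ℂ) else v0 b,
    fun c => if c = oC then 1 else (c3 T0 u0 v0 c + 0 * h' c) / (h ib * q v0),
    h ib * q v0, h ib, h ib * q v0, if_pos rfl, ?_, if_pos rfl, ?_, ?_, ?_, hαl, hβ, hγl⟩
  · simp only [if_true]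
    rw [one_mul]
    exact one_div_ne_zero hib0
  · refine tendsto_pi_nhds.2 fun a => ?_
    by_cases ha : a = oA
    · simp only [ha, if_true]
      exact tendsto_const_nhds.congr fun n => (huo n).symm
    · simp only [ha, if_false]
      refine ((Cls1_c1 hS.hT hv hw a).div hαl hk0).congr' ?_
      filter_upwards [hαne] with n hn
      have h1 := (hS.sol n).e1 a ha
      have h2 := hεne n
      have h3 : α n ≠ 0 := right_ne_zero_of_mul hn
      simp only [Pi.div_apply]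
      rw [h1]
      field_simp
  · refine tendsto_pi_nhds.2 fun b => ?_
    by_cases hb : b = oB
    · simp only [hb, if_true]
      have h0 : Tendsto (fun n => q (u n) * q (w n) / ((ε n : ℂ) ^ 4 * β n)) uf
          (𝓝 (1 * 1 / (h ib : ℂ))) := by
        rw [hqu0] at hqu
        rw [hqw0] at hqw
        exact (hqu.mul hqw).div hβ hib0
      refine h0.congr' ?_
      filter_upwards [hβne] with n hn
      have h1 := (hS.sol n).eβ
      rw [huo n, hwo n] at h1
      have h2 := hεne n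
      have h3 : β n ≠ 0 := right_ne_zero_of_mul hn
      push_cast at h1
      field_simp
      linear_combination -h1
    · simp only [hb, if_false]
      exact hvb b
  · refine tendsto_pi_nhds.2 fun c => ?_
    by_cases hc : c = oC
    · simp only [hc, if_true]
      exact tendsto_const_nhds.congr fun n => (hwo n).symm
    · simp only [hc, if_false]
      refine (((Cls1_c3 hS.hT hu hv c).add (hN'.mul_const (h' c : ℂ))).div hγl hk0).congr' ?_
      filter_upwards [hγne] with n hn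
      have h1 := (hS.sol n).e3 c hc
      have h2 := hεne n
      have h3 : γ n ≠ 0 := right_ne_zero_of_mul hn
      simp only [Pi.div_apply]
      rw [h1]
      field_simp

end

end Pool.Agent.MPb0eK
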