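import Mathlib
import Pool.Agent.Lib.MP_b0e20b_ag_K.WDefs
import Pool.Agent.Lib.MP_b0e20b_ag_K.TXa
import Pool.Agent.Lib.MP_b0e20b_ag_K.Ids
import Pool.Agent.Lib.MP_b0e20b_ag_R.Cpt

/-!
# MP_b0e20b_ag, project K: classification: bounded `N`, `N`-prime
-/

set_option autoImplicit false

open scoped BigOperators Topology
open Filter

namespace Pool.Agent.MPb0eK

open MPb0eR (c1 c2 c3 tr q Sup Rl Rea uf Nrm cj AF scl)

section

variable {A B C : Type} [Fintype A] [Fintype B] [Fintype C] [DecidableEq A] [DecidableEq B]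
  [DecidableEq C] {oA : A} {oB : B} {oC : C}
  {h : B → ℝ} {h' : C → ℝ}

variable {T : ℕ → A → B → C → ℝ} {T0 : A → B → C → ℝ} {ε : ℕ → ℝ} {ia : A} {ib : B} {ic : C}
  {u : ℕ → A → ℂ} {v : ℕ → B → ℂ} {w : ℕ → C → ℂ} {α β γ N N' : ℕ → ℂ}

/-- If a product converges and one factor is unbounded, the other factor tends to zero. -/
private theorem cls2_zero {x y : ℕ → ℂ} {z y0 : ℂ} (hx : Tendsto (fun n => ‖x n‖) uf atTop)
    (hxy : Tendsto (fun n => x n * y n) uf (𝓝 z)) (hy : Tendsto y uf (𝓝 y0)) : y0 = 0 := by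
  have h1 : Tendsto (fun n => ‖x n‖⁻¹ * ‖x n * y n‖) uf (𝓝 (0 * ‖z‖)) :=
    (tendsto_inv_atTop_zero.comp hx).mul hxy.norm
  rw [zero_mul] at h1
  have h2 : Tendsto (fun n => ‖y n‖) uf (𝓝 0) := by
    refine h1.congr' ?_
    filter_upwards [hx.eventually_gt_atTop 0] with n hn
    rw [norm_mul, ← mul_assoc, inv_mul_cancel₀ hn.ne', one_mul]
  exact norm_eq_zero.1 (tendsto_nhds_unique hy.norm h2)

/-- A vector whose products with an unbounded sequence converge outside one index. -/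
private theorem cls2_vec {I : Type} [Fintype I] {o i : I} {y : ℕ → I → ℂ} {y0 : I → ℂ}
    {x : ℕ → ℂ} (hn : ∀ n, Nrm (y n) i) (hy : Tendsto y uf (𝓝 y0))
    (hx : Tendsto (fun n => ‖x n‖) uf atTop)
    (hb : ∀ a, a ≠ o → ∃ z, Tendsto (fun n => x n * y n a) uf (𝓝 z)) :
    i = o ∧ Tendsto (fun n => ‖x n * q (y n)‖) uf atTop := by
  classical
  have h0 : ∀ a, a ≠ o → y0 a = 0 := by
    intro a ha
    obtain ⟨z, hz⟩ := hb a ha
    exact cls2_zero hx hz ((tendsto_pi_nhds.1 hy) a)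
  have hN := MPb0eR.Nrm.lim hn hy
  have hi : i = o := by
    by_contra hne
    have h1 := hN.1
    rw [h0 i hne] at h1
    exact zero_ne_one h1
  refine ⟨hi, ?_⟩
  have hq0 : q y0 = 1 := by
    have h1 : q y0 = y0 o ^ 2 := by
      unfold MPb0eR.q
      refine Finset.sum_eq_single o (fun b _ hb' => ?_) (fun h' => absurd (Finset.mem_univ o) h')
      rw [h0 b hb']
      ring
    rw [h1, ← hi, hN.1]
    norm_num
  have hq : Tendsto (fun n => ‖q (y n)‖) uf (𝓝 1) := by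
    have h1 := (MPb0eR.lim_q hy).norm
    rwa [hq0, norm_one] at h1
  have h2 : Tendsto (fun n => ‖x n‖ * ‖q (y n)‖) uf atTop :=
    hx.atTop_mul_pos one_pos hq
  refine h2.congr fun n => ?_
  rw [norm_mul]

/-- If a product is unbounded and one factor converges, the other factor is unbounded. -/
private theorem cls2_top {x z : ℕ → ℂ} {z0 : ℂ}
    (hx : Tendsto (fun n => ‖x n * z n‖) uf atTop) (hz : Tendsto z uf (𝓝 z0)) :
    Tendsto (fun n => ‖x n‖) uf atTop := by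
  have hpos : 0 < ‖z0‖ + 1 := by positivity
  have h1 : ∀ᶠ n in uf, ‖z n‖ < ‖z0‖ + 1 :=
    hz.norm.eventually_lt_const (by linarith)
  have h2 : Tendsto (fun n => ‖x n * z n‖ / (‖z0‖ + 1)) uf atTop :=
    hx.atTop_div_const hpos
  refine tendsto_atTop_mono' uf ?_ h2
  filter_upwards [h1] with n hn
  rw [div_le_iff₀ hpos, norm_mul]
  exact mul_le_mul_of_nonneg_left hn.le (norm_nonneg _)

/-- If `N` and `N'` are bounded, then everything converges, and the limit equations hold.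

Proof. By `ualt`-type arguments: `N → N0`, `N' → N0'`; `u, v, w` converge (`Nrm`). The multipliers
are
bounded: suppose `‖β‖ → ∞`. Then `v b → 0` for `b ≠ oB` (`β v b = c2 + N h b` is bounded), so
`v → e_oB`, `q v → 1`, `‖π‖ = ‖β q v‖ → ∞`, so `‖α‖, ‖γ‖ → ∞` (`π = α q u = γ q w`, `q` bounded),
so `u → e_oA`, `w → e_oC`, and `N = ε ^ (-4) u_o w_o` is unbounded, contradiction. The same for
`‖α‖`,
`‖γ‖`. -/
theorem cls2 (hY : HY3 T0 oA oB oC h h')
    (hS : SqH T T0 oA oB oC h h' ε ia ib ic u v w α β γ N N') {M : ℝ}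
    (hN : ∀ᶠ n in uf, ‖N n‖ ≤ M) (hN' : ∀ᶠ n in uf, ‖N' n‖ ≤ M) :
    ∃ (u0 : A → ℂ) (v0 : B → ℂ) (w0 : C → ℂ) (α0 β0 γ0 N0 N0' : ℂ),
      LmH u v w α β γ N N' u0 v0 w0 α0 β0 γ0 N0 N0' ∧
      LE T0 oA oB oC h h' u0 v0 w0 α0 β0 γ0 N0 N0' := by
  obtain ⟨u0, hu⟩ := MPb0eR.ulim_vec u 1 fun n => (hS.nu n).2
  obtain ⟨v0, hv⟩ := MPb0eR.ulim_vec v 1 fun n => (hS.nv n).2
  obtain ⟨w0, hw⟩ := MPb0eR.ulim_vec w 1 fun n => (hS.nw n).2
  obtain ⟨N0, hN0⟩ := MPb0eR.ulim_c N M hN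
  obtain ⟨N0', hN0'⟩ := MPb0eR.ulim_c N' M hN'
  have l1 : ∀ a, Tendsto (fun n => c1 (T n) (v n) (w n) a) uf (𝓝 (c1 T0 v0 w0 a)) := fun a =>
    tendsto_pi_nhds.1 (((MPb0eR.continuous_c1T).tendsto (T0, v0, w0)).comp
      (hS.hT.prodMk_nhds (hv.prodMk_nhds hw))) a
  have l2 : ∀ b, Tendsto (fun n => c2 (T n) (u n) (w n) b) uf (𝓝 (c2 T0 u0 w0 b)) := fun b =>
    tendsto_pi_nhds.1 (((MPb0eR.continuous_c2T).tendsto (T0, u0, w0)).comp
      (hS.hT.prodMk_nhds (hu.prodMk_nhds hw))) b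
  have l3 : ∀ c, Tendsto (fun n => c3 (T n) (u n) (v n) c) uf (𝓝 (c3 T0 u0 v0 c)) := fun c =>
    tendsto_pi_nhds.1 (((MPb0eR.continuous_c3T).tendsto (T0, u0, v0)).comp
      (hS.hT.prodMk_nhds (hu.prodMk_nhds hv))) c
  have m2 : ∀ b, Tendsto (fun n => c2 (T n) (u n) (w n) b + N n * h b) uf
      (𝓝 (c2 T0 u0 w0 b + N0 * h b)) := fun b => (l2 b).add (hN0.mul_const _)
  have m3 : ∀ c, Tendsto (fun n => c3 (T n) (u n) (v n) c + N' n * h' c) uf
      (𝓝 (c3 T0 u0 v0 c + N0' * h' c)) := fun c => (l3 c).add (hN0'.mul_const _)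
  have b1 : ∀ a, a ≠ oA → ∃ z, Tendsto (fun n => α n * u n a) uf (𝓝 z) := fun a ha =>
    ⟨_, (l1 a).congr fun n => (hS.sol n).e1 a ha⟩
  have b2 : ∀ b, b ≠ oB → ∃ z, Tendsto (fun n => β n * v n b) uf (𝓝 z) := fun b hb =>
    ⟨_, (m2 b).congr fun n => (hS.sol n).e2 b hb⟩
  have b3 : ∀ c, c ≠ oC → ∃ z, Tendsto (fun n => γ n * w n c) uf (𝓝 z) := fun c hc =>
    ⟨_, (m3 c).congr fun n => (hS.sol n).e3 c hc⟩
  have qu := MPb0eR.lim_q hu
  have qv := MPb0eR.lim_q hv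
  have qw := MPb0eR.lim_q hw
  have pi1 : ∀ n, α n * q (u n) = β n * q (v n) := fun n => ((hS.sol n).pi).1
  have pi2 : ∀ n, α n * q (u n) = γ n * q (w n) := fun n => ((hS.sol n).pi).2
  -- `α` and `γ` cannot both be unbounded
  have key : Tendsto (fun n => ‖α n‖) uf atTop → Tendsto (fun n => ‖γ n‖) uf atTop → False := by
    intro ha hg
    obtain ⟨e1, -⟩ := cls2_vec hS.nu hu ha b1
    obtain ⟨e3, -⟩ := cls2_vec hS.nw hw hg b3
    have hNn : ∀ n, ‖N n‖ = (ε n ^ 4)⁻¹ := by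
      intro n
      have h1 : u n oA = 1 := by
        rw [← e1]
        exact (hS.nu n).1
      have h3 : w n oC = 1 := by
        rw [← e3]
        exact (hS.nw n).1
      have hp : 0 < (ε n ^ 4)⁻¹ := inv_pos.2 (pow_pos (hS.pos n) 4)
      rw [(hS.sol n).eN, h1, h3, mul_one, mul_one, Complex.norm_real, Real.norm_eq_abs,
        abs_of_pos hp]
    have hε4 : Tendsto (fun n => ε n ^ 4) uf (𝓝[>] 0) := by
      refine tendsto_nhdsWithin_iff.2 ⟨?_, Eventually.of_forall fun n => pow_pos (hS.pos n) 4⟩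
      have h1 := hS.hε.pow 4
      rwa [zero_pow (by norm_num)] at h1
    have htop : Tendsto (fun n => ‖N n‖) uf atTop := by
      have h1 : Tendsto (fun n => (ε n ^ 4)⁻¹) uf atTop := tendsto_inv_nhdsGT_zero.comp hε4
      exact h1.congr fun n => (hNn n).symm
    obtain ⟨n, hn1, hn2⟩ := (hN.and (htop.eventually_gt_atTop M)).exists
    exact absurd hn1 (not_le.2 hn2)
  have top_of : ∀ {x z : ℕ → ℂ}, (Tendsto (fun n => ‖x n‖) uf atTop) → (∀ n, x n = z n) →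
      Tendsto (fun n => ‖z n‖) uf atTop := fun hx he => hx.congr fun n => by rw [he n]
  have nb : ¬ Tendsto (fun n => ‖β n‖) uf atTop := by
    intro hb
    obtain ⟨-, hp⟩ := cls2_vec hS.nv hv hb b2
    have hA : Tendsto (fun n => ‖α n * q (u n)‖) uf atTop := top_of hp fun n => (pi1 n).symm
    have hC : Tendsto (fun n => ‖γ n * q (w n)‖) uf atTop := top_of hA fun n => pi2 n
    exact key (cls2_top hA qu) (cls2_top hC qw)
  have na : ¬ Tendsto (fun n => ‖α n‖) uf atTop := by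
    intro ha
    obtain ⟨-, hp⟩ := cls2_vec hS.nu hu ha b1
    have hB : Tendsto (fun n => ‖β n * q (v n)‖) uf atTop := top_of hp fun n => pi1 n
    exact nb (cls2_top hB qv)
  have ng : ¬ Tendsto (fun n => ‖γ n‖) uf atTop := by
    intro hg
    obtain ⟨-, hp⟩ := cls2_vec hS.nw hw hg b3
    have hA : Tendsto (fun n => ‖α n * q (u n)‖) uf atTop := top_of hp fun n => (pi2 n).symm
    exact na (cls2_top hA qu)
  obtain ⟨α0, hα⟩ := (MPb0eR.ualt α).resolve_right na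
  obtain ⟨β0, hβ⟩ := (MPb0eR.ualt β).resolve_right nb
  obtain ⟨γ0, hγ⟩ := (MPb0eR.ualt γ).resolve_right ng
  refine ⟨u0, v0, w0, α0, β0, γ0, N0, N0', ⟨hu, hv, hw, hα, hβ, hγ, hN0, hN0'⟩, ?_⟩
  have nz : ∀ {I : Type} [Fintype I] {y0 : I → ℂ} {i : I}, Nrm y0 i → y0 ≠ 0 := by
    intro I _ y0 i hn h0
    have h1 := hn.1
    rw [h0] at h1
    exact zero_ne_one h1
  refine ⟨nz (MPb0eR.Nrm.lim hS.nu hu), nz (MPb0eR.Nrm.lim hS.nv hv),
    nz (MPb0eR.Nrm.lim hS.nw hw), fun a ha => ?_, fun b hb => ?_, fun c hc => ?_⟩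
  · refine tendsto_nhds_unique (l1 a) ?_
    refine (hα.mul ((tendsto_pi_nhds.1 hu) a)).congr fun n => ?_
    exact ((hS.sol n).e1 a ha).symm
  · refine tendsto_nhds_unique (m2 b) ?_
    refine (hβ.mul ((tendsto_pi_nhds.1 hv) b)).congr fun n => ?_
    exact ((hS.sol n).e2 b hb).symm
  · refine tendsto_nhds_unique (m3 c) ?_
    refine (hγ.mul ((tendsto_pi_nhds.1 hw) c)).congr fun n => ?_
    exact ((hS.sol n).e3 c hc).symm

end

end Pool.Agent.MPb0eK
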