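import Mathlib
import Pool.Agent.Lib.MP_b0e20b_ag_K.Defs

/-!
# MP_b0e20b_ag, project K: rigidity
-/

set_option autoImplicit false

open scoped BigOperators Topology
open Filter

namespace Pool.Agent.MPb0eK

open MPb0eR (c1 c2 c3 tr q Sup Rl Rea uf Nrm cj AF scl)

private theorem rig_curve {Z E F : Type} [NormedAddCommGroup Z] [NormedSpace ℝ Z]
    [NormedAddCommGroup E] [NormedSpace ℝ E] [NormedAddCommGroup F] [NormedSpace ℝ F]
    (Φ : Z × E → F) (hΦ : ContDiff ℝ 1 Φ) (z0 : Z) (p0 x : E) :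
    HasDerivAt (fun t : ℝ => Φ (z0, p0 + t • x)) (fderiv ℝ Φ (z0, p0) (0, x)) 0 := by
  have h1 : HasDerivAt (fun t : ℝ => ((z0, p0 + t • x) : Z × E)) ((0 : Z), x) 0 := by
    have h2 : HasDerivAt (fun t : ℝ => p0 + t • x) x 0 := by
      have h3 := ((hasDerivAt_id (0 : ℝ)).smul_const x).const_add p0
      simpa using h3
    exact (hasDerivAt_const (0 : ℝ) z0).prodMk h2
  have h4 : HasFDerivAt Φ (fderiv ℝ Φ (z0, p0)) ((fun t : ℝ => ((z0, p0 + t • x) : Z × E)) 0) := by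
    have h5 : ((fun t : ℝ => ((z0, p0 + t • x) : Z × E)) 0) = (z0, p0) := by simp
    rw [h5]
    exact ((hΦ.differentiable one_ne_zero) (z0, p0)).hasFDerivAt
  exact h4.comp_hasDerivAt (0 : ℝ) h1

private theorem rig_lower {Z E F : Type} [NormedAddCommGroup Z] [NormedSpace ℝ Z]
    [NormedAddCommGroup E] [NormedSpace ℝ E] [FiniteDimensional ℝ E] [NormedAddCommGroup F]
    [NormedSpace ℝ F] (Φ : Z × E → F) (hΦ : ContDiff ℝ 1 Φ) {z0 : Z} {p0 : E}
    (hk : ∀ x : E, HasDerivAt (fun t : ℝ => Φ (z0, p0 + t • x)) 0 0 → x = 0) :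
    ∃ c : ℝ, 0 < c ∧ ∀ x : E, c * ‖x‖ ≤ ‖fderiv ℝ Φ (z0, p0) (0, x)‖ := by
  have hinj : LinearMap.ker ((fderiv ℝ Φ (z0, p0)).toLinearMap ∘ₗ LinearMap.inr ℝ Z E) = ⊥ := by
    rw [LinearMap.ker_eq_bot']
    intro x hx
    apply hk
    have h1 := rig_curve Φ hΦ z0 p0 x
    have h2 : fderiv ℝ Φ (z0, p0) (0, x) = 0 := hx
    rw [h2] at h1
    exact h1
  obtain ⟨K, hK, hanti⟩ := LinearMap.exists_antilipschitzWith _ hinj
  refine ⟨(K : ℝ)⁻¹, inv_pos.2 (by exact_mod_cast hK), fun x => ?_⟩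
  have h1 := hanti.le_mul_dist x 0
  rw [map_zero, dist_zero_right, dist_zero_right] at h1
  have h2 : ‖((fderiv ℝ Φ (z0, p0)).toLinearMap ∘ₗ LinearMap.inr ℝ Z E) x‖ =
      ‖fderiv ℝ Φ (z0, p0) (0, x)‖ := rfl
  rw [h2] at h1
  have hK' : (0 : ℝ) < K := by exact_mod_cast hK
  rw [inv_mul_le_iff₀ hK']
  exact h1

/-- Two sequences of points with the same values, which tend to a point with injective derivative
(in
the direction of the second factor), are eventually equal.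

Proof. `Φ` has a strict derivative `D` at `(z0, p0)` (`ContDiff.hasStrictFDerivAt`), and
`D (0, x) = 0` implies `x = 0` by `hk` (chain rule with the curve `t ↦ (z0, p0 + t x)`). Suppose
that the
claim fails; then `p n ≠ p' n` eventually (ultrafilter). The unit vectors
`x n = (p n - p' n) / ‖p n - p' n‖` have a limit `x0` with `‖x0‖ = 1` along the ultrafilter
(the sphere is compact), and by the strict derivative
`0 = (Φ (z n, p n) - Φ (z n, p' n)) / ‖p n - p' n‖ = D (0, x n) + o(1)`. So `D (0, x0) = 0`. -/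
theorem rig {Z E F : Type} [NormedAddCommGroup Z] [NormedSpace ℝ Z] [NormedAddCommGroup E]
    [NormedSpace ℝ E] [FiniteDimensional ℝ E] [NormedAddCommGroup F] [NormedSpace ℝ F]
    (Φ : Z × E → F) (hΦ : ContDiff ℝ 1 Φ) {z0 : Z} {p0 : E}
    (hk : ∀ x : E, HasDerivAt (fun t : ℝ => Φ (z0, p0 + t • x)) 0 0 → x = 0) {z : ℕ → Z}
    {p p' : ℕ → E} (hz : Tendsto z uf (𝓝 z0)) (hp : Tendsto p uf (𝓝 p0))
    (hp' : Tendsto p' uf (𝓝 p0)) (he : ∀ᶠ n in uf, Φ (z n, p n) = Φ (z n, p' n)) :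
    ∀ᶠ n in uf, p n = p' n := by
  obtain ⟨c, hc, hlow⟩ := rig_lower Φ hΦ hk
  have hst : HasStrictFDerivAt Φ (fderiv ℝ Φ (z0, p0)) (z0, p0) :=
    (hΦ.contDiffAt).hasStrictFDerivAt one_ne_zero
  have h1 := hst.isLittleO.def (half_pos hc)
  have h2 : Tendsto (fun n => (((z n, p n) : Z × E), ((z n, p' n) : Z × E))) uf
      (𝓝 ((z0, p0), (z0, p0))) :=
    (hz.prodMk_nhds hp).prodMk_nhds (hz.prodMk_nhds hp')
  filter_upwards [h2.eventually h1, he] with n h3 h4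
  have h5 : ‖Φ (z n, p n) - Φ (z n, p' n) - fderiv ℝ Φ (z0, p0) ((z n, p n) - (z n, p' n))‖ ≤
      c / 2 * ‖((z n, p n) : Z × E) - (z n, p' n)‖ := h3
  have h6 : ((z n, p n) : Z × E) - (z n, p' n) = (0, p n - p' n) := by
    rw [Prod.mk_sub_mk, sub_self]
  have h7 : ‖((0 : Z), p n - p' n)‖ = ‖p n - p' n‖ := by
    rw [Prod.norm_def]
    simp
  rw [h6, h7, h4, sub_self, zero_sub, norm_neg] at h5
  have h8 := hlow (p n - p' n)
  have h9 : ‖p n - p' n‖ ≤ 0 := by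
    by_contra hneg
    push Not at hneg
    nlinarith
  exact sub_eq_zero.1 (norm_le_zero_iff.1 h9)

/-- The kernel stays trivial near the limit.

Proof. Otherwise there are unit vectors `x n` with derivative zero at `(z n, p n)` in the direction
`(0, x n)` (`x / ‖x‖`), they have a limit `x0`, and `fderiv Φ (z n, p n) (0, x n)` tends to
`fderiv Φ (z0, p0) (0, x0)`, by the continuity of `fderiv`. -/
theorem rig_ker {Z E F : Type} [NormedAddCommGroup Z] [NormedSpace ℝ Z] [NormedAddCommGroup E]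
    [NormedSpace ℝ E] [FiniteDimensional ℝ E] [NormedAddCommGroup F] [NormedSpace ℝ F]
    (Φ : Z × E → F) (hΦ : ContDiff ℝ 1 Φ) {z0 : Z} {p0 : E}
    (hk : ∀ x : E, HasDerivAt (fun t : ℝ => Φ (z0, p0 + t • x)) 0 0 → x = 0) {z : ℕ → Z}
    {p : ℕ → E} (hz : Tendsto z uf (𝓝 z0)) (hp : Tendsto p uf (𝓝 p0)) :
    ∀ᶠ n in uf, ∀ x : E, HasDerivAt (fun t : ℝ => Φ (z n, p n + t • x)) 0 0 → x = 0 := by
  obtain ⟨c, hc, hlow⟩ := rig_lower Φ hΦ hk
  have hcont : Continuous (fun w : Z × E => fderiv ℝ Φ w) := hΦ.continuous_fderiv one_ne_zero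
  have h1 : Tendsto (fun n => fderiv ℝ Φ (z n, p n)) uf (𝓝 (fderiv ℝ Φ (z0, p0))) :=
    (hcont.tendsto (z0, p0)).comp (hz.prodMk_nhds hp)
  have h2 := Metric.tendsto_nhds.1 h1 (c / 2) (half_pos hc)
  filter_upwards [h2] with n h3 x hx
  have h4 : fderiv ℝ Φ (z n, p n) (0, x) = 0 := (rig_curve Φ hΦ (z n) (p n) x).unique hx
  have h5 := hlow x
  have h6 : ‖(fderiv ℝ Φ (z n, p n) - fderiv ℝ Φ (z0, p0)) (0, x)‖ ≤ c / 2 * ‖x‖ := by
    refine (ContinuousLinearMap.le_opNorm _ _).trans ?_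
    have h7 : ‖((0 : Z), x)‖ = ‖x‖ := by
      rw [Prod.norm_def]
      simp
    rw [h7]
    rw [dist_eq_norm] at h3
    exact mul_le_mul_of_nonneg_right h3.le (norm_nonneg _)
  rw [ContinuousLinearMap.sub_apply, h4, zero_sub, norm_neg] at h6
  have h9 : ‖x‖ ≤ 0 := by
    by_contra hneg
    push Not at hneg
    nlinarith
  exact norm_le_zero_iff.1 h9

end Pool.Agent.MPb0eK
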