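import Mathlib
import Pool.Agent.Lib.MP_b0e20b_ag_K.WDefs
import Pool.Agent.Lib.MP_b0e20b_ag_K.TXa
import Pool.Agent.Lib.MP_b0e20b_ag_K.Rig

/-!
# MP_b0e20b_ag, project K: the local system of the D types
-/

set_option autoImplicit false

open scoped BigOperators Topology
open Filter

namespace Pool.Agent.MPb0eK

open MPb0eR (c1 c2 c3 tr q Sup Rl Rea uf Nrm cj AF scl)

private theorem locD_scl_cj {X : Type} [DecidableEq X] (o : X) (x y : ℝ) (u : X → ℂ) :
    scl o x y (cj u) = cj (scl o x y u) := by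
  ext a
  simp only [scl, cj, map_mul, Complex.conj_ofReal]

private theorem locD_q_cj {X : Type} [Fintype X] (u : X → ℂ) :
    q (cj u) = starRingEnd ℂ (q u) := by
  simp only [q, cj, map_sum, map_pow]

private theorem locD_of {E : Type} [NormedAddCommGroup E] [NormedSpace ℝ E] {f : E → ℝ}
    (hf : ContDiff ℝ 1 f) : ContDiff ℝ 1 fun x => ((f x : ℝ) : ℂ) :=
  Complex.ofRealCLM.contDiff.comp hf

private theorem locD_scl {E : Type} [NormedAddCommGroup E] [NormedSpace ℝ E] {X : Type}
    [DecidableEq X] (o : X) {f g : E → ℝ} {u : E → X → ℂ} (hf : ContDiff ℝ 1 f)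
    (hg : ContDiff ℝ 1 g) (hu : ∀ a, ContDiff ℝ 1 fun x => u x a) (a : X) :
    ContDiff ℝ 1 fun x => scl o (f x) (g x) (u x) a := by
  simp only [scl]
  by_cases h : a = o
  · simp only [h, if_true]
    exact (locD_of hf).mul (hu o)
  · simp only [h, if_false]
    exact (locD_of hg).mul (hu a)

private theorem locD_qs {E : Type} [NormedAddCommGroup E] [NormedSpace ℝ E] {X : Type}
    [Fintype X] {u : E → X → ℂ} (hu : ∀ a, ContDiff ℝ 1 fun x => u x a) :
    ContDiff ℝ 1 fun x => q (u x) := by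
  simp only [q]
  exact ContDiff.sum fun a _ => (hu a).pow 2

private theorem locD_c {E : Type} [NormedAddCommGroup E] [NormedSpace ℝ E] {X Y : Type}
    [Fintype X] [Fintype Y] {T : E → X → Y → ℝ} {u : E → X → ℂ} {v : E → Y → ℂ}
    (hT : ∀ a b, ContDiff ℝ 1 fun x => T x a b) (hu : ∀ a, ContDiff ℝ 1 fun x => u x a)
    (hv : ∀ a, ContDiff ℝ 1 fun x => v x a) :
    ContDiff ℝ 1 fun x => ∑ a, ∑ b, (T x a b : ℂ) * (u x a * v x b) :=
  ContDiff.sum fun a _ => ContDiff.sum fun b _ => (locD_of (hT a b)).mul ((hu a).mul (hv b))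

private theorem locD_cjc {X : Type} : Continuous (cj : (X → ℂ) → X → ℂ) :=
  continuous_pi fun a => Complex.continuous_conj.comp (continuous_apply a)

section

variable {A B C : Type} [Fintype A] [Fintype B] [Fintype C] [DecidableEq A] [DecidableEq B]
  [DecidableEq C]

variable (oA : A) (oB : B) (oC : C) (h : B → ℝ) (h' : C → ℝ) (ia : A) (ib : B) (ic : C)

/-- Smoothness of `locD`. -/
theorem locD_contDiff : ContDiff ℝ 1
    fun x : ((A → B → C → ℝ) × (Fin 9 → ℝ)) × PK A B C => locD oA oB oC h h' ia ib ic x.1 x.2 := by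
  have hT : ∀ a b c, ContDiff ℝ 1
      fun x : ((A → B → C → ℝ) × (Fin 9 → ℝ)) × PK A B C => x.1.1 a b c := fun a b c => by
    fun_prop
  have hz : ∀ i, ContDiff ℝ 1
      fun x : ((A → B → C → ℝ) × (Fin 9 → ℝ)) × PK A B C => x.1.2 i := fun i => by
    fun_prop
  have h1 : ∀ a, ContDiff ℝ 1
      fun x : ((A → B → C → ℝ) × (Fin 9 → ℝ)) × PK A B C => x.2.1 a := fun a => by
    fun_prop
  have h2 : ∀ a, ContDiff ℝ 1
      fun x : ((A → B → C → ℝ) × (Fin 9 → ℝ)) × PK A B C => x.2.2.1 a := fun a => by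
    fun_prop
  have h3 : ∀ a, ContDiff ℝ 1
      fun x : ((A → B → C → ℝ) × (Fin 9 → ℝ)) × PK A B C => x.2.2.2.1 a := fun a => by
    fun_prop
  have h4 : ∀ a, ContDiff ℝ 1
      fun x : ((A → B → C → ℝ) × (Fin 9 → ℝ)) × PK A B C => x.2.2.2.2 a := fun a => by
    fun_prop
  have su := locD_scl oA (hz 0) (hz 3) h1
  have sv := locD_scl oB (hz 1) (contDiff_const (c := (1 : ℝ))) h2
  have sw := locD_scl oC (hz 2) (hz 4) h3
  have hX := ((h1 oA).mul (h2 oB)).mul (h3 oC)
  refine ContDiff.prodMk (contDiff_pi.2 fun a => ?_) (ContDiff.prodMk (contDiff_pi.2 fun b => ?_)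
    (ContDiff.prodMk (contDiff_pi.2 fun c => ?_) (contDiff_pi.2 fun i => ?_)))
  · by_cases ha : a = oA
    · simp only [ha, if_true]
      exact (hX.mul (h4 0)).sub ((locD_qs sv).mul (locD_qs sw))
    · simp only [ha, if_false]
      exact (locD_c (fun b c => hT a b c) sv sw).sub ((locD_of (hz 7)).mul ((h4 0).mul (h1 a)))
  · by_cases hb : b = oB
    · simp only [hb, if_true]
      exact (hX.mul (h4 1)).sub ((locD_qs su).mul (locD_qs sw))
    · simp only [hb, if_false]
      exact (((locD_of (hz 8)).mul (locD_c (fun a c => hT a b c) su sw)).add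
        (((locD_of (hz 5)).mul ((h1 oA).mul (h3 oC))).mul contDiff_const)).sub
        ((locD_of (hz 7)).mul ((h4 1).mul (h2 b)))
  · by_cases hc : c = oC
    · simp only [hc, if_true]
      exact (hX.mul (h4 2)).sub ((locD_qs su).mul (locD_qs sv))
    · simp only [hc, if_false]
      exact ((locD_c (fun a b => hT a b c) su sv).add
        (((locD_of (hz 6)).mul ((h1 oA).mul (h2 oB))).mul contDiff_const)).sub
        ((locD_of (hz 7)).mul ((h4 2).mul (h3 c)))
  · fin_cases i
    · exact (h1 ia).sub contDiff_const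
    · exact (h2 ib).sub contDiff_const
    · exact (h3 ic).sub contDiff_const

theorem locD_cj (z : (A → B → C → ℝ) × (Fin 9 → ℝ)) (p : PK A B C) :
    locD oA oB oC h h' ia ib ic z (cjK p) = cjK (locD oA oB oC h h' ia ib ic z p) := by
  obtain ⟨u, v, w, x⟩ := p
  refine Prod.ext (funext fun i => ?_) (Prod.ext (funext fun i => ?_) (Prod.ext (funext fun i => ?_)
    (funext fun i => ?_)))
  · simp only [locD, cjK, locD_scl_cj, locD_q_cj, MPb0eR.c1_cj]
    simp only [cj]
    split_ifs <;> simp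
  · simp only [locD, cjK, locD_scl_cj, locD_q_cj, MPb0eR.c2_cj]
    simp only [cj]
    split_ifs <;> simp
  · simp only [locD, cjK, locD_scl_cj, locD_q_cj, MPb0eR.c3_cj]
    simp only [cj]
    split_ifs <;> simp
  · simp only [locD, cjK, locD_scl_cj, locD_q_cj]
    simp only [cj]
    fin_cases i <;> simp

/-- Real near a real nondegenerate limit point. Proof: `rig` for `p` and `p' n = cjK (p n)`. -/
theorem locD_rig {z : ℕ → (A → B → C → ℝ) × (Fin 9 → ℝ)} {z0 : (A → B → C → ℝ) × (Fin 9 → ℝ)}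
    {p : ℕ → PK A B C} {p0 : PK A B C} (hz : Tendsto z uf (𝓝 z0)) (hp : Tendsto p uf (𝓝 p0))
    (h0 : ∀ n, locD oA oB oC h h' ia ib ic (z n) (p n) = 0) (hr : cjK p0 = p0)
    (hk : ∀ x, HasDerivAt (fun t : ℝ => locD oA oB oC h h' ia ib ic z0 (p0 + t • x)) 0 0 →
      x = 0) :
    ∀ᶠ n in uf, cjK (p n) = p n := by
  have hc : Continuous (cjK : PK A B C → PK A B C) :=
    Continuous.prodMk (locD_cjc.comp continuous_fst) (Continuous.prodMk
      (locD_cjc.comp (continuous_fst.comp continuous_snd)) (Continuous.prodMk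
      (locD_cjc.comp (continuous_fst.comp (continuous_snd.comp continuous_snd)))
      (locD_cjc.comp (continuous_snd.comp (continuous_snd.comp continuous_snd)))))
  have hp' : Tendsto (fun n => cjK (p n)) uf (𝓝 p0) := by
    have := (hc.tendsto p0).comp hp
    rwa [hr] at this
  refine rig (fun x : ((A → B → C → ℝ) × (Fin 9 → ℝ)) × PK A B C =>
    locD oA oB oC h h' ia ib ic x.1 x.2) (locD_contDiff oA oB oC h h' ia ib ic) hk hz hp' hp
    (Eventually.of_forall fun n => ?_)
  simp only [locD_cj, h0 n]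
  simp [cjK, cj, funext_iff]

end

end Pool.Agent.MPb0eK
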