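import Mathlib
import Pool.Agent.Lib.MP_b0e20b_ag_K.WDefs
import Pool.Agent.Lib.MP_b0e20b_ag_K.TXa
import Pool.Agent.Lib.MP_b0e20b_ag_K.Ids

/-!
# MP_b0e20b_ag, project K: scaling to the local systems
-/

set_option autoImplicit false

open scoped BigOperators Topology
open Filter

namespace Pool.Agent.MPb0eK

open MPb0eR (c1 c2 c3 tr q Sup Rl Rea uf Nrm cj AF scl)

section

variable {A B C : Type} [Fintype A] [Fintype B] [Fintype C] [DecidableEq A] [DecidableEq B]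
  [DecidableEq C] {oA : A} {oB : B} {oC : C}
  {h : B → ℝ} {h' : C → ℝ}

variable {T : A → B → C → ℝ} {u : A → ℂ} {v : B → ℂ} {w : C → ℂ} {α β γ N N' : ℂ}

private theorem ScE_o {I : Type} [DecidableEq I] (o : I) (e f : ℝ) (x : I → ℂ) :
    scl o e f x o = (e : ℂ) * x o := by
  simp only [scl, if_true]

private theorem ScE_n {I : Type} [DecidableEq I] {o : I} (e f : ℝ) (x : I → ℂ) {i : I}
    (hi : i ≠ o) : scl o e f x i = (f : ℂ) * x i := by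
  simp only [scl, if_neg hi]

private theorem ScE_scl {I : Type} [DecidableEq I] (o : I) {e e' f f' : ℝ} (he : e' * e = 1)
    (hf : f' * f = 1) (x : I → ℂ) : scl o e f (scl o e' f' x) = x := by
  have h1 : (e' : ℂ) * e = 1 := by exact_mod_cast he
  have h2 : (f' : ℂ) * f = 1 := by exact_mod_cast hf
  funext i
  by_cases hi : i = o
  · subst hi
    rw [ScE_o, ScE_o]
    linear_combination x i * h1
  · rw [ScE_n _ _ _ hi, ScE_n _ _ _ hi]
    linear_combination x i * h2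

private theorem ScE_nrm {I : Type} [DecidableEq I] {o i : I} {e' e f' : ℝ} (he : e' * e = 1)
    {x : I → ℂ} (h1 : x i = 1) (ho : i = o → e = 1) (hi : i ≠ o → f' = 1) :
    scl o e' f' x i - 1 = 0 := by
  by_cases h : i = o
  · have h2 := ho h
    rw [h2, mul_one] at he
    subst h
    rw [ScE_o, he, h1]
    push_cast
    ring
  · rw [ScE_n _ _ _ h, hi h, h1]
    push_cast
    ring

/-- The general form of the scaling to `locE`. -/
private theorem ScE_main (ho : h oB = 0) (ho' : h' oC = 0) {e : ℝ} (he : 0 < e)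
    (hs : HS T oA oB oC h h' (e ^ 10) ((e ^ 4)⁻¹) u v w α β γ N N') {eA eB eC eA' eB' eC' n n' : ℝ}
    (hA : eA' * eA = 1) (hB : eB' * eB = 1) (hC : eC' * eC = 1) (hn : n * e ^ 4 = eA * eC)
    (hn' : n' * e ^ 4 = eA * eB) (hp : eA * eB * eC = e ^ 10) {z : Fin 15 → ℝ} (z0 : z 0 = eA)
    (z1 : z 1 = eB) (z2 : z 2 = eC) (z3 : z 3 = n) (z4 : z 4 = n')
    (f1 : ∃ l m : ℝ, z 5 = -(l + m) * eA ∧ z 6 = l * eB ∧ z 7 = -l * n ∧ z 8 = m * eC ∧
      z 9 = -m * n')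
    (f2 : ∃ l m : ℝ, z 10 = -(l + m) * eA ∧ z 11 = l * eB ∧ z 12 = -l * n ∧ z 13 = m * eC ∧
      z 14 = -m * n') {ia : A} {ib : B} {ic : C} (h1 : u ia = 1) (h2 : v ib = 1) (h3 : w ic = 1)
    (ja : ia = oA → eA = 1) (jb : ib = oB → eB = 1) (jc : ic = oC → eC = 1) :
    locE oA oB oC h h' ia ib ic (T, z)
      (scl oA eA' 1 u, scl oB eB' 1 v, scl oC eC' 1 w, ![α, β, γ]) = 0 := by
  have hu : scl oA eA 1 (scl oA eA' 1 u) = u := ScE_scl oA hA (one_mul 1) u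
  have hv : scl oB eB 1 (scl oB eB' 1 v) = v := ScE_scl oB hB (one_mul 1) v
  have hw : scl oC eC 1 (scl oC eC' 1 w) = w := ScE_scl oC hC (one_mul 1) w
  have he0 : (e : ℂ) ≠ 0 := by exact_mod_cast he.ne'
  have hA1 : (eA' : ℂ) * eA = 1 := by exact_mod_cast hA
  have hB1 : (eB' : ℂ) * eB = 1 := by exact_mod_cast hB
  have hC1 : (eC' : ℂ) * eC = 1 := by exact_mod_cast hC
  have hn1 : (n : ℂ) * (e : ℂ) ^ 4 = eA * eC := by exact_mod_cast hn
  have hn1' : (n' : ℂ) * (e : ℂ) ^ 4 = eA * eB := by exact_mod_cast hn'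
  have hp1 : (eA : ℂ) * eB * eC = (e : ℂ) ^ 10 := by exact_mod_cast hp
  have e4 : (e : ℂ) ^ 4 ≠ 0 := pow_ne_zero 4 he0
  have eN : N * (e : ℂ) ^ 4 = u oA * w oC := by
    rw [hs.eN]
    push_cast
    field_simp
  have eN' : N' * (e : ℂ) ^ 4 = u oA * v oB := by
    rw [hs.eN']
    push_cast
    field_simp
  have eα : u oA * v oB * w oC * α = (e : ℂ) ^ 10 * (q v * q w) := by
    rw [hs.eα]
    push_cast
    ring
  obtain ⟨s1, s2⟩ := hs.st ho ho'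
  -- `n X Z = N`
  have kN : (n : ℂ) * (eA' * u oA * (eC' * w oC)) = N := by
    apply mul_right_cancel₀ e4
    rw [eN]
    linear_combination (eA' : ℂ) * eC' * u oA * w oC * hn1
      + u oA * w oC * ((eC' : ℂ) * eC * hA1 + hC1)
  have kN' : (n' : ℂ) * (eA' * u oA * (eB' * v oB)) = N' := by
    apply mul_right_cancel₀ e4
    rw [eN']
    linear_combination (eA' : ℂ) * eB' * u oA * v oB * hn1'
      + u oA * v oB * ((eB' : ℂ) * eB * hA1 + hB1)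
  -- the combinations
  have key : ∀ z5 z6 z7 z8 z9 : ℝ, (∃ l m : ℝ, z5 = -(l + m) * eA ∧ z6 = l * eB ∧ z7 = -l * n ∧
      z8 = m * eC ∧ z9 = -m * n') →
      (z5 : ℂ) * (eA' * u oA * (c1 T v w oA - α * u oA))
        + (z6 : ℂ) * (eB' * v oB * (c2 T u w oB - β * v oB))
        + (z7 : ℂ) * (eA' * u oA * (eC' * w oC) * pr h v)
        + (z8 : ℂ) * (eC' * w oC * (c3 T u v oC - γ * w oC))
        + (z9 : ℂ) * (eA' * u oA * (eB' * v oB) * pr h' w) = 0 := by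
    rintro z5 z6 z7 z8 z9 ⟨l, m, rfl, rfl, rfl, rfl, rfl⟩
    push_cast
    linear_combination -(l : ℂ) * s1 - (m : ℂ) * s2
      - ((l : ℂ) + m) * (u oA * (c1 T v w oA - α * u oA)) * hA1
      + (l : ℂ) * (v oB * (c2 T u w oB - β * v oB)) * hB1
      + (m : ℂ) * (w oC * (c3 T u v oC - γ * w oC)) * hC1
      - (l : ℂ) * pr h v * kN - (m : ℂ) * pr h' w * kN'
  have kf1 := key (z 5) (z 6) (z 7) (z 8) (z 9) f1
  have kf2 := key (z 10) (z 11) (z 12) (z 13) (z 14) f2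
  unfold locE
  simp only [z0, z1, z2, z3, z4, hu, hv, hw]
  simp only [ScE_o]
  refine Prod.ext (funext fun a => ?_) (Prod.ext (funext fun b => ?_)
    (Prod.ext (funext fun c => ?_) (funext fun i => ?_)))
  · show (if a = oA then _ else _) = (0 : ℂ)
    split_ifs with hi
    · exact kf1
    · show c1 T v w a - α * scl oA eA' 1 u a = 0
      rw [ScE_n _ _ _ hi, hs.e1 a hi]
      push_cast
      ring
  · show (if b = oB then _ else _) = (0 : ℂ)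
    split_ifs with hi
    · exact kf2
    · show c2 T u w b + (n : ℂ) * (eA' * u oA * (eC' * w oC)) * h b - β * scl oB eB' 1 v b = 0
      rw [ScE_n _ _ _ hi, kN, hs.e2 b hi]
      push_cast
      ring
  · show (if c = oC then _ else _) = (0 : ℂ)
    split_ifs with hi
    · show eA' * u oA * (eB' * v oB) * (eC' * w oC) * α - q v * q w = 0
      linear_combination (eA' : ℂ) * eB' * eC' * eα - (eA' : ℂ) * eB' * eC' * (q v * q w) * hp1
        + q v * q w * ((eB' : ℂ) * eB * (eC' * eC) * hA1 + (eC' : ℂ) * eC * hB1 + hC1)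
    · show c3 T u v c + (n' : ℂ) * (eA' * u oA * (eB' * v oB)) * h' c - γ * scl oC eC' 1 w c = 0
      rw [ScE_n _ _ _ hi, kN', hs.e3 c hi]
      push_cast
      ring
  · fin_cases i
    · exact ScE_nrm hA h1 ja fun _ => rfl
    · exact ScE_nrm hB h2 jb fun _ => rfl
    · exact ScE_nrm hC h3 jc fun _ => rfl

private theorem ScE_z (k : Fin 8) (e : ℝ) : zE k e 0 = e ^ xE k 0 ∧ zE k e 1 = e ^ xE k 1 ∧
    zE k e 2 = e ^ xE k 2 ∧ zE k e 3 * e ^ 4 = e ^ xE k 0 * e ^ xE k 2 ∧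
    zE k e 4 * e ^ 4 = e ^ xE k 0 * e ^ xE k 1 ∧
    e ^ xE k 0 * e ^ xE k 1 * e ^ xE k 2 = e ^ 10 := by
  fin_cases k <;> simp [zE, xE] <;> ring_nf <;> simp

private theorem ScE_f1 (k : Fin 8) {e : ℝ} (he : 0 < e) : ∃ l m : ℝ,
    zE k e 5 = -(l + m) * e ^ xE k 0 ∧ zE k e 6 = l * e ^ xE k 1 ∧ zE k e 7 = -l * zE k e 3 ∧
    zE k e 8 = m * e ^ xE k 2 ∧ zE k e 9 = -m * zE k e 4 := by
  have he0 : e ≠ 0 := he.ne'
  fin_cases k
  · exact ⟨1, 0, by simp [zE, xE]⟩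
  · exact ⟨(e ^ 3)⁻¹, 0, by simp [zE, xE]; field_simp; simp⟩
  · exact ⟨1, 0, by simp [zE, xE]⟩
  · exact ⟨(e ^ 3)⁻¹, 0, by simp [zE, xE]; field_simp; simp⟩
  · exact ⟨(e ^ 2)⁻¹, 0, by simp [zE, xE]; field_simp; simp⟩
  · exact ⟨1, 0, by simp [zE, xE]⟩
  · exact ⟨1, 0, by simp [zE, xE]⟩
  · exact ⟨1, 0, by simp [zE, xE]⟩

private theorem ScE_f2 (k : Fin 8) {e : ℝ} (he : 0 < e) : ∃ l m : ℝ,
    zE k e 10 = -(l + m) * e ^ xE k 0 ∧ zE k e 11 = l * e ^ xE k 1 ∧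
    zE k e 12 = -l * zE k e 3 ∧ zE k e 13 = m * e ^ xE k 2 ∧ zE k e 14 = -m * zE k e 4 := by
  have he0 : e ≠ 0 := he.ne'
  fin_cases k
  · exact ⟨0, 1, by simp [zE, xE]⟩
  · exact ⟨0, 1, by simp [zE, xE]⟩
  · exact ⟨0, 1, by simp [zE, xE]⟩
  · exact ⟨0, (e ^ 3)⁻¹, by simp [zE, xE]; field_simp; simp⟩
  · exact ⟨0, (e ^ 2)⁻¹, by simp [zE, xE]; field_simp; simp⟩
  · exact ⟨0, (e ^ 2)⁻¹, by simp [zE, xE]; field_simp; simp⟩
  · exact ⟨e⁻¹, -e⁻¹, by simp [zE, xE]; field_simp; simp⟩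
  · exact ⟨0, 1, by simp [zE, xE]⟩

/-- The general form of the scaling to `locD`. -/
private theorem ScE_mainD {e : ℝ} (he : 0 < e)
    (hs : HS T oA oB oC h h' (e ^ 10) ((e ^ 4)⁻¹) u v w α β γ N N')
    {eA eB eC eA' eB' eC' F F' n n' m μ : ℝ}
    (hA : eA' * eA = 1) (hB : eB' * eB = 1) (hC : eC' * eC = 1) (hF : F' * F = 1)
    (hm : m * μ = F) (hn : n * e ^ 4 = F * (eA * eC)) (hn' : n' * e ^ 4 = eA * eB)
    (hp : eA * eB * eC = μ * e ^ 10) {z : Fin 9 → ℝ} (z0 : z 0 = eA)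
    (z1 : z 1 = eB) (z2 : z 2 = eC) (z3 : z 3 = F) (z4 : z 4 = F) (z5 : z 5 = n) (z6 : z 6 = n')
    (z7 : z 7 = m) (z8 : z 8 = F) {ia : A} {ib : B} {ic : C} (h1 : u ia = 1) (h2 : v ib = 1)
    (h3 : w ic = 1) (ja : ia = oA → eA = 1) (jb : ib = oB → eB = 1) (jc : ic = oC → eC = 1)
    (ka : ia ≠ oA → F' = 1) (kc : ic ≠ oC → F' = 1) :
    locD oA oB oC h h' ia ib ic (T, z)
      (scl oA eA' F' u, scl oB eB' 1 v, scl oC eC' F' w,
        ![(μ : ℂ) * α, (μ : ℂ) * β, (μ : ℂ) * γ]) = 0 := by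
  have hu : scl oA eA F (scl oA eA' F' u) = u := ScE_scl oA hA hF u
  have hv : scl oB eB 1 (scl oB eB' 1 v) = v := ScE_scl oB hB (one_mul 1) v
  have hw : scl oC eC F (scl oC eC' F' w) = w := ScE_scl oC hC hF w
  have he0 : (e : ℂ) ≠ 0 := by exact_mod_cast he.ne'
  have hA1 : (eA' : ℂ) * eA = 1 := by exact_mod_cast hA
  have hB1 : (eB' : ℂ) * eB = 1 := by exact_mod_cast hB
  have hC1 : (eC' : ℂ) * eC = 1 := by exact_mod_cast hC
  have hF1 : (F' : ℂ) * F = 1 := by exact_mod_cast hF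
  have hm1 : (m : ℂ) * μ = F := by exact_mod_cast hm
  have hn1 : (n : ℂ) * (e : ℂ) ^ 4 = F * (eA * eC) := by exact_mod_cast hn
  have hn1' : (n' : ℂ) * (e : ℂ) ^ 4 = eA * eB := by exact_mod_cast hn'
  have hp1 : (eA : ℂ) * eB * eC = μ * (e : ℂ) ^ 10 := by exact_mod_cast hp
  have e4 : (e : ℂ) ^ 4 ≠ 0 := pow_ne_zero 4 he0
  have eN : N * (e : ℂ) ^ 4 = u oA * w oC := by
    rw [hs.eN]
    push_cast
    field_simp
  have eN' : N' * (e : ℂ) ^ 4 = u oA * v oB := by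
    rw [hs.eN']
    push_cast
    field_simp
  have kN : (n : ℂ) * (eA' * u oA * (eC' * w oC)) = F * N := by
    apply mul_right_cancel₀ e4
    linear_combination (eA' : ℂ) * eC' * u oA * w oC * hn1
      + (F : ℂ) * (u oA * w oC) * ((eC' : ℂ) * eC * hA1 + hC1) - (F : ℂ) * eN
  have kN' : (n' : ℂ) * (eA' * u oA * (eB' * v oB)) = N' := by
    apply mul_right_cancel₀ e4
    rw [eN']
    linear_combination (eA' : ℂ) * eB' * u oA * v oB * hn1'
      + u oA * v oB * ((eB' : ℂ) * eB * hA1 + hB1)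
  have key : ∀ x y : ℂ, u oA * v oB * w oC * x = ((e ^ 10 : ℝ) : ℂ) * y →
      eA' * u oA * (eB' * v oB) * (eC' * w oC) * (μ * x) - y = 0 := by
    intro x y hxy
    push_cast at hxy
    linear_combination (eA' : ℂ) * eB' * eC' * μ * hxy - (eA' : ℂ) * eB' * eC' * y * hp1
      + y * ((eB' : ℂ) * eB * (eC' * eC) * hA1 + (eC' : ℂ) * eC * hB1 + hC1)
  unfold locD
  simp only [z0, z1, z2, z3, z4, z5, z6, z7, z8, hu, hv, hw]
  simp only [ScE_o]
  refine Prod.ext (funext fun a => ?_) (Prod.ext (funext fun b => ?_)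
    (Prod.ext (funext fun c => ?_) (funext fun i => ?_)))
  · show (if a = oA then _ else _) = (0 : ℂ)
    split_ifs with hi
    · exact key _ _ hs.eα
    · show c1 T v w a - (m : ℂ) * ((μ : ℂ) * α * scl oA eA' F' u a) = 0
      rw [ScE_n _ _ _ hi, hs.e1 a hi]
      linear_combination -(α * u a * F') * hm1 - α * u a * hF1
  · show (if b = oB then _ else _) = (0 : ℂ)
    split_ifs with hi
    · exact key _ _ hs.eβ
    · show (F : ℂ) * c2 T u w b + (n : ℂ) * (eA' * u oA * (eC' * w oC)) * h b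
        - (m : ℂ) * ((μ : ℂ) * β * scl oB eB' 1 v b) = 0
      rw [ScE_n _ _ _ hi, kN]
      have h4 := hs.e2 b hi
      push_cast
      linear_combination (F : ℂ) * h4 - β * v b * hm1
  · show (if c = oC then _ else _) = (0 : ℂ)
    split_ifs with hi
    · exact key _ _ hs.eγ
    · show c3 T u v c + (n' : ℂ) * (eA' * u oA * (eB' * v oB)) * h' c
        - (m : ℂ) * ((μ : ℂ) * γ * scl oC eC' F' w c) = 0
      rw [ScE_n _ _ _ hi, kN', hs.e3 c hi]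
      linear_combination -(γ * w c * F') * hm1 - γ * w c * hF1
  · fin_cases i
    · exact ScE_nrm hA h1 ja ka
    · exact ScE_nrm hB h2 jb fun _ => rfl
    · exact ScE_nrm hC h3 jc kc

/-- Scaling to `locE`.

Proof. Case by case (`fin_cases k`), with `eA = ε ^ xE k 0` and so on: `scl oA eA 1` of the scaled
vector is `u`; `N = ε ^ (-4) u_o w_o = n X Z`, because `ε ^ (-4) eA eC = n`; the same for `N'`;
`X Y Z α = q v q w` because `eA eB eC = ε ^ 10`. The first equation is (up to a factor) the first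
identity of `HS.st`: `- eA k1 + eB k2 - n k3 = 0`, the second one `- eA k1 + eC k4 - n' k5 = 0` (for
`k = 6`: the difference of the two, divided by `ε`). -/
theorem scE (ho : h oB = 0) (ho' : h' oC = 0) {e : ℝ} (he : 0 < e)
    (hs : HS T oA oB oC h h' (e ^ 10) ((e ^ 4)⁻¹) u v w α β γ N N') (k : Fin 8) {ia : A} {ib : B}
    {ic : C} (h1 : u ia = 1) (h2 : v ib = 1) (h3 : w ic = 1) (ja : ia = oA → xE k 0 = 0)
    (jb : ib = oB → xE k 1 = 0) (jc : ic = oC → xE k 2 = 0) :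
    locE oA oB oC h h' ia ib ic (T, zE k e)
      (scl oA (e ^ xE k 0)⁻¹ 1 u, scl oB (e ^ xE k 1)⁻¹ 1 v, scl oC (e ^ xE k 2)⁻¹ 1 w,
        ![α, β, γ]) = 0 := by
  obtain ⟨z0, z1, z2, z3, z4, z5⟩ := ScE_z k e
  have hp : ∀ i, (e ^ xE k i)⁻¹ * e ^ xE k i = 1 := fun i => inv_mul_cancel₀ (pow_pos he _).ne'
  have hj : ∀ i, xE k i = 0 → e ^ xE k i = 1 := fun i hi => by rw [hi, pow_zero]
  exact ScE_main ho ho' he hs (hp 0) (hp 1) (hp 2) z3 z4 z5 z0 z1 z2 rfl rfl (ScE_f1 k he)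
    (ScE_f2 k he) h1 h2 h3 (fun h => hj 0 (ja h)) (fun h => hj 1 (jb h)) (fun h => hj 2 (jc h))

/-- Scaling to `locD`: types D0 and D1 (`k = 0, 1`), with the multipliers divided by `m = zD k e 7`.

Proof. As `scE`; `eA eB eC m = ε ^ 10`. -/
theorem scD (ho : h oB = 0) (ho' : h' oC = 0) {e : ℝ} (he : 0 < e)
    (hs : HS T oA oB oC h h' (e ^ 10) ((e ^ 4)⁻¹) u v w α β γ N N') (k : Fin 3) (hk : k ≠ 2)
    {ia : A} {ib : B} {ic : C} (h1 : u ia = 1) (h2 : v ib = 1) (h3 : w ic = 1)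
    (ja : ia = oA → xD k 0 = 0) (jb : ib = oB → xD k 1 = 0) (jc : ic = oC → xD k 2 = 0) :
    locD oA oB oC h h' ia ib ic (T, zD k e)
      (scl oA (e ^ xD k 0)⁻¹ 1 u, scl oB (e ^ xD k 1)⁻¹ 1 v, scl oC (e ^ xD k 2)⁻¹ 1 w,
        ![α / zD k e 7, β / zD k e 7, γ / zD k e 7]) = 0 := by
  have hp : ∀ i, (e ^ xD k i)⁻¹ * e ^ xD k i = 1 := fun i => inv_mul_cancel₀ (pow_pos he _).ne'
  have hj : ∀ i, xD k i = 0 → e ^ xD k i = 1 := fun i hi => by rw [hi, pow_zero]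
  have he0 : e ≠ 0 := he.ne'
  have hz : zD k e 0 = e ^ xD k 0 ∧ zD k e 1 = e ^ xD k 1 ∧ zD k e 2 = e ^ xD k 2 ∧
      zD k e 3 = 1 ∧ zD k e 4 = 1 ∧ zD k e 8 = 1 ∧
      zD k e 5 * e ^ 4 = 1 * (e ^ xD k 0 * e ^ xD k 2) ∧
      zD k e 6 * e ^ 4 = e ^ xD k 0 * e ^ xD k 1 ∧
      e ^ xD k 0 * e ^ xD k 1 * e ^ xD k 2 = (zD k e 7)⁻¹ * e ^ 10 ∧ zD k e 7 ≠ 0 := by
    fin_cases k
    · simp [zD, xD, he0]
      field_simp
    · simp [zD, xD, he0]
      field_simp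
    · exact absurd rfl hk
  obtain ⟨z0, z1, z2, z3, z4, z8, z5, z6, z9, z7⟩ := hz
  have hm : ∀ x : ℂ, x / (zD k e 7 : ℂ) = (((zD k e 7)⁻¹ : ℝ) : ℂ) * x := fun x => by
    push_cast
    rw [div_eq_inv_mul]
  rw [hm, hm, hm]
  exact ScE_mainD he hs (hp 0) (hp 1) (hp 2) (one_mul 1) (mul_inv_cancel₀ z7) z5 z6 z9 z0 z1 z2
    z3 z4 rfl rfl rfl z8 h1 h2 h3 (fun h => hj 0 (ja h)) (fun h => hj 1 (jb h))
    (fun h => hj 2 (jc h)) (fun _ => rfl) (fun _ => rfl)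

/-- Scaling to `locD`: type PL (`k = 2`), `ia = oA`, `ic = oC`; the multipliers times `ε ^ 4`, the
coordinates of `u`, `w` other than `oA`, `oC` divided by `ε ^ 4`, `v_o` divided by `ε ^ 14`. -/
theorem scP (ho : h oB = 0) (ho' : h' oC = 0) {e : ℝ} (he : 0 < e)
    (hs : HS T oA oB oC h h' (e ^ 10) ((e ^ 4)⁻¹) u v w α β γ N N') {ib : B} (hb : ib ≠ oB)
    (h1 : u oA = 1) (h2 : v ib = 1) (h3 : w oC = 1) :
    locD oA oB oC h h' oA ib oC (T, zD 2 e)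
      (scl oA 1 (e ^ 4)⁻¹ u, scl oB (e ^ 14)⁻¹ 1 v, scl oC 1 (e ^ 4)⁻¹ w,
        ![(e : ℂ) ^ 4 * α, (e : ℂ) ^ 4 * β, (e : ℂ) ^ 4 * γ]) = 0 := by
  have he0 : e ≠ 0 := he.ne'
  have e4 : (e ^ 4)⁻¹ * e ^ 4 = 1 := inv_mul_cancel₀ (pow_ne_zero 4 he0)
  have e14 : (e ^ 14)⁻¹ * e ^ 14 = 1 := inv_mul_cancel₀ (pow_ne_zero 14 he0)
  have h4 : (e : ℂ) ^ 4 = ((e ^ 4 : ℝ) : ℂ) := by push_cast; rfl
  rw [h4]
  exact ScE_mainD he hs (eA := 1) (eA' := 1) (eB := e ^ 14) (eC := 1) (eC' := 1) (F := e ^ 4)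
    (n := 1) (n' := e ^ 10) (m := 1) (one_mul 1) e14 (one_mul 1) e4 (one_mul _) (by ring)
    (by ring) (by ring) rfl rfl rfl rfl rfl rfl rfl rfl rfl h1 h2 h3 (fun _ => rfl)
    (fun h => absurd h hb) (fun _ => rfl) (fun h => absurd rfl h) (fun h => absurd rfl h)

end

end Pool.Agent.MPb0eK
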