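import Mathlib
import Pool.Agent.Lib.MP_b0e20b_ag_K.WDefs
import Pool.Agent.Lib.MP_b0e20b_ag_K.TXa

/-!
# MP_b0e20b_ag, project K: the derivative of `locD`
-/

set_option autoImplicit false

open scoped BigOperators Topology
open Filter

namespace Pool.Agent.MPb0eK

open MPb0eR (c1 c2 c3 tr q Sup Rl Rea uf Nrm cj AF scl)

section

variable {A B C : Type} [Fintype A] [Fintype B] [Fintype C] [DecidableEq A] [DecidableEq B]
  [DecidableEq C]

/-- a line in a function space -/
private theorem kerDx_line {A : Type} (p x : A → ℂ) (a : A) :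
    HasDerivAt (fun t : ℝ => (p + t • x) a) (x a) 0 := by
  have h : HasDerivAt (fun t : ℝ => p a + (t : ℂ) * x a) (x a) 0 := by
    have h1 : HasDerivAt (fun t : ℝ => (t : ℂ)) 1 (0 : ℝ) := Complex.ofRealCLM.hasDerivAt
    have h2 := (h1.mul_const (x a)).const_add (p a)
    rwa [one_mul] at h2
  exact h.congr_of_eventuallyEq (Eventually.of_forall fun t => by simp)

/-- a line, scaled -/
private theorem kerDx_scl {A : Type} [DecidableEq A] (o : A) (e f : ℝ) (p x : A → ℂ) (a : A) :
    HasDerivAt (fun t : ℝ => scl o e f (p + t • x) a) (scl o e f x a) 0 :=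
  (kerDx_line p x a).const_mul _

private theorem kerDx_zero {A : Type} (p x : A → ℂ) : p + (0 : ℝ) • x = p := by
  rw [zero_smul, add_zero]

private theorem kerDx_c1 (T : A → B → C → ℝ) (oB : B) (oC : C) (e f e' f' : ℝ) (v v' : B → ℂ)
    (w w' : C → ℂ) (a : A) :
    HasDerivAt (fun t : ℝ => c1 T (scl oB e f (v + t • v')) (scl oC e' f' (w + t • w')) a)
      (c1 T (scl oB e f v') (scl oC e' f' w) a + c1 T (scl oB e f v) (scl oC e' f' w') a) 0 := by
  have h : HasDerivAt (fun t : ℝ => ∑ b, ∑ c, (T a b c : ℂ) *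
      (scl oB e f (v + t • v') b * scl oC e' f' (w + t • w') c))
      (∑ b, ∑ c, (T a b c : ℂ) * (scl oB e f v' b * scl oC e' f' (w + (0 : ℝ) • w') c +
        scl oB e f (v + (0 : ℝ) • v') b * scl oC e' f' w' c)) 0 :=
    HasDerivAt.fun_sum fun b _ => HasDerivAt.fun_sum fun c _ =>
      ((kerDx_scl oB e f v v' b).mul (kerDx_scl oC e' f' w w' c)).const_mul _
  rw [kerDx_zero, kerDx_zero] at h
  have h2 : c1 T (scl oB e f v') (scl oC e' f' w) a + c1 T (scl oB e f v) (scl oC e' f' w') a =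
      ∑ b, ∑ c, (T a b c : ℂ) * (scl oB e f v' b * scl oC e' f' w c +
        scl oB e f v b * scl oC e' f' w' c) := by
    unfold c1
    simp only [mul_add, Finset.sum_add_distrib]
  rw [h2]
  exact h

private theorem kerDx_c2 (T : A → B → C → ℝ) (oA : A) (oC : C) (e f e' f' : ℝ) (u u' : A → ℂ)
    (w w' : C → ℂ) (b : B) :
    HasDerivAt (fun t : ℝ => c2 T (scl oA e f (u + t • u')) (scl oC e' f' (w + t • w')) b)
      (c2 T (scl oA e f u') (scl oC e' f' w) b + c2 T (scl oA e f u) (scl oC e' f' w') b) 0 := by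
  have h : HasDerivAt (fun t : ℝ => ∑ a, ∑ c, (T a b c : ℂ) *
      (scl oA e f (u + t • u') a * scl oC e' f' (w + t • w') c))
      (∑ a, ∑ c, (T a b c : ℂ) * (scl oA e f u' a * scl oC e' f' (w + (0 : ℝ) • w') c +
        scl oA e f (u + (0 : ℝ) • u') a * scl oC e' f' w' c)) 0 :=
    HasDerivAt.fun_sum fun a _ => HasDerivAt.fun_sum fun c _ =>
      ((kerDx_scl oA e f u u' a).mul (kerDx_scl oC e' f' w w' c)).const_mul _
  rw [kerDx_zero, kerDx_zero] at h
  have h2 : c2 T (scl oA e f u') (scl oC e' f' w) b + c2 T (scl oA e f u) (scl oC e' f' w') b =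
      ∑ a, ∑ c, (T a b c : ℂ) * (scl oA e f u' a * scl oC e' f' w c +
        scl oA e f u a * scl oC e' f' w' c) := by
    unfold c2
    simp only [mul_add, Finset.sum_add_distrib]
  rw [h2]
  exact h

private theorem kerDx_c3 (T : A → B → C → ℝ) (oA : A) (oB : B) (e f e' f' : ℝ) (u u' : A → ℂ)
    (v v' : B → ℂ) (c : C) :
    HasDerivAt (fun t : ℝ => c3 T (scl oA e f (u + t • u')) (scl oB e' f' (v + t • v')) c)
      (c3 T (scl oA e f u') (scl oB e' f' v) c + c3 T (scl oA e f u) (scl oB e' f' v') c) 0 := by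
  have h : HasDerivAt (fun t : ℝ => ∑ a, ∑ b, (T a b c : ℂ) *
      (scl oA e f (u + t • u') a * scl oB e' f' (v + t • v') b))
      (∑ a, ∑ b, (T a b c : ℂ) * (scl oA e f u' a * scl oB e' f' (v + (0 : ℝ) • v') b +
        scl oA e f (u + (0 : ℝ) • u') a * scl oB e' f' v' b)) 0 :=
    HasDerivAt.fun_sum fun a _ => HasDerivAt.fun_sum fun b _ =>
      ((kerDx_scl oA e f u u' a).mul (kerDx_scl oB e' f' v v' b)).const_mul _
  rw [kerDx_zero, kerDx_zero] at h
  have h2 : c3 T (scl oA e f u') (scl oB e' f' v) c + c3 T (scl oA e f u) (scl oB e' f' v') c =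
      ∑ a, ∑ b, (T a b c : ℂ) * (scl oA e f u' a * scl oB e' f' v b +
        scl oA e f u a * scl oB e' f' v' b) := by
    unfold c3
    simp only [mul_add, Finset.sum_add_distrib]
  rw [h2]
  exact h

private theorem kerDx_q {A : Type} [Fintype A] [DecidableEq A] (o : A) (e f : ℝ) (u u' : A → ℂ) :
    HasDerivAt (fun t : ℝ => q (scl o e f (u + t • u')))
      (2 * dt (scl o e f u) (scl o e f u')) 0 := by
  have h : HasDerivAt (fun t : ℝ => ∑ a, scl o e f (u + t • u') a * scl o e f (u + t • u') a)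
      (∑ a, (scl o e f u' a * scl o e f (u + (0 : ℝ) • u') a +
        scl o e f (u + (0 : ℝ) • u') a * scl o e f u' a)) 0 :=
    HasDerivAt.fun_sum fun a _ => (kerDx_scl o e f u u' a).mul (kerDx_scl o e f u u' a)
  rw [kerDx_zero] at h
  have h2 : (2 * dt (scl o e f u) (scl o e f u')) = ∑ a, (scl o e f u' a * scl o e f u a +
      scl o e f u a * scl o e f u' a) := by
    unfold dt
    rw [Finset.mul_sum]
    exact Finset.sum_congr rfl fun a _ => by ring
  have h3 : (fun t : ℝ => q (scl o e f (u + t • u'))) =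
      fun t : ℝ => ∑ a, scl o e f (u + t • u') a * scl o e f (u + t • u') a := by
    funext t
    unfold q
    exact Finset.sum_congr rfl fun a _ => by ring
  rw [h2, h3]
  exact h

/-- The linearised equations. Proof: the components of the derivative of
`t ↦ locD z (p + t • x)` at `0` are zero (product rule, uniqueness of the derivative). -/
theorem kerD {oA : A} {oB : B} {oC : C} {h : B → ℝ} {h' : C → ℝ} {ia : A} {ib : B} {ic : C}
    {z : (A → B → C → ℝ) × (Fin 9 → ℝ)} {p x : PK A B C}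
    (hd : HasDerivAt (fun t : ℝ => locD oA oB oC h h' ia ib ic z (p + t • x)) 0 0) :
    KerD oA oB oC h h' ia ib ic z p x := by
  obtain ⟨u, v, w, m⟩ := p
  obtain ⟨u', v', w', m'⟩ := x
  have g1 : HasDerivAt (fun t : ℝ => (locD oA oB oC h h' ia ib ic z
      ((u, v, w, m) + t • (u', v', w', m'))).1) 0 0 :=
    (ContinuousLinearMap.fst ℝ (A → ℂ)
      ((B → ℂ) × (C → ℂ) × (Fin 3 → ℂ))).hasFDerivAt.comp_hasDerivAt (0 : ℝ) hd
  have g2 : HasDerivAt (fun t : ℝ => (locD oA oB oC h h' ia ib ic z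
      ((u, v, w, m) + t • (u', v', w', m'))).2) 0 0 :=
    (ContinuousLinearMap.snd ℝ (A → ℂ)
      ((B → ℂ) × (C → ℂ) × (Fin 3 → ℂ))).hasFDerivAt.comp_hasDerivAt (0 : ℝ) hd
  have g3 : HasDerivAt (fun t : ℝ => (locD oA oB oC h h' ia ib ic z
      ((u, v, w, m) + t • (u', v', w', m'))).2.1) 0 0 :=
    (ContinuousLinearMap.fst ℝ (B → ℂ) ((C → ℂ) × (Fin 3 → ℂ))).hasFDerivAt.comp_hasDerivAt
      (0 : ℝ) g2
  have g4 : HasDerivAt (fun t : ℝ => (locD oA oB oC h h' ia ib ic z
      ((u, v, w, m) + t • (u', v', w', m'))).2.2) 0 0 :=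
    (ContinuousLinearMap.snd ℝ (B → ℂ) ((C → ℂ) × (Fin 3 → ℂ))).hasFDerivAt.comp_hasDerivAt
      (0 : ℝ) g2
  have g5 : HasDerivAt (fun t : ℝ => (locD oA oB oC h h' ia ib ic z
      ((u, v, w, m) + t • (u', v', w', m'))).2.2.1) 0 0 :=
    (ContinuousLinearMap.fst ℝ (C → ℂ) (Fin 3 → ℂ)).hasFDerivAt.comp_hasDerivAt (0 : ℝ) g4
  have g6 : HasDerivAt (fun t : ℝ => (locD oA oB oC h h' ia ib ic z
      ((u, v, w, m) + t • (u', v', w', m'))).2.2.2) 0 0 :=
    (ContinuousLinearMap.snd ℝ (C → ℂ) (Fin 3 → ℂ)).hasFDerivAt.comp_hasDerivAt (0 : ℝ) g4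
  rw [hasDerivAt_pi] at g1 g3 g5 g6
  have hu := kerDx_line u u'
  have hv := kerDx_line v v'
  have hw := kerDx_line w w'
  have hm := kerDx_line m m'
  have hXYZ := ((hu oA).mul (hv oB)).mul (hw oC)
  constructor
  · intro a ha
    have k1 := g1 a
    have k2 := (kerDx_c1 z.1 oB oC (z.2 1) 1 (z.2 2) (z.2 4) v v' w w' a).sub
      (((hm 0).mul (hu a)).const_mul (z.2 7 : ℂ))
    have k3 := k1.unique (k2.congr_of_eventuallyEq (Eventually.of_forall fun t => by
      simp [locD, ha]))
    simp only [kerDx_zero, Pi.zero_apply, Pi.mul_apply] at k3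
    dsimp only
    linear_combination -k3
  · intro b hb
    have k1 := g3 b
    have k2 := (((kerDx_c2 z.1 oA oC (z.2 0) (z.2 3) (z.2 2) (z.2 4) u u' w w' b).const_mul
      (z.2 8 : ℂ)).add ((((hu oA).mul (hw oC)).const_mul (z.2 5 : ℂ)).mul_const (h b : ℂ))).sub
      (((hm 1).mul (hv b)).const_mul (z.2 7 : ℂ))
    have k3 := k1.unique (k2.congr_of_eventuallyEq (Eventually.of_forall fun t => by
      simp [locD, hb]))
    simp only [kerDx_zero, Pi.zero_apply, Pi.mul_apply] at k3
    dsimp only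
    linear_combination -k3
  · intro c hc
    have k1 := g5 c
    have k2 := ((kerDx_c3 z.1 oA oB (z.2 0) (z.2 3) (z.2 1) 1 u u' v v' c).add
      ((((hu oA).mul (hv oB)).const_mul (z.2 6 : ℂ)).mul_const (h' c : ℂ))).sub
      (((hm 2).mul (hw c)).const_mul (z.2 7 : ℂ))
    have k3 := k1.unique (k2.congr_of_eventuallyEq (Eventually.of_forall fun t => by
      simp [locD, hc]))
    simp only [kerDx_zero, Pi.zero_apply, Pi.mul_apply] at k3
    dsimp only
    linear_combination -k3
  · have k1 := g1 oA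
    have k2 := (hXYZ.mul (hm 0)).sub ((kerDx_q oB (z.2 1) 1 v v').mul
      (kerDx_q oC (z.2 2) (z.2 4) w w'))
    have k3 := k1.unique (k2.congr_of_eventuallyEq (Eventually.of_forall fun t => by
      simp [locD]))
    simp only [kerDx_zero, Pi.zero_apply, Pi.mul_apply] at k3
    dsimp only
    linear_combination -k3
  · have k1 := g3 oB
    have k2 := (hXYZ.mul (hm 1)).sub ((kerDx_q oA (z.2 0) (z.2 3) u u').mul
      (kerDx_q oC (z.2 2) (z.2 4) w w'))
    have k3 := k1.unique (k2.congr_of_eventuallyEq (Eventually.of_forall fun t => by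
      simp [locD]))
    simp only [kerDx_zero, Pi.zero_apply, Pi.mul_apply] at k3
    dsimp only
    linear_combination -k3
  · have k1 := g5 oC
    have k2 := (hXYZ.mul (hm 2)).sub ((kerDx_q oA (z.2 0) (z.2 3) u u').mul
      (kerDx_q oB (z.2 1) 1 v v'))
    have k3 := k1.unique (k2.congr_of_eventuallyEq (Eventually.of_forall fun t => by
      simp [locD]))
    simp only [kerDx_zero, Pi.zero_apply, Pi.mul_apply] at k3
    dsimp only
    linear_combination -k3
  · have k1 := g6 0
    have k3 := k1.unique (((hu ia).sub_const 1).congr_of_eventuallyEq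
      (Eventually.of_forall fun t => by simp [locD]))
    exact k3.symm
  · have k1 := g6 1
    have k3 := k1.unique (((hv ib).sub_const 1).congr_of_eventuallyEq
      (Eventually.of_forall fun t => by simp [locD]))
    exact k3.symm
  · have k1 := g6 2
    have k3 := k1.unique (((hw ic).sub_const 1).congr_of_eventuallyEq
      (Eventually.of_forall fun t => by simp [locD]))
    exact k3.symm

end

end Pool.Agent.MPb0eK
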