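import Mathlib
import Pool.Agent.Lib.MP_b0e20b_ag_K.WDefs
import Pool.Agent.Lib.MP_b0e20b_ag_K.TXa
import Pool.Agent.Lib.MP_b0e20b_ag_K.KerDx

/-!
# MP_b0e20b_ag, project K: the limit system of the D type 0
-/

set_option autoImplicit false

open scoped BigOperators Topology
open Filter

namespace Pool.Agent.MPb0eK

open MPb0eR (c1 c2 c3 tr q Sup Rl Rea uf Nrm cj AF scl)

section

variable {A B C : Type} [Fintype A] [Fintype B] [Fintype C] [DecidableEq A] [DecidableEq B]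
  [DecidableEq C] {oA : A} {oB : B} {oC : C}
  {h : B → ℝ} {h' : C → ℝ}

private theorem U0a_z : (zD 0 0) 0 = 0 ∧ (zD 0 0) 1 = 1 ∧ (zD 0 0) 2 = 1 ∧ (zD 0 0) 3 = 1 ∧
    (zD 0 0) 4 = 1 ∧ (zD 0 0) 5 = 1 ∧ (zD 0 0) 6 = 1 ∧ (zD 0 0) 7 = 0 ∧ (zD 0 0) 8 = 1 := by
  refine ⟨?_, ?_, ?_, ?_, ?_, ?_, ?_, ?_, ?_⟩ <;> simp [zD]

private theorem U0a_scl {A : Type} [DecidableEq A] (a : A) (u : A → ℂ) : scl a 1 1 u = u := by
  funext x
  simp [scl]

private theorem U0a_mul {x y : ℂ} (hx : x.im = 0) (hy : y.im = 0) : (x * y).im = 0 := by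
  rw [Complex.mul_im, hx, hy]
  ring

private theorem U0a_div {x y : ℂ} (hx : x.im = 0) (hy : y.im = 0) (hy0 : y ≠ 0)
    {z : ℂ} (h : y * z = x) : z.im = 0 := by
  have e : z = x / y := by
    rw [← h]
    field_simp
  have ex : x = ((x.re : ℝ) : ℂ) := Complex.ext rfl (by simpa using hx)
  have ey : y = ((y.re : ℝ) : ℂ) := Complex.ext rfl (by simpa using hy)
  rw [e, ex, ey, ← Complex.ofReal_div]
  exact Complex.ofReal_im _

private theorem U0a_q {A : Type} [Fintype A] {u : A → ℂ} (hu : Rea u) : (q u).im = 0 := by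
  unfold q
  rw [Complex.im_sum]
  refine Finset.sum_eq_zero fun a _ => ?_
  rw [pow_two]
  exact U0a_mul (hu a) (hu a)

/-- Real and nondegenerate.

Proof. `zD 0 0 = ![0,1,1,1,1,1,1,0,1]`. `u = scl oA 0 1 p.1`, `v = p.2.1`, `w = p.2.2.1`, `N = X Z`,
`N' = X Y` satisfy `D0` (`N' w_o = X Y Z = N v_o`), so `hY.d0` applies: `u, v, w` are real, `N`
and `N'`
are real (`h ≠ 0`, `h' ≠ 0`), `X = N / Z` is real, and `α, β, γ` are real by the three last
equations.
Kernel (`kerD`): `KD0` with `dN = d(X Z)`, `dN' = d(X Y)`; so `du, dv, dw = 0` (off `oA`), `dN = 0`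
(`h ≠ 0`), `dX = 0` (`dZ = 0`), then `dα = dβ = dγ = 0` by `e4, e5, e6`. -/
theorem u0a {T : A → B → C → ℝ} (hY : HY3 T oA oB oC h h') {ia : A} {ib : B} {ic : C}
    (ja : ia ≠ oA) {p : PK A B C}
    (hp : locD oA oB oC h h' ia ib ic (T, zD 0 0) p = 0) (hX : p.1 oA ≠ 0) (hY' : p.2.1 oB ≠ 0)
    (hZ : p.2.2.1 oC ≠ 0) :
    cjK p = p ∧ ∀ x, HasDerivAt (fun t : ℝ => locD oA oB oC h h' ia ib ic (T, zD 0 0) (p + t • x))
      0 0 → x = 0 := by
  obtain ⟨z0, z1, z2, z3, z4, z5, z6, z7, z8⟩ := U0a_z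
  have hA := congrArg Prod.fst hp
  have hB := congrArg (fun t => t.2.1) hp
  have hC := congrArg (fun t => t.2.2.1) hp
  have hN := congrArg (fun t => t.2.2.2) hp
  simp only [locD, z0, z1, z2, z3, z4, z5, z6, z7, z8, U0a_scl] at hA hB hC hN
  obtain ⟨u, hu⟩ : ∃ u, u = scl oA 0 1 p.1 := ⟨_, rfl⟩
  rw [← hu] at hB hC
  have hua : ∀ a, a ≠ oA → u a = p.1 a := by
    intro a ha
    rw [hu]
    simp [scl, ha]
  have huo : u oA = 0 := by
    rw [hu]
    simp [scl]
  -- the components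
  have n1 : p.1 ia = 1 := by
    have := congrFun hN 0
    simpa [sub_eq_zero] using this
  have n2 : p.2.1 ib = 1 := by
    have := congrFun hN 1
    simpa [sub_eq_zero] using this
  have n3 : p.2.2.1 ic = 1 := by
    have := congrFun hN 2
    simpa [sub_eq_zero] using this
  have e1 : ∀ a, a ≠ oA → c1 T p.2.1 p.2.2.1 a = 0 := by
    intro a ha
    have := congrFun hA a
    simpa [ha] using this
  have e2 : ∀ b, b ≠ oB → c2 T u p.2.2.1 b + (p.1 oA * p.2.2.1 oC) * h b = 0 := by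
    intro b hb
    have := congrFun hB b
    simpa [hb] using this
  have e3 : ∀ c, c ≠ oC → c3 T u p.2.1 c + (p.1 oA * p.2.1 oB) * h' c = 0 := by
    intro c hc
    have := congrFun hC c
    simpa [hc] using this
  have f1 : p.1 oA * p.2.1 oB * p.2.2.1 oC * p.2.2.2 0 = q p.2.1 * q p.2.2.1 := by
    have := congrFun hA oA
    simpa [sub_eq_zero] using this
  have f2 : p.1 oA * p.2.1 oB * p.2.2.1 oC * p.2.2.2 1 = q u * q p.2.2.1 := by
    have := congrFun hB oB
    simpa [sub_eq_zero] using this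
  have f3 : p.1 oA * p.2.1 oB * p.2.2.1 oC * p.2.2.2 2 = q u * q p.2.1 := by
    have := congrFun hC oC
    simpa [sub_eq_zero] using this
  have u1 : u ia = 1 := by rw [hua ia ja, n1]
  have une : u ≠ 0 := by
    intro h0
    rw [h0] at u1
    exact zero_ne_one u1
  have vne : p.2.1 ≠ 0 := by
    intro h0
    rw [h0] at n2
    exact zero_ne_one n2
  have wne : p.2.2.1 ≠ 0 := by
    intro h0
    rw [h0] at n3
    exact zero_ne_one n3
  have hD : D0 T oA oB oC h h' u p.2.1 p.2.2.1 (p.1 oA * p.2.2.1 oC) (p.1 oA * p.2.1 oB) :=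
    ⟨huo, e1, e2, e3, by ring⟩
  have ok := hY.d0 _ _ _ _ _ hD une vne wne (mul_ne_zero hX hZ) (mul_ne_zero hX hY') hY' hZ
  have ru : Rea u := rea_of_rl ok.ru u1
  have rv : Rea p.2.1 := rea_of_rl ok.rv n2
  have rw' : Rea p.2.2.1 := rea_of_rl ok.rw' n3
  -- some entry of `h` is not zero
  obtain ⟨b0, hb0⟩ : ∃ b, h b ≠ 0 := by
    by_contra hcon
    push Not at hcon
    exact hY.hne (funext hcon)
  have hb0' : b0 ≠ oB := by
    intro h0
    rw [h0] at hb0
    exact hb0 hY.ho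
  have hXim : (p.1 oA).im = 0 := by
    have h1 := e2 b0 hb0'
    refine U0a_div (x := - c2 T u p.2.2.1 b0) (y := p.2.2.1 oC * (h b0 : ℂ)) ?_ ?_ ?_ ?_
    · rw [Complex.neg_im, MPb0eR.c2_re T u p.2.2.1 ru rw' b0, neg_zero]
    · exact U0a_mul (rw' oC) (Complex.ofReal_im _)
    · exact mul_ne_zero hZ (Complex.ofReal_ne_zero.2 hb0)
    · linear_combination h1
  have hXYZ : (p.1 oA * p.2.1 oB * p.2.2.1 oC).im = 0 :=
    U0a_mul (U0a_mul hXim (rv oB)) (rw' oC)
  have hXYZ0 : p.1 oA * p.2.1 oB * p.2.2.1 oC ≠ 0 := mul_ne_zero (mul_ne_zero hX hY') hZ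
  constructor
  · have r1 : Rea p.1 := by
      intro a
      by_cases ha : a = oA
      · rw [ha]
        exact hXim
      · rw [← hua a ha]
        exact ru a
    have r4 : Rea p.2.2.2 := by
      intro k
      fin_cases k
      · exact U0a_div (U0a_mul (U0a_q rv) (U0a_q rw')) hXYZ hXYZ0 f1
      · exact U0a_div (U0a_mul (U0a_q ru) (U0a_q rw')) hXYZ hXYZ0 f2
      · exact U0a_div (U0a_mul (U0a_q ru) (U0a_q rv)) hXYZ hXYZ0 f3
    unfold cjK
    rw [(MPb0eR.rea_iff _).1 r1, (MPb0eR.rea_iff _).1 rv, (MPb0eR.rea_iff _).1 rw',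
      (MPb0eR.rea_iff _).1 r4]
  · intro x hx
    have hk := kerD hx
    obtain ⟨k1, k2, k3, k4, k5, k6, m1, m2, m3⟩ := hk
    simp only [z0, z1, z2, z3, z4, z5, z6, z7, z8, U0a_scl] at k1 k2 k3 k4 k5 k6
    rw [← hu] at k2 k3 k5 k6
    obtain ⟨du, hdu⟩ : ∃ du, du = scl oA 0 1 x.1 := ⟨_, rfl⟩
    rw [← hdu] at k2 k3 k5 k6
    have hdua : ∀ a, a ≠ oA → du a = x.1 a := by
      intro a ha
      rw [hdu]
      simp [scl, ha]
    have hduo : du oA = 0 := by
      rw [hdu]
      simp [scl]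
    have hKD : KD0 T oA oB oC h h' u p.2.1 p.2.2.1 (p.1 oA * p.2.2.1 oC) (p.1 oA * p.2.1 oB)
        du x.2.1 x.2.2.1 (x.1 oA * p.2.2.1 oC + p.1 oA * x.2.2.1 oC)
        (x.1 oA * p.2.1 oB + p.1 oA * x.2.1 oB) := by
      refine ⟨hduo, fun a ha => ?_, fun b hb => ?_, fun c hc => ?_, by ring⟩
      · have := k1 a ha
        simpa using this
      · have := k2 b hb
        simpa using this
      · have := k3 c hc
        simpa using this
    obtain ⟨⟨r, hr⟩, ⟨s, hs⟩, ⟨t, ht⟩⟩ := ok.nd _ _ _ _ _ hKD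
    have hr0 : r = 0 := by
      have h1 := congrFun hr ia
      rw [hdua ia ja, m1, Pi.smul_apply, u1, smul_eq_mul, mul_one] at h1
      exact h1.symm
    have hs0 : s = 0 := by
      have h1 := congrFun hs ib
      rw [m2, Pi.smul_apply, n2, smul_eq_mul, mul_one] at h1
      exact h1.symm
    have ht0 : t = 0 := by
      have h1 := congrFun ht ic
      rw [m3, Pi.smul_apply, n3, smul_eq_mul, mul_one] at h1
      exact h1.symm
    rw [hr0, zero_smul] at hr
    rw [hs0, zero_smul] at hs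
    rw [ht0, zero_smul] at ht
    have hx0 : x.1 oA = 0 := by
      have h1 := hKD.e2 b0 hb0'
      rw [hr, ht, MPb0eR.c2_zero_left, MPb0eR.c2_zero_right] at h1
      have h2 : x.1 oA * (p.2.2.1 oC * (h b0 : ℂ)) = 0 := by
        have h3 : (0 : C → ℂ) oC = 0 := rfl
        rw [h3] at h1
        linear_combination h1
      rcases mul_eq_zero.1 h2 with h3 | h3
      · exact h3
      · exact absurd h3 (mul_ne_zero hZ (Complex.ofReal_ne_zero.2 hb0))
    have hx1 : x.1 = 0 := by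
      funext a
      by_cases ha : a = oA
      · rw [ha]
        exact hx0
      · rw [← hdua a ha, hr]
    have dz : ∀ (Y : Type) [Fintype Y] (y : Y → ℂ), dt y 0 = 0 := by
      intro Y _ y
      simp [dt]
    rw [hr] at k5 k6
    have hx4 : x.2.2.2 = 0 := by
      funext k
      fin_cases k
      · have h1 : p.1 oA * p.2.1 oB * p.2.2.1 oC * x.2.2.2 0 = 0 := by
          have h2 := k4
          simp only [hs, ht, hx0, dz, Pi.zero_apply] at h2
          linear_combination h2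
        exact (mul_eq_zero.1 h1).resolve_left hXYZ0
      · have h1 : p.1 oA * p.2.1 oB * p.2.2.1 oC * x.2.2.2 1 = 0 := by
          have h2 := k5
          simp only [hs, ht, hx0, dz, Pi.zero_apply] at h2
          linear_combination h2
        exact (mul_eq_zero.1 h1).resolve_left hXYZ0
      · have h1 : p.1 oA * p.2.1 oB * p.2.2.1 oC * x.2.2.2 2 = 0 := by
          have h2 := k6
          simp only [hs, ht, hx0, dz, Pi.zero_apply] at h2
          linear_combination h2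
        exact (mul_eq_zero.1 h1).resolve_left hXYZ0
    exact Prod.ext hx1 (Prod.ext hs (Prod.ext ht hx4))

end

end Pool.Agent.MPb0eK
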