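import Mathlib
import Pool.Agent.Lib.MP_b0e20b_ag_K.WDefs
import Pool.Agent.Lib.MP_b0e20b_ag_K.TXa
import Pool.Agent.Lib.MP_b0e20b_ag_K.KerDx

/-!
# MP_b0e20b_ag, project K: the limit system of the D type 1
-/

set_option autoImplicit false

open scoped BigOperators Topology
open Filter

namespace Pool.Agent.MPb0eK

open MPb0eR (c1 c2 c3 tr q Sup Rl Rea uf Nrm cj AF scl)

section

variable {A B C : Type} [Fintype A] [Fintype B] [Fintype C] [DecidableEq A] [DecidableEq B]
  [DecidableEq C] {oA : A} {oB : B} {oC : C}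
  {h : B → ℝ} {h' : C → ℝ}

private theorem u1a_one (o : A) (u : A → ℂ) : scl o 1 1 u = u := by
  funext a
  simp [scl]

private theorem u1a_o (o : A) (u : A → ℂ) : scl o 0 1 u o = 0 := by
  simp [scl]

private theorem u1a_ne {o a : A} (h : a ≠ o) (u : A → ℂ) : scl o 0 1 u a = u a := by
  simp [scl, h]

private theorem u1a_z0 : zD 1 0 0 = 1 := rfl

private theorem u1a_z1 : zD 1 0 1 = 0 := by simp [zD]

private theorem u1a_z2 : zD 1 0 2 = 0 := by simp [zD]

private theorem u1a_z3 : zD 1 0 3 = 1 := by simp [zD]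

private theorem u1a_z4 : zD 1 0 4 = 1 := by simp [zD]

private theorem u1a_z5 : zD 1 0 5 = 1 := by simp [zD]

private theorem u1a_z6 : zD 1 0 6 = 1 := by simp [zD]

private theorem u1a_z7 : zD 1 0 7 = 0 := by simp [zD]

private theorem u1a_z8 : zD 1 0 8 = 1 := by simp [zD]

/-- `q` of a real vector is real. -/
private theorem u1a_q {u : A → ℂ} (hu : Rea u) : (q u).im = 0 := by
  unfold q
  rw [Complex.im_sum]
  exact Finset.sum_eq_zero fun a _ => by
    rw [sq, Complex.mul_im, hu a]
    ring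

/-- The quotient of real numbers is real. -/
private theorem u1a_div {a b : ℂ} (ha : a.im = 0) (hb : b.im = 0) : (a / b).im = 0 := by
  rw [← Complex.conj_eq_iff_im] at *
  rw [map_div₀, ha, hb]

private theorem u1a_mul {a b : ℂ} (ha : a.im = 0) (hb : b.im = 0) : (a * b).im = 0 := by
  rw [← Complex.conj_eq_iff_im] at *
  rw [map_mul, ha, hb]

/-- A factor of a real vector. -/
private theorem u1a_N {h : B → ℝ} (ho : h oB = 0) (hne : h ≠ 0) {f : B → ℂ} {N : ℂ}
    (hf : ∀ b, (f b).im = 0) (e : ∀ b, b ≠ oB → f b + N * h b = 0) : N.im = 0 := by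
  obtain ⟨b, hb⟩ : ∃ b, h b ≠ 0 := by
    by_contra hc
    push Not at hc
    exact hne (funext hc)
  have hbo : b ≠ oB := fun hh => hb (hh ▸ ho)
  have hb' : (h b : ℂ) ≠ 0 := Complex.ofReal_ne_zero.2 hb
  have e1 := e b hbo
  have e2 : N = -f b / h b := by
    rw [eq_div_iff hb']
    linear_combination e1
  rw [e2]
  exact u1a_div (by rw [Complex.neg_im, hf b, neg_zero]) (Complex.ofReal_im _)

/-- A coefficient of `h` vanishes. -/
private theorem u1a_N0 {h : B → ℝ} (ho : h oB = 0) (hne : h ≠ 0) {N : ℂ}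
    (e : ∀ b, b ≠ oB → N * h b = 0) : N = 0 := by
  obtain ⟨b, hb⟩ : ∃ b, h b ≠ 0 := by
    by_contra hc
    push Not at hc
    exact hne (funext hc)
  have hbo : b ≠ oB := fun hh => hb (hh ▸ ho)
  exact (mul_eq_zero.1 (e b hbo)).resolve_right (Complex.ofReal_ne_zero.2 hb)

private theorem u1a_dt (x : A → ℂ) : dt x 0 = 0 := by
  simp [dt]

/-- Real and nondegenerate.

Proof. `zD 1 0 = ![1,0,0,1,1,1,1,0,1]`. `u = p.1`, `v = scl oB 0 1 p.2.1`, `w = scl oC 0 1 p.2.2.1`,
`N = X Z`, `N' = X Y` satisfy `D1`, so `hY.d1` applies: `u, v, w` are real, `N`, `N'` are real, so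
`Z = N / X`, `Y = N' / X` are real. Kernel: `KD1`, so the vectors are zero (off `oB`, `oC`),
`dN = dN' = 0`, `dX = 0` gives `dZ = dY = 0`, then the multipliers. -/
theorem u1a {T : A → B → C → ℝ} (hY : HY3 T oA oB oC h h') {ia : A} {ib : B} {ic : C}
    (jb : ib ≠ oB) (jc : ic ≠ oC) {p : PK A B C}
    (hp : locD oA oB oC h h' ia ib ic (T, zD 1 0) p = 0) (hX : p.1 oA ≠ 0) (hY' : p.2.1 oB ≠ 0)
    (hZ : p.2.2.1 oC ≠ 0) :
    cjK p = p ∧ ∀ x, HasDerivAt (fun t : ℝ => locD oA oB oC h h' ia ib ic (T, zD 1 0) (p + t • x))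
      0 0 → x = 0 := by
  have hp1 := congrArg Prod.fst hp
  have hp2 := congrArg (fun x : QK A B C => x.2.1) hp
  have hp3 := congrArg (fun x : QK A B C => x.2.2.1) hp
  have hp4 := congrArg (fun x : QK A B C => x.2.2.2) hp
  simp only [locD, u1a_z0, u1a_z1, u1a_z2, u1a_z3, u1a_z4, u1a_z5, u1a_z6, u1a_z7, u1a_z8,
    u1a_one, Complex.ofReal_one, Complex.ofReal_zero, one_mul, zero_mul, sub_zero, Prod.fst_zero,
    Prod.snd_zero] at hp1 hp2 hp3 hp4
  obtain ⟨pu, pv, pw, pm⟩ := p
  simp only at hp1 hp2 hp3 hp4 hX hY' hZ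
  set v := scl oB 0 1 pv with hv
  set w := scl oC 0 1 pw with hw
  have na : pu ia = 1 := by
    have := congrFun hp4 0
    simpa [sub_eq_zero] using this
  have nb : pv ib = 1 := by
    have := congrFun hp4 1
    simpa [sub_eq_zero] using this
  have nc : pw ic = 1 := by
    have := congrFun hp4 2
    simpa [sub_eq_zero] using this
  have nb' : v ib = 1 := by rw [hv, u1a_ne jb, nb]
  have nc' : w ic = 1 := by rw [hw, u1a_ne jc, nc]
  have e1 : ∀ a, a ≠ oA → c1 T v w a = 0 := fun a ha => by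
    have := congrFun hp1 a
    simpa [ha] using this
  have e2 : ∀ b, b ≠ oB → c2 T pu w b + pu oA * pw oC * h b = 0 := fun b hb => by
    have := congrFun hp2 b
    simpa [hb] using this
  have e3 : ∀ c, c ≠ oC → c3 T pu v c + pu oA * pv oB * h' c = 0 := fun c hc => by
    have := congrFun hp3 c
    simpa [hc] using this
  have e4 : pu oA * pv oB * pw oC * pm 0 - q v * q w = 0 := by
    have := congrFun hp1 oA
    simpa using this
  have e5 : pu oA * pv oB * pw oC * pm 1 - q pu * q w = 0 := by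
    have := congrFun hp2 oB
    simpa using this
  have e6 : pu oA * pv oB * pw oC * pm 2 - q pu * q v = 0 := by
    have := congrFun hp3 oC
    simpa using this
  have hv0 : v ≠ 0 := fun hh => one_ne_zero (nb'.symm.trans (congrFun hh ib))
  have hw0 : w ≠ 0 := fun hh => one_ne_zero (nc'.symm.trans (congrFun hh ic))
  have hD : D1 T oA oB oC h h' pu v w (pu oA * pw oC) (pu oA * pv oB) :=
    ⟨u1a_o oB pv, u1a_o oC pw, e1, e2, e3⟩
  have hO := hY.d1 pu v w _ _ hD hX hv0 hw0 (mul_ne_zero hX hZ) (mul_ne_zero hX hY')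
  have ru : Rea pu := MPb0eR.Rl.rea hO.ru na
  have rv : Rea v := MPb0eR.Rl.rea hO.rv nb'
  have rw' : Rea w := MPb0eR.Rl.rea hO.rw' nc'
  have rN : (pu oA * pw oC).im = 0 :=
    u1a_N hY.ho hY.hne (fun b => MPb0eR.c2_re T pu w ru rw' b) e2
  have rN' : (pu oA * pv oB).im = 0 :=
    u1a_N hY.ho' hY.hne' (fun c => MPb0eR.c3_re T pu v ru rv c) e3
  have rX : (pu oA).im = 0 := ru oA
  have rZ : (pw oC).im = 0 := by
    have e : pw oC = pu oA * pw oC / pu oA := by field_simp
    rw [e]
    exact u1a_div rN rX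
  have rY : (pv oB).im = 0 := by
    have e : pv oB = pu oA * pv oB / pu oA := by field_simp
    rw [e]
    exact u1a_div rN' rX
  have hP : pu oA * pv oB * pw oC ≠ 0 := mul_ne_zero (mul_ne_zero hX hY') hZ
  have rP : (pu oA * pv oB * pw oC).im = 0 := u1a_mul rN' rZ
  have ra : (pm 0).im = 0 := by
    have e : pm 0 = q v * q w / (pu oA * pv oB * pw oC) := by
      rw [eq_div_iff hP]
      linear_combination e4
    rw [e]
    exact u1a_div (u1a_mul (u1a_q rv) (u1a_q rw')) rP
  have rb : (pm 1).im = 0 := by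
    have e : pm 1 = q pu * q w / (pu oA * pv oB * pw oC) := by
      rw [eq_div_iff hP]
      linear_combination e5
    rw [e]
    exact u1a_div (u1a_mul (u1a_q ru) (u1a_q rw')) rP
  have rc : (pm 2).im = 0 := by
    have e : pm 2 = q pu * q v / (pu oA * pv oB * pw oC) := by
      rw [eq_div_iff hP]
      linear_combination e6
    rw [e]
    exact u1a_div (u1a_mul (u1a_q ru) (u1a_q rv)) rP
  refine ⟨?_, ?_⟩
  · have h1 : cj pu = pu := (MPb0eR.rea_iff pu).1 ru
    have h2 : cj pv = pv := (MPb0eR.rea_iff pv).1 fun b => by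
      by_cases hb : b = oB
      · rw [hb]
        exact rY
      · have := rv b
        rwa [hv, u1a_ne hb] at this
    have h3 : cj pw = pw := (MPb0eR.rea_iff pw).1 fun c => by
      by_cases hc : c = oC
      · rw [hc]
        exact rZ
      · have := rw' c
        rwa [hw, u1a_ne hc] at this
    have h4 : cj pm = pm := (MPb0eR.rea_iff pm).1 fun i => by
      fin_cases i
      · exact ra
      · exact rb
      · exact rc
    simp only [cjK, h1, h2, h3, h4]
  · intro x hx
    have hK := kerD hx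
    obtain ⟨xu, xv, xw, xm⟩ := x
    have k1 := hK.e1
    have k2 := hK.e2
    have k3 := hK.e3
    have k4 := hK.e4
    have k5 := hK.e5
    have k6 := hK.e6
    have n1 := hK.n1
    have n2 := hK.n2
    have n3 := hK.n3
    clear hK hx
    simp only [u1a_z0, u1a_z1, u1a_z2, u1a_z3, u1a_z4, u1a_z5, u1a_z6, u1a_z7, u1a_z8,
      u1a_one, Complex.ofReal_one, Complex.ofReal_zero, one_mul, zero_mul]
      at k1 k2 k3 k4 k5 k6 n1 n2 n3
    rw [← hv, ← hw] at k4
    rw [← hw] at k5
    rw [← hv] at k6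
    have hKD : KD1 T oA oB oC h h' pu v w (pu oA * pw oC) (pu oA * pv oB) xu (scl oB 0 1 xv)
        (scl oC 0 1 xw) (xu oA * pw oC + pu oA * xw oC) (xu oA * pv oB + pu oA * xv oB) :=
      ⟨u1a_o oB xv, u1a_o oC xw, k1, k2, k3⟩
    obtain ⟨⟨r, hr⟩, ⟨s, hs⟩, ⟨t, ht⟩⟩ := hO.nd _ _ _ _ _ hKD
    have xu0 : xu = 0 := by
      have := congrFun hr ia
      rw [Pi.smul_apply, n1, na, smul_eq_mul, mul_one] at this
      rw [hr, ← this, zero_smul]
    have xv0 : scl oB 0 1 xv = 0 := by
      have := congrFun hs ib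
      rw [u1a_ne jb, Pi.smul_apply, n2, nb', smul_eq_mul, mul_one] at this
      rw [hs, ← this, zero_smul]
    have xw0 : scl oC 0 1 xw = 0 := by
      have := congrFun ht ic
      rw [u1a_ne jc, Pi.smul_apply, n3, nc', smul_eq_mul, mul_one] at this
      rw [ht, ← this, zero_smul]
    rw [xu0, xw0] at k2
    rw [xu0, xv0] at k3
    have hz : pu oA * xw oC = 0 := by
      refine u1a_N0 hY.ho hY.hne fun b hb => ?_
      have := k2 b hb
      rw [MPb0eR.c2_zero_left, MPb0eR.c2_zero_right] at this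
      simpa using this
    have hy : pu oA * xv oB = 0 := by
      refine u1a_N0 hY.ho' hY.hne' fun c hc => ?_
      have := k3 c hc
      rw [MPb0eR.c3_zero_left, MPb0eR.c3_zero_right] at this
      simpa using this
    have hz' : xw oC = 0 := (mul_eq_zero.1 hz).resolve_left hX
    have hy' : xv oB = 0 := (mul_eq_zero.1 hy).resolve_left hX
    have xv1 : xv = 0 := by
      funext b
      by_cases hb : b = oB
      · rw [hb, hy', Pi.zero_apply]
      · have := congrFun xv0 b
        rwa [u1a_ne hb] at this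
    have xw1 : xw = 0 := by
      funext c
      by_cases hc : c = oC
      · rw [hc, hz', Pi.zero_apply]
      · have := congrFun xw0 c
        rwa [u1a_ne hc] at this
    have xm1 : xm = 0 := by
      rw [xu0, xv0, xw0, hy', hz', u1a_dt, u1a_dt] at k4
      rw [xu0, xw0, hy', hz', u1a_dt, u1a_dt] at k5
      rw [xu0, xv0, hy', hz', u1a_dt, u1a_dt] at k6
      funext i
      fin_cases i
      · refine (mul_eq_zero.1 (?_ : pu oA * pv oB * pw oC * xm 0 = 0)).resolve_left hP
        simpa using k4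
      · refine (mul_eq_zero.1 (?_ : pu oA * pv oB * pw oC * xm 1 = 0)).resolve_left hP
        simpa using k5
      · refine (mul_eq_zero.1 (?_ : pu oA * pv oB * pw oC * xm 2 = 0)).resolve_left hP
        simpa using k6
    rw [xu0, xv1, xw1, xm1]
    rfl

end

end Pool.Agent.MPb0eK
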