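import Mathlib
import Pool.Agent.Lib.MP_b0e20b_ag_K.WDefs
import Pool.Agent.Lib.MP_b0e20b_ag_K.TXa
import Pool.Agent.Lib.MP_b0e20b_ag_K.KerDx

/-!
# MP_b0e20b_ag, project K: the limit system of the D type 2
-/

set_option autoImplicit false

open scoped BigOperators Topology
open Filter

namespace Pool.Agent.MPb0eK

open MPb0eR (c1 c2 c3 tr q Sup Rl Rea uf Nrm cj AF scl)

section

variable {A B C : Type} [Fintype A] [Fintype B] [Fintype C] [DecidableEq A] [DecidableEq B]
  [DecidableEq C] {oA : A} {oB : B} {oC : C}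
  {h : B → ℝ} {h' : C → ℝ}

private theorem U2a_im {x y : ℂ} (h1 : (x * y).im = 0) (h2 : x.im = 0) (h3 : x ≠ 0) :
    y.im = 0 := by
  rw [Complex.mul_im, h2, zero_mul, add_zero] at h1
  rcases mul_eq_zero.mp h1 with h4 | h4
  · exact absurd (Complex.ext h4 h2) h3
  · exact h4

private theorem U2a_q {D : Type} [Fintype D] [DecidableEq D] (o : D) (f : D → ℂ) :
    q (scl o 1 0 f) = f o ^ 2 := by
  rw [q, Finset.sum_eq_single o]
  · simp [scl]
  · intro b _ hb
    simp [scl, hb]
  · intro hb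
    exact absurd (Finset.mem_univ o) hb

private theorem U2a_rea {D : Type} [DecidableEq D] (o : D) (e f : ℝ) {x : D → ℂ} (hx : Rea x) :
    Rea (scl o e f x) := by
  intro a
  rw [scl, Complex.im_ofReal_mul, hx a, mul_zero]

private theorem U2a_scl0 {D : Type} [DecidableEq D] (o : D) {x : D → ℂ} (hx : x o = 0) :
    scl o 1 0 x = 0 := by
  funext a
  by_cases ha : a = o
  · rw [ha, scl, hx, mul_zero, Pi.zero_apply]
  · simp [scl, ha]

private theorem U2a_scl1 {D : Type} [DecidableEq D] (o : D) {x : D → ℂ}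
    (hx : ∀ b, b ≠ o → x b = 0) : scl o 0 1 x = 0 := by
  funext a
  by_cases ha : a = o
  · simp [scl, ha]
  · rw [scl, hx a ha, mul_zero, Pi.zero_apply]

private theorem U2a_dt0 {D : Type} [Fintype D] (x : D → ℂ) : dt x 0 = 0 := by
  simp [dt]

/-- Real and nondegenerate.

Proof. `zD 2 0 = ![1,0,1,0,0,1,0,1,0]`. `u = scl oA 1 0 p.1 = e_oA` (`X = 1`), `w = e_oC` (`Z = 1`),
`v = scl oB 0 1 p.2.1`. `h b = β v b` for `b ≠ oB`, so `β = h ib ≠ 0` (`h ≠ 0`, and `β = 0` would
give
`h = 0`) is real and `v` is real, `q v > 0`; `Y β = 1`, `Y α = q v`, `Y γ = q v`: real; the other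
coordinates `U a = c1 T v w a / α`, `W c = c3 T u v c / γ` are real. Kernel: `dβ v b + β dv b = 0`
for
`b ≠ oB`, with `dv ib = 0`: `dβ = 0`, `dv = 0`; `dX = dZ = 0` (normalisation); `dY = 0`, `dα = dγ
= 0`;
then `dU a = 0`, `dW c = 0`. -/
theorem u2a {T : A → B → C → ℝ} (hY : HY3 T oA oB oC h h') {ia : A} {ib : B} {ic : C}
    (ja : ia = oA) (jb : ib ≠ oB) (jc : ic = oC) {p : PK A B C}
    (hp : locD oA oB oC h h' ia ib ic (T, zD 2 0) p = 0) (hX : p.1 oA ≠ 0) (hY' : p.2.1 oB ≠ 0)
    (hZ : p.2.2.1 oC ≠ 0) :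
    cjK p = p ∧ ∀ x, HasDerivAt (fun t : ℝ => locD oA oB oC h h' ia ib ic (T, zD 2 0) (p + t • x))
      0 0 → x = 0 := by
  have z0 : zD 2 0 0 = 1 := by simp [zD]
  have z1 : zD 2 0 1 = 0 := by simp [zD]
  have z2 : zD 2 0 2 = 1 := by simp [zD]
  have z3 : zD 2 0 3 = 0 := by simp [zD]
  have z4 : zD 2 0 4 = 0 := by simp [zD]
  have z5 : zD 2 0 5 = 1 := by simp [zD]
  have z6 : zD 2 0 6 = 0 := by simp [zD]
  have z7 : zD 2 0 7 = 1 := by simp [zD]
  have z8 : zD 2 0 8 = 0 := by simp [zD]
  obtain ⟨u, v, w, m⟩ := p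
  have hY1 : v oB ≠ 0 := hY'
  have hD : ∀ i : Fin 3, (![u ia - 1, v ib - 1, w ic - 1] : Fin 3 → ℂ) i = 0 := fun i =>
    congrFun (congrArg (fun x : QK A B C => x.2.2.2) hp) i
  have nu : u oA = 1 := by
    have h1 := hD 0
    rw [← ja]
    exact sub_eq_zero.mp h1
  have nv : v ib = 1 := sub_eq_zero.mp (hD 1)
  have nw : w oC = 1 := by
    have h1 := hD 2
    rw [← jc]
    exact sub_eq_zero.mp h1
  set U := scl oA 1 0 u with hU
  set V := scl oB 0 1 v with hV
  set W := scl oC 1 0 w with hW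
  have qU : q U = 1 := by rw [hU, U2a_q, nu, one_pow]
  have qW : q W = 1 := by rw [hW, U2a_q, nw, one_pow]
  have eA0 : v oB * m 0 = q V := by
    have h1 := congrFun (congrArg (fun x : QK A B C => x.1) hp) oA
    simp only [locD, z0, z1, z2, z3, z4, if_true, ← hU, ← hV, ← hW] at h1
    rw [nu, nw, qW] at h1
    have h2 := sub_eq_zero.mp h1
    rw [one_mul, mul_one, mul_one] at h2
    exact h2
  have eB0 : v oB * m 1 = 1 := by
    have h1 := congrFun (congrArg (fun x : QK A B C => x.2.1) hp) oB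
    simp only [locD, z0, z1, z2, z3, z4, if_true, ← hU, ← hV, ← hW] at h1
    rw [nu, nw, qW, qU] at h1
    have h2 := sub_eq_zero.mp h1
    rw [one_mul, mul_one, mul_one] at h2
    exact h2
  have eC0 : v oB * m 2 = q V := by
    have h1 := congrFun (congrArg (fun x : QK A B C => x.2.2.1) hp) oC
    simp only [locD, z0, z1, z2, z3, z4, if_true, ← hU, ← hV, ← hW] at h1
    rw [nu, nw, qU] at h1
    have h2 := sub_eq_zero.mp h1
    rw [one_mul, mul_one, one_mul] at h2
    exact h2
  have eA : ∀ a, a ≠ oA → c1 T V W a = m 0 * u a := by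
    intro a ha
    have h1 := congrFun (congrArg (fun x : QK A B C => x.1) hp) a
    simp only [locD, z0, z1, z2, z3, z4, z7, if_neg ha, ← hU, ← hV, ← hW, Complex.ofReal_one,
      one_mul] at h1
    exact sub_eq_zero.mp h1
  have eB : ∀ b, b ≠ oB → (h b : ℂ) = m 1 * v b := by
    intro b hb
    have h1 := congrFun (congrArg (fun x : QK A B C => x.2.1) hp) b
    simp only [locD, z0, z1, z2, z3, z4, z5, z7, z8, if_neg hb, ← hU, ← hV, ← hW,
      Complex.ofReal_one, Complex.ofReal_zero, one_mul, zero_mul, zero_add] at h1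
    rw [nu, nw, one_mul, one_mul] at h1
    exact sub_eq_zero.mp h1
  have eC : ∀ c, c ≠ oC → c3 T U V c = m 2 * w c := by
    intro c hc
    have h1 := congrFun (congrArg (fun x : QK A B C => x.2.2.1) hp) c
    simp only [locD, z0, z1, z2, z3, z4, z6, z7, if_neg hc, ← hU, ← hV, ← hW,
      Complex.ofReal_one, Complex.ofReal_zero, one_mul, zero_mul, add_zero] at h1
    exact sub_eq_zero.mp h1
  have m1 : m 1 = (h ib : ℂ) := by
    rw [eB ib jb, nv, mul_one]
  have m1ne : m 1 ≠ 0 := by
    intro h0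
    rw [h0, mul_zero] at eB0
    exact zero_ne_one eB0
  have m1im : (m 1).im = 0 := by rw [m1, Complex.ofReal_im]
  have rv : Rea v := by
    intro b
    by_cases hb : b = oB
    · rw [hb]
      apply U2a_im (x := m 1) _ m1im m1ne
      rw [mul_comm, eB0, Complex.one_im]
    · apply U2a_im (x := m 1) _ m1im m1ne
      rw [← eB b hb, Complex.ofReal_im]
  have rV : Rea V := U2a_rea _ _ _ rv
  have Vne : V ≠ 0 := by
    intro h0
    have h1 := congrFun h0 ib
    rw [hV] at h1
    simp [scl, jb, nv] at h1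
  obtain ⟨hq1, hq2⟩ := q_rea_pos rV Vne
  have qVne : q V ≠ 0 := by
    intro h0
    rw [h0, Complex.zero_re] at hq1
    exact lt_irrefl _ hq1
  have m0 : m 0 = q V * m 1 := by
    calc m 0 = v oB * m 1 * m 0 := by rw [eB0, one_mul]
      _ = v oB * m 0 * m 1 := by ring
      _ = q V * m 1 := by rw [eA0]
  have m2 : m 2 = q V * m 1 := by
    calc m 2 = v oB * m 1 * m 2 := by rw [eB0, one_mul]
      _ = v oB * m 2 * m 1 := by ring
      _ = q V * m 1 := by rw [eC0]
  have m0ne : m 0 ≠ 0 := by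
    rw [m0]
    exact mul_ne_zero qVne m1ne
  have m2ne : m 2 ≠ 0 := by
    rw [m2]
    exact mul_ne_zero qVne m1ne
  have m0im : (m 0).im = 0 := by
    rw [m0, Complex.mul_im, hq2, m1im, mul_zero, zero_mul, add_zero]
  have m2im : (m 2).im = 0 := by
    rw [m2, Complex.mul_im, hq2, m1im, mul_zero, zero_mul, add_zero]
  have rU : Rea U := by
    intro a
    by_cases ha : a = oA
    · rw [hU, ha]
      simp [scl, nu]
    · rw [hU]
      simp [scl, ha]
  have rW : Rea W := by
    intro c
    by_cases hc : c = oC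
    · rw [hW, hc]
      simp [scl, nw]
    · rw [hW]
      simp [scl, hc]
  have ru : Rea u := by
    intro a
    by_cases ha : a = oA
    · rw [ha, nu, Complex.one_im]
    · apply U2a_im (x := m 0) _ m0im m0ne
      rw [← eA a ha]
      exact MPb0eR.c1_re _ V W rV rW a
  have rw1 : Rea w := by
    intro c
    by_cases hc : c = oC
    · rw [hc, nw, Complex.one_im]
    · apply U2a_im (x := m 2) _ m2im m2ne
      rw [← eC c hc]
      exact MPb0eR.c3_re _ U V rU rV c
  have rm : Rea m := by
    intro i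
    fin_cases i
    · exact m0im
    · exact m1im
    · exact m2im
  refine ⟨?_, ?_⟩
  · have h1 : cj u = u := (MPb0eR.rea_iff u).1 ru
    have h2 : cj v = v := (MPb0eR.rea_iff v).1 rv
    have h3 : cj w = w := (MPb0eR.rea_iff w).1 rw1
    have h4 : cj m = m := (MPb0eR.rea_iff m).1 rm
    change (cj u, cj v, cj w, cj m) = (u, v, w, m)
    rw [h1, h2, h3, h4]
  · rintro ⟨du, dv, dw, dm⟩ hd
    have K := kerD hd
    have k1 : du oA = 0 := by
      rw [← ja]
      exact K.n1
    have k2 : dv ib = 0 := K.n2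
    have k3 : dw oC = 0 := by
      rw [← jc]
      exact K.n3
    have dU : scl oA 1 0 du = 0 := U2a_scl0 oA k1
    have dW : scl oC 1 0 dw = 0 := U2a_scl0 oC k3
    have f2 : ∀ b, b ≠ oB → m 1 * dv b + dm 1 * v b = 0 := by
      intro b hb
      have h1 := K.e2 b hb
      simp only [z0, z2, z3, z4, z5, z7, z8, k1, k3, Complex.ofReal_one,
        Complex.ofReal_zero, one_mul, zero_mul, mul_zero, add_zero] at h1
      exact h1.symm
    have dm1 : dm 1 = 0 := by
      have h1 := f2 ib jb
      rw [k2, nv, mul_zero, zero_add, mul_one] at h1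
      exact h1
    have dvb : ∀ b, b ≠ oB → dv b = 0 := by
      intro b hb
      have h1 := f2 b hb
      rw [dm1, zero_mul, add_zero] at h1
      exact (mul_eq_zero.mp h1).resolve_left m1ne
    have dV : scl oB 0 1 dv = 0 := U2a_scl1 oB dvb
    have dvo : dv oB = 0 := by
      have h1 := K.e5
      simp only [z0, z2, z3, z4, k1, k3, dU, dW, dm1, nu, nw, U2a_dt0, zero_mul, mul_zero,
        add_zero, zero_add, one_mul, mul_one] at h1
      exact (mul_eq_zero.mp h1).resolve_right m1ne
    have hdv : dv = 0 := by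
      funext b
      by_cases hb : b = oB
      · rw [hb, dvo, Pi.zero_apply]
      · rw [dvb b hb, Pi.zero_apply]
    have dm0 : dm 0 = 0 := by
      have h1 := K.e4
      simp only [z1, z2, z4, k1, k3, dvo, dV, dW, nu, nw, U2a_dt0, zero_mul, mul_zero,
        add_zero, zero_add, one_mul, mul_one] at h1
      exact (mul_eq_zero.mp h1).resolve_left hY1
    have dm2 : dm 2 = 0 := by
      have h1 := K.e6
      simp only [z0, z1, z3, k1, k3, dvo, dU, dV, nu, nw, U2a_dt0, zero_mul, mul_zero,
        add_zero, zero_add, one_mul, mul_one] at h1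
      exact (mul_eq_zero.mp h1).resolve_left hY1
    have hdu : du = 0 := by
      funext a
      by_cases ha : a = oA
      · rw [ha, k1, Pi.zero_apply]
      · have h1 := K.e1 a ha
        simp only [z1, z2, z4, z7, dV, dW, dm0, MPb0eR.c1_zero_left,
          MPb0eR.c1_zero_right, Complex.ofReal_one, zero_mul, add_zero, one_mul] at h1
        exact (mul_eq_zero.mp h1.symm).resolve_left m0ne
    have hdw : dw = 0 := by
      funext c
      by_cases hc : c = oC
      · rw [hc, k3, Pi.zero_apply]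
      · have h1 := K.e3 c hc
        simp only [z0, z1, z3, z6, z7, dU, dV, dm2, MPb0eR.c3_zero_left,
          MPb0eR.c3_zero_right, Complex.ofReal_one, Complex.ofReal_zero, zero_mul, add_zero,
          one_mul] at h1
        exact (mul_eq_zero.mp h1.symm).resolve_left m2ne
    have hdm : dm = 0 := by
      funext i
      fin_cases i
      · exact dm0
      · exact dm1
      · exact dm2
    rw [hdu, hdv, hdw, hdm]
    rfl

end

end Pool.Agent.MPb0eK
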