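import Mathlib
import Pool.Agent.Lib.MP_b0e20b_ag_K.WDefs
import Pool.Agent.Lib.MP_b0e20b_ag_K.TXa
import Pool.Agent.Lib.MP_b0e20b_ag_K.LocD
import Pool.Agent.Lib.MP_b0e20b_ag_K.ScE
import Pool.Agent.Lib.MP_b0e20b_ag_K.U0a
import Pool.Agent.Lib.MP_b0e20b_ag_K.U1a
import Pool.Agent.Lib.MP_b0e20b_ag_K.U2a
import Pool.Agent.Lib.MP_b0e20b_ag_K.Cls1
import Pool.Agent.Lib.MP_b0e20b_ag_K.Cls2

/-!
# MP_b0e20b_ag, project K: D types: conclusion
-/

set_option autoImplicit false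

open scoped BigOperators Topology
open Filter

namespace Pool.Agent.MPb0eK

open MPb0eR (c1 c2 c3 tr q Sup Rl Rea uf Nrm cj AF scl)

/-- A vector whose rescaled vector is its own conjugate is real. -/
private theorem AsD_rea {A : Type} [DecidableEq A] {a0 : A} {e f : ℝ} (he : e ≠ 0) (hf : f ≠ 0)
    {u : A → ℂ} (h : cj (scl a0 e f u) = scl a0 e f u) : Rea u := by
  intro a
  have h1 := congrFun h a
  have h2 : (if a = a0 then e else f) ≠ 0 := by split_ifs <;> assumption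
  have h3 : ((((if a = a0 then e else f : ℝ) : ℂ) * u a)).im = 0 := Complex.conj_eq_iff_im.1 h1
  rw [Complex.im_ofReal_mul] at h3
  exact (mul_eq_zero.1 h3).resolve_left h2

private theorem AsD_scl_lim {A : Type} [DecidableEq A] {a0 : A} {e f : ℕ → ℝ} {u : ℕ → A → ℂ}
    {U : A → ℂ} (ho : Tendsto (fun n => (e n : ℂ) * u n a0) uf (𝓝 (U a0)))
    (hn : ∀ a, a ≠ a0 → Tendsto (fun n => (f n : ℂ) * u n a) uf (𝓝 (U a))) :
    Tendsto (fun n => scl a0 (e n) (f n) (u n)) uf (𝓝 U) := by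
  rw [tendsto_pi_nhds]
  intro a
  by_cases ha : a = a0
  · subst ha
    refine ho.congr fun n => ?_
    simp [scl]
  · refine (hn a ha).congr fun n => ?_
    simp [scl, ha]

private theorem AsD_zD_lim (k : Fin 3) {ε : ℕ → ℝ} (hε : Tendsto ε uf (𝓝 0)) :
    Tendsto (fun n => zD k (ε n)) uf (𝓝 (zD k 0)) := by
  have hc : Continuous fun e : ℝ => zD k e := by
    refine continuous_pi fun i => ?_
    fin_cases k <;> fin_cases i <;> simp [zD] <;> fun_prop
  exact (hc.tendsto 0).comp hε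

private theorem AsD_m (k : Fin 3) (hk : k ≠ 2) (e : ℝ) :
    zD k e 7 * e ^ xD k 0 * e ^ xD k 1 * e ^ xD k 2 = e ^ 10 := by
  fin_cases k
  · simp [zD, xD]
    ring
  · simp [zD, xD]
    ring
  · exact absurd rfl hk

private theorem AsD_m0 (k : Fin 3) {e : ℝ} (he : e ≠ 0) : zD k e 7 ≠ 0 := by
  fin_cases k <;> simp [zD, he]

private theorem AsD_cont {Z P Q : Type} [TopologicalSpace Z] [TopologicalSpace P]
    [TopologicalSpace Q] [T2Space Q] (Φ : Z → P → Q) (hc : Continuous fun x : Z × P => Φ x.1 x.2)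
    {z : ℕ → Z} {z0 : Z} {p : ℕ → P} {p0 : P} (hz : Tendsto z uf (𝓝 z0))
    (hp : Tendsto p uf (𝓝 p0)) {c : Q} (h0 : ∀ n, Φ (z n) (p n) = c) : Φ z0 p0 = c := by
  have h1 : Tendsto (fun n => Φ (z n) (p n)) uf (𝓝 (Φ z0 p0)) :=
    (hc.tendsto (z0, p0)).comp (hz.prodMk_nhds hp)
  refine tendsto_nhds_unique h1 ?_
  simp only [h0]
  exact tendsto_const_nhds

section

variable {A B C : Type} [Fintype A] [Fintype B] [Fintype C] [DecidableEq A] [DecidableEq B]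
  [DecidableEq C] {oA : A} {oB : B} {oC : C}
  {h : B → ℝ} {h' : C → ℝ}

variable {T : ℕ → A → B → C → ℝ} {T0 : A → B → C → ℝ} {ε : ℕ → ℝ} {ia : A} {ib : B} {ic : C}
  {u : ℕ → A → ℂ} {v : ℕ → B → ℂ} {w : ℕ → C → ℂ} {α β γ N N' : ℕ → ℂ}

/-- The limit of the local points is a solution of the limit system, and if it is real and
nondegenerate, then the points are real. -/
private theorem AsD_fin {k : Fin 3} {p : ℕ → PK A B C} {p0 : PK A B C}
    (hT : Tendsto T uf (𝓝 T0)) (hε : Tendsto ε uf (𝓝 0)) (hp : Tendsto p uf (𝓝 p0))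
    (h0 : ∀ n, locD oA oB oC h h' ia ib ic (T n, zD k (ε n)) (p n) = 0)
    (hU : locD oA oB oC h h' ia ib ic (T0, zD k 0) p0 = 0 → cjK p0 = p0 ∧
      ∀ x, HasDerivAt (fun t : ℝ => locD oA oB oC h h' ia ib ic (T0, zD k 0) (p0 + t • x))
        0 0 → x = 0) :
    ∀ᶠ n in uf, cjK (p n) = p n := by
  have hz : Tendsto (fun n => (T n, zD k (ε n))) uf (𝓝 (T0, zD k 0)) :=
    hT.prodMk_nhds (AsD_zD_lim k hε)
  have hc := (locD_contDiff oA oB oC h h' ia ib ic).continuous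
  have h2 : locD oA oB oC h h' ia ib ic (T0, zD k 0) p0 = 0 :=
    AsD_cont (locD oA oB oC h h' ia ib ic) hc hz hp h0
  obtain ⟨h3, h4⟩ := hU h2
  exact locD_rig oA oB oC h h' ia ib ic hz hp h0 h3 h4

/-- The types D0 and D1. -/
private theorem AsD_core {k : Fin 3} (hk : k ≠ 2) (ho : h oB = 0) (ho' : h' oC = 0)
    (hS : SqH T T0 oA oB oC h h' ε ia ib ic u v w α β γ N N') {u0 : A → ℂ} {v0 : B → ℂ}
    {w0 : C → ℂ} (hu : Tendsto u uf (𝓝 u0)) (hv : Tendsto v uf (𝓝 v0)) (hw : Tendsto w uf (𝓝 w0))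
    {X Y Z : ℂ} (hX : X ≠ 0) (hY : Y ≠ 0) (hZ : Z ≠ 0)
    (tX : Tendsto (fun n => u n oA / (ε n : ℂ) ^ xD k 0) uf (𝓝 X))
    (tY : Tendsto (fun n => v n oB / (ε n : ℂ) ^ xD k 1) uf (𝓝 Y))
    (tZ : Tendsto (fun n => w n oC / (ε n : ℂ) ^ xD k 2) uf (𝓝 Z))
    (ja : ia = oA → xD k 0 = 0) (jb : ib = oB → xD k 1 = 0) (jc : ic = oC → xD k 2 = 0)
    (hU : ∀ p, locD oA oB oC h h' ia ib ic (T0, zD k 0) p = 0 → p.1 oA ≠ 0 → p.2.1 oB ≠ 0 →
      p.2.2.1 oC ≠ 0 → cjK p = p ∧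
      ∀ x, HasDerivAt (fun t : ℝ => locD oA oB oC h h' ia ib ic (T0, zD k 0) (p + t • x))
        0 0 → x = 0) :
    ∀ᶠ n in uf, Rea (u n) ∧ Rea (v n) ∧ Rea (w n) := by
  set p : ℕ → PK A B C := fun n => (scl oA (ε n ^ xD k 0)⁻¹ 1 (u n),
    scl oB (ε n ^ xD k 1)⁻¹ 1 (v n), scl oC (ε n ^ xD k 2)⁻¹ 1 (w n),
    ![α n / zD k (ε n) 7, β n / zD k (ε n) 7, γ n / zD k (ε n) 7]) with hp
  have h0 : ∀ n, locD oA oB oC h h' ia ib ic (T n, zD k (ε n)) (p n) = 0 := fun n =>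
    scD ho ho' (hS.pos n) (hS.sol n) k hk (hS.nu n).1 (hS.nv n).1 (hS.nw n).1 ja jb jc
  set U : A → ℂ := fun a => if a = oA then X else u0 a with hUd
  set V : B → ℂ := fun b => if b = oB then Y else v0 b with hVd
  set W : C → ℂ := fun c => if c = oC then Z else w0 c with hWd
  have lu : Tendsto (fun n => scl oA (ε n ^ xD k 0)⁻¹ 1 (u n)) uf (𝓝 U) := by
    refine AsD_scl_lim ?_ ?_
    · rw [hUd]
      simp only [if_true]
      refine tX.congr fun n => ?_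
      push_cast
      rw [div_eq_inv_mul]
    · intro a ha
      rw [hUd]
      simp only [ha, if_false, Complex.ofReal_one, one_mul]
      exact tendsto_pi_nhds.1 hu a
  have lv : Tendsto (fun n => scl oB (ε n ^ xD k 1)⁻¹ 1 (v n)) uf (𝓝 V) := by
    refine AsD_scl_lim ?_ ?_
    · rw [hVd]
      simp only [if_true]
      refine tY.congr fun n => ?_
      push_cast
      rw [div_eq_inv_mul]
    · intro a ha
      rw [hVd]
      simp only [ha, if_false, Complex.ofReal_one, one_mul]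
      exact tendsto_pi_nhds.1 hv a
  have lw : Tendsto (fun n => scl oC (ε n ^ xD k 2)⁻¹ 1 (w n)) uf (𝓝 W) := by
    refine AsD_scl_lim ?_ ?_
    · rw [hWd]
      simp only [if_true]
      refine tZ.congr fun n => ?_
      push_cast
      rw [div_eq_inv_mul]
    · intro a ha
      rw [hWd]
      simp only [ha, if_false, Complex.ofReal_one, one_mul]
      exact tendsto_pi_nhds.1 hw a
  have hXYZ : X * Y * Z ≠ 0 := mul_ne_zero (mul_ne_zero hX hY) hZ
  have key : ∀ n, ∀ x y : ℂ, u n oA * v n oB * w n oC * x = ((ε n ^ 10 : ℝ) : ℂ) * y →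
      y / (u n oA / (ε n : ℂ) ^ xD k 0 * (v n oB / (ε n : ℂ) ^ xD k 1)
        * (w n oC / (ε n : ℂ) ^ xD k 2)) = x / zD k (ε n) 7 := by
    intro n x y hxy
    have he : (ε n : ℂ) ≠ 0 := by exact_mod_cast (hS.pos n).ne'
    have hm : (zD k (ε n) 7 : ℂ) ≠ 0 := by exact_mod_cast AsD_m0 k (hS.pos n).ne'
    have hm1 : (zD k (ε n) 7 : ℂ) * (ε n : ℂ) ^ xD k 0 * (ε n : ℂ) ^ xD k 1
        * (ε n : ℂ) ^ xD k 2 = (ε n : ℂ) ^ 10 := by exact_mod_cast AsD_m k hk (ε n)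
    have a1 := (hS.sol n).xo
    have a2 := (hS.sol n).yo
    have a3 := (hS.sol n).zo
    have e0 := pow_ne_zero (xD k 0) he
    have e1 := pow_ne_zero (xD k 1) he
    have e2 := pow_ne_zero (xD k 2) he
    rw [div_eq_div_iff (mul_ne_zero (mul_ne_zero (div_ne_zero a1 e0) (div_ne_zero a2 e1))
      (div_ne_zero a3 e2)) hm]
    push_cast at hxy
    rw [← hm1] at hxy
    field_simp
    linear_combination -hxy
  have lα : Tendsto (fun n => α n / zD k (ε n) 7) uf (𝓝 (q v0 * q w0 / (X * Y * Z))) := by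
    refine (((MPb0eR.lim_q hv).mul (MPb0eR.lim_q hw)).div ((tX.mul tY).mul tZ) hXYZ).congr
      fun n => ?_
    exact key n _ _ (hS.sol n).eα
  have lβ : Tendsto (fun n => β n / zD k (ε n) 7) uf (𝓝 (q u0 * q w0 / (X * Y * Z))) := by
    refine (((MPb0eR.lim_q hu).mul (MPb0eR.lim_q hw)).div ((tX.mul tY).mul tZ) hXYZ).congr
      fun n => ?_
    exact key n _ _ (hS.sol n).eβ
  have lγ : Tendsto (fun n => γ n / zD k (ε n) 7) uf (𝓝 (q u0 * q v0 / (X * Y * Z))) := by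
    refine (((MPb0eR.lim_q hu).mul (MPb0eR.lim_q hv)).div ((tX.mul tY).mul tZ) hXYZ).congr
      fun n => ?_
    exact key n _ _ (hS.sol n).eγ
  have lm : Tendsto (fun n => ![α n / zD k (ε n) 7, β n / zD k (ε n) 7, γ n / zD k (ε n) 7]) uf
      (𝓝 (![q v0 * q w0 / (X * Y * Z), q u0 * q w0 / (X * Y * Z),
        q u0 * q v0 / (X * Y * Z)] : Fin 3 → ℂ)) := by
    rw [tendsto_pi_nhds]
    intro i
    fin_cases i
    · exact lα
    · exact lβ
    · exact lγ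
  have lp : Tendsto p uf (𝓝 (U, V, W, ![q v0 * q w0 / (X * Y * Z), q u0 * q w0 / (X * Y * Z),
        q u0 * q v0 / (X * Y * Z)])) :=
    lu.prodMk_nhds (lv.prodMk_nhds (lw.prodMk_nhds lm))
  have hfin := AsD_fin (k := k) hS.hT hS.hε lp h0 (fun hz => hU _ hz
    (by simpa [hUd] using hX) (by simpa [hVd] using hY) (by simpa [hWd] using hZ))
  filter_upwards [hfin] with n hn
  have he : ε n ≠ 0 := (hS.pos n).ne'
  have h1 : cj (p n).1 = (p n).1 := congrArg Prod.fst hn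
  have h2 : cj (p n).2.1 = (p n).2.1 := congrArg (fun x : PK A B C => x.2.1) hn
  have h3 : cj (p n).2.2.1 = (p n).2.2.1 := congrArg (fun x : PK A B C => x.2.2.1) hn
  exact ⟨AsD_rea (inv_ne_zero (pow_ne_zero _ he)) one_ne_zero h1,
    AsD_rea (inv_ne_zero (pow_ne_zero _ he)) one_ne_zero h2,
    AsD_rea (inv_ne_zero (pow_ne_zero _ he)) one_ne_zero h3⟩

/-- The solutions of type D0 and D1 are real.

Proof. Orders: case 1 (D0): `u_o / ε ^ 4 = N / w_o`; case 2 (D1): `w_o / ε ^ 4 = N / u_o`,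
`v_o / ε ^ 4 = N' / u_o`; so `Sc` with `xD 0` or `xD 1`. If `xD k 0 ≠ 0` then `u_o → 0`, so `ia ≠
oA`,
and so on. The multipliers divided by `m = zD k ε 7`: `X Y Z (α / m) = q v q w`, so they
converge. `scD`, `u0a`, `u1a`, `locD_rig` as in `asE`. -/
theorem asD {u0 : A → ℂ} {v0 : B → ℂ} {w0 : C → ℂ} {α0 β0 γ0 N0 N0' : ℂ} (hY : HY3 T0 oA oB oC h h')
    (hS : SqH T T0 oA oB oC h h' ε ia ib ic u v w α β γ N N')
    (hL : LmH u v w α β γ N N' u0 v0 w0 α0 β0 γ0 N0 N0')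
    (hE : LE T0 oA oB oC h h' u0 v0 w0 α0 β0 γ0 N0 N0') (h1 : N0 ≠ 0) (h2 : N0' ≠ 0)
    (hc : (u0 oA = 0 ∧ v0 oB ≠ 0 ∧ w0 oC ≠ 0) ∨ (u0 oA ≠ 0 ∧ v0 oB = 0 ∧ w0 oC = 0)) :
    ∀ᶠ n in uf, Rea (u n) ∧ Rea (v n) ∧ Rea (w n) := by
  have nu0 : u0 ia = 1 := (MPb0eR.Nrm.lim hS.nu hL.hu).1
  have nv0 : v0 ib = 1 := (MPb0eR.Nrm.lim hS.nv hL.hv).1
  have nw0 : w0 ic = 1 := (MPb0eR.Nrm.lim hS.nw hL.hw).1
  have tu : Tendsto (fun n => u n oA) uf (𝓝 (u0 oA)) := tendsto_pi_nhds.1 hL.hu oA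
  have tv : Tendsto (fun n => v n oB) uf (𝓝 (v0 oB)) := tendsto_pi_nhds.1 hL.hv oB
  have tw : Tendsto (fun n => w n oC) uf (𝓝 (w0 oC)) := tendsto_pi_nhds.1 hL.hw oC
  rcases hc with ⟨c1', c2', c3'⟩ | ⟨c1', c2', c3'⟩
  · have ja : ia ≠ oA := by
      rintro rfl
      rw [nu0] at c1'
      exact one_ne_zero c1'
    refine AsD_core (k := 0) (by decide) hY.ho hY.ho' hS hL.hu hL.hv hL.hw
      (X := N0 / w0 oC) (Y := v0 oB) (Z := w0 oC) (div_ne_zero h1 c3') c2' c3' ?_ ?_ ?_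
      (fun h => absurd h ja) (fun _ => rfl) (fun _ => rfl)
      (fun p hp x y z => u0a hY ja hp x y z)
    · refine (hL.hN.div tw c3').congr fun n => ?_
      have he : (ε n : ℂ) ≠ 0 := by exact_mod_cast (hS.pos n).ne'
      have hz := (hS.sol n).zo
      have hx : xD 0 0 = 4 := rfl
      change N n / w n oC = _
      rw [hx, (hS.sol n).eN]
      push_cast
      field_simp
    · refine tv.congr fun n => ?_
      have hx : xD 0 1 = 0 := rfl
      rw [hx, pow_zero, div_one]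
    · refine tw.congr fun n => ?_
      have hx : xD 0 2 = 0 := rfl
      rw [hx, pow_zero, div_one]
  · have jb : ib ≠ oB := by
      rintro rfl
      rw [nv0] at c2'
      exact one_ne_zero c2'
    have jc : ic ≠ oC := by
      rintro rfl
      rw [nw0] at c3'
      exact one_ne_zero c3'
    refine AsD_core (k := 1) (by decide) hY.ho hY.ho' hS hL.hu hL.hv hL.hw
      (X := u0 oA) (Y := N0' / u0 oA) (Z := N0 / u0 oA) c1' (div_ne_zero h2 c1')
      (div_ne_zero h1 c1') ?_ ?_ ?_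
      (fun _ => rfl) (fun h => absurd h jb) (fun h => absurd h jc)
      (fun p hp x y z => u1a hY jb jc hp x y z)
    · refine tu.congr fun n => ?_
      have hx : xD 1 0 = 0 := rfl
      rw [hx, pow_zero, div_one]
    · refine (hL.hN'.div tu c1').congr fun n => ?_
      have he : (ε n : ℂ) ≠ 0 := by exact_mod_cast (hS.pos n).ne'
      have hz := (hS.sol n).xo
      have hx : xD 1 1 = 4 := rfl
      change N' n / u n oA = _
      rw [hx, (hS.sol n).eN']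
      push_cast
      field_simp
    · refine (hL.hN.div tu c1').congr fun n => ?_
      have he : (ε n : ℂ) ≠ 0 := by exact_mod_cast (hS.pos n).ne'
      have hz := (hS.sol n).xo
      have hx : xD 1 2 = 4 := rfl
      change N n / u n oA = _
      rw [hx, (hS.sol n).eN]
      push_cast
      field_simp

/-- The solutions of type PL are real. Proof: `cls1`, `scP`, `u2a`, `locD_rig`. -/
theorem asP (hY : HY3 T0 oA oB oC h h')
    (hS : SqH T T0 oA oB oC h h' ε ia ib ic u v w α β γ N N')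
    (hN : Tendsto (fun n => ‖N n‖) uf atTop) :
    ∀ᶠ n in uf, Rea (u n) ∧ Rea (v n) ∧ Rea (w n) := by
  obtain ⟨ja, jb, jc, U, V, W, α0, β0, γ0, hU, hV, hW, tU, tV, tW, tα, tβ, tγ⟩ := cls1 hY hS hN
  subst ja
  subst jc
  set p : ℕ → PK A B C := fun n => (scl ia 1 (ε n ^ 4)⁻¹ (u n),
    scl oB (ε n ^ 14)⁻¹ 1 (v n), scl ic 1 (ε n ^ 4)⁻¹ (w n),
    ![(ε n : ℂ) ^ 4 * α n, (ε n : ℂ) ^ 4 * β n, (ε n : ℂ) ^ 4 * γ n]) with hp
  have h0 : ∀ n, locD ia oB ic h h' ia ib ic (T n, zD 2 (ε n)) (p n) = 0 := fun n =>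
    scP hY.ho hY.ho' (hS.pos n) (hS.sol n) jb (hS.nu n).1 (hS.nv n).1 (hS.nw n).1
  have lu : Tendsto (fun n => scl ia 1 (ε n ^ 4)⁻¹ (u n)) uf (𝓝 U) := by
    refine tU.congr fun n => ?_
    funext a
    simp only [scl]
    split_ifs
    · rw [Complex.ofReal_one, one_mul]
    · push_cast
      rw [div_eq_inv_mul]
  have lv : Tendsto (fun n => scl oB (ε n ^ 14)⁻¹ 1 (v n)) uf (𝓝 V) := by
    refine tV.congr fun n => ?_
    funext a
    simp only [scl]
    split_ifs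
    · push_cast
      rw [div_eq_inv_mul]
    · rw [Complex.ofReal_one, one_mul]
  have lw : Tendsto (fun n => scl ic 1 (ε n ^ 4)⁻¹ (w n)) uf (𝓝 W) := by
    refine tW.congr fun n => ?_
    funext a
    simp only [scl]
    split_ifs
    · rw [Complex.ofReal_one, one_mul]
    · push_cast
      rw [div_eq_inv_mul]
  have lm : Tendsto (fun n => ![(ε n : ℂ) ^ 4 * α n, (ε n : ℂ) ^ 4 * β n, (ε n : ℂ) ^ 4 * γ n]) uf
      (𝓝 (![α0, β0, γ0] : Fin 3 → ℂ)) := by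
    rw [tendsto_pi_nhds]
    intro i
    fin_cases i
    · exact tα
    · exact tβ
    · exact tγ
  have lp : Tendsto p uf (𝓝 (U, V, W, ![α0, β0, γ0])) :=
    lu.prodMk_nhds (lv.prodMk_nhds (lw.prodMk_nhds lm))
  have hfin := AsD_fin (k := 2) hS.hT hS.hε lp h0 (fun hz => u2a hY rfl jb rfl hz
    (by rw [show ((U, V, W, ![α0, β0, γ0]) : PK A B C).1 = U from rfl, hU]; exact one_ne_zero) hV
    (by rw [show ((U, V, W, ![α0, β0, γ0]) : PK A B C).2.2.1 = W from rfl, hW]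
        exact one_ne_zero))
  filter_upwards [hfin] with n hn
  have he : ε n ≠ 0 := (hS.pos n).ne'
  have h1 : cj (p n).1 = (p n).1 := congrArg Prod.fst hn
  have h2 : cj (p n).2.1 = (p n).2.1 := congrArg (fun x : PK A B C => x.2.1) hn
  have h3 : cj (p n).2.2.1 = (p n).2.2.1 := congrArg (fun x : PK A B C => x.2.2.1) hn
  exact ⟨AsD_rea one_ne_zero (inv_ne_zero (pow_ne_zero _ he)) h1,
    AsD_rea (inv_ne_zero (pow_ne_zero _ he)) one_ne_zero h2,
    AsD_rea one_ne_zero (inv_ne_zero (pow_ne_zero _ he)) h3⟩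

end

end Pool.Agent.MPb0eK
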