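import Mathlib
import Pool.Agent.Lib.MP_b0e20b_ag_K.WDefs
import Pool.Agent.Lib.MP_b0e20b_ag_K.TXa
import Pool.Agent.Lib.MP_b0e20b_ag_K.Rig

/-!
# MP_b0e20b_ag, project K: the local system of the E types
-/

set_option autoImplicit false

open scoped BigOperators Topology
open Filter

namespace Pool.Agent.MPb0eK

open MPb0eR (c1 c2 c3 tr q Sup Rl Rea uf Nrm cj AF scl)

section

variable {V A B C : Type} [NormedAddCommGroup V] [NormedSpace ℝ V] [Fintype A] [Fintype B]
  [Fintype C]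

private theorem LocE_of {f : V → ℝ} (hf : ContDiff ℝ 1 f) : ContDiff ℝ 1 fun x => (f x : ℂ) :=
  Complex.ofRealCLM.contDiff.comp hf

private theorem LocE_c1 {t : V → A → B → C → ℝ} {v : V → B → ℂ} {w : V → C → ℂ}
    (ht : ∀ a b c, ContDiff ℝ 1 fun x => t x a b c) (hv : ∀ b, ContDiff ℝ 1 fun x => v x b)
    (hw : ∀ c, ContDiff ℝ 1 fun x => w x c) (a : A) :
    ContDiff ℝ 1 fun x => c1 (t x) (v x) (w x) a := by
  unfold c1
  exact ContDiff.sum fun b _ => ContDiff.sum fun c _ =>
    (LocE_of (ht a b c)).mul ((hv b).mul (hw c))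

private theorem LocE_c2 {t : V → A → B → C → ℝ} {u : V → A → ℂ} {w : V → C → ℂ}
    (ht : ∀ a b c, ContDiff ℝ 1 fun x => t x a b c) (hu : ∀ a, ContDiff ℝ 1 fun x => u x a)
    (hw : ∀ c, ContDiff ℝ 1 fun x => w x c) (b : B) :
    ContDiff ℝ 1 fun x => c2 (t x) (u x) (w x) b := by
  unfold c2
  exact ContDiff.sum fun a _ => ContDiff.sum fun c _ =>
    (LocE_of (ht a b c)).mul ((hu a).mul (hw c))

private theorem LocE_c3 {t : V → A → B → C → ℝ} {u : V → A → ℂ} {v : V → B → ℂ}
    (ht : ∀ a b c, ContDiff ℝ 1 fun x => t x a b c) (hu : ∀ a, ContDiff ℝ 1 fun x => u x a)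
    (hv : ∀ b, ContDiff ℝ 1 fun x => v x b) (c : C) :
    ContDiff ℝ 1 fun x => c3 (t x) (u x) (v x) c := by
  unfold c3
  exact ContDiff.sum fun a _ => ContDiff.sum fun b _ =>
    (LocE_of (ht a b c)).mul ((hu a).mul (hv b))

private theorem LocE_q {u : V → A → ℂ} (hu : ∀ a, ContDiff ℝ 1 fun x => u x a) :
    ContDiff ℝ 1 fun x => q (u x) := by
  unfold q
  exact ContDiff.sum fun a _ => (hu a).pow 2

private theorem LocE_pr (f : A → ℝ) {u : V → A → ℂ} (hu : ∀ a, ContDiff ℝ 1 fun x => u x a) :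
    ContDiff ℝ 1 fun x => pr f (u x) := by
  unfold pr
  exact ContDiff.sum fun a _ => contDiff_const.mul (hu a)

private theorem LocE_scl [DecidableEq A] (a0 : A) {e : V → ℝ} {u : V → A → ℂ}
    (he : ContDiff ℝ 1 e) (hu : ∀ a, ContDiff ℝ 1 fun x => u x a) (a : A) :
    ContDiff ℝ 1 fun x => scl a0 (e x) 1 (u x) a := by
  unfold scl
  by_cases h : a = a0
  · simp only [h, if_true]
    exact (LocE_of he).mul (hu a0)
  · simp only [h, if_false]
    exact contDiff_const.mul (hu a)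

private theorem LocE_sclcj [DecidableEq A] (a0 : A) (e f : ℝ) (u : A → ℂ) :
    scl a0 e f (cj u) = cj (scl a0 e f u) := by
  funext a
  simp only [scl, cj, map_mul, Complex.conj_ofReal]

private theorem LocE_qcj (u : A → ℂ) : q (cj u) = starRingEnd ℂ (q u) := by
  simp only [q, cj, map_sum, map_pow]

end

section

variable {A B C : Type} [Fintype A] [Fintype B] [Fintype C] [DecidableEq A] [DecidableEq B]
  [DecidableEq C]

omit [Fintype A] [Fintype B] [Fintype C] [DecidableEq A] [DecidableEq B] [DecidableEq C] in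
private theorem LocE_cont : Continuous (cjK : PK A B C → PK A B C) := by
  have h1 : ∀ {I : Type}, Continuous (cj : (I → ℂ) → (I → ℂ)) := fun {I} =>
    continuous_pi fun a => Complex.continuous_conj.comp (continuous_apply a)
  unfold cjK
  exact (h1.comp continuous_fst).prodMk ((h1.comp (continuous_fst.comp continuous_snd)).prodMk
    ((h1.comp (continuous_fst.comp (continuous_snd.comp continuous_snd))).prodMk
      (h1.comp (continuous_snd.comp (continuous_snd.comp continuous_snd)))))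

omit [Fintype A] [Fintype B] [Fintype C] [DecidableEq A] [DecidableEq B] [DecidableEq C] in
private theorem LocE_zero : cjK (0 : PK A B C) = 0 := by
  have h1 : ∀ {I : Type}, cj (0 : I → ℂ) = 0 := fun {I} => by
    funext a
    simp [cj]
  show (cj (0 : A → ℂ), cj (0 : B → ℂ), cj (0 : C → ℂ), cj (0 : Fin 3 → ℂ)) = 0
  rw [h1, h1, h1, h1]
  rfl

variable (oA : A) (oB : B) (oC : C) (h : B → ℝ) (h' : C → ℝ) (ia : A) (ib : B) (ic : C)

/-- Smoothness of `locE` (all components are polynomials in the entries of `z` and `p`).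

Proof. `contDiff_prodMk`, `contDiff_pi`; unfold `locE`, `c1`, `c2`, `c3`, `pr`, `q`, `scl`; the
component functions are compositions of continuous linear maps and products. It is a good idea
to prove first that `x ↦ c1 (t x) (v x) (w x) a` is smooth if the entries of `t x`, `v x`, `w x`
are. -/
theorem locE_contDiff : ContDiff ℝ 1
    fun x : ((A → B → C → ℝ) × (Fin 15 → ℝ)) × PK A B C => locE oA oB oC h h' ia ib ic x.1 x.2 := by
  have ht : ∀ a b c, ContDiff ℝ 1
      fun x : ((A → B → C → ℝ) × (Fin 15 → ℝ)) × PK A B C => x.1.1 a b c := fun a b c => by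
    fun_prop
  have hz : ∀ k, ContDiff ℝ 1
      fun x : ((A → B → C → ℝ) × (Fin 15 → ℝ)) × PK A B C => x.1.2 k := fun k => by
    fun_prop
  have hu : ∀ a, ContDiff ℝ 1
      fun x : ((A → B → C → ℝ) × (Fin 15 → ℝ)) × PK A B C => x.2.1 a := fun a => by
    fun_prop
  have hv : ∀ b, ContDiff ℝ 1
      fun x : ((A → B → C → ℝ) × (Fin 15 → ℝ)) × PK A B C => x.2.2.1 b := fun b => by
    fun_prop
  have hw : ∀ c, ContDiff ℝ 1
      fun x : ((A → B → C → ℝ) × (Fin 15 → ℝ)) × PK A B C => x.2.2.2.1 c := fun c => by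
    fun_prop
  have hm : ∀ k, ContDiff ℝ 1
      fun x : ((A → B → C → ℝ) × (Fin 15 → ℝ)) × PK A B C => x.2.2.2.2 k := fun k => by
    fun_prop
  have hu' := LocE_scl oA (hz 0) hu
  have hv' := LocE_scl oB (hz 1) hv
  have hw' := LocE_scl oC (hz 2) hw
  have k1 := (hu oA).mul ((LocE_c1 ht hv' hw' oA).sub ((hm 0).mul (hu' oA)))
  have k2 := (hv oB).mul ((LocE_c2 ht hu' hw' oB).sub ((hm 1).mul (hv' oB)))
  have k3 := ((hu oA).mul (hw oC)).mul (LocE_pr h hv')
  have k4 := (hw oC).mul ((LocE_c3 ht hu' hv' oC).sub ((hm 2).mul (hw' oC)))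
  have k5 := ((hu oA).mul (hv oB)).mul (LocE_pr h' hw')
  have g : ∀ i1 i2 i3 i4 i5 : Fin 15, _ := fun i1 i2 i3 i4 i5 =>
    (((((LocE_of (hz i1)).mul k1).add ((LocE_of (hz i2)).mul k2)).add
      ((LocE_of (hz i3)).mul k3)).add ((LocE_of (hz i4)).mul k4)).add ((LocE_of (hz i5)).mul k5)
  unfold locE
  refine ContDiff.prodMk ?_ (ContDiff.prodMk ?_ (ContDiff.prodMk ?_ ?_))
  · refine contDiff_pi.2 fun a => ?_
    by_cases ha : a = oA
    · simp only [ha, if_true]
      exact g 5 6 7 8 9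
    · simp only [ha, if_false]
      exact (LocE_c1 ht hv' hw' a).sub ((hm 0).mul (hu a))
  · refine contDiff_pi.2 fun b => ?_
    by_cases hb : b = oB
    · simp only [hb, if_true]
      exact g 10 11 12 13 14
    · simp only [hb, if_false]
      exact ((LocE_c2 ht hu' hw' b).add (((LocE_of (hz 3)).mul ((hu oA).mul (hw oC))).mul
        contDiff_const)).sub ((hm 1).mul (hv b))
  · refine contDiff_pi.2 fun c => ?_
    by_cases hc : c = oC
    · simp only [hc, if_true]
      exact ((((hu oA).mul (hv oB)).mul (hw oC)).mul (hm 0)).sub ((LocE_q hv').mul (LocE_q hw'))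
    · simp only [hc, if_false]
      exact ((LocE_c3 ht hu' hv' c).add (((LocE_of (hz 4)).mul ((hu oA).mul (hv oB))).mul
        contDiff_const)).sub ((hm 2).mul (hw c))
  · refine contDiff_pi.2 fun k => ?_
    fin_cases k
    · exact (hu ia).sub contDiff_const
    · exact (hv ib).sub contDiff_const
    · exact (hw ic).sub contDiff_const

theorem locE_cj (z : (A → B → C → ℝ) × (Fin 15 → ℝ)) (p : PK A B C) :
    locE oA oB oC h h' ia ib ic z (cjK p) = cjK (locE oA oB oC h h' ia ib ic z p) := by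
  obtain ⟨u, v, w, m⟩ := p
  have hm : ∀ k, cj m k = starRingEnd ℂ (m k) := fun k => rfl
  have hu : ∀ k, cj u k = starRingEnd ℂ (u k) := fun k => rfl
  have hv : ∀ k, cj v k = starRingEnd ℂ (v k) := fun k => rfl
  have hw : ∀ k, cj w k = starRingEnd ℂ (w k) := fun k => rfl
  have hsu : ∀ k, cj (scl oA (z.2 0) 1 u) k = starRingEnd ℂ (scl oA (z.2 0) 1 u k) := fun k => rfl
  have hsv : ∀ k, cj (scl oB (z.2 1) 1 v) k = starRingEnd ℂ (scl oB (z.2 1) 1 v k) := fun k => rfl
  have hsw : ∀ k, cj (scl oC (z.2 2) 1 w) k = starRingEnd ℂ (scl oC (z.2 2) 1 w k) := fun k => rfl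
  refine Prod.ext ?_ (Prod.ext ?_ (Prod.ext ?_ ?_))
  · funext a
    simp only [locE, cjK, LocE_sclcj, MPb0eR.c1_cj, MPb0eR.c2_cj, MPb0eR.c3_cj, pr_cj, hm, hu, hv,
      hw, hsu, hsv, hsw]
    by_cases ha : a = oA
    · simp only [ha, if_true, cj, map_add, map_mul, map_sub, Complex.conj_ofReal]
    · simp only [ha, if_false, cj, map_mul, map_sub]
  · funext b
    simp only [locE, cjK, LocE_sclcj, MPb0eR.c1_cj, MPb0eR.c2_cj, MPb0eR.c3_cj, pr_cj, hm, hu, hv,
      hw, hsu, hsv, hsw]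
    by_cases hb : b = oB
    · simp only [hb, if_true, cj, map_add, map_mul, map_sub, Complex.conj_ofReal]
    · simp only [hb, if_false, cj, map_add, map_mul, map_sub, Complex.conj_ofReal]
  · funext c
    simp only [locE, cjK, LocE_sclcj, MPb0eR.c1_cj, MPb0eR.c2_cj, MPb0eR.c3_cj, LocE_qcj, hm, hu,
      hv, hw]
    by_cases hc : c = oC
    · simp only [hc, if_true, cj, map_mul, map_sub]
    · simp only [hc, if_false, cj, map_add, map_mul, map_sub, Complex.conj_ofReal]
  · funext k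
    fin_cases k
    · simp [locE, cjK, cj]
    · simp [locE, cjK, cj]
    · simp [locE, cjK, cj]

/-- Real near a real nondegenerate limit point. Proof: `rig` for `p` and `p' n = cjK (p n)`. -/
theorem locE_rig {z : ℕ → (A → B → C → ℝ) × (Fin 15 → ℝ)} {z0 : (A → B → C → ℝ) × (Fin 15 → ℝ)}
    {p : ℕ → PK A B C} {p0 : PK A B C} (hz : Tendsto z uf (𝓝 z0)) (hp : Tendsto p uf (𝓝 p0))
    (h0 : ∀ n, locE oA oB oC h h' ia ib ic (z n) (p n) = 0) (hr : cjK p0 = p0)
    (hk : ∀ x, HasDerivAt (fun t : ℝ => locE oA oB oC h h' ia ib ic z0 (p0 + t • x)) 0 0 →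
      x = 0) :
    ∀ᶠ n in uf, cjK (p n) = p n := by
  have hp' : Tendsto (fun n => cjK (p n)) uf (𝓝 p0) := by
    have h1 := (LocE_cont (A := A) (B := B) (C := C)).continuousAt.tendsto.comp hp
    rwa [hr] at h1
  refine (rig (fun x : ((A → B → C → ℝ) × (Fin 15 → ℝ)) × PK A B C =>
    locE oA oB oC h h' ia ib ic x.1 x.2) (locE_contDiff oA oB oC h h' ia ib ic) hk hz hp hp'
    (Eventually.of_forall fun n => ?_)).mono fun n hn => hn.symm
  show locE oA oB oC h h' ia ib ic (z n) (p n) = locE oA oB oC h h' ia ib ic (z n) (cjK (p n))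
  rw [locE_cj, h0 n, LocE_zero]

end

end Pool.Agent.MPb0eK
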