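import Mathlib
import Pool.Agent.Lib.MP_b0e20b_ag_K.WDefs
import Pool.Agent.Lib.MP_b0e20b_ag_K.TXa

/-!
# MP_b0e20b_ag, project K: the derivative of `locE`
-/

set_option autoImplicit false

open scoped BigOperators Topology
open Filter

namespace Pool.Agent.MPb0eK

open MPb0eR (c1 c2 c3 tr q Sup Rl Rea uf Nrm cj AF scl)

section

variable {A B C : Type} [Fintype A] [Fintype B] [Fintype C] [DecidableEq A] [DecidableEq B]
  [DecidableEq C]

/-- The value at `0` is `g0`, the derivative at `0` is `g1`. -/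
private def KerExDv (g : ℝ → ℂ) (g0 g1 : ℂ) : Prop := g 0 = g0 ∧ HasDerivAt g g1 0

private theorem KerExDv.mul {g k : ℝ → ℂ} {g0 g1 k0 k1 : ℂ} (hg : KerExDv g g0 g1)
    (hk : KerExDv k k0 k1) : KerExDv (fun t => g t * k t) (g0 * k0) (g1 * k0 + g0 * k1) := by
  refine ⟨by rw [← hg.1, ← hk.1], ?_⟩
  have h := hg.2.mul hk.2
  rw [hg.1, hk.1] at h
  exact h

private theorem KerExDv.cmul {g : ℝ → ℂ} {g0 g1 : ℂ} (r : ℂ) (hg : KerExDv g g0 g1) :
    KerExDv (fun t => r * g t) (r * g0) (r * g1) :=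
  ⟨by rw [← hg.1], hg.2.const_mul r⟩

private theorem KerExDv.mulc {g : ℝ → ℂ} {g0 g1 : ℂ} (hg : KerExDv g g0 g1) (r : ℂ) :
    KerExDv (fun t => g t * r) (g0 * r) (g1 * r) :=
  ⟨by rw [← hg.1], hg.2.mul_const r⟩

private theorem KerExDv.add {g k : ℝ → ℂ} {g0 g1 k0 k1 : ℂ} (hg : KerExDv g g0 g1)
    (hk : KerExDv k k0 k1) : KerExDv (fun t => g t + k t) (g0 + k0) (g1 + k1) :=
  ⟨by rw [← hg.1, ← hk.1], hg.2.add hk.2⟩

private theorem KerExDv.sub {g k : ℝ → ℂ} {g0 g1 k0 k1 : ℂ} (hg : KerExDv g g0 g1)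
    (hk : KerExDv k k0 k1) : KerExDv (fun t => g t - k t) (g0 - k0) (g1 - k1) :=
  ⟨by rw [← hg.1, ← hk.1], hg.2.sub hk.2⟩

private theorem KerExDv.subc {g : ℝ → ℂ} {g0 g1 : ℂ} (hg : KerExDv g g0 g1) (r : ℂ) :
    KerExDv (fun t => g t - r) (g0 - r) g1 :=
  ⟨by rw [← hg.1], hg.2.sub_const r⟩

private theorem KerExDv.lin (a b : ℂ) : KerExDv (fun t : ℝ => a + t • b) a b := by
  refine ⟨by simp, ?_⟩
  have h := ((hasDerivAt_id (0 : ℝ)).smul_const b).const_add a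
  rw [one_smul] at h
  exact h

private theorem KerExDv.sum {ι : Type} (s : Finset ι) {g : ι → ℝ → ℂ} {g0 g1 : ι → ℂ}
    (h : ∀ i ∈ s, KerExDv (g i) (g0 i) (g1 i)) :
    KerExDv (fun t => ∑ i ∈ s, g i t) (∑ i ∈ s, g0 i) (∑ i ∈ s, g1 i) :=
  ⟨Finset.sum_congr rfl fun i hi => (h i hi).1, HasDerivAt.fun_sum fun i hi => (h i hi).2⟩

private theorem KerExDv.unique {g : ℝ → ℂ} {g0 g1 : ℂ} (hg : KerExDv g g0 g1)
    (h0 : HasDerivAt g 0 0) : g1 = 0 :=
  hg.2.unique h0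

private theorem KerExDv.congr {g : ℝ → ℂ} {g0 g1 k0 k1 : ℂ} (hg : KerExDv g g0 g1)
    (h0 : g0 = k0) (h1 : g1 = k1) : KerExDv g k0 k1 := by
  rw [← h0, ← h1]
  exact hg

private theorem KerExDv.c1 (T : A → B → C → ℝ) {V : ℝ → B → ℂ} {V0 V1 : B → ℂ} {W : ℝ → C → ℂ}
    {W0 W1 : C → ℂ} (hV : ∀ b, KerExDv (fun t => V t b) (V0 b) (V1 b))
    (hW : ∀ c, KerExDv (fun t => W t c) (W0 c) (W1 c)) (a : A) :
    KerExDv (fun t => c1 T (V t) (W t) a) (c1 T V0 W0 a) (c1 T V1 W0 a + c1 T V0 W1 a) := by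
  refine (KerExDv.sum Finset.univ fun b _ => KerExDv.sum Finset.univ fun c _ =>
    ((hV b).mul (hW c)).cmul (T a b c : ℂ)).congr rfl ?_
  simp only [MPb0eR.c1, mul_add, Finset.sum_add_distrib]

private theorem KerExDv.c2 (T : A → B → C → ℝ) {V : ℝ → A → ℂ} {V0 V1 : A → ℂ} {W : ℝ → C → ℂ}
    {W0 W1 : C → ℂ} (hV : ∀ b, KerExDv (fun t => V t b) (V0 b) (V1 b))
    (hW : ∀ c, KerExDv (fun t => W t c) (W0 c) (W1 c)) (b : B) :
    KerExDv (fun t => c2 T (V t) (W t) b) (c2 T V0 W0 b) (c2 T V1 W0 b + c2 T V0 W1 b) := by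
  refine (KerExDv.sum Finset.univ fun a _ => KerExDv.sum Finset.univ fun c _ =>
    ((hV a).mul (hW c)).cmul (T a b c : ℂ)).congr rfl ?_
  simp only [MPb0eR.c2, mul_add, Finset.sum_add_distrib]

private theorem KerExDv.c3 (T : A → B → C → ℝ) {V : ℝ → A → ℂ} {V0 V1 : A → ℂ} {W : ℝ → B → ℂ}
    {W0 W1 : B → ℂ} (hV : ∀ b, KerExDv (fun t => V t b) (V0 b) (V1 b))
    (hW : ∀ c, KerExDv (fun t => W t c) (W0 c) (W1 c)) (c : C) :
    KerExDv (fun t => c3 T (V t) (W t) c) (c3 T V0 W0 c) (c3 T V1 W0 c + c3 T V0 W1 c) := by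
  refine (KerExDv.sum Finset.univ fun a _ => KerExDv.sum Finset.univ fun b _ =>
    ((hV a).mul (hW b)).cmul (T a b c : ℂ)).congr rfl ?_
  simp only [MPb0eR.c3, mul_add, Finset.sum_add_distrib]

private theorem KerExDv.scl (o : A) (e f : ℝ) {V : ℝ → A → ℂ} {V0 V1 : A → ℂ}
    (hV : ∀ b, KerExDv (fun t => V t b) (V0 b) (V1 b)) (b : A) :
    KerExDv (fun t => scl o e f (V t) b) (scl o e f V0 b) (scl o e f V1 b) :=
  (hV b).cmul _

private theorem KerExDv.pr (h : A → ℝ) {V : ℝ → A → ℂ} {V0 V1 : A → ℂ}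
    (hV : ∀ b, KerExDv (fun t => V t b) (V0 b) (V1 b)) :
    KerExDv (fun t => pr h (V t)) (pr h V0) (pr h V1) :=
  KerExDv.sum Finset.univ fun b _ => (hV b).cmul (h b : ℂ)

private theorem KerExDv.q {V : ℝ → A → ℂ} {V0 V1 : A → ℂ}
    (hV : ∀ b, KerExDv (fun t => V t b) (V0 b) (V1 b)) :
    KerExDv (fun t => q (V t)) (q V0) (2 * dt V0 V1) := by
  have e : (fun t => MPb0eR.q (V t)) = fun t => ∑ a, V t a * V t a := by
    funext t
    exact Finset.sum_congr rfl fun a _ => sq (V t a)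
  rw [e]
  refine (KerExDv.sum Finset.univ fun b _ => (hV b).mul (hV b)).congr ?_ ?_
  · exact Finset.sum_congr rfl fun a _ => (sq (V0 a)).symm
  · rw [dt, Finset.mul_sum]
    exact Finset.sum_congr rfl fun a _ => by ring

private theorem KerEx_comp {f : ℝ → QK A B C} (hd : HasDerivAt f 0 0) :
    (∀ a, HasDerivAt (fun t => (f t).1 a) 0 0) ∧ (∀ b, HasDerivAt (fun t => (f t).2.1 b) 0 0) ∧
      (∀ c, HasDerivAt (fun t => (f t).2.2.1 c) 0 0) ∧
      ∀ i, HasDerivAt (fun t => (f t).2.2.2 i) 0 0 := by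
  refine ⟨fun a => ?_, fun b => ?_, fun c => ?_, fun i => ?_⟩
  · exact (((ContinuousLinearMap.proj (R := ℝ) (φ := fun _ : A => ℂ) a).comp
      (ContinuousLinearMap.fst ℝ (A → ℂ) ((B → ℂ) × (C → ℂ) × (Fin 3 → ℂ)))).hasFDerivAt
        (x := f 0)).comp_hasDerivAt 0 hd
  · exact (((ContinuousLinearMap.proj (R := ℝ) (φ := fun _ : B => ℂ) b).comp
      ((ContinuousLinearMap.fst ℝ (B → ℂ) ((C → ℂ) × (Fin 3 → ℂ))).comp
      (ContinuousLinearMap.snd ℝ (A → ℂ) ((B → ℂ) × (C → ℂ) × (Fin 3 → ℂ))))).hasFDerivAt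
        (x := f 0)).comp_hasDerivAt 0 hd
  · exact (((ContinuousLinearMap.proj (R := ℝ) (φ := fun _ : C => ℂ) c).comp
      ((ContinuousLinearMap.fst ℝ (C → ℂ) (Fin 3 → ℂ)).comp
      ((ContinuousLinearMap.snd ℝ (B → ℂ) ((C → ℂ) × (Fin 3 → ℂ))).comp
      (ContinuousLinearMap.snd ℝ (A → ℂ) ((B → ℂ) × (C → ℂ) × (Fin 3 → ℂ)))))).hasFDerivAt
        (x := f 0)).comp_hasDerivAt 0 hd
  · exact (((ContinuousLinearMap.proj (R := ℝ) (φ := fun _ : Fin 3 => ℂ) i).comp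
      ((ContinuousLinearMap.snd ℝ (C → ℂ) (Fin 3 → ℂ)).comp
      ((ContinuousLinearMap.snd ℝ (B → ℂ) ((C → ℂ) × (Fin 3 → ℂ))).comp
      (ContinuousLinearMap.snd ℝ (A → ℂ) ((B → ℂ) × (C → ℂ) × (Fin 3 → ℂ)))))).hasFDerivAt
        (x := f 0)).comp_hasDerivAt 0 hd

/-- The linearised equations. Proof: the components of the derivative of
`t ↦ locE z (p + t • x)` at `0` are zero; compute them with the product rule, and use the
uniqueness of
the derivative. For the vector valued function use `hasDerivAt_pi` and `HasDerivAt.fst`/`snd`-like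
arguments (composition with the coordinate, a continuous linear map); for the `k1, ..., k5` of
`e4` take
the derivatives of the five numbers of `locE`. -/
theorem kerE {oA : A} {oB : B} {oC : C} {h : B → ℝ} {h' : C → ℝ} {ia : A} {ib : B} {ic : C}
    {z : (A → B → C → ℝ) × (Fin 15 → ℝ)} {p x : PK A B C}
    (hd : HasDerivAt (fun t : ℝ => locE oA oB oC h h' ia ib ic z (p + t • x)) 0 0) :
    KerE oA oB oC h h' ia ib ic z p x := by
  obtain ⟨d1, d2, d3, d4⟩ := KerEx_comp hd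
  have hU : ∀ a, KerExDv (fun t : ℝ => (p + t • x).1 a) (p.1 a) (x.1 a) :=
    fun a => KerExDv.lin _ _
  have hV : ∀ b, KerExDv (fun t : ℝ => (p + t • x).2.1 b) (p.2.1 b) (x.2.1 b) :=
    fun b => KerExDv.lin _ _
  have hW : ∀ c, KerExDv (fun t : ℝ => (p + t • x).2.2.1 c) (p.2.2.1 c) (x.2.2.1 c) :=
    fun c => KerExDv.lin _ _
  have hM : ∀ i, KerExDv (fun t : ℝ => (p + t • x).2.2.2 i) (p.2.2.2 i) (x.2.2.2 i) :=
    fun i => KerExDv.lin _ _
  have su := KerExDv.scl oA (z.2 0) 1 hU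
  have sv := KerExDv.scl oB (z.2 1) 1 hV
  have sw := KerExDv.scl oC (z.2 2) 1 hW
  have k1 := (hU oA).mul ((KerExDv.c1 z.1 sv sw oA).sub ((hM 0).mul (su oA)))
  have k2 := (hV oB).mul ((KerExDv.c2 z.1 su sw oB).sub ((hM 1).mul (sv oB)))
  have k3 := ((hU oA).mul (hW oC)).mul (KerExDv.pr h sv)
  have k4 := (hW oC).mul ((KerExDv.c3 z.1 su sv oC).sub ((hM 2).mul (sw oC)))
  have k5 := ((hU oA).mul (hV oB)).mul (KerExDv.pr h' sw)
  have eA : ∀ u : A → ℂ, scl oA (z.2 0) 1 u oA = z.2 0 * u oA := fun u => by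
    simp only [scl, if_true]
  have eB : ∀ u : B → ℂ, scl oB (z.2 1) 1 u oB = z.2 1 * u oB := fun u => by
    simp only [scl, if_true]
  have eC : ∀ u : C → ℂ, scl oC (z.2 2) 1 u oC = z.2 2 * u oC := fun u => by
    simp only [scl, if_true]
  refine ⟨fun a ha => ?_, fun b hb => ?_, fun c hc => ?_, ⟨_, _, _, _, _, rfl, rfl, rfl, rfl, rfl,
    ?_, ?_⟩, ?_, ?_, ?_, ?_⟩
  · have e : (fun t : ℝ => (locE oA oB oC h h' ia ib ic z (p + t • x)).1 a) = fun t : ℝ =>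
        c1 z.1 (scl oB (z.2 1) 1 (p + t • x).2.1) (scl oC (z.2 2) 1 (p + t • x).2.2.1) a
          - (p + t • x).2.2.2 0 * (p + t • x).1 a := by
      funext t
      exact if_neg ha
    have h0 := d1 a
    rw [e] at h0
    have h1 := ((KerExDv.c1 z.1 sv sw a).sub ((hM 0).mul (hU a))).unique h0
    linear_combination h1
  · have e : (fun t : ℝ => (locE oA oB oC h h' ia ib ic z (p + t • x)).2.1 b) = fun t : ℝ =>
        c2 z.1 (scl oA (z.2 0) 1 (p + t • x).1) (scl oC (z.2 2) 1 (p + t • x).2.2.1) b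
          + (z.2 3 : ℂ) * ((p + t • x).1 oA * (p + t • x).2.2.1 oC) * h b
          - (p + t • x).2.2.2 1 * (p + t • x).2.1 b := by
      funext t
      exact if_neg hb
    have h0 := d2 b
    rw [e] at h0
    have h1 := (((KerExDv.c2 z.1 su sw b).add ((((hU oA).mul (hW oC)).cmul (z.2 3 : ℂ)).mulc
      (h b : ℂ))).sub ((hM 1).mul (hV b))).unique h0
    linear_combination h1
  · have e : (fun t : ℝ => (locE oA oB oC h h' ia ib ic z (p + t • x)).2.2.1 c) = fun t : ℝ =>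
        c3 z.1 (scl oA (z.2 0) 1 (p + t • x).1) (scl oB (z.2 1) 1 (p + t • x).2.1) c
          + (z.2 4 : ℂ) * ((p + t • x).1 oA * (p + t • x).2.1 oB) * h' c
          - (p + t • x).2.2.2 2 * (p + t • x).2.2.1 c := by
      funext t
      exact if_neg hc
    have h0 := d3 c
    rw [e] at h0
    have h1 := (((KerExDv.c3 z.1 su sv c).add ((((hU oA).mul (hV oB)).cmul (z.2 4 : ℂ)).mulc
      (h' c : ℂ))).sub ((hM 2).mul (hW c))).unique h0
    linear_combination h1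
  · have h1 := (((((k1.cmul (z.2 5 : ℂ)).add (k2.cmul (z.2 6 : ℂ))).add
      (k3.cmul (z.2 7 : ℂ))).add (k4.cmul (z.2 8 : ℂ))).add (k5.cmul (z.2 9 : ℂ))).unique
      ((d1 oA).congr_of_eventuallyEq (Filter.Eventually.of_forall fun t => (if_pos rfl).symm))
    simp only [eA, eB, eC] at h1
    linear_combination h1
  · have h1 := (((((k1.cmul (z.2 10 : ℂ)).add (k2.cmul (z.2 11 : ℂ))).add
      (k3.cmul (z.2 12 : ℂ))).add (k4.cmul (z.2 13 : ℂ))).add (k5.cmul (z.2 14 : ℂ))).unique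
      ((d2 oB).congr_of_eventuallyEq (Filter.Eventually.of_forall fun t => (if_pos rfl).symm))
    simp only [eA, eB, eC] at h1
    linear_combination h1
  · have e : (fun t : ℝ => (locE oA oB oC h h' ia ib ic z (p + t • x)).2.2.1 oC) = fun t : ℝ =>
        (p + t • x).1 oA * (p + t • x).2.1 oB * (p + t • x).2.2.1 oC * (p + t • x).2.2.2 0
          - q (scl oB (z.2 1) 1 (p + t • x).2.1) * q (scl oC (z.2 2) 1 (p + t • x).2.2.1) := by
      funext t
      exact if_pos rfl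
    have h0 := d3 oC
    rw [e] at h0
    have h1 := (((((hU oA).mul (hV oB)).mul (hW oC)).mul (hM 0)).sub
      ((KerExDv.q sv).mul (KerExDv.q sw))).unique h0
    linear_combination h1
  · exact ((hU ia).subc 1).unique (d4 0)
  · exact ((hV ib).subc 1).unique (d4 1)
  · exact ((hW ic).subc 1).unique (d4 2)

end

end Pool.Agent.MPb0eK
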