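import Mathlib
import Pool.Agent.Lib.MP_b0e20b_ag_K.WDefs
import Pool.Agent.Lib.MP_b0e20b_ag_K.TXa
import Pool.Agent.Lib.MP_b0e20b_ag_K.KerEx

/-!
# MP_b0e20b_ag, project K: the limit system of the E type 0
-/

set_option autoImplicit false

open scoped BigOperators Topology
open Filter

namespace Pool.Agent.MPb0eK

open MPb0eR (c1 c2 c3 tr q Sup Rl Rea uf Nrm cj AF scl)

section

variable {A B C : Type} [Fintype A] [Fintype B] [Fintype C] [DecidableEq A] [DecidableEq B]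
  [DecidableEq C] {oA : A} {oB : B} {oC : C}
  {h : B → ℝ} {h' : C → ℝ}

private theorem T0a_z (i : Fin 15) : zE 0 0 i = (![0, 1, 1, 0, 0, 0, 1, 0, 0, 0, 0, 0, 0, 1, 0] :
    Fin 15 → ℝ) i := by
  fin_cases i <;> simp [zE]

omit [Fintype B] in
private theorem T0a_scl (o : B) (x : B → ℂ) : scl o 1 1 x = x := by
  funext b
  simp [scl]

omit [Fintype A] in
private theorem T0a_sclo (o : A) (x : A → ℂ) : scl o 0 1 x o = 0 := by
  simp [scl]

omit [Fintype A] in
private theorem T0a_scln (o : A) (x : A → ℂ) {a : A} (ha : a ≠ o) : scl o 0 1 x a = x a := by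
  simp [scl, ha]

/-- The equations of the limit system. -/
private theorem T0a_sys {T : A → B → C → ℝ} {ia : A} {ib : B} {ic : C} {p : PK A B C}
    (hp : locE oA oB oC h h' ia ib ic (T, zE 0 0) p = 0) :
    (∀ a, a ≠ oA → c1 T p.2.1 p.2.2.1 a = p.2.2.2 0 * p.1 a) ∧
    p.2.1 oB * (c2 T (scl oA 0 1 p.1) p.2.2.1 oB - p.2.2.2 1 * p.2.1 oB) = 0 ∧
    (∀ b, b ≠ oB → c2 T (scl oA 0 1 p.1) p.2.2.1 b = p.2.2.2 1 * p.2.1 b) ∧
    p.2.2.1 oC * (c3 T (scl oA 0 1 p.1) p.2.1 oC - p.2.2.2 2 * p.2.2.1 oC) = 0 ∧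
    (∀ c, c ≠ oC → c3 T (scl oA 0 1 p.1) p.2.1 c = p.2.2.2 2 * p.2.2.1 c) ∧
    p.1 oA * p.2.1 oB * p.2.2.1 oC * p.2.2.2 0 = q p.2.1 * q p.2.2.1 ∧
    p.1 ia = 1 ∧ p.2.1 ib = 1 ∧ p.2.2.1 ic = 1 := by
  have z0 := T0a_z 0
  have z1 := T0a_z 1
  have z2 := T0a_z 2
  have z3 := T0a_z 3
  have z4 := T0a_z 4
  have z5 := T0a_z 5
  have z6 := T0a_z 6
  have z7 := T0a_z 7
  have z8 := T0a_z 8
  have z9 := T0a_z 9
  have z10 := T0a_z 10
  have z11 := T0a_z 11
  have z12 := T0a_z 12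
  have z13 := T0a_z 13
  have z14 := T0a_z 14
  simp at z0 z1 z2 z3 z4 z5 z6 z7 z8 z9 z10 z11 z12 z13 z14
  unfold locE at hp
  simp only [z0, z1, z2, z3, z4, z5, z6, z7, z8, z9, z10, z11, z12, z13, z14, T0a_scl,
    Complex.ofReal_zero, Complex.ofReal_one, zero_mul, one_mul, zero_add, add_zero] at hp
  have hA := congrArg Prod.fst hp
  have hB := congrArg (fun t => t.2.1) hp
  have hC := congrArg (fun t => t.2.2.1) hp
  have hD := congrArg (fun t => t.2.2.2) hp
  simp only [Prod.fst_zero, Prod.snd_zero] at hA hB hC hD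
  refine ⟨fun a ha => ?_, ?_, fun b hb => ?_, ?_, fun c hc => ?_, ?_, ?_, ?_, ?_⟩
  · have e := congrFun hA a
    rw [if_neg ha] at e
    exact sub_eq_zero.1 e
  · have e := congrFun hA oA
    rw [if_pos rfl] at e
    exact e
  · have e := congrFun hB b
    rw [if_neg hb] at e
    exact sub_eq_zero.1 e
  · have e := congrFun hB oB
    rw [if_pos rfl] at e
    exact e
  · have e := congrFun hC c
    rw [if_neg hc] at e
    exact sub_eq_zero.1 e
  · have e := congrFun hC oC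
    rw [if_pos rfl] at e
    exact sub_eq_zero.1 e
  · exact sub_eq_zero.1 (congrFun hD 0)
  · exact sub_eq_zero.1 (congrFun hD 1)
  · exact sub_eq_zero.1 (congrFun hD 2)

/-- Real and nondegenerate.

Proof. `zE 0 0 = ![0,1,1,0,0, 0,1,0,0,0, 0,0,0,1,0]`. Let `u = scl oA 0 1 p.1`, `v = p.2.1`,
`w = p.2.2.1`. The system says: `k2 = 0`, so `τB = β v_o`, `k4 = 0`, so `τC = γ w_o`: `(u, v, w)`
is a
tuple `TX` for the masks `(univ.erase oA; 0; 0)`, nonzero by the normalisation. So it is real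
(`hY.f'`, `rea_of_rl`), `α, β, γ` are real (`TX.re`) and nonzero, `X = q v q w / (Y Z α)` is real.
Kernel (`kerE`): `KX`, so `du, dv, dw` are multiples of `u, v, w`, zero by `n1, n2, n3`
(`du` off `oA`); then `dα u a = 0` etc. give `dα = dβ = dγ = 0` (for `dβ` at `b = oB` use the
    derivative
of `k2`), and `e5` gives `dX = 0`. -/
theorem t0a {T : A → B → C → ℝ} (hY : HY3 T oA oB oC h h') {ia : A} {ib : B} {ic : C}
    (ja : ia ≠ oA) {p : PK A B C}
    (hp : locE oA oB oC h h' ia ib ic (T, zE 0 0) p = 0) (hX : p.1 oA ≠ 0) (hY' : p.2.1 oB ≠ 0)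
    (hZ : p.2.2.1 oC ≠ 0) :
    cjK p = p ∧ ∀ x, HasDerivAt (fun t : ℝ => locE oA oB oC h h' ia ib ic (T, zE 0 0) (p + t • x))
      0 0 → x = 0 := by
  have hs := T0a_sys hp
  obtain ⟨s1, s2, s3, s4, s5, s6, n1, n2, n3⟩ := hs
  set u : A → ℂ := scl oA 0 1 p.1 with hu
  have s2' : c2 T u p.2.2.1 oB = p.2.2.2 1 * p.2.1 oB :=
    sub_eq_zero.1 ((mul_eq_zero.1 s2).resolve_left hY')
  have s4' : c3 T u p.2.1 oC = p.2.2.2 2 * p.2.2.1 oC :=
    sub_eq_zero.1 ((mul_eq_zero.1 s4).resolve_left hZ)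
  have s3' : ∀ b, c2 T u p.2.2.1 b = p.2.2.2 1 * p.2.1 b := fun b => by
    by_cases hb : b = oB
    · rw [hb]
      exact s2'
    · exact s3 b hb
  have s5' : ∀ c, c3 T u p.2.1 c = p.2.2.2 2 * p.2.2.1 c := fun c => by
    by_cases hc : c = oC
    · rw [hc]
      exact s4'
    · exact s5 c hc
  have uia : u ia = 1 := by
    rw [hu, T0a_scln oA p.1 ja]
    exact n1
  have hu0 : u ≠ 0 := fun e => by
    rw [e] at uia
    exact zero_ne_one uia
  have hv0 : p.2.1 ≠ 0 := fun e => by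
    rw [e] at n2
    exact zero_ne_one n2
  have hw0 : p.2.2.1 ≠ 0 := fun e => by
    rw [e] at n3
    exact zero_ne_one n3
  have hT : TX T (Finset.univ.erase oA) (XM oB h 0) (XM oC h' 0) u p.2.1 p.2.2.1 (p.2.2.2 0)
      (p.2.2.2 1) (p.2.2.2 2) := by
    refine ⟨fun a ha => ?_, ?_, ?_, fun a ha => ?_, fun z _ => ?_, fun z _ => ?_⟩
    · have : a = oA := by
        by_contra hne
        exact ha (Finset.mem_erase.2 ⟨hne, Finset.mem_univ _⟩)
      rw [this]
      exact T0a_sclo oA p.1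
    · rw [mem_XM]
      exact ⟨fun e => absurd rfl e, fun e => absurd e (by decide)⟩
    · rw [mem_XM]
      exact ⟨fun e => absurd rfl e, fun e => absurd e (by decide)⟩
    · have ha' := (Finset.mem_erase.1 ha).1
      rw [s1 a ha', hu, T0a_scln oA p.1 ha']
    · have e : c2 T u p.2.2.1 = p.2.2.2 1 • p.2.1 := funext fun b => s3' b
      rw [e, dt_smul_left]
    · have e : c3 T u p.2.1 = p.2.2.2 2 • p.2.2.1 := funext fun c => s5' c
      rw [e, dt_smul_left]
  have hO := hY.f' 0 0 u p.2.1 p.2.2.1 _ _ _ hT hu0 hv0 hw0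
  have ru : Rea u := rea_of_rl hO.ru uia
  have rv : Rea p.2.1 := rea_of_rl hO.rv n2
  have rw' : Rea p.2.2.1 := rea_of_rl hO.rw' n3
  obtain ⟨ra, rb, rc⟩ := hT.re hu0 hv0 hw0 ru rv rw'
  have sa : starRingEnd ℂ (p.2.2.2 0) = p.2.2.2 0 := Complex.conj_eq_iff_im.2 ra
  have sb : starRingEnd ℂ (p.2.2.2 1) = p.2.2.2 1 := Complex.conj_eq_iff_im.2 rb
  have sc : starRingEnd ℂ (p.2.2.2 2) = p.2.2.2 2 := Complex.conj_eq_iff_im.2 rc
  have qv : starRingEnd ℂ (q p.2.1) = q p.2.1 :=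
    Complex.conj_eq_iff_im.2 (q_rea_pos rv hv0).2
  have qw : starRingEnd ℂ (q p.2.2.1) = q p.2.2.1 :=
    Complex.conj_eq_iff_im.2 (q_rea_pos rw' hw0).2
  have sv : ∀ b, starRingEnd ℂ (p.2.1 b) = p.2.1 b := fun b => Complex.conj_eq_iff_im.2 (rv b)
  have sw : ∀ c, starRingEnd ℂ (p.2.2.1 c) = p.2.2.1 c := fun c =>
    Complex.conj_eq_iff_im.2 (rw' c)
  have hYZ : p.2.1 oB * p.2.2.1 oC * p.2.2.2 0 ≠ 0 := mul_ne_zero (mul_ne_zero hY' hZ) hO.hα
  refine ⟨?_, fun x hx => ?_⟩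
  · have e1 : cj p.1 = p.1 := by
      funext a
      by_cases ha : a = oA
      · rw [ha]
        have e := congrArg (starRingEnd ℂ) s6
        rw [map_mul, map_mul, map_mul, map_mul, sv, sw, sa, qv, qw, ← s6] at e
        have e' : starRingEnd ℂ (p.1 oA) * (p.2.1 oB * p.2.2.1 oC * p.2.2.2 0)
            = p.1 oA * (p.2.1 oB * p.2.2.1 oC * p.2.2.2 0) := by
          linear_combination e
        exact mul_right_cancel₀ hYZ e'
      · have e := ru a
        rw [hu, T0a_scln oA p.1 ha] at e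
        exact Complex.conj_eq_iff_im.2 e
    have e2 : cj p.2.1 = p.2.1 := funext sv
    have e3 : cj p.2.2.1 = p.2.2.1 := funext sw
    have e4 : cj p.2.2.2 = p.2.2.2 := by
      funext i
      fin_cases i
      · exact sa
      · exact sb
      · exact sc
    unfold cjK
    rw [e1, e2, e3, e4]
  · have hK := kerE hx
    have z0 : (zE 0 0 0 : ℝ) = 0 := by rw [T0a_z]; simp
    have z1 : (zE 0 0 1 : ℝ) = 1 := by rw [T0a_z]; simp
    have z2 : (zE 0 0 2 : ℝ) = 1 := by rw [T0a_z]; simp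
    have z3 : (zE 0 0 3 : ℝ) = 0 := by rw [T0a_z]; simp
    have z4 : (zE 0 0 4 : ℝ) = 0 := by rw [T0a_z]; simp
    have z5 : (zE 0 0 5 : ℝ) = 0 := by rw [T0a_z]; simp
    have z6 : (zE 0 0 6 : ℝ) = 1 := by rw [T0a_z]; simp
    have z7 : (zE 0 0 7 : ℝ) = 0 := by rw [T0a_z]; simp
    have z8 : (zE 0 0 8 : ℝ) = 0 := by rw [T0a_z]; simp
    have z9 : (zE 0 0 9 : ℝ) = 0 := by rw [T0a_z]; simp
    have z10 : (zE 0 0 10 : ℝ) = 0 := by rw [T0a_z]; simp
    have z11 : (zE 0 0 11 : ℝ) = 0 := by rw [T0a_z]; simp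
    have z12 : (zE 0 0 12 : ℝ) = 0 := by rw [T0a_z]; simp
    have z13 : (zE 0 0 13 : ℝ) = 1 := by rw [T0a_z]; simp
    have z14 : (zE 0 0 14 : ℝ) = 0 := by rw [T0a_z]; simp
    have k1 := hK.e1
    have k2 := hK.e2
    have k3 := hK.e3
    obtain ⟨l1, l2, l3, l4, l5, -, h2, -, h4, -, h6, h7⟩ := hK.e4
    have k5 := hK.e5
    simp only [z0, z1, z2, z3, z4, z5, z6, z7, z8, z9, z10, z11, z12, z13, z14, T0a_scl,
      Complex.ofReal_zero, Complex.ofReal_one, zero_mul, one_mul, zero_add, add_zero]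
      at k1 k2 k3 h2 h4 h6 h7 k5
    rw [← hu] at k2 k3 h2 h4
    set du : A → ℂ := scl oA 0 1 x.1 with hdu
    have m2 : c2 T du p.2.2.1 oB + c2 T u x.2.2.1 oB
        = p.2.2.2 1 * x.2.1 oB + x.2.2.2 1 * p.2.1 oB := by
      rw [h6, s2', sub_self, mul_zero, zero_add] at h2
      have := (mul_eq_zero.1 h2.symm).resolve_left hY'
      linear_combination this
    have m4 : c3 T du p.2.1 oC + c3 T u x.2.1 oC
        = p.2.2.2 2 * x.2.2.1 oC + x.2.2.2 2 * p.2.2.1 oC := by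
      rw [h7, s4', sub_self, mul_zero, zero_add] at h4
      have := (mul_eq_zero.1 h4.symm).resolve_left hZ
      linear_combination this
    have k2' : ∀ b, c2 T du p.2.2.1 b + c2 T u x.2.2.1 b
        = p.2.2.2 1 * x.2.1 b + x.2.2.2 1 * p.2.1 b := fun b => by
      by_cases hb : b = oB
      · rw [hb]
        exact m2
      · exact k2 b hb
    have k3' : ∀ c, c3 T du p.2.1 c + c3 T u x.2.1 c
        = p.2.2.2 2 * x.2.2.1 c + x.2.2.2 2 * p.2.2.1 c := fun c => by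
      by_cases hc : c = oC
      · rw [hc]
        exact m4
      · exact k3 c hc
    have hKX : KX T (Finset.univ.erase oA) (XM oB h 0) (XM oC h' 0) u p.2.1 p.2.2.1 (p.2.2.2 0)
        (p.2.2.2 1) (p.2.2.2 2) du x.2.1 x.2.2.1 (x.2.2.2 0) (x.2.2.2 1) (x.2.2.2 2) := by
      refine ⟨fun a ha => ?_, ?_, ?_, fun a ha => ?_, fun z _ => ?_, fun z _ => ?_⟩
      · have : a = oA := by
          by_contra hne
          exact ha (Finset.mem_erase.2 ⟨hne, Finset.mem_univ _⟩)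
        rw [this]
        exact T0a_sclo oA x.1
      · rw [mem_XM]
        exact ⟨fun e => absurd rfl e, fun e => absurd e (by decide)⟩
      · rw [mem_XM]
        exact ⟨fun e => absurd rfl e, fun e => absurd e (by decide)⟩
      · have ha' := (Finset.mem_erase.1 ha).1
        rw [k1 a ha', hu, hdu, T0a_scln oA p.1 ha', T0a_scln oA x.1 ha']
      · have e : c2 T du p.2.2.1 + c2 T u x.2.2.1
            = p.2.2.2 1 • x.2.1 + x.2.2.2 1 • p.2.1 := funext fun b => k2' b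
        rw [← dt_add_left, e, dt_add_left, dt_smul_left, dt_smul_left]
      · have e : c3 T du p.2.1 + c3 T u x.2.1
            = p.2.2.2 2 • x.2.2.1 + x.2.2.2 2 • p.2.2.1 := funext fun c => k3' c
        rw [← dt_add_left, e, dt_add_left, dt_smul_left, dt_smul_left]
    obtain ⟨⟨r1, hr1⟩, ⟨r2, hr2⟩, r3, hr3⟩ := hO.nd _ _ _ _ _ _ hKX
    have du0 : du = 0 := by
      have e := congrFun hr1 ia
      rw [hdu, T0a_scln oA x.1 ja, hK.n1, Pi.smul_apply, uia, smul_eq_mul, mul_one] at e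
      rw [hr1, ← e, zero_smul]
    have dv0 : x.2.1 = 0 := by
      have e := congrFun hr2 ib
      rw [hK.n2, Pi.smul_apply, n2, smul_eq_mul, mul_one] at e
      rw [hr2, ← e, zero_smul]
    have dw0 : x.2.2.1 = 0 := by
      have e := congrFun hr3 ic
      rw [hK.n3, Pi.smul_apply, n3, smul_eq_mul, mul_one] at e
      rw [hr3, ← e, zero_smul]
    have da0 : x.2.2.2 0 = 0 := by
      have e := k1 ia ja
      rw [dv0, dw0, MPb0eR.c1_zero_left, MPb0eR.c1_zero_right, hK.n1, n1] at e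
      linear_combination -e
    have db0 : x.2.2.2 1 = 0 := by
      have e := k2' ib
      rw [du0, dv0, dw0, MPb0eR.c2_zero_left, MPb0eR.c2_zero_right, n2, Pi.zero_apply] at e
      linear_combination -e
    have dc0 : x.2.2.2 2 = 0 := by
      have e := k3' ic
      rw [du0, dv0, dw0, MPb0eR.c3_zero_left, MPb0eR.c3_zero_right, n3, Pi.zero_apply] at e
      linear_combination -e
    have dX0 : x.1 oA = 0 := by
      have e : ∀ y : B → ℂ, dt y (0 : B → ℂ) = 0 := fun y => by simp [dt]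
      have e' : ∀ y : C → ℂ, dt y (0 : C → ℂ) = 0 := fun y => by simp [dt]
      rw [dv0, dw0, da0, e, e', Pi.zero_apply, Pi.zero_apply] at k5
      have : x.1 oA * (p.2.1 oB * p.2.2.1 oC * p.2.2.2 0) = 0 := by
        linear_combination k5
      exact (mul_eq_zero.1 this).resolve_right hYZ
    have dx1 : x.1 = 0 := by
      funext a
      by_cases ha : a = oA
      · rw [ha]
        exact dX0
      · have e := congrFun du0 a
        rw [hdu, T0a_scln oA x.1 ha] at e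
        exact e
    have dx4 : x.2.2.2 = 0 := by
      funext i
      fin_cases i
      · exact da0
      · exact db0
      · exact dc0
    exact Prod.ext dx1 (Prod.ext dv0 (Prod.ext dw0 dx4))

end

end Pool.Agent.MPb0eK
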