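import Mathlib
import Pool.Agent.Lib.MP_b0e20b_ag_K.WDefs
import Pool.Agent.Lib.MP_b0e20b_ag_K.TXa
import Pool.Agent.Lib.MP_b0e20b_ag_K.KerEx

/-!
# MP_b0e20b_ag, project K: the limit system of the E type 1
-/

set_option autoImplicit false

open scoped BigOperators Topology
open Filter

namespace Pool.Agent.MPb0eK

open MPb0eR (c1 c2 c3 tr q Sup Rl Rea uf Nrm cj AF scl)

section

variable {A B C : Type} [Fintype A] [Fintype B] [Fintype C] [DecidableEq A] [DecidableEq B]
  [DecidableEq C] {oA : A} {oB : B} {oC : C}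
  {h : B → ℝ} {h' : C → ℝ}

/-- `scl` with the parameter zero at the index. -/
private theorem scl_o {o : A} (x : A → ℂ) : scl o 0 1 x o = 0 := by
  simp [MPb0eR.scl]

private theorem scl_n {o : A} (x : A → ℂ) {a : A} (ha : a ≠ o) : scl o 0 1 x a = x a := by
  simp [MPb0eR.scl, ha]

private theorem scl_1 {o : A} (x : A → ℂ) : scl o 1 1 x = x := by
  funext a
  simp [MPb0eR.scl]

private theorem dt_zero_right' {A : Type} [Fintype A] (x : A → ℂ) : dt x 0 = 0 := by
  simp [dt]

private theorem pr_zero' {A : Type} [Fintype A] (f : A → ℝ) : pr f 0 = 0 := by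
  simp [pr]

/-- A complex number whose square is a positive real number is real. -/
private theorem im_of_sq {y : ℂ} {r : ℝ} (hr : 0 < r) (h : y ^ 2 = (r : ℂ)) : y.im = 0 := by
  have h1 := congrArg Complex.re h
  have h2 := congrArg Complex.im h
  simp only [pow_two, Complex.mul_re, Complex.mul_im, Complex.ofReal_re, Complex.ofReal_im]
    at h1 h2
  have h3 : y.re * y.im = 0 := by linarith
  rcases mul_eq_zero.mp h3 with h4 | h4
  · rw [h4] at h1
    nlinarith [mul_self_nonneg y.im]
  · exact h4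

/-- A complex number with imaginary part zero is its real part. -/
private theorem eq_re {y : ℂ} (h : y.im = 0) : y = ((y.re : ℝ) : ℂ) := by
  apply Complex.ext
  · simp
  · simp [h]

/-- Real and nondegenerate.

Proof. `zE 1 0 = ![0,0,1,0,0, 0,1,-1,0,0, 0,0,0,1,0]`. `u = scl oA 0 1 p.1`, `v = scl oB 0 1 p.2.1`,
`w = p.2.2.1`: a tuple for the masks `(univ.erase oA; 1; 0)` (`k4 = 0` gives `τC = γ w_o`). It is
real,
with real nonzero multipliers. `k2 = k3`: `Y τB = X Z h (v)`; `X Y Z α = q v q w`. So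
`Y ^ 2 τB = h (v) q v q w / α`, and by `hY.s2 0` (`β h (v) τB > 0`; `α q u = β q v`, so `α β > 0`)
`Y ^ 2` is a positive real number, `Y` is real, `X = Y τB / (Z h (v))` is real. Kernel: as in `T0a`,
`du, dv, dw` (off the indices `oA`, `oB`), `dα, dβ, dγ` are zero; then `dY τB = dX Z h (v)` and
`(dX Y + X dY) Z α = 0` give `dY τB = - (dY / Y) X Z h (v) = - dY τB`, so `dY = 0 = dX`. -/
theorem t1a {T : A → B → C → ℝ} (hY : HY3 T oA oB oC h h') {ia : A} {ib : B} {ic : C}
    (ja : ia ≠ oA) (jb : ib ≠ oB) {p : PK A B C}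
    (hp : locE oA oB oC h h' ia ib ic (T, zE 1 0) p = 0) (hX : p.1 oA ≠ 0) (hY' : p.2.1 oB ≠ 0)
    (hZ : p.2.2.1 oC ≠ 0) :
    cjK p = p ∧ ∀ x, HasDerivAt (fun t : ℝ => locE oA oB oC h h' ia ib ic (T, zE 1 0) (p + t • x))
      0 0 → x = 0 := by
  classical
  -- the parameters
  have z0 : zE 1 0 0 = 0 := by simp [zE]
  have z1 : zE 1 0 1 = 0 := by simp [zE]
  have z2 : zE 1 0 2 = 1 := by simp [zE]
  have z3 : zE 1 0 3 = 0 := by simp [zE]
  have z4 : zE 1 0 4 = 0 := by simp [zE]
  have z5 : zE 1 0 5 = 0 := by simp [zE]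
  have z6 : zE 1 0 6 = 1 := by simp [zE]
  have z7 : zE 1 0 7 = -1 := by simp [zE]
  have z8 : zE 1 0 8 = 0 := by simp [zE]
  have z9 : zE 1 0 9 = 0 := by simp [zE]
  have z10 : zE 1 0 10 = 0 := by simp [zE]
  have z11 : zE 1 0 11 = 0 := by simp [zE]
  have z12 : zE 1 0 12 = 0 := by simp [zE]
  have z13 : zE 1 0 13 = 1 := by simp [zE]
  have z14 : zE 1 0 14 = 0 := by simp [zE]
  -- the system
  have hA := fun a => congrFun (congrArg (fun t : QK A B C => t.1) hp) a
  have hB := fun b => congrFun (congrArg (fun t : QK A B C => t.2.1) hp) b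
  have hC := fun c => congrFun (congrArg (fun t : QK A B C => t.2.2.1) hp) c
  have hn := fun i => congrFun (congrArg (fun t : QK A B C => t.2.2.2) hp) i
  simp only [locE, z0, z1, z2, z3, z4, z5, z6, z7, z8, z9, z10, z11, z12, z13, z14, scl_1,
    Prod.fst_zero, Prod.snd_zero, Pi.zero_apply, Complex.ofReal_zero, Complex.ofReal_one,
    Complex.ofReal_neg, zero_mul, one_mul, neg_mul, add_zero, zero_add, scl_o, mul_zero,
    sub_zero] at hA hB hC hn
  set u : A → ℂ := scl oA 0 1 p.1 with hu
  set v : B → ℂ := scl oB 0 1 p.2.1 with hv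
  set w : C → ℂ := p.2.2.1 with hw
  have uo : u oA = 0 := scl_o _
  have vo : v oB = 0 := scl_o _
  have un : ∀ a, a ≠ oA → u a = p.1 a := fun a ha => scl_n _ ha
  have vn : ∀ b, b ≠ oB → v b = p.2.1 b := fun b hb => scl_n _ hb
  have fA : ∀ a, a ≠ oA → c1 T v w a = p.2.2.2 0 * u a := by
    intro a ha
    have := hA a
    rw [if_neg ha] at this
    rw [un a ha]
    linear_combination this
  have fB : ∀ b, b ≠ oB → c2 T u w b = p.2.2.2 1 * v b := by
    intro b hb
    have := hB b
    rw [if_neg hb] at this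
    rw [vn b hb]
    linear_combination this
  have fC : ∀ c, c3 T u v c = p.2.2.2 2 * w c := by
    intro c
    by_cases hc : c = oC
    · have := hB oB
      rw [if_pos rfl] at this
      rw [hc]
      have h2 := (mul_eq_zero.mp this).resolve_left hZ
      linear_combination h2
    · have := hC c
      rw [if_neg hc] at this
      linear_combination this
  have f2 : p.2.1 oB * c2 T u w oB = p.1 oA * p.2.2.1 oC * pr h v := by
    have := hA oA
    rw [if_pos rfl] at this
    linear_combination this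
  have f0 : p.1 oA * p.2.1 oB * p.2.2.1 oC * p.2.2.2 0 = q v * q w := by
    have := hC oC
    rw [if_pos rfl] at this
    linear_combination this
  have n1 : p.1 ia = 1 := by
    have := hn 0
    simp at this
    linear_combination this
  have n2 : p.2.1 ib = 1 := by
    have := hn 1
    simp at this
    linear_combination this
  have n3 : p.2.2.1 ic = 1 := by
    have := hn 2
    simp at this
    linear_combination this
  have u1 : u ia = 1 := by rw [un ia ja, n1]
  have v1 : v ib = 1 := by rw [vn ib jb, n2]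
  have w1 : w ic = 1 := n3
  have une : u ≠ 0 := fun h0 => by rw [h0] at u1; simp at u1
  have vne : v ≠ 0 := fun h0 => by rw [h0] at v1; simp at v1
  have wne : w ≠ 0 := fun h0 => by rw [h0] at w1; simp at w1
  -- the tuple
  have tx : TX T (Finset.univ.erase oA) (XM oB h 1) (XM oC h' 0) u v w (p.2.2.2 0) (p.2.2.2 1)
      (p.2.2.2 2) := by
    refine ⟨?_, ?_, ?_, ?_, ?_, ?_⟩
    · intro a ha
      have : a = oA := by
        by_contra hne
        exact ha (Finset.mem_erase.mpr ⟨hne, Finset.mem_univ _⟩)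
      rw [this, uo]
    · exact mem_XM.mpr ⟨fun _ => vo, fun h0 => absurd h0 (by decide)⟩
    · exact mem_XM.mpr ⟨fun h0 => absurd rfl h0, fun h0 => absurd h0 (by decide)⟩
    · intro a ha
      exact fA a (Finset.ne_of_mem_erase ha)
    · intro z hz
      have hz0 := (mem_XM.mp hz).1 (by decide)
      simp only [dt, Finset.mul_sum]
      refine Finset.sum_congr rfl fun b _ => ?_
      by_cases hb : b = oB
      · rw [hb, hz0]
        ring
      · rw [fB b hb]
        ring
    · intro z _
      simp only [dt, Finset.mul_sum]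
      refine Finset.sum_congr rfl fun c _ => ?_
      rw [fC c]
      ring
  obtain ⟨ru, rv, rw', hα, hβ, hγ, nd⟩ := hY.f' 1 0 u v w _ _ _ tx une vne wne
  have ru : Rea u := rea_of_rl ru u1
  have rv : Rea v := rea_of_rl rv v1
  have rw' : Rea w := rea_of_rl rw' w1
  obtain ⟨ia', ib', ic'⟩ := tx.re une vne wne ru rv rw'
  have hs := hY.s2 0 (by decide) u v w _ _ _ tx une vne wne ru rv rw'
  have rh : (pr h v).im = 0 := pr_re h rv
  have rt : (c2 T u w oB).im = 0 := MPb0eR.c2_re _ u w ru rw' oB
  obtain ⟨qv, qv'⟩ := q_rea_pos rv vne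
  obtain ⟨qw, qw'⟩ := q_rea_pos rw' wne
  obtain ⟨qu, qu'⟩ := q_rea_pos ru une
  obtain ⟨t1, t2, t3⟩ := tx.tr
  have e0 := eq_re ia'
  have e1 := eq_re ib'
  have eh := eq_re rh
  have et := eq_re rt
  have ev := eq_re qv'
  have ew := eq_re qw'
  have eu := eq_re qu'
  have eZ := eq_re (rw' oC)
  set a : ℝ := (p.2.2.2 0).re
  set b : ℝ := (p.2.2.2 1).re
  set H : ℝ := (pr h v).re
  set τ : ℝ := (c2 T u w oB).re
  set Qu : ℝ := (q u).re
  set Qv : ℝ := (q v).re
  set Qw : ℝ := (q w).re
  set Z : ℝ := (w oC).re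
  have hab : a * Qu = b * Qv := by
    have : p.2.2.2 0 * q u = p.2.2.2 1 * q v := by rw [t1, t2]
    rw [e0, e1, eu, ev] at this
    exact_mod_cast this
  have hs' : 0 < b * H * τ := by
    rw [e1, eh, et] at hs
    have h1 : ((b : ℂ) * (H : ℂ) * (τ : ℂ)).re = b * H * τ := by
      rw [← Complex.ofReal_mul, ← Complex.ofReal_mul, Complex.ofReal_re]
    linarith
  have b0 : b ≠ 0 := fun h0 => by rw [h0] at hs'; simp at hs'
  have H0 : H ≠ 0 := fun h0 => by rw [h0] at hs'; simp at hs'
  have τ0 : τ ≠ 0 := fun h0 => by rw [h0] at hs'; simp at hs'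
  have ab : 0 < a * b := by
    have h1 : 0 < b ^ 2 := by positivity
    have h2 : a * b * Qu = b ^ 2 * Qv := by linear_combination b * hab
    have h3 : 0 < a * b * Qu := by
      rw [h2]
      exact mul_pos h1 qv
    exact (mul_pos_iff_of_pos_right qu).mp h3
  have a0 : a ≠ 0 := fun h0 => by rw [h0] at ab; simp at ab
  have hHa : 0 < H * τ * a := by
    have h1 : 0 < b ^ 2 := by positivity
    have h2 : H * τ * a * b ^ 2 = b * H * τ * (a * b) := by ring
    have h3 : 0 < H * τ * a * b ^ 2 := by
      rw [h2]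
      exact mul_pos hs' ab
    exact (mul_pos_iff_of_pos_right h1).mp h3
  have Z0 : Z ≠ 0 := by
    intro h0
    rw [h0] at eZ
    exact hZ (by rw [eZ]; simp)
  have hr : 0 < Qv * Qw * H / (τ * a) := by
    have h1 : Qv * Qw * H / (τ * a) = Qv * Qw * (H * τ * a) / (τ * a) ^ 2 := by
      field_simp
    rw [h1]
    have h2 : 0 < (τ * a) ^ 2 := by positivity
    exact div_pos (mul_pos (mul_pos qv qw) hHa) h2
  have hY2 : p.2.1 oB ^ 2 = ((Qv * Qw * H / (τ * a) : ℝ) : ℂ) := by
    have h1 : p.2.1 oB ^ 2 * (c2 T u w oB * p.2.2.2 0) = q v * q w * pr h v := by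
      linear_combination (p.2.1 oB * p.2.2.2 0) * f2 + (pr h v) * f0
    rw [et, e0, ev, ew, eh] at h1
    have h2 : ((τ : ℂ) * (a : ℂ)) ≠ 0 := by
      exact_mod_cast mul_ne_zero τ0 a0
    push_cast
    rw [eq_div_iff h2]
    exact h1
  have Yim : (p.2.1 oB).im = 0 := im_of_sq hr hY2
  have Xim : (p.1 oA).im = 0 := by
    have h1 : p.1 oA * ((Z * H : ℝ) : ℂ) = (((p.2.1 oB).re * τ : ℝ) : ℂ) := by
      have h2 := f2
      rw [← hw, eZ, eh, et, eq_re Yim] at h2
      push_cast
      linear_combination -h2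
    have h3 := congrArg Complex.im h1
    rw [Complex.ofReal_im, Complex.mul_im, Complex.ofReal_re, Complex.ofReal_im, mul_zero,
      zero_add] at h3
    exact (mul_eq_zero.mp h3).resolve_right (mul_ne_zero Z0 H0)
  refine ⟨?_, ?_⟩
  · -- the point is real
    have r1 : cj p.1 = p.1 := by
      funext a'
      apply Complex.conj_eq_iff_im.mpr
      by_cases ha : a' = oA
      · rw [ha]
        exact Xim
      · rw [← un a' ha]
        exact ru a'
    have r2 : cj p.2.1 = p.2.1 := by
      funext b'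
      apply Complex.conj_eq_iff_im.mpr
      by_cases hb : b' = oB
      · rw [hb]
        exact Yim
      · rw [← vn b' hb]
        exact rv b'
    have r3 : cj p.2.2.1 = p.2.2.1 := by
      funext c'
      exact Complex.conj_eq_iff_im.mpr (rw' c')
    have r4 : cj p.2.2.2 = p.2.2.2 := by
      funext i
      apply Complex.conj_eq_iff_im.mpr
      fin_cases i
      · exact ia'
      · exact ib'
      · exact ic'
    show ((cj p.1, cj p.2.1, cj p.2.2.1, cj p.2.2.2) : PK A B C) = p
    rw [r1, r2, r3, r4]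
  · intro x hx
    obtain ⟨k1, k2, k3, k4, k5, k6, k7, k8⟩ := kerE hx
    simp only [z0, z1, z2, z3, z4, z5, z6, z7, z8, z9, z10, z11, z12, z13, z14, scl_1,
      Complex.ofReal_zero, Complex.ofReal_one, Complex.ofReal_neg, zero_mul, one_mul, neg_mul,
      add_zero, zero_add, mul_zero, sub_zero] at k1 k2 k3 k4 k5 k6 k7 k8
    obtain ⟨κ1, κ2, κ3, κ4, κ5, -, q2, q3, q4, -, q6, q7⟩ := k4
    set du : A → ℂ := scl oA 0 1 x.1 with hdu
    set dv : B → ℂ := scl oB 0 1 x.2.1 with hdv
    set dw : C → ℂ := x.2.2.1 with hdw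
    have duo : du oA = 0 := scl_o _
    have dvo : dv oB = 0 := scl_o _
    have dun : ∀ a, a ≠ oA → du a = x.1 a := fun a ha => scl_n _ ha
    have dvn : ∀ b, b ≠ oB → dv b = x.2.1 b := fun b hb => scl_n _ hb
    have gA : ∀ a, a ≠ oA → c1 T dv w a + c1 T v dw a
        = p.2.2.2 0 * du a + x.2.2.2 0 * u a := by
      intro a ha
      have := k1 a ha
      rw [dun a ha, un a ha]
      linear_combination this
    have gB : ∀ b, b ≠ oB → c2 T du w b + c2 T u dw b
        = p.2.2.2 1 * dv b + x.2.2.2 1 * v b := by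
      intro b hb
      have := k2 b hb
      rw [dvn b hb, vn b hb]
      linear_combination this
    have gC : ∀ c, c3 T du v c + c3 T u dv c = p.2.2.2 2 * dw c + x.2.2.2 2 * w c := by
      intro c
      by_cases hc : c = oC
      · have h1 : w oC * (c3 T du v oC + c3 T u dv oC - p.2.2.2 2 * dw oC
            - x.2.2.2 2 * w oC) = 0 := by
          have := fC oC
          linear_combination q7 - q4 - dw oC * this
        rw [hc]
        have h2 := (mul_eq_zero.mp h1).resolve_left hZ
        linear_combination h2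
      · have := k3 c hc
        linear_combination this
    have kx : KX T (Finset.univ.erase oA) (XM oB h 1) (XM oC h' 0) u v w (p.2.2.2 0)
        (p.2.2.2 1) (p.2.2.2 2) du dv dw (x.2.2.2 0) (x.2.2.2 1) (x.2.2.2 2) := by
      refine ⟨?_, ?_, ?_, ?_, ?_, ?_⟩
      · intro a ha
        have : a = oA := by
          by_contra hne
          exact ha (Finset.mem_erase.mpr ⟨hne, Finset.mem_univ _⟩)
        rw [this, duo]
      · exact mem_XM.mpr ⟨fun _ => dvo, fun h0 => absurd h0 (by decide)⟩
      · exact mem_XM.mpr ⟨fun h0 => absurd rfl h0, fun h0 => absurd h0 (by decide)⟩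
      · intro a ha
        exact gA a (Finset.ne_of_mem_erase ha)
      · intro z hz
        have hz0 := (mem_XM.mp hz).1 (by decide)
        simp only [dt, Finset.mul_sum]
        rw [← Finset.sum_add_distrib, ← Finset.sum_add_distrib]
        refine Finset.sum_congr rfl fun b _ => ?_
        by_cases hb : b = oB
        · rw [hb, hz0]
          ring
        · linear_combination z b * gB b hb
      · intro z _
        simp only [dt, Finset.mul_sum]
        rw [← Finset.sum_add_distrib, ← Finset.sum_add_distrib]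
        refine Finset.sum_congr rfl fun c _ => ?_
        linear_combination z c * gC c
    obtain ⟨⟨s1, hs1⟩, ⟨s2, hs2⟩, ⟨s3, hs3⟩⟩ := nd du dv dw _ _ _ kx
    have du0 : du = 0 := by
      have h1 := congrFun hs1 ia
      rw [Pi.smul_apply, smul_eq_mul, u1, mul_one, dun ia ja, k6] at h1
      rw [hs1, ← h1, zero_smul]
    have dv0 : dv = 0 := by
      have h1 := congrFun hs2 ib
      rw [Pi.smul_apply, smul_eq_mul, v1, mul_one, dvn ib jb, k7] at h1
      rw [hs2, ← h1, zero_smul]
    have dw0 : dw = 0 := by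
      have h1 := congrFun hs3 ic
      rw [Pi.smul_apply, smul_eq_mul, w1, mul_one, k8] at h1
      rw [hs3, ← h1, zero_smul]
    rw [du0, dv0, dw0] at gC
    rw [du0, dw0] at gB q2
    rw [dv0, dw0] at gA q3 k5
    have m0 : x.2.2.2 0 = 0 := by
      have h1 := gA ia ja
      rw [MPb0eR.c1_zero_left, MPb0eR.c1_zero_right, u1, du0] at h1
      simpa using h1.symm
    have m1 : x.2.2.2 1 = 0 := by
      have h1 := gB ib jb
      rw [MPb0eR.c2_zero_left, MPb0eR.c2_zero_right, v1, dv0] at h1
      simpa using h1.symm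
    have m2 : x.2.2.2 2 = 0 := by
      have h1 := gC ic
      rw [MPb0eR.c3_zero_left, MPb0eR.c3_zero_right, w1] at h1
      simpa using h1.symm
    rw [MPb0eR.c2_zero_left, MPb0eR.c2_zero_right] at q2
    rw [dt_zero_right', dt_zero_right', m0] at k5
    rw [pr_zero'] at q3
    simp only [Pi.zero_apply, mul_zero, add_zero, zero_mul] at q2 q3 k5
    have τne : c2 T u w oB ≠ 0 := by
      rw [et]
      exact_mod_cast τ0
    have Hne : pr h v ≠ 0 := by
      rw [eh]
      exact_mod_cast H0
    have r1 : x.2.1 oB * c2 T u w oB = x.1 oA * w oC * pr h v := by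
      linear_combination q6 - q2 + q3
    have r2 : x.1 oA * p.2.1 oB + p.1 oA * x.2.1 oB = 0 := by
      have h1 : (x.1 oA * p.2.1 oB + p.1 oA * x.2.1 oB) * (w oC * p.2.2.2 0) = 0 := by
        linear_combination k5
      exact (mul_eq_zero.mp h1).resolve_right (mul_ne_zero hZ hα)
    have r3 : x.2.1 oB = 0 := by
      have h1 : x.2.1 oB * (2 * (c2 T u w oB * p.2.1 oB)) = 0 := by
        linear_combination p.2.1 oB * r1 + (w oC * pr h v) * r2 + x.2.1 oB * f2
      exact (mul_eq_zero.mp h1).resolve_right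
        (mul_ne_zero two_ne_zero (mul_ne_zero τne hY'))
    have r4 : x.1 oA = 0 := by
      rw [r3, zero_mul] at r1
      have h1 : x.1 oA * (w oC * pr h v) = 0 := by linear_combination -r1
      exact (mul_eq_zero.mp h1).resolve_right (mul_ne_zero hZ Hne)
    have y1 : x.1 = 0 := by
      funext a'
      by_cases ha : a' = oA
      · rw [ha, r4]
        rfl
      · rw [← dun a' ha, du0]
    have y2 : x.2.1 = 0 := by
      funext b'
      by_cases hb : b' = oB
      · rw [hb, r3]
        rfl
      · rw [← dvn b' hb, dv0]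
    have y3 : x.2.2.2 = 0 := by
      funext i
      fin_cases i
      · exact m0
      · exact m1
      · exact m2
    exact Prod.ext y1 (Prod.ext y2 (Prod.ext dw0 y3))

end

end Pool.Agent.MPb0eK
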