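import Mathlib
import Pool.Agent.Lib.MP_b0e20b_ag_K.WDefs
import Pool.Agent.Lib.MP_b0e20b_ag_K.TXa
import Pool.Agent.Lib.MP_b0e20b_ag_K.KerEx

/-!
# MP_b0e20b_ag, project K: the limit system of the E type 2
-/

set_option autoImplicit false

open scoped BigOperators Topology
open Filter

namespace Pool.Agent.MPb0eK

open MPb0eR (c1 c2 c3 tr q Sup Rl Rea uf Nrm cj AF scl)

section

variable {A B C : Type} [Fintype A] [Fintype B] [Fintype C] [DecidableEq A] [DecidableEq B]
  [DecidableEq C] {oA : A} {oB : B} {oC : C}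
  {h : B → ℝ} {h' : C → ℝ}

private theorem T2a_scl_o {A : Type} [DecidableEq A] (o : A) (e f : ℝ) (u : A → ℂ) :
    scl o e f u o = (e : ℂ) * u o := by
  simp [MPb0eR.scl]

private theorem T2a_scl_ne {A : Type} [DecidableEq A] (o : A) (e f : ℝ) (u : A → ℂ) {a : A}
    (ha : a ≠ o) : scl o e f u a = (f : ℂ) * u a := by
  simp [MPb0eR.scl, ha]

private theorem T2a_scl_one {A : Type} [DecidableEq A] (o : A) (u : A → ℂ) :
    scl o 1 1 u = u := by
  funext a
  simp [MPb0eR.scl]

/-- Real and nondegenerate.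

Proof. `zE 2 0 = ![0,0,1,1,0, 0,0,-1,0,0, 0,0,0,1,0]`. `u = scl oA 0 1 p.1`, `v = scl oB 0 1 p.2.1`,
`w = p.2.2.1`, `N = X Z`: `k3 = 0` gives `h (v) = 0`; a tuple for the masks `(univ.erase oA; 2;
0)`, and
`c2 b + N h b = β v b` for `b ≠ oB`. Real; `N` is real because `h ≠ 0`; `Z = w_o` is real, so `X` is
real, and `Y = q v q w / (X Z α)`. Kernel: `pr h dv = 0` from the derivative of `k3`, so `KX` for
the
masks; then `du, dv, dw = 0`, `dα = dγ = 0`; `d(X Z) h b = dβ v b` for `b ≠ oB`: the pairing with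
`v`
gives `dβ q v = 0`, so `dβ = 0`, `d(X Z) = 0`, `dZ = 0`, `dX = 0`, and `dY = 0` by `e5`. -/
theorem t2a {T : A → B → C → ℝ} (hY : HY3 T oA oB oC h h') {ia : A} {ib : B} {ic : C}
    (ja : ia ≠ oA) (jb : ib ≠ oB) {p : PK A B C}
    (hp : locE oA oB oC h h' ia ib ic (T, zE 2 0) p = 0) (hX : p.1 oA ≠ 0) (hY' : p.2.1 oB ≠ 0)
    (hZ : p.2.2.1 oC ≠ 0) :
    cjK p = p ∧ ∀ x, HasDerivAt (fun t : ℝ => locE oA oB oC h h' ia ib ic (T, zE 2 0) (p + t • x))
      0 0 → x = 0 := by
  obtain ⟨pu, pv, pw, pm⟩ := p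
  simp only at hX hY' hZ
  have z0 : zE 2 0 0 = 0 := by simp [zE]
  have z1 : zE 2 0 1 = 0 := by simp [zE]
  have z2 : zE 2 0 2 = 1 := by simp [zE]
  have z3 : zE 2 0 3 = 1 := by simp [zE]
  have z4 : zE 2 0 4 = 0 := by simp [zE]
  have z5 : zE 2 0 5 = 0 := by simp [zE]
  have z6 : zE 2 0 6 = 0 := by simp [zE]
  have z7 : zE 2 0 7 = -1 := by simp [zE]
  have z8 : zE 2 0 8 = 0 := by simp [zE]
  have z9 : zE 2 0 9 = 0 := by simp [zE]
  have z10 : zE 2 0 10 = 0 := by simp [zE]
  have z11 : zE 2 0 11 = 0 := by simp [zE]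
  have z12 : zE 2 0 12 = 0 := by simp [zE]
  have z13 : zE 2 0 13 = 1 := by simp [zE]
  have z14 : zE 2 0 14 = 0 := by simp [zE]
  obtain ⟨α, hα⟩ : ∃ r, pm 0 = r := ⟨_, rfl⟩
  obtain ⟨β, hβ⟩ : ∃ r, pm 1 = r := ⟨_, rfl⟩
  obtain ⟨γ, hγ⟩ : ∃ r, pm 2 = r := ⟨_, rfl⟩
  set u : A → ℂ := scl oA 0 1 pu with hu
  set v : B → ℂ := scl oB 0 1 pv with hv
  have uo : u oA = 0 := by rw [hu, T2a_scl_o]; simp
  have vo : v oB = 0 := by rw [hv, T2a_scl_o]; simp
  have ua : ∀ a, a ≠ oA → u a = pu a := fun a ha => by rw [hu, T2a_scl_ne _ _ _ _ ha]; simp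
  have vb : ∀ b, b ≠ oB → v b = pv b := fun b hb => by rw [hv, T2a_scl_ne _ _ _ _ hb]; simp
  -- the equations
  simp only [locE, z0, z1, z2, z3, z4, z5, z6, z7, z8, z9, z10, z11, z12, z13, z14,
    T2a_scl_one, hα, hβ, hγ, ← hu, ← hv] at hp
  rw [Prod.ext_iff, Prod.ext_iff, Prod.ext_iff] at hp
  obtain ⟨q1, q2, q3, q4⟩ := hp
  simp only [Prod.fst_zero, Prod.snd_zero] at q1 q2 q3 q4
  have k3 : pr h v = 0 := by
    have := congrFun q1 oA
    simp only [if_true, Pi.zero_apply] at this
    have e : pu oA * pw oC * pr h v = 0 := by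
      push_cast at this
      linear_combination -this
    exact (mul_eq_zero.1 e).resolve_left (mul_ne_zero hX hZ)
  have k4 : c3 T u v oC = γ * pw oC := by
    have := congrFun q2 oB
    simp only [if_true, Pi.zero_apply] at this
    have e : pw oC * (c3 T u v oC - γ * pw oC) = 0 := by
      push_cast at this
      linear_combination this
    exact sub_eq_zero.1 ((mul_eq_zero.1 e).resolve_left hZ)
  have f1 : ∀ a, a ≠ oA → c1 T v pw a = α * u a := by
    intro a ha
    have := congrFun q1 a
    simp only [if_neg ha, Pi.zero_apply] at this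
    rw [ua a ha]
    linear_combination this
  have f2 : ∀ b, b ≠ oB → c2 T u pw b + pu oA * pw oC * h b = β * v b := by
    intro b hb
    have := congrFun q2 b
    simp only [if_neg hb, Pi.zero_apply] at this
    rw [vb b hb]
    push_cast at this
    linear_combination this
  have f3 : ∀ c, c3 T u v c = γ * pw c := by
    intro c
    rcases eq_or_ne c oC with rfl | hc
    · exact k4
    · have := congrFun q3 c
      simp only [if_neg hc, Pi.zero_apply] at this
      push_cast at this
      linear_combination this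
  have f5 : pu oA * pv oB * pw oC * α = q v * q pw := by
    have := congrFun q3 oC
    simp only [if_true, Pi.zero_apply] at this
    linear_combination this
  have n1 : pu ia = 1 := by
    have := congrFun q4 0
    simp at this
    linear_combination this
  have n2 : pv ib = 1 := by
    have := congrFun q4 1
    simp at this
    linear_combination this
  have n3 : pw ic = 1 := by
    have := congrFun q4 2
    simp at this
    linear_combination this
  have un : u ia = 1 := by rw [ua ia ja, n1]
  have vn : v ib = 1 := by rw [vb ib jb, n2]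
  have u0 : u ≠ 0 := fun e => by rw [e] at un; simp at un
  have v0 : v ≠ 0 := fun e => by rw [e] at vn; simp at vn
  have w0 : pw ≠ 0 := fun e => by rw [e] at n3; simp at n3
  have tx : TX T (Finset.univ.erase oA) (XM oB h 2) (XM oC h' 0) u v pw α β γ := by
    refine ⟨?_, ?_, ?_, ?_, ?_, ?_⟩
    · intro a ha
      have : a = oA := by simpa using ha
      rw [this, uo]
    · exact mem_XM.2 ⟨fun _ => vo, fun _ => k3⟩
    · exact mem_XM.2 ⟨fun e => absurd rfl e, fun e => absurd e (by decide)⟩
    · intro a ha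
      exact f1 a (Finset.ne_of_mem_erase ha)
    · intro z hz
      obtain ⟨h1, h2⟩ := mem_XM.1 hz
      have zo : z oB = 0 := h1 (by decide)
      have zp : pr h z = 0 := h2 rfl
      have e : dt (c2 T u pw) z + pu oA * pw oC * pr h z = β * dt v z := by
        simp only [dt, pr, Finset.mul_sum, ← Finset.sum_add_distrib]
        refine Finset.sum_congr rfl fun b _ => ?_
        rcases eq_or_ne b oB with rfl | hb
        · rw [zo]; ring
        · linear_combination z b * f2 b hb
      rw [zp, mul_zero, add_zero] at e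
      exact e
    · intro z _
      simp only [dt, Finset.mul_sum]
      refine Finset.sum_congr rfl fun c _ => ?_
      rw [f3 c]; ring
  have ok := hY.f' 2 0 u v pw α β γ tx u0 v0 w0
  have ru : Rea u := rea_of_rl ok.ru un
  have rv : Rea v := rea_of_rl ok.rv vn
  have rw' : Rea pw := rea_of_rl ok.rw' n3
  obtain ⟨rα, rβ, rγ⟩ := tx.re u0 v0 w0 ru rv rw'
  have qv0 : q v ≠ 0 := q_ne ok.rv v0
  obtain ⟨b, hb⟩ : ∃ b, h b ≠ 0 := by
    by_contra hc
    push Not at hc
    exact hY.hne (funext hc)
  have hbo : b ≠ oB := fun e => hb (by rw [e]; exact hY.ho)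
  have hbc : (h b : ℂ) ≠ 0 := by exact_mod_cast hb
  have cu : ∀ a, starRingEnd ℂ (u a) = u a := fun a => Complex.conj_eq_iff_im.2 (ru a)
  have cv : ∀ b, starRingEnd ℂ (v b) = v b := fun b => Complex.conj_eq_iff_im.2 (rv b)
  have cw : ∀ c, starRingEnd ℂ (pw c) = pw c := fun c => Complex.conj_eq_iff_im.2 (rw' c)
  have cα : starRingEnd ℂ α = α := Complex.conj_eq_iff_im.2 rα
  have cβ : starRingEnd ℂ β = β := Complex.conj_eq_iff_im.2 rβ
  have cγ : starRingEnd ℂ γ = γ := Complex.conj_eq_iff_im.2 rγ
  have cX : starRingEnd ℂ (pu oA) = pu oA := by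
    have e1 := f2 b hbo
    have e2 := congrArg (starRingEnd ℂ) e1
    have e3 : starRingEnd ℂ (c2 T u pw b) = c2 T u pw b :=
      Complex.conj_eq_iff_im.2 (MPb0eR.c2_re T u pw ru rw' b)
    simp only [map_add, map_mul, e3, cw, cβ, cv, Complex.conj_ofReal] at e2
    have e4 : (starRingEnd ℂ (pu oA) - pu oA) * (pw oC * h b) = 0 := by
      linear_combination e2 - e1
    exact sub_eq_zero.1 ((mul_eq_zero.1 e4).resolve_right (mul_ne_zero hZ hbc))
  have cq : ∀ {D : Type} [Fintype D] (y : D → ℂ), (∀ i, starRingEnd ℂ (y i) = y i) →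
      starRingEnd ℂ (q y) = q y := by
    intro D _ y hy
    simp only [MPb0eR.q, map_sum, map_pow, hy]
  have cY : starRingEnd ℂ (pv oB) = pv oB := by
    have e2 := congrArg (starRingEnd ℂ) f5
    simp only [map_mul, cX, cw, cα, cq v cv, cq pw cw] at e2
    have e4 : (starRingEnd ℂ (pv oB) - pv oB) * (pu oA * pw oC * α) = 0 := by
      linear_combination e2 - f5
    exact sub_eq_zero.1 ((mul_eq_zero.1 e4).resolve_right
      (mul_ne_zero (mul_ne_zero hX hZ) ok.hα))
  refine ⟨?_, ?_⟩
  · simp only [cjK, Prod.mk.injEq]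
    refine ⟨?_, ?_, ?_, ?_⟩
    · funext a
      rcases eq_or_ne a oA with rfl | ha
      · exact cX
      · simp only [MPb0eR.cj]
        rw [← ua a ha]; exact cu a
    · funext b
      rcases eq_or_ne b oB with rfl | hb'
      · exact cY
      · simp only [MPb0eR.cj]
        rw [← vb b hb']; exact cv b
    · funext c
      exact cw c
    · funext i
      fin_cases i
      · simp only [MPb0eR.cj]; exact hα ▸ cα
      · simp only [MPb0eR.cj]; exact hβ ▸ cβ
      · simp only [MPb0eR.cj]; exact hγ ▸ cγ
  · intro x hd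
    have kk := kerE hd
    obtain ⟨xu, xv, xw, xm⟩ := x
    obtain ⟨dα, hdα⟩ : ∃ r, xm 0 = r := ⟨_, rfl⟩
    obtain ⟨dβ, hdβ⟩ : ∃ r, xm 1 = r := ⟨_, rfl⟩
    obtain ⟨dγ, hdγ⟩ : ∃ r, xm 2 = r := ⟨_, rfl⟩
    have g1 := kk.e1
    have g2 := kk.e2
    have g3 := kk.e3
    obtain ⟨k1, k2, k3', k4', k5, l1, l2, l3, l4, l5, l6, l7⟩ := kk.e4
    have g5 := kk.e5
    have m1 := kk.n1
    have m2 := kk.n2
    have m3 := kk.n3
    simp only [z0, z1, z2, z3, z4, z5, z6, z7, z8, z9, z10, z11, z12, z13, z14,
      T2a_scl_one, hα, hβ, hγ, hdα, hdβ, hdγ, ← hu, ← hv]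
      at g1 g2 g3 l1 l2 l3 l4 l5 l6 l7 g5 m1 m2 m3
    set du : A → ℂ := scl oA 0 1 xu with hdu
    set dv : B → ℂ := scl oB 0 1 xv with hdv
    have duo : du oA = 0 := by rw [hdu, T2a_scl_o]; simp
    have dvo : dv oB = 0 := by rw [hdv, T2a_scl_o]; simp
    have dua : ∀ a, a ≠ oA → du a = xu a := fun a ha => by
      rw [hdu, T2a_scl_ne _ _ _ _ ha]; simp
    have dvb : ∀ b, b ≠ oB → dv b = xv b := fun b hb => by
      rw [hdv, T2a_scl_ne _ _ _ _ hb]; simp
    have pdv : pr h dv = 0 := by
      have e : k3' = 0 := by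
        push_cast at l6
        linear_combination -l6
      rw [e, k3, mul_zero, zero_add] at l3
      exact (mul_eq_zero.1 l3.symm).resolve_left (mul_ne_zero hX hZ)
    have kk4 : c3 T du v oC + c3 T u dv oC = γ * xw oC + dγ * pw oC := by
      have e : k4' = 0 := by
        push_cast at l7
        linear_combination l7
      rw [e, k4] at l4
      push_cast at l4
      have e2 : pw oC * (c3 T du v oC + c3 T u dv oC - (γ * xw oC + dγ * pw oC)) = 0 := by
        linear_combination -l4
      exact sub_eq_zero.1 ((mul_eq_zero.1 e2).resolve_left hZ)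
    have F1 : ∀ a, a ≠ oA → c1 T dv pw a + c1 T v xw a = α * du a + dα * u a := by
      intro a ha
      rw [dua a ha, ua a ha]
      exact g1 a ha
    have F2 : ∀ b, b ≠ oB → c2 T du pw b + c2 T u xw b
        + (xu oA * pw oC + pu oA * xw oC) * h b = β * dv b + dβ * v b := by
      intro b hb
      rw [dvb b hb, vb b hb]
      have := g2 b hb
      push_cast at this
      linear_combination this
    have F3 : ∀ c, c3 T du v c + c3 T u dv c = γ * xw c + dγ * pw c := by
      intro c
      rcases eq_or_ne c oC with rfl | hc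
      · exact kk4
      · have := g3 c hc
        push_cast at this
        linear_combination this
    have kx : KX T (Finset.univ.erase oA) (XM oB h 2) (XM oC h' 0) u v pw α β γ du dv xw dα dβ
        dγ := by
      refine ⟨?_, ?_, ?_, ?_, ?_, ?_⟩
      · intro a ha
        have : a = oA := by simpa using ha
        rw [this, duo]
      · exact mem_XM.2 ⟨fun _ => dvo, fun _ => pdv⟩
      · exact mem_XM.2 ⟨fun e => absurd rfl e, fun e => absurd e (by decide)⟩
      · intro a ha
        exact F1 a (Finset.ne_of_mem_erase ha)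
      · intro z hz
        obtain ⟨h1, h2⟩ := mem_XM.1 hz
        have zo : z oB = 0 := h1 (by decide)
        have zp : pr h z = 0 := h2 rfl
        have e : dt (c2 T du pw) z + dt (c2 T u xw) z
            + (xu oA * pw oC + pu oA * xw oC) * pr h z = β * dt dv z + dβ * dt v z := by
          simp only [dt, pr, Finset.mul_sum, ← Finset.sum_add_distrib]
          refine Finset.sum_congr rfl fun b _ => ?_
          rcases eq_or_ne b oB with rfl | hb
          · rw [zo]; ring
          · linear_combination z b * F2 b hb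
        rw [zp, mul_zero, add_zero] at e
        exact e
      · intro z _
        simp only [dt, Finset.mul_sum, ← Finset.sum_add_distrib]
        refine Finset.sum_congr rfl fun c _ => ?_
        linear_combination z c * F3 c
    obtain ⟨⟨r, hr⟩, ⟨s, hs⟩, ⟨t, ht⟩⟩ := ok.nd du dv xw dα dβ dγ kx
    have r0 : r = 0 := by
      have e := congrFun hr ia
      rw [dua ia ja, Pi.smul_apply, smul_eq_mul, un, mul_one, m1] at e
      exact e.symm
    have s0 : s = 0 := by
      have e := congrFun hs ib
      rw [dvb ib jb, Pi.smul_apply, smul_eq_mul, vn, mul_one, m2] at e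
      exact e.symm
    have t0 : t = 0 := by
      have e := congrFun ht ic
      rw [Pi.smul_apply, smul_eq_mul, n3, mul_one, m3] at e
      exact e.symm
    have du0 : du = 0 := by rw [hr, r0, zero_smul]
    have dv0 : dv = 0 := by rw [hs, s0, zero_smul]
    have dw0 : xw = 0 := by rw [ht, t0, zero_smul]
    have dα0 : dα = 0 := by
      have e := F1 ia ja
      rw [du0, dv0, dw0, MPb0eR.c1_zero_left, MPb0eR.c1_zero_right, un] at e
      simp only [Pi.zero_apply] at e
      linear_combination -e
    have dγ0 : dγ = 0 := by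
      have e := F3 ic
      rw [du0, dv0, dw0, MPb0eR.c3_zero_left, MPb0eR.c3_zero_right, n3] at e
      simp only [Pi.zero_apply] at e
      linear_combination -e
    have G2 : ∀ b, b ≠ oB → xu oA * pw oC * h b = dβ * v b := by
      intro b hb
      have e := F2 b hb
      rw [du0, dv0, dw0, MPb0eR.c2_zero_left, MPb0eR.c2_zero_right] at e
      simp only [Pi.zero_apply] at e
      linear_combination e
    have dβ0 : dβ = 0 := by
      have e : xu oA * pw oC * pr h v = dβ * q v := by
        simp only [pr, MPb0eR.q, Finset.mul_sum]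
        refine Finset.sum_congr rfl fun b _ => ?_
        rcases eq_or_ne b oB with rfl | hb
        · rw [vo]; ring
        · linear_combination v b * G2 b hb
      rw [k3, mul_zero] at e
      exact (mul_eq_zero.1 e.symm).resolve_right qv0
    have dX0 : xu oA = 0 := by
      have e := G2 b hbo
      rw [dβ0, zero_mul] at e
      rcases mul_eq_zero.1 e with e1 | e1
      · exact (mul_eq_zero.1 e1).resolve_right hZ
      · exact absurd e1 hbc
    have dY0 : xv oB = 0 := by
      have dq : dt v (0 : B → ℂ) = 0 := by simp [dt]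
      have dq' : dt pw (0 : C → ℂ) = 0 := by simp [dt]
      rw [dv0, dw0, dα0, dX0, dq, dq'] at g5
      simp only [Pi.zero_apply] at g5
      have e : xv oB * (pu oA * pw oC * α) = 0 := by linear_combination g5
      exact (mul_eq_zero.1 e).resolve_right (mul_ne_zero (mul_ne_zero hX hZ) ok.hα)
    refine Prod.ext ?_ (Prod.ext ?_ (Prod.ext ?_ ?_))
    · funext a
      rcases eq_or_ne a oA with rfl | ha
      · exact dX0
      · have := congrFun du0 a
        rw [dua a ha] at this
        exact this
    · funext b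
      rcases eq_or_ne b oB with rfl | hb'
      · exact dY0
      · have := congrFun dv0 b
        rw [dvb b hb'] at this
        exact this
    · exact dw0
    · funext i
      fin_cases i
      · exact hdα.trans dα0
      · exact hdβ.trans dβ0
      · exact hdγ.trans dγ0

end

end Pool.Agent.MPb0eK
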