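import Mathlib
import Pool.Agent.Lib.MP_b0e20b_ag_K.WDefs
import Pool.Agent.Lib.MP_b0e20b_ag_K.TXa
import Pool.Agent.Lib.MP_b0e20b_ag_K.KerEx

/-!
# MP_b0e20b_ag, project K: the limit system of the E type 3
-/

set_option autoImplicit false

open scoped BigOperators Topology
open Filter

namespace Pool.Agent.MPb0eK

open MPb0eR (c1 c2 c3 tr q Sup Rl Rea uf Nrm cj AF scl)

section

variable {A B C : Type} [Fintype A] [Fintype B] [Fintype C] [DecidableEq A] [DecidableEq B]
  [DecidableEq C] {oA : A} {oB : B} {oC : C}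
  {h : B → ℝ} {h' : C → ℝ}

private theorem T3a_scl_ne {A : Type} [DecidableEq A] {o a : A} (ha : a ≠ o) (e : ℝ)
    (u : A → ℂ) : scl o e 1 u a = u a := by
  unfold MPb0eR.scl
  rw [if_neg ha, Complex.ofReal_one, one_mul]

private theorem T3a_scl_eq {A : Type} [DecidableEq A] (o : A) (u : A → ℂ) :
    scl o 0 1 u o = 0 := by
  unfold MPb0eR.scl
  rw [if_pos rfl, Complex.ofReal_zero, zero_mul]

private theorem T3a_sq {y : ℂ} {r : ℝ} (hr : 0 < r) (h : y ^ 2 = (r : ℂ)) : y.im = 0 := by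
  have h1 := congrArg Complex.im h
  have h2 := congrArg Complex.re h
  rw [pow_two, Complex.mul_im, Complex.ofReal_im] at h1
  rw [pow_two, Complex.mul_re, Complex.ofReal_re] at h2
  have h3 : y.re * y.im = 0 := by linarith
  rcases mul_eq_zero.1 h3 with h4 | h4
  · rw [h4] at h2
    nlinarith [mul_self_nonneg y.im]
  · exact h4

private theorem T3a_of {z : ℂ} (hz : z.im = 0) : ∃ r : ℝ, z = (r : ℂ) :=
  ⟨z.re, Complex.ext (by simp) (by simp [hz])⟩

private theorem T3a_root {y a b t H P : ℝ} {Y : ℂ} (hP : 0 < P) (hab : 0 < a * b)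
    (hbt : 0 < b * H * t) (ha : a ≠ 0)
    (h : Y ^ 2 * (t : ℂ) * (a : ℂ) = (P : ℂ) * (H : ℂ)) : Y.im = 0 := by
  have ht : t ≠ 0 := by
    rintro rfl
    simp at hbt
  have hat : a * t ≠ 0 := mul_ne_zero ha ht
  have h1 : 0 < P * H / (a * t) := by
    have h2 : 0 < (a * b) * (b * H * t) := mul_pos hab hbt
    have hb : b ≠ 0 := by
      rintro rfl
      simp at hab
    have h3 : 0 < b ^ 2 := by positivity
    have h4 : 0 < H * (a * t) := by
      have h5 : (a * b) * (b * H * t) = b ^ 2 * (H * (a * t)) := by ring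
      rw [h5] at h2
      exact (mul_pos_iff_of_pos_left h3).1 h2
    have h6 : 0 < (a * t) ^ 2 := by positivity
    have h7 : P * H / (a * t) = P * (H * (a * t)) / (a * t) ^ 2 := by
      field_simp
    rw [h7]
    exact div_pos (mul_pos hP h4) h6
  refine T3a_sq h1 ?_
  push_cast
  have hac : (a : ℂ) ≠ 0 := Complex.ofReal_ne_zero.2 ha
  have htc : (t : ℂ) ≠ 0 := Complex.ofReal_ne_zero.2 ht
  rw [eq_div_iff (mul_ne_zero hac htc), ← h]
  ring

/-- Real and nondegenerate.

Proof. `zE 3 0 = ![0,0,0,0,0, 0,1,-1,0,0, 0,0,0,1,-1]`. All three coordinates scaled: a tuple for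
the
masks `(univ.erase oA; 1; 1)`. `Y τB = X Z h (v)`, `Z τC = X Y h' (w)`, `X Y Z α = q v q w =: κ
α`. So
`Y ^ 2 τB = κ h (v)`, `Z ^ 2 τC = κ h' (w)`, `κ α > 0`; with `hY.s2 1`, `hY.s1 1` (`α, β, γ` have
the
same sign) `Y ^ 2`, `Z ^ 2` are positive real numbers: `Y, Z, X` are real. Kernel: the vectors and
multipliers are zero as in `T1a`; with `a = dX / X`, `b = dY / Y`, `c = dZ / Z`: `b = a + c`,
`c = a + b`, `a + b + c = 0`, so all are zero. -/
theorem t3a {T : A → B → C → ℝ} (hY : HY3 T oA oB oC h h') {ia : A} {ib : B} {ic : C}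
    (ja : ia ≠ oA) (jb : ib ≠ oB) (jc : ic ≠ oC) {p : PK A B C}
    (hp : locE oA oB oC h h' ia ib ic (T, zE 3 0) p = 0) (hX : p.1 oA ≠ 0) (hY' : p.2.1 oB ≠ 0)
    (hZ : p.2.2.1 oC ≠ 0) :
    cjK p = p ∧ ∀ x, HasDerivAt (fun t : ℝ => locE oA oB oC h h' ia ib ic (T, zE 3 0) (p + t • x))
      0 0 → x = 0 := by
  have z0 : zE 3 0 0 = 0 := by simp [zE]
  have z1 : zE 3 0 1 = 0 := by simp [zE]
  have z2 : zE 3 0 2 = 0 := by simp [zE]
  have z3 : zE 3 0 3 = 0 := by simp [zE]
  have z4 : zE 3 0 4 = 0 := by simp [zE]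
  have z5 : zE 3 0 5 = 0 := by simp [zE]
  have z6 : zE 3 0 6 = 1 := by simp [zE]
  have z7 : zE 3 0 7 = -1 := by simp [zE]
  have z8 : zE 3 0 8 = 0 := by simp [zE]
  have z9 : zE 3 0 9 = 0 := by simp [zE]
  have z10 : zE 3 0 10 = 0 := by simp [zE]
  have z11 : zE 3 0 11 = 0 := by simp [zE]
  have z12 : zE 3 0 12 = 0 := by simp [zE]
  have z13 : zE 3 0 13 = 1 := by simp [zE]
  have z14 : zE 3 0 14 = -1 := by simp [zE]
  set u := scl oA 0 1 p.1 with hu
  set v := scl oB 0 1 p.2.1 with hv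
  set w := scl oC 0 1 p.2.2.1 with hw
  have uo : u oA = 0 := T3a_scl_eq _ _
  have vo : v oB = 0 := T3a_scl_eq _ _
  have wo : w oC = 0 := T3a_scl_eq _ _
  have un : ∀ a, a ≠ oA → u a = p.1 a := fun a ha => T3a_scl_ne ha _ _
  have vn : ∀ b, b ≠ oB → v b = p.2.1 b := fun b hb => T3a_scl_ne hb _ _
  have wn : ∀ c, c ≠ oC → w c = p.2.2.1 c := fun c hc => T3a_scl_ne hc _ _
  -- the equations
  have hA : ∀ a, (locE oA oB oC h h' ia ib ic (T, zE 3 0) p).1 a = 0 := fun a => by
    rw [hp]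
    rfl
  have hB : ∀ b, (locE oA oB oC h h' ia ib ic (T, zE 3 0) p).2.1 b = 0 := fun b => by
    rw [hp]
    rfl
  have hC : ∀ c, (locE oA oB oC h h' ia ib ic (T, zE 3 0) p).2.2.1 c = 0 := fun c => by
    rw [hp]
    rfl
  have hN : ∀ i, (locE oA oB oC h h' ia ib ic (T, zE 3 0) p).2.2.2 i = 0 := fun i => by
    rw [hp]
    rfl
  have E1 : ∀ a, a ≠ oA → c1 T v w a = p.2.2.2 0 * p.1 a := by
    intro a ha
    have h1 := hA a
    simp only [locE, if_neg ha, z1, z2] at h1
    exact sub_eq_zero.1 h1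
  have E2 : ∀ b, b ≠ oB → c2 T u w b = p.2.2.2 1 * p.2.1 b := by
    intro b hb
    have h1 := hB b
    simp only [locE, if_neg hb, z0, z2, z3, Complex.ofReal_zero, zero_mul, add_zero] at h1
    exact sub_eq_zero.1 h1
  have E3 : ∀ c, c ≠ oC → c3 T u v c = p.2.2.2 2 * p.2.2.1 c := by
    intro c hc
    have h1 := hC c
    simp only [locE, if_neg hc, z0, z1, z4, Complex.ofReal_zero, zero_mul, add_zero] at h1
    exact sub_eq_zero.1 h1
  have F1 : p.2.1 oB * c2 T u w oB = p.1 oA * p.2.2.1 oC * pr h v := by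
    have h1 := hA oA
    simp only [locE, if_true, z0, z1, z2, z5, z6, z7, z8, z9, Complex.ofReal_zero,
      Complex.ofReal_one, Complex.ofReal_neg] at h1
    rw [← hu, ← hv, ← hw, vo] at h1
    linear_combination h1
  have F2 : p.2.2.1 oC * c3 T u v oC = p.1 oA * p.2.1 oB * pr h' w := by
    have h1 := hB oB
    simp only [locE, if_true, z0, z1, z2, z10, z11, z12, z13, z14, Complex.ofReal_zero,
      Complex.ofReal_one, Complex.ofReal_neg] at h1
    rw [← hu, ← hv, ← hw, wo] at h1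
    linear_combination h1
  have F3 : p.1 oA * p.2.1 oB * p.2.2.1 oC * p.2.2.2 0 = q v * q w := by
    have h1 := hC oC
    simp only [locE, if_true, z1, z2] at h1
    exact sub_eq_zero.1 h1
  have n1 : p.1 ia = 1 := by
    have h1 := hN 0
    simp only [locE, Matrix.cons_val_zero] at h1
    exact sub_eq_zero.1 h1
  have n2 : p.2.1 ib = 1 := by
    have h1 := hN 1
    simp only [locE, Matrix.cons_val_one, Matrix.cons_val_zero] at h1
    exact sub_eq_zero.1 h1
  have n3 : p.2.2.1 ic = 1 := by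
    have h1 := hN 2
    simp only [locE, Matrix.cons_val] at h1
    exact sub_eq_zero.1 h1
  -- the tuple
  have hsum2 : ∀ (f g : B → ℂ) (s : ℂ) (z : B → ℂ), (∀ b, b ≠ oB → f b = s * g b) →
      z oB = 0 → dt f z = s * dt g z := by
    intro f g s z h1 h2
    unfold dt
    rw [Finset.mul_sum]
    refine Finset.sum_congr rfl fun b _ => ?_
    rcases eq_or_ne b oB with rfl | hb
    · rw [h2, mul_zero, mul_zero, mul_zero]
    · rw [h1 b hb]
      ring
  have hsum3 : ∀ (f g : C → ℂ) (s : ℂ) (z : C → ℂ), (∀ c, c ≠ oC → f c = s * g c) →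
      z oC = 0 → dt f z = s * dt g z := by
    intro f g s z h1 h2
    unfold dt
    rw [Finset.mul_sum]
    refine Finset.sum_congr rfl fun b _ => ?_
    rcases eq_or_ne b oC with rfl | hb
    · rw [h2, mul_zero, mul_zero, mul_zero]
    · rw [h1 b hb]
      ring
  have hmB : ∀ z, z ∈ XM oB h 1 ↔ z oB = 0 := by
    intro z
    rw [mem_XM]
    constructor
    · intro h1
      exact h1.1 (by decide)
    · intro h1
      exact ⟨fun _ => h1, fun h2 => absurd h2 (by decide)⟩
  have hmC : ∀ z, z ∈ XM oC h' 1 ↔ z oC = 0 := by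
    intro z
    rw [mem_XM]
    constructor
    · intro h1
      exact h1.1 (by decide)
    · intro h1
      exact ⟨fun _ => h1, fun h2 => absurd h2 (by decide)⟩
  have ht : TX T (Finset.univ.erase oA) (XM oB h 1) (XM oC h' 1) u v w (p.2.2.2 0) (p.2.2.2 1)
      (p.2.2.2 2) := by
    refine ⟨?_, (hmB v).2 vo, (hmC w).2 wo, ?_, ?_, ?_⟩
    · intro a ha
      have h1 : a = oA := by
        by_contra h2
        exact ha (Finset.mem_erase.2 ⟨h2, Finset.mem_univ a⟩)
      rw [h1, uo]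
    · intro a ha
      have h1 := (Finset.mem_erase.1 ha).1
      rw [E1 a h1, un a h1]
    · intro z hz
      exact hsum2 _ _ _ _ (fun b hb => by rw [E2 b hb, vn b hb]) ((hmB z).1 hz)
    · intro z hz
      exact hsum3 _ _ _ _ (fun c hc => by rw [E3 c hc, wn c hc]) ((hmC z).1 hz)
  have ui : u ia = 1 := by rw [un ia ja, n1]
  have vi : v ib = 1 := by rw [vn ib jb, n2]
  have wi : w ic = 1 := by rw [wn ic jc, n3]
  have hu0 : u ≠ 0 := fun h1 => by simp [h1] at ui
  have hv0 : v ≠ 0 := fun h1 => by simp [h1] at vi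
  have hw0 : w ≠ 0 := fun h1 => by simp [h1] at wi
  have ok := hY.f' 1 1 u v w _ _ _ ht hu0 hv0 hw0
  have ru : Rea u := rea_of_rl ok.ru ui
  have rv : Rea v := rea_of_rl ok.rv vi
  have rw1 : Rea w := rea_of_rl ok.rw' wi
  obtain ⟨ra, rb, rc⟩ := ht.re hu0 hv0 hw0 ru rv rw1
  obtain ⟨tr1, tr2, tr3⟩ := ht.tr
  obtain ⟨qu, hqu⟩ := T3a_of (q_rea_pos ru hu0).2
  obtain ⟨qv, hqv⟩ := T3a_of (q_rea_pos rv hv0).2
  obtain ⟨qw, hqw⟩ := T3a_of (q_rea_pos rw1 hw0).2
  have pu := (q_rea_pos ru hu0).1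
  have pv := (q_rea_pos rv hv0).1
  have pw := (q_rea_pos rw1 hw0).1
  rw [hqu, Complex.ofReal_re] at pu
  rw [hqv, Complex.ofReal_re] at pv
  rw [hqw, Complex.ofReal_re] at pw
  obtain ⟨a, ha⟩ := T3a_of ra
  obtain ⟨b, hb⟩ := T3a_of rb
  obtain ⟨c, hc⟩ := T3a_of rc
  obtain ⟨tB, htB⟩ := T3a_of (MPb0eR.c2_re T u w ru rw1 oB)
  obtain ⟨tC, htC⟩ := T3a_of (MPb0eR.c3_re T u v ru rv oC)
  obtain ⟨H, hH⟩ := T3a_of (pr_re h rv)
  obtain ⟨H', hH'⟩ := T3a_of (pr_re h' rw1)
  have s2 := hY.s2 1 (by decide) u v w _ _ _ ht hu0 hv0 hw0 ru rv rw1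
  have s1 := hY.s1 1 (by decide) u v w _ _ _ ht hu0 hv0 hw0 ru rv rw1
  rw [hb, hH, htB, ← Complex.ofReal_mul, ← Complex.ofReal_mul, Complex.ofReal_re] at s2
  rw [hc, hH', htC, ← Complex.ofReal_mul, ← Complex.ofReal_mul, Complex.ofReal_re] at s1
  have ha0 : a ≠ 0 := by
    rintro rfl
    exact ok.hα (by rw [ha, Complex.ofReal_zero])
  have eab : a * qu = b * qv := by
    have h1 := tr1.trans tr2.symm
    rw [ha, hb, hqu, hqv] at h1
    exact_mod_cast h1
  have eac : a * qu = c * qw := by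
    have h1 := tr1.trans tr3.symm
    rw [ha, hc, hqu, hqw] at h1
    exact_mod_cast h1
  have pa2 : 0 < a ^ 2 := by positivity
  have pab : 0 < a * b := by
    have h1 : a * b * qv = a ^ 2 * qu := by linear_combination -a * eab
    exact (mul_pos_iff_of_pos_right pv).1 (h1 ▸ mul_pos pa2 pu)
  have pac : 0 < a * c := by
    have h1 : a * c * qw = a ^ 2 * qu := by linear_combination -a * eac
    exact (mul_pos_iff_of_pos_right pw).1 (h1 ▸ mul_pos pa2 pu)
  rw [htB, hH] at F1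
  rw [htC, hH'] at F2
  rw [ha, hqv, hqw] at F3
  have pP : 0 < qv * qw := mul_pos pv pw
  have rY : (p.2.1 oB).im = 0 := by
    refine T3a_root (y := 0) pP pab s2 ha0 ?_
    push_cast
    linear_combination (p.2.1 oB * a) * F1 + (H : ℂ) * F3
  have rZ : (p.2.2.1 oC).im = 0 := by
    refine T3a_root (y := 0) pP pac s1 ha0 ?_
    push_cast
    linear_combination (p.2.2.1 oC * a) * F2 + (H' : ℂ) * F3
  have hac : (a : ℂ) ≠ 0 := Complex.ofReal_ne_zero.2 ha0
  have rX : (p.1 oA).im = 0 := by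
    obtain ⟨y, hy⟩ := T3a_of rY
    obtain ⟨z, hz⟩ := T3a_of rZ
    have hy0 : (y : ℂ) ≠ 0 := hy ▸ hY'
    have hz0 : (z : ℂ) ≠ 0 := hz ▸ hZ
    have h1 : p.1 oA = ((qv * qw / (y * z * a) : ℝ) : ℂ) := by
      push_cast
      rw [eq_div_iff (mul_ne_zero (mul_ne_zero hy0 hz0) hac), ← F3, hy, hz]
      ring
    rw [h1, Complex.ofReal_im]
  have hH0 : (H : ℂ) ≠ 0 := by
    rw [Complex.ofReal_ne_zero]
    rintro rfl
    simp at s2
  have hH0' : (H' : ℂ) ≠ 0 := by
    rw [Complex.ofReal_ne_zero]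
    rintro rfl
    simp at s1
  constructor
  · have e1 : cj p.1 = p.1 := by
      rw [← MPb0eR.rea_iff]
      intro x
      rcases eq_or_ne x oA with rfl | hx
      · exact rX
      · rw [← un x hx]
        exact ru x
    have e2 : cj p.2.1 = p.2.1 := by
      rw [← MPb0eR.rea_iff]
      intro x
      rcases eq_or_ne x oB with rfl | hx
      · exact rY
      · rw [← vn x hx]
        exact rv x
    have e3 : cj p.2.2.1 = p.2.2.1 := by
      rw [← MPb0eR.rea_iff]
      intro x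
      rcases eq_or_ne x oC with rfl | hx
      · exact rZ
      · rw [← wn x hx]
        exact rw1 x
    have e4 : cj p.2.2.2 = p.2.2.2 := by
      rw [← MPb0eR.rea_iff]
      intro i
      fin_cases i
      · exact ra
      · exact rb
      · exact rc
    unfold cjK
    rw [e1, e2, e3, e4]
  · intro x hx
    have hk := kerE hx
    set du := scl oA 0 1 x.1 with hdu
    set dv := scl oB 0 1 x.2.1 with hdv
    set dw := scl oC 0 1 x.2.2.1 with hdw
    have duo : du oA = 0 := T3a_scl_eq _ _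
    have dvo : dv oB = 0 := T3a_scl_eq _ _
    have dwo : dw oC = 0 := T3a_scl_eq _ _
    have dun : ∀ a, a ≠ oA → du a = x.1 a := fun a ha => T3a_scl_ne ha _ _
    have dvn : ∀ b, b ≠ oB → dv b = x.2.1 b := fun b hb => T3a_scl_ne hb _ _
    have dwn : ∀ c, c ≠ oC → dw c = x.2.2.1 c := fun c hc => T3a_scl_ne hc _ _
    have K1 : ∀ a, a ≠ oA → c1 T dv w a + c1 T v dw a =
        p.2.2.2 0 * x.1 a + x.2.2.2 0 * p.1 a := by
      intro a ha
      have h1 := hk.e1 a ha
      simp only [z1, z2] at h1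
      exact h1
    have K2 : ∀ b, b ≠ oB → c2 T du w b + c2 T u dw b =
        p.2.2.2 1 * x.2.1 b + x.2.2.2 1 * p.2.1 b := by
      intro b hb
      have h1 := hk.e2 b hb
      simp only [z0, z2, z3, Complex.ofReal_zero, zero_mul, add_zero] at h1
      exact h1
    have K3 : ∀ c, c ≠ oC → c3 T du v c + c3 T u dv c =
        p.2.2.2 2 * x.2.2.1 c + x.2.2.2 2 * p.2.2.1 c := by
      intro c hc
      have h1 := hk.e3 c hc
      simp only [z0, z1, z4, Complex.ofReal_zero, zero_mul, add_zero] at h1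
      exact h1
    have hkx : KX T (Finset.univ.erase oA) (XM oB h 1) (XM oC h' 1) u v w (p.2.2.2 0) (p.2.2.2 1)
        (p.2.2.2 2) du dv dw (x.2.2.2 0) (x.2.2.2 1) (x.2.2.2 2) := by
      refine ⟨?_, (hmB dv).2 dvo, (hmC dw).2 dwo, ?_, ?_, ?_⟩
      · intro a ha
        have h1 : a = oA := by
          by_contra h2
          exact ha (Finset.mem_erase.2 ⟨h2, Finset.mem_univ a⟩)
        rw [h1, duo]
      · intro a ha
        have h1 := (Finset.mem_erase.1 ha).1
        rw [K1 a h1, un a h1, dun a h1]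
      · intro z hz
        have hz0 := (hmB z).1 hz
        rw [← dt_smul_left, ← dt_smul_left, ← dt_add_left, ← dt_add_left,
          hsum2 _ (p.2.2.2 1 • dv + x.2.2.2 1 • v) 1 z ?_ hz0, one_mul]
        intro b hb
        simp only [Pi.add_apply, Pi.smul_apply, smul_eq_mul]
        rw [K2 b hb, vn b hb, dvn b hb, one_mul]
      · intro z hz
        have hz0 := (hmC z).1 hz
        rw [← dt_smul_left, ← dt_smul_left, ← dt_add_left, ← dt_add_left,
          hsum3 _ (p.2.2.2 2 • dw + x.2.2.2 2 • w) 1 z ?_ hz0, one_mul]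
        intro b hb
        simp only [Pi.add_apply, Pi.smul_apply, smul_eq_mul]
        rw [K3 b hb, wn b hb, dwn b hb, one_mul]
    obtain ⟨⟨r1, hr1⟩, ⟨r2, hr2⟩, ⟨r3, hr3⟩⟩ := ok.nd _ _ _ _ _ _ hkx
    have du0 : du = 0 := by
      have h1 := congrFun hr1 ia
      rw [dun ia ja, hk.n1, Pi.smul_apply, smul_eq_mul, ui, mul_one] at h1
      rw [hr1, ← h1, zero_smul]
    have dv0 : dv = 0 := by
      have h1 := congrFun hr2 ib
      rw [dvn ib jb, hk.n2, Pi.smul_apply, smul_eq_mul, vi, mul_one] at h1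
      rw [hr2, ← h1, zero_smul]
    have dw0 : dw = 0 := by
      have h1 := congrFun hr3 ic
      rw [dwn ic jc, hk.n3, Pi.smul_apply, smul_eq_mul, wi, mul_one] at h1
      rw [hr3, ← h1, zero_smul]
    have da0 : x.2.2.2 0 = 0 := by
      have h1 := K1 ia ja
      rw [dv0, dw0, MPb0eR.c1_zero_left, MPb0eR.c1_zero_right, hk.n1, n1] at h1
      linear_combination -h1
    have db0 : x.2.2.2 1 = 0 := by
      have h1 := K2 ib jb
      rw [du0, dw0, MPb0eR.c2_zero_left, MPb0eR.c2_zero_right, hk.n2, n2] at h1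
      linear_combination -h1
    have dc0 : x.2.2.2 2 = 0 := by
      have h1 := K3 ic jc
      rw [du0, dv0, MPb0eR.c3_zero_left, MPb0eR.c3_zero_right, hk.n3, n3] at h1
      linear_combination -h1
    obtain ⟨k1, k2, k3, k4, k5, h1, h2, h3, h4, h5, h6, h7⟩ := hk.e4
    simp only [z0, z1, z2] at h1 h2 h3 h4 h5
    simp only [z5, z6, z7, z8, z9, Complex.ofReal_zero, Complex.ofReal_one,
      Complex.ofReal_neg] at h6
    simp only [z10, z11, z12, z13, z14, Complex.ofReal_zero, Complex.ofReal_one,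
      Complex.ofReal_neg] at h7
    rw [← hu, ← hw, ← hdu, ← hdw, du0, dw0, MPb0eR.c2_zero_left,
      MPb0eR.c2_zero_right, htB, Complex.ofReal_zero] at h2
    rw [← hv, ← hdv, dv0, hH] at h3
    rw [← hu, ← hv, ← hdu, ← hdv, du0, dv0, MPb0eR.c3_zero_left,
      MPb0eR.c3_zero_right, htC, Complex.ofReal_zero] at h4
    rw [← hw, ← hdw, dw0, hH'] at h5
    have hz1 : pr h (0 : B → ℂ) = 0 := by simp [pr]
    have hz2 : pr h' (0 : C → ℂ) = 0 := by simp [pr]
    rw [hz1] at h3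
    rw [hz2] at h5
    have h8 := hk.e5
    simp only [z1, z2] at h8
    have hd1 : dt v (0 : B → ℂ) = 0 := by simp [dt]
    have hd2 : dt w (0 : C → ℂ) = 0 := by simp [dt]
    rw [← hv, ← hw, ← hdv, ← hdw, dv0, dw0, hd1, hd2, da0, ha] at h8
    have g1 : x.2.1 oB * tB = (x.1 oA * p.2.2.1 oC + p.1 oA * x.2.2.1 oC) * H := by
      rw [h2, h3] at h6
      linear_combination h6
    have g2 : x.2.2.1 oC * tC = (x.1 oA * p.2.1 oB + p.1 oA * x.2.1 oB) * H' := by
      rw [h4, h5] at h7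
      linear_combination h7
    have g3 : x.1 oA * p.2.1 oB * p.2.2.1 oC + p.1 oA * x.2.1 oB * p.2.2.1 oC +
        p.1 oA * p.2.1 oB * x.2.2.1 oC = 0 := by
      apply mul_right_cancel₀ hac
      rw [zero_mul]
      linear_combination h8
    have dY0 : x.2.1 oB = 0 := by
      have h9 : x.2.1 oB * (2 * (p.1 oA * p.2.2.1 oC * H)) = 0 := by
        linear_combination (p.2.1 oB) * g1 - (x.2.1 oB) * F1 + (H : ℂ) * g3
      exact (mul_eq_zero.1 h9).resolve_right (mul_ne_zero two_ne_zero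
        (mul_ne_zero (mul_ne_zero hX hZ) hH0))
    have dZ0 : x.2.2.1 oC = 0 := by
      have h9 : x.2.2.1 oC * (2 * (p.1 oA * p.2.1 oB * H')) = 0 := by
        linear_combination (p.2.2.1 oC) * g2 - (x.2.2.1 oC) * F2 + (H' : ℂ) * g3
      exact (mul_eq_zero.1 h9).resolve_right (mul_ne_zero two_ne_zero
        (mul_ne_zero (mul_ne_zero hX hY') hH0'))
    have dX0 : x.1 oA = 0 := by
      rw [dY0, dZ0] at g3
      have h9 : x.1 oA * (p.2.1 oB * p.2.2.1 oC) = 0 := by linear_combination g3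
      exact (mul_eq_zero.1 h9).resolve_right (mul_ne_zero hY' hZ)
    have x1 : x.1 = 0 := by
      funext y
      rcases eq_or_ne y oA with rfl | hy
      · exact dX0
      · rw [← dun y hy, du0]
    have x2 : x.2.1 = 0 := by
      funext y
      rcases eq_or_ne y oB with rfl | hy
      · exact dY0
      · rw [← dvn y hy, dv0]
    have x3 : x.2.2.1 = 0 := by
      funext y
      rcases eq_or_ne y oC with rfl | hy
      · exact dZ0
      · rw [← dwn y hy, dw0]
    have x4 : x.2.2.2 = 0 := by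
      funext i
      fin_cases i
      · exact da0
      · exact db0
      · exact dc0
    exact Prod.ext x1 (Prod.ext x2 (Prod.ext x3 x4))

end

end Pool.Agent.MPb0eK
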