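import Mathlib
import Pool.Agent.Lib.MP_b0e20b_ag_K.WDefs
import Pool.Agent.Lib.MP_b0e20b_ag_K.TXa
import Pool.Agent.Lib.MP_b0e20b_ag_K.KerEx

/-!
# MP_b0e20b_ag, project K: the limit system of the E type 4
-/

set_option autoImplicit false

open scoped BigOperators Topology
open Filter

namespace Pool.Agent.MPb0eK

open MPb0eR (c1 c2 c3 tr q Sup Rl Rea uf Nrm cj AF scl)

private theorem z4 : zE 4 0 0 = 0 ∧ zE 4 0 1 = 0 ∧ zE 4 0 2 = 0 ∧ zE 4 0 3 = 0 ∧ zE 4 0 4 = 0 ∧
    zE 4 0 5 = -1 ∧ zE 4 0 6 = 0 ∧ zE 4 0 7 = -1 ∧ zE 4 0 8 = 0 ∧ zE 4 0 9 = 0 ∧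
    zE 4 0 10 = -1 ∧ zE 4 0 11 = 0 ∧ zE 4 0 12 = 0 ∧ zE 4 0 13 = 0 ∧ zE 4 0 14 = -1 := by
  refine ⟨?_, ?_, ?_, ?_, ?_, ?_, ?_, ?_, ?_, ?_, ?_, ?_, ?_, ?_, ?_⟩ <;> simp [zE]

section

variable {A B C : Type} [Fintype A] [Fintype B] [Fintype C] [DecidableEq A] [DecidableEq B]
  [DecidableEq C] {oA : A} {oB : B} {oC : C}
  {h : B → ℝ} {h' : C → ℝ}

omit [Fintype A] in
private theorem scl_o (x : A → ℂ) : scl oA 0 1 x oA = 0 := by simp [scl]

omit [Fintype A] in
private theorem scl_n (x : A → ℂ) {a : A} (ha : a ≠ oA) : scl oA 0 1 x a = x a := by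
  simp [scl, ha]

private theorem im_cancel {x y z : ℂ} (e : x * y = z) (hy : y.im = 0) (hz : z.im = 0)
    (y0 : y ≠ 0) : x.im = 0 := by
  have h1 : (x * y).im = 0 := by rw [e, hz]
  rw [Complex.mul_im, hy, mul_zero, zero_add] at h1
  refine (mul_eq_zero.1 h1).resolve_right fun h2 => y0 (Complex.ext h2 hy)

private theorem im_mul {x y : ℂ} (hx : x.im = 0) (hy : y.im = 0) : (x * y).im = 0 := by
  rw [Complex.mul_im, hx, hy, mul_zero, zero_mul, add_zero]

/-- Equations off `oB` give the equations against the mask `1`. -/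
private theorem dt_mask {f g : B → ℂ} {z : B → ℂ} (hz : z oB = 0)
    (hfg : ∀ b, b ≠ oB → f b = g b) : dt f z = dt g z := by
  refine Finset.sum_congr rfl fun b _ => ?_
  by_cases hb : b = oB
  · rw [hb, hz, mul_zero, mul_zero]
  · rw [hfg b hb]

/-- Real and nondegenerate.

Proof. `zE 4 0 = ![0,0,0,0,0, -1,0,-1,0,0, -1,0,0,0,-1]`. A tuple for the masks
`(univ.erase oA; 1; 1)`. `X τA + X Z h (v) = 0`, `X τA + X Y h' (w) = 0`, so `Z = - τA / h (v)`,
`Y = - τA / h' (w)` (`h (v), h' (w) ≠ 0` by `hY.s2 1`, `hY.s1 1`; `τA ≠ 0` by `hY.g0`),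
`X = q v q w / (Y Z α)`: real. Kernel: vectors and multipliers zero; then
`dX (τA + Z h (v)) + X dZ h (v) = 0` gives `dZ = 0`, the same for `dY`, and `e5` gives `dX = 0`. -/
theorem t4a {T : A → B → C → ℝ} (hY : HY3 T oA oB oC h h') {ia : A} {ib : B} {ic : C}
    (ja : ia ≠ oA) (jb : ib ≠ oB) (jc : ic ≠ oC) {p : PK A B C}
    (hp : locE oA oB oC h h' ia ib ic (T, zE 4 0) p = 0) (hX : p.1 oA ≠ 0) (hY' : p.2.1 oB ≠ 0)
    (hZ : p.2.2.1 oC ≠ 0) :
    cjK p = p ∧ ∀ x, HasDerivAt (fun t : ℝ => locE oA oB oC h h' ia ib ic (T, zE 4 0) (p + t • x))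
      0 0 → x = 0 := by
  obtain ⟨z0, z1, z2, z3, z4', z5, z6, z7, z8, z9, z10, z11, z12, z13, z14⟩ := z4
  -- the components
  have ha := fun a => congrFun (congrArg Prod.fst hp) a
  have hb := fun b => congrFun (congrArg (fun r => r.2.1) hp) b
  have hc := fun c => congrFun (congrArg (fun r => r.2.2.1) hp) c
  have hn := fun i => congrFun (congrArg (fun r => r.2.2.2) hp) i
  simp only [locE, z0, z1, z2, z3, z4', z5, z6, z7, z8, z9, z10, z11, z12, z13, z14] at ha hb hc hn
  set u := scl oA 0 1 p.1 with hu_def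
  set v := scl oB 0 1 p.2.1 with hv_def
  set w := scl oC 0 1 p.2.2.1 with hw_def
  have uo : u oA = 0 := scl_o _
  have vo : v oB = 0 := scl_o _
  have wo : w oC = 0 := scl_o _
  have un : ∀ a, a ≠ oA → u a = p.1 a := fun a h => scl_n _ h
  have vn : ∀ b, b ≠ oB → v b = p.2.1 b := fun a h => scl_n _ h
  have wn : ∀ c, c ≠ oC → w c = p.2.2.1 c := fun a h => scl_n _ h
  have nu : p.1 ia = 1 := by
    have := hn 0
    simp only [Matrix.cons_val_zero] at this
    exact sub_eq_zero.1 this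
  have nv : p.2.1 ib = 1 := by
    have := hn 1
    simp only [Matrix.cons_val_one] at this
    exact sub_eq_zero.1 this
  have nw : p.2.2.1 ic = 1 := by
    have := hn 2
    simp only [Matrix.cons_val] at this
    exact sub_eq_zero.1 this
  have uia : u ia = 1 := by rw [un ia ja, nu]
  have vib : v ib = 1 := by rw [vn ib jb, nv]
  have wic : w ic = 1 := by rw [wn ic jc, nw]
  have u0 : u ≠ 0 := fun h => by rw [h] at uia; simp at uia
  have v0 : v ≠ 0 := fun h => by rw [h] at vib; simp at vib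
  have w0 : w ≠ 0 := fun h => by rw [h] at wic; simp at wic
  have e1 : ∀ a, a ≠ oA → c1 T v w a = p.2.2.2 0 * u a := by
    intro a h1
    have := ha a
    rw [if_neg h1] at this
    rw [un a h1]
    exact sub_eq_zero.1 this
  have e2 : ∀ b, b ≠ oB → c2 T u w b = p.2.2.2 1 * v b := by
    intro b h1
    have := hb b
    rw [if_neg h1, Complex.ofReal_zero, zero_mul, zero_mul, add_zero] at this
    rw [vn b h1]
    exact sub_eq_zero.1 this
  have e3 : ∀ c, c ≠ oC → c3 T u v c = p.2.2.2 2 * w c := by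
    intro c h1
    have := hc c
    rw [if_neg h1, Complex.ofReal_zero, zero_mul, zero_mul, add_zero] at this
    rw [wn c h1]
    exact sub_eq_zero.1 this
  have f1 : p.1 oA * (c1 T v w oA + p.2.2.1 oC * pr h v) = 0 := by
    have h1 : (if oA = oA then _ else _) = (0 : ℂ) := ha oA
    rw [if_pos rfl, uo] at h1
    push_cast at h1
    linear_combination (-1) * h1
  have f2 : p.1 oA * (c1 T v w oA + p.2.1 oB * pr h' w) = 0 := by
    have h1 : (if oB = oB then _ else _) = (0 : ℂ) := hb oB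
    rw [if_pos rfl, uo] at h1
    push_cast at h1
    linear_combination (-1) * h1
  have f3 : p.1 oA * p.2.1 oB * p.2.2.1 oC * p.2.2.2 0 = q v * q w := by
    have h1 : (if oC = oC then _ else _) = (0 : ℂ) := hc oC
    rw [if_pos rfl] at h1
    exact sub_eq_zero.1 h1
  -- the tuple
  have ht : TX T (Finset.univ.erase oA) (XM oB h 1) (XM oC h' 1) u v w (p.2.2.2 0) (p.2.2.2 1)
      (p.2.2.2 2) := by
    refine ⟨?_, ?_, ?_, ?_, ?_, ?_⟩
    · intro a h1
      have : a = oA := by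
        by_contra h2
        exact h1 (Finset.mem_erase.2 ⟨h2, Finset.mem_univ _⟩)
      rw [this, uo]
    · exact mem_XM.2 ⟨fun _ => vo, fun h1 => absurd h1 (by decide)⟩
    · exact mem_XM.2 ⟨fun _ => wo, fun h1 => absurd h1 (by decide)⟩
    · intro a h1
      exact e1 a (Finset.mem_erase.1 h1).1
    · intro z h1
      rw [← dt_smul_left]
      exact dt_mask ((mem_XM.1 h1).1 (by decide)) fun b h2 => by
        rw [e2 b h2, Pi.smul_apply, smul_eq_mul]
    · intro z h1
      rw [← dt_smul_left]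
      exact dt_mask ((mem_XM.1 h1).1 (by decide)) fun b h2 => by
        rw [e3 b h2, Pi.smul_apply, smul_eq_mul]
  have ok := hY.f' 1 1 u v w _ _ _ ht u0 v0 w0
  have ru : Rea u := rea_of_rl ok.ru uia
  have rv : Rea v := rea_of_rl ok.rv vib
  have rw' : Rea w := rea_of_rl ok.rw' wic
  obtain ⟨rα, rβ, rγ⟩ := ht.re u0 v0 w0 ru rv rw'
  have hτ : c1 T v w oA ≠ 0 := hY.g0 _ _ _ _ _ _ ht u0 v0 w0
  have hh : pr h v ≠ 0 := by
    intro h1
    have := hY.s2 1 (by decide) _ _ _ _ _ _ ht u0 v0 w0 ru rv rw'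
    rw [h1] at this
    simp at this
  have hh' : pr h' w ≠ 0 := by
    intro h1
    have := hY.s1 1 (by decide) _ _ _ _ _ _ ht u0 v0 w0 ru rv rw'
    rw [h1] at this
    simp at this
  have g1 : c1 T v w oA + p.2.2.1 oC * pr h v = 0 := (mul_eq_zero.1 f1).resolve_left hX
  have g2 : c1 T v w oA + p.2.1 oB * pr h' w = 0 := (mul_eq_zero.1 f2).resolve_left hX
  have rτ : (c1 T v w oA).im = 0 := MPb0eR.c1_re _ _ _ rv rw' _
  constructor
  · have iZ : (p.2.2.1 oC).im = 0 := by
      refine im_cancel (y := pr h v) (z := - c1 T v w oA) ?_ (pr_re h rv) ?_ hh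
      · linear_combination g1
      · rw [Complex.neg_im, rτ, neg_zero]
    have iY : (p.2.1 oB).im = 0 := by
      refine im_cancel (y := pr h' w) (z := - c1 T v w oA) ?_ (pr_re h' rw') ?_ hh'
      · linear_combination g2
      · rw [Complex.neg_im, rτ, neg_zero]
    have iX : (p.1 oA).im = 0 := by
      refine im_cancel (y := p.2.1 oB * p.2.2.1 oC * p.2.2.2 0) (z := q v * q w) ?_
        (im_mul (im_mul iY iZ) rα) (im_mul (q_rea_pos rv v0).2 (q_rea_pos rw' w0).2)
        (mul_ne_zero (mul_ne_zero hY' hZ) ok.hα)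
      linear_combination f3
    refine Prod.ext ?_ (Prod.ext ?_ (Prod.ext ?_ ?_))
    · refine (MPb0eR.rea_iff _).1 fun a => ?_
      by_cases h1 : a = oA
      · rw [h1, iX]
      · rw [← un a h1, ru a]
    · refine (MPb0eR.rea_iff _).1 fun a => ?_
      by_cases h1 : a = oB
      · rw [h1, iY]
      · rw [← vn a h1, rv a]
    · refine (MPb0eR.rea_iff _).1 fun a => ?_
      by_cases h1 : a = oC
      · rw [h1, iZ]
      · rw [← wn a h1, rw' a]
    · refine (MPb0eR.rea_iff _).1 fun a => ?_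
      fin_cases a
      · exact rα
      · exact rβ
      · exact rγ
  · intro x hx
    have hk := kerE hx
    obtain ⟨k1, k2, k3, k4, k5, hk1, hk2, hk3, hk4, hk5, l1, l2⟩ := hk.e4
    have K1 := hk.e1
    have K2 := hk.e2
    have K3 := hk.e3
    have K5 := hk.e5
    simp only [z0, z1, z2, z3, z4'] at K1 K2 K3 K5 hk1 hk2 hk3 hk4 hk5
    simp only [z5, z6, z7, z8, z9, z10, z11, z12, z13, z14] at l1 l2
    rw [← hu_def] at K2 K3 hk2 hk4
    rw [← hv_def] at K1 K3 K5 hk1 hk3 hk4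
    rw [← hw_def] at K1 K2 K5 hk1 hk2 hk5
    -- the vectors
    have kx : KX T (Finset.univ.erase oA) (XM oB h 1) (XM oC h' 1) u v w (p.2.2.2 0) (p.2.2.2 1)
        (p.2.2.2 2) (scl oA 0 1 x.1) (scl oB 0 1 x.2.1) (scl oC 0 1 x.2.2.1) (x.2.2.2 0)
        (x.2.2.2 1) (x.2.2.2 2) := by
      refine ⟨?_, ?_, ?_, ?_, ?_, ?_⟩
      · intro a h1
        have : a = oA := by
          by_contra h2
          exact h1 (Finset.mem_erase.2 ⟨h2, Finset.mem_univ _⟩)
        rw [this, scl_o]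
      · exact mem_XM.2 ⟨fun _ => scl_o _, fun h1 => absurd h1 (by decide)⟩
      · exact mem_XM.2 ⟨fun _ => scl_o _, fun h1 => absurd h1 (by decide)⟩
      · intro a h1
        have h2 := (Finset.mem_erase.1 h1).1
        rw [K1 a h2, un a h2, scl_n _ h2]
      · intro z h1
        rw [← dt_smul_left, ← dt_smul_left, ← dt_add_left, ← dt_add_left]
        refine dt_mask ((mem_XM.1 h1).1 (by decide)) fun b h2 => ?_
        have h3 := K2 b h2
        rw [Complex.ofReal_zero, zero_mul, zero_mul, add_zero] at h3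
        simp only [Pi.add_apply, Pi.smul_apply, smul_eq_mul]
        rw [h3, vn b h2, scl_n _ h2]
      · intro z h1
        rw [← dt_smul_left, ← dt_smul_left, ← dt_add_left, ← dt_add_left]
        refine dt_mask ((mem_XM.1 h1).1 (by decide)) fun b h2 => ?_
        have h3 := K3 b h2
        rw [Complex.ofReal_zero, zero_mul, zero_mul, add_zero] at h3
        simp only [Pi.add_apply, Pi.smul_apply, smul_eq_mul]
        rw [h3, wn b h2, scl_n _ h2]
    obtain ⟨⟨r1, m1⟩, ⟨r2, m2⟩, r3, m3⟩ := ok.nd _ _ _ _ _ _ kx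
    have du0 : scl oA 0 1 x.1 = 0 := by
      have h1 := congrFun m1 ia
      rw [scl_n _ ja, hk.n1, Pi.smul_apply, uia, smul_eq_mul, mul_one] at h1
      rw [m1, ← h1, zero_smul]
    have dv0 : scl oB 0 1 x.2.1 = 0 := by
      have h1 := congrFun m2 ib
      rw [scl_n _ jb, hk.n2, Pi.smul_apply, vib, smul_eq_mul, mul_one] at h1
      rw [m2, ← h1, zero_smul]
    have dw0 : scl oC 0 1 x.2.2.1 = 0 := by
      have h1 := congrFun m3 ic
      rw [scl_n _ jc, hk.n3, Pi.smul_apply, wic, smul_eq_mul, mul_one] at h1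
      rw [m3, ← h1, zero_smul]
    rw [du0] at K2 K3 hk2 hk4
    rw [dv0] at K1 K3 K5 hk1 hk3 hk4
    rw [dw0] at K1 K2 K5 hk1 hk2 hk5
    have xa : ∀ a, a ≠ oA → x.1 a = 0 := fun a h1 => by
      rw [← scl_n (oA := oA) x.1 h1, du0, Pi.zero_apply]
    have xb : ∀ b, b ≠ oB → x.2.1 b = 0 := fun a h1 => by
      rw [← scl_n (oA := oB) x.2.1 h1, dv0, Pi.zero_apply]
    have xc : ∀ c, c ≠ oC → x.2.2.1 c = 0 := fun a h1 => by
      rw [← scl_n (oA := oC) x.2.2.1 h1, dw0, Pi.zero_apply]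
    -- the multipliers
    have d0 : x.2.2.2 0 = 0 := by
      have h1 := K1 ia ja
      rw [MPb0eR.c1_zero_left, MPb0eR.c1_zero_right, hk.n1, nu] at h1
      linear_combination -h1
    have d1 : x.2.2.2 1 = 0 := by
      have h1 := K2 ib jb
      rw [MPb0eR.c2_zero_left, MPb0eR.c2_zero_right, hk.n2, nv, Complex.ofReal_zero] at h1
      linear_combination -h1
    have d2 : x.2.2.2 2 = 0 := by
      have h1 := K3 ic jc
      rw [MPb0eR.c3_zero_left, MPb0eR.c3_zero_right, hk.n3, nw, Complex.ofReal_zero] at h1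
      linear_combination -h1
    -- the coordinates at the corner
    have pz : pr h (0 : B → ℂ) = 0 := by simp [pr]
    have pz' : pr h' (0 : C → ℂ) = 0 := by simp [pr]
    rw [MPb0eR.c1_zero_left, MPb0eR.c1_zero_right] at hk1
    rw [pz] at hk3
    rw [pz'] at hk5
    push_cast at l1 l2 hk1
    have dZ : x.2.2.1 oC = 0 := by
      have h1 : p.1 oA * pr h v * x.2.2.1 oC = 0 := by
        linear_combination -l1 - hk1 - hk3 - x.1 oA * g1
      exact (mul_eq_zero.1 h1).resolve_left (mul_ne_zero hX hh)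
    have dY : x.2.1 oB = 0 := by
      have h1 : p.1 oA * pr h' w * x.2.1 oB = 0 := by
        linear_combination -l2 - hk1 - hk5 - x.1 oA * g2
      exact (mul_eq_zero.1 h1).resolve_left (mul_ne_zero hX hh')
    have dX : x.1 oA = 0 := by
      have z1 : dt v (0 : B → ℂ) = 0 := by simp [dt]
      have z2 : dt w (0 : C → ℂ) = 0 := by simp [dt]
      rw [z1, z2, dZ, dY, d0] at K5
      have h1 : p.2.1 oB * p.2.2.1 oC * p.2.2.2 0 * x.1 oA = 0 := by
        linear_combination K5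
      exact (mul_eq_zero.1 h1).resolve_left (mul_ne_zero (mul_ne_zero hY' hZ) ok.hα)
    refine Prod.ext ?_ (Prod.ext ?_ (Prod.ext ?_ ?_))
    · funext a
      by_cases h1 : a = oA
      · rw [h1, dX]
        rfl
      · rw [xa a h1]
        rfl
    · funext a
      by_cases h1 : a = oB
      · rw [h1, dY]
        rfl
      · rw [xb a h1]
        rfl
    · funext a
      by_cases h1 : a = oC
      · rw [h1, dZ]
        rfl
      · rw [xc a h1]
        rfl
    · funext a
      fin_cases a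
      · exact d0
      · exact d1
      · exact d2

end

end Pool.Agent.MPb0eK
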