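import Mathlib
import Pool.Agent.Lib.MP_b0e20b_ag_K.WDefs
import Pool.Agent.Lib.MP_b0e20b_ag_K.TXa
import Pool.Agent.Lib.MP_b0e20b_ag_K.KerEx

/-!
# MP_b0e20b_ag, project K: the limit system of the E type 5
-/

set_option autoImplicit false

open scoped BigOperators Topology
open Filter

namespace Pool.Agent.MPb0eK

open MPb0eR (c1 c2 c3 tr q Sup Rl Rea uf Nrm cj AF scl)

section

variable {A B C : Type} [Fintype A] [Fintype B] [Fintype C] [DecidableEq A] [DecidableEq B]
  [DecidableEq C] {oA : A} {oB : B} {oC : C}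
  {h : B → ℝ} {h' : C → ℝ}

private theorem T5a_z : zE 5 0 = ![0, 0, 0, 1, 0, 0, 0, -1, 0, 0, -1, 0, 0, 1, 0] := by
  simp [zE]

omit [Fintype A] in
private theorem T5a_s0 (o : A) (f : ℝ) (x : A → ℂ) : scl o 0 f x o = 0 := by
  simp [scl]

omit [Fintype A] in
private theorem T5a_s1 {o a : A} (ha : a ≠ o) (e : ℝ) (x : A → ℂ) : scl o e 1 x a = x a := by
  simp [scl, ha]

/-- The linearised equations are a kernel for the masks. -/
private theorem T5a_dt {o : B} {h : B → ℝ} {z f v : B → ℂ} {β N : ℂ} (ho : z o = 0)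
    (hz : pr h z = 0) (he : ∀ b, b ≠ o → f b + N * h b = β * v b) : dt f z = β * dt v z := by
  have e1 : dt f z = ∑ b, (β * (v b * z b) - N * ((h b : ℂ) * z b)) := by
    refine Finset.sum_congr rfl fun b _ => ?_
    by_cases hb : b = o
    · rw [hb, ho]
      ring
    · rw [eq_sub_of_add_eq (he b hb)]
      ring
  rw [e1, Finset.sum_sub_distrib, ← Finset.mul_sum, ← Finset.mul_sum]
  have e2 : ∑ b, (h b : ℂ) * z b = 0 := hz
  rw [e2, mul_zero, sub_zero]
  rfl

private theorem T5a_dt2 {o : B} {h : B → ℝ} {z f v dv : B → ℂ} {β dβ N : ℂ} (ho : z o = 0)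
    (hz : pr h z = 0) (he : ∀ b, b ≠ o → f b + N * h b = β * dv b + dβ * v b) :
    dt f z = β * dt dv z + dβ * dt v z := by
  have e1 := T5a_dt (v := fun b => β * dv b + dβ * v b) (β := 1) ho hz
    (fun b hb => by rw [he b hb, one_mul])
  rw [e1, one_mul]
  simp only [dt, Finset.mul_sum, ← Finset.sum_add_distrib]
  exact Finset.sum_congr rfl fun b _ => by ring

/-- A number with a positive real square is real. -/
private theorem T5a_sq {x : ℂ} (h1 : (x ^ 2).im = 0) (h2 : 0 < (x ^ 2).re) : x.im = 0 := by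
  rw [pow_two] at h1 h2
  rw [Complex.mul_im] at h1
  rw [Complex.mul_re] at h2
  have h3 : x.re * x.im = 0 := by linarith
  rcases mul_eq_zero.1 h3 with h4 | h4
  · rw [h4] at h2
    nlinarith [mul_self_nonneg x.im]
  · exact h4

/-- Real and nondegenerate.

Proof. `zE 5 0 = ![0,0,0,1,0, 0,0,-1,0,0, -1,0,0,1,0]`. `N = X Z`, `h (v) = 0`: a tuple for the
masks
`(univ.erase oA; 2; 1)`, `c2 b + N h b = β v b`. `Z τC = X τA`. By `hY.t2`: `N τC τA > 0`, so
`X ^ 2 = N τC / τA > 0`: `X` is real, `Z = N / X`, `Y = q v q w / (X Z α)`. Kernel: as in `T2a` the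
vectors, the multipliers and `d(X Z)` are zero; `dZ τC = dX τA` and `Z τC = X τA` give
`dZ / Z = dX / X`, so both are zero; `e5` gives `dY = 0`. -/
theorem t5a {T : A → B → C → ℝ} (hY : HY3 T oA oB oC h h') {ia : A} {ib : B} {ic : C}
    (ja : ia ≠ oA) (jb : ib ≠ oB) (jc : ic ≠ oC) {p : PK A B C}
    (hp : locE oA oB oC h h' ia ib ic (T, zE 5 0) p = 0) (hX : p.1 oA ≠ 0) (hY' : p.2.1 oB ≠ 0)
    (hZ : p.2.2.1 oC ≠ 0) :
    cjK p = p ∧ ∀ x, HasDerivAt (fun t : ℝ => locE oA oB oC h h' ia ib ic (T, zE 5 0) (p + t • x))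
      0 0 → x = 0 := by
  obtain ⟨pu, pv, pw, pm⟩ := p
  simp only at hX hY' hZ
  rw [T5a_z] at hp ⊢
  have q1 := congrArg Prod.fst hp
  have q2 := congrArg Prod.fst (congrArg Prod.snd hp)
  have q3 := congrArg Prod.fst (congrArg Prod.snd (congrArg Prod.snd hp))
  have q4 := congrArg Prod.snd (congrArg Prod.snd (congrArg Prod.snd hp))
  simp only [locE] at q1 q2 q3 q4
  -- the equations
  have f0 := congrFun q1 oA
  have f1 := congrFun q2 oB
  have f2 := congrFun q3 oC
  have f3 := congrFun q4 0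
  have f4 := congrFun q4 1
  have f5 := congrFun q4 2
  simp [T5a_s0] at f0 f1 f2 f3 f4 f5
  have g1 : ∀ a, a ≠ oA → c1 T (scl oB 0 1 pv) (scl oC 0 1 pw) a = pm 0 * pu a := by
    intro a ha
    have hh := congrFun q1 a
    simp [ha] at hh
    linear_combination hh
  have g2 : ∀ b, b ≠ oB → c2 T (scl oA 0 1 pu) (scl oC 0 1 pw) b + (pu oA * pw oC) * h b
      = pm 1 * pv b := by
    intro b hb
    have hh := congrFun q2 b
    simp [hb] at hh
    linear_combination hh
  have g3 : ∀ c, c ≠ oC → c3 T (scl oA 0 1 pu) (scl oB 0 1 pv) c = pm 2 * pw c := by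
    intro c hc
    have hh := congrFun q3 c
    simp [hc] at hh
    linear_combination hh
  clear q1 q2 q3 q4
  set u := scl oA 0 1 pu with hu
  set v := scl oB 0 1 pv with hv
  set w := scl oC 0 1 pw with hw
  have uo : u oA = 0 := T5a_s0 _ _ _
  have vo : v oB = 0 := T5a_s0 _ _ _
  have wo : w oC = 0 := T5a_s0 _ _ _
  have ua : ∀ a, a ≠ oA → u a = pu a := fun a ha => T5a_s1 ha _ _
  have vb : ∀ b, b ≠ oB → v b = pv b := fun b hb => T5a_s1 hb _ _
  have wc : ∀ c, c ≠ oC → w c = pw c := fun c hc => T5a_s1 hc _ _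
  have ui : u ia = 1 := by rw [ua ia ja]; linear_combination f3
  have vi : v ib = 1 := by rw [vb ib jb]; linear_combination f4
  have wi : w ic = 1 := by rw [wc ic jc]; linear_combination f5
  have une : u ≠ 0 := fun h0 => by rw [h0] at ui; exact zero_ne_one ui
  have vne : v ≠ 0 := fun h0 => by rw [h0] at vi; exact zero_ne_one vi
  have wne : w ≠ 0 := fun h0 => by rw [h0] at wi; exact zero_ne_one wi
  have hv0 : pr h v = 0 := by
    rcases f0 with (h0 | h0) | h0
    · exact absurd h0 hX
    · exact absurd h0 hZ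
    · exact h0
  have g2' : ∀ b, b ≠ oB → c2 T u w b + (pu oA * pw oC) * h b = pm 1 * v b := by
    intro b hb
    rw [vb b hb]
    exact g2 b hb
  have tx : TX T (Finset.univ.erase oA) (XM oB h 2) (XM oC h' 1) u v w (pm 0) (pm 1) (pm 2) := by
    refine ⟨?_, mem_XM.2 ⟨fun _ => vo, fun _ => hv0⟩,
      mem_XM.2 ⟨fun _ => wo, fun h0 => absurd h0 (by decide)⟩, ?_, ?_, ?_⟩
    · intro a ha
      have h0 : a = oA := by
        by_contra h1
        exact ha (Finset.mem_erase.2 ⟨h1, Finset.mem_univ _⟩)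
      rw [h0, uo]
    · intro a ha
      have h0 := (Finset.mem_erase.1 ha).1
      rw [ua a h0]
      exact g1 a h0
    · intro z hz
      have h0 := mem_XM.1 hz
      exact T5a_dt (h0.1 (by decide)) (h0.2 rfl) g2'
    · intro z hz
      have h0 := mem_XM.1 hz
      refine T5a_dt (h := fun _ => 0) (N := 0) (h0.1 (by decide)) (by simp [pr]) fun c hc => ?_
      rw [zero_mul, add_zero, wc c hc]
      exact g3 c hc
  have ok := hY.f' 2 1 u v w _ _ _ tx une vne wne
  have ru : Rea u := rea_of_rl ok.ru ui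
  have rv : Rea v := rea_of_rl ok.rv vi
  have rw' : Rea w := rea_of_rl ok.rw' wi
  obtain ⟨rα, rβ, rγ⟩ := tx.re une vne wne ru rv rw'
  -- the number `N`
  obtain ⟨b0, hb0⟩ := Function.ne_iff.1 hY.hne
  rw [Pi.zero_apply] at hb0
  have hb1 : b0 ≠ oB := fun h0 => hb0 (by rw [h0]; exact hY.ho)
  have rN : (pu oA * pw oC).im = 0 := by
    have h1 := congrArg Complex.im (g2' b0 hb1)
    have h3 : (pm 1 * v b0).im = 0 := by
      rw [Complex.mul_im, rβ, rv b0]
      ring
    rw [Complex.add_im, MPb0eR.c2_re T u w ru rw' b0, zero_add, h3, Complex.im_mul_ofReal] at h1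
    exact (mul_eq_zero.1 h1).resolve_right hb0
  have pos := hY.t2 u v w _ _ _ (pu oA * pw oC) tx g2' une vne wne ru rv rw'
  have rA := MPb0eR.c1_re T v w rv rw' oA
  have rC := MPb0eR.c3_re T u v ru rv oC
  have k1 : pu oA * c1 T v w oA = pw oC * c3 T u v oC := by linear_combination -f1
  have tA : c1 T v w oA ≠ 0 := by
    intro h0
    rw [h0, mul_zero, Complex.zero_re] at pos
    exact lt_irrefl _ pos
  have sA : (c1 T v w oA).re ≠ 0 := fun h0 => tA (Complex.ext h0 rA)
  have k2 : pu oA ^ 2 * c1 T v w oA ^ 2 = pu oA * pw oC * c3 T u v oC * c1 T v w oA := by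
    linear_combination pu oA * c1 T v w oA * k1
  have rX : (pu oA).im = 0 := by
    have e1 : pu oA * c1 T v w oA = pu oA * ((c1 T v w oA).re : ℂ) := by
      congr 1
      exact Complex.ext rfl (by rw [rA, Complex.ofReal_im])
    have e2 : (pu oA * c1 T v w oA) ^ 2
        = pu oA * pw oC * c3 T u v oC * c1 T v w oA := by rw [← k2]; ring
    have e3 : (pu oA * c1 T v w oA).im = 0 := by
      refine T5a_sq ?_ ?_
      · rw [e2, Complex.mul_im, Complex.mul_im (pu oA * pw oC), rN, rA, rC]
        ring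
      · rw [e2]
        exact pos
    rw [e1, Complex.im_mul_ofReal] at e3
    exact (mul_eq_zero.1 e3).resolve_right sA
  have rZ : (pw oC).im = 0 := by
    rw [Complex.mul_im, rX, zero_mul, add_zero] at rN
    refine (mul_eq_zero.1 rN).resolve_left fun h0 => hX (Complex.ext h0 rX)
  have hα := ok.hα
  have qv := q_rea_pos rv vne
  have qw := q_rea_pos rw' wne
  have qvn : q v ≠ 0 := q_ne ok.rv vne
  have rY : (pv oB).im = 0 := by
    have e1 : (pu oA * pv oB * pw oC * pm 0 - q v * q w).im = 0 := by rw [f2, Complex.zero_im]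
    have e2 : (pu oA).re ≠ 0 := fun h0 => hX (Complex.ext h0 rX)
    have e3 : (pw oC).re ≠ 0 := fun h0 => hZ (Complex.ext h0 rZ)
    have e4 : (pm 0).re ≠ 0 := fun h0 => hα (Complex.ext h0 rα)
    simp only [Complex.sub_im, Complex.mul_im, Complex.mul_re, rX, rZ, rα, qv.2, qw.2] at e1
    have e5 : (pv oB).im * ((pu oA).re * (pw oC).re * (pm 0).re) = 0 := by linarith
    exact (mul_eq_zero.1 e5).resolve_right (mul_ne_zero (mul_ne_zero e2 e3) e4)
  refine ⟨?_, ?_⟩
  · have cu : cj pu = pu := by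
      refine (MPb0eR.rea_iff _).1 fun a => ?_
      by_cases ha : a = oA
      · rw [ha]
        exact rX
      · rw [← ua a ha]
        exact ru a
    have cv : cj pv = pv := by
      refine (MPb0eR.rea_iff _).1 fun b => ?_
      by_cases hb : b = oB
      · rw [hb]
        exact rY
      · rw [← vb b hb]
        exact rv b
    have cw : cj pw = pw := by
      refine (MPb0eR.rea_iff _).1 fun c => ?_
      by_cases hc : c = oC
      · rw [hc]
        exact rZ
      · rw [← wc c hc]
        exact rw' c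
    have cm : cj pm = pm := by
      refine (MPb0eR.rea_iff _).1 fun i => ?_
      fin_cases i
      · exact rα
      · exact rβ
      · exact rγ
    simp only [cjK, cu, cv, cw, cm]
  · intro x hx
    have K := kerE hx
    obtain ⟨xu, xv, xw, xm⟩ := x
    have m1 := K.e1
    have m2 := K.e2
    have m3 := K.e3
    obtain ⟨r1, r2, r3, r4, r5, s1, s2, s3, s4, s5, s6, s7⟩ := K.e4
    have m5 := K.e5
    have n1 := K.n1
    have n2 := K.n2
    have n3 := K.n3
    simp at m1 m2 m3 s1 s2 s3 s4 s5 s6 s7 m5 n1 n2 n3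
    clear s2 s5
    simp only [← hu, ← hv, ← hw] at s1 s3 s4 m1 m2 m3 m5
    set du := scl oA 0 1 xu with hdu
    set dv := scl oB 0 1 xv with hdv
    set dw := scl oC 0 1 xw with hdw
    have uo' : du oA = 0 := T5a_s0 _ _ _
    have vo' : dv oB = 0 := T5a_s0 _ _ _
    have wo' : dw oC = 0 := T5a_s0 _ _ _
    have ua' : ∀ a, a ≠ oA → du a = xu a := fun a ha => T5a_s1 ha _ _
    have vb' : ∀ b, b ≠ oB → dv b = xv b := fun b hb => T5a_s1 hb _ _
    have wc' : ∀ c, c ≠ oC → dw c = xw c := fun c hc => T5a_s1 hc _ _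
    have hdv0 : pr h dv = 0 := by
      rw [hv0, mul_zero, zero_add, s6] at s3
      exact (mul_eq_zero.1 s3.symm).resolve_left (mul_ne_zero hX hZ)
    have kx : KX T (Finset.univ.erase oA) (XM oB h 2) (XM oC h' 1) u v w (pm 0) (pm 1) (pm 2)
        du dv dw (xm 0) (xm 1) (xm 2) := by
      refine ⟨?_, mem_XM.2 ⟨fun _ => vo', fun _ => hdv0⟩,
        mem_XM.2 ⟨fun _ => wo', fun h0 => absurd h0 (by decide)⟩, ?_, ?_, ?_⟩
      · intro a ha
        have h0 : a = oA := by
          by_contra h1
          exact ha (Finset.mem_erase.2 ⟨h1, Finset.mem_univ _⟩)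
        rw [h0, uo']
      · intro a ha
        have h0 := (Finset.mem_erase.1 ha).1
        rw [ua a h0, ua' a h0]
        exact m1 a h0
      · intro z hz
        have h0 := mem_XM.1 hz
        have h1 := T5a_dt2 (f := fun b => c2 T du w b + c2 T u dw b) (v := v) (dv := dv)
          (β := pm 1) (dβ := xm 1) (N := xu oA * pw oC + pu oA * xw oC)
          (h0.1 (by decide)) (h0.2 rfl) fun b hb => by
            rw [vb b hb, vb' b hb]
            exact m2 b hb
        rw [← h1, ← dt_add_left]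
        rfl
      · intro z hz
        have h0 := mem_XM.1 hz
        have h1 := T5a_dt2 (f := fun c => c3 T du v c + c3 T u dv c) (h := fun _ => 0) (v := w)
          (dv := dw) (β := pm 2) (dβ := xm 2) (N := 0)
          (h0.1 (by decide)) (by simp [pr]) fun c hc => by
            rw [zero_mul, add_zero, wc c hc, wc' c hc]
            exact m3 c hc
        rw [← h1, ← dt_add_left]
        rfl
    obtain ⟨⟨a1, ha1⟩, ⟨a2, ha2⟩, ⟨a3, ha3⟩⟩ := ok.nd _ _ _ _ _ _ kx
    have du0 : du = 0 := by
      have h1 := congrFun ha1 ia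
      rw [Pi.smul_apply, smul_eq_mul, ui, mul_one, ua' ia ja, n1] at h1
      rw [ha1, ← h1, zero_smul]
    have dv0 : dv = 0 := by
      have h1 := congrFun ha2 ib
      rw [Pi.smul_apply, smul_eq_mul, vi, mul_one, vb' ib jb, n2] at h1
      rw [ha2, ← h1, zero_smul]
    have dw0 : dw = 0 := by
      have h1 := congrFun ha3 ic
      rw [Pi.smul_apply, smul_eq_mul, wi, mul_one, wc' ic jc, n3] at h1
      rw [ha3, ← h1, zero_smul]
    have xu0 : ∀ a, a ≠ oA → xu a = 0 := fun a ha => by rw [← ua' a ha, du0, Pi.zero_apply]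
    have xv0 : ∀ b, b ≠ oB → xv b = 0 := fun b hb => by rw [← vb' b hb, dv0, Pi.zero_apply]
    have xw0 : ∀ c, c ≠ oC → xw c = 0 := fun c hc => by rw [← wc' c hc, dw0, Pi.zero_apply]
    have x0 : xm 0 = 0 := by
      have h1 := m1 ia ja
      rw [dv0, dw0, MPb0eR.c1_zero_left, MPb0eR.c1_zero_right, xu0 ia ja, ← ua ia ja, ui] at h1
      linear_combination -h1
    have x2 : xm 2 = 0 := by
      have h1 := m3 ic jc
      rw [du0, dv0, MPb0eR.c3_zero_left, MPb0eR.c3_zero_right, xw0 ic jc, ← wc ic jc, wi] at h1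
      linear_combination -h1
    have m2' : ∀ b, b ≠ oB → (xu oA * pw oC + pu oA * xw oC) * (h b : ℂ) = xm 1 * v b := by
      intro b hb
      have h1 := m2 b hb
      rw [du0, dw0, MPb0eR.c2_zero_left, MPb0eR.c2_zero_right, xv0 b hb, ← vb b hb] at h1
      linear_combination h1
    have x1 : xm 1 = 0 := by
      have h1 : (xu oA * pw oC + pu oA * xw oC) * pr h v = xm 1 * q v := by
        simp only [pr, q, Finset.mul_sum]
        refine Finset.sum_congr rfl fun b _ => ?_
        by_cases hb : b = oB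
        · rw [hb, vo]
          ring
        · linear_combination v b * m2' b hb
      rw [hv0, mul_zero] at h1
      exact (mul_eq_zero.1 h1.symm).resolve_right qvn
    have dN : xu oA * pw oC + pu oA * xw oC = 0 := by
      have h1 := m2' b0 hb1
      rw [x1, zero_mul] at h1
      exact (mul_eq_zero.1 h1).resolve_right (Complex.ofReal_ne_zero.2 hb0)
    have s8 : xu oA * c1 T v w oA = xw oC * c3 T u v oC := by
      rw [dv0, dw0, MPb0eR.c1_zero_left, MPb0eR.c1_zero_right] at s1
      rw [du0, dv0, MPb0eR.c3_zero_left, MPb0eR.c3_zero_right] at s4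
      linear_combination s4 - s1 - s7
    have zX : xw oC = 0 := by
      have h1 : c1 T v w oA * (xu oA * pw oC - xw oC * pu oA) = 0 := by
        linear_combination pw oC * s8 - xw oC * k1
      have h2 := (mul_eq_zero.1 h1).resolve_left tA
      have h3 : xw oC * pu oA = 0 := by linear_combination (1 / 2) * dN - (1 / 2) * h2
      exact (mul_eq_zero.1 h3).resolve_right hX
    have zZ : xu oA = 0 := by
      rw [zX, mul_zero, add_zero] at dN
      exact (mul_eq_zero.1 dN).resolve_right hZ
    have zY : xv oB = 0 := by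
      rw [zX, zZ, x0, dv0, dw0] at m5
      simp [dt] at m5
      tauto
    have e1 : xu = 0 := by
      funext a
      by_cases ha : a = oA
      · rw [ha, zZ, Pi.zero_apply]
      · rw [xu0 a ha, Pi.zero_apply]
    have e2 : xv = 0 := by
      funext b
      by_cases hb : b = oB
      · rw [hb, zY, Pi.zero_apply]
      · rw [xv0 b hb, Pi.zero_apply]
    have e3 : xw = 0 := by
      funext c
      by_cases hc : c = oC
      · rw [hc, zX, Pi.zero_apply]
      · rw [xw0 c hc, Pi.zero_apply]
    have e4 : xm = 0 := by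
      funext i
      fin_cases i
      · exact x0
      · exact x1
      · exact x2
    rw [e1, e2, e3, e4]
    rfl

end

end Pool.Agent.MPb0eK
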