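import Mathlib
import Pool.Agent.Lib.MP_b0e20b_ag_K.WDefs
import Pool.Agent.Lib.MP_b0e20b_ag_K.TXa
import Pool.Agent.Lib.MP_b0e20b_ag_K.KerEx

/-!
# MP_b0e20b_ag, project K: the limit system of the E type 7
-/

set_option autoImplicit false

open scoped BigOperators Topology
open Filter

namespace Pool.Agent.MPb0eK

open MPb0eR (c1 c2 c3 tr q Sup Rl Rea uf Nrm cj AF scl)

section

variable {A B C : Type} [Fintype A] [Fintype B] [Fintype C] [DecidableEq A] [DecidableEq B]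
  [DecidableEq C] {oA : A} {oB : B} {oC : C}
  {h : B → ℝ} {h' : C → ℝ}

private theorem t7a_zE : zE 7 0 = ![1, 0, 0, 1, 0, -1, 0, -1, 0, 0, -1, 0, 0, 0, 0] := by
  simp [zE]

omit [Fintype A] in
private theorem t7a_scl1 (o : A) (u : A → ℂ) : scl o 1 1 u = u := by
  funext a
  simp [scl]

omit [Fintype A] in
private theorem t7a_scl0 (o : A) (u : A → ℂ) {a : A} (ha : a ≠ o) : scl o 0 1 u a = u a := by
  simp [scl, ha]

omit [Fintype A] in
private theorem t7a_sclo (o : A) (u : A → ℂ) : scl o 0 1 u o = 0 := by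
  simp [scl]

/-- The equations of the limit system. -/
private structure T7S (T : A → B → C → ℝ) (oA : A) (oB : B) (oC : C) (h : B → ℝ) (ia : A) (ib : B)
    (ic : C) (u : A → ℂ) (y : B → ℂ) (z : C → ℂ) (α β γ : ℂ) : Prop where
  e1 : ∀ a, c1 T (scl oB 0 1 y) (scl oC 0 1 z) a = α * u a
  e2 : ∀ b, b ≠ oB → c2 T u (scl oC 0 1 z) b + u oA * z oC * h b = β * y b
  e3 : ∀ c, c ≠ oC → c3 T u (scl oB 0 1 y) c = γ * z c
  e4 : pr h (scl oB 0 1 y) = 0
  e5 : u oA * y oB * z oC * α = q (scl oB 0 1 y) * q (scl oC 0 1 z)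
  n1 : u ia = 1
  n2 : y ib = 1
  n3 : z ic = 1

private theorem t7a_sys {T : A → B → C → ℝ} {ia : A} {ib : B} {ic : C} {p : PK A B C}
    (hp : locE oA oB oC h h' ia ib ic (T, zE 7 0) p = 0) (hX : p.1 oA ≠ 0)
    (hZ : p.2.2.1 oC ≠ 0) :
    T7S T oA oB oC h ia ib ic p.1 p.2.1 p.2.2.1 (p.2.2.2 0) (p.2.2.2 1) (p.2.2.2 2) := by
  rw [t7a_zE] at hp
  have hA := fun a => congrFun (congrArg Prod.fst hp) a
  have hB := fun b => congrFun (congrArg (fun x : QK A B C => x.2.1) hp) b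
  have hC := fun c => congrFun (congrArg (fun x : QK A B C => x.2.2.1) hp) c
  have hN := fun i => congrFun (congrArg (fun x : QK A B C => x.2.2.2) hp) i
  have hN0 := hN 0
  have hN1 := hN 1
  have hN2 := hN 2
  have hAo := hA oA
  have hBo := hB oB
  have hCo := hC oC
  simp [locE, t7a_scl1] at hAo hBo hCo hN0 hN1 hN2
  have k1 : c1 T (scl oB 0 1 p.2.1) (scl oC 0 1 p.2.2.1) oA = p.2.2.2 0 * p.1 oA :=
    sub_eq_zero.1 (hBo.resolve_left hX)
  have k3 : pr h (scl oB 0 1 p.2.1) = 0 := by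
    rw [k1, sub_self, mul_zero, neg_zero, zero_add, neg_eq_zero] at hAo
    exact (mul_eq_zero.1 hAo).resolve_left (mul_ne_zero hX hZ)
  refine ⟨fun a => ?_, fun b hb => ?_, fun c hc => ?_, k3, sub_eq_zero.1 hCo, sub_eq_zero.1 hN0,
    sub_eq_zero.1 hN1, sub_eq_zero.1 hN2⟩
  · by_cases ha : a = oA
    · rw [ha, k1]
    · have h1 := hA a
      simp [locE, ha] at h1
      exact sub_eq_zero.1 h1
  · have h1 := hB b
    simp [locE, hb, t7a_scl1] at h1
    exact sub_eq_zero.1 h1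
  · have h1 := hC c
    simp [locE, hc, t7a_scl1] at h1
    exact sub_eq_zero.1 h1

/-- The tuple. -/
private theorem t7a_tx {T : A → B → C → ℝ} (ho : h oB = 0) {ia : A} {ib : B} {ic : C} {u : A → ℂ}
    {y : B → ℂ} {z : C → ℂ} {α β γ : ℂ} (hs : T7S T oA oB oC h ia ib ic u y z α β γ) :
    TX T Finset.univ (XM oB h 2) (XM oC h' 1) u (scl oB 0 1 y) (scl oC 0 1 z) α β γ := by
  refine ⟨fun a ha => absurd (Finset.mem_univ a) ha, ?_, ?_, fun a _ => hs.e1 a, ?_, ?_⟩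
  · rw [mem_XM]
    exact ⟨fun _ => t7a_sclo _ _, fun _ => hs.e4⟩
  · rw [mem_XM]
    exact ⟨fun _ => t7a_sclo _ _, fun h1 => absurd h1 (by decide)⟩
  · intro x hx
    rw [mem_XM] at hx
    have h1 := hx.1 (by decide)
    have h2 := hx.2 rfl
    have h3 : dt (c2 T u (scl oC 0 1 z)) x + u oA * z oC * pr h x = β * dt (scl oB 0 1 y) x := by
      unfold dt pr
      rw [Finset.mul_sum, Finset.mul_sum, ← Finset.sum_add_distrib]
      refine Finset.sum_congr rfl fun b _ => ?_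
      by_cases hb : b = oB
      · rw [hb, h1, ho]
        simp
      · rw [t7a_scl0 _ _ hb]
        linear_combination x b * hs.e2 b hb
    rw [h2, mul_zero, add_zero] at h3
    exact h3
  · intro x hx
    rw [mem_XM] at hx
    have h1 := hx.1 (by decide)
    unfold dt
    rw [Finset.mul_sum]
    refine Finset.sum_congr rfl fun c _ => ?_
    by_cases hc : c = oC
    · rw [hc, h1]
      simp
    · rw [t7a_scl0 _ _ hc, hs.e3 c hc, mul_assoc]

/-- The linearised equations. -/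
private structure T7L (T : A → B → C → ℝ) (oA : A) (oB : B) (oC : C) (h : B → ℝ) (ia : A) (ib : B)
    (ic : C) (u : A → ℂ) (y : B → ℂ) (z : C → ℂ) (α β γ : ℂ) (du : A → ℂ) (dy : B → ℂ)
    (dz : C → ℂ) (dα dβ dγ : ℂ) : Prop where
  e1 : ∀ a, c1 T (scl oB 0 1 dy) (scl oC 0 1 z) a + c1 T (scl oB 0 1 y) (scl oC 0 1 dz) a
    = α * du a + dα * u a
  e2 : ∀ b, b ≠ oB → c2 T du (scl oC 0 1 z) b + c2 T u (scl oC 0 1 dz) b
    + (du oA * z oC + u oA * dz oC) * h b = β * dy b + dβ * y b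
  e3 : ∀ c, c ≠ oC → c3 T du (scl oB 0 1 y) c + c3 T u (scl oB 0 1 dy) c
    = γ * dz c + dγ * z c
  e4 : pr h (scl oB 0 1 dy) = 0
  e5 : (du oA * y oB * z oC + u oA * dy oB * z oC + u oA * y oB * dz oC) * α
      + u oA * y oB * z oC * dα
    = 2 * dt (scl oB 0 1 y) (scl oB 0 1 dy) * q (scl oC 0 1 z)
      + q (scl oB 0 1 y) * (2 * dt (scl oC 0 1 z) (scl oC 0 1 dz))
  n1 : du ia = 0
  n2 : dy ib = 0
  n3 : dz ic = 0

/-- The kernel equations of the tuple. -/
private theorem t7a_kx {T : A → B → C → ℝ} (ho : h oB = 0) {ia : A} {ib : B} {ic : C} {u : A → ℂ}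
    {y : B → ℂ} {z : C → ℂ} {α β γ : ℂ} {du : A → ℂ} {dy : B → ℂ} {dz : C → ℂ} {dα dβ dγ : ℂ}
    (hk : T7L T oA oB oC h ia ib ic u y z α β γ du dy dz dα dβ dγ) :
    KX T Finset.univ (XM oB h 2) (XM oC h' 1) u (scl oB 0 1 y) (scl oC 0 1 z) α β γ du
      (scl oB 0 1 dy) (scl oC 0 1 dz) dα dβ dγ := by
  refine ⟨fun a ha => absurd (Finset.mem_univ a) ha, ?_, ?_, fun a _ => hk.e1 a, ?_, ?_⟩
  · rw [mem_XM]
    exact ⟨fun _ => t7a_sclo _ _, fun _ => hk.e4⟩
  · rw [mem_XM]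
    exact ⟨fun _ => t7a_sclo _ _, fun h1 => absurd h1 (by decide)⟩
  · intro x hx
    rw [mem_XM] at hx
    have h1 := hx.1 (by decide)
    have h2 := hx.2 rfl
    have h3 : dt (c2 T du (scl oC 0 1 z)) x + dt (c2 T u (scl oC 0 1 dz)) x
        + (du oA * z oC + u oA * dz oC) * pr h x
        = β * dt (scl oB 0 1 dy) x + dβ * dt (scl oB 0 1 y) x := by
      unfold dt pr
      rw [Finset.mul_sum, Finset.mul_sum, Finset.mul_sum, ← Finset.sum_add_distrib,
        ← Finset.sum_add_distrib, ← Finset.sum_add_distrib]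
      refine Finset.sum_congr rfl fun b _ => ?_
      by_cases hb : b = oB
      · rw [hb, h1, ho]
        simp
      · rw [t7a_scl0 _ _ hb, t7a_scl0 _ _ hb]
        linear_combination x b * hk.e2 b hb
    rw [h2, mul_zero, add_zero] at h3
    exact h3
  · intro x hx
    rw [mem_XM] at hx
    have h1 := hx.1 (by decide)
    unfold dt
    rw [Finset.mul_sum, Finset.mul_sum, ← Finset.sum_add_distrib, ← Finset.sum_add_distrib]
    refine Finset.sum_congr rfl fun c _ => ?_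
    by_cases hc : c = oC
    · rw [hc, h1]
      simp
    · rw [t7a_scl0 _ _ hc, t7a_scl0 _ _ hc]
      linear_combination x c * hk.e3 c hc

omit [Fintype A] in
private theorem t7a_scl_zero (o : A) {y : A → ℂ} (hy : scl o 0 1 y = 0) (ho : y o = 0) : y = 0 := by
  funext a
  by_cases ha : a = o
  · rw [ha, ho]
    rfl
  · have h1 := congrFun hy a
    rw [t7a_scl0 _ _ ha] at h1
    exact h1

/-- The kernel is zero. -/
private theorem t7a_ker {T : A → B → C → ℝ} (ho : h oB = 0) {b0 : B} (hb0 : h b0 ≠ 0) {ia : A}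
    {ib : B} {ic : C} (jb : ib ≠ oB) (jc : ic ≠ oC) {u : A → ℂ} {y : B → ℂ} {z : C → ℂ}
    {α β γ : ℂ} (hs : T7S T oA oB oC h ia ib ic u y z α β γ)
    (ok : OkX T Finset.univ (XM oB h 2) (XM oC h' 1) u (scl oB 0 1 y) (scl oC 0 1 z) α β γ)
    (v0 : scl oB 0 1 y ≠ 0) (hX : u oA ≠ 0) (hZ : z oC ≠ 0) {du : A → ℂ} {dy : B → ℂ}
    {dz : C → ℂ} {dα dβ dγ : ℂ}
    (hk : T7L T oA oB oC h ia ib ic u y z α β γ du dy dz dα dβ dγ) :
    du = 0 ∧ dy = 0 ∧ dz = 0 ∧ dα = 0 ∧ dβ = 0 ∧ dγ = 0 := by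
  have hb0' : (h b0 : ℂ) ≠ 0 := Complex.ofReal_ne_zero.2 hb0
  have jb0 : b0 ≠ oB := by
    rintro rfl
    exact hb0 ho
  obtain ⟨⟨r1, h1⟩, ⟨r2, h2⟩, r3, h3⟩ := ok.nd _ _ _ _ _ _ (t7a_kx ho hk)
  have hr1 : r1 = 0 := by
    have h4 := congrFun h1 ia
    rw [hk.n1, Pi.smul_apply, hs.n1, smul_eq_mul, mul_one] at h4
    exact h4.symm
  have hr2 : r2 = 0 := by
    have h4 := congrFun h2 ib
    rw [t7a_scl0 _ _ jb, hk.n2, Pi.smul_apply, t7a_scl0 _ _ jb, hs.n2, smul_eq_mul, mul_one] at h4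
    exact h4.symm
  have hr3 : r3 = 0 := by
    have h4 := congrFun h3 ic
    rw [t7a_scl0 _ _ jc, hk.n3, Pi.smul_apply, t7a_scl0 _ _ jc, hs.n3, smul_eq_mul, mul_one] at h4
    exact h4.symm
  rw [hr1, zero_smul] at h1
  rw [hr2, zero_smul] at h2
  rw [hr3, zero_smul] at h3
  obtain ⟨e1, e2, e3, e4, e5, n1, n2, n3⟩ := hk
  rw [h2, h3] at e1 e5
  rw [h1, h3] at e2
  rw [h1, h2] at e3
  have hα : dα = 0 := by
    have h4 := e1 ia
    rw [h1, hs.n1, MPb0eR.c1_zero_left, MPb0eR.c1_zero_right] at h4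
    simpa using h4.symm
  have hγ : dγ = 0 := by
    have h4 := e3 ic jc
    rw [n3, hs.n3, MPb0eR.c3_zero_left, MPb0eR.c3_zero_right] at h4
    simpa using h4.symm
  have hdy : ∀ b, b ≠ oB → dy b = 0 := by
    intro b hb
    have h4 := congrFun h2 b
    rw [t7a_scl0 _ _ hb] at h4
    exact h4
  have e2' : ∀ b, b ≠ oB → u oA * dz oC * h b = dβ * y b := by
    intro b hb
    have h4 := e2 b hb
    rw [MPb0eR.c2_zero_left, MPb0eR.c2_zero_right, hdy b hb] at h4
    simpa using h4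
  have hβ : dβ = 0 := by
    have h4 : u oA * dz oC * pr h (scl oB 0 1 y) = dβ * q (scl oB 0 1 y) := by
      unfold pr q
      rw [Finset.mul_sum, Finset.mul_sum]
      refine Finset.sum_congr rfl fun b _ => ?_
      by_cases hb : b = oB
      · rw [hb, t7a_sclo]
        ring
      · rw [t7a_scl0 _ _ hb]
        linear_combination y b * e2' b hb
    rw [hs.e4, mul_zero] at h4
    exact (mul_eq_zero.1 h4.symm).resolve_right (q_ne ok.rv v0)
  have hdz : dz oC = 0 := by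
    have h4 := e2' b0 jb0
    rw [hβ, zero_mul] at h4
    exact (mul_eq_zero.1 ((mul_eq_zero.1 h4).resolve_right hb0')).resolve_left hX
  have hz : dz = 0 := t7a_scl_zero oC h3 hdz
  have hd0 : ∀ {I : Type} [Fintype I] (x : I → ℂ), dt x 0 = 0 := by
    intro I _ x
    simp [dt]
  have hdo : dy oB = 0 := by
    rw [h1, hz, hα, hd0, hd0] at e5
    have h4 : u oA * dy oB * z oC * α = 0 := by
      simpa using e5
    have h5 := (mul_eq_zero.1 h4).resolve_right ok.hα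
    have h6 := (mul_eq_zero.1 h5).resolve_right hZ
    exact (mul_eq_zero.1 h6).resolve_left hX
  exact ⟨h1, t7a_scl_zero oB h2 hdo, hz, hα, hβ, hγ⟩

/-- Real and nondegenerate.

Proof. `zE 7 0 = ![1,0,0,1,0, -1,0,-1,0,0, -1,0,0,0,0]`. `u = p.1`; `k1 = 0`: `τA = α u_o`, then
`k3 = 0`: `h (v) = 0`: a tuple for the masks `(univ; 2; 1)`, `c2 b + N h b = β v b`, `N = X Z`.
Real;
`N` is real, `X = u_o` is real, so `Z` is real, `Y = q v q w / (X Z α)`. Kernel: the derivatives of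
`k1` and `k3` are zero, so `KX` for the masks and `pr h dv = 0`; as in `T2a` the vectors, the
multipliers and `d(X Z)` are zero, so `dZ = 0`, and `e5` gives `dY = 0`. -/
theorem t7a {T : A → B → C → ℝ} (hY : HY3 T oA oB oC h h') {ia : A} {ib : B} {ic : C}
    (jb : ib ≠ oB) (jc : ic ≠ oC) {p : PK A B C}
    (hp : locE oA oB oC h h' ia ib ic (T, zE 7 0) p = 0) (hX : p.1 oA ≠ 0) (hY' : p.2.1 oB ≠ 0)
    (hZ : p.2.2.1 oC ≠ 0) :
    cjK p = p ∧ ∀ x, HasDerivAt (fun t : ℝ => locE oA oB oC h h' ia ib ic (T, zE 7 0) (p + t • x))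
      0 0 → x = 0 := by
  have hs := t7a_sys hp hX hZ
  have ht : TX T Finset.univ (XM oB h 2) (XM oC h' 1) _ _ _ _ _ _ := t7a_tx hY.ho hs
  obtain ⟨b0, hb0⟩ : ∃ b, h b ≠ 0 := by
    by_contra hc
    push Not at hc
    exact hY.hne (funext hc)
  have jb0 : b0 ≠ oB := by
    rintro rfl
    exact hb0 hY.ho
  set u := p.1 with hu
  set y := p.2.1 with hy
  set z := p.2.2.1 with hz
  set v := scl oB 0 1 y with hv
  set w := scl oC 0 1 z with hw
  set α := p.2.2.2 0 with hα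
  set β := p.2.2.2 1 with hβ
  set γ := p.2.2.2 2 with hγ
  have vi : v ib = 1 := by rw [hv, t7a_scl0 _ _ jb, hs.n2]
  have wi : w ic = 1 := by rw [hw, t7a_scl0 _ _ jc, hs.n3]
  have u0 : u ≠ 0 := fun h1 => hX (by rw [h1]; rfl)
  have v0 : v ≠ 0 := fun h1 => one_ne_zero (α := ℂ) (by rw [← vi, h1]; rfl)
  have w0 : w ≠ 0 := fun h1 => one_ne_zero (α := ℂ) (by rw [← wi, h1]; rfl)
  have ok := hY.f 2 1 (by decide) (by decide) (by decide) _ _ _ _ _ _ ht u0 v0 w0
  have ru := rea_of_rl ok.ru hs.n1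
  have rv := rea_of_rl ok.rv vi
  have rw' := rea_of_rl ok.rw' wi
  obtain ⟨rα, rβ, rγ⟩ := ht.re u0 v0 w0 ru rv rw'
  have cr : ∀ {r : ℂ}, r.im = 0 ↔ starRingEnd ℂ r = r := fun {r} => Complex.conj_eq_iff_im.symm
  have hα0 : α ≠ 0 := ok.hα
  have hb0' : (h b0 : ℂ) ≠ 0 := Complex.ofReal_ne_zero.2 hb0
  -- the product `X Z` is real
  have hXZ : u oA * z oC * h b0 = β * v b0 - c2 T u w b0 := by
    rw [hv, t7a_scl0 _ _ jb0]
    linear_combination hs.e2 b0 jb0
  have cXZ : starRingEnd ℂ (u oA * z oC) = u oA * z oC := by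
    have h1 : starRingEnd ℂ (u oA * z oC * h b0) = u oA * z oC * h b0 := by
      rw [hXZ, map_sub, map_mul, cr.1 rβ, cr.1 (rv b0), cr.1 (MPb0eR.c2_re T u w ru rw' b0)]
    rw [map_mul, Complex.conj_ofReal] at h1
    exact mul_right_cancel₀ hb0' h1
  have cX : starRingEnd ℂ (u oA) = u oA := cr.1 (ru oA)
  have cZ : starRingEnd ℂ (z oC) = z oC := by
    rw [map_mul, cX] at cXZ
    exact mul_left_cancel₀ hX cXZ
  have cq : ∀ {I : Type} [Fintype I] {x : I → ℂ}, Rea x → starRingEnd ℂ (q x) = q x := by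
    intro I _ x hx
    unfold q
    rw [map_sum]
    exact Finset.sum_congr rfl fun i _ => by rw [map_pow, cr.1 (hx i)]
  have cY : starRingEnd ℂ (y oB) = y oB := by
    have h1 := congrArg (starRingEnd ℂ) hs.e5
    rw [map_mul, map_mul, map_mul, map_mul, cX, cZ, cr.1 rα, cq rv, cq rw', ← hs.e5] at h1
    have h2 := mul_right_cancel₀ hα0 h1
    have h3 := mul_right_cancel₀ hZ h2
    exact mul_left_cancel₀ hX h3
  refine ⟨?_, ?_⟩
  · refine Prod.ext ?_ (Prod.ext ?_ (Prod.ext ?_ ?_))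
    · funext a
      exact cr.1 (ru a)
    · funext b
      show starRingEnd ℂ (y b) = y b
      by_cases hb : b = oB
      · rw [hb, cY]
      · have h1 := cr.1 (rv b)
        rw [hv, t7a_scl0 _ _ hb] at h1
        exact h1
    · funext c
      show starRingEnd ℂ (z c) = z c
      by_cases hc : c = oC
      · rw [hc, cZ]
      · have h1 := cr.1 (rw' c)
        rw [hw, t7a_scl0 _ _ hc] at h1
        exact h1
    · funext i
      show starRingEnd ℂ (p.2.2.2 i) = p.2.2.2 i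
      fin_cases i
      · exact cr.1 rα
      · exact cr.1 rβ
      · exact cr.1 rγ
  · intro x hd
    have hk := kerE hd
    rw [t7a_zE] at hk
    obtain ⟨e1, e2, e3, e4, e5, n1, n2, n3⟩ := hk
    simp [t7a_scl1] at e1 e2 e3 e4 e5
    have k0 : c1 T v w oA - α * u oA = 0 := sub_eq_zero.2 (hs.e1 oA)
    have k1 : c1 T (scl oB 0 1 x.2.1) w oA + c1 T v (scl oC 0 1 x.2.2.1) oA
        = α * x.1 oA + x.2.2.2 0 * u oA := by
      have h1 := e4.2
      rw [← hu, ← hy, ← hz, ← hv, ← hw, ← hα, k0, mul_zero, neg_zero, add_zero, neg_eq_zero] at h1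
      have h2 := (mul_eq_zero.1 h1).resolve_left hX
      linear_combination h2
    have k3 : pr h (scl oB 0 1 x.2.1) = 0 := by
      have h1 := e4.1
      have h0 := e4.2
      rw [h0, zero_add, ← hu, ← hy, ← hz, ← hv, hs.e4, mul_zero, neg_zero, add_zero,
        neg_eq_zero] at h1
      exact (mul_eq_zero.1 h1).resolve_left (mul_ne_zero hX hZ)
    have hL : T7L T oA oB oC h ia ib ic u y z α β γ x.1 x.2.1 x.2.2.1 (x.2.2.2 0) (x.2.2.2 1)
        (x.2.2.2 2) := by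
      refine ⟨fun a => ?_, e2, e3, k3, e5, n1, n2, n3⟩
      by_cases ha : a = oA
      · rw [ha]
        exact k1
      · exact e1 a ha
    obtain ⟨h1, h2, h3, h4, h5, h6⟩ := t7a_ker hY.ho hb0 jb jc hs ok v0 hX hZ hL
    refine Prod.ext h1 (Prod.ext h2 (Prod.ext h3 ?_))
    funext i
    fin_cases i
    · exact h4
    · exact h5
    · exact h6

end

end Pool.Agent.MPb0eK
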