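import Mathlib
import Pool.Agent.Lib.MP_b0e20b_ag_K.WDefs
import Pool.Agent.Lib.MP_b0e20b_ag_K.TXa
import Pool.Agent.Lib.MP_b0e20b_ag_K.LocE
import Pool.Agent.Lib.MP_b0e20b_ag_K.ScE
import Pool.Agent.Lib.MP_b0e20b_ag_K.T0a
import Pool.Agent.Lib.MP_b0e20b_ag_K.T1a
import Pool.Agent.Lib.MP_b0e20b_ag_K.T2a
import Pool.Agent.Lib.MP_b0e20b_ag_K.T3a
import Pool.Agent.Lib.MP_b0e20b_ag_K.T4a
import Pool.Agent.Lib.MP_b0e20b_ag_K.T5a
import Pool.Agent.Lib.MP_b0e20b_ag_K.T6a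
import Pool.Agent.Lib.MP_b0e20b_ag_K.T7a

/-!
# MP_b0e20b_ag, project K: E types: conclusion
-/

set_option autoImplicit false

open scoped BigOperators Topology
open Filter

namespace Pool.Agent.MPb0eK

open MPb0eR (c1 c2 c3 tr q Sup Rl Rea uf Nrm cj AF scl)

section

/-- The limit of a scaled vector. -/
private theorem AsE_lim {D : Type} [Fintype D] [DecidableEq D] {o : D} {x : ℕ} {ε : ℕ → ℝ}
    {uu : ℕ → D → ℂ} {u0 : D → ℂ} {X : ℂ} (hu : Tendsto uu uf (𝓝 u0))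
    (hX : Tendsto (fun n => uu n o / (ε n : ℂ) ^ x) uf (𝓝 X)) :
    Tendsto (fun n => scl o (ε n ^ x)⁻¹ 1 (uu n)) uf (𝓝 fun a => if a = o then X else u0 a) := by
  rw [tendsto_pi_nhds]
  intro a
  by_cases ha : a = o
  · subst ha
    simp only [scl, if_true]
    refine hX.congr fun n => ?_
    push_cast
    rw [div_eq_inv_mul]
  · simp only [scl, if_neg ha, Complex.ofReal_one, one_mul]
    exact (tendsto_pi_nhds.1 hu) a

/-- The normalised coordinate. -/
private theorem AsE_idx {D : Type} [Fintype D] {o i : D} {x : ℕ} {ε : ℕ → ℝ} {uu : ℕ → D → ℂ}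
    {X : ℂ} (hε : Tendsto ε uf (𝓝 0)) (pos : ∀ n, 0 < ε n) (hn : ∀ n, Nrm (uu n) i)
    (hX : Tendsto (fun n => uu n o / (ε n : ℂ) ^ x) uf (𝓝 X)) (hi : i = o) : x = 0 := by
  subst hi
  by_contra hx
  have h1 : Tendsto (fun n => ((ε n : ℂ)) ^ x) uf (𝓝 0) := by
    have h2 : Tendsto (fun n => ((ε n : ℝ) : ℂ)) uf (𝓝 ((0 : ℝ) : ℂ)) :=
      (Complex.continuous_ofReal.tendsto 0).comp hε
    have h3 := h2.pow x
    rwa [Complex.ofReal_zero, zero_pow hx] at h3
  have h4 := hX.mul h1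
  rw [mul_zero] at h4
  have h5 : (fun n => uu n i / (ε n : ℂ) ^ x * (ε n : ℂ) ^ x) = fun _ => (1 : ℂ) := by
    funext n
    have h6 : (ε n : ℂ) ≠ 0 := Complex.ofReal_ne_zero.2 (pos n).ne'
    rw [div_mul_cancel₀ _ (pow_ne_zero _ h6)]
    exact (hn n).1
  rw [h5] at h4
  exact one_ne_zero (tendsto_nhds_unique tendsto_const_nhds h4)

private theorem AsE_rea {D : Type} [Fintype D] [DecidableEq D] {o : D} {e : ℝ} (he : e ≠ 0)
    {u : D → ℂ} (h : cj (scl o e 1 u) = scl o e 1 u) : Rea u := by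
  intro a
  have h1 := congrFun h a
  simp only [cj, scl, map_mul, Complex.conj_ofReal] at h1
  have h2 : ((if a = o then e else 1 : ℝ) : ℂ) ≠ 0 := by
    rw [Complex.ofReal_ne_zero]
    split_ifs
    · exact he
    · exact one_ne_zero
  exact Complex.conj_eq_iff_im.1 (mul_left_cancel₀ h2 h1)

private theorem AsE_cont (k : Fin 8) : Continuous (zE k) := by
  refine continuous_pi fun i => ?_
  unfold zE
  fin_cases k <;> fin_cases i <;> simp <;> fun_prop

variable {A B C : Type} [Fintype A] [Fintype B] [Fintype C] [DecidableEq A] [DecidableEq B]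
  [DecidableEq C] {oA : A} {oB : B} {oC : C}
  {h : B → ℝ} {h' : C → ℝ}

variable {T : ℕ → A → B → C → ℝ} {T0 : A → B → C → ℝ} {ε : ℕ → ℝ} {ia : A} {ib : B} {ic : C}
  {u : ℕ → A → ℂ} {v : ℕ → B → ℂ} {w : ℕ → C → ℂ} {α β γ N N' : ℕ → ℂ}

/-- All types together. -/
private theorem AsE_all {T : A → B → C → ℝ} (hY : HY3 T oA oB oC h h') (k : Fin 8)
    (ja : ia = oA → xE k 0 = 0) (jb : ib = oB → xE k 1 = 0) (jc : ic = oC → xE k 2 = 0)
    {p : PK A B C} (hp : locE oA oB oC h h' ia ib ic (T, zE k 0) p = 0) (hX : p.1 oA ≠ 0)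
    (hY' : p.2.1 oB ≠ 0) (hZ : p.2.2.1 oC ≠ 0) :
    cjK p = p ∧ ∀ x, HasDerivAt (fun t : ℝ => locE oA oB oC h h' ia ib ic (T, zE k 0) (p + t • x))
      0 0 → x = 0 := by
  fin_cases k
  · exact t0a hY (fun e => by simpa [xE] using ja e) hp hX hY' hZ
  · exact t1a hY (fun e => by simpa [xE] using ja e) (fun e => by simpa [xE] using jb e)
      hp hX hY' hZ
  · exact t2a hY (fun e => by simpa [xE] using ja e) (fun e => by simpa [xE] using jb e)
      hp hX hY' hZ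
  · exact t3a hY (fun e => by simpa [xE] using ja e) (fun e => by simpa [xE] using jb e)
      (fun e => by simpa [xE] using jc e) hp hX hY' hZ
  · exact t4a hY (fun e => by simpa [xE] using ja e) (fun e => by simpa [xE] using jb e)
      (fun e => by simpa [xE] using jc e) hp hX hY' hZ
  · exact t5a hY (fun e => by simpa [xE] using ja e) (fun e => by simpa [xE] using jb e)
      (fun e => by simpa [xE] using jc e) hp hX hY' hZ
  · exact t6a hY (fun e => by simpa [xE] using jb e)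
      (fun e => by simpa [xE] using jc e) hp hX hY' hZ
  · exact t7a hY (fun e => by simpa [xE] using jb e)
      (fun e => by simpa [xE] using jc e) hp hX hY' hZ

/-- The solutions of type `k` are real.

Proof. `p n` = the scaled point of `scE`; it tends to `p0` = (`scl`-like limits: the coordinates off
`oA, oB, oC` of `u0, v0, w0`, and `X, Y, Z`), `![α0, β0, γ0]`. `zE k (ε n) → zE k 0` (continuous),
`locE ... (T0, zE k 0) p0 = 0` by continuity (`locE_contDiff`). The lemmas `t0a, ..., t7a` give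
`cjK p0 = p0` and the trivial kernel (`ja` and so on: if `xE k 0 ≠ 0` then `ia ≠ oA`), and
`locE_rig`
gives `cjK (p n) = p n`, so `u n, v n, w n` are real (`ε n > 0`). -/
theorem asE {u0 : A → ℂ} {v0 : B → ℂ} {w0 : C → ℂ} {α0 β0 γ0 N0 N0' : ℂ} (hY : HY3 T0 oA oB oC h h')
    (hS : SqH T T0 oA oB oC h h' ε ia ib ic u v w α β γ N N')
    (hL : LmH u v w α β γ N N' u0 v0 w0 α0 β0 γ0 N0 N0')
    (k : Fin 8) (hs : Sc oA oB oC ε u v w (xE k)) :
    ∀ᶠ n in uf, Rea (u n) ∧ Rea (v n) ∧ Rea (w n) := by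
  obtain ⟨X, Y, Z, hX0, hY0, hZ0, hX, hYt, hZ⟩ := hs
  have ja : ia = oA → xE k 0 = 0 := AsE_idx hS.hε hS.pos hS.nu hX
  have jb : ib = oB → xE k 1 = 0 := AsE_idx hS.hε hS.pos hS.nv hYt
  have jc : ic = oC → xE k 2 = 0 := AsE_idx hS.hε hS.pos hS.nw hZ
  have hz : Tendsto (fun n => (T n, zE k (ε n))) uf (𝓝 (T0, zE k 0)) :=
    hS.hT.prodMk_nhds (((AsE_cont k).tendsto 0).comp hS.hε)
  have hm : Tendsto (fun n => ![α n, β n, γ n]) uf (𝓝 ![α0, β0, γ0]) := by
    rw [tendsto_pi_nhds]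
    intro i
    fin_cases i
    · exact hL.hα
    · exact hL.hβ
    · exact hL.hγ
  have hp : Tendsto (fun n => ((scl oA (ε n ^ xE k 0)⁻¹ 1 (u n), scl oB (ε n ^ xE k 1)⁻¹ 1 (v n),
      scl oC (ε n ^ xE k 2)⁻¹ 1 (w n), ![α n, β n, γ n]) : PK A B C)) uf
      (𝓝 ((fun a => if a = oA then X else u0 a, fun b => if b = oB then Y else v0 b,
        fun c => if c = oC then Z else w0 c, ![α0, β0, γ0]) : PK A B C)) :=
    (AsE_lim hL.hu hX).prodMk_nhds ((AsE_lim hL.hv hYt).prodMk_nhds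
      ((AsE_lim hL.hw hZ).prodMk_nhds hm))
  have h0 : ∀ n, locE oA oB oC h h' ia ib ic (T n, zE k (ε n))
      (scl oA (ε n ^ xE k 0)⁻¹ 1 (u n), scl oB (ε n ^ xE k 1)⁻¹ 1 (v n),
      scl oC (ε n ^ xE k 2)⁻¹ 1 (w n), ![α n, β n, γ n]) = 0 := fun n =>
    scE hY.ho hY.ho' (hS.pos n) (hS.sol n) k (hS.nu n).1 (hS.nv n).1 (hS.nw n).1 ja jb jc
  have hlim : locE oA oB oC h h' ia ib ic (T0, zE k 0)
      ((fun a => if a = oA then X else u0 a, fun b => if b = oB then Y else v0 b,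
        fun c => if c = oC then Z else w0 c, ![α0, β0, γ0]) : PK A B C) = 0 := by
    have h1 := ((locE_contDiff oA oB oC h h' ia ib ic).continuous.tendsto _).comp
      (hz.prodMk_nhds hp)
    refine tendsto_nhds_unique h1 ?_
    refine tendsto_const_nhds.congr fun n => ?_
    exact (h0 n).symm
  obtain ⟨hr, hk⟩ := AsE_all hY k ja jb jc hlim (by simpa using hX0) (by simpa using hY0)
    (by simpa using hZ0)
  filter_upwards [locE_rig oA oB oC h h' ia ib ic hz hp h0 hr hk] with n hn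
  have he : ∀ x : ℕ, (ε n ^ x)⁻¹ ≠ 0 := fun x => inv_ne_zero (pow_ne_zero _ (hS.pos n).ne')
  have h1 := congrArg (fun p : PK A B C => p.1) hn
  have h2 := congrArg (fun p : PK A B C => p.2.1) hn
  have h3 := congrArg (fun p : PK A B C => p.2.2.1) hn
  exact ⟨AsE_rea (he _) h1, AsE_rea (he _) h2, AsE_rea (he _) h3⟩

end

end Pool.Agent.MPb0eK
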