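import Mathlib
import Pool.Agent.Lib.MP_b0e20b_ag_K.WDefs
import Pool.Agent.Lib.MP_b0e20b_ag_K.TXa
import Pool.Agent.Lib.MP_b0e20b_ag_K.Ids
import Pool.Agent.Lib.MP_b0e20b_ag_K.Cls2
import Pool.Agent.Lib.MP_b0e20b_ag_R.Cpt

/-!
# MP_b0e20b_ag, project K: classification: the cases
-/

set_option autoImplicit false

open scoped BigOperators Topology
open Filter

namespace Pool.Agent.MPb0eK

open MPb0eR (c1 c2 c3 tr q Sup Rl Rea uf Nrm cj AF scl)

section

variable {A B C : Type} [Fintype A] [Fintype B] [Fintype C] [DecidableEq A] [DecidableEq B]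
  [DecidableEq C] {oA : A} {oB : B} {oC : C}
  {h : B → ℝ} {h' : C → ℝ}

variable {T : ℕ → A → B → C → ℝ} {T0 : A → B → C → ℝ} {ε : ℕ → ℝ} {ia : A} {ib : B} {ic : C}
  {u : ℕ → A → ℂ} {v : ℕ → B → ℂ} {w : ℕ → C → ℂ} {α β γ N N' : ℕ → ℂ}

private theorem Cls3_dt {ι : Type} [Fintype ι] [DecidableEq ι] (o : ι) (x c z : ι → ℂ)
    (f : ι → ℝ) (m n : ℂ) (hf : f o = 0) (he : ∀ i, i ≠ o → c i + n * f i = m * x i) :
    dt c z = m * dt x z - n * pr f z + (c o - m * x o) * z o := by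
  have e : ∀ i ∈ Finset.univ.erase o, c i * z i = m * (x i * z i) - n * ((f i : ℂ) * z i) := by
    intro i hi
    have := he i (Finset.ne_of_mem_erase hi)
    linear_combination z i * this
  have e0 : dt c z = c o * z o + ∑ i ∈ Finset.univ.erase o, c i * z i := by
    rw [dt, Finset.add_sum_erase _ (fun i => c i * z i) (Finset.mem_univ o)]
  have e1 : ∑ i ∈ Finset.univ.erase o, c i * z i
      = m * (∑ i ∈ Finset.univ.erase o, x i * z i)
        - n * ∑ i ∈ Finset.univ.erase o, (f i : ℂ) * z i := by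
    rw [Finset.sum_congr rfl e, Finset.sum_sub_distrib, Finset.mul_sum, Finset.mul_sum]
  have e2 : dt x z = x o * z o + ∑ i ∈ Finset.univ.erase o, x i * z i := by
    rw [dt, Finset.add_sum_erase _ (fun i => x i * z i) (Finset.mem_univ o)]
  have e3 : pr f z = (f o : ℂ) * z o + ∑ i ∈ Finset.univ.erase o, (f i : ℂ) * z i := by
    rw [pr, Finset.add_sum_erase _ (fun i => (f i : ℂ) * z i) (Finset.mem_univ o)]
  rw [e0, e1, e2, e3, hf]
  push_cast
  ring

private theorem Cls3_eps {ε : ℕ → ℝ} (h : Tendsto ε uf (𝓝 0)) {k : ℕ} (hk : k ≠ 0) :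
    Tendsto (fun n => (ε n : ℂ) ^ k) uf (𝓝 0) := by
  have h1 : Tendsto (fun n => (ε n : ℂ)) uf (𝓝 ((0 : ℝ) : ℂ)) :=
    (Complex.continuous_ofReal.tendsto 0).comp h
  have h2 := h1.pow k
  simpa [hk] using h2

/-- The identities for the limits.

Proof. Limits of `HS.pi`, `HS.rr`, `HS.np`, `HS.st` with `l = ε ^ 10`, `O = ε ^ (-4)`:
`O ^ 2 l → 0`, `O l → 0`; `u_o w_o = ε ^ 4 N → 0`, `u_o v_o = ε ^ 4 N' → 0`. -/
theorem cls_lim (hY : HY3 T0 oA oB oC h h')
    (hS : SqH T T0 oA oB oC h h' ε ia ib ic u v w α β γ N N')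
    {u0 : A → ℂ} {v0 : B → ℂ} {w0 : C → ℂ} {α0 β0 γ0 N0 N0' : ℂ}
    (hL : LmH u v w α β γ N N' u0 v0 w0 α0 β0 γ0 N0 N0') :
    α0 * q u0 = β0 * q v0 ∧ α0 * q u0 = γ0 * q w0 ∧ u0 oA * w0 oC = 0 ∧ u0 oA * v0 oB = 0 ∧
    N0' * w0 oC = N0 * v0 oB ∧ N0 * N0' * (α0 * q u0) = 0 ∧ N0 * v0 oB * (α0 * q u0) = 0 ∧
    u0 oA * (c1 T0 v0 w0 oA - α0 * u0 oA)
      = v0 oB * (c2 T0 u0 w0 oB - β0 * v0 oB) - N0 * pr h v0 ∧
    u0 oA * (c1 T0 v0 w0 oA - α0 * u0 oA)
      = w0 oC * (c3 T0 u0 v0 oC - γ0 * w0 oC) - N0' * pr h' w0 := by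
  have qu := MPb0eR.lim_q hL.hu
  have qv := MPb0eR.lim_q hL.hv
  have qw := MPb0eR.lim_q hL.hw
  have xo := tendsto_pi_nhds.1 hL.hu oA
  have yo := tendsto_pi_nhds.1 hL.hv oB
  have zo := tendsto_pi_nhds.1 hL.hw oC
  have t1 : Tendsto (fun n => c1 (T n) (v n) (w n) oA) uf (𝓝 (c1 T0 v0 w0 oA)) :=
    tendsto_pi_nhds.1 ((MPb0eR.continuous_c1T.tendsto (T0, v0, w0)).comp
      (hS.hT.prodMk_nhds (hL.hv.prodMk_nhds hL.hw))) oA
  have t2 : Tendsto (fun n => c2 (T n) (u n) (w n) oB) uf (𝓝 (c2 T0 u0 w0 oB)) :=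
    tendsto_pi_nhds.1 ((MPb0eR.continuous_c2T.tendsto (T0, u0, w0)).comp
      (hS.hT.prodMk_nhds (hL.hu.prodMk_nhds hL.hw))) oB
  have t3 : Tendsto (fun n => c3 (T n) (u n) (v n) oC) uf (𝓝 (c3 T0 u0 v0 oC)) :=
    tendsto_pi_nhds.1 ((MPb0eR.continuous_c3T.tendsto (T0, u0, v0)).comp
      (hS.hT.prodMk_nhds (hL.hu.prodMk_nhds hL.hv))) oC
  have p2 : Tendsto (fun n => pr h (v n)) uf (𝓝 (pr h v0)) :=
    ((continuous_pr h).tendsto v0).comp hL.hv
  have p3 : Tendsto (fun n => pr h' (w n)) uf (𝓝 (pr h' w0)) :=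
    ((continuous_pr h').tendsto w0).comp hL.hw
  have hε : ∀ n, (ε n : ℂ) ≠ 0 := fun n => Complex.ofReal_ne_zero.2 (hS.pos n).ne'
  have hpi : Tendsto (fun n => α n * q (u n)) uf (𝓝 (α0 * q u0)) := hL.hα.mul qu
  have s1 : Tendsto (fun n => u n oA * (c1 (T n) (v n) (w n) oA - α n * u n oA)) uf
      (𝓝 (u0 oA * (c1 T0 v0 w0 oA - α0 * u0 oA))) := xo.mul (t1.sub (hL.hα.mul xo))
  refine ⟨?_, ?_, ?_, ?_, ?_, ?_, ?_, ?_, ?_⟩
  · refine tendsto_nhds_unique hpi ?_
    simp only [fun n => (hS.sol n).pi.1]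
    exact hL.hβ.mul qv
  · refine tendsto_nhds_unique hpi ?_
    simp only [fun n => (hS.sol n).pi.2]
    exact hL.hγ.mul qw
  · have e : ∀ n, u n oA * w n oC = (ε n : ℂ) ^ 4 * N n := by
      intro n
      rw [(hS.sol n).eN]
      push_cast
      field_simp [hε n]
    refine tendsto_nhds_unique (xo.mul zo) ?_
    simp only [e]
    simpa using (Cls3_eps hS.hε (k := 4) (by norm_num)).mul hL.hN
  · have e : ∀ n, u n oA * v n oB = (ε n : ℂ) ^ 4 * N' n := by
      intro n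
      rw [(hS.sol n).eN']
      push_cast
      field_simp [hε n]
    refine tendsto_nhds_unique (xo.mul yo) ?_
    simp only [e]
    simpa using (Cls3_eps hS.hε (k := 4) (by norm_num)).mul hL.hN'
  · refine tendsto_nhds_unique (hL.hN'.mul zo) ?_
    simp only [fun n => (hS.sol n).rr.1]
    exact hL.hN.mul yo
  · have e : ∀ n, N n * N' n * (α n * q (u n))
        = (ε n : ℂ) ^ 2 * (u n oA * (q (u n) * q (v n) * q (w n))) := by
      intro n
      rw [(hS.sol n).np.2.1]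
      push_cast
      field_simp [hε n]
    refine tendsto_nhds_unique ((hL.hN.mul hL.hN').mul hpi) ?_
    simp only [e]
    simpa using (Cls3_eps hS.hε (k := 2) (by norm_num)).mul (xo.mul ((qu.mul qv).mul qw))
  · have e : ∀ n, N n * v n oB * (α n * q (u n))
        = (ε n : ℂ) ^ 6 * (q (u n) * q (v n) * q (w n)) := by
      intro n
      rw [(hS.sol n).np.1]
      push_cast
      field_simp [hε n]
    refine tendsto_nhds_unique ((hL.hN.mul yo).mul hpi) ?_
    simp only [e]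
    simpa using (Cls3_eps hS.hε (k := 6) (by norm_num)).mul ((qu.mul qv).mul qw)
  · refine tendsto_nhds_unique s1 ?_
    simp only [fun n => (HS.st hY.ho hY.ho' (hS.sol n)).1]
    exact (yo.mul (t2.sub (hL.hβ.mul yo))).sub (hL.hN.mul p2)
  · refine tendsto_nhds_unique s1 ?_
    simp only [fun n => (HS.st hY.ho hY.ho' (hS.sol n)).2]
    exact (zo.mul (t3.sub (hL.hγ.mul zo))).sub (hL.hN'.mul p3)

/-- If `N0` and `N0'` are not zero, the limit is of type D.

Proof. `N0' w_o = N0 v_o`, so `v_o = 0` iff `w_o = 0` (limits).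
(a) `u_o = 0`, `v_o ≠ 0`, `w_o ≠ 0`: `u_o / ε ^ 4 = N / w_o` converges to a nonzero number,
`α = ε ^ 10 q v q w / (u_o v_o w_o) → 0` and so on, so `LE` gives `D0`.
(b) `u_o ≠ 0`: then `v_o = w_o = 0` (`u_o w_o = 0`, `u_o v_o = 0`), `w_o / ε ^ 4 = N / u_o`,
`v_o / ε ^ 4 = N' / u_o` converge to nonzero numbers, and the multipliers tend to zero: `D1`.
(c) `u_o = v_o = w_o = 0`: the trace identities give `h (v) = 0`, `h' (w) = 0`, so the limit is a
tuple for the masks `(univ.erase oA; 2; 2)`, so `α0 q u0 ≠ 0` (`hY.f'`, `q_ne`), contradiction to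
`N0 N0' (α0 q u0) = 0`. -/
theorem cls_D (hY : HY3 T0 oA oB oC h h')
    (hS : SqH T T0 oA oB oC h h' ε ia ib ic u v w α β γ N N')
    {u0 : A → ℂ} {v0 : B → ℂ} {w0 : C → ℂ} {α0 β0 γ0 N0 N0' : ℂ}
    (hL : LmH u v w α β γ N N' u0 v0 w0 α0 β0 γ0 N0 N0')
    (hE : LE T0 oA oB oC h h' u0 v0 w0 α0 β0 γ0 N0 N0') (h1 : N0 ≠ 0) (h2 : N0' ≠ 0) :
    (u0 oA = 0 ∧ v0 oB ≠ 0 ∧ w0 oC ≠ 0) ∨ (u0 oA ≠ 0 ∧ v0 oB = 0 ∧ w0 oC = 0) := by
  obtain ⟨-, -, i3, i4, i5, i6, -, i8, i9⟩ := cls_lim hY hS hL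
  by_cases hu : u0 oA = 0
  · by_cases hv : v0 oB = 0
    · exfalso
      have hw : w0 oC = 0 := by
        rw [hv, mul_zero] at i5
        exact (mul_eq_zero.1 i5).resolve_left h2
      have hp : pr h v0 = 0 := by
        rw [hu, hv, zero_mul, zero_mul, zero_sub, eq_comm, neg_eq_zero] at i8
        exact (mul_eq_zero.1 i8).resolve_left h1
      have hp' : pr h' w0 = 0 := by
        rw [hu, hw, zero_mul, zero_mul, zero_sub, eq_comm, neg_eq_zero] at i9
        exact (mul_eq_zero.1 i9).resolve_left h2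
      have ht : TX T0 (Finset.univ.erase oA) (XM oB h 2) (XM oC h' 2) u0 v0 w0 α0 β0 γ0 := by
        refine ⟨?_, ?_, ?_, ?_, ?_, ?_⟩
        · intro a ha
          have : a = oA := by
            by_contra hne
            exact ha (Finset.mem_erase.2 ⟨hne, Finset.mem_univ a⟩)
          rw [this, hu]
        · exact mem_XM.2 ⟨fun _ => hv, fun _ => hp⟩
        · exact mem_XM.2 ⟨fun _ => hw, fun _ => hp'⟩
        · intro a ha
          exact hE.e1 a (Finset.ne_of_mem_erase ha)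
        · intro z hz
          obtain ⟨z1, z2⟩ := mem_XM.1 hz
          rw [Cls3_dt oB v0 (c2 T0 u0 w0) z h β0 N0 hY.ho hE.e2, z1 (by decide), z2 rfl]
          ring
        · intro z hz
          obtain ⟨z1, z2⟩ := mem_XM.1 hz
          rw [Cls3_dt oC w0 (c3 T0 u0 v0) z h' γ0 N0' hY.ho' hE.e3, z1 (by decide), z2 rfl]
          ring
      have ok := hY.f' 2 2 u0 v0 w0 α0 β0 γ0 ht hE.hu hE.hv hE.hw
      exact mul_ne_zero (mul_ne_zero h1 h2) (mul_ne_zero ok.hα (q_ne ok.ru hE.hu)) i6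
    · left
      refine ⟨hu, hv, fun hw => ?_⟩
      rw [hw, mul_zero] at i5
      exact mul_ne_zero h1 hv i5.symm
  · right
    exact ⟨hu, (mul_eq_zero.1 i4).resolve_left hu, (mul_eq_zero.1 i3).resolve_left hu⟩

/-- If `N0 = 0` or `N0' = 0`, the limit is a singular tuple of one of the masks.

Proof. `f` is true iff `u_o ≠ 0`; then `v_o = w_o = 0`. Second factor: if `v_o ≠ 0` then `u_o = 0`,
`x = 0` and `N0 = 0` (if `N0 ≠ 0`, then `N0' = 0` and `N0 v_o = N0' w_o = 0`), and the trace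
identity
gives `τB = β v_o`. If `v_o = 0` and `N0 = 0`: `x = 1`. If `v_o = 0` and `N0 ≠ 0`: `x = 2`; `N0' =
0`, so
`w_o (τC - γ w_o) = u_o (τA - α u_o) = - N0 h (v)`; if `u_o = 0` this gives `h (v) = 0`; if
`u_o ≠ 0` then `w_o = 0` and again `h (v) = 0`. Third factor: the same. First factor: if `u_o ≠ 0`
then
`v_o = w_o = 0` and the trace identities with `N0 = 0` or `N0' = 0` give `τA = α u_o`. `TX`: for
`z ∈ XM oB h x`: `dt (c2) z = β dt v z` from `e2` (and `τB = β v_o` if `x = 0`; if `x = 2` the term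
`N0 pr h z` vanishes, if `x = 1` then `N0 = 0`; if `x ≠ 0` then `z oB = 0`). -/
theorem cls_E (hY : HY3 T0 oA oB oC h h')
    (hS : SqH T T0 oA oB oC h h' ε ia ib ic u v w α β γ N N')
    {u0 : A → ℂ} {v0 : B → ℂ} {w0 : C → ℂ} {α0 β0 γ0 N0 N0' : ℂ}
    (hL : LmH u v w α β γ N N' u0 v0 w0 α0 β0 γ0 N0 N0')
    (hE : LE T0 oA oB oC h h' u0 v0 w0 α0 β0 γ0 N0 N0') (h1 : N0 = 0 ∨ N0' = 0) :
    ∃ (f : Bool) (x y : Fin 3), CE T0 oA oB oC h h' u0 v0 w0 α0 β0 γ0 N0 N0' f x y := by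
  classical
  obtain ⟨-, -, i3, i4, i5, -, -, i8, i9⟩ := cls_lim hY hS hL
  have kv : v0 oB ≠ 0 → N0 = 0 := by
    intro hv
    rcases h1 with h1 | h1
    · exact h1
    · rw [h1, zero_mul, eq_comm] at i5
      exact (mul_eq_zero.1 i5).resolve_right hv
  have kw : w0 oC ≠ 0 → N0' = 0 := by
    intro hw
    rcases h1 with h1 | h1
    · rw [h1, zero_mul] at i5
      exact (mul_eq_zero.1 i5).resolve_right hw
    · exact h1
  have kuv : u0 oA ≠ 0 → v0 oB = 0 := fun hu => (mul_eq_zero.1 i4).resolve_left hu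
  have kuw : u0 oA ≠ 0 → w0 oC = 0 := fun hu => (mul_eq_zero.1 i3).resolve_left hu
  -- the trace identities
  have m1 : u0 oA * (c1 T0 v0 w0 oA - α0 * u0 oA) = 0 := by
    by_cases hu : u0 oA = 0
    · rw [hu, zero_mul]
    · rcases h1 with h1 | h1
      · rw [i8, kuv hu, h1]
        ring
      · rw [i9, kuw hu, h1]
        ring
  have m2 : v0 oB * (c2 T0 u0 w0 oB - β0 * v0 oB) = N0 * pr h v0 := by
    linear_combination m1 - i8
  have m3 : w0 oC * (c3 T0 u0 v0 oC - γ0 * w0 oC) = N0' * pr h' w0 := by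
    linear_combination m1 - i9
  obtain ⟨x, hx⟩ : ∃ x : Fin 3, (x = 0 ↔ v0 oB ≠ 0) ∧ (x = 2 ↔ N0 ≠ 0) := by
    by_cases hv : v0 oB = 0
    · by_cases hN : N0 = 0
      · exact ⟨1, by simp [hv], by simp [hN]⟩
      · exact ⟨2, by simp [hv], by simp [hN]⟩
    · exact ⟨0, by simp [hv], by simp [kv hv]⟩
  obtain ⟨y, hy⟩ : ∃ y : Fin 3, (y = 0 ↔ w0 oC ≠ 0) ∧ (y = 2 ↔ N0' ≠ 0) := by
    by_cases hw : w0 oC = 0
    · by_cases hN : N0' = 0
      · exact ⟨1, by simp [hw], by simp [hN]⟩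
      · exact ⟨2, by simp [hw], by simp [hN]⟩
    · exact ⟨0, by simp [hw], by simp [kw hw]⟩
  have vz : x ≠ 0 → v0 oB = 0 := fun h0 => by
    by_contra hv
    exact h0 (hx.1.2 hv)
  have wz : y ≠ 0 → w0 oC = 0 := fun h0 => by
    by_contra hw
    exact h0 (hy.1.2 hw)
  refine ⟨decide (u0 oA ≠ 0), x, y, hE, ?_, by simp, hx.1, hy.1, hx.2, hy.2, ?_, ?_⟩
  · refine ⟨?_, ?_, ?_, ?_, ?_, ?_⟩
    · intro a ha
      by_cases hu : u0 oA = 0
      · have : a = oA := by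
          by_contra hne
          refine ha ?_
          simp [hu, hne]
        rw [this, hu]
      · exfalso
        apply ha
        simp [hu]
    · refine mem_XM.2 ⟨vz, fun h0 => ?_⟩
      have hN := hx.2.1 h0
      have hv : v0 oB = 0 := vz (by rw [h0]; decide)
      rw [hv, zero_mul, eq_comm] at m2
      exact (mul_eq_zero.1 m2).resolve_left hN
    · refine mem_XM.2 ⟨wz, fun h0 => ?_⟩
      have hN := hy.2.1 h0
      have hw : w0 oC = 0 := wz (by rw [h0]; decide)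
      rw [hw, zero_mul, eq_comm] at m3
      exact (mul_eq_zero.1 m3).resolve_left hN
    · intro a ha
      by_cases hne : a = oA
      · have hu : u0 oA ≠ 0 := by
          intro hu
          rw [hne] at ha
          simp [hu] at ha
        rw [hne]
        exact sub_eq_zero.1 ((mul_eq_zero.1 m1).resolve_left hu)
      · exact hE.e1 a hne
    · intro z hz
      obtain ⟨z1, z2⟩ := mem_XM.1 hz
      rw [Cls3_dt oB v0 (c2 T0 u0 w0) z h β0 N0 hY.ho hE.e2]
      have a1 : N0 * pr h z = 0 := by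
        by_cases h0 : x = 2
        · rw [z2 h0, mul_zero]
        · have : N0 = 0 := by
            by_contra hN
            exact h0 (hx.2.2 hN)
          rw [this, zero_mul]
      have a2 : (c2 T0 u0 w0 oB - β0 * v0 oB) * z oB = 0 := by
        by_cases h0 : x = 0
        · have hv := hx.1.1 h0
          rw [kv hv, zero_mul] at m2
          rw [(mul_eq_zero.1 m2).resolve_left hv, zero_mul]
        · rw [z1 h0, mul_zero]
      linear_combination a2 - a1
    · intro z hz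
      obtain ⟨z1, z2⟩ := mem_XM.1 hz
      rw [Cls3_dt oC w0 (c3 T0 u0 v0) z h' γ0 N0' hY.ho' hE.e3]
      have a1 : N0' * pr h' z = 0 := by
        by_cases h0 : y = 2
        · rw [z2 h0, mul_zero]
        · have : N0' = 0 := by
            by_contra hN
            exact h0 (hy.2.2 hN)
          rw [this, zero_mul]
      have a2 : (c3 T0 u0 v0 oC - γ0 * w0 oC) * z oC = 0 := by
        by_cases h0 : y = 0
        · have hw := hy.1.1 h0
          rw [kw hw, zero_mul] at m3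
          rw [(mul_eq_zero.1 m3).resolve_left hw, zero_mul]
        · rw [z1 h0, mul_zero]
      linear_combination a2 - a1
  · rintro ⟨hx2, hy2⟩
    rcases h1 with h1 | h1
    · exact hx.2.1 hx2 h1
    · exact hy.2.1 hy2 h1
  · intro hf
    have hu : u0 oA ≠ 0 := by simpa using hf
    exact ⟨fun h0 => hx.1.1 h0 (kuv hu), fun h0 => hy.1.1 h0 (kuw hu)⟩

end

end Pool.Agent.MPb0eK
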