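import Mathlib
import Pool.Agent.Lib.MP_b0e20b_ag_K.Defs

/-!
# MP_b0e20b_ag, project K, level T: definitions

The polynomial model. `B = Fin (n + 1)`, `oB = 0`. A vector `v` is identified with the polynomial
`V(t) = v 0 (ρ + ξ ∑ j, (gh t) ^ j) + ∑ j ≥ 1, v j t ^ j`. `tau P n g l` is the Taylor coefficient
of
`V` of order `l` at the point `g`, `hv P n` is `v ↦ V(gh)` on the vectors with `v 0 = 0`.
`Xo P n x i`: the vectors in the mask `x` (`V(0) = 0`, `V(gh) = 0`) such that `V` vanishes to order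
`i p` at the node `P.g p`. A row is `R ∑ l, δ ^ l tau g l ⊗ tau g l`. `T` has the rows `0, ..., N`.
`PE T full p`: all singular tuples for the rows `< p` (with or without row `0`) and all masks and
orders at the nodes `≥ p` are real, nondegenerate and satisfy the sign conditions `Ob`.
`PD`: the same for the types D0, D1.
-/

set_option autoImplicit false

open scoped BigOperators Topology
open Filter

namespace Pool.Agent.MPb0eK

open MPb0eR (c1 c2 c3 tr q Sup Rl Rea uf Nrm cj AF scl)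

/-- The parameters of the polynomial model. -/
structure Par where
  ρ : ℝ
  ξ : ℝ
  gh : ℝ
  g : ℕ → ℝ

/-- The Taylor coefficient of order `l` at `g`, as a real vector. -/
noncomputable def tau (P : Par) (n : ℕ) (g : ℝ) (l : ℕ) : Fin (n + 1) → ℝ := fun j =>
  if (j : ℕ) = 0 then P.ρ * (if l = 0 then 1 else 0)
    + P.ξ * ∑ k ∈ Finset.Icc 1 n, P.gh ^ k * ((k.choose l : ℝ) * g ^ (k - l))
  else (((j : ℕ).choose l : ℕ) : ℝ) * g ^ ((j : ℕ) - l)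

/-- The linear form of the window. -/
noncomputable def hv (P : Par) (n : ℕ) : Fin (n + 1) → ℝ :=
  fun j => if (j : ℕ) = 0 then 0 else P.gh ^ (j : ℕ)

/-- The polynomials with prescribed orders at the nodes. -/
def Xo (P : Par) (n : ℕ) (x : Fin 3) (i : ℕ → ℕ) : Submodule ℂ (Fin (n + 1) → ℂ) where
  carrier := {v | v ∈ XM 0 (hv P n) x ∧ ∀ p l, l < i p → pr (tau P n (P.g p) l) v = 0}
  add_mem' := by
    rintro a b ⟨h1, h2⟩ ⟨h3, h4⟩
    refine ⟨add_mem h1 h3, fun p l hl => ?_⟩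
    have e : pr (tau P n (P.g p) l) (a + b) = pr (tau P n (P.g p) l) a
        + pr (tau P n (P.g p) l) b := by
      simp only [pr, Pi.add_apply, mul_add, Finset.sum_add_distrib]
    rw [e, h2 p l hl, h4 p l hl, add_zero]
  zero_mem' := ⟨zero_mem _, fun p l _ => by simp [pr]⟩
  smul_mem' := by
    rintro c a ⟨h1, h2⟩
    refine ⟨Submodule.smul_mem _ c h1, fun p l hl => ?_⟩
    have e : pr (tau P n (P.g p) l) (c • a) = c * pr (tau P n (P.g p) l) a := by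
      simp only [pr, Pi.smul_apply, smul_eq_mul, Finset.mul_sum]
      exact Finset.sum_congr rfl fun b _ => by ring
    rw [e, h2 p l hl, mul_zero]

/-- One order less at the node `p`. -/
def dn (i : ℕ → ℕ) (p : ℕ) : ℕ → ℕ := Function.update i p (i p - 1)

/-- Order `k` at the node `p`. -/
def at' (i : ℕ → ℕ) (p k : ℕ) : ℕ → ℕ := Function.update i p k

/-- The orders are concentrated in the nodes `p0, ..., N`. -/
def Adm (p0 N : ℕ) (i : ℕ → ℕ) : Prop := ∀ p, i p ≠ 0 → p0 ≤ p ∧ p ≤ N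

/-- The row with the coefficients `R δ ^ l`. -/
noncomputable def row (P : Par) (n2 n3 : ℕ) (g R δ : ℝ) : Fin (n2 + 1) → Fin (n3 + 1) → ℝ :=
  fun b c => R * ∑ l ∈ Finset.range (min n2 n3 + 1), δ ^ l * (tau P n2 g l b * tau P n3 g l c)

/-- The value of a bilinear form. -/
def bf {B C : Type} [Fintype B] [Fintype C] (F : B → C → ℝ) (v : B → ℂ) (w : C → ℂ) : ℂ :=
  ∑ b, ∑ c, (F b c : ℂ) * (v b * w c)

/-- The contraction of a bilinear form with `w`. -/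
def bfB {B C : Type} [Fintype C] (F : B → C → ℝ) (w : C → ℂ) : B → ℂ :=
  fun b => ∑ c, (F b c : ℂ) * w c

/-- The contraction of a bilinear form with `v`. -/
def bfC {B C : Type} [Fintype B] (F : B → C → ℝ) (v : B → ℂ) : C → ℂ :=
  fun c => ∑ b, (F b c : ℂ) * v b

/-- The rows `< p`, with row `0` or without. -/
def SR (N : ℕ) (full : Bool) (p : ℕ) : Finset (Fin (N + 1)) :=
  Finset.univ.filter fun a => (full = true ∨ a ≠ 0) ∧ (a : ℕ) < p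

/-- The sign conditions for a real solution, in terms of the vectors `v`, `w`, the defects
`gB = c2 - β v`, `gC = c3 - γ w` (which vanish on `Xo x i`, `Xo y j`), the value `σ = α q u` and the
value `G = c1 T v w 0` of the row `0`. -/
structure Ob (P : Par) (n2 n3 : ℕ) (full : Bool) (x y : Fin 3) (i j : ℕ → ℕ)
    (v : Fin (n2 + 1) → ℂ) (w : Fin (n3 + 1) → ℂ) (gB : Fin (n2 + 1) → ℂ)
    (gC : Fin (n3 + 1) → ℂ) (σ G : ℂ) : Prop where
  oB : ∀ p, i p ≠ 0 → ∀ z ∈ Xo P n2 x (dn i p), Rea z → pr (tau P n2 (P.g p) (i p - 1)) z = 1 →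
    (dt gB z * pr (tau P n2 (P.g p) (i p)) v * σ).re < 0
  oC : ∀ p, j p ≠ 0 → ∀ z ∈ Xo P n3 y (dn j p), Rea z → pr (tau P n3 (P.g p) (j p - 1)) z = 1 →
    (dt gC z * pr (tau P n3 (P.g p) (j p)) w * σ).re < 0
  s2 : full = false → x = 1 → y ≠ 2 → ∀ z ∈ Xo P n2 0 i, Rea z → z 0 = 1 →
    0 < (dt gB z * σ * pr (hv P n2) v).re
  s1 : full = false → y = 1 → x ≠ 2 → ∀ z ∈ Xo P n3 0 j, Rea z → z 0 = 1 →
    0 < (dt gC z * σ * pr (hv P n3) w).re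
  g0 : full = false → x = 1 → y = 1 → G ≠ 0
  t2 : full = false → x = 2 → y = 1 → ∀ z ∈ Xo P n2 1 i, Rea z → pr (hv P n2) z = 1 →
    ∀ z' ∈ Xo P n3 0 j, Rea z' → z' 0 = 1 → (dt gB z * dt gC z' * G).re < 0
  t3 : full = false → x = 1 → y = 2 → ∀ z ∈ Xo P n2 0 i, Rea z → z 0 = 1 →
    ∀ z' ∈ Xo P n3 1 j, Rea z' → pr (hv P n3) z' = 1 → (dt gB z * dt gC z' * G).re < 0
  t1 : full = true → x = 1 → y = 1 → 0 < (G * pr (hv P n2) v * pr (hv P n3) w).re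

/-- The masks which occur. -/
def Msk (full : Bool) (x y : Fin 3) : Prop :=
  full = true → x ≠ 0 ∧ y ≠ 0 ∧ ¬ (x = 2 ∧ y = 2)

/-- The bundle of the E types for the rows `< p`. -/
def PE (P : Par) {N n2 n3 : ℕ} (T : Fin (N + 1) → Fin (n2 + 1) → Fin (n3 + 1) → ℝ) (full : Bool)
    (p : ℕ) : Prop :=
  ∀ (x y : Fin 3) (i j : ℕ → ℕ), Msk full x y → Adm p N i → Adm p N j → ∀ u v w α β γ,
    TX T (SR N full p) (Xo P n2 x i) (Xo P n3 y j) u v w α β γ → u ≠ 0 → v ≠ 0 → w ≠ 0 →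
    OkX T (SR N full p) (Xo P n2 x i) (Xo P n3 y j) u v w α β γ ∧
    (Rea u → Rea v → Rea w → Ob P n2 n3 full x y i j v w (c2 T u w - β • v) (c3 T u v - γ • w)
      (α * q u) (c1 T v w 0))

/-- The equations of the D types for the rows `S`; `t = 0`: D0, `t = 1`: D1. -/
structure DX (P : Par) {N n2 n3 : ℕ} (T : Fin (N + 1) → Fin (n2 + 1) → Fin (n3 + 1) → ℝ) (t : Bool)
    (p : ℕ) (i j : ℕ → ℕ) (u : Fin (N + 1) → ℂ) (v : Fin (n2 + 1) → ℂ) (w : Fin (n3 + 1) → ℂ)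
    (M M' : ℂ) : Prop where
  su : Sup (SR N t p) u
  sv : v ∈ Xo P n2 (if t then 1 else 0) i
  sw : w ∈ Xo P n3 (if t then 1 else 0) j
  e1 : ∀ a ∈ SR N false p, c1 T v w a = 0
  e2 : ∀ z ∈ Xo P n2 1 i, dt (c2 T u w) z + M * pr (hv P n2) z = 0
  e3 : ∀ z ∈ Xo P n3 1 j, dt (c3 T u v) z + M' * pr (hv P n3) z = 0
  e4 : t = false → M' * w 0 = M * v 0

/-- The linearised equations of the D types. -/
structure KDX (P : Par) {N n2 n3 : ℕ} (T : Fin (N + 1) → Fin (n2 + 1) → Fin (n3 + 1) → ℝ)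
    (t : Bool) (p : ℕ) (i j : ℕ → ℕ) (u : Fin (N + 1) → ℂ) (v : Fin (n2 + 1) → ℂ)
    (w : Fin (n3 + 1) → ℂ) (M M' : ℂ) (du : Fin (N + 1) → ℂ) (dv : Fin (n2 + 1) → ℂ)
    (dw : Fin (n3 + 1) → ℂ) (dM dM' : ℂ) : Prop where
  su : Sup (SR N t p) du
  sv : dv ∈ Xo P n2 (if t then 1 else 0) i
  sw : dw ∈ Xo P n3 (if t then 1 else 0) j
  e1 : ∀ a ∈ SR N false p, c1 T dv w a + c1 T v dw a = 0
  e2 : ∀ z ∈ Xo P n2 1 i, dt (c2 T du w) z + dt (c2 T u dw) z + dM * pr (hv P n2) z = 0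
  e3 : ∀ z ∈ Xo P n3 1 j, dt (c3 T du v) z + dt (c3 T u dv) z + dM' * pr (hv P n3) z = 0
  e4 : t = false → dM' * w 0 + M' * dw 0 = dM * v 0 + M * dv 0

/-- The multipliers and coordinates which must not vanish. -/
def NvD {N n2 n3 : ℕ} (t : Bool) (u : Fin (N + 1) → ℂ) (v : Fin (n2 + 1) → ℂ)
    (w : Fin (n3 + 1) → ℂ) (M M' : ℂ) : Prop :=
  v ≠ 0 ∧ w ≠ 0 ∧ M ≠ 0 ∧ M' ≠ 0 ∧ (t = false → v 0 ≠ 0 ∧ w 0 ≠ 0) ∧ (t = true → u 0 ≠ 0)

/-- The conclusion for a solution of type D. -/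
structure OkDX (P : Par) {N n2 n3 : ℕ} (T : Fin (N + 1) → Fin (n2 + 1) → Fin (n3 + 1) → ℝ)
    (t : Bool) (p : ℕ) (i j : ℕ → ℕ) (u : Fin (N + 1) → ℂ) (v : Fin (n2 + 1) → ℂ)
    (w : Fin (n3 + 1) → ℂ) (M M' : ℂ) : Prop where
  re : ∃ a b c : ℂ, a ≠ 0 ∧ b ≠ 0 ∧ c ≠ 0 ∧ Rea (a • u) ∧ Rea (b • v) ∧ Rea (c • w) ∧
    (a * c * M).im = 0 ∧ (a * b * M').im = 0
  nd : ∀ du dv dw dM dM', KDX P T t p i j u v w M M' du dv dw dM dM' →
    ∃ a b c : ℂ, du = a • u ∧ dv = b • v ∧ dw = c • w ∧ dM = (a + c) * M ∧ dM' = (a + b) * M'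

/-- The sign conditions of the D types for a real solution; `gB = c2 + M h`, `gC = c3 + M' h'`. -/
structure ObD (P : Par) (n2 n3 : ℕ) (i j : ℕ → ℕ) (v : Fin (n2 + 1) → ℂ) (w : Fin (n3 + 1) → ℂ)
    (gB : Fin (n2 + 1) → ℂ) (gC : Fin (n3 + 1) → ℂ) (η η' : ℂ) : Prop where
  oB : ∀ p, i p ≠ 0 → ∀ z ∈ Xo P n2 1 (dn i p), Rea z → pr (tau P n2 (P.g p) (i p - 1)) z = 1 →
    (dt gB z * pr (tau P n2 (P.g p) (i p)) v * η).re < 0
  oC : ∀ p, j p ≠ 0 → ∀ z ∈ Xo P n3 1 (dn j p), Rea z → pr (tau P n3 (P.g p) (j p - 1)) z = 1 →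
    (dt gC z * pr (tau P n3 (P.g p) (j p)) w * η').re < 0
  hh : 0 < (η * η').re

/-- The bundle of the D types for the rows `< p`. -/
def PD (P : Par) {N n2 n3 : ℕ} (T : Fin (N + 1) → Fin (n2 + 1) → Fin (n3 + 1) → ℝ) (t : Bool)
    (p : ℕ) : Prop :=
  ∀ (i j : ℕ → ℕ), Adm p N i → Adm p N j → ∀ u v w M M',
    DX P T t p i j u v w M M' → NvD t u v w M M' →
    OkDX P T t p i j u v w M M' ∧
    (Rea u → Rea v → Rea w → M.im = 0 → M'.im = 0 →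
      ObD P n2 n3 i j v w (fun b => c2 T u w b + M * hv P n2 b)
        (fun c => c3 T u v c + M' * hv P n3 c) (M * pr (tau P n2 P.gh 0) v)
        (M' * pr (tau P n3 P.gh 0) w))

/-- Constrained singular tuples: the rows `SA` of `T`, and the constraint `F (v, w) = 0` with the
multiplier `r`. -/
structure CX {A B C : Type} [Fintype A] [Fintype B] [Fintype C] (T : A → B → C → ℝ)
    (F : B → C → ℝ) (SA : Finset A) (X : Submodule ℂ (B → ℂ)) (Y : Submodule ℂ (C → ℂ))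
    (u : A → ℂ) (v : B → ℂ) (w : C → ℂ) (α β γ r : ℂ) : Prop where
  su : Sup SA u
  sv : v ∈ X
  sw : w ∈ Y
  e1 : ∀ a ∈ SA, c1 T v w a = α * u a
  e0 : bf F v w = 0
  e2 : ∀ z ∈ X, dt (c2 T u w) z + r * dt (bfB F w) z = β * dt v z
  e3 : ∀ z ∈ Y, dt (c3 T u v) z + r * dt (bfC F v) z = γ * dt w z

/-- The linearised equations of `CX`. -/
structure KCX {A B C : Type} [Fintype A] [Fintype B] [Fintype C] (T : A → B → C → ℝ)
    (F : B → C → ℝ) (SA : Finset A) (X : Submodule ℂ (B → ℂ)) (Y : Submodule ℂ (C → ℂ))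
    (u : A → ℂ) (v : B → ℂ) (w : C → ℂ) (α β γ r : ℂ) (du : A → ℂ) (dv : B → ℂ) (dw : C → ℂ)
    (dα dβ dγ dr : ℂ) : Prop where
  su : Sup SA du
  sv : dv ∈ X
  sw : dw ∈ Y
  e1 : ∀ a ∈ SA, c1 T dv w a + c1 T v dw a = α * du a + dα * u a
  e0 : bf F dv w + bf F v dw = 0
  e2 : ∀ z ∈ X, dt (c2 T du w) z + dt (c2 T u dw) z + r * dt (bfB F dw) z + dr * dt (bfB F w) z
    = β * dt dv z + dβ * dt v z
  e3 : ∀ z ∈ Y, dt (c3 T du v) z + dt (c3 T u dv) z + r * dt (bfC F dv) z + dr * dt (bfC F v) z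
    = γ * dt dw z + dγ * dt w z

/-- The conclusion for a constrained tuple. -/
structure OkC {A B C : Type} [Fintype A] [Fintype B] [Fintype C] (T : A → B → C → ℝ)
    (F : B → C → ℝ) (SA : Finset A) (X : Submodule ℂ (B → ℂ)) (Y : Submodule ℂ (C → ℂ))
    (u : A → ℂ) (v : B → ℂ) (w : C → ℂ) (α β γ r : ℂ) : Prop where
  re : ∃ a b c : ℂ, a ≠ 0 ∧ b ≠ 0 ∧ c ≠ 0 ∧ Rea (a • u) ∧ Rea (b • v) ∧ Rea (c • w) ∧
    (a * r).im = 0
  hα : α ≠ 0
  nd : ∀ du dv dw dα dβ dγ dr, KCX T F SA X Y u v w α β γ r du dv dw dα dβ dγ dr →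
    ∃ a b c : ℂ, du = a • u ∧ dv = b • v ∧ dw = c • w ∧ dr = a * r

/-- Singular pairs of a bilinear form. -/
structure SP {B C : Type} [Fintype B] [Fintype C] (F : B → C → ℝ) (X : Submodule ℂ (B → ℂ))
    (Y : Submodule ℂ (C → ℂ)) (v : B → ℂ) (w : C → ℂ) (β γ : ℂ) : Prop where
  sv : v ∈ X
  sw : w ∈ Y
  e2 : ∀ z ∈ X, dt (bfB F w) z = β * dt v z
  e3 : ∀ z ∈ Y, dt (bfC F v) z = γ * dt w z

/-- The conclusion for a singular pair. -/
structure OkP {B C : Type} [Fintype B] [Fintype C] (F : B → C → ℝ) (X : Submodule ℂ (B → ℂ))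
    (Y : Submodule ℂ (C → ℂ)) (v : B → ℂ) (w : C → ℂ) (β γ : ℂ) : Prop where
  rv : Rl v
  rw' : Rl w
  hF : bf F v w ≠ 0
  nd : ∀ dv dw dβ dγ, dv ∈ X → dw ∈ Y → (∀ z ∈ X, dt (bfB F dw) z = β * dt dv z + dβ * dt v z) →
    (∀ z ∈ Y, dt (bfC F dv) z = γ * dt dw z + dγ * dt w z) →
    (∃ r : ℂ, dv = r • v) ∧ ∃ r : ℂ, dw = r • w

/-! ### The abstract row lemma -/

/-- A system of equations: `a` (tested on `X`), `b` (tested on `Y`) and `g`. -/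
structure Sy (I K B C : Type) where
  a : (I → ℂ) × (B → ℂ) × (C → ℂ) → B → ℂ
  b : (I → ℂ) × (B → ℂ) × (C → ℂ) → C → ℂ
  g : (I → ℂ) × (B → ℂ) × (C → ℂ) → K → ℂ

/-- The conjugate point. -/
def cj3 {I B C : Type} (p : (I → ℂ) × (B → ℂ) × (C → ℂ)) : (I → ℂ) × (B → ℂ) × (C → ℂ) :=
  (cj p.1, cj p.2.1, cj p.2.2)

section

variable {I K B C : Type} [Fintype I] [Fintype K] [Fintype B] [Fintype C]

/-- Smooth and real. -/
structure Sy.Sm (S : Sy I K B C) : Prop where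
  ha : ContDiff ℝ 1 S.a
  hb : ContDiff ℝ 1 S.b
  hg : ContDiff ℝ 1 S.g
  ca : ∀ p, S.a (cj3 p) = cj (S.a p)
  cb : ∀ p, S.b (cj3 p) = cj (S.b p)
  cg : ∀ p, S.g (cj3 p) = cj (S.g p)

/-- Solutions. -/
structure Sy.Sol (S : Sy I K B C) (X : Submodule ℂ (B → ℂ)) (Y : Submodule ℂ (C → ℂ))
    (p : (I → ℂ) × (B → ℂ) × (C → ℂ)) : Prop where
  sv : p.2.1 ∈ X
  sw : p.2.2 ∈ Y
  ea : ∀ z ∈ X, dt (S.a p) z = 0
  eb : ∀ z ∈ Y, dt (S.b p) z = 0
  eg : S.g p = 0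

/-- Kernel vectors. -/
structure Sy.Ke (S : Sy I K B C) (X : Submodule ℂ (B → ℂ)) (Y : Submodule ℂ (C → ℂ))
    (p x : (I → ℂ) × (B → ℂ) × (C → ℂ)) : Prop where
  sv : x.2.1 ∈ X
  sw : x.2.2 ∈ Y
  ea : ∀ z ∈ X, HasDerivAt (fun t : ℝ => dt (S.a (p + t • x)) z) 0 0
  eb : ∀ z ∈ Y, HasDerivAt (fun t : ℝ => dt (S.b (p + t • x)) z) 0 0
  eg : HasDerivAt (fun t : ℝ => S.g (p + t • x)) 0 0

/-- Nondegenerate. -/
def Sy.Nd (S : Sy I K B C) (X : Submodule ℂ (B → ℂ)) (Y : Submodule ℂ (C → ℂ))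
    (p : (I → ℂ) × (B → ℂ) × (C → ℂ)) : Prop :=
  ∀ x, S.Ke X Y p x → x = 0

/-- The system with the additional constraint `F (v, w) = 0` and its multiplier (index `none`). -/
def Sy.ext (S : Sy I K B C) (F : B → C → ℝ) : Sy (Option I) (Option K) B C where
  a := fun p => S.a (fun k => p.1 (some k), p.2) + p.1 none • bfB F p.2.2
  b := fun p => S.b (fun k => p.1 (some k), p.2) + p.1 none • bfC F p.2.1
  g := fun p k => k.elim (bf F p.2.1 p.2.2) fun k => S.g (fun k => p.1 (some k), p.2) k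

/-- `φ l`, `l < D`, are coordinates on `X`, with the dual basis `z l`. -/
structure Flag (X : Submodule ℂ (B → ℂ)) (D : ℕ) (φ z : ℕ → B → ℝ) : Prop where
  mem : ∀ l, l < D → (fun b => (z l b : ℂ)) ∈ X
  dual : ∀ k l, k < D → l < D → pr (φ k) (fun b => (z l b : ℂ)) = if k = l then 1 else 0
  gen : ∀ v ∈ X, v = ∑ l ∈ Finset.range D, pr (φ l) v • fun b => (z l b : ℂ)

/-- The vectors of `X` of order at least `i`. -/
def Xi (X : Submodule ℂ (B → ℂ)) (φ : ℕ → B → ℝ) (i : ℕ) : Submodule ℂ (B → ℂ) where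
  carrier := {v | v ∈ X ∧ ∀ l, l < i → pr (φ l) v = 0}
  add_mem' := by
    rintro a b ⟨h1, h2⟩ ⟨h3, h4⟩
    refine ⟨add_mem h1 h3, fun l hl => ?_⟩
    have e : pr (φ l) (a + b) = pr (φ l) a + pr (φ l) b := by
      simp only [pr, Pi.add_apply, mul_add, Finset.sum_add_distrib]
    rw [e, h2 l hl, h4 l hl, add_zero]
  zero_mem' := ⟨zero_mem _, fun l _ => by simp [pr]⟩
  smul_mem' := by
    rintro c a ⟨h1, h2⟩
    refine ⟨Submodule.smul_mem _ c h1, fun l hl => ?_⟩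
    have e : pr (φ l) (c • a) = c * pr (φ l) a := by
      simp only [pr, Pi.smul_apply, smul_eq_mul, Finset.mul_sum]
      exact Finset.sum_congr rfl fun b _ => by ring
    rw [e, h2 l hl, mul_zero]

/-- The bilinear form with the coefficients `f l`, `l ≤ m`. -/
def rw0 (φ : ℕ → B → ℝ) (ψ : ℕ → C → ℝ) (m : ℕ) (f : ℕ → ℝ) : B → C → ℝ :=
  fun b c => ∑ l ∈ Finset.range (m + 1), f l * (φ l b * ψ l c)

/-- A hierarchical sequence of coefficients with alternating signs (`s = -1`) or constant signs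
(`s = 1`). -/
structure Hi (m : ℕ) (s : ℝ) (f : ℕ → ℕ → ℝ) : Prop where
  ne : ∀ n l, l ≤ m → f n l ≠ 0
  sg : ∀ n l, l < m → 0 < s * (f n l * f n (l + 1))
  hi : ∀ l, l < m → Tendsto (fun n => f n (l + 1) / f n l) uf (𝓝 0)

end

/-- The parameters are admissible. -/
structure GoodP (P : Par) (N : ℕ) : Prop where
  hρ : 0 < P.ρ
  hξ : 0 < P.ξ
  h0 : 0 < P.g 0
  h1 : P.g 0 < P.gh
  h2 : P.gh < P.g 1
  h3 : ∀ p, 1 ≤ p → P.g p < P.g (p + 1)

/-- `v` is a base vector for the row `p` and the level `l`: it spans the orthogonal complement of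
`Xo x (order l + 1 at p)` in `Xo x (order l at p)`. -/
structure Bv (P : Par) (n : ℕ) (x : Fin 3) (i : ℕ → ℕ) (p l : ℕ) (v : Fin (n + 1) → ℂ) : Prop where
  mem : v ∈ Xo P n x (at' i p l)
  ne : v ≠ 0
  re : Rea v
  orth : ∀ z ∈ Xo P n x (at' i p (l + 1)), dt v z = 0

/-- The defect of a base vector. -/
noncomputable def Df (P : Par) (n p l : ℕ) (v z : Fin (n + 1) → ℂ) : ℂ :=
  pr (tau P n (P.g p) l) z - pr (tau P n (P.g p) l) v * dt v z / q v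

/-- The properties of the base vectors (nodes far apart, `ρ ≪ ξ ≪ 1`). -/
structure BF (P : Par) (n : ℕ) (x : Fin 3) (i : ℕ → ℕ) (p l : ℕ) (v : Fin (n + 1) → ℂ) : Prop where
  b0 : pr (tau P n (P.g p) l) v ≠ 0
  b1 : ∀ p', i p' ≠ 0 → ∀ z ∈ Xo P n x (dn (at' i p l) p'), Rea z →
    pr (tau P n (P.g p') (i p' - 1)) z = 1 →
    (Df P n p l v z * pr (tau P n (P.g p) l) v * pr (tau P n (P.g p') (i p')) v).re < 0
  b2 : x = 1 → ∀ z ∈ Xo P n 0 (at' i p l), Rea z → z 0 = 1 →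
    0 < (Df P n p l v z * pr (tau P n (P.g p) l) v * pr (hv P n) v).re
  b4 : x = 2 → 1 ≤ p → ∀ z ∈ Xo P n 1 (at' i p l), Rea z → pr (hv P n) z = 1 →
    (Df P n p l v z * pr (tau P n (P.g p) l) v * pr (tau P n (P.g 0) 0) v).re < 0
  b5 : x = 2 → 1 ≤ p → pr (tau P n (P.g 0) 0) v ≠ 0
  b6 : x = 1 → 1 ≤ p → 0 < (pr (tau P n (P.g 0) 0) v * pr (hv P n) v).re
  b7 : x = 1 → p = 0 → 0 < (pr (tau P n (P.g 0) l) v * pr (hv P n) v).re

/-- All base vectors have the properties. -/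
def BFs (P : Par) (N n : ℕ) : Prop :=
  ∀ (x : Fin 3) (i : ℕ → ℕ) (p l : ℕ) (v : Fin (n + 1) → ℂ), p ≤ N → Adm (p + 1) N i →
    Bv P n x i p l v → BF P n x i p l v

/-- The row `0` has the sign of its first term at the base vectors of the rows `≥ 1`. -/
def BG (P : Par) {N n2 n3 : ℕ} (T : Fin (N + 1) → Fin (n2 + 1) → Fin (n3 + 1) → ℝ) : Prop :=
  ∀ (x y : Fin 3) (i j : ℕ → ℕ) (p l : ℕ) v w, x ≠ 0 → y ≠ 0 → 1 ≤ p → p ≤ N → Adm (p + 1) N i →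
    Adm (p + 1) N j → Bv P n2 x i p l v → Bv P n3 y j p l w →
    pr (tau P n2 (P.g 0) 0) v ≠ 0 → pr (tau P n3 (P.g 0) 0) w ≠ 0 →
    0 < (c1 T v w 0 * pr (tau P n2 (P.g 0) 0) v * pr (tau P n3 (P.g 0) 0) w).re

end Pool.Agent.MPb0eK
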