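import Mathlib
import Pool.Agent.Lib.MP_b0e20b_ag_K.TDefs
import Pool.Agent.Lib.MP_b0e20b_ag_K.TXa

/-!
# MP_b0e20b_ag, project K: definitions for the D types
-/

set_option autoImplicit false

open scoped BigOperators Topology
open Filter

namespace Pool.Agent.MPb0eK

open MPb0eR (c1 c2 c3 tr q Sup Rl Rea uf Nrm cj AF scl)

section

/-- The equations of the D types with the multipliers `κ`, `κ'` of the coordinates `v 0`, `w 0`. -/
structure DK (P : Par) {N n2 n3 : ℕ} (T : Fin (N + 1) → Fin (n2 + 1) → Fin (n3 + 1) → ℝ) (t : Bool)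
    (p : ℕ) (i j : ℕ → ℕ) (u : Fin (N + 1) → ℂ) (v : Fin (n2 + 1) → ℂ) (w : Fin (n3 + 1) → ℂ)
    (M M' κ κ' : ℂ) : Prop where
  su : Sup (SR N t p) u
  sv : v ∈ Xo P n2 (if t then 1 else 0) i
  sw : w ∈ Xo P n3 (if t then 1 else 0) j
  e1 : ∀ a ∈ SR N false p, c1 T v w a = 0
  e2 : ∀ z ∈ Xo P n2 (if t then 1 else 0) i,
    dt (c2 T u w) z + M * pr (hv P n2) z = κ * z 0
  e3 : ∀ z ∈ Xo P n3 (if t then 1 else 0) j,
    dt (c3 T u v) z + M' * pr (hv P n3) z = κ' * z 0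
  e4 : t = false → M' * w 0 = M * v 0
  ek : t = true → κ = 0 ∧ κ' = 0

/-- The same with an additional constraint `F (v, w) = 0` with the multiplier `r`. -/
structure DKr (P : Par) {N n2 n3 : ℕ} (T : Fin (N + 1) → Fin (n2 + 1) → Fin (n3 + 1) → ℝ)
    (F : Fin (n2 + 1) → Fin (n3 + 1) → ℝ) (t : Bool) (p : ℕ) (i j : ℕ → ℕ) (u : Fin (N + 1) → ℂ)
    (v : Fin (n2 + 1) → ℂ) (w : Fin (n3 + 1) → ℂ) (M M' κ κ' r : ℂ) : Prop where
  su : Sup (SR N t p) u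
  sv : v ∈ Xo P n2 (if t then 1 else 0) i
  sw : w ∈ Xo P n3 (if t then 1 else 0) j
  e1 : ∀ a ∈ SR N false p, c1 T v w a = 0
  e0 : bf F v w = 0
  e2 : ∀ z ∈ Xo P n2 (if t then 1 else 0) i,
    dt (c2 T u w) z + r * bf F z w + M * pr (hv P n2) z = κ * z 0
  e3 : ∀ z ∈ Xo P n3 (if t then 1 else 0) j,
    dt (c3 T u v) z + r * bf F v z + M' * pr (hv P n3) z = κ' * z 0
  e4 : t = false → M' * w 0 = M * v 0
  ek : t = true → κ = 0 ∧ κ' = 0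

/-- The D types as a system; unknowns `e = (u, ![M, M', κ, κ'])`. -/
noncomputable def syD (P : Par) {N n2 n3 : ℕ}
    (T : Fin (N + 1) → Fin (n2 + 1) → Fin (n3 + 1) → ℝ) (t : Bool) (p : ℕ)
    (k0 : Fin (N + 1) ⊕ Fin 4) (ib : Fin (n2 + 1)) (ic : Fin (n3 + 1)) :
    Sy (Fin (N + 1) ⊕ Fin 4) (Fin (N + 1) ⊕ Fin 5) (Fin (n2 + 1)) (Fin (n3 + 1)) where
  a := fun x b => c2 T (fun a => x.1 (Sum.inl a)) x.2.2 b + x.1 (Sum.inr 0) * hv P n2 b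
    - x.1 (Sum.inr 2) * if b = 0 then 1 else 0
  b := fun x c => c3 T (fun a => x.1 (Sum.inl a)) x.2.1 c + x.1 (Sum.inr 1) * hv P n3 c
    - x.1 (Sum.inr 3) * if c = 0 then 1 else 0
  g := fun x k => k.elim
    (fun a => if a ∈ SR N false p then c1 T x.2.1 x.2.2 a
      else if a ∈ SR N t p then 0 else x.1 (Sum.inl a))
    ![if t then x.1 (Sum.inr 2) else x.1 (Sum.inr 1) * x.2.2 0 - x.1 (Sum.inr 0) * x.2.1 0,
      if t then x.1 (Sum.inr 3) else 0, x.2.1 ib - 1, x.2.2 ic - 1, x.1 k0 - 1]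

/-- The vector of the unknowns of `syD`. -/
def eD {N : ℕ} (u : Fin (N + 1) → ℂ) (M M' κ κ' : ℂ) : Fin (N + 1) ⊕ Fin 4 → ℂ :=
  Sum.elim u ![M, M', κ, κ']

end

end Pool.Agent.MPb0eK
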