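import Mathlib
import Pool.Agent.Lib.MP_b0e20b_ag_K.TDefs
import Pool.Agent.Lib.MP_b0e20b_ag_K.TXa

/-!
# MP_b0e20b_ag, project K: elementary facts on flags and on the row forms
-/

set_option autoImplicit false

open scoped BigOperators Topology
open Filter

namespace Pool.Agent.MPb0eK

open MPb0eR (c1 c2 c3 tr q Sup Rl Rea uf Nrm cj AF scl)

section

variable {I K B C : Type} [Fintype I] [Fintype K] [Fintype B] [Fintype C] [DecidableEq B]
  [DecidableEq C]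

theorem dt_bfB (F : B → C → ℝ) (w : C → ℂ) (z : B → ℂ) : dt (bfB F w) z = bf F z w := by
  unfold dt bfB bf
  refine Finset.sum_congr rfl fun b _ => ?_
  rw [Finset.sum_mul]
  exact Finset.sum_congr rfl fun c _ => by ring

theorem dt_bfC (F : B → C → ℝ) (v : B → ℂ) (z : C → ℂ) : dt (bfC F v) z = bf F v z := by
  unfold dt bfC bf
  rw [Finset.sum_comm]
  refine Finset.sum_congr rfl fun c _ => ?_
  rw [Finset.sum_mul]
  exact Finset.sum_congr rfl fun b _ => by ring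

theorem bf_rw0 (φ : ℕ → B → ℝ) (ψ : ℕ → C → ℝ) (m : ℕ) (f : ℕ → ℝ) (v : B → ℂ) (w : C → ℂ) :
    bf (rw0 φ ψ m f) v w
      = ∑ l ∈ Finset.range (m + 1), (f l : ℂ) * (pr (φ l) v * pr (ψ l) w) := by
  have e1 : ∀ b c, ((rw0 φ ψ m f b c : ℝ) : ℂ) * (v b * w c)
      = ∑ l ∈ Finset.range (m + 1), (f l : ℂ) * ((φ l b : ℂ) * v b * ((ψ l c : ℂ) * w c)) := by
    intro b c
    unfold rw0
    push_cast
    rw [Finset.sum_mul]
    exact Finset.sum_congr rfl fun l _ => by ring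
  have e2 : ∀ l, (f l : ℂ) * (pr (φ l) v * pr (ψ l) w)
      = ∑ b, ∑ c, (f l : ℂ) * ((φ l b : ℂ) * v b * ((ψ l c : ℂ) * w c)) := by
    intro l
    unfold pr
    rw [Finset.sum_mul_sum, Finset.mul_sum]
    refine Finset.sum_congr rfl fun b _ => ?_
    rw [Finset.mul_sum]
  unfold bf
  simp only [e1, e2]
  calc ∑ b, ∑ c, ∑ l ∈ Finset.range (m + 1),
        (f l : ℂ) * ((φ l b : ℂ) * v b * ((ψ l c : ℂ) * w c))
      = ∑ b, ∑ l ∈ Finset.range (m + 1), ∑ c,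
        (f l : ℂ) * ((φ l b : ℂ) * v b * ((ψ l c : ℂ) * w c)) :=
        Finset.sum_congr rfl fun b _ => Finset.sum_comm
    _ = _ := Finset.sum_comm

theorem mem_Xi {X : Submodule ℂ (B → ℂ)} {φ : ℕ → B → ℝ} {i : ℕ} {v : B → ℂ} :
    v ∈ Xi X φ i ↔ v ∈ X ∧ ∀ l, l < i → pr (φ l) v = 0 := by
  exact Iff.rfl

theorem Xi_cj {X : Submodule ℂ (B → ℂ)} (hX : Cj X) (φ : ℕ → B → ℝ) (i : ℕ) : Cj (Xi X φ i) := by
  rintro v ⟨h1, h2⟩
  exact ⟨hX v h1, fun l hl => by rw [pr_cj, h2 l hl, map_zero]⟩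

/-- A nonzero vector of `X` has an order. -/
theorem Flag.ord {X : Submodule ℂ (B → ℂ)} {D : ℕ} {φ z : ℕ → B → ℝ} (hX : Flag X D φ z)
    {v : B → ℂ} (hv : v ∈ X) (h0 : v ≠ 0) : ∃ i, i < D ∧ v ∈ Xi X φ i ∧ pr (φ i) v ≠ 0 := by
  classical
  have hex : ∃ l, l < D ∧ pr (φ l) v ≠ 0 := by
    by_contra hn
    push Not at hn
    apply h0
    rw [hX.gen v hv]
    refine Finset.sum_eq_zero fun l hl => ?_
    rw [hn l (Finset.mem_range.1 hl), zero_smul]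
  obtain ⟨h1, h2⟩ := Nat.find_spec hex
  refine ⟨Nat.find hex, h1, ⟨hv, fun l hl => ?_⟩, h2⟩
  by_contra h3
  exact Nat.find_min hex hl ⟨hl.trans h1, h3⟩

/-- `Xi X φ i` is spanned by the `z l` with `i ≤ l < D`; in particular it is zero for `i ≥ D`. -/
theorem Flag.gen_i {X : Submodule ℂ (B → ℂ)} {D : ℕ} {φ z : ℕ → B → ℝ} (hX : Flag X D φ z)
    {i : ℕ} {v : B → ℂ} (hv : v ∈ Xi X φ i) :
    v = ∑ l ∈ Finset.Ico i D, pr (φ l) v • fun b => (z l b : ℂ) := by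
  conv_lhs => rw [hX.gen v hv.1]
  symm
  refine Finset.sum_subset (fun l hl => ?_) fun l hl hl' => ?_
  · exact Finset.mem_range.2 (Finset.mem_Ico.1 hl).2
  · have h1 : l < i := by
      by_contra h2
      exact hl' (Finset.mem_Ico.2 ⟨not_lt.1 h2, Finset.mem_range.1 hl⟩)
    rw [hv.2 l h1, zero_smul]

theorem Flag.mem_i {X : Submodule ℂ (B → ℂ)} {D : ℕ} {φ z : ℕ → B → ℝ} (hX : Flag X D φ z)
    {i l : ℕ} (hi : i ≤ l) (hl : l < D) : (fun b => (z l b : ℂ)) ∈ Xi X φ i := by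
  refine ⟨hX.mem l hl, fun k hk => ?_⟩
  rw [hX.dual k l (by omega) hl, if_neg (by omega)]

theorem row_eq (P : Par) (n2 n3 : ℕ) (g R δ : ℝ) :
    row P n2 n3 g R δ = rw0 (tau P n2 g) (tau P n3 g) (min n2 n3) fun l => R * δ ^ l := by
  funext b c
  unfold row rw0
  rw [Finset.mul_sum]
  exact Finset.sum_congr rfl fun l _ => by ring

/-- The coefficients `R δ ^ l` are hierarchical for `δ → 0`. -/
theorem hi_row (m : ℕ) {R : ℝ} (hR : 0 < R) {δ : ℕ → ℝ} (hδ : Tendsto δ uf (𝓝 0))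
    (hp : ∀ n, 0 < δ n) :
    Hi m 1 (fun n l => R * δ n ^ l) ∧ Hi m (-1) fun n l => R * (-δ n) ^ l := by
  have h0 : ∀ n, δ n ≠ 0 := fun n => (hp n).ne'
  refine ⟨⟨fun n l _ => mul_ne_zero hR.ne' (pow_ne_zero l (h0 n)), fun n l _ => ?_,
    fun l _ => ?_⟩, ⟨fun n l _ => mul_ne_zero hR.ne' (pow_ne_zero l (neg_ne_zero.2 (h0 n))),
    fun n l _ => ?_, fun l _ => ?_⟩⟩
  · have := hp n
    positivity
  · have e : (fun n => R * δ n ^ (l + 1) / (R * δ n ^ l)) = δ := by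
      funext n
      have h1 : δ n ^ l ≠ 0 := pow_ne_zero l (h0 n)
      have h2 := hR.ne'
      rw [pow_succ, ← mul_assoc, mul_div_cancel_left₀ _ (mul_ne_zero h2 h1)]
    rw [e]
    exact hδ
  · have e : -1 * (R * (-δ n) ^ l * (R * (-δ n) ^ (l + 1))) = R ^ 2 * (δ n ^ 2) ^ l * δ n := by
      have h1 : (-δ n) ^ l * (-δ n) ^ l = (δ n ^ 2) ^ l := by
        rw [← mul_pow]
        congr 1
        ring
      rw [pow_succ (-δ n) l]
      linear_combination R ^ 2 * δ n * h1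
    rw [e]
    have := hp n
    positivity
  · have e : (fun n => R * (-δ n) ^ (l + 1) / (R * (-δ n) ^ l)) = fun n => -δ n := by
      funext n
      have h1 : (-δ n) ^ l ≠ 0 := pow_ne_zero l (neg_ne_zero.2 (h0 n))
      have h2 := hR.ne'
      rw [pow_succ, ← mul_assoc, mul_div_cancel_left₀ _ (mul_ne_zero h2 h1)]
    rw [e]
    simpa using hδ.neg

end

end Pool.Agent.MPb0eK
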