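import Mathlib
import Pool.Agent.Lib.MP_b0e20b_ag_K.TDefs
import Pool.Agent.Lib.MP_b0e20b_ag_K.TXa

/-!
# MP_b0e20b_ag, project K: the polynomial model: Taylor coefficients and dimensions
-/

set_option autoImplicit false

open scoped BigOperators Topology
open Filter

namespace Pool.Agent.MPb0eK

open MPb0eR (c1 c2 c3 tr q Sup Rl Rea uf Nrm cj AF scl)

section

variable {P : Par} {N : ℕ}

/-- The polynomial of a vector. -/
noncomputable def pol (P : Par) (n : ℕ) (v : Fin (n + 1) → ℂ) : Polynomial ℂ :=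
  Polynomial.C (v 0 * P.ρ) + ∑ j ∈ Finset.Icc 1 n,
    Polynomial.C ((if h : j < n + 1 then v ⟨j, h⟩ else 0) + P.ξ * P.gh ^ j * v 0) * Polynomial.X ^ j

private theorem P1_coeff (P : Par) (n : ℕ) (v : Fin (n + 1) → ℂ) :
    (pol P n v).coeff 0 = v 0 * P.ρ ∧
    (∀ j : Fin (n + 1), (j : ℕ) ≠ 0 →
      (pol P n v).coeff j = v j + P.ξ * P.gh ^ (j : ℕ) * v 0) ∧
    ∀ k, n < k → (pol P n v).coeff k = 0 := by
  refine ⟨?_, ?_, ?_⟩
  · simp only [pol, Polynomial.coeff_add, Polynomial.finsetSum_coeff, Polynomial.coeff_C_zero]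
    rw [Finset.sum_eq_zero, add_zero]
    intro j hj
    have h1 : 1 ≤ j := (Finset.mem_Icc.mp hj).1
    rw [Polynomial.coeff_C_mul, Polynomial.coeff_X_pow, if_neg (by omega), mul_zero]
  · intro j hj
    have hjn : (j : ℕ) < n + 1 := j.isLt
    simp only [pol, Polynomial.coeff_add, Polynomial.finsetSum_coeff]
    rw [Polynomial.coeff_C_of_ne_zero hj, zero_add, Finset.sum_eq_single (j : ℕ)]
    · rw [Polynomial.coeff_C_mul, Polynomial.coeff_X_pow, if_pos rfl, mul_one, dif_pos hjn]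
    · intro k _ hk
      rw [Polynomial.coeff_C_mul, Polynomial.coeff_X_pow, if_neg (fun h => hk h.symm), mul_zero]
    · intro h
      exact absurd (Finset.mem_Icc.mpr ⟨Nat.one_le_iff_ne_zero.mpr hj, by omega⟩) h
  · intro k hk
    simp only [pol, Polynomial.coeff_add, Polynomial.finsetSum_coeff]
    rw [Polynomial.coeff_C_of_ne_zero (by omega), zero_add, Finset.sum_eq_zero]
    intro j hj
    have h1 : j ≤ n := (Finset.mem_Icc.mp hj).2
    rw [Polynomial.coeff_C_mul, Polynomial.coeff_X_pow, if_neg (by omega), mul_zero]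

/-- A sum over `Icc 1 n` as a sum over `Fin n`. -/
private theorem P1_icc {M : Type} [AddCommMonoid M] (n : ℕ) (f : ℕ → M) :
    ∑ j ∈ Finset.Icc 1 n, f j = ∑ j : Fin n, f ((j : ℕ) + 1) := by
  have h : Finset.Icc 1 n = Finset.Ico 1 (n + 1) := by
    ext j
    simp only [Finset.mem_Icc, Finset.mem_Ico]
    omega
  rw [h, Finset.sum_Ico_eq_sum_range, Nat.add_sub_cancel,
    ← Fin.sum_univ_eq_sum_range (fun i => f (1 + i))]
  exact Finset.sum_congr rfl fun j _ => by rw [add_comm]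

/-- `pol` as a sum over `Fin n`. -/
private theorem P1_sum (P : Par) (n : ℕ) (v : Fin (n + 1) → ℂ) :
    pol P n v = Polynomial.C (v 0 * P.ρ) + ∑ j : Fin n,
      Polynomial.C (v j.succ + P.ξ * P.gh ^ ((j : ℕ) + 1) * v 0) *
        Polynomial.X ^ ((j : ℕ) + 1) := by
  unfold pol
  rw [P1_icc]
  congr 1
  refine Finset.sum_congr rfl fun j _ => ?_
  have hj : (j : ℕ) + 1 < n + 1 := by omega
  rw [dif_pos hj]
  rfl

private theorem P1_deg (P : Par) (n : ℕ) (v : Fin (n + 1) → ℂ) : (pol P n v).natDegree ≤ n :=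
  Polynomial.natDegree_le_iff_coeff_eq_zero.2 (P1_coeff P n v).2.2

/-- Equality from the coefficients up to `n`. -/
private theorem P1_ext (P : Par) (n : ℕ) (v : Fin (n + 1) → ℂ) (p : Polynomial ℂ)
    (hp : p.natDegree ≤ n) (h0 : v 0 * P.ρ = p.coeff 0)
    (h1 : ∀ j : Fin (n + 1), (j : ℕ) ≠ 0 → v j + P.ξ * P.gh ^ (j : ℕ) * v 0 = p.coeff j) :
    pol P n v = p := by
  obtain ⟨c0, c1, c2⟩ := P1_coeff P n v
  ext k
  rcases Nat.eq_zero_or_pos k with rfl | hk
  · rw [c0, h0]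
  · by_cases hkn : k ≤ n
    · have hk0 : ((⟨k, by omega⟩ : Fin (n + 1)) : ℕ) ≠ 0 := hk.ne'
      have h2 := c1 ⟨k, by omega⟩ hk0
      have h3 := h1 ⟨k, by omega⟩ hk0
      rw [h3] at h2
      exact h2
    · rw [c2 k (by omega), Polynomial.coeff_eq_zero_of_natDegree_lt (by omega)]

/-- `pol` is additive and homogeneous, of degree at most `n`. -/
theorem pol_lin (P : Par) (n : ℕ) (v v' : Fin (n + 1) → ℂ) (c : ℂ) :
    pol P n (v + v') = pol P n v + pol P n v' ∧ pol P n (c • v) = Polynomial.C c * pol P n v ∧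
    (pol P n v).natDegree ≤ n := by
  obtain ⟨c0, c1, -⟩ := P1_coeff P n v
  obtain ⟨d0, d1, -⟩ := P1_coeff P n v'
  refine ⟨P1_ext P n _ _ ?_ ?_ ?_, P1_ext P n _ _ ?_ ?_ ?_, P1_deg P n v⟩
  · exact (Polynomial.natDegree_add_le _ _).trans (max_le (P1_deg P n v) (P1_deg P n v'))
  · rw [Polynomial.coeff_add, c0, d0, Pi.add_apply]
    ring
  · intro j hj
    rw [Polynomial.coeff_add, c1 j hj, d1 j hj, Pi.add_apply, Pi.add_apply]
    ring
  · exact (Polynomial.natDegree_C_mul_le _ _).trans (P1_deg P n v)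
  · rw [Polynomial.coeff_C_mul, c0, Pi.smul_apply, smul_eq_mul]
    ring
  · intro j hj
    rw [Polynomial.coeff_C_mul, c1 j hj, Pi.smul_apply, Pi.smul_apply, smul_eq_mul, smul_eq_mul]
    ring

/-- `pol` is bijective onto the polynomials of degree at most `n` (`ρ ≠ 0`), and real vectors
correspond to real polynomials. -/
theorem pol_surj (hρ : P.ρ ≠ 0) (n : ℕ) (p : Polynomial ℂ) (hp : p.natDegree ≤ n) :
    ∃ v, pol P n v = p ∧ ((∀ k, (p.coeff k).im = 0) → Rea v) ∧ ∀ v', pol P n v' = p → v' = v := by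
  have hρ' : (P.ρ : ℂ) ≠ 0 := by exact_mod_cast hρ
  refine ⟨fun j => if (j : ℕ) = 0 then p.coeff 0 / P.ρ else
    p.coeff j - P.ξ * P.gh ^ (j : ℕ) * (p.coeff 0 / P.ρ), ?_, ?_, ?_⟩
  · refine P1_ext P n _ _ hp ?_ ?_
    · have hz : ((0 : Fin (n + 1)) : ℕ) = 0 := rfl
      rw [if_pos hz]
      field_simp
    · intro j hj
      have hz : ((0 : Fin (n + 1)) : ℕ) = 0 := rfl
      rw [if_neg hj, if_pos hz]
      ring
  · intro hre j
    have h0 : (p.coeff 0 / (P.ρ : ℂ)).im = 0 := by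
      rw [Complex.div_ofReal_im, hre 0, zero_div]
    beta_reduce
    by_cases hj : (j : ℕ) = 0
    · rw [if_pos hj]
      exact h0
    · rw [if_neg hj, Complex.sub_im, hre]
      have h1 : ((P.ξ : ℂ) * (P.gh : ℂ) ^ (j : ℕ) * (p.coeff 0 / (P.ρ : ℂ))).im = 0 := by
        rw [← Complex.ofReal_pow, ← Complex.ofReal_mul, Complex.im_ofReal_mul, h0, mul_zero]
      rw [h1, sub_zero]
  · intro v' hv'
    obtain ⟨c0, c1, -⟩ := P1_coeff P n v'
    rw [hv'] at c0 c1
    have h0 : v' 0 = p.coeff 0 / P.ρ := by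
      rw [c0]
      field_simp
    funext j
    by_cases hj : (j : ℕ) = 0
    · have hj0 : j = 0 := Fin.ext hj
      rw [if_pos hj, hj0, h0]
    · rw [if_neg hj, c1 j hj, ← h0]
      ring

/-- `tau` is the Taylor coefficient: `pr (tau P n g l) v = ((pol P n v).comp (X + C g)).coeff l`
(`Polynomial.taylor`). -/
theorem pr_tau (P : Par) (n : ℕ) (g : ℝ) (l : ℕ) (v : Fin (n + 1) → ℂ) :
    pr (tau P n g l) v = (Polynomial.taylor (g : ℂ) (pol P n v)).coeff l := by
  rw [P1_sum, map_add, map_sum, Polynomial.coeff_add, Polynomial.finsetSum_coeff,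
    Polynomial.taylor_C, Polynomial.coeff_C]
  unfold pr
  rw [Fin.sum_univ_succ]
  have e1 : ∀ j : Fin n, (Polynomial.taylor (g : ℂ)
      (Polynomial.C (v j.succ + P.ξ * P.gh ^ ((j : ℕ) + 1) * v 0) *
        Polynomial.X ^ ((j : ℕ) + 1))).coeff l =
      (v j.succ + P.ξ * P.gh ^ ((j : ℕ) + 1) * v 0) *
        ((g : ℂ) ^ ((j : ℕ) + 1 - l) * (((j : ℕ) + 1).choose l : ℂ)) := by
    intro j
    rw [Polynomial.taylor_mul, Polynomial.taylor_C, Polynomial.taylor_X_pow,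
      Polynomial.coeff_C_mul, Polynomial.coeff_X_add_C_pow]
  have e2 : ∀ j : Fin n, ((tau P n g l j.succ : ℝ) : ℂ) * v j.succ =
      v j.succ * ((g : ℂ) ^ ((j : ℕ) + 1 - l) * (((j : ℕ) + 1).choose l : ℂ)) := by
    intro j
    unfold tau
    rw [if_neg (by simp), Fin.val_succ]
    push_cast
    ring
  have e3 : ((tau P n g l 0 : ℝ) : ℂ) * v 0 = (if l = 0 then v 0 * P.ρ else 0) +
      ∑ j : Fin n, P.ξ * P.gh ^ ((j : ℕ) + 1) * v 0 *
        ((g : ℂ) ^ ((j : ℕ) + 1 - l) * (((j : ℕ) + 1).choose l : ℂ)) := by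
    unfold tau
    have hz : ((0 : Fin (n + 1)) : ℕ) = 0 := rfl
    rw [if_pos hz, P1_icc]
    push_cast
    rw [add_mul, Finset.mul_sum, Finset.sum_mul]
    congr 1
    · split_ifs <;> (push_cast; ring)
    · exact Finset.sum_congr rfl fun j _ => by ring
  rw [e3, add_assoc, ← Finset.sum_add_distrib]
  congr 1
  refine Finset.sum_congr rfl fun j _ => ?_
  rw [e1 j, e2 j]
  ring

theorem pr_hv (P : Par) (n : ℕ) (v : Fin (n + 1) → ℂ) (h0 : v 0 = 0) :
    pr (hv P n) v = (pol P n v).eval (P.gh : ℂ) ∧ (pol P n v).eval 0 = 0 := by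
  constructor
  · rw [P1_sum, Polynomial.eval_add, Polynomial.eval_finsetSum, Polynomial.eval_C, h0, zero_mul,
      zero_add]
    unfold pr
    rw [Fin.sum_univ_succ, h0, mul_zero, zero_add]
    refine Finset.sum_congr rfl fun j _ => ?_
    unfold hv
    rw [if_neg (by simp), Fin.val_succ, mul_zero, add_zero, Polynomial.eval_mul, Polynomial.eval_C,
      Polynomial.eval_pow, Polynomial.eval_X]
    push_cast
    ring
  · rw [← Polynomial.coeff_zero_eq_eval_zero, (P1_coeff P n v).1, h0, zero_mul]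

/-- Membership in `Xo` in terms of divisibility (`ρ ≠ 0`). Here `nd x` is `1`, `X`, `X (X - gh)`. -/
theorem mem_Xo (hP : GoodP P N) (n : ℕ) (x : Fin 3) (i : ℕ → ℕ) (v : Fin (n + 1) → ℂ) :
    v ∈ Xo P n x i ↔ ((x ≠ 0 → Polynomial.X ∣ pol P n v) ∧
      (x = 2 → (Polynomial.X - Polynomial.C (P.gh : ℂ)) ∣ pol P n v) ∧
      ∀ p, (Polynomial.X - Polynomial.C (P.g p : ℂ)) ^ i p ∣ pol P n v) := by
  have hρ : (P.ρ : ℂ) ≠ 0 := by exact_mod_cast hP.hρ.ne'
  have h1 : Polynomial.X ∣ pol P n v ↔ v 0 = 0 := by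
    rw [Polynomial.X_dvd_iff, (P1_coeff P n v).1, mul_eq_zero, or_iff_left hρ]
  have h2 : ∀ p, (Polynomial.X - Polynomial.C (P.g p : ℂ)) ^ i p ∣ pol P n v ↔
      ∀ l, l < i p → pr (tau P n (P.g p) l) v = 0 := by
    intro p
    rw [Polynomial.X_sub_C_pow_dvd_iff, Polynomial.X_pow_dvd_iff]
    refine forall₂_congr fun l _ => ?_
    rw [pr_tau, Polynomial.taylor_apply]
  have h3 : v ∈ Xo P n x i ↔ ((x ≠ 0 → v 0 = 0) ∧ (x = 2 → pr (hv P n) v = 0)) ∧
      ∀ p l, l < i p → pr (tau P n (P.g p) l) v = 0 := Iff.rfl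
  rw [h3, and_assoc, h1]
  refine and_congr_right fun h4 => and_congr ?_ (forall_congr' fun p => (h2 p).symm)
  refine forall_congr' fun hx => ?_
  have hx0 : x ≠ 0 := by
    rw [hx]
    decide
  rw [(pr_hv P n v (h4 hx0)).1, Polynomial.dvd_iff_isRoot, Polynomial.IsRoot.def]

end

end Pool.Agent.MPb0eK
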