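import Mathlib
import Pool.Agent.Lib.MP_b0e20b_ag_K.P1
import Pool.Agent.Lib.MP_b0e20b_ag_K.FA

/-!
# MP_b0e20b_ag, project K: the polynomial model: the node product, flags
-/

set_option autoImplicit false

open scoped BigOperators Topology
open Filter

namespace Pool.Agent.MPb0eK

open MPb0eR (c1 c2 c3 tr q Sup Rl Rea uf Nrm cj AF scl)

section

variable {P : Par} {N : ℕ}

/-- The product of the node factors: `X ^ [x ≠ 0] (X - gh) ^ [x = 2] ∏ p ≤ N, (X - g p) ^ i p`. -/
noncomputable def nod (P : Par) (N : ℕ) (x : Fin 3) (i : ℕ → ℕ) : Polynomial ℂ :=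
  (if x ≠ 0 then Polynomial.X else 1)
    * (if x = 2 then Polynomial.X - Polynomial.C (P.gh : ℂ) else 1)
    * ∏ p ∈ Finset.range (N + 1), (Polynomial.X - Polynomial.C (P.g p : ℂ)) ^ i p

/-- The degree of the node product. -/
def dg (N : ℕ) (x : Fin 3) (i : ℕ → ℕ) : ℕ := (x : ℕ) + ∑ p ∈ Finset.range (N + 1), i p

private theorem p2_gh (hP : GoodP P N) (p : ℕ) : P.gh < P.g (p + 1) := by
  induction p with
  | zero => exact hP.h2
  | succ p ih => exact ih.trans (hP.h3 (p + 1) (by omega))

private theorem p2_pos (hP : GoodP P N) (p : ℕ) : 0 < P.g p := by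
  cases p with
  | zero => exact hP.h0
  | succ p => exact (hP.h0.trans hP.h1).trans (p2_gh hP p)

private theorem p2_ne_gh (hP : GoodP P N) (p : ℕ) : P.g p ≠ P.gh := by
  cases p with
  | zero => exact hP.h1.ne
  | succ p => exact (p2_gh hP p).ne'

private theorem p2_mono (hP : GoodP P N) : StrictMono fun p => P.g (p + 1) :=
  strictMono_nat_of_lt_succ fun p => hP.h3 (p + 1) (by omega)

private theorem p2_inj (hP : GoodP P N) {p p' : ℕ} (h : p ≠ p') : P.g p ≠ P.g p' := by
  cases p with
  | zero =>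
    cases p' with
    | zero => exact absurd rfl h
    | succ p' => exact (hP.h1.trans (p2_gh hP p')).ne
  | succ p =>
    cases p' with
    | zero => exact (hP.h1.trans (p2_gh hP p)).ne'
    | succ p' => exact fun e => h (congrArg (· + 1) ((p2_mono hP).injective e))

private theorem p2_cop {F : Type} [Field F] {a b : F} (h : a ≠ b) (m : ℕ) :
    IsCoprime (Polynomial.X - Polynomial.C a) ((Polynomial.X - Polynomial.C b) ^ m) :=
  (Polynomial.isCoprime_X_sub_C_of_isUnit_sub (sub_ne_zero.2 h).isUnit).pow_right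

private theorem p2_copX {F : Type} [Field F] {b : F} (h : b ≠ 0) (m : ℕ) :
    IsCoprime (Polynomial.X : Polynomial F) ((Polynomial.X - Polynomial.C b) ^ m) := by
  have h1 := p2_cop (F := F) (a := 0) (b := b) h.symm m
  rwa [Polynomial.C_0, sub_zero] at h1

private theorem p2_cop2 {F : Type} [Field F] {a b : F} (h : a ≠ b) (k m : ℕ) :
    IsCoprime ((Polynomial.X - Polynomial.C a) ^ k) ((Polynomial.X - Polynomial.C b) ^ m) :=
  (p2_cop h m).pow_left

/-- The real node product. -/
private noncomputable def p2_nr (P : Par) (N : ℕ) (x : Fin 3) (i : ℕ → ℕ) : Polynomial ℝ :=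
  (if x ≠ 0 then Polynomial.X else 1)
    * (if x = 2 then Polynomial.X - Polynomial.C P.gh else 1)
    * ∏ p ∈ Finset.range (N + 1), (Polynomial.X - Polynomial.C (P.g p)) ^ i p

private theorem p2_map (P : Par) (N : ℕ) (x : Fin 3) (i : ℕ → ℕ) :
    (p2_nr P N x i).map Complex.ofRealHom = nod P N x i := by
  unfold p2_nr nod
  rw [Polynomial.map_mul, Polynomial.map_mul, Polynomial.map_prod]
  congr 1
  · congr 1
    · split_ifs
      · exact Polynomial.map_X _
      · exact Polynomial.map_one _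
    · split_ifs
      · rw [Polynomial.map_sub, Polynomial.map_X, Polynomial.map_C]
        rfl
      · exact Polynomial.map_one _
  · refine Finset.prod_congr rfl fun p _ => ?_
    rw [Polynomial.map_pow, Polynomial.map_sub, Polynomial.map_X, Polynomial.map_C]
    rfl

private theorem p2_pr_sum {B : Type} [Fintype B] (f : B → ℝ) (s : Finset ℕ) (c : ℕ → ℂ)
    (z : ℕ → B → ℂ) : pr f (∑ l ∈ s, c l • z l) = ∑ l ∈ s, c l * pr f (z l) := by
  classical
  induction s using Finset.induction_on with
  | empty => simp [pr]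
  | insert a s ha ih => rw [Finset.sum_insert ha, Finset.sum_insert ha, pr_add, pr_smul, ih]

private theorem p2_ofReal_ne {a b : ℝ} (h : a ≠ b) : (a : ℂ) ≠ (b : ℂ) :=
  fun e => h (Complex.ofReal_injective e)

/-- `Xo` = the multiples of the node product (the nodes `0, gh, g 0, ..., g N` are different). -/
theorem mem_Xo' (hP : GoodP P N) (n : ℕ) (x : Fin 3) {i : ℕ → ℕ} (hi : ∀ p, N < p → i p = 0)
    (v : Fin (n + 1) → ℂ) : v ∈ Xo P n x i ↔ nod P N x i ∣ pol P n v := by
  rw [mem_Xo hP]
  unfold nod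
  constructor
  · rintro ⟨h1, h2, h3⟩
    have hA : (if x ≠ 0 then Polynomial.X else 1 : Polynomial ℂ) ∣ pol P n v := by
      split_ifs with h
      · exact h1 h
      · exact one_dvd _
    have hB : (if x = 2 then Polynomial.X - Polynomial.C (P.gh : ℂ) else 1 : Polynomial ℂ) ∣
        pol P n v := by
      split_ifs with h
      · exact h2 h
      · exact one_dvd _
    have hAB : IsCoprime (if x ≠ 0 then Polynomial.X else 1 : Polynomial ℂ)
        (if x = 2 then Polynomial.X - Polynomial.C (P.gh : ℂ) else 1 : Polynomial ℂ) := by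
      split_ifs
      · have h := p2_copX (F := ℂ) (b := (P.gh : ℂ))
          (by rw [Ne, Complex.ofReal_eq_zero]; exact (hP.h0.trans hP.h1).ne') 1
        rwa [pow_one] at h
      · exact isCoprime_one_right
      · exact isCoprime_one_left
      · exact isCoprime_one_right
    have hAp : IsCoprime (if x ≠ 0 then Polynomial.X else 1 : Polynomial ℂ)
        (∏ p ∈ Finset.range (N + 1), (Polynomial.X - Polynomial.C (P.g p : ℂ)) ^ i p) := by
      refine IsCoprime.prod_right fun p _ => ?_
      split_ifs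
      · exact p2_copX (by rw [Ne, Complex.ofReal_eq_zero]; exact (p2_pos hP p).ne') _
      · exact isCoprime_one_left
    have hBp : IsCoprime
        (if x = 2 then Polynomial.X - Polynomial.C (P.gh : ℂ) else 1 : Polynomial ℂ)
        (∏ p ∈ Finset.range (N + 1), (Polynomial.X - Polynomial.C (P.g p : ℂ)) ^ i p) := by
      refine IsCoprime.prod_right fun p _ => ?_
      split_ifs
      · exact p2_cop (p2_ofReal_ne (p2_ne_gh hP p).symm) _
      · exact isCoprime_one_left
    refine (hAp.mul_left hBp).mul_dvd (hAB.mul_dvd hA hB) ?_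
    refine Finset.prod_dvd_of_coprime (fun a _ b _ hab => ?_) fun p _ => h3 p
    exact p2_cop2 (p2_ofReal_ne (p2_inj hP hab)) _ _
  · intro h
    refine ⟨fun hx => ?_, fun hx => ?_, fun p => ?_⟩
    · refine dvd_trans ?_ h
      rw [if_pos hx]
      exact Dvd.intro _ (mul_assoc _ _ _).symm
    · refine dvd_trans ?_ h
      rw [if_pos hx]
      exact (Dvd.intro_left _ rfl).trans (Dvd.intro _ rfl)
    · by_cases hp : N < p
      · rw [hi p hp, pow_zero]
        exact one_dvd _
      · refine dvd_trans ?_ h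
        refine dvd_trans ?_ (Dvd.intro_left _ rfl)
        exact Finset.dvd_prod_of_mem (fun p => (Polynomial.X - Polynomial.C (P.g p : ℂ)) ^ i p)
          (Finset.mem_range.2 (by omega))

/-- The node product has degree `dg`; `Xo` is zero iff `n < dg`. -/
theorem nod_deg (P : Par) (N : ℕ) (x : Fin 3) (i : ℕ → ℕ) :
    (nod P N x i).natDegree = dg N x i ∧ (nod P N x i).Monic ∧
    ∀ k, ((nod P N x i).coeff k).im = 0 := by
  have hm : ∀ p ∈ Finset.range (N + 1),
      ((Polynomial.X - Polynomial.C (P.g p : ℂ)) ^ i p).Monic :=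
    fun p _ => (Polynomial.monic_X_sub_C _).pow _
  have hmp := Polynomial.monic_prod_of_monic _ _ hm
  have hd : (∏ p ∈ Finset.range (N + 1),
      (Polynomial.X - Polynomial.C (P.g p : ℂ)) ^ i p).natDegree =
        ∑ p ∈ Finset.range (N + 1), i p := by
    rw [Polynomial.natDegree_prod_of_monic _ _ hm]
    refine Finset.sum_congr rfl fun p _ => ?_
    rw [Polynomial.natDegree_pow, Polynomial.natDegree_X_sub_C, mul_one]
  have hA : ∀ x : Fin 3, ((if x ≠ 0 then Polynomial.X else 1 : Polynomial ℂ) *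
      (if x = 2 then Polynomial.X - Polynomial.C (P.gh : ℂ) else 1)).Monic ∧
      ((if x ≠ 0 then Polynomial.X else 1 : Polynomial ℂ) *
      (if x = 2 then Polynomial.X - Polynomial.C (P.gh : ℂ) else 1)).natDegree = (x : ℕ) := by
    intro x
    fin_cases x
    · simp
    · simp [Polynomial.monic_X]
    · have h1 : ((2 : Fin 3) ≠ 0) := by decide
      have h2 : (Polynomial.X : Polynomial ℂ).Monic := Polynomial.monic_X
      have h3 := Polynomial.monic_X_sub_C (P.gh : ℂ)
      refine ⟨?_, ?_⟩
      · change ((if (2 : Fin 3) ≠ 0 then Polynomial.X else 1 : Polynomial ℂ) *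
          (if (2 : Fin 3) = 2 then Polynomial.X - Polynomial.C (P.gh : ℂ) else 1)).Monic
        rw [if_pos h1, if_pos rfl]
        exact h2.mul h3
      · change ((if (2 : Fin 3) ≠ 0 then Polynomial.X else 1 : Polynomial ℂ) *
          (if (2 : Fin 3) = 2 then Polynomial.X - Polynomial.C (P.gh : ℂ) else 1)).natDegree = 2
        rw [if_pos h1, if_pos rfl, h2.natDegree_mul h3, Polynomial.natDegree_X,
          Polynomial.natDegree_X_sub_C]
  refine ⟨?_, ?_, fun k => ?_⟩
  · unfold nod dg
    rw [(hA x).1.natDegree_mul hmp, (hA x).2, hd]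
  · unfold nod
    exact (hA x).1.mul hmp
  · rw [← p2_map, Polynomial.coeff_map]
    exact Complex.ofReal_im _

theorem Xo_bot (hP : GoodP P N) (n : ℕ) (x : Fin 3) {i : ℕ → ℕ} (hi : ∀ p, N < p → i p = 0)
    (h : n < dg N x i) : Xo P n x i = ⊥ := by
  rw [eq_bot_iff]
  intro v hv
  rw [mem_Xo' hP n x hi] at hv
  have h1 : pol P n v = 0 := by
    refine Polynomial.eq_zero_of_dvd_of_natDegree_lt hv ?_
    rw [(nod_deg P N x i).1]
    exact lt_of_le_of_lt (pol_lin P n v v 0).2.2 h
  obtain ⟨w, -, -, hw⟩ := pol_surj hP.hρ.ne' n 0 (by rw [Polynomial.natDegree_zero]; omega)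
  have h2 : pol P n (0 : Fin (n + 1) → ℂ) = 0 := by
    have h3 := (pol_lin P n v v 0).2.1
    rwa [zero_smul, Polynomial.C_0, zero_mul] at h3
  rw [Submodule.mem_bot, hw v h1, ← hw 0 h2]

theorem Xo_cj (P : Par) (n : ℕ) (x : Fin 3) (i : ℕ → ℕ) : Cj (Xo P n x i) := by
  rintro v ⟨h1, h2⟩
  refine ⟨XM_cj _ _ _ v h1, fun p l hl => ?_⟩
  rw [pr_cj, h2 p l hl, map_zero]

private theorem p2_XiXo (P : Par) (n : ℕ) (x : Fin 3) {i : ℕ → ℕ} {p : ℕ} (h0 : i p = 0) (k : ℕ) :
    Xi (Xo P n x i) (tau P n (P.g p)) k = Xo P n x (at' i p k) := by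
  ext v
  constructor
  · rintro ⟨⟨h1, h2⟩, h3⟩
    refine ⟨h1, fun p' l hl => ?_⟩
    by_cases hp : p' = p
    · subst hp
      rw [at', Function.update_self] at hl
      exact h3 l hl
    · rw [at', Function.update_of_ne hp] at hl
      exact h2 p' l hl
  · rintro ⟨h1, h2⟩
    refine ⟨⟨h1, fun p' l hl => ?_⟩, fun l hl => ?_⟩
    · have hp : p' ≠ p := by
        rintro rfl
        rw [h0] at hl
        exact absurd hl (Nat.not_lt_zero l)
      refine h2 p' l ?_
      rw [at', Function.update_of_ne hp]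
      exact hl
    · refine h2 p l ?_
      rw [at', Function.update_self]
      exact hl

/-- The dual vectors. -/
private theorem p2_dual (hP : GoodP P N) (n : ℕ) (x : Fin 3) {i : ℕ → ℕ}
    (hi : ∀ p, N < p → i p = 0) {p : ℕ} (h0 : i p = 0) {l : ℕ} (hl : l < n + 1 - dg N x i) :
    ∃ z : Fin (n + 1) → ℝ, (fun b => (z b : ℂ)) ∈ Xo P n x i ∧
      ∀ k, k < n + 1 - dg N x i → pr (tau P n (P.g p) k) (fun b => (z b : ℂ)) =
        if k = l then 1 else 0 := by
  obtain ⟨D, hD⟩ : ∃ D, D = n + 1 - dg N x i := ⟨_, rfl⟩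
  rw [← hD] at hl
  rw [← hD]
  have hcop : IsCoprime (p2_nr P N x i) ((Polynomial.X - Polynomial.C (P.g p)) ^ D) := by
    unfold p2_nr
    refine IsCoprime.mul_left (IsCoprime.mul_left ?_ ?_) (IsCoprime.prod_left fun p' _ => ?_)
    · split_ifs
      · exact p2_copX (p2_pos hP p).ne' _
      · exact isCoprime_one_left
    · split_ifs
      · exact p2_cop (p2_ne_gh hP p).symm _
      · exact isCoprime_one_left
    · by_cases hp : p' = p
      · rw [hp, h0, pow_zero]
        exact isCoprime_one_left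
      · exact p2_cop2 (p2_inj hP hp) _ _
  obtain ⟨a, b, hab⟩ := hcop
  have hmon : ((Polynomial.X - Polynomial.C (P.g p)) ^ D).Monic :=
    (Polynomial.monic_X_sub_C _).pow _
  have hmd := Polynomial.modByMonic_add_div (a * (Polynomial.X - Polynomial.C (P.g p)) ^ l)
    ((Polynomial.X - Polynomial.C (P.g p)) ^ D)
  obtain ⟨Q, hQ⟩ : ∃ Q, Q = (a * (Polynomial.X - Polynomial.C (P.g p)) ^ l) %ₘ
    ((Polynomial.X - Polynomial.C (P.g p)) ^ D) := ⟨_, rfl⟩
  obtain ⟨s, hs⟩ : ∃ s, s = (a * (Polynomial.X - Polynomial.C (P.g p)) ^ l) /ₘ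
    ((Polynomial.X - Polynomial.C (P.g p)) ^ D) := ⟨_, rfl⟩
  have hQd : Q.natDegree < D := by
    have h1 : ((Polynomial.X - Polynomial.C (P.g p)) ^ D).natDegree = D := by
      rw [Polynomial.natDegree_pow, Polynomial.natDegree_X_sub_C, mul_one]
    have h2 : (Polynomial.X - Polynomial.C (P.g p)) ^ D ≠ 1 := by
      intro h3
      rw [h3, Polynomial.natDegree_one] at h1
      omega
    have h4 := Polynomial.natDegree_modByMonic_lt
      (a * (Polynomial.X - Polynomial.C (P.g p)) ^ l) hmon h2
    rw [← hQ, h1] at h4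
    exact h4
  rw [← hQ, ← hs] at hmd
  have hkey : p2_nr P N x i * Q = (Polynomial.X - Polynomial.C (P.g p)) ^ l +
      (Polynomial.X - Polynomial.C (P.g p)) ^ D *
        (-(b * (Polynomial.X - Polynomial.C (P.g p)) ^ l) - p2_nr P N x i * s) := by
    linear_combination (p2_nr P N x i) * hmd + (Polynomial.X - Polynomial.C (P.g p)) ^ l * hab
  have hdeg : (Polynomial.map Complex.ofRealHom (p2_nr P N x i * Q)).natDegree ≤ n := by
    rw [Polynomial.map_mul, p2_map]
    refine Polynomial.natDegree_mul_le.trans ?_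
    rw [(nod_deg P N x i).1]
    have h5 := Polynomial.natDegree_map_le (f := Complex.ofRealHom) (p := Q)
    omega
  obtain ⟨v, hv, hre, -⟩ := pol_surj hP.hρ.ne' n _ hdeg
  have hvR : Rea v := hre fun k => by
    rw [Polynomial.coeff_map]
    exact Complex.ofReal_im _
  have hvz : (fun b => ((v b).re : ℂ)) = v := by
    funext b
    exact Complex.ext rfl (by rw [hvR b, Complex.ofReal_im])
  refine ⟨fun b => (v b).re, ?_, fun k hk => ?_⟩
  · rw [hvz, mem_Xo' hP n x hi, hv, Polynomial.map_mul, p2_map]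
    exact Dvd.intro _ rfl
  · rw [hvz, pr_tau, hv, ← Complex.ofRealHom_eq_coe, ← Polynomial.map_taylor,
      Polynomial.coeff_map, hkey, map_add, Polynomial.taylor_mul, Polynomial.taylor_pow,
      Polynomial.taylor_pow]
    have hX : Polynomial.taylor (P.g p) (Polynomial.X - Polynomial.C (P.g p)) =
        Polynomial.X := by
      rw [map_sub, Polynomial.taylor_X, Polynomial.taylor_C, add_sub_cancel_right]
    rw [hX, Polynomial.coeff_add, Polynomial.coeff_X_pow, Polynomial.coeff_X_pow_mul',
      if_neg (not_le.2 hk), add_zero]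
    split_ifs
    · exact Complex.ofReal_one
    · exact Complex.ofReal_zero

/-- Flags at a node with order zero: `D = n + 1 - dg`.

Proof. The Taylor coefficients at `g p` of order `< D` are coordinates on the multiples of the node
product `Ω` of degree `≤ n`: the polynomial `Ω Q`, `deg Q < D`, `Ω (g p) ≠ 0`; if all coefficients
of
order `< D` vanish then `(X - g p) ^ D ∣ Q`, so `Q = 0`; dimension count (or explicitly: triangular
system), and the dual basis is real because everything is real (conjugate and use uniqueness). -/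
theorem flag (hP : GoodP P N) (n : ℕ) (x : Fin 3) {i : ℕ → ℕ} (hi : ∀ p, N < p → i p = 0) {p : ℕ}
    (hp : p ≤ N) (h0 : i p = 0) :
    ∃ z : ℕ → Fin (n + 1) → ℝ, Flag (Xo P n x i) (n + 1 - dg N x i) (tau P n (P.g p)) z := by
  classical
  obtain ⟨D, hD⟩ : ∃ D, D = n + 1 - dg N x i := ⟨_, rfl⟩
  have hex : ∀ l, ∃ z : Fin (n + 1) → ℝ, l < D → (fun b => (z b : ℂ)) ∈ Xo P n x i ∧
      ∀ k, k < D → pr (tau P n (P.g p) k) (fun b => (z b : ℂ)) = if k = l then 1 else 0 := by
    intro l
    by_cases hl : l < D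
    · rw [hD] at hl
      obtain ⟨z, h1, h2⟩ := p2_dual hP n x hi h0 hl
      exact ⟨z, fun _ => ⟨h1, fun k hk => h2 k (by rw [← hD]; exact hk)⟩⟩
    · exact ⟨0, fun h => absurd h hl⟩
  choose z hz using hex
  refine ⟨z, ?_⟩
  rw [← hD]
  refine ⟨fun l hl => (hz l hl).1, fun k l hk hl => (hz l hl).2 k hk, fun v hv => ?_⟩
  have hd : v - ∑ l ∈ Finset.range D, pr (tau P n (P.g p) l) v • (fun b => (z l b : ℂ)) ∈
      Xo P n x (at' i p D) := by
    rw [← p2_XiXo P n x h0]
    refine ⟨Submodule.sub_mem _ hv (Submodule.sum_mem _ fun l hl =>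
      Submodule.smul_mem _ _ (hz l (Finset.mem_range.1 hl)).1), fun k hk => ?_⟩
    have e1 : v - ∑ l ∈ Finset.range D, pr (tau P n (P.g p) l) v • (fun b => (z l b : ℂ)) =
        v + (-1 : ℂ) • ∑ l ∈ Finset.range D, pr (tau P n (P.g p) l) v •
          (fun b => (z l b : ℂ)) := by
      rw [neg_one_smul, sub_eq_add_neg]
    rw [e1, pr_add, pr_smul, p2_pr_sum]
    have e2 : ∀ l ∈ Finset.range D, pr (tau P n (P.g p) l) v *
        pr (tau P n (P.g p) k) (fun b => (z l b : ℂ)) =
          if k = l then pr (tau P n (P.g p) l) v else 0 := by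
      intro l hl
      rw [(hz l (Finset.mem_range.1 hl)).2 k hk]
      split_ifs
      · rw [mul_one]
      · rw [mul_zero]
    rw [Finset.sum_congr rfl e2, Finset.sum_ite_eq, if_pos (Finset.mem_range.2 hk)]
    ring
  have hdg : dg N x (at' i p D) = dg N x i + D := by
    have e3 : ∀ p', at' i p D p' = i p' + if p' = p then D else 0 := by
      intro p'
      by_cases hp' : p' = p
      · rw [hp', at', Function.update_self, if_pos rfl, h0, zero_add]
      · rw [at', Function.update_of_ne hp', if_neg hp', add_zero]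
    unfold dg
    rw [Finset.sum_congr rfl fun p' _ => e3 p', Finset.sum_add_distrib, Finset.sum_ite_eq',
      if_pos (Finset.mem_range.2 (by omega)), add_assoc]
  have hbot := Xo_bot hP n x (i := at' i p D) (fun p' hp' => by
    rw [at', Function.update_of_ne (by omega)]
    exact hi p' hp') (by rw [hdg]; omega)
  rw [hbot, Submodule.mem_bot, sub_eq_zero] at hd
  exact hd

/-- `Xi` of the flag is `Xo` with the order changed. -/
theorem Xi_Xo (P : Par) (n : ℕ) (x : Fin 3) {i : ℕ → ℕ} {p : ℕ} (h0 : i p = 0) (k : ℕ)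
    (hinj : ∀ p', p' ≠ p → P.g p' = P.g p → False) :
    Xi (Xo P n x i) (tau P n (P.g p)) k = Xo P n x (at' i p k) :=
  p2_XiXo P n x h0 k

end

end Pool.Agent.MPb0eK
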