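import Mathlib
import Pool.Agent.Lib.MP_b0e20b_ag_K.P2

/-!
# MP_b0e20b_ag, project K: the polynomial model: test vectors
-/

set_option autoImplicit false

open scoped BigOperators Topology
open Filter

namespace Pool.Agent.MPb0eK

open MPb0eR (c1 c2 c3 tr q Sup Rl Rea uf Nrm cj AF scl)

section

variable {P : Par} {N : ℕ}

/-- The nodes are increasing. -/
private theorem P3_mono (hP : GoodP P N) : StrictMono P.g := by
  refine strictMono_nat_of_lt_succ fun n => ?_
  rcases Nat.eq_zero_or_pos n with rfl | hn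
  · exact hP.h1.trans hP.h2
  · exact hP.h3 n hn

private theorem P3_pos (hP : GoodP P N) (p : ℕ) : 0 < P.g p :=
  hP.h0.trans_le ((P3_mono hP).monotone (Nat.zero_le p))

private theorem P3_gh (hP : GoodP P N) (p : ℕ) : P.gh ≠ P.g p := by
  rcases Nat.eq_zero_or_pos p with rfl | hp
  · exact hP.h1.ne'
  · exact (hP.h2.trans_le ((P3_mono hP).monotone hp)).ne

private theorem P3_taylor (g : ℂ) (m : ℕ) (E : Polynomial ℂ) :
    (Polynomial.taylor g ((Polynomial.X - Polynomial.C g) ^ m * E)).coeff m = E.eval g := by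
  have h1 : Polynomial.taylor g (Polynomial.X - Polynomial.C g) = Polynomial.X := by
    rw [map_sub, Polynomial.taylor_X, Polynomial.taylor_C, add_sub_cancel_right]
  have h2 : Polynomial.taylor g ((Polynomial.X - Polynomial.C g) ^ m * E)
      = Polynomial.X ^ m * Polynomial.taylor g E := by
    rw [Polynomial.taylor_mul, Polynomial.taylor_pow, h1]
  rw [h2, Polynomial.coeff_X_pow_mul', if_pos le_rfl, Nat.sub_self, Polynomial.taylor_coeff_zero]

/-- Realisation of a real multiple of the node product. -/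
private theorem P3_real (hP : GoodP P N) (n : ℕ) (x : Fin 3) {i : ℕ → ℕ}
    (hi : ∀ p, N < p → i p = 0) (hd : dg N x i ≤ n) (r : ℝ) :
    ∃ z ∈ Xo P n x i, Rea z ∧ pol P n z = Polynomial.C (r : ℂ) * nod P N x i := by
  obtain ⟨h1, -, h3⟩ := nod_deg P N x i
  have hdeg : (Polynomial.C (r : ℂ) * nod P N x i).natDegree ≤ n :=
    (Polynomial.natDegree_C_mul_le _ _).trans (h1.le.trans hd)
  obtain ⟨z, hz, hr, -⟩ := pol_surj hP.hρ.ne' n _ hdeg
  refine ⟨z, ?_, hr fun k => ?_, hz⟩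
  · rw [mem_Xo' hP n x hi, hz]
    exact Dvd.intro_left _ rfl
  · rw [Polynomial.coeff_C_mul, Complex.im_ofReal_mul, h3 k, mul_zero]

private theorem P3_le (hP : GoodP P N) (n : ℕ) (x : Fin 3) {i : ℕ → ℕ}
    (hi : ∀ p, N < p → i p = 0) (h : Xo P n x i ≠ ⊥) : dg N x i ≤ n := by
  by_contra hc
  exact h (Xo_bot hP n x hi (not_le.1 hc))

/-- Test vectors at a node.

Proof. Let `v ∈ Xo x i`, `v ≠ 0`, so `dg N x i ≤ n`. The polynomial `nod x i / (X - g p)` has
degree `≤ n` and exact order `i p - 1` at `g p`; divide by its Taylor coefficient (real, nonzero).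
-/
theorem tst_p (hP : GoodP P N) (n : ℕ) (x : Fin 3) {i : ℕ → ℕ} (hi : ∀ p, N < p → i p = 0)
    (h : Xo P n x i ≠ ⊥) {p : ℕ} (hp : i p ≠ 0) :
    ∃ z ∈ Xo P n x (dn i p), Rea z ∧ pr (tau P n (P.g p) (i p - 1)) z = 1 := by
  have hpN : p ≤ N := by
    by_contra hc
    exact hp (hi p (not_le.1 hc))
  have hmem : p ∈ Finset.range (N + 1) := Finset.mem_range.2 (Nat.lt_succ_of_le hpN)
  have hi' : ∀ q, N < q → dn i p q = 0 := by
    intro q hq
    have hqp : q ≠ p := by omega
    rw [dn, Function.update_of_ne hqp]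
    exact hi q hq
  have hle := P3_le hP n x hi h
  have hdg : dg N x (dn i p) ≤ n := by
    refine le_trans ?_ hle
    unfold dg
    refine Nat.add_le_add_left (Finset.sum_le_sum fun q _ => ?_) _
    by_cases hqp : q = p
    · subst hqp
      rw [dn, Function.update_self]
      exact Nat.sub_le _ _
    · rw [dn, Function.update_of_ne hqp]
  -- the value of the other factors
  obtain ⟨r, hr⟩ : ∃ r : ℝ, r = (if x ≠ 0 then P.g p else 1)
      * (if x = 2 then P.g p - P.gh else 1)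
      * ∏ q ∈ (Finset.range (N + 1)).erase p, (P.g p - P.g q) ^ i q := ⟨_, rfl⟩
  have hr0 : r ≠ 0 := by
    rw [hr]
    refine mul_ne_zero (mul_ne_zero ?_ ?_) (Finset.prod_ne_zero_iff.2 fun q hq => ?_)
    · split_ifs
      · exact (P3_pos hP p).ne'
      · exact one_ne_zero
    · split_ifs
      · exact sub_ne_zero.2 (P3_gh hP p).symm
      · exact one_ne_zero
    · have hqp := (Finset.ne_of_mem_erase hq).symm
      exact pow_ne_zero _ (sub_ne_zero.2 ((P3_mono hP).injective.ne hqp))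
  obtain ⟨E, hE⟩ : ∃ E : Polynomial ℂ, E = (if x ≠ 0 then Polynomial.X else 1)
      * (if x = 2 then Polynomial.X - Polynomial.C (P.gh : ℂ) else 1)
      * ∏ q ∈ (Finset.range (N + 1)).erase p, (Polynomial.X - Polynomial.C (P.g q : ℂ)) ^ i q :=
    ⟨_, rfl⟩
  have hEr : E.eval (P.g p : ℂ) = (r : ℂ) := by
    rw [hE, hr, Polynomial.eval_mul, Polynomial.eval_mul, Polynomial.eval_prod]
    push_cast
    congr 1
    · congr 1
      · split_ifs
        · rw [Polynomial.eval_X]
        · rw [Polynomial.eval_one]; norm_num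
      · split_ifs
        · rw [Polynomial.eval_sub, Polynomial.eval_X, Polynomial.eval_C]; push_cast; rfl
        · rw [Polynomial.eval_one]; norm_num
    · refine Finset.prod_congr rfl fun q _ => ?_
      rw [Polynomial.eval_pow, Polynomial.eval_sub, Polynomial.eval_X, Polynomial.eval_C]
  have hD : nod P N x (dn i p)
      = (Polynomial.X - Polynomial.C (P.g p : ℂ)) ^ (i p - 1) * E := by
    rw [nod, hE, ← Finset.mul_prod_erase _ _ hmem]
    have h1 : ∏ q ∈ (Finset.range (N + 1)).erase p,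
        (Polynomial.X - Polynomial.C (P.g q : ℂ)) ^ dn i p q
        = ∏ q ∈ (Finset.range (N + 1)).erase p,
        (Polynomial.X - Polynomial.C (P.g q : ℂ)) ^ i q := by
      refine Finset.prod_congr rfl fun q hq => ?_
      rw [dn, Function.update_of_ne (Finset.ne_of_mem_erase hq)]
    have h2 : dn i p p = i p - 1 := by rw [dn, Function.update_self]
    rw [h1, h2]
    ring
  obtain ⟨z, hz, hzr, hzp⟩ := P3_real hP n x hi' hdg r⁻¹
  refine ⟨z, hz, hzr, ?_⟩
  rw [pr_tau, hzp, hD, ← mul_assoc, mul_comm (Polynomial.C _) _, mul_assoc, P3_taylor,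
    Polynomial.eval_mul, Polynomial.eval_C, hEr, ← Complex.ofReal_mul, inv_mul_cancel₀ hr0,
    Complex.ofReal_one]

/-- Test vectors at the node `0`. Proof: `nod 1 i / X` is `nod 0 i`, not zero at `0`; `V(0) = ρ v
0`. -/
theorem tst_0 (hP : GoodP P N) (n : ℕ) {i : ℕ → ℕ} (hi : ∀ p, N < p → i p = 0)
    (h : Xo P n 1 i ≠ ⊥) : ∃ z ∈ Xo P n 0 i, Rea z ∧ z 0 = 1 := by
  have hle := P3_le hP n 1 hi h
  have hdg : dg N 0 i ≤ n := by
    refine le_trans ?_ hle
    unfold dg
    exact Nat.add_le_add_right (Nat.zero_le _) _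
  obtain ⟨r, hr⟩ : ∃ r : ℝ, r = ∏ q ∈ Finset.range (N + 1), (0 - P.g q) ^ i q := ⟨_, rfl⟩
  have hr0 : r ≠ 0 := by
    rw [hr]
    exact Finset.prod_ne_zero_iff.2 fun q _ =>
      pow_ne_zero _ (sub_ne_zero.2 (P3_pos hP q).ne)
  have hD : (nod P N 0 i).eval 0 = (r : ℂ) := by
    rw [nod, if_neg (by decide), if_neg (by decide), one_mul, one_mul, Polynomial.eval_prod, hr]
    push_cast
    refine Finset.prod_congr rfl fun q _ => ?_
    rw [Polynomial.eval_pow, Polynomial.eval_sub, Polynomial.eval_X, Polynomial.eval_C]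
  obtain ⟨z, hz, hzr, hzp⟩ := P3_real hP n 0 hi hdg (P.ρ * r⁻¹)
  refine ⟨z, hz, hzr, ?_⟩
  have h1 : (pol P n z).eval 0 = z 0 * P.ρ := by
    rw [pol, Polynomial.eval_add, Polynomial.eval_C, Polynomial.eval_finsetSum,
      Finset.sum_eq_zero, add_zero]
    intro j hj
    have hj1 : j ≠ 0 := by
      have := (Finset.mem_Icc.1 hj).1
      omega
    rw [Polynomial.eval_mul, Polynomial.eval_pow, Polynomial.eval_X, zero_pow hj1, mul_zero]
  have hρ : (P.ρ : ℂ) ≠ 0 := Complex.ofReal_ne_zero.2 hP.hρ.ne'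
  have hrc : (r : ℂ) ≠ 0 := Complex.ofReal_ne_zero.2 hr0
  rw [hzp, Polynomial.eval_mul, Polynomial.eval_C, hD] at h1
  apply mul_right_cancel₀ hρ
  rw [← h1, one_mul]
  push_cast
  rw [mul_assoc, inv_mul_cancel₀ hrc, mul_one]

/-- Test vectors at the node `gh`. -/
theorem tst_h (hP : GoodP P N) (n : ℕ) {i : ℕ → ℕ} (hi : ∀ p, N < p → i p = 0)
    (h : Xo P n 2 i ≠ ⊥) : ∃ z ∈ Xo P n 1 i, Rea z ∧ pr (hv P n) z = 1 := by
  have hle := P3_le hP n 2 hi h
  have hdg : dg N 1 i ≤ n := by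
    refine le_trans ?_ hle
    unfold dg
    exact Nat.add_le_add_right (by decide) _
  obtain ⟨r, hr⟩ : ∃ r : ℝ, r = P.gh * ∏ q ∈ Finset.range (N + 1), (P.gh - P.g q) ^ i q :=
    ⟨_, rfl⟩
  have hr0 : r ≠ 0 := by
    rw [hr]
    exact mul_ne_zero (hP.h0.trans hP.h1).ne' (Finset.prod_ne_zero_iff.2 fun q _ =>
      pow_ne_zero _ (sub_ne_zero.2 (P3_gh hP q)))
  have hD : (nod P N 1 i).eval (P.gh : ℂ) = (r : ℂ) := by
    rw [nod, if_pos (by decide), if_neg (by decide), mul_one, Polynomial.eval_mul,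
      Polynomial.eval_X, Polynomial.eval_prod, hr]
    push_cast
    congr 1
    refine Finset.prod_congr rfl fun q _ => ?_
    rw [Polynomial.eval_pow, Polynomial.eval_sub, Polynomial.eval_X, Polynomial.eval_C]
  obtain ⟨z, hz, hzr, hzp⟩ := P3_real hP n 1 hi hdg r⁻¹
  have hz0 : z 0 = 0 := (mem_XM.1 hz.1).1 (by decide)
  refine ⟨z, hz, hzr, ?_⟩
  rw [(pr_hv P n z hz0).1, hzp, Polynomial.eval_mul, Polynomial.eval_C, hD,
    ← Complex.ofReal_mul, inv_mul_cancel₀ hr0, Complex.ofReal_one]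

private theorem P3_sub {B : Type} [Fintype B] (f : B → ℝ) (x y : B → ℂ) :
    pr f (x - y) = pr f x - pr f y := by
  simp only [pr, Pi.sub_apply, mul_sub, Finset.sum_sub_distrib]

/-- Every nonzero `Xo x i` contains, for a node `p` of order zero, test vectors of any smaller
order:
if `Xo x (order k at p) ≠ 0`, then the test vectors of `Xo x i` at `p'` can be chosen in
`Xo x (dn (order k at p) p')`, and two test vectors differ by an element of `Xo x i`.

Proof. The first part is `tst_p` for `at' i p k`. Second part: the difference `z - z'` of two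
elements of
`Xo x (dn i p')` with the same Taylor coefficient of order `i p' - 1` at `g p'` has order `i p'`. -/
theorem tst_diff (hP : GoodP P N) (n : ℕ) (x : Fin 3) {i : ℕ → ℕ} {p' : ℕ} (hp : i p' ≠ 0)
    (hinj : ∀ p, p ≠ p' → P.g p' ≠ P.g p) {z z' : Fin (n + 1) → ℂ} (hz : z ∈ Xo P n x (dn i p'))
    (hz' : z' ∈ Xo P n x (dn i p'))
    (e : pr (tau P n (P.g p') (i p' - 1)) z = pr (tau P n (P.g p') (i p' - 1)) z') :
    z - z' ∈ Xo P n x i := by
  have _ := hinj
  have _ := hP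
  refine ⟨Submodule.sub_mem _ hz.1 hz'.1, fun p l hl => ?_⟩
  rw [P3_sub]
  by_cases hpp : p = p'
  · subst hpp
    by_cases hl1 : l = i p - 1
    · rw [hl1, e, sub_self]
    · have hl2 : l < dn i p p := by
        rw [dn, Function.update_self]
        omega
      rw [hz.2 p l hl2, hz'.2 p l hl2, sub_self]
  · have hl2 : l < dn i p' p := by
      rw [dn, Function.update_of_ne hpp]
      exact hl
    rw [hz.2 p l hl2, hz'.2 p l hl2, sub_self]

theorem tst_diff0 (n : ℕ) {i : ℕ → ℕ} {z z' : Fin (n + 1) → ℂ} (hz : z ∈ Xo P n 0 i)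
    (hz' : z' ∈ Xo P n 0 i) (e : z 0 = z' 0) : z - z' ∈ Xo P n 1 i := by
  refine ⟨mem_XM.2 ⟨fun _ => ?_, fun h => absurd h (by decide)⟩, fun p l hl => ?_⟩
  · rw [Pi.sub_apply, e, sub_self]
  · rw [P3_sub, hz.2 p l hl, hz'.2 p l hl, sub_self]

theorem tst_diffh (n : ℕ) {i : ℕ → ℕ} {z z' : Fin (n + 1) → ℂ} (hz : z ∈ Xo P n 1 i)
    (hz' : z' ∈ Xo P n 1 i) (e : pr (hv P n) z = pr (hv P n) z') : z - z' ∈ Xo P n 2 i := by
  refine ⟨mem_XM.2 ⟨fun _ => ?_, fun _ => ?_⟩, fun p l hl => ?_⟩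
  · rw [Pi.sub_apply, (mem_XM.1 hz.1).1 (by decide), (mem_XM.1 hz'.1).1 (by decide), sub_self]
  · rw [P3_sub, e, sub_self]
  · rw [P3_sub, hz.2 p l hl, hz'.2 p l hl, sub_self]

/-- The nodes are different. -/
theorem GoodP.inj (hP : GoodP P N) {p p' : ℕ} (h : p ≠ p') : P.g p ≠ P.g p' := by
  exact (P3_mono hP).injective.ne h

end

end Pool.Agent.MPb0eK
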