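import Mathlib
import Pool.Agent.Lib.MP_b0e20b_ag_K.DDefs
import Pool.Agent.Lib.MP_b0e20b_ag_K.FA
import Pool.Agent.Lib.MP_b0e20b_ag_K.P3
import Pool.Agent.Lib.MP_b0e20b_ag_R.Alg2

/-!
# MP_b0e20b_ag, project K: D types: elementary facts
-/

set_option autoImplicit false

open scoped BigOperators Topology
open Filter

namespace Pool.Agent.MPb0eK

open MPb0eR (c1 c2 c3 tr q Sup Rl Rea uf Nrm cj AF scl)

section

variable {P : Par} {N n2 n3 : ℕ} {T : Fin (N + 1) → Fin (n2 + 1) → Fin (n3 + 1) → ℝ} {t : Bool}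
  {p : ℕ} {i j : ℕ → ℕ} {u : Fin (N + 1) → ℂ} {v : Fin (n2 + 1) → ℂ} {w : Fin (n3 + 1) → ℂ}
  {M M' κ κ' r : ℂ} {F : Fin (n2 + 1) → Fin (n3 + 1) → ℝ}

private theorem DA_mem1 {n : ℕ} {i : ℕ → ℕ} {t : Bool} {z : Fin (n + 1) → ℂ}
    (hz : z ∈ Xo P n 1 i) : z ∈ Xo P n (if t then 1 else 0) i := by
  cases t
  · exact ⟨⟨fun h => absurd rfl h, fun h => absurd h (by decide)⟩, hz.2⟩
  · exact hz

private theorem DA_z0 {n : ℕ} {i : ℕ → ℕ} {z : Fin (n + 1) → ℂ} (hz : z ∈ Xo P n 1 i) :
    z 0 = 0 :=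
  hz.1.1 (by decide)

private theorem DA_to1 {n : ℕ} {i : ℕ → ℕ} {z : Fin (n + 1) → ℂ} (hz : z ∈ Xo P n 0 i)
    (h0 : z 0 = 0) : z ∈ Xo P n 1 i :=
  ⟨⟨fun _ => h0, fun h => absurd h (by decide)⟩, hz.2⟩

private theorem DA_ext {n : ℕ} {i : ℕ → ℕ} {y : Fin (n + 1) → ℂ} (hy : y ∈ Xo P n 0 i)
    (h0 : y 0 ≠ 0) (x : Fin (n + 1) → ℂ) (M : ℂ)
    (h : ∀ z ∈ Xo P n 1 i, dt x z + M * pr (hv P n) z = 0) :
    ∀ z ∈ Xo P n 0 i, dt x z + M * pr (hv P n) z
      = (dt x y + M * pr (hv P n) y) / y 0 * z 0 := by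
  intro z hz
  have h1 : z - (z 0 / y 0) • y ∈ Xo P n 0 i := sub_mem hz (Submodule.smul_mem _ _ hy)
  have h2 : (z - (z 0 / y 0) • y) 0 = 0 := by
    rw [Pi.sub_apply, Pi.smul_apply, smul_eq_mul, div_mul_cancel₀ _ h0, sub_self]
  have h3 := h _ (DA_to1 h1 h2)
  have e1 : dt x (z - (z 0 / y 0) • y) = dt x z - z 0 / y 0 * dt x y := by
    rw [sub_eq_add_neg, ← neg_smul, dt_add_right, dt_smul_right]
    ring
  have e2 : pr (hv P n) (z - (z 0 / y 0) • y) = pr (hv P n) z - z 0 / y 0 * pr (hv P n) y := by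
    rw [sub_eq_add_neg, ← neg_smul, pr_add, pr_smul]
    ring
  rw [e1, e2] at h3
  linear_combination h3

private theorem DA_c1 {p0 a : Fin (N + 1)} (G : Fin (n2 + 1) → Fin (n3 + 1) → ℝ)
    (ha : a ≠ p0) : c1 (Function.update T p0 G) v w a = c1 T v w a := by
  unfold c1
  rw [Function.update_of_ne ha]

private theorem DA_c1' (p0 : Fin (N + 1)) (R : ℝ) :
    c1 (Function.update T p0 (fun b c => R * F b c)) v w p0 = R * bf F v w := by
  unfold c1 bf
  rw [Function.update_self, Finset.mul_sum]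
  refine Finset.sum_congr rfl fun b _ => ?_
  rw [Finset.mul_sum]
  exact Finset.sum_congr rfl fun c _ => by push_cast; ring

private theorem DA_c2 (p0 : Fin (N + 1)) (R : ℝ) :
    c2 (Function.update T p0 (fun b c => R * F b c)) u w
      = c2 T (Function.update u p0 0) w + (R * u p0) • bfB F w := by
  funext b
  have e : ∀ a, ∑ c, ((Function.update T p0 (fun b c => R * F b c) a b c : ℝ) : ℂ) * (u a * w c)
      = ∑ c, (T a b c : ℂ) * (Function.update u p0 0 a * w c)
        + if a = p0 then (R * u p0) * bfB F w b else 0 := by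
    intro a
    by_cases h : a = p0
    · subst h
      rw [if_pos rfl, Function.update_self, Function.update_self]
      simp only [zero_mul, mul_zero, Finset.sum_const_zero, zero_add]
      unfold bfB
      rw [Finset.mul_sum]
      exact Finset.sum_congr rfl fun c _ => by push_cast; ring
    · rw [if_neg h, add_zero, Function.update_of_ne h, Function.update_of_ne h]
  rw [Pi.add_apply, Pi.smul_apply, smul_eq_mul]
  simp only [c2, e, Finset.sum_add_distrib, Finset.sum_ite_eq', Finset.mem_univ, if_true]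

private theorem DA_c3 (p0 : Fin (N + 1)) (R : ℝ) :
    c3 (Function.update T p0 (fun b c => R * F b c)) u v
      = c3 T (Function.update u p0 0) v + (R * u p0) • bfC F v := by
  funext c
  have e : ∀ a, ∑ b, ((Function.update T p0 (fun b c => R * F b c) a b c : ℝ) : ℂ) * (u a * v b)
      = ∑ b, (T a b c : ℂ) * (Function.update u p0 0 a * v b)
        + if a = p0 then (R * u p0) * bfC F v c else 0 := by
    intro a
    by_cases h : a = p0
    · subst h
      rw [if_pos rfl, Function.update_self, Function.update_self]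
      simp only [zero_mul, mul_zero, Finset.sum_const_zero, zero_add]
      unfold bfC
      rw [Finset.mul_sum]
      exact Finset.sum_congr rfl fun b _ => by push_cast; ring
    · rw [if_neg h, add_zero, Function.update_of_ne h, Function.update_of_ne h]
  rw [Pi.add_apply, Pi.smul_apply, smul_eq_mul]
  simp only [c3, e, Finset.sum_add_distrib, Finset.sum_ite_eq', Finset.mem_univ, if_true]

private theorem DA_smul_cancel {n : ℕ} {x y : Fin n → ℂ} {r s : ℂ} (hr : r ≠ 0)
    (h : r • x = s • (r • y)) : x = s • y := by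
  funext a
  have h1 := congrFun h a
  simp only [Pi.smul_apply, smul_eq_mul] at h1 ⊢
  refine mul_left_cancel₀ hr ?_
  rw [h1]
  ring

/-- The multipliers `κ`, `κ'` exist. Proof for `t = false`: the functional
`z ↦ dt (c2 T u w) z + M pr h z` on `Xo 0 i` vanishes on `Xo 1 i` (the vectors with `z 0 = 0`), and
`v ∈ Xo 0 i` has `v 0 ≠ 0`; so `κ = (value at v) / v 0`. For `t = true` take `0`. -/
theorem DX.dk (h : DX P T t p i j u v w M M') (hn : t = false → v 0 ≠ 0 ∧ w 0 ≠ 0) :
    ∃ κ κ' : ℂ, DK P T t p i j u v w M M' κ κ' := by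
  cases t
  · obtain ⟨h0, h0'⟩ := hn rfl
    exact ⟨_, _, h.su, h.sv, h.sw, h.e1, DA_ext h.sv h0 _ _ h.e2, DA_ext h.sw h0' _ _ h.e3, h.e4,
      fun ht => absurd ht (by decide)⟩
  · refine ⟨0, 0, h.su, h.sv, h.sw, h.e1, fun z hz => ?_, fun z hz => ?_, h.e4,
      fun _ => ⟨rfl, rfl⟩⟩
    · rw [zero_mul]
      exact h.e2 z hz
    · rw [zero_mul]
      exact h.e3 z hz

theorem DK.dx (h : DK P T t p i j u v w M M' κ κ') : DX P T t p i j u v w M M' := by
  refine ⟨h.su, h.sv, h.sw, h.e1, fun z hz => ?_, fun z hz => ?_, h.e4⟩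
  · rw [h.e2 z (DA_mem1 hz), DA_z0 hz, mul_zero]
  · rw [h.e3 z (DA_mem1 hz), DA_z0 hz, mul_zero]

/-- Test with `v`, `w`. For `t = false` the support of `u` is in `SR N false p`, where `c1 = 0`. -/
theorem DK.rel (h : DK P T t p i j u v w M M' κ κ') :
    (t = false → M * pr (hv P n2) v = κ * v 0 ∧ M' * pr (hv P n3) w = κ' * w 0) ∧
    (t = true → u 0 * c1 T v w 0 + M * pr (hv P n2) v = 0 ∧
      u 0 * c1 T v w 0 + M' * pr (hv P n3) w = 0) := by
  have t1 : dt (c2 T u w) v = tr T u v w := by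
    rw [MPb0eR.tr_c2]
    exact Finset.sum_congr rfl fun b _ => mul_comm _ _
  have t2 : dt (c3 T u v) w = tr T u v w := by
    rw [MPb0eR.tr_c3]
    exact Finset.sum_congr rfl fun b _ => mul_comm _ _
  have h2 := h.e2 v h.sv
  have h3 := h.e3 w h.sw
  rw [t1] at h2
  rw [t2] at h3
  refine ⟨fun ht => ?_, fun ht => ?_⟩
  · subst ht
    have e : tr T u v w = 0 := by
      rw [MPb0eR.tr_c1]
      refine Finset.sum_eq_zero fun a _ => ?_
      by_cases ha : a ∈ SR N false p
      · rw [h.e1 a ha, mul_zero]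
      · rw [h.su a ha, zero_mul]
    rw [e, zero_add] at h2 h3
    exact ⟨h2, h3⟩
  · subst ht
    have e : tr T u v w = u 0 * c1 T v w 0 := by
      rw [MPb0eR.tr_c1]
      refine Finset.sum_eq_single 0 (fun a _ ha => ?_) fun h' => absurd (Finset.mem_univ _) h'
      by_cases hap : (a : ℕ) < p
      · rw [h.e1 a (Finset.mem_filter.2 ⟨Finset.mem_univ _, Or.inr ha, hap⟩), mul_zero]
      · rw [h.su a fun h' => hap (Finset.mem_filter.1 h').2.2, zero_mul]
    obtain ⟨k1, k2⟩ := h.ek rfl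
    rw [e, k1, zero_mul] at h2
    rw [e, k2, zero_mul] at h3
    exact ⟨h2, h3⟩

theorem DKr.smul (h : DKr P T F t p i j u v w M M' κ κ' r) (a b c : ℂ) :
    DKr P T F t p i j (a • u) (b • v) (c • w) (a * c * M) (a * b * M') (a * c * κ) (a * b * κ')
      (a * r) := by
  refine ⟨fun x hx => ?_, Submodule.smul_mem _ _ h.sv, Submodule.smul_mem _ _ h.sw,
    fun x hx => ?_, ?_, fun z hz => ?_, fun z hz => ?_, fun ht => ?_, fun ht => ?_⟩
  · rw [Pi.smul_apply, h.su x hx, smul_zero]
  · rw [MPb0eR.c1_smul_left, MPb0eR.c1_smul_right, h.e1 x hx, mul_zero, mul_zero]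
  · rw [← dt_bfB, dt_smul_right, dt_bfB, ← dt_bfC, dt_smul_right, dt_bfC, h.e0, mul_zero,
      mul_zero]
  · have e : c2 T (a • u) (c • w) = (a * c) • c2 T u w := by
      funext x
      rw [MPb0eR.c2_smul_left, MPb0eR.c2_smul_right, Pi.smul_apply, smul_eq_mul, mul_assoc]
    have e' : bf F z (c • w) = c * bf F z w := by
      rw [← dt_bfC, dt_smul_right, dt_bfC]
    rw [e, dt_smul_left, e']
    linear_combination (a * c) * h.e2 z hz
  · have e : c3 T (a • u) (b • v) = (a * b) • c3 T u v := by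
      funext x
      rw [MPb0eR.c3_smul_left, MPb0eR.c3_smul_right, Pi.smul_apply, smul_eq_mul, mul_assoc]
    have e' : bf F (b • v) z = b * bf F v z := by
      rw [← dt_bfB, dt_smul_right, dt_bfB]
    rw [e, dt_smul_left, e']
    linear_combination (a * b) * h.e3 z hz
  · rw [Pi.smul_apply, Pi.smul_apply, smul_eq_mul, smul_eq_mul]
    linear_combination (a * b * c) * h.e4 ht
  · obtain ⟨k1, k2⟩ := h.ek ht
    rw [k1, k2, mul_zero, mul_zero]
    exact ⟨rfl, rfl⟩

theorem DX.smul (h : DX P T t p i j u v w M M') (a b c : ℂ) :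
    DX P T t p i j (a • u) (b • v) (c • w) (a * c * M) (a * b * M') := by
  refine ⟨fun x hx => ?_, Submodule.smul_mem _ _ h.sv, Submodule.smul_mem _ _ h.sw,
    fun x hx => ?_, fun z hz => ?_, fun z hz => ?_, fun ht => ?_⟩
  · rw [Pi.smul_apply, h.su x hx, smul_zero]
  · rw [MPb0eR.c1_smul_left, MPb0eR.c1_smul_right, h.e1 x hx, mul_zero, mul_zero]
  · have e : c2 T (a • u) (c • w) = (a * c) • c2 T u w := by
      funext x
      rw [MPb0eR.c2_smul_left, MPb0eR.c2_smul_right, Pi.smul_apply, smul_eq_mul, mul_assoc]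
    rw [e, dt_smul_left]
    linear_combination (a * c) * h.e2 z hz
  · have e : c3 T (a • u) (b • v) = (a * b) • c3 T u v := by
      funext x
      rw [MPb0eR.c3_smul_left, MPb0eR.c3_smul_right, Pi.smul_apply, smul_eq_mul, mul_assoc]
    rw [e, dt_smul_left]
    linear_combination (a * b) * h.e3 z hz
  · rw [Pi.smul_apply, Pi.smul_apply, smul_eq_mul, smul_eq_mul]
    linear_combination (a * b * c) * h.e4 ht

/-- `OkDX` is invariant under rescaling. -/
theorem OkDX.of_smul {a b c : ℂ} (ha : a ≠ 0) (hb : b ≠ 0) (hc : c ≠ 0)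
    (h : OkDX P T t p i j (a • u) (b • v) (c • w) (a * c * M) (a * b * M')) :
    OkDX P T t p i j u v w M M' := by
  obtain ⟨a', b', c', ha', hb', hc', r1, r2, r3, r4, r5⟩ := h.re
  refine ⟨⟨a' * a, b' * b, c' * c, mul_ne_zero ha' ha, mul_ne_zero hb' hb, mul_ne_zero hc' hc,
    ?_, ?_, ?_, ?_, ?_⟩, fun du dv dw dM dM' hk => ?_⟩
  · rw [mul_smul]
    exact r1
  · rw [mul_smul]
    exact r2
  · rw [mul_smul]
    exact r3
  · rw [← r4]
    congr 1
    ring
  · rw [← r5]
    congr 1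
    ring
  · have h1 : KDX P T t p i j (a • u) (b • v) (c • w) (a * c * M) (a * b * M') (a • du) (b • dv)
        (c • dw) (a * c * dM) (a * b * dM') := by
      refine ⟨fun x hx => ?_, Submodule.smul_mem _ _ hk.sv, Submodule.smul_mem _ _ hk.sw,
        fun x hx => ?_, fun z hz => ?_, fun z hz => ?_, fun ht => ?_⟩
      · rw [Pi.smul_apply, hk.su x hx, smul_zero]
      · rw [MPb0eR.c1_smul_left, MPb0eR.c1_smul_right, MPb0eR.c1_smul_left,
          MPb0eR.c1_smul_right]
        linear_combination (b * c) * hk.e1 x hx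
      · have e : c2 T (a • du) (c • w) = (a * c) • c2 T du w := by
          funext x
          rw [MPb0eR.c2_smul_left, MPb0eR.c2_smul_right, Pi.smul_apply, smul_eq_mul, mul_assoc]
        have e' : c2 T (a • u) (c • dw) = (a * c) • c2 T u dw := by
          funext x
          rw [MPb0eR.c2_smul_left, MPb0eR.c2_smul_right, Pi.smul_apply, smul_eq_mul, mul_assoc]
        rw [e, e', dt_smul_left, dt_smul_left]
        linear_combination (a * c) * hk.e2 z hz
      · have e : c3 T (a • du) (b • v) = (a * b) • c3 T du v := by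
          funext x
          rw [MPb0eR.c3_smul_left, MPb0eR.c3_smul_right, Pi.smul_apply, smul_eq_mul, mul_assoc]
        have e' : c3 T (a • u) (b • dv) = (a * b) • c3 T u dv := by
          funext x
          rw [MPb0eR.c3_smul_left, MPb0eR.c3_smul_right, Pi.smul_apply, smul_eq_mul, mul_assoc]
        rw [e, e', dt_smul_left, dt_smul_left]
        linear_combination (a * b) * hk.e3 z hz
      · simp only [Pi.smul_apply, smul_eq_mul]
        linear_combination (a * b * c) * hk.e4 ht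
    obtain ⟨x, y, z, k1, k2, k3, k4, k5⟩ := h.nd _ _ _ _ _ h1
    refine ⟨x, y, z, DA_smul_cancel ha k1, DA_smul_cancel hb k2, DA_smul_cancel hc k3, ?_, ?_⟩
    · refine mul_left_cancel₀ (mul_ne_zero ha hc) ?_
      rw [k4]
      ring
    · refine mul_left_cancel₀ (mul_ne_zero ha hb) ?_
      rw [k5]
      ring

/-- The row `p` with a factor `R` as constraint. Here `p ≤ N`, so `SR N t (p + 1)` is `SR N t p`
with
the row `p` inserted (`1 ≤ p`); `c2 T' u w = c2 T (update u p 0) w + R u p F (., w)`. -/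
theorem dk_upd (h1 : 1 ≤ p) (hp : p ≤ N) {R : ℝ} (hR : 0 < R) :
    DK P (Function.update T (Fin.ofNat (N + 1) p) (fun b c => R * F b c)) t (p + 1) i j u v w
      M M' κ κ' ↔
    DKr P T F t p i j (Function.update u (Fin.ofNat (N + 1) p) 0) v w M M' κ κ'
      (R * u (Fin.ofNat (N + 1) p)) ∧ (∀ a : Fin (N + 1), p < (a : ℕ) → u a = 0) := by
  obtain ⟨p0, hp0⟩ : ∃ p0, p0 = Fin.ofNat (N + 1) p := ⟨_, rfl⟩
  have hval : (p0 : ℕ) = p := by
    rw [hp0, Fin.val_ofNat]
    exact Nat.mod_eq_of_lt (by omega)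
  rw [← hp0]
  have hp00 : p0 ≠ 0 := by
    intro h
    rw [h] at hval
    simp at hval
    omega
  have hR0 : (R : ℂ) ≠ 0 := Complex.ofReal_ne_zero.2 hR.ne'
  have hmem : ∀ (s : Bool) (a : Fin (N + 1)), a ≠ p0 → (a ∈ SR N s (p + 1) ↔ a ∈ SR N s p) := by
    intro s a ha
    have h2 : (a : ℕ) ≠ p := fun h => ha (Fin.ext (by rw [h, hval]))
    simp only [SR, Finset.mem_filter, Finset.mem_univ, true_and]
    constructor
    · rintro ⟨h3, h4⟩
      exact ⟨h3, by omega⟩
    · rintro ⟨h3, h4⟩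
      exact ⟨h3, by omega⟩
  have hnot : ∀ s, p0 ∉ SR N s p := by
    intro s h
    have := (Finset.mem_filter.1 h).2.2
    omega
  have hin : ∀ s, p0 ∈ SR N s (p + 1) := by
    intro s
    exact Finset.mem_filter.2 ⟨Finset.mem_univ _, Or.inr hp00, by omega⟩
  have k2 : ∀ z, dt (c2 (Function.update T p0 fun b c => R * F b c) u w) z
      = dt (c2 T (Function.update u p0 0) w) z + R * u p0 * bf F z w := by
    intro z
    rw [DA_c2, dt_add_left, dt_smul_left, dt_bfB]
  have k3 : ∀ z, dt (c3 (Function.update T p0 fun b c => R * F b c) u v) z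
      = dt (c3 T (Function.update u p0 0) v) z + R * u p0 * bf F v z := by
    intro z
    rw [DA_c3, dt_add_left, dt_smul_left, dt_bfC]
  constructor
  · intro h
    refine ⟨⟨fun a ha => ?_, h.sv, h.sw, fun a ha => ?_, ?_, fun z hz => ?_, fun z hz => ?_, h.e4,
      h.ek⟩, fun a ha => ?_⟩
    · by_cases h2 : a = p0
      · rw [h2, Function.update_self]
      · rw [Function.update_of_ne h2]
        exact h.su a fun h3 => ha ((hmem t a h2).1 h3)
    · have h2 : a ≠ p0 := fun h2 => hnot false (h2 ▸ ha)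
      rw [← h.e1 a ((hmem false a h2).2 ha), DA_c1 _ h2]
    · have h2 := h.e1 p0 (hin false)
      rw [DA_c1'] at h2
      exact (mul_eq_zero.1 h2).resolve_left hR0
    · rw [← k2]
      exact h.e2 z hz
    · rw [← k3]
      exact h.e3 z hz
    · refine h.su a fun h2 => ?_
      have := (Finset.mem_filter.1 h2).2.2
      omega
  · rintro ⟨h, hz0⟩
    refine ⟨fun a ha => ?_, h.sv, h.sw, fun a ha => ?_, fun z hz => ?_, fun z hz => ?_, h.e4,
      h.ek⟩
    · have h2 : a ≠ p0 := fun h2 => ha (h2 ▸ hin t)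
      have h3 := h.su a fun h3 => ha ((hmem t a h2).2 h3)
      rwa [Function.update_of_ne h2] at h3
    · by_cases h2 : a = p0
      · rw [h2, DA_c1', h.e0, mul_zero]
      · rw [DA_c1 _ h2]
        exact h.e1 a ((hmem false a h2).1 ha)
    · rw [k2]
      exact h.e2 z hz
    · rw [k3]
      exact h.e3 z hz

end

end Pool.Agent.MPb0eK
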