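import Mathlib
import Pool.Agent.Lib.MP_b0e20b_ag_K.FA

/-!
# MP_b0e20b_ag, project K: the abstract row lemma: classification
-/

set_option autoImplicit false

open scoped BigOperators Topology
open Filter

namespace Pool.Agent.MPb0eK

open MPb0eR (c1 c2 c3 tr q Sup Rl Rea uf Nrm cj AF scl)

section

variable {I K B C : Type} [Fintype I] [Fintype K] [Fintype B] [Fintype C] [DecidableEq B]
  [DecidableEq C]

/-- Ratios of the coefficients. -/
private theorem RaC_hi {m : ℕ} {s : ℝ} {f : ℕ → ℕ → ℝ} (hf : Hi m s f) {k : ℕ} (l : ℕ)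
    (hkl : k < l) (hl : l ≤ m) : Tendsto (fun n => f n l / f n k) uf (𝓝 0) := by
  induction l with
  | zero => omega
  | succ l ih =>
    have h1 := hf.hi l (by omega)
    rcases Nat.lt_or_ge k l with h | h
    · have h2 := h1.mul (ih h (by omega))
      rw [zero_mul] at h2
      refine h2.congr fun n => ?_
      rw [div_mul_div_cancel₀ (hf.ne n l (by omega))]
    · have e : k = l := by omega
      subst e
      exact h1

/-- The limit of the row form divided by its leading coefficient. -/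
private theorem RaC_lim {φ : ℕ → B → ℝ} {ψ : ℕ → C → ℝ} {m : ℕ} {s : ℝ} {f : ℕ → ℕ → ℝ}
    (hf : Hi m s f) {k : ℕ} (hk : k ≤ m) {x : ℕ → B → ℂ} {x0 : B → ℂ} {y : ℕ → C → ℂ}
    {y0 : C → ℂ} (hx : Tendsto x uf (𝓝 x0)) (hy : Tendsto y uf (𝓝 y0))
    (h0 : ∀ n l, l < k → pr (φ l) (x n) * pr (ψ l) (y n) = 0) :
    Tendsto (fun n => bf (rw0 φ ψ m (f n)) (x n) (y n) / (f n k : ℂ)) uf
      (𝓝 (pr (φ k) x0 * pr (ψ k) y0)) := by
  have hp : ∀ l, Tendsto (fun n => pr (φ l) (x n) * pr (ψ l) (y n)) uf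
      (𝓝 (pr (φ l) x0 * pr (ψ l) y0)) := fun l =>
    (((continuous_pr (φ l)).tendsto x0).comp hx).mul
      (((continuous_pr (ψ l)).tendsto y0).comp hy)
  have e : ∀ n, bf (rw0 φ ψ m (f n)) (x n) (y n) / (f n k : ℂ) =
      ∑ l ∈ Finset.range (m + 1),
        ((f n l / f n k : ℝ) : ℂ) * (pr (φ l) (x n) * pr (ψ l) (y n)) := by
    intro n
    rw [bf_rw0, Finset.sum_div]
    refine Finset.sum_congr rfl fun l _ => ?_
    rw [Complex.ofReal_div]
    ring
  have key : ∀ l ∈ Finset.range (m + 1), Tendsto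
      (fun n => ((f n l / f n k : ℝ) : ℂ) * (pr (φ l) (x n) * pr (ψ l) (y n))) uf
      (𝓝 (if l = k then pr (φ k) x0 * pr (ψ k) y0 else 0)) := by
    intro l hl
    rcases lt_trichotomy l k with h | h | h
    · rw [if_neg h.ne]
      have e1 : (fun n => ((f n l / f n k : ℝ) : ℂ) * (pr (φ l) (x n) * pr (ψ l) (y n)))
          = fun _ => 0 := by
        funext n
        rw [h0 n l h, mul_zero]
      rw [e1]
      exact tendsto_const_nhds
    · subst h
      rw [if_pos rfl]
      refine (hp l).congr fun n => ?_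
      rw [div_self (hf.ne n l hk), Complex.ofReal_one, one_mul]
    · rw [if_neg h.ne']
      have h1 := (Complex.continuous_ofReal.tendsto 0).comp
        (RaC_hi hf l h (by have := Finset.mem_range.1 hl; omega))
      have h2 := h1.mul (hp l)
      rw [Complex.ofReal_zero, zero_mul] at h2
      exact h2
  have h3 := tendsto_finsetSum (Finset.range (m + 1)) key
  rw [Finset.sum_ite_eq' (Finset.range (m + 1)) k, if_pos (Finset.mem_range.2 (by omega))] at h3
  refine h3.congr fun n => ?_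
  rw [e n]

/-- A factor of a convergent product. -/
private theorem RaC_div {x y z : ℕ → ℂ} {y0 z0 : ℂ} (hy : Tendsto y uf (𝓝 y0)) (h0 : y0 ≠ 0)
    (hz : Tendsto z uf (𝓝 z0)) (h : ∀ n, x n * y n = z n) : Tendsto x uf (𝓝 (z0 / y0)) := by
  refine (hz.div hy h0).congr' ?_
  filter_upwards [hy.eventually_ne h0] with n hn
  rw [Pi.div_apply, ← h n, mul_div_cancel_right₀ _ hn]

/-- Classification of the limits for a constraint row with hierarchical coefficients.

Proof. Write `f l = f n l`, `Fr = rw0 φ ψ m (f n)`, `d = min DX DY`, `d - 1 ≤ m`. Let `i, j` be the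
orders of
`v0, w0` (`Flag.ord`) and `k = min i j`. Testing `e2` with `z = zX l`:
`a (zX l) + r (f l ψ l (w) + ∑ l' ≥ DX, f l' φ l' (zX l) ψ l' (w)) = 0`, the same for `e3`.
(1) `r f k` is bounded: if `k = j` take `l = j` in `e2` (`j ≤ i < DX`): `ψ j (w) → ψ j (w0) ≠ 0`,
and
`f l' / f j → 0` for `l' ≥ DX`; so `r f j` is bounded; if `k = i` use `e3`. So `r f l → 0` for `k <
l ≤ m`.
(2) For `l > k` (`l < DX`): `a (zX l) → 0` by `e2`, so `dt a0 z = 0` on `Xi X φ (k + 1)`
(`Flag.gen_i`);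
the same for `b0`. (3) `e2` with `z = v` and `e0`: `dt (a) v = 0`, so `dt a0 v0 = 0`; the same for
`b0`.
If `i = k`, then `v0 ∈ Xi X φ k` and `dt a0 v0 = pr (φ k) v0 * dt a0 (zX k)`, so `dt a0 (zX k) = 0`
and
`a0` vanishes on `Xi X φ i`; if `i > k` this is (2). The same for `b0`, `j`.
(4) `i = j = 0` is impossible: `e0` divided by `f 0` tends to `φ 0 (v0) ψ 0 (w0) ≠ 0`.
(5) The last two claims: `r Fr (z, w) = ∑ l ≥ i, r f l φ l (z) ψ l (w)`. The terms with `l > k`
tend to
zero. If `i = k < j`: `ψ k (w) → 0`. If `i = j = k`: `r f k → 0`, because `dt a0 (zX k) = 0` and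
`ψ k (w0) ≠ 0`. -/
theorem ra_cls {X : Submodule ℂ (B → ℂ)} {Y : Submodule ℂ (C → ℂ)} {DX DY m : ℕ}
    {φ zX : ℕ → B → ℝ} {ψ zY : ℕ → C → ℝ} (hX : Flag X DX φ zX) (hY : Flag Y DY ψ zY)
    (hm : min DX DY ≤ m + 1) {s : ℝ} {f : ℕ → ℕ → ℝ} (hf : Hi m s f) {a : ℕ → B → ℂ} {a0 : B → ℂ}
    {b : ℕ → C → ℂ} {b0 : C → ℂ} {v : ℕ → B → ℂ} {v0 : B → ℂ} {w : ℕ → C → ℂ} {w0 : C → ℂ}
    {r : ℕ → ℂ} (ha : Tendsto a uf (𝓝 a0)) (hb : Tendsto b uf (𝓝 b0))
    (hv : Tendsto v uf (𝓝 v0)) (hw : Tendsto w uf (𝓝 w0)) (v0n : v0 ≠ 0) (w0n : w0 ≠ 0)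
    (vX : ∀ n, v n ∈ X) (wY : ∀ n, w n ∈ Y)
    (e2 : ∀ n, ∀ z ∈ X, dt (a n) z + r n * bf (rw0 φ ψ m (f n)) z (w n) = 0)
    (e3 : ∀ n, ∀ z ∈ Y, dt (b n) z + r n * bf (rw0 φ ψ m (f n)) (v n) z = 0)
    (e0 : ∀ n, bf (rw0 φ ψ m (f n)) (v n) (w n) = 0) :
    ∃ i j, i < DX ∧ j < DY ∧ ¬ (i = 0 ∧ j = 0) ∧ v0 ∈ Xi X φ i ∧ pr (φ i) v0 ≠ 0 ∧
      w0 ∈ Xi Y ψ j ∧ pr (ψ j) w0 ≠ 0 ∧ (∀ z ∈ Xi X φ i, dt a0 z = 0) ∧
      (∀ z ∈ Xi Y ψ j, dt b0 z = 0) ∧ (∀ z ∈ Xi X φ (min i j + 1), dt a0 z = 0) ∧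
      (∀ z ∈ Xi Y ψ (min i j + 1), dt b0 z = 0) ∧
      (∀ z : B → ℂ, (∀ l, l < i → pr (φ l) z = 0) →
        Tendsto (fun n => r n * bf (rw0 φ ψ m (f n)) z (w n)) uf (𝓝 0)) ∧
      ∀ z : C → ℂ, (∀ l, l < j → pr (ψ l) z = 0) →
        Tendsto (fun n => r n * bf (rw0 φ ψ m (f n)) (v n) z) uf (𝓝 0) := by
  have hv0 : v0 ∈ X :=
    X.closed_of_finiteDimensional.mem_of_tendsto hv (Filter.Eventually.of_forall vX)
  have hw0 : w0 ∈ Y :=
    Y.closed_of_finiteDimensional.mem_of_tendsto hw (Filter.Eventually.of_forall wY)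
  obtain ⟨i, hi, hvi, hvi'⟩ := hX.ord hv0 v0n
  obtain ⟨j, hj, hwj, hwj'⟩ := hY.ord hw0 w0n
  have hkm : min i j ≤ m := by omega
  have hfc : ∀ n, (f n (min i j) : ℂ) ≠ 0 := fun n => by
    exact_mod_cast hf.ne n _ hkm
  have hda : ∀ z, Tendsto (fun n => dt (a n) z) uf (𝓝 (dt a0 z)) := by
    intro z
    unfold dt
    exact tendsto_finsetSum _ fun b _ => ((tendsto_pi_nhds.1 ha b).mul_const _)
  have hdb : ∀ z, Tendsto (fun n => dt (b n) z) uf (𝓝 (dt b0 z)) := by
    intro z
    unfold dt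
    exact tendsto_finsetSum _ fun c _ => ((tendsto_pi_nhds.1 hb c).mul_const _)
  -- the limit of `r f k`
  obtain ⟨R, hR, hR1⟩ : ∃ R, Tendsto (fun n => r n * (f n (min i j) : ℂ)) uf (𝓝 R) ∧
      (j ≤ i → R * pr (ψ (min i j)) w0 = - dt a0 (fun b => (zX (min i j) b : ℂ))) := by
    rcases le_or_gt j i with h | h
    · have ek : min i j = j := min_eq_right h
      have hkD : min i j < DX := by omega
      have h1 := RaC_lim (φ := φ) (ψ := ψ) hf hkm
        (x := fun _ => fun b => (zX (min i j) b : ℂ)) tendsto_const_nhds hw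
        (fun n l hl => by rw [hX.dual l _ (by omega) hkD, if_neg (by omega), zero_mul])
      rw [hX.dual _ _ hkD hkD, if_pos rfl, one_mul] at h1
      have h2 : pr (ψ (min i j)) w0 ≠ 0 := by rw [ek]; exact hwj'
      have h3 := RaC_div (x := fun n => r n * (f n (min i j) : ℂ)) h1 h2
        (hda (fun b => (zX (min i j) b : ℂ))).neg (fun n => by
          have h4 := e2 n _ (hX.mem _ hkD)
          have h5 := hfc n
          rw [mul_assoc, mul_div_cancel₀ _ h5]
          linear_combination h4)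
      exact ⟨_, h3, fun _ => div_mul_cancel₀ _ h2⟩
    · have ek : min i j = i := min_eq_left h.le
      have hkD : min i j < DY := by omega
      have h1 := RaC_lim (φ := φ) (ψ := ψ) hf hkm
        (y := fun _ => fun c => (zY (min i j) c : ℂ)) hv tendsto_const_nhds
        (fun n l hl => by rw [hY.dual l _ (by omega) hkD, if_neg (by omega), mul_zero])
      rw [hY.dual _ _ hkD hkD, if_pos rfl, mul_one] at h1
      have h2 : pr (φ (min i j)) v0 ≠ 0 := by rw [ek]; exact hvi'
      have h3 := RaC_div (x := fun n => r n * (f n (min i j) : ℂ)) h1 h2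
        (hdb (fun c => (zY (min i j) c : ℂ))).neg (fun n => by
          have h4 := e3 n _ (hY.mem _ hkD)
          have h5 := hfc n
          rw [mul_assoc, mul_div_cancel₀ _ h5]
          linear_combination h4)
      exact ⟨_, h3, fun h' => absurd h (not_lt.2 h')⟩
  -- the limits of the products
  have hrX : ∀ z : B → ℂ, (∀ l, l < min i j → pr (φ l) z = 0) →
      Tendsto (fun n => r n * bf (rw0 φ ψ m (f n)) z (w n)) uf
        (𝓝 (R * (pr (φ (min i j)) z * pr (ψ (min i j)) w0))) := by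
    intro z hz
    have h1 := RaC_lim (φ := φ) (ψ := ψ) hf hkm (x := fun _ => z) tendsto_const_nhds hw
      (fun n l hl => by rw [hz l hl, zero_mul])
    refine (hR.mul h1).congr fun n => ?_
    rw [mul_assoc, mul_div_cancel₀ _ (hfc n)]
  have hrY : ∀ z : C → ℂ, (∀ l, l < min i j → pr (ψ l) z = 0) →
      Tendsto (fun n => r n * bf (rw0 φ ψ m (f n)) (v n) z) uf
        (𝓝 (R * (pr (φ (min i j)) v0 * pr (ψ (min i j)) z))) := by
    intro z hz
    have h1 := RaC_lim (φ := φ) (ψ := ψ) hf hkm (y := fun _ => z) hv tendsto_const_nhds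
      (fun n l hl => by rw [hz l hl, mul_zero])
    refine (hR.mul h1).congr fun n => ?_
    rw [mul_assoc, mul_div_cancel₀ _ (hfc n)]
  -- the limits vanish beyond the order `k`
  have ha1 : ∀ z ∈ Xi X φ (min i j + 1), dt a0 z = 0 := by
    intro z hz
    have h1 := hrX z fun l hl => hz.2 l (by omega)
    rw [hz.2 (min i j) (by omega), zero_mul, mul_zero] at h1
    have h2 := (hda z).add h1
    rw [add_zero] at h2
    refine tendsto_nhds_unique h2 ?_
    simp only [e2 _ z hz.1]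
    exact tendsto_const_nhds
  have hb1 : ∀ z ∈ Xi Y ψ (min i j + 1), dt b0 z = 0 := by
    intro z hz
    have h1 := hrY z fun l hl => hz.2 l (by omega)
    rw [hz.2 (min i j) (by omega), mul_zero, mul_zero] at h1
    have h2 := (hdb z).add h1
    rw [add_zero] at h2
    refine tendsto_nhds_unique h2 ?_
    simp only [e3 _ z hz.1]
    exact tendsto_const_nhds
  have hav : dt a0 v0 = 0 := by
    have h1 : Tendsto (fun n => dt (a n) (v n)) uf (𝓝 (dt a0 v0)) := by
      unfold dt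
      exact tendsto_finsetSum _ fun b _ =>
        ((tendsto_pi_nhds.1 ha b).mul (tendsto_pi_nhds.1 hv b))
    refine tendsto_nhds_unique h1 ?_
    have h2 : ∀ n, dt (a n) (v n) = 0 := fun n => by
      have h3 := e2 n _ (vX n)
      rwa [e0 n, mul_zero, add_zero] at h3
    simp only [h2]
    exact tendsto_const_nhds
  have hbw : dt b0 w0 = 0 := by
    have h1 : Tendsto (fun n => dt (b n) (w n)) uf (𝓝 (dt b0 w0)) := by
      unfold dt
      exact tendsto_finsetSum _ fun c _ =>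
        ((tendsto_pi_nhds.1 hb c).mul (tendsto_pi_nhds.1 hw c))
    refine tendsto_nhds_unique h1 ?_
    have h2 : ∀ n, dt (b n) (w n) = 0 := fun n => by
      have h3 := e3 n _ (wY n)
      rwa [e0 n, mul_zero, add_zero] at h3
    simp only [h2]
    exact tendsto_const_nhds
  have ha2 : ∀ z ∈ Xi X φ i, dt a0 z = 0 := by
    intro z hz
    rcases le_or_gt i j with h | h
    · have ek : min i j = i := min_eq_left h
      have h1 : z + (-(pr (φ i) z / pr (φ i) v0)) • v0 ∈ Xi X φ (min i j + 1) := by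
        refine ⟨X.add_mem hz.1 (X.smul_mem _ hv0), fun l hl => ?_⟩
        rw [pr_add, pr_smul]
        rcases Nat.lt_or_ge l i with h2 | h2
        · rw [hz.2 l h2, hvi.2 l h2, mul_zero, add_zero]
        · have e : l = i := by omega
          subst e
          field_simp
          ring
      have h2 := ha1 _ h1
      rwa [dt_add_right, dt_smul_right, hav, mul_zero, add_zero] at h2
    · exact ha1 z ⟨hz.1, fun l hl => hz.2 l (by omega)⟩
  have hb2 : ∀ z ∈ Xi Y ψ j, dt b0 z = 0 := by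
    intro z hz
    rcases le_or_gt j i with h | h
    · have ek : min i j = j := min_eq_right h
      have h1 : z + (-(pr (ψ j) z / pr (ψ j) w0)) • w0 ∈ Xi Y ψ (min i j + 1) := by
        refine ⟨Y.add_mem hz.1 (Y.smul_mem _ hw0), fun l hl => ?_⟩
        rw [pr_add, pr_smul]
        rcases Nat.lt_or_ge l j with h2 | h2
        · rw [hz.2 l h2, hwj.2 l h2, mul_zero, add_zero]
        · have e : l = j := by omega
          subst e
          field_simp
          ring
      have h2 := hb1 _ h1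
      rwa [dt_add_right, dt_smul_right, hbw, mul_zero, add_zero] at h2
    · exact hb1 z ⟨hz.1, fun l hl => hz.2 l (by omega)⟩
  have hRij : i = j → R = 0 := by
    intro h
    have h1 := hR1 h.ge
    have h2 : dt a0 (fun b => (zX (min i j) b : ℂ)) = 0 :=
      ha2 _ (hX.mem_i (by omega) (by omega))
    rw [h2, neg_zero] at h1
    refine (mul_eq_zero.1 h1).resolve_right ?_
    rw [min_eq_right h.ge]
    exact hwj'
  refine ⟨i, j, hi, hj, ?_, hvi, hvi', hwj, hwj', ha2, hb2, ha1, hb1, ?_, ?_⟩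
  · rintro ⟨rfl, rfl⟩
    have h1 := RaC_lim (φ := φ) (ψ := ψ) hf (k := 0) (Nat.zero_le _) hv hw
      (fun n l hl => absurd hl (Nat.not_lt_zero l))
    simp only [e0, zero_div] at h1
    exact mul_ne_zero hvi' hwj' (tendsto_nhds_unique h1 tendsto_const_nhds)
  · intro z hz
    have h1 := hrX z fun l hl => hz l (by omega)
    have h2 : R * (pr (φ (min i j)) z * pr (ψ (min i j)) w0) = 0 := by
      rcases lt_trichotomy i j with h | h | h
      · rw [hwj.2 (min i j) (by omega), mul_zero, mul_zero]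
      · rw [hRij h, zero_mul]
      · rw [hz (min i j) (by omega), zero_mul, mul_zero]
    rwa [h2] at h1
  · intro z hz
    have h1 := hrY z fun l hl => hz l (by omega)
    have h2 : R * (pr (φ (min i j)) v0 * pr (ψ (min i j)) z) = 0 := by
      rcases lt_trichotomy i j with h | h | h
      · rw [hz (min i j) (by omega), mul_zero, mul_zero]
      · rw [hRij h, zero_mul]
      · rw [hvi.2 (min i j) (by omega), zero_mul, mul_zero]
    rwa [h2] at h1

end

end Pool.Agent.MPb0eK
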