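import Mathlib
import Pool.Agent.Lib.MP_b0e20b_ag_K.DA
import Pool.Agent.Lib.MP_b0e20b_ag_K.RaC
import Pool.Agent.Lib.MP_b0e20b_ag_K.P2
import Pool.Agent.Lib.MP_b0e20b_ag_K.P3
import Pool.Agent.Lib.MP_b0e20b_ag_R.Cpt

/-!
# MP_b0e20b_ag, project K: type D0: the limits are nondegenerate
-/

set_option autoImplicit false

open scoped BigOperators Topology
open Filter

namespace Pool.Agent.MPb0eK

open MPb0eR (c1 c2 c3 tr q Sup Rl Rea uf Nrm cj AF scl)

section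

variable {P : Par} {N n2 n3 : ℕ} {T : Fin (N + 1) → Fin (n2 + 1) → Fin (n3 + 1) → ℝ} {p : ℕ}
  {i j : ℕ → ℕ} {u : Fin (N + 1) → ℂ} {v : Fin (n2 + 1) → ℂ} {w : Fin (n3 + 1) → ℂ}
  {M M' κ κ' : ℂ}

/-- From the mask `0` to the mask `1`. -/
private theorem DL0_one {n : ℕ} {i : ℕ → ℕ} {v : Fin (n + 1) → ℂ} (hm : v ∈ Xo P n 0 i)
    (h : v 0 = 0) : v ∈ Xo P n 1 i :=
  ⟨mem_XM.2 ⟨fun _ => h, fun h => absurd h (by decide)⟩, hm.2⟩

/-- From the mask `0` to the mask `2`. -/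
private theorem DL0_two {n : ℕ} {i : ℕ → ℕ} {v : Fin (n + 1) → ℂ} (hm : v ∈ Xo P n 0 i)
    (h : v 0 = 0) (h' : pr (hv P n) v = 0) : v ∈ Xo P n 2 i :=
  ⟨mem_XM.2 ⟨fun _ => h, fun _ => h'⟩, hm.2⟩

/-- Every mask is contained in the mask `0`. -/
private theorem DL0_zero {n : ℕ} {i : ℕ → ℕ} {x : Fin 3} {v : Fin (n + 1) → ℂ}
    (hm : v ∈ Xo P n x i) : v ∈ Xo P n 0 i :=
  ⟨mem_XM.2 ⟨fun h => absurd rfl h, fun h => absurd h (by decide)⟩, hm.2⟩

/-- The mask of a factor. -/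
private theorem DL0_side {n : ℕ} {i : ℕ → ℕ} {v : Fin (n + 1) → ℂ} {M κ : ℂ}
    (hm : v ∈ Xo P n 0 i) (hr : M * pr (hv P n) v = κ * v 0) (h0 : M = 0 ∨ v 0 = 0) :
    ∃ x : Fin 3, v ∈ Xo P n x i ∧ ∀ z ∈ Xo P n x i, M * pr (hv P n) z = κ * z 0 := by
  by_cases hM : M = 0
  · rw [hM, zero_mul] at hr
    rcases mul_eq_zero.1 hr.symm with h | h
    · exact ⟨0, hm, fun z _ => by rw [hM, h, zero_mul, zero_mul]⟩
    · refine ⟨1, DL0_one hm h, fun z hz => ?_⟩
      rw [hM, (mem_XM.1 hz.1).1 (by decide), zero_mul, mul_zero]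
  · have h := h0.resolve_left hM
    rw [h, mul_zero] at hr
    refine ⟨2, DL0_two hm h ((mul_eq_zero.1 hr).resolve_left hM), fun z hz => ?_⟩
    rw [(mem_XM.1 hz.1).1 (by decide), (mem_XM.1 hz.1).2 rfl, mul_zero, mul_zero]

/-- The multipliers of a factor vanish if `u = 0`. -/
private theorem DL0_u (hP : GoodP P N) {n : ℕ} {i : ℕ → ℕ} (hi : ∀ q, N < q → i q = 0)
    {v : Fin (n + 1) → ℂ} {M κ : ℂ} (hv0 : v ≠ 0) (hm : v ∈ Xo P n 0 i)
    (hr : M * pr (hv P n) v = κ * v 0) (h0 : M = 0 ∨ v 0 = 0)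
    (hz : ∀ z ∈ Xo P n 0 i, M * pr (hv P n) z = κ * z 0) : M = 0 ∧ κ = 0 := by
  by_cases hM : M = 0
  · refine ⟨hM, ?_⟩
    rw [hM, zero_mul] at hr
    rcases mul_eq_zero.1 hr.symm with h | h
    · exact h
    · obtain ⟨z, hz1, -, hz2⟩ := tst_0 hP n hi (fun hb => hv0 (by
        have h1 := DL0_one hm h
        rw [hb] at h1
        exact (Submodule.mem_bot ℂ).1 h1))
      have h2 := hz z hz1
      rw [hM, hz2, zero_mul, mul_one] at h2
      exact h2.symm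
  · exfalso
    have h := h0.resolve_left hM
    rw [h, mul_zero] at hr
    have h1 := DL0_two hm h ((mul_eq_zero.1 hr).resolve_left hM)
    obtain ⟨z, hz1, -, hz2⟩ := tst_h hP n hi (fun hb => hv0 (by
      rw [hb] at h1
      exact (Submodule.mem_bot ℂ).1 h1))
    have h2 := hz z (DL0_zero hz1)
    rw [hz2, (mem_XM.1 hz1.1).1 (by decide), mul_zero, mul_one] at h2
    exact hM h2

/-- A solution of the limit equations of type D0 has nonzero multipliers.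

Proof. Let `X = Xo 0 i`, `Y = Xo 0 j`; `h` stands for `pr (hv P n2)`. `DK.rel`: `M h(v) = κ v 0`,
`M' h(w) = κ' w 0`, and `M' w 0 = M v 0`. If `X` contains a nonzero vector of a mask, then it
contains
the node product (`mem_Xo'`), so there are `z ∈ Xo 0 i` with `z 0 ≠ 0`, and if `Xo 1 i ≠ ⊥` there is
`z ∈ Xo 1 i` with `h(z) ≠ 0` (`tst_h`-like: the node product of the mask `1` at `gh`).
(1) `M = M' = 0`. Then `κ v 0 = 0`, `κ' w 0 = 0`. If `u = 0`: `κ z 0 = 0` on `X`, so `κ = 0`, `κ' =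
0`,
contradiction to `hne`. So `u ≠ 0`. Let `x = 0` if `κ = 0` and `x = 1` otherwise (then `v 0 = 0`,
`v ∈ Xo 1 i`), the same for `y`: `TX T (SR N false p) (Xo x i) (Xo y j) u v w 0 0 0`, contradiction
to `PE` (`OkX.hα`). (2) `M ≠ 0`, `M' = 0`: `M v 0 = 0`, so `v 0 = 0`, `M h(v) = 0`: `v ∈ Xo 2 i`.
If `u = 0`: the
tests with `z ∈ Xo 1 i` give `M h(z) = 0`, so `Xo 1 i = ⊥`, but `v ∈ Xo 1 i`, `v ≠ 0`. So `u ≠ 0`;
`κ' w 0 = 0`;
`y = 0` if `κ' = 0`, otherwise `y = 1`: `TX ... (Xo 2 i) (Xo y j) u v w 0 0 0`. (3) mirror.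
(4) `M, M' ≠ 0` and `v 0 = 0` (then `w 0 = 0`): `v ∈ Xo 2 i`, `w ∈ Xo 2 j`, `u ≠ 0` as in (2):
`TX` for the masks `(2, 2)`. -/
theorem dl0 (hP : GoodP P N) (hi : Adm p N i) (hj : Adm p N j) (hE : PE P T false p)
    (h : DK P T false p i j u v w M M' κ κ') (hv : v ≠ 0) (hw : w ≠ 0)
    (hne : ¬ (u = 0 ∧ M = 0 ∧ M' = 0 ∧ κ = 0 ∧ κ' = 0)) : NvD false u v w M M' := by
  obtain ⟨r1, r2⟩ := h.rel.1 rfl
  have r3 := h.e4 rfl
  have hi0 : ∀ q, N < q → i q = 0 := by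
    intro q hq
    by_contra hc
    exact absurd (hi q hc).2 (by omega)
  have hj0 : ∀ q, N < q → j q = 0 := by
    intro q hq
    by_contra hc
    exact absurd (hj q hc).2 (by omega)
  have hv1 : v ∈ Xo P n2 0 i := h.sv
  have hw1 : w ∈ Xo P n3 0 j := h.sw
  have key : M = 0 ∨ v 0 = 0 → M' = 0 ∨ w 0 = 0 → False := by
    intro h1 h2
    by_cases hu : u = 0
    · have k1 : ∀ z ∈ Xo P n2 0 i, M * pr (Pool.Agent.MPb0eK.hv P n2) z = κ * z 0 := by
        intro z hz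
        have h3 := h.e2 z hz
        have h5 : c2 T u w = 0 := by
          rw [hu]
          funext b
          simp [c2]
        have h4 : dt (c2 T u w) z = 0 := by
          rw [h5]
          simp [dt]
        rw [h4, zero_add] at h3
        exact h3
      have k2 : ∀ z ∈ Xo P n3 0 j, M' * pr (Pool.Agent.MPb0eK.hv P n3) z = κ' * z 0 := by
        intro z hz
        have h3 := h.e3 z hz
        have h5 : c3 T u v = 0 := by
          rw [hu]
          funext b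
          simp [c3]
        have h4 : dt (c3 T u v) z = 0 := by
          rw [h5]
          simp [dt]
        rw [h4, zero_add] at h3
        exact h3
      obtain ⟨a1, a2⟩ := DL0_u hP hi0 hv hv1 r1 h1 k1
      obtain ⟨b1, b2⟩ := DL0_u hP hj0 hw hw1 r2 h2 k2
      exact hne ⟨hu, a1, b1, a2, b2⟩
    · obtain ⟨x, hx, hx'⟩ := DL0_side hv1 r1 h1
      obtain ⟨y, hy, hy'⟩ := DL0_side hw1 r2 h2
      refine (hE x y i j (fun hf => absurd hf (by decide)) hi hj u v w 0 0 0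
        ⟨h.su, hx, hy, fun a ha => ?_, fun z hz => ?_, fun z hz => ?_⟩ hu hv hw).1.hα rfl
      · rw [h.e1 a ha, zero_mul]
      · have h3 := h.e2 z (DL0_zero hz)
        rw [hx' z hz] at h3
        rw [zero_mul]
        linear_combination h3
      · have h3 := h.e3 z (DL0_zero hz)
        rw [hy' z hz] at h3
        rw [zero_mul]
        linear_combination h3
  have c1' : ¬ (M = 0 ∨ v 0 = 0) := by
    intro h1
    refine key h1 ?_
    have h2 : M' * w 0 = 0 := by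
      rw [r3]
      rcases h1 with h1 | h1
      · rw [h1, zero_mul]
      · rw [h1, mul_zero]
    exact mul_eq_zero.1 h2
  push Not at c1'
  obtain ⟨hM, hv2⟩ := c1'
  have h2 : M' * w 0 ≠ 0 := by
    rw [r3]
    exact mul_ne_zero hM hv2
  exact ⟨hv, hw, hM, left_ne_zero_of_mul h2, fun _ => ⟨hv2, right_ne_zero_of_mul h2⟩,
    fun hf => absurd hf (by decide)⟩

end

end Pool.Agent.MPb0eK
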