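import Mathlib
import Pool.Agent.Lib.MP_b0e20b_ag_K.DA
import Pool.Agent.Lib.MP_b0e20b_ag_K.RaC
import Pool.Agent.Lib.MP_b0e20b_ag_K.P2
import Pool.Agent.Lib.MP_b0e20b_ag_K.P3
import Pool.Agent.Lib.MP_b0e20b_ag_R.Cpt

/-!
# MP_b0e20b_ag, project K: type D1: the limits are nondegenerate
-/

set_option autoImplicit false

open scoped BigOperators Topology
open Filter

namespace Pool.Agent.MPb0eK

open MPb0eR (c1 c2 c3 tr q Sup Rl Rea uf Nrm cj AF scl)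

section

variable {P : Par} {N n2 n3 : ℕ} {T : Fin (N + 1) → Fin (n2 + 1) → Fin (n3 + 1) → ℝ} {p : ℕ}
  {i j : ℕ → ℕ} {u : Fin (N + 1) → ℂ} {v : Fin (n2 + 1) → ℂ} {w : Fin (n3 + 1) → ℂ}
  {M M' κ κ' : ℂ}

/-- From the mask `1` to the mask `2`. -/
private theorem DL1_two {n : ℕ} {i : ℕ → ℕ} {v : Fin (n + 1) → ℂ} (hm : v ∈ Xo P n 1 i)
    (h : pr (hv P n) v = 0) : v ∈ Xo P n 2 i :=
  ⟨mem_XM.2 ⟨fun _ => (mem_XM.1 hm.1).1 (by decide), fun _ => h⟩, hm.2⟩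

/-- From the mask `2` to the mask `1`. -/
private theorem DL1_one {n : ℕ} {i : ℕ → ℕ} {v : Fin (n + 1) → ℂ} (hm : v ∈ Xo P n 2 i) :
    v ∈ Xo P n 1 i :=
  ⟨mem_XM.2 ⟨fun _ => (mem_XM.1 hm.1).1 (by decide), fun h => absurd h (by decide)⟩, hm.2⟩

/-- No solutions with vanishing multipliers. -/
private theorem DL1_no (hi : Adm p N i) (hj : Adm p N j) (hE : PE P T false p)
    (hE' : PE P T true p) (h : DK P T true p i j u v w M M' κ κ') (hu : u ≠ 0) (hv0 : v ≠ 0)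
    (hw : w ≠ 0) {x y : Fin 3} (hvx : v ∈ Xo P n2 x i) (hwy : w ∈ Xo P n3 y j)
    (hx : ∀ z ∈ Xo P n2 x i, z ∈ Xo P n2 1 i ∧ M * pr (hv P n2) z = 0)
    (hy : ∀ z ∈ Xo P n3 y j, z ∈ Xo P n3 1 j ∧ M' * pr (hv P n3) z = 0)
    (hG : u 0 = 0 ∨ (c1 T v w 0 = 0 ∧ Msk true x y)) : False := by
  obtain ⟨hκ, hκ'⟩ := h.ek rfl
  have e2 : ∀ z ∈ Xo P n2 x i, dt (c2 T u w) z = 0 * dt v z := by
    intro z hz
    obtain ⟨h1, h2⟩ := hx z hz
    have h3 := h.e2 z h1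
    rw [h2, hκ, add_zero, zero_mul] at h3
    rw [h3, zero_mul]
  have e3 : ∀ z ∈ Xo P n3 y j, dt (c3 T u v) z = 0 * dt w z := by
    intro z hz
    obtain ⟨h1, h2⟩ := hy z hz
    have h3 := h.e3 z h1
    rw [h2, hκ', add_zero, zero_mul] at h3
    rw [h3, zero_mul]
  rcases hG with h0 | ⟨hG, hm⟩
  · refine (hE x y i j (fun hf => absurd hf (by decide)) hi hj u v w 0 0 0
      ⟨?_, hvx, hwy, ?_, e2, e3⟩ hu hv0 hw).1.hα rfl
    · intro a ha
      by_cases ha0 : a = 0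
      · rw [ha0, h0]
      · refine h.su a fun hc => ha ?_
        unfold SR at hc ⊢
        rw [Finset.mem_filter] at hc ⊢
        exact ⟨hc.1, Or.inr ha0, hc.2.2⟩
    · intro a ha
      rw [h.e1 a ha, zero_mul]
  · refine (hE' x y i j hm hi hj u v w 0 0 0 ⟨h.su, hvx, hwy, ?_, e2, e3⟩ hu hv0 hw).1.hα rfl
    intro a ha
    rw [zero_mul]
    by_cases ha0 : a = 0
    · rw [ha0, hG]
    · refine h.e1 a ?_
      unfold SR at ha ⊢
      rw [Finset.mem_filter] at ha ⊢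
      exact ⟨ha.1, Or.inr ha0, ha.2.2⟩

/-- A solution of the limit equations of type D1 has nonzero multipliers.

Proof. `DK.rel`: `u 0 G + M h(v) = 0`, `u 0 G + M' h(w) = 0`, `G = c1 T v w 0`; `κ = κ' = 0`.
(1) `M = M' = 0`: `u ≠ 0`, `u 0 G = 0`. If `u 0 = 0`: `TX T (SR N false p) (Xo 1 i) (Xo 1 j) u v w
0 0 0`,
contradiction to `hE`; if `u 0 ≠ 0` then `G = 0` and `TX T (SR N true p) ...`, contradiction to
`hE'`.
(2) `M ≠ 0`, `M' = 0`: `u 0 G = 0`, `h(v) = 0`: `v ∈ Xo 2 i`; `u ≠ 0` (otherwise `M h(z) = 0` on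
`Xo 1 i ∋ v`, so `Xo 1 i = ⊥`); masks `(2, 1)`, rows without or with `0`. (3) mirror. (4) `M, M' ≠
0` and
`u 0 = 0`: `h(v) = h(w) = 0`, `u ≠ 0`: masks `(2, 2)` for `SR N false p`. So `u 0 ≠ 0`. -/
theorem dl1 (hP : GoodP P N) (h1 : 1 ≤ p) (hi : Adm p N i) (hj : Adm p N j) (hE : PE P T false p)
    (hE' : PE P T true p) (h : DK P T true p i j u v w M M' κ κ') (hv : v ≠ 0) (hw : w ≠ 0)
    (hne : ¬ (u = 0 ∧ M = 0 ∧ M' = 0)) : NvD true u v w M M' := by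
  obtain ⟨hκ, hκ'⟩ := h.ek rfl
  obtain ⟨r1, r2⟩ := h.rel.2 rfl
  have hi0 : ∀ q, N < q → i q = 0 := by
    intro q hq
    by_contra hc
    exact absurd (hi q hc).2 (by omega)
  have hj0 : ∀ q, N < q → j q = 0 := by
    intro q hq
    by_contra hc
    exact absurd (hj q hc).2 (by omega)
  have hv1 : v ∈ Xo P n2 1 i := h.sv
  have hw1 : w ∈ Xo P n3 1 j := h.sw
  -- if `M ≠ 0` and `h(v) = 0` then `u ≠ 0`
  have k2 : M ≠ 0 → pr (Pool.Agent.MPb0eK.hv P n2) v = 0 → u ≠ 0 := by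
    intro hM hh hu
    have h2 : v ∈ Xo P n2 2 i := DL1_two hv1 hh
    obtain ⟨z, hz, -, hz1⟩ := tst_h hP n2 hi0 (fun hb => hv (by
      rw [hb] at h2
      exact (Submodule.mem_bot ℂ).1 h2))
    have h3 := h.e2 z hz
    have h4 : dt (c2 T u w) z = 0 := by
      have h5 : c2 T u w = 0 := by
        rw [hu]
        funext b
        simp [c2]
      rw [h5]
      simp [dt]
    rw [h4, hz1, hκ, zero_mul, zero_add, mul_one] at h3
    exact hM h3
  have k3 : M' ≠ 0 → pr (Pool.Agent.MPb0eK.hv P n3) w = 0 → u ≠ 0 := by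
    intro hM hh hu
    have h2 : w ∈ Xo P n3 2 j := DL1_two hw1 hh
    obtain ⟨z, hz, -, hz1⟩ := tst_h hP n3 hj0 (fun hb => hw (by
      rw [hb] at h2
      exact (Submodule.mem_bot ℂ).1 h2))
    have h3 := h.e3 z hz
    have h4 : dt (c3 T u v) z = 0 := by
      have h5 : c3 T u v = 0 := by
        rw [hu]
        funext b
        simp [c3]
      rw [h5]
      simp [dt]
    rw [h4, hz1, hκ', zero_mul, zero_add, mul_one] at h3
    exact hM h3
  have m2 : ∀ z ∈ Xo P n2 2 i,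
      z ∈ Xo P n2 1 i ∧ M * pr (Pool.Agent.MPb0eK.hv P n2) z = 0 := fun z hz =>
    ⟨DL1_one hz, by rw [(mem_XM.1 hz.1).2 rfl, mul_zero]⟩
  have m3 : ∀ z ∈ Xo P n3 2 j,
      z ∈ Xo P n3 1 j ∧ M' * pr (Pool.Agent.MPb0eK.hv P n3) z = 0 := fun z hz =>
    ⟨DL1_one hz, by rw [(mem_XM.1 hz.1).2 rfl, mul_zero]⟩
  by_cases hM : M = 0
  · exfalso
    rw [hM, zero_mul, add_zero] at r1
    have n2' : ∀ z ∈ Xo P n2 1 i,
        z ∈ Xo P n2 1 i ∧ M * pr (Pool.Agent.MPb0eK.hv P n2) z = 0 := fun z hz =>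
      ⟨hz, by rw [hM, zero_mul]⟩
    by_cases hM' : M' = 0
    · have hu : u ≠ 0 := fun hu => hne ⟨hu, hM, hM'⟩
      refine DL1_no hi hj hE hE' h hu hv hw hv1 hw1 n2' (fun z hz => ⟨hz, by
        rw [hM', zero_mul]⟩) ?_
      rcases mul_eq_zero.1 r1 with h0 | h0
      · exact Or.inl h0
      · exact Or.inr ⟨h0, fun _ => ⟨by decide, by decide, by decide⟩⟩
    · rw [r1, zero_add] at r2
      have hh := (mul_eq_zero.1 r2).resolve_left hM'
      refine DL1_no hi hj hE hE' h (k3 hM' hh) hv hw hv1 (DL1_two hw1 hh) n2' m3 ?_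
      rcases mul_eq_zero.1 r1 with h0 | h0
      · exact Or.inl h0
      · exact Or.inr ⟨h0, fun _ => ⟨by decide, by decide, by decide⟩⟩
  · by_cases hM' : M' = 0
    · exfalso
      rw [hM', zero_mul, add_zero] at r2
      rw [r2, zero_add] at r1
      have hh := (mul_eq_zero.1 r1).resolve_left hM
      refine DL1_no hi hj hE hE' h (k2 hM hh) hv hw (DL1_two hv1 hh) hw1 m2 (fun z hz =>
        ⟨hz, by rw [hM', zero_mul]⟩) ?_
      rcases mul_eq_zero.1 r2 with h0 | h0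
      · exact Or.inl h0
      · exact Or.inr ⟨h0, fun _ => ⟨by decide, by decide, by decide⟩⟩
    · refine ⟨hv, hw, hM, hM', fun hf => absurd hf (by decide), fun _ hu0 => ?_⟩
      rw [hu0, zero_mul, zero_add] at r1 r2
      have hh := (mul_eq_zero.1 r1).resolve_left hM
      have hh' := (mul_eq_zero.1 r2).resolve_left hM'
      exact DL1_no hi hj hE hE' h (k2 hM hh) hv hw (DL1_two hv1 hh) (DL1_two hw1 hh') m2 m3
        (Or.inl hu0)

end

end Pool.Agent.MPb0eK
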