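import Mathlib
import Pool.Agent.Lib.MP_b0e20b_ag_K.FA
import Pool.Agent.Lib.MP_b0e20b_ag_R.Alg2

/-!
# MP_b0e20b_ag, project K: constrained tuples: elementary facts
-/

set_option autoImplicit false

open scoped BigOperators Topology
open Filter

namespace Pool.Agent.MPb0eK

open MPb0eR (c1 c2 c3 tr q Sup Rl Rea uf Nrm cj AF scl)

section

variable {A B C : Type} [Fintype A] [Fintype B] [Fintype C] [DecidableEq A] [DecidableEq B]
  [DecidableEq C]

variable {T : A → B → C → ℝ} {F : B → C → ℝ} {SA : Finset A} {X : Submodule ℂ (B → ℂ)}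
  {Y : Submodule ℂ (C → ℂ)} {u : A → ℂ} {v : B → ℂ} {w : C → ℂ} {α β γ r : ℂ}

omit [DecidableEq B] [DecidableEq C] in
private theorem ea_bf_smul (F : B → C → ℝ) (b c : ℂ) (v : B → ℂ) (w : C → ℂ) :
    bf F (b • v) (c • w) = b * c * bf F v w := by
  unfold bf
  rw [Finset.mul_sum]
  refine Finset.sum_congr rfl fun x _ => ?_
  rw [Finset.mul_sum]
  refine Finset.sum_congr rfl fun y _ => ?_
  rw [Pi.smul_apply, Pi.smul_apply, smul_eq_mul, smul_eq_mul]
  ring

omit [Fintype B] [DecidableEq B] [DecidableEq C] in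
private theorem ea_bfB_smul (F : B → C → ℝ) (c : ℂ) (w : C → ℂ) :
    bfB F (c • w) = c • bfB F w := by
  funext x
  unfold bfB
  rw [Pi.smul_apply, smul_eq_mul, Finset.mul_sum]
  refine Finset.sum_congr rfl fun y _ => ?_
  rw [Pi.smul_apply, smul_eq_mul]
  ring

omit [Fintype C] [DecidableEq B] [DecidableEq C] in
private theorem ea_bfC_smul (F : B → C → ℝ) (b : ℂ) (v : B → ℂ) :
    bfC F (b • v) = b • bfC F v := by
  funext x
  unfold bfC
  rw [Pi.smul_apply, smul_eq_mul, Finset.mul_sum]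
  refine Finset.sum_congr rfl fun y _ => ?_
  rw [Pi.smul_apply, smul_eq_mul]
  ring

omit [DecidableEq A] [DecidableEq B] [DecidableEq C] in
private theorem ea_c1 (b c : ℂ) (v : B → ℂ) (w : C → ℂ) :
    c1 T (b • v) (c • w) = (b * c) • c1 T v w := by
  funext x
  rw [MPb0eR.c1_smul_left, MPb0eR.c1_smul_right, Pi.smul_apply, smul_eq_mul, mul_assoc]

omit [DecidableEq A] [DecidableEq B] [DecidableEq C] in
private theorem ea_c2 (a c : ℂ) (u : A → ℂ) (w : C → ℂ) :
    c2 T (a • u) (c • w) = (a * c) • c2 T u w := by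
  funext x
  rw [MPb0eR.c2_smul_left, MPb0eR.c2_smul_right, Pi.smul_apply, smul_eq_mul, mul_assoc]

omit [DecidableEq A] [DecidableEq B] [DecidableEq C] in
private theorem ea_c3 (a b : ℂ) (u : A → ℂ) (v : B → ℂ) :
    c3 T (a • u) (b • v) = (a * b) • c3 T u v := by
  funext x
  rw [MPb0eR.c3_smul_left, MPb0eR.c3_smul_right, Pi.smul_apply, smul_eq_mul, mul_assoc]

omit [Fintype A] [DecidableEq A] in
private theorem ea_sup {S : Finset A} {u : A → ℂ} (h : Sup S u) (a : ℂ) : Sup S (a • u) := by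
  intro x hx
  rw [Pi.smul_apply, h x hx, smul_zero]

omit [Fintype A] [DecidableEq A] in
private theorem ea_cancel {a r : ℂ} (ha : a ≠ 0) {x y : A → ℂ} (h : a • x = r • a • y) :
    x = r • y := by
  rw [smul_comm] at h
  exact smul_right_injective _ ha h

/-- `α q u = β q v = γ q w = T (u, v, w)` (test with `v`, `w`; the constraint is zero). -/
theorem CX.tr (h : CX T F SA X Y u v w α β γ r) :
    α * q u = MPb0eR.tr T u v w ∧ β * q v = MPb0eR.tr T u v w ∧ γ * q w = MPb0eR.tr T u v w := by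
  refine ⟨?_, ?_, ?_⟩
  · rw [MPb0eR.tr_c1]
    unfold q
    rw [Finset.mul_sum]
    refine Finset.sum_congr rfl fun a _ => ?_
    by_cases ha : a ∈ SA
    · rw [h.e1 a ha]
      ring
    · rw [h.su a ha]
      ring
  · have h1 := h.e2 v h.sv
    rw [dt_bfB, h.e0, mul_zero, add_zero, dt_self] at h1
    rw [← h1, MPb0eR.tr_c2]
    exact Finset.sum_congr rfl fun b _ => mul_comm _ _
  · have h1 := h.e3 w h.sw
    rw [dt_bfC, h.e0, mul_zero, add_zero, dt_self] at h1
    rw [← h1, MPb0eR.tr_c3]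
    exact Finset.sum_congr rfl fun b _ => mul_comm _ _

theorem CX.smul (h : CX T F SA X Y u v w α β γ r) {a b c : ℂ} (ha : a ≠ 0) (hb : b ≠ 0)
    (hc : c ≠ 0) :
    CX T F SA X Y (a • u) (b • v) (c • w) (b * c * a⁻¹ * α) (a * c * b⁻¹ * β) (a * b * c⁻¹ * γ)
      (a * r) := by
  refine ⟨ea_sup h.su a, X.smul_mem b h.sv, Y.smul_mem c h.sw, fun x hx => ?_, ?_, fun z hz => ?_,
    fun z hz => ?_⟩
  · rw [ea_c1, Pi.smul_apply, smul_eq_mul, h.e1 x hx, Pi.smul_apply, smul_eq_mul]
    field_simp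
  · rw [ea_bf_smul, h.e0, mul_zero]
  · rw [ea_c2, ea_bfB_smul, dt_smul_left, dt_smul_left, dt_smul_left]
    have h1 := h.e2 z hz
    have h2 : a * c * b⁻¹ * β * (b * dt v z) = a * c * (β * dt v z) := by field_simp
    rw [h2, ← h1]
    ring
  · rw [ea_c3, ea_bfC_smul, dt_smul_left, dt_smul_left, dt_smul_left]
    have h1 := h.e3 z hz
    have h2 : a * b * c⁻¹ * γ * (c * dt w z) = a * b * (γ * dt w z) := by field_simp
    rw [h2, ← h1]
    ring

theorem TX.smul (h : TX T SA X Y u v w α β γ) {a b c : ℂ} (ha : a ≠ 0) (hb : b ≠ 0) (hc : c ≠ 0) :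
    TX T SA X Y (a • u) (b • v) (c • w) (b * c * a⁻¹ * α) (a * c * b⁻¹ * β)
      (a * b * c⁻¹ * γ) := by
  refine ⟨ea_sup h.su a, X.smul_mem b h.sv, Y.smul_mem c h.sw, fun x hx => ?_, fun z hz => ?_,
    fun z hz => ?_⟩
  · rw [ea_c1, Pi.smul_apply, smul_eq_mul, h.e1 x hx, Pi.smul_apply, smul_eq_mul]
    field_simp
  · rw [ea_c2, dt_smul_left, dt_smul_left, h.e2 z hz]
    field_simp
  · rw [ea_c3, dt_smul_left, dt_smul_left, h.e3 z hz]
    field_simp

/-- `OkX` is invariant under rescaling. -/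
theorem OkX.of_smul {a b c : ℂ} (ha : a ≠ 0) (hb : b ≠ 0) (hc : c ≠ 0)
    (h : OkX T SA X Y (a • u) (b • v) (c • w) (b * c * a⁻¹ * α) (a * c * b⁻¹ * β)
      (a * b * c⁻¹ * γ)) : OkX T SA X Y u v w α β γ := by
  refine ⟨(MPb0eR.Rl_smul ha).1 h.ru, (MPb0eR.Rl_smul hb).1 h.rv, (MPb0eR.Rl_smul hc).1 h.rw',
    right_ne_zero_of_mul h.hα, right_ne_zero_of_mul h.hβ, right_ne_zero_of_mul h.hγ, ?_⟩
  intro du dv dw dα dβ dγ hk
  obtain ⟨⟨r1, h1⟩, ⟨r2, h2⟩, r3, h3⟩ := h.nd (a • du) (b • dv) (c • dw) (b * c * a⁻¹ * dα)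
    (a * c * b⁻¹ * dβ) (a * b * c⁻¹ * dγ) (by
      refine ⟨ea_sup hk.su a, X.smul_mem b hk.sv, Y.smul_mem c hk.sw, fun x hx => ?_,
        fun z hz => ?_, fun z hz => ?_⟩
      · have h1 := hk.e1 x hx
        rw [ea_c1, ea_c1]
        simp only [Pi.smul_apply, smul_eq_mul]
        have h2 : b * c * a⁻¹ * α * (a * du x) + b * c * a⁻¹ * dα * (a * u x)
            = b * c * (α * du x + dα * u x) := by field_simp
        rw [h2, ← h1]
        ring
      · have h1 := hk.e2 z hz
        rw [ea_c2, ea_c2, dt_smul_left, dt_smul_left, dt_smul_left, dt_smul_left]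
        have h2 : a * c * b⁻¹ * β * (b * dt dv z) + a * c * b⁻¹ * dβ * (b * dt v z)
            = a * c * (β * dt dv z + dβ * dt v z) := by field_simp
        rw [h2, ← h1]
        ring
      · have h1 := hk.e3 z hz
        rw [ea_c3, ea_c3, dt_smul_left, dt_smul_left, dt_smul_left, dt_smul_left]
        have h2 : a * b * c⁻¹ * γ * (c * dt dw z) + a * b * c⁻¹ * dγ * (c * dt w z)
            = a * b * (γ * dt dw z + dγ * dt w z) := by field_simp
        rw [h2, ← h1]
        ring)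
  exact ⟨⟨r1, ea_cancel ha h1⟩, ⟨r2, ea_cancel hb h2⟩, r3, ea_cancel hc h3⟩

/-- `OkC` is invariant under rescaling. -/
theorem OkC.of_smul {a b c : ℂ} (ha : a ≠ 0) (hb : b ≠ 0) (hc : c ≠ 0)
    (h : OkC T F SA X Y (a • u) (b • v) (c • w) (b * c * a⁻¹ * α) (a * c * b⁻¹ * β)
      (a * b * c⁻¹ * γ) (a * r)) : OkC T F SA X Y u v w α β γ r := by
  refine ⟨?_, right_ne_zero_of_mul h.hα, ?_⟩
  · obtain ⟨a', b', c', ha', hb', hc', h1, h2, h3, h4⟩ := h.re
    refine ⟨a' * a, b' * b, c' * c, mul_ne_zero ha' ha, mul_ne_zero hb' hb, mul_ne_zero hc' hc,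
      ?_, ?_, ?_, ?_⟩
    · rw [mul_smul]
      exact h1
    · rw [mul_smul]
      exact h2
    · rw [mul_smul]
      exact h3
    · rw [mul_assoc]
      exact h4
  · intro du dv dw dα dβ dγ dr hk
    obtain ⟨r1, r2, r3, h1, h2, h3, h4⟩ := h.nd (a • du) (b • dv) (c • dw) (b * c * a⁻¹ * dα)
      (a * c * b⁻¹ * dβ) (a * b * c⁻¹ * dγ) (a * dr) (by
        refine ⟨ea_sup hk.su a, X.smul_mem b hk.sv, Y.smul_mem c hk.sw, fun x hx => ?_, ?_,
          fun z hz => ?_, fun z hz => ?_⟩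
        · have h1 := hk.e1 x hx
          rw [ea_c1, ea_c1]
          simp only [Pi.smul_apply, smul_eq_mul]
          have h2 : b * c * a⁻¹ * α * (a * du x) + b * c * a⁻¹ * dα * (a * u x)
              = b * c * (α * du x + dα * u x) := by field_simp
          rw [h2, ← h1]
          ring
        · rw [ea_bf_smul, ea_bf_smul, ← mul_add, hk.e0, mul_zero]
        · have h1 := hk.e2 z hz
          rw [ea_c2, ea_c2, ea_bfB_smul, ea_bfB_smul, dt_smul_left, dt_smul_left, dt_smul_left,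
            dt_smul_left, dt_smul_left, dt_smul_left]
          have h2 : a * c * b⁻¹ * β * (b * dt dv z) + a * c * b⁻¹ * dβ * (b * dt v z)
              = a * c * (β * dt dv z + dβ * dt v z) := by field_simp
          rw [h2, ← h1]
          ring
        · have h1 := hk.e3 z hz
          rw [ea_c3, ea_c3, ea_bfC_smul, ea_bfC_smul, dt_smul_left, dt_smul_left, dt_smul_left,
            dt_smul_left, dt_smul_left, dt_smul_left]
          have h2 : a * b * c⁻¹ * γ * (c * dt dw z) + a * b * c⁻¹ * dγ * (c * dt w z)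
              = a * b * (γ * dt dw z + dγ * dt w z) := by field_simp
          rw [h2, ← h1]
          ring)
    refine ⟨r1, r2, r3, ea_cancel ha h1, ea_cancel hb h2, ea_cancel hc h3, ?_⟩
    rw [mul_left_comm] at h4
    exact mul_left_cancel₀ ha h4

/-- Multiplying the constraint by a nonzero real number. -/
theorem CX.scale {R : ℝ} (hR : R ≠ 0) :
    CX T (fun b c => R * F b c) SA X Y u v w α β γ r ↔ CX T F SA X Y u v w α β γ (R * r) := by
  have hR' : (R : ℂ) ≠ 0 := Complex.ofReal_ne_zero.2 hR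
  have h0 : bf (fun b c => R * F b c) v w = R * bf F v w := by
    unfold bf
    rw [Finset.mul_sum]
    refine Finset.sum_congr rfl fun x _ => ?_
    rw [Finset.mul_sum]
    refine Finset.sum_congr rfl fun y _ => ?_
    rw [Complex.ofReal_mul]
    ring
  have hB : bfB (fun b c => R * F b c) w = (R : ℂ) • bfB F w := by
    funext x
    unfold bfB
    rw [Pi.smul_apply, smul_eq_mul, Finset.mul_sum]
    refine Finset.sum_congr rfl fun y _ => ?_
    rw [Complex.ofReal_mul]
    ring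
  have hC : bfC (fun b c => R * F b c) v = (R : ℂ) • bfC F v := by
    funext x
    unfold bfC
    rw [Pi.smul_apply, smul_eq_mul, Finset.mul_sum]
    refine Finset.sum_congr rfl fun y _ => ?_
    rw [Complex.ofReal_mul]
    ring
  constructor
  · intro h
    refine ⟨h.su, h.sv, h.sw, h.e1, ?_, fun z hz => ?_, fun z hz => ?_⟩
    · have h1 := h.e0
      rw [h0] at h1
      exact (mul_eq_zero.1 h1).resolve_left hR'
    · have h1 := h.e2 z hz
      rw [hB, dt_smul_left] at h1
      rw [← h1]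
      ring
    · have h1 := h.e3 z hz
      rw [hC, dt_smul_left] at h1
      rw [← h1]
      ring
  · intro h
    refine ⟨h.su, h.sv, h.sw, h.e1, ?_, fun z hz => ?_, fun z hz => ?_⟩
    · rw [h0, h.e0, mul_zero]
    · have h1 := h.e2 z hz
      rw [hB, dt_smul_left, ← h1]
      ring
    · have h1 := h.e3 z hz
      rw [hC, dt_smul_left, ← h1]
      ring

end

end Pool.Agent.MPb0eK
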