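import Mathlib
import Pool.Agent.Lib.MP_b0e20b_ag_K.EA
import Pool.Agent.Lib.MP_b0e20b_ag_K.Rig

/-!
# MP_b0e20b_ag, project K: singular tuples as a system `Sy`
-/

set_option autoImplicit false

open scoped BigOperators Topology
open Filter

namespace Pool.Agent.MPb0eK

open MPb0eR (c1 c2 c3 tr q Sup Rl Rea uf Nrm cj AF scl)

section

variable {A B C : Type} [Fintype A] [Fintype B] [Fintype C] [DecidableEq A] [DecidableEq B]
  [DecidableEq C]

/-- The singular tuples, normalised at `ia, ib, ic`; unknowns `e = (u, ![α, β, γ])`. -/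
def syE (T : A → B → C → ℝ) (SA : Finset A) (ia : A) (ib : B) (ic : C) :
    Sy (A ⊕ Fin 3) (A ⊕ Fin 3) B C where
  a := fun p b => c2 T (fun a => p.1 (Sum.inl a)) p.2.2 b - p.1 (Sum.inr 1) * p.2.1 b
  b := fun p c => c3 T (fun a => p.1 (Sum.inl a)) p.2.1 c - p.1 (Sum.inr 2) * p.2.2 c
  g := fun p k => k.elim
    (fun a => if a ∈ SA then c1 T p.2.1 p.2.2 a - p.1 (Sum.inr 0) * p.1 (Sum.inl a)
      else p.1 (Sum.inl a))
    ![p.1 (Sum.inl ia) - 1, p.2.1 ib - 1, p.2.2 ic - 1]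

/-- The point of `syE`. -/
def ptE (u : A → ℂ) (v : B → ℂ) (w : C → ℂ) (α β γ : ℂ) :
    (A ⊕ Fin 3 → ℂ) × (B → ℂ) × (C → ℂ) := (Sum.elim u ![α, β, γ], v, w)

/-! ### Expansions -/

private theorem ES_dt_sub (x y z : A → ℂ) : dt (x - y) z = dt x z - dt y z := by
  simp only [dt, Pi.sub_apply, sub_mul, Finset.sum_sub_distrib]

private theorem ES_dt_zero (z : A → ℂ) : dt (0 : A → ℂ) z = 0 := by
  simp [dt]

private theorem ES_quad {f : ℝ → ℂ} {P0 P1 P2 : ℂ}
    (hf : ∀ t : ℝ, f t = P0 + (t : ℂ) * P1 + (t : ℂ) ^ 2 * P2) : HasDerivAt f P1 0 := by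
  have h0 : HasDerivAt (fun t : ℝ => (t : ℂ)) ((1 : ℝ) : ℂ) 0 := (hasDerivAt_id (0 : ℝ)).ofReal_comp
  have h1 : HasDerivAt (fun t : ℝ => P0 + (t : ℂ) * P1 + (t : ℂ) * (t : ℂ) * P2) P1 0 := by
    have h2 := ((h0.mul_const P1).const_add P0).add ((h0.mul h0).mul_const P2)
    simp only [Complex.ofReal_one, one_mul, Complex.ofReal_zero, zero_mul, mul_zero, add_zero]
      at h2
    exact h2
  have h3 : f = fun t : ℝ => P0 + (t : ℂ) * P1 + (t : ℂ) * (t : ℂ) * P2 := by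
    funext t
    rw [hf, sq]
  rw [h3]
  exact h1

private theorem ES_iff {f : ℝ → ℂ} {P0 P1 P2 : ℂ}
    (hf : ∀ t : ℝ, f t = P0 + (t : ℂ) * P1 + (t : ℂ) ^ 2 * P2) : HasDerivAt f 0 0 ↔ P1 = 0 := by
  constructor
  · intro h
    exact (ES_quad hf).unique h
  · intro h
    have h1 := ES_quad hf
    rwa [h] at h1

private theorem ES_c1e (T : A → B → C → ℝ) (v dv : B → ℂ) (w dw : C → ℂ) (s : ℂ) :
    c1 T (v + s • dv) (w + s • dw)
      = c1 T v w + s • (c1 T dv w + c1 T v dw) + s ^ 2 • c1 T dv dw := by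
  funext b
  simp only [MPb0eR.c1_add_left, MPb0eR.c1_add_right, MPb0eR.c1_smul_left, MPb0eR.c1_smul_right,
    Pi.add_apply, Pi.smul_apply, smul_eq_mul]
  ring

private theorem ES_c2e (T : A → B → C → ℝ) (u du : A → ℂ) (w dw : C → ℂ) (s : ℂ) :
    c2 T (u + s • du) (w + s • dw)
      = c2 T u w + s • (c2 T du w + c2 T u dw) + s ^ 2 • c2 T du dw := by
  funext b
  simp only [MPb0eR.c2_add_left, MPb0eR.c2_add_right, MPb0eR.c2_smul_left, MPb0eR.c2_smul_right,
    Pi.add_apply, Pi.smul_apply, smul_eq_mul]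
  ring

private theorem ES_c3e (T : A → B → C → ℝ) (u du : A → ℂ) (v dv : B → ℂ) (s : ℂ) :
    c3 T (u + s • du) (v + s • dv)
      = c3 T u v + s • (c3 T du v + c3 T u dv) + s ^ 2 • c3 T du dv := by
  funext b
  simp only [MPb0eR.c3_add_left, MPb0eR.c3_add_right, MPb0eR.c3_smul_left, MPb0eR.c3_smul_right,
    Pi.add_apply, Pi.smul_apply, smul_eq_mul]
  ring

private theorem ES_bfe (F : B → C → ℝ) (v dv : B → ℂ) (w dw : C → ℂ) (s : ℂ) :
    bf F (v + s • dv) (w + s • dw)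
      = bf F v w + s * (bf F dv w + bf F v dw) + s ^ 2 * bf F dv dw := by
  simp only [bf, Pi.add_apply, Pi.smul_apply, smul_eq_mul, Finset.mul_sum,
    ← Finset.sum_add_distrib]
  exact Finset.sum_congr rfl fun b _ => Finset.sum_congr rfl fun c _ => by ring

private theorem ES_bfBe (F : B → C → ℝ) (w dw : C → ℂ) (s : ℂ) :
    bfB F (w + s • dw) = bfB F w + s • bfB F dw := by
  funext b
  simp only [bfB, Pi.add_apply, Pi.smul_apply, smul_eq_mul, Finset.mul_sum,
    ← Finset.sum_add_distrib]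
  exact Finset.sum_congr rfl fun c _ => by ring

private theorem ES_bfCe (F : B → C → ℝ) (v dv : B → ℂ) (s : ℂ) :
    bfC F (v + s • dv) = bfC F v + s • bfC F dv := by
  funext b
  simp only [bfC, Pi.add_apply, Pi.smul_apply, smul_eq_mul, Finset.mul_sum,
    ← Finset.sum_add_distrib]
  exact Finset.sum_congr rfl fun c _ => by ring

private theorem ES_bfl (F : B → C → ℝ) (v dv : B → ℂ) (w : C → ℂ) (s : ℂ) :
    bf F (v + s • dv) w = bf F v w + s * bf F dv w := by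
  simp only [bf, Pi.add_apply, Pi.smul_apply, smul_eq_mul, Finset.mul_sum,
    ← Finset.sum_add_distrib]
  exact Finset.sum_congr rfl fun b _ => Finset.sum_congr rfl fun c _ => by ring

private theorem ES_bfr (F : B → C → ℝ) (v : B → ℂ) (w dw : C → ℂ) (s : ℂ) :
    bf F v (w + s • dw) = bf F v w + s * bf F v dw := by
  simp only [bf, Pi.add_apply, Pi.smul_apply, smul_eq_mul, Finset.mul_sum,
    ← Finset.sum_add_distrib]
  exact Finset.sum_congr rfl fun b _ => Finset.sum_congr rfl fun c _ => by ring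

private theorem ES_c2l (T : A → B → C → ℝ) (u du : A → ℂ) (w : C → ℂ) (s : ℂ) :
    c2 T (u + s • du) w = c2 T u w + s • c2 T du w := by
  funext b
  rw [MPb0eR.c2_add_left, MPb0eR.c2_smul_left]
  rfl

private theorem ES_c2r (T : A → B → C → ℝ) (u : A → ℂ) (w dw : C → ℂ) (s : ℂ) :
    c2 T u (w + s • dw) = c2 T u w + s • c2 T u dw := by
  funext b
  rw [MPb0eR.c2_add_right, MPb0eR.c2_smul_right]
  rfl

private theorem ES_c3l (T : A → B → C → ℝ) (u du : A → ℂ) (v : B → ℂ) (s : ℂ) :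
    c3 T (u + s • du) v = c3 T u v + s • c3 T du v := by
  funext b
  rw [MPb0eR.c3_add_left, MPb0eR.c3_smul_left]
  rfl

private theorem ES_c3r (T : A → B → C → ℝ) (u : A → ℂ) (v dv : B → ℂ) (s : ℂ) :
    c3 T u (v + s • dv) = c3 T u v + s • c3 T u dv := by
  funext b
  rw [MPb0eR.c3_add_right, MPb0eR.c3_smul_right]
  rfl

private theorem ES_add {I : Type} (x y : I → ℂ) (t : ℝ) : x + t • y = x + (t : ℂ) • y := by
  funext i
  simp only [Pi.add_apply, Pi.smul_apply, Complex.real_smul, smul_eq_mul]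

theorem syE_sm (T : A → B → C → ℝ) (SA : Finset A) (ia : A) (ib : B) (ic : C) :
    (syE T SA ia ib ic).Sm := by
  refine { ha := ?_, hb := ?_, hg := ?_, ca := ?_, cb := ?_, cg := ?_ }
  · refine contDiff_pi.2 fun b => ?_
    simp only [syE, c2]
    refine ContDiff.sub (ContDiff.sum fun a _ => ContDiff.sum fun c _ => ?_) ?_ <;> fun_prop
  · refine contDiff_pi.2 fun c => ?_
    simp only [syE, c3]
    refine ContDiff.sub (ContDiff.sum fun a _ => ContDiff.sum fun b _ => ?_) ?_ <;> fun_prop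
  · refine contDiff_pi.2 fun k => ?_
    rcases k with a | i
    · by_cases h : a ∈ SA
      · simp only [syE, Sum.elim_inl, if_pos h, c1]
        refine ContDiff.sub (ContDiff.sum fun b _ => ContDiff.sum fun c _ => ?_) ?_ <;> fun_prop
      · simp only [syE, Sum.elim_inl, if_neg h]
        fun_prop
    · fin_cases i
      · show ContDiff ℝ 1 fun p : (A ⊕ Fin 3 → ℂ) × (B → ℂ) × (C → ℂ) => p.1 (Sum.inl ia) - 1
        fun_prop
      · show ContDiff ℝ 1 fun p : (A ⊕ Fin 3 → ℂ) × (B → ℂ) × (C → ℂ) => p.2.1 ib - 1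
        fun_prop
      · show ContDiff ℝ 1 fun p : (A ⊕ Fin 3 → ℂ) × (B → ℂ) × (C → ℂ) => p.2.2 ic - 1
        fun_prop
  · intro p
    funext b
    show c2 T (cj fun a => p.1 (Sum.inl a)) (cj p.2.2) b
        - starRingEnd ℂ (p.1 (Sum.inr 1)) * starRingEnd ℂ (p.2.1 b)
      = starRingEnd ℂ (c2 T (fun a => p.1 (Sum.inl a)) p.2.2 b - p.1 (Sum.inr 1) * p.2.1 b)
    rw [MPb0eR.c2_cj, map_sub, map_mul]
  · intro p
    funext c
    show c3 T (cj fun a => p.1 (Sum.inl a)) (cj p.2.1) c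
        - starRingEnd ℂ (p.1 (Sum.inr 2)) * starRingEnd ℂ (p.2.2 c)
      = starRingEnd ℂ (c3 T (fun a => p.1 (Sum.inl a)) p.2.1 c - p.1 (Sum.inr 2) * p.2.2 c)
    rw [MPb0eR.c3_cj, map_sub, map_mul]
  · intro p
    funext k
    rcases k with a | i
    · show (if a ∈ SA then c1 T (cj p.2.1) (cj p.2.2) a
          - starRingEnd ℂ (p.1 (Sum.inr 0)) * starRingEnd ℂ (p.1 (Sum.inl a))
          else starRingEnd ℂ (p.1 (Sum.inl a)))
        = starRingEnd ℂ (if a ∈ SA then c1 T p.2.1 p.2.2 a - p.1 (Sum.inr 0) * p.1 (Sum.inl a)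
          else p.1 (Sum.inl a))
      by_cases h : a ∈ SA
      · rw [if_pos h, if_pos h, MPb0eR.c1_cj, map_sub, map_mul]
      · rw [if_neg h, if_neg h]
    · fin_cases i
      · show starRingEnd ℂ (p.1 (Sum.inl ia)) - 1 = starRingEnd ℂ (p.1 (Sum.inl ia) - 1)
        rw [map_sub, map_one]
      · show starRingEnd ℂ (p.2.1 ib) - 1 = starRingEnd ℂ (p.2.1 ib - 1)
        rw [map_sub, map_one]
      · show starRingEnd ℂ (p.2.2 ic) - 1 = starRingEnd ℂ (p.2.2 ic - 1)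
        rw [map_sub, map_one]

/-! ### The values and the derivatives of the components -/

section

variable {T : A → B → C → ℝ} {SA : Finset A} {ia : A} {ib : B} {ic : C}

private theorem ES_va (p : (A ⊕ Fin 3 → ℂ) × (B → ℂ) × (C → ℂ)) :
    (syE T SA ia ib ic).a p
      = c2 T (fun a => p.1 (Sum.inl a)) p.2.2 - p.1 (Sum.inr 1) • p.2.1 := rfl

private theorem ES_vb (p : (A ⊕ Fin 3 → ℂ) × (B → ℂ) × (C → ℂ)) :
    (syE T SA ia ib ic).b p
      = c3 T (fun a => p.1 (Sum.inl a)) p.2.1 - p.1 (Sum.inr 2) • p.2.2 := rfl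

private theorem ES_vg (p : (A ⊕ Fin 3 → ℂ) × (B → ℂ) × (C → ℂ)) {a : A} (ha : a ∈ SA) :
    (syE T SA ia ib ic).g p (Sum.inl a)
      = c1 T p.2.1 p.2.2 a - p.1 (Sum.inr 0) * p.1 (Sum.inl a) := by
  show (if a ∈ SA then c1 T p.2.1 p.2.2 a - p.1 (Sum.inr 0) * p.1 (Sum.inl a)
      else p.1 (Sum.inl a)) = _
  rw [if_pos ha]

private theorem ES_vg' (p : (A ⊕ Fin 3 → ℂ) × (B → ℂ) × (C → ℂ)) {a : A} (ha : a ∉ SA) :
    (syE T SA ia ib ic).g p (Sum.inl a) = p.1 (Sum.inl a) := by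
  show (if a ∈ SA then c1 T p.2.1 p.2.2 a - p.1 (Sum.inr 0) * p.1 (Sum.inl a)
      else p.1 (Sum.inl a)) = _
  rw [if_neg ha]

private theorem ES_e1 (p x : (A ⊕ Fin 3 → ℂ) × (B → ℂ) × (C → ℂ)) (t : ℝ) :
    (fun a => (p + t • x).1 (Sum.inl a))
      = (fun a => p.1 (Sum.inl a)) + (t : ℂ) • fun a => x.1 (Sum.inl a) :=
  ES_add (fun a => p.1 (Sum.inl a)) (fun a => x.1 (Sum.inl a)) t

private theorem ES_e2 (p x : (A ⊕ Fin 3 → ℂ) × (B → ℂ) × (C → ℂ)) (t : ℝ) :
    (p + t • x).2.1 = p.2.1 + (t : ℂ) • x.2.1 := ES_add p.2.1 x.2.1 t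

private theorem ES_e3 (p x : (A ⊕ Fin 3 → ℂ) × (B → ℂ) × (C → ℂ)) (t : ℝ) :
    (p + t • x).2.2 = p.2.2 + (t : ℂ) • x.2.2 := ES_add p.2.2 x.2.2 t

private theorem ES_e4 (p x : (A ⊕ Fin 3 → ℂ) × (B → ℂ) × (C → ℂ)) (t : ℝ) (k : A ⊕ Fin 3) :
    (p + t • x).1 k = p.1 k + (t : ℂ) * x.1 k := by
  show p.1 k + t • x.1 k = _
  rw [Complex.real_smul]

private theorem ES_ta (p x : (A ⊕ Fin 3 → ℂ) × (B → ℂ) × (C → ℂ)) (z : B → ℂ) (t : ℝ) :
    dt ((syE T SA ia ib ic).a (p + t • x)) z = dt ((syE T SA ia ib ic).a p) z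
      + (t : ℂ) * (dt (c2 T (fun a => x.1 (Sum.inl a)) p.2.2) z
        + dt (c2 T (fun a => p.1 (Sum.inl a)) x.2.2) z
        - (p.1 (Sum.inr 1) * dt x.2.1 z + x.1 (Sum.inr 1) * dt p.2.1 z))
      + (t : ℂ) ^ 2 * (dt (c2 T (fun a => x.1 (Sum.inl a)) x.2.2) z
        - x.1 (Sum.inr 1) * dt x.2.1 z) := by
  rw [ES_va, ES_va, ES_e1, ES_e2, ES_e3, ES_e4, ES_c2e]
  simp only [ES_dt_sub, dt_add_left, dt_smul_left]
  ring

private theorem ES_tb (p x : (A ⊕ Fin 3 → ℂ) × (B → ℂ) × (C → ℂ)) (z : C → ℂ) (t : ℝ) :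
    dt ((syE T SA ia ib ic).b (p + t • x)) z = dt ((syE T SA ia ib ic).b p) z
      + (t : ℂ) * (dt (c3 T (fun a => x.1 (Sum.inl a)) p.2.1) z
        + dt (c3 T (fun a => p.1 (Sum.inl a)) x.2.1) z
        - (p.1 (Sum.inr 2) * dt x.2.2 z + x.1 (Sum.inr 2) * dt p.2.2 z))
      + (t : ℂ) ^ 2 * (dt (c3 T (fun a => x.1 (Sum.inl a)) x.2.1) z
        - x.1 (Sum.inr 2) * dt x.2.2 z) := by
  rw [ES_vb, ES_vb, ES_e1, ES_e2, ES_e3, ES_e4, ES_c3e]
  simp only [ES_dt_sub, dt_add_left, dt_smul_left]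
  ring

private theorem ES_tg (p x : (A ⊕ Fin 3 → ℂ) × (B → ℂ) × (C → ℂ)) {a : A} (ha : a ∈ SA)
    (t : ℝ) :
    (syE T SA ia ib ic).g (p + t • x) (Sum.inl a) = (syE T SA ia ib ic).g p (Sum.inl a)
      + (t : ℂ) * (c1 T x.2.1 p.2.2 a + c1 T p.2.1 x.2.2 a
        - (p.1 (Sum.inr 0) * x.1 (Sum.inl a) + x.1 (Sum.inr 0) * p.1 (Sum.inl a)))
      + (t : ℂ) ^ 2 * (c1 T x.2.1 x.2.2 a - x.1 (Sum.inr 0) * x.1 (Sum.inl a)) := by
  rw [ES_vg _ ha, ES_vg _ ha, ES_e2, ES_e3, ES_e4, ES_e4, ES_c1e]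
  simp only [Pi.add_apply, Pi.smul_apply, smul_eq_mul]
  ring

private theorem ES_tg' (p x : (A ⊕ Fin 3 → ℂ) × (B → ℂ) × (C → ℂ)) {a : A} (ha : a ∉ SA)
    (t : ℝ) :
    (syE T SA ia ib ic).g (p + t • x) (Sum.inl a) = (syE T SA ia ib ic).g p (Sum.inl a)
      + (t : ℂ) * x.1 (Sum.inl a) + (t : ℂ) ^ 2 * 0 := by
  rw [ES_vg' _ ha, ES_vg' _ ha, ES_e4]
  ring

private theorem ES_tn0 (p x : (A ⊕ Fin 3 → ℂ) × (B → ℂ) × (C → ℂ)) (t : ℝ) :
    (syE T SA ia ib ic).g (p + t • x) (Sum.inr 0) = (syE T SA ia ib ic).g p (Sum.inr 0)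
      + (t : ℂ) * x.1 (Sum.inl ia) + (t : ℂ) ^ 2 * 0 := by
  show (p + t • x).1 (Sum.inl ia) - 1 = p.1 (Sum.inl ia) - 1 + _ + _
  rw [ES_e4]
  ring

private theorem ES_tn1 (p x : (A ⊕ Fin 3 → ℂ) × (B → ℂ) × (C → ℂ)) (t : ℝ) :
    (syE T SA ia ib ic).g (p + t • x) (Sum.inr 1) = (syE T SA ia ib ic).g p (Sum.inr 1)
      + (t : ℂ) * x.2.1 ib + (t : ℂ) ^ 2 * 0 := by
  show (p + t • x).2.1 ib - 1 = p.2.1 ib - 1 + _ + _
  rw [ES_e2, Pi.add_apply, Pi.smul_apply, smul_eq_mul]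
  ring

private theorem ES_tn2 (p x : (A ⊕ Fin 3 → ℂ) × (B → ℂ) × (C → ℂ)) (t : ℝ) :
    (syE T SA ia ib ic).g (p + t • x) (Sum.inr 2) = (syE T SA ia ib ic).g p (Sum.inr 2)
      + (t : ℂ) * x.2.2 ic + (t : ℂ) ^ 2 * 0 := by
  show (p + t • x).2.2 ic - 1 = p.2.2 ic - 1 + _ + _
  rw [ES_e3, Pi.add_apply, Pi.smul_apply, smul_eq_mul]
  ring

end

variable {T : A → B → C → ℝ} {F : B → C → ℝ} {SA : Finset A} {X : Submodule ℂ (B → ℂ)}
  {Y : Submodule ℂ (C → ℂ)} {u : A → ℂ} {v : B → ℂ} {w : C → ℂ} {α β γ r : ℂ} {ia : A} {ib : B}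
  {ic : C}

theorem syE_sol : (syE T SA ia ib ic).Sol X Y (ptE u v w α β γ) ↔
    TX T SA X Y u v w α β γ ∧ u ia = 1 ∧ v ib = 1 ∧ w ic = 1 := by
  constructor
  · intro h
    have g := fun k => congrFun h.eg k
    refine ⟨⟨fun a ha => ?_, h.sv, h.sw, fun a ha => ?_, fun z hz => ?_, fun z hz => ?_⟩, ?_, ?_,
      ?_⟩
    · have h1 := g (Sum.inl a)
      rw [ES_vg' _ ha] at h1
      exact h1
    · have h1 := g (Sum.inl a)
      rw [ES_vg _ ha] at h1
      exact sub_eq_zero.1 h1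
    · have h1 := h.ea z hz
      rw [ES_va, ES_dt_sub, dt_smul_left] at h1
      exact sub_eq_zero.1 h1
    · have h1 := h.eb z hz
      rw [ES_vb, ES_dt_sub, dt_smul_left] at h1
      exact sub_eq_zero.1 h1
    · exact sub_eq_zero.1 (g (Sum.inr 0))
    · exact sub_eq_zero.1 (g (Sum.inr 1))
    · exact sub_eq_zero.1 (g (Sum.inr 2))
  · rintro ⟨h, h1, h2, h3⟩
    refine ⟨h.sv, h.sw, fun z hz => ?_, fun z hz => ?_, ?_⟩
    · rw [ES_va, ES_dt_sub, dt_smul_left]
      exact sub_eq_zero.2 (h.e2 z hz)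
    · rw [ES_vb, ES_dt_sub, dt_smul_left]
      exact sub_eq_zero.2 (h.e3 z hz)
    · funext k
      rcases k with a | i
      · by_cases ha : a ∈ SA
        · rw [ES_vg _ ha]
          exact sub_eq_zero.2 (h.e1 a ha)
        · rw [ES_vg' _ ha]
          exact h.su a ha
      · fin_cases i
        · exact sub_eq_zero.2 h1
        · exact sub_eq_zero.2 h2
        · exact sub_eq_zero.2 h3

theorem syE_ext : ((syE T SA ia ib ic).ext F).Sol X Y
    (fun o => o.elim r (Sum.elim u ![α, β, γ]), v, w) ↔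
    CX T F SA X Y u v w α β γ r ∧ u ia = 1 ∧ v ib = 1 ∧ w ic = 1 := by
  have ea : ((syE T SA ia ib ic).ext F).a (fun o => o.elim r (Sum.elim u ![α, β, γ]), v, w)
      = c2 T u w - β • v + r • bfB F w := rfl
  have eb : ((syE T SA ia ib ic).ext F).b (fun o => o.elim r (Sum.elim u ![α, β, γ]), v, w)
      = c3 T u v - γ • w + r • bfC F v := rfl
  have eg : ∀ k, ((syE T SA ia ib ic).ext F).g
      (fun o => o.elim r (Sum.elim u ![α, β, γ]), v, w) (some k)
      = (syE T SA ia ib ic).g (ptE u v w α β γ) k := fun k => rfl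
  have eg0 : ((syE T SA ia ib ic).ext F).g
      (fun o => o.elim r (Sum.elim u ![α, β, γ]), v, w) none = bf F v w := rfl
  constructor
  · intro h
    have g := fun k => congrFun h.eg k
    refine ⟨⟨fun a ha => ?_, h.sv, h.sw, fun a ha => ?_, ?_, fun z hz => ?_, fun z hz => ?_⟩, ?_,
      ?_, ?_⟩
    · have h1 := g (some (Sum.inl a))
      rw [eg, ES_vg' _ ha] at h1
      exact h1
    · have h1 := g (some (Sum.inl a))
      rw [eg, ES_vg _ ha] at h1
      exact sub_eq_zero.1 h1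
    · have h1 := g none
      rw [eg0] at h1
      exact h1
    · have h1 := h.ea z hz
      rw [ea, dt_add_left, ES_dt_sub, dt_smul_left, dt_smul_left] at h1
      linear_combination h1
    · have h1 := h.eb z hz
      rw [eb, dt_add_left, ES_dt_sub, dt_smul_left, dt_smul_left] at h1
      linear_combination h1
    · exact sub_eq_zero.1 (g (some (Sum.inr 0)))
    · exact sub_eq_zero.1 (g (some (Sum.inr 1)))
    · exact sub_eq_zero.1 (g (some (Sum.inr 2)))
  · rintro ⟨h, h1, h2, h3⟩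
    refine ⟨h.sv, h.sw, fun z hz => ?_, fun z hz => ?_, ?_⟩
    · rw [ea, dt_add_left, ES_dt_sub, dt_smul_left, dt_smul_left]
      linear_combination h.e2 z hz
    · rw [eb, dt_add_left, ES_dt_sub, dt_smul_left, dt_smul_left]
      linear_combination h.e3 z hz
    · funext k
      rcases k with _ | k
      · rw [eg0]
        exact h.e0
      · rw [eg]
        rcases k with a | i
        · by_cases ha : a ∈ SA
          · rw [ES_vg _ ha]
            exact sub_eq_zero.2 (h.e1 a ha)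
          · rw [ES_vg' _ ha]
            exact h.su a ha
        · fin_cases i
          · exact sub_eq_zero.2 h1
          · exact sub_eq_zero.2 h2
          · exact sub_eq_zero.2 h3

/-- The kernel of `syE` at a nondegenerate tuple is trivial. Proof: the derivatives are the
equations
of `KX` (the systems are polynomials of degree two: the derivative along `x` at `p` is the polar
form);
`NX` and the normalisation give `du = dv = dw = 0`, and then the multipliers: `dα u a = 0` (`a =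
ia`, in
`SA` by `su`), `dβ dt v z = 0` for all `z ∈ X`, take `z = cj v`. -/
theorem syE_nd (cX : Cj X) (cY : Cj Y) (ht : TX T SA X Y u v w α β γ) (hu : u ia = 1)
    (hv : v ib = 1) (hw : w ic = 1) (hn : NX T SA X Y u v w α β γ) :
    (syE T SA ia ib ic).Nd X Y (ptE u v w α β γ) := by
  intro x hx
  have hg := hasDerivAt_pi.1 hx.eg
  have hK : KX T SA X Y u v w α β γ (fun a => x.1 (Sum.inl a)) x.2.1 x.2.2 (x.1 (Sum.inr 0))
      (x.1 (Sum.inr 1)) (x.1 (Sum.inr 2)) := by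
    refine ⟨fun a ha => ?_, hx.sv, hx.sw, fun a ha => ?_, fun z hz => ?_, fun z hz => ?_⟩
    · exact (ES_iff (ES_tg' (ptE u v w α β γ) x ha)).1 (hg (Sum.inl a))
    · exact sub_eq_zero.1 ((ES_iff (ES_tg (ptE u v w α β γ) x ha)).1 (hg (Sum.inl a)))
    · exact sub_eq_zero.1 ((ES_iff (ES_ta (ptE u v w α β γ) x z)).1 (hx.ea z hz))
    · exact sub_eq_zero.1 ((ES_iff (ES_tb (ptE u v w α β γ) x z)).1 (hx.eb z hz))
  have n0 : x.1 (Sum.inl ia) = 0 := (ES_iff (ES_tn0 (ptE u v w α β γ) x)).1 (hg (Sum.inr 0))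
  have n1 : x.2.1 ib = 0 := (ES_iff (ES_tn1 (ptE u v w α β γ) x)).1 (hg (Sum.inr 1))
  have n2 : x.2.2 ic = 0 := (ES_iff (ES_tn2 (ptE u v w α β γ) x)).1 (hg (Sum.inr 2))
  obtain ⟨⟨r1, h1⟩, ⟨r2, h2⟩, ⟨r3, h3⟩⟩ := hn _ _ _ _ _ _ hK
  have z1 : (fun a => x.1 (Sum.inl a)) = 0 := by
    have h4 := congrFun h1 ia
    rw [Pi.smul_apply, hu, smul_eq_mul, mul_one] at h4
    rw [h1, ← h4, n0, zero_smul]
  have z2 : x.2.1 = 0 := by
    have h4 := congrFun h2 ib
    rw [Pi.smul_apply, hv, smul_eq_mul, mul_one] at h4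
    rw [h2, ← h4, n1, zero_smul]
  have z3 : x.2.2 = 0 := by
    have h4 := congrFun h3 ic
    rw [Pi.smul_apply, hw, smul_eq_mul, mul_one] at h4
    rw [h3, ← h4, n2, zero_smul]
  have hia : ia ∈ SA := by
    by_contra hc
    have h4 := ht.su ia hc
    rw [hu] at h4
    exact one_ne_zero h4
  have hv0 : v ≠ 0 := fun hh => one_ne_zero (hv.symm.trans (congrFun hh ib))
  have hw0 : w ≠ 0 := fun hh => one_ne_zero (hw.symm.trans (congrFun hh ic))
  have m0 : x.1 (Sum.inr 0) = 0 := by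
    have h4 := hK.e1 ia hia
    rw [z2, z3, n0, hu, MPb0eR.c1_zero_left, MPb0eR.c1_zero_right] at h4
    linear_combination -h4
  have c2l : c2 T (0 : A → ℂ) w = 0 := funext fun b => MPb0eR.c2_zero_left T w b
  have c2r : c2 T u (0 : C → ℂ) = 0 := funext fun b => MPb0eR.c2_zero_right T u b
  have c3l : c3 T (0 : A → ℂ) v = 0 := funext fun b => MPb0eR.c3_zero_left T v b
  have c3r : c3 T u (0 : B → ℂ) = 0 := funext fun b => MPb0eR.c3_zero_right T u b
  have m1 : x.1 (Sum.inr 1) = 0 := by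
    have h4 := hK.e2 (cj v) (cX v ht.sv)
    rw [z1, z2, z3, c2l, c2r, ES_dt_zero] at h4
    have h5 : x.1 (Sum.inr 1) * dt v (cj v) = 0 := by linear_combination -h4
    refine (mul_eq_zero.1 h5).resolve_right fun h6 => ?_
    have h7 := (dt_cj_pos v hv0).1
    rw [h6, Complex.zero_re] at h7
    exact lt_irrefl _ h7
  have m2 : x.1 (Sum.inr 2) = 0 := by
    have h4 := hK.e3 (cj w) (cY w ht.sw)
    rw [z1, z2, z3, c3l, c3r, ES_dt_zero] at h4
    have h5 : x.1 (Sum.inr 2) * dt w (cj w) = 0 := by linear_combination -h4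
    refine (mul_eq_zero.1 h5).resolve_right fun h6 => ?_
    have h7 := (dt_cj_pos w hw0).1
    rw [h6, Complex.zero_re] at h7
    exact lt_irrefl _ h7
  refine Prod.ext ?_ (Prod.ext z2 z3)
  funext k
  rcases k with a | i
  · exact congrFun z1 a
  · fin_cases i
    · exact m0
    · exact m1
    · exact m2

/-- The unknowns without the index `none`. -/
private def ES_res (p : (Option (A ⊕ Fin 3) → ℂ) × (B → ℂ) × (C → ℂ)) :
    (A ⊕ Fin 3 → ℂ) × (B → ℂ) × (C → ℂ) := (fun k => p.1 (some k), p.2)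

private theorem ES_xa (p x : (Option (A ⊕ Fin 3) → ℂ) × (B → ℂ) × (C → ℂ)) (z : B → ℂ)
    (t : ℝ) : dt (((syE T SA ia ib ic).ext F).a (p + t • x)) z
      = dt (((syE T SA ia ib ic).ext F).a p) z
      + (t : ℂ) * (dt (c2 T (fun a => x.1 (some (Sum.inl a))) p.2.2) z
        + dt (c2 T (fun a => p.1 (some (Sum.inl a))) x.2.2) z
        - (p.1 (some (Sum.inr 1)) * dt x.2.1 z + x.1 (some (Sum.inr 1)) * dt p.2.1 z)
        + (p.1 none * dt (bfB F x.2.2) z + x.1 none * dt (bfB F p.2.2) z))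
      + (t : ℂ) ^ 2 * (dt (c2 T (fun a => x.1 (some (Sum.inl a))) x.2.2) z
        - x.1 (some (Sum.inr 1)) * dt x.2.1 z + x.1 none * dt (bfB F x.2.2) z) := by
  have h1 : ((syE T SA ia ib ic).ext F).a (p + t • x)
      = (syE T SA ia ib ic).a (ES_res p + t • ES_res x)
        + (p.1 none + t • x.1 none) • bfB F (p.2.2 + t • x.2.2) := rfl
  have h2 : ((syE T SA ia ib ic).ext F).a p
      = (syE T SA ia ib ic).a (ES_res p) + p.1 none • bfB F p.2.2 := rfl
  rw [h1, h2, dt_add_left, ES_ta, ES_add, ES_bfBe, dt_smul_left, dt_add_left, dt_smul_left,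
    dt_add_left, dt_smul_left, Complex.real_smul]
  simp only [ES_res]
  ring

private theorem ES_xb (p x : (Option (A ⊕ Fin 3) → ℂ) × (B → ℂ) × (C → ℂ)) (z : C → ℂ)
    (t : ℝ) : dt (((syE T SA ia ib ic).ext F).b (p + t • x)) z
      = dt (((syE T SA ia ib ic).ext F).b p) z
      + (t : ℂ) * (dt (c3 T (fun a => x.1 (some (Sum.inl a))) p.2.1) z
        + dt (c3 T (fun a => p.1 (some (Sum.inl a))) x.2.1) z
        - (p.1 (some (Sum.inr 2)) * dt x.2.2 z + x.1 (some (Sum.inr 2)) * dt p.2.2 z)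
        + (p.1 none * dt (bfC F x.2.1) z + x.1 none * dt (bfC F p.2.1) z))
      + (t : ℂ) ^ 2 * (dt (c3 T (fun a => x.1 (some (Sum.inl a))) x.2.1) z
        - x.1 (some (Sum.inr 2)) * dt x.2.2 z + x.1 none * dt (bfC F x.2.1) z) := by
  have h1 : ((syE T SA ia ib ic).ext F).b (p + t • x)
      = (syE T SA ia ib ic).b (ES_res p + t • ES_res x)
        + (p.1 none + t • x.1 none) • bfC F (p.2.1 + t • x.2.1) := rfl
  have h2 : ((syE T SA ia ib ic).ext F).b p
      = (syE T SA ia ib ic).b (ES_res p) + p.1 none • bfC F p.2.1 := rfl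
  rw [h1, h2, dt_add_left, ES_tb, ES_add, ES_bfCe, dt_smul_left, dt_add_left, dt_smul_left,
    dt_add_left, dt_smul_left, Complex.real_smul]
  simp only [ES_res]
  ring

private theorem ES_xg0 (p x : (Option (A ⊕ Fin 3) → ℂ) × (B → ℂ) × (C → ℂ)) (t : ℝ) :
    ((syE T SA ia ib ic).ext F).g (p + t • x) none
      = ((syE T SA ia ib ic).ext F).g p none
      + (t : ℂ) * (bf F x.2.1 p.2.2 + bf F p.2.1 x.2.2) + (t : ℂ) ^ 2 * bf F x.2.1 x.2.2 := by
  have h1 : ((syE T SA ia ib ic).ext F).g (p + t • x) none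
      = bf F (p.2.1 + t • x.2.1) (p.2.2 + t • x.2.2) := rfl
  rw [h1, ES_add, ES_add, ES_bfe]
  rfl

private theorem ES_lin (ht : CX T F SA X Y u v w α β γ r)
    {du : A → ℂ} {dv : B → ℂ} {dw : C → ℂ} {dα dβ dγ dr : ℂ}
    (hk : KCX T F SA X Y u v w α β γ r du dv dw dα dβ dγ dr) (a b c : ℂ) :
    KCX T F SA X Y u v w α β γ r (du + (-a) • u) (dv + (-b) • v) (dw + (-c) • w)
      (dα - (b + c - a) * α) (dβ - (a + c - b) * β) (dγ - (a + b - c) * γ) (dr - a * r) := by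
  refine ⟨fun k hk' => ?_, ?_, ?_, fun k hk' => ?_, ?_, fun z hz => ?_, fun z hz => ?_⟩
  · rw [Pi.add_apply, Pi.smul_apply, hk.su k hk', ht.su k hk', smul_zero, add_zero]
  · exact X.add_mem hk.sv (X.smul_mem _ ht.sv)
  · exact Y.add_mem hk.sw (Y.smul_mem _ ht.sw)
  · rw [MPb0eR.c1_add_left, MPb0eR.c1_smul_left, MPb0eR.c1_add_right, MPb0eR.c1_smul_right,
      Pi.add_apply, Pi.smul_apply, smul_eq_mul]
    linear_combination hk.e1 k hk' - (b + c) * ht.e1 k hk'
  · rw [ES_bfl, ES_bfr]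
    linear_combination hk.e0 - (b + c) * ht.e0
  · rw [ES_c2l, ES_c2r, ES_bfBe, dt_add_left, dt_smul_left, dt_add_left, dt_smul_left,
      dt_add_left, dt_smul_left, dt_add_left, dt_smul_left]
    linear_combination hk.e2 z hz - (a + c) * ht.e2 z hz
  · rw [ES_c3l, ES_c3r, ES_bfCe, dt_add_left, dt_smul_left, dt_add_left, dt_smul_left,
      dt_add_left, dt_smul_left, dt_add_left, dt_smul_left]
    linear_combination hk.e3 z hz - (a + b) * ht.e3 z hz

/-- From the extended system back to `OkC.nd`. Proof: subtract multiples of `(u, v, w)` from a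
kernel
vector of `KCX` such that the normalised coordinates vanish: by the scaling invariance `CX.smul` the
vector `(a u, b v, c w, (b + c - a) α, (a + c - b) β, (a + b - c) γ, a r)` is in the kernel. -/
theorem syE_ndc (ht : CX T F SA X Y u v w α β γ r) (hu : u ia = 1) (hv : v ib = 1) (hw : w ic = 1)
    (hn : ((syE T SA ia ib ic).ext F).Nd X Y (fun o => o.elim r (Sum.elim u ![α, β, γ]), v, w))
    {du : A → ℂ} {dv : B → ℂ} {dw : C → ℂ} {dα dβ dγ dr : ℂ}
    (hk : KCX T F SA X Y u v w α β γ r du dv dw dα dβ dγ dr) :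
    ∃ a b c : ℂ, du = a • u ∧ dv = b • v ∧ dw = c • w ∧ dr = a * r := by
  have hk' := ES_lin ht hk (du ia) (dv ib) (dw ic)
  set du' := du + (-(du ia)) • u with hdu
  set dv' := dv + (-(dv ib)) • v with hdv
  set dw' := dw + (-(dw ic)) • w with hdw
  set dα' := dα - (dv ib + dw ic - du ia) * α
  set dβ' := dβ - (du ia + dw ic - dv ib) * β
  set dγ' := dγ - (du ia + dv ib - dw ic) * γ
  set dr' := dr - du ia * r with hdr
  have n0 : du' ia = 0 := by
    rw [hdu, Pi.add_apply, Pi.smul_apply, hu, smul_eq_mul]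
    ring
  have n1 : dv' ib = 0 := by
    rw [hdv, Pi.add_apply, Pi.smul_apply, hv, smul_eq_mul]
    ring
  have n2 : dw' ic = 0 := by
    rw [hdw, Pi.add_apply, Pi.smul_apply, hw, smul_eq_mul]
    ring
  have hKe : ((syE T SA ia ib ic).ext F).Ke X Y
      (fun o => o.elim r (Sum.elim u ![α, β, γ]), v, w)
      (fun o => o.elim dr' (Sum.elim du' ![dα', dβ', dγ']), dv', dw') := by
    refine ⟨hk'.sv, hk'.sw, fun z hz => ?_, fun z hz => ?_, ?_⟩
    · refine (ES_iff (ES_xa _ _ z)).2 ?_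
      show dt (c2 T du' w) z + dt (c2 T u dw') z - (β * dt dv' z + dβ' * dt v z)
        + (r * dt (bfB F dw') z + dr' * dt (bfB F w) z) = 0
      linear_combination hk'.e2 z hz
    · refine (ES_iff (ES_xb _ _ z)).2 ?_
      show dt (c3 T du' v) z + dt (c3 T u dv') z - (γ * dt dw' z + dγ' * dt w z)
        + (r * dt (bfC F dv') z + dr' * dt (bfC F v) z) = 0
      linear_combination hk'.e3 z hz
    · refine hasDerivAt_pi.2 fun k => ?_
      rcases k with _ | k
      · exact (ES_iff (ES_xg0 _ _)).2 hk'.e0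
      · rcases k with a | i
        · by_cases ha : a ∈ SA
          · exact (ES_iff (ES_tg (T := T) (SA := SA) (ia := ia) (ib := ib) (ic := ic)
              (ptE u v w α β γ)
              (ptE du' dv' dw' dα' dβ' dγ') ha)).2
              (sub_eq_zero.2 (hk'.e1 a ha))
          · exact (ES_iff (ES_tg' (T := T) (SA := SA) (ia := ia) (ib := ib) (ic := ic)
              (ptE u v w α β γ)
              (ptE du' dv' dw' dα' dβ' dγ') ha)).2
              (hk'.su a ha)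
        · fin_cases i
          · exact (ES_iff (ES_tn0 (T := T) (SA := SA) (ia := ia) (ib := ib) (ic := ic)
              (ptE u v w α β γ)
              (ptE du' dv' dw' dα' dβ' dγ'))).2 n0
          · exact (ES_iff (ES_tn1 (T := T) (SA := SA) (ia := ia) (ib := ib) (ic := ic)
              (ptE u v w α β γ)
              (ptE du' dv' dw' dα' dβ' dγ'))).2 n1
          · exact (ES_iff (ES_tn2 (T := T) (SA := SA) (ia := ia) (ib := ib) (ic := ic)
              (ptE u v w α β γ)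
              (ptE du' dv' dw' dα' dβ' dγ'))).2 n2
  have h0 := hn _ hKe
  have h1 := congrArg Prod.fst h0
  refine ⟨du ia, dv ib, dw ic, ?_, ?_, ?_, ?_⟩
  · funext a
    have h2 : du' a = 0 := congrFun h1 (some (Sum.inl a))
    rw [hdu, Pi.add_apply, Pi.smul_apply, smul_eq_mul] at h2
    rw [Pi.smul_apply, smul_eq_mul]
    linear_combination h2
  · funext b
    have h2 : dv' b = 0 := congrFun (congrArg (fun y : (Option (A ⊕ Fin 3) → ℂ) × (B → ℂ) ×
      (C → ℂ) => y.2.1) h0) b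
    rw [hdv, Pi.add_apply, Pi.smul_apply, smul_eq_mul] at h2
    rw [Pi.smul_apply, smul_eq_mul]
    linear_combination h2
  · funext c
    have h2 : dw' c = 0 := congrFun (congrArg (fun y : (Option (A ⊕ Fin 3) → ℂ) × (B → ℂ) ×
      (C → ℂ) => y.2.2) h0) c
    rw [hdw, Pi.add_apply, Pi.smul_apply, smul_eq_mul] at h2
    rw [Pi.smul_apply, smul_eq_mul]
    linear_combination h2
  · have h2 : dr' = 0 := congrFun h1 none
    rw [hdr] at h2
    linear_combination h2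

end

end Pool.Agent.MPb0eK
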