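import Mathlib
import Pool.Agent.Lib.MP_b0e20b_ag_K.DA
import Pool.Agent.Lib.MP_b0e20b_ag_K.Rig
import Pool.Agent.Lib.MP_b0e20b_ag_K.ES

/-!
# MP_b0e20b_ag, project K: D types as a system `Sy`
-/

set_option autoImplicit false

open scoped BigOperators Topology
open Filter

namespace Pool.Agent.MPb0eK

open MPb0eR (c1 c2 c3 tr q Sup Rl Rea uf Nrm cj AF scl)

section

variable {P : Par} {N n2 n3 : ℕ} {T : Fin (N + 1) → Fin (n2 + 1) → Fin (n3 + 1) → ℝ} {t : Bool}
  {p : ℕ} {i j : ℕ → ℕ} {u : Fin (N + 1) → ℂ} {v : Fin (n2 + 1) → ℂ} {w : Fin (n3 + 1) → ℂ}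
  {M M' κ κ' r : ℂ} {F : Fin (n2 + 1) → Fin (n3 + 1) → ℝ}

variable {k0 : Fin (N + 1) ⊕ Fin 4} {ib : Fin (n2 + 1)} {ic : Fin (n3 + 1)}

private theorem ds_dt_lin {n : ℕ} (f : Fin (n + 1) → ℂ) (h : Fin (n + 1) → ℝ) (m k : ℂ)
    (z : Fin (n + 1) → ℂ) :
    dt (fun b => f b + m * (h b : ℂ) - k * if b = 0 then 1 else 0) z
      = dt f z + m * pr h z - k * z 0 := by
  unfold dt pr
  simp only [sub_mul, add_mul, Finset.sum_sub_distrib, Finset.sum_add_distrib, Finset.mul_sum]
  congr 1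
  · congr 1
    exact Finset.sum_congr rfl fun b _ => by ring
  · rw [Finset.sum_eq_single 0]
    · simp
    · intro b _ hb
      simp [hb]
    · intro h
      exact absurd (Finset.mem_univ _) h

private theorem ds_dta (x : (Fin (N + 1) ⊕ Fin 4 → ℂ) × (Fin (n2 + 1) → ℂ) × (Fin (n3 + 1) → ℂ))
    (z : Fin (n2 + 1) → ℂ) :
    dt ((syD P T t p k0 ib ic).a x) z = dt (c2 T (fun a => x.1 (Sum.inl a)) x.2.2) z
      + x.1 (Sum.inr 0) * pr (hv P n2) z - x.1 (Sum.inr 2) * z 0 :=
  ds_dt_lin _ _ _ _ _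

private theorem ds_dtb (x : (Fin (N + 1) ⊕ Fin 4 → ℂ) × (Fin (n2 + 1) → ℂ) × (Fin (n3 + 1) → ℂ))
    (z : Fin (n3 + 1) → ℂ) :
    dt ((syD P T t p k0 ib ic).b x) z = dt (c3 T (fun a => x.1 (Sum.inl a)) x.2.1) z
      + x.1 (Sum.inr 1) * pr (hv P n3) z - x.1 (Sum.inr 3) * z 0 :=
  ds_dt_lin _ _ _ _ _

private theorem ds_c2 (u du : Fin (N + 1) → ℂ) (w dw : Fin (n3 + 1) → ℂ) (s : ℂ)
    (z : Fin (n2 + 1) → ℂ) : dt (c2 T (u + s • du) (w + s • dw)) z
      = dt (c2 T u w) z + s * (dt (c2 T du w) z + dt (c2 T u dw) z)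
        + s ^ 2 * dt (c2 T du dw) z := by
  have e : c2 T (u + s • du) (w + s • dw) = c2 T u w + s • (c2 T du w + c2 T u dw)
      + s ^ 2 • c2 T du dw := by
    funext b
    rw [MPb0eR.c2_add_left, MPb0eR.c2_add_right, MPb0eR.c2_add_right, MPb0eR.c2_smul_left,
      MPb0eR.c2_smul_left, MPb0eR.c2_smul_right, MPb0eR.c2_smul_right]
    simp only [Pi.add_apply, Pi.smul_apply, smul_eq_mul]
    ring
  rw [e, dt_add_left, dt_add_left, dt_smul_left, dt_smul_left, dt_add_left]

private theorem ds_c3 (u du : Fin (N + 1) → ℂ) (v dv : Fin (n2 + 1) → ℂ) (s : ℂ)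
    (z : Fin (n3 + 1) → ℂ) : dt (c3 T (u + s • du) (v + s • dv)) z
      = dt (c3 T u v) z + s * (dt (c3 T du v) z + dt (c3 T u dv) z)
        + s ^ 2 * dt (c3 T du dv) z := by
  have e : c3 T (u + s • du) (v + s • dv) = c3 T u v + s • (c3 T du v + c3 T u dv)
      + s ^ 2 • c3 T du dv := by
    funext b
    rw [MPb0eR.c3_add_left, MPb0eR.c3_add_right, MPb0eR.c3_add_right, MPb0eR.c3_smul_left,
      MPb0eR.c3_smul_left, MPb0eR.c3_smul_right, MPb0eR.c3_smul_right]
    simp only [Pi.add_apply, Pi.smul_apply, smul_eq_mul]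
    ring
  rw [e, dt_add_left, dt_add_left, dt_smul_left, dt_smul_left, dt_add_left]

private theorem ds_c1 (v dv : Fin (n2 + 1) → ℂ) (w dw : Fin (n3 + 1) → ℂ) (s : ℂ)
    (a : Fin (N + 1)) : c1 T (v + s • dv) (w + s • dw) a
      = c1 T v w a + s * (c1 T dv w a + c1 T v dw a) + s ^ 2 * c1 T dv dw a := by
  rw [MPb0eR.c1_add_left, MPb0eR.c1_add_right, MPb0eR.c1_add_right, MPb0eR.c1_smul_left,
    MPb0eR.c1_smul_left, MPb0eR.c1_smul_right, MPb0eR.c1_smul_right]
  ring

private theorem ds_bf_add_left (v v' : Fin (n2 + 1) → ℂ) (w : Fin (n3 + 1) → ℂ) :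
    bf F (v + v') w = bf F v w + bf F v' w := by
  simp only [bf, Pi.add_apply, add_mul, mul_add, Finset.sum_add_distrib]

private theorem ds_bf_add_right (v : Fin (n2 + 1) → ℂ) (w w' : Fin (n3 + 1) → ℂ) :
    bf F v (w + w') = bf F v w + bf F v w' := by
  simp only [bf, Pi.add_apply, mul_add, Finset.sum_add_distrib]

private theorem ds_bf_smul_left (s : ℂ) (v : Fin (n2 + 1) → ℂ) (w : Fin (n3 + 1) → ℂ) :
    bf F (s • v) w = s * bf F v w := by
  simp only [bf, Pi.smul_apply, smul_eq_mul, Finset.mul_sum]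
  exact Finset.sum_congr rfl fun _ _ => Finset.sum_congr rfl fun _ _ => by ring

private theorem ds_bf_smul_right (s : ℂ) (v : Fin (n2 + 1) → ℂ) (w : Fin (n3 + 1) → ℂ) :
    bf F v (s • w) = s * bf F v w := by
  simp only [bf, Pi.smul_apply, smul_eq_mul, Finset.mul_sum]
  exact Finset.sum_congr rfl fun _ _ => Finset.sum_congr rfl fun _ _ => by ring

private theorem ds_bf (v dv : Fin (n2 + 1) → ℂ) (w dw : Fin (n3 + 1) → ℂ) (s : ℂ) :
    bf F (v + s • dv) (w + s • dw)
      = bf F v w + s * (bf F dv w + bf F v dw) + s ^ 2 * bf F dv dw := by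
  rw [ds_bf_add_left, ds_bf_add_right, ds_bf_add_right, ds_bf_smul_left,
    ds_bf_smul_left, ds_bf_smul_right, ds_bf_smul_right]
  ring

private theorem ds_hd {a b c : ℂ} {f : ℝ → ℂ} (h : ∀ s : ℝ, f s = a + s * b + (s : ℂ) ^ 2 * c) :
    HasDerivAt f b 0 := by
  have h1 : HasDerivAt (fun s : ℝ => (s : ℂ)) 1 0 := by
    simpa using (hasDerivAt_id (0 : ℝ)).ofReal_comp
  have h2 := ((h1.mul_const b).const_add a).add ((h1.pow 2).mul_const c)
  have e : f = fun s : ℝ => a + s * b + (s : ℂ) ^ 2 * c := funext h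
  rw [e]
  have h3 : HasDerivAt (fun s : ℝ => a + s * b + (s : ℂ) ^ 2 * c) _ 0 := h2
  exact h3.congr_deriv (by simp)

/-- The curve of a system of unknowns. -/
private theorem ds_cv {I : Type} {B C : Type} (y x : (I → ℂ) × (B → ℂ) × (C → ℂ)) (s : ℝ) :
    (y + s • x).1 = y.1 + (s : ℂ) • x.1 ∧ (y + s • x).2.1 = y.2.1 + (s : ℂ) • x.2.1 ∧
      (y + s • x).2.2 = y.2.2 + (s : ℂ) • x.2.2 := by
  refine ⟨?_, ?_, ?_⟩ <;> funext k <;> simp

private theorem ds_da (y x : (Fin (N + 1) ⊕ Fin 4 → ℂ) × (Fin (n2 + 1) → ℂ) × (Fin (n3 + 1) → ℂ))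
    (z : Fin (n2 + 1) → ℂ) :
    HasDerivAt (fun s : ℝ => dt ((syD P T t p k0 ib ic).a (y + s • x)) z)
      (dt (c2 T (fun a => x.1 (Sum.inl a)) y.2.2) z + dt (c2 T (fun a => y.1 (Sum.inl a)) x.2.2) z
        + x.1 (Sum.inr 0) * pr (hv P n2) z - x.1 (Sum.inr 2) * z 0) 0 := by
  refine ds_hd (a := dt (c2 T (fun a => y.1 (Sum.inl a)) y.2.2) z
      + y.1 (Sum.inr 0) * pr (hv P n2) z - y.1 (Sum.inr 2) * z 0)
    (c := dt (c2 T (fun a => x.1 (Sum.inl a)) x.2.2) z) fun s => ?_
  obtain ⟨h1, -, h3⟩ := ds_cv y x s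
  have h4 : (fun a => (y + s • x).1 (Sum.inl a))
      = (fun a => y.1 (Sum.inl a)) + (s : ℂ) • fun a => x.1 (Sum.inl a) := by
    rw [h1]
    rfl
  rw [ds_dta, h4, h3, ds_c2, h1]
  simp only [Pi.add_apply, Pi.smul_apply, smul_eq_mul]
  ring

private theorem ds_db (y x : (Fin (N + 1) ⊕ Fin 4 → ℂ) × (Fin (n2 + 1) → ℂ) × (Fin (n3 + 1) → ℂ))
    (z : Fin (n3 + 1) → ℂ) :
    HasDerivAt (fun s : ℝ => dt ((syD P T t p k0 ib ic).b (y + s • x)) z)
      (dt (c3 T (fun a => x.1 (Sum.inl a)) y.2.1) z + dt (c3 T (fun a => y.1 (Sum.inl a)) x.2.1) z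
        + x.1 (Sum.inr 1) * pr (hv P n3) z - x.1 (Sum.inr 3) * z 0) 0 := by
  refine ds_hd (a := dt (c3 T (fun a => y.1 (Sum.inl a)) y.2.1) z
      + y.1 (Sum.inr 1) * pr (hv P n3) z - y.1 (Sum.inr 3) * z 0)
    (c := dt (c3 T (fun a => x.1 (Sum.inl a)) x.2.1) z) fun s => ?_
  obtain ⟨h1, h2, -⟩ := ds_cv y x s
  have h4 : (fun a => (y + s • x).1 (Sum.inl a))
      = (fun a => y.1 (Sum.inl a)) + (s : ℂ) • fun a => x.1 (Sum.inl a) := by
    rw [h1]
    rfl
  rw [ds_dtb, h4, h2, ds_c3, h1]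
  simp only [Pi.add_apply, Pi.smul_apply, smul_eq_mul]
  ring

/-- The derivative of the third component. -/
private def ds_g (T : Fin (N + 1) → Fin (n2 + 1) → Fin (n3 + 1) → ℝ) (t : Bool) (p : ℕ)
    (k0 : Fin (N + 1) ⊕ Fin 4) (ib : Fin (n2 + 1)) (ic : Fin (n3 + 1))
    (y x : (Fin (N + 1) ⊕ Fin 4 → ℂ) × (Fin (n2 + 1) → ℂ) × (Fin (n3 + 1) → ℂ))
    (k : Fin (N + 1) ⊕ Fin 5) : ℂ := k.elim
  (fun a => if a ∈ SR N false p then c1 T x.2.1 y.2.2 a + c1 T y.2.1 x.2.2 a
      else if a ∈ SR N t p then 0 else x.1 (Sum.inl a))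
    ![if t then x.1 (Sum.inr 2) else (x.1 (Sum.inr 1) * y.2.2 0 + y.1 (Sum.inr 1) * x.2.2 0)
      - (x.1 (Sum.inr 0) * y.2.1 0 + y.1 (Sum.inr 0) * x.2.1 0),
      if t then x.1 (Sum.inr 3) else 0, x.2.1 ib, x.2.2 ic, x.1 k0]

private theorem ds_dg (y x : (Fin (N + 1) ⊕ Fin 4 → ℂ) × (Fin (n2 + 1) → ℂ) × (Fin (n3 + 1) → ℂ))
    (k : Fin (N + 1) ⊕ Fin 5) :
    HasDerivAt (fun s : ℝ => (syD P T t p k0 ib ic).g (y + s • x) k)
      (ds_g T t p k0 ib ic y x k) 0 := by
  have h0 : ∀ s : ℝ, _ := ds_cv y x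
  rcases k with a | k
  · by_cases h1 : a ∈ SR N false p
    · refine ds_hd (a := c1 T y.2.1 y.2.2 a) (c := c1 T x.2.1 x.2.2 a) fun s => ?_
      obtain ⟨-, h3, h4⟩ := h0 s
      simp only [syD, ds_g, Sum.elim_inl, if_pos h1]
      rw [h3, h4, ds_c1]
    · by_cases h2 : a ∈ SR N t p
      · refine ds_hd (a := 0) (c := 0) fun s => ?_
        simp only [syD, ds_g, Sum.elim_inl, if_neg h1, if_pos h2]
        ring
      · refine ds_hd (a := y.1 (Sum.inl a)) (c := 0) fun s => ?_
        obtain ⟨h3, -, -⟩ := h0 s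
        simp only [syD, ds_g, Sum.elim_inl, if_neg h1, if_neg h2]
        rw [h3]
        simp only [Pi.add_apply, Pi.smul_apply, smul_eq_mul]
        ring
  · fin_cases k
    · cases t
      · refine ds_hd (a := y.1 (Sum.inr 1) * y.2.2 0 - y.1 (Sum.inr 0) * y.2.1 0)
          (c := x.1 (Sum.inr 1) * x.2.2 0 - x.1 (Sum.inr 0) * x.2.1 0) fun s => ?_
        obtain ⟨h3, h4, h5⟩ := h0 s
        simp [syD, ds_g]
        ring
      · refine ds_hd (a := y.1 (Sum.inr 2)) (c := 0) fun s => ?_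
        simp [syD, ds_g]
    · cases t
      · refine ds_hd (a := 0) (c := 0) fun s => ?_
        simp [syD, ds_g]
      · refine ds_hd (a := y.1 (Sum.inr 3)) (c := 0) fun s => ?_
        simp [syD, ds_g]
    · refine ds_hd (a := y.2.1 ib - 1) (c := 0) fun s => ?_
      simp [syD, ds_g]
      ring
    · refine ds_hd (a := y.2.2 ic - 1) (c := 0) fun s => ?_
      simp [syD, ds_g]
      ring
    · refine ds_hd (a := y.1 k0 - 1) (c := 0) fun s => ?_
      simp [syD, ds_g]
      ring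

private theorem ds_sub {a : Fin (N + 1)} (h : a ∈ SR N false p) : a ∈ SR N t p := by
  unfold SR at h ⊢
  rw [Finset.mem_filter] at h ⊢
  refine ⟨h.1, Or.inr ?_, h.2.2⟩
  rcases h.2.1 with h3 | h3
  · exact absurd h3 Bool.false_ne_true
  · exact h3

private theorem ds_eD (e : Fin (N + 1) ⊕ Fin 4 → ℂ) :
    ∃ u M M' κ κ', e = eD u M M' κ κ' := by
  refine ⟨fun a => e (Sum.inl a), e (Sum.inr 0), e (Sum.inr 1), e (Sum.inr 2), e (Sum.inr 3), ?_⟩
  funext k
  rcases k with a | k
  · rfl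
  · fin_cases k <;> rfl

private theorem ds_g0 :
    (syD P T t p k0 ib ic).g (eD u M M' κ κ', v, w) = 0 ↔
      Sup (SR N t p) u ∧ (∀ a ∈ SR N false p, c1 T v w a = 0) ∧
      (t = false → M' * w 0 = M * v 0) ∧ (t = true → κ = 0 ∧ κ' = 0) ∧ v ib = 1 ∧ w ic = 1 ∧
      eD u M M' κ κ' k0 = 1 := by
  have hl : ∀ a, (syD P T t p k0 ib ic).g (eD u M M' κ κ', v, w) (Sum.inl a)
      = if a ∈ SR N false p then c1 T v w a else if a ∈ SR N t p then 0 else u a := fun a => rfl
  have h0 : (syD P T t p k0 ib ic).g (eD u M M' κ κ', v, w) (Sum.inr 0)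
      = if t then κ else M' * w 0 - M * v 0 := rfl
  have h1 : (syD P T t p k0 ib ic).g (eD u M M' κ κ', v, w) (Sum.inr 1)
      = if t then κ' else 0 := rfl
  have h2 : (syD P T t p k0 ib ic).g (eD u M M' κ κ', v, w) (Sum.inr 2) = v ib - 1 := rfl
  have h3 : (syD P T t p k0 ib ic).g (eD u M M' κ κ', v, w) (Sum.inr 3) = w ic - 1 := rfl
  have h4 : (syD P T t p k0 ib ic).g (eD u M M' κ κ', v, w) (Sum.inr 4)
      = eD u M M' κ κ' k0 - 1 := rfl
  constructor
  · intro h
    have hk : ∀ k, (syD P T t p k0 ib ic).g (eD u M M' κ κ', v, w) k = 0 := fun k => congrFun h k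
    refine ⟨fun a ha => ?_, fun a ha => ?_, fun ht => ?_, fun ht => ?_, ?_, ?_, ?_⟩
    · have := hk (Sum.inl a)
      rwa [hl, if_neg fun h' => ha (ds_sub h'), if_neg ha] at this
    · have := hk (Sum.inl a)
      rwa [hl, if_pos ha] at this
    · have := hk (Sum.inr 0)
      rw [h0, ht, if_neg Bool.false_ne_true] at this
      exact sub_eq_zero.1 this
    · have e0 := hk (Sum.inr 0)
      have e1 := hk (Sum.inr 1)
      rw [h0, if_pos ht] at e0
      rw [h1, if_pos ht] at e1
      exact ⟨e0, e1⟩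
    · exact sub_eq_zero.1 (h2.symm.trans (hk _))
    · exact sub_eq_zero.1 (h3.symm.trans (hk _))
    · exact sub_eq_zero.1 (h4.symm.trans (hk _))
  · rintro ⟨g1, g2, g3, g4, g5, g6, g7⟩
    funext k
    rcases k with a | k
    · rw [hl]
      by_cases ha : a ∈ SR N false p
      · rw [if_pos ha, g2 a ha]
        rfl
      · rw [if_neg ha]
        by_cases hb : a ∈ SR N t p
        · rw [if_pos hb]
          rfl
        · rw [if_neg hb, g1 a hb]
          rfl
    · fin_cases k
      · refine h0.trans ?_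
        cases t
        · rw [if_neg Bool.false_ne_true, g3 rfl, sub_self]
          rfl
        · rw [if_pos rfl, (g4 rfl).1]
          rfl
      · refine h1.trans ?_
        cases t
        · rw [if_neg Bool.false_ne_true]
          rfl
        · rw [if_pos rfl, (g4 rfl).2]
          rfl
      · exact h2.trans (sub_eq_zero.2 g5)
      · exact h3.trans (sub_eq_zero.2 g6)
      · exact h4.trans (sub_eq_zero.2 g7)

variable {du : Fin (N + 1) → ℂ} {dv : Fin (n2 + 1) → ℂ} {dw : Fin (n3 + 1) → ℂ}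
  {dM dM' dκ dκ' dr : ℂ}

private theorem ds_gk :
    (∀ k, ds_g T t p k0 ib ic (eD u M M' κ κ', v, w) (eD du dM dM' dκ dκ', dv, dw) k = 0) ↔
      Sup (SR N t p) du ∧ (∀ a ∈ SR N false p, c1 T dv w a + c1 T v dw a = 0) ∧
      (t = false → dM' * w 0 + M' * dw 0 = dM * v 0 + M * dv 0) ∧
      (t = true → dκ = 0 ∧ dκ' = 0) ∧ dv ib = 0 ∧ dw ic = 0 ∧
      eD du dM dM' dκ dκ' k0 = 0 := by
  have hl : ∀ a, ds_g T t p k0 ib ic (eD u M M' κ κ', v, w) (eD du dM dM' dκ dκ', dv, dw)
      (Sum.inl a) = if a ∈ SR N false p then c1 T dv w a + c1 T v dw a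
        else if a ∈ SR N t p then 0 else du a := fun a => rfl
  have h0 : ds_g T t p k0 ib ic (eD u M M' κ κ', v, w) (eD du dM dM' dκ dκ', dv, dw)
      (Sum.inr 0) = if t then dκ else (dM' * w 0 + M' * dw 0) - (dM * v 0 + M * dv 0) := rfl
  have h1 : ds_g T t p k0 ib ic (eD u M M' κ κ', v, w) (eD du dM dM' dκ dκ', dv, dw)
      (Sum.inr 1) = if t then dκ' else 0 := rfl
  have h2 : ds_g T t p k0 ib ic (eD u M M' κ κ', v, w) (eD du dM dM' dκ dκ', dv, dw)
      (Sum.inr 2) = dv ib := rfl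
  have h3 : ds_g T t p k0 ib ic (eD u M M' κ κ', v, w) (eD du dM dM' dκ dκ', dv, dw)
      (Sum.inr 3) = dw ic := rfl
  have h4 : ds_g T t p k0 ib ic (eD u M M' κ κ', v, w) (eD du dM dM' dκ dκ', dv, dw)
      (Sum.inr 4) = eD du dM dM' dκ dκ' k0 := rfl
  constructor
  · intro hk
    refine ⟨fun a ha => ?_, fun a ha => ?_, fun ht => ?_, fun ht => ?_, ?_, ?_, ?_⟩
    · have := hk (Sum.inl a)
      rwa [hl, if_neg fun h' => ha (ds_sub h'), if_neg ha] at this
    · have := hk (Sum.inl a)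
      rwa [hl, if_pos ha] at this
    · have := hk (Sum.inr 0)
      rw [h0, ht, if_neg Bool.false_ne_true] at this
      exact sub_eq_zero.1 this
    · have e0 := hk (Sum.inr 0)
      have e1 := hk (Sum.inr 1)
      rw [h0, if_pos ht] at e0
      rw [h1, if_pos ht] at e1
      exact ⟨e0, e1⟩
    · exact h2.symm.trans (hk _)
    · exact h3.symm.trans (hk _)
    · exact h4.symm.trans (hk _)
  · rintro ⟨g1, g2, g3, g4, g5, g6, g7⟩ k
    rcases k with a | k
    · rw [hl]
      by_cases ha : a ∈ SR N false p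
      · rw [if_pos ha, g2 a ha]
      · rw [if_neg ha]
        by_cases hb : a ∈ SR N t p
        · rw [if_pos hb]
        · rw [if_neg hb, g1 a hb]
    · fin_cases k
      · refine h0.trans ?_
        cases t
        · rw [if_neg Bool.false_ne_true, g3 rfl, sub_self]
        · rw [if_pos rfl, (g4 rfl).1]
      · refine h1.trans ?_
        cases t
        · rw [if_neg Bool.false_ne_true]
        · rw [if_pos rfl, (g4 rfl).2]
      · exact h2.trans g5
      · exact h3.trans g6
      · exact h4.trans g7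

private theorem ds_ke
    (sv : dv ∈ Xo P n2 (if t then 1 else 0) i) (sw : dw ∈ Xo P n3 (if t then 1 else 0) j)
    (su : Sup (SR N t p) du) (e1 : ∀ a ∈ SR N false p, c1 T dv w a + c1 T v dw a = 0)
    (e0 : bf F dv w + bf F v dw = 0)
    (e2 : ∀ z ∈ Xo P n2 (if t then 1 else 0) i,
      dt (c2 T du w) z + dt (c2 T u dw) z + dM * pr (hv P n2) z - dκ * z 0
        + (dr * bf F z w + r * bf F z dw) = 0)
    (e3 : ∀ z ∈ Xo P n3 (if t then 1 else 0) j,
      dt (c3 T du v) z + dt (c3 T u dv) z + dM' * pr (hv P n3) z - dκ' * z 0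
        + (dr * bf F v z + r * bf F dv z) = 0)
    (e4 : t = false → dM' * w 0 + M' * dw 0 = dM * v 0 + M * dv 0)
    (ek : t = true → dκ = 0 ∧ dκ' = 0) (m1 : dv ib = 0) (m2 : dw ic = 0)
    (m3 : eD du dM dM' dκ dκ' k0 = 0) :
    ((syD P T t p k0 ib ic).ext F).Ke (Xo P n2 (if t then 1 else 0) i)
      (Xo P n3 (if t then 1 else 0) j) (fun o => o.elim r (eD u M M' κ κ'), v, w)
      (fun o => o.elim dr (eD du dM dM' dκ dκ'), dv, dw) := by
  have hc : ∀ s : ℝ, v + s • dv = v + (s : ℂ) • dv := fun s => by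
    funext b
    simp
  have hc' : ∀ s : ℝ, w + s • dw = w + (s : ℂ) • dw := fun s => by
    funext b
    simp
  have hr : ∀ s : ℝ, r + s • dr = r + (s : ℂ) * dr := fun s => by simp
  refine ⟨sv, sw, fun z hz => ?_, fun z hz => ?_, ?_⟩
  · have h1 := ds_da (P := P) (T := T) (t := t) (p := p) (k0 := k0) (ib := ib) (ic := ic)
      (eD u M M' κ κ', v, w) (eD du dM dM' dκ dκ', dv, dw) z
    have h2 : HasDerivAt (fun s : ℝ => (r + (s : ℂ) * dr) * bf F z (w + (s : ℂ) • dw))
        (dr * bf F z w + r * bf F z dw) 0 :=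
      ds_hd (a := r * bf F z w) (c := dr * bf F z dw) fun s => by
        rw [ds_bf_add_right, ds_bf_smul_right]
        ring
    have h3 : (fun s : ℝ => dt (((syD P T t p k0 ib ic).ext F).a
        (((fun o => o.elim r (eD u M M' κ κ'), v, w) :
          (Option (Fin (N + 1) ⊕ Fin 4) → ℂ) × (Fin (n2 + 1) → ℂ) × (Fin (n3 + 1) → ℂ))
          + s • (fun o => o.elim dr (eD du dM dM' dκ dκ'), dv, dw))) z)
        = fun s : ℝ => dt ((syD P T t p k0 ib ic).a ((eD u M M' κ κ', v, w)
        + s • (eD du dM dM' dκ dκ', dv, dw))) z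
          + (r + (s : ℂ) * dr) * bf F z (w + (s : ℂ) • dw) := by
      funext s
      change dt ((syD P T t p k0 ib ic).a ((eD u M M' κ κ', v, w)
        + s • (eD du dM dM' dκ dκ', dv, dw)) + (r + s • dr) • bfB F (w + s • dw)) z = _
      rw [dt_add_left, dt_smul_left, dt_bfB, hr, hc']
    rw [h3]
    exact (h1.add h2).congr_deriv (e2 z hz)
  · have h1 := ds_db (P := P) (T := T) (t := t) (p := p) (k0 := k0) (ib := ib) (ic := ic)
      (eD u M M' κ κ', v, w) (eD du dM dM' dκ dκ', dv, dw) z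
    have h2 : HasDerivAt (fun s : ℝ => (r + (s : ℂ) * dr) * bf F (v + (s : ℂ) • dv) z)
        (dr * bf F v z + r * bf F dv z) 0 :=
      ds_hd (a := r * bf F v z) (c := dr * bf F dv z) fun s => by
        rw [ds_bf_add_left, ds_bf_smul_left]
        ring
    have h3 : (fun s : ℝ => dt (((syD P T t p k0 ib ic).ext F).b
        (((fun o => o.elim r (eD u M M' κ κ'), v, w) :
          (Option (Fin (N + 1) ⊕ Fin 4) → ℂ) × (Fin (n2 + 1) → ℂ) × (Fin (n3 + 1) → ℂ))
          + s • (fun o => o.elim dr (eD du dM dM' dκ dκ'), dv, dw))) z)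
        = fun s : ℝ => dt ((syD P T t p k0 ib ic).b ((eD u M M' κ κ', v, w)
        + s • (eD du dM dM' dκ dκ', dv, dw))) z
          + (r + (s : ℂ) * dr) * bf F (v + (s : ℂ) • dv) z := by
      funext s
      change dt ((syD P T t p k0 ib ic).b ((eD u M M' κ κ', v, w)
        + s • (eD du dM dM' dκ dκ', dv, dw)) + (r + s • dr) • bfC F (v + s • dv)) z = _
      rw [dt_add_left, dt_smul_left, dt_bfC, hr, hc]
    rw [h3]
    exact (h1.add h2).congr_deriv (e3 z hz)
  · refine hasDerivAt_pi.2 fun k => ?_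
    cases k with
    | none =>
      change HasDerivAt (fun s : ℝ => bf F (v + s • dv) (w + s • dw)) 0 0
      refine ds_hd (a := bf F v w) (c := bf F dv dw) fun s => ?_
      rw [hc, hc', ds_bf, e0]
    | some k =>
      have h1 := ds_dg (P := P) (T := T) (t := t) (p := p) (k0 := k0) (ib := ib) (ic := ic)
        (eD u M M' κ κ', v, w) (eD du dM dM' dκ dκ', dv, dw) k
      rw [ds_gk.2 ⟨su, e1, e4, ek, m1, m2, m3⟩ k] at h1
      exact h1

omit ib ic in
private theorem ds_kap {n : ℕ} {i : ℕ → ℕ} {f v : Fin (n + 1) → ℂ} {m : ℂ}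
    (hL : ∀ z ∈ Xo P n 1 i, dt f z + m * pr (hv P n) z = 0)
    (hv' : v ∈ Xo P n (if t then 1 else 0) i) (h0 : t = false → v 0 ≠ 0) :
    ∃ κ : ℂ, (∀ z ∈ Xo P n (if t then 1 else 0) i, dt f z + m * pr (hv P n) z = κ * z 0) ∧
      (t = true → κ = 0) := by
  cases t
  · have hv0 : v 0 ≠ 0 := h0 rfl
    refine ⟨(dt f v + m * pr (hv P n) v) / v 0, fun z hz => ?_, fun h => absurd h (by decide)⟩
    have h1 : z - (z 0 / v 0) • v ∈ Xo P n 1 i := by
      refine tst_diff0 n hz (Submodule.smul_mem _ _ hv') ?_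
      rw [Pi.smul_apply, smul_eq_mul, div_mul_cancel₀ _ hv0]
    have h2 := hL _ h1
    have h3 : z - (z 0 / v 0) • v = z + (-(z 0 / v 0)) • v := by
      rw [neg_smul, sub_eq_add_neg]
    rw [h3, dt_add_right, dt_smul_right, pr_add, pr_smul] at h2
    field_simp at h2 ⊢
    linear_combination h2
  · refine ⟨0, fun z hz => ?_, fun _ => rfl⟩
    rw [zero_mul]
    exact hL z hz

omit ib ic in
private theorem ds_Xo {n : ℕ} {i : ℕ → ℕ} {z : Fin (n + 1) → ℂ} (hz : z ∈ Xo P n 1 i) :
    z ∈ Xo P n (if t then 1 else 0) i ∧ z 0 = 0 := by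
  have h0 : z 0 = 0 := (mem_XM.1 hz.1).1 (by decide)
  refine ⟨?_, h0⟩
  cases t
  · exact ⟨mem_XM.2 ⟨fun h' => absurd rfl h', fun h' => absurd h' (by decide)⟩, hz.2⟩
  · exact hz

private theorem ds_u1 (ph : Fin (N + 1)) (R : ℝ) (v : Fin (n2 + 1) → ℂ) (w : Fin (n3 + 1) → ℂ)
    (a : Fin (N + 1)) : c1 (Function.update T ph (fun b c => R * F b c)) v w a
      = if a = ph then (R : ℂ) * bf F v w else c1 T v w a := by
  unfold c1 bf
  by_cases h : a = ph
  · subst h
    rw [if_pos rfl, Function.update_self]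
    simp only [Finset.mul_sum]
    exact Finset.sum_congr rfl fun b _ => Finset.sum_congr rfl fun c _ => by
      push_cast
      ring
  · rw [if_neg h, Function.update_of_ne h]

private theorem ds_u2 (ph : Fin (N + 1)) (R : ℝ) (u : Fin (N + 1) → ℂ) (w : Fin (n3 + 1) → ℂ)
    (z : Fin (n2 + 1) → ℂ) : dt (c2 (Function.update T ph (fun b c => R * F b c)) u w) z
      = dt (c2 T (Function.update u ph 0) w) z + R * u ph * bf F z w := by
  have e : c2 (Function.update T ph (fun b c => R * F b c)) u w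
      = c2 T (Function.update u ph 0) w + ((R : ℂ) * u ph) • bfB F w := by
    funext b
    simp only [c2, bfB, Pi.add_apply, Pi.smul_apply, smul_eq_mul]
    rw [← Finset.add_sum_erase _ _ (Finset.mem_univ ph),
      ← Finset.add_sum_erase _ (fun a => ∑ c, (T a b c : ℂ) * (Function.update u ph 0 a * w c))
        (Finset.mem_univ ph)]
    have e1 : ∑ a ∈ Finset.univ.erase ph, ∑ c,
        ((Function.update T ph (fun b c => R * F b c) a b c : ℝ) : ℂ) * (u a * w c)
        = ∑ a ∈ Finset.univ.erase ph, ∑ c, (T a b c : ℂ) * (Function.update u ph 0 a * w c) := by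
      refine Finset.sum_congr rfl fun a ha => ?_
      rw [Function.update_of_ne (Finset.ne_of_mem_erase ha),
        Function.update_of_ne (Finset.ne_of_mem_erase ha)]
    rw [e1]
    simp only [Function.update_self, zero_mul, mul_zero, Finset.sum_const_zero, zero_add]
    rw [add_comm, Finset.mul_sum]
    congr 1
    exact Finset.sum_congr rfl fun c _ => by
      push_cast
      ring
  rw [e, dt_add_left, dt_smul_left, dt_bfB]

private theorem ds_u3 (ph : Fin (N + 1)) (R : ℝ) (u : Fin (N + 1) → ℂ) (v : Fin (n2 + 1) → ℂ)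
    (z : Fin (n3 + 1) → ℂ) : dt (c3 (Function.update T ph (fun b c => R * F b c)) u v) z
      = dt (c3 T (Function.update u ph 0) v) z + R * u ph * bf F v z := by
  have e : c3 (Function.update T ph (fun b c => R * F b c)) u v
      = c3 T (Function.update u ph 0) v + ((R : ℂ) * u ph) • bfC F v := by
    funext c
    simp only [c3, bfC, Pi.add_apply, Pi.smul_apply, smul_eq_mul]
    rw [← Finset.add_sum_erase _ _ (Finset.mem_univ ph),
      ← Finset.add_sum_erase _ (fun a => ∑ b, (T a b c : ℂ) * (Function.update u ph 0 a * v b))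
        (Finset.mem_univ ph)]
    have e1 : ∑ a ∈ Finset.univ.erase ph, ∑ b,
        ((Function.update T ph (fun b c => R * F b c) a b c : ℝ) : ℂ) * (u a * v b)
        = ∑ a ∈ Finset.univ.erase ph, ∑ b, (T a b c : ℂ) * (Function.update u ph 0 a * v b) := by
      refine Finset.sum_congr rfl fun a ha => ?_
      rw [Function.update_of_ne (Finset.ne_of_mem_erase ha),
        Function.update_of_ne (Finset.ne_of_mem_erase ha)]
    rw [e1]
    simp only [Function.update_self, zero_mul, mul_zero, Finset.sum_const_zero, zero_add]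
    rw [add_comm, Finset.mul_sum]
    congr 1
    exact Finset.sum_congr rfl fun b _ => by
      push_cast
      ring
  rw [e, dt_add_left, dt_smul_left, dt_bfC]

private theorem ds_l2a (u u' : Fin (N + 1) → ℂ) (w : Fin (n3 + 1) → ℂ) (s : ℂ)
    (z : Fin (n2 + 1) → ℂ) :
    dt (c2 T (u + s • u') w) z = dt (c2 T u w) z + s * dt (c2 T u' w) z := by
  have e : c2 T (u + s • u') w = c2 T u w + s • c2 T u' w := by
    funext b
    rw [MPb0eR.c2_add_left, MPb0eR.c2_smul_left]
    rfl
  rw [e, dt_add_left, dt_smul_left]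

private theorem ds_l2b (u : Fin (N + 1) → ℂ) (w w' : Fin (n3 + 1) → ℂ) (s : ℂ)
    (z : Fin (n2 + 1) → ℂ) :
    dt (c2 T u (w + s • w')) z = dt (c2 T u w) z + s * dt (c2 T u w') z := by
  have e : c2 T u (w + s • w') = c2 T u w + s • c2 T u w' := by
    funext b
    rw [MPb0eR.c2_add_right, MPb0eR.c2_smul_right]
    rfl
  rw [e, dt_add_left, dt_smul_left]

private theorem ds_l3a (u u' : Fin (N + 1) → ℂ) (v : Fin (n2 + 1) → ℂ) (s : ℂ)
    (z : Fin (n3 + 1) → ℂ) :
    dt (c3 T (u + s • u') v) z = dt (c3 T u v) z + s * dt (c3 T u' v) z := by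
  have e : c3 T (u + s • u') v = c3 T u v + s • c3 T u' v := by
    funext b
    rw [MPb0eR.c3_add_left, MPb0eR.c3_smul_left]
    rfl
  rw [e, dt_add_left, dt_smul_left]

private theorem ds_l3b (u : Fin (N + 1) → ℂ) (v v' : Fin (n2 + 1) → ℂ) (s : ℂ)
    (z : Fin (n3 + 1) → ℂ) :
    dt (c3 T u (v + s • v')) z = dt (c3 T u v) z + s * dt (c3 T u v') z := by
  have e : c3 T u (v + s • v') = c3 T u v + s • c3 T u v' := by
    funext b
    rw [MPb0eR.c3_add_right, MPb0eR.c3_smul_right]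
    rfl
  rw [e, dt_add_left, dt_smul_left]

private theorem ds_back {ph : Fin (N + 1)} {R : ℝ} (hR : 0 < R)
    (hS : ∀ (t : Bool) (a : Fin (N + 1)), a ∈ SR N t (p + 1) ↔ a = ph ∨ a ∈ SR N t p)
    (hn : ∀ t : Bool, ph ∉ SR N t p)
    (hk : DK P (Function.update T ph (fun b c => R * F b c)) t (p + 1) i j u v w M M' κ κ')
    (h0 : bf F v w = 0) (hN : NvD t u v w M M') (hv1 : v ib = 1) (hw1 : w ic = 1)
    (h3 : eD (Function.update u ph 0) M M' κ κ' k0 = 1)
    (hnd : ((syD P T t p k0 ib ic).ext F).Nd (Xo P n2 (if t then 1 else 0) i)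
      (Xo P n3 (if t then 1 else 0) j) (fun o => o.elim (R * u ph)
        (eD (Function.update u ph 0) M M' κ κ'), v, w))
    (hd : KDX P (Function.update T ph (fun b c => R * F b c)) t (p + 1) i j u v w M M'
      du dv dw dM dM') :
    ∃ a b c : ℂ, du = a • u ∧ dv = b • v ∧ dw = c • w ∧ dM = (a + c) * M ∧
      dM' = (a + b) * M' := by
  have hRc : (R : ℂ) ≠ 0 := by
    exact_mod_cast hR.ne'
  obtain ⟨dκ, k2, kt⟩ := ds_kap (P := P) (t := t) (i := i) (m := dM) (v := v)
    (f := c2 (Function.update T ph (fun b c => R * F b c)) du w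
      + c2 (Function.update T ph (fun b c => R * F b c)) u dw)
    (fun z hz => by rw [dt_add_left]; exact hd.e2 z hz) hk.sv
    (fun h => (hN.2.2.2.2.1 h).1)
  obtain ⟨dκ', k3, kt'⟩ := ds_kap (P := P) (t := t) (i := j) (m := dM') (v := w)
    (f := c3 (Function.update T ph (fun b c => R * F b c)) du v
      + c3 (Function.update T ph (fun b c => R * F b c)) u dv)
    (fun z hz => by rw [dt_add_left]; exact hd.e3 z hz) hk.sw
    (fun h => (hN.2.2.2.2.1 h).2)
  obtain ⟨b, hb⟩ : ∃ b, b = dv ib := ⟨_, rfl⟩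
  obtain ⟨c, hc⟩ : ∃ c, c = dw ic := ⟨_, rfl⟩
  obtain ⟨a, ha⟩ : ∃ a, a = eD (Function.update du ph 0) (dM - c * M) (dM' - b * M')
    (dκ - c * κ) (dκ' - b * κ') k0 := ⟨_, rfl⟩
  have hlin : ∀ k, eD (Function.update (du + (-a) • u) ph 0) (dM - (a + c) * M)
      (dM' - (a + b) * M') (dκ - (a + c) * κ) (dκ' - (a + b) * κ') k
      = eD (Function.update du ph 0) (dM - c * M) (dM' - b * M') (dκ - c * κ) (dκ' - b * κ') k
        - a * eD (Function.update u ph 0) M M' κ κ' k := by
    intro k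
    rcases k with k | k
    · change Function.update (du + (-a) • u) ph 0 k
        = Function.update du ph 0 k - a * Function.update u ph 0 k
      by_cases hk' : k = ph
      · rw [hk', Function.update_self, Function.update_self, Function.update_self]
        ring
      · rw [Function.update_of_ne hk', Function.update_of_ne hk', Function.update_of_ne hk']
        simp only [Pi.add_apply, Pi.smul_apply, smul_eq_mul]
        ring
    · fin_cases k
      · change dM - (a + c) * M = dM - c * M - a * M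
        ring
      · change dM' - (a + b) * M' = dM' - b * M' - a * M'
        ring
      · change dκ - (a + c) * κ = dκ - c * κ - a * κ
        ring
      · change dκ' - (a + b) * κ' = dκ' - b * κ' - a * κ'
        ring
  have hm : eD (Function.update (du + (-a) • u) ph 0) (dM - (a + c) * M)
      (dM' - (a + b) * M') (dκ - (a + c) * κ) (dκ' - (a + b) * κ') k0 = 0 := by
    rw [hlin, ← ha, h3]
    ring
  have hph1 : ph ∈ SR N false (p + 1) := (hS false ph).2 (Or.inl rfl)
  have e0 : bf F (dv + (-b) • v) w + bf F v (dw + (-c) • w) = 0 := by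
    have h1 := hd.e1 ph hph1
    rw [ds_u1, ds_u1, if_pos rfl, if_pos rfl, ← mul_add] at h1
    have h2 := (mul_eq_zero.1 h1).resolve_left hRc
    rw [ds_bf_add_left, ds_bf_smul_left, ds_bf_add_right, ds_bf_smul_right, h0]
    linear_combination h2
  have hx := hnd (fun o => o.elim ((R : ℂ) * (du + (-a) • u) ph)
    (eD (Function.update (du + (-a) • u) ph 0) (dM - (a + c) * M)
      (dM' - (a + b) * M') (dκ - (a + c) * κ) (dκ' - (a + b) * κ')),
      dv + (-b) • v, dw + (-c) • w) (by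
    refine ds_ke (Submodule.add_mem _ hd.sv (Submodule.smul_mem _ _ hk.sv))
      (Submodule.add_mem _ hd.sw (Submodule.smul_mem _ _ hk.sw)) (fun a' ha' => ?_)
      (fun a' ha' => ?_) e0 (fun z hz => ?_) (fun z hz => ?_) (fun ht => ?_) (fun ht => ?_)
      ?_ ?_ hm
    · by_cases h' : a' = ph
      · rw [h', Function.update_self]
      · have h2 : a' ∉ SR N t (p + 1) := fun h4 => ((hS t a').1 h4).elim h' ha'
        rw [Function.update_of_ne h', Pi.add_apply, Pi.smul_apply, hd.su a' h2, hk.su a' h2,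
          smul_zero, add_zero]
    · have h' : a' ≠ ph := fun h' => hn false (h' ▸ ha')
      have h2 : a' ∈ SR N false (p + 1) := (hS false a').2 (Or.inr ha')
      have h4 := hd.e1 a' h2
      have h5 := hk.e1 a' h2
      rw [ds_u1, if_neg h'] at h5
      rw [ds_u1, if_neg h', ds_u1, if_neg h'] at h4
      rw [MPb0eR.c1_add_left, MPb0eR.c1_smul_left, MPb0eR.c1_add_right, MPb0eR.c1_smul_right,
        h5]
      linear_combination h4
    · have h4 := k2 z hz
      rw [dt_add_left] at h4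
      have h5 := hk.e2 z hz
      have h6 := ds_u2 (T := T) (F := F) ph R (du + (-a) • u) w z
      have h7 := ds_u2 (T := T) (F := F) ph R u (dw + (-c) • w) z
      rw [ds_l2a] at h6
      rw [ds_l2b] at h7
      linear_combination h4 - (a + c) * h5 - h6 - h7
    · have h4 := k3 z hz
      rw [dt_add_left] at h4
      have h5 := hk.e3 z hz
      have h6 := ds_u3 (T := T) (F := F) ph R (du + (-a) • u) v z
      have h7 := ds_u3 (T := T) (F := F) ph R u (dv + (-b) • v) z
      rw [ds_l3a] at h6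
      rw [ds_l3b] at h7
      linear_combination h4 - (a + b) * h5 - h6 - h7
    · have h4 := hd.e4 ht
      have h5 := hk.e4 ht
      simp only [Pi.add_apply, Pi.smul_apply, smul_eq_mul]
      linear_combination h4 - (a + b + c) * h5
    · obtain ⟨h4, h5⟩ := hk.ek ht
      rw [kt ht, kt' ht, h4, h5]
      simp
    · rw [Pi.add_apply, Pi.smul_apply, hv1, smul_eq_mul, ← hb]
      ring
    · rw [Pi.add_apply, Pi.smul_apply, hw1, smul_eq_mul, ← hc]
      ring)
  have hx1 : ∀ o : Option (Fin (N + 1) ⊕ Fin 4), (o.elim ((R : ℂ) * (du + (-a) • u) ph)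
      (eD (Function.update (du + (-a) • u) ph 0) (dM - (a + c) * M)
      (dM' - (a + b) * M') (dκ - (a + c) * κ) (dκ' - (a + b) * κ')) : ℂ) = 0 :=
    fun o => congrFun (congrArg Prod.fst hx) o
  have hx2 : dv + (-b) • v = 0 := congrArg (fun y => y.2.1) hx
  have hx3 : dw + (-c) • w = 0 := congrArg (fun y => y.2.2) hx
  have h4 : (R : ℂ) * (du + (-a) • u) ph = 0 := hx1 none
  have h5 := (mul_eq_zero.1 h4).resolve_left hRc
  refine ⟨a, b, c, ?_, ?_, ?_, ?_, ?_⟩
  · funext k
    have h6 : (du + (-a) • u) k = 0 := by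
      by_cases h' : k = ph
      · rw [h', h5]
      · have h7 : Function.update (du + (-a) • u) ph 0 k = 0 := hx1 (some (Sum.inl k))
        rwa [Function.update_of_ne h'] at h7
    rw [neg_smul, ← sub_eq_add_neg, Pi.sub_apply] at h6
    exact sub_eq_zero.1 h6
  · rw [neg_smul, ← sub_eq_add_neg] at hx2
    exact sub_eq_zero.1 hx2
  · rw [neg_smul, ← sub_eq_add_neg] at hx3
    exact sub_eq_zero.1 hx3
  · exact sub_eq_zero.1 (hx1 (some (Sum.inr 0)))
  · exact sub_eq_zero.1 (hx1 (some (Sum.inr 1)))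

theorem syD_sm : (syD P T t p k0 ib ic).Sm := by
  refine ⟨?_, ?_, ?_, ?_, ?_, ?_⟩
  · refine contDiff_pi.2 fun b => ?_
    simp only [syD, c2]
    fun_prop
  · refine contDiff_pi.2 fun c => ?_
    simp only [syD, c3]
    fun_prop
  · refine contDiff_pi.2 fun k => ?_
    rcases k with a | k
    · simp only [syD, c1, Sum.elim_inl]
      split_ifs
      · fun_prop
      · fun_prop
      · fun_prop
    · fin_cases k
      · cases t
        · simp [syD]
          fun_prop
        · simp [syD]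
          fun_prop
      · cases t
        · simp [syD]
          fun_prop
        · simp [syD]
          fun_prop
      · simp [syD]
        fun_prop
      · simp [syD]
        fun_prop
      · simp [syD]
        fun_prop
  · intro x
    funext b
    change c2 T (cj fun a => x.1 (Sum.inl a)) (cj x.2.2) b
        + starRingEnd ℂ (x.1 (Sum.inr 0)) * (hv P n2 b : ℂ)
        - starRingEnd ℂ (x.1 (Sum.inr 2)) * (if b = 0 then 1 else 0)
      = starRingEnd ℂ (c2 T (fun a => x.1 (Sum.inl a)) x.2.2 b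
        + x.1 (Sum.inr 0) * (hv P n2 b : ℂ) - x.1 (Sum.inr 2) * (if b = 0 then 1 else 0))
    rw [MPb0eR.c2_cj, map_sub, map_add, map_mul, map_mul, Complex.conj_ofReal]
    split_ifs <;> simp
  · intro x
    funext b
    change c3 T (cj fun a => x.1 (Sum.inl a)) (cj x.2.1) b
        + starRingEnd ℂ (x.1 (Sum.inr 1)) * (hv P n3 b : ℂ)
        - starRingEnd ℂ (x.1 (Sum.inr 3)) * (if b = 0 then 1 else 0)
      = starRingEnd ℂ (c3 T (fun a => x.1 (Sum.inl a)) x.2.1 b
        + x.1 (Sum.inr 1) * (hv P n3 b : ℂ) - x.1 (Sum.inr 3) * (if b = 0 then 1 else 0))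
    rw [MPb0eR.c3_cj, map_sub, map_add, map_mul, map_mul, Complex.conj_ofReal]
    split_ifs <;> simp
  · intro x
    funext k
    rcases k with a | k
    · change (if a ∈ SR N false p then c1 T (cj x.2.1) (cj x.2.2) a
          else if a ∈ SR N t p then 0 else starRingEnd ℂ (x.1 (Sum.inl a)))
        = starRingEnd ℂ (if a ∈ SR N false p then c1 T x.2.1 x.2.2 a
          else if a ∈ SR N t p then 0 else x.1 (Sum.inl a))
      rw [MPb0eR.c1_cj]
      split_ifs
      · rfl
      · rw [map_zero]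
      · rfl
    · fin_cases k
      · cases t
        · simp [syD, cj3, cj]
        · simp [syD, cj3, cj]
      · cases t
        · simp [syD, cj3, cj]
        · simp [syD, cj3, cj]
      · simp [syD, cj3, cj]
      · simp [syD, cj3, cj]
      · simp [syD, cj3, cj]

theorem syD_sol :
    (syD P T t p k0 ib ic).Sol (Xo P n2 (if t then 1 else 0) i) (Xo P n3 (if t then 1 else 0) j)
      (eD u M M' κ κ', v, w) ↔
    DK P T t p i j u v w M M' κ κ' ∧ v ib = 1 ∧ w ic = 1 ∧ eD u M M' κ κ' k0 = 1 := by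
  constructor
  · intro h
    obtain ⟨g1, g2, g3, g4, g5, g6, g7⟩ := ds_g0.1 h.eg
    refine ⟨⟨g1, h.sv, h.sw, g2, fun z hz => ?_, fun z hz => ?_, g3, g4⟩, g5, g6, g7⟩
    · have h1 := h.ea z hz
      rw [ds_dta] at h1
      exact sub_eq_zero.1 h1
    · have h1 := h.eb z hz
      rw [ds_dtb] at h1
      exact sub_eq_zero.1 h1
  · rintro ⟨h, g5, g6, g7⟩
    refine ⟨h.sv, h.sw, fun z hz => ?_, fun z hz => ?_,
      ds_g0.2 ⟨h.su, h.e1, h.e4, h.ek, g5, g6, g7⟩⟩
    · rw [ds_dta]
      exact sub_eq_zero.2 (h.e2 z hz)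
    · rw [ds_dtb]
      exact sub_eq_zero.2 (h.e3 z hz)

theorem syD_ext :
    ((syD P T t p k0 ib ic).ext F).Sol (Xo P n2 (if t then 1 else 0) i)
      (Xo P n3 (if t then 1 else 0) j) (fun o => o.elim r (eD u M M' κ κ'), v, w) ↔
    DKr P T F t p i j u v w M M' κ κ' r ∧ v ib = 1 ∧ w ic = 1 ∧ eD u M M' κ κ' k0 = 1 := by
  have ea : ∀ z : Fin (n2 + 1) → ℂ, dt (((syD P T t p k0 ib ic).ext F).a
      (fun o => o.elim r (eD u M M' κ κ'), v, w)) z
      = dt (c2 T u w) z + r * bf F z w + M * pr (hv P n2) z - κ * z 0 := fun z => by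
    change dt ((syD P T t p k0 ib ic).a (eD u M M' κ κ', v, w) + r • bfB F w) z = _
    rw [dt_add_left, dt_smul_left, dt_bfB, ds_dta]
    change dt (c2 T u w) z + M * pr (hv P n2) z - κ * z 0 + r * bf F z w = _
    ring
  have eb : ∀ z : Fin (n3 + 1) → ℂ, dt (((syD P T t p k0 ib ic).ext F).b
      (fun o => o.elim r (eD u M M' κ κ'), v, w)) z
      = dt (c3 T u v) z + r * bf F v z + M' * pr (hv P n3) z - κ' * z 0 := fun z => by
    change dt ((syD P T t p k0 ib ic).b (eD u M M' κ κ', v, w) + r • bfC F v) z = _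
    rw [dt_add_left, dt_smul_left, dt_bfC, ds_dtb]
    change dt (c3 T u v) z + M' * pr (hv P n3) z - κ' * z 0 + r * bf F v z = _
    ring
  constructor
  · intro h
    have h0 : bf F v w = 0 := congrFun h.eg none
    have hs : (syD P T t p k0 ib ic).g (eD u M M' κ κ', v, w) = 0 := by
      funext k
      exact congrFun h.eg (some k)
    obtain ⟨g1, g2, g3, g4, g5, g6, g7⟩ := ds_g0.1 hs
    refine ⟨⟨g1, h.sv, h.sw, g2, h0, fun z hz => ?_, fun z hz => ?_, g3, g4⟩, g5, g6, g7⟩
    · have h1 := h.ea z hz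
      rw [ea] at h1
      exact sub_eq_zero.1 h1
    · have h1 := h.eb z hz
      rw [eb] at h1
      exact sub_eq_zero.1 h1
  · rintro ⟨h, g5, g6, g7⟩
    refine ⟨h.sv, h.sw, fun z hz => ?_, fun z hz => ?_, ?_⟩
    · rw [ea]
      exact sub_eq_zero.2 (h.e2 z hz)
    · rw [eb]
      exact sub_eq_zero.2 (h.e3 z hz)
    · funext k
      cases k with
      | none => exact h.e0
      | some k =>
        exact congrFun ((ds_g0 (P := P)).2 ⟨h.su, h.e1, h.e4, h.ek, g5, g6, g7⟩) k

/-- A normalised solution with `OkDX` is real. Proof: `v, w` are real (normalised), so the factors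
`b, c` of `OkDX.re` are real; `a u`, `a M`, `a M'` are real, and `a κ`, `a κ'` are real by `DK.rel`
(`t = false`, `v 0, w 0 ≠ 0`; for `t = true` they are zero); the entry `k0` is one, so `a` is real.
-/
theorem syD_re (h : DK P T t p i j u v w M M' κ κ') (hN : NvD t u v w M M')
    (ho : OkDX P T t p i j u v w M M') (h1 : v ib = 1) (h2 : w ic = 1)
    (h3 : eD u M M' κ κ' k0 = 1) :
    Rea u ∧ Rea v ∧ Rea w ∧ M.im = 0 ∧ M'.im = 0 ∧ κ.im = 0 ∧ κ'.im = 0 := by
  obtain ⟨a, b, c, ha, hb, hc, ru, rv, rw', rM, rM'⟩ := ho.re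
  obtain ⟨hv0, hw0, hM0, hM0', hf, ht⟩ := hN
  have key : ∀ {x y : ℂ}, x.im = 0 → x ≠ 0 → (x * y).im = 0 → y.im = 0 := by
    intro x y hx hx0 hxy
    rw [Complex.mul_im, hx, zero_mul, add_zero] at hxy
    refine (mul_eq_zero.1 hxy).resolve_left fun h' => hx0 (Complex.ext h' hx)
  have hb' : b.im = 0 := by
    have := rv ib
    rwa [Pi.smul_apply, h1, smul_eq_mul, mul_one] at this
  have hc' : c.im = 0 := by
    have := rw' ic
    rwa [Pi.smul_apply, h2, smul_eq_mul, mul_one] at this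
  have hv' : Rea v := fun k => key hb' hb (rv k)
  have hw' : Rea w := fun k => key hc' hc (rw' k)
  have haM : (a * M).im = 0 := key hc' hc (by rw [← rM]; congr 1; ring)
  have haM' : (a * M').im = 0 := key hb' hb (by rw [← rM']; congr 1; ring)
  have mulre : ∀ {x y : ℂ}, x.im = 0 → y.im = 0 → (x * y).im = 0 := by
    intro x y hx hy
    rw [Complex.mul_im, hx, hy, mul_zero, zero_mul, add_zero]
  obtain ⟨hr0, hr1⟩ := h.rel
  have haκ : (a * κ).im = 0 ∧ (a * κ').im = 0 := by
    cases t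
    · obtain ⟨h4, h5⟩ := hr0 rfl
      obtain ⟨h6, h7⟩ := hf rfl
      constructor
      · refine key (hv' 0) h6 ?_
        have e : v 0 * (a * κ) = a * M * pr (hv P n2) v := by
          linear_combination (-a) * h4
        rw [e]
        exact mulre haM (pr_re _ hv')
      · refine key (hw' 0) h7 ?_
        have e : w 0 * (a * κ') = a * M' * pr (hv P n3) w := by
          linear_combination (-a) * h5
        rw [e]
        exact mulre haM' (pr_re _ hw')
    · obtain ⟨h4, h5⟩ := h.ek rfl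
      rw [h4, h5, mul_zero]
      exact ⟨rfl, rfl⟩
  have ha' : a.im = 0 := by
    have hall : ∀ k, (a * eD u M M' κ κ' k).im = 0 := by
      intro k
      rcases k with k | k
      · exact ru k
      · fin_cases k
        · exact haM
        · exact haM'
        · exact haκ.1
        · exact haκ.2
    have := hall k0
    rwa [h3, mul_one] at this
  exact ⟨fun k => key ha' ha (ru k), hv', hw', key ha' ha haM, key ha' ha haM',
    key ha' ha haκ.1, key ha' ha haκ.2⟩

/-- The kernel of the normalised system is trivial at a solution with `OkDX`. Proof: a kernel vector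
gives `KDX` (restrict the tests to `Xo 1`), so `du = a u` and so on; the normalisations of `v`, `w`
give `dv = 0`, `dw = 0`, `b = c = 0` may be assumed (`v, w ≠ 0`); `dM = a M`, `dM' = a M'`, `dκ = a
κ`,
`dκ' = a κ'` (from the linearised equation with the test vector `v`: `dM pr h v = dκ v 0`); the
entry `k0`
gives `a = 0`. -/
theorem syD_nd (h : DK P T t p i j u v w M M' κ κ') (hN : NvD t u v w M M')
    (ho : OkDX P T t p i j u v w M M') (h1 : v ib = 1) (h2 : w ic = 1)
    (h3 : eD u M M' κ κ' k0 = 1) :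
    (syD P T t p k0 ib ic).Nd (Xo P n2 (if t then 1 else 0) i) (Xo P n3 (if t then 1 else 0) j)
      (eD u M M' κ κ', v, w) := by
  rintro ⟨e, dv, dw⟩ hK
  obtain ⟨du, dM, dM', dκ, dκ', rfl⟩ := ds_eD e
  have hg : ∀ k, ds_g T t p k0 ib ic (eD u M M' κ κ', v, w) (eD du dM dM' dκ dκ', dv, dw) k
      = 0 := fun k => by
    have e1 := hasDerivAt_pi.1 hK.eg k
    exact (ds_dg (P := P) (eD u M M' κ κ', v, w) (eD du dM dM' dκ dκ', dv, dw) k).unique e1
  obtain ⟨g1, g2, g3, g4, g5, g6, g7⟩ := ds_gk.1 hg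
  have e2 : ∀ z ∈ Xo P n2 (if t then 1 else 0) i,
      dt (c2 T du w) z + dt (c2 T u dw) z + dM * pr (hv P n2) z - dκ * z 0 = 0 := fun z hz =>
    (ds_da (eD u M M' κ κ', v, w) (eD du dM dM' dκ dκ', dv, dw) z).unique (hK.ea z hz)
  have e3 : ∀ z ∈ Xo P n3 (if t then 1 else 0) j,
      dt (c3 T du v) z + dt (c3 T u dv) z + dM' * pr (hv P n3) z - dκ' * z 0 = 0 := fun z hz =>
    (ds_db (eD u M M' κ κ', v, w) (eD du dM dM' dκ dκ', dv, dw) z).unique (hK.eb z hz)
  have hX : ∀ {n : ℕ} {i : ℕ → ℕ} {z : Fin (n + 1) → ℂ}, z ∈ Xo P n 1 i →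
      z ∈ Xo P n (if t then 1 else 0) i ∧ z 0 = 0 := by
    intro n i z hz
    have h0 : z 0 = 0 := (mem_XM.1 hz.1).1 (by decide)
    refine ⟨?_, h0⟩
    cases t
    · refine ⟨mem_XM.2 ⟨fun h' => absurd rfl h', fun h' => absurd h' (by decide)⟩, hz.2⟩
    · exact hz
  have hKD : KDX P T t p i j u v w M M' du dv dw dM dM' := by
    refine ⟨g1, hK.sv, hK.sw, g2, fun z hz => ?_, fun z hz => ?_, g3⟩
    · have h4 := e2 z (hX hz).1
      rwa [(hX hz).2, mul_zero, sub_zero] at h4
    · have h4 := e3 z (hX hz).1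
      rwa [(hX hz).2, mul_zero, sub_zero] at h4
  obtain ⟨a, b, c, hu, hv', hw', hM, hM'⟩ := ho.nd _ _ _ _ _ hKD
  have hb : b = 0 := by
    have := congrFun hv' ib
    rwa [g5, Pi.smul_apply, h1, smul_eq_mul, mul_one, eq_comm] at this
  have hc : c = 0 := by
    have := congrFun hw' ic
    rwa [g6, Pi.smul_apply, h2, smul_eq_mul, mul_one, eq_comm] at this
  rw [hb, zero_smul] at hv'
  rw [hc, zero_smul] at hw'
  rw [hc, add_zero] at hM
  rw [hb, add_zero] at hM'
  have hκ : dκ = a * κ ∧ dκ' = a * κ' := by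
    cases t
    · obtain ⟨h6, h7⟩ := hN.2.2.2.2.1 rfl
      have ev := e2 v h.sv
      have ew := e3 w h.sw
      have fv := h.e2 v h.sv
      have fw := h.e3 w h.sw
      have z2 : dt (c2 T u dw) v = 0 := by
        rw [hw']
        have : c2 T u (0 : Fin (n3 + 1) → ℂ) = 0 := by
          funext b
          exact MPb0eR.c2_zero_right T u b
        rw [this]
        simp [dt]
      have z3 : dt (c3 T u dv) w = 0 := by
        rw [hv']
        have : c3 T u (0 : Fin (n2 + 1) → ℂ) = 0 := by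
          funext b
          exact MPb0eR.c3_zero_right T u b
        rw [this]
        simp [dt]
      have y2 : dt (c2 T du w) v = a * dt (c2 T u w) v := by
        have : c2 T du w = a • c2 T u w := by
          funext b
          rw [hu, MPb0eR.c2_smul_left]
          rfl
        rw [this, dt_smul_left]
      have y3 : dt (c3 T du v) w = a * dt (c3 T u v) w := by
        have : c3 T du v = a • c3 T u v := by
          funext b
          rw [hu, MPb0eR.c3_smul_left]
          rfl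
        rw [this, dt_smul_left]
      rw [z2, y2, hM] at ev
      rw [z3, y3, hM'] at ew
      refine ⟨mul_right_cancel₀ h6 ?_, mul_right_cancel₀ h7 ?_⟩
      · linear_combination a * fv - ev
      · linear_combination a * fw - ew
    · obtain ⟨h6, h7⟩ := g4 rfl
      obtain ⟨h8, h9⟩ := h.ek rfl
      rw [h6, h7, h8, h9, mul_zero]
      exact ⟨rfl, rfl⟩
  have hall : ∀ k, eD du dM dM' dκ dκ' k = a * eD u M M' κ κ' k := by
    intro k
    rcases k with k | k
    · exact congrFun hu k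
    · fin_cases k
      · exact hM
      · exact hM'
      · exact hκ.1
      · exact hκ.2
  have ha : a = 0 := by
    have := hall k0
    rwa [g7, h3, mul_one, eq_comm] at this
  have he : eD du dM dM' dκ dκ' = 0 := by
    funext k
    rw [hall k, ha, zero_mul]
    rfl
  rw [he, hv', hw']
  rfl

/-- Back: from the extended system to `OkDX` for the tensor with the row `p` (`R > 0`).

Proof. `re`: take `a = b = c = 1`. `nd`: let `(du, dv, dw, dM, dM')` be in `KDX` for the updated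
tensor.
For `t = false` there are `dκ, dκ'` (the linearised functional vanishes on `Xo 1 i`; `v 0 ≠ 0`).
Subtract
the scaling vectors (`DKr.smul`) such that `dv ib = 0`, `dw ic = 0` and the entry `k0` of
`(du, dM, dM', dκ, dκ')` vanishes; the rest is in the kernel of the extended system (`dr = R du p`),
so it is zero. -/
theorem syD_back (h1 : 1 ≤ p) (hp : p ≤ N) {R : ℝ} (hR : 0 < R)
    (hk : DK P (Function.update T (Fin.ofNat (N + 1) p) (fun b c => R * F b c)) t (p + 1) i j
      u v w M M' κ κ') (hN : NvD t u v w M M') (hv : v ib = 1) (hw : w ic = 1)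
    (h3 : eD (Function.update u (Fin.ofNat (N + 1) p) 0) M M' κ κ' k0 = 1)
    (hre : Rea u ∧ Rea v ∧ Rea w ∧ M.im = 0 ∧ M'.im = 0)
    (hnd : ((syD P T t p k0 ib ic).ext F).Nd (Xo P n2 (if t then 1 else 0) i)
      (Xo P n3 (if t then 1 else 0) j) (fun o => o.elim (R * u (Fin.ofNat (N + 1) p))
        (eD (Function.update u (Fin.ofNat (N + 1) p) 0) M M' κ κ'), v, w)) :
    OkDX P (Function.update T (Fin.ofNat (N + 1) p) (fun b c => R * F b c)) t (p + 1) i j u v w
      M M' := by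
  have hval : ((Fin.ofNat (N + 1) p : Fin (N + 1)) : ℕ) = p := Nat.mod_eq_of_lt (by omega)
  obtain ⟨hr, -⟩ := (dk_upd h1 hp hR).1 hk
  have hS : ∀ (t : Bool) (a : Fin (N + 1)), a ∈ SR N t (p + 1) ↔
      a = Fin.ofNat (N + 1) p ∨ a ∈ SR N t p := by
    intro t a
    unfold SR
    rw [Finset.mem_filter, Finset.mem_filter]
    constructor
    · rintro ⟨h4, h5, h6⟩
      rcases Nat.lt_succ_iff_lt_or_eq.1 h6 with h7 | h7
      · exact Or.inr ⟨h4, h5, h7⟩
      · exact Or.inl (Fin.ext (h7.trans hval.symm))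
    · rintro (h4 | ⟨h4, h5, h6⟩)
      · subst h4
        refine ⟨Finset.mem_univ _, Or.inr fun h5 => ?_, by omega⟩
        have h6 := congrArg Fin.val h5
        rw [hval, Fin.val_zero] at h6
        omega
      · exact ⟨h4, h5, by omega⟩
  have hn : ∀ t : Bool, Fin.ofNat (N + 1) p ∉ SR N t p := by
    intro t h4
    have h5 := (Finset.mem_filter.1 h4).2.2
    omega
  refine ⟨⟨1, 1, 1, one_ne_zero, one_ne_zero, one_ne_zero, ?_, ?_, ?_, ?_, ?_⟩,
    fun du dv dw dM dM' hd => ds_back hR hS hn hk hr.e0 hN hv hw h3 hnd hd⟩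
  · rw [one_smul]
    exact hre.1
  · rw [one_smul]
    exact hre.2.1
  · rw [one_smul]
    exact hre.2.2.1
  · rw [one_mul, one_mul]
    exact hre.2.2.2.1
  · rw [one_mul, one_mul]
    exact hre.2.2.2.2

end

end Pool.Agent.MPb0eK
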