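import Mathlib
import Pool.Agent.Lib.MP_b0e20b_ag_K.P3

/-!
# MP_b0e20b_ag, project K: the sign conditions pass from the limit to the sequence
-/

set_option autoImplicit false

open scoped BigOperators Topology
open Filter

namespace Pool.Agent.MPb0eK

open MPb0eR (c1 c2 c3 tr q Sup Rl Rea uf Nrm cj AF scl)

/-- The sign conditions apart from those at the node `p₀`. -/
structure ObN (P : Par) (p₀ n2 n3 : ℕ) (full : Bool) (x y : Fin 3) (i j : ℕ → ℕ)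
    (v : Fin (n2 + 1) → ℂ) (w : Fin (n3 + 1) → ℂ) (gB : Fin (n2 + 1) → ℂ)
    (gC : Fin (n3 + 1) → ℂ) (σ G : ℂ) : Prop where
  oB : ∀ p, p ≠ p₀ → i p ≠ 0 → ∀ z ∈ Xo P n2 x (dn i p), Rea z →
    pr (tau P n2 (P.g p) (i p - 1)) z = 1 →
    (dt gB z * pr (tau P n2 (P.g p) (i p)) v * σ).re < 0
  oC : ∀ p, p ≠ p₀ → j p ≠ 0 → ∀ z ∈ Xo P n3 y (dn j p), Rea z →
    pr (tau P n3 (P.g p) (j p - 1)) z = 1 →
    (dt gC z * pr (tau P n3 (P.g p) (j p)) w * σ).re < 0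
  s2 : full = false → x = 1 → y ≠ 2 → ∀ z ∈ Xo P n2 0 i, Rea z → z 0 = 1 →
    0 < (dt gB z * σ * pr (hv P n2) v).re
  s1 : full = false → y = 1 → x ≠ 2 → ∀ z ∈ Xo P n3 0 j, Rea z → z 0 = 1 →
    0 < (dt gC z * σ * pr (hv P n3) w).re
  g0 : full = false → x = 1 → y = 1 → G ≠ 0
  t2 : full = false → x = 2 → y = 1 → ∀ z ∈ Xo P n2 1 i, Rea z → pr (hv P n2) z = 1 →
    ∀ z' ∈ Xo P n3 0 j, Rea z' → z' 0 = 1 → (dt gB z * dt gC z' * G).re < 0
  t3 : full = false → x = 1 → y = 2 → ∀ z ∈ Xo P n2 0 i, Rea z → z 0 = 1 →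
    ∀ z' ∈ Xo P n3 1 j, Rea z' → pr (hv P n3) z' = 1 → (dt gB z * dt gC z' * G).re < 0
  t1 : full = true → x = 1 → y = 1 → 0 < (G * pr (hv P n2) v * pr (hv P n3) w).re

theorem Ob.obN {P : Par} {n2 n3 : ℕ} {full : Bool} {x y : Fin 3} {i j : ℕ → ℕ}
    {v : Fin (n2 + 1) → ℂ} {w : Fin (n3 + 1) → ℂ} {gB : Fin (n2 + 1) → ℂ}
    {gC : Fin (n3 + 1) → ℂ} {σ G : ℂ} (h : Ob P n2 n3 full x y i j v w gB gC σ G) (p₀ : ℕ) :
    ObN P p₀ n2 n3 full x y i j v w gB gC σ G :=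
  ⟨fun p _ => h.oB p, fun p _ => h.oC p, h.s2, h.s1, h.g0, h.t2, h.t3, h.t1⟩

section

variable {P : Par} {N : ℕ}

private theorem obL_mono {n : ℕ} {x : Fin 3} {i i' : ℕ → ℕ} (h : ∀ q, i q ≤ i' q)
    {z : Fin (n + 1) → ℂ} (hz : z ∈ Xo P n x i') : z ∈ Xo P n x i :=
  ⟨hz.1, fun q l hl => hz.2 q l (lt_of_lt_of_le hl (h q))⟩

private theorem obL_sub {A : Type} [Fintype A] (x y z : A → ℂ) :
    dt x (y - z) = dt x y - dt x z := by
  simp only [dt, Pi.sub_apply, mul_sub, Finset.sum_sub_distrib]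

private theorem obL_pr {A : Type} [Fintype A] (f : A → ℝ) {v : ℕ → A → ℂ} {v0 : A → ℂ}
    (lv : Tendsto v uf (𝓝 v0)) : Tendsto (fun n => pr f (v n)) uf (𝓝 (pr f v0)) := by
  have h : Continuous fun x : A → ℂ => pr f x := by
    unfold pr
    fun_prop
  exact (h.tendsto v0).comp lv

private theorem obL_re {f : ℕ → ℂ} {f0 : ℂ} (h : Tendsto f uf (𝓝 f0)) :
    Tendsto (fun n => (f n).re) uf (𝓝 f0.re) :=
  (Complex.continuous_re.tendsto f0).comp h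

private theorem obL_eq {n : ℕ} {x : Fin 3} {i : ℕ → ℕ} {g z z' : Fin (n + 1) → ℂ}
    (vB : ∀ z ∈ Xo P n x i, dt g z = 0) (h : z - z' ∈ Xo P n x i) : dt g z = dt g z' := by
  have h1 := vB _ h
  rw [obL_sub] at h1
  exact sub_eq_zero.1 h1

private theorem obL_N {i : ℕ → ℕ} {p k : ℕ} (hi : Adm (p + 1) N i) (hp : p ≤ N) :
    ∀ q, N < q → at' i p k q = 0 := by
  intro q hq
  rw [at', Function.update_of_ne (by omega)]
  by_contra h
  exact absurd (hi q h).2 (by omega)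

private theorem obL_ne {i : ℕ → ℕ} {p p' : ℕ} (hi : Adm (p + 1) N i) (hp' : i p' ≠ 0) :
    p' ≠ p := by
  have := (hi p' hp').1
  omega

private theorem obL_p0 {i : ℕ → ℕ} {p : ℕ} (hi : Adm (p + 1) N i) : i p = 0 := by
  by_contra h
  have := (hi p h).1
  omega

private theorem obL_le {i : ℕ → ℕ} {p k : ℕ} (hi : Adm (p + 1) N i) (q : ℕ) :
    i q ≤ at' i p k q := by
  by_cases h : q = p
  · rw [h, obL_p0 hi]
    exact Nat.zero_le _
  · rw [at', Function.update_of_ne h]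

private theorem obL_dn {i : ℕ → ℕ} {p p' k : ℕ} (hi : Adm (p + 1) N i) (q : ℕ) :
    dn i p' q ≤ dn (at' i p k) p' q := by
  by_cases h : q = p'
  · rw [h, dn, dn, Function.update_self, Function.update_self]
    exact Nat.sub_le_sub_right (obL_le hi p') 1
  · rw [dn, dn, Function.update_of_ne h, Function.update_of_ne h]
    exact obL_le hi q

private theorem obL_ord {n : ℕ} {x : Fin 3} {i : ℕ → ℕ} {p p' k : ℕ} (hi : Adm (p + 1) N i)
    (hp' : i p' ≠ 0) {z : Fin (n + 1) → ℂ} (hz : z ∈ Xo P n x (dn (at' i p k) p')) :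
    ∀ l, l < k → pr (tau P n (P.g p) l) z = 0 := by
  intro l hl
  apply hz.2 p l
  rw [dn, Function.update_of_ne (obL_ne hi hp').symm, at', Function.update_self]
  exact hl

private theorem obL_ord0 {n : ℕ} {x : Fin 3} {i : ℕ → ℕ} {p k : ℕ} {z : Fin (n + 1) → ℂ}
    (hz : z ∈ Xo P n x (at' i p k)) : ∀ l, l < k → pr (tau P n (P.g p) l) z = 0 := by
  intro l hl
  apply hz.2 p l
  rw [at', Function.update_self]
  exact hl

/-- One node condition. -/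
private theorem obL_ev (hP : GoodP P N) {m : ℕ} {x : Fin 3} {i : ℕ → ℕ} {p' : ℕ}
    (hp' : i p' ≠ 0) {z0 : Fin (m + 1) → ℂ} (hz0 : z0 ∈ Xo P m x (dn i p'))
    (h1 : pr (tau P m (P.g p') (i p' - 1)) z0 = 1) {gB v : ℕ → Fin (m + 1) → ℂ}
    {gB0 v0 : Fin (m + 1) → ℂ} {σ : ℕ → ℂ} {σ0 : ℂ}
    (vB : ∀ n, ∀ z ∈ Xo P m x i, dt (gB n) z = 0) (lv : Tendsto v uf (𝓝 v0))
    (lσ : Tendsto σ uf (𝓝 σ0)) (lz : Tendsto (fun n => dt (gB n) z0) uf (𝓝 (dt gB0 z0)))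
    (h : (dt gB0 z0 * pr (tau P m (P.g p') (i p')) v0 * σ0).re < 0) :
    ∀ᶠ n in uf, ∀ z ∈ Xo P m x (dn i p'), pr (tau P m (P.g p') (i p' - 1)) z = 1 →
      (dt (gB n) z * pr (tau P m (P.g p') (i p')) (v n) * σ n).re < 0 := by
  have hl := obL_re ((lz.mul (obL_pr (tau P m (P.g p') (i p')) lv)).mul lσ)
  filter_upwards [hl.eventually (gt_mem_nhds h)] with n hn z hz hz1
  have hd := tst_diff hP m x hp' (fun q hq => hP.inj hq.symm) hz hz0 (by rw [hz1, h1])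
  rw [obL_eq (vB n) hd]
  exact hn

/-- The node conditions for all nodes. -/
private theorem obL_all (hP : GoodP P N) {m : ℕ} {x : Fin 3} {i : ℕ → ℕ} {p k : ℕ}
    (hi : Adm (p + 1) N i)
    (ex : ∀ p', i p' ≠ 0 → ∃ z ∈ Xo P m x (dn (at' i p k) p'), Rea z ∧
      pr (tau P m (P.g p') (at' i p k p' - 1)) z = 1) {gB v : ℕ → Fin (m + 1) → ℂ}
    {gB0 v0 : Fin (m + 1) → ℂ} {σ : ℕ → ℂ} {σ0 : ℂ}
    (vB : ∀ n, ∀ z ∈ Xo P m x i, dt (gB n) z = 0) (lv : Tendsto v uf (𝓝 v0))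
    (lσ : Tendsto σ uf (𝓝 σ0))
    (lB : ∀ z : Fin (m + 1) → ℂ, (∀ l, l < k → pr (tau P m (P.g p) l) z = 0) →
      Tendsto (fun n => dt (gB n) z) uf (𝓝 (dt gB0 z)))
    (h : ∀ p', p' ≠ p → at' i p k p' ≠ 0 → ∀ z ∈ Xo P m x (dn (at' i p k) p'), Rea z →
      pr (tau P m (P.g p') (at' i p k p' - 1)) z = 1 →
      (dt gB0 z * pr (tau P m (P.g p') (at' i p k p')) v0 * σ0).re < 0) :
    ∀ᶠ n in uf, ∀ p', i p' ≠ 0 → ∀ z ∈ Xo P m x (dn i p'), Rea z →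
      pr (tau P m (P.g p') (i p' - 1)) z = 1 →
      (dt (gB n) z * pr (tau P m (P.g p') (i p')) (v n) * σ n).re < 0 := by
  have key : ∀ᶠ n in uf, ∀ p' ∈ Finset.range (N + 1), i p' ≠ 0 →
      ∀ z ∈ Xo P m x (dn i p'), pr (tau P m (P.g p') (i p' - 1)) z = 1 →
      (dt (gB n) z * pr (tau P m (P.g p') (i p')) (v n) * σ n).re < 0 := by
    rw [Filter.eventually_all_finset]
    intro p' _
    by_cases hp' : i p' = 0
    · exact Filter.Eventually.of_forall fun n h => absurd hp' h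
    · obtain ⟨z0, hz0, hr, h1⟩ := ex p' hp'
      have e1 : at' i p k p' = i p' := Function.update_of_ne (obL_ne hi hp') _ _
      have h2 := h p' (obL_ne hi hp') (by rw [e1]; exact hp') z0 hz0 hr h1
      rw [e1] at h1 h2
      filter_upwards [obL_ev hP hp' (obL_mono (obL_dn hi) hz0) h1 vB lv lσ
        (lB z0 (obL_ord hi hp' hz0)) h2] with n hn _
      exact hn
  filter_upwards [key] with n hn p' hp' z hz _ hz1
  exact hn p' (Finset.mem_range.2 (Nat.lt_succ_of_le (hi p' hp').2)) hp' z hz hz1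

/-- `ob_lim` without the sign conditions of the limit at the node `p` (they are not needed, because
`i p = j p = 0`). -/
theorem ob_limN (hP : GoodP P N) {n2 n3 : ℕ} {full : Bool} {x y : Fin 3} {i j : ℕ → ℕ} {p : ℕ}
    (hi : Adm (p + 1) N i) (hj : Adm (p + 1) N j) (hp : p ≤ N) {k k' : ℕ}
    {v : ℕ → Fin (n2 + 1) → ℂ} {w : ℕ → Fin (n3 + 1) → ℂ} {gB : ℕ → Fin (n2 + 1) → ℂ}
    {gC : ℕ → Fin (n3 + 1) → ℂ} {σ G : ℕ → ℂ} {v0 : Fin (n2 + 1) → ℂ} {w0 : Fin (n3 + 1) → ℂ}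
    {gB0 : Fin (n2 + 1) → ℂ} {gC0 : Fin (n3 + 1) → ℂ} {σ0 G0 : ℂ}
    (bB : Xo P n2 x (at' i p k) ≠ ⊥) (bC : Xo P n3 y (at' j p k') ≠ ⊥)
    (vB : ∀ n, ∀ z ∈ Xo P n2 x i, dt (gB n) z = 0) (vC : ∀ n, ∀ z ∈ Xo P n3 y j, dt (gC n) z = 0)
    (lv : Tendsto v uf (𝓝 v0)) (lw : Tendsto w uf (𝓝 w0)) (lσ : Tendsto σ uf (𝓝 σ0))
    (lG : Tendsto G uf (𝓝 G0))
    (lB : ∀ z : Fin (n2 + 1) → ℂ, (∀ l, l < k → pr (tau P n2 (P.g p) l) z = 0) →
      Tendsto (fun n => dt (gB n) z) uf (𝓝 (dt gB0 z)))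
    (lC : ∀ z : Fin (n3 + 1) → ℂ, (∀ l, l < k' → pr (tau P n3 (P.g p) l) z = 0) →
      Tendsto (fun n => dt (gC n) z) uf (𝓝 (dt gC0 z)))
    (h : ObN P p n2 n3 full x y (at' i p k) (at' j p k') v0 w0 gB0 gC0 σ0 G0) :
    ∀ᶠ n in uf, Ob P n2 n3 full x y i j (v n) (w n) (gB n) (gC n) (σ n) (G n) := by
  have eB : ∀ p', i p' ≠ 0 → ∃ z ∈ Xo P n2 x (dn (at' i p k) p'), Rea z ∧
      pr (tau P n2 (P.g p') (at' i p k p' - 1)) z = 1 := fun p' hp' =>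
    tst_p hP n2 x (obL_N hi hp) bB (by rw [at', Function.update_of_ne (obL_ne hi hp')]; exact hp')
  have eC : ∀ p', j p' ≠ 0 → ∃ z ∈ Xo P n3 y (dn (at' j p k') p'), Rea z ∧
      pr (tau P n3 (P.g p') (at' j p k' p' - 1)) z = 1 := fun p' hp' =>
    tst_p hP n3 y (obL_N hj hp) bC (by rw [at', Function.update_of_ne (obL_ne hj hp')]; exact hp')
  have hoB := obL_all hP hi eB vB lv lσ lB h.oB
  have hoC := obL_all hP hj eC vC lw lσ lC h.oC
  have hvv := obL_pr (hv P n2) lv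
  have hww := obL_pr (hv P n3) lw
  have hs2 : ∀ᶠ n in uf, full = false → x = 1 → y ≠ 2 → ∀ z ∈ Xo P n2 0 i, Rea z → z 0 = 1 →
      0 < (dt (gB n) z * σ n * pr (hv P n2) (v n)).re := by
    by_cases hc : full = false ∧ x = 1 ∧ y ≠ 2
    · obtain ⟨h1, rfl, h3⟩ := hc
      obtain ⟨z0, hz0, hr, hz1⟩ := tst_0 hP n2 (obL_N hi hp) bB
      have hl := obL_re (((lB z0 (obL_ord0 hz0)).mul lσ).mul hvv)
      filter_upwards [hl.eventually (lt_mem_nhds (h.s2 h1 rfl h3 z0 hz0 hr hz1))]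
        with n hn _ _ _ z hz _ hz2
      rw [obL_eq (vB n) (tst_diff0 n2 hz (obL_mono (obL_le hi) hz0) (by rw [hz2, hz1]))]
      exact hn
    · exact Filter.Eventually.of_forall fun n a b c => absurd ⟨a, b, c⟩ hc
  have hs1 : ∀ᶠ n in uf, full = false → y = 1 → x ≠ 2 → ∀ z ∈ Xo P n3 0 j, Rea z → z 0 = 1 →
      0 < (dt (gC n) z * σ n * pr (hv P n3) (w n)).re := by
    by_cases hc : full = false ∧ y = 1 ∧ x ≠ 2
    · obtain ⟨h1, rfl, h3⟩ := hc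
      obtain ⟨z0, hz0, hr, hz1⟩ := tst_0 hP n3 (obL_N hj hp) bC
      have hl := obL_re (((lC z0 (obL_ord0 hz0)).mul lσ).mul hww)
      filter_upwards [hl.eventually (lt_mem_nhds (h.s1 h1 rfl h3 z0 hz0 hr hz1))]
        with n hn _ _ _ z hz _ hz2
      rw [obL_eq (vC n) (tst_diff0 n3 hz (obL_mono (obL_le hj) hz0) (by rw [hz2, hz1]))]
      exact hn
    · exact Filter.Eventually.of_forall fun n a b c => absurd ⟨a, b, c⟩ hc
  have hg0 : ∀ᶠ n in uf, full = false → x = 1 → y = 1 → G n ≠ 0 := by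
    by_cases hc : full = false ∧ x = 1 ∧ y = 1
    · obtain ⟨h1, h2, h3⟩ := hc
      filter_upwards [lG.eventually_ne (h.g0 h1 h2 h3)] with n hn _ _ _
      exact hn
    · exact Filter.Eventually.of_forall fun n a b c => absurd ⟨a, b, c⟩ hc
  have ht2 : ∀ᶠ n in uf, full = false → x = 2 → y = 1 → ∀ z ∈ Xo P n2 1 i, Rea z →
      pr (hv P n2) z = 1 → ∀ z' ∈ Xo P n3 0 j, Rea z' → z' 0 = 1 →
      (dt (gB n) z * dt (gC n) z' * G n).re < 0 := by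
    by_cases hc : full = false ∧ x = 2 ∧ y = 1
    · obtain ⟨h1, rfl, rfl⟩ := hc
      obtain ⟨z0, hz0, hr, hz1⟩ := tst_h hP n2 (obL_N hi hp) bB
      obtain ⟨z0', hz0', hr', hz1'⟩ := tst_0 hP n3 (obL_N hj hp) bC
      have hl := obL_re (((lB z0 (obL_ord0 hz0)).mul (lC z0' (obL_ord0 hz0'))).mul lG)
      filter_upwards [hl.eventually (gt_mem_nhds
        (h.t2 h1 rfl rfl z0 hz0 hr hz1 z0' hz0' hr' hz1'))] with n hn _ _ _ z hz _ hz2 z' hz' _ hz2'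
      rw [obL_eq (vB n) (tst_diffh n2 hz (obL_mono (obL_le hi) hz0) (by rw [hz2, hz1])),
        obL_eq (vC n) (tst_diff0 n3 hz' (obL_mono (obL_le hj) hz0') (by rw [hz2', hz1']))]
      exact hn
    · exact Filter.Eventually.of_forall fun n a b c => absurd ⟨a, b, c⟩ hc
  have ht3 : ∀ᶠ n in uf, full = false → x = 1 → y = 2 → ∀ z ∈ Xo P n2 0 i, Rea z → z 0 = 1 →
      ∀ z' ∈ Xo P n3 1 j, Rea z' → pr (hv P n3) z' = 1 →
      (dt (gB n) z * dt (gC n) z' * G n).re < 0 := by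
    by_cases hc : full = false ∧ x = 1 ∧ y = 2
    · obtain ⟨h1, rfl, rfl⟩ := hc
      obtain ⟨z0, hz0, hr, hz1⟩ := tst_0 hP n2 (obL_N hi hp) bB
      obtain ⟨z0', hz0', hr', hz1'⟩ := tst_h hP n3 (obL_N hj hp) bC
      have hl := obL_re (((lB z0 (obL_ord0 hz0)).mul (lC z0' (obL_ord0 hz0'))).mul lG)
      filter_upwards [hl.eventually (gt_mem_nhds
        (h.t3 h1 rfl rfl z0 hz0 hr hz1 z0' hz0' hr' hz1'))] with n hn _ _ _ z hz _ hz2 z' hz' _ hz2'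
      rw [obL_eq (vB n) (tst_diff0 n2 hz (obL_mono (obL_le hi) hz0) (by rw [hz2, hz1])),
        obL_eq (vC n) (tst_diffh n3 hz' (obL_mono (obL_le hj) hz0') (by rw [hz2', hz1']))]
      exact hn
    · exact Filter.Eventually.of_forall fun n a b c => absurd ⟨a, b, c⟩ hc
  have ht1 : ∀ᶠ n in uf, full = true → x = 1 → y = 1 →
      0 < (G n * pr (hv P n2) (v n) * pr (hv P n3) (w n)).re := by
    by_cases hc : full = true ∧ x = 1 ∧ y = 1
    · obtain ⟨h1, h2, h3⟩ := hc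
      have hl := obL_re ((lG.mul hvv).mul hww)
      filter_upwards [hl.eventually (lt_mem_nhds (h.t1 h1 h2 h3))] with n hn _ _ _
      exact hn
    · exact Filter.Eventually.of_forall fun n a b c => absurd ⟨a, b, c⟩ hc
  filter_upwards [hoB, hoC, hs2, hs1, hg0, ht2, ht3, ht1] with n a1 a2 a3 a4 a5 a6 a7 a8
  exact ⟨a1, a2, a3, a4, a5, a6, a7, a8⟩

/-- Limits of the sign conditions. `gB n` vanishes on `Xo x i` and tends to `gB0` on all vectors of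
order
`≥ k` at the node `p`; if the limit satisfies `Ob` for the orders `k`, `k'` at the node `p`, then
the
sequence satisfies `Ob` eventually.

Proof. For each of the finitely many conditions (the nodes `p'` with `i p' ≠ 0` satisfy
`p < p' ≤ N`) choose by `tst_p`, `tst_0`, `tst_h` (for the orders `at' i p k`) fixed real test
vectors `z`;
these are also test vectors for `i`. For any other test vector `z'` for `i`, `z' - z ∈ Xo x i`
(`tst_diff` ...), so `dt (gB n) z' = dt (gB n) z → dt gB0 z`. The conditions are strict inequalities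
between continuous functions of the converging numbers, so they hold eventually (the number of
conditions is finite, and the conditions for general test vectors reduce to the chosen ones).
(`dn (at' i p k) p' = at' (dn i p') p k`, and `pr (tau ..) v`, `pr (hv ..) v` are continuous in
`v`.) -/
theorem ob_lim (hP : GoodP P N) {n2 n3 : ℕ} {full : Bool} {x y : Fin 3} {i j : ℕ → ℕ} {p : ℕ}
    (hi : Adm (p + 1) N i) (hj : Adm (p + 1) N j) (hp : p ≤ N) {k k' : ℕ}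
    {v : ℕ → Fin (n2 + 1) → ℂ} {w : ℕ → Fin (n3 + 1) → ℂ} {gB : ℕ → Fin (n2 + 1) → ℂ}
    {gC : ℕ → Fin (n3 + 1) → ℂ} {σ G : ℕ → ℂ} {v0 : Fin (n2 + 1) → ℂ} {w0 : Fin (n3 + 1) → ℂ}
    {gB0 : Fin (n2 + 1) → ℂ} {gC0 : Fin (n3 + 1) → ℂ} {σ0 G0 : ℂ}
    (bB : Xo P n2 x (at' i p k) ≠ ⊥) (bC : Xo P n3 y (at' j p k') ≠ ⊥)
    (vB : ∀ n, ∀ z ∈ Xo P n2 x i, dt (gB n) z = 0) (vC : ∀ n, ∀ z ∈ Xo P n3 y j, dt (gC n) z = 0)
    (lv : Tendsto v uf (𝓝 v0)) (lw : Tendsto w uf (𝓝 w0)) (lσ : Tendsto σ uf (𝓝 σ0))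
    (lG : Tendsto G uf (𝓝 G0))
    (lB : ∀ z : Fin (n2 + 1) → ℂ, (∀ l, l < k → pr (tau P n2 (P.g p) l) z = 0) →
      Tendsto (fun n => dt (gB n) z) uf (𝓝 (dt gB0 z)))
    (lC : ∀ z : Fin (n3 + 1) → ℂ, (∀ l, l < k' → pr (tau P n3 (P.g p) l) z = 0) →
      Tendsto (fun n => dt (gC n) z) uf (𝓝 (dt gC0 z)))
    (h : Ob P n2 n3 full x y (at' i p k) (at' j p k') v0 w0 gB0 gC0 σ0 G0) :
    ∀ᶠ n in uf, Ob P n2 n3 full x y i j (v n) (w n) (gB n) (gC n) (σ n) (G n) :=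
  ob_limN hP hi hj hp bB bC vB vC lv lw lσ lG lB lC (h.obN p)

/-- Test vectors of the mask `1` at a node, from the mask `0`. -/
private theorem obL_tst1 (hP : GoodP P N) (n : ℕ) {i : ℕ → ℕ} (hi : ∀ p, N < p → i p = 0)
    (h : Xo P n 0 i ≠ ⊥) {p : ℕ} (hp : i p ≠ 0) :
    ∃ z ∈ Xo P n 1 (dn i p), Rea z ∧ pr (tau P n (P.g p) (i p - 1)) z = 1 := by
  classical
  have hpN : p ≤ N := by
    by_contra hc
    exact hp (hi p (by omega))
  have hdg : dg N 0 i ≤ n := by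
    by_contra hc
    exact h (Xo_bot hP n 0 hi (by omega))
  have hmem : p ∈ Finset.range (N + 1) := Finset.mem_range.2 (by omega)
  have h0 : at' i p 0 p = 0 := Function.update_self _ _ _
  have hi' : ∀ q, N < q → at' i p 0 q = 0 := by
    intro q hq
    rw [at', Function.update_of_ne (by omega)]
    exact hi q hq
  obtain ⟨z, hz⟩ := flag hP n 1 hi' hpN h0
  have hD : i p - 1 < n + 1 - dg N 1 (at' i p 0) := by
    have e1 : ∑ q ∈ Finset.range (N + 1), at' i p 0 q =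
        0 + ∑ q ∈ Finset.range (N + 1) \ {p}, i q := Finset.sum_update_of_mem hmem i 0
    have e2 := Finset.sum_eq_sum_sdiff_singleton_add hmem i
    rw [dg] at hdg ⊢
    rw [e2] at hdg
    rw [e1]
    have e3 : ((0 : Fin 3) : ℕ) = 0 := rfl
    have e4 : ((1 : Fin 3) : ℕ) = 1 := rfl
    rw [e3] at hdg
    rw [e4]
    omega
  refine ⟨fun b => (z (i p - 1) b : ℂ), ?_, ?_, ?_⟩
  · have h1 := hz.mem (i p - 1) hD
    refine ⟨h1.1, fun q l hl => ?_⟩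
    by_cases hq : q = p
    · subst hq
      rw [dn, Function.update_self] at hl
      rw [hz.dual l (i q - 1) (by omega) hD, if_neg (by omega)]
    · rw [dn, Function.update_of_ne hq] at hl
      apply h1.2 q l
      rw [at', Function.update_of_ne hq]
      exact hl
  · intro b
    exact Complex.ofReal_im _
  · rw [hz.dual _ _ hD hD, if_pos rfl]

/-- The same for the D types. -/
theorem obD_lim (hP : GoodP P N) {n2 n3 : ℕ} {i j : ℕ → ℕ} {p : ℕ}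
    (hi : Adm (p + 1) N i) (hj : Adm (p + 1) N j) (hp : p ≤ N) {k k' : ℕ}
    {v : ℕ → Fin (n2 + 1) → ℂ} {w : ℕ → Fin (n3 + 1) → ℂ} {gB : ℕ → Fin (n2 + 1) → ℂ}
    {gC : ℕ → Fin (n3 + 1) → ℂ} {η η' : ℕ → ℂ} {v0 : Fin (n2 + 1) → ℂ} {w0 : Fin (n3 + 1) → ℂ}
    {gB0 : Fin (n2 + 1) → ℂ} {gC0 : Fin (n3 + 1) → ℂ} {η0 η0' : ℂ}
    (bB : Xo P n2 0 (at' i p k) ≠ ⊥) (bC : Xo P n3 0 (at' j p k') ≠ ⊥)
    (vB : ∀ n, ∀ z ∈ Xo P n2 1 i, dt (gB n) z = 0) (vC : ∀ n, ∀ z ∈ Xo P n3 1 j, dt (gC n) z = 0)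
    (lv : Tendsto v uf (𝓝 v0)) (lw : Tendsto w uf (𝓝 w0)) (lη : Tendsto η uf (𝓝 η0))
    (lη' : Tendsto η' uf (𝓝 η0'))
    (lB : ∀ z : Fin (n2 + 1) → ℂ, (∀ l, l < k → pr (tau P n2 (P.g p) l) z = 0) →
      Tendsto (fun n => dt (gB n) z) uf (𝓝 (dt gB0 z)))
    (lC : ∀ z : Fin (n3 + 1) → ℂ, (∀ l, l < k' → pr (tau P n3 (P.g p) l) z = 0) →
      Tendsto (fun n => dt (gC n) z) uf (𝓝 (dt gC0 z)))
    (h : ObD P n2 n3 (at' i p k) (at' j p k') v0 w0 gB0 gC0 η0 η0') :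
    ∀ᶠ n in uf, ObD P n2 n3 i j (v n) (w n) (gB n) (gC n) (η n) (η' n) := by
  have eB : ∀ p', i p' ≠ 0 → ∃ z ∈ Xo P n2 1 (dn (at' i p k) p'), Rea z ∧
      pr (tau P n2 (P.g p') (at' i p k p' - 1)) z = 1 := fun p' hp' =>
    obL_tst1 hP n2 (obL_N hi hp) bB (by rw [at', Function.update_of_ne (obL_ne hi hp')]; exact hp')
  have eC : ∀ p', j p' ≠ 0 → ∃ z ∈ Xo P n3 1 (dn (at' j p k') p'), Rea z ∧
      pr (tau P n3 (P.g p') (at' j p k' p' - 1)) z = 1 := fun p' hp' =>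
    obL_tst1 hP n3 (obL_N hj hp) bC (by rw [at', Function.update_of_ne (obL_ne hj hp')]; exact hp')
  have hoB := obL_all hP hi eB vB lv lη lB fun p' _ => h.oB p'
  have hoC := obL_all hP hj eC vC lw lη' lC fun p' _ => h.oC p'
  have hh := (obL_re (lη.mul lη')).eventually (lt_mem_nhds h.hh)
  filter_upwards [hoB, hoC, hh] with n a1 a2 a3
  exact ⟨a1, a2, a3⟩

/-- Homogeneity of the sign conditions. -/
theorem Ob.scale {n2 n3 : ℕ} {full : Bool} {x y : Fin 3} {i j : ℕ → ℕ} {v : Fin (n2 + 1) → ℂ}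
    {w : Fin (n3 + 1) → ℂ} {gB : Fin (n2 + 1) → ℂ} {gC : Fin (n3 + 1) → ℂ} {σ G : ℂ} {R : ℝ}
    (hR : 0 < R) (h : Ob P n2 n3 full x y i j v w gB gC σ G) :
    Ob P n2 n3 full x y i j v w ((R : ℂ) • gB) ((R : ℂ) • gC) (R * σ) G := by
  have hdt : ∀ {m : ℕ} (g z : Fin (m + 1) → ℂ), dt ((R : ℂ) • g) z = (R : ℂ) * dt g z := by
    intro m g z
    simp only [dt, Pi.smul_apply, smul_eq_mul, Finset.mul_sum, mul_assoc]
  have hR2 : (0 : ℝ) < R ^ 2 := pow_pos hR 2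
  have hre : ∀ a : ℂ, (((R ^ 2 : ℝ) : ℂ) * a).re = R ^ 2 * a.re :=
    fun a => Complex.re_ofReal_mul _ _
  have hneg : ∀ {a b : ℂ}, b.re < 0 → a = ((R ^ 2 : ℝ) : ℂ) * b → a.re < 0 := by
    intro a b hb hab
    rw [hab, hre]
    exact mul_neg_of_pos_of_neg hR2 hb
  have hpos : ∀ {a b : ℂ}, 0 < b.re → a = ((R ^ 2 : ℝ) : ℂ) * b → 0 < a.re := by
    intro a b hb hab
    rw [hab, hre]
    exact mul_pos hR2 hb
  refine ⟨fun p hp z hz hr h1 => hneg (h.oB p hp z hz hr h1) ?_,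
    fun p hp z hz hr h1 => hneg (h.oC p hp z hz hr h1) ?_,
    fun a b c z hz hr h1 => hpos (h.s2 a b c z hz hr h1) ?_,
    fun a b c z hz hr h1 => hpos (h.s1 a b c z hz hr h1) ?_, h.g0,
    fun a b c z hz hr h1 z' hz' hr' h1' => hneg (h.t2 a b c z hz hr h1 z' hz' hr' h1') ?_,
    fun a b c z hz hr h1 z' hz' hr' h1' => hneg (h.t3 a b c z hz hr h1 z' hz' hr' h1') ?_, h.t1⟩
  all_goals
    simp only [hdt]
    push_cast
    ring

end

end Pool.Agent.MPb0eK
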