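import Mathlib
import Pool.Agent.Lib.MP_b0e20b_ag_K.FA
import Pool.Agent.Lib.MP_b0e20b_ag_K.Rig

/-!
# MP_b0e20b_ag, project K: the general scaling lemma behind `ra_eq` and `ra_up`
-/

set_option autoImplicit false

open scoped BigOperators Topology
open Filter

namespace Pool.Agent.MPb0eK

open MPb0eR (c1 c2 c3 tr q Sup Rl Rea uf Nrm cj AF scl)

section

variable {I K B C : Type} [Fintype I] [Fintype K] [Fintype B] [Fintype C]

/-- The vector with the coordinates `s l * x l`. -/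
def RaG_vec {D : ℕ} (z : ℕ → B → ℝ) (s : Fin D → ℝ) (x : Fin D → ℂ) : B → ℂ :=
  fun b => ∑ l : Fin D, ((s l : ℂ) * x l) * (z l b : ℂ)

/-- The matrix of the form `F`. -/
def RaG_G (F : B → C → ℝ) (zX : ℕ → B → ℝ) (zY : ℕ → C → ℝ) (i j : ℕ) : ℝ :=
  ∑ b, ∑ c, F b c * (zX i b * zY j c)

/-- The point with the scaled coordinates. -/
def RaG_pt {DX DY : ℕ} (zX : ℕ → B → ℝ) (zY : ℕ → C → ℝ) (s : Fin DX → ℝ) (t : Fin DY → ℝ)
    (u : (I → ℂ) × (Fin DX → ℂ) × (Fin DY → ℂ) × ℂ) : (I → ℂ) × (B → ℂ) × (C → ℂ) :=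
  (u.1, RaG_vec zX s u.2.1, RaG_vec zY t u.2.2.1)

/-- The scaled system. -/
def RaG_F (S : Sy I K B C) {DX DY : ℕ} (zX : ℕ → B → ℝ) (zY : ℕ → C → ℝ)
    (w : ((Fin DX → ℝ) × (Fin DY → ℝ) × (Fin DX → Fin DY → ℝ) × (Fin DX → Fin DY → ℝ) ×
      (Fin DX → Fin DY → ℝ)) × ((I → ℂ) × (Fin DX → ℂ) × (Fin DY → ℂ) × ℂ)) :
    (Fin DX → ℂ) × (Fin DY → ℂ) × ℂ × (K → ℂ) :=
  (fun i => dt (S.a (RaG_pt zX zY w.1.1 w.1.2.1 w.2)) (fun b => (zX i b : ℂ))
      + w.2.2.2.2 * ∑ j, (w.1.2.2.1 i j : ℂ) * w.2.2.2.1 j,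
   fun j => dt (S.b (RaG_pt zX zY w.1.1 w.1.2.1 w.2)) (fun c => (zY j c : ℂ))
      + w.2.2.2.2 * ∑ i, (w.1.2.2.2.1 i j : ℂ) * w.2.2.1 i,
   ∑ i, ∑ j, (w.1.2.2.2.2 i j : ℂ) * (w.2.2.1 i * w.2.2.2.1 j),
   S.g (RaG_pt zX zY w.1.1 w.1.2.1 w.2))

theorem RaG_vec_bf_left {D : ℕ} (F : B → C → ℝ) (z : ℕ → B → ℝ) (s : Fin D → ℝ) (x : Fin D → ℂ)
    (w : C → ℂ) : bf F (RaG_vec z s x) w
      = ∑ l : Fin D, ((s l : ℂ) * x l) * bf F (fun b => (z l b : ℂ)) w := by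
  unfold bf RaG_vec
  simp only [Finset.mul_sum, Finset.sum_mul]
  rw [Finset.sum_comm]
  have h1 : ∀ b : B, (∑ c, ∑ l : Fin D, (F b c : ℂ) * ((s l : ℂ) * x l * (z l b : ℂ) * w c))
      = ∑ l : Fin D, ∑ c, (F b c : ℂ) * ((s l : ℂ) * x l * (z l b : ℂ) * w c) := fun b =>
    Finset.sum_comm
  rw [Finset.sum_comm]
  simp only [h1]
  rw [Finset.sum_comm]
  refine Finset.sum_congr rfl fun l _ => Finset.sum_congr rfl fun b _ =>
    Finset.sum_congr rfl fun c _ => by ring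

theorem RaG_vec_bf_right {D : ℕ} (F : B → C → ℝ) (z : ℕ → C → ℝ) (s : Fin D → ℝ) (x : Fin D → ℂ)
    (v : B → ℂ) : bf F v (RaG_vec z s x)
      = ∑ l : Fin D, ((s l : ℂ) * x l) * bf F v (fun c => (z l c : ℂ)) := by
  unfold bf RaG_vec
  simp only [Finset.mul_sum]
  have h1 : ∀ b : B, (∑ c, ∑ l : Fin D, (F b c : ℂ) * (v b * ((s l : ℂ) * x l * (z l c : ℂ))))
      = ∑ l : Fin D, ∑ c, (F b c : ℂ) * (v b * ((s l : ℂ) * x l * (z l c : ℂ))) := fun b =>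
    Finset.sum_comm
  simp only [h1]
  rw [Finset.sum_comm]
  refine Finset.sum_congr rfl fun l _ => Finset.sum_congr rfl fun b _ =>
    Finset.sum_congr rfl fun c _ => by ring

theorem RaG_G_bf (F : B → C → ℝ) (zX : ℕ → B → ℝ) (zY : ℕ → C → ℝ) (i j : ℕ) :
    bf F (fun b => (zX i b : ℂ)) (fun c => (zY j c : ℂ)) = (RaG_G F zX zY i j : ℂ) := by
  unfold bf RaG_G
  push_cast
  rfl

theorem RaG_gen {X : Submodule ℂ (B → ℂ)} {D : ℕ} {φ z : ℕ → B → ℝ} (hX : Flag X D φ z)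
    {s : Fin D → ℝ} (hs : ∀ i, s i ≠ 0) {v : B → ℂ} (hv : v ∈ X) :
    RaG_vec z s (fun i : Fin D => pr (φ i) v / (s i : ℂ)) = v := by
  conv_rhs => rw [hX.gen v hv]
  funext b
  unfold RaG_vec
  rw [Finset.sum_apply, Finset.sum_range]
  refine Finset.sum_congr rfl fun i _ => ?_
  have h1 : (s i : ℂ) ≠ 0 := by exact_mod_cast hs i
  rw [Pi.smul_apply, smul_eq_mul]
  field_simp

theorem RaG_vec_cj {D : ℕ} (z : ℕ → B → ℝ) (s : Fin D → ℝ) (x : Fin D → ℂ) :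
    RaG_vec z s (cj x) = cj (RaG_vec z s x) := by
  funext b
  unfold RaG_vec cj
  rw [map_sum]
  refine Finset.sum_congr rfl fun l _ => ?_
  rw [map_mul, map_mul, Complex.conj_ofReal, Complex.conj_ofReal]

theorem RaG_vec_add {D : ℕ} (z : ℕ → B → ℝ) (s : Fin D → ℝ) (x y : Fin D → ℂ) (τ : ℝ) :
    RaG_vec z s (x + τ • y) = RaG_vec z s x + τ • RaG_vec z s y := by
  funext b
  unfold RaG_vec
  simp only [Pi.add_apply, Pi.smul_apply, Finset.smul_sum, Complex.real_smul]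
  rw [← Finset.sum_add_distrib]
  exact Finset.sum_congr rfl fun l _ => by ring

/-- The scaled coordinates. -/
noncomputable def RaG_sc {DX DY : ℕ} (φ : ℕ → B → ℝ) (ψ : ℕ → C → ℝ) (s : Fin DX → ℝ)
    (t : Fin DY → ℝ) (ρ : ℝ) (P : (Option I → ℂ) × (B → ℂ) × (C → ℂ)) :
    (I → ℂ) × (Fin DX → ℂ) × (Fin DY → ℂ) × ℂ :=
  (fun k => P.1 (some k), fun i => pr (φ i) P.2.1 / (s i : ℂ),
    fun j => pr (ψ j) P.2.2 / (t j : ℂ), P.1 none / (ρ : ℂ))

/-- The parameters. -/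
def RaG_z {DX DY : ℕ} (F : B → C → ℝ) (zX : ℕ → B → ℝ) (zY : ℕ → C → ℝ) (s : Fin DX → ℝ)
    (t : Fin DY → ℝ) (ρ κ : ℝ) : (Fin DX → ℝ) × (Fin DY → ℝ) × (Fin DX → Fin DY → ℝ) ×
      (Fin DX → Fin DY → ℝ) × (Fin DX → Fin DY → ℝ) :=
  (s, t, fun i j => ρ * RaG_G F zX zY i j * t j, fun i j => ρ * RaG_G F zX zY i j * s i,
    fun i j => κ * (s i * t j * RaG_G F zX zY i j))

theorem RaG_key (S : Sy I K B C) {X : Submodule ℂ (B → ℂ)} {Y : Submodule ℂ (C → ℂ)} {DX DY : ℕ}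
    {φ zX : ℕ → B → ℝ} {ψ zY : ℕ → C → ℝ} (hX : Flag X DX φ zX) (hY : Flag Y DY ψ zY)
    (F : B → C → ℝ) {s : Fin DX → ℝ} {t : Fin DY → ℝ} {ρ κ : ℝ} (hs : ∀ i, s i ≠ 0)
    (ht : ∀ j, t j ≠ 0) (hρ : ρ ≠ 0) {P : (Option I → ℂ) × (B → ℂ) × (C → ℂ)}
    (hv : P.2.1 ∈ X) (hw : P.2.2 ∈ Y) :
    RaG_F S zX zY (RaG_z F zX zY s t ρ κ, RaG_sc φ ψ s t ρ P)
      = (fun i : Fin DX => dt ((S.ext F).a P) (fun b => (zX i b : ℂ)),
        fun j : Fin DY => dt ((S.ext F).b P) (fun c => (zY j c : ℂ)),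
        (κ : ℂ) * (S.ext F).g P none, fun k => (S.ext F).g P (some k)) := by
  classical
  have hρ' : (ρ : ℂ) ≠ 0 := by exact_mod_cast hρ
  have hs' : ∀ i, (s i : ℂ) ≠ 0 := fun i => by exact_mod_cast hs i
  have ht' : ∀ i, (t i : ℂ) ≠ 0 := fun i => by exact_mod_cast ht i
  have hV := RaG_gen hX hs hv
  have hW := RaG_gen hY ht hw
  have hpt : RaG_pt zX zY s t (RaG_sc φ ψ s t ρ P) = (fun k => P.1 (some k), P.2) := by
    unfold RaG_pt RaG_sc
    simp only [hV, hW]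
  have hdt : ∀ (x y z : B → ℂ) (r : ℂ), dt (x + r • y) z = dt x z + r * dt y z := by
    intro x y z r
    unfold dt
    rw [Finset.mul_sum, ← Finset.sum_add_distrib]
    refine Finset.sum_congr rfl fun b _ => ?_
    simp only [Pi.add_apply, Pi.smul_apply, smul_eq_mul]
    ring
  have hdt' : ∀ (x y z : C → ℂ) (r : ℂ), dt (x + r • y) z = dt x z + r * dt y z := by
    intro x y z r
    unfold dt
    rw [Finset.mul_sum, ← Finset.sum_add_distrib]
    refine Finset.sum_congr rfl fun b _ => ?_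
    simp only [Pi.add_apply, Pi.smul_apply, smul_eq_mul]
    ring
  unfold RaG_F RaG_z
  simp only
  refine Prod.ext ?_ (Prod.ext ?_ (Prod.ext ?_ ?_))
  · funext i
    change dt (S.a (RaG_pt zX zY s t (RaG_sc φ ψ s t ρ P))) _ + _
      = dt (S.a (fun k => P.1 (some k), P.2) + P.1 none • bfB F P.2.2) _
    rw [hpt, hdt, dt_bfB]
    congr 1
    conv_rhs => rw [← hW, RaG_vec_bf_right]
    simp only [RaG_G_bf, RaG_sc, Finset.mul_sum]
    refine Finset.sum_congr rfl fun j _ => ?_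
    push_cast
    field_simp [ht' j]
  · funext j
    change dt (S.b (RaG_pt zX zY s t (RaG_sc φ ψ s t ρ P))) _ + _
      = dt (S.b (fun k => P.1 (some k), P.2) + P.1 none • bfC F P.2.1) _
    rw [hpt, hdt', dt_bfC]
    congr 1
    conv_rhs => rw [← hV, RaG_vec_bf_left]
    simp only [RaG_G_bf, RaG_sc, Finset.mul_sum]
    refine Finset.sum_congr rfl fun i _ => ?_
    push_cast
    field_simp [hs' i]
  · change _ = (κ : ℂ) * bf F P.2.1 P.2.2
    conv_rhs => rw [← hV, RaG_vec_bf_left]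
    simp only [RaG_sc, Finset.mul_sum]
    refine Finset.sum_congr rfl fun i _ => ?_
    conv_rhs => rw [← hW, RaG_vec_bf_right]
    simp only [RaG_G_bf, Finset.mul_sum]
    refine Finset.sum_congr rfl fun j _ => ?_
    push_cast
    ring
  · change S.g (RaG_pt zX zY s t (RaG_sc φ ψ s t ρ P)) = fun k => S.g (fun k => P.1 (some k), P.2) k
    rw [hpt]

private theorem RaG_smooth {S : Sy I K B C} (hS : S.Sm) {DX DY : ℕ} (zX : ℕ → B → ℝ)
    (zY : ℕ → C → ℝ) : ContDiff ℝ 1 (RaG_F (DX := DX) (DY := DY) S zX zY) := by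
  have hof : ContDiff ℝ 1 (fun x : ℝ => (x : ℂ)) := Complex.ofRealCLM.contDiff
  have ha := hS.ha
  have hb := hS.hb
  have hg := hS.hg
  have hpt : ContDiff ℝ 1 (fun w : ((Fin DX → ℝ) × (Fin DY → ℝ) × (Fin DX → Fin DY → ℝ) ×
      (Fin DX → Fin DY → ℝ) × (Fin DX → Fin DY → ℝ)) ×
      ((I → ℂ) × (Fin DX → ℂ) × (Fin DY → ℂ) × ℂ) => RaG_pt zX zY w.1.1 w.1.2.1 w.2) := by
    unfold RaG_pt RaG_vec
    refine ContDiff.prodMk (by fun_prop) (ContDiff.prodMk ?_ ?_)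
    · refine contDiff_pi.2 fun b => ContDiff.sum fun l _ => ?_
      refine ContDiff.mul (ContDiff.mul (hof.comp ?_) ?_) contDiff_const
      · fun_prop
      · fun_prop
    · refine contDiff_pi.2 fun b => ContDiff.sum fun l _ => ?_
      refine ContDiff.mul (ContDiff.mul (hof.comp ?_) ?_) contDiff_const
      · fun_prop
      · fun_prop
  unfold RaG_F
  refine ContDiff.prodMk ?_ (ContDiff.prodMk ?_ (ContDiff.prodMk ?_ (hg.comp hpt)))
  · refine contDiff_pi.2 fun i => ContDiff.add ?_ (ContDiff.mul (by fun_prop) ?_)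
    · unfold dt
      refine ContDiff.sum fun b _ => ContDiff.mul ?_ contDiff_const
      exact (contDiff_pi.1 (ha.comp hpt)) b
    · refine ContDiff.sum fun j _ => ContDiff.mul (hof.comp ?_) ?_
      · fun_prop
      · fun_prop
  · refine contDiff_pi.2 fun i => ContDiff.add ?_ (ContDiff.mul (by fun_prop) ?_)
    · unfold dt
      refine ContDiff.sum fun b _ => ContDiff.mul ?_ contDiff_const
      exact (contDiff_pi.1 (hb.comp hpt)) b
    · refine ContDiff.sum fun j _ => ContDiff.mul (hof.comp ?_) ?_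
      · fun_prop
      · fun_prop
  · refine ContDiff.sum fun i _ => ContDiff.sum fun j _ => ContDiff.mul (hof.comp ?_) ?_
    · fun_prop
    · fun_prop

/-- The conjugate of the scaled unknowns. -/
def RaG_cj {DX DY : ℕ} (u : (I → ℂ) × (Fin DX → ℂ) × (Fin DY → ℂ) × ℂ) :
    (I → ℂ) × (Fin DX → ℂ) × (Fin DY → ℂ) × ℂ :=
  (cj u.1, cj u.2.1, cj u.2.2.1, starRingEnd ℂ u.2.2.2)

private theorem RaG_cj_cont {DX DY : ℕ} :
    Continuous (RaG_cj (I := I) (DX := DX) (DY := DY)) := by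
  unfold RaG_cj cj
  refine Continuous.prodMk ?_ (Continuous.prodMk ?_ (Continuous.prodMk ?_ ?_))
  · exact continuous_pi fun i => Complex.continuous_conj.comp (by fun_prop)
  · exact continuous_pi fun i => Complex.continuous_conj.comp (by fun_prop)
  · exact continuous_pi fun i => Complex.continuous_conj.comp (by fun_prop)
  · exact Complex.continuous_conj.comp (by fun_prop)

private theorem RaG_dt_cj (x : B → ℂ) (z : B → ℝ) :
    dt (cj x) (fun b => (z b : ℂ)) = starRingEnd ℂ (dt x fun b => (z b : ℂ)) := by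
  unfold dt cj
  rw [map_sum]
  refine Finset.sum_congr rfl fun b _ => ?_
  rw [map_mul, Complex.conj_ofReal]

private theorem RaG_F_cj {S : Sy I K B C} (hS : S.Sm) {DX DY : ℕ} (zX : ℕ → B → ℝ)
    (zY : ℕ → C → ℝ) (z : (Fin DX → ℝ) × (Fin DY → ℝ) × (Fin DX → Fin DY → ℝ) ×
      (Fin DX → Fin DY → ℝ) × (Fin DX → Fin DY → ℝ))
    (u : (I → ℂ) × (Fin DX → ℂ) × (Fin DY → ℂ) × ℂ) (h : RaG_F S zX zY (z, u) = 0) :
    RaG_F S zX zY (z, RaG_cj u) = 0 := by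
  have hpt : RaG_pt zX zY z.1 z.2.1 (RaG_cj u) = cj3 (RaG_pt zX zY z.1 z.2.1 u) := by
    unfold RaG_pt RaG_cj cj3
    simp only [RaG_vec_cj]
  have h1 : ∀ i : Fin DX, dt (S.a (RaG_pt zX zY z.1 z.2.1 u)) (fun b => (zX i b : ℂ))
      + u.2.2.2 * ∑ j, (z.2.2.1 i j : ℂ) * u.2.2.1 j = 0 := fun i => by
    have := congrFun (congrArg Prod.fst h) i
    exact this
  have h2 : ∀ j : Fin DY, dt (S.b (RaG_pt zX zY z.1 z.2.1 u)) (fun b => (zY j b : ℂ))
      + u.2.2.2 * ∑ i, (z.2.2.2.1 i j : ℂ) * u.2.1 i = 0 := fun i => by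
    have := congrFun (congrArg (fun x => x.2.1) h) i
    exact this
  have h3 : ∑ i, ∑ j, (z.2.2.2.2 i j : ℂ) * (u.2.1 i * u.2.2.1 j) = 0 :=
    congrArg (fun x => x.2.2.1) h
  have h4 : S.g (RaG_pt zX zY z.1 z.2.1 u) = 0 := congrArg (fun x => x.2.2.2) h
  unfold RaG_F
  refine Prod.ext ?_ (Prod.ext ?_ (Prod.ext ?_ ?_))
  · funext i
    change dt (S.a (RaG_pt zX zY z.1 z.2.1 (RaG_cj u))) (fun b => (zX i b : ℂ))
      + starRingEnd ℂ u.2.2.2 * ∑ j, (z.2.2.1 i j : ℂ) * starRingEnd ℂ (u.2.2.1 j) = 0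
    rw [hpt, hS.ca, RaG_dt_cj]
    have h5 := congrArg (starRingEnd ℂ) (h1 i)
    rw [map_add, map_mul, map_sum, map_zero] at h5
    simpa only [map_mul, Complex.conj_ofReal] using h5
  · funext i
    change dt (S.b (RaG_pt zX zY z.1 z.2.1 (RaG_cj u))) (fun b => (zY i b : ℂ))
      + starRingEnd ℂ u.2.2.2 * ∑ j, (z.2.2.2.1 j i : ℂ) * starRingEnd ℂ (u.2.1 j) = 0
    rw [hpt, hS.cb, RaG_dt_cj]
    have h5 := congrArg (starRingEnd ℂ) (h2 i)
    rw [map_add, map_mul, map_sum, map_zero] at h5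
    simpa only [map_mul, Complex.conj_ofReal] using h5
  · change ∑ i, ∑ j, (z.2.2.2.2 i j : ℂ) * (starRingEnd ℂ (u.2.1 i) * starRingEnd ℂ (u.2.2.1 j))
      = 0
    have h5 := congrArg (starRingEnd ℂ) h3
    rw [map_sum, map_zero] at h5
    simpa only [map_sum, map_mul, Complex.conj_ofReal] using h5
  · change S.g (RaG_pt zX zY z.1 z.2.1 (RaG_cj u)) = 0
    rw [hpt, hS.cg, h4]
    funext k
    simp [cj]

private theorem RaG_hfst {E F : Type} [NormedAddCommGroup E] [NormedSpace ℝ E]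
    [NormedAddCommGroup F] [NormedSpace ℝ F] {f : ℝ → E × F} {v : E × F} {x : ℝ}
    (h : HasDerivAt f v x) : HasDerivAt (fun t => (f t).1) v.1 x :=
  (ContinuousLinearMap.fst ℝ E F).hasFDerivAt.comp_hasDerivAt _ h

private theorem RaG_hsnd {E F : Type} [NormedAddCommGroup E] [NormedSpace ℝ E]
    [NormedAddCommGroup F] [NormedSpace ℝ F] {f : ℝ → E × F} {v : E × F} {x : ℝ}
    (h : HasDerivAt f v x) : HasDerivAt (fun t => (f t).2) v.2 x :=
  (ContinuousLinearMap.snd ℝ E F).hasFDerivAt.comp_hasDerivAt _ h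

private theorem RaG_lin (a b : ℂ) : HasDerivAt (fun t : ℝ => a + t • b) b 0 := by
  have h3 := ((hasDerivAt_id (0 : ℝ)).smul_const b).const_add a
  simpa using h3

private theorem RaG_ker {S : Sy I K B C} {DX DY : ℕ} {zX : ℕ → B → ℝ} {zY : ℕ → C → ℝ}
    {s0 : Fin DX → ℝ} {t0 : Fin DY → ℝ} {A0 B0 C0 : Fin DX → Fin DY → ℝ}
    {e0 : I → ℂ} {x0 : Fin DX → ℂ} {y0 : Fin DY → ℂ} {R0 : ℂ}
    (hk : ∀ (de : I → ℂ) (dx : Fin DX → ℂ) (dy : Fin DY → ℂ) (dR : ℂ),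
      (∀ i : Fin DX, HasDerivAt (fun τ : ℝ => dt (S.a ((e0, RaG_vec zX s0 x0, RaG_vec zY t0 y0)
          + τ • (de, RaG_vec zX s0 dx, RaG_vec zY t0 dy))) (fun b => (zX i b : ℂ)))
        (-(dR * ∑ j, (A0 i j : ℂ) * y0 j + R0 * ∑ j, (A0 i j : ℂ) * dy j)) 0) →
      (∀ j : Fin DY, HasDerivAt (fun τ : ℝ => dt (S.b ((e0, RaG_vec zX s0 x0, RaG_vec zY t0 y0)
          + τ • (de, RaG_vec zX s0 dx, RaG_vec zY t0 dy))) (fun b => (zY j b : ℂ)))
        (-(dR * ∑ i, (B0 i j : ℂ) * x0 i + R0 * ∑ i, (B0 i j : ℂ) * dx i)) 0) →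
      ∑ i, ∑ j, (C0 i j : ℂ) * (dx i * y0 j + x0 i * dy j) = 0 →
      HasDerivAt (fun τ : ℝ => S.g ((e0, RaG_vec zX s0 x0, RaG_vec zY t0 y0)
          + τ • (de, RaG_vec zX s0 dx, RaG_vec zY t0 dy))) 0 0 →
      de = 0 ∧ dx = 0 ∧ dy = 0 ∧ dR = 0)
    (x : (I → ℂ) × (Fin DX → ℂ) × (Fin DY → ℂ) × ℂ)
    (hx : HasDerivAt (fun t : ℝ => RaG_F S zX zY ((s0, t0, A0, B0, C0),
      (e0, x0, y0, R0) + t • x)) 0 0) : x = 0 := by
  obtain ⟨de, dx, dy, dR⟩ := x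
  have hpt : ∀ τ : ℝ, RaG_pt zX zY s0 t0 ((e0, x0, y0, R0) + τ • (de, dx, dy, dR))
      = (e0, RaG_vec zX s0 x0, RaG_vec zY t0 y0)
        + τ • (de, RaG_vec zX s0 dx, RaG_vec zY t0 dy) := by
    intro τ
    refine Prod.ext rfl (Prod.ext ?_ ?_)
    · exact RaG_vec_add zX s0 x0 dx τ
    · exact RaG_vec_add zY t0 y0 dy τ
  have h1 := hasDerivAt_pi.1 (RaG_hfst hx)
  have h2 := hasDerivAt_pi.1 (RaG_hfst (RaG_hsnd hx))
  have h3 := RaG_hfst (RaG_hsnd (RaG_hsnd hx))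
  have h4 := RaG_hsnd (RaG_hsnd (RaG_hsnd hx))
  have hlinx : ∀ i : Fin DX, HasDerivAt (fun τ : ℝ => x0 i + τ • dx i) (dx i) 0 := fun i =>
    RaG_lin _ _
  have hliny : ∀ i : Fin DY, HasDerivAt (fun τ : ℝ => y0 i + τ • dy i) (dy i) 0 := fun i =>
    RaG_lin _ _
  have hfin := hk de dx dy dR ?_ ?_ ?_ ?_
  · obtain ⟨r1, r2, r3, r4⟩ := hfin
    rw [r1, r2, r3, r4]
    rfl
  · intro i
    have h5 : HasDerivAt (fun τ : ℝ => (R0 + τ • dR) * ∑ j, (A0 i j : ℂ) * (y0 j + τ • dy j))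
        (dR * ∑ j, (A0 i j : ℂ) * y0 j + R0 * ∑ j, (A0 i j : ℂ) * dy j) 0 := by
      have h6 : HasDerivAt (fun τ : ℝ => ∑ j, (A0 i j : ℂ) * (y0 j + τ • dy j))
          (∑ j, (A0 i j : ℂ) * dy j) 0 :=
        HasDerivAt.fun_sum fun j _ => (hliny j).const_mul _
      have h7 := HasDerivAt.fun_mul (RaG_lin R0 dR) h6
      simpa using h7
    have h8 := (h1 i).sub h5
    have h9 : (0 : (Fin DX → ℂ) × (Fin DY → ℂ) × ℂ × (K → ℂ)).1 i
        - (dR * ∑ j, (A0 i j : ℂ) * y0 j + R0 * ∑ j, (A0 i j : ℂ) * dy j)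
        = -(dR * ∑ j, (A0 i j : ℂ) * y0 j + R0 * ∑ j, (A0 i j : ℂ) * dy j) := zero_sub _
    rw [h9] at h8
    refine h8.congr_of_eventuallyEq (Filter.Eventually.of_forall fun τ => ?_)
    change _ = (dt (S.a (RaG_pt zX zY s0 t0 ((e0, x0, y0, R0) + τ • (de, dx, dy, dR))))
      (fun b => (zX i b : ℂ)) + (R0 + τ • dR) * ∑ j, (A0 i j : ℂ) * (y0 j + τ • dy j))
      - (R0 + τ • dR) * ∑ j, (A0 i j : ℂ) * (y0 j + τ • dy j)
    rw [hpt, add_sub_cancel_right]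
  · intro i
    have h5 : HasDerivAt (fun τ : ℝ => (R0 + τ • dR) * ∑ j, (B0 j i : ℂ) * (x0 j + τ • dx j))
        (dR * ∑ j, (B0 j i : ℂ) * x0 j + R0 * ∑ j, (B0 j i : ℂ) * dx j) 0 := by
      have h6 : HasDerivAt (fun τ : ℝ => ∑ j, (B0 j i : ℂ) * (x0 j + τ • dx j))
          (∑ j, (B0 j i : ℂ) * dx j) 0 :=
        HasDerivAt.fun_sum fun j _ => (hlinx j).const_mul _
      have h7 := HasDerivAt.fun_mul (RaG_lin R0 dR) h6
      simpa using h7
    have h8 := (h2 i).sub h5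
    have h9 : (0 : (Fin DX → ℂ) × (Fin DY → ℂ) × ℂ × (K → ℂ)).2.1 i
        - (dR * ∑ j, (B0 j i : ℂ) * x0 j + R0 * ∑ j, (B0 j i : ℂ) * dx j)
        = -(dR * ∑ j, (B0 j i : ℂ) * x0 j + R0 * ∑ j, (B0 j i : ℂ) * dx j) := zero_sub _
    rw [h9] at h8
    refine h8.congr_of_eventuallyEq (Filter.Eventually.of_forall fun τ => ?_)
    change _ = (dt (S.b (RaG_pt zX zY s0 t0 ((e0, x0, y0, R0) + τ • (de, dx, dy, dR))))
      (fun b => (zY i b : ℂ)) + (R0 + τ • dR) * ∑ j, (B0 j i : ℂ) * (x0 j + τ • dx j))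
      - (R0 + τ • dR) * ∑ j, (B0 j i : ℂ) * (x0 j + τ • dx j)
    rw [hpt, add_sub_cancel_right]
  · have h5 : HasDerivAt (fun τ : ℝ => ∑ i, ∑ j, (C0 i j : ℂ)
        * ((x0 i + τ • dx i) * (y0 j + τ • dy j)))
        (∑ i, ∑ j, (C0 i j : ℂ) * (dx i * y0 j + x0 i * dy j)) 0 := by
      refine HasDerivAt.fun_sum fun i _ => HasDerivAt.fun_sum fun j _ => ?_
      have h7 := (HasDerivAt.fun_mul (hlinx i) (hliny j)).const_mul (C0 i j : ℂ)
      simpa using h7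
    exact h5.unique h3
  · refine (h4.congr_of_eventuallyEq (Filter.Eventually.of_forall fun τ => ?_))
    change _ = S.g (RaG_pt zX zY s0 t0 ((e0, x0, y0, R0) + τ • (de, dx, dy, dR)))
    rw [hpt]

/-- The general scaling lemma. -/
theorem RaG_main {S : Sy I K B C} (hS : S.Sm) {X : Submodule ℂ (B → ℂ)}
    {Y : Submodule ℂ (C → ℂ)} {DX DY : ℕ} {φ zX : ℕ → B → ℝ} {ψ zY : ℕ → C → ℝ}
    (hX : Flag X DX φ zX) (hY : Flag Y DY ψ zY) {F : ℕ → B → C → ℝ}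
    {p : ℕ → (I → ℂ) × (B → ℂ) × (C → ℂ)} {r : ℕ → ℂ}
    (hsol : ∀ n, (S.ext (F n)).Sol X Y (fun o => o.elim (r n) (p n).1, (p n).2))
    {s : ℕ → Fin DX → ℝ} {t : ℕ → Fin DY → ℝ} {ρ κ : ℕ → ℝ} (hs : ∀ n i, s n i ≠ 0)
    (ht : ∀ n j, t n j ≠ 0) (hρ : ∀ n, ρ n ≠ 0)
    {s0 : Fin DX → ℝ} {t0 : Fin DY → ℝ} {A0 B0 C0 : Fin DX → Fin DY → ℝ}
    (ls : ∀ i, Tendsto (fun n => s n i) uf (𝓝 (s0 i)))
    (lt : ∀ j, Tendsto (fun n => t n j) uf (𝓝 (t0 j)))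
    (lA : ∀ (i : Fin DX) (j : Fin DY),
      Tendsto (fun n => ρ n * RaG_G (F n) zX zY i j * t n j) uf (𝓝 (A0 i j)))
    (lB : ∀ (i : Fin DX) (j : Fin DY),
      Tendsto (fun n => ρ n * RaG_G (F n) zX zY i j * s n i) uf (𝓝 (B0 i j)))
    (lC : ∀ (i : Fin DX) (j : Fin DY),
      Tendsto (fun n => κ n * (s n i * t n j * RaG_G (F n) zX zY i j)) uf (𝓝 (C0 i j)))
    {e0 : I → ℂ} {x0 : Fin DX → ℂ} {y0 : Fin DY → ℂ} {R0 : ℂ}
    (le : Tendsto (fun n => (p n).1) uf (𝓝 e0))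
    (lx : ∀ i : Fin DX, Tendsto (fun n => pr (φ i) (p n).2.1 / (s n i : ℂ)) uf (𝓝 (x0 i)))
    (ly : ∀ j : Fin DY, Tendsto (fun n => pr (ψ j) (p n).2.2 / (t n j : ℂ)) uf (𝓝 (y0 j)))
    (lR : Tendsto (fun n => r n / (ρ n : ℂ)) uf (𝓝 R0))
    (re : cj e0 = e0) (rx : cj x0 = x0) (ry : cj y0 = y0) (rR : R0.im = 0)
    (hk : ∀ (de : I → ℂ) (dx : Fin DX → ℂ) (dy : Fin DY → ℂ) (dR : ℂ),
      (∀ i : Fin DX, HasDerivAt (fun τ : ℝ => dt (S.a ((e0, RaG_vec zX s0 x0, RaG_vec zY t0 y0)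
          + τ • (de, RaG_vec zX s0 dx, RaG_vec zY t0 dy))) (fun b => (zX i b : ℂ)))
        (-(dR * ∑ j, (A0 i j : ℂ) * y0 j + R0 * ∑ j, (A0 i j : ℂ) * dy j)) 0) →
      (∀ j : Fin DY, HasDerivAt (fun τ : ℝ => dt (S.b ((e0, RaG_vec zX s0 x0, RaG_vec zY t0 y0)
          + τ • (de, RaG_vec zX s0 dx, RaG_vec zY t0 dy))) (fun b => (zY j b : ℂ)))
        (-(dR * ∑ i, (B0 i j : ℂ) * x0 i + R0 * ∑ i, (B0 i j : ℂ) * dx i)) 0) →
      ∑ i, ∑ j, (C0 i j : ℂ) * (dx i * y0 j + x0 i * dy j) = 0 →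
      HasDerivAt (fun τ : ℝ => S.g ((e0, RaG_vec zX s0 x0, RaG_vec zY t0 y0)
          + τ • (de, RaG_vec zX s0 dx, RaG_vec zY t0 dy))) 0 0 →
      de = 0 ∧ dx = 0 ∧ dy = 0 ∧ dR = 0) :
    ∀ᶠ n in uf, cj3 (p n) = p n ∧ (r n).im = 0 ∧
      (S.ext (F n)).Nd X Y (fun o => o.elim (r n) (p n).1, (p n).2) := by
  have hs' : ∀ n i, (s n i : ℂ) ≠ 0 := fun n i => by exact_mod_cast hs n i
  have ht' : ∀ n i, (t n i : ℂ) ≠ 0 := fun n i => by exact_mod_cast ht n i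
  have hρ' : ∀ n, (ρ n : ℂ) ≠ 0 := fun n => by exact_mod_cast hρ n
  -- the sequences
  obtain ⟨P, hP⟩ : ∃ P : ℕ → (Option I → ℂ) × (B → ℂ) × (C → ℂ),
      ∀ n, P n = (fun o => o.elim (r n) (p n).1, (p n).2) := ⟨_, fun n => rfl⟩
  have hz : Tendsto (fun n => RaG_z (F n) zX zY (s n) (t n) (ρ n) (κ n)) uf
      (𝓝 (s0, t0, A0, B0, C0)) := by
    unfold RaG_z
    refine Tendsto.prodMk_nhds (tendsto_pi_nhds.2 ls) (Tendsto.prodMk_nhds
      (tendsto_pi_nhds.2 lt) (Tendsto.prodMk_nhds ?_ (Tendsto.prodMk_nhds ?_ ?_)))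
    · exact tendsto_pi_nhds.2 fun i => tendsto_pi_nhds.2 fun j => lA i j
    · exact tendsto_pi_nhds.2 fun i => tendsto_pi_nhds.2 fun j => lB i j
    · exact tendsto_pi_nhds.2 fun i => tendsto_pi_nhds.2 fun j => lC i j
  have hq : Tendsto (fun n => RaG_sc φ ψ (s n) (t n) (ρ n) (P n)) uf (𝓝 (e0, x0, y0, R0)) := by
    unfold RaG_sc
    simp only [hP]
    refine Tendsto.prodMk_nhds le (Tendsto.prodMk_nhds
      (tendsto_pi_nhds.2 lx) (Tendsto.prodMk_nhds (tendsto_pi_nhds.2 ly) lR))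
  have hq' : Tendsto (fun n => RaG_cj (RaG_sc φ ψ (s n) (t n) (ρ n) (P n))) uf
      (𝓝 (e0, x0, y0, R0)) := by
    have h1 := (RaG_cj_cont.tendsto (e0, x0, y0, R0)).comp hq
    have h2 : RaG_cj ((e0, x0, y0, R0) : (I → ℂ) × (Fin DX → ℂ) × (Fin DY → ℂ) × ℂ)
        = (e0, x0, y0, R0) := by
      unfold RaG_cj
      simp only [re, rx, ry, Complex.conj_eq_iff_im.2 rR]
    rw [h2] at h1
    exact h1
  have hvX : ∀ n, (P n).2.1 ∈ X := fun n => by rw [hP]; exact (hsol n).sv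
  have hwY : ∀ n, (P n).2.2 ∈ Y := fun n => by rw [hP]; exact (hsol n).sw
  have hzero : ∀ n, RaG_F S zX zY (RaG_z (F n) zX zY (s n) (t n) (ρ n) (κ n),
      RaG_sc φ ψ (s n) (t n) (ρ n) (P n)) = 0 := by
    intro n
    rw [RaG_key S hX hY (F n) (hs n) (ht n) (hρ n) (hvX n) (hwY n), hP]
    refine Prod.ext ?_ (Prod.ext ?_ (Prod.ext ?_ ?_))
    · funext i
      exact (hsol n).ea _ (hX.mem i i.2)
    · funext i
      exact (hsol n).eb _ (hY.mem i i.2)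
    · have := congrFun (hsol n).eg none
      simp only [this]
      simp
    · funext k
      exact congrFun (hsol n).eg (some k)
  have hzero' : ∀ n, RaG_F S zX zY (RaG_z (F n) zX zY (s n) (t n) (ρ n) (κ n),
      RaG_cj (RaG_sc φ ψ (s n) (t n) (ρ n) (P n))) = 0 := fun n => RaG_F_cj hS _ _ _ _ (hzero n)
  have hR := rig (RaG_F S zX zY) (RaG_smooth hS zX zY) (RaG_ker hk) hz hq hq'
    (Filter.Eventually.of_forall fun n => by rw [hzero, hzero'])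
  have hN := rig_ker (RaG_F S zX zY) (RaG_smooth hS zX zY) (RaG_ker hk) hz hq
  filter_upwards [hR, hN] with n h1 h2
  refine ⟨?_, ?_, ?_⟩
  · have h3 := congrArg Prod.fst h1
    have h4 := congrArg (fun x => x.2.1) h1
    have h5 := congrArg (fun x => x.2.2.1) h1
    simp only [RaG_cj, RaG_sc] at h3 h4 h5
    have h6 := RaG_gen hX (hs n) (hvX n)
    have h7 := RaG_gen hY (ht n) (hwY n)
    have h8 : cj (P n).2.1 = (P n).2.1 := by
      conv_rhs => rw [← h6, h4, RaG_vec_cj, h6]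
    have h9 : cj (P n).2.2 = (P n).2.2 := by
      conv_rhs => rw [← h7, h5, RaG_vec_cj, h7]
    rw [hP] at h3 h8 h9
    exact Prod.ext h3.symm (Prod.ext h8 h9)
  · have h3 := congrArg (fun x => x.2.2.2) h1
    simp only [RaG_cj, RaG_sc] at h3
    rw [hP] at h3
    change r n / (ρ n : ℂ) = starRingEnd ℂ (r n / (ρ n : ℂ)) at h3
    rw [map_div₀, Complex.conj_ofReal, div_left_inj' (hρ' n)] at h3
    exact Complex.conj_eq_iff_im.1 h3.symm
  · rw [← hP]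
    intro x hx
    have hv0 : x.2.1 ∈ X := hx.sv
    have hw0 : x.2.2 ∈ Y := hx.sw
    have hsc : ∀ τ : ℝ, RaG_sc φ ψ (s n) (t n) (ρ n) (P n)
        + τ • RaG_sc φ ψ (s n) (t n) (ρ n) x = RaG_sc φ ψ (s n) (t n) (ρ n) (P n + τ • x) := by
      intro τ
      have hpr : ∀ (g : B → ℝ) (u v : B → ℂ), pr g (u + τ • v) = pr g u + τ • pr g v := by
        intro g u v
        unfold pr
        rw [Finset.smul_sum, ← Finset.sum_add_distrib]
        refine Finset.sum_congr rfl fun b _ => ?_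
        simp only [Pi.add_apply, Pi.smul_apply, Complex.real_smul]
        ring
      have hpr' : ∀ (g : C → ℝ) (u v : C → ℂ), pr g (u + τ • v) = pr g u + τ • pr g v := by
        intro g u v
        unfold pr
        rw [Finset.smul_sum, ← Finset.sum_add_distrib]
        refine Finset.sum_congr rfl fun b _ => ?_
        simp only [Pi.add_apply, Pi.smul_apply, Complex.real_smul]
        ring
      unfold RaG_sc
      refine Prod.ext ?_ (Prod.ext ?_ (Prod.ext ?_ ?_))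
      · rfl
      · funext i
        change pr (φ i) (P n).2.1 / (s n i : ℂ) + τ • (pr (φ i) x.2.1 / (s n i : ℂ))
          = pr (φ i) ((P n).2.1 + τ • x.2.1) / (s n i : ℂ)
        rw [hpr, Complex.real_smul, Complex.real_smul]
        ring
      · funext i
        change pr (ψ i) (P n).2.2 / (t n i : ℂ) + τ • (pr (ψ i) x.2.2 / (t n i : ℂ))
          = pr (ψ i) ((P n).2.2 + τ • x.2.2) / (t n i : ℂ)
        rw [hpr', Complex.real_smul, Complex.real_smul]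
        ring
      · change (P n).1 none / (ρ n : ℂ) + τ • (x.1 none / (ρ n : ℂ))
          = ((P n).1 none + τ • x.1 none) / (ρ n : ℂ)
        rw [Complex.real_smul, Complex.real_smul]
        ring
    have hmX : ∀ τ : ℝ, (P n + τ • x).2.1 ∈ X := by
      intro τ
      have h3 := X.add_mem (hvX n) (X.smul_mem (τ : ℂ) hv0)
      have h4 : (P n + τ • x).2.1 = (P n).2.1 + (τ : ℂ) • x.2.1 := by
        funext b
        simp
      rw [h4]
      exact h3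
    have hmY : ∀ τ : ℝ, (P n + τ • x).2.2 ∈ Y := by
      intro τ
      have h3 := Y.add_mem (hwY n) (Y.smul_mem (τ : ℂ) hw0)
      have h4 : (P n + τ • x).2.2 = (P n).2.2 + (τ : ℂ) • x.2.2 := by
        funext b
        simp
      rw [h4]
      exact h3
    have h3 := h2 (RaG_sc φ ψ (s n) (t n) (ρ n) x) ?_
    · have h4 := congrArg Prod.fst h3
      have h5 := congrArg (fun x => x.2.1) h3
      have h6 := congrArg (fun x => x.2.2.1) h3
      have h7 := congrArg (fun x => x.2.2.2) h3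
      simp only [RaG_sc, Prod.fst_zero, Prod.snd_zero] at h4 h5 h6 h7
      have h8 := RaG_gen hX (hs n) hv0
      have h9 := RaG_gen hY (ht n) hw0
      refine Prod.ext ?_ (Prod.ext ?_ ?_)
      · funext o
        cases o with
        | none =>
          have h10 := div_eq_zero_iff.1 h7
          exact h10.resolve_right (hρ' n)
        | some k => exact congrFun h4 k
      · rw [← h8, h5]
        funext b
        simp [RaG_vec]
      · rw [← h9, h6]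
        funext b
        simp [RaG_vec]
    · have h4 : (fun τ : ℝ => RaG_F S zX zY (RaG_z (F n) zX zY (s n) (t n) (ρ n) (κ n),
          RaG_sc φ ψ (s n) (t n) (ρ n) (P n) + τ • RaG_sc φ ψ (s n) (t n) (ρ n) x))
          = fun τ : ℝ => (fun i : Fin DX => dt ((S.ext (F n)).a (P n + τ • x))
              (fun b => (zX i b : ℂ)),
            fun j : Fin DY => dt ((S.ext (F n)).b (P n + τ • x)) (fun c => (zY j c : ℂ)),
            (κ n : ℂ) * (S.ext (F n)).g (P n + τ • x) none,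
            fun k => (S.ext (F n)).g (P n + τ • x) (some k)) := by
        funext τ
        rw [hsc, RaG_key S hX hY (F n) (hs n) (ht n) (hρ n) (hmX τ) (hmY τ)]
      rw [h4]
      have h5 := hasDerivAt_pi.1 hx.eg
      have h6 := (h5 none).const_mul (κ n : ℂ)
      rw [Pi.zero_apply, mul_zero] at h6
      exact HasDerivAt.prodMk (hasDerivAt_pi.2 fun i => hx.ea _ (hX.mem i i.2))
        (HasDerivAt.prodMk (hasDerivAt_pi.2 fun i => hx.eb _ (hY.mem i i.2))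
          (HasDerivAt.prodMk h6 (hasDerivAt_pi.2 fun k => h5 (some k))))

end

end Pool.Agent.MPb0eK
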