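import Mathlib
import Pool.Agent.Lib.MP_b0e20b_ag_K.FA
import Pool.Agent.Lib.MP_b0e20b_ag_K.Rig
import Pool.Agent.Lib.MP_b0e20b_ag_K.RaG

/-!
# MP_b0e20b_ag, project K: the abstract row lemma: reality, equal orders
-/

set_option autoImplicit false

open scoped BigOperators Topology
open Filter

namespace Pool.Agent.MPb0eK

open MPb0eR (c1 c2 c3 tr q Sup Rl Rea uf Nrm cj AF scl)

/-- Ratios of the coefficients. -/
private theorem RaK_hi {m : ℕ} {s : ℝ} {f : ℕ → ℕ → ℝ} (hf : Hi m s f) {k : ℕ} (l : ℕ)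
    (hkl : k < l) (hl : l ≤ m) : Tendsto (fun n => f n l / f n k) uf (𝓝 0) := by
  induction l with
  | zero => omega
  | succ l ih =>
    have h1 := hf.hi l (by omega)
    rcases Nat.lt_or_ge k l with h | h
    · have h2 := h1.mul (ih h (by omega))
      rw [zero_mul] at h2
      refine h2.congr fun n => ?_
      rw [div_mul_div_cancel₀ (hf.ne n l (by omega))]
    · have e : k = l := by omega
      subst e
      exact h1

/-- The small scale. -/
noncomputable def RaK_h (f : ℕ → ℕ → ℝ) (k n : ℕ) : ℝ := Real.sqrt (-(f n k / f n (k - 1)))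

/-- The scale of the coordinates. -/
noncomputable def RaK_u (f : ℕ → ℕ → ℝ) (k n l : ℕ) : ℝ :=
  if l < k then f n (k - 1) * RaK_h f k n / f n l else 1

/-- The scale of the multiplier. -/
noncomputable def RaK_r (f : ℕ → ℕ → ℝ) (k n : ℕ) : ℝ := (f n (k - 1) * RaK_h f k n)⁻¹

section

variable {m k : ℕ} {f : ℕ → ℕ → ℝ}

private theorem RaK_neg (hf : Hi m (-1) f) (hk : 1 ≤ k) (hkm : k ≤ m) (n : ℕ) :
    0 < -(f n k / f n (k - 1)) := by
  have h1 := hf.sg n (k - 1) (by omega)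
  have h2 : k - 1 + 1 = k := by omega
  rw [h2] at h1
  have h3 := hf.ne n (k - 1) (by omega)
  have h4 : -(f n k / f n (k - 1)) = (-1 * (f n (k - 1) * f n k)) / (f n (k - 1)) ^ 2 := by
    field_simp
  rw [h4]
  exact div_pos h1 (by positivity)

private theorem RaK_h_pos (hf : Hi m (-1) f) (hk : 1 ≤ k) (hkm : k ≤ m) (n : ℕ) :
    0 < RaK_h f k n := Real.sqrt_pos.2 (RaK_neg hf hk hkm n)

private theorem RaK_h_sq (hf : Hi m (-1) f) (hk : 1 ≤ k) (hkm : k ≤ m) (n : ℕ) :
    RaK_h f k n * RaK_h f k n = -(f n k / f n (k - 1)) :=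
  Real.mul_self_sqrt (RaK_neg hf hk hkm n).le

private theorem RaK_h_lim (hf : Hi m (-1) f) (hk : 1 ≤ k) (hkm : k ≤ m) :
    Tendsto (fun n => RaK_h f k n) uf (𝓝 0) := by
  have h1 := (RaK_hi hf (k := k - 1) k (by omega) hkm).neg
  rw [neg_zero] at h1
  have h2 := (Real.continuous_sqrt.tendsto 0).comp h1
  rw [Real.sqrt_zero] at h2
  exact h2

private theorem RaK_r_ne (hf : Hi m (-1) f) (hk : 1 ≤ k) (hkm : k ≤ m) (n : ℕ) :
    RaK_r f k n ≠ 0 :=
  inv_ne_zero (mul_ne_zero (hf.ne n _ (by omega)) (RaK_h_pos hf hk hkm n).ne')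

private theorem RaK_u_ne (hf : Hi m (-1) f) (hk : 1 ≤ k) (hkm : k ≤ m) (n l : ℕ) :
    RaK_u f k n l ≠ 0 := by
  unfold RaK_u
  split_ifs with h
  · exact div_ne_zero (mul_ne_zero (hf.ne n _ (by omega)) (RaK_h_pos hf hk hkm n).ne')
      (hf.ne n _ (by omega))
  · exact one_ne_zero

private theorem RaK_u_lim (hf : Hi m (-1) f) (hk : 1 ≤ k) (hkm : k ≤ m) (l : ℕ) :
    Tendsto (fun n => RaK_u f k n l) uf (𝓝 (if l < k then 0 else 1)) := by
  unfold RaK_u
  split_ifs with h
  · have h1 := RaK_h_lim hf hk hkm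
    have h2 : ∃ c : ℝ, Tendsto (fun n => f n (k - 1) / f n l) uf (𝓝 c) := by
      rcases Nat.lt_or_ge l (k - 1) with h3 | h3
      · exact ⟨0, RaK_hi hf _ h3 (by omega)⟩
      · have h4 : l = k - 1 := by omega
        subst h4
        refine ⟨1, tendsto_const_nhds.congr fun n => ?_⟩
        rw [div_self (hf.ne n _ (by omega))]
    obtain ⟨c, hc⟩ := h2
    have h3 := hc.mul h1
    rw [mul_zero] at h3
    refine h3.congr fun n => ?_
    ring
  · exact tendsto_const_nhds

/-- The large coefficients. -/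
private theorem RaK_S1 (hf : Hi m (-1) f) (hk : 1 ≤ k) (hkm : k ≤ m) {l : ℕ} (h : k ≤ l)
    (hl : l ≤ m) : Tendsto (fun n => RaK_r f k n * f n l) uf (𝓝 0) := by
  have h1 := (RaK_h_lim hf hk hkm).neg
  rw [neg_zero] at h1
  have h2 : ∃ c : ℝ, Tendsto (fun n => f n l / f n k) uf (𝓝 c) := by
    rcases Nat.lt_or_ge k l with h3 | h3
    · exact ⟨0, RaK_hi hf _ h3 (by omega)⟩
    · have h4 : l = k := by omega
      subst h4
      refine ⟨1, tendsto_const_nhds.congr fun n => ?_⟩
      rw [div_self (hf.ne n _ (by omega))]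
  obtain ⟨c, hc⟩ := h2
  have h3 := hc.mul h1
  rw [mul_zero] at h3
  refine h3.congr fun n => ?_
  have h4 := RaK_h_sq hf hk hkm n
  have h5 := (RaK_h_pos hf hk hkm n).ne'
  have h6 := hf.ne n k hkm
  have h7 := hf.ne n (k - 1) (by omega)
  have h8 : f n k = -(RaK_h f k n * RaK_h f k n * f n (k - 1)) := by
    rw [h4]
    field_simp
  unfold RaK_r
  rw [div_mul_eq_mul_div, div_eq_iff h6, inv_mul_eq_div, div_mul_eq_mul_div,
    eq_div_iff (mul_ne_zero h7 h5)]
  rw [h8]
  ring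

private theorem RaK_S2 (hf : Hi m (-1) f) (hk : 1 ≤ k) (hkm : k ≤ m) {l : ℕ} (h : l < k)
    (n : ℕ) : RaK_r f k n * f n l * RaK_u f k n l = 1 := by
  have h5 := (RaK_h_pos hf hk hkm n).ne'
  have h6 := hf.ne n l (by omega)
  have h7 := hf.ne n (k - 1) (by omega)
  unfold RaK_r RaK_u
  rw [if_pos h]
  field_simp

/-- The coefficients of the constraint. -/
private theorem RaK_S4 (hf : Hi m (-1) f) (hk : 1 ≤ k) (hkm : k ≤ m) {l : ℕ} (hl : l ≤ m) :
    Tendsto (fun n => (f n k)⁻¹ * (RaK_u f k n l * RaK_u f k n l * f n l)) uf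
      (𝓝 (if l = k then 1 else if l + 1 = k then -1 else 0)) := by
  rcases lt_trichotomy l k with h | h | h
  · rw [if_neg h.ne]
    have e : ∀ n, (f n k)⁻¹ * (RaK_u f k n l * RaK_u f k n l * f n l)
        = - (f n (k - 1) / f n l) := by
      intro n
      have h4 := RaK_h_sq hf hk hkm n
      have h5 := (RaK_h_pos hf hk hkm n).ne'
      have h6 := hf.ne n k hkm
      have h7 := hf.ne n (k - 1) (by omega)
      have h8 : f n k = -(RaK_h f k n * RaK_h f k n * f n (k - 1)) := by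
        rw [h4]
        field_simp
      have h9 := hf.ne n l hl
      unfold RaK_u
      rw [if_pos h, inv_mul_eq_div, div_eq_iff h6, h8]
      field_simp
    simp only [e]
    split_ifs with h3
    · have h4 : l = k - 1 := by omega
      subst h4
      refine (tendsto_const_nhds (x := (-1 : ℝ))).congr fun n => ?_
      rw [div_self (hf.ne n _ (by omega))]
    · have h4 := (RaK_hi hf (k := l) (k - 1) (by omega) (by omega)).neg
      rw [neg_zero] at h4
      exact h4
  · subst h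
    rw [if_pos rfl]
    refine (tendsto_const_nhds (x := (1 : ℝ))).congr fun n => ?_
    unfold RaK_u
    rw [if_neg (lt_irrefl _), one_mul, one_mul, inv_mul_cancel₀ (hf.ne n _ hl)]
  · rw [if_neg h.ne', if_neg (by omega)]
    refine (RaK_hi hf (k := k) l h hl).congr fun n => ?_
    unfold RaK_u
    rw [if_neg (by omega), one_mul, one_mul, inv_mul_eq_div]

end

private theorem RaK_pick {m k : ℕ} (hk : 1 ≤ k) (hkm : k ≤ m) (g : ℕ → ℂ) :
    ∑ l ∈ Finset.range (m + 1), (if l = k then (1 : ℂ) else if l + 1 = k then -1 else 0) * g l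
      = g k - g (k - 1) := by
  have e1 : ∀ l ∈ Finset.range (m + 1),
      (if l = k then (1 : ℂ) else if l + 1 = k then -1 else 0) * g l
      = (if l = k then g l else 0) - (if l = k - 1 then g l else 0) := by
    intro l _
    by_cases h1 : l = k
    · rw [if_pos h1, if_pos h1, if_neg (by omega)]
      ring
    · rw [if_neg h1, if_neg h1]
      by_cases h2 : l + 1 = k
      · rw [if_pos h2, if_pos (by omega)]
        ring
      · rw [if_neg h2, if_neg (by omega)]
        ring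
  rw [Finset.sum_congr rfl e1, Finset.sum_sub_distrib, Finset.sum_ite_eq', Finset.sum_ite_eq',
    if_pos (Finset.mem_range.2 (by omega)), if_pos (Finset.mem_range.2 (by omega))]

private theorem RaK_unk {m k : ℕ} (hk : 1 ≤ k) (hkm : k ≤ m) {R : ℕ → ℂ}
    {a b PA PB x y Θ : ℕ → ℕ → ℂ} {a0 b0 X0 Y0 : ℕ → ℂ}
    (la : ∀ l, l < k → Tendsto (fun n => a n l) uf (𝓝 (a0 l)))
    (lb : ∀ l, l < k → Tendsto (fun n => b n l) uf (𝓝 (b0 l)))
    (ea : ∀ n l, l < k → a n l + R n * PA n l = 0)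
    (eb : ∀ n l, l < k → b n l + R n * PB n l = 0)
    (da : ∀ l, l < k → Tendsto (fun n => PA n l - y n l) uf (𝓝 0))
    (db : ∀ l, l < k → Tendsto (fun n => PB n l - x n l) uf (𝓝 0))
    (lx : ∀ l, k ≤ l → Tendsto (fun n => x n l) uf (𝓝 (X0 l)))
    (ly : ∀ l, k ≤ l → Tendsto (fun n => y n l) uf (𝓝 (Y0 l)))
    (lT : ∀ l, l ≤ m → Tendsto (fun n => Θ n l) uf
      (𝓝 (if l = k then 1 else if l + 1 = k then -1 else 0)))
    (e0 : ∀ n, ∑ l ∈ Finset.range (m + 1), Θ n l * (x n l * y n l) = 0)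
    (h0 : X0 k * Y0 k ≠ 0) (ha : a0 (k - 1) * b0 (k - 1) ≠ 0) :
    ∃ R0, Tendsto R uf (𝓝 R0) ∧ R0 ≠ 0 ∧ R0 * R0 * (X0 k * Y0 k) = a0 (k - 1) * b0 (k - 1) ∧
      (∀ l, l < k → Tendsto (fun n => x n l) uf (𝓝 (-(b0 l) / R0))) ∧
      ∀ l, l < k → Tendsto (fun n => y n l) uf (𝓝 (-(a0 l) / R0)) := by
  rcases MPb0eR.ualt R with ⟨R0, hR⟩ | hR
  · -- the multiplier converges
    have lRy : ∀ l, l < k → Tendsto (fun n => R n * y n l) uf (𝓝 (-(a0 l))) := by
      intro l hl
      have h1 := (la l hl).neg.sub (hR.mul (da l hl))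
      rw [mul_zero, sub_zero] at h1
      refine h1.congr fun n => ?_
      have h2 := ea n l hl
      linear_combination (-1 : ℂ) * h2
    have lRx : ∀ l, l < k → Tendsto (fun n => R n * x n l) uf (𝓝 (-(b0 l))) := by
      intro l hl
      have h1 := (lb l hl).neg.sub (hR.mul (db l hl))
      rw [mul_zero, sub_zero] at h1
      refine h1.congr fun n => ?_
      have h2 := eb n l hl
      linear_combination (-1 : ℂ) * h2
    have key : ∀ l ∈ Finset.range (m + 1), Tendsto
        (fun n => Θ n l * ((R n * x n l) * (R n * y n l))) uf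
        (𝓝 ((if l = k then 1 else if l + 1 = k then -1 else 0)
          * (if l < k then b0 l * a0 l else R0 * R0 * (X0 l * Y0 l)))) := by
      intro l hl
      have hlm : l ≤ m := by
        have := Finset.mem_range.1 hl
        omega
      refine (lT l hlm).mul ?_
      split_ifs with h
      · have h1 := (lRx l h).mul (lRy l h)
        rw [neg_mul_neg] at h1
        exact h1
      · have h1 := (hR.mul (lx l (by omega))).mul (hR.mul (ly l (by omega)))
        have h2 : R0 * X0 l * (R0 * Y0 l) = R0 * R0 * (X0 l * Y0 l) := by ring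
        rw [h2] at h1
        exact h1
    have h1 := tendsto_finsetSum (Finset.range (m + 1)) key
    have h2 : ∀ n, ∑ l ∈ Finset.range (m + 1), Θ n l * ((R n * x n l) * (R n * y n l)) = 0 := by
      intro n
      have h3 := congrArg (fun z => R n * R n * z) (e0 n)
      simp only [mul_zero, Finset.mul_sum] at h3
      rw [← h3]
      exact Finset.sum_congr rfl fun l _ => by ring
    simp only [h2] at h1
    rw [RaK_pick hk hkm, if_neg (lt_irrefl _), if_pos (by omega)] at h1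
    have h3 := tendsto_nhds_unique h1 tendsto_const_nhds
    have h4 : R0 * R0 * (X0 k * Y0 k) = a0 (k - 1) * b0 (k - 1) := by
      rw [sub_eq_zero] at h3
      rw [h3]
      ring
    have h5 : R0 ≠ 0 := by
      rintro rfl
      rw [mul_zero, zero_mul] at h4
      exact ha h4.symm
    refine ⟨R0, hR, h5, h4, fun l hl => ?_, fun l hl => ?_⟩
    · refine ((lRx l hl).div hR h5).congr' ?_
      filter_upwards [hR.eventually_ne h5] with n hn
      rw [Pi.div_apply, mul_div_cancel_left₀ _ hn]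
    · refine ((lRy l hl).div hR h5).congr' ?_
      filter_upwards [hR.eventually_ne h5] with n hn
      rw [Pi.div_apply, mul_div_cancel_left₀ _ hn]
  · -- the multiplier is unbounded: impossible
    exfalso
    have hinv : Tendsto (fun n => (R n)⁻¹) uf (𝓝 0) :=
      tendsto_inv₀_cobounded.comp (tendsto_norm_atTop_iff_cobounded.1 hR)
    have hne : ∀ᶠ n in uf, R n ≠ 0 := by
      filter_upwards [hR.eventually_gt_atTop 0] with n hn
      exact norm_pos_iff.1 hn
    have ly' : ∀ l, l < k → Tendsto (fun n => y n l) uf (𝓝 0) := by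
      intro l hl
      have h1 := ((la l hl).neg.mul hinv).sub (da l hl)
      rw [mul_zero, sub_zero] at h1
      refine h1.congr' ?_
      filter_upwards [hne] with n hn
      have h2 := ea n l hl
      have h3 : PA n l = - a n l * (R n)⁻¹ := by
        field_simp
        linear_combination h2
      change -a n l * (R n)⁻¹ - (PA n l - y n l) = y n l
      rw [h3]
      ring
    have lx' : ∀ l, l < k → Tendsto (fun n => x n l) uf (𝓝 0) := by
      intro l hl
      have h1 := ((lb l hl).neg.mul hinv).sub (db l hl)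
      rw [mul_zero, sub_zero] at h1
      refine h1.congr' ?_
      filter_upwards [hne] with n hn
      have h2 := eb n l hl
      have h3 : PB n l = - b n l * (R n)⁻¹ := by
        field_simp
        linear_combination h2
      change -b n l * (R n)⁻¹ - (PB n l - x n l) = x n l
      rw [h3]
      ring
    have key : ∀ l ∈ Finset.range (m + 1), Tendsto
        (fun n => Θ n l * (x n l * y n l)) uf
        (𝓝 ((if l = k then 1 else if l + 1 = k then -1 else 0)
          * (if l < k then 0 else X0 l * Y0 l))) := by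
      intro l hl
      have hlm : l ≤ m := by
        have := Finset.mem_range.1 hl
        omega
      refine (lT l hlm).mul ?_
      split_ifs with h
      · have h1 := (lx' l h).mul (ly' l h)
        rw [mul_zero] at h1
        exact h1
      · exact (lx l (by omega)).mul (ly l (by omega))
    have h1 := tendsto_finsetSum (Finset.range (m + 1)) key
    simp only [e0] at h1
    rw [RaK_pick hk hkm, if_neg (lt_irrefl _), if_pos (by omega), sub_zero] at h1
    exact h0 (tendsto_nhds_unique h1 tendsto_const_nhds)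


section

variable {I K B C : Type} [Fintype I] [Fintype K] [Fintype B] [Fintype C] [DecidableEq B]
  [DecidableEq C]

/-- The pairing of the coordinates with the basis. -/
private noncomputable def RaK_c (φ z : ℕ → B → ℝ) (l i : ℕ) : ℝ := ∑ b, φ l b * z i b

omit [DecidableEq B] in
private theorem RaK_c_eq (φ z : ℕ → B → ℝ) (l i : ℕ) :
    pr (φ l) (fun b => (z i b : ℂ)) = (RaK_c φ z l i : ℂ) := by
  unfold pr RaK_c
  push_cast
  rfl

omit [DecidableEq B] in
private theorem RaK_c_dual {X : Submodule ℂ (B → ℂ)} {D : ℕ} {φ z : ℕ → B → ℝ}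
    (hX : Flag X D φ z) {l i : ℕ} (hl : l < D) (hi : i < D) :
    RaK_c φ z l i = if l = i then 1 else 0 := by
  have h1 := hX.dual l i hl hi
  rw [RaK_c_eq] at h1
  split_ifs with h
  · rw [if_pos h] at h1
    exact_mod_cast h1
  · rw [if_neg h] at h1
    exact_mod_cast h1

private theorem RaK_G (φ zX : ℕ → B → ℝ) (ψ zY : ℕ → C → ℝ) (m : ℕ) (f : ℕ → ℝ) (i j : ℕ) :
    RaG_G (rw0 φ ψ m f) zX zY i j
      = ∑ l ∈ Finset.range (m + 1), f l * (RaK_c φ zX l i * RaK_c ψ zY l j) := by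
  apply Complex.ofReal_injective
  rw [← RaG_G_bf, bf_rw0]
  push_cast
  refine Finset.sum_congr rfl fun l _ => ?_
  rw [RaK_c_eq, RaK_c_eq]

/-- Products of the pairings: only the diagonal or large indices. -/
private theorem RaK_cd {X : Submodule ℂ (B → ℂ)} {Y : Submodule ℂ (C → ℂ)} {DX DY : ℕ}
    {φ zX : ℕ → B → ℝ} {ψ zY : ℕ → C → ℝ} (hX : Flag X DX φ zX) (hY : Flag Y DY ψ zY) {k : ℕ}
    (hkX : k < DX) (hkY : k < DY) {l i j : ℕ} (hi : i < DX) (hj : j < DY) :
    (l = i ∧ l = j ∧ RaK_c φ zX l i * RaK_c ψ zY l j = 1) ∨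
      (¬ (l = i ∧ l = j) ∧ RaK_c φ zX l i * RaK_c ψ zY l j = 0) ∨
      (¬ (l = i ∧ l = j) ∧ k < l) := by
  by_cases h1 : l < DX
  · by_cases h2 : l < DY
    · rw [RaK_c_dual hX h1 hi, RaK_c_dual hY h2 hj]
      by_cases h3 : l = i
      · by_cases h4 : l = j
        · left
          rw [if_pos h3, if_pos h4]
          exact ⟨h3, h4, one_mul 1⟩
        · right
          left
          rw [if_neg h4, mul_zero]
          exact ⟨fun h => h4 h.2, rfl⟩
      · right
        left
        rw [if_neg h3, zero_mul]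
        exact ⟨fun h => h3 h.1, rfl⟩
    · right
      right
      exact ⟨fun h => by omega, by omega⟩
  · right
    right
    exact ⟨fun h => by omega, by omega⟩

private theorem RaK_lA {X : Submodule ℂ (B → ℂ)} {Y : Submodule ℂ (C → ℂ)} {DX DY : ℕ}
    {φ zX : ℕ → B → ℝ} {ψ zY : ℕ → C → ℝ} (hX : Flag X DX φ zX) (hY : Flag Y DY ψ zY) {m k : ℕ}
    {f : ℕ → ℕ → ℝ} (hf : Hi m (-1) f) (hk : 1 ≤ k) (hkm : k ≤ m) (hkX : k < DX) (hkY : k < DY)
    {i j : ℕ} (hi : i < DX) (hj : j < DY) {e : ℕ} (he : i = j → e = i) :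
    Tendsto (fun n => RaK_r f k n * RaG_G (rw0 φ ψ m (f n)) zX zY i j * RaK_u f k n e) uf
      (𝓝 (if i = j ∧ i < k then 1 else 0)) := by
  have e1 : ∀ n, RaK_r f k n * RaG_G (rw0 φ ψ m (f n)) zX zY i j * RaK_u f k n e
      = ∑ l ∈ Finset.range (m + 1), (RaK_r f k n * f n l * RaK_u f k n e)
        * (RaK_c φ zX l i * RaK_c ψ zY l j) := by
    intro n
    rw [RaK_G, Finset.mul_sum, Finset.sum_mul]
    exact Finset.sum_congr rfl fun l _ => by ring
  have key : ∀ l ∈ Finset.range (m + 1), Tendsto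
      (fun n => (RaK_r f k n * f n l * RaK_u f k n e) * (RaK_c φ zX l i * RaK_c ψ zY l j)) uf
      (𝓝 (if l = i then (if i = j ∧ i < k then 1 else 0) else 0)) := by
    intro l hl
    have hlm : l ≤ m := by
      have := Finset.mem_range.1 hl
      omega
    rcases RaK_cd hX hY hkX hkY (l := l) hi hj with ⟨h1, h2, h3⟩ | ⟨h1, h2⟩ | ⟨h1, h2⟩
    · subst h1
      have h4 := he h2
      subst h4
      rw [if_pos rfl, h3]
      rcases Nat.lt_or_ge e k with h5 | h5
      · rw [if_pos ⟨h2, h5⟩]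
        refine tendsto_const_nhds.congr fun n => ?_
        rw [RaK_S2 hf hk hkm h5, one_mul]
      · rw [if_neg (by omega)]
        have h6 := ((RaK_S1 hf hk hkm h5 hlm).mul (RaK_u_lim hf hk hkm e)).mul_const 1
        rw [zero_mul, zero_mul] at h6
        exact h6
    · have h4 : (if l = i then (if i = j ∧ i < k then (1 : ℝ) else 0) else 0) = 0 := by
        split_ifs with h5 h6
        · exact absurd ⟨h5, h5.trans h6.1⟩ h1
        · rfl
        · rfl
      rw [h4]
      refine tendsto_const_nhds.congr fun n => ?_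
      rw [h2, mul_zero]
    · have h4 : (if l = i then (if i = j ∧ i < k then (1 : ℝ) else 0) else 0) = 0 := by
        split_ifs with h5 h6
        · exact absurd ⟨h5, h5.trans h6.1⟩ h1
        · rfl
        · rfl
      rw [h4]
      have h6 := ((RaK_S1 hf hk hkm h2.le hlm).mul (RaK_u_lim hf hk hkm e)).mul_const
        (RaK_c φ zX l i * RaK_c ψ zY l j)
      rw [zero_mul, zero_mul] at h6
      exact h6
  have h3 := tendsto_finsetSum (Finset.range (m + 1)) key
  simp only [e1]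
  have h4 : ∑ l ∈ Finset.range (m + 1), (if l = i then (if i = j ∧ i < k then (1 : ℝ) else 0)
      else 0) = if i = j ∧ i < k then 1 else 0 := by
    rw [Finset.sum_ite_eq']
    split_ifs with h5 h6
    · rfl
    · rfl
    · exact absurd (Finset.mem_range.2 (by omega)) h5
    · rfl
  rw [h4] at h3
  exact h3

private theorem RaK_lC {X : Submodule ℂ (B → ℂ)} {Y : Submodule ℂ (C → ℂ)} {DX DY : ℕ}
    {φ zX : ℕ → B → ℝ} {ψ zY : ℕ → C → ℝ} (hX : Flag X DX φ zX) (hY : Flag Y DY ψ zY) {m k : ℕ}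
    (hm : min DX DY ≤ m + 1)
    {f : ℕ → ℕ → ℝ} (hf : Hi m (-1) f) (hk : 1 ≤ k) (hkm : k ≤ m) (hkX : k < DX) (hkY : k < DY)
    {i j : ℕ} (hi : i < DX) (hj : j < DY) :
    Tendsto (fun n => (f n k)⁻¹ * (RaK_u f k n i * RaK_u f k n j
      * RaG_G (rw0 φ ψ m (f n)) zX zY i j)) uf
      (𝓝 (if i = j then (if i = k then 1 else if i + 1 = k then -1 else 0) else 0)) := by
  have e1 : ∀ n, (f n k)⁻¹ * (RaK_u f k n i * RaK_u f k n j
      * RaG_G (rw0 φ ψ m (f n)) zX zY i j)
      = ∑ l ∈ Finset.range (m + 1), ((f n k)⁻¹ * (RaK_u f k n i * RaK_u f k n j * f n l))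
        * (RaK_c φ zX l i * RaK_c ψ zY l j) := by
    intro n
    rw [RaK_G, Finset.mul_sum, Finset.mul_sum]
    exact Finset.sum_congr rfl fun l _ => by ring
  have key : ∀ l ∈ Finset.range (m + 1), Tendsto
      (fun n => ((f n k)⁻¹ * (RaK_u f k n i * RaK_u f k n j * f n l))
        * (RaK_c φ zX l i * RaK_c ψ zY l j)) uf
      (𝓝 (if l = i then (if i = j then (if i = k then 1 else if i + 1 = k then -1 else 0)
        else 0) else 0)) := by
    intro l hl
    have hlm : l ≤ m := by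
      have := Finset.mem_range.1 hl
      omega
    rcases RaK_cd hX hY hkX hkY (l := l) hi hj with ⟨h1, h2, h3⟩ | ⟨h1, h2⟩ | ⟨h1, h2⟩
    · subst h1
      subst h2
      rw [if_pos rfl, if_pos rfl, h3]
      simp only [mul_one]
      exact RaK_S4 hf hk hkm hlm
    · have h4 : (if l = i then (if i = j then (if i = k then (1 : ℝ)
          else if i + 1 = k then -1 else 0) else 0) else 0) = 0 := by
        by_cases h5 : l = i
        · rw [if_pos h5, if_neg fun h6 => h1 ⟨h5, h5.trans h6⟩]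
        · rw [if_neg h5]
      rw [h4]
      refine tendsto_const_nhds.congr fun n => ?_
      rw [h2, mul_zero]
    · have h4 : (if l = i then (if i = j then (if i = k then (1 : ℝ)
          else if i + 1 = k then -1 else 0) else 0) else 0) = 0 := by
        by_cases h5 : l = i
        · rw [if_pos h5, if_neg fun h6 => h1 ⟨h5, h5.trans h6⟩]
        · rw [if_neg h5]
      rw [h4]
      have h6 := (((RaK_hi hf (k := k) l h2 hlm).mul
        ((RaK_u_lim hf hk hkm i).mul (RaK_u_lim hf hk hkm j)))).mul_const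
        (RaK_c φ zX l i * RaK_c ψ zY l j)
      rw [zero_mul, zero_mul] at h6
      refine h6.congr fun n => ?_
      ring
  have h3 := tendsto_finsetSum (Finset.range (m + 1)) key
  simp only [e1]
  rw [Finset.sum_ite_eq'] at h3
  have h4 : (if i ∈ Finset.range (m + 1) then (if i = j then (if i = k then (1 : ℝ)
      else if i + 1 = k then -1 else 0) else 0) else 0)
      = if i = j then (if i = k then 1 else if i + 1 = k then -1 else 0) else 0 := by
    by_cases h5 : i ∈ Finset.range (m + 1)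
    · rw [if_pos h5]
    · rw [if_neg h5]
      have h6 : ¬ i < m + 1 := fun h => h5 (Finset.mem_range.2 h)
      rw [if_neg (by omega)]
  rw [h4] at h3
  exact h3

/-- The limit of the scaled row form. -/
private theorem RaK_eps {X : Submodule ℂ (B → ℂ)} {DX : ℕ}
    {φ zX : ℕ → B → ℝ} (hX : Flag X DX φ zX) {m k : ℕ}
    {f : ℕ → ℕ → ℝ} (hf : Hi m (-1) f) (hk : 1 ≤ k) (hkm : k ≤ m) (hkX : k < DX)
    {Y : ℕ → ℕ → ℂ} {Y0 : ℕ → ℂ} (hY : ∀ l, Tendsto (fun n => Y n l) uf (𝓝 (Y0 l))) {l : ℕ}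
    (hl : l < k) :
    Tendsto (fun n => (∑ l' ∈ Finset.range (m + 1), ((RaK_r f k n * f n l' : ℝ) : ℂ)
      * (pr (φ l') (fun b => (zX l b : ℂ)) * Y n l')) - Y n l / (RaK_u f k n l : ℂ)) uf
      (𝓝 0) := by
  have e1 : ∀ n, (∑ l' ∈ Finset.range (m + 1), ((RaK_r f k n * f n l' : ℝ) : ℂ)
      * (pr (φ l') (fun b => (zX l b : ℂ)) * Y n l')) - Y n l / (RaK_u f k n l : ℂ)
      = ∑ l' ∈ Finset.range (m + 1), (((RaK_r f k n * f n l' : ℝ) : ℂ)
      * (pr (φ l') (fun b => (zX l b : ℂ)) * Y n l')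
        - if l' = l then Y n l / (RaK_u f k n l : ℂ) else 0) := by
    intro n
    rw [Finset.sum_sub_distrib, Finset.sum_ite_eq', if_pos (Finset.mem_range.2 (by omega))]
  have key : ∀ l' ∈ Finset.range (m + 1), Tendsto (fun n => ((RaK_r f k n * f n l' : ℝ) : ℂ)
      * (pr (φ l') (fun b => (zX l b : ℂ)) * Y n l')
        - if l' = l then Y n l / (RaK_u f k n l : ℂ) else 0) uf (𝓝 0) := ?_
  · have h0 := tendsto_finsetSum (Finset.range (m + 1)) key
    rw [Finset.sum_const_zero] at h0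
    simp only [e1]
    exact h0
  intro l' hl'
  have hlm : l' ≤ m := by
    have := Finset.mem_range.1 hl'
    omega
  by_cases h1 : l' = l
  · subst h1
    refine tendsto_const_nhds.congr fun n => ?_
    rw [if_pos rfl, hX.dual l' l' (by omega) (by omega), if_pos rfl, one_mul]
    have h2 := RaK_S2 hf hk hkm hl n
    have h3 := RaK_u_ne hf hk hkm n l'
    have h4 : RaK_r f k n * f n l' = (RaK_u f k n l')⁻¹ := eq_inv_of_mul_eq_one_left h2
    rw [h4]
    push_cast
    ring
  · by_cases h2 : l' < DX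
    · refine tendsto_const_nhds.congr fun n => ?_
      rw [if_neg h1, hX.dual l' l h2 (by omega), if_neg h1]
      ring
    · have h3 := (Complex.continuous_ofReal.tendsto 0).comp
        (RaK_S1 hf hk hkm (l := l') (by omega) hlm)
      have h4 := h3.mul ((hY l').const_mul (pr (φ l') (fun b => (zX l b : ℂ))))
      rw [Complex.ofReal_zero, zero_mul] at h4
      refine h4.congr fun n => ?_
      rw [if_neg h1, sub_zero]
      rfl

omit [DecidableEq B] in
private theorem RaK_pr_vec {X : Submodule ℂ (B → ℂ)} {D : ℕ} {φ z : ℕ → B → ℝ}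
    (hX : Flag X D φ z) (s : Fin D → ℝ) (x : Fin D → ℂ) (l : Fin D) :
    pr (φ l) (RaG_vec z s x) = (s l : ℂ) * x l := by
  have e1 : pr (φ l) (RaG_vec z s x)
      = ∑ i : Fin D, ((s i : ℂ) * x i) * pr (φ l) (fun b => (z i b : ℂ)) := by
    unfold pr RaG_vec
    simp only [Finset.mul_sum]
    rw [Finset.sum_comm]
    exact Finset.sum_congr rfl fun i _ => Finset.sum_congr rfl fun b _ => by ring
  rw [e1, Finset.sum_eq_single l]
  · rw [hX.dual l l l.2 l.2, if_pos rfl, mul_one]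
  · intro i _ hi
    rw [hX.dual l i l.2 i.2, if_neg (fun h => hi (Fin.ext h.symm)), mul_zero]
  · intro h
    exact absurd (Finset.mem_univ l) h

omit [Fintype B] [DecidableEq B] in
private theorem RaK_vec_sum {D : ℕ} (z : ℕ → B → ℝ) (s : Fin D → ℝ) (x : Fin D → ℂ) :
    RaG_vec z s x = ∑ i : Fin D, ((s i : ℂ) * x i) • fun b => (z i b : ℂ) := by
  funext b
  unfold RaG_vec
  rw [Finset.sum_apply]
  exact Finset.sum_congr rfl fun i _ => rfl

omit [DecidableEq B] in
private theorem RaK_vec_mem {X : Submodule ℂ (B → ℂ)} {D k : ℕ} {φ z : ℕ → B → ℝ}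
    (hX : Flag X D φ z) (hk : k < D) (x : Fin D → ℂ) :
    RaG_vec z (fun i : Fin D => if (i : ℕ) < k then (0 : ℝ) else 1) x ∈ Xi X φ k := by
  refine ⟨?_, fun l hl => ?_⟩
  · rw [RaK_vec_sum]
    exact X.sum_mem fun i _ => X.smul_mem _ (hX.mem i i.2)
  · have h1 := RaK_pr_vec hX (fun i : Fin D => if (i : ℕ) < k then (0 : ℝ) else 1) x
      ⟨l, hl.trans hk⟩
    simp only [hl, if_true, Complex.ofReal_zero, zero_mul] at h1
    exact h1

omit [DecidableEq B] in
private theorem RaK_vec_eq {X : Submodule ℂ (B → ℂ)} {D k : ℕ} {φ z : ℕ → B → ℝ}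
    (hX : Flag X D φ z) {v : B → ℂ} (hv : v ∈ Xi X φ k) {x : Fin D → ℂ}
    (hx : ∀ i : Fin D, k ≤ i → x i = pr (φ i) v) :
    RaG_vec z (fun i : Fin D => if (i : ℕ) < k then (0 : ℝ) else 1) x = v := by
  rw [RaK_vec_sum]
  conv_rhs => rw [hX.gen v hv.1, Finset.sum_range]
  refine Finset.sum_congr rfl fun i _ => ?_
  by_cases h : (i : ℕ) < k
  · rw [hv.2 i h]
    simp [h]
  · rw [hx i (by omega)]
    simp [h]

/-- The derivative of a linear combination of tests. -/
private theorem RaK_test {X : Submodule ℂ (B → ℂ)} {D k : ℕ} {φ z : ℕ → B → ℝ}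
    (hX : Flag X D φ z) {a : ℝ → B → ℂ}
    (h : ∀ l, k ≤ l → l < D → HasDerivAt (fun τ : ℝ => dt (a τ) (fun b => (z l b : ℂ))) 0 0)
    {v : B → ℂ} (hv : v ∈ Xi X φ k) : HasDerivAt (fun τ : ℝ => dt (a τ) v) 0 0 := by
  have h1 := hX.gen_i hv
  have h2 : ∀ τ, dt (a τ) v = ∑ l ∈ Finset.Ico k D, pr (φ l) v
      * dt (a τ) (fun b => (z l b : ℂ)) := by
    intro τ
    conv_lhs => rw [h1]
    unfold dt
    simp only [Finset.sum_apply, Pi.smul_apply, smul_eq_mul, Finset.mul_sum]
    rw [Finset.sum_comm]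
    exact Finset.sum_congr rfl fun i _ => Finset.sum_congr rfl fun b _ => by ring
  simp only [h2]
  have h3 : HasDerivAt (fun τ : ℝ => ∑ l ∈ Finset.Ico k D, pr (φ l) v
      * dt (a τ) (fun b => (z l b : ℂ))) (∑ l ∈ Finset.Ico k D, pr (φ l) v * 0) 0 := by
    refine HasDerivAt.fun_sum fun l hl => ?_
    have h4 := Finset.mem_Ico.1 hl
    exact (h l h4.1 h4.2).const_mul _
  simpa using h3

private theorem RaK_kernel {S : Sy I K B C} {X : Submodule ℂ (B → ℂ)}
    {Y : Submodule ℂ (C → ℂ)} {DX DY k : ℕ} {φ zX : ℕ → B → ℝ} {ψ zY : ℕ → C → ℝ}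
    (hX : Flag X DX φ zX) (hY : Flag Y DY ψ zY) (hk : 1 ≤ k) (hkX : k < DX) (hkY : k < DY)
    {p0 : (I → ℂ) × (B → ℂ) × (C → ℂ)} (hnd : S.Nd (Xi X φ k) (Xi Y ψ k) p0)
    {s0 : Fin DX → ℝ} {t0 : Fin DY → ℝ} {x0 : Fin DX → ℂ} {y0 : Fin DY → ℂ} {R0 : ℂ}
    {A0 B0 C0 : Fin DX → Fin DY → ℝ}
    (hs0 : s0 = fun i : Fin DX => if (i : ℕ) < k then (0 : ℝ) else 1)
    (ht0 : t0 = fun i : Fin DY => if (i : ℕ) < k then (0 : ℝ) else 1)
    (hA0 : A0 = fun (i : Fin DX) (j : Fin DY) => if (i : ℕ) = j ∧ (i : ℕ) < k then (1 : ℝ) else 0)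
    (hB0 : B0 = fun (i : Fin DX) (j : Fin DY) => if (i : ℕ) = j ∧ (i : ℕ) < k then (1 : ℝ) else 0)
    (hC0 : C0 = fun (i : Fin DX) (j : Fin DY) => if (i : ℕ) = j then
      (if (i : ℕ) = k then (1 : ℝ) else if (i : ℕ) + 1 = k then -1 else 0) else 0)
    (hv : RaG_vec zX s0 x0 = p0.2.1) (hw : RaG_vec zY t0 y0 = p0.2.2)
    (hR : R0 ≠ 0) (hx0 : x0 ⟨k - 1, by omega⟩ ≠ 0) (hy0 : y0 ⟨k - 1, by omega⟩ ≠ 0)
    (de : I → ℂ) (dx : Fin DX → ℂ) (dy : Fin DY → ℂ) (dR : ℂ)
    (ka : ∀ i : Fin DX, HasDerivAt (fun τ : ℝ => dt (S.a ((p0.1, RaG_vec zX s0 x0,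
          RaG_vec zY t0 y0)
          + τ • (de, RaG_vec zX s0 dx, RaG_vec zY t0 dy))) (fun b => (zX i b : ℂ)))
        (-(dR * ∑ j, (A0 i j : ℂ) * y0 j + R0 * ∑ j, (A0 i j : ℂ) * dy j)) 0)
    (kb : ∀ j : Fin DY, HasDerivAt (fun τ : ℝ => dt (S.b ((p0.1, RaG_vec zX s0 x0,
          RaG_vec zY t0 y0)
          + τ • (de, RaG_vec zX s0 dx, RaG_vec zY t0 dy))) (fun b => (zY j b : ℂ)))
        (-(dR * ∑ i, (B0 i j : ℂ) * x0 i + R0 * ∑ i, (B0 i j : ℂ) * dx i)) 0)
    (kc : ∑ i, ∑ j, (C0 i j : ℂ) * (dx i * y0 j + x0 i * dy j) = 0)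
    (kg : HasDerivAt (fun τ : ℝ => S.g ((p0.1, RaG_vec zX s0 x0, RaG_vec zY t0 y0)
          + τ • (de, RaG_vec zX s0 dx, RaG_vec zY t0 dy))) 0 0) :
    de = 0 ∧ dx = 0 ∧ dy = 0 ∧ dR = 0 := by
  have hp : ((p0.1, RaG_vec zX s0 x0, RaG_vec zY t0 y0) : (I → ℂ) × (B → ℂ) × (C → ℂ)) = p0 := by
    rw [hv, hw]
  rw [hp] at kg
  simp only [hp] at ka kb
  have hsA : ∀ (i : Fin DX) (g : Fin DY → ℂ), k ≤ i → ∑ j, (A0 i j : ℂ) * g j = 0 := by
    intro i g hi
    refine Finset.sum_eq_zero fun j _ => ?_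
    rw [hA0]
    simp only
    rw [if_neg (by omega), Complex.ofReal_zero, zero_mul]
  have hsB : ∀ (j : Fin DY) (g : Fin DX → ℂ), k ≤ j → ∑ i, (B0 i j : ℂ) * g i = 0 := by
    intro j g hj
    refine Finset.sum_eq_zero fun i _ => ?_
    rw [hB0]
    simp only
    rw [if_neg (by omega), Complex.ofReal_zero, zero_mul]
  have hsA' : ∀ (l : ℕ) (hl : l < k) (g : Fin DY → ℂ),
      ∑ j, (A0 ⟨l, by omega⟩ j : ℂ) * g j = g ⟨l, by omega⟩ := by
    intro l hl g
    rw [Finset.sum_eq_single (⟨l, by omega⟩ : Fin DY)]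
    · rw [hA0]
      simp only
      rw [if_pos ⟨trivial, hl⟩, Complex.ofReal_one, one_mul]
    · intro j _ hj
      rw [hA0]
      simp only
      rw [if_neg (fun h => hj (Fin.ext h.1.symm)), Complex.ofReal_zero, zero_mul]
    · intro h
      exact absurd (Finset.mem_univ _) h
  have hsB' : ∀ (l : ℕ) (hl : l < k) (g : Fin DX → ℂ),
      ∑ i, (B0 i ⟨l, by omega⟩ : ℂ) * g i = g ⟨l, by omega⟩ := by
    intro l hl g
    rw [Finset.sum_eq_single (⟨l, by omega⟩ : Fin DX)]
    · rw [hB0]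
      simp only
      rw [if_pos ⟨trivial, hl⟩, Complex.ofReal_one, one_mul]
    · intro j _ hj
      rw [hB0]
      simp only
      rw [if_neg (fun h => hj (Fin.ext h.1)), Complex.ofReal_zero, zero_mul]
    · intro h
      exact absurd (Finset.mem_univ _) h
  -- the old part
  have hke : S.Ke (Xi X φ k) (Xi Y ψ k) p0 (de, RaG_vec zX s0 dx, RaG_vec zY t0 dy) := by
    refine ⟨?_, ?_, fun z hz => ?_, fun z hz => ?_, kg⟩
    · rw [hs0]
      exact RaK_vec_mem hX hkX dx
    · rw [ht0]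
      exact RaK_vec_mem hY hkY dy
    · refine RaK_test hX (fun l hl hl' => ?_) hz
      have h1 := ka ⟨l, hl'⟩
      rw [hsA _ _ hl, hsA _ _ hl, mul_zero, mul_zero, add_zero, neg_zero] at h1
      exact h1
    · refine RaK_test hY (fun l hl hl' => ?_) hz
      have h1 := kb ⟨l, hl'⟩
      rw [hsB _ _ hl, hsB _ _ hl, mul_zero, mul_zero, add_zero, neg_zero] at h1
      exact h1
  have hz := hnd _ hke
  have hde : de = 0 := congrArg Prod.fst hz
  have hvx : RaG_vec zX s0 dx = 0 := congrArg (fun x => x.2.1) hz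
  have hvy : RaG_vec zY t0 dy = 0 := congrArg (fun x => x.2.2) hz
  have hdx : ∀ i : Fin DX, k ≤ i → dx i = 0 := by
    intro i hi
    have h1 := RaK_pr_vec hX s0 dx i
    rw [hvx, hs0] at h1
    have h2 : pr (φ i) (0 : B → ℂ) = 0 := by simp [pr]
    rw [h2] at h1
    have h3 : ¬ (i : ℕ) < k := by omega
    simpa [h3] using h1.symm
  have hdy : ∀ i : Fin DY, k ≤ i → dy i = 0 := by
    intro i hi
    have h1 := RaK_pr_vec hY t0 dy i
    rw [hvy, ht0] at h1
    have h2 : pr (ψ i) (0 : C → ℂ) = 0 := by simp [pr]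
    rw [h2] at h1
    have h3 : ¬ (i : ℕ) < k := by omega
    simpa [h3] using h1.symm
  -- the new part
  have hzero : ∀ τ : ℝ, p0 + τ • ((de, RaG_vec zX s0 dx, RaG_vec zY t0 dy) :
      (I → ℂ) × (B → ℂ) × (C → ℂ)) = p0 := by
    intro τ
    rw [hz, smul_zero, add_zero]
  simp only [hzero] at ka kb
  have h1 : ∀ (l : ℕ) (hl : l < k), dR * y0 ⟨l, by omega⟩ + R0 * dy ⟨l, by omega⟩ = 0 := by
    intro l hl
    have h2 := (ka ⟨l, by omega⟩).unique (hasDerivAt_const (0 : ℝ) _)
    rw [hsA' l hl, hsA' l hl] at h2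
    exact neg_eq_zero.1 h2
  have h2 : ∀ (l : ℕ) (hl : l < k), dR * x0 ⟨l, by omega⟩ + R0 * dx ⟨l, by omega⟩ = 0 := by
    intro l hl
    have h3 := (kb ⟨l, by omega⟩).unique (hasDerivAt_const (0 : ℝ) _)
    rw [hsB' l hl, hsB' l hl] at h3
    exact neg_eq_zero.1 h3
  have hkk : dx ⟨k - 1, by omega⟩ * y0 ⟨k - 1, by omega⟩
      + x0 ⟨k - 1, by omega⟩ * dy ⟨k - 1, by omega⟩ = 0 := by
    have h3 : ∀ i : Fin DX, ∑ j, (C0 i j : ℂ) * (dx i * y0 j + x0 i * dy j)
        = if i = ⟨k - 1, by omega⟩ then -(dx ⟨k - 1, by omega⟩ * y0 ⟨k - 1, by omega⟩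
          + x0 ⟨k - 1, by omega⟩ * dy ⟨k - 1, by omega⟩) else 0 := by
      intro i
      by_cases hi : i = ⟨k - 1, by omega⟩
      · rw [if_pos hi, Finset.sum_eq_single (⟨k - 1, by omega⟩ : Fin DY)]
        · rw [hC0, hi]
          simp only
          rw [if_true, if_neg (by omega), if_pos (by omega), Complex.ofReal_neg,
            Complex.ofReal_one, neg_one_mul]
        · intro j _ hj
          rw [hC0, hi]
          simp only
          rw [if_neg (fun h => hj (Fin.ext h.symm)), Complex.ofReal_zero, zero_mul]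
        · intro h
          exact absurd (Finset.mem_univ _) h
      · rw [if_neg hi]
        refine Finset.sum_eq_zero fun j _ => ?_
        rw [hC0]
        simp only
        by_cases h4 : (i : ℕ) = j
        · rw [if_pos h4]
          by_cases h5 : (i : ℕ) = k
          · rw [hdx i (by omega), hdy j (by omega)]
            ring
          · rw [if_neg h5, if_neg, Complex.ofReal_zero, zero_mul]
            intro h6
            exact hi (Fin.ext (by simp only; omega))
        · rw [if_neg h4, Complex.ofReal_zero, zero_mul]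
    simp only [h3] at kc
    rw [Finset.sum_ite_eq', if_pos (Finset.mem_univ _)] at kc
    exact neg_eq_zero.1 kc
  have hdR : dR = 0 := by
    have h3 := h1 (k - 1) (by omega)
    have h4 := h2 (k - 1) (by omega)
    have h5 : dR * (x0 ⟨k - 1, by omega⟩ * y0 ⟨k - 1, by omega⟩) * 2 = 0 := by
      linear_combination (x0 ⟨k - 1, by omega⟩) * h3 + (y0 ⟨k - 1, by omega⟩) * h4 - R0 * hkk
    have h6 : x0 ⟨k - 1, by omega⟩ * y0 ⟨k - 1, by omega⟩ ≠ 0 := mul_ne_zero hx0 hy0
    rcases mul_eq_zero.1 h5 with h7 | h7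
    · exact (mul_eq_zero.1 h7).resolve_right h6
    · norm_num at h7
  refine ⟨hde, ?_, ?_, hdR⟩
  · funext i
    by_cases hi : (i : ℕ) < k
    · have h3 := h2 i hi
      rw [hdR, zero_mul, zero_add] at h3
      exact (mul_eq_zero.1 h3).resolve_left hR
    · exact hdx i (by omega)
  · funext i
    by_cases hi : (i : ℕ) < k
    · have h3 := h1 i hi
      rw [hdR, zero_mul, zero_add] at h3
      exact (mul_eq_zero.1 h3).resolve_left hR
    · exact hdy i (by omega)


/-- Equal orders `k ≥ 1`.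

Proof. Coordinates: `v = ∑ l < DX, x l • zX l`, `x l = φ l (v)`, `w = ∑ l < DY, y l • zY l`; for `l
≥ DX` the
number `φ l (v)` is a fixed real linear combination of the `x l`. Let `η = √(-f k / f (k-1)) → 0`
(`Hi`, signs), `r = R / (f (k-1) η)`, `x l = f (k-1) η x' l / f l` and `y l = f (k-1) η y' l / f l`
for
`l < k` (so `x (k-1) = η x' (k-1)`), `x l = x' l` for `l ≥ k`. In the unknowns `(e, x', y', R)` the
extended system is `Λ (parameters, unknowns) = 0` with a polynomial dependence on parameters which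
tend to `0` or `1`:
`l < k`: `a (zX l) + R (y' l + small) = 0` (the terms `f l' / f l`, `l' ≥ DX`, are small), the same
for
`b`; `k ≤ l < DX`: `a (zX l) + R (f k / (f (k-1) η)) (..)= 0`, where `f k / (f (k-1) η) = -η → 0`;
the constraint divided by `f k`: `x k y k + ∑ k < l ≤ m, (f l / f k) φ l ψ l
- x' (k-1) y' (k-1) + ∑ l < k - 1, (f (k-1)^2 η^2 / (f k f l)) x' l y' l = 0`, where
`f (k-1)^2 η^2 / (f k f l) = - f (k-1) / f l → 0`; and `g = 0`. Limit system: `a (zX l) = 0` for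
`l ≥ k`, `b (zY l) = 0`, `g = 0` at `(e, v', w')` with `v' = ∑ l ≥ k, x' l zX l`: the old system on
`Xi X φ k`, `Xi Y ψ k`, nondegenerate; `a (zX l) + R y' l = 0`, `b (zY l) + R x' l = 0` for `l < k`;
`x k y k = x' (k-1) y' (k-1)`, so `R ^ 2 = a (zX (k-1)) b (zY (k-1)) / (x k y k) > 0` by `sg`: `R`
is real
and nonzero. The scaled unknowns are bounded: from the equations `l = k - 1`, `R y' (k-1)` and
`R x' (k-1)` tend to nonzero numbers (`ra`, `rb`), and the constraint shows that `R ^ 2` tends to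
the
above number; then `x' l = - b (zY l) / R + ..`. Kernel of the limit system: the old part is zero,
so
`d(R y' l) = 0`, `d(R x' l) = 0`, `d(x' (k-1) y' (k-1)) = 0`, so `dR = 0` and so on. `rig` gives the
reality, `rig_ker` gives `Nd` (for fixed `n` the scaling is a linear isomorphism; test vectors: the
`zX l`). -/
theorem ra_eq {S : Sy I K B C} (hS : S.Sm) {X : Submodule ℂ (B → ℂ)} {Y : Submodule ℂ (C → ℂ)}
    (cX : Cj X) (cY : Cj Y) {DX DY m : ℕ} {φ zX : ℕ → B → ℝ} {ψ zY : ℕ → C → ℝ}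
    (hX : Flag X DX φ zX) (hY : Flag Y DY ψ zY) (hm : min DX DY ≤ m + 1) {f : ℕ → ℕ → ℝ}
    (hf : Hi m (-1) f) {p : ℕ → (I → ℂ) × (B → ℂ) × (C → ℂ)} {p0 : (I → ℂ) × (B → ℂ) × (C → ℂ)}
    {r : ℕ → ℂ} (hp : Tendsto p uf (𝓝 p0))
    (hsol : ∀ n, (S.ext (rw0 φ ψ m (f n))).Sol X Y (fun o => o.elim (r n) (p n).1, (p n).2))
    {k : ℕ} (hk : 1 ≤ k) (hkX : k < DX) (hkY : k < DY)
    (h0 : S.Sol (Xi X φ k) (Xi Y ψ k) p0) (hv : pr (φ k) p0.2.1 ≠ 0) (hw : pr (ψ k) p0.2.2 ≠ 0)
    (hr : cj3 p0 = p0) (hnd : S.Nd (Xi X φ k) (Xi Y ψ k) p0)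
    (sg : 0 < (dt (S.a p0) (fun b => (zX (k - 1) b : ℂ)) * pr (φ k) p0.2.1
      * (dt (S.b p0) (fun c => (zY (k - 1) c : ℂ)) * pr (ψ k) p0.2.2)).re) :
    ∀ᶠ n in uf, cj3 (p n) = p n ∧ (r n).im = 0 ∧
      (S.ext (rw0 φ ψ m (f n))).Nd X Y (fun o => o.elim (r n) (p n).1, (p n).2) := by
  have hkm : k ≤ m := by omega
  have cpr : ∀ (g : B → ℝ), Tendsto (fun n => pr g (p n).2.1) uf (𝓝 (pr g p0.2.1)) := fun g =>
    ((continuous_pr g).comp (continuous_fst.comp continuous_snd)).continuousAt.tendsto.comp hp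
  have cpr' : ∀ (g : C → ℝ), Tendsto (fun n => pr g (p n).2.2) uf (𝓝 (pr g p0.2.2)) := fun g =>
    ((continuous_pr g).comp (continuous_snd.comp continuous_snd)).continuousAt.tendsto.comp hp
  have la : ∀ z : B → ℂ, Tendsto (fun n => dt (S.a (p n)) z) uf (𝓝 (dt (S.a p0) z)) := by
    intro z
    have h1 : Continuous fun q => dt (S.a q) z := by
      unfold dt
      have h2 := hS.ha.continuous
      exact continuous_finsetSum _ fun b _ => ((continuous_apply b).comp h2).mul_const _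
    exact (h1.tendsto p0).comp hp
  have lb : ∀ z : C → ℂ, Tendsto (fun n => dt (S.b (p n)) z) uf (𝓝 (dt (S.b p0) z)) := by
    intro z
    have h1 : Continuous fun q => dt (S.b q) z := by
      unfold dt
      have h2 := hS.hb.continuous
      exact continuous_finsetSum _ fun b _ => ((continuous_apply b).comp h2).mul_const _
    exact (h1.tendsto p0).comp hp
  have hune : ∀ n l, (RaK_u f k n l : ℂ) ≠ 0 := fun n l => by
    exact_mod_cast RaK_u_ne hf hk hkm n l
  have hrne : ∀ n, (RaK_r f k n : ℂ) ≠ 0 := fun n => by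
    exact_mod_cast RaK_r_ne hf hk hkm n
  have hfne : ∀ n, (f n k : ℂ) ≠ 0 := fun n => by exact_mod_cast hf.ne n k hkm
  -- the equations
  have ea : ∀ n l, l < k → dt (S.a (p n)) (fun b => (zX l b : ℂ)) + r n / (RaK_r f k n : ℂ)
      * ∑ l' ∈ Finset.range (m + 1), ((RaK_r f k n * f n l' : ℝ) : ℂ)
        * (pr (φ l') (fun b => (zX l b : ℂ)) * pr (ψ l') (p n).2.2) = 0 := by
    intro n l hl
    have h1 := (hsol n).ea _ (hX.mem l (by omega))
    change dt (S.a (p n) + r n • bfB (rw0 φ ψ m (f n)) (p n).2.2) _ = 0 at h1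
    rw [dt_add_left, dt_smul_left, dt_bfB, bf_rw0] at h1
    rw [← h1]
    congr 1
    rw [Finset.mul_sum, Finset.mul_sum]
    refine Finset.sum_congr rfl fun l' _ => ?_
    have h2 := hrne n
    push_cast
    field_simp
  have eb : ∀ n l, l < k → dt (S.b (p n)) (fun b => (zY l b : ℂ)) + r n / (RaK_r f k n : ℂ)
      * ∑ l' ∈ Finset.range (m + 1), ((RaK_r f k n * f n l' : ℝ) : ℂ)
        * (pr (ψ l') (fun b => (zY l b : ℂ)) * pr (φ l') (p n).2.1) = 0 := by
    intro n l hl
    have h1 := (hsol n).eb _ (hY.mem l (by omega))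
    change dt (S.b (p n) + r n • bfC (rw0 φ ψ m (f n)) (p n).2.1) _ = 0 at h1
    rw [dt_add_left, dt_smul_left, dt_bfC, bf_rw0] at h1
    rw [← h1]
    congr 1
    rw [Finset.mul_sum, Finset.mul_sum]
    refine Finset.sum_congr rfl fun l' _ => ?_
    have h2 := hrne n
    push_cast
    field_simp
  have ec : ∀ n, ∑ l ∈ Finset.range (m + 1),
      (((f n k)⁻¹ * (RaK_u f k n l * RaK_u f k n l * f n l) : ℝ) : ℂ)
        * (pr (φ l) (p n).2.1 / (RaK_u f k n l : ℂ)
          * (pr (ψ l) (p n).2.2 / (RaK_u f k n l : ℂ))) = 0 := by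
    intro n
    have h1 := congrFun (hsol n).eg none
    change bf (rw0 φ ψ m (f n)) (p n).2.1 (p n).2.2 = 0 at h1
    rw [bf_rw0] at h1
    have h2 := congrArg (fun z => (f n k : ℂ)⁻¹ * z) h1
    simp only [mul_zero, Finset.mul_sum] at h2
    rw [← h2]
    refine Finset.sum_congr rfl fun l _ => ?_
    have h3 := hune n l
    push_cast
    field_simp
  -- the signs
  have hreal : ∀ z : ℂ, starRingEnd ℂ z = z → z.im = 0 := fun z => Complex.conj_eq_iff_im.1
  have ra : ∀ l, (dt (S.a p0) (fun b => (zX l b : ℂ))).im = 0 := by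
    intro l
    apply hreal
    have h1 := hS.ca p0
    rw [hr] at h1
    have h2 : cj (fun b => (zX l b : ℂ)) = fun b => (zX l b : ℂ) := by
      funext b
      simp [cj]
    rw [← dt_cj, h2, ← h1]
  have rb : ∀ l, (dt (S.b p0) (fun b => (zY l b : ℂ))).im = 0 := by
    intro l
    apply hreal
    have h1 := hS.cb p0
    rw [hr] at h1
    have h2 : cj (fun b => (zY l b : ℂ)) = fun b => (zY l b : ℂ) := by
      funext b
      simp [cj]
    rw [← dt_cj, h2, ← h1]
  have rv : ∀ l, (pr (φ l) p0.2.1).im = 0 := by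
    intro l
    apply hreal
    have h1 : cj p0.2.1 = p0.2.1 := congrArg (fun x => x.2.1) hr
    rw [← pr_cj, h1]
  have rw1 : ∀ l, (pr (ψ l) p0.2.2).im = 0 := by
    intro l
    apply hreal
    have h1 : cj p0.2.2 = p0.2.2 := congrArg (fun x => x.2.2) hr
    rw [← pr_cj, h1]
  have hane : dt (S.a p0) (fun b => (zX (k - 1) b : ℂ)) ≠ 0 := by
    intro h
    rw [h] at sg
    simp at sg
  have hbne : dt (S.b p0) (fun b => (zY (k - 1) b : ℂ)) ≠ 0 := by
    intro h
    rw [h] at sg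
    simp at sg
  -- the limits of the unknowns
  have lT : ∀ l, l ≤ m → Tendsto
      (fun n => (((f n k)⁻¹ * (RaK_u f k n l * RaK_u f k n l * f n l) : ℝ) : ℂ)) uf
      (𝓝 (if l = k then 1 else if l + 1 = k then -1 else 0)) := by
    intro l hl
    have h1 := (Complex.continuous_ofReal.tendsto _).comp (RaK_S4 hf hk hkm hl)
    have h2 : ((if l = k then (1 : ℝ) else if l + 1 = k then -1 else 0 : ℝ) : ℂ)
        = if l = k then 1 else if l + 1 = k then -1 else 0 := by
      split_ifs <;> simp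
    rw [h2] at h1
    exact h1
  have hu1 : ∀ n l, k ≤ l → RaK_u f k n l = 1 := fun n l hl => by
    unfold RaK_u
    rw [if_neg (by omega)]
  obtain ⟨R0, lR, hR0, hRR, lx, ly⟩ := RaK_unk hk hkm (R := fun n => r n / (RaK_r f k n : ℂ))
    (a := fun n l => dt (S.a (p n)) (fun b => (zX l b : ℂ)))
    (b := fun n l => dt (S.b (p n)) (fun b => (zY l b : ℂ)))
    (PA := fun n l => ∑ l' ∈ Finset.range (m + 1), ((RaK_r f k n * f n l' : ℝ) : ℂ)
        * (pr (φ l') (fun b => (zX l b : ℂ)) * pr (ψ l') (p n).2.2))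
    (PB := fun n l => ∑ l' ∈ Finset.range (m + 1), ((RaK_r f k n * f n l' : ℝ) : ℂ)
        * (pr (ψ l') (fun b => (zY l b : ℂ)) * pr (φ l') (p n).2.1))
    (x := fun n l => pr (φ l) (p n).2.1 / (RaK_u f k n l : ℂ))
    (y := fun n l => pr (ψ l) (p n).2.2 / (RaK_u f k n l : ℂ))
    (Θ := fun n l => (((f n k)⁻¹ * (RaK_u f k n l * RaK_u f k n l * f n l) : ℝ) : ℂ))
    (a0 := fun l => dt (S.a p0) (fun b => (zX l b : ℂ)))
    (b0 := fun l => dt (S.b p0) (fun b => (zY l b : ℂ)))
    (X0 := fun l => pr (φ l) p0.2.1) (Y0 := fun l => pr (ψ l) p0.2.2)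
    (fun l _ => la _) (fun l _ => lb _) ea eb
    (fun l hl => RaK_eps hX hf hk hkm hkX (fun l' => cpr' (ψ l')) hl)
    (fun l hl => RaK_eps hY hf hk hkm hkY (fun l' => cpr (φ l')) hl)
    (fun l hl => by
      refine (cpr (φ l)).congr fun n => ?_
      rw [hu1 n l hl, Complex.ofReal_one, div_one])
    (fun l hl => by
      refine (cpr' (ψ l)).congr fun n => ?_
      rw [hu1 n l hl, Complex.ofReal_one, div_one])
    lT ec (mul_ne_zero hv hw) (mul_ne_zero hane hbne)
  -- the multiplier is real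
  have rR : R0.im = 0 := by
    have h1 : (R0 * (pr (φ k) p0.2.1 * pr (ψ k) p0.2.2)) ^ 2
        = dt (S.a p0) (fun b => (zX (k - 1) b : ℂ)) * pr (φ k) p0.2.1
      * (dt (S.b p0) (fun c => (zY (k - 1) c : ℂ)) * pr (ψ k) p0.2.2) := by
      linear_combination (pr (φ k) p0.2.1 * pr (ψ k) p0.2.2) * hRR
    obtain ⟨c, hc⟩ : ∃ c : ℝ, pr (φ k) p0.2.1 * pr (ψ k) p0.2.2 = (c : ℂ) := by
      refine ⟨(pr (φ k) p0.2.1 * pr (ψ k) p0.2.2).re, ?_⟩
      apply Complex.ext
      · simp
      · rw [Complex.mul_im, rv, rw1]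
        simp
    have hc0 : c ≠ 0 := by
      rintro rfl
      exact mul_ne_zero hv hw hc
    rw [hc] at h1
    rw [← h1] at sg
    have him : ((R0 * (c : ℂ)) ^ 2).im = 0 := by
      rw [h1, Complex.mul_im, Complex.mul_im, Complex.mul_im, ra, rb, rv, rw1]
      ring
    have h2 : (R0 * (c : ℂ)).im = R0.im * c := by
      rw [Complex.mul_im]
      simp
    have h3 : (R0 * (c : ℂ)).re = R0.re * c := by
      rw [Complex.mul_re]
      simp
    have h4 : ((R0 * (c : ℂ)) ^ 2).im = 2 * (R0.re * c) * (R0.im * c) := by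
      rw [sq, Complex.mul_im, h2, h3]
      ring
    have h5 : ((R0 * (c : ℂ)) ^ 2).re = (R0.re * c) ^ 2 - (R0.im * c) ^ 2 := by
      rw [sq, Complex.mul_re, h2, h3]
      ring
    rw [h4] at him
    rw [h5] at sg
    by_contra h6
    have h7 : R0.im * c ≠ 0 := mul_ne_zero h6 hc0
    have h8 : R0.re * c = 0 := by
      rcases mul_eq_zero.1 him with h9 | h9
      · linarith
      · exact absurd h9 h7
    rw [h8] at sg
    have h9 : 0 < (R0.im * c) ^ 2 := by positivity
    linarith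
  -- application of the general lemma
  obtain ⟨x0, hx0⟩ : ∃ x0 : Fin DX → ℂ, x0 = fun i : Fin DX => if (i : ℕ) < k then
      -(dt (S.b p0) (fun b => (zY i b : ℂ))) / R0 else pr (φ i) p0.2.1 := ⟨_, rfl⟩
  obtain ⟨y0, hy0⟩ : ∃ y0 : Fin DY → ℂ, y0 = fun i : Fin DY => if (i : ℕ) < k then
      -(dt (S.a p0) (fun b => (zX i b : ℂ))) / R0 else pr (ψ i) p0.2.2 := ⟨_, rfl⟩
  have hvx : RaG_vec zX (fun i : Fin DX => if (i : ℕ) < k then (0 : ℝ) else 1) x0 = p0.2.1 :=
    RaK_vec_eq hX h0.sv fun i hi => by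
      rw [hx0]
      simp only
      rw [if_neg (by omega)]
  have hwy : RaG_vec zY (fun i : Fin DY => if (i : ℕ) < k then (0 : ℝ) else 1) y0 = p0.2.2 :=
    RaK_vec_eq hY h0.sw fun i hi => by
      rw [hy0]
      simp only
      rw [if_neg (by omega)]
  have hR0' : starRingEnd ℂ R0 = R0 := Complex.conj_eq_iff_im.2 rR
  refine RaG_main hS hX hY hsol (s := fun n i => RaK_u f k n i) (t := fun n j => RaK_u f k n j)
    (ρ := RaK_r f k) (κ := fun n => (f n k)⁻¹)
    (s0 := fun i : Fin DX => if (i : ℕ) < k then (0 : ℝ) else 1)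
    (t0 := fun i : Fin DY => if (i : ℕ) < k then (0 : ℝ) else 1)
    (A0 := fun (i : Fin DX) (j : Fin DY) => if (i : ℕ) = j ∧ (i : ℕ) < k then (1 : ℝ) else 0)
    (B0 := fun (i : Fin DX) (j : Fin DY) => if (i : ℕ) = j ∧ (i : ℕ) < k then (1 : ℝ) else 0)
    (C0 := fun (i : Fin DX) (j : Fin DY) => if (i : ℕ) = j then
      (if (i : ℕ) = k then (1 : ℝ) else if (i : ℕ) + 1 = k then -1 else 0) else 0)
    (e0 := p0.1) (x0 := x0) (y0 := y0) (R0 := R0)
    (fun n i => RaK_u_ne hf hk hkm n i) (fun n i => RaK_u_ne hf hk hkm n i)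
    (RaK_r_ne hf hk hkm) (fun i => RaK_u_lim hf hk hkm i) (fun j => RaK_u_lim hf hk hkm j)
    (fun i j => RaK_lA hX hY hf hk hkm hkX hkY i.2 j.2 (e := j) (fun h => h.symm))
    (fun i j => RaK_lA hX hY hf hk hkm hkX hkY i.2 j.2 (e := i) (fun h => rfl))
    (fun i j => RaK_lC hX hY hm hf hk hkm hkX hkY i.2 j.2)
    ((continuous_fst.tendsto p0).comp hp) ?_ ?_ lR (congrArg Prod.fst hr) ?_ ?_ rR ?_
  · intro i
    rw [hx0]
    by_cases hi : (i : ℕ) < k
    · simp only [hi, if_true]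
      exact lx i hi
    · simp only [hi, if_false]
      refine (cpr (φ i)).congr fun n => ?_
      rw [hu1 n i (by omega), Complex.ofReal_one, div_one]
  · intro i
    rw [hy0]
    by_cases hi : (i : ℕ) < k
    · simp only [hi, if_true]
      exact ly i hi
    · simp only [hi, if_false]
      refine (cpr' (ψ i)).congr fun n => ?_
      rw [hu1 n i (by omega), Complex.ofReal_one, div_one]
  · funext i
    rw [hx0]
    change starRingEnd ℂ _ = _
    simp only
    split_ifs with hi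
    · rw [map_div₀, map_neg, hR0', Complex.conj_eq_iff_im.2 (rb i)]
    · exact Complex.conj_eq_iff_im.2 (rv i)
  · funext i
    rw [hy0]
    change starRingEnd ℂ _ = _
    simp only
    split_ifs with hi
    · rw [map_div₀, map_neg, hR0', Complex.conj_eq_iff_im.2 (ra i)]
    · exact Complex.conj_eq_iff_im.2 (rw1 i)
  · intro de dx dy dR ka kb kc kg
    refine RaK_kernel hX hY hk hkX hkY hnd rfl rfl rfl rfl rfl hvx hwy hR0 ?_ ?_ de dx dy dR
      ka kb kc kg
    · rw [hx0]
      simp only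
      rw [if_pos (by omega)]
      exact div_ne_zero (neg_ne_zero.2 hbne) hR0
    · rw [hy0]
      simp only
      rw [if_pos (by omega)]
      exact div_ne_zero (neg_ne_zero.2 hane) hR0

end

end Pool.Agent.MPb0eK
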