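import Mathlib
import Pool.Agent.Lib.MP_b0e20b_ag_K.FA
import Pool.Agent.Lib.MP_b0e20b_ag_K.Rig

/-!
# MP_b0e20b_ag, project K: the abstract row lemma: reality, orders j + 1 and j
-/

set_option autoImplicit false

open scoped BigOperators Topology
open Filter

namespace Pool.Agent.MPb0eK

open MPb0eR (c1 c2 c3 tr q Sup Rl Rea uf Nrm cj AF scl)

section

variable {I K B C : Type} [Fintype I] [Fintype K] [Fintype B] [Fintype C] [DecidableEq B]
  [DecidableEq C]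

/-- The parameters of the scaled system. -/
private abbrev RaU_Z (DX DY : ℕ) : Type :=
  (Fin DX → ℝ) × (Fin DY → ℝ) × (Fin DX → Fin DY → ℝ) × (Fin DY → Fin DX → ℝ) ×
    (Fin DX → Fin DY → ℝ)

/-- The unknowns of the scaled system. -/
private abbrev RaU_E (I : Type) (DX DY : ℕ) : Type :=
  (I → ℂ) × (Fin DX → ℂ) × (Fin DY → ℂ) × ℂ

/-- The values of the scaled system. -/
private abbrev RaU_F (K : Type) (DX DY : ℕ) : Type :=
  (Fin DX → ℂ) × (Fin DY → ℂ) × ℂ × (K → ℂ)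

/-- A real vector as a complex one. -/
private def RaU_c {B : Type} (z : B → ℝ) : B → ℂ := fun b => (z b : ℂ)

/-- The vector with scaled coordinates. -/
private noncomputable def RaU_V {B : Type} (D : ℕ) (z : ℕ → B → ℝ) (α : Fin D → ℝ)
    (x : Fin D → ℂ) : B → ℂ :=
  ∑ l : Fin D, (α l • x l) • RaU_c (z l)

/-- The point of the old system. -/
private noncomputable def RaU_P {I B C : Type} {DX DY : ℕ} (zX : ℕ → B → ℝ) (zY : ℕ → C → ℝ)
    (z : RaU_Z DX DY) (e : RaU_E I DX DY) : (I → ℂ) × (B → ℂ) × (C → ℂ) :=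
  (e.1, RaU_V DX zX z.1 e.2.1, RaU_V DY zY z.2.1 e.2.2.1)

/-- The scaled system. -/
private noncomputable def RaU_Phi {DX DY : ℕ} (S : Sy I K B C) (zX : ℕ → B → ℝ)
    (zY : ℕ → C → ℝ) (w : RaU_Z DX DY × RaU_E I DX DY) : RaU_F K DX DY :=
  (fun l => dt (S.a (RaU_P zX zY w.1 w.2)) (RaU_c (zX l)) +
      w.2.2.2.2 * ∑ l' : Fin DY, w.1.2.2.1 l l' • w.2.2.2.1 l',
    fun l => dt (S.b (RaU_P zX zY w.1 w.2)) (RaU_c (zY l)) +
      w.2.2.2.2 * ∑ l' : Fin DX, w.1.2.2.2.1 l l' • w.2.2.1 l',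
    ∑ l : Fin DX, ∑ l' : Fin DY, w.1.2.2.2.2 l l' • (w.2.2.1 l * w.2.2.2.1 l'),
    S.g (RaU_P zX zY w.1 w.2))

private theorem RaU_contDiff {DX DY : ℕ} {S : Sy I K B C} (hS : S.Sm) (zX : ℕ → B → ℝ)
    (zY : ℕ → C → ℝ) :
    ContDiff ℝ 1 (RaU_Phi S zX zY : RaU_Z DX DY × RaU_E I DX DY → RaU_F K DX DY) := by
  have hV : ∀ (D : ℕ) (X : Type) [Fintype X] (z : ℕ → X → ℝ),
      ContDiff ℝ 1 fun w : (Fin D → ℝ) × (Fin D → ℂ) => RaU_V D z w.1 w.2 := by
    intro D X _ z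
    unfold RaU_V
    fun_prop
  have hP : ContDiff ℝ 1 fun w : RaU_Z DX DY × RaU_E I DX DY => RaU_P zX zY w.1 w.2 := by
    have h1 : ContDiff ℝ 1 fun w : RaU_Z DX DY × RaU_E I DX DY => (w.1.1, w.2.2.1) := by
      fun_prop
    have h2 : ContDiff ℝ 1 fun w : RaU_Z DX DY × RaU_E I DX DY => (w.1.2.1, w.2.2.2.1) := by
      fun_prop
    have h3 : ContDiff ℝ 1 fun w : RaU_Z DX DY × RaU_E I DX DY => w.2.1 := by fun_prop
    exact h3.prodMk (((hV DX B zX).comp h1).prodMk ((hV DY C zY).comp h2))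
  have hd : ∀ (X : Type) [Fintype X] (z : X → ℂ), ContDiff ℝ 1 fun x : X → ℂ => dt x z := by
    intro X _ z
    unfold dt
    fun_prop
  have ha : ContDiff ℝ 1 fun w : RaU_Z DX DY × RaU_E I DX DY => S.a (RaU_P zX zY w.1 w.2) :=
    hS.ha.comp hP
  have hb : ContDiff ℝ 1 fun w : RaU_Z DX DY × RaU_E I DX DY => S.b (RaU_P zX zY w.1 w.2) :=
    hS.hb.comp hP
  have hg : ContDiff ℝ 1 fun w : RaU_Z DX DY × RaU_E I DX DY => S.g (RaU_P zX zY w.1 w.2) :=
    hS.hg.comp hP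
  unfold RaU_Phi
  refine ContDiff.prodMk (contDiff_pi.2 fun l => ?_) (ContDiff.prodMk (contDiff_pi.2 fun l => ?_)
    (ContDiff.prodMk ?_ hg))
  · refine ((hd B _).comp ha).add ?_
    fun_prop
  · refine ((hd C _).comp hb).add ?_
    fun_prop
  · fun_prop


/-- The matrix of a bilinear form. -/
private noncomputable def RaU_m (F : B → C → ℝ) (zX : ℕ → B → ℝ) (zY : ℕ → C → ℝ) (l l' : ℕ) :
    ℝ := ∑ b, ∑ c, F b c * (zX l b * zY l' c)

private theorem RaU_bf_m (F : B → C → ℝ) (zX : ℕ → B → ℝ) (zY : ℕ → C → ℝ) (l l' : ℕ) :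
    bf F (RaU_c (zX l)) (RaU_c (zY l')) = (RaU_m F zX zY l l' : ℂ) := by
  unfold bf RaU_m RaU_c
  push_cast
  rfl

private theorem RaU_bf_right (F : B → C → ℝ) (x : B → ℂ) {D : ℕ} (y : Fin D → ℂ)
    (z : Fin D → C → ℂ) : bf F x (∑ l, y l • z l) = ∑ l, y l * bf F x (z l) := by
  unfold bf
  simp only [Finset.sum_apply, Pi.smul_apply, smul_eq_mul, Finset.mul_sum]
  rw [Finset.sum_comm]
  refine (Finset.sum_congr rfl fun c _ => Finset.sum_comm).trans ?_
  rw [Finset.sum_comm]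
  refine Finset.sum_congr rfl fun l _ => ?_
  rw [Finset.sum_comm]
  exact Finset.sum_congr rfl fun b _ => Finset.sum_congr rfl fun c _ => by ring

private theorem RaU_bf_left (F : B → C → ℝ) (y : C → ℂ) {D : ℕ} (x : Fin D → ℂ)
    (z : Fin D → B → ℂ) : bf F (∑ l, x l • z l) y = ∑ l, x l * bf F (z l) y := by
  unfold bf
  simp only [Finset.sum_apply, Pi.smul_apply, smul_eq_mul, Finset.sum_mul, Finset.mul_sum]
  refine (Finset.sum_congr rfl fun b _ => Finset.sum_comm).trans ?_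
  rw [Finset.sum_comm]
  refine Finset.sum_congr rfl fun l _ => ?_
  exact Finset.sum_congr rfl fun b _ => Finset.sum_congr rfl fun c _ => by ring

private theorem RaU_gen {X : Submodule ℂ (B → ℂ)} {D : ℕ} {φ z : ℕ → B → ℝ}
    (hX : Flag X D φ z) {v : B → ℂ} (hv : v ∈ X) :
    v = ∑ l : Fin D, pr (φ l) v • RaU_c (z l) := by
  have h1 := hX.gen v hv
  rw [Finset.sum_range] at h1
  exact h1

/-- The scaled unknowns. -/
private noncomputable def RaU_sc {DX DY : ℕ} (φ : ℕ → B → ℝ) (ψ : ℕ → C → ℝ)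
    (α : Fin DX → ℝ) (β : Fin DY → ℝ) (c : ℝ) (P : (Option I → ℂ) × (B → ℂ) × (C → ℂ)) :
    RaU_E I DX DY :=
  (fun i => P.1 (some i), fun l => (α l)⁻¹ • pr (φ l) P.2.1,
    fun l => (β l)⁻¹ • pr (ψ l) P.2.2, c • P.1 none)

/-- The parameters. -/
private noncomputable def RaU_z {DX DY : ℕ} (F : B → C → ℝ) (zX : ℕ → B → ℝ) (zY : ℕ → C → ℝ)
    (α : Fin DX → ℝ) (β : Fin DY → ℝ) (c κ : ℝ) : RaU_Z DX DY :=
  (α, β, fun l l' => RaU_m F zX zY l l' / c * β l', fun l' l => RaU_m F zX zY l l' / c * α l,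
    fun l l' => κ * (α l * RaU_m F zX zY l l' * β l'))

private theorem RaU_P_sc {X : Submodule ℂ (B → ℂ)} {Y : Submodule ℂ (C → ℂ)} {DX DY : ℕ}
    {φ zX : ℕ → B → ℝ} {ψ zY : ℕ → C → ℝ} (hX : Flag X DX φ zX) (hY : Flag Y DY ψ zY)
    (F : B → C → ℝ) {α : Fin DX → ℝ} {β : Fin DY → ℝ} (hα : ∀ l, α l ≠ 0) (hβ : ∀ l, β l ≠ 0)
    (c κ : ℝ) {P : (Option I → ℂ) × (B → ℂ) × (C → ℂ)} (hv : P.2.1 ∈ X) (hw : P.2.2 ∈ Y) :
    RaU_P zX zY (RaU_z F zX zY α β c κ) (RaU_sc φ ψ α β c P) =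
      (fun i => P.1 (some i), P.2) := by
  unfold RaU_P RaU_z RaU_sc RaU_V
  refine Prod.ext rfl (Prod.ext ?_ ?_)
  · change ∑ l : Fin DX, (α l • (α l)⁻¹ • pr (φ l) P.2.1) • RaU_c (zX l) = P.2.1
    conv_rhs => rw [RaU_gen hX hv]
    exact Finset.sum_congr rfl fun l _ => by rw [smul_inv_smul₀ (hα l)]
  · change ∑ l : Fin DY, (β l • (β l)⁻¹ • pr (ψ l) P.2.2) • RaU_c (zY l) = P.2.2
    conv_rhs => rw [RaU_gen hY hw]
    exact Finset.sum_congr rfl fun l _ => by rw [smul_inv_smul₀ (hβ l)]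

/-- The scaled system at the scaled point. -/
private theorem RaU_val {S : Sy I K B C} {X : Submodule ℂ (B → ℂ)} {Y : Submodule ℂ (C → ℂ)}
    {DX DY : ℕ} {φ zX : ℕ → B → ℝ} {ψ zY : ℕ → C → ℝ} (hX : Flag X DX φ zX)
    (hY : Flag Y DY ψ zY) (F : B → C → ℝ) {α : Fin DX → ℝ} {β : Fin DY → ℝ}
    (hα : ∀ l, α l ≠ 0) (hβ : ∀ l, β l ≠ 0) {c : ℝ} (hc : c ≠ 0) (κ : ℝ)
    {P : (Option I → ℂ) × (B → ℂ) × (C → ℂ)} (hv : P.2.1 ∈ X) (hw : P.2.2 ∈ Y) :
    RaU_Phi S zX zY (RaU_z F zX zY α β c κ, RaU_sc φ ψ α β c P) =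
      (fun l : Fin DX => dt ((S.ext F).a P) (RaU_c (zX l)),
        fun l : Fin DY => dt ((S.ext F).b P) (RaU_c (zY l)),
        (κ : ℂ) * (S.ext F).g P none, fun k => (S.ext F).g P (some k)) := by
  have hcc : (c : ℂ) ≠ 0 := by exact_mod_cast hc
  unfold RaU_Phi
  simp only [RaU_P_sc hX hY F hα hβ c κ hv hw]
  refine Prod.ext (funext fun l => ?_) (Prod.ext (funext fun l => ?_) (Prod.ext ?_ rfl))
  · change dt (S.a (fun i => P.1 (some i), P.2)) (RaU_c (zX l)) + c • P.1 none *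
      ∑ l' : Fin DY, (RaU_m F zX zY l l' / c * β l') • (β l')⁻¹ • pr (ψ l') P.2.2 =
      dt (S.a (fun i => P.1 (some i), P.2) + P.1 none • bfB F P.2.2) (RaU_c (zX l))
    rw [dt_add_left, dt_smul_left, dt_bfB]
    conv_rhs => rw [RaU_gen hY hw]
    rw [RaU_bf_right]
    congr 1
    rw [Finset.mul_sum, Finset.mul_sum]
    refine Finset.sum_congr rfl fun l' _ => ?_
    rw [RaU_bf_m]
    have h1 : (β l' : ℂ) ≠ 0 := by exact_mod_cast hβ l'
    simp only [Complex.real_smul]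
    push_cast
    field_simp
  · change dt (S.b (fun i => P.1 (some i), P.2)) (RaU_c (zY l)) + c • P.1 none *
      ∑ l' : Fin DX, (RaU_m F zX zY l' l / c * α l') • (α l')⁻¹ • pr (φ l') P.2.1 =
      dt (S.b (fun i => P.1 (some i), P.2) + P.1 none • bfC F P.2.1) (RaU_c (zY l))
    rw [dt_add_left, dt_smul_left, dt_bfC]
    conv_rhs => rw [RaU_gen hX hv]
    rw [RaU_bf_left]
    congr 1
    rw [Finset.mul_sum, Finset.mul_sum]
    refine Finset.sum_congr rfl fun l' _ => ?_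
    rw [RaU_bf_m]
    have h1 : (α l' : ℂ) ≠ 0 := by exact_mod_cast hα l'
    simp only [Complex.real_smul]
    push_cast
    field_simp
  · change ∑ l : Fin DX, ∑ l' : Fin DY, (κ * (α l * RaU_m F zX zY l l' * β l')) •
      (((α l)⁻¹ • pr (φ l) P.2.1) * ((β l')⁻¹ • pr (ψ l') P.2.2)) =
      (κ : ℂ) * bf F P.2.1 P.2.2
    conv_rhs => rw [RaU_gen hX hv, RaU_gen hY hw]
    rw [RaU_bf_left, Finset.mul_sum]
    refine Finset.sum_congr rfl fun l _ => ?_
    rw [RaU_bf_right, Finset.mul_sum, Finset.mul_sum]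
    refine Finset.sum_congr rfl fun l' _ => ?_
    rw [RaU_bf_m]
    have h1 : (α l : ℂ) ≠ 0 := by exact_mod_cast hα l
    have h2 : (β l' : ℂ) ≠ 0 := by exact_mod_cast hβ l'
    simp only [Complex.real_smul]
    push_cast
    field_simp

/-- The conjugate point. -/
private noncomputable def RaU_cjE {DX DY : ℕ} (e : RaU_E I DX DY) : RaU_E I DX DY :=
  (cj e.1, cj e.2.1, cj e.2.2.1, starRingEnd ℂ e.2.2.2)

/-- The conjugate value. -/
private noncomputable def RaU_cjF {DX DY : ℕ} (e : RaU_F K DX DY) : RaU_F K DX DY :=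
  (cj e.1, cj e.2.1, starRingEnd ℂ e.2.2.1, cj e.2.2.2)

private theorem RaU_V_cj {X : Type} {D : ℕ} (z : ℕ → X → ℝ) (α : Fin D → ℝ) (x : Fin D → ℂ) :
    RaU_V D z α (cj x) = cj (RaU_V D z α x) := by
  funext b
  unfold RaU_V cj RaU_c
  simp only [Finset.sum_apply, Pi.smul_apply, smul_eq_mul, map_sum, map_mul, Complex.real_smul,
    Complex.conj_ofReal]

private theorem RaU_c_cj {X : Type} (z : X → ℝ) : cj (RaU_c z) = RaU_c z := by
  funext b
  exact Complex.conj_ofReal _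

private theorem RaU_Phi_cj {DX DY : ℕ} {S : Sy I K B C} (hS : S.Sm) (zX : ℕ → B → ℝ)
    (zY : ℕ → C → ℝ) (z : RaU_Z DX DY) (e : RaU_E I DX DY) :
    RaU_Phi S zX zY (z, RaU_cjE e) = RaU_cjF (RaU_Phi S zX zY (z, e)) := by
  have hP : RaU_P zX zY z (RaU_cjE e) = cj3 (RaU_P zX zY z e) := by
    unfold RaU_P RaU_cjE cj3
    simp only [RaU_V_cj]
  unfold RaU_Phi
  simp only [hP, hS.ca, hS.cb, hS.cg]
  refine Prod.ext (funext fun l => ?_) (Prod.ext (funext fun l => ?_) (Prod.ext ?_ rfl))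
  · simp only [RaU_cjE, RaU_cjF, cj, map_add, map_mul, map_sum, Complex.real_smul,
      Complex.conj_ofReal]
    congr 1
    have h1 := dt_cj (S.a (RaU_P zX zY z e)) (RaU_c (zX l))
    rw [RaU_c_cj] at h1
    exact h1
  · simp only [RaU_cjE, RaU_cjF, cj, map_add, map_mul, map_sum, Complex.real_smul,
      Complex.conj_ofReal]
    congr 1
    have h1 := dt_cj (S.b (RaU_P zX zY z e)) (RaU_c (zY l))
    rw [RaU_c_cj] at h1
    exact h1
  · simp only [RaU_cjE, RaU_cjF, cj, map_mul, map_sum, Complex.real_smul,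
      Complex.conj_ofReal]

private theorem RaU_cj_cont {DX DY : ℕ} :
    Continuous (RaU_cjE : RaU_E I DX DY → RaU_E I DX DY) := by
  unfold RaU_cjE cj
  fun_prop


private theorem RaU_sc_line {DX DY : ℕ} (φ : ℕ → B → ℝ) (ψ : ℕ → C → ℝ) (α : Fin DX → ℝ)
    (β : Fin DY → ℝ) (c : ℝ) (P x : (Option I → ℂ) × (B → ℂ) × (C → ℂ)) (t : ℝ) :
    RaU_sc φ ψ α β c P + t • RaU_sc φ ψ α β c x = RaU_sc φ ψ α β c (P + t • x) := by
  have h : ∀ (X : Type) [Fintype X] [DecidableEq X] (f : X → ℝ) (a b : X → ℂ),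
      pr f (a + t • b) = pr f a + t • pr f b := by
    intro X _ _ f a b
    have h1 : (t • b : X → ℂ) = (t : ℂ) • b := by
      funext i
      simp
    rw [h1, pr_add, pr_smul, Complex.real_smul]
  unfold RaU_sc
  refine Prod.ext rfl (Prod.ext (funext fun l => ?_) (Prod.ext (funext fun l => ?_) ?_))
  · change (α l)⁻¹ • pr (φ l) P.2.1 + t • (α l)⁻¹ • pr (φ l) x.2.1 =
      (α l)⁻¹ • pr (φ l) (P.2.1 + t • x.2.1)
    rw [h, smul_add, smul_comm t]
  · change (β l)⁻¹ • pr (ψ l) P.2.2 + t • (β l)⁻¹ • pr (ψ l) x.2.2 =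
      (β l)⁻¹ • pr (ψ l) (P.2.2 + t • x.2.2)
    rw [h, smul_add, smul_comm t]
  · change c • P.1 none + t • c • x.1 none = c • (P.1 none + t • x.1 none)
    rw [smul_add, smul_comm t]

private theorem RaU_vec_cj {X : Submodule ℂ (B → ℂ)} {D : ℕ} {φ z : ℕ → B → ℝ}
    (hX : Flag X D φ z) {v : B → ℂ} (hv : v ∈ X)
    (h : ∀ l : Fin D, starRingEnd ℂ (pr (φ l) v) = pr (φ l) v) : cj v = v := by
  have h1 : cj v = ∑ l : Fin D, starRingEnd ℂ (pr (φ l) v) • RaU_c (z l) := by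
    conv_lhs => rw [RaU_gen hX hv]
    funext b
    unfold cj
    simp only [Finset.sum_apply, Pi.smul_apply, smul_eq_mul, map_sum, map_mul, RaU_c,
      Complex.conj_ofReal]
  rw [h1]
  conv_rhs => rw [RaU_gen hX hv]
  exact Finset.sum_congr rfl fun l _ => by rw [h]

private theorem RaU_vec_zero {X : Submodule ℂ (B → ℂ)} {D : ℕ} {φ z : ℕ → B → ℝ}
    (hX : Flag X D φ z) {v : B → ℂ} (hv : v ∈ X) (h : ∀ l : Fin D, pr (φ l) v = 0) : v = 0 := by
  rw [RaU_gen hX hv]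
  exact Finset.sum_eq_zero fun l _ => by rw [h, zero_smul]

/-- The conclusion for a scaling with convergent unknowns and parameters. -/
private theorem RaU_core {S : Sy I K B C} (hS : S.Sm) {X : Submodule ℂ (B → ℂ)}
    {Y : Submodule ℂ (C → ℂ)} {DX DY : ℕ} {φ zX : ℕ → B → ℝ} {ψ zY : ℕ → C → ℝ}
    (hX : Flag X DX φ zX) (hY : Flag Y DY ψ zY) {F : ℕ → B → C → ℝ} {α : ℕ → Fin DX → ℝ}
    {β : ℕ → Fin DY → ℝ} {c κ : ℕ → ℝ} (hα : ∀ n l, α n l ≠ 0) (hβ : ∀ n l, β n l ≠ 0)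
    (hc : ∀ n, c n ≠ 0) {P : ℕ → (Option I → ℂ) × (B → ℂ) × (C → ℂ)}
    (hsol : ∀ n, (S.ext (F n)).Sol X Y (P n)) {z0 : RaU_Z DX DY} {q0 : RaU_E I DX DY}
    (hz : Tendsto (fun n => RaU_z (F n) zX zY (α n) (β n) (c n) (κ n)) uf (𝓝 z0))
    (hq : Tendsto (fun n => RaU_sc φ ψ (α n) (β n) (c n) (P n)) uf (𝓝 q0))
    (hr : RaU_cjE q0 = q0)
    (hk : ∀ x : RaU_E I DX DY,
      HasDerivAt (fun t : ℝ => RaU_Phi S zX zY (z0, q0 + t • x)) 0 0 → x = 0) :
    ∀ᶠ n in uf, cj3 (P n) = P n ∧ (S.ext (F n)).Nd X Y (P n) := by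
  have hcd : ContDiff ℝ 1 (RaU_Phi S zX zY : RaU_Z DX DY × RaU_E I DX DY → RaU_F K DX DY) :=
    RaU_contDiff hS zX zY
  have val : ∀ n, RaU_Phi S zX zY (RaU_z (F n) zX zY (α n) (β n) (c n) (κ n),
      RaU_sc φ ψ (α n) (β n) (c n) (P n)) = 0 := by
    intro n
    have hn := hsol n
    rw [RaU_val hX hY (F n) (hα n) (hβ n) (hc n) (κ n) hn.sv hn.sw]
    refine Prod.ext (funext fun l => ?_) (Prod.ext (funext fun l => ?_) (Prod.ext ?_
      (funext fun k => ?_)))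
    · exact hn.ea _ (hX.mem l l.2)
    · exact hn.eb _ (hY.mem l l.2)
    · change (κ n : ℂ) * (S.ext (F n)).g (P n) none = 0
      rw [hn.eg, Pi.zero_apply, mul_zero]
    · change (S.ext (F n)).g (P n) (some k) = 0
      rw [hn.eg, Pi.zero_apply]
  have val' : ∀ n, RaU_Phi S zX zY (RaU_z (F n) zX zY (α n) (β n) (c n) (κ n),
      RaU_cjE (RaU_sc φ ψ (α n) (β n) (c n) (P n))) = 0 := by
    intro n
    rw [RaU_Phi_cj hS, val n]
    refine Prod.ext (funext fun l => ?_) (Prod.ext (funext fun l => ?_) (Prod.ext ?_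
      (funext fun k => ?_))) <;> exact map_zero _
  have hq' : Tendsto (fun n => RaU_cjE (RaU_sc φ ψ (α n) (β n) (c n) (P n))) uf (𝓝 q0) := by
    have h1 := (RaU_cj_cont.tendsto q0).comp hq
    rw [hr] at h1
    exact h1
  have h1 := rig _ hcd hk hz hq hq' (Eventually.of_forall fun n => by rw [val n, val' n])
  have h2 := rig_ker _ hcd hk hz hq
  filter_upwards [h1, h2] with n e1 e2
  have hn := hsol n
  refine ⟨?_, ?_⟩
  · have g1 := congrArg Prod.fst e1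
    have g2 := congrArg (fun e : RaU_E I DX DY => e.2.1) e1
    have g3 := congrArg (fun e : RaU_E I DX DY => e.2.2.1) e1
    have g4 := congrArg (fun e : RaU_E I DX DY => e.2.2.2) e1
    have k1 : ∀ i, (P n).1 (some i) = starRingEnd ℂ ((P n).1 (some i)) := fun i => congrFun g1 i
    have k2 : ∀ l : Fin DX, starRingEnd ℂ (pr (φ l) (P n).2.1) = pr (φ l) (P n).2.1 := by
      intro l
      have h3 : (α n l)⁻¹ • pr (φ l) (P n).2.1 =
          starRingEnd ℂ ((α n l)⁻¹ • pr (φ l) (P n).2.1) := congrFun g2 l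
      rw [Complex.real_smul, map_mul, Complex.conj_ofReal] at h3
      exact (mul_left_cancel₀ (by exact_mod_cast inv_ne_zero (hα n l)) h3).symm
    have k3 : ∀ l : Fin DY, starRingEnd ℂ (pr (ψ l) (P n).2.2) = pr (ψ l) (P n).2.2 := by
      intro l
      have h3 : (β n l)⁻¹ • pr (ψ l) (P n).2.2 =
          starRingEnd ℂ ((β n l)⁻¹ • pr (ψ l) (P n).2.2) := congrFun g3 l
      rw [Complex.real_smul, map_mul, Complex.conj_ofReal] at h3
      exact (mul_left_cancel₀ (by exact_mod_cast inv_ne_zero (hβ n l)) h3).symm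
    have k4 : (P n).1 none = starRingEnd ℂ ((P n).1 none) := by
      have h3 : c n • (P n).1 none = starRingEnd ℂ (c n • (P n).1 none) := g4
      rw [Complex.real_smul, map_mul, Complex.conj_ofReal] at h3
      exact mul_left_cancel₀ (by exact_mod_cast hc n) h3
    refine Prod.ext (funext fun o => ?_) (Prod.ext (RaU_vec_cj hX hn.sv k2)
      (RaU_vec_cj hY hn.sw k3))
    cases o with
    | none => exact k4.symm
    | some i => exact (k1 i).symm
  · intro x hx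
    have g1 : RaU_sc φ ψ (α n) (β n) (c n) x = 0 := by
      refine e2 _ ?_
      have h3 : (fun t : ℝ => RaU_Phi S zX zY (RaU_z (F n) zX zY (α n) (β n) (c n) (κ n),
          RaU_sc φ ψ (α n) (β n) (c n) (P n) + t • RaU_sc φ ψ (α n) (β n) (c n) x)) =
          fun t : ℝ => (fun l : Fin DX => dt ((S.ext (F n)).a (P n + t • x)) (RaU_c (zX l)),
            fun l : Fin DY => dt ((S.ext (F n)).b (P n + t • x)) (RaU_c (zY l)),
            (κ n : ℂ) * (S.ext (F n)).g (P n + t • x) none,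
            fun k => (S.ext (F n)).g (P n + t • x) (some k)) := by
        funext t
        rw [RaU_sc_line, RaU_val hX hY (F n) (hα n) (hβ n) (hc n) (κ n)]
        · exact X.add_mem hn.sv (X.smul_of_tower_mem t hx.sv)
        · exact Y.add_mem hn.sw (Y.smul_of_tower_mem t hx.sw)
      rw [h3]
      have h4 := hasDerivAt_pi.1 hx.eg
      refine HasDerivAt.prodMk (hasDerivAt_pi.2 fun l => hx.ea _ (hX.mem l l.2))
        (HasDerivAt.prodMk (hasDerivAt_pi.2 fun l => hx.eb _ (hY.mem l l.2))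
        (HasDerivAt.prodMk ?_ (hasDerivAt_pi.2 fun k => h4 (some k))))
      have h5 := (h4 none).const_mul (κ n : ℂ)
      rw [Pi.zero_apply, mul_zero] at h5
      exact h5
    have k1 : ∀ i, x.1 (some i) = 0 := fun i => congrFun (congrArg Prod.fst g1) i
    have k2 : ∀ l : Fin DX, pr (φ l) x.2.1 = 0 := by
      intro l
      have h3 : (α n l)⁻¹ • pr (φ l) x.2.1 = 0 :=
        congrFun (congrArg (fun e : RaU_E I DX DY => e.2.1) g1) l
      exact (smul_eq_zero.1 h3).resolve_left (inv_ne_zero (hα n l))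
    have k3 : ∀ l : Fin DY, pr (ψ l) x.2.2 = 0 := by
      intro l
      have h3 : (β n l)⁻¹ • pr (ψ l) x.2.2 = 0 :=
        congrFun (congrArg (fun e : RaU_E I DX DY => e.2.2.1) g1) l
      exact (smul_eq_zero.1 h3).resolve_left (inv_ne_zero (hβ n l))
    have k4 : x.1 none = 0 := by
      have h3 : c n • x.1 none = 0 := congrArg (fun e : RaU_E I DX DY => e.2.2.2) g1
      exact (smul_eq_zero.1 h3).resolve_left (hc n)
    refine Prod.ext (funext fun o => ?_) (Prod.ext (RaU_vec_zero hX hx.sv k2)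
      (RaU_vec_zero hY hx.sw k3))
    cases o with
    | none => exact k4
    | some i => exact k1 i


/-- Ratios of the coefficients. -/
private theorem RaU_hi {m : ℕ} {s : ℝ} {f : ℕ → ℕ → ℝ} (hf : Hi m s f) {k : ℕ} (l : ℕ)
    (hkl : k < l) (hl : l ≤ m) : Tendsto (fun n => f n l / f n k) uf (𝓝 0) := by
  induction l with
  | zero => omega
  | succ l ih =>
    have h1 := hf.hi l (by omega)
    rcases Nat.lt_or_ge k l with h | h
    · have h2 := h1.mul (ih h (by omega))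
      rw [zero_mul] at h2
      refine h2.congr fun n => ?_
      rw [div_mul_div_cancel₀ (hf.ne n l (by omega))]
    · have e : k = l := by omega
      subst e
      exact h1

/-- A factor of a convergent product. -/
private theorem RaU_div {x y z : ℕ → ℂ} {y0 z0 : ℂ} (hy : Tendsto y uf (𝓝 y0)) (h0 : y0 ≠ 0)
    (hz : Tendsto z uf (𝓝 z0)) (h : ∀ n, x n * y n = z n) : Tendsto x uf (𝓝 (z0 / y0)) := by
  refine (hz.div hy h0).congr' ?_
  filter_upwards [hy.eventually_ne h0] with n hn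
  rw [Pi.div_apply, ← h n, mul_div_cancel_right₀ _ hn]

/-- The auxiliary null sequence. -/
private noncomputable def RaU_th (m j : ℕ) (f : ℕ → ℕ → ℝ) (n : ℕ) : ℝ :=
  ∑ l ∈ Finset.range j, |f n j / f n l| + ∑ l ∈ Finset.Ico (j + 1) (m + 1), |f n l / f n j| +
    1 / ((n : ℝ) + 1)

private theorem RaU_th_pos (m j : ℕ) (f : ℕ → ℕ → ℝ) (n : ℕ) : 0 < RaU_th m j f n := by
  unfold RaU_th
  have h1 : 0 ≤ ∑ l ∈ Finset.range j, |f n j / f n l| :=
    Finset.sum_nonneg fun _ _ => abs_nonneg _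
  have h2 : 0 ≤ ∑ l ∈ Finset.Ico (j + 1) (m + 1), |f n l / f n j| :=
    Finset.sum_nonneg fun _ _ => abs_nonneg _
  have h3 : 0 < 1 / ((n : ℝ) + 1) := by positivity
  linarith

private theorem RaU_th_lo (m : ℕ) {j : ℕ} (f : ℕ → ℕ → ℝ) (n : ℕ) {l : ℕ} (hl : l < j) :
    |f n j / f n l| ≤ RaU_th m j f n := by
  unfold RaU_th
  have h1 : |f n j / f n l| ≤ ∑ l ∈ Finset.range j, |f n j / f n l| :=
    Finset.single_le_sum (f := fun l => |f n j / f n l|) (fun _ _ => abs_nonneg _)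
      (Finset.mem_range.2 hl)
  have h2 : 0 ≤ ∑ l ∈ Finset.Ico (j + 1) (m + 1), |f n l / f n j| :=
    Finset.sum_nonneg fun _ _ => abs_nonneg _
  have h3 : 0 < 1 / ((n : ℝ) + 1) := by positivity
  linarith

private theorem RaU_th_hi {m j : ℕ} (f : ℕ → ℕ → ℝ) (n : ℕ) {l : ℕ}
    (hl : l ∈ Finset.Ico (j + 1) (m + 1)) : |f n l / f n j| ≤ RaU_th m j f n := by
  unfold RaU_th
  have h1 : 0 ≤ ∑ l ∈ Finset.range j, |f n j / f n l| :=
    Finset.sum_nonneg fun _ _ => abs_nonneg _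
  have h2 : |f n l / f n j| ≤ ∑ l ∈ Finset.Ico (j + 1) (m + 1), |f n l / f n j| :=
    Finset.single_le_sum (f := fun l => |f n l / f n j|) (fun _ _ => abs_nonneg _) hl
  have h3 : 0 < 1 / ((n : ℝ) + 1) := by positivity
  linarith

private theorem RaU_th_lim {m j : ℕ} {s : ℝ} {f : ℕ → ℕ → ℝ} (hf : Hi m s f) (hj : j ≤ m) :
    Tendsto (RaU_th m j f) uf (𝓝 0) := by
  have h1 : Tendsto (fun n => ∑ l ∈ Finset.range j, |f n j / f n l|) uf (𝓝 0) := by
    have h : Tendsto (fun n => ∑ l ∈ Finset.range j, |f n j / f n l|) uf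
        (𝓝 (∑ l ∈ Finset.range j, (0 : ℝ))) := by
      refine tendsto_finsetSum _ fun l hl => ?_
      have h2 := (RaU_hi hf j (Finset.mem_range.1 hl) hj).abs
      rwa [abs_zero] at h2
    rwa [Finset.sum_const_zero] at h
  have h2 : Tendsto (fun n => ∑ l ∈ Finset.Ico (j + 1) (m + 1), |f n l / f n j|) uf (𝓝 0) := by
    have h : Tendsto (fun n => ∑ l ∈ Finset.Ico (j + 1) (m + 1), |f n l / f n j|) uf
        (𝓝 (∑ l ∈ Finset.Ico (j + 1) (m + 1), (0 : ℝ))) := by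
      refine tendsto_finsetSum _ fun l hl => ?_
      have h3 := Finset.mem_Ico.1 hl
      have h2 := (RaU_hi hf (k := j) l (by omega) (by omega)).abs
      rwa [abs_zero] at h2
    rwa [Finset.sum_const_zero] at h
  have h3 : Tendsto (fun n : ℕ => 1 / ((n : ℝ) + 1)) uf (𝓝 0) :=
    tendsto_one_div_add_atTop_nhds_zero_nat.mono_left Nat.hyperfilter_le_atTop
  have h4 := (h1.add h2).add h3
  rw [add_zero, add_zero] at h4
  exact h4

/-- The scaling factors of the first vector. -/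
private noncomputable def RaU_al (D m j : ℕ) (f : ℕ → ℕ → ℝ) (n : ℕ) (l : Fin D) : ℝ :=
  if (l : ℕ) < j then f n j / f n l else if (l : ℕ) = j then RaU_th m j f n else 1

/-- The scaling factors of the second vector. -/
private noncomputable def RaU_be (D j : ℕ) (f : ℕ → ℕ → ℝ) (n : ℕ) (l : Fin D) : ℝ :=
  if (l : ℕ) < j then f n j / f n l else 1

private theorem RaU_al_ne {D m j : ℕ} {s : ℝ} {f : ℕ → ℕ → ℝ} (hf : Hi m s f) (hj : j ≤ m)
    (n : ℕ) (l : Fin D) : RaU_al D m j f n l ≠ 0 := by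
  unfold RaU_al
  split_ifs with h1 h2
  · exact div_ne_zero (hf.ne n j hj) (hf.ne n l (by omega))
  · exact (RaU_th_pos m j f n).ne'
  · exact one_ne_zero

private theorem RaU_be_ne {D m j : ℕ} {s : ℝ} {f : ℕ → ℕ → ℝ} (hf : Hi m s f) (hj : j ≤ m)
    (n : ℕ) (l : Fin D) : RaU_be D j f n l ≠ 0 := by
  unfold RaU_be
  split_ifs with h1
  · exact div_ne_zero (hf.ne n j hj) (hf.ne n l (by omega))
  · exact one_ne_zero

private theorem RaU_al_lim {D m j : ℕ} {s : ℝ} {f : ℕ → ℕ → ℝ} (hf : Hi m s f) (hj : j ≤ m)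
    (l : Fin D) : Tendsto (fun n => RaU_al D m j f n l) uf
      (𝓝 (if (l : ℕ) < j + 1 then 0 else 1)) := by
  unfold RaU_al
  rcases lt_trichotomy (l : ℕ) j with h | h | h
  · rw [if_pos (by omega)]
    simp only [if_pos h]
    exact RaU_hi hf j h hj
  · rw [if_pos (by omega)]
    simp only [if_neg h.not_lt, if_pos h]
    exact RaU_th_lim hf hj
  · rw [if_neg (by omega)]
    simp only [if_neg h.not_gt, if_neg h.ne']
    exact tendsto_const_nhds

private theorem RaU_be_lim {D m j : ℕ} {s : ℝ} {f : ℕ → ℕ → ℝ} (hf : Hi m s f) (hj : j ≤ m)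
    (l : Fin D) : Tendsto (fun n => RaU_be D j f n l) uf
      (𝓝 (if (l : ℕ) < j then 0 else 1)) := by
  unfold RaU_be
  split_ifs with h
  · exact RaU_hi hf j h hj
  · exact tendsto_const_nhds

/-- The real pairing. -/
private def RaU_p {B : Type} [Fintype B] (g z : B → ℝ) : ℝ := ∑ b, g b * z b

private theorem RaU_p_pr {B : Type} [Fintype B] (g z : B → ℝ) :
    pr g (fun b => (z b : ℂ)) = (RaU_p g z : ℂ) := by
  unfold pr RaU_p
  push_cast
  rfl

private theorem RaU_p_dual {X : Submodule ℂ (B → ℂ)} {D : ℕ} {φ z : ℕ → B → ℝ}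
    (hX : Flag X D φ z) {k l : ℕ} (hk : k < D) (hl : l < D) :
    RaU_p (φ k) (z l) = if k = l then 1 else 0 := by
  have h1 := hX.dual k l hk hl
  rw [RaU_p_pr] at h1
  split_ifs at h1 ⊢ with h
  · exact_mod_cast h1
  · exact_mod_cast h1

private theorem RaU_m_rw0 (φ zX : ℕ → B → ℝ) (ψ zY : ℕ → C → ℝ) (m : ℕ) (f : ℕ → ℝ) (l l' : ℕ) :
    RaU_m (rw0 φ ψ m f) zX zY l l' = ∑ k ∈ Finset.range (m + 1),
      f k * (RaU_p (φ k) (zX l) * RaU_p (ψ k) (zY l')) := by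
  have e1 : ∀ b c, rw0 φ ψ m f b c * (zX l b * zY l' c) = ∑ k ∈ Finset.range (m + 1),
      f k * (φ k b * zX l b * (ψ k c * zY l' c)) := by
    intro b c
    unfold rw0
    rw [Finset.sum_mul]
    exact Finset.sum_congr rfl fun k _ => by ring
  have e2 : ∀ k, f k * (RaU_p (φ k) (zX l) * RaU_p (ψ k) (zY l')) =
      ∑ b, ∑ c, f k * (φ k b * zX l b * (ψ k c * zY l' c)) := by
    intro k
    unfold RaU_p
    rw [Finset.sum_mul_sum, Finset.mul_sum]
    exact Finset.sum_congr rfl fun b _ => Finset.mul_sum _ _ _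
  unfold RaU_m
  simp only [e1, e2]
  calc ∑ b, ∑ c, ∑ k ∈ Finset.range (m + 1), f k * (φ k b * zX l b * (ψ k c * zY l' c))
      = ∑ b, ∑ k ∈ Finset.range (m + 1), ∑ c, f k * (φ k b * zX l b * (ψ k c * zY l' c)) :=
        Finset.sum_congr rfl fun b _ => Finset.sum_comm
    _ = _ := Finset.sum_comm

/-- The small part of the matrix. -/
private noncomputable def RaU_ep (φ zX : ℕ → B → ℝ) (ψ zY : ℕ → C → ℝ) (m j : ℕ) (f : ℕ → ℝ)
    (l l' : ℕ) : ℝ :=
  ∑ k ∈ Finset.Ico (j + 1) (m + 1), f k / f j * (RaU_p (φ k) (zX l) * RaU_p (ψ k) (zY l'))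

private theorem RaU_mat {X : Submodule ℂ (B → ℂ)} {Y : Submodule ℂ (C → ℂ)} {DX DY : ℕ}
    {φ zX : ℕ → B → ℝ} {ψ zY : ℕ → C → ℝ} (hX : Flag X DX φ zX) (hY : Flag Y DY ψ zY)
    {m j : ℕ} (hj : j ≤ m) (hjX : j < DX) (hjY : j < DY) (f : ℕ → ℝ) {l l' : ℕ} (hl : l < DX)
    (hl' : l' < DY) : RaU_m (rw0 φ ψ m f) zX zY l l' / f j =
      (if l = l' ∧ l < j + 1 then f l / f j else 0) + RaU_ep φ zX ψ zY m j f l l' := by
  rw [RaU_m_rw0, Finset.range_eq_Ico, ← Finset.sum_Ico_consecutive _ (Nat.zero_le (j + 1))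
    (by omega : j + 1 ≤ m + 1), add_div]
  congr 1
  · have h1 : ∑ k ∈ Finset.Ico 0 (j + 1), f k * (RaU_p (φ k) (zX l) * RaU_p (ψ k) (zY l')) =
        ∑ k ∈ Finset.Ico 0 (j + 1), if k = l then (if l = l' then f l else 0) else 0 := by
      refine Finset.sum_congr rfl fun k hk => ?_
      have h2 := Finset.mem_Ico.1 hk
      rw [RaU_p_dual hX (by omega : k < DX) hl, RaU_p_dual hY (by omega : k < DY) hl']
      by_cases h3 : k = l
      · subst h3
        rw [if_pos rfl, if_pos rfl, one_mul]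
        split_ifs <;> simp
      · rw [if_neg h3, if_neg h3, zero_mul, mul_zero]
    rw [h1, Finset.sum_ite_eq']
    by_cases h3 : l = l'
    · by_cases h4 : l < j + 1
      · rw [if_pos (Finset.mem_Ico.2 ⟨Nat.zero_le _, h4⟩), if_pos h3, if_pos ⟨h3, h4⟩]
      · rw [if_neg (fun h => h4 (Finset.mem_Ico.1 h).2), if_neg (fun h => h4 h.2), zero_div]
    · simp [h3]
  · unfold RaU_ep
    rw [Finset.sum_div]
    exact Finset.sum_congr rfl fun k _ => by ring

private theorem RaU_ep_lim {m j : ℕ} {s : ℝ} {f : ℕ → ℕ → ℝ} (hf : Hi m s f)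
    (φ zX : ℕ → B → ℝ) (ψ zY : ℕ → C → ℝ) (l l' : ℕ) :
    Tendsto (fun n => RaU_ep φ zX ψ zY m j (f n) l l') uf (𝓝 0) := by
  have h : Tendsto (fun n => RaU_ep φ zX ψ zY m j (f n) l l') uf
      (𝓝 (∑ k ∈ Finset.Ico (j + 1) (m + 1), (0 : ℝ))) := by
    unfold RaU_ep
    refine tendsto_finsetSum _ fun k hk => ?_
    have h3 := Finset.mem_Ico.1 hk
    have h2 := (RaU_hi hf (k := j) k (by omega) (by omega)).mul_const
      (RaU_p (φ k) (zX l) * RaU_p (ψ k) (zY l'))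
    rwa [zero_mul] at h2
  rwa [Finset.sum_const_zero] at h

private theorem RaU_ep_le {m j : ℕ} (f : ℕ → ℕ → ℝ) (φ zX : ℕ → B → ℝ) (ψ zY : ℕ → C → ℝ)
    (l l' n : ℕ) : |RaU_ep φ zX ψ zY m j (f n) l l'| ≤ RaU_th m j f n *
      ∑ k ∈ Finset.Ico (j + 1) (m + 1), |RaU_p (φ k) (zX l) * RaU_p (ψ k) (zY l')| := by
  unfold RaU_ep
  refine (Finset.abs_sum_le_sum_abs _ _).trans ?_
  rw [Finset.mul_sum]
  refine Finset.sum_le_sum fun k hk => ?_
  rw [abs_mul]
  exact mul_le_mul_of_nonneg_right (RaU_th_hi f n hk) (abs_nonneg _)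


/-- The limit parameters. -/
private noncomputable def RaU_z0 {DX DY : ℕ} (j : ℕ) (C0 : Fin DX → Fin DY → ℝ) : RaU_Z DX DY :=
  (fun l => if (l : ℕ) < j + 1 then 0 else 1, fun l => if (l : ℕ) < j then 0 else 1,
    fun l l' => if (l : ℕ) = l' ∧ (l : ℕ) < j + 1 then 1 else 0,
    fun l' l => if (l' : ℕ) = l ∧ (l' : ℕ) < j then 1 else 0, C0)

private theorem RaU_PA_lim {X : Submodule ℂ (B → ℂ)} {Y : Submodule ℂ (C → ℂ)} {DX DY m : ℕ}
    {φ zX : ℕ → B → ℝ} {ψ zY : ℕ → C → ℝ} (hX : Flag X DX φ zX) (hY : Flag Y DY ψ zY) {s : ℝ}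
    {f : ℕ → ℕ → ℝ} (hf : Hi m s f) {j : ℕ} (hj : j ≤ m) (hjX : j < DX) (hjY : j < DY)
    (l : Fin DX) (l' : Fin DY) :
    Tendsto (fun n => RaU_m (rw0 φ ψ m (f n)) zX zY l l' / f n j * RaU_be DY j f n l') uf
      (𝓝 (if (l : ℕ) = l' ∧ (l : ℕ) < j + 1 then 1 else 0)) := by
  have h1 := (RaU_ep_lim (j := j) hf φ zX ψ zY l l').mul (RaU_be_lim hf hj l')
  rw [zero_mul] at h1
  have h2 : ∀ n, RaU_m (rw0 φ ψ m (f n)) zX zY l l' / f n j * RaU_be DY j f n l' =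
      (if (l : ℕ) = l' ∧ (l : ℕ) < j + 1 then 1 else 0) +
        RaU_ep φ zX ψ zY m j (f n) l l' * RaU_be DY j f n l' := by
    intro n
    rw [RaU_mat hX hY hj hjX hjY (f n) l.2 l'.2, add_mul]
    congr 1
    by_cases h : (l : ℕ) = l' ∧ (l : ℕ) < j + 1
    · rw [if_pos h, if_pos h]
      unfold RaU_be
      obtain ⟨e, h3⟩ := h
      rw [← e]
      split_ifs with h4
      · rw [div_mul_div_cancel₀ (hf.ne n j hj), div_self (hf.ne n l (by omega))]
      · have h5 : (l : ℕ) = j := by omega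
        rw [h5, div_self (hf.ne n j hj), mul_one]
    · rw [if_neg h, if_neg h, zero_mul]
  simp only [h2]
  have h3 := (tendsto_const_nhds (x := (if (l : ℕ) = l' ∧ (l : ℕ) < j + 1 then (1 : ℝ) else 0))
    (f := (uf : Filter ℕ))).add h1
  rwa [add_zero] at h3

private theorem RaU_PB_lim {X : Submodule ℂ (B → ℂ)} {Y : Submodule ℂ (C → ℂ)} {DX DY m : ℕ}
    {φ zX : ℕ → B → ℝ} {ψ zY : ℕ → C → ℝ} (hX : Flag X DX φ zX) (hY : Flag Y DY ψ zY) {s : ℝ}
    {f : ℕ → ℕ → ℝ} (hf : Hi m s f) {j : ℕ} (hj : j ≤ m) (hjX : j < DX) (hjY : j < DY)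
    (l' : Fin DY) (l : Fin DX) :
    Tendsto (fun n => RaU_m (rw0 φ ψ m (f n)) zX zY l l' / f n j * RaU_al DX m j f n l) uf
      (𝓝 (if (l' : ℕ) = l ∧ (l' : ℕ) < j then 1 else 0)) := by
  have h1 := (RaU_ep_lim (j := j) hf φ zX ψ zY l l').mul (RaU_al_lim hf hj l)
  rw [zero_mul] at h1
  have h0 : Tendsto (fun n => if (l : ℕ) = l' ∧ (l : ℕ) = j then RaU_th m j f n else 0) uf
      (𝓝 0) := by
    split_ifs
    · exact RaU_th_lim hf hj
    · exact tendsto_const_nhds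
  have h2 : ∀ n, RaU_m (rw0 φ ψ m (f n)) zX zY l l' / f n j * RaU_al DX m j f n l =
      (if (l' : ℕ) = l ∧ (l' : ℕ) < j then 1 else 0) +
        ((if (l : ℕ) = l' ∧ (l : ℕ) = j then RaU_th m j f n else 0) +
        RaU_ep φ zX ψ zY m j (f n) l l' * RaU_al DX m j f n l) := by
    intro n
    rw [RaU_mat hX hY hj hjX hjY (f n) l.2 l'.2, add_mul, ← add_assoc]
    congr 1
    by_cases e : (l : ℕ) = l'
    · rcases lt_trichotomy (l : ℕ) j with h | h | h
      · rw [if_pos ⟨e, by omega⟩, if_pos ⟨e.symm, by omega⟩,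
          if_neg (fun h' : (l : ℕ) = l' ∧ (l : ℕ) = j => h.ne h'.2), add_zero]
        unfold RaU_al
        rw [if_pos h, div_mul_div_cancel₀ (hf.ne n j hj), div_self (hf.ne n l (by omega))]
      · rw [if_pos ⟨e, by omega⟩, if_neg (fun h' : (l' : ℕ) = l ∧ (l' : ℕ) < j => by omega),
          if_pos ⟨e, h⟩, zero_add]
        unfold RaU_al
        rw [if_neg h.not_lt, if_pos h, h, div_self (hf.ne n j hj), one_mul]
      · rw [if_neg (fun h' : (l : ℕ) = l' ∧ (l : ℕ) < j + 1 => by omega),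
          if_neg (fun h' : (l' : ℕ) = l ∧ (l' : ℕ) < j => by omega),
          if_neg (fun h' : (l : ℕ) = l' ∧ (l : ℕ) = j => by omega), zero_mul, add_zero]
    · rw [if_neg (fun h' => e h'.1), if_neg (fun h' => e h'.1.symm), if_neg (fun h' => e h'.1),
        zero_mul, add_zero]
  simp only [h2]
  have h3 := (tendsto_const_nhds (x := (if (l' : ℕ) = l ∧ (l' : ℕ) < j then (1 : ℝ) else 0))
    (f := (uf : Filter ℕ))).add (h0.add h1)
  rwa [add_zero, add_zero] at h3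

private theorem RaU_bd {x : ℕ → ℝ} {x0 : ℝ} (h : Tendsto x uf (𝓝 x0)) :
    ∀ᶠ n in uf, |x n| ≤ |x0| + 1 :=
  Filter.Tendsto.eventually_le_const (lt_add_one _) h.abs

private theorem RaU_PC_eq {DX DY m : ℕ} {s : ℝ} {f : ℕ → ℕ → ℝ} (hf : Hi m s f) {j : ℕ}
    (hj : j ≤ m) (M : ℝ) (n : ℕ) (l : Fin DX) (l' : Fin DY) :
    (f n j * RaU_th m j f n)⁻¹ * (RaU_al DX m j f n l * M * RaU_be DY j f n l') =
      RaU_al DX m j f n l / RaU_th m j f n * (M / f n j * RaU_be DY j f n l') := by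
  have h1 := (RaU_th_pos m j f n).ne'
  have h2 := hf.ne n j hj
  field_simp

private theorem RaU_PC_bd {X : Submodule ℂ (B → ℂ)} {Y : Submodule ℂ (C → ℂ)} {DX DY m : ℕ}
    {φ zX : ℕ → B → ℝ} {ψ zY : ℕ → C → ℝ} (hX : Flag X DX φ zX) (hY : Flag Y DY ψ zY) {s : ℝ}
    {f : ℕ → ℕ → ℝ} (hf : Hi m s f) {j : ℕ} (hj : j ≤ m) (hjX : j < DX) (hjY : j < DY)
    (l : Fin DX) (l' : Fin DY) :
    ∃ M, ∀ᶠ n in uf, |(f n j * RaU_th m j f n)⁻¹ * (RaU_al DX m j f n l *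
      RaU_m (rw0 φ ψ m (f n)) zX zY l l' * RaU_be DY j f n l')| ≤ M := by
  have hPA := RaU_bd (RaU_PA_lim hX hY hf hj hjX hjY l l')
  have hbe := RaU_bd (RaU_be_lim hf hj l')
  simp only [RaU_PC_eq hf hj]
  rcases lt_trichotomy (l : ℕ) j with h | h | h
  · refine ⟨_, hPA.mono fun n hn => le_trans ?_ hn⟩
    have h1 : |RaU_al DX m j f n l / RaU_th m j f n| ≤ 1 := by
      rw [abs_div, abs_of_pos (RaU_th_pos m j f n), div_le_one (RaU_th_pos m j f n)]
      unfold RaU_al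
      rw [if_pos h]
      exact RaU_th_lo m f n h
    rw [abs_mul]
    exact mul_le_of_le_one_left (abs_nonneg _) h1
  · refine ⟨_, hPA.mono fun n hn => le_trans (le_of_eq ?_) hn⟩
    have h1 : RaU_al DX m j f n l / RaU_th m j f n = 1 := by
      unfold RaU_al
      rw [if_neg h.not_lt, if_pos h, div_self (RaU_th_pos m j f n).ne']
    rw [h1, one_mul]
  · set W : ℝ := ∑ k ∈ Finset.Ico (j + 1) (m + 1),
      |RaU_p (φ k) (zX l) * RaU_p (ψ k) (zY l')| with hW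
    have hW0 : 0 ≤ W := Finset.sum_nonneg fun _ _ => abs_nonneg _
    refine ⟨_, hbe.mono fun n hn => le_trans ?_ (mul_le_mul_of_nonneg_left hn hW0)⟩
    have h1 : RaU_al DX m j f n l = 1 := by
      unfold RaU_al
      rw [if_neg h.not_gt, if_neg h.ne']
    have h2 := RaU_th_pos m j f n
    rw [h1, RaU_mat hX hY hj hjX hjY (f n) l.2 l'.2,
      if_neg (fun h' : (l : ℕ) = l' ∧ (l : ℕ) < j + 1 => by omega), zero_add, abs_mul, abs_mul,
      abs_of_pos (by positivity), ← mul_assoc]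
    refine mul_le_mul_of_nonneg_right ?_ (abs_nonneg _)
    rw [one_div, inv_mul_le_iff₀ h2]
    exact RaU_ep_le f φ zX ψ zY l l' n

/-- The limit of the parameters. -/
private theorem RaU_lim {X : Submodule ℂ (B → ℂ)} {Y : Submodule ℂ (C → ℂ)} {DX DY m : ℕ}
    {φ zX : ℕ → B → ℝ} {ψ zY : ℕ → C → ℝ} (hX : Flag X DX φ zX) (hY : Flag Y DY ψ zY) {s : ℝ}
    {f : ℕ → ℕ → ℝ} (hf : Hi m s f) {j : ℕ} (hj : j ≤ m) (hjX : j < DX) (hjY : j < DY) :
    ∃ C0 : Fin DX → Fin DY → ℝ, (∀ l', C0 ⟨j, hjX⟩ l' = if j = (l' : ℕ) then 1 else 0) ∧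
      Tendsto (fun n => RaU_z (rw0 φ ψ m (f n)) zX zY (RaU_al DX m j f n) (RaU_be DY j f n)
        (f n j) (f n j * RaU_th m j f n)⁻¹) uf (𝓝 (RaU_z0 j C0)) := by
  have h1 : ∀ l : Fin DX, ∀ l' : Fin DY, ∃ c : ℝ, Tendsto (fun n => (f n j * RaU_th m j f n)⁻¹ *
      (RaU_al DX m j f n l * RaU_m (rw0 φ ψ m (f n)) zX zY l l' * RaU_be DY j f n l')) uf
      (𝓝 c) := by
    intro l l'
    obtain ⟨M, hM⟩ := RaU_PC_bd hX hY hf hj hjX hjY l l'
    exact MPb0eR.ulim_r _ M hM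
  choose C0 hC0 using h1
  refine ⟨C0, fun l' => ?_, ?_⟩
  · refine tendsto_nhds_unique (hC0 ⟨j, hjX⟩ l') ?_
    have h2 := RaU_PA_lim hX hY hf hj hjX hjY ⟨j, hjX⟩ l'
    have h3 : (if ((⟨j, hjX⟩ : Fin DX) : ℕ) = l' ∧ ((⟨j, hjX⟩ : Fin DX) : ℕ) < j + 1
        then (1 : ℝ) else 0) = if j = (l' : ℕ) then 1 else 0 := by
      by_cases h4 : j = (l' : ℕ)
      · rw [if_pos h4, if_pos ⟨h4, Nat.lt_succ_self j⟩]
      · rw [if_neg h4, if_neg fun h => h4 h.1]
    rw [h3] at h2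
    refine h2.congr fun n => ?_
    rw [RaU_PC_eq hf hj]
    have h5 : RaU_al DX m j f n ⟨j, hjX⟩ / RaU_th m j f n = 1 := by
      unfold RaU_al
      rw [if_neg (lt_irrefl j), if_pos rfl, div_self (RaU_th_pos m j f n).ne']
    rw [h5, one_mul]
  · unfold RaU_z RaU_z0
    refine Filter.Tendsto.prodMk_nhds (tendsto_pi_nhds.2 fun l => RaU_al_lim hf hj l)
      (Filter.Tendsto.prodMk_nhds (tendsto_pi_nhds.2 fun l => RaU_be_lim hf hj l)
      (Filter.Tendsto.prodMk_nhds (tendsto_pi_nhds.2 fun l => tendsto_pi_nhds.2 fun l' => ?_)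
      (Filter.Tendsto.prodMk_nhds (tendsto_pi_nhds.2 fun l' => tendsto_pi_nhds.2 fun l => ?_)
      (tendsto_pi_nhds.2 fun l => tendsto_pi_nhds.2 fun l' => hC0 l l'))))
    · exact RaU_PA_lim hX hY hf hj hjX hjY l l'
    · exact RaU_PB_lim hX hY hf hj hjX hjY l' l


private theorem RaU_V_line {X : Type} {D : ℕ} (z : ℕ → X → ℝ) (α : Fin D → ℝ) (x y : Fin D → ℂ)
    (t : ℝ) : RaU_V D z α (x + t • y) = RaU_V D z α x + t • RaU_V D z α y := by
  unfold RaU_V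
  rw [Finset.smul_sum, ← Finset.sum_add_distrib]
  refine Finset.sum_congr rfl fun l _ => ?_
  funext b
  simp only [Pi.add_apply, Pi.smul_apply, smul_eq_mul, Complex.real_smul]
  ring

private theorem RaU_P_line {DX DY : ℕ} (zX : ℕ → B → ℝ) (zY : ℕ → C → ℝ) (z : RaU_Z DX DY)
    (e x : RaU_E I DX DY) (t : ℝ) :
    RaU_P zX zY z (e + t • x) = RaU_P zX zY z e + t • RaU_P zX zY z x := by
  unfold RaU_P
  exact Prod.ext rfl (Prod.ext (RaU_V_line zX z.1 e.2.1 x.2.1 t)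
    (RaU_V_line zY z.2.1 e.2.2.1 x.2.2.1 t))

private theorem RaU_pr_V {X : Submodule ℂ (B → ℂ)} {D : ℕ} {φ z : ℕ → B → ℝ}
    (hX : Flag X D φ z) (α : Fin D → ℝ) (x : Fin D → ℂ) (k : Fin D) :
    pr (φ k) (RaU_V D z α x) = α k • x k := by
  have h1 : pr (φ k) (RaU_V D z α x) = ∑ l : Fin D, (α l • x l) * pr (φ k) (RaU_c (z l)) := by
    unfold RaU_V pr
    simp only [Finset.sum_apply, Pi.smul_apply, smul_eq_mul, Finset.mul_sum]
    rw [Finset.sum_comm]
    exact Finset.sum_congr rfl fun l _ => Finset.sum_congr rfl fun b _ => by ring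
  rw [h1, Finset.sum_eq_single k]
  · have h2 : pr (φ k) (RaU_c (z k)) = 1 := by
      have h3 := hX.dual k k k.2 k.2
      rw [if_pos rfl] at h3
      exact h3
    rw [h2, mul_one]
  · intro l _ hl
    have h2 : pr (φ k) (RaU_c (z l)) = 0 := by
      have h3 := hX.dual k l k.2 l.2
      rw [if_neg (fun h => hl (Fin.ext h.symm))] at h3
      exact h3
    rw [h2, mul_zero]
  · intro h
    exact absurd (Finset.mem_univ _) h

private theorem RaU_V_mem {X : Submodule ℂ (B → ℂ)} {D : ℕ} {φ z : ℕ → B → ℝ}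
    (hX : Flag X D φ z) {i : ℕ} (hi : i ≤ D) (x : Fin D → ℂ) :
    RaU_V D z (fun l => if (l : ℕ) < i then 0 else 1) x ∈ Xi X φ i := by
  refine ⟨?_, fun l hl => ?_⟩
  · unfold RaU_V
    exact X.sum_mem fun l _ => X.smul_mem _ (hX.mem l l.2)
  · have h1 := RaU_pr_V hX (fun l => if (l : ℕ) < i then 0 else 1) x ⟨l, by omega⟩
    rw [if_pos hl, zero_smul] at h1
    exact h1

private theorem RaU_V_gen {X : Submodule ℂ (B → ℂ)} {D : ℕ} {φ z : ℕ → B → ℝ}
    (hX : Flag X D φ z) {i : ℕ} {v : B → ℂ} (hv : v ∈ Xi X φ i) {x : Fin D → ℂ}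
    (hx : ∀ l : Fin D, i ≤ l → x l = pr (φ l) v) :
    RaU_V D z (fun l => if (l : ℕ) < i then 0 else 1) x = v := by
  conv_rhs => rw [RaU_gen hX hv.1]
  unfold RaU_V
  refine Finset.sum_congr rfl fun l _ => ?_
  beta_reduce
  by_cases h : (l : ℕ) < i
  · rw [if_pos h, hv.2 l h, zero_smul]
  · rw [if_neg h, one_smul, hx l (not_lt.1 h)]

/-- Derivative zero on a basis of `Xi X φ i`. -/
private theorem RaU_der {X : Submodule ℂ (B → ℂ)} {D : ℕ} {φ z : ℕ → B → ℝ}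
    (hX : Flag X D φ z) {i : ℕ} {u : ℝ → B → ℂ}
    (h : ∀ l, i ≤ l → l < D → HasDerivAt (fun t => dt (u t) (RaU_c (z l))) 0 0) :
    ∀ v ∈ Xi X φ i, HasDerivAt (fun t => dt (u t) v) 0 0 := by
  intro v hv
  have h1 : (fun t => dt (u t) v) =
      fun t => ∑ l ∈ Finset.Ico i D, pr (φ l) v * dt (u t) (RaU_c (z l)) := by
    funext t
    conv_lhs => rw [hX.gen_i hv]
    unfold dt
    simp only [Finset.sum_apply, Pi.smul_apply, smul_eq_mul, Finset.mul_sum, RaU_c]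
    rw [Finset.sum_comm]
    exact Finset.sum_congr rfl fun l _ => Finset.sum_congr rfl fun b _ => by ring
  rw [h1]
  have h2 : HasDerivAt (fun t => ∑ l ∈ Finset.Ico i D, pr (φ l) v * dt (u t) (RaU_c (z l)))
      (∑ l ∈ Finset.Ico i D, pr (φ l) v * 0) 0 := by
    refine HasDerivAt.fun_sum fun l hl => ?_
    have h3 := Finset.mem_Ico.1 hl
    exact (h l h3.1 h3.2).const_mul _
  have h4 : ∑ l ∈ Finset.Ico i D, pr (φ l) v * 0 = 0 :=
    Finset.sum_eq_zero fun l _ => mul_zero _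
  rwa [h4] at h2

private theorem RaU_fst {E F : Type} [NormedAddCommGroup E] [NormedSpace ℝ E]
    [NormedAddCommGroup F] [NormedSpace ℝ F] {g : ℝ → E × F} (h : HasDerivAt g 0 0) :
    HasDerivAt (fun t => (g t).1) 0 0 :=
  (ContinuousLinearMap.fst ℝ E F).hasFDerivAt.comp_hasDerivAt (0 : ℝ) h

private theorem RaU_snd {E F : Type} [NormedAddCommGroup E] [NormedSpace ℝ E]
    [NormedAddCommGroup F] [NormedSpace ℝ F] {g : ℝ → E × F} (h : HasDerivAt g 0 0) :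
    HasDerivAt (fun t => (g t).2) 0 0 :=
  (ContinuousLinearMap.snd ℝ E F).hasFDerivAt.comp_hasDerivAt (0 : ℝ) h

/-- The derivative of `t ↦ a + (r + t s) (x + t y)` at zero. -/
private theorem RaU_bil (a r s x y : ℂ) :
    HasDerivAt (fun t : ℝ => a + (r + t • s) * (x + t • y)) (s * x + r * y) 0 := by
  have h1 : HasDerivAt (fun t : ℝ => r + t • s) s 0 := by
    have h3 := ((hasDerivAt_id (0 : ℝ)).smul_const s).const_add r
    simpa using h3
  have h2 : HasDerivAt (fun t : ℝ => x + t • y) y 0 := by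
    have h3 := ((hasDerivAt_id (0 : ℝ)).smul_const y).const_add x
    simpa using h3
  have h3 := (h1.mul h2).const_add a
  simpa using h3

/-- The kernel of the limit system is trivial. -/
private theorem RaU_ker {S : Sy I K B C} {X : Submodule ℂ (B → ℂ)} {Y : Submodule ℂ (C → ℂ)}
    {DX DY : ℕ} {φ zX : ℕ → B → ℝ} {ψ zY : ℕ → C → ℝ} (hX : Flag X DX φ zX)
    (hY : Flag Y DY ψ zY) {j : ℕ} (hjX : j < DX) (hjY : j < DY)
    {p0 : (I → ℂ) × (B → ℂ) × (C → ℂ)} (hnd : S.Nd (Xi X φ (j + 1)) (Xi Y ψ j) p0)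
    {C0 : Fin DX → Fin DY → ℝ} (hC : ∀ l', C0 ⟨j, hjX⟩ l' = if j = (l' : ℕ) then 1 else 0)
    {q0 : RaU_E I DX DY} (hP : RaU_P zX zY (RaU_z0 j C0) q0 = p0) (hR : q0.2.2.2 ≠ 0)
    (hy : q0.2.2.1 ⟨j, hjY⟩ ≠ 0) : ∀ x : RaU_E I DX DY,
      HasDerivAt (fun t : ℝ => RaU_Phi S zX zY (RaU_z0 j C0, q0 + t • x)) 0 0 → x = 0 := by
  intro x hx
  have hPt : ∀ t : ℝ, RaU_P zX zY (RaU_z0 j C0) (q0 + t • x) =
      p0 + t • RaU_P zX zY (RaU_z0 j C0) x := fun t => by rw [RaU_P_line, hP]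
  have hA := hasDerivAt_pi.1 (RaU_fst hx)
  have hB := hasDerivAt_pi.1 (RaU_fst (RaU_snd hx))
  have hC' := RaU_fst (RaU_snd (RaU_snd hx))
  have hG := RaU_snd (RaU_snd (RaU_snd hx))
  -- the rows of the matrices
  have sA : ∀ (l : Fin DX) (y : Fin DY → ℂ),
      ∑ l' : Fin DY, (if (l : ℕ) = l' ∧ (l : ℕ) < j + 1 then (1 : ℝ) else 0) • y l' =
      if h : (l : ℕ) < j + 1 then y ⟨l, by omega⟩ else 0 := by
    intro l y
    split_ifs with h
    · rw [Finset.sum_eq_single (⟨l, by omega⟩ : Fin DY)]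
      · rw [if_pos ⟨rfl, h⟩, one_smul]
      · intro l' _ hl'
        rw [if_neg (fun h' => hl' (Fin.ext h'.1.symm)), zero_smul]
      · intro h'
        exact absurd (Finset.mem_univ _) h'
    · exact Finset.sum_eq_zero fun l' _ => by rw [if_neg (fun h' => h h'.2), zero_smul]
  have sB : ∀ (l : Fin DY) (y : Fin DX → ℂ),
      ∑ l' : Fin DX, (if (l : ℕ) = l' ∧ (l : ℕ) < j then (1 : ℝ) else 0) • y l' =
      if h : (l : ℕ) < j then y ⟨l, by omega⟩ else 0 := by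
    intro l y
    split_ifs with h
    · rw [Finset.sum_eq_single (⟨l, by omega⟩ : Fin DX)]
      · rw [if_pos ⟨rfl, h⟩, one_smul]
      · intro l' _ hl'
        rw [if_neg (fun h' => hl' (Fin.ext h'.1.symm)), zero_smul]
      · intro h'
        exact absurd (Finset.mem_univ _) h'
    · exact Finset.sum_eq_zero fun l' _ => by rw [if_neg (fun h' => h h'.2), zero_smul]
  have hA2 : ∀ l : Fin DX, HasDerivAt (fun t : ℝ =>
      dt (S.a (p0 + t • RaU_P zX zY (RaU_z0 j C0) x)) (RaU_c (zX l)) +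
      (q0.2.2.2 + t • x.2.2.2) * (if h : (l : ℕ) < j + 1 then
        (q0.2.2.1 ⟨l, by omega⟩ + t • x.2.2.1 ⟨l, by omega⟩) else 0)) 0 0 := by
    intro l
    have h1 := hA l
    simp only [RaU_Phi, hPt] at h1
    have h2 : ∀ t : ℝ, ∑ l' : Fin DY, (RaU_z0 j C0 : RaU_Z DX DY).2.2.1 l l' •
        (q0 + t • x).2.2.1 l' = if h : (l : ℕ) < j + 1 then
        (q0.2.2.1 ⟨l, by omega⟩ + t • x.2.2.1 ⟨l, by omega⟩) else 0 :=
      fun t => sA l (q0 + t • x).2.2.1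
    simp only [h2] at h1
    exact h1
  have hB2 : ∀ l : Fin DY, HasDerivAt (fun t : ℝ =>
      dt (S.b (p0 + t • RaU_P zX zY (RaU_z0 j C0) x)) (RaU_c (zY l)) +
      (q0.2.2.2 + t • x.2.2.2) * (if h : (l : ℕ) < j then
        (q0.2.1 ⟨l, by omega⟩ + t • x.2.1 ⟨l, by omega⟩) else 0)) 0 0 := by
    intro l
    have h1 := hB l
    simp only [RaU_Phi, hPt] at h1
    have h2 : ∀ t : ℝ, ∑ l' : Fin DX, (RaU_z0 j C0 : RaU_Z DX DY).2.2.2.1 l l' •
        (q0 + t • x).2.1 l' = if h : (l : ℕ) < j then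
        (q0.2.1 ⟨l, by omega⟩ + t • x.2.1 ⟨l, by omega⟩) else 0 :=
      fun t => sB l (q0 + t • x).2.1
    simp only [h2] at h1
    exact h1
  -- the old system
  have hK : S.Ke (Xi X φ (j + 1)) (Xi Y ψ j) p0 (RaU_P zX zY (RaU_z0 j C0) x) := by
    refine ⟨RaU_V_mem hX (by omega) x.2.1, RaU_V_mem hY (by omega) x.2.2.1,
      RaU_der hX fun l h1 h2 => ?_, RaU_der hY fun l h1 h2 => ?_, ?_⟩
    · have h3 := hA2 ⟨l, h2⟩
      simp only [dif_neg (not_lt.2 h1), mul_zero, add_zero] at h3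
      exact h3
    · have h3 := hB2 ⟨l, h2⟩
      simp only [dif_neg (not_lt.2 h1), mul_zero, add_zero] at h3
      exact h3
    · simp only [RaU_Phi, hPt] at hG
      exact hG
  have hX0 := hnd _ hK
  have hu : x.1 = 0 := congrArg Prod.fst hX0
  have hv0 : RaU_V DX zX (fun l => if (l : ℕ) < j + 1 then 0 else 1) x.2.1 = 0 :=
    congrArg (fun e : (I → ℂ) × (B → ℂ) × (C → ℂ) => e.2.1) hX0
  have hw0 : RaU_V DY zY (fun l => if (l : ℕ) < j then 0 else 1) x.2.2.1 = 0 :=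
    congrArg (fun e : (I → ℂ) × (B → ℂ) × (C → ℂ) => e.2.2) hX0
  have hpr0 : ∀ {D : Type} [Fintype D] (g : D → ℝ), pr g (0 : D → ℂ) = 0 := by
    intro D _ g
    simp [pr]
  have x1 : ∀ l : Fin DX, j + 1 ≤ (l : ℕ) → x.2.1 l = 0 := by
    intro l hl
    have h1 := RaU_pr_V hX (fun l => if (l : ℕ) < j + 1 then 0 else 1) x.2.1 l
    rw [hv0, hpr0, if_neg (not_lt.2 hl), one_smul] at h1
    exact h1.symm
  have y1 : ∀ l : Fin DY, j ≤ (l : ℕ) → x.2.2.1 l = 0 := by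
    intro l hl
    have h1 := RaU_pr_V hY (fun l => if (l : ℕ) < j then 0 else 1) x.2.2.1 l
    rw [hw0, hpr0, if_neg (not_lt.2 hl), one_smul] at h1
    exact h1.symm
  have hp0 : ∀ t : ℝ, p0 + t • RaU_P zX zY (RaU_z0 j C0) x = p0 := fun t => by
    rw [hX0, smul_zero, add_zero]
  simp only [hp0] at hA2 hB2
  have hA3 : ∀ (l : ℕ) (hl : l < j + 1), x.2.2.2 * q0.2.2.1 ⟨l, by omega⟩ +
      q0.2.2.2 * x.2.2.1 ⟨l, by omega⟩ = 0 := by
    intro l hl
    have h1 := hA2 ⟨l, by omega⟩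
    simp only [dif_pos hl] at h1
    exact (RaU_bil _ _ _ _ _).unique h1
  have hB3 : ∀ (l : ℕ) (hl : l < j), x.2.2.2 * q0.2.1 ⟨l, by omega⟩ +
      q0.2.2.2 * x.2.1 ⟨l, by omega⟩ = 0 := by
    intro l hl
    have h1 := hB2 ⟨l, by omega⟩
    simp only [dif_pos hl] at h1
    exact (RaU_bil _ _ _ _ _).unique h1
  have hs : x.2.2.2 = 0 := by
    have h1 := hA3 j (Nat.lt_succ_self j)
    rw [y1 ⟨j, hjY⟩ le_rfl, mul_zero, add_zero] at h1
    exact (mul_eq_zero.1 h1).resolve_right hy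
  have y2 : x.2.2.1 = 0 := by
    funext l
    rcases Nat.lt_or_ge (l : ℕ) j with h | h
    · have h1 := hA3 l (by omega)
      rw [hs, zero_mul, zero_add] at h1
      exact (mul_eq_zero.1 h1).resolve_left hR
    · exact y1 l h
  have x2 : ∀ l : Fin DX, (l : ℕ) ≠ j → x.2.1 l = 0 := by
    intro l hl
    rcases Nat.lt_or_ge (l : ℕ) j with h | h
    · have h1 := hB3 l h
      rw [hs, zero_mul, zero_add] at h1
      exact (mul_eq_zero.1 h1).resolve_left hR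
    · exact x1 l (by omega)
  have x3 : x.2.1 ⟨j, hjX⟩ = 0 := by
    have h1 : ∀ t : ℝ, (RaU_Phi S zX zY (RaU_z0 j C0, q0 + t • x)).2.2.1 =
        ∑ l : Fin DX, ∑ l' : Fin DY, C0 l l' • (q0.2.1 l * q0.2.2.1 l') +
        (0 + t • (1 : ℂ)) * (x.2.1 ⟨j, hjX⟩ * q0.2.2.1 ⟨j, hjY⟩ + t • (0 : ℂ)) := by
      intro t
      change ∑ l : Fin DX, ∑ l' : Fin DY, C0 l l' • ((q0.2.1 l + t • x.2.1 l) *
        (q0.2.2.1 l' + t • x.2.2.1 l')) = _
      have h2 : ∀ l : Fin DX, ∑ l' : Fin DY, C0 l l' • ((q0.2.1 l + t • x.2.1 l) *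
          (q0.2.2.1 l' + t • x.2.2.1 l')) = ∑ l' : Fin DY, C0 l l' • (q0.2.1 l * q0.2.2.1 l') +
          if l = ⟨j, hjX⟩ then (t : ℂ) * (x.2.1 ⟨j, hjX⟩ * q0.2.2.1 ⟨j, hjY⟩) else 0 := by
        intro l
        simp only [y2, Pi.zero_apply, smul_zero, add_zero]
        by_cases hl : l = ⟨j, hjX⟩
        · subst hl
          rw [if_pos rfl]
          have h3 : ∑ l' : Fin DY, C0 ⟨j, hjX⟩ l' • (((t : ℂ) * x.2.1 ⟨j, hjX⟩) *
              q0.2.2.1 l') = (t : ℂ) * (x.2.1 ⟨j, hjX⟩ * q0.2.2.1 ⟨j, hjY⟩) := by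
            rw [Finset.sum_eq_single (⟨j, hjY⟩ : Fin DY)]
            · rw [hC, if_pos rfl, one_smul]
              ring
            · intro l' _ hl'
              rw [hC, if_neg (fun h' => hl' (Fin.ext h'.symm)), zero_smul]
            · intro h'
              exact absurd (Finset.mem_univ _) h'
          rw [← h3, ← Finset.sum_add_distrib]
          refine Finset.sum_congr rfl fun l' _ => ?_
          simp only [Complex.real_smul]
          ring
        · rw [if_neg hl, add_zero, x2 l (fun h' => hl (Fin.ext h'))]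
          simp
      simp only [h2]
      rw [Finset.sum_add_distrib, Finset.sum_ite_eq', if_pos (Finset.mem_univ _)]
      simp
    simp only [h1] at hC'
    have h2 := (RaU_bil _ _ _ _ _).unique hC'
    rw [one_mul, mul_zero, add_zero] at h2
    exact (mul_eq_zero.1 h2).resolve_right hy
  have x4 : x.2.1 = 0 := by
    funext l
    by_cases h : (l : ℕ) = j
    · have e : l = ⟨j, hjX⟩ := Fin.ext h
      rw [e]
      exact x3
    · exact x2 l h
  exact Prod.ext hu (Prod.ext x4 (Prod.ext y2 hs))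


/-- The equations with small orders. -/
private theorem RaU_quot {X : Submodule ℂ (B → ℂ)} {DX m : ℕ} {φ zX : ℕ → B → ℝ}
    {ψ : ℕ → C → ℝ} (hX : Flag X DX φ zX) {s : ℝ} {f : ℕ → ℕ → ℝ} (hf : Hi m s f) {j : ℕ}
    (hj : j ≤ m) (hjX : j < DX) {A : ℕ → ℂ} {w : ℕ → C → ℂ} {w0 : C → ℂ} {r : ℕ → ℂ}
    (hw : Tendsto w uf (𝓝 w0)) {l : ℕ} (hl : l < j + 1)
    (he : ∀ n, A n + r n * bf (rw0 φ ψ m (f n)) (RaU_c (zX l)) (w n) = 0) :
    ∃ η : ℕ → ℂ, Tendsto η uf (𝓝 0) ∧ ∀ n,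
      (f n j • r n) * ((f n l / f n j) • pr (ψ l) (w n) + η n) = - A n := by
  refine ⟨fun n => ∑ k ∈ Finset.Ico (j + 1) (m + 1),
    (f n k / f n j) • (pr (φ k) (RaU_c (zX l)) * pr (ψ k) (w n)), ?_, fun n => ?_⟩
  · have h : Tendsto (fun n => ∑ k ∈ Finset.Ico (j + 1) (m + 1),
        (f n k / f n j) • (pr (φ k) (RaU_c (zX l)) * pr (ψ k) (w n))) uf
        (𝓝 (∑ k ∈ Finset.Ico (j + 1) (m + 1), (0 : ℂ))) := by
      refine tendsto_finsetSum _ fun k hk => ?_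
      have h3 := Finset.mem_Ico.1 hk
      have h4 : Tendsto (fun n => pr (ψ k) (w n)) uf (𝓝 (pr (ψ k) w0)) :=
        ((continuous_pr (ψ k)).tendsto w0).comp hw
      have h2 := (RaU_hi hf (k := j) k (by omega) (by omega)).smul
        (h4.const_mul (pr (φ k) (RaU_c (zX l))))
      rwa [zero_smul] at h2
    rwa [Finset.sum_const_zero] at h
  · have hfj : (f n j : ℂ) ≠ 0 := by exact_mod_cast hf.ne n j hj
    have h1 : bf (rw0 φ ψ m (f n)) (RaU_c (zX l)) (w n) = (f n j : ℂ) *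
        ((f n l / f n j) • pr (ψ l) (w n) + ∑ k ∈ Finset.Ico (j + 1) (m + 1),
          (f n k / f n j) • (pr (φ k) (RaU_c (zX l)) * pr (ψ k) (w n))) := by
      rw [bf_rw0, Finset.range_eq_Ico, ← Finset.sum_Ico_consecutive _ (Nat.zero_le (j + 1))
        (by omega : j + 1 ≤ m + 1), mul_add]
      congr 1
      · rw [Finset.sum_eq_single l]
        · have h2 : pr (φ l) (RaU_c (zX l)) = 1 := by
            have h3 := hX.dual l l (by omega) (by omega)
            rw [if_pos rfl] at h3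
            exact h3
          rw [h2, Complex.real_smul]
          push_cast
          field_simp
        · intro k hk hkl
          have h4 := Finset.mem_Ico.1 hk
          have h2 : pr (φ k) (RaU_c (zX l)) = 0 := by
            have h3 := hX.dual k l (by omega) (by omega)
            rw [if_neg hkl] at h3
            exact h3
          rw [h2, zero_mul, mul_zero]
        · intro h
          exact absurd (Finset.mem_Ico.2 ⟨Nat.zero_le _, hl⟩) h
      · rw [Finset.mul_sum]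
        refine Finset.sum_congr rfl fun k _ => ?_
        rw [Complex.real_smul]
        push_cast
        field_simp
    have h2 := he n
    rw [h1] at h2
    rw [Complex.real_smul]
    linear_combination h2

/-- The limit of the unknowns. -/
private theorem RaU_q {S : Sy I K B C} (hS : S.Sm) {X : Submodule ℂ (B → ℂ)}
    {Y : Submodule ℂ (C → ℂ)} {DX DY m : ℕ} {φ zX : ℕ → B → ℝ} {ψ zY : ℕ → C → ℝ}
    (hX : Flag X DX φ zX) (hY : Flag Y DY ψ zY) {s : ℝ} {f : ℕ → ℕ → ℝ} (hf : Hi m s f)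
    {p : ℕ → (I → ℂ) × (B → ℂ) × (C → ℂ)} {p0 : (I → ℂ) × (B → ℂ) × (C → ℂ)} {r : ℕ → ℂ}
    (hp : Tendsto p uf (𝓝 p0))
    (hsol : ∀ n, (S.ext (rw0 φ ψ m (f n))).Sol X Y (fun o => o.elim (r n) (p n).1, (p n).2))
    {j : ℕ} (hj : j ≤ m) (hjX : j < DX) (hjY : j < DY)
    (h0 : S.Sol (Xi X φ (j + 1)) (Xi Y ψ j) p0) (hw : pr (ψ j) p0.2.2 ≠ 0) (hr : cj3 p0 = p0)
    (ra : dt (S.a p0) (fun b => (zX j b : ℂ)) ≠ 0) {C0 : Fin DX → Fin DY → ℝ}
    (hC : ∀ l', C0 ⟨j, hjX⟩ l' = if j = (l' : ℕ) then 1 else 0)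
    (hz : Tendsto (fun n => RaU_z (rw0 φ ψ m (f n)) zX zY (RaU_al DX m j f n) (RaU_be DY j f n)
        (f n j) (f n j * RaU_th m j f n)⁻¹) uf (𝓝 (RaU_z0 j C0))) :
    ∃ q0 : RaU_E I DX DY, Tendsto (fun n => RaU_sc φ ψ (RaU_al DX m j f n) (RaU_be DY j f n)
      (f n j) (fun o => o.elim (r n) (p n).1, (p n).2)) uf (𝓝 q0) ∧ RaU_cjE q0 = q0 ∧
      RaU_P zX zY (RaU_z0 j C0) q0 = p0 ∧ q0.2.2.2 ≠ 0 ∧ q0.2.2.1 ⟨j, hjY⟩ ≠ 0 := by
  have hp1 : Tendsto (fun n => (p n).1) uf (𝓝 p0.1) := (continuous_fst.tendsto p0).comp hp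
  have hp2 : Tendsto (fun n => (p n).2.1) uf (𝓝 p0.2.1) :=
    ((continuous_fst.comp continuous_snd).tendsto p0).comp hp
  have hp3 : Tendsto (fun n => (p n).2.2) uf (𝓝 p0.2.2) :=
    ((continuous_snd.comp continuous_snd).tendsto p0).comp hp
  have ha : ∀ z : B → ℂ, Tendsto (fun n => dt (S.a (p n)) z) uf (𝓝 (dt (S.a p0) z)) := by
    intro z
    have h1 : Tendsto (fun n => S.a (p n)) uf (𝓝 (S.a p0)) :=
      (hS.ha.continuous.tendsto p0).comp hp
    unfold dt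
    exact tendsto_finsetSum _ fun b _ => ((tendsto_pi_nhds.1 h1 b).mul_const _)
  have hb : ∀ z : C → ℂ, Tendsto (fun n => dt (S.b (p n)) z) uf (𝓝 (dt (S.b p0) z)) := by
    intro z
    have h1 : Tendsto (fun n => S.b (p n)) uf (𝓝 (S.b p0)) :=
      (hS.hb.continuous.tendsto p0).comp hp
    unfold dt
    exact tendsto_finsetSum _ fun b _ => ((tendsto_pi_nhds.1 h1 b).mul_const _)
  have eA : ∀ (l : ℕ), l < DX → ∀ n, dt (S.a (p n)) (RaU_c (zX l)) +
      r n * bf (rw0 φ ψ m (f n)) (RaU_c (zX l)) (p n).2.2 = 0 := by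
    intro l hl n
    have h1 : dt (S.a (p n) + r n • bfB (rw0 φ ψ m (f n)) (p n).2.2) (RaU_c (zX l)) = 0 :=
      (hsol n).ea _ (hX.mem l hl)
    rwa [dt_add_left, dt_smul_left, dt_bfB] at h1
  have eB : ∀ (l : ℕ), l < DY → ∀ n, dt (S.b (p n)) (RaU_c (zY l)) +
      r n * bf (rw0 ψ φ m (f n)) (RaU_c (zY l)) (p n).2.1 = 0 := by
    intro l hl n
    have h1 : dt (S.b (p n) + r n • bfC (rw0 φ ψ m (f n)) (p n).2.1) (RaU_c (zY l)) = 0 :=
      (hsol n).eb _ (hY.mem l hl)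
    rw [dt_add_left, dt_smul_left, dt_bfC] at h1
    have h2 : bf (rw0 ψ φ m (f n)) (RaU_c (zY l)) (p n).2.1 =
        bf (rw0 φ ψ m (f n)) (p n).2.1 (RaU_c (zY l)) := by
      rw [bf_rw0, bf_rw0]
      exact Finset.sum_congr rfl fun k _ => by ring
    rw [h2]
    exact h1
  -- the multiplier
  set R0 : ℂ := - dt (S.a p0) (RaU_c (zX j)) / pr (ψ j) p0.2.2 with hR0
  have R0n : R0 ≠ 0 := div_ne_zero (neg_ne_zero.2 ra) hw
  have hpsi : ∀ l, Tendsto (fun n => pr (ψ l) (p n).2.2) uf (𝓝 (pr (ψ l) p0.2.2)) := fun l =>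
    ((continuous_pr (ψ l)).tendsto _).comp hp3
  have hphi : ∀ l, Tendsto (fun n => pr (φ l) (p n).2.1) uf (𝓝 (pr (φ l) p0.2.1)) := fun l =>
    ((continuous_pr (φ l)).tendsto _).comp hp2
  have hRl : Tendsto (fun n => f n j • r n) uf (𝓝 R0) := by
    obtain ⟨η, h1, h2⟩ := RaU_quot hX hf hj hjX hp3 (Nat.lt_succ_self j) (eA j hjX)
    have h3 : Tendsto (fun n => (f n j / f n j) • pr (ψ j) (p n).2.2 + η n) uf
        (𝓝 (pr (ψ j) p0.2.2)) := by
      have h4 := (hpsi j).add h1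
      rw [add_zero] at h4
      refine h4.congr fun n => ?_
      rw [div_self (hf.ne n j hj), one_smul]
    exact RaU_div h3 hw (ha _).neg h2
  -- the second vector
  set y0 : Fin DY → ℂ := fun l => if (l : ℕ) < j then - dt (S.a p0) (RaU_c (zX l)) / R0
    else pr (ψ l) p0.2.2 with hy0
  have hyl : ∀ l : Fin DY, Tendsto (fun n => (RaU_be DY j f n l)⁻¹ • pr (ψ l) (p n).2.2) uf
      (𝓝 (y0 l)) := by
    intro l
    simp only [hy0, RaU_be]
    split_ifs with h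
    · obtain ⟨η, h1, h2⟩ := RaU_quot hX hf hj hjX hp3 (by omega : (l : ℕ) < j + 1)
        (eA l (by omega))
      have h3 := RaU_div (x := fun n => (f n l / f n j) • pr (ψ l) (p n).2.2 + η n) hRl R0n
        (ha (RaU_c (zX l))).neg (fun n => by rw [mul_comm]; exact h2 n)
      have h4 := h3.sub h1
      rw [sub_zero] at h4
      refine h4.congr fun n => ?_
      rw [add_sub_cancel_right, inv_div]
    · refine (hpsi l).congr fun n => ?_
      rw [inv_one, one_smul]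
  -- the first vector
  set x1 : Fin DX → ℂ := fun l => if (l : ℕ) < j then - dt (S.b p0) (RaU_c (zY l)) / R0
    else pr (φ l) p0.2.1 with hx1
  have hxl : ∀ l : Fin DX, (l : ℕ) ≠ j →
      Tendsto (fun n => (RaU_al DX m j f n l)⁻¹ • pr (φ l) (p n).2.1) uf (𝓝 (x1 l)) := by
    intro l hl
    simp only [hx1, RaU_al, if_neg hl]
    split_ifs with h
    · obtain ⟨η, h1, h2⟩ := RaU_quot hY hf hj hjY hp2 (by omega : (l : ℕ) < j + 1)
        (eB l (by omega))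
      have h3 := RaU_div (x := fun n => (f n l / f n j) • pr (φ l) (p n).2.1 + η n) hRl R0n
        (hb (RaU_c (zY l))).neg (fun n => by rw [mul_comm]; exact h2 n)
      have h4 := h3.sub h1
      rw [sub_zero] at h4
      refine h4.congr fun n => ?_
      rw [add_sub_cancel_right, inv_div]
    · refine (hphi l).congr fun n => ?_
      rw [inv_one, one_smul]
  -- the constraint
  have hPC : ∀ (l : Fin DX) (l' : Fin DY), Tendsto (fun n => (f n j * RaU_th m j f n)⁻¹ *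
      (RaU_al DX m j f n l * RaU_m (rw0 φ ψ m (f n)) zX zY l l' * RaU_be DY j f n l')) uf
      (𝓝 (C0 l l')) := by
    intro l l'
    have hc : Continuous fun z : RaU_Z DX DY => z.2.2.2.2 l l' := by fun_prop
    exact (hc.tendsto _).comp hz
  have eC : ∀ n, ∑ l : Fin DX, ∑ l' : Fin DY, ((f n j * RaU_th m j f n)⁻¹ *
      (RaU_al DX m j f n l * RaU_m (rw0 φ ψ m (f n)) zX zY l l' * RaU_be DY j f n l')) •
      (((RaU_al DX m j f n l)⁻¹ • pr (φ l) (p n).2.1) *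
        ((RaU_be DY j f n l')⁻¹ • pr (ψ l') (p n).2.2)) = 0 := by
    intro n
    have h1 := congrArg (fun e : RaU_F K DX DY => e.2.2.1) (RaU_val (S := S) hX hY
      (rw0 φ ψ m (f n)) (RaU_al_ne hf hj n) (RaU_be_ne hf hj n) (hf.ne n j hj)
      ((f n j * RaU_th m j f n)⁻¹) (hsol n).sv (hsol n).sw)
    have h2 := congrFun (hsol n).eg none
    refine Eq.trans h1 ?_
    change (((f n j * RaU_th m j f n)⁻¹ : ℝ) : ℂ) *
      (S.ext (rw0 φ ψ m (f n))).g (fun o => o.elim (r n) (p n).1, (p n).2) none = 0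
    rw [h2, Pi.zero_apply, mul_zero]
  set xj : ℂ := (- ∑ l ∈ Finset.univ.erase (⟨j, hjX⟩ : Fin DX), ∑ l' : Fin DY,
    C0 l l' • (x1 l * y0 l')) / pr (ψ j) p0.2.2 with hxj
  have hy0j : y0 ⟨j, hjY⟩ = pr (ψ j) p0.2.2 := by
    simp only [hy0]
    rw [if_neg (lt_irrefl j)]
  have hxjl : Tendsto (fun n => (RaU_al DX m j f n ⟨j, hjX⟩)⁻¹ • pr (φ j) (p n).2.1) uf
      (𝓝 xj) := by
    have h1 : Tendsto (fun n => ∑ l' : Fin DY, ((f n j * RaU_th m j f n)⁻¹ *
        (RaU_al DX m j f n ⟨j, hjX⟩ * RaU_m (rw0 φ ψ m (f n)) zX zY j l' *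
        RaU_be DY j f n l')) • ((RaU_be DY j f n l')⁻¹ • pr (ψ l') (p n).2.2)) uf
        (𝓝 (pr (ψ j) p0.2.2)) := by
      have h2 : ∑ l' : Fin DY, C0 ⟨j, hjX⟩ l' • y0 l' = pr (ψ j) p0.2.2 := by
        rw [Finset.sum_eq_single (⟨j, hjY⟩ : Fin DY)]
        · rw [hC, if_pos rfl, one_smul, hy0j]
        · intro l' _ hl'
          rw [hC, if_neg (fun h' => hl' (Fin.ext h'.symm)), zero_smul]
        · intro h'
          exact absurd (Finset.mem_univ _) h'
      rw [← h2]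
      exact tendsto_finsetSum _ fun l' _ => (hPC ⟨j, hjX⟩ l').smul (hyl l')
    have h2 : Tendsto (fun n => - ∑ l ∈ Finset.univ.erase (⟨j, hjX⟩ : Fin DX), ∑ l' : Fin DY,
        ((f n j * RaU_th m j f n)⁻¹ * (RaU_al DX m j f n l *
        RaU_m (rw0 φ ψ m (f n)) zX zY l l' * RaU_be DY j f n l')) •
        (((RaU_al DX m j f n l)⁻¹ • pr (φ l) (p n).2.1) *
        ((RaU_be DY j f n l')⁻¹ • pr (ψ l') (p n).2.2))) uf
        (𝓝 (- ∑ l ∈ Finset.univ.erase (⟨j, hjX⟩ : Fin DX), ∑ l' : Fin DY,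
          C0 l l' • (x1 l * y0 l'))) := by
      refine Filter.Tendsto.neg (tendsto_finsetSum _ fun l hl => tendsto_finsetSum _ fun l' _ => ?_)
      have h3 : (l : ℕ) ≠ j := fun h => Finset.ne_of_mem_erase hl (Fin.ext h)
      exact (hPC l l').smul ((hxl l h3).mul (hyl l'))
    refine RaU_div h1 hw h2 fun n => ?_
    have h3 := eC n
    rw [← Finset.add_sum_erase _ _ (Finset.mem_univ (⟨j, hjX⟩ : Fin DX))] at h3
    rw [← eq_neg_iff_add_eq_zero] at h3
    rw [← h3, Finset.mul_sum]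
    refine Finset.sum_congr rfl fun l' _ => ?_
    simp only [Complex.real_smul]
    ring
  -- reality
  have hr1 : cj (S.a p0) = S.a p0 := by rw [← hS.ca, hr]
  have hr2 : cj (S.b p0) = S.b p0 := by rw [← hS.cb, hr]
  have hr3 : cj p0.1 = p0.1 := congrArg Prod.fst hr
  have hr4 : cj p0.2.1 = p0.2.1 :=
    congrArg (fun e : (I → ℂ) × (B → ℂ) × (C → ℂ) => e.2.1) hr
  have hr5 : cj p0.2.2 = p0.2.2 :=
    congrArg (fun e : (I → ℂ) × (B → ℂ) × (C → ℂ) => e.2.2) hr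
  have ra1 : ∀ z : B → ℝ, starRingEnd ℂ (dt (S.a p0) (RaU_c z)) = dt (S.a p0) (RaU_c z) := by
    intro z
    rw [← dt_cj, hr1, RaU_c_cj]
  have rb1 : ∀ z : C → ℝ, starRingEnd ℂ (dt (S.b p0) (RaU_c z)) = dt (S.b p0) (RaU_c z) := by
    intro z
    rw [← dt_cj, hr2, RaU_c_cj]
  have rv : ∀ l, starRingEnd ℂ (pr (φ l) p0.2.1) = pr (φ l) p0.2.1 := by
    intro l
    rw [← pr_cj, hr4]
  have rw1 : ∀ l, starRingEnd ℂ (pr (ψ l) p0.2.2) = pr (ψ l) p0.2.2 := by
    intro l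
    rw [← pr_cj, hr5]
  have rR : starRingEnd ℂ R0 = R0 := by
    rw [hR0, map_div₀, map_neg, ra1, rw1]
  have ry : ∀ l, starRingEnd ℂ (y0 l) = y0 l := by
    intro l
    simp only [hy0]
    split_ifs
    · rw [map_div₀, map_neg, ra1, rR]
    · exact rw1 l
  have rx : ∀ l, starRingEnd ℂ (x1 l) = x1 l := by
    intro l
    simp only [hx1]
    split_ifs
    · rw [map_div₀, map_neg, rb1, rR]
    · exact rv l
  have rxj : starRingEnd ℂ xj = xj := by
    rw [hxj, map_div₀, map_neg, map_sum, rw1]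
    congr 2
    refine Finset.sum_congr rfl fun l _ => ?_
    rw [map_sum]
    refine Finset.sum_congr rfl fun l' _ => ?_
    rw [Complex.real_smul, map_mul, map_mul, Complex.conj_ofReal, rx, ry]
  -- summary
  refine ⟨(p0.1, fun l => if (l : ℕ) = j then xj else x1 l, y0, R0), ?_, ?_, ?_, R0n, ?_⟩
  · unfold RaU_sc
    refine Filter.Tendsto.prodMk_nhds hp1 (Filter.Tendsto.prodMk_nhds
      (tendsto_pi_nhds.2 fun l => ?_) (Filter.Tendsto.prodMk_nhds (tendsto_pi_nhds.2 hyl) hRl))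
    by_cases h : (l : ℕ) = j
    · have e : l = ⟨j, hjX⟩ := Fin.ext h
      subst e
      rw [if_pos rfl]
      exact hxjl
    · rw [if_neg h]
      exact hxl l h
  · unfold RaU_cjE
    refine Prod.ext hr3 (Prod.ext (funext fun l => ?_) (Prod.ext (funext fun l => ry l) rR))
    change starRingEnd ℂ (if (l : ℕ) = j then xj else x1 l) = if (l : ℕ) = j then xj else x1 l
    split_ifs
    · exact rxj
    · exact rx l
  · unfold RaU_P
    refine Prod.ext rfl (Prod.ext ?_ ?_)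
    · refine RaU_V_gen hX h0.sv fun l hl => ?_
      simp only [hx1]
      rw [if_neg (by omega), if_neg (by omega)]
    · refine RaU_V_gen hY h0.sw fun l hl => ?_
      simp only [hy0]
      rw [if_neg (by omega)]
  · change y0 ⟨j, hjY⟩ ≠ 0
    rw [hy0j]
    exact hw

/-- Orders `i = j + 1` and `j`.

Proof. As in `ra_eq`: `v = ∑ x l • zX l`, `w = ∑ y l • zY l`. Here `r = R / f j`, `x l = f j x' l /
f l` for
`l ≤ j` replaced by: `x j = x' j` small, with its own unknown (see below), `x l = (f j / f l) x' l`,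
`y l = (f j / f l) y' l` for `l < j`, `x j = θ x' j` with `θ = max over l < j of |f j / f l|` and of
`|f (j+1) / f j|` (a null sequence). Equations: `l < j`: `a (zX l) + R (y' l + ..) = 0`,
`b (zY l) + R (x' l + ..) = 0`; `l = j`: `a (zX j) + R (y j + small) = 0`, `b (zY j) + R (θ x' j +
small) = 0`;
`l > j`: `a (zX l) + R (f l / f j) (..) = 0`. The constraint divided by `f j θ`:
`x' j y j + ∑ l < j, (f j / (f l θ)) x' l y' l + ∑ l > j, (f l / (f j θ)) φ l (v) ψ l (w) = 0`; the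
coefficients are bounded, so they converge along the ultrafilter. Limit system: the old system on
`Xi X φ (j + 1)`, `Xi Y ψ j` (the equation `b (zY j) = 0` included); `a (zX j) + R y j = 0`: `R` is
real and
nonzero by `ra`; `x' l`, `y' l` (`l < j`) and `x' j` are determined by linear equations. Kernel:
trivial.
`rig`, `rig_ker` as in `ra_eq`. -/
theorem ra_up {S : Sy I K B C} (hS : S.Sm) {X : Submodule ℂ (B → ℂ)} {Y : Submodule ℂ (C → ℂ)}
    (cX : Cj X) (cY : Cj Y) {DX DY m : ℕ} {φ zX : ℕ → B → ℝ} {ψ zY : ℕ → C → ℝ}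
    (hX : Flag X DX φ zX) (hY : Flag Y DY ψ zY) (hm : min DX DY ≤ m + 1) {f : ℕ → ℕ → ℝ}
    (hf : Hi m (-1) f) {p : ℕ → (I → ℂ) × (B → ℂ) × (C → ℂ)} {p0 : (I → ℂ) × (B → ℂ) × (C → ℂ)}
    {r : ℕ → ℂ} (hp : Tendsto p uf (𝓝 p0))
    (hsol : ∀ n, (S.ext (rw0 φ ψ m (f n))).Sol X Y (fun o => o.elim (r n) (p n).1, (p n).2))
    {j : ℕ} (hkX : j + 1 < DX) (hkY : j < DY)
    (h0 : S.Sol (Xi X φ (j + 1)) (Xi Y ψ j) p0) (hv : pr (φ (j + 1)) p0.2.1 ≠ 0)
    (hw : pr (ψ j) p0.2.2 ≠ 0) (hr : cj3 p0 = p0) (hnd : S.Nd (Xi X φ (j + 1)) (Xi Y ψ j) p0)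
    (ra : dt (S.a p0) (fun b => (zX j b : ℂ)) ≠ 0) :
    ∀ᶠ n in uf, cj3 (p n) = p n ∧ (r n).im = 0 ∧
      (S.ext (rw0 φ ψ m (f n))).Nd X Y (fun o => o.elim (r n) (p n).1, (p n).2) := by
  have hj : j ≤ m := by omega
  have hjX : j < DX := by omega
  obtain ⟨C0, hC, hz⟩ := RaU_lim hX hY hf hj hjX hkY
  obtain ⟨q0, hq, hq1, hq2, hq3, hq4⟩ :=
    RaU_q hS hX hY hf hp hsol hj hjX hkY h0 hw hr ra hC hz
  have h1 := RaU_core hS hX hY (F := fun n => rw0 φ ψ m (f n)) (RaU_al_ne hf hj)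
    (RaU_be_ne hf hj) (fun n => hf.ne n j hj) hsol hz hq hq1
    (RaU_ker hX hY hjX hkY hnd hC hq2 hq3 hq4)
  filter_upwards [h1] with n hn
  obtain ⟨h2, h3⟩ := hn
  have g1 := congrArg (fun e : (Option I → ℂ) × (B → ℂ) × (C → ℂ) => e.1) h2
  have g2 := congrArg (fun e : (Option I → ℂ) × (B → ℂ) × (C → ℂ) => e.2.1) h2
  have g3 := congrArg (fun e : (Option I → ℂ) × (B → ℂ) × (C → ℂ) => e.2.2) h2
  refine ⟨Prod.ext (funext fun i => congrFun g1 (some i)) (Prod.ext g2 g3), ?_, h3⟩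
  exact Complex.conj_eq_iff_im.1 (congrFun g1 none)

end

end Pool.Agent.MPb0eK
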