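import Mathlib
import Pool.Agent.Lib.MP_b0e20b_ag_K.RaU
import Pool.Agent.Lib.MP_b0e20b_ag_K.RaK
import Pool.Agent.Lib.MP_b0e20b_ag_K.RaC

/-!
# MP_b0e20b_ag, project K: the abstract row lemma: reality, orders i and i + 1, and summary
-/

set_option autoImplicit false

open scoped BigOperators Topology
open Filter

namespace Pool.Agent.MPb0eK

open MPb0eR (c1 c2 c3 tr q Sup Rl Rea uf Nrm cj AF scl)

section

variable {I K B C : Type} [Fintype I] [Fintype K] [Fintype B] [Fintype C] [DecidableEq B]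
  [DecidableEq C]

/-- The exchange of the last two components. -/
private def RaD_sw {I B C : Type} (p : (I → ℂ) × (B → ℂ) × (C → ℂ)) :
    (I → ℂ) × (C → ℂ) × (B → ℂ) := (p.1, p.2.2, p.2.1)

/-- The exchanged system. -/
private def RaD_sy {I K B C : Type} (S : Sy I K B C) : Sy I K C B where
  a := fun p => S.b (p.1, p.2.2, p.2.1)
  b := fun p => S.a (p.1, p.2.2, p.2.1)
  g := fun p => S.g (p.1, p.2.2, p.2.1)

omit [Fintype B] [Fintype C] [DecidableEq B] [DecidableEq C] [Fintype K] in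
private theorem RaD_tend {p : ℕ → (I → ℂ) × (B → ℂ) × (C → ℂ)} {p0 : (I → ℂ) × (B → ℂ) × (C → ℂ)}
    (hp : Tendsto p uf (𝓝 p0)) : Tendsto (fun n => RaD_sw (p n)) uf (𝓝 (RaD_sw p0)) := by
  have hc : Continuous fun p : (I → ℂ) × (B → ℂ) × (C → ℂ) => RaD_sw p := by
    unfold RaD_sw
    fun_prop
  exact (hc.tendsto p0).comp hp

private theorem RaD_sm {S : Sy I K B C} (hS : S.Sm) : (RaD_sy S).Sm where
  ha := by
    have h1 : ContDiff ℝ 1 fun p : (I → ℂ) × (C → ℂ) × (B → ℂ) => (p.1, p.2.2, p.2.1) := by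
      fun_prop
    exact hS.hb.comp h1
  hb := by
    have h1 : ContDiff ℝ 1 fun p : (I → ℂ) × (C → ℂ) × (B → ℂ) => (p.1, p.2.2, p.2.1) := by
      fun_prop
    exact hS.ha.comp h1
  hg := by
    have h1 : ContDiff ℝ 1 fun p : (I → ℂ) × (C → ℂ) × (B → ℂ) => (p.1, p.2.2, p.2.1) := by
      fun_prop
    exact hS.hg.comp h1
  ca := fun p => hS.cb (p.1, p.2.2, p.2.1)
  cb := fun p => hS.ca (p.1, p.2.2, p.2.1)
  cg := fun p => hS.cg (p.1, p.2.2, p.2.1)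

private theorem RaD_ext (S : Sy I K B C) (φ : ℕ → B → ℝ) (ψ : ℕ → C → ℝ) (m : ℕ) (f : ℕ → ℝ) :
    (RaD_sy S).ext (rw0 ψ φ m f) = RaD_sy (S.ext (rw0 φ ψ m f)) := by
  have hF : ∀ b c, rw0 ψ φ m f c b = rw0 φ ψ m f b c := by
    intro b c
    unfold rw0
    exact Finset.sum_congr rfl fun l _ => by ring
  have ha : ((RaD_sy S).ext (rw0 ψ φ m f)).a = (RaD_sy (S.ext (rw0 φ ψ m f))).a := by
    funext p c
    simp only [RaD_sy, Sy.ext, Pi.add_apply, Pi.smul_apply, bfB, bfC, hF]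
  have hb : ((RaD_sy S).ext (rw0 ψ φ m f)).b = (RaD_sy (S.ext (rw0 φ ψ m f))).b := by
    funext p c
    simp only [RaD_sy, Sy.ext, Pi.add_apply, Pi.smul_apply, bfB, bfC, hF]
  have hg : ((RaD_sy S).ext (rw0 ψ φ m f)).g = (RaD_sy (S.ext (rw0 φ ψ m f))).g := by
    funext p k
    cases k with
    | none =>
      simp only [RaD_sy, Sy.ext, Option.elim, bf, hF]
      rw [Finset.sum_comm]
      exact Finset.sum_congr rfl fun b _ => Finset.sum_congr rfl fun c _ => by ring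
    | some k => rfl
  cases h1 : (RaD_sy S).ext (rw0 ψ φ m f) with
  | mk a1 b1 g1 =>
    cases h2 : RaD_sy (S.ext (rw0 φ ψ m f)) with
    | mk a2 b2 g2 =>
      rw [h1, h2] at ha hb hg
      simp only at ha hb hg
      subst ha hb hg
      rfl

private theorem RaD_sol {S : Sy I K B C} {X : Submodule ℂ (B → ℂ)} {Y : Submodule ℂ (C → ℂ)}
    {p : (I → ℂ) × (B → ℂ) × (C → ℂ)} (h : S.Sol X Y p) : (RaD_sy S).Sol Y X (RaD_sw p) where
  sv := h.sw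
  sw := h.sv
  ea := h.eb
  eb := h.ea
  eg := h.eg

private theorem RaD_nd {S : Sy I K B C} {X : Submodule ℂ (B → ℂ)} {Y : Submodule ℂ (C → ℂ)}
    {p : (I → ℂ) × (B → ℂ) × (C → ℂ)} (h : S.Nd X Y p) : (RaD_sy S).Nd Y X (RaD_sw p) := by
  intro x hx
  have h1 : S.Ke X Y p (RaD_sw x) :=
    { sv := hx.sw
      sw := hx.sv
      ea := hx.eb
      eb := hx.ea
      eg := hx.eg }
  have h2 := h _ h1
  have h3 : x.1 = 0 := congrArg Prod.fst h2
  have h4 : x.2.2 = 0 := congrArg (fun y : (I → ℂ) × (B → ℂ) × (C → ℂ) => y.2.1) h2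
  have h5 : x.2.1 = 0 := congrArg (fun y : (I → ℂ) × (B → ℂ) × (C → ℂ) => y.2.2) h2
  exact Prod.ext h3 (Prod.ext h5 h4)

/-- Orders `i` and `i + 1`. Proof: `ra_up` for the system with `B` and `C` exchanged
(`S' = ⟨b, a, g⟩` composed with the exchange of the last two components). -/
theorem ra_dn {S : Sy I K B C} (hS : S.Sm) {X : Submodule ℂ (B → ℂ)} {Y : Submodule ℂ (C → ℂ)}
    (cX : Cj X) (cY : Cj Y) {DX DY m : ℕ} {φ zX : ℕ → B → ℝ} {ψ zY : ℕ → C → ℝ}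
    (hX : Flag X DX φ zX) (hY : Flag Y DY ψ zY) (hm : min DX DY ≤ m + 1) {f : ℕ → ℕ → ℝ}
    (hf : Hi m (-1) f) {p : ℕ → (I → ℂ) × (B → ℂ) × (C → ℂ)} {p0 : (I → ℂ) × (B → ℂ) × (C → ℂ)}
    {r : ℕ → ℂ} (hp : Tendsto p uf (𝓝 p0))
    (hsol : ∀ n, (S.ext (rw0 φ ψ m (f n))).Sol X Y (fun o => o.elim (r n) (p n).1, (p n).2))
    {i : ℕ} (hkX : i < DX) (hkY : i + 1 < DY)
    (h0 : S.Sol (Xi X φ i) (Xi Y ψ (i + 1)) p0) (hv : pr (φ i) p0.2.1 ≠ 0)
    (hw : pr (ψ (i + 1)) p0.2.2 ≠ 0) (hr : cj3 p0 = p0)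
    (hnd : S.Nd (Xi X φ i) (Xi Y ψ (i + 1)) p0)
    (rb : dt (S.b p0) (fun c => (zY i c : ℂ)) ≠ 0) :
    ∀ᶠ n in uf, cj3 (p n) = p n ∧ (r n).im = 0 ∧
      (S.ext (rw0 φ ψ m (f n))).Nd X Y (fun o => o.elim (r n) (p n).1, (p n).2) := by
  have hm' : min DY DX ≤ m + 1 := by rwa [min_comm]
  have hsol' : ∀ n, ((RaD_sy S).ext (rw0 ψ φ m (f n))).Sol Y X
      (fun o => o.elim (r n) (RaD_sw (p n)).1, (RaD_sw (p n)).2) := by
    intro n
    rw [RaD_ext]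
    exact RaD_sol (hsol n)
  have hr' : cj3 (RaD_sw p0) = RaD_sw p0 := by
    have h1 : RaD_sw (cj3 p0) = RaD_sw p0 := congrArg RaD_sw hr
    exact h1
  have h1 := ra_up (RaD_sm hS) cY cX hY hX hm' hf (RaD_tend hp) hsol' (j := i) hkY hkX
    (RaD_sol h0) hw hv hr' (RaD_nd hnd) rb
  filter_upwards [h1] with n hn
  obtain ⟨g1, g2, g3⟩ := hn
  refine ⟨?_, g2, ?_⟩
  · have h2 : cj3 (p n) = p n := congrArg RaD_sw g1
    exact h2
  · rw [RaD_ext] at g3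
    exact RaD_nd g3

/-- Summary. `old i j p` is the information on the old solutions: real, nondegenerate, with the
sign conditions.

Proof. `ra_cls` (with `a n = S.a (p n)` and so on) gives `i, j`, the limit is an old solution. If
`i ≥ 1`
then `dt (S.a p0) (zX (i-1)) ≠ 0`, but `S.a p0` vanishes on `Xi X φ (min i j + 1)`, so
`i - 1 < min i j + 1`, i.e. `i ≤ j + 1`; the same for `j`. Then `ra_eq`, `ra_up`, `ra_dn`. -/
theorem ra_all {S : Sy I K B C} (hS : S.Sm) {X : Submodule ℂ (B → ℂ)} {Y : Submodule ℂ (C → ℂ)}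
    (cX : Cj X) (cY : Cj Y) {DX DY m : ℕ} {φ zX : ℕ → B → ℝ} {ψ zY : ℕ → C → ℝ}
    (hX : Flag X DX φ zX) (hY : Flag Y DY ψ zY) (hm : min DX DY ≤ m + 1) {f : ℕ → ℕ → ℝ}
    (hf : Hi m (-1) f) {p : ℕ → (I → ℂ) × (B → ℂ) × (C → ℂ)} {p0 : (I → ℂ) × (B → ℂ) × (C → ℂ)}
    {r : ℕ → ℂ} (hp : Tendsto p uf (𝓝 p0))
    (hsol : ∀ n, (S.ext (rw0 φ ψ m (f n))).Sol X Y (fun o => o.elim (r n) (p n).1, (p n).2))
    (v0n : p0.2.1 ≠ 0) (w0n : p0.2.2 ≠ 0)
    (old : ∀ i j, i < DX → j < DY → S.Sol (Xi X φ i) (Xi Y ψ j) p0 → pr (φ i) p0.2.1 ≠ 0 →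
      pr (ψ j) p0.2.2 ≠ 0 → cj3 p0 = p0 ∧ S.Nd (Xi X φ i) (Xi Y ψ j) p0 ∧
      (1 ≤ i → dt (S.a p0) (fun b => (zX (i - 1) b : ℂ)) ≠ 0) ∧
      (1 ≤ j → dt (S.b p0) (fun c => (zY (j - 1) c : ℂ)) ≠ 0) ∧
      (1 ≤ i → i = j → 0 < (dt (S.a p0) (fun b => (zX (i - 1) b : ℂ)) * pr (φ i) p0.2.1
        * (dt (S.b p0) (fun c => (zY (i - 1) c : ℂ)) * pr (ψ i) p0.2.2)).re)) :
    (∀ᶠ n in uf, cj3 (p n) = p n ∧ (r n).im = 0 ∧
      (S.ext (rw0 φ ψ m (f n))).Nd X Y (fun o => o.elim (r n) (p n).1, (p n).2)) ∧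
    ∃ i j, i < DX ∧ j < DY ∧ S.Sol (Xi X φ i) (Xi Y ψ j) p0 ∧ pr (φ i) p0.2.1 ≠ 0 ∧
      pr (ψ j) p0.2.2 ≠ 0 ∧
      (∀ z : B → ℂ, (∀ l, l < i → pr (φ l) z = 0) →
        Tendsto (fun n => r n * bf (rw0 φ ψ m (f n)) z (p n).2.2) uf (𝓝 0)) ∧
      ∀ z : C → ℂ, (∀ l, l < j → pr (ψ l) z = 0) →
        Tendsto (fun n => r n * bf (rw0 φ ψ m (f n)) (p n).2.1 z) uf (𝓝 0) := by
  have E : ∀ n, (∀ z ∈ X, dt (S.a (p n)) z + r n * bf (rw0 φ ψ m (f n)) z (p n).2.2 = 0) ∧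
      (∀ z ∈ Y, dt (S.b (p n)) z + r n * bf (rw0 φ ψ m (f n)) (p n).2.1 z = 0) ∧
      bf (rw0 φ ψ m (f n)) (p n).2.1 (p n).2.2 = 0 ∧ S.g (p n) = 0 := by
    intro n
    have hn := hsol n
    refine ⟨fun z hz => ?_, fun z hz => ?_, ?_, ?_⟩
    · have h1 := hn.ea z hz
      have h2 : dt (S.a (p n) + r n • bfB (rw0 φ ψ m (f n)) (p n).2.2) z = 0 := h1
      rwa [dt_add_left, dt_smul_left, dt_bfB] at h2
    · have h1 := hn.eb z hz
      have h2 : dt (S.b (p n) + r n • bfC (rw0 φ ψ m (f n)) (p n).2.1) z = 0 := h1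
      rwa [dt_add_left, dt_smul_left, dt_bfC] at h2
    · exact congrFun hn.eg none
    · funext k
      exact congrFun hn.eg (some k)
  have ha : Tendsto (fun n => S.a (p n)) uf (𝓝 (S.a p0)) :=
    (hS.ha.continuous.tendsto p0).comp hp
  have hb : Tendsto (fun n => S.b (p n)) uf (𝓝 (S.b p0)) :=
    (hS.hb.continuous.tendsto p0).comp hp
  have hg : Tendsto (fun n => S.g (p n)) uf (𝓝 (S.g p0)) :=
    (hS.hg.continuous.tendsto p0).comp hp
  have hg0 : S.g p0 = 0 := by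
    refine tendsto_nhds_unique hg ?_
    simp only [fun n => (E n).2.2.2]
    exact tendsto_const_nhds
  have hv : Tendsto (fun n => (p n).2.1) uf (𝓝 p0.2.1) :=
    ((continuous_fst.comp continuous_snd).tendsto p0).comp hp
  have hw : Tendsto (fun n => (p n).2.2) uf (𝓝 p0.2.2) :=
    ((continuous_snd.comp continuous_snd).tendsto p0).comp hp
  obtain ⟨i, j, hi, hj, hij, vX, vi, wY, wj, ai, bj, am, bm, l1, l2⟩ := ra_cls hX hY hm hf ha hb
    hv hw v0n w0n (fun n => (hsol n).sv) (fun n => (hsol n).sw) (fun n => (E n).1)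
    (fun n => (E n).2.1) (fun n => (E n).2.2.1)
  have h0 : S.Sol (Xi X φ i) (Xi Y ψ j) p0 := ⟨vX, wY, ai, bj, hg0⟩
  obtain ⟨o1, o2, o3, o4, o5⟩ := old i j hi hj h0 vi wj
  have k1 : i ≤ j + 1 := by
    by_contra hcon
    have h1 : 1 ≤ i := by omega
    refine o3 h1 (am _ (hX.mem_i ?_ (by omega)))
    have : min i j = j := by omega
    omega
  have k2 : j ≤ i + 1 := by
    by_contra hcon
    have h1 : 1 ≤ j := by omega
    refine o4 h1 (bm _ (hY.mem_i ?_ (by omega)))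
    have : min i j = i := by omega
    omega
  refine ⟨?_, i, j, hi, hj, h0, vi, wj, l1, l2⟩
  rcases lt_trichotomy i j with h | h | h
  · have hj1 : j = i + 1 := by omega
    subst hj1
    exact ra_dn hS cX cY hX hY hm hf hp hsol hi hj h0 vi wj o1 o2 (o4 (by omega))
  · subst h
    have h1 : 1 ≤ i := by omega
    exact ra_eq hS cX cY hX hY hm hf hp hsol h1 hi hj h0 vi wj o1 o2 (o5 h1 rfl)
  · have hi1 : i = j + 1 := by omega
    subst hi1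
    exact ra_up hS cX cY hX hY hm hf hp hsol hi hj h0 vi wj o1 o2 (o3 (by omega))

end

end Pool.Agent.MPb0eK
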