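import Mathlib
import Pool.Agent.Lib.MP_b0e20b_ag_K.DS
import Pool.Agent.Lib.MP_b0e20b_ag_K.DL0
import Pool.Agent.Lib.MP_b0e20b_ag_K.DL1
import Pool.Agent.Lib.MP_b0e20b_ag_K.RaD
import Pool.Agent.Lib.MP_b0e20b_ag_K.ObL

/-!
# MP_b0e20b_ag, project K: D types: the step of the induction
-/

set_option autoImplicit false

open scoped BigOperators Topology
open Filter

namespace Pool.Agent.MPb0eK

open MPb0eR (c1 c2 c3 tr q Sup Rl Rea uf Nrm cj AF scl)

section

variable {P : Par} {N n2 n3 : ℕ} {T : Fin (N + 1) → Fin (n2 + 1) → Fin (n3 + 1) → ℝ} {t : Bool}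
  {p : ℕ}

private theorem D2_cj {A : Type} {x : A → ℂ} (h : Rea x) : cj x = x := by
  funext a
  exact Complex.conj_eq_iff_im.2 (h a)

private theorem D2_cj' {A : Type} {x : A → ℂ} (h : cj x = x) : Rea x := fun a =>
  Complex.conj_eq_iff_im.1 (congrFun h a)

private theorem D2_dtre {A : Type} [Fintype A] {x y : A → ℂ} (hx : Rea x) (hy : Rea y) :
    (dt x y).im = 0 := by
  rw [dt, Complex.im_sum]
  exact Finset.sum_eq_zero fun a _ => by rw [Complex.mul_im, hx a, hy a, mul_zero, zero_mul,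
    add_zero]

private theorem D2_row (P : Par) (n2 n3 : ℕ) (g R δ : ℝ) :
    row P n2 n3 g R δ = fun b c => R * row P n2 n3 g 1 δ b c := by
  funext b c
  simp only [row, one_mul]

private theorem D2_c2 {n2 n3 N : ℕ} (T : Fin (N + 1) → Fin (n2 + 1) → Fin (n3 + 1) → ℝ)
    (F : Fin (n2 + 1) → Fin (n3 + 1) → ℝ) (R : ℝ) (a0 : Fin (N + 1)) (u : Fin (N + 1) → ℂ)
    (w : Fin (n3 + 1) → ℂ) (b : Fin (n2 + 1)) :
    c2 (Function.update T a0 (fun b c => R * F b c)) u w b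
      = c2 T (Function.update u a0 0) w b + R * u a0 * bfB F w b := by
  classical
  unfold c2 bfB
  rw [← Finset.add_sum_erase _ _ (Finset.mem_univ a0),
    ← Finset.add_sum_erase (f := fun a => ∑ c, ((T a b c : ℝ) : ℂ)
      * (Function.update u a0 0 a * w c)) _ (Finset.mem_univ a0)]
  have e1 : ∑ a ∈ Finset.univ.erase a0, ∑ c,
      ((Function.update T a0 (fun b c => R * F b c) a b c : ℝ) : ℂ) * (u a * w c)
      = ∑ a ∈ Finset.univ.erase a0, ∑ c, ((T a b c : ℝ) : ℂ)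
        * (Function.update u a0 0 a * w c) := by
    refine Finset.sum_congr rfl fun a ha => ?_
    have h : a ≠ a0 := (Finset.mem_erase.1 ha).1
    rw [Function.update_of_ne h, Function.update_of_ne h]
  have e2 : ∑ c, ((Function.update T a0 (fun b c => R * F b c) a0 b c : ℝ) : ℂ) * (u a0 * w c)
      = R * u a0 * ∑ c, (F b c : ℂ) * w c := by
    rw [Function.update_self, Finset.mul_sum]
    refine Finset.sum_congr rfl fun c _ => ?_
    push_cast
    ring
  have e3 : ∑ c, ((T a0 b c : ℝ) : ℂ) * (Function.update u a0 0 a0 * w c) = 0 := by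
    rw [Function.update_self]
    exact Finset.sum_eq_zero fun c _ => by ring
  rw [e1, e2, e3]
  ring

private theorem D2_c3 {n2 n3 N : ℕ} (T : Fin (N + 1) → Fin (n2 + 1) → Fin (n3 + 1) → ℝ)
    (F : Fin (n2 + 1) → Fin (n3 + 1) → ℝ) (R : ℝ) (a0 : Fin (N + 1)) (u : Fin (N + 1) → ℂ)
    (v : Fin (n2 + 1) → ℂ) (c : Fin (n3 + 1)) :
    c3 (Function.update T a0 (fun b c => R * F b c)) u v c
      = c3 T (Function.update u a0 0) v c + R * u a0 * bfC F v c := by
  classical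
  unfold c3 bfC
  rw [← Finset.add_sum_erase _ _ (Finset.mem_univ a0),
    ← Finset.add_sum_erase (f := fun a => ∑ b, ((T a b c : ℝ) : ℂ)
      * (Function.update u a0 0 a * v b)) _ (Finset.mem_univ a0)]
  have e1 : ∑ a ∈ Finset.univ.erase a0, ∑ b,
      ((Function.update T a0 (fun b c => R * F b c) a b c : ℝ) : ℂ) * (u a * v b)
      = ∑ a ∈ Finset.univ.erase a0, ∑ b, ((T a b c : ℝ) : ℂ)
        * (Function.update u a0 0 a * v b) := by
    refine Finset.sum_congr rfl fun a ha => ?_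
    have h : a ≠ a0 := (Finset.mem_erase.1 ha).1
    rw [Function.update_of_ne h, Function.update_of_ne h]
  have e2 : ∑ b, ((Function.update T a0 (fun b c => R * F b c) a0 b c : ℝ) : ℂ) * (u a0 * v b)
      = R * u a0 * ∑ b, (F b c : ℂ) * v b := by
    rw [Function.update_self, Finset.mul_sum]
    refine Finset.sum_congr rfl fun b _ => ?_
    push_cast
    ring
  have e3 : ∑ b, ((T a0 b c : ℝ) : ℂ) * (Function.update u a0 0 a0 * v b) = 0 := by
    rw [Function.update_self]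
    exact Finset.sum_eq_zero fun c _ => by ring
  rw [e1, e2, e3]
  ring

private theorem D2_dn {i : ℕ → ℕ} {p k : ℕ} : dn (at' i p k) p = at' i p (k - 1) := by
  rw [dn, at', at', Function.update_self, Function.update_idem]

private theorem D2_ath {i : ℕ → ℕ} {p k : ℕ} : at' i p k p = k := by
  rw [at', Function.update_self]

private theorem D2_ato {i : ℕ → ℕ} {p k q : ℕ} (h : q ≠ p) : at' i p k q = i q := by
  rw [at', Function.update_of_ne h]

private theorem D2_adm {N : ℕ} {i : ℕ → ℕ} {p k : ℕ} (hp : p ≤ N) (hi : Adm (p + 1) N i) :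
    Adm p N (at' i p k) := by
  intro q hq
  by_cases h : q = p
  · subst h
    exact ⟨le_refl _, hp⟩
  · rw [D2_ato h] at hq
    have := hi q hq
    omega

private theorem D2_i0 {N : ℕ} {i : ℕ → ℕ} {p : ℕ} (hi : Adm (p + 1) N i) : i p = 0 := by
  by_contra h
  have := (hi p h).1
  omega

private theorem D2_iN {N : ℕ} {i : ℕ → ℕ} {p : ℕ} (hi : Adm p N i) : ∀ q, N < q → i q = 0 := by
  intro q hq
  by_contra h
  have := (hi q h).2
  omega

/-- The mask. -/
private theorem D2_mask {P : Par} {n : ℕ} (t : Bool) {i : ℕ → ℕ} {z : Fin (n + 1) → ℂ}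
    (hz : z ∈ Xo P n 1 i) : z ∈ Xo P n (if t then 1 else 0) i := by
  cases t
  · exact ⟨⟨fun h => absurd rfl h, fun h => absurd h (by decide)⟩, hz.2⟩
  · exact hz

private theorem D2_mask0 {P : Par} {n : ℕ} (t : Bool) {i : ℕ → ℕ} {z : Fin (n + 1) → ℂ}
    (hz : z ∈ Xo P n (if t then 1 else 0) i) : z ∈ Xo P n 0 i :=
  ⟨⟨fun h => absurd rfl h, fun h => absurd h (by decide)⟩, hz.2⟩

private theorem D2_z0 {P : Par} {n : ℕ} {i : ℕ → ℕ} {z : Fin (n + 1) → ℂ}
    (hz : z ∈ Xo P n 1 i) : z 0 = 0 := hz.1.1 (by decide)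

/-- Test vectors of the mask `1` at a node, from the mask `0`. -/
private theorem D2_tst1 {P : Par} {N : ℕ} (hP : GoodP P N) (n : ℕ) {i : ℕ → ℕ}
    (hi : ∀ p, N < p → i p = 0)
    (h : Xo P n 0 i ≠ ⊥) {p : ℕ} (hp : i p ≠ 0) :
    ∃ z ∈ Xo P n 1 (dn i p), Rea z ∧ pr (tau P n (P.g p) (i p - 1)) z = 1 := by
  classical
  have hpN : p ≤ N := by
    by_contra hc
    exact hp (hi p (by omega))
  have hdg : dg N 0 i ≤ n := by
    by_contra hc
    exact h (Xo_bot hP n 0 hi (by omega))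
  have hmem : p ∈ Finset.range (N + 1) := Finset.mem_range.2 (by omega)
  have h0 : at' i p 0 p = 0 := Function.update_self _ _ _
  have hi' : ∀ q, N < q → at' i p 0 q = 0 := by
    intro q hq
    rw [at', Function.update_of_ne (by omega)]
    exact hi q hq
  obtain ⟨z, hz⟩ := flag hP n 1 hi' hpN h0
  have hD : i p - 1 < n + 1 - dg N 1 (at' i p 0) := by
    have e1 : ∑ q ∈ Finset.range (N + 1), at' i p 0 q =
        0 + ∑ q ∈ Finset.range (N + 1) \ {p}, i q := Finset.sum_update_of_mem hmem i 0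
    have e2 := Finset.sum_eq_sum_sdiff_singleton_add hmem i
    rw [dg] at hdg ⊢
    rw [e2] at hdg
    rw [e1]
    have e3 : ((0 : Fin 3) : ℕ) = 0 := rfl
    have e4 : ((1 : Fin 3) : ℕ) = 1 := rfl
    rw [e3] at hdg
    rw [e4]
    omega
  refine ⟨fun b => (z (i p - 1) b : ℂ), ?_, ?_, ?_⟩
  · have h1 := hz.mem (i p - 1) hD
    refine ⟨h1.1, fun q l hl => ?_⟩
    by_cases hq : q = p
    · subst hq
      rw [dn, Function.update_self] at hl
      rw [hz.dual l (i q - 1) (by omega) hD, if_neg (by omega)]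
    · rw [dn, Function.update_of_ne hq] at hl
      apply h1.2 q l
      rw [at', Function.update_of_ne hq]
      exact hl
  · intro b
    exact Complex.ofReal_im _
  · rw [hz.dual _ _ hD hD, if_pos rfl]

/-- The test vector of the flag against a test vector of the mask `1`. -/
private theorem D2_tst {P : Par} {N p : ℕ} (hP : GoodP P N) {n : ℕ} {t : Bool} {i : ℕ → ℕ}
    (hp : p ≤ N)
    (hi : Adm (p + 1) N i) {D : ℕ} {zX : ℕ → Fin (n + 1) → ℝ}
    (hX : Flag (Xo P n (if t then 1 else 0) i) D (tau P n (P.g p)) zX) {k : ℕ} (hk : 1 ≤ k)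
    (hkD : k < D) {v : Fin (n + 1) → ℂ} (hv : v ∈ Xo P n (if t then 1 else 0) (at' i p k))
    (hv0 : v ≠ 0) {g g' : Fin (n + 1) → ℂ}
    (hg : ∀ z ∈ Xo P n (if t then 1 else 0) (at' i p k), dt g z = 0)
    (hgg : ∀ z : Fin (n + 1) → ℂ, z 0 = 0 → dt g z = dt g' z) :
    ∃ z1 ∈ Xo P n 1 (dn (at' i p k) p), Rea z1 ∧
      pr (tau P n (P.g p) (at' i p k p - 1)) z1 = 1 ∧
      dt g (fun b => (zX (k - 1) b : ℂ)) = dt g' z1 := by
  have hkp : at' i p k p ≠ 0 := by rw [D2_ath]; omega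
  have hbot : Xo P n 0 (at' i p k) ≠ ⊥ := fun h => hv0 (by
    have := D2_mask0 t hv
    rw [h] at this
    exact (Submodule.mem_bot ℂ).1 this)
  obtain ⟨z1, hz1, hr1, ht1⟩ := D2_tst1 hP n (D2_iN (D2_adm hp hi)) hbot hkp
  refine ⟨z1, hz1, hr1, ht1, ?_⟩
  have h0 := D2_i0 hi
  have hz : (fun b => (zX (k - 1) b : ℂ)) ∈ Xo P n (if t then 1 else 0) (dn (at' i p k) p) := by
    rw [D2_dn, ← Xi_Xo P n _ h0 (k - 1) (fun p' hp' => hP.inj hp')]
    exact hX.mem_i (le_refl _) (by omega)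
  have hd := tst_diff hP n (if t then 1 else 0) (p' := p) hkp (fun q hq => hP.inj hq.symm) hz
    (D2_mask t hz1) (by
      rw [ht1, D2_ath, hX.dual (k - 1) (k - 1) (by omega) (by omega), if_pos rfl])
  have h1 := hg _ hd
  have h2 : dt g ((fun b => (zX (k - 1) b : ℂ)) - z1)
      = dt g (fun b => (zX (k - 1) b : ℂ)) - dt g z1 := by
    simp only [dt, Pi.sub_apply, mul_sub, Finset.sum_sub_distrib]
  rw [h2] at h1
  rw [sub_eq_zero.1 h1]
  exact hgg z1 (D2_z0 hz1)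

private theorem D2_neg {x y : ℂ} (h : (x * y).re < 0) : x ≠ 0 := by
  rintro rfl
  rw [zero_mul, Complex.zero_re] at h
  exact lt_irrefl _ h

private theorem D2_sgn {a b x y : ℂ} (ha : a.im = 0) (hb : b.im = 0) (hx : x.im = 0)
    (hy : y.im = 0) (h1 : (a * x).re < 0) (h2 : (b * y).re < 0) (h3 : 0 < (x * y).re) :
    0 < (a * b).re := by
  rw [Complex.mul_re, ha, hx, mul_zero, sub_zero] at h1
  rw [Complex.mul_re, hb, hy, mul_zero, sub_zero] at h2
  rw [Complex.mul_re, hx, hy, mul_zero, sub_zero] at h3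
  rw [Complex.mul_re, ha, hb, mul_zero, sub_zero]
  have h4 : 0 < (a.re * x.re) * (b.re * y.re) := mul_pos_of_neg_of_neg h1 h2
  have h5 : 0 < (a.re * b.re) * (x.re * y.re) := by nlinarith
  exact (pos_iff_pos_of_mul_pos h5).2 h3

private theorem D2_dtg {A : Type} [Fintype A] (x : A → ℂ) (f : A → ℝ) (M : ℂ) (z : A → ℂ) :
    dt (fun b => x b + M * (f b : ℂ)) z = dt x z + M * pr f z := by
  simp only [dt, pr, Finset.mul_sum, ← Finset.sum_add_distrib]
  exact Finset.sum_congr rfl fun a _ => by ring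

private theorem D2_dta {m : ℕ} (x : Fin (m + 1) → ℂ) (f : Fin (m + 1) → ℝ) (M κ : ℂ)
    (z : Fin (m + 1) → ℂ) (hz : z 0 = 0) :
    dt (fun b => x b + M * (f b : ℂ) - κ * if b = 0 then 1 else 0) z
      = dt (fun b => x b + M * (f b : ℂ)) z := by
  simp only [dt]
  refine Finset.sum_congr rfl fun b _ => ?_
  by_cases h : b = 0
  · subst h
    rw [hz, mul_zero, mul_zero]
  · rw [if_neg h, mul_zero, sub_zero]

private theorem D2_e0 {N : ℕ} {u : Fin (N + 1) → ℂ} {M M' κ κ' : ℂ} (h1 : u = 0) (h2 : M = 0)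
    (h3 : M' = 0) (h4 : κ = 0) (h5 : κ' = 0) (k : Fin (N + 1) ⊕ Fin 4) :
    eD u M M' κ κ' k = 0 := by
  subst h1 h2 h3 h4 h5
  cases k with
  | inl a => rfl
  | inr k => fin_cases k <;> rfl

private theorem D2_eD {N : ℕ} (e : Fin (N + 1) ⊕ Fin 4 → ℂ) :
    ∃ (u : Fin (N + 1) → ℂ) (M M' κ κ' : ℂ), e = eD u M M' κ κ' := by
  refine ⟨fun a => e (Sum.inl a), e (Sum.inr 0), e (Sum.inr 1), e (Sum.inr 2), e (Sum.inr 3), ?_⟩
  funext k
  cases k with
  | inl a => rfl
  | inr k => fin_cases k <;> rfl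

private theorem D2_ere {N : ℕ} {u : Fin (N + 1) → ℂ} {M M' κ κ' : ℂ} (h1 : Rea u)
    (h2 : M.im = 0) (h3 : M'.im = 0) (h4 : κ.im = 0) (h5 : κ'.im = 0) :
    Rea (eD u M M' κ κ') := by
  intro k
  cases k with
  | inl a => exact h1 a
  | inr k => fin_cases k <;> assumption

private theorem D2_old {P : Par} {N n2 n3 : ℕ}
    {T : Fin (N + 1) → Fin (n2 + 1) → Fin (n3 + 1) → ℝ} {t : Bool} {p : ℕ}
    (hP : GoodP P N) (h1 : 1 ≤ p) (hp : p ≤ N) (hE : PE P T false p)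
    (hE' : t = true → PE P T true p) (hD : PD P T t p) {i j : ℕ → ℕ}
    (hi : Adm (p + 1) N i) (hj : Adm (p + 1) N j) {k k' : ℕ} {u : Fin (N + 1) → ℂ}
    {v : Fin (n2 + 1) → ℂ} {w : Fin (n3 + 1) → ℂ} {M M' κ κ' : ℂ} {k0 : Fin (N + 1) ⊕ Fin 4}
    {ib : Fin (n2 + 1)} {ic : Fin (n3 + 1)}
    (hs : (syD P T t p k0 ib ic).Sol (Xo P n2 (if t then 1 else 0) (at' i p k))
      (Xo P n3 (if t then 1 else 0) (at' j p k')) (eD u M M' κ κ', v, w)) :
    v ≠ 0 ∧ w ≠ 0 ∧ DK P T t p (at' i p k) (at' j p k') u v w M M' κ κ' ∧ NvD t u v w M M' ∧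
    (Rea u ∧ Rea v ∧ Rea w ∧ M.im = 0 ∧ M'.im = 0 ∧ κ.im = 0 ∧ κ'.im = 0) ∧
    (syD P T t p k0 ib ic).Nd (Xo P n2 (if t then 1 else 0) (at' i p k))
      (Xo P n3 (if t then 1 else 0) (at' j p k')) (eD u M M' κ κ', v, w) ∧
    ObD P n2 n3 (at' i p k) (at' j p k') v w (fun b => c2 T u w b + M * hv P n2 b)
      (fun c => c3 T u v c + M' * hv P n3 c) (M * pr (tau P n2 P.gh 0) v)
      (M' * pr (tau P n3 P.gh 0) w) := by
  obtain ⟨hk, hv1, hw1, he1⟩ := syD_sol.1 hs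
  have hv0 : v ≠ 0 := by
    rintro rfl
    exact zero_ne_one hv1
  have hw0 : w ≠ 0 := by
    rintro rfl
    exact zero_ne_one hw1
  have hne : ¬ (u = 0 ∧ M = 0 ∧ M' = 0 ∧ κ = 0 ∧ κ' = 0) := by
    rintro ⟨a1, a2, a3, a4, a5⟩
    rw [D2_e0 a1 a2 a3 a4 a5] at he1
    exact zero_ne_one he1
  have hai : Adm p N (at' i p k) := D2_adm hp hi
  have haj : Adm p N (at' j p k') := D2_adm hp hj
  have hN : NvD t u v w M M' := by
    cases t
    · exact dl0 hP hai haj hE hk hv0 hw0 hne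
    · refine dl1 hP h1 hai haj hE (hE' rfl) hk hv0 hw0 ?_
      rintro ⟨a1, a2, a3⟩
      exact hne ⟨a1, a2, a3, (hk.ek rfl).1, (hk.ek rfl).2⟩
  obtain ⟨hok, hob⟩ := hD _ _ hai haj u v w M M' hk.dx hN
  have hre := syD_re hk hN hok hv1 hw1 he1
  exact ⟨hv0, hw0, hk, hN, hre, syD_nd hk hN hok hv1 hw1 he1,
    hob hre.1 hre.2.1 hre.2.2.1 hre.2.2.2.1 hre.2.2.2.2.1⟩

private theorem D2_obs {P : Par} {n2 n3 : ℕ} {i j : ℕ → ℕ} {v : Fin (n2 + 1) → ℂ}
    {w : Fin (n3 + 1) → ℂ} {gB gB' : Fin (n2 + 1) → ℂ} {gC gC' : Fin (n3 + 1) → ℂ}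
    {η η' h h' : ℂ} {a b c : ℂ} (ha : a.im = 0) (hb : b.im = 0) (hc : c.im = 0) (a0 : a ≠ 0)
    (b0 : b ≠ 0) (c0 : c ≠ 0)
    (eB : ∀ z, dt gB' z = a * c * dt gB z) (eC : ∀ z, dt gC' z = a * b * dt gC z)
    (e1 : h = a * b * c * η) (e2 : h' = a * b * c * η')
    (H : ObD P n2 n3 i j (b • v) (c • w) gB' gC' h h') :
    ObD P n2 n3 i j v w gB gC η η' := by
  obtain ⟨s, hs⟩ : ∃ s : ℝ, (s : ℂ) = a * b * c :=
    ⟨a.re * b.re * c.re, by
      have h1 : ((a.re : ℝ) : ℂ) = a := Complex.ext rfl (by rw [Complex.ofReal_im, ha])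
      have h2 : ((b.re : ℝ) : ℂ) = b := Complex.ext rfl (by rw [Complex.ofReal_im, hb])
      have h3 : ((c.re : ℝ) : ℂ) = c := Complex.ext rfl (by rw [Complex.ofReal_im, hc])
      push_cast
      rw [h1, h2, h3]⟩
  have hs0 : s ≠ 0 := by
    intro h0
    rw [h0, Complex.ofReal_zero] at hs
    exact mul_ne_zero (mul_ne_zero a0 b0) c0 hs.symm
  have hs2 : 0 < s ^ 2 := by positivity
  have key : ∀ x : ℂ, (((s ^ 2 : ℝ) : ℂ) * x).re = s ^ 2 * x.re := fun x =>
    Complex.re_ofReal_mul _ _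
  constructor
  · intro p hp z hz hr h1
    have h2 := H.oB p hp z hz hr h1
    rw [eB z, pr_smul, e1] at h2
    have h3 : a * c * dt gB z * (b * pr (tau P n2 (P.g p) (i p)) v) * (a * b * c * η)
        = ((s ^ 2 : ℝ) : ℂ) * (dt gB z * pr (tau P n2 (P.g p) (i p)) v * η) := by
      push_cast
      rw [hs]
      ring
    rw [h3, key] at h2
    exact (pos_iff_neg_of_mul_neg h2).1 hs2
  · intro p hp z hz hr h1
    have h2 := H.oC p hp z hz hr h1
    rw [eC z, pr_smul, e2] at h2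
    have h3 : a * b * dt gC z * (c * pr (tau P n3 (P.g p) (j p)) w) * (a * b * c * η')
        = ((s ^ 2 : ℝ) : ℂ) * (dt gC z * pr (tau P n3 (P.g p) (j p)) w * η') := by
      push_cast
      rw [hs]
      ring
    rw [h3, key] at h2
    exact (pos_iff_neg_of_mul_neg h2).1 hs2
  · have h2 := H.hh
    rw [e1, e2] at h2
    have h3 : a * b * c * η * (a * b * c * η') = ((s ^ 2 : ℝ) : ℂ) * (η * η') := by
      push_cast
      rw [hs]
      ring
    rw [h3, key] at h2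
    exact (pos_iff_pos_of_mul_pos h2).1 hs2

private theorem D2_pr {A : Type} [Fintype A] (f : A → ℝ) {v : ℕ → A → ℂ} {v0 : A → ℂ}
    (lv : Tendsto v uf (𝓝 v0)) : Tendsto (fun n => pr f (v n)) uf (𝓝 (pr f v0)) := by
  have h : Continuous fun x : A → ℂ => pr f x := by
    unfold pr
    fun_prop
  exact (h.tendsto v0).comp lv

private theorem D2_dtl {A : Type} [Fintype A] {x : ℕ → A → ℂ} {x0 : A → ℂ}
    (lx : ∀ a, Tendsto (fun n => x n a) uf (𝓝 (x0 a))) (z : A → ℂ) :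
    Tendsto (fun n => dt (x n) z) uf (𝓝 (dt x0 z)) := by
  unfold dt
  exact tendsto_finsetSum _ fun a _ => (lx a).mul_const _

/-- The updated tensor. -/
private noncomputable abbrev D2_T (P : Par) {N n2 n3 : ℕ}
    (T : Fin (N + 1) → Fin (n2 + 1) → Fin (n3 + 1) → ℝ) (p : ℕ) (R δ : ℝ) :
    Fin (N + 1) → Fin (n2 + 1) → Fin (n3 + 1) → ℝ :=
  Function.update T (Fin.ofNat (N + 1) p) fun b c => R * row P n2 n3 (P.g p) 1 (-δ) b c

private theorem D2_core {P : Par} {N n2 n3 : ℕ}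
    {T : Fin (N + 1) → Fin (n2 + 1) → Fin (n3 + 1) → ℝ} {t : Bool} {p : ℕ}
    (hP : GoodP P N) (h1 : 1 ≤ p) (hp : p ≤ N) (hE : PE P T false p)
    (hE' : t = true → PE P T true p) (hD : PD P T t p) {i j : ℕ → ℕ}
    (hi : Adm (p + 1) N i) (hj : Adm (p + 1) N j) (k0 : Fin (N + 1) ⊕ Fin 4)
    (ib : Fin (n2 + 1)) (ic : Fin (n3 + 1)) :
    ∀ᶠ δ in 𝓝[>] (0 : ℝ), ∀ R : ℝ, 0 < R → ∀ u v w M M' κ κ',
      DK P (D2_T P T p R δ) t (p + 1) i j u v w M M' κ κ' → NvD t u v w M M' → Nrm v ib →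
      Nrm w ic → Nrm (eD (Function.update u (Fin.ofNat (N + 1) p) 0) M M' κ κ') k0 →
      OkDX P (D2_T P T p R δ) t (p + 1) i j u v w M M' ∧
      (Rea u → Rea v → Rea w → M.im = 0 → M'.im = 0 →
        ObD P n2 n3 i j v w (fun b => c2 (D2_T P T p R δ) u w b + M * hv P n2 b)
          (fun c => c3 (D2_T P T p R δ) u v c + M' * hv P n3 c)
          (M * pr (tau P n2 P.gh 0) v) (M' * pr (tau P n3 P.gh 0) w)) := by
  classical
  by_contra hcon
  rw [Filter.not_eventually] at hcon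
  obtain ⟨δ, hδ, hb⟩ := Filter.exists_seq_forall_of_frequently
    (hcon.and_eventually self_mem_nhdsWithin)
  have hb' : ∀ n, ∃ (R : ℝ) (u : Fin (N + 1) → ℂ) (v : Fin (n2 + 1) → ℂ) (w : Fin (n3 + 1) → ℂ)
      (M M' κ κ' : ℂ), 0 < R ∧ DK P (D2_T P T p R (δ n)) t (p + 1) i j u v w M M' κ κ' ∧
      NvD t u v w M M' ∧ Nrm v ib ∧ Nrm w ic ∧
      Nrm (eD (Function.update u (Fin.ofNat (N + 1) p) 0) M M' κ κ') k0 ∧
      ¬ (OkDX P (D2_T P T p R (δ n)) t (p + 1) i j u v w M M' ∧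
      (Rea u → Rea v → Rea w → M.im = 0 → M'.im = 0 →
        ObD P n2 n3 i j v w (fun b => c2 (D2_T P T p R (δ n)) u w b + M * hv P n2 b)
          (fun c => c3 (D2_T P T p R (δ n)) u v c + M' * hv P n3 c)
          (M * pr (tau P n2 P.gh 0) v) (M' * pr (tau P n3 P.gh 0) w))) := by
    intro n
    by_contra h
    apply (hb n).1
    intro R hR u v w M M' κ κ' hk hN nv nw ne
    by_contra hc
    exact h ⟨R, u, v, w, M, M', κ, κ', hR, hk, hN, nv, nw, ne, hc⟩
  choose R u v w M M' κ κ' hR hk hN nv nw ne hbad using hb'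
  have hpos : ∀ n, 0 < δ n := fun n => (hb n).2
  have hδ' : Tendsto δ uf (𝓝 0) :=
    (hδ.mono_right nhdsWithin_le_nhds).mono_left Nat.hyperfilter_le_atTop
  have hkr := fun n => ((dk_upd h1 hp (hR n)).1 (hk n)).1
  obtain ⟨e0, he0⟩ := MPb0eR.ulim_vec (fun n => eD (Function.update (u n)
    (Fin.ofNat (N + 1) p) 0) (M n) (M' n) (κ n) (κ' n)) 1 (fun n a => (ne n).2 a)
  obtain ⟨v0, hv0⟩ := MPb0eR.ulim_vec v 1 (fun n a => (nv n).2 a)
  obtain ⟨w0, hw0⟩ := MPb0eR.ulim_vec w 1 (fun n a => (nw n).2 a)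
  obtain ⟨u0, M0, M0', κ0, κ0', rfl⟩ := D2_eD e0
  have i0 := D2_i0 hi
  have j0 := D2_i0 hj
  obtain ⟨zX, hX⟩ := flag hP n2 (if t then 1 else 0) (D2_iN hi) hp i0
  obtain ⟨zY, hY⟩ := flag hP n3 (if t then 1 else 0) (D2_iN hj) hp j0
  have hm : min (n2 + 1 - dg N (if t then 1 else 0) i) (n3 + 1 - dg N (if t then 1 else 0) j)
      ≤ min n2 n3 + 1 := by omega
  have hf : Hi (min n2 n3) (-1) fun n l => 1 * (-δ n) ^ l :=
    (hi_row (min n2 n3) one_pos hδ' hpos).2
  have hsol : ∀ n, ((syD P T t p k0 ib ic).ext (rw0 (tau P n2 (P.g p)) (tau P n3 (P.g p))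
      (min n2 n3) ((fun n l => 1 * (-δ n) ^ l : ℕ → ℕ → ℝ) n))).Sol
      (Xo P n2 (if t then 1 else 0) i) (Xo P n3 (if t then 1 else 0) j)
      (fun o => o.elim (R n * u n (Fin.ofNat (N + 1) p)) (eD (Function.update (u n)
        (Fin.ofNat (N + 1) p) 0) (M n) (M' n) (κ n) (κ' n)), v n, w n) := by
    intro n
    have h := (syD_ext (k0 := k0) (ib := ib) (ic := ic)).2
      ⟨hkr n, (nv n).1, (nw n).1, (ne n).1⟩
    rw [row_eq] at h
    exact h
  have hvn : v0 ≠ 0 := (MPb0eR.Nrm.lim nv hv0).ne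
  have hwn : w0 ≠ 0 := (MPb0eR.Nrm.lim nw hw0).ne
  have hXi : ∀ k, Xi (Xo P n2 (if t then 1 else 0) i) (tau P n2 (P.g p)) k
      = Xo P n2 (if t then 1 else 0) (at' i p k) := fun k =>
    Xi_Xo P n2 _ i0 k (fun p' hp' => hP.inj hp')
  have hYi : ∀ k, Xi (Xo P n3 (if t then 1 else 0) j) (tau P n3 (P.g p)) k
      = Xo P n3 (if t then 1 else 0) (at' j p k) := fun k =>
    Xi_Xo P n3 _ j0 k (fun p' hp' => hP.inj hp')
  obtain ⟨H1, i', j', hi', hj', hs0, -, -, L1, L2⟩ := ra_all (S := syD P T t p k0 ib ic) syD_sm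
    (Xo_cj P n2 (if t then 1 else 0) i) (Xo_cj P n3 (if t then 1 else 0) j) hX hY hm hf
    (p := fun n => (eD (Function.update (u n) (Fin.ofNat (N + 1) p) 0) (M n) (M' n) (κ n)
      (κ' n), v n, w n)) (p0 := (eD u0 M0 M0' κ0 κ0', v0, w0))
    (r := fun n => R n * u n (Fin.ofNat (N + 1) p))
    (he0.prodMk_nhds (hv0.prodMk_nhds hw0)) hsol hvn hwn (by
      intro i' j' hi' hj' hs hφ hψ
      rw [hXi, hYi] at hs ⊢
      obtain ⟨-, -, hk0, hN0, hre, hnd, hob⟩ := D2_old hP h1 hp hE hE' hD hi hj hs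
      obtain ⟨r1, r2, r3, r4, r5, r6, r7⟩ := hre
      have hcj : cj3 (eD u0 M0 M0' κ0 κ0', v0, w0) = (eD u0 M0 M0' κ0 κ0', v0, w0) := by
        simp only [cj3]
        rw [D2_cj (D2_ere r1 r4 r5 r6 r7), D2_cj r2, D2_cj r3]
      have hη : (M0 * pr (tau P n2 P.gh 0) v0).im = 0 := by
        rw [Complex.mul_im, r4, pr_re _ r2, mul_zero, zero_mul, add_zero]
      have hη' : (M0' * pr (tau P n3 P.gh 0) w0).im = 0 := by
        rw [Complex.mul_im, r5, pr_re _ r3, mul_zero, zero_mul, add_zero]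
      have hrz : ∀ {m : ℕ} (z : ℕ → Fin (m + 1) → ℝ) (l : ℕ), Rea fun b => (z l b : ℂ) :=
        fun z l b => Complex.ofReal_im _
      have sB : 1 ≤ i' → (dt ((syD P T t p k0 ib ic).a (eD u0 M0 M0' κ0 κ0', v0, w0))
          (fun b => (zX (i' - 1) b : ℂ)) * pr (tau P n2 (P.g p) i') v0
          * (M0 * pr (tau P n2 P.gh 0) v0)).re < 0 ∧
          (dt ((syD P T t p k0 ib ic).a (eD u0 M0 M0' κ0 κ0', v0, w0))
          (fun b => (zX (i' - 1) b : ℂ)) * pr (tau P n2 (P.g p) i') v0).im = 0 := by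
        intro hk1
        obtain ⟨z1, hz1, hr1, ht1, e1⟩ := D2_tst hP hp hi hX hk1 hi' hs.sv hvn hs.ea
          (g' := fun b => c2 T u0 w0 b + M0 * hv P n2 b)
          (fun z hz => D2_dta (fun b => c2 T u0 w0 b) (hv P n2) M0 κ0 z hz)
        have h2 := hob.oB p (by rw [D2_ath]; omega) z1 hz1 hr1 ht1
        rw [D2_ath] at h2
        rw [e1]
        refine ⟨h2, ?_⟩
        rw [← e1, Complex.mul_im, pr_re _ r2, D2_dtre (D2_cj' (by
          rw [← syD_sm.ca, hcj])) (hrz zX (i' - 1)), mul_zero, zero_mul, add_zero]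
      have sC : 1 ≤ j' → (dt ((syD P T t p k0 ib ic).b (eD u0 M0 M0' κ0 κ0', v0, w0))
          (fun b => (zY (j' - 1) b : ℂ)) * pr (tau P n3 (P.g p) j') w0
          * (M0' * pr (tau P n3 P.gh 0) w0)).re < 0 ∧
          (dt ((syD P T t p k0 ib ic).b (eD u0 M0 M0' κ0 κ0', v0, w0))
          (fun b => (zY (j' - 1) b : ℂ)) * pr (tau P n3 (P.g p) j') w0).im = 0 := by
        intro hk1
        obtain ⟨z1, hz1, hr1, ht1, e1⟩ := D2_tst hP hp hj hY hk1 hj' hs.sw hwn hs.eb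
          (g' := fun b => c3 T u0 v0 b + M0' * hv P n3 b)
          (fun z hz => D2_dta (fun b => c3 T u0 v0 b) (hv P n3) M0' κ0' z hz)
        have h2 := hob.oC p (by rw [D2_ath]; omega) z1 hz1 hr1 ht1
        rw [D2_ath] at h2
        rw [e1]
        refine ⟨h2, ?_⟩
        rw [← e1, Complex.mul_im, pr_re _ r3, D2_dtre (D2_cj' (by
          rw [← syD_sm.cb, hcj])) (hrz zY (j' - 1)), mul_zero, zero_mul, add_zero]
      refine ⟨hcj, hnd, fun h => ?_, fun h => ?_, fun h e => ?_⟩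
      · have h2 := (sB h).1
        rw [mul_assoc] at h2
        exact D2_neg h2
      · have h2 := (sC h).1
        rw [mul_assoc] at h2
        exact D2_neg h2
      · subst e
        exact D2_sgn (sB h).2 (sC h).2 hη hη' (sB h).1 (sC h).1 hob.hh)
  rw [hXi, hYi] at hs0
  obtain ⟨-, -, hk0, hN0, hre, hnd, hob⟩ := D2_old hP h1 hp hE hE' hD hi hj hs0
  have hbB : Xo P n2 0 (at' i p i') ≠ ⊥ := fun h => hvn (by
    have := D2_mask0 t hk0.sv
    rw [h] at this
    exact (Submodule.mem_bot ℂ).1 this)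
  have hbC : Xo P n3 0 (at' j p j') ≠ ⊥ := fun h => hwn (by
    have := D2_mask0 t hk0.sw
    rw [h] at this
    exact (Submodule.mem_bot ℂ).1 this)
  have hent := tendsto_pi_nhds.1 he0
  have lM : Tendsto M uf (𝓝 M0) := hent (Sum.inr 0)
  have lM' : Tendsto M' uf (𝓝 M0') := hent (Sum.inr 1)
  have lu : Tendsto (fun n => Function.update (u n) (Fin.ofNat (N + 1) p) 0) uf (𝓝 u0) :=
    tendsto_pi_nhds.2 fun a => hent (Sum.inl a)
  have H2 := obD_lim hP hi hj hp (v := v) (w := w)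
    (gB := fun n b => c2 (D2_T P T p (R n) (δ n)) (u n) (w n) b + M n * hv P n2 b)
    (gC := fun n c => c3 (D2_T P T p (R n) (δ n)) (u n) (v n) c + M' n * hv P n3 c)
    (η := fun n => M n * pr (tau P n2 P.gh 0) (v n))
    (η' := fun n => M' n * pr (tau P n3 P.gh 0) (w n)) hbB hbC
    (fun n z hz => by
      rw [D2_dtg]
      exact (hk n).dx.e2 z hz)
    (fun n z hz => by
      rw [D2_dtg]
      exact (hk n).dx.e3 z hz) hv0 hw0 (lM.mul (D2_pr _ hv0)) (lM'.mul (D2_pr _ hw0))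
    (gB0 := fun b => c2 T u0 w0 b + M0 * hv P n2 b)
    (gC0 := fun c => c3 T u0 v0 c + M0' * hv P n3 c)
    (fun z hz => by
      have e1 : ∀ n, dt (fun b => c2 (D2_T P T p (R n) (δ n)) (u n) (w n) b
          + M n * hv P n2 b) z
          = dt (c2 T (Function.update (u n) (Fin.ofNat (N + 1) p) 0) (w n)) z
          + R n * u n (Fin.ofNat (N + 1) p) * bf (rw0 (tau P n2 (P.g p)) (tau P n3 (P.g p))
      (min n2 n3) ((fun n l => 1 * (-δ n) ^ l : ℕ → ℕ → ℝ) n)) z (w n)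
          + M n * pr (hv P n2) z := by
        intro n
        rw [D2_dtg, ← dt_bfB, ← row_eq, ← dt_smul_left, ← dt_add_left]
        congr 2
        funext b
        exact D2_c2 T _ (R n) _ (u n) (w n) b
      rw [D2_dtg, show (fun n => dt ((fun n b => c2 (D2_T P T p (R n) (δ n)) (u n) (w n) b
        + M n * hv P n2 b) n) z) = _ from funext e1]
      have h3 := ((D2_dtl (fun b => MPb0eR.lim_c2 (T := T) lu hw0 b) z).add (L1 z hz)).add
        (lM.mul_const (pr (hv P n2) z))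
      rw [add_zero] at h3
      exact h3)
    (fun z hz => by
      have e1 : ∀ n, dt (fun b => c3 (D2_T P T p (R n) (δ n)) (u n) (v n) b
          + M' n * hv P n3 b) z
          = dt (c3 T (Function.update (u n) (Fin.ofNat (N + 1) p) 0) (v n)) z
          + R n * u n (Fin.ofNat (N + 1) p) * bf (rw0 (tau P n2 (P.g p)) (tau P n3 (P.g p))
      (min n2 n3) ((fun n l => 1 * (-δ n) ^ l : ℕ → ℕ → ℝ) n)) (v n) z
          + M' n * pr (hv P n3) z := by
        intro n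
        rw [D2_dtg, ← dt_bfC, ← row_eq, ← dt_smul_left, ← dt_add_left]
        congr 2
        funext b
        exact D2_c3 T _ (R n) _ (u n) (v n) b
      rw [D2_dtg, show (fun n => dt ((fun n b => c3 (D2_T P T p (R n) (δ n)) (u n) (v n) b
        + M' n * hv P n3 b) n) z) = _ from funext e1]
      have h3 := ((D2_dtl (fun b => MPb0eR.lim_c3 (T := T) lu hv0 b) z).add (L2 z hz)).add
        (lM'.mul_const (pr (hv P n3) z))
      rw [add_zero] at h3
      exact h3) hob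
  obtain ⟨n, ⟨g1, g2, g3⟩, g4⟩ := (H1.and H2).exists
  apply hbad n
  refine ⟨?_, fun _ _ _ _ _ => g4⟩
  have c1' : Rea (eD (Function.update (u n) (Fin.ofNat (N + 1) p) 0) (M n) (M' n) (κ n)
      (κ' n)) := D2_cj' (congrArg Prod.fst g1)
  have c2' : Rea (v n) := D2_cj' (congrArg (fun y : (Fin (N + 1) ⊕ Fin 4 → ℂ)
    × (Fin (n2 + 1) → ℂ) × (Fin (n3 + 1) → ℂ) => y.2.1) g1)
  have c3' : Rea (w n) := D2_cj' (congrArg (fun y : (Fin (N + 1) ⊕ Fin 4 → ℂ)
    × (Fin (n2 + 1) → ℂ) × (Fin (n3 + 1) → ℂ) => y.2.2) g1)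
  have c4' : Rea (u n) := by
    intro a
    by_cases ha : a = Fin.ofNat (N + 1) p
    · rw [ha]
      have g2' : (((R n : ℝ) : ℂ) * u n (Fin.ofNat (N + 1) p)).im = 0 := g2
      rw [Complex.im_ofReal_mul] at g2'
      exact (mul_eq_zero.1 g2').resolve_left (hR n).ne'
    · have h2 := c1' (Sum.inl a)
      simp only [eD, Sum.elim_inl] at h2
      rwa [Function.update_of_ne ha] at h2
  have hnd' := g3
  rw [← row_eq] at hnd'
  exact syD_back h1 hp (hR n) (hk n) (hN n) (nv n).1 (nw n).1 (ne n).1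
    ⟨c4', c2', c3', c1' (Sum.inr 0), c1' (Sum.inr 1)⟩ hnd'

/-- The orders given by a code. -/
private def D2_fn {N m : ℕ} (c : Fin (N + 1) → Fin (m + 1)) : ℕ → ℕ := fun q =>
  if h : q < N + 1 then (c ⟨q, h⟩ : ℕ) else 0

private theorem D2_code {P : Par} {N p n : ℕ} (hP : GoodP P N) (x : Fin 3) {i : ℕ → ℕ}
    (hi : Adm p N i) {v : Fin (n + 1) → ℂ} (hv : v ∈ Xo P n x i) (h0 : v ≠ 0) :
    ∃ c : Fin (N + 1) → Fin (n + 1), D2_fn c = i := by
  have hdg : dg N x i ≤ n := by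
    by_contra hc
    rw [Xo_bot hP n x (D2_iN hi) (by omega)] at hv
    exact h0 ((Submodule.mem_bot ℂ).1 hv)
  have hle : ∀ q, q < N + 1 → i q < n + 1 := by
    intro q hq
    have h1 : i q ≤ ∑ r ∈ Finset.range (N + 1), i r :=
      Finset.single_le_sum (f := i) (fun _ _ => Nat.zero_le _) (Finset.mem_range.2 hq)
    rw [dg] at hdg
    omega
  refine ⟨fun q => ⟨i q, hle q q.isLt⟩, ?_⟩
  funext q
  by_cases h : q < N + 1
  · rw [D2_fn, dif_pos h]
  · rw [D2_fn, dif_neg h, D2_iN hi q (by omega)]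

/-- The step for the D types.

Proof. By contradiction with sequences `δ n → 0+`, `R n > 0`, orders (constant along `uf`: finitely
many
with `Xo ≠ ⊥`), solutions of `DX` for the updated tensor at `p + 1` which satisfy `NvD` and violate
the claim. `row ... R (-δ) = R * row ... 1 (-δ)`. `DX.dk`, `dk_upd`: `DKr` for `F n = row .. 1 (-δ
n)` with
`u'` (the entry `p` replaced by zero) and `r = R u p`. Normalise: `v, w` by `exists_nrm`, and
`(u', M, M', κ, κ')` (nonzero because `M ≠ 0`) to sup norm one with the entry `k0` equal to one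
(`DKr.smul`, `OkDX.of_smul`); constant indices. Everything except `r` converges. `ra_all` for
`syD P T t p k0 ib ic`, flags at the node `p` on `Xo (if t then 1 else 0) i`, `Xi_Xo`. The
hypothesis
`old`: a solution of the limit system is `DK P T t p (at' i p i') (at' j p j')` (`syD_sol`), it
satisfies
`NvD` by `dl0`, `dl1`, so `PD` applies (`DK.dx`): `OkDX`, `syD_re`, `syD_nd`, and the signs:
`ObD.oB` for the
node `p`: for the test vector `z ∈ Xo 1 (dn (at' i p i') p)` with Taylor coefficient one (it exists: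
`tst_p` for the mask `1`; if `Xo 1 (at' i p i') = ⊥`, then `dg` gives that `Xo 1 (dn ..)` is still
nonzero: use the node product directly) the difference `zX (i' - 1) - z` is in `Xo 0 (at' i p i')`,
so
`dt (a) zX = dt (a) z = dt gB z` (`z 0 = 0`). With `η = M V(gh)`: `a φ η < 0`, `b ψ η' < 0`, `η η'
> 0`
give `(a φ) (b ψ) > 0`. `ra_all` gives reality and nondegeneracy, `syD_back` gives `OkDX`, and
`obD_lim` (with `gB = c2 T' u w + M h`, which tends to the limit on the vectors of order `≥ i'` at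
`p`
by the last claims of `ra_all`) gives `ObD` for the new solutions. -/
theorem d_step (hP : GoodP P N) (h1 : 1 ≤ p) (hp : p ≤ N) (hE : PE P T false p)
    (hE' : t = true → PE P T true p) (hD : PD P T t p) :
    ∀ᶠ δ in 𝓝[>] (0 : ℝ), ∀ R : ℝ, 0 < R →
      PD P (Function.update T (Fin.ofNat (N + 1) p) (row P n2 n3 (P.g p) R (-δ))) t (p + 1) := by
  classical
  have key : ∀ (c : Fin (N + 1) → Fin (n2 + 1)) (d : Fin (N + 1) → Fin (n3 + 1))
      (k0 : Fin (N + 1) ⊕ Fin 4) (ib : Fin (n2 + 1)) (ic : Fin (n3 + 1)),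
      ∀ᶠ δ in 𝓝[>] (0 : ℝ), Adm (p + 1) N (D2_fn c) → Adm (p + 1) N (D2_fn d) →
      ∀ R : ℝ, 0 < R → ∀ u v w M M' κ κ',
      DK P (D2_T P T p R δ) t (p + 1) (D2_fn c) (D2_fn d) u v w M M' κ κ' →
      NvD t u v w M M' → Nrm v ib →
      Nrm w ic → Nrm (eD (Function.update u (Fin.ofNat (N + 1) p) 0) M M' κ κ') k0 →
      OkDX P (D2_T P T p R δ) t (p + 1) (D2_fn c) (D2_fn d) u v w M M' ∧
      (Rea u → Rea v → Rea w → M.im = 0 → M'.im = 0 →
        ObD P n2 n3 (D2_fn c) (D2_fn d) v w (fun b => c2 (D2_T P T p R δ) u w b + M * hv P n2 b)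
          (fun c => c3 (D2_T P T p R δ) u v c + M' * hv P n3 c)
          (M * pr (tau P n2 P.gh 0) v) (M' * pr (tau P n3 P.gh 0) w)) := by
    intro c d k0 ib ic
    by_cases hc : Adm (p + 1) N (D2_fn c)
    · by_cases hd : Adm (p + 1) N (D2_fn d)
      · filter_upwards [D2_core hP h1 hp hE hE' hD hc hd k0 ib ic] with δ h _ _
        exact h
      · exact Filter.Eventually.of_forall fun δ _ h => absurd h hd
    · exact Filter.Eventually.of_forall fun δ h => absurd h hc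
  filter_upwards [Filter.eventually_all.2 fun c => Filter.eventually_all.2 fun d =>
    Filter.eventually_all.2 fun k0 => Filter.eventually_all.2 fun ib =>
    Filter.eventually_all.2 fun ic => key c d k0 ib ic] with δ hδ
  intro R hR i j hi hj u v w M M' hx hn
  obtain ⟨c, rfl⟩ := D2_code hP _ hi hx.sv hn.1
  obtain ⟨d, rfl⟩ := D2_code hP _ hj hx.sw hn.2.1
  rw [D2_row P n2 n3 (P.g p) R (-δ)] at hx ⊢
  obtain ⟨κ, κ', hk⟩ := hx.dk hn.2.2.2.2.1
  obtain ⟨b, ib, hb, nb⟩ := MPb0eR.exists_nrm hn.1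
  obtain ⟨c', ic, hc, nc⟩ := MPb0eR.exists_nrm hn.2.1
  have hM0 : M ≠ 0 := hn.2.2.1
  have hM0' : M' ≠ 0 := hn.2.2.2.1
  have hE0 : eD (Function.update u (Fin.ofNat (N + 1) p) 0) (c' * M) (b * M') (c' * κ) (b * κ')
      ≠ 0 := fun h => mul_ne_zero hc hM0 (congrFun h (Sum.inr 0))
  obtain ⟨a, k0, ha, na⟩ := MPb0eR.exists_nrm hE0
  have hup : Function.update (a • u) (Fin.ofNat (N + 1) p) 0
      = a • Function.update u (Fin.ofNat (N + 1) p) 0 := by
    funext x
    by_cases hx : x = Fin.ofNat (N + 1) p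
    · rw [hx, Function.update_self, Pi.smul_apply, Function.update_self, smul_zero]
    · rw [Function.update_of_ne hx, Pi.smul_apply, Pi.smul_apply, Function.update_of_ne hx]
  have heq : a • eD (Function.update u (Fin.ofNat (N + 1) p) 0) (c' * M) (b * M') (c' * κ)
      (b * κ') = eD (Function.update (a • u) (Fin.ofNat (N + 1) p) 0) (a * c' * M) (a * b * M')
      (a * c' * κ) (a * b * κ') := by
    rw [hup]
    funext k
    cases k with
    | inl x => rfl
    | inr k => fin_cases k <;> exact (mul_assoc _ _ _).symm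
  have na' := na
  rw [heq] at na'
  obtain ⟨hk1, hk2⟩ := (dk_upd h1 hp hR).1 hk
  have hk3 : DK P (D2_T P T p R δ) t (p + 1) (D2_fn c) (D2_fn d) (a • u) (b • v) (c' • w)
      (a * c' * M) (a * b * M') (a * c' * κ) (a * b * κ') := by
    refine (dk_upd h1 hp hR).2 ⟨?_, fun x hx => by rw [Pi.smul_apply, hk2 x hx, smul_zero]⟩
    have h2 := hk1.smul a b c'
    rw [← hup] at h2
    have h3 : (R : ℂ) * (a • u) (Fin.ofNat (N + 1) p) = a * (R * u (Fin.ofNat (N + 1) p)) := by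
      rw [Pi.smul_apply, smul_eq_mul]
      ring
    rw [h3]
    exact h2
  have hn3 : NvD t (a • u) (b • v) (c' • w) (a * c' * M) (a * b * M') :=
    ⟨smul_ne_zero hb hn.1, smul_ne_zero hc hn.2.1, mul_ne_zero (mul_ne_zero ha hc) hM0,
      mul_ne_zero (mul_ne_zero ha hb) hM0',
      fun h => ⟨mul_ne_zero hb (hn.2.2.2.2.1 h).1, mul_ne_zero hc (hn.2.2.2.2.1 h).2⟩,
      fun h => mul_ne_zero ha (hn.2.2.2.2.2 h)⟩
  obtain ⟨ok, ob⟩ := hδ c d k0 ib ic hi hj R hR _ _ _ _ _ _ _ hk3 hn3 nb nc na'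
  refine ⟨OkDX.of_smul ha hb hc ok, fun ru rv rw' rM rM' => ?_⟩
  have rinv : ∀ {x y : ℂ}, x * y = 1 → y.im = 0 → x.im = 0 := by
    intro x y hxy hy
    have h2 : x = y⁻¹ := eq_inv_of_mul_eq_one_left hxy
    rw [h2, Complex.inv_im, hy, neg_zero, zero_div]
  have rmul : ∀ {x y : ℂ}, x.im = 0 → y.im = 0 → (x * y).im = 0 := by
    intro x y hx hy
    rw [Complex.mul_im, hx, hy, mul_zero, zero_mul, add_zero]
  have rb : b.im = 0 := rinv nb.1 (rv ib)
  have rc : c'.im = 0 := rinv nc.1 (rw' ic)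
  have rκ : κ.im = 0 ∧ κ'.im = 0 := by
    cases t with
    | true => exact ⟨by rw [(hk.ek rfl).1, Complex.zero_im], by rw [(hk.ek rfl).2,
        Complex.zero_im]⟩
    | false =>
      obtain ⟨e1, e2⟩ := hk.rel.1 rfl
      obtain ⟨z1, z2⟩ := hn.2.2.2.2.1 rfl
      constructor
      · have h2 : κ = M * pr (hv P n2) v * (v 0)⁻¹ := by
          rw [e1, mul_assoc, mul_inv_cancel₀ z1, mul_one]
        rw [h2]
        exact rmul (rmul rM (pr_re _ rv)) (by rw [Complex.inv_im, rv 0, neg_zero, zero_div])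
      · have h2 : κ' = M' * pr (hv P n3) w * (w 0)⁻¹ := by
          rw [e2, mul_assoc, mul_inv_cancel₀ z2, mul_one]
        rw [h2]
        exact rmul (rmul rM' (pr_re _ rw')) (by rw [Complex.inv_im, rw' 0, neg_zero, zero_div])
  have ru' : Rea (Function.update u (Fin.ofNat (N + 1) p) 0) := by
    intro x
    by_cases hx : x = Fin.ofNat (N + 1) p
    · rw [hx, Function.update_self, Complex.zero_im]
    · rw [Function.update_of_ne hx]
      exact ru x
  have ra : a.im = 0 := rinv na.1 (D2_ere ru' (rmul rc rM) (rmul rb rM') (rmul rc rκ.1)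
    (rmul rb rκ.2) k0)
  have rsm : ∀ {A : Type} {x : ℂ} {y : A → ℂ}, x.im = 0 → Rea y → Rea (x • y) :=
    fun hx hy s => rmul hx (hy s)
  refine D2_obs ra rb rc ha hb hc (fun z => ?_) (fun z => ?_) ?_ ?_
    (ob (rsm ra ru) (rsm rb rv) (rsm rc rw') (rmul (rmul ra rc) rM) (rmul (rmul ra rb) rM'))
  · rw [D2_dtg, D2_dtg]
    have e1 : (fun x => c2 (D2_T P T p R δ) (a • u) (c' • w) x)
        = (a * c') • fun x => c2 (D2_T P T p R δ) u w x := by
      funext x
      rw [MPb0eR.c2_smul_left, MPb0eR.c2_smul_right, Pi.smul_apply, smul_eq_mul]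
      ring
    have e2 : dt (c2 (D2_T P T p R δ) (a • u) (c' • w)) z
        = a * c' * dt (c2 (D2_T P T p R δ) u w) z := by
      rw [← dt_smul_left]
      exact congrArg (fun g => dt g z) e1
    rw [e2]
    ring
  · rw [D2_dtg, D2_dtg]
    have e1 : (fun x => c3 (D2_T P T p R δ) (a • u) (b • v) x)
        = (a * b) • fun x => c3 (D2_T P T p R δ) u v x := by
      funext x
      rw [MPb0eR.c3_smul_left, MPb0eR.c3_smul_right, Pi.smul_apply, smul_eq_mul]
      ring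
    have e2 : dt (c3 (D2_T P T p R δ) (a • u) (b • v)) z
        = a * b * dt (c3 (D2_T P T p R δ) u v) z := by
      rw [← dt_smul_left]
      exact congrArg (fun g => dt g z) e1
    rw [e2]
    ring
  · rw [pr_smul]
    ring
  · rw [pr_smul]
    ring

end

end Pool.Agent.MPb0eK
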