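import Mathlib
import Pool.Agent.Lib.MP_b0e20b_ag_K.DA
import Pool.Agent.Lib.MP_b0e20b_ag_K.P3

/-!
# MP_b0e20b_ag, project K: type D0: the start of the induction
-/

set_option autoImplicit false

open scoped BigOperators Topology
open Filter

namespace Pool.Agent.MPb0eK

open MPb0eR (c1 c2 c3 tr q Sup Rl Rea uf Nrm cj AF scl)

section

variable {P : Par} {N n2 n3 : ℕ}

open Polynomial in
private theorem db0_cf (a : ℝ) (m : ℕ) (H : ℂ[X]) :
    (taylor (a : ℂ) ((X - C (a : ℂ)) ^ m * H)).coeff m = H.eval (a : ℂ) := by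
  rw [taylor_mul, taylor_pow, map_sub, taylor_X, taylor_C, add_sub_cancel_right]
  have h := coeff_X_pow_mul (taylor (a : ℂ) H) m 0
  rw [zero_add] at h
  rw [h, taylor_coeff_zero]

private theorem db0_g (hP : GoodP P N) : ∀ q, P.gh < P.g (q + 1) := by
  intro q
  induction q with
  | zero => exact hP.h2
  | succ q ih => exact ih.trans (hP.h3 (q + 1) (by omega))

private theorem db0_gh (hP : GoodP P N) : 0 < P.gh := hP.h0.trans hP.h1

private theorem db0_ne (hP : GoodP P N) (q : ℕ) : P.gh - P.g q ≠ 0 := by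
  cases q with
  | zero => exact (sub_pos.2 hP.h1).ne'
  | succ q => exact (sub_neg.2 (db0_g hP q)).ne

open Polynomial in
/-- The node product of the mask `0`. -/
private theorem db0_nod (P : Par) (N : ℕ) (i : ℕ → ℕ) :
    nod P N 0 i = ∏ q ∈ Finset.range (N + 1), (X - C (P.g q : ℂ)) ^ i q := by
  rw [nod, if_neg (by simp), if_neg (by simp), one_mul, one_mul]

open Polynomial in
private theorem db0_nod1 (P : Par) (N : ℕ) (i : ℕ → ℕ) :
    nod P N 1 i = X * ∏ q ∈ Finset.range (N + 1), (X - C (P.g q : ℂ)) ^ i q := by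
  rw [nod, if_pos (by simp), if_neg (by decide), mul_one]

open Polynomial in
private theorem db0_eval (P : Par) (s : Finset ℕ) (i : ℕ → ℕ) (a : ℝ) :
    (∏ q ∈ s, (X - C (P.g q : ℂ)) ^ i q).eval (a : ℂ) =
      ((∏ q ∈ s, (a - P.g q) ^ i q : ℝ) : ℂ) := by
  rw [eval_prod]
  push_cast
  exact Finset.prod_congr rfl fun q _ => by rw [eval_pow, eval_sub, eval_X, eval_C]

open Polynomial in
/-- A polynomial in `Xo` of the maximal order is a multiple of the node product. -/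
private theorem db0_span (hP : GoodP P N) {n : ℕ} {x : Fin 3} {i : ℕ → ℕ}
    (hi : ∀ q, N < q → i q = 0) (hd : dg N x i = n) {v : Fin (n + 1) → ℂ} (hv : v ∈ Xo P n x i) :
    ∃ c : ℂ, pol P n v = C c * nod P N x i := by
  obtain ⟨k, hk⟩ := (mem_Xo' hP n x hi v).1 hv
  obtain ⟨h1, h2, -⟩ := nod_deg P N x i
  by_cases hk0 : k = 0
  · exact ⟨0, by rw [hk, hk0, mul_zero, C_0, zero_mul]⟩
  have h3 := (pol_lin P n v v 0).2.2
  rw [hk, h2.natDegree_mul' hk0, h1, hd] at h3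
  refine ⟨k.coeff 0, ?_⟩
  rw [hk, mul_comm]
  congr 1
  exact eq_C_of_natDegree_eq_zero (by omega)

open Polynomial in
/-- The degree and the generator. -/
private theorem db0_gen (hP : GoodP P N) {n : ℕ} {i : ℕ → ℕ} (hi : Adm 1 N i)
    {v : Fin (n + 1) → ℂ} (hvX : v ∈ Xo P n 0 i) (hv0 : v ≠ 0)
    (h : ∀ z ∈ Xo P n 1 i, pr (hv P n) z = 0) :
    dg N 0 i = n ∧ ∃ v1, pol P n v1 = nod P N 0 i ∧ Rea v1 := by
  have hiN : ∀ q, N < q → i q = 0 := fun q hq => by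
    by_contra hc
    exact absurd (hi q hc).2 (by omega)
  have h1 : dg N 0 i ≤ n := by
    by_contra hc
    rw [Xo_bot hP n 0 hiN (by omega)] at hvX
    exact hv0 hvX
  have h2 : n < dg N 1 i := by
    by_contra hc
    obtain ⟨e1, e2, e3⟩ := nod_deg P N 1 i
    obtain ⟨z, hz, -, -⟩ := pol_surj hP.hρ.ne' n (nod P N 1 i) (by rw [e1]; omega)
    have hzX : z ∈ Xo P n 1 i := (mem_Xo' hP n 1 hiN z).2 (by rw [hz])
    have h3 := h z hzX
    rw [(pr_hv P n z (hzX.1.1 (by simp))).1, hz, db0_nod1, eval_mul, eval_X, db0_eval] at h3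
    rcases mul_eq_zero.1 h3 with h4 | h4
    · exact (db0_gh hP).ne' (by exact_mod_cast h4)
    · have h5 : ∏ q ∈ Finset.range (N + 1), (P.gh - P.g q) ^ i q = 0 := by exact_mod_cast h4
      rw [Finset.prod_eq_zero_iff] at h5
      obtain ⟨q, -, h6⟩ := h5
      exact db0_ne hP q (eq_zero_of_pow_eq_zero h6)
  have h3 : dg N 0 i = n := by
    rw [dg] at h1 h2 ⊢
    have e3 : ((0 : Fin 3) : ℕ) = 0 := rfl
    have e4 : ((1 : Fin 3) : ℕ) = 1 := rfl
    rw [e3] at h1 ⊢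
    rw [e4] at h2
    omega
  obtain ⟨e1, e2, e3⟩ := nod_deg P N 0 i
  obtain ⟨z, hz, hr, -⟩ := pol_surj hP.hρ.ne' n (nod P N 0 i) (by rw [e1, h3])
  exact ⟨h3, z, hz, hr e3⟩

open Polynomial in
private theorem db0_inj (hP : GoodP P N) {n : ℕ} {v v' : Fin (n + 1) → ℂ}
    (h : pol P n v = pol P n v') : v = v' := by
  obtain ⟨z, -, -, hz⟩ := pol_surj hP.hρ.ne' n (pol P n v') (pol_lin P n v' v' 0).2.2
  rw [hz v h, hz v' rfl]

open Polynomial in
private theorem db0_mul (hP : GoodP P N) {n : ℕ} {i : ℕ → ℕ} (hi : Adm 1 N i)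
    (hd : dg N 0 i = n) {v1 : Fin (n + 1) → ℂ} (h1 : pol P n v1 = nod P N 0 i)
    {v : Fin (n + 1) → ℂ} (hv : v ∈ Xo P n 0 i) : ∃ c : ℂ, v = c • v1 := by
  have hiN : ∀ q, N < q → i q = 0 := fun q hq => by
    by_contra hc
    exact absurd (hi q hc).2 (by omega)
  obtain ⟨c, hc⟩ := db0_span hP hiN hd hv
  refine ⟨c, db0_inj hP ?_⟩
  rw [hc, (pol_lin P n v1 v1 c).2.1, h1]

open Polynomial in
private theorem db0_pol0 (P : Par) (n : ℕ) (v : Fin (n + 1) → ℂ) :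
    (pol P n v).eval 0 = v 0 * P.ρ := by
  rw [pol, eval_add, eval_C, eval_finsetSum, Finset.sum_eq_zero, add_zero]
  intro j hj
  have : j ≠ 0 := by
    have := (Finset.mem_Icc.1 hj).1
    omega
  rw [eval_mul, eval_pow, eval_X, zero_pow this, mul_zero]

open Polynomial in
/-- `V(gh)` is a positive multiple of `v 0`. -/
private theorem db0_rat (hP : GoodP P N) {n : ℕ} {i : ℕ → ℕ} (hi : Adm 1 N i)
    {v : Fin (n + 1) → ℂ} {c : ℂ} (hv : pol P n v = C c * nod P N 0 i) :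
    ∃ r : ℝ, 0 < r ∧ pr (tau P n P.gh 0) v = (r : ℂ) * v 0 := by
  have h0 := db0_pol0 P n v
  have h1 : pr (tau P n P.gh 0) v = (pol P n v).eval (P.gh : ℂ) := by
    rw [pr_tau, taylor_coeff_zero]
  rw [hv, db0_nod, eval_mul, eval_C, ← Complex.ofReal_zero, db0_eval] at h0
  rw [hv, db0_nod, eval_mul, eval_C, db0_eval] at h1
  have hpos : ∀ q ∈ Finset.range (N + 1),
      0 < ((P.gh - P.g q) ^ i q) / ((0 - P.g q) ^ i q) := by
    intro q _
    by_cases hq : i q = 0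
    · rw [hq, pow_zero, pow_zero, div_one]
      exact one_pos
    · rw [← div_pow]
      apply pow_pos
      obtain ⟨q', rfl⟩ : ∃ q', q = q' + 1 := ⟨q - 1, by have := (hi q hq).1; omega⟩
      have h2 := db0_g hP q'
      have h3 := db0_gh hP
      exact div_pos_of_neg_of_neg (by linarith) (by linarith)
  have hprod := Finset.prod_pos hpos
  rw [Finset.prod_div_distrib] at hprod
  have hne : ∏ q ∈ Finset.range (N + 1), (0 - P.g q) ^ i q ≠ 0 := by
    intro h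
    rw [h, div_zero] at hprod
    exact lt_irrefl _ hprod
  refine ⟨P.ρ * ((∏ q ∈ Finset.range (N + 1), (P.gh - P.g q) ^ i q) /
    ∏ q ∈ Finset.range (N + 1), (0 - P.g q) ^ i q), mul_pos hP.hρ hprod, ?_⟩
  rw [h1]
  have hne' : ((∏ q ∈ Finset.range (N + 1), (0 - P.g q) ^ i q : ℝ) : ℂ) ≠ 0 :=
    Complex.ofReal_ne_zero.2 hne
  have h4 : c = v 0 * P.ρ / ((∏ q ∈ Finset.range (N + 1), (0 - P.g q) ^ i q : ℝ) : ℂ) := by
    rw [eq_div_iff hne']
    exact h0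
  rw [h4, Complex.ofReal_mul, Complex.ofReal_div]
  ring

open Polynomial in
/-- The sign conditions at the nodes. -/
private theorem db0_sgn (hP : GoodP P N) {n : ℕ} {i : ℕ → ℕ} (hi : Adm 1 N i)
    (hd : dg N 0 i = n) {v : Fin (n + 1) → ℂ} {c : ℂ} (hc : c ≠ 0)
    (hv : pol P n v = C c * nod P N 0 i) (rv : Rea v) {M : ℂ} (hM : M.im = 0) (hM0 : M ≠ 0)
    {p : ℕ} (hp : i p ≠ 0) {z : Fin (n + 1) → ℂ} (hz : z ∈ Xo P n 1 (dn i p))
    (hz1 : pr (tau P n (P.g p) (i p - 1)) z = 1) :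
    (M * pr (MPb0eK.hv P n) z * pr (tau P n (P.g p) (i p)) v * (M * pr (tau P n P.gh 0) v)).re
      < 0 := by
  have hmem : p ∈ Finset.range (N + 1) := Finset.mem_range.2 (by
    have := (hi p hp).2
    omega)
  obtain ⟨p', rfl⟩ : ∃ p', p = p' + 1 := ⟨p - 1, by have := (hi p hp).1; omega⟩
  have hgp := db0_g hP p'
  have hgh := db0_gh hP
  have hdN : ∀ q, N < q → dn i (p' + 1) q = 0 := fun q hq => by
    have h1 : q ≠ p' + 1 := by
      have := Finset.mem_range.1 hmem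
      omega
    rw [dn, Function.update_of_ne h1]
    by_contra hc
    exact absurd (hi q hc).2 (by omega)
  set s := Finset.range (N + 1) \ {p' + 1} with hs
  have hprod : ∀ f : ℕ → ℕ, ∏ q ∈ Finset.range (N + 1), (X - C (P.g q : ℂ)) ^ f q =
      (X - C (P.g (p' + 1) : ℂ)) ^ f (p' + 1) * ∏ q ∈ s, (X - C (P.g q : ℂ)) ^ f q := fun f =>
    Finset.prod_eq_mul_prod_sdiff_singleton_of_mem hmem _
  have hsd : ∏ q ∈ s, (X - C (P.g q : ℂ)) ^ dn i (p' + 1) q =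
      ∏ q ∈ s, (X - C (P.g q : ℂ)) ^ i q := by
    refine Finset.prod_congr rfl fun q hq => ?_
    have : q ≠ p' + 1 := fun h => (Finset.mem_sdiff.1 hq).2 (Finset.mem_singleton.2 h)
    rw [dn, Function.update_of_ne this]
  have hdn : dn i (p' + 1) (p' + 1) = i (p' + 1) - 1 := Function.update_self _ _ _
  have hd1 : dg N 1 (dn i (p' + 1)) = n := by
    have e1 : ∑ q ∈ Finset.range (N + 1), dn i (p' + 1) q =
        (i (p' + 1) - 1) + ∑ q ∈ Finset.range (N + 1) \ {p' + 1}, i q :=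
      Finset.sum_update_of_mem hmem i _
    have e2 := Finset.sum_eq_sum_sdiff_singleton_add hmem i
    rw [dg] at hd ⊢
    rw [e2] at hd
    rw [e1]
    have e3 : ((0 : Fin 3) : ℕ) = 0 := rfl
    have e4 : ((1 : Fin 3) : ℕ) = 1 := rfl
    rw [e3] at hd
    rw [e4]
    omega
  obtain ⟨d, hdz⟩ := db0_span hP hdN hd1 hz
  rw [db0_nod1, hprod, hdn, hsd] at hdz
  rw [db0_nod, hprod] at hv
  set H := ∏ q ∈ s, (X - C (P.g q : ℂ)) ^ i q with hH
  have eH : ∀ a : ℝ, H.eval (a : ℂ) = ((∏ q ∈ s, (a - P.g q) ^ i q : ℝ) : ℂ) :=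
    db0_eval P s i
  -- the normalisation of `z`
  have h1 : d * (P.g (p' + 1) : ℂ) * ((∏ q ∈ s, (P.g (p' + 1) - P.g q) ^ i q : ℝ) : ℂ) = 1 := by
    rw [← hz1, pr_tau, hdz]
    have e1 : C d * (X * ((X - C (P.g (p' + 1) : ℂ)) ^ (i (p' + 1) - 1) * H)) =
        (X - C (P.g (p' + 1) : ℂ)) ^ (i (p' + 1) - 1) * (C d * X * H) := by ring
    rw [e1, db0_cf, eval_mul, eval_mul, eval_C, eval_X, eH]
  -- the leading coefficient of `v`
  have h2 : pr (tau P n (P.g (p' + 1)) (i (p' + 1))) v =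
      c * ((∏ q ∈ s, (P.g (p' + 1) - P.g q) ^ i q : ℝ) : ℂ) := by
    rw [pr_tau, hv]
    have e1 : C c * ((X - C (P.g (p' + 1) : ℂ)) ^ (i (p' + 1)) * H) =
        (X - C (P.g (p' + 1) : ℂ)) ^ (i (p' + 1)) * (C c * H) := by ring
    rw [e1, db0_cf, eval_mul, eval_C, eH]
  have h3 : pr (tau P n P.gh 0) v = c * (((P.gh - P.g (p' + 1)) ^ i (p' + 1) : ℝ) *
      ((∏ q ∈ s, (P.gh - P.g q) ^ i q : ℝ) : ℂ)) := by
    rw [pr_tau, taylor_coeff_zero, hv, eval_mul, eval_C, eval_mul, eH, eval_pow, eval_sub, eval_X,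
      eval_C]
    push_cast
    ring
  have h4 : pr (MPb0eK.hv P n) z = d * (P.gh * (((P.gh - P.g (p' + 1)) ^ (i (p' + 1) - 1) : ℝ) *
      ((∏ q ∈ s, (P.gh - P.g q) ^ i q : ℝ) : ℂ))) := by
    rw [(pr_hv P n z (hz.1.1 (by simp))).1, hdz, eval_mul, eval_C, eval_mul, eval_mul, eH,
      eval_pow, eval_sub, eval_X, eval_C]
    push_cast
    ring
  have hKne : (∏ q ∈ s, (P.gh - P.g q) ^ i q : ℝ) ≠ 0 := by
    rw [Finset.prod_ne_zero_iff]
    exact fun q _ => pow_ne_zero _ (db0_ne hP q)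
  set K := (∏ q ∈ s, (P.gh - P.g q) ^ i q : ℝ) with hK
  set L := (∏ q ∈ s, (P.g (p' + 1) - P.g q) ^ i q : ℝ) with hL
  have hLne : L ≠ 0 := by
    intro h
    rw [h, Complex.ofReal_zero, mul_zero] at h1
    exact zero_ne_one h1
  have hcim : c.im = 0 := by
    have h5 := pr_re (tau P n (P.g (p' + 1)) (i (p' + 1))) rv
    rw [h2, Complex.im_mul_ofReal] at h5
    exact (mul_eq_zero.1 h5).resolve_right hLne
  obtain ⟨c', rfl⟩ : ∃ c' : ℝ, c = c' := ⟨c.re, Complex.ext rfl hcim⟩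
  obtain ⟨M', rfl⟩ : ∃ M' : ℝ, M = M' := ⟨M.re, Complex.ext rfl hM⟩
  have hgne : (P.g (p' + 1) : ℂ) ≠ 0 := Complex.ofReal_ne_zero.2 (by linarith)
  have h5 : d * (L : ℂ) = (P.g (p' + 1) : ℂ)⁻¹ := by
    apply eq_inv_of_mul_eq_one_left
    rw [← h1]
    ring
  rw [h2, h3, h4]
  have h6 : (M' : ℂ) * (d * (P.gh * (((P.gh - P.g (p' + 1)) ^ (i (p' + 1) - 1) : ℝ) * (K : ℂ)))) *
      ((c' : ℂ) * (L : ℂ)) *
      ((M' : ℂ) * ((c' : ℂ) * (((P.gh - P.g (p' + 1)) ^ i (p' + 1) : ℝ) * (K : ℂ)))) =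
      ((M' ^ 2 * c' ^ 2 * K ^ 2 * P.gh * (P.g (p' + 1))⁻¹ *
        ((P.gh - P.g (p' + 1)) ^ (i (p' + 1) - 1) * (P.gh - P.g (p' + 1)) ^ i (p' + 1)) : ℝ) :
          ℂ) := by
    have e1 : (M' : ℂ) * (d * (P.gh * (((P.gh - P.g (p' + 1)) ^ (i (p' + 1) - 1) : ℝ) * (K : ℂ)))) *
      ((c' : ℂ) * (L : ℂ)) *
      ((M' : ℂ) * ((c' : ℂ) * (((P.gh - P.g (p' + 1)) ^ i (p' + 1) : ℝ) * (K : ℂ)))) =
      (M' : ℂ) ^ 2 * (c' : ℂ) ^ 2 * (K : ℂ) ^ 2 * P.gh * (d * (L : ℂ)) *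
        ((((P.gh - P.g (p' + 1)) ^ (i (p' + 1) - 1) : ℝ) : ℂ) *
          (((P.gh - P.g (p' + 1)) ^ i (p' + 1) : ℝ) : ℂ)) := by ring
    rw [e1, h5]
    push_cast
    ring
  rw [h6, Complex.ofReal_re]
  have h7 : (P.gh - P.g (p' + 1)) ^ (i (p' + 1) - 1) * (P.gh - P.g (p' + 1)) ^ i (p' + 1) =
      ((P.gh - P.g (p' + 1)) ^ (i (p' + 1) - 1)) ^ 2 * (P.gh - P.g (p' + 1)) := by
    obtain ⟨m, hm⟩ : ∃ m, i (p' + 1) = m + 1 := ⟨i (p' + 1) - 1, by omega⟩
    rw [hm, Nat.add_sub_cancel]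
    ring
  rw [h7]
  have h8 : P.gh - P.g (p' + 1) < 0 := by linarith
  have h9 : 0 < ((P.gh - P.g (p' + 1)) ^ (i (p' + 1) - 1)) ^ 2 :=
    lt_of_le_of_ne (sq_nonneg _) (pow_ne_zero 2 (pow_ne_zero _ h8.ne)).symm
  have h10 : M' ≠ 0 := fun h => hM0 (by rw [h, Complex.ofReal_zero])
  have h11 : c' ≠ 0 := fun h => hc (by rw [h, Complex.ofReal_zero])
  have h12 : 0 < M' ^ 2 * c' ^ 2 * K ^ 2 * P.gh * (P.g (p' + 1))⁻¹ := by
    have h13 : 0 < P.g (p' + 1) := by linarith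
    positivity
  exact mul_neg_of_pos_of_neg h12 (mul_neg_of_pos_of_neg h9 h8)

/-- Without rows the solutions of type D0 are explicit.

Proof. `SR N false 1 = ∅`, so `u = 0`; `M pr h z = 0` on `Xo 1 i`, `M ≠ 0`, so `Xo 1 i = ⊥` (the
node
product of the mask `1` does not vanish at `gh`), so `dg N 1 i > n2 ≥ dg N 0 i`
(`v ≠ 0`), i.e. `n2 = ∑ i p` and `Xo 0 i` is spanned by the real vector with `V = Ω := ∏ (t - g p)
^ i p`.
The same for `w`. `OkDX`: `v`, `w` are real up to factors, `M' w 0 = M v 0`: with `b v`, `c w` real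
choose
`a = 1 / (c M)`: `a c M = 1`, `a b M' = a b M v 0 / w 0 = (b v 0) / (c w 0)` real. Kernel: `du = 0`,
`dv = b v`, `dw = c w`, and `dM' w 0 + M' dw 0 = dM v 0 + M dv 0`: put `a = dM / M - c`. Signs: `gB
= M h`,
the test vectors `z ∈ Xo 1 (dn i p)` are multiples of the vector with the polynomial
`t Ω / (t - g p)`. With `V = c0 Ω`: `dt gB z * τ(v) * η = M ^ 2 c0 ^ 2 Ω(gh) ^ 2 gh / (g p (gh - g
p)) < 0`
(`Ω^(p)` = the cofactor of `(t - g p) ^ i p`: `τ_{i p} (V) = c0 Ω^(p) (g p)`, `z = c1 t Ω / (t - g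
p)` with
`c1 g p Ω^(p) (g p) = 1`, `z(gh) = c1 gh Ω(gh) / (gh - g p)`, `η = M c0 Ω(gh)`; `p ≥ 1`, so `gh < g
p`).
`hh`: `V(0) = ρ v 0`, `V(gh) / V(0) > 0` because all nodes of `Ω` are `> gh`; so
`η η' = M V(gh) M' W(gh)` has the sign of `M V(0) M' W(0) = (M V(0)) ^ 2`. -/
theorem db0 (hP : GoodP P N) (T : Fin (N + 1) → Fin (n2 + 1) → Fin (n3 + 1) → ℝ) :
    PD P T false 1 := by
  intro i j hi hj u v w M M' hD hn
  obtain ⟨hv0, hw0, hM, hM', hvw, -⟩ := hn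
  obtain ⟨hv00, hw00⟩ := hvw rfl
  have hSR : ∀ a, a ∉ SR N false 1 := by
    intro a ha
    rw [SR, Finset.mem_filter] at ha
    obtain ⟨-, h1, h2⟩ := ha
    rcases h1 with h1 | h1
    · exact absurd h1 (by decide)
    · exact h1 (Fin.ext (by rw [Fin.val_zero]; omega))
  have hu : u = 0 := funext fun a => hD.su a (hSR a)
  have hc2 : ∀ x : Fin (n3 + 1) → ℂ, c2 T (0 : Fin (N + 1) → ℂ) x = 0 := by
    intro x
    funext b
    simp [c2]
  have hc3 : ∀ x : Fin (n2 + 1) → ℂ, c3 T (0 : Fin (N + 1) → ℂ) x = 0 := by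
    intro x
    funext b
    simp [c3]
  have hvX : v ∈ Xo P n2 0 i := by
    have := hD.sv
    simpa using this
  have hwX : w ∈ Xo P n3 0 j := by
    have := hD.sw
    simpa using this
  have h2 : ∀ z ∈ Xo P n2 1 i, pr (hv P n2) z = 0 := by
    intro z hz
    have h := hD.e2 z hz
    rw [hu, hc2] at h
    have h' : dt (0 : Fin (n2 + 1) → ℂ) z = 0 := by simp [dt]
    rw [h', zero_add] at h
    exact (mul_eq_zero.1 h).resolve_left hM
  have h3 : ∀ z ∈ Xo P n3 1 j, pr (hv P n3) z = 0 := by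
    intro z hz
    have h := hD.e3 z hz
    rw [hu, hc3] at h
    have h' : dt (0 : Fin (n3 + 1) → ℂ) z = 0 := by simp [dt]
    rw [h', zero_add] at h
    exact (mul_eq_zero.1 h).resolve_left hM'
  obtain ⟨hdB, v1, hv1, rv1⟩ := db0_gen hP hi hvX hv0 h2
  obtain ⟨hdC, w1, hw1, rw1⟩ := db0_gen hP hj hwX hw0 h3
  obtain ⟨c, hc⟩ := db0_mul hP hi hdB hv1 hvX
  obtain ⟨d, hd⟩ := db0_mul hP hj hdC hw1 hwX
  have hc0 : c ≠ 0 := by
    rintro rfl
    rw [zero_smul] at hc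
    exact hv0 hc
  have hd0 : d ≠ 0 := by
    rintro rfl
    rw [zero_smul] at hd
    exact hw0 hd
  have e4 : M' * w 0 = M * v 0 := hD.e4 rfl
  have hv1' : v1 = c⁻¹ • v := by rw [hc, smul_smul, inv_mul_cancel₀ hc0, one_smul]
  have hw1' : w1 = d⁻¹ • w := by rw [hd, smul_smul, inv_mul_cancel₀ hd0, one_smul]
  refine ⟨⟨⟨d * M⁻¹, c⁻¹, d⁻¹, mul_ne_zero hd0 (inv_ne_zero hM), inv_ne_zero hc0,
    inv_ne_zero hd0, ?_, ?_, ?_, ?_, ?_⟩, ?_⟩, ?_⟩
  · rw [hu, smul_zero]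
    exact fun a => rfl
  · rw [← hv1']
    exact rv1
  · rw [← hw1']
    exact rw1
  · have : d * M⁻¹ * d⁻¹ * M = 1 := by
      field_simp
    rw [this]
    exact Complex.one_im
  · have hw10 : w1 0 ≠ 0 := by
      rw [hw1', Pi.smul_apply, smul_eq_mul]
      exact mul_ne_zero (inv_ne_zero hd0) hw00
    have e5 : d * M⁻¹ * c⁻¹ * M' = v1 0 / w1 0 := by
      rw [hv1', hw1', Pi.smul_apply, Pi.smul_apply, smul_eq_mul, smul_eq_mul]
      have : M' = M * v 0 / w 0 := by rw [eq_div_iff hw00, e4]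
      rw [this]
      field_simp
    rw [e5, Complex.div_im, rv1 0, rw1 0]
    ring
  · intro du dv dw dM dM' hK
    have hdu : du = 0 := funext fun a => hK.su a (hSR a)
    have hdv : dv ∈ Xo P n2 0 i := by
      have := hK.sv
      simpa using this
    have hdw : dw ∈ Xo P n3 0 j := by
      have := hK.sw
      simpa using this
    obtain ⟨b1, hb1⟩ := db0_mul hP hi hdB hv1 hdv
    obtain ⟨d1, hd1⟩ := db0_mul hP hj hdC hw1 hdw
    have hb : dv = (b1 * c⁻¹) • v := by rw [hb1, hv1', smul_smul]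
    have hd' : dw = (d1 * d⁻¹) • w := by rw [hd1, hw1', smul_smul]
    have e6 := hK.e4 rfl
    refine ⟨dM / M - d1 * d⁻¹, b1 * c⁻¹, d1 * d⁻¹, by rw [hdu, hu, smul_zero], hb, hd', ?_, ?_⟩
    · field_simp
      ring
    · have h7 : dv 0 = (b1 * c⁻¹) * v 0 := by rw [hb, Pi.smul_apply, smul_eq_mul]
      have h8 : dw 0 = (d1 * d⁻¹) * w 0 := by rw [hd', Pi.smul_apply, smul_eq_mul]
      rw [h7, h8] at e6
      apply mul_right_cancel₀ hw00
      have h9 : dM' * w 0 = dM * v 0 + M * (b1 * c⁻¹ * v 0) - M' * (d1 * d⁻¹ * w 0) := by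
        rw [← e6]
        ring
      have h10 : dM * v 0 = dM / M * (M' * w 0) := by
        rw [e4]
        field_simp
      rw [h9, h10]
      have h11 : M * (b1 * c⁻¹ * v 0) = b1 * c⁻¹ * (M' * w 0) := by
        rw [e4]
        ring
      rw [h11]
      ring
  · intro _ rv rw' rM rM'
    have hpv : pol P n2 v = Polynomial.C c * nod P N 0 i := by
      rw [hc, (pol_lin P n2 v1 v1 c).2.1, hv1]
    have hpw : pol P n3 w = Polynomial.C d * nod P N 0 j := by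
      rw [hd, (pol_lin P n3 w1 w1 d).2.1, hw1]
    have hgB : ∀ z, dt (fun b => c2 T u w b + M * hv P n2 b) z = M * pr (hv P n2) z := by
      intro z
      rw [hu, hc2, dt, pr, Finset.mul_sum]
      exact Finset.sum_congr rfl fun b _ => by rw [Pi.zero_apply, zero_add, mul_assoc]
    have hgC : ∀ z, dt (fun b => c3 T u v b + M' * hv P n3 b) z = M' * pr (hv P n3) z := by
      intro z
      rw [hu, hc3, dt, pr, Finset.mul_sum]
      exact Finset.sum_congr rfl fun b _ => by rw [Pi.zero_apply, zero_add, mul_assoc]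
    refine ⟨fun q hq z hz _ h1 => ?_, fun q hq z hz _ h1 => ?_, ?_⟩
    · rw [hgB]
      exact db0_sgn hP hi hdB hc0 hpv rv rM hM hq hz h1
    · rw [hgC]
      exact db0_sgn hP hj hdC hd0 hpw rw' rM' hM' hq hz h1
    · obtain ⟨r, hr, er⟩ := db0_rat hP hi hpv
      obtain ⟨r', hr', er'⟩ := db0_rat hP hj hpw
      have h5 : M * pr (tau P n2 P.gh 0) v * (M' * pr (tau P n3 P.gh 0) w) =
          ((r * r' * ((M * v 0).re) ^ 2 : ℝ) : ℂ) := by
        have h6 : M * v 0 = ((M * v 0).re : ℂ) := by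
          refine Complex.ext rfl ?_
          rw [Complex.ofReal_im, Complex.mul_im, rM, rv 0]
          ring
        rw [er, er']
        push_cast
        rw [← h6]
        have h7 : M * (r * v 0) * (M' * (r' * w 0)) = r * r' * ((M * v 0) * (M' * w 0)) := by ring
        rw [h7, e4]
        ring
      rw [h5, Complex.ofReal_re]
      have h8 : (M * v 0).re ≠ 0 := by
        intro h
        apply mul_ne_zero hM hv00
        refine Complex.ext h ?_
        rw [Complex.zero_im, Complex.mul_im, rM, rv 0]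
        ring
      positivity

end

end Pool.Agent.MPb0eK
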