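import Mathlib
import Pool.Agent.Lib.MP_b0e20b_ag_K.FA
import Pool.Agent.Lib.MP_b0e20b_ag_R.Cpt
import Pool.Agent.Lib.MP_b0e20b_ag_R.Alg2

/-!
# MP_b0e20b_ag, project K: singular pairs of hierarchical forms: limits
-/

set_option autoImplicit false

open scoped BigOperators Topology
open Filter

namespace Pool.Agent.MPb0eK

open MPb0eR (c1 c2 c3 tr q Sup Rl Rea uf Nrm cj AF scl)

section

variable {A B C : Type} [Fintype A] [Fintype B] [Fintype C] [DecidableEq A] [DecidableEq B]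
  [DecidableEq C]

private theorem Pa1Aux.ratio {m : ℕ} {s : ℝ} {f : ℕ → ℕ → ℝ} (hf : Hi m s f) {a b : ℕ}
    (hab : a ≤ b) (hb : b ≤ m) :
    Tendsto (fun n => (f n b : ℂ) / (f n a : ℂ)) uf (𝓝 (if a = b then 1 else 0)) := by
  induction b, hab using Nat.le_induction with
  | base =>
    rw [if_pos rfl]
    refine tendsto_const_nhds.congr fun n => ?_
    rw [div_self (Complex.ofReal_ne_zero.2 (hf.ne n a hb))]
  | succ b hab ih =>
    rw [if_neg (by omega)]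
    have h1 := ih (by omega)
    have h2 : Tendsto (fun n => ((f n (b + 1) / f n b : ℝ) : ℂ)) uf (𝓝 ((0 : ℝ) : ℂ)) :=
      (Complex.continuous_ofReal.tendsto 0).comp (hf.hi b (by omega))
    have h3 := h2.mul h1
    rw [Complex.ofReal_zero, zero_mul] at h3
    refine h3.congr fun n => ?_
    have h4 : (f n b : ℂ) ≠ 0 := Complex.ofReal_ne_zero.2 (hf.ne n b (by omega))
    rw [Complex.ofReal_div, div_mul_div_comm, mul_comm, mul_div_mul_left _ _ h4]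

private theorem Pa1Aux.ratio0 {m : ℕ} {s : ℝ} {f : ℕ → ℕ → ℝ} (hf : Hi m s f) {a b : ℕ}
    (hab : a < b) (hb : b ≤ m) : Tendsto (fun n => (f n b : ℂ) / (f n a : ℂ)) uf (𝓝 0) := by
  have h := Pa1Aux.ratio hf hab.le hb
  rwa [if_neg hab.ne] at h

private theorem Pa1Aux.dt_cont : Continuous fun p : (B → ℂ) × (B → ℂ) => dt p.1 p.2 := by
  unfold dt
  fun_prop

private theorem Pa1Aux.dt_lim {v z : ℕ → B → ℂ} {v0 z0 : B → ℂ} (hv : Tendsto v uf (𝓝 v0))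
    (hz : Tendsto z uf (𝓝 z0)) : Tendsto (fun n => dt (v n) (z n)) uf (𝓝 (dt v0 z0)) :=
  (Pa1Aux.dt_cont.tendsto (v0, z0)).comp (hv.prodMk_nhds hz)

private theorem Pa1Aux.pr_lim (φ : B → ℝ) {v : ℕ → B → ℂ} {v0 : B → ℂ}
    (hv : Tendsto v uf (𝓝 v0)) : Tendsto (fun n => pr φ (v n)) uf (𝓝 (pr φ v0)) :=
  ((continuous_pr φ).tendsto v0).comp hv

private theorem Pa1Aux.cj_lim {v : ℕ → B → ℂ} {v0 : B → ℂ}
    (hv : Tendsto v uf (𝓝 v0)) : Tendsto (fun n => cj (v n)) uf (𝓝 (cj v0)) :=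
  tendsto_pi_nhds.2 fun b =>
    (Complex.continuous_conj.tendsto (v0 b)).comp (tendsto_pi_nhds.1 hv b)

/-- The first equation, tested with the dual basis: the multiplier is not small against `f j`. -/
private theorem Pa1Aux.lower {X : Submodule ℂ (B → ℂ)} {DX m : ℕ} {φ zX : ℕ → B → ℝ}
    {ψ : ℕ → C → ℝ} (hX : Flag X DX φ zX) {s : ℝ} {f : ℕ → ℕ → ℝ} (hf : Hi m s f)
    {v : ℕ → B → ℂ} {w : ℕ → C → ℂ} {β : ℕ → ℂ} {v0 : B → ℂ} {w0 : C → ℂ}
    (hv : Tendsto v uf (𝓝 v0)) (hw : Tendsto w uf (𝓝 w0))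
    (he : ∀ n, ∀ z ∈ X, ∑ l ∈ Finset.range (m + 1),
      (f n l : ℂ) * (pr (φ l) z * pr (ψ l) (w n)) = β n * dt (v n) z) {j : ℕ} (hj : j < DX)
    (hjm : j ≤ m) (h0 : pr (ψ j) w0 ≠ 0) : ¬ Tendsto (fun n => β n / f n j) uf (𝓝 0) := by
  intro hβ
  have h1 : Tendsto (fun n => ∑ l ∈ Finset.range (m + 1),
      (f n l : ℂ) / (f n j : ℂ) * (pr (φ l) (fun b => (zX j b : ℂ)) * pr (ψ l) (w n))) uf
      (𝓝 (∑ l ∈ Finset.range (m + 1), if l = j then pr (ψ j) w0 else 0)) := by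
    refine tendsto_finsetSum _ fun l hl => ?_
    have hlm : l ≤ m := by
      have := Finset.mem_range.1 hl
      omega
    by_cases hlj : l = j
    · subst hlj
      rw [if_pos rfl]
      refine (Pa1Aux.pr_lim (ψ l) hw).congr fun n => ?_
      rw [div_self (Complex.ofReal_ne_zero.2 (hf.ne n l hlm)), hX.dual l l hj hj, if_pos rfl,
        one_mul, one_mul]
    · rw [if_neg hlj]
      by_cases hlX : l < DX
      · refine tendsto_const_nhds.congr fun n => ?_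
        rw [hX.dual l j hlX hj, if_neg hlj, zero_mul, mul_zero]
      · have h2 := (Pa1Aux.ratio0 hf (show j < l by omega) hlm).mul
          ((tendsto_const_nhds (x := pr (φ l) (fun b => (zX j b : ℂ)))).mul
            (Pa1Aux.pr_lim (ψ l) hw))
        rwa [zero_mul] at h2
  rw [Finset.sum_ite_eq' (Finset.range (m + 1)) j, if_pos (Finset.mem_range.2 (by omega))] at h1
  have h3 := hβ.mul (Pa1Aux.dt_lim hv (tendsto_const_nhds (x := fun b => (zX j b : ℂ))))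
  rw [zero_mul] at h3
  refine h0 (tendsto_nhds_unique h1 (h3.congr fun n => ?_))
  have h4 := he n _ (hX.mem j hj)
  rw [div_mul_eq_mul_div, ← h4, Finset.sum_div]
  refine Finset.sum_congr rfl fun l _ => ?_
  ring

/-- The first equation, tested with `cj v`: the multiplier is not large against `f i`. -/
private theorem Pa1Aux.upper {X : Submodule ℂ (B → ℂ)} (cX : Cj X) {DX m : ℕ}
    {φ zX : ℕ → B → ℝ} {ψ : ℕ → C → ℝ} (hX : Flag X DX φ zX) {f : ℕ → ℕ → ℝ}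
    {v : ℕ → B → ℂ} {w : ℕ → C → ℂ} {β : ℕ → ℂ} {v0 : B → ℂ} {w0 : C → ℂ}
    (hv : Tendsto v uf (𝓝 v0)) (hw : Tendsto w uf (𝓝 w0)) (hvX : ∀ n, v n ∈ X)
    (he : ∀ n, ∀ z ∈ X, ∑ l ∈ Finset.range (m + 1),
      (f n l : ℂ) * (pr (φ l) z * pr (ψ l) (w n)) = β n * dt (v n) z) {i : ℕ} (hi : i < DX)
    (h0 : ∀ l, l < i → pr (φ l) v0 = 0) (hv0 : v0 ≠ 0) (hβ : ∀ᶠ n in uf, β n ≠ 0)
    (hs : ∀ l, i ≤ l → l ≤ m → Tendsto (fun n => (f n l : ℂ) / β n) uf (𝓝 0)) : False := by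
  have h1 : ∀ l, l < i → l ≤ m →
      Tendsto (fun n => (f n l : ℂ) / β n * pr (ψ l) (w n)) uf
        (𝓝 (dt v0 (fun b => (zX l b : ℂ)) - 0)) := by
    intro l hl hlm
    have hlX : l < DX := by omega
    have hG : Tendsto (fun n => ∑ k ∈ (Finset.range (m + 1)).erase l,
        (f n k : ℂ) / β n * (pr (φ k) (fun b => (zX l b : ℂ)) * pr (ψ k) (w n))) uf
        (𝓝 (∑ k ∈ (Finset.range (m + 1)).erase l, 0)) := by
      refine tendsto_finsetSum _ fun k hk => ?_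
      have hkl : k ≠ l := (Finset.mem_erase.1 hk).1
      have hkm : k ≤ m := by
        have := Finset.mem_range.1 (Finset.mem_erase.1 hk).2
        omega
      by_cases hkX : k < DX
      · refine tendsto_const_nhds.congr fun n => ?_
        rw [hX.dual k l hkX hlX, if_neg hkl, zero_mul, mul_zero]
      · have h2 := (hs k (by omega) hkm).mul
          ((tendsto_const_nhds (x := pr (φ k) (fun b => (zX l b : ℂ)))).mul
            (Pa1Aux.pr_lim (ψ k) hw))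
        rwa [zero_mul] at h2
    rw [Finset.sum_const_zero] at hG
    refine ((Pa1Aux.dt_lim hv (tendsto_const_nhds (x := fun b => (zX l b : ℂ)))).sub
      hG).congr' ?_
    filter_upwards [hβ] with n hn
    have h4 := he n _ (hX.mem l hlX)
    rw [← Finset.add_sum_erase _ _ (Finset.mem_range.2 (show l < m + 1 by omega)),
      hX.dual l l hlX hlX, if_pos rfl, one_mul] at h4
    have h5 : dt (v n) (fun b => (zX l b : ℂ)) = ((f n l : ℂ) * pr (ψ l) (w n)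
        + ∑ k ∈ (Finset.range (m + 1)).erase l,
          (f n k : ℂ) * (pr (φ k) (fun b => (zX l b : ℂ)) * pr (ψ k) (w n))) / β n := by
      rw [h4, mul_div_cancel_left₀ _ hn]
    rw [h5, add_div, Finset.sum_div, add_sub_assoc, ← Finset.sum_sub_distrib,
      Finset.sum_eq_zero fun k _ => by ring, add_zero]
    ring
  have h2 : Tendsto (fun n => ∑ l ∈ Finset.range (m + 1),
      (f n l : ℂ) / β n * (pr (φ l) (cj (v n)) * pr (ψ l) (w n))) uf
      (𝓝 (∑ l ∈ Finset.range (m + 1), 0)) := by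
    refine tendsto_finsetSum _ fun l hl => ?_
    have hlm : l ≤ m := by
      have := Finset.mem_range.1 hl
      omega
    have hφ : Tendsto (fun n => pr (φ l) (cj (v n))) uf (𝓝 (pr (φ l) (cj v0))) :=
      Pa1Aux.pr_lim (φ l) (Pa1Aux.cj_lim hv)
    by_cases hli : l < i
    · rw [pr_cj, h0 l hli, map_zero] at hφ
      have h3 := (h1 l hli hlm).mul hφ
      rw [mul_zero] at h3
      refine h3.congr fun n => ?_
      ring
    · have h3 := (hs l (by omega) hlm).mul (hφ.mul (Pa1Aux.pr_lim (ψ l) hw))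
      rwa [zero_mul] at h3
  rw [Finset.sum_const_zero] at h2
  have h3 := Pa1Aux.dt_lim hv (Pa1Aux.cj_lim hv)
  have h4 : dt v0 (cj v0) = 0 := by
    refine tendsto_nhds_unique h3 (h2.congr' ?_)
    filter_upwards [hβ] with n hn
    have h5 := he n _ (cX _ (hvX n))
    have h6 : dt (v n) (cj (v n)) = (∑ l ∈ Finset.range (m + 1),
        (f n l : ℂ) * (pr (φ l) (cj (v n)) * pr (ψ l) (w n))) / β n := by
      rw [h5, mul_div_cancel_left₀ _ hn]
    rw [h6, Finset.sum_div]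
    refine Finset.sum_congr rfl fun l _ => ?_
    ring
  have h5 := (dt_cj_pos v0 hv0).1
  rw [h4, Complex.zero_re] at h5
  exact lt_irrefl _ h5

/-- The quotient of the multiplier by `f i` converges. -/
private theorem Pa1Aux.conv {X : Submodule ℂ (B → ℂ)} (cX : Cj X) {DX m : ℕ}
    {φ zX : ℕ → B → ℝ} {ψ : ℕ → C → ℝ} (hX : Flag X DX φ zX) {s : ℝ} {f : ℕ → ℕ → ℝ}
    (hf : Hi m s f) {v : ℕ → B → ℂ} {w : ℕ → C → ℂ} {β : ℕ → ℂ} {v0 : B → ℂ} {w0 : C → ℂ}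
    (hv : Tendsto v uf (𝓝 v0)) (hw : Tendsto w uf (𝓝 w0)) (hvX : ∀ n, v n ∈ X)
    (he : ∀ n, ∀ z ∈ X, ∑ l ∈ Finset.range (m + 1),
      (f n l : ℂ) * (pr (φ l) z * pr (ψ l) (w n)) = β n * dt (v n) z) {i : ℕ} (hi : i < DX)
    (him : i ≤ m) (h0 : ∀ l, l < i → pr (φ l) v0 = 0) (hv0 : v0 ≠ 0) :
    ∃ β0, Tendsto (fun n => β n / f n i) uf (𝓝 β0) := by
  rcases MPb0eR.ualt (fun n => β n / f n i) with h1 | h1
  · exact h1
  · exfalso
    have hβ : ∀ᶠ n in uf, β n ≠ 0 := by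
      filter_upwards [h1.eventually_gt_atTop 0] with n hn hb
      rw [hb, zero_div, norm_zero] at hn
      exact lt_irrefl _ hn
    refine Pa1Aux.upper cX hX hv hw hvX he hi h0 hv0 hβ fun l hil hlm => ?_
    have h2 : Tendsto (fun n => (f n i : ℂ) / β n) uf (𝓝 0) := by
      rw [tendsto_zero_iff_norm_tendsto_zero]
      refine (tendsto_inv_atTop_zero.comp h1).congr fun n => ?_
      change (‖β n / f n i‖)⁻¹ = ‖(f n i : ℂ) / β n‖
      rw [← norm_inv, inv_div]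
    have h3 := (Pa1Aux.ratio hf hil hlm).mul h2
    rw [mul_zero] at h3
    refine h3.congr fun n => ?_
    rw [div_mul_div_comm, mul_comm (f n i : ℂ), mul_div_mul_right _ _
      (Complex.ofReal_ne_zero.2 (hf.ne n i him))]

/-- `i ≤ m`. -/
private theorem Pa1Aux.le_m {X : Submodule ℂ (B → ℂ)} (cX : Cj X) {DX DY m : ℕ}
    (hm : min DX DY ≤ m + 1) {φ zX : ℕ → B → ℝ} {ψ : ℕ → C → ℝ} (hX : Flag X DX φ zX) {s : ℝ}
    {f : ℕ → ℕ → ℝ} (hf : Hi m s f) {v : ℕ → B → ℂ} {w : ℕ → C → ℂ} {β : ℕ → ℂ} {v0 : B → ℂ}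
    {w0 : C → ℂ} (hv : Tendsto v uf (𝓝 v0)) (hw : Tendsto w uf (𝓝 w0)) (hvX : ∀ n, v n ∈ X)
    (he : ∀ n, ∀ z ∈ X, ∑ l ∈ Finset.range (m + 1),
      (f n l : ℂ) * (pr (φ l) z * pr (ψ l) (w n)) = β n * dt (v n) z) {i j : ℕ} (hi : i < DX)
    (h0 : ∀ l, l < i → pr (φ l) v0 = 0) (hv0 : v0 ≠ 0) (hj : j < DY) (hw0 : pr (ψ j) w0 ≠ 0) :
    i ≤ m := by
  by_contra him
  have h1 : ¬ ∀ᶠ n in uf, β n ≠ 0 := fun hβ =>
    Pa1Aux.upper cX hX hv hw hvX he hi h0 hv0 hβ fun l _ _ => by omega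
  have h2 : ∀ᶠ n in uf, β n = 0 := by
    rw [Ultrafilter.eventually_not] at h1
    push Not at h1
    exact h1
  refine Pa1Aux.lower hX hf hv hw he (show j < DX by omega) (show j ≤ m by omega) hw0 ?_
  refine tendsto_const_nhds.congr' ?_
  filter_upwards [h2] with n hn
  rw [hn, zero_div]

/-- The limits of a quotient which is large against a later coefficient. -/
private theorem Pa1Aux.no {m : ℕ} {s : ℝ} {f : ℕ → ℕ → ℝ} (hf : Hi m s f) {β : ℕ → ℂ}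
    {i j : ℕ} (hij : i < j) (hjm : j ≤ m) {c : ℂ}
    (hc : Tendsto (fun n => β n / f n j) uf (𝓝 c)) :
    Tendsto (fun n => β n / f n i) uf (𝓝 0) := by
  have h1 := hc.mul (Pa1Aux.ratio0 hf hij hjm)
  rw [mul_zero] at h1
  refine h1.congr fun n => ?_
  rw [div_mul_div_comm, mul_comm (f n j : ℂ) (f n i : ℂ),
    mul_div_mul_right _ _ (Complex.ofReal_ne_zero.2 (hf.ne n j hjm))]

/-- The limit vector is real. -/
private theorem Pa1Aux.real {X : Submodule ℂ (B → ℂ)} (cX : Cj X) {φ : ℕ → B → ℝ} {l : ℕ}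
    {v0 : B → ℂ} {ib : B} (h1 : v0 ib = 1) (hx : v0 ∈ Xi X φ l) (ha : pr (φ l) v0 ≠ 0)
    (ho : ∀ z ∈ Xi X φ l, pr (φ l) z = 0 → dt v0 z = 0) : Rea v0 := by
  have cXi : Cj (Xi X φ l) := Xi_cj cX φ l
  have hy : starRingEnd ℂ (pr (φ l) v0) • v0 - pr (φ l) v0 • cj v0 ∈ Xi X φ l :=
    sub_mem (Submodule.smul_mem _ _ hx) (Submodule.smul_mem _ _ (cXi _ hx))
  obtain ⟨y, hyd⟩ : ∃ y, y = starRingEnd ℂ (pr (φ l) v0) • v0 - pr (φ l) v0 • cj v0 :=
    ⟨_, rfl⟩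
  rw [← hyd] at hy
  have hneg : y = starRingEnd ℂ (pr (φ l) v0) • v0 + (-pr (φ l) v0) • cj v0 := by
    rw [hyd, neg_smul, sub_eq_add_neg]
  have hy0 : pr (φ l) y = 0 := by
    rw [hneg, pr_add, pr_smul, pr_smul, pr_cj]
    ring
  have hcy : pr (φ l) (cj y) = 0 := by rw [pr_cj, hy0, map_zero]
  have hd1 : dt v0 (cj y) = 0 := ho _ (cXi _ hy) hcy
  have hd2 : dt (cj v0) (cj y) = 0 := by
    rw [dt_cj, ho y hy hy0, map_zero]
  have hyz' : ∀ z : B → ℂ, dt y z = starRingEnd ℂ (pr (φ l) v0) * dt v0 z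
      + (-pr (φ l) v0) * dt (cj v0) z := by
    intro z
    rw [hneg, dt_add_left, dt_smul_left, dt_smul_left]
  have hyy : dt y (cj y) = 0 := by
    rw [hyz', hd1, hd2, mul_zero, mul_zero, add_zero]
  have hyz : y = 0 := by
    by_contra hne
    have h5 := (dt_cj_pos y hne).1
    rw [hyy, Complex.zero_re] at h5
    exact lt_irrefl _ h5
  have hval : ∀ b, starRingEnd ℂ (pr (φ l) v0) * v0 b = pr (φ l) v0 * starRingEnd ℂ (v0 b) := by
    intro b
    have h2 := congrFun hyd b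
    rw [hyz] at h2
    have h3 : (0 : ℂ) = starRingEnd ℂ (pr (φ l) v0) * v0 b
        - pr (φ l) v0 * starRingEnd ℂ (v0 b) := h2
    exact (sub_eq_zero.1 h3.symm)
  have h2 := hval ib
  rw [h1, map_one, mul_one, mul_one] at h2
  intro b
  have h3 := hval b
  rw [h2] at h3
  exact Complex.conj_eq_iff_im.1 (mul_left_cancel₀ ha h3).symm

/-- The limit of the form, one side. -/
private theorem Pa1Aux.form {m : ℕ} {φ : ℕ → B → ℝ} {ψ : ℕ → C → ℝ} {s : ℝ} {f : ℕ → ℕ → ℝ}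
    (hf : Hi m s f) {w : ℕ → C → ℂ} {w0 : C → ℂ} (hw : Tendsto w uf (𝓝 w0)) {l : ℕ}
    (hl : l ≤ m) {z : B → ℂ} (hz : ∀ k, k < l → pr (φ k) z = 0) :
    Tendsto (fun n => (∑ k ∈ Finset.range (m + 1),
      (f n k : ℂ) * (pr (φ k) z * pr (ψ k) (w n))) / f n l) uf
      (𝓝 (pr (φ l) z * pr (ψ l) w0)) := by
  have h1 : Tendsto (fun n => ∑ k ∈ Finset.range (m + 1),
      (f n k : ℂ) / (f n l : ℂ) * (pr (φ k) z * pr (ψ k) (w n))) uf
      (𝓝 (∑ k ∈ Finset.range (m + 1), if k = l then pr (φ l) z * pr (ψ l) w0 else 0)) := by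
    refine tendsto_finsetSum _ fun k hk => ?_
    have hkm : k ≤ m := by
      have := Finset.mem_range.1 hk
      omega
    by_cases hkl : k < l
    · rw [if_neg hkl.ne]
      refine tendsto_const_nhds.congr fun n => ?_
      rw [hz k hkl, zero_mul, mul_zero]
    · have h2 := (Pa1Aux.ratio hf (show l ≤ k by omega) hkm).mul
        ((tendsto_const_nhds (x := pr (φ k) z)).mul (Pa1Aux.pr_lim (ψ k) hw))
      by_cases h3 : k = l
      · subst h3
        rw [if_pos rfl, one_mul] at h2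
        rw [if_pos rfl]
        exact h2
      · rw [if_neg (fun h => h3 h.symm), zero_mul] at h2
        rw [if_neg h3]
        exact h2
  rw [Finset.sum_ite_eq' (Finset.range (m + 1)) l, if_pos (Finset.mem_range.2 (by omega))] at h1
  refine h1.congr fun n => ?_
  rw [Finset.sum_div]
  refine Finset.sum_congr rfl fun k _ => ?_
  ring

/-- The limits of singular pairs of hierarchical forms.

Proof. Write `f l = f n l`, `Fr = rw0 φ ψ m (f n)`. Let `i, j` be the orders of the limits `v0, w0`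
(they
exist, `Nrm`). Test with `zX l`: `f l ψ l (w) + ∑ l' ≥ DX, f l' φ l' (zX l) ψ l' (w) = β dt v (zX
l)`, and
with `zY l`. (1) `|f j| ≤ C ‖β‖`: if `j < DX` take `l = j` (`ψ j (w) → ψ j (w0) ≠ 0`, the other
terms are
small against `f j`). If `j ≥ DX`: then `i < DX ≤ j`, see (3). The same `|f i| ≤ C ‖γ‖` if `i < DY`.
(2) `z = cj v` (`cX`): `β ‖v‖ ^ 2 = ∑ l, f l φ l (cj v) ψ l (w)`. For `l < i`: `φ l (cj v) → 0` and
`|f l ψ l (w)| ≤ C (‖β‖ + |f (l+1)|)`-type bounds from the test with `zX l` give a sum `o(‖β‖) +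
o(f i)`; for
`l ≥ i` the terms are `O(f i)`. So `‖β‖ ≤ C |f i|`; the same: `‖γ‖ ≤ C |f j|`. (3) So
`|f j| ≤ C |f i|` and `|f i| ≤ C |f j|`, `i = j` by the hierarchy (if, say, `j ≥ DX > i`, then
`|f i| ≤ C ‖γ‖ ≤ C |f j|`, impossible because `i < j`). (4) With `l = i = j`: `β / f l` and `γ / f
l` are
bounded and bounded below; divide the equations by `f l`: `Fr (z, w) / f l → φ l (z) ψ l (w0)` for
all
`z` of order `≥ l`; so `φ l (z) ψ l (w0) = β0 dt v0 z` for `z ∈ Xi X φ l`. -/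
theorem pa_lim {X : Submodule ℂ (B → ℂ)} {Y : Submodule ℂ (C → ℂ)} (cX : Cj X) (cY : Cj Y)
    {DX DY m : ℕ} {φ zX : ℕ → B → ℝ} {ψ zY : ℕ → C → ℝ} (hX : Flag X DX φ zX)
    (hY : Flag Y DY ψ zY) (hm : min DX DY ≤ m + 1) {s : ℝ} {f : ℕ → ℕ → ℝ} (hf : Hi m s f)
    {ib : B} {ic : C} {v : ℕ → B → ℂ} {w : ℕ → C → ℂ} {β γ : ℕ → ℂ}
    (ht : ∀ n, SP (rw0 φ ψ m (f n)) X Y (v n) (w n) (β n) (γ n))
    (nv : ∀ n, Nrm (v n) ib) (nw : ∀ n, Nrm (w n) ic) :
    ∃ l v0 w0 β0 γ0, l < DX ∧ l < DY ∧ Tendsto v uf (𝓝 v0) ∧ Tendsto w uf (𝓝 w0) ∧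
      Tendsto (fun n => β n / f n l) uf (𝓝 β0) ∧ Tendsto (fun n => γ n / f n l) uf (𝓝 γ0) ∧
      β0 ≠ 0 ∧ γ0 ≠ 0 ∧ v0 ∈ Xi X φ l ∧ w0 ∈ Xi Y ψ l ∧ pr (φ l) v0 ≠ 0 ∧ pr (ψ l) w0 ≠ 0 ∧
      Rea v0 ∧ Rea w0 ∧
      (∀ z ∈ Xi X φ l, pr (φ l) z * pr (ψ l) w0 = β0 * dt v0 z) ∧
      (∀ z ∈ Xi Y ψ l, pr (φ l) v0 * pr (ψ l) z = γ0 * dt w0 z) ∧
      (∀ z : B → ℂ, (∀ k, k < l → pr (φ k) z = 0) →
        Tendsto (fun n => bf (rw0 φ ψ m (f n)) z (w n) / f n l) uf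
          (𝓝 (pr (φ l) z * pr (ψ l) w0))) ∧
      ∀ z : C → ℂ, (∀ k, k < l → pr (ψ k) z = 0) →
        Tendsto (fun n => bf (rw0 φ ψ m (f n)) (v n) z / f n l) uf
          (𝓝 (pr (φ l) v0 * pr (ψ l) z)) := by
  obtain ⟨v0, hv⟩ := MPb0eR.ulim_vec v 1 fun n b => (nv n).2 b
  obtain ⟨w0, hw⟩ := MPb0eR.ulim_vec w 1 fun n c => (nw n).2 c
  have nv0 := MPb0eR.Nrm.lim nv hv
  have nw0 := MPb0eR.Nrm.lim nw hw
  have hv0 : v0 ≠ 0 := MPb0eR.Nrm.ne nv0
  have hw0 : w0 ≠ 0 := MPb0eR.Nrm.ne nw0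
  have hvX : v0 ∈ X := (Submodule.closed_of_finiteDimensional X).mem_of_tendsto hv
    (Eventually.of_forall fun n => (ht n).sv)
  have hwY : w0 ∈ Y := (Submodule.closed_of_finiteDimensional Y).mem_of_tendsto hw
    (Eventually.of_forall fun n => (ht n).sw)
  obtain ⟨i, hi, hvi, hi0⟩ := hX.ord hvX hv0
  obtain ⟨j, hj, hwj, hj0⟩ := hY.ord hwY hw0
  have e2 : ∀ n, ∀ z ∈ X, ∑ l ∈ Finset.range (m + 1),
      (f n l : ℂ) * (pr (φ l) z * pr (ψ l) (w n)) = β n * dt (v n) z := by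
    intro n z hz
    rw [← bf_rw0, ← dt_bfB]
    exact (ht n).e2 z hz
  have e3 : ∀ n, ∀ z ∈ Y, ∑ l ∈ Finset.range (m + 1),
      (f n l : ℂ) * (pr (ψ l) z * pr (φ l) (v n)) = γ n * dt (w n) z := by
    intro n z hz
    rw [← (ht n).e3 z hz, dt_bfC, bf_rw0]
    refine Finset.sum_congr rfl fun l _ => ?_
    ring
  have z1 := (mem_Xi.1 hvi).2
  have z2 := (mem_Xi.1 hwj).2
  have him : i ≤ m := Pa1Aux.le_m cX hm hX hf hv hw (fun n => (ht n).sv) e2 hi z1 hv0 hj hj0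
  have hjm : j ≤ m := Pa1Aux.le_m cY (min_comm DX DY ▸ hm) hY hf hw hv (fun n => (ht n).sw) e3
    hj z2 hw0 hi hi0
  obtain ⟨β0, hβ0⟩ := Pa1Aux.conv cX hX hf hv hw (fun n => (ht n).sv) e2 hi him z1 hv0
  obtain ⟨γ0, hγ0⟩ := Pa1Aux.conv cY hY hf hw hv (fun n => (ht n).sw) e3 hj hjm z2 hw0
  have hjX : j < DX := by
    by_contra hc
    exact Pa1Aux.lower hY hf hw hv e3 (show i < DY by omega) him hi0
      (Pa1Aux.no hf (show i < j by omega) hjm hγ0)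
  have hiY : i < DY := by
    by_contra hc
    exact Pa1Aux.lower hX hf hv hw e2 (show j < DX by omega) hjm hj0
      (Pa1Aux.no hf (show j < i by omega) him hβ0)
  have l1 := Pa1Aux.lower hX hf hv hw e2 hjX hjm hj0
  have l2 := Pa1Aux.lower hY hf hw hv e3 hiY him hi0
  have hij : i = j := by
    rcases lt_trichotomy i j with h1 | h1 | h1
    · exact absurd (Pa1Aux.no hf h1 hjm hγ0) l2
    · exact h1
    · exact absurd (Pa1Aux.no hf h1 him hβ0) l1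
  subst hij
  have hβne : β0 ≠ 0 := fun h0 => l1 (h0 ▸ hβ0)
  have hγne : γ0 ≠ 0 := fun h0 => l2 (h0 ▸ hγ0)
  have eB : ∀ z ∈ Xi X φ i, pr (φ i) z * pr (ψ i) w0 = β0 * dt v0 z := by
    intro z hz
    have h1 := Pa1Aux.form (ψ := ψ) hf hw him (mem_Xi.1 hz).2
    have h2 := hβ0.mul (Pa1Aux.dt_lim hv (tendsto_const_nhds (x := z)))
    refine tendsto_nhds_unique h1 (h2.congr fun n => ?_)
    rw [e2 n z (mem_Xi.1 hz).1]
    ring
  have eC : ∀ z ∈ Xi Y ψ i, pr (ψ i) z * pr (φ i) v0 = γ0 * dt w0 z := by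
    intro z hz
    have h1 := Pa1Aux.form (ψ := φ) hf hv hjm (mem_Xi.1 hz).2
    have h2 := hγ0.mul (Pa1Aux.dt_lim hw (tendsto_const_nhds (x := z)))
    refine tendsto_nhds_unique h1 (h2.congr fun n => ?_)
    rw [e3 n z (mem_Xi.1 hz).1]
    ring
  refine ⟨i, v0, w0, β0, γ0, hi, hj, hv, hw, hβ0, hγ0, hβne, hγne, hvi, hwj, hi0, hj0,
    Pa1Aux.real cX nv0.1 hvi hi0 fun z hz h0 => ?_,
    Pa1Aux.real cY nw0.1 hwj hj0 fun z hz h0 => ?_, eB, fun z hz => ?_, fun z hz => ?_,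
    fun z hz => ?_⟩
  · have h1 := eB z hz
    rw [h0, zero_mul] at h1
    exact (mul_eq_zero.1 h1.symm).resolve_left hβne
  · have h1 := eC z hz
    rw [h0, zero_mul] at h1
    exact (mul_eq_zero.1 h1.symm).resolve_left hγne
  · rw [← eC z hz, mul_comm]
  · refine (Pa1Aux.form (ψ := ψ) hf hw him hz).congr fun n => ?_
    rw [bf_rw0]
  · have h1 := Pa1Aux.form (ψ := φ) hf hv hjm hz
    rw [mul_comm] at h1
    refine h1.congr fun n => ?_
    rw [bf_rw0]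
    congr 1
    refine Finset.sum_congr rfl fun l _ => ?_
    ring

end

end Pool.Agent.MPb0eK
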