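import Mathlib
import Pool.Agent.Lib.MP_b0e20b_ag_K.Pa1
import Pool.Agent.Lib.MP_b0e20b_ag_K.Rig

/-!
# MP_b0e20b_ag, project K: singular pairs of hierarchical forms: reality
-/

set_option autoImplicit false

open scoped BigOperators Topology
open Filter

namespace Pool.Agent.MPb0eK

open MPb0eR (c1 c2 c3 tr q Sup Rl Rea uf Nrm cj AF scl)

section

variable {A B C : Type} [Fintype A] [Fintype B] [Fintype C] [DecidableEq A] [DecidableEq B]
  [DecidableEq C]

private theorem Pa2_lim {E : Type} [TopologicalSpace E] {K : Set E} (hK : IsCompact K)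
    (x : ℕ → E) (h : ∀ᶠ n in uf, x n ∈ K) : ∃ x0 ∈ K, Tendsto x uf (𝓝 x0) := by
  obtain ⟨x0, h1, hx0⟩ := hK.ultrafilter_le_nhds ((hyperfilter ℕ).map x)
    (by
      rw [Ultrafilter.coe_map]
      exact le_principal_iff.2 h)
  exact ⟨x0, h1, hx0⟩

private theorem Pa2_hi {m : ℕ} {s : ℝ} {f : ℕ → ℕ → ℝ} (hf : Hi m s f) {k : ℕ} :
    ∀ l, k < l → l ≤ m → Tendsto (fun n => f n l / f n k) uf (𝓝 0) := by
  intro l
  induction l with
  | zero => intro h; omega
  | succ l ih =>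
    intro hkl hm
    rcases Nat.lt_succ_iff_lt_or_eq.1 hkl with h | h
    · have h1 := hf.hi l (by omega)
      have h2 := ih h (by omega)
      have h3 := h1.mul h2
      rw [mul_zero] at h3
      refine h3.congr fun n => ?_
      have h4 := hf.ne n l (by omega)
      have h5 := hf.ne n k (by omega)
      field_simp
    · subst h
      exact hf.hi k (by omega)

private theorem Pa2_sum {m : ℕ} {s : ℝ} {f : ℕ → ℕ → ℝ} (hf : Hi m s f) {k : ℕ} (hk : k ≤ m)
    {p : ℕ → ℕ → ℂ} {p0 : ℕ → ℂ} (hp : ∀ l, Tendsto (fun n => p n l) uf (𝓝 (p0 l)))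
    (h0 : ∀ n l, l < k → p n l = 0) :
    Tendsto (fun n => (∑ l ∈ Finset.range (m + 1), (f n l : ℂ) * p n l) / (f n k : ℂ)) uf
      (𝓝 (p0 k)) := by
  have h1 : ∀ l ∈ Finset.range (m + 1), Tendsto (fun n => ((f n l / f n k : ℝ) : ℂ) * p n l) uf
      (𝓝 (if l = k then p0 l else 0)) := by
    intro l hl
    rw [Finset.mem_range] at hl
    rcases lt_trichotomy l k with h | h | h
    · rw [if_neg h.ne]
      have e : (fun n => ((f n l / f n k : ℝ) : ℂ) * p n l) = fun _ => (0 : ℂ) := by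
        funext n
        rw [h0 n l h, mul_zero]
      rw [e]
      exact tendsto_const_nhds
    · subst h
      rw [if_pos rfl]
      have e : (fun n => ((f n l / f n l : ℝ) : ℂ) * p n l) = fun n => p n l := by
        funext n
        rw [div_self (hf.ne n l hk), Complex.ofReal_one, one_mul]
      rw [e]
      exact hp l
    · rw [if_neg h.ne']
      have h2 : Tendsto (fun n => ((f n l / f n k : ℝ) : ℂ)) uf (𝓝 ((0 : ℝ) : ℂ)) :=
        (Complex.continuous_ofReal.tendsto 0).comp (Pa2_hi hf l h (by omega))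
      have h3 := h2.mul (hp l)
      rw [Complex.ofReal_zero, zero_mul] at h3
      exact h3
  have h2 := tendsto_finsetSum (Finset.range (m + 1)) h1
  rw [Finset.sum_ite_eq', if_pos (Finset.mem_range.2 (by omega))] at h2
  refine h2.congr fun n => ?_
  rw [Finset.sum_div]
  refine Finset.sum_congr rfl fun l _ => ?_
  rw [Complex.ofReal_div]
  ring

private theorem Pa2_dt {B' : Type} [Fintype B'] {p : ℕ → B' → ℂ} {p0 : B' → ℂ}
    (hp : Tendsto p uf (𝓝 p0)) (z : B' → ℂ) :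
    Tendsto (fun n => dt (p n) z) uf (𝓝 (dt p0 z)) := by
  unfold dt
  exact tendsto_finsetSum _ fun a _ => ((tendsto_pi_nhds.1 hp) a).mul_const _

private theorem Pa2_side {B' C' : Type} [Fintype B'] [Fintype C'] {Z : Submodule ℂ (B' → ℂ)}
    {D m l : ℕ} {θ zZ : ℕ → B' → ℝ} {η : ℕ → C' → ℝ} (hZ : Flag Z D θ zZ) (hD : l < D)
    (hm : l ≤ m) {s : ℝ} {f : ℕ → ℕ → ℝ} (hf : Hi m s f) {u : ℕ → C' → ℂ} {u0 : C' → ℂ}
    (hu : Tendsto u uf (𝓝 u0)) {p t : ℕ → B' → ℂ} {p0 t0 : B' → ℂ} (hp : Tendsto p uf (𝓝 p0))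
    (ht : Tendsto t uf (𝓝 t0)) {β b : ℕ → ℂ} {β0 b0 : ℂ}
    (hβ : Tendsto (fun n => β n / f n l) uf (𝓝 β0)) (hb : Tendsto b uf (𝓝 b0))
    (he : ∀ᶠ n in uf, ∀ z ∈ Z,
      ∑ k ∈ Finset.range (m + 1), (f n k : ℂ) * (pr (θ k) z * pr (η k) (u n))
        = β n * dt (p n) z + b n * f n l * dt (t n) z) :
    (∀ k, k < l → pr (η k) u0 = 0) ∧
      ∀ z ∈ Xi Z θ l, pr (θ l) z * pr (η l) u0 = β0 * dt p0 z + b0 * dt t0 z := by
  classical
  have hR : ∀ z, Tendsto (fun n => β n / f n l * dt (p n) z + b n * dt (t n) z) uf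
      (𝓝 (β0 * dt p0 z + b0 * dt t0 z)) := fun z =>
    (hβ.mul (Pa2_dt hp z)).add (hb.mul (Pa2_dt ht z))
  have hL : ∀ z k, k ≤ l → (∀ j, j < k → pr (θ j) z = 0) →
      Tendsto (fun n => (∑ k ∈ Finset.range (m + 1),
        (f n k : ℂ) * (pr (θ k) z * pr (η k) (u n))) / (f n k : ℂ)) uf
        (𝓝 (pr (θ k) z * pr (η k) u0)) := by
    intro z k hk hz
    refine Pa2_sum (p := fun n j => pr (θ j) z * pr (η j) (u n))
      (p0 := fun j => pr (θ j) z * pr (η j) u0) hf (hk.trans hm) (fun j => ?_) fun n j hj => ?_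
    · exact (((continuous_pr (η j)).tendsto u0).comp hu).const_mul _
    · rw [hz j hj, zero_mul]
  have hE : ∀ z ∈ Z, ∀ k, k ≤ l → ∀ᶠ n in uf,
      (∑ k ∈ Finset.range (m + 1), (f n k : ℂ) * (pr (θ k) z * pr (η k) (u n))) / (f n k : ℂ)
        = ((f n l / f n k : ℝ) : ℂ) * (β n / f n l * dt (p n) z + b n * dt (t n) z) := by
    intro z hz k hk
    filter_upwards [he] with n hn
    rw [hn z hz]
    have h1 : (f n l : ℂ) ≠ 0 := Complex.ofReal_ne_zero.2 (hf.ne n l hm)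
    have h2 : (f n k : ℂ) ≠ 0 := Complex.ofReal_ne_zero.2 (hf.ne n k (hk.trans hm))
    rw [Complex.ofReal_div]
    field_simp
  refine ⟨fun k hk => ?_, fun z hz => ?_⟩
  · have hkD : k < D := by omega
    have hz := hZ.mem k hkD
    have h1 := hL (fun b => (zZ k b : ℂ)) k hk.le fun j hj => by
      rw [hZ.dual j k (by omega) hkD, if_neg (by omega)]
    have h2 : Tendsto (fun n => ((f n l / f n k : ℝ) : ℂ)) uf (𝓝 ((0 : ℝ) : ℂ)) :=
      (Complex.continuous_ofReal.tendsto 0).comp (Pa2_hi hf l hk hm)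
    have h3 := h2.mul (hR fun b => (zZ k b : ℂ))
    rw [Complex.ofReal_zero, zero_mul] at h3
    have h4 := tendsto_nhds_unique (h1.congr' (hE _ hz k hk.le)) h3
    rwa [hZ.dual k k hkD hkD, if_pos rfl, one_mul] at h4
  · have h1 := hL z l le_rfl hz.2
    have h3 : Tendsto (fun n => ((f n l / f n l : ℝ) : ℂ) *
        (β n / f n l * dt (p n) z + b n * dt (t n) z)) uf
        (𝓝 (β0 * dt p0 z + b0 * dt t0 z)) := by
      refine (hR z).congr fun n => ?_
      rw [div_self (hf.ne n l hm), Complex.ofReal_one, one_mul]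
    exact tendsto_nhds_unique (h1.congr' (hE z hz.1 l le_rfl)) h3

private theorem Pa2_zero {B' : Type} [Fintype B'] {Z : Submodule ℂ (B' → ℂ)} (cZ : Cj Z)
    {l : ℕ} {θ : ℕ → B' → ℝ} {v0 x : B' → ℂ} {ib : B'} (h1 : v0 ib = 1) (h2 : x ib = 0)
    (hv : v0 ∈ Xi Z θ l) (hx : x ∈ Xi Z θ l) {β0 b0 a a' : ℂ} (hβ : β0 ≠ 0) (ha : a ≠ 0)
    (e : ∀ z ∈ Xi Z θ l, pr (θ l) z * a = β0 * dt v0 z)
    (e' : ∀ z ∈ Xi Z θ l, pr (θ l) z * a' = β0 * dt x z + b0 * dt v0 z) : x = 0 := by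
  classical
  have h3 : ∀ z ∈ Xi Z θ l, dt (x - ((a' - b0 * a / β0) / a) • v0) z = 0 := by
    intro z hz
    have h4 : x - ((a' - b0 * a / β0) / a) • v0 = x + (-((a' - b0 * a / β0) / a)) • v0 := by
      rw [neg_smul, sub_eq_add_neg]
    rw [h4, dt_add_left, dt_smul_left]
    have h5 := e z hz
    have h6 := e' z hz
    have h7 : β0 * (dt x z + -((a' - b0 * a / β0) / a) * dt v0 z) = 0 := by
      have h8 : β0 * dt x z = pr (θ l) z * a' - b0 * dt v0 z := by
        rw [h6]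
        ring
      have h9 : pr (θ l) z = β0 * dt v0 z / a := by
        rw [← h5]
        field_simp
      rw [mul_add, h8, h9]
      field_simp
      ring
    exact (mul_eq_zero.1 h7).resolve_left hβ
  have h4 : x - ((a' - b0 * a / β0) / a) • v0 ∈ Xi Z θ l :=
    Submodule.sub_mem _ hx (Submodule.smul_mem _ _ hv)
  have h5 := h3 _ (Xi_cj cZ θ l _ h4)
  have h6 : x - ((a' - b0 * a / β0) / a) • v0 = 0 := by
    by_contra h7
    have h8 := (dt_cj_pos _ h7).1
    rw [h5] at h8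
    simp at h8
  have h7 : x = ((a' - b0 * a / β0) / a) • v0 := sub_eq_zero.1 h6
  have h8 : (a' - b0 * a / β0) / a = 0 := by
    have h9 := congrFun h7 ib
    rw [Pi.smul_apply, h1, h2, smul_eq_mul, mul_one] at h9
    exact h9.symm
  rw [h7, h8, zero_smul]

private theorem Pa2_co {B' : Type} [Fintype B'] {Z : Submodule ℂ (B' → ℂ)} (cZ : Cj Z)
    {l : ℕ} {θ : ℕ → B' → ℝ} {v0 : B' → ℂ} {ib : B'} (h1 : v0 ib = 1)
    (hv : v0 ∈ Xi Z θ l) {b0 : ℂ} (e : ∀ z ∈ Xi Z θ l, b0 * dt v0 z = 0) : b0 = 0 := by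
  classical
  have h2 := e _ (Xi_cj cZ θ l _ hv)
  have h3 : v0 ≠ 0 := by
    intro h
    rw [h, Pi.zero_apply] at h1
    exact zero_ne_one h1
  have h4 := (dt_cj_pos _ h3).1
  rcases mul_eq_zero.1 h2 with h | h
  · exact h
  · rw [h] at h4
    simp at h4

private theorem Pa2_ker {B C : Type} [Fintype B] [Fintype C] [DecidableEq B] [DecidableEq C]
    {X : Submodule ℂ (B → ℂ)} {Y : Submodule ℂ (C → ℂ)} (cX : Cj X) (cY : Cj Y)
    {DX DY m l : ℕ} {φ zX : ℕ → B → ℝ} {ψ zY : ℕ → C → ℝ} (hX : Flag X DX φ zX)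
    (hY : Flag Y DY ψ zY) (hlX : l < DX) (hlY : l < DY) (hm : l ≤ m) {s : ℝ} {f : ℕ → ℕ → ℝ}
    (hf : Hi m s f) {ib : B} {ic : C} {v : ℕ → B → ℂ} {w : ℕ → C → ℂ} {β γ : ℕ → ℂ}
    {v0 : B → ℂ} {w0 : C → ℂ} {β0 γ0 : ℂ} (hv : Tendsto v uf (𝓝 v0)) (hw : Tendsto w uf (𝓝 w0))
    (hβ : Tendsto (fun n => β n / f n l) uf (𝓝 β0))
    (hγ : Tendsto (fun n => γ n / f n l) uf (𝓝 γ0)) (nβ : β0 ≠ 0) (nγ : γ0 ≠ 0)
    (mv : v0 ∈ Xi X φ l) (mw : w0 ∈ Xi Y ψ l) (nv : pr (φ l) v0 ≠ 0) (nw : pr (ψ l) w0 ≠ 0)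
    (iv : v0 ib = 1) (iw : w0 ic = 1)
    (e2 : ∀ z ∈ Xi X φ l, pr (φ l) z * pr (ψ l) w0 = β0 * dt v0 z)
    (e3 : ∀ z ∈ Xi Y ψ l, pr (φ l) v0 * pr (ψ l) z = γ0 * dt w0 z) :
    ∀ᶠ n in uf, ∀ (dv : B → ℂ) (dw : C → ℂ) (dβ dγ : ℂ), dv ∈ X → dw ∈ Y →
      (∀ z ∈ X, bf (rw0 φ ψ m (f n)) z dw = β n * dt dv z + dβ * dt (v n) z) →
      (∀ z ∈ Y, bf (rw0 φ ψ m (f n)) dv z = γ n * dt dw z + dγ * dt (w n) z) →
      dv ib = 0 → dw ic = 0 → dv = 0 ∧ dw = 0 := by
  classical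
  let G : ℕ → (B → ℂ) × (C → ℂ) × ℂ × ℂ → Prop := fun n x =>
    x.1 ∈ X ∧ x.2.1 ∈ Y ∧
      (∀ z ∈ X, bf (rw0 φ ψ m (f n)) z x.2.1
        = β n * dt x.1 z + x.2.2.1 * f n l * dt (v n) z) ∧
      (∀ z ∈ Y, bf (rw0 φ ψ m (f n)) x.1 z
        = γ n * dt x.2.1 z + x.2.2.2 * f n l * dt (w n) z) ∧
      x.1 ib = 0 ∧ x.2.1 ic = 0
  have hG : ∀ n x (r : ℂ), G n x → G n (r • x) := by
    rintro n x r ⟨g1, g2, g3, g4, g5, g6⟩
    refine ⟨Submodule.smul_mem _ _ g1, Submodule.smul_mem _ _ g2, fun z hz => ?_,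
      fun z hz => ?_, ?_, ?_⟩
    · have h1 := g3 z hz
      rw [bf_rw0] at h1 ⊢
      change ∑ l ∈ Finset.range (m + 1), (f n l : ℂ) * (pr (φ l) z * pr (ψ l) (r • x.2.1))
        = β n * dt (r • x.1) z + r * x.2.2.1 * f n l * dt (v n) z
      rw [dt_smul_left]
      have h2 : ∑ l ∈ Finset.range (m + 1), (f n l : ℂ) * (pr (φ l) z * pr (ψ l) (r • x.2.1))
          = r * ∑ l ∈ Finset.range (m + 1), (f n l : ℂ) * (pr (φ l) z * pr (ψ l) x.2.1) := by
        rw [Finset.mul_sum]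
        refine Finset.sum_congr rfl fun k _ => ?_
        rw [pr_smul]
        ring
      rw [h2, h1]
      ring
    · have h1 := g4 z hz
      rw [bf_rw0] at h1 ⊢
      change ∑ l ∈ Finset.range (m + 1), (f n l : ℂ) * (pr (φ l) (r • x.1) * pr (ψ l) z)
        = γ n * dt (r • x.2.1) z + r * x.2.2.2 * f n l * dt (w n) z
      rw [dt_smul_left]
      have h2 : ∑ l ∈ Finset.range (m + 1), (f n l : ℂ) * (pr (φ l) (r • x.1) * pr (ψ l) z)
          = r * ∑ l ∈ Finset.range (m + 1), (f n l : ℂ) * (pr (φ l) x.1 * pr (ψ l) z) := by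
        rw [Finset.mul_sum]
        refine Finset.sum_congr rfl fun k _ => ?_
        rw [pr_smul]
        ring
      rw [h2, h1]
      ring
    · change r • x.1 ib = 0
      rw [g5, smul_zero]
    · change r • x.2.1 ic = 0
      rw [g6, smul_zero]
  have hmain : ∀ᶠ n in uf, ∀ x, G n x → x = 0 := by
    by_contra hcon
    have h1 : ∀ᶠ n in uf, ¬ ∀ x, G n x → x = 0 := Ultrafilter.eventually_not.2 hcon
    have h2 : ∀ n, ∃ y : (B → ℂ) × (C → ℂ) × ℂ × ℂ,
        (¬ ∀ x, G n x → x = 0) → G n y ∧ ‖y‖ = 1 := by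
      intro n
      by_cases h : ∀ x, G n x → x = 0
      · exact ⟨0, fun h' => absurd h h'⟩
      · have h' := h
        push Not at h
        obtain ⟨x, hx, hx0⟩ := h
        have hn : ‖x‖ ≠ 0 := norm_ne_zero_iff.2 hx0
        refine ⟨((‖x‖⁻¹ : ℝ) : ℂ) • x, fun _ => ⟨hG n x _ hx, ?_⟩⟩
        rw [norm_smul, Complex.norm_real, norm_inv, norm_norm, inv_mul_cancel₀ hn]
    choose y hy using h2
    have h3 : ∀ᶠ n in uf, G n (y n) ∧ ‖y n‖ = 1 := by
      filter_upwards [h1] with n hn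
      exact hy n hn
    obtain ⟨y0, hy0, hlim⟩ := Pa2_lim
      (isCompact_sphere (0 : (B → ℂ) × (C → ℂ) × ℂ × ℂ) 1) y (by
        filter_upwards [h3] with n hn
        rw [mem_sphere_zero_iff_norm]
        exact hn.2)
    rw [mem_sphere_zero_iff_norm] at hy0
    have l1 : Tendsto (fun n => (y n).1) uf (𝓝 y0.1) := (continuous_fst.tendsto y0).comp hlim
    have l2 : Tendsto (fun n => (y n).2.1) uf (𝓝 y0.2.1) :=
      ((continuous_fst.comp continuous_snd).tendsto y0).comp hlim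
    have l3 : Tendsto (fun n => (y n).2.2.1) uf (𝓝 y0.2.2.1) :=
      ((continuous_fst.comp (continuous_snd.comp continuous_snd)).tendsto y0).comp hlim
    have l4 : Tendsto (fun n => (y n).2.2.2) uf (𝓝 y0.2.2.2) :=
      ((continuous_snd.comp (continuous_snd.comp continuous_snd)).tendsto y0).comp hlim
    have sX := Pa2_side (η := ψ) hX hlX hm hf l2 l1 hv hβ l3 (by
      filter_upwards [h3] with n hn z hz
      have h := hn.1.2.2.1 z hz
      rw [bf_rw0] at h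
      exact h)
    have sY := Pa2_side (η := φ) hY hlY hm hf l1 l2 hw hγ l4 (by
      filter_upwards [h3] with n hn z hz
      have h := hn.1.2.2.2.1 z hz
      rw [bf_rw0] at h
      rw [← h]
      refine Finset.sum_congr rfl fun k _ => ?_
      ring)
    have m1 : y0.1 ∈ X := by
      refine (Submodule.closed_of_finiteDimensional X).mem_of_tendsto l1 ?_
      filter_upwards [h3] with n hn
      exact hn.1.1
    have m2 : y0.2.1 ∈ Y := by
      refine (Submodule.closed_of_finiteDimensional Y).mem_of_tendsto l2 ?_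
      filter_upwards [h3] with n hn
      exact hn.1.2.1
    have i1 : y0.1 ib = 0 := by
      refine tendsto_nhds_unique ((tendsto_pi_nhds.1 l1) ib) (tendsto_const_nhds.congr' ?_)
      filter_upwards [h3] with n hn
      exact hn.1.2.2.2.2.1.symm
    have i2 : y0.2.1 ic = 0 := by
      refine tendsto_nhds_unique ((tendsto_pi_nhds.1 l2) ic) (tendsto_const_nhds.congr' ?_)
      filter_upwards [h3] with n hn
      exact hn.1.2.2.2.2.2.symm
    have z1 : y0.1 = 0 := Pa2_zero cX iv i1 mv ⟨m1, sY.1⟩ nβ nw e2 sX.2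
    have z2 : y0.2.1 = 0 := by
      refine Pa2_zero cY iw i2 mw ⟨m2, sX.1⟩ nγ nv (fun z hz => ?_) sY.2
      rw [mul_comm]
      exact e3 z hz
    have z3 : y0.2.2.1 = 0 := by
      refine Pa2_co cX iv mv fun z hz => ?_
      have h := sX.2 z hz
      rw [z1, z2] at h
      have h5 : pr (ψ l) (0 : C → ℂ) = 0 := by simp [pr]
      have h6 : dt (0 : B → ℂ) z = 0 := by simp [dt]
      rw [h5, h6, mul_zero, mul_zero, zero_add] at h
      exact h.symm
    have z4 : y0.2.2.2 = 0 := by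
      refine Pa2_co cY iw mw fun z hz => ?_
      have h := sY.2 z hz
      rw [z1, z2] at h
      have h5 : pr (φ l) (0 : B → ℂ) = 0 := by simp [pr]
      have h6 : dt (0 : C → ℂ) z = 0 := by simp [dt]
      rw [h5, h6, mul_zero, mul_zero, zero_add] at h
      exact h.symm
    have h0 : y0 = 0 := Prod.ext z1 (Prod.ext z2 (Prod.ext z3 z4))
    rw [h0, norm_zero] at hy0
    exact zero_ne_one hy0
  filter_upwards [hmain] with n hn dv dw dβ dγ h1 h2 h3 h4 h5 h6
  have hfl : (f n l : ℂ) ≠ 0 := Complex.ofReal_ne_zero.2 (hf.ne n l hm)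
  have h7 := hn (dv, dw, dβ / f n l, dγ / f n l) ⟨h1, h2, fun z hz => by
    rw [h3 z hz]
    change _ = β n * dt dv z + dβ / f n l * f n l * dt (v n) z
    rw [div_mul_cancel₀ _ hfl], fun z hz => by
    rw [h4 z hz]
    change _ = γ n * dt dw z + dγ / f n l * f n l * dt (w n) z
    rw [div_mul_cancel₀ _ hfl], h5, h6⟩
  exact ⟨congrArg Prod.fst h7, congrArg (fun x => x.2.1) h7⟩

private theorem Pa2_cjlim {B' : Type} [Fintype B'] {v : ℕ → B' → ℂ} {v0 : B' → ℂ}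
    (hv : Tendsto v uf (𝓝 v0)) (rv : Rea v0) : Tendsto (fun n => cj (v n)) uf (𝓝 v0) := by
  rw [tendsto_pi_nhds]
  intro a
  have h1 := (Complex.continuous_conj.tendsto (v0 a)).comp ((tendsto_pi_nhds.1 hv) a)
  have h2 : starRingEnd ℂ (v0 a) = v0 a := Complex.conj_eq_iff_im.2 (rv a)
  rw [h2] at h1
  exact h1

private theorem Pa2_bfcj {B' C' : Type} [Fintype B'] [Fintype C'] (F : B' → C' → ℝ)
    (x : B' → ℂ) (y : C' → ℂ) : bf F (cj x) (cj y) = starRingEnd ℂ (bf F x y) := by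
  simp only [bf, cj, map_sum, map_mul, Complex.conj_ofReal]

private theorem Pa2_bfaL {B' C' : Type} [Fintype B'] [Fintype C'] (F : B' → C' → ℝ)
    (x x' : B' → ℂ) (r : ℂ) (y : C' → ℂ) :
    bf F (x + r • x') y = bf F x y + r * bf F x' y := by
  simp only [bf, Finset.mul_sum, ← Finset.sum_add_distrib, Pi.add_apply, Pi.smul_apply,
    smul_eq_mul]
  exact Finset.sum_congr rfl fun _ _ => Finset.sum_congr rfl fun _ _ => by ring

private theorem Pa2_bfaR {B' C' : Type} [Fintype B'] [Fintype C'] (F : B' → C' → ℝ)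
    (x : B' → ℂ) (y y' : C' → ℂ) (r : ℂ) :
    bf F x (y + r • y') = bf F x y + r * bf F x y' := by
  simp only [bf, Finset.mul_sum, ← Finset.sum_add_distrib, Pi.add_apply, Pi.smul_apply,
    smul_eq_mul]
  exact Finset.sum_congr rfl fun _ _ => Finset.sum_congr rfl fun _ _ => by ring

/-- Singular pairs of hierarchical forms are eventually real and nondegenerate, with nonzero value.

Proof. `pa_lim` gives `l`. Coordinates `v = ∑ x k • zX k`, `w = ∑ y k • zY k`; `x k = (f l / f k)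
x' k`,
`y k = (f l / f k) y' k` for `k < l`, `β = f l β'`, `γ = f l γ'`. Equations: tests with `zX k`, `k
< l`, divided by
`f l`: `y' k + small = β' dt v (zX k)`; tests with `zX k`, `k ≥ l`, divided by `f l`:
`[k = l] y l + small = β' dt v (zX k)`; the same for `zY k`; the normalisations. So the scaled
unknowns
are bounded. Limit system: `v' = ∑ k ≥ l, x k zX k`: `dt v' (zX k) = 0` for `k > l`, `y l = β' dt
v' (zX l)`,
`x l = γ' dt w' (zY l)`, and `x' k`, `y' k` for `k < l` are determined. Kernel: `dv'` satisfies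
`dt dv' (zX k) = 0` for `k > l`, so it is a multiple of `v0` (the form `dt` is positive definite on
real
vectors, so the orthogonal complement of `Xi X φ (l+1)` in `Xi X φ l` is one-dimensional), zero by
the
normalisation; then `dβ' = dγ' = 0` and the rest. `rig` with the conjugate pair, `rig_ker`. The
value:
`bf Fr v w = β q v` and `β / f l → β0 ≠ 0`, `q v → q v0 ≠ 0`. The kernel of the pair equations
without
normalisation: subtract multiples of `v`, `w`. -/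
theorem pa_ok {X : Submodule ℂ (B → ℂ)} {Y : Submodule ℂ (C → ℂ)} (cX : Cj X) (cY : Cj Y)
    {DX DY m : ℕ} {φ zX : ℕ → B → ℝ} {ψ zY : ℕ → C → ℝ} (hX : Flag X DX φ zX)
    (hY : Flag Y DY ψ zY) (hm : min DX DY ≤ m + 1) {s : ℝ} {f : ℕ → ℕ → ℝ} (hf : Hi m s f)
    {ib : B} {ic : C} {v : ℕ → B → ℂ} {w : ℕ → C → ℂ} {β γ : ℕ → ℂ}
    (ht : ∀ n, SP (rw0 φ ψ m (f n)) X Y (v n) (w n) (β n) (γ n))
    (nv : ∀ n, Nrm (v n) ib) (nw : ∀ n, Nrm (w n) ic) :
    ∀ᶠ n in uf, OkP (rw0 φ ψ m (f n)) X Y (v n) (w n) (β n) (γ n) := by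
  obtain ⟨l, v0, w0, β0, γ0, hlX, hlY, hv, hw, hβ, hγ, nβ, nγ, mv, mw, pv, pw, rv, rw0', e2, e3,
    -, -⟩ := pa_lim cX cY hX hY hm hf ht nv nw
  have hlm : l ≤ m := by
    have h1 : l < min DX DY := lt_min hlX hlY
    omega
  have Nv : Nrm v0 ib := MPb0eR.Nrm.lim nv hv
  have Nw : Nrm w0 ic := MPb0eR.Nrm.lim nw hw
  have k1 := Pa2_ker (ib := ib) (ic := ic) cX cY hX hY hlX hlY hlm hf hv hw hβ hγ nβ nγ mv mw
    pv pw Nv.1 Nw.1 e2 e3
  have k2 := Pa2_ker (ib := ib) (ic := ic) cX cY hX hY hlX hlY hlm hf (Pa2_cjlim hv rv)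
    (Pa2_cjlim hw rw0') hβ hγ nβ nγ mv mw pv pw Nv.1 Nw.1 e2 e3
  have hv0 : v0 ≠ 0 := MPb0eR.Nrm.ne Nv
  have hq0 : q v0 ≠ 0 := by
    intro h
    have h1 := (q_rea_pos rv hv0).1
    rw [h] at h1
    simp at h1
  have q1 : ∀ᶠ n in uf, q (v n) ≠ 0 := (MPb0eR.lim_q hv).eventually_ne hq0
  have q2 : ∀ᶠ n in uf, β n / f n l ≠ 0 := hβ.eventually_ne nβ
  filter_upwards [k1, k2, q1, q2] with n k1 k2 q1 q2
  have hS := ht n
  have s2 : ∀ z ∈ X, bf (rw0 φ ψ m (f n)) z (w n) = β n * dt (v n) z := fun z hz => by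
    rw [← dt_bfB]
    exact hS.e2 z hz
  have s3 : ∀ z ∈ Y, bf (rw0 φ ψ m (f n)) (v n) z = γ n * dt (w n) z := fun z hz => by
    rw [← dt_bfC]
    exact hS.e3 z hz
  have hβn : β n ≠ 0 := by
    intro h
    rw [h, zero_div] at q2
    exact q2 rfl
  -- reality
  have hre : v n = cj (v n) ∧ w n = cj (w n) := by
    have c2 : ∀ z ∈ X, bf (rw0 φ ψ m (f n)) z (cj (w n))
        = starRingEnd ℂ (β n) * dt (cj (v n)) z := by
      intro z hz
      have h1 := s2 (cj z) (cX z hz)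
      have h2 := congrArg (starRingEnd ℂ) h1
      rw [← Pa2_bfcj, MPb0eR.cj_cj, map_mul, ← dt_cj, MPb0eR.cj_cj] at h2
      exact h2
    have c3 : ∀ z ∈ Y, bf (rw0 φ ψ m (f n)) (cj (v n)) z
        = starRingEnd ℂ (γ n) * dt (cj (w n)) z := by
      intro z hz
      have h1 := s3 (cj z) (cY z hz)
      have h2 := congrArg (starRingEnd ℂ) h1
      rw [← Pa2_bfcj, MPb0eR.cj_cj, map_mul, ← dt_cj, MPb0eR.cj_cj] at h2
      exact h2
    have h := k2 (v n + (-1 : ℂ) • cj (v n)) (w n + (-1 : ℂ) • cj (w n))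
      (β n - starRingEnd ℂ (β n)) (γ n - starRingEnd ℂ (γ n))
      (X.add_mem hS.sv (X.smul_mem _ (cX _ hS.sv))) (Y.add_mem hS.sw (Y.smul_mem _ (cY _ hS.sw)))
      (fun z hz => by
        rw [Pa2_bfaR, s2 z hz, c2 z hz, dt_add_left, dt_smul_left]
        ring)
      (fun z hz => by
        rw [Pa2_bfaL, s3 z hz, c3 z hz, dt_add_left, dt_smul_left]
        ring)
      (by
        change v n ib + (-1 : ℂ) • starRingEnd ℂ (v n ib) = 0
        rw [(nv n).1, map_one]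
        simp)
      (by
        change w n ic + (-1 : ℂ) • starRingEnd ℂ (w n ic) = 0
        rw [(nw n).1, map_one]
        simp)
    refine ⟨?_, ?_⟩
    · have h1 := h.1
      rw [neg_smul, one_smul, ← sub_eq_add_neg] at h1
      exact sub_eq_zero.1 h1
    · have h1 := h.2
      rw [neg_smul, one_smul, ← sub_eq_add_neg] at h1
      exact sub_eq_zero.1 h1
  refine ⟨⟨1, one_ne_zero, fun a => ?_⟩, ⟨1, one_ne_zero, fun a => ?_⟩, ?_, ?_⟩
  · rw [one_mul]
    exact (MPb0eR.rea_iff (v n)).2 hre.1.symm a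
  · rw [one_mul]
    exact (MPb0eR.rea_iff (w n)).2 hre.2.symm a
  · rw [s2 _ hS.sv, dt_self]
    exact mul_ne_zero hβn q1
  · intro dv dw dβ dγ h1 h2 h3 h4
    have h := k1 (dv + (-(dv ib)) • v n) (dw + (-(dw ic)) • w n)
      (dβ + β n * dv ib - β n * dw ic) (dγ + γ n * dw ic - γ n * dv ib)
      (X.add_mem h1 (X.smul_mem _ hS.sv)) (Y.add_mem h2 (Y.smul_mem _ hS.sw))
      (fun z hz => by
        have h5 := h3 z hz
        rw [dt_bfB] at h5
        rw [Pa2_bfaR, h5, s2 z hz, dt_add_left, dt_smul_left]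
        ring)
      (fun z hz => by
        have h5 := h4 z hz
        rw [dt_bfC] at h5
        rw [Pa2_bfaL, h5, s3 z hz, dt_add_left, dt_smul_left]
        ring)
      (by
        change dv ib + (-(dv ib)) * v n ib = 0
        rw [(nv n).1]
        ring)
      (by
        change dw ic + (-(dw ic)) * w n ic = 0
        rw [(nw n).1]
        ring)
    refine ⟨⟨dv ib, ?_⟩, ⟨dw ic, ?_⟩⟩
    · have h5 := h.1
      rw [neg_smul, ← sub_eq_add_neg] at h5
      exact sub_eq_zero.1 h5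
    · have h5 := h.2
      rw [neg_smul, ← sub_eq_add_neg] at h5
      exact sub_eq_zero.1 h5

end

end Pool.Agent.MPb0eK
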