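import Mathlib
import Pool.Agent.Lib.MP_b0e20b_ag_K.Pa2
import Pool.Agent.Lib.MP_b0e20b_ag_K.P3
import Pool.Agent.Lib.MP_b0e20b_ag_K.ObL

/-!
# MP_b0e20b_ag, project K: E types: singular pairs of a row, all masks
-/

set_option autoImplicit false

open scoped BigOperators Topology
open Filter

namespace Pool.Agent.MPb0eK

open MPb0eR (c1 c2 c3 tr q Sup Rl Rea uf Nrm cj AF scl)

section

variable {P : Par} {N n2 n3 : ℕ} {T : Fin (N + 1) → Fin (n2 + 1) → Fin (n3 + 1) → ℝ} {full : Bool}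
  {p : ℕ}

private theorem e3_real {z : ℂ} (h : z.im = 0) : ∃ r : ℝ, z = (r : ℂ) :=
  ⟨z.re, Complex.ext rfl (by rw [h, Complex.ofReal_im])⟩

private theorem e3_re3 (a b c : ℝ) : ((a : ℂ) * (b : ℂ) * (c : ℂ)).re = a * b * c := by
  rw [← Complex.ofReal_mul, ← Complex.ofReal_mul, Complex.ofReal_re]

private theorem e3_reG (a b : ℝ) (G : ℂ) : ((a : ℂ) * (b : ℂ) * G).re = a * b * G.re := by
  rw [← Complex.ofReal_mul, Complex.re_ofReal_mul]

private theorem e3_reG' (a b : ℝ) (G : ℂ) : (G * (a : ℂ) * (b : ℂ)).re = G.re * a * b := by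
  rw [mul_assoc, ← Complex.ofReal_mul, Complex.re_mul_ofReal]
  ring

private theorem e3_pos {a b : ℝ} (h : 0 < a * b ^ 2) : 0 < a := by
  by_contra h1
  push Not at h1
  have h2 := mul_nonneg (neg_nonneg.2 h1) (sq_nonneg b)
  linarith

private theorem e3_neg {a b : ℝ} (h : a * b ^ 2 < 0) : a < 0 := by
  by_contra h1
  push Not at h1
  have h2 := mul_nonneg h1 (sq_nonneg b)
  linarith

private theorem e3_dt_im {n : ℕ} {v z : Fin (n + 1) → ℂ} (hv : Rea v) (hz : Rea z) :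
    (dt v z).im = 0 := by
  unfold dt
  rw [Complex.im_sum]
  exact Finset.sum_eq_zero fun a _ => by
    rw [Complex.mul_im, hv a, hz a, mul_zero, zero_mul, add_zero]

private theorem e3_Df_im {n l : ℕ} {v z : Fin (n + 1) → ℂ} (hv : Rea v) (h0 : v ≠ 0) (hz : Rea z) :
    (Df P n p l v z).im = 0 := by
  obtain ⟨a, ha⟩ := e3_real (pr_re (tau P n (P.g p) l) hz)
  obtain ⟨b, hb⟩ := e3_real (pr_re (tau P n (P.g p) l) hv)
  obtain ⟨c, hc⟩ := e3_real (e3_dt_im hv hz)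
  obtain ⟨d, hd⟩ := e3_real (q_rea_pos hv h0).2
  unfold Df
  rw [ha, hb, hc, hd, ← Complex.ofReal_mul, ← Complex.ofReal_div, ← Complex.ofReal_sub,
    Complex.ofReal_im]

private theorem e3_dB {n l : ℕ} {v : Fin (n + 1) → ℂ} (hv : q v ≠ 0) {β0 t : ℂ}
    (h : pr (tau P n (P.g p) l) v * t = β0 * dt v v) (z : Fin (n + 1) → ℂ) :
    dt (fun b => tau P n (P.g p) l b * t - β0 * v b) z = t * Df P n p l v z := by
  have h1 : dt (fun b => (tau P n (P.g p) l b : ℂ) * t - β0 * v b) z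
      = t * pr (tau P n (P.g p) l) z - β0 * dt v z := by
    unfold dt pr
    rw [Finset.mul_sum, Finset.mul_sum, ← Finset.sum_sub_distrib]
    exact Finset.sum_congr rfl fun a _ => by ring
  rw [h1]
  unfold Df
  rw [dt_self] at h
  have h2 : β0 = pr (tau P n (P.g p) l) v * t / q v := by
    rw [eq_div_iff hv, h]
  rw [h2]
  field_simp

/-- The sign conditions hold for the limit pairs (apart from those at the node `p` itself, which
are false for `l ≥ 1` and are not needed).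

Proof. With `φ = pr (tau l) v`, `ψ = pr (tau l) w` (nonzero by `b0`): `gB = φ l (.) ψ - β0 v`, so
`dt gB z = ψ Df v z` because `β0 q v = φ ψ` (take `z = v`); `dt gC z = φ Df w z`; `σ = φ ψ`. `oB`:
`ψ ^ 2 (Df v z φ τ) < 0` (`b1`). `s2`: `ψ ^ 2 Df v z φ h (v) > 0` (`b2`). `s1` the same. `g0`: `b6`
and `hG`.
`t2`: `dt gB z dt gC z' G` has the sign of `(Df v z φ V(g 0)) (Df w z' ψ W(g 0))`; the first factor
is
negative (`b4`), the second positive (`b2`, `b6`). `t1`: `G h (v) h' (w)` has the sign of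
`V(g 0) h (v) W(g 0) h' (w) > 0` (`b6`, `hG`) if `p ≥ 1`. Here `hG` is `BG`. For `p = 0` (`full =
true`):
`hG0` is the sign of the row itself. -/
theorem e3_base (hP : GoodP P N) (hp : p ≤ N) {x y : Fin 3} {i j : ℕ → ℕ} (hM : Msk full x y)
    {l : ℕ} {v : Fin (n2 + 1) → ℂ} {w : Fin (n3 + 1) → ℂ} (hv : Bv P n2 x i p l v)
    (hw : Bv P n3 y j p l w) (fv : BF P n2 x i p l v) (fw : BF P n3 y j p l w) {β0 γ0 G : ℂ}
    (hβ : ∀ z ∈ Xo P n2 x (at' i p l), pr (tau P n2 (P.g p) l) z * pr (tau P n3 (P.g p) l) w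
      = β0 * dt v z)
    (hγ : ∀ z ∈ Xo P n3 y (at' j p l), pr (tau P n2 (P.g p) l) v * pr (tau P n3 (P.g p) l) z
      = γ0 * dt w z)
    (hG : 1 ≤ p → x ≠ 0 → y ≠ 0 →
      0 < (G * pr (tau P n2 (P.g 0) 0) v * pr (tau P n3 (P.g 0) 0) w).re)
    (hG0 : p = 0 → full = true ∧
      0 < (G * pr (tau P n2 (P.g 0) l) v * pr (tau P n3 (P.g 0) l) w).re) :
    ObN P p n2 n3 full x y (at' i p l) (at' j p l) v w
      (fun b => tau P n2 (P.g p) l b * pr (tau P n3 (P.g p) l) w - β0 * v b)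
      (fun c => pr (tau P n2 (P.g p) l) v * tau P n3 (P.g p) l c - γ0 * w c)
      (pr (tau P n2 (P.g p) l) v * pr (tau P n3 (P.g p) l) w) G := by
  have _ := hP
  have _ := hp
  have _ := hM
  have qv : q v ≠ 0 := fun h => by
    have h1 := (q_rea_pos hv.re hv.ne).1
    rw [h, Complex.zero_re] at h1
    exact lt_irrefl _ h1
  have qw : q w ≠ 0 := fun h => by
    have h1 := (q_rea_pos hw.re hw.ne).1
    rw [h, Complex.zero_re] at h1
    exact lt_irrefl _ h1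
  obtain ⟨f, hf⟩ := e3_real (pr_re (tau P n2 (P.g p) l) hv.re)
  obtain ⟨s, hs⟩ := e3_real (pr_re (tau P n3 (P.g p) l) hw.re)
  obtain ⟨Vh, hVh⟩ := e3_real (pr_re (MPb0eK.hv P n2) hv.re)
  obtain ⟨Wh, hWh⟩ := e3_real (pr_re (MPb0eK.hv P n3) hw.re)
  obtain ⟨V0, hV0⟩ := e3_real (pr_re (tau P n2 (P.g 0) 0) hv.re)
  obtain ⟨W0, hW0⟩ := e3_real (pr_re (tau P n3 (P.g 0) 0) hw.re)
  have f0 : f ≠ 0 := fun h => fv.b0 (by rw [hf, h, Complex.ofReal_zero])
  have s0 : s ≠ 0 := fun h => fw.b0 (by rw [hs, h, Complex.ofReal_zero])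
  have dB : ∀ z, dt (fun b => (tau P n2 (P.g p) l b : ℂ) * pr (tau P n3 (P.g p) l) w - β0 * v b) z
      = s * Df P n2 p l v z := by
    intro z
    rw [e3_dB qv (hβ v hv.mem) z, hs]
  have dC : ∀ z, dt (fun c => pr (tau P n2 (P.g p) l) v * (tau P n3 (P.g p) l c : ℂ) - γ0 * w c) z
      = f * Df P n3 p l w z := by
    intro z
    have h1 : (fun c => pr (tau P n2 (P.g p) l) v * (tau P n3 (P.g p) l c : ℂ) - γ0 * w c)
        = fun c => (tau P n3 (P.g p) l c : ℂ) * pr (tau P n2 (P.g p) l) v - γ0 * w c := by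
      funext c
      rw [mul_comm (pr (tau P n2 (P.g p) l) v)]
    rw [h1, e3_dB qw (by rw [mul_comm]; exact hγ w hw.mem) z, hf]
  have full_p : full = false → 1 ≤ p := by
    intro h
    by_contra h1
    have h2 := (hG0 (by omega)).1
    rw [h] at h2
    exact Bool.false_ne_true h2
  refine ⟨?_, ?_, ?_, ?_, ?_, ?_, ?_, ?_⟩
  · intro p' hp' hi' z hz rz ez
    rw [at', Function.update_of_ne hp'] at hi' ez ⊢
    have h1 := fv.b1 p' hi' z hz rz ez
    obtain ⟨d, hd⟩ := e3_real (e3_Df_im (P := P) (p := p) (l := l) hv.re hv.ne rz)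
    obtain ⟨t, ht⟩ := e3_real (pr_re (tau P n2 (P.g p') (i p')) hv.re)
    rw [hd, hf, ht, e3_re3] at h1
    rw [dB, hd, hf, hs, ht]
    have h2 : (s : ℂ) * d * t * (f * s) = ((s * d * t * (f * s) : ℝ) : ℂ) := by push_cast; ring
    rw [h2, Complex.ofReal_re]
    have h3 : s * d * t * (f * s) = d * f * t * s ^ 2 := by ring
    rw [h3]
    exact mul_neg_of_neg_of_pos h1 (by positivity)
  · intro p' hp' hi' z hz rz ez
    rw [at', Function.update_of_ne hp'] at hi' ez ⊢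
    have h1 := fw.b1 p' hi' z hz rz ez
    obtain ⟨d, hd⟩ := e3_real (e3_Df_im (P := P) (p := p) (l := l) hw.re hw.ne rz)
    obtain ⟨t, ht⟩ := e3_real (pr_re (tau P n3 (P.g p') (j p')) hw.re)
    rw [hd, hs, ht, e3_re3] at h1
    rw [dC, hd, hf, hs, ht]
    have h2 : (f : ℂ) * d * t * (f * s) = ((f * d * t * (f * s) : ℝ) : ℂ) := by push_cast; ring
    rw [h2, Complex.ofReal_re]
    have h3 : f * d * t * (f * s) = d * s * t * f ^ 2 := by ring
    rw [h3]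
    exact mul_neg_of_neg_of_pos h1 (by positivity)
  · intro _ hx _ z hz rz ez
    have h1 := fv.b2 hx z hz rz ez
    obtain ⟨d, hd⟩ := e3_real (e3_Df_im (P := P) (p := p) (l := l) hv.re hv.ne rz)
    rw [hd, hf, hVh, e3_re3] at h1
    rw [dB, hd, hf, hs, hVh]
    have h2 : (s : ℂ) * d * (f * s) * Vh = ((s * d * (f * s) * Vh : ℝ) : ℂ) := by push_cast; ring
    rw [h2, Complex.ofReal_re]
    have h3 : s * d * (f * s) * Vh = d * f * Vh * s ^ 2 := by ring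
    rw [h3]
    positivity
  · intro _ hy _ z hz rz ez
    have h1 := fw.b2 hy z hz rz ez
    obtain ⟨d, hd⟩ := e3_real (e3_Df_im (P := P) (p := p) (l := l) hw.re hw.ne rz)
    rw [hd, hs, hWh, e3_re3] at h1
    rw [dC, hd, hf, hs, hWh]
    have h2 : (f : ℂ) * d * (f * s) * Wh = ((f * d * (f * s) * Wh : ℝ) : ℂ) := by push_cast; ring
    rw [h2, Complex.ofReal_re]
    have h3 : f * d * (f * s) * Wh = d * s * Wh * f ^ 2 := by ring
    rw [h3]
    positivity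
  · intro hfull hx hy h0
    have h1 := hG (full_p hfull) (by rw [hx]; decide) (by rw [hy]; decide)
    rw [h0, zero_mul, zero_mul, Complex.zero_re] at h1
    exact lt_irrefl _ h1
  · intro hfull hx hy z hz rz ez z' hz' rz' ez'
    have hp1 := full_p hfull
    have h1 := fv.b4 hx hp1 z hz rz ez
    have h2 := fw.b2 hy z' hz' rz' ez'
    have h3 := fw.b6 hy hp1
    have h4 := hG hp1 (by rw [hx]; decide) (by rw [hy]; decide)
    obtain ⟨d, hd⟩ := e3_real (e3_Df_im (P := P) (p := p) (l := l) hv.re hv.ne rz)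
    obtain ⟨d', hd'⟩ := e3_real (e3_Df_im (P := P) (p := p) (l := l) hw.re hw.ne rz')
    rw [hd, hf, hV0, e3_re3] at h1
    rw [hd', hs, hWh, e3_re3] at h2
    rw [hW0, hWh, ← Complex.ofReal_mul, Complex.ofReal_re] at h3
    rw [hV0, hW0, e3_reG'] at h4
    rw [dB, dC, hd, hd', ← Complex.ofReal_mul, ← Complex.ofReal_mul, e3_reG]
    refine e3_neg (b := V0 * Wh * W0) ?_
    have h5 : s * d * (f * d') * G.re * (V0 * Wh * W0) ^ 2
        = (d * f * V0) * ((d' * s * Wh) * ((W0 * Wh) * (G.re * V0 * W0))) := by ring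
    rw [h5]
    exact mul_neg_of_neg_of_pos h1 (mul_pos h2 (mul_pos h3 h4))
  · intro hfull hx hy z hz rz ez z' hz' rz' ez'
    have hp1 := full_p hfull
    have h1 := fw.b4 hy hp1 z' hz' rz' ez'
    have h2 := fv.b2 hx z hz rz ez
    have h3 := fv.b6 hx hp1
    have h4 := hG hp1 (by rw [hx]; decide) (by rw [hy]; decide)
    obtain ⟨d, hd⟩ := e3_real (e3_Df_im (P := P) (p := p) (l := l) hv.re hv.ne rz)
    obtain ⟨d', hd'⟩ := e3_real (e3_Df_im (P := P) (p := p) (l := l) hw.re hw.ne rz')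
    rw [hd', hs, hW0, e3_re3] at h1
    rw [hd, hf, hVh, e3_re3] at h2
    rw [hV0, hVh, ← Complex.ofReal_mul, Complex.ofReal_re] at h3
    rw [hV0, hW0, e3_reG'] at h4
    rw [dB, dC, hd, hd', ← Complex.ofReal_mul, ← Complex.ofReal_mul, e3_reG]
    refine e3_neg (b := W0 * Vh * V0) ?_
    have h5 : s * d * (f * d') * G.re * (W0 * Vh * V0) ^ 2
        = (d' * s * W0) * ((d * f * Vh) * ((V0 * Vh) * (G.re * V0 * W0))) := by ring
    rw [h5]
    exact mul_neg_of_neg_of_pos h1 (mul_pos h2 (mul_pos h3 h4))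
  · intro hfull hx hy
    rw [hVh, hWh, e3_reG']
    rcases Nat.eq_zero_or_pos p with hp0 | hp1
    · have h1 := (hG0 hp0).2
      have h2 := fv.b7 hx hp0
      have h3 := fw.b7 hy hp0
      obtain ⟨Vl, hVl⟩ := e3_real (pr_re (tau P n2 (P.g 0) l) hv.re)
      obtain ⟨Wl, hWl⟩ := e3_real (pr_re (tau P n3 (P.g 0) l) hw.re)
      rw [hVl, hWl, e3_reG'] at h1
      rw [hVl, hVh, ← Complex.ofReal_mul, Complex.ofReal_re] at h2
      rw [hWl, hWh, ← Complex.ofReal_mul, Complex.ofReal_re] at h3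
      refine e3_pos (b := Vl * Wl) ?_
      have h5 : G.re * Vh * Wh * (Vl * Wl) ^ 2
          = (G.re * Vl * Wl) * ((Vl * Vh) * (Wl * Wh)) := by ring
      rw [h5]
      exact mul_pos h1 (mul_pos h2 h3)
    · have h1 := hG hp1 (by rw [hx]; decide) (by rw [hy]; decide)
      have h2 := fv.b6 hx hp1
      have h3 := fw.b6 hy hp1
      rw [hV0, hW0, e3_reG'] at h1
      rw [hV0, hVh, ← Complex.ofReal_mul, Complex.ofReal_re] at h2
      rw [hW0, hWh, ← Complex.ofReal_mul, Complex.ofReal_re] at h3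
      refine e3_pos (b := V0 * W0) ?_
      have h5 : G.re * Vh * Wh * (V0 * W0) ^ 2
          = (G.re * V0 * W0) * ((V0 * Vh) * (W0 * Wh)) := by ring
      rw [h5]
      exact mul_pos h1 (mul_pos h2 h3)

/-! ### Scaling -/

private theorem e3_bfB {B C : Type} [Fintype B] [Fintype C] (F : B → C → ℝ) (s : ℂ) (w : C → ℂ) :
    bfB F (s • w) = s • bfB F w := by
  funext b
  simp only [bfB, Pi.smul_apply, smul_eq_mul, Finset.mul_sum]
  exact Finset.sum_congr rfl fun c _ => by ring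

private theorem e3_bfC {B C : Type} [Fintype B] [Fintype C] (F : B → C → ℝ) (r : ℂ) (v : B → ℂ) :
    bfC F (r • v) = r • bfC F v := by
  funext c
  simp only [bfC, Pi.smul_apply, smul_eq_mul, Finset.mul_sum]
  exact Finset.sum_congr rfl fun b _ => by ring

private theorem e3_bf {B C : Type} [Fintype B] [Fintype C] (F : B → C → ℝ) (r s : ℂ) (v : B → ℂ)
    (w : C → ℂ) : bf F (r • v) (s • w) = r * s * bf F v w := by
  simp only [bf, Pi.smul_apply, smul_eq_mul, Finset.mul_sum]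
  exact Finset.sum_congr rfl fun b _ => Finset.sum_congr rfl fun c _ => by ring

private theorem e3_dts {A : Type} [Fintype A] (r : ℂ) (x y : A → ℂ) :
    dt (r • x) y = r * dt x y := by
  simp only [dt, Pi.smul_apply, smul_eq_mul, Finset.mul_sum, mul_assoc]

private theorem e3_dfB {A : Type} [Fintype A] (φ : A → ℝ) (t β0 : ℂ) (v z : A → ℂ) :
    dt (fun b => (φ b : ℂ) * t - β0 * v b) z = pr φ z * t - β0 * dt v z := by
  unfold dt pr
  rw [Finset.mul_sum, Finset.sum_mul, ← Finset.sum_sub_distrib]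
  exact Finset.sum_congr rfl fun a _ => by ring

private theorem e3_dfC {A : Type} [Fintype A] (φ : A → ℝ) (t β0 : ℂ) (v z : A → ℂ) :
    dt (fun b => t * (φ b : ℂ) - β0 * v b) z = t * pr φ z - β0 * dt v z := by
  unfold dt pr
  rw [Finset.mul_sum, Finset.mul_sum, ← Finset.sum_sub_distrib]
  exact Finset.sum_congr rfl fun a _ => by ring

private theorem e3_sub {A : Type} [Fintype A] (x y z : A → ℂ) :
    dt (x - y) z = dt x z - dt y z := by
  simp only [dt, Pi.sub_apply, sub_mul, Finset.sum_sub_distrib]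

private theorem e3_sp {B C : Type} [Fintype B] [Fintype C] {F : B → C → ℝ}
    {X : Submodule ℂ (B → ℂ)} {Y : Submodule ℂ (C → ℂ)} {v : B → ℂ} {w : C → ℂ} {β γ r s : ℂ}
    (h : SP F X Y v w β γ) (hr : r ≠ 0) (hs : s ≠ 0) :
    SP F X Y (r • v) (s • w) (s * β / r) (r * γ / s) := by
  refine ⟨Submodule.smul_mem _ _ h.sv, Submodule.smul_mem _ _ h.sw, fun z hz => ?_,
    fun z hz => ?_⟩
  · rw [e3_bfB, e3_dts, e3_dts, h.e2 z hz]
    field_simp
  · rw [e3_bfC, e3_dts, e3_dts, h.e3 z hz]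
    field_simp

private theorem e3_ok {B C : Type} [Fintype B] [Fintype C] {F : B → C → ℝ}
    {X : Submodule ℂ (B → ℂ)} {Y : Submodule ℂ (C → ℂ)} {v : B → ℂ} {w : C → ℂ} {β γ r s : ℂ}
    (hr : r ≠ 0) (hs : s ≠ 0) (h : OkP F X Y (r • v) (s • w) (s * β / r) (r * γ / s)) :
    OkP F X Y v w β γ := by
  refine ⟨(MPb0eR.Rl_smul hr).1 h.rv, (MPb0eR.Rl_smul hs).1 h.rw', fun h0 => h.hF ?_, ?_⟩
  · rw [e3_bf, h0, mul_zero]
  · intro dv dw dβ dγ hv hw h2 h3
    obtain ⟨⟨t, ht⟩, t', ht'⟩ := h.nd (r • dv) (s • dw) (s * dβ / r) (r * dγ / s)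
      (Submodule.smul_mem _ _ hv) (Submodule.smul_mem _ _ hw) (fun z hz => by
        rw [e3_bfB, e3_dts, e3_dts, e3_dts, h2 z hz]
        field_simp) (fun z hz => by
        rw [e3_bfC, e3_dts, e3_dts, e3_dts, h3 z hz]
        field_simp)
    refine ⟨⟨t, ?_⟩, t', ?_⟩
    · rw [smul_comm] at ht
      exact (smul_right_injective _ hr) ht
    · rw [smul_comm] at ht'
      exact (smul_right_injective _ hs) ht'

private theorem e3_scale {x y : Fin 3} {i j : ℕ → ℕ} {v : Fin (n2 + 1) → ℂ}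
    {w : Fin (n3 + 1) → ℂ} {gB : Fin (n2 + 1) → ℂ} {gC : Fin (n3 + 1) → ℂ} {σ G : ℂ}
    {a b c d e f : ℝ} (k1 : 0 < c * a * e) (k2 : 0 < d * b * e) (k3 : 0 < c * d * f)
    (k4 : 0 < f * a * b) (h : Ob P n2 n3 full x y i j v w gB gC σ G) :
    Ob P n2 n3 full x y i j ((a : ℂ) • v) ((b : ℂ) • w) ((c : ℂ) • gB) ((d : ℂ) • gC)
      ((e : ℂ) * σ) ((f : ℂ) * G) := by
  have k5 : f ≠ 0 := fun h0 => by
    rw [h0, mul_zero] at k3
    exact lt_irrefl _ k3
  have hneg : ∀ {r : ℝ} {A B : ℂ}, 0 < r → B.re < 0 → A = (r : ℂ) * B → A.re < 0 := by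
    intro r A B hr hB hAB
    rw [hAB, Complex.re_ofReal_mul]
    exact mul_neg_of_pos_of_neg hr hB
  have hpos : ∀ {r : ℝ} {A B : ℂ}, 0 < r → 0 < B.re → A = (r : ℂ) * B → 0 < A.re := by
    intro r A B hr hB hAB
    rw [hAB, Complex.re_ofReal_mul]
    exact mul_pos hr hB
  refine ⟨fun p hp z hz hr h1 => hneg k1 (h.oB p hp z hz hr h1) ?_,
    fun p hp z hz hr h1 => hneg k2 (h.oC p hp z hz hr h1) ?_,
    fun a b c z hz hr h1 => hpos k1 (h.s2 a b c z hz hr h1) ?_,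
    fun a b c z hz hr h1 => hpos k2 (h.s1 a b c z hz hr h1) ?_,
    fun a b c => mul_ne_zero (Complex.ofReal_ne_zero.2 k5) (h.g0 a b c),
    fun a b c z hz hr h1 z' hz' hr' h1' => hneg k3 (h.t2 a b c z hz hr h1 z' hz' hr' h1') ?_,
    fun a b c z hz hr h1 z' hz' hr' h1' => hneg k3 (h.t3 a b c z hz hr h1 z' hz' hr' h1') ?_,
    fun a b c => hpos k4 (h.t1 a b c) ?_⟩
  all_goals
    simp only [e3_dts, pr_smul]
    push_cast
    ring

/-! ### Sequences -/

private theorem e3_mono {n : ℕ} {x : Fin 3} {i : ℕ → ℕ} {l : ℕ} {z : Fin (n + 1) → ℂ}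
    (h : z ∈ Xo P n x (at' i p (l + 1))) :
    z ∈ Xo P n x (at' i p l) ∧ pr (tau P n (P.g p) l) z = 0 := by
  refine ⟨⟨h.1, fun q k hk => h.2 q k (lt_of_lt_of_le hk ?_)⟩, h.2 p l ?_⟩
  · by_cases hq : q = p
    · subst hq
      rw [at', at', Function.update_self, Function.update_self]
      exact Nat.le_succ l
    · rw [at', at', Function.update_of_ne hq, Function.update_of_ne hq]
  · rw [at', Function.update_self]
    exact Nat.lt_succ_self l

private theorem e3_bv {n : ℕ} {x : Fin 3} {i : ℕ → ℕ} {l : ℕ} {v0 : Fin (n + 1) → ℂ} {c β0 : ℂ}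
    (hβ : β0 ≠ 0) (m : v0 ∈ Xo P n x (at' i p l)) (h0 : pr (tau P n (P.g p) l) v0 ≠ 0)
    (hr : Rea v0) (e : ∀ z ∈ Xo P n x (at' i p l), pr (tau P n (P.g p) l) z * c = β0 * dt v0 z) :
    Bv P n x i p l v0 := by
  refine ⟨m, fun h => h0 ?_, hr, fun z hz => ?_⟩
  · rw [h]
    simp [pr]
  · obtain ⟨h1, h2⟩ := e3_mono hz
    have h3 := e z h1
    rw [h2, zero_mul] at h3
    exact (mul_eq_zero.1 h3.symm).resolve_left hβ

private theorem e3_V0 {n : ℕ} {x : Fin 3} {i : ℕ → ℕ} {l : ℕ} {v : Fin (n + 1) → ℂ}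
    (h : BF P n x i p l v) (h1 : 1 ≤ p) (hx : x ≠ 0) : pr (tau P n (P.g 0) 0) v ≠ 0 := by
  have hx2 : x = 1 ∨ x = 2 := by
    fin_cases x
    · exact absurd rfl hx
    · exact Or.inl rfl
    · exact Or.inr rfl
  rcases hx2 with h2 | h2
  · intro h0
    have h3 := h.b6 h2 h1
    rw [h0, zero_mul, Complex.zero_re] at h3
    exact lt_irrefl _ h3
  · exact h.b5 h2 h1

private theorem e3_dtlim {n : ℕ} {v : ℕ → Fin (n + 1) → ℂ} {v0 : Fin (n + 1) → ℂ}
    (h : Tendsto v uf (𝓝 v0)) (z : Fin (n + 1) → ℂ) :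
    Tendsto (fun m => dt (v m) z) uf (𝓝 (dt v0 z)) := by
  have h1 : Continuous fun x : Fin (n + 1) → ℂ => dt x z := by
    unfold dt
    fun_prop
  exact (h1.tendsto v0).comp h

private theorem e3_A (hP : GoodP P N) (h1 : 1 ≤ p) (hp : p ≤ N) (h2 : BFs P N n2)
    (h3 : BFs P N n3) (hG : BG P T) {x y : Fin 3} {i j : ℕ → ℕ} (hM : Msk full x y)
    (hi : Adm (p + 1) N i) (hj : Adm (p + 1) N j) {f : ℕ → ℕ → ℝ}
    (hf : Hi (min n2 n3) (-1) f) {ib : Fin (n2 + 1)} {ic : Fin (n3 + 1)}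
    {v : ℕ → Fin (n2 + 1) → ℂ} {w : ℕ → Fin (n3 + 1) → ℂ} {β γ : ℕ → ℂ}
    (ht : ∀ n, SP (rw0 (tau P n2 (P.g p)) (tau P n3 (P.g p)) (min n2 n3) (f n))
      (Xo P n2 x i) (Xo P n3 y j) (v n) (w n) (β n) (γ n))
    (nv : ∀ n, Nrm (v n) ib) (nw : ∀ n, Nrm (w n) ic) :
    (∀ᶠ n in uf, OkP (rw0 (tau P n2 (P.g p)) (tau P n3 (P.g p)) (min n2 n3) (f n))
      (Xo P n2 x i) (Xo P n3 y j) (v n) (w n) (β n) (γ n)) ∧
    ∀ᶠ n in uf, Ob P n2 n3 full x y i j (v n) (w n)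
      (bfB (rw0 (tau P n2 (P.g p)) (tau P n3 (P.g p)) (min n2 n3) (f n)) (w n) - β n • v n)
      (bfC (rw0 (tau P n2 (P.g p)) (tau P n3 (P.g p)) (min n2 n3) (f n)) (v n) - γ n • w n)
      (bf (rw0 (tau P n2 (P.g p)) (tau P n3 (P.g p)) (min n2 n3) (f n)) (v n) (w n))
      (c1 T (v n) (w n) 0) := by
  have i0 : i p = 0 := by
    by_contra h
    have := (hi p h).1
    omega
  have j0 : j p = 0 := by
    by_contra h
    have := (hj p h).1
    omega
  have iN : ∀ q, N < q → i q = 0 := by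
    intro q hq
    by_contra h
    have := (hi q h).2
    omega
  have jN : ∀ q, N < q → j q = 0 := by
    intro q hq
    by_contra h
    have := (hj q h).2
    omega
  obtain ⟨zX, fX⟩ := flag hP n2 x iN hp i0
  obtain ⟨zY, fY⟩ := flag hP n3 y jN hp j0
  have hm : min (n2 + 1 - dg N x i) (n3 + 1 - dg N y j) ≤ min n2 n3 + 1 := by omega
  refine ⟨pa_ok (Xo_cj P n2 x i) (Xo_cj P n3 y j) fX fY hm hf ht nv nw, ?_⟩
  obtain ⟨l, v0, w0, β0, γ0, lX, lY, lv, lw, lβ, lγ, nβ, nγ, mv, mw, pv, pw, rv, rw0', eB, eC,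
    LB, LC⟩ := pa_lim (Xo_cj P n2 x i) (Xo_cj P n3 y j) fX fY hm hf ht nv nw
  have hinj : ∀ p', p' ≠ p → P.g p' = P.g p → False := fun p' h e => hP.inj h e
  rw [Xi_Xo P n2 x i0 l hinj] at mv eB
  rw [Xi_Xo P n3 y j0 l hinj] at mw eC
  have bv : Bv P n2 x i p l v0 := e3_bv nβ mv pv rv eB
  have bw : Bv P n3 y j p l w0 := e3_bv (c := pr (tau P n2 (P.g p) l) v0) nγ mw pw rw0'
    fun z hz => by rw [mul_comm]; exact eC z hz
  have fv := h2 x i p l v0 hp hi bv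
  have fw := h3 y j p l w0 hp hj bw
  have ob := e3_base hP hp hM bv bw fv fw (G := c1 T v0 w0 0) eB eC
    (fun _ hx hy => hG x y i j p l v0 w0 hx hy h1 hp hi hj bv bw (e3_V0 fv h1 hx)
      (e3_V0 fw h1 hy)) (fun h => absurd h (by omega))
  have fl : ∀ n, (f n l : ℂ) ≠ 0 := fun n =>
    Complex.ofReal_ne_zero.2 (hf.ne n l (by omega))
  have nev : v0 ≠ 0 := bv.ne
  have new : w0 ≠ 0 := bw.ne
  have key := ob_limN hP hi hj hp (k := l) (k' := l) (v := v) (w := w)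
    (gB := fun n => (f n l : ℂ)⁻¹ •
      (bfB (rw0 (tau P n2 (P.g p)) (tau P n3 (P.g p)) (min n2 n3) (f n)) (w n) - β n • v n))
    (gC := fun n => (f n l : ℂ)⁻¹ •
      (bfC (rw0 (tau P n2 (P.g p)) (tau P n3 (P.g p)) (min n2 n3) (f n)) (v n) - γ n • w n))
    (σ := fun n => (f n l : ℂ)⁻¹ *
      bf (rw0 (tau P n2 (P.g p)) (tau P n3 (P.g p)) (min n2 n3) (f n)) (v n) (w n))
    (G := fun n => c1 T (v n) (w n) 0)
    (fun h => nev ((Submodule.mem_bot ℂ).1 (h ▸ mv)))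
    (fun h => new ((Submodule.mem_bot ℂ).1 (h ▸ mw)))
    (fun n z hz => by rw [e3_dts, e3_sub, e3_dts, (ht n).e2 z hz, sub_self, mul_zero])
    (fun n z hz => by rw [e3_dts, e3_sub, e3_dts, (ht n).e3 z hz, sub_self, mul_zero])
    lv lw ?_ (MPb0eR.lim_c1 lv lw 0) (fun z hz => ?_) (fun z hz => ?_) ob
  · filter_upwards [key] with n hn
    have hfr : f n l ≠ 0 := hf.ne n l (by omega)
    have hsq : 0 < f n l * f n l := mul_self_pos.2 hfr
    have h4 := e3_scale (a := 1) (b := 1) (c := f n l) (d := f n l) (e := f n l) (f := 1)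
      (by rw [mul_one]; exact hsq) (by rw [mul_one]; exact hsq) (by rw [mul_one]; exact hsq)
      (by norm_num) hn
    rw [Complex.ofReal_one, one_smul, one_smul, one_mul, smul_smul, smul_smul, ← mul_assoc,
      mul_inv_cancel₀ (fl n), one_smul, one_smul, one_mul] at h4
    exact h4
  · have h4 : Tendsto (fun n => β n / f n l * q (v n)) uf (𝓝 (β0 * q v0)) :=
      lβ.mul (MPb0eR.lim_q lv)
    rw [← dt_self, ← eB v0 mv] at h4
    refine h4.congr fun n => ?_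
    rw [← dt_bfB, (ht n).e2 _ (ht n).sv, dt_self]
    field_simp
  · have h4 := (LB z hz).sub (lβ.mul (e3_dtlim lv z))
    rw [e3_dfB]
    refine h4.congr fun n => ?_
    rw [e3_dts, e3_sub, e3_dts, dt_bfB]
    field_simp
  · have h4 := (LC z hz).sub (lγ.mul (e3_dtlim lw z))
    rw [e3_dfC]
    refine h4.congr fun n => ?_
    rw [e3_dts, e3_sub, e3_dts, dt_bfC]
    field_simp

/-- One choice of masks, orders and normalisations. -/
private theorem e3_B (hP : GoodP P N) (h1 : 1 ≤ p) (hp : p ≤ N) (h2 : BFs P N n2)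
    (h3 : BFs P N n3) (hG : BG P T) {x y : Fin 3} {i j : ℕ → ℕ} (hM : Msk full x y)
    (hi : Adm (p + 1) N i) (hj : Adm (p + 1) N j) (ib : Fin (n2 + 1)) (ic : Fin (n3 + 1)) :
    ∀ᶠ δ in 𝓝[>] (0 : ℝ), ∀ v w β γ,
      SP (row P n2 n3 (P.g p) 1 (-δ)) (Xo P n2 x i) (Xo P n3 y j) v w β γ → Nrm v ib → Nrm w ic →
      OkP (row P n2 n3 (P.g p) 1 (-δ)) (Xo P n2 x i) (Xo P n3 y j) v w β γ ∧
      Ob P n2 n3 full x y i j v w
        (bfB (row P n2 n3 (P.g p) 1 (-δ)) w - β • v)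
        (bfC (row P n2 n3 (P.g p) 1 (-δ)) v - γ • w) (bf (row P n2 n3 (P.g p) 1 (-δ)) v w)
        (c1 T v w 0) := by
  by_contra hc
  have hc1 := (Filter.not_eventually.1 hc).and_eventually
    (self_mem_nhdsWithin : Set.Ioi (0 : ℝ) ∈ 𝓝[>] (0 : ℝ))
  obtain ⟨δ, lδ, hδ⟩ := Filter.exists_seq_forall_of_frequently hc1
  have h4 : ∀ n, ∃ v w β γ,
      SP (row P n2 n3 (P.g p) 1 (-δ n)) (Xo P n2 x i) (Xo P n3 y j) v w β γ ∧ Nrm v ib ∧
      Nrm w ic ∧ ¬ (OkP (row P n2 n3 (P.g p) 1 (-δ n)) (Xo P n2 x i) (Xo P n3 y j) v w β γ ∧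
      Ob P n2 n3 full x y i j v w
        (bfB (row P n2 n3 (P.g p) 1 (-δ n)) w - β • v)
        (bfC (row P n2 n3 (P.g p) 1 (-δ n)) v - γ • w) (bf (row P n2 n3 (P.g p) 1 (-δ n)) v w)
        (c1 T v w 0)) := by
    intro n
    by_contra h
    refine (hδ n).1 fun v w β γ a b c => ?_
    by_contra h'
    exact h ⟨v, w, β, γ, a, b, c, h'⟩
  choose v w β γ ht nv nw hn using h4
  have l1 : Tendsto δ uf (𝓝 0) :=
    (lδ.mono_right nhdsWithin_le_nhds).mono_left Nat.hyperfilter_le_atTop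
  have hH := (hi_row (min n2 n3) one_pos l1 fun n => (hδ n).2).2
  simp only [row_eq] at ht hn
  have h5 := e3_A hP h1 hp h2 h3 hG hM hi hj hH ht nv nw
  obtain ⟨n, h6⟩ := (h5.1.and h5.2).exists
  exact hn n h6

private theorem e3_dg {n : ℕ} {x : Fin 3} {i : ℕ → ℕ} (hP : GoodP P N) (hi : Adm (p + 1) N i)
    {v : Fin (n + 1) → ℂ} (hv : v ∈ Xo P n x i) (h0 : v ≠ 0) (q : ℕ) : i q < n + 1 := by
  by_contra h
  have iN : ∀ q, N < q → i q = 0 := by
    intro q hq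
    by_contra h'
    have := (hi q h').2
    omega
  have hq : q ≤ N := by
    by_contra h'
    have := iN q (by omega)
    omega
  have hle : i q ≤ ∑ q ∈ Finset.range (N + 1), i q :=
    Finset.single_le_sum (f := i) (fun _ _ => Nat.zero_le _) (Finset.mem_range.2 (by omega))
  have hd : n < dg N x i := by
    unfold dg
    omega
  rw [Xo_bot hP n x iN hd] at hv
  exact h0 ((Submodule.mem_bot ℂ).1 hv)

/-- Extension of finitely many orders by zero. -/
private def e3_ex {N n : ℕ} (g : Fin (N + 1) → Fin (n + 1)) : ℕ → ℕ :=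
  fun q => if h : q < N + 1 then (g ⟨q, h⟩ : ℕ) else 0

private theorem e3_ex_eq {n : ℕ} {x : Fin 3} {i : ℕ → ℕ} (hP : GoodP P N)
    (hi : Adm (p + 1) N i) {v : Fin (n + 1) → ℂ} (hv : v ∈ Xo P n x i) (h0 : v ≠ 0) :
    ∃ g : Fin (N + 1) → Fin (n + 1), e3_ex g = i := by
  refine ⟨fun q => ⟨i q, e3_dg hP hi hv h0 q⟩, ?_⟩
  funext q
  unfold e3_ex
  split_ifs with h
  · rfl
  · by_contra h'
    have := (hi q fun h'' => h' h''.symm).2
    omega

private theorem e3_rr {A : Type} {r : ℂ} {v : A → ℂ} {ib : A} (hv : Rea v)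
    (h : (r • v) ib = 1) : ∃ a : ℝ, r = (a : ℂ) := by
  rw [Pi.smul_apply, smul_eq_mul] at h
  obtain ⟨c, hc⟩ := e3_real (hv ib)
  refine ⟨c⁻¹, ?_⟩
  rw [hc] at h
  rw [Complex.ofReal_inv]
  exact eq_inv_of_mul_eq_one_left h

/-- For a small hierarchical row `p ≥ 1`, all singular pairs for all masks are real and
nondegenerate and satisfy the sign conditions.

Proof. By contradiction with sequences as in `e2_all`. `pa_ok` gives `OkP`. For the sign conditions: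
`pa_lim` gives `l` and the limits, which are base vectors (`Bv`: `dt v0 z = 0` for
`z ∈ Xo x (at' i p (l+1))` because the Taylor coefficient of order `l` vanishes there and `β0 ≠
0`), so
`BFs`, `BG`, `e3_base` apply, and `ob_lim` with `gB n = (F (., w) - β v) / f l`, `σ n = F (v, w) /
f l` gives
`Ob` for the scaled data; the sign of `f l` does not matter, because the conditions are quadratic in
`(gB, gC, σ)`. -/
theorem e3_all (hP : GoodP P N) (h1 : 1 ≤ p) (hp : p ≤ N) (h2 : BFs P N n2) (h3 : BFs P N n3)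
    (hG : BG P T) :
    ∀ᶠ δ in 𝓝[>] (0 : ℝ), ∀ (x y : Fin 3) (i j : ℕ → ℕ), Msk full x y → Adm (p + 1) N i →
      Adm (p + 1) N j → ∀ v w β γ,
      SP (row P n2 n3 (P.g p) 1 (-δ)) (Xo P n2 x i) (Xo P n3 y j) v w β γ → v ≠ 0 → w ≠ 0 →
      OkP (row P n2 n3 (P.g p) 1 (-δ)) (Xo P n2 x i) (Xo P n3 y j) v w β γ ∧
      (Rea v → Rea w → Ob P n2 n3 full x y i j v w
        (bfB (row P n2 n3 (P.g p) 1 (-δ)) w - β • v)
        (bfC (row P n2 n3 (P.g p) 1 (-δ)) v - γ • w) (bf (row P n2 n3 (P.g p) 1 (-δ)) v w)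
        (c1 T v w 0)) := by
  have key : ∀ᶠ δ in 𝓝[>] (0 : ℝ), ∀ (x y : Fin 3) (g : Fin (N + 1) → Fin (n2 + 1))
      (g' : Fin (N + 1) → Fin (n3 + 1)) (ib : Fin (n2 + 1)) (ic : Fin (n3 + 1)),
      Msk full x y → Adm (p + 1) N (e3_ex g) → Adm (p + 1) N (e3_ex g') → ∀ v w β γ,
      SP (row P n2 n3 (P.g p) 1 (-δ)) (Xo P n2 x (e3_ex g)) (Xo P n3 y (e3_ex g')) v w β γ →
      Nrm v ib → Nrm w ic →
      OkP (row P n2 n3 (P.g p) 1 (-δ)) (Xo P n2 x (e3_ex g)) (Xo P n3 y (e3_ex g')) v w β γ ∧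
      Ob P n2 n3 full x y (e3_ex g) (e3_ex g') v w
        (bfB (row P n2 n3 (P.g p) 1 (-δ)) w - β • v)
        (bfC (row P n2 n3 (P.g p) 1 (-δ)) v - γ • w) (bf (row P n2 n3 (P.g p) 1 (-δ)) v w)
        (c1 T v w 0) := by
    simp only [Filter.eventually_all]
    intro x y g g' ib ic hM hi hj
    exact e3_B hP h1 hp h2 h3 hG hM hi hj ib ic
  filter_upwards [key] with δ hδ x y i j hM hi hj v w β γ h hv hw
  obtain ⟨g, rfl⟩ := e3_ex_eq hP hi h.sv hv
  obtain ⟨g', rfl⟩ := e3_ex_eq hP hj h.sw hw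
  obtain ⟨r, ib, hr, nr⟩ := MPb0eR.exists_nrm hv
  obtain ⟨s, ic, hs, ns⟩ := MPb0eR.exists_nrm hw
  obtain ⟨ok, ob⟩ := hδ x y g g' ib ic hM hi hj _ _ _ _ (e3_sp h hr hs) nr ns
  refine ⟨e3_ok hr hs ok, fun rv rw' => ?_⟩
  obtain ⟨a, rfl⟩ := e3_rr rv nr.1
  obtain ⟨b, rfl⟩ := e3_rr rw' ns.1
  have ha : a ≠ 0 := fun h0 => hr (by rw [h0, Complex.ofReal_zero])
  have hb : b ≠ 0 := fun h0 => hs (by rw [h0, Complex.ofReal_zero])
  have hab : 0 < a⁻¹ ^ 2 * b⁻¹ ^ 2 := by positivity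
  have h4 := e3_scale (a := a⁻¹) (b := b⁻¹) (c := b⁻¹) (d := a⁻¹) (e := a⁻¹ * b⁻¹)
    (f := a⁻¹ * b⁻¹) (by linarith [hab]) (by linarith [hab]) (by linarith [hab])
    (by linarith [hab]) ob
  have e1 : ((a⁻¹ : ℝ) : ℂ) • (a : ℂ) • v = v := by
    rw [smul_smul, ← Complex.ofReal_mul, inv_mul_cancel₀ ha, Complex.ofReal_one, one_smul]
  have e2 : ((b⁻¹ : ℝ) : ℂ) • (b : ℂ) • w = w := by
    rw [smul_smul, ← Complex.ofReal_mul, inv_mul_cancel₀ hb, Complex.ofReal_one, one_smul]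
  rw [e1, e2] at h4
  have ha' : (a : ℂ) ≠ 0 := Complex.ofReal_ne_zero.2 ha
  have hb' : (b : ℂ) ≠ 0 := Complex.ofReal_ne_zero.2 hb
  have e3 : ((b⁻¹ : ℝ) : ℂ) • (bfB (row P n2 n3 (P.g p) 1 (-δ)) ((b : ℂ) • w)
      - ((b : ℂ) * β / a) • (a : ℂ) • v) = bfB (row P n2 n3 (P.g p) 1 (-δ)) w - β • v := by
    rw [e3_bfB, smul_sub, smul_smul, smul_smul, smul_smul, ← Complex.ofReal_mul,
      inv_mul_cancel₀ hb, Complex.ofReal_one, one_smul]
    congr 2
    rw [Complex.ofReal_inv]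
    field_simp
  have e4 : ((a⁻¹ : ℝ) : ℂ) • (bfC (row P n2 n3 (P.g p) 1 (-δ)) ((a : ℂ) • v)
      - ((a : ℂ) * γ / b) • (b : ℂ) • w) = bfC (row P n2 n3 (P.g p) 1 (-δ)) v - γ • w := by
    rw [e3_bfC, smul_sub, smul_smul, smul_smul, smul_smul, ← Complex.ofReal_mul,
      inv_mul_cancel₀ ha, Complex.ofReal_one, one_smul]
    congr 2
    rw [Complex.ofReal_inv]
    field_simp
  have e5 : ((a⁻¹ * b⁻¹ : ℝ) : ℂ) * bf (row P n2 n3 (P.g p) 1 (-δ)) ((a : ℂ) • v) ((b : ℂ) • w)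
      = bf (row P n2 n3 (P.g p) 1 (-δ)) v w := by
    rw [e3_bf, Complex.ofReal_mul, Complex.ofReal_inv, Complex.ofReal_inv]
    field_simp
  have e6 : ((a⁻¹ * b⁻¹ : ℝ) : ℂ) * c1 T ((a : ℂ) • v) ((b : ℂ) • w) 0 = c1 T v w 0 := by
    rw [MPb0eR.c1_smul_left, MPb0eR.c1_smul_right, Complex.ofReal_mul, Complex.ofReal_inv,
      Complex.ofReal_inv]
    field_simp
  rw [e3, e4, e5, e6] at h4
  exact h4

end

end Pool.Agent.MPb0eK
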