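import Mathlib
import Pool.Agent.Lib.MP_b0e20b_ag_K.E3
import Pool.Agent.Lib.MP_b0e20b_ag_K.Rig

/-!
# MP_b0e20b_ag, project K: the start of the induction: the row 0
-/

set_option autoImplicit false

open scoped BigOperators Topology
open Filter

namespace Pool.Agent.MPb0eK

open MPb0eR (c1 c2 c3 tr q Sup Rl Rea uf Nrm cj AF scl)

section

variable {P : Par} {N n2 n3 : ℕ}

/-- The tensor with the row `0` only. -/
noncomputable def T00 (P : Par) (N n2 n3 : ℕ) (δ : ℝ) : Fin (N + 1) → Fin (n2 + 1) → Fin (n3 + 1) →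
    ℝ :=
  fun a => if a = 0 then row P n2 n3 (P.g 0) 1 δ else 0

private theorem s0_SRf : SR N false 1 = ∅ := by
  ext a
  simp only [SR, Finset.mem_filter, Finset.mem_univ, true_and, Finset.notMem_empty, iff_false]
  rintro ⟨h1, h2⟩
  rcases h1 with h1 | h1
  · exact absurd h1 (by decide)
  · exact h1 (Fin.ext (by simpa using h2))

private theorem s0_SRt : SR N true 1 = {0} := by
  ext a
  simp only [SR, Finset.mem_filter, Finset.mem_univ, true_and, Finset.mem_singleton, true_or]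
  constructor
  · intro h2
    exact Fin.ext (by simpa using h2)
  · rintro rfl
    simp

/-- Homogeneity of the sign conditions. -/
private theorem s0_Ob {full : Bool} {x y : Fin 3} {i j : ℕ → ℕ} {v : Fin (n2 + 1) → ℂ}
    {w : Fin (n3 + 1) → ℂ} {gB : Fin (n2 + 1) → ℂ} {gC : Fin (n3 + 1) → ℂ} {σ G : ℂ}
    {r t B C s g : ℝ} (h1 : 0 < B * r * s) (h2 : 0 < C * t * s) (h3 : 0 < B * C * g)
    (h4 : 0 < g * r * t) (h : Ob P n2 n3 full x y i j v w gB gC σ G) :
    Ob P n2 n3 full x y i j ((r : ℂ) • v) ((t : ℂ) • w) ((B : ℂ) • gB) ((C : ℂ) • gC)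
      ((s : ℂ) * σ) ((g : ℂ) * G) := by
  have hg : g ≠ 0 := by
    rintro rfl
    simp at h4
  refine ⟨?_, ?_, ?_, ?_, ?_, ?_, ?_, ?_⟩
  · intro p hp z hz rz ez
    have e : dt ((B : ℂ) • gB) z * pr (tau P n2 (P.g p) (i p)) ((r : ℂ) • v) * ((s : ℂ) * σ) =
        ((B * r * s : ℝ) : ℂ) * (dt gB z * pr (tau P n2 (P.g p) (i p)) v * σ) := by
      rw [dt_smul_left, pr_smul]
      push_cast
      ring
    rw [e, Complex.re_ofReal_mul]
    exact mul_neg_of_pos_of_neg h1 (h.oB p hp z hz rz ez)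
  · intro p hp z hz rz ez
    have e : dt ((C : ℂ) • gC) z * pr (tau P n3 (P.g p) (j p)) ((t : ℂ) • w) * ((s : ℂ) * σ) =
        ((C * t * s : ℝ) : ℂ) * (dt gC z * pr (tau P n3 (P.g p) (j p)) w * σ) := by
      rw [dt_smul_left, pr_smul]
      push_cast
      ring
    rw [e, Complex.re_ofReal_mul]
    exact mul_neg_of_pos_of_neg h2 (h.oC p hp z hz rz ez)
  · intro hf hx hy z hz rz ez
    have e : dt ((B : ℂ) • gB) z * ((s : ℂ) * σ) * pr (hv P n2) ((r : ℂ) • v) =
        ((B * r * s : ℝ) : ℂ) * (dt gB z * σ * pr (hv P n2) v) := by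
      rw [dt_smul_left, pr_smul]
      push_cast
      ring
    rw [e, Complex.re_ofReal_mul]
    exact mul_pos h1 (h.s2 hf hx hy z hz rz ez)
  · intro hf hx hy z hz rz ez
    have e : dt ((C : ℂ) • gC) z * ((s : ℂ) * σ) * pr (hv P n3) ((t : ℂ) • w) =
        ((C * t * s : ℝ) : ℂ) * (dt gC z * σ * pr (hv P n3) w) := by
      rw [dt_smul_left, pr_smul]
      push_cast
      ring
    rw [e, Complex.re_ofReal_mul]
    exact mul_pos h2 (h.s1 hf hx hy z hz rz ez)
  · intro hf hx hy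
    exact mul_ne_zero (Complex.ofReal_ne_zero.2 hg) (h.g0 hf hx hy)
  · intro hf hx hy z hz rz ez z' hz' rz' ez'
    have e : dt ((B : ℂ) • gB) z * dt ((C : ℂ) • gC) z' * ((g : ℂ) * G) =
        ((B * C * g : ℝ) : ℂ) * (dt gB z * dt gC z' * G) := by
      rw [dt_smul_left, dt_smul_left]
      push_cast
      ring
    rw [e, Complex.re_ofReal_mul]
    exact mul_neg_of_pos_of_neg h3 (h.t2 hf hx hy z hz rz ez z' hz' rz' ez')
  · intro hf hx hy z hz rz ez z' hz' rz' ez'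
    have e : dt ((B : ℂ) • gB) z * dt ((C : ℂ) • gC) z' * ((g : ℂ) * G) =
        ((B * C * g : ℝ) : ℂ) * (dt gB z * dt gC z' * G) := by
      rw [dt_smul_left, dt_smul_left]
      push_cast
      ring
    rw [e, Complex.re_ofReal_mul]
    exact mul_neg_of_pos_of_neg h3 (h.t3 hf hx hy z hz rz ez z' hz' rz' ez')
  · intro hf hx hy
    have e : (g : ℂ) * G * pr (hv P n2) ((r : ℂ) • v) * pr (hv P n3) ((t : ℂ) • w) =
        ((g * r * t : ℝ) : ℂ) * (G * pr (hv P n2) v * pr (hv P n3) w) := by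
      rw [pr_smul, pr_smul]
      push_cast
      ring
    rw [e, Complex.re_ofReal_mul]
    exact mul_pos h4 (h.t1 hf hx hy)

private theorem s0_up {n : ℕ} {x : Fin 3} {i : ℕ → ℕ} {p l : ℕ} {v : Fin (n + 1) → ℂ}
    (hv : v ∈ Xo P n x (at' i p l)) (h0 : pr (tau P n (P.g p) l) v = 0) :
    v ∈ Xo P n x (at' i p (l + 1)) := by
  refine ⟨hv.1, fun p' l' hl' => ?_⟩
  by_cases hp : p' = p
  · subst hp
    have h1 : l' < l + 1 := by simpa [at'] using hl'
    rcases Nat.lt_or_ge l' l with h2 | h2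
    · exact hv.2 p' l' (by simpa [at'] using h2)
    · have h3 : l' = l := by omega
      rw [h3]
      exact h0
  · refine hv.2 p' l' ?_
    rw [at', Function.update_of_ne hp] at hl' ⊢
    exact hl'

private theorem s0_tne {n : ℕ} {x : Fin 3} {i : ℕ → ℕ} {p l : ℕ} {v : Fin (n + 1) → ℂ}
    (hv : Bv P n x i p l v) : pr (tau P n (P.g p) l) v ≠ 0 := by
  intro h0
  have h1 := hv.orth v (s0_up hv.mem h0)
  rw [dt_self] at h1
  have h2 := (q_rea_pos hv.re hv.ne).1
  rw [h1, Complex.zero_re] at h2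
  exact lt_irrefl _ h2

private theorem s0_rea {A : Type} {u : A → ℂ} (h : Rea u) (c : ℝ) : Rea ((c : ℂ) • u) := by
  intro a
  rw [Pi.smul_apply, smul_eq_mul, Complex.im_ofReal_mul, h a, mul_zero]

private theorem s0_uniq {n : ℕ} {x : Fin 3} {i : ℕ → ℕ} {p l : ℕ} {v v' : Fin (n + 1) → ℂ}
    (hv : Bv P n x i p l v) (hv' : Bv P n x i p l v') : ∃ c : ℝ, c ≠ 0 ∧ v' = (c : ℂ) • v := by
  obtain ⟨τ, hτ⟩ : ∃ τ, τ = tau P n (P.g p) l := ⟨_, rfl⟩
  have t1 := s0_tne hv
  have t2 := s0_tne hv'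
  have r1 := pr_re (tau P n (P.g p) l) hv.re
  have r2 := pr_re (tau P n (P.g p) l) hv'.re
  rw [← hτ] at t1 t2 r1 r2
  have e1 : pr τ v = ((pr τ v).re : ℂ) := Complex.ext rfl (by rw [r1, Complex.ofReal_im])
  have e2 : pr τ v' = ((pr τ v').re : ℂ) := Complex.ext rfl (by rw [r2, Complex.ofReal_im])
  have n1 : (pr τ v).re ≠ 0 := fun h => t1 (by rw [e1, h, Complex.ofReal_zero])
  have n2 : (pr τ v').re ≠ 0 := fun h => t2 (by rw [e2, h, Complex.ofReal_zero])
  obtain ⟨c, hc⟩ : ∃ c : ℝ, c = (pr τ v').re / (pr τ v).re := ⟨_, rfl⟩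
  have hc0 : c ≠ 0 := by
    rw [hc]
    exact div_ne_zero n2 n1
  have hcv : (c : ℂ) * pr τ v = pr τ v' := by
    rw [e1, e2, ← Complex.ofReal_mul, hc, div_mul_cancel₀ _ n1]
  obtain ⟨z, hz⟩ : ∃ z, z = v' + ((-c : ℝ) : ℂ) • v := ⟨_, rfl⟩
  have hzr : Rea z := by
    intro a
    rw [hz, Pi.add_apply, Complex.add_im, hv'.re a, s0_rea hv.re (-c) a, add_zero]
  have hzm : z ∈ Xo P n x (at' i p (l + 1)) := by
    refine s0_up ?_ ?_
    · rw [hz]
      exact add_mem hv'.mem (Submodule.smul_mem _ _ hv.mem)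
    · rw [← hτ, hz, pr_add, pr_smul, Complex.ofReal_neg, neg_mul, hcv, add_neg_cancel]
  have h1 : dt z z = 0 := by
    have h2 : dt z z = dt v' z + ((-c : ℝ) : ℂ) * dt v z := by
      nth_rewrite 1 [hz]
      rw [dt_add_left, dt_smul_left]
    rw [h2, hv'.orth z hzm, hv.orth z hzm, mul_zero, add_zero]
  have h3 : z = 0 := by
    by_contra hne
    rw [dt_self] at h1
    have h4 := (q_rea_pos hzr hne).1
    rw [h1, Complex.zero_re] at h4
    exact lt_irrefl _ h4
  refine ⟨c, hc0, ?_⟩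
  have h5 : v' = z - ((-c : ℝ) : ℂ) • v := by rw [hz, add_sub_cancel_right]
  rw [h5, h3, zero_sub, Complex.ofReal_neg, neg_smul, neg_neg]

/-- The orders given by a function on a finite type. -/
private def s0_dec (M n : ℕ) (f : Fin M → Fin n) : ℕ → ℕ :=
  fun p => if h : p < M then (f ⟨p, h⟩ : ℕ) else 0

private theorem s0_enum {n : ℕ} {i : ℕ → ℕ} (h1 : ∀ p, N < p → i p = 0) (h2 : ∀ p, i p ≤ n) :
    ∃ f : Fin (N + 1) → Fin (n + 1), i = s0_dec (N + 1) (n + 1) f := by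
  refine ⟨fun p => ⟨i p, Nat.lt_succ_of_le (h2 p)⟩, ?_⟩
  funext p
  unfold s0_dec
  split
  · rfl
  · rename_i h
    exact h1 p (by omega)

private theorem s0_bd (hP : GoodP P N) {n : ℕ} {x : Fin 3} {i : ℕ → ℕ}
    (hi : ∀ p, N < p → i p = 0) {v : Fin (n + 1) → ℂ} (hv : v ∈ Xo P n x i) (h0 : v ≠ 0) (p : ℕ) :
    i p ≤ n := by
  by_contra hlt
  push Not at hlt
  have hp : p ≤ N := by
    by_contra h
    push Not at h
    rw [hi p h] at hlt
    omega
  have h1 : i p ≤ ∑ p ∈ Finset.range (N + 1), i p :=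
    Finset.single_le_sum (f := i) (fun _ _ => Nat.zero_le _)
      (Finset.mem_range.2 (Nat.lt_succ_of_le hp))
  have h2 : n < dg N x i := by
    unfold dg
    omega
  rw [Xo_bot hP n x hi h2, Submodule.mem_bot] at hv
  exact h0 hv

private theorem s0_adm {p0 : ℕ} {i : ℕ → ℕ} (h : Adm p0 N i) : ∀ p, N < p → i p = 0 := by
  intro p hp
  by_contra hne
  have := (h p hne).2
  omega

private theorem s0_c1 (δ : ℝ) (v : Fin (n2 + 1) → ℂ) (w : Fin (n3 + 1) → ℂ) :
    c1 (T00 P N n2 n3 δ) v w 0 = bf (row P n2 n3 (P.g 0) 1 δ) v w := by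
  unfold c1 bf T00
  simp only [if_true]

private theorem s0_bfs {B C : Type} [Fintype B] [Fintype C] (F : B → C → ℝ) (r t : ℂ) (v : B → ℂ)
    (w : C → ℂ) : bf F (r • v) (t • w) = r * t * bf F v w := by
  unfold bf
  rw [Finset.mul_sum]
  refine Finset.sum_congr rfl fun b _ => ?_
  rw [Finset.mul_sum]
  refine Finset.sum_congr rfl fun c _ => ?_
  rw [Pi.smul_apply, Pi.smul_apply, smul_eq_mul, smul_eq_mul]
  ring

/-- Without row `0` there are no tuples. Proof: `SR N false 1 = ∅`, so `u = 0`. -/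
theorem s0_false (δ : ℝ) : PE P (T00 P N n2 n3 δ) false 1 := by
  intro x y i j _ _ _ u v w α β γ ht hu _ _
  refine absurd ?_ hu
  have h1 := ht.su
  rw [s0_SRf] at h1
  funext a
  exact h1 a (Finset.notMem_empty a)

private theorem s0_bf (δ : ℝ) (v : Fin (n2 + 1) → ℂ) (w : Fin (n3 + 1) → ℂ) :
    bf (row P n2 n3 (P.g 0) 1 δ) v w = ∑ l ∈ Finset.range (min n2 n3 + 1), ((1 * δ ^ l : ℝ) : ℂ) *
      (pr (tau P n2 (P.g 0) l) v * pr (tau P n3 (P.g 0) l) w) := by
  rw [row_eq, bf_rw0]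

private theorem s0_lim (v : Fin (n2 + 1) → ℂ) (w : Fin (n3 + 1) → ℂ) :
    Tendsto (fun δ : ℝ => bf (row P n2 n3 (P.g 0) 1 δ) v w) (𝓝[>] (0 : ℝ))
      (𝓝 (pr (tau P n2 (P.g 0) 0) v * pr (tau P n3 (P.g 0) 0) w)) := by
  have h1 : Continuous fun δ : ℝ => bf (row P n2 n3 (P.g 0) 1 δ) v w := by
    simp only [s0_bf]
    refine continuous_finsetSum _ fun l _ => ?_
    exact (Complex.continuous_ofReal.comp (continuous_const.mul (continuous_pow l))).mul
      continuous_const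
  have h2 := (h1.tendsto 0).mono_left (nhdsWithin_le_nhds (s := Set.Ioi (0 : ℝ)))
  have h3 : bf (row P n2 n3 (P.g 0) 1 0) v w =
      pr (tau P n2 (P.g 0) 0) v * pr (tau P n3 (P.g 0) 0) w := by
    rw [s0_bf, Finset.sum_eq_single 0]
    · simp
    · intro l _ hl
      rw [zero_pow hl, mul_zero, Complex.ofReal_zero, zero_mul]
    · intro h
      exact absurd (Finset.mem_range.2 (Nat.succ_pos _)) h
  rw [h3] at h2
  exact h2

/-- The condition `BG` for small `δ`.

Proof. By contradiction with sequences: finitely many `(x, y, i, j, p, l)`; the base vectors `v, w`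
are
unique up to real factors (normalise: constant sequences), and
`c1 T v w 0 = ∑ l, δ ^ l τ l (v) τ l (w) → V(g 0) W(g 0)`. -/
theorem s0_BG (hP : GoodP P N) : ∀ᶠ δ in 𝓝[>] (0 : ℝ), BG P (T00 P N n2 n3 δ) := by
  have key : ∀ᶠ δ in 𝓝[>] (0 : ℝ), ∀ (x y : Fin 3) (f : Fin (N + 1) → Fin (n2 + 1))
      (g : Fin (N + 1) → Fin (n3 + 1)) (p : Fin (N + 1)) (l : Fin (n2 + 1)), ∀ v w,
      Bv P n2 x (s0_dec _ _ f) p l v → Bv P n3 y (s0_dec _ _ g) p l w →
      pr (tau P n2 (P.g 0) 0) v ≠ 0 → pr (tau P n3 (P.g 0) 0) w ≠ 0 →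
      0 < (c1 (T00 P N n2 n3 δ) v w 0 * pr (tau P n2 (P.g 0) 0) v *
        pr (tau P n3 (P.g 0) 0) w).re := by
    refine eventually_all.2 fun x => eventually_all.2 fun y => eventually_all.2 fun f =>
      eventually_all.2 fun g => eventually_all.2 fun p => eventually_all.2 fun l => ?_
    by_cases hex : ∃ v w, Bv P n2 x (s0_dec _ _ f) p l v ∧ Bv P n3 y (s0_dec _ _ g) p l w ∧
      pr (tau P n2 (P.g 0) 0) v ≠ 0 ∧ pr (tau P n3 (P.g 0) 0) w ≠ 0
    · obtain ⟨v0, w0, hv0, hw0, hV, hW⟩ := hex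
      have h1 : Tendsto (fun δ : ℝ => (c1 (T00 P N n2 n3 δ) v0 w0 0 * pr (tau P n2 (P.g 0) 0) v0 *
          pr (tau P n3 (P.g 0) 0) w0).re) (𝓝[>] (0 : ℝ))
          (𝓝 ((pr (tau P n2 (P.g 0) 0) v0 * pr (tau P n3 (P.g 0) 0) w0 *
            pr (tau P n2 (P.g 0) 0) v0 * pr (tau P n3 (P.g 0) 0) w0).re)) := by
        simp only [s0_c1]
        exact (Complex.continuous_re.tendsto _).comp
          (((s0_lim v0 w0).mul_const _).mul_const _)
      have e1 : pr (tau P n2 (P.g 0) 0) v0 = ((pr (tau P n2 (P.g 0) 0) v0).re : ℂ) :=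
        Complex.ext rfl (by rw [pr_re _ hv0.re, Complex.ofReal_im])
      have e2 : pr (tau P n3 (P.g 0) 0) w0 = ((pr (tau P n3 (P.g 0) 0) w0).re : ℂ) :=
        Complex.ext rfl (by rw [pr_re _ hw0.re, Complex.ofReal_im])
      have h2 : 0 < (pr (tau P n2 (P.g 0) 0) v0 * pr (tau P n3 (P.g 0) 0) w0 *
            pr (tau P n2 (P.g 0) 0) v0 * pr (tau P n3 (P.g 0) 0) w0).re := by
        rw [e1, e2, ← Complex.ofReal_mul, ← Complex.ofReal_mul, ← Complex.ofReal_mul,
          Complex.ofReal_re]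
        have n1 : (pr (tau P n2 (P.g 0) 0) v0).re ≠ 0 := fun h => hV (by
          rw [e1, h, Complex.ofReal_zero])
        have n2' : (pr (tau P n3 (P.g 0) 0) w0).re ≠ 0 := fun h => hW (by
          rw [e2, h, Complex.ofReal_zero])
        have h3 : 0 < ((pr (tau P n2 (P.g 0) 0) v0).re * (pr (tau P n3 (P.g 0) 0) w0).re) ^ 2 := by
          positivity
        nlinarith
      filter_upwards [h1.eventually (lt_mem_nhds h2)] with δ h3 v w hv hw _ _
      obtain ⟨a, ha, rfl⟩ := s0_uniq hv0 hv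
      obtain ⟨b, hb, rfl⟩ := s0_uniq hw0 hw
      have e : c1 (T00 P N n2 n3 δ) ((a : ℂ) • v0) ((b : ℂ) • w0) 0 *
          pr (tau P n2 (P.g 0) 0) ((a : ℂ) • v0) * pr (tau P n3 (P.g 0) 0) ((b : ℂ) • w0) =
          (((a * b) ^ 2 : ℝ) : ℂ) * (c1 (T00 P N n2 n3 δ) v0 w0 0 *
            pr (tau P n2 (P.g 0) 0) v0 * pr (tau P n3 (P.g 0) 0) w0) := by
        rw [s0_c1, s0_c1, s0_bfs, pr_smul, pr_smul]
        push_cast
        ring
      rw [e, Complex.re_ofReal_mul]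
      exact mul_pos (by positivity) h3
    · refine Eventually.of_forall fun δ v w hv hw hV hW => ?_
      exact absurd ⟨v, w, hv, hw, hV, hW⟩ hex
  filter_upwards [key] with δ hδ x y i j p l v w _ _ _ hpN hi hj hv hw hV hW
  have aux : ∀ {n : ℕ} {x : Fin 3} {i : ℕ → ℕ} {v : Fin (n + 1) → ℂ}, Adm (p + 1) N i →
      Bv P n x i p l v → (∃ f : Fin (N + 1) → Fin (n + 1), i = s0_dec (N + 1) (n + 1) f) ∧
        l ≤ n := by
    intro n x i v hi hv
    have hi0 : i p = 0 := by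
      by_contra h
      have := (hi p h).1
      omega
    have h1 : ∀ p', N < p' → at' i p l p' = 0 := by
      intro p' hp'
      have hne : p' ≠ p := by omega
      rw [at', Function.update_of_ne hne]
      exact s0_adm hi p' hp'
    have h2 := s0_bd hP h1 hv.mem hv.ne
    refine ⟨s0_enum (s0_adm hi) fun p' => ?_, ?_⟩
    · by_cases hne : p' = p
      · rw [hne, hi0]
        exact Nat.zero_le _
      · have h3 := h2 p'
        rwa [at', Function.update_of_ne hne] at h3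
    · have h3 := h2 p
      rwa [at', Function.update_self] at h3
  obtain ⟨⟨f, rfl⟩, hl⟩ := aux hi hv
  obtain ⟨⟨g, rfl⟩, -⟩ := aux hj hw
  exact hδ x y f g ⟨p, Nat.lt_succ_of_le hpN⟩ ⟨l, Nat.lt_succ_of_le hl⟩ v w hv hw hV hW

/-! ### The row alone -/

private theorem s0_SPs {B C : Type} [Fintype B] [Fintype C] [DecidableEq B] [DecidableEq C]
    {F : B → C → ℝ}
    {X : Submodule ℂ (B → ℂ)} {Y : Submodule ℂ (C → ℂ)} {v : B → ℂ} {w : C → ℂ} {β γ r t : ℂ}
    (hr : r ≠ 0) (ht : t ≠ 0) (h : SP F X Y v w β γ) :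
    SP F X Y (r • v) (t • w) (t * β / r) (r * γ / t) := by
  refine ⟨Submodule.smul_mem _ _ h.sv, Submodule.smul_mem _ _ h.sw, fun z hz => ?_,
    fun z hz => ?_⟩
  · have h1 : bfB F (t • w) = t • bfB F w := by
      funext b
      unfold bfB
      rw [Pi.smul_apply, smul_eq_mul, Finset.mul_sum]
      exact Finset.sum_congr rfl fun c _ => by rw [Pi.smul_apply, smul_eq_mul]; ring
    rw [h1, dt_smul_left, dt_smul_left, h.e2 z hz]
    field_simp
  · have h1 : bfC F (r • v) = r • bfC F v := by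
      funext c
      unfold bfC
      rw [Pi.smul_apply, smul_eq_mul, Finset.mul_sum]
      exact Finset.sum_congr rfl fun b _ => by rw [Pi.smul_apply, smul_eq_mul]; ring
    rw [h1, dt_smul_left, dt_smul_left, h.e3 z hz]
    field_simp

private theorem s0_bfBs {B C : Type} [Fintype C] (F : B → C → ℝ) (t : ℂ) (w : C → ℂ) :
    bfB F (t • w) = t • bfB F w := by
  funext b
  unfold bfB
  rw [Pi.smul_apply, smul_eq_mul, Finset.mul_sum]
  exact Finset.sum_congr rfl fun c _ => by rw [Pi.smul_apply, smul_eq_mul]; ring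

private theorem s0_bfCs {B C : Type} [Fintype B] (F : B → C → ℝ) (r : ℂ) (v : B → ℂ) :
    bfC F (r • v) = r • bfC F v := by
  funext c
  unfold bfC
  rw [Pi.smul_apply, smul_eq_mul, Finset.mul_sum]
  exact Finset.sum_congr rfl fun b _ => by rw [Pi.smul_apply, smul_eq_mul]; ring

private theorem s0_OkPs {B C : Type} [Fintype B] [Fintype C] [DecidableEq B] [DecidableEq C]
    {F : B → C → ℝ}
    {X : Submodule ℂ (B → ℂ)} {Y : Submodule ℂ (C → ℂ)} {v : B → ℂ} {w : C → ℂ} {β γ r t : ℂ}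
    (hr : r ≠ 0) (ht : t ≠ 0) (h : OkP F X Y (r • v) (t • w) (t * β / r) (r * γ / t)) :
    OkP F X Y v w β γ := by
  refine ⟨(MPb0eR.Rl_smul hr).1 h.rv, (MPb0eR.Rl_smul ht).1 h.rw', ?_, ?_⟩
  · have h1 := h.hF
    rw [s0_bfs] at h1
    exact (mul_ne_zero_iff.1 h1).2
  · intro dv dw dβ dγ hv hw e2 e3
    obtain ⟨⟨a, ha⟩, b, hb⟩ := h.nd (r • dv) (t • dw) (t * dβ / r) (r * dγ / t)
      (Submodule.smul_mem _ _ hv) (Submodule.smul_mem _ _ hw) (fun z hz => by
        rw [s0_bfBs, dt_smul_left, dt_smul_left, dt_smul_left, e2 z hz]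
        field_simp) (fun z hz => by
        rw [s0_bfCs, dt_smul_left, dt_smul_left, dt_smul_left, e3 z hz]
        field_simp)
    refine ⟨⟨a, ?_⟩, b, ?_⟩
    · rw [smul_comm] at ha
      exact smul_right_injective _ hr ha
    · rw [smul_comm] at hb
      exact smul_right_injective _ ht hb

private theorem s0_fix (hP : GoodP P N) (h2 : BFs P N n2) (h3 : BFs P N n3) {x y : Fin 3}
    {i j : ℕ → ℕ} (hM : Msk true x y) (hi : Adm 1 N i) (hj : Adm 1 N j) (ib : Fin (n2 + 1))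
    (ic : Fin (n3 + 1)) :
    ∀ᶠ δ in 𝓝[>] (0 : ℝ), ∀ v w β γ, Nrm v ib → Nrm w ic →
      SP (row P n2 n3 (P.g 0) 1 δ) (Xo P n2 x i) (Xo P n3 y j) v w β γ →
      OkP (row P n2 n3 (P.g 0) 1 δ) (Xo P n2 x i) (Xo P n3 y j) v w β γ ∧
      Ob P n2 n3 true x y i j v w (bfB (row P n2 n3 (P.g 0) 1 δ) w - β • v)
        (bfC (row P n2 n3 (P.g 0) 1 δ) v - γ • w) (bf (row P n2 n3 (P.g 0) 1 δ) v w)
        (bf (row P n2 n3 (P.g 0) 1 δ) v w) := by
  by_contra hcon
  rw [not_eventually] at hcon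
  obtain ⟨δ, hδ, hq⟩ := exists_seq_forall_of_frequently
    (hcon.and_eventually (self_mem_nhdsWithin : Set.Ioi (0 : ℝ) ∈ 𝓝[>] (0 : ℝ)))
  have hpos : ∀ n, 0 < δ n := fun n => (hq n).2
  have hq' := fun n => (hq n).1
  push Not at hq'
  choose v w β γ nv nw hs hbad using hq'
  have hδ' : Tendsto δ uf (𝓝 0) :=
    (hδ.mono_right nhdsWithin_le_nhds).mono_left Nat.hyperfilter_le_atTop
  have i0 : i 0 = 0 := by
    by_contra h
    have := (hi 0 h).1
    omega
  have j0 : j 0 = 0 := by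
    by_contra h
    have := (hj 0 h).1
    omega
  obtain ⟨zX, hX⟩ := flag hP n2 x (s0_adm hi) (Nat.zero_le N) i0
  obtain ⟨zY, hY⟩ := flag hP n3 y (s0_adm hj) (Nat.zero_le N) j0
  have hm : min (n2 + 1 - dg N x i) (n3 + 1 - dg N y j) ≤ min n2 n3 + 1 := by omega
  have hf := (hi_row (min n2 n3) one_pos hδ' hpos).1
  have hs' := hs
  simp only [row_eq] at hs'
  have hOk := pa_ok (Xo_cj P n2 x i) (Xo_cj P n3 y j) hX hY hm hf hs' nv nw
  obtain ⟨l, v0, w0, β0, γ0, -, -, lv, lw, lβ, lγ, hβ0, hγ0, mv, mw, nφ, nψ, rv0, rw0', eB, eC,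
    tB, tC⟩ := pa_lim (Xo_cj P n2 x i) (Xo_cj P n3 y j) hX hY hm hf hs' nv nw
  have hinj : ∀ p', p' ≠ 0 → P.g p' = P.g 0 → False := fun p' hp' e => hP.inj hp' e
  have XB : ∀ k, Xi (Xo P n2 x i) (tau P n2 (P.g 0)) k = Xo P n2 x (at' i 0 k) :=
    fun k => Xi_Xo P n2 x i0 k hinj
  have XC : ∀ k, Xi (Xo P n3 y j) (tau P n3 (P.g 0)) k = Xo P n3 y (at' j 0 k) :=
    fun k => Xi_Xo P n3 y j0 k hinj
  have v0ne : v0 ≠ 0 := by
    rintro rfl
    exact nφ (by simp [pr])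
  have w0ne : w0 ≠ 0 := by
    rintro rfl
    exact nψ (by simp [pr])
  have bv : Bv P n2 x i 0 l v0 := by
    refine ⟨?_, v0ne, rv0, fun z hz => ?_⟩
    · rw [← XB]
      exact mv
    · have h4 : z ∈ Xi (Xo P n2 x i) (tau P n2 (P.g 0)) (l + 1) := by rw [XB]; exact hz
      have h5 : z ∈ Xi (Xo P n2 x i) (tau P n2 (P.g 0)) l :=
        ⟨h4.1, fun k hk => h4.2 k (by omega)⟩
      have h6 := eB z h5
      rw [h4.2 l (by omega), zero_mul] at h6
      exact (mul_eq_zero.1 h6.symm).resolve_left hβ0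
  have bw : Bv P n3 y j 0 l w0 := by
    refine ⟨?_, w0ne, rw0', fun z hz => ?_⟩
    · rw [← XC]
      exact mw
    · have h4 : z ∈ Xi (Xo P n3 y j) (tau P n3 (P.g 0)) (l + 1) := by rw [XC]; exact hz
      have h5 : z ∈ Xi (Xo P n3 y j) (tau P n3 (P.g 0)) l :=
        ⟨h4.1, fun k hk => h4.2 k (by omega)⟩
      have h6 := eC z h5
      rw [h4.2 l (by omega), mul_zero] at h6
      exact (mul_eq_zero.1 h6.symm).resolve_left hγ0
  have fv := h2 x i 0 l v0 (Nat.zero_le N) hi bv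
  have fw := h3 y j 0 l w0 (Nat.zero_le N) hj bw
  obtain ⟨φ, hφ⟩ : ∃ φ, φ = pr (tau P n2 (P.g 0) l) v0 := ⟨_, rfl⟩
  obtain ⟨ψ, hψ⟩ : ∃ ψ, ψ = pr (tau P n3 (P.g 0) l) w0 := ⟨_, rfl⟩
  have hbase := e3_base (full := true) (G := φ * ψ) hP (Nat.zero_le N) hM bv bw fv fw
    (β0 := β0) (γ0 := γ0) (fun z hz => eB z (by rw [XB]; exact hz))
    (fun z hz => eC z (by rw [XC]; exact hz)) (fun h => absurd h (by omega)) (fun _ => by
      refine ⟨rfl, ?_⟩
      rw [← hφ, ← hψ]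
      have r1 : φ.im = 0 := by rw [hφ]; exact pr_re _ rv0
      have r2 : ψ.im = 0 := by rw [hψ]; exact pr_re _ rw0'
      have e1 : φ = (φ.re : ℂ) := Complex.ext rfl (by rw [r1, Complex.ofReal_im])
      have e2 : ψ = (ψ.re : ℂ) := Complex.ext rfl (by rw [r2, Complex.ofReal_im])
      have n1 : φ.re ≠ 0 := fun h => nφ (by rw [← hφ, e1, h, Complex.ofReal_zero])
      have n2' : ψ.re ≠ 0 := fun h => nψ (by rw [← hψ, e2, h, Complex.ofReal_zero])
      rw [e1, e2, ← Complex.ofReal_mul, ← Complex.ofReal_mul, ← Complex.ofReal_mul,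
        Complex.ofReal_re]
      have h4 : 0 < (φ.re * ψ.re) ^ 2 := by positivity
      nlinarith)
  rw [← hφ, ← hψ] at hbase
  -- the scaled data
  have hfne : ∀ n, ((1 * δ n ^ l : ℝ) : ℂ) ≠ 0 := fun n => by
    have := hpos n
    exact Complex.ofReal_ne_zero.2 (by positivity)
  obtain ⟨f, hfd⟩ : ∃ f : ℕ → ℝ, f = fun n => 1 * δ n ^ l := ⟨_, rfl⟩
  have hfp : ∀ n, 0 < f n := fun n => by
    have := hpos n
    rw [hfd]
    positivity
  have hfc : ∀ n, (f n : ℂ) ≠ 0 := fun n => Complex.ofReal_ne_zero.2 (hfp n).ne'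
  have lβ' : Tendsto (fun n => β n / (f n : ℂ)) uf (𝓝 β0) := by
    rw [hfd]
    exact lβ
  have lγ' : Tendsto (fun n => γ n / (f n : ℂ)) uf (𝓝 γ0) := by
    rw [hfd]
    exact lγ
  have tB' : ∀ z : Fin (n2 + 1) → ℂ, (∀ k, k < l → pr (tau P n2 (P.g 0) k) z = 0) →
      Tendsto (fun n => bf (row P n2 n3 (P.g 0) 1 (δ n)) z (w n) / (f n : ℂ)) uf
        (𝓝 (pr (tau P n2 (P.g 0) l) z * ψ)) := by
    intro z hz
    rw [hfd, hψ]
    simp only [row_eq]
    exact tB z hz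
  have tC' : ∀ z : Fin (n3 + 1) → ℂ, (∀ k, k < l → pr (tau P n3 (P.g 0) k) z = 0) →
      Tendsto (fun n => bf (row P n2 n3 (P.g 0) 1 (δ n)) (v n) z / (f n : ℂ)) uf
        (𝓝 (φ * pr (tau P n3 (P.g 0) l) z)) := by
    intro z hz
    rw [hfd, hφ]
    simp only [row_eq]
    exact tC z hz
  have ldt : ∀ {n : ℕ} {x : ℕ → Fin (n + 1) → ℂ} {x0 z : Fin (n + 1) → ℂ},
      Tendsto x uf (𝓝 x0) → Tendsto (fun n => dt (x n) z) uf (𝓝 (dt x0 z)) := by
    intro n x x0 z hx
    unfold dt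
    exact tendsto_finsetSum _ fun a _ => ((tendsto_pi_nhds.1 hx) a).mul_const _
  have hσ : ∀ n, bf (row P n2 n3 (P.g 0) 1 (δ n)) (v n) (w n) = β n * q (v n) := by
    intro n
    rw [← dt_self, ← (hs n).e2 (v n) (hs n).sv, dt_bfB]
  have lσ : Tendsto (fun n => bf (row P n2 n3 (P.g 0) 1 (δ n)) (v n) (w n) / (f n : ℂ)) uf
      (𝓝 (φ * ψ)) := by
    have h4 : φ * ψ = β0 * q v0 := by
      rw [← dt_self, hφ, hψ]
      exact eB v0 mv
    rw [h4]
    have h5 : (fun n => bf (row P n2 n3 (P.g 0) 1 (δ n)) (v n) (w n) / (f n : ℂ)) =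
        fun n => β n / (f n : ℂ) * q (v n) := by
      funext n
      rw [hσ n]
      ring
    rw [h5]
    exact lβ'.mul (MPb0eR.lim_q lv)
  have hlim := ob_limN (full := true) (x := x) (y := y) (p := 0) (k := l) (k' := l) hP hi hj
    (Nat.zero_le N) (v := v) (w := w)
    (gB := fun n => (f n : ℂ)⁻¹ • (bfB (row P n2 n3 (P.g 0) 1 (δ n)) (w n) - β n • v n))
    (gC := fun n => (f n : ℂ)⁻¹ • (bfC (row P n2 n3 (P.g 0) 1 (δ n)) (v n) - γ n • w n))
    (σ := fun n => bf (row P n2 n3 (P.g 0) 1 (δ n)) (v n) (w n) / (f n : ℂ))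
    (G := fun n => bf (row P n2 n3 (P.g 0) 1 (δ n)) (v n) (w n) / (f n : ℂ))
    (fun h => v0ne (by
      have h4 := bv.mem
      rw [h, Submodule.mem_bot] at h4
      exact h4))
    (fun h => w0ne (by
      have h4 := bw.mem
      rw [h, Submodule.mem_bot] at h4
      exact h4))
    (fun n z hz => by
      rw [dt_smul_left, sub_eq_add_neg, dt_add_left, ← neg_smul, dt_smul_left,
        (hs n).e2 z hz]
      ring)
    (fun n z hz => by
      rw [dt_smul_left, sub_eq_add_neg, dt_add_left, ← neg_smul, dt_smul_left,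
        (hs n).e3 z hz]
      ring)
    lv lw lσ lσ
    (fun z hz => by
      have h4 : dt (fun b => (tau P n2 (P.g 0) l b : ℂ) * ψ - β0 * v0 b) z =
          pr (tau P n2 (P.g 0) l) z * ψ - β0 * dt v0 z := by
        unfold dt pr
        rw [Finset.sum_mul, Finset.mul_sum, ← Finset.sum_sub_distrib]
        exact Finset.sum_congr rfl fun b _ => by ring
      rw [h4]
      have h5 : (fun n => dt ((f n : ℂ)⁻¹ • (bfB (row P n2 n3 (P.g 0) 1 (δ n)) (w n) -
          β n • v n)) z) = fun n => bf (row P n2 n3 (P.g 0) 1 (δ n)) z (w n) / (f n : ℂ) -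
          β n / (f n : ℂ) * dt (v n) z := by
        funext n
        rw [dt_smul_left, sub_eq_add_neg, dt_add_left, ← neg_smul, dt_smul_left, dt_bfB]
        ring
      rw [h5]
      exact (tB' z hz).sub (lβ'.mul (ldt lv)))
    (fun z hz => by
      have h4 : dt (fun c => φ * (tau P n3 (P.g 0) l c : ℂ) - γ0 * w0 c) z =
          φ * pr (tau P n3 (P.g 0) l) z - γ0 * dt w0 z := by
        unfold dt pr
        rw [Finset.mul_sum, Finset.mul_sum, ← Finset.sum_sub_distrib]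
        exact Finset.sum_congr rfl fun b _ => by ring
      rw [h4]
      have h5 : (fun n => dt ((f n : ℂ)⁻¹ • (bfC (row P n2 n3 (P.g 0) 1 (δ n)) (v n) -
          γ n • w n)) z) = fun n => bf (row P n2 n3 (P.g 0) 1 (δ n)) (v n) z / (f n : ℂ) -
          γ n / (f n : ℂ) * dt (w n) z := by
        funext n
        rw [dt_smul_left, sub_eq_add_neg, dt_add_left, ← neg_smul, dt_smul_left, dt_bfC]
        ring
      rw [h5]
      exact (tC' z hz).sub (lγ'.mul (ldt lw)))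
    hbase
  obtain ⟨n, h4, h5⟩ := (hOk.and hlim).exists
  have h6 : OkP (row P n2 n3 (P.g 0) 1 (δ n)) (Xo P n2 x i) (Xo P n3 y j) (v n) (w n) (β n)
      (γ n) := by
    rw [row_eq]
    exact h4
  refine hbad n h6 ?_
  have hp := hfp n
  have h7 := s0_Ob (r := 1) (t := 1) (B := f n) (C := f n) (s := f n) (g := f n)
    (by positivity) (by positivity) (by positivity) (by positivity) h5
  simp only [Complex.ofReal_one, one_smul, smul_inv_smul₀ (hfc n), mul_div_cancel₀ _ (hfc n)]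
    at h7
  exact h7

/-- The tuples of the row `0` alone.

Proof. `SR N true 1 = {0}`; for a tuple `u = u_0 e_0`, and `(v, w)` is a singular pair of `G = row
0` with
`u_0 G(., w) = β v`. As in `e3_all` (`Hi m 1`, `hi_row`): `pa_ok`, `pa_lim`, `e3_base` with `p =
0`: the
value `G = bf G v w`; divided by `f l = δ ^ l > 0` it tends to `φ l (v) ψ l (w)`, which gives
`hG0`, and the
condition `t1` in the limit (`b7`); for `ob_lim` use `G n / f l` (only the sign matters: `Ob` is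
invariant under positive scaling of `G`), so either prove this invariance or work with the scaled
data. `OkX`: from `OkP`: `α = G(v, w) / u_0` and so on are nonzero, the kernel of `TX` for one row
is the kernel of the pair. -/
theorem s0_true (hP : GoodP P N) (h2 : BFs P N n2) (h3 : BFs P N n3) :
    ∀ᶠ δ in 𝓝[>] (0 : ℝ), PE P (T00 P N n2 n3 δ) true 1 := by
  have key : ∀ᶠ δ in 𝓝[>] (0 : ℝ), ∀ (x y : Fin 3) (f : Fin (N + 1) → Fin (n2 + 1))
      (g : Fin (N + 1) → Fin (n3 + 1)) (ib : Fin (n2 + 1)) (ic : Fin (n3 + 1)), Msk true x y →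
      Adm 1 N (s0_dec _ _ f) → Adm 1 N (s0_dec _ _ g) → ∀ v w β γ, Nrm v ib → Nrm w ic →
      SP (row P n2 n3 (P.g 0) 1 δ) (Xo P n2 x (s0_dec _ _ f)) (Xo P n3 y (s0_dec _ _ g)) v w β γ →
      OkP (row P n2 n3 (P.g 0) 1 δ) (Xo P n2 x (s0_dec _ _ f)) (Xo P n3 y (s0_dec _ _ g)) v w β γ ∧
      Ob P n2 n3 true x y (s0_dec _ _ f) (s0_dec _ _ g) v w
        (bfB (row P n2 n3 (P.g 0) 1 δ) w - β • v)
        (bfC (row P n2 n3 (P.g 0) 1 δ) v - γ • w) (bf (row P n2 n3 (P.g 0) 1 δ) v w)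
        (bf (row P n2 n3 (P.g 0) 1 δ) v w) := by
    refine eventually_all.2 fun x => eventually_all.2 fun y => eventually_all.2 fun f =>
      eventually_all.2 fun g => eventually_all.2 fun ib => eventually_all.2 fun ic => ?_
    by_cases h : Msk true x y ∧ Adm 1 N (s0_dec _ _ f) ∧ Adm 1 N (s0_dec _ _ g)
    · filter_upwards [s0_fix hP h2 h3 h.1 h.2.1 h.2.2 ib ic] with δ h4 _ _ _
      exact h4
    · exact Eventually.of_forall fun δ h4 h5 h6 => absurd ⟨h4, h5, h6⟩ h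
  filter_upwards [key] with δ hδ x y i j hM hi hj u v w α β γ ht hu hv hw
  obtain ⟨f, rfl⟩ := s0_enum (s0_adm hi) (s0_bd hP (s0_adm hi) ht.sv hv)
  obtain ⟨g, rfl⟩ := s0_enum (s0_adm hj) (s0_bd hP (s0_adm hj) ht.sw hw)
  obtain ⟨G, hG⟩ : ∃ G, G = row P n2 n3 (P.g 0) 1 δ := ⟨_, rfl⟩
  obtain ⟨X, hX⟩ : ∃ X, X = Xo P n2 x (s0_dec _ _ f) := ⟨_, rfl⟩
  obtain ⟨Y, hY⟩ : ∃ Y, Y = Xo P n3 y (s0_dec _ _ g) := ⟨_, rfl⟩
  have hδ' := hδ x y f g
  rw [← hG, ← hX, ← hY] at hδ'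
  have hsu : ∀ {u : Fin (N + 1) → ℂ}, Sup (SR N true 1) u → ∀ a, a ≠ 0 → u a = 0 := by
    intro u h a ha
    rw [s0_SRt] at h
    exact h a (by simpa using ha)
  have u0 : u 0 ≠ 0 := by
    intro h
    refine hu (funext fun a => ?_)
    by_cases ha : a = 0
    · rw [ha, h]; rfl
    · exact hsu ht.su a ha
  have hc2 : ∀ (u : Fin (N + 1) → ℂ) (w : Fin (n3 + 1) → ℂ), Sup (SR N true 1) u →
      c2 (T00 P N n2 n3 δ) u w = u 0 • bfB G w := by
    intro u w h
    funext b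
    unfold c2 bfB
    rw [Finset.sum_eq_single 0]
    · rw [Pi.smul_apply, smul_eq_mul, Finset.mul_sum, hG]
      refine Finset.sum_congr rfl fun c _ => ?_
      unfold T00
      rw [if_pos rfl]
      ring
    · intro a _ ha
      rw [hsu h a ha]
      exact Finset.sum_eq_zero fun c _ => by rw [zero_mul, mul_zero]
    · intro h
      exact absurd (Finset.mem_univ _) h
  have hc3 : ∀ (u : Fin (N + 1) → ℂ) (v : Fin (n2 + 1) → ℂ), Sup (SR N true 1) u →
      c3 (T00 P N n2 n3 δ) u v = u 0 • bfC G v := by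
    intro u v h
    funext c
    unfold c3 bfC
    rw [Finset.sum_eq_single 0]
    · rw [Pi.smul_apply, smul_eq_mul, Finset.mul_sum, hG]
      refine Finset.sum_congr rfl fun b _ => ?_
      unfold T00
      rw [if_pos rfl]
      ring
    · intro a _ ha
      rw [hsu h a ha]
      exact Finset.sum_eq_zero fun c _ => by rw [zero_mul, mul_zero]
    · intro h
      exact absurd (Finset.mem_univ _) h
  have h0 : (0 : Fin (N + 1)) ∈ SR N true 1 := by
    rw [s0_SRt]
    exact Finset.mem_singleton_self _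
  have e1 : bf G v w = α * u 0 := by
    rw [hG, ← s0_c1 (N := N)]
    exact ht.e1 0 h0
  have hqu : q u = u 0 ^ 2 := by
    unfold q
    rw [Finset.sum_eq_single 0]
    · intro a _ ha
      rw [hsu ht.su a ha]
      exact zero_pow two_ne_zero
    · intro h
      exact absurd (Finset.mem_univ _) h
  have hsp : SP G X Y v w (β / u 0) (γ / u 0) := by
    refine ⟨by rw [hX]; exact ht.sv, by rw [hY]; exact ht.sw, fun z hz => ?_, fun z hz => ?_⟩
    · have h4 := ht.e2 z (by rw [← hX]; exact hz)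
      rw [hc2 u w ht.su, dt_smul_left] at h4
      field_simp
      rw [← h4]
      ring
    · have h4 := ht.e3 z (by rw [← hY]; exact hz)
      rw [hc3 u v ht.su, dt_smul_left] at h4
      field_simp
      rw [← h4]
      ring
  obtain ⟨r, ib, hr, nr⟩ := MPb0eR.exists_nrm hv
  obtain ⟨t, ic, ht', nt⟩ := MPb0eR.exists_nrm hw
  obtain ⟨hok', hob⟩ := hδ' ib ic hM hi hj _ _ _ _ nr nt (s0_SPs hr ht' hsp)
  have hok := s0_OkPs hr ht' hok'
  have hbf := hok.hF
  have hbq : β / u 0 * q v = bf G v w := by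
    rw [← dt_self, ← hsp.e2 v hsp.sv, dt_bfB]
  have hcq : γ / u 0 * q w = bf G v w := by
    rw [← dt_self, ← hsp.e3 w hsp.sw, dt_bfC]
  refine ⟨⟨?_, hok.rv, hok.rw', ?_, ?_, ?_, ?_⟩, ?_⟩
  · refine ⟨(u 0)⁻¹, inv_ne_zero u0, fun a => ?_⟩
    by_cases ha : a = 0
    · rw [ha, inv_mul_cancel₀ u0]
      exact Complex.one_im
    · rw [hsu ht.su a ha, mul_zero]
      exact Complex.zero_im
  · rintro rfl
    rw [zero_mul] at e1
    exact hbf e1
  · rintro rfl
    rw [zero_div, zero_mul] at hbq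
    exact hbf hbq.symm
  · rintro rfl
    rw [zero_div, zero_mul] at hcq
    exact hbf hcq.symm
  · intro du dv dw dα dβ dγ hk
    have hdu : du = (du 0 / u 0) • u := by
      funext a
      rw [Pi.smul_apply, smul_eq_mul]
      by_cases ha : a = 0
      · rw [ha, div_mul_cancel₀ _ u0]
      · rw [hsu hk.su a ha, hsu ht.su a ha, mul_zero]
    have hnd := hok.nd dv dw (dβ / u 0 - du 0 / u 0 * (β / u 0))
      (dγ / u 0 - du 0 / u 0 * (γ / u 0)) (by rw [hX]; exact hk.sv) (by rw [hY]; exact hk.sw)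
      (fun z hz => by
        have h4 := hk.e2 z (by rw [← hX]; exact hz)
        rw [hc2 du w hk.su, hc2 u dw ht.su, dt_smul_left, dt_smul_left, hsp.e2 z hz] at h4
        field_simp
        field_simp at h4
        linear_combination h4)
      (fun z hz => by
        have h4 := hk.e3 z (by rw [← hY]; exact hz)
        rw [hc3 du v hk.su, hc3 u dv ht.su, dt_smul_left, dt_smul_left, hsp.e3 z hz] at h4
        field_simp
        field_simp at h4
        linear_combination h4)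
    exact ⟨⟨_, hdu⟩, hnd⟩
  · intro ru rv rw'
    have hreal : ∀ {n : ℕ} {v : Fin (n + 1) → ℂ} {r : ℂ} {ib : Fin (n + 1)}, Rea v →
        Nrm (r • v) ib → ∃ r' : ℝ, r = (r' : ℂ) ∧ r' ≠ 0 := by
      intro n v r ib hv h
      have h4 : r * v ib = 1 := h.1
      have h5 : v ib = ((v ib).re : ℂ) := Complex.ext rfl (by rw [hv ib, Complex.ofReal_im])
      have h6 : v ib ≠ 0 := fun h => by rw [h, mul_zero] at h4; exact zero_ne_one h4
      have h7 : (v ib).re ≠ 0 := fun h => h6 (by rw [h5, h, Complex.ofReal_zero])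
      refine ⟨((v ib).re)⁻¹, ?_, inv_ne_zero h7⟩
      rw [Complex.ofReal_inv, ← h5]
      exact eq_inv_of_mul_eq_one_left h4
    obtain ⟨r', hr1, hr2⟩ := hreal rv nr
    obtain ⟨t', ht1, ht2⟩ := hreal rw' nt
    obtain ⟨s, hs1, hs2⟩ : ∃ s : ℝ, u 0 = (s : ℂ) ∧ s ≠ 0 := by
      have h5 : u 0 = ((u 0).re : ℂ) := Complex.ext rfl (by rw [ru 0, Complex.ofReal_im])
      exact ⟨(u 0).re, h5, fun h => u0 (by rw [h5, h, Complex.ofReal_zero])⟩
    have h4 := s0_Ob (r := r'⁻¹) (t := t'⁻¹) (B := s / t') (C := s / r') (s := s / (r' * t'))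
      (g := 1 / (r' * t'))
      (by
        have e : s / t' * r'⁻¹ * (s / (r' * t')) = (s / (r' * t')) ^ 2 := by
          field_simp
        rw [e]
        positivity)
      (by
        have e : s / r' * t'⁻¹ * (s / (r' * t')) = (s / (r' * t')) ^ 2 := by
          field_simp
        rw [e]
        positivity)
      (by
        have e : s / t' * (s / r') * (1 / (r' * t')) = (s / (r' * t')) ^ 2 := by
          field_simp
        rw [e]
        positivity)
      (by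
        have e : 1 / (r' * t') * r'⁻¹ * t'⁻¹ = (1 / (r' * t')) ^ 2 := by
          field_simp
        rw [e]
        positivity) hob
    have cr : (r' : ℂ) ≠ 0 := Complex.ofReal_ne_zero.2 hr2
    have ct : (t' : ℂ) ≠ 0 := Complex.ofReal_ne_zero.2 ht2
    have cs : (s : ℂ) ≠ 0 := Complex.ofReal_ne_zero.2 hs2
    rw [hr1, ht1, hs1] at h4
    have g1 : ((r'⁻¹ : ℝ) : ℂ) • ((r' : ℂ) • v) = v := by
      rw [smul_smul, Complex.ofReal_inv, inv_mul_cancel₀ cr, one_smul]
    have g2 : ((t'⁻¹ : ℝ) : ℂ) • ((t' : ℂ) • w) = w := by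
      rw [smul_smul, Complex.ofReal_inv, inv_mul_cancel₀ ct, one_smul]
    have g3 : ((s / t' : ℝ) : ℂ) • (bfB G ((t' : ℂ) • w) -
        ((t' : ℂ) * (β / (s : ℂ)) / (r' : ℂ)) • ((r' : ℂ) • v)) =
        c2 (T00 P N n2 n3 δ) u w - β • v := by
      rw [hc2 u w ht.su, s0_bfBs, hs1]
      funext b
      simp only [Pi.smul_apply, Pi.sub_apply, smul_eq_mul, Complex.ofReal_div]
      field_simp
    have g4 : ((s / r' : ℝ) : ℂ) • (bfC G ((r' : ℂ) • v) -
        ((r' : ℂ) * (γ / (s : ℂ)) / (t' : ℂ)) • ((t' : ℂ) • w)) =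
        c3 (T00 P N n2 n3 δ) u v - γ • w := by
      rw [hc3 u v ht.su, s0_bfCs, hs1]
      funext b
      simp only [Pi.smul_apply, Pi.sub_apply, smul_eq_mul, Complex.ofReal_div]
      field_simp
    have g5 : ((s / (r' * t') : ℝ) : ℂ) * bf G ((r' : ℂ) • v) ((t' : ℂ) • w) = α * q u := by
      rw [s0_bfs, e1, hqu, hs1, Complex.ofReal_div, Complex.ofReal_mul]
      field_simp
    have g6 : ((1 / (r' * t') : ℝ) : ℂ) * bf G ((r' : ℂ) • v) ((t' : ℂ) • w) =
        c1 (T00 P N n2 n3 δ) v w 0 := by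
      rw [s0_bfs, s0_c1, ← hG, Complex.ofReal_div, Complex.ofReal_mul, Complex.ofReal_one]
      field_simp
    rw [g1, g2, g3, g4, g5, g6] at h4
    exact h4

end

end Pool.Agent.MPb0eK
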