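import Mathlib
import Pool.Agent.Lib.MP_b0e20b_ag_K.DA
import Pool.Agent.Lib.MP_b0e20b_ag_K.P3
import Pool.Agent.Lib.MP_b0e20b_ag_K.S0

/-!
# MP_b0e20b_ag, project K: type D1: the start of the induction
-/

set_option autoImplicit false

open scoped BigOperators Topology
open Filter

namespace Pool.Agent.MPb0eK

open MPb0eR (c1 c2 c3 tr q Sup Rl Rea uf Nrm cj AF scl)

section

variable {B C : Type} [Fintype B] [Fintype C] [DecidableEq B] [DecidableEq C]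
  {X : Submodule ℂ (B → ℂ)} {Y : Submodule ℂ (C → ℂ)} {d D' m : ℕ} {φ zX : ℕ → B → ℝ}
  {ψ zY : ℕ → C → ℝ}

/-- The size of a vector in the coordinates. -/
private noncomputable def db1_N (ψ : ℕ → C → ℝ) (D : ℕ) (w : C → ℂ) : ℝ :=
  ∑ k ∈ Finset.range D, ‖pr (ψ k) w‖

omit [DecidableEq C] in
private theorem db1_Nn (ψ : ℕ → C → ℝ) (D : ℕ) (w : C → ℂ) : 0 ≤ db1_N ψ D w :=
  Finset.sum_nonneg fun _ _ => norm_nonneg _

omit [DecidableEq C] in
private theorem db1_le (ψ : ℕ → C → ℝ) {D k : ℕ} (hk : k < D) (w : C → ℂ) :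
    ‖pr (ψ k) w‖ ≤ db1_N ψ D w :=
  Finset.single_le_sum (f := fun k => ‖pr (ψ k) w‖) (fun _ _ => norm_nonneg _)
    (Finset.mem_range.2 hk)

omit [DecidableEq C] in
private theorem db1_zero (hY : Flag Y D' ψ zY) {w : C → ℂ} (hw : w ∈ Y)
    (h : db1_N ψ D' w ≤ 0) : w = 0 := by
  rw [hY.gen w hw]
  refine Finset.sum_eq_zero fun k hk => ?_
  have h1 : ‖pr (ψ k) w‖ ≤ 0 := (db1_le ψ (Finset.mem_range.1 hk) w).trans h
  rw [norm_le_zero_iff.1 h1, zero_smul]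

omit [DecidableEq C] in
private theorem db1_sum (f : C → ℝ) (s : Finset ℕ) (c : ℕ → ℂ) (z : ℕ → C → ℂ) :
    pr f (∑ l ∈ s, c l • z l) = ∑ l ∈ s, c l * pr f (z l) := by
  classical
  induction s using Finset.induction_on with
  | empty => simp [pr]
  | insert a s ha ih => rw [Finset.sum_insert ha, Finset.sum_insert ha, pr_add, pr_smul, ih]

omit [DecidableEq C] in
private theorem db1_ex (hY : Flag Y D' ψ zY) (f : C → ℝ) {w : C → ℂ} (hw : w ∈ Y) :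
    pr f w = ∑ k ∈ Finset.range D', pr (ψ k) w * pr f (fun c => (zY k c : ℂ)) := by
  conv_lhs => rw [hY.gen w hw]
  rw [db1_sum]

omit [DecidableEq C] in
private theorem db1_bd (hY : Flag Y D' ψ zY) (f : C → ℝ) :
    ∃ K : ℝ, 0 ≤ K ∧ ∀ w ∈ Y, ‖pr f w‖ ≤ K * db1_N ψ D' w := by
  refine ⟨∑ k ∈ Finset.range D', ‖pr f (fun c => (zY k c : ℂ))‖,
    Finset.sum_nonneg fun _ _ => norm_nonneg _, fun w hw => ?_⟩
  rw [db1_ex hY f hw, Finset.sum_mul]
  refine (norm_sum_le _ _).trans (Finset.sum_le_sum fun k hk => ?_)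
  rw [norm_mul, mul_comm]
  exact mul_le_mul_of_nonneg_left (db1_le ψ (Finset.mem_range.1 hk) w) (norm_nonneg _)

omit [DecidableEq C] in
private theorem db1_tail (hY : Flag Y D' ψ zY) (m E : ℕ) (c : ℕ → ℂ)
    (hc : ∀ l, l < E → c l = 0) :
    ∃ K : ℝ, 0 ≤ K ∧ ∀ δ : ℝ, 0 < δ → δ ≤ 1 → ∀ w ∈ Y,
      ‖∑ l ∈ Finset.range (m + 1), ((1 * δ ^ l : ℝ) : ℂ) * (c l * pr (ψ l) w)‖
        ≤ K * δ ^ E * db1_N ψ D' w := by
  choose K hK0 hK using fun l => db1_bd hY (ψ l)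
  refine ⟨∑ l ∈ Finset.range (m + 1), ‖c l‖ * K l,
    Finset.sum_nonneg fun l _ => mul_nonneg (norm_nonneg _) (hK0 l), fun δ h0 h1 w hw => ?_⟩
  rw [Finset.sum_mul, Finset.sum_mul]
  refine (norm_sum_le _ _).trans (Finset.sum_le_sum fun l _ => ?_)
  by_cases hl : l < E
  · rw [hc l hl, zero_mul, mul_zero, norm_zero, zero_mul, zero_mul, zero_mul]
  · rw [norm_mul, norm_mul, Complex.norm_real, one_mul, Real.norm_of_nonneg (pow_nonneg h0.le l)]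
    have h2 : δ ^ l ≤ δ ^ E := pow_le_pow_of_le_one h0.le h1 (not_lt.1 hl)
    calc δ ^ l * (‖c l‖ * ‖pr (ψ l) w‖) ≤ δ ^ E * (‖c l‖ * (K l * db1_N ψ D' w)) :=
          mul_le_mul h2 (mul_le_mul_of_nonneg_left (hK l w hw) (norm_nonneg _))
            (mul_nonneg (norm_nonneg _) (norm_nonneg _)) (pow_nonneg h0.le _)
      _ = _ := by ring

private theorem db1_ord (hY : Flag Y D' ψ zY) (m E : ℕ) (z : B → ℂ)
    (hz : ∀ l, l < E → pr (φ l) z = 0) :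
    ∃ K : ℝ, 0 ≤ K ∧ ∀ δ : ℝ, 0 < δ → δ ≤ 1 → ∀ w ∈ Y,
      ‖bf (rw0 φ ψ m fun l => 1 * δ ^ l) z w‖ ≤ K * δ ^ E * db1_N ψ D' w := by
  obtain ⟨K, h0, h1⟩ := db1_tail hY m E (fun l => pr (φ l) z) hz
  refine ⟨K, h0, fun δ a b w hw => ?_⟩
  rw [bf_rw0]
  exact h1 δ a b w hw

private theorem db1_unit {D : ℕ} (hX : Flag X D φ zX) (hY : Flag Y D' ψ zY) {k : ℕ}
    (hk : k < D) (hkm : k ≤ m) :
    ∃ K : ℝ, 0 ≤ K ∧ ∀ δ : ℝ, 0 < δ → δ ≤ 1 → ∀ w ∈ Y,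
      ‖bf (rw0 φ ψ m fun l => 1 * δ ^ l) (fun b => (zX k b : ℂ)) w -
        ((δ ^ k : ℝ) : ℂ) * pr (ψ k) w‖ ≤ K * δ ^ D * db1_N ψ D' w := by
  obtain ⟨K, h0, h1⟩ := db1_tail hY m D
    (fun l => pr (φ l) (fun b => (zX k b : ℂ)) - if l = k then 1 else 0)
    (fun l hl => by rw [hX.dual l k hl hk, sub_self])
  refine ⟨K, h0, fun δ a b w hw => ?_⟩
  have e2 : ∀ l, ((1 * δ ^ l : ℝ) : ℂ) * ((pr (φ l) (fun b => (zX k b : ℂ)) -
      if l = k then 1 else 0) * pr (ψ l) w) =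
      ((1 * δ ^ l : ℝ) : ℂ) * (pr (φ l) (fun b => (zX k b : ℂ)) * pr (ψ l) w) -
        if l = k then ((δ ^ l : ℝ) : ℂ) * pr (ψ l) w else 0 := by
    intro l
    split_ifs
    · push_cast
      ring
    · ring
  have h2 := h1 δ a b w hw
  simp only [e2] at h2
  rw [Finset.sum_sub_distrib, Finset.sum_ite_eq',
    if_pos (Finset.mem_range.2 (Nat.lt_succ_of_le hkm))] at h2
  rw [bf_rw0]
  exact h2

private theorem db1_ev {K ε : ℝ} (hK : 0 ≤ K) (hε : 0 < ε) :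
    ∀ᶠ δ in 𝓝[>] (0 : ℝ), 0 < δ ∧ δ ≤ 1 ∧ K * δ ≤ ε := by
  have h1 : 0 < min 1 (ε / (K + 1)) := lt_min one_pos (div_pos hε (by linarith))
  filter_upwards [Ioo_mem_nhdsGT h1] with δ hδ
  refine ⟨hδ.1, (hδ.2.trans_le (min_le_left _ _)).le, ?_⟩
  have h2 : δ * (K + 1) ≤ ε := by
    have h3 := (hδ.2.trans_le (min_le_right _ _)).le
    rwa [le_div_iff₀ (by linarith)] at h3
  nlinarith [hδ.1]

/-- The system of equations for `w`. -/
private def db1_Eq (φ zX : ℕ → B → ℝ) (ψ : ℕ → C → ℝ) (m d : ℕ) (h : B → ℝ) (δ : ℝ)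
    (w : C → ℂ) (ν : ℂ) : Prop :=
  ∀ l, l < d + 1 → bf (rw0 φ ψ m fun l => 1 * δ ^ l) (fun b => (zX l b : ℂ)) w =
    ν * pr h (fun b => (zX l b : ℂ))

private theorem db1_small (hX : Flag X (d + 1) φ zX) (hY : Flag Y D' ψ zY) {h : B → ℝ}
    (hh : pr h (fun b => (zX d b : ℂ)) ≠ 0) {k : ℕ} (hk : k < d) (hkm : k ≤ m) {ε : ℝ}
    (hε : 0 < ε) :
    ∀ᶠ δ in 𝓝[>] (0 : ℝ), ∀ w ∈ Y, ∀ ν : ℂ, db1_Eq φ zX ψ m d h δ w ν →
      ‖pr (ψ k) w‖ ≤ ε * db1_N ψ D' w := by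
  obtain ⟨K0, hK0, h0⟩ := db1_ord (φ := φ) hY m d (fun b => (zX d b : ℂ)) (fun l hl => by
    rw [hX.dual l d (by omega) (by omega), if_neg (by omega)])
  obtain ⟨K1, hK1, h1⟩ := db1_unit hX hY (k := k) (by omega) hkm
  obtain ⟨a, ha⟩ : ∃ a, a = ‖pr h (fun b => (zX d b : ℂ))‖ := ⟨_, rfl⟩
  obtain ⟨H, hH⟩ : ∃ H, H = ‖pr h (fun b => (zX k b : ℂ))‖ := ⟨_, rfl⟩
  have ha0 : 0 < a := by
    rw [ha]
    exact norm_pos_iff.2 hh
  have hH0 : 0 ≤ H := by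
    rw [hH]
    exact norm_nonneg _
  have hK : 0 ≤ K0 * H / a + K1 := by positivity
  filter_upwards [db1_ev hK hε] with δ hδ w hw ν hν
  obtain ⟨p1, p2, p3⟩ := hδ
  have hN := db1_Nn ψ D' w
  obtain ⟨n, hn⟩ : ∃ n, n = db1_N ψ D' w := ⟨_, rfl⟩
  have e1 := h0 δ p1 p2 w hw
  have e2 := h1 δ p1 p2 w hw
  rw [hν d (by omega), norm_mul, ← ha] at e1
  rw [hν k (by omega)] at e2
  rw [← hn] at hN e1 e2 ⊢
  have e3 : δ ^ k * ‖pr (ψ k) w‖ ≤ ‖ν‖ * H + K1 * δ ^ (d + 1) * n := by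
    have e4 : ‖((δ ^ k : ℝ) : ℂ) * pr (ψ k) w‖ = δ ^ k * ‖pr (ψ k) w‖ := by
      rw [norm_mul, Complex.norm_real, Real.norm_of_nonneg (pow_nonneg p1.le k)]
    have e5 := norm_sub_le (ν * pr h (fun b => (zX k b : ℂ)))
      (ν * pr h (fun b => (zX k b : ℂ)) - ((δ ^ k : ℝ) : ℂ) * pr (ψ k) w)
    rw [sub_sub_cancel, e4, norm_mul, ← hH] at e5
    linarith
  have e6 : ‖ν‖ ≤ K0 * δ ^ d * n / a := by
    rw [le_div_iff₀ ha0]
    exact e1
  have e7 : δ ^ (d + 1) ≤ δ ^ d := pow_le_pow_of_le_one p1.le p2 (Nat.le_succ d)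
  have e8 : δ ^ d ≤ δ ^ k * δ := by
    rw [← pow_succ]
    exact pow_le_pow_of_le_one p1.le p2 hk
  have e9 : δ ^ k * ‖pr (ψ k) w‖ ≤ (K0 * H / a + K1) * (δ ^ d * n) := by
    have e10 : ‖ν‖ * H ≤ K0 * δ ^ d * n / a * H := mul_le_mul_of_nonneg_right e6 hH0
    have e11 : K1 * δ ^ (d + 1) * n ≤ K1 * δ ^ d * n :=
      mul_le_mul_of_nonneg_right (mul_le_mul_of_nonneg_left e7 hK1) hN
    have e12 : (K0 * H / a + K1) * (δ ^ d * n) = K0 * δ ^ d * n / a * H + K1 * δ ^ d * n := by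
      ring
    rw [e12]
    linarith
  have e13 : (K0 * H / a + K1) * (δ ^ d * n) ≤ (K0 * H / a + K1) * (δ ^ k * δ * n) :=
    mul_le_mul_of_nonneg_left (mul_le_mul_of_nonneg_right e8 hN) hK
  have e14 : δ ^ k * ‖pr (ψ k) w‖ ≤ δ ^ k * ((K0 * H / a + K1) * δ * n) := by
    refine e9.trans (e13.trans (le_of_eq ?_))
    ring
  have e15 := le_of_mul_le_mul_left e14 (pow_pos p1 k)
  exact e15.trans (mul_le_mul_of_nonneg_right p3 hN)

/-- No solution if the dimension of `Y` is smaller. -/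
private theorem db1_lt (hX : Flag X (d + 1) φ zX) (hY : Flag Y D' ψ zY) {h : B → ℝ}
    (hh : pr h (fun b => (zX d b : ℂ)) ≠ 0) (hD : D' ≤ d) (hm : D' ≤ m + 1) :
    ∀ᶠ δ in 𝓝[>] (0 : ℝ), ∀ w ∈ Y, ∀ ν : ℂ, db1_Eq φ zX ψ m d h δ w ν → w = 0 := by
  have hε : 0 < 1 / (2 * ((D' : ℝ) + 1)) := by positivity
  have key : ∀ᶠ δ in 𝓝[>] (0 : ℝ), ∀ k ∈ Finset.range D', ∀ w ∈ Y, ∀ ν : ℂ,
      db1_Eq φ zX ψ m d h δ w ν → ‖pr (ψ k) w‖ ≤ 1 / (2 * ((D' : ℝ) + 1)) * db1_N ψ D' w := by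
    rw [Filter.eventually_all_finset]
    intro k hk
    have hk' := Finset.mem_range.1 hk
    exact db1_small hX hY hh (by omega) (by omega) hε
  filter_upwards [key] with δ hδ w hw ν hν
  refine db1_zero hY hw ?_
  have hN := db1_Nn ψ D' w
  have h1 : db1_N ψ D' w ≤ ∑ k ∈ Finset.range D', 1 / (2 * ((D' : ℝ) + 1)) * db1_N ψ D' w :=
    Finset.sum_le_sum fun k hk => hδ k hk w hw ν hν
  rw [Finset.sum_const, Finset.card_range, nsmul_eq_mul] at h1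
  have h2 : (D' : ℝ) * (1 / (2 * ((D' : ℝ) + 1)) * db1_N ψ D' w) ≤ 1 / 2 * db1_N ψ D' w := by
    rw [← mul_assoc]
    refine mul_le_mul_of_nonneg_right ?_ hN
    rw [mul_one_div, div_le_div_iff₀ (by positivity) (by norm_num)]
    nlinarith [Nat.cast_nonneg (α := ℝ) D']
  linarith

/-- The last coordinate dominates. -/
private theorem db1_dom (hX : Flag X (d + 1) φ zX) (hY : Flag Y (d + 1) ψ zY) {h : B → ℝ}
    (hh : pr h (fun b => (zX d b : ℂ)) ≠ 0) (hm : d ≤ m) {ε : ℝ} (hε : 0 < ε) :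
    ∀ᶠ δ in 𝓝[>] (0 : ℝ), ∀ w ∈ Y, ∀ ν : ℂ, db1_Eq φ zX ψ m d h δ w ν →
      db1_N ψ (d + 1) w ≤ 2 * ‖pr (ψ d) w‖ ∧ ∀ k, k < d → ‖pr (ψ k) w‖ ≤ ε * ‖pr (ψ d) w‖ := by
  obtain ⟨η, hη⟩ : ∃ η, η = min (ε / 2) (1 / (2 * ((d : ℝ) + 1))) := ⟨_, rfl⟩
  have hη0 : 0 < η := by
    rw [hη]
    exact lt_min (by positivity) (by positivity)
  have key : ∀ᶠ δ in 𝓝[>] (0 : ℝ), ∀ k ∈ Finset.range d, ∀ w ∈ Y, ∀ ν : ℂ,
      db1_Eq φ zX ψ m d h δ w ν → ‖pr (ψ k) w‖ ≤ η * db1_N ψ (d + 1) w := by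
    rw [Filter.eventually_all_finset]
    intro k hk
    have hk' := Finset.mem_range.1 hk
    exact db1_small hX hY hh (by omega) (by omega) hη0
  filter_upwards [key] with δ hδ w hw ν hν
  have hN := db1_Nn ψ (d + 1) w
  have h1 : db1_N ψ (d + 1) w ≤ (d : ℝ) * (η * db1_N ψ (d + 1) w) + ‖pr (ψ d) w‖ := by
    have h2 : db1_N ψ (d + 1) w = ∑ k ∈ Finset.range d, ‖pr (ψ k) w‖ + ‖pr (ψ d) w‖ :=
      Finset.sum_range_succ _ _
    have h3 : ∑ k ∈ Finset.range d, ‖pr (ψ k) w‖ ≤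
        ∑ k ∈ Finset.range d, η * db1_N ψ (d + 1) w :=
      Finset.sum_le_sum fun k hk => hδ k hk w hw ν hν
    rw [Finset.sum_const, Finset.card_range, nsmul_eq_mul] at h3
    linarith
  have h4 : (d : ℝ) * (η * db1_N ψ (d + 1) w) ≤ 1 / 2 * db1_N ψ (d + 1) w := by
    rw [← mul_assoc]
    refine mul_le_mul_of_nonneg_right ?_ hN
    have h5 : η ≤ 1 / (2 * ((d : ℝ) + 1)) := by
      rw [hη]
      exact min_le_right _ _
    have h6 : (d : ℝ) * η ≤ (d : ℝ) * (1 / (2 * ((d : ℝ) + 1))) :=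
      mul_le_mul_of_nonneg_left h5 (Nat.cast_nonneg d)
    refine h6.trans ?_
    rw [mul_one_div, div_le_div_iff₀ (by positivity) (by norm_num)]
    nlinarith [Nat.cast_nonneg (α := ℝ) d]
  have h7 : db1_N ψ (d + 1) w ≤ 2 * ‖pr (ψ d) w‖ := by linarith
  refine ⟨h7, fun k hk => (hδ k (Finset.mem_range.2 hk) w hw ν hν).trans ?_⟩
  have h8 : η ≤ ε / 2 := by
    rw [hη]
    exact min_le_left _ _
  calc η * db1_N ψ (d + 1) w ≤ ε / 2 * (2 * ‖pr (ψ d) w‖) :=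
        mul_le_mul h8 h7 hN (by positivity)
    _ = ε * ‖pr (ψ d) w‖ := by ring

/-- Nondegenerate. -/
private theorem db1_nd (hX : Flag X (d + 1) φ zX) (hY : Flag Y (d + 1) ψ zY) (hm : d ≤ m) :
    ∀ᶠ δ in 𝓝[>] (0 : ℝ), ∀ w ∈ Y,
      (∀ z ∈ X, bf (rw0 φ ψ m fun l => 1 * δ ^ l) z w = 0) → w = 0 := by
  have hε : 0 < 1 / (2 * ((d : ℝ) + 1)) := by positivity
  have key : ∀ᶠ δ in 𝓝[>] (0 : ℝ), ∀ k ∈ Finset.range (d + 1), ∀ w ∈ Y,
      (∀ z ∈ X, bf (rw0 φ ψ m fun l => 1 * δ ^ l) z w = 0) →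
        ‖pr (ψ k) w‖ ≤ 1 / (2 * ((d : ℝ) + 1)) * db1_N ψ (d + 1) w := by
    rw [Filter.eventually_all_finset]
    intro k hk
    have hk' := Finset.mem_range.1 hk
    obtain ⟨K1, hK1, h1⟩ := db1_unit hX hY (k := k) (m := m) hk' (by omega)
    filter_upwards [db1_ev hK1 hε] with δ hδ w hw hz
    obtain ⟨p1, p2, p3⟩ := hδ
    have hN := db1_Nn ψ (d + 1) w
    have e2 := h1 δ p1 p2 w hw
    rw [hz _ (hX.mem k hk'), zero_sub, norm_neg, norm_mul, Complex.norm_real,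
      Real.norm_of_nonneg (pow_nonneg p1.le k)] at e2
    have e8 : δ ^ (d + 1) ≤ δ ^ k * δ := by
      rw [← pow_succ]
      exact pow_le_pow_of_le_one p1.le p2 hk'
    have e9 : δ ^ k * ‖pr (ψ k) w‖ ≤ δ ^ k * (K1 * δ * db1_N ψ (d + 1) w) := by
      refine e2.trans ((mul_le_mul_of_nonneg_right (mul_le_mul_of_nonneg_left e8 hK1) hN).trans
        (le_of_eq ?_))
      ring
    exact (le_of_mul_le_mul_left e9 (pow_pos p1 k)).trans (mul_le_mul_of_nonneg_right p3 hN)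
  filter_upwards [key] with δ hδ w hw hz
  refine db1_zero hY hw ?_
  have hN := db1_Nn ψ (d + 1) w
  have h1 : db1_N ψ (d + 1) w ≤
      ∑ k ∈ Finset.range (d + 1), 1 / (2 * ((d : ℝ) + 1)) * db1_N ψ (d + 1) w :=
    Finset.sum_le_sum fun k hk => hδ k hk w hw hz
  rw [Finset.sum_const, Finset.card_range, nsmul_eq_mul] at h1
  have h2 : ((d + 1 : ℕ) : ℝ) * (1 / (2 * ((d : ℝ) + 1)) * db1_N ψ (d + 1) w) =
      1 / 2 * db1_N ψ (d + 1) w := by
    have h3 : ((d : ℝ) + 1) ≠ 0 := by positivity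
    push_cast
    field_simp
  rw [h2] at h1
  linarith

/-- Vectors of higher order. -/
private theorem db1_high (hX : Flag X (d + 1) φ zX) (hY : Flag Y (d + 1) ψ zY) {h : B → ℝ}
    (hh : pr h (fun b => (zX d b : ℂ)) ≠ 0) (hm : d ≤ m) {z : B → ℂ}
    (hz : ∀ l, l < d + 1 → pr (φ l) z = 0) {ε : ℝ} (hε : 0 < ε) :
    ∀ᶠ δ in 𝓝[>] (0 : ℝ), ∀ w ∈ Y, ∀ ν : ℂ, db1_Eq φ zX ψ m d h δ w ν →
      ‖bf (rw0 φ ψ m fun l => 1 * δ ^ l) z w‖ ≤ ε * ‖ν‖ := by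
  obtain ⟨K0, hK0, h0⟩ := db1_ord (φ := φ) hY m (d + 1) z hz
  obtain ⟨K1, hK1, h1⟩ := db1_unit hX hY (k := d) (m := m) (by omega) hm
  obtain ⟨a, ha⟩ : ∃ a, a = ‖pr h (fun b => (zX d b : ℂ))‖ := ⟨_, rfl⟩
  have ha0 : 0 ≤ a := by
    rw [ha]
    exact norm_nonneg _
  have hK : 0 ≤ 4 * K0 * a := by positivity
  filter_upwards [db1_ev hK hε, db1_ev hK1 (by norm_num : (0 : ℝ) < 1 / 4),
    db1_dom hX hY hh hm one_pos] with δ hδ hδ' hdom w hw ν hν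
  obtain ⟨p1, p2, p3⟩ := hδ
  obtain ⟨-, -, p4⟩ := hδ'
  obtain ⟨hn, -⟩ := hdom w hw ν hν
  have hN := db1_Nn ψ (d + 1) w
  have e1 := h0 δ p1 p2 w hw
  have e2 := h1 δ p1 p2 w hw
  rw [hν d (by omega)] at e2
  obtain ⟨n, hn'⟩ : ∃ n, n = db1_N ψ (d + 1) w := ⟨_, rfl⟩
  obtain ⟨t, ht⟩ : ∃ t, t = ‖pr (ψ d) w‖ := ⟨_, rfl⟩
  have ht0 : 0 ≤ t := by
    rw [ht]
    exact norm_nonneg _
  rw [← hn'] at hN e1 e2 hn
  rw [← ht] at hn
  have e3 : δ ^ d * t ≤ ‖ν‖ * a + K1 * δ ^ (d + 1) * n := by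
    have e4 : ‖((δ ^ d : ℝ) : ℂ) * pr (ψ d) w‖ = δ ^ d * t := by
      rw [norm_mul, Complex.norm_real, Real.norm_of_nonneg (pow_nonneg p1.le d), ht]
    have e5 := norm_sub_le (ν * pr h (fun b => (zX d b : ℂ)))
      (ν * pr h (fun b => (zX d b : ℂ)) - ((δ ^ d : ℝ) : ℂ) * pr (ψ d) w)
    rw [sub_sub_cancel, e4, norm_mul, ← ha] at e5
    linarith
  have hd0 : 0 < δ ^ d := pow_pos p1 d
  have e6 : K1 * δ ^ (d + 1) * n ≤ 1 / 2 * (δ ^ d * t) := by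
    have e7 : K1 * δ ^ (d + 1) * n = (K1 * δ) * (δ ^ d * n) := by ring
    rw [e7]
    have e8 : (K1 * δ) * (δ ^ d * n) ≤ 1 / 4 * (δ ^ d * n) :=
      mul_le_mul_of_nonneg_right p4 (mul_nonneg hd0.le hN)
    have e9 : δ ^ d * n ≤ δ ^ d * (2 * t) := mul_le_mul_of_nonneg_left hn hd0.le
    linarith
  have e10 : δ ^ d * t ≤ 2 * (‖ν‖ * a) := by linarith
  calc ‖bf (rw0 φ ψ m fun l => 1 * δ ^ l) z w‖ ≤ K0 * δ ^ (d + 1) * n := e1
    _ = K0 * δ * (δ ^ d * n) := by ring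
    _ ≤ K0 * δ * (δ ^ d * (2 * t)) := mul_le_mul_of_nonneg_left
        (mul_le_mul_of_nonneg_left hn hd0.le) (mul_nonneg hK0 p1.le)
    _ = 2 * (K0 * δ) * (δ ^ d * t) := by ring
    _ ≤ 2 * (K0 * δ) * (2 * (‖ν‖ * a)) := mul_le_mul_of_nonneg_left e10
        (mul_nonneg (by norm_num) (mul_nonneg hK0 p1.le))
    _ = 4 * K0 * a * δ * ‖ν‖ := by ring
    _ ≤ ε * ‖ν‖ := mul_le_mul_of_nonneg_right p3 (norm_nonneg _)

/-- Functionals of `w`. -/
private theorem db1_fun (hX : Flag X (d + 1) φ zX) (hY : Flag Y (d + 1) ψ zY) {h : B → ℝ}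
    (hh : pr h (fun b => (zX d b : ℂ)) ≠ 0) (hm : d ≤ m) (f : C → ℝ) {ε : ℝ} (hε : 0 < ε) :
    ∀ᶠ δ in 𝓝[>] (0 : ℝ), ∀ w ∈ Y, ∀ ν : ℂ, db1_Eq φ zX ψ m d h δ w ν →
      ‖pr f w - pr (ψ d) w * pr f (fun c => (zY d c : ℂ))‖ ≤ ε * ‖pr (ψ d) w‖ := by
  obtain ⟨K, hK⟩ : ∃ K, K = ∑ k ∈ Finset.range d, ‖pr f (fun c => (zY k c : ℂ))‖ := ⟨_, rfl⟩
  have hK0 : 0 ≤ K := by
    rw [hK]
    exact Finset.sum_nonneg fun _ _ => norm_nonneg _
  filter_upwards [db1_dom hX hY hh hm (ε := ε / (K + 1)) (by positivity)] with δ hδ w hw ν hν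
  obtain ⟨-, h1⟩ := hδ w hw ν hν
  rw [db1_ex hY f hw, Finset.sum_range_succ, add_sub_cancel_right]
  have h2 : ‖∑ k ∈ Finset.range d, pr (ψ k) w * pr f (fun c => (zY k c : ℂ))‖ ≤
      ∑ k ∈ Finset.range d, ‖pr f (fun c => (zY k c : ℂ))‖ * (ε / (K + 1) * ‖pr (ψ d) w‖) := by
    refine (norm_sum_le _ _).trans (Finset.sum_le_sum fun k hk => ?_)
    rw [norm_mul, mul_comm]
    exact mul_le_mul_of_nonneg_left (h1 k (Finset.mem_range.1 hk)) (norm_nonneg _)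
  rw [← Finset.sum_mul, ← hK] at h2
  refine h2.trans ?_
  rw [← mul_assoc]
  refine mul_le_mul_of_nonneg_right ?_ (norm_nonneg _)
  rw [mul_div_assoc', div_le_iff₀ (by linarith)]
  nlinarith

end

section

variable {B C : Type} [Fintype B] [Fintype C] [DecidableEq B] [DecidableEq C]
  {X : Submodule ℂ (B → ℂ)} {Y : Submodule ℂ (C → ℂ)} {d m : ℕ} {φ zX : ℕ → B → ℝ}
  {ψ zY : ℕ → C → ℝ}

private theorem db1_flip (φ : ℕ → B → ℝ) (ψ : ℕ → C → ℝ) (m : ℕ) (f : ℕ → ℝ) (v : B → ℂ)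
    (w : C → ℂ) : bf (rw0 φ ψ m f) v w = bf (rw0 ψ φ m f) w v := by
  rw [bf_rw0, bf_rw0]
  exact Finset.sum_congr rfl fun l _ => by ring

omit [DecidableEq B] in
/-- The last coordinate of a nonzero vector. -/
private theorem db1_tne (hX : Flag X (d + 1) φ zX) {v : B → ℂ} (hv : v ∈ X) (h0 : v ≠ 0)
    (h : db1_N φ (d + 1) v ≤ 2 * ‖pr (φ d) v‖) : pr (φ d) v ≠ 0 := by
  intro h1
  rw [h1, norm_zero, mul_zero] at h
  exact h0 (db1_zero hX hv h)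

/-- A small perturbation of a triple product with a negative real part. -/
private theorem db1_eps {x a b : ℂ} (h : (x * a * b).re < 0) :
    ∃ ε : ℝ, 0 < ε ∧ ∀ x' a' b' : ℂ, ‖x' - x‖ ≤ ε → ‖a' - a‖ ≤ ε → ‖b' - b‖ ≤ ε →
      (x' * a' * b').re < 0 := by
  have hc : Continuous fun p : ℂ × ℂ × ℂ => (p.1 * p.2.1 * p.2.2).re := by fun_prop
  have ho : IsOpen {p : ℂ × ℂ × ℂ | (p.1 * p.2.1 * p.2.2).re < 0} :=
    isOpen_lt hc continuous_const
  obtain ⟨ε, h1, h2⟩ := Metric.isOpen_iff.1 ho (x, a, b) h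
  refine ⟨ε / 2, by positivity, fun x' a' b' hx ha hb => ?_⟩
  have h3 : (x', a', b') ∈ Metric.ball (x, a, b) ε := by
    rw [Metric.mem_ball, Prod.dist_eq, Prod.dist_eq, max_lt_iff, max_lt_iff]
    refine ⟨?_, ?_, ?_⟩
    · rw [dist_eq_norm]
      exact lt_of_le_of_lt hx (by linarith)
    · rw [dist_eq_norm]
      exact lt_of_le_of_lt ha (by linarith)
    · rw [dist_eq_norm]
      exact lt_of_le_of_lt hb (by linarith)
  exact h2 h3

omit [DecidableEq B] [DecidableEq C] in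
/-- The equations tested with the whole space. -/
private theorem db1_toEq (hX : Flag X (d + 1) φ zX) {h : B → ℝ} {δ : ℝ} {w : C → ℂ} {ν : ℂ}
    (he : ∀ x ∈ X, bf (rw0 φ ψ m fun l => 1 * δ ^ l) x w = ν * pr h x) :
    db1_Eq φ zX ψ m d h δ w ν :=
  fun l hl => he _ (hX.mem l hl)

/-- The sign condition for a vector of higher order. -/
private theorem db1_side (hX : Flag X (d + 1) φ zX) (hY : Flag Y (d + 1) ψ zY) {h : B → ℝ}
    {h' : C → ℝ} (hh : pr h (fun b => (zX d b : ℂ)) ≠ 0)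
    (hh' : pr h' (fun c => (zY d c : ℂ)) ≠ 0) (hm : d ≤ m) {z : B → ℂ}
    (hz : ∀ l, l < d + 1 → pr (φ l) z = 0) (f : B → ℝ)
    (hs : (pr h z * pr f (fun b => (zX d b : ℂ)) * pr h (fun b => (zX d b : ℂ))).re < 0) :
    ∀ᶠ δ in 𝓝[>] (0 : ℝ), ∀ v ∈ X, ∀ w ∈ Y, ∀ ν ν' : ℂ, v ≠ 0 → ν ≠ 0 → Rea v →
      (∀ x ∈ X, bf (rw0 φ ψ m fun l => 1 * δ ^ l) x w = ν * pr h x) →
      (∀ y ∈ Y, bf (rw0 φ ψ m fun l => 1 * δ ^ l) v y = ν' * pr h' y) →
      ((pr h z - bf (rw0 φ ψ m fun l => 1 * δ ^ l) z w / ν) * pr f v * pr h v).re < 0 := by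
  obtain ⟨ε, hε, he⟩ := db1_eps hs
  filter_upwards [db1_high hX hY hh hm hz hε, db1_fun hY hX hh' hm f hε,
    db1_fun hY hX hh' hm h hε, db1_dom hY hX hh' hm one_pos] with δ h1 h2 h3 h4 v hv w hw ν ν'
    v0 ν0 rv e1 e2
  have E1 := db1_toEq hX e1
  have E2 : db1_Eq ψ zY φ m d h' δ v ν' := fun l hl => by
    rw [db1_flip]
    exact e2 _ (hY.mem l hl)
  have g1 := h1 w hw ν E1
  have g2 := h2 v hv ν' E2
  have g3 := h3 v hv ν' E2
  have ht := db1_tne hX hv v0 (h4 v hv ν' E2).1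
  have ht' : pr (φ d) v = ((pr (φ d) v).re : ℂ) :=
    Complex.ext rfl (by rw [pr_re _ rv, Complex.ofReal_im])
  obtain ⟨t, htd⟩ : ∃ t : ℝ, t = (pr (φ d) v).re := ⟨_, rfl⟩
  rw [← htd] at ht'
  rw [ht'] at g2 g3 ht
  have ht0 : t ≠ 0 := fun h => ht (by rw [h, Complex.ofReal_zero])
  have hn : 0 < ‖(t : ℂ)‖ := norm_pos_iff.2 ht
  have k : ∀ y y0 : ℂ, ‖y - (t : ℂ) * y0‖ ≤ ε * ‖(t : ℂ)‖ → ‖y / (t : ℂ) - y0‖ ≤ ε := by
    intro y y0 hy
    have e : y / (t : ℂ) - y0 = (y - (t : ℂ) * y0) / (t : ℂ) := by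
      field_simp
    rw [e, norm_div, div_le_iff₀ hn]
    exact hy
  have k1 : ‖(pr h z - bf (rw0 φ ψ m fun l => 1 * δ ^ l) z w / ν) - pr h z‖ ≤ ε := by
    have e : (pr h z - bf (rw0 φ ψ m fun l => 1 * δ ^ l) z w / ν) - pr h z =
        -(bf (rw0 φ ψ m fun l => 1 * δ ^ l) z w / ν) := by ring
    rw [e, norm_neg, norm_div, div_le_iff₀ (norm_pos_iff.2 ν0)]
    exact g1
  have k2 := he _ _ _ k1 (k _ _ g2) (k _ _ g3)
  have e : (pr h z - bf (rw0 φ ψ m fun l => 1 * δ ^ l) z w / ν) * pr f v * pr h v =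
      ((t ^ 2 : ℝ) : ℂ) * ((pr h z - bf (rw0 φ ψ m fun l => 1 * δ ^ l) z w / ν) *
        (pr f v / (t : ℂ)) * (pr h v / (t : ℂ))) := by
    push_cast
    field_simp
  rw [e, Complex.re_ofReal_mul]
  exact mul_neg_of_pos_of_neg (by positivity) k2

/-- The value of the window does not vanish. -/
private theorem db1_hne (hX : Flag X (d + 1) φ zX) (hY : Flag Y (d + 1) ψ zY) {h : B → ℝ}
    {h' : C → ℝ} (hh : pr h (fun b => (zX d b : ℂ)) ≠ 0)
    (hh' : pr h' (fun c => (zY d c : ℂ)) ≠ 0) (hm : d ≤ m) :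
    ∀ᶠ δ in 𝓝[>] (0 : ℝ), ∀ v ∈ X, ∀ ν' : ℂ, v ≠ 0 →
      (∀ y ∈ Y, bf (rw0 φ ψ m fun l => 1 * δ ^ l) v y = ν' * pr h' y) → pr h v ≠ 0 := by
  have hε : 0 < ‖pr h (fun b => (zX d b : ℂ))‖ / 2 := half_pos (norm_pos_iff.2 hh)
  filter_upwards [db1_fun hY hX hh' hm h hε, db1_dom hY hX hh' hm one_pos] with δ h3 h4 v hv ν'
    v0 e2 h0
  have E2 : db1_Eq ψ zY φ m d h' δ v ν' := fun l hl => by
    rw [db1_flip]
    exact e2 _ (hY.mem l hl)
  have g3 := h3 v hv ν' E2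
  have ht := db1_tne hX hv v0 (h4 v hv ν' E2).1
  rw [h0, zero_sub, norm_neg, norm_mul] at g3
  have hn : 0 < ‖pr (φ d) v‖ := norm_pos_iff.2 ht
  have h5 : 0 < ‖pr (φ d) v‖ * ‖pr h (fun b => (zX d b : ℂ))‖ :=
    mul_pos hn (norm_pos_iff.2 hh)
  linarith

end

section

variable {P : Par} {N : ℕ}

open Polynomial in
private theorem db1_cf (a : ℝ) (m : ℕ) (H : ℂ[X]) :
    (taylor (a : ℂ) ((X - C (a : ℂ)) ^ m * H)).coeff m = H.eval (a : ℂ) := by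
  rw [taylor_mul, taylor_pow, map_sub, taylor_X, taylor_C, add_sub_cancel_right]
  have h := coeff_X_pow_mul (taylor (a : ℂ) H) m 0
  rw [zero_add] at h
  rw [h, taylor_coeff_zero]

private theorem db1_g (hP : GoodP P N) : ∀ q, P.gh < P.g (q + 1) := by
  intro q
  induction q with
  | zero => exact hP.h2
  | succ q ih => exact ih.trans (hP.h3 (q + 1) (by omega))

private theorem db1_gh (hP : GoodP P N) : 0 < P.gh := hP.h0.trans hP.h1

private theorem db1_ne (hP : GoodP P N) (q : ℕ) : P.gh - P.g q ≠ 0 := by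
  cases q with
  | zero => exact (sub_pos.2 hP.h1).ne'
  | succ q => exact (sub_neg.2 (db1_g hP q)).ne

open Polynomial in
private theorem db1_eval (P : Par) (s : Finset ℕ) (i : ℕ → ℕ) (a : ℝ) :
    (∏ q ∈ s, (X - C (P.g q : ℂ)) ^ i q).eval (a : ℂ) =
      ((∏ q ∈ s, (a - P.g q) ^ i q : ℝ) : ℂ) := by
  rw [eval_prod]
  push_cast
  exact Finset.prod_congr rfl fun q _ => by rw [eval_pow, eval_sub, eval_X, eval_C]

open Polynomial in
private theorem db1_nod (P : Par) (N : ℕ) (i : ℕ → ℕ) :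
    nod P N 1 i = X * ∏ q ∈ Finset.range (N + 1), (X - C (P.g q : ℂ)) ^ i q := by
  rw [nod, if_pos (by simp), if_neg (by decide), mul_one]

open Polynomial in
private theorem db1_span (hP : GoodP P N) {n : ℕ} {x : Fin 3} {i : ℕ → ℕ}
    (hi : ∀ q, N < q → i q = 0) (hd : dg N x i = n) {v : Fin (n + 1) → ℂ} (hv : v ∈ Xo P n x i) :
    ∃ c : ℂ, pol P n v = C c * nod P N x i := by
  obtain ⟨k, hk⟩ := (mem_Xo' hP n x hi v).1 hv
  obtain ⟨h1, h2, -⟩ := nod_deg P N x i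
  by_cases hk0 : k = 0
  · exact ⟨0, by rw [hk, hk0, mul_zero, C_0, zero_mul]⟩
  have h3 := (pol_lin P n v v 0).2.2
  rw [hk, h2.natDegree_mul' hk0, h1, hd] at h3
  refine ⟨k.coeff 0, ?_⟩
  rw [hk, mul_comm]
  congr 1
  exact eq_C_of_natDegree_eq_zero (by omega)

/-- Realisation of a real multiple of the node product. -/
private theorem db1_real (hP : GoodP P N) (n : ℕ) (x : Fin 3) {i : ℕ → ℕ}
    (hi : ∀ p, N < p → i p = 0) (hd : dg N x i ≤ n) (r : ℝ) :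
    ∃ z ∈ Xo P n x i, Rea z ∧ pol P n z = Polynomial.C (r : ℂ) * nod P N x i := by
  obtain ⟨h1, -, h3⟩ := nod_deg P N x i
  have hdeg : (Polynomial.C (r : ℂ) * nod P N x i).natDegree ≤ n :=
    (Polynomial.natDegree_C_mul_le _ _).trans (h1.le.trans hd)
  obtain ⟨z, hz, hr, -⟩ := pol_surj hP.hρ.ne' n _ hdeg
  refine ⟨z, ?_, hr fun k => ?_, hz⟩
  · rw [mem_Xo' hP n x hi, hz]
    exact Dvd.intro_left _ rfl
  · rw [Polynomial.coeff_C_mul, Complex.im_ofReal_mul, h3 k, mul_zero]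

private theorem db1_adm {p0 : ℕ} {i : ℕ → ℕ} (h : Adm p0 N i) : ∀ p, N < p → i p = 0 := by
  intro p hp
  by_contra hne
  have := (h p hne).2
  omega

private theorem db1_i0 {i : ℕ → ℕ} (h : Adm 1 N i) : i 0 = 0 := by
  by_contra hne
  have := (h 0 hne).1
  omega

private theorem db1_at {i : ℕ → ℕ} (h : ∀ p, N < p → i p = 0) (d : ℕ) :
    ∀ p, N < p → at' i 0 d p = 0 := by
  intro p hp
  have h1 : p ≠ 0 := by omega
  rw [at', Function.update_of_ne h1]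
  exact h p hp

private theorem db1_dg {i : ℕ → ℕ} (h0 : i 0 = 0) (d : ℕ) :
    dg N 1 (at' i 0 d) = dg N 1 i + d := by
  unfold dg
  rw [Finset.sum_range_succ', Finset.sum_range_succ' _ N, h0]
  have e1 : at' i 0 d 0 = d := Function.update_self _ _ _
  have e2 : ∀ q, at' i 0 d (q + 1) = i (q + 1) := fun q =>
    Function.update_of_ne (Nat.succ_ne_zero q) _ _
  rw [e1]
  simp only [e2]
  omega

open Polynomial in
/-- The last vector of the flag is a real multiple of the node product. -/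
private theorem db1_top (hP : GoodP P N) {n d : ℕ} {i : ℕ → ℕ} (hi : Adm 1 N i)
    (hd : dg N 1 i + d = n) {z : ℕ → Fin (n + 1) → ℝ}
    (hF : Flag (Xo P n 1 i) (d + 1) (tau P n (P.g 0)) z) :
    ∃ c : ℝ, c ≠ 0 ∧ pol P n (fun b => (z d b : ℂ)) = C (c : ℂ) * nod P N 1 (at' i 0 d) := by
  have hiN := db1_adm hi
  have hi0 := db1_i0 hi
  have hdd : dg N 1 (at' i 0 d) = n := by rw [db1_dg hi0, hd]
  have hy := hF.mem d (Nat.lt_succ_self d)
  have hy' : (fun b => (z d b : ℂ)) ∈ Xo P n 1 (at' i 0 d) := by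
    refine ⟨hy.1, fun p l hl => ?_⟩
    by_cases hp : p = 0
    · subst hp
      have h1 : l < d := by
        rwa [at', Function.update_self] at hl
      rw [hF.dual l d (by omega) (Nat.lt_succ_self d), if_neg (by omega)]
    · rw [at', Function.update_of_ne hp] at hl
      exact hy.2 p l hl
  obtain ⟨c, hc⟩ := db1_span hP (db1_at hiN d) hdd hy'
  have ht := hF.dual d d (Nat.lt_succ_self d) (Nat.lt_succ_self d)
  rw [if_pos rfl, pr_tau, hc, taylor_mul, taylor_C, coeff_C_mul] at ht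
  obtain ⟨z1, -, r1, e1⟩ := db1_real hP n 1 (db1_at hiN d) hdd.le 1
  have h2 := pr_re (tau P n (P.g 0) d) r1
  rw [pr_tau, e1, Complex.ofReal_one, C_1, one_mul] at h2
  obtain ⟨r, hr⟩ : ∃ r : ℝ, r = ((taylor ((P.g 0 : ℝ) : ℂ) (nod P N 1 (at' i 0 d))).coeff d).re :=
    ⟨_, rfl⟩
  have h3 : (taylor ((P.g 0 : ℝ) : ℂ) (nod P N 1 (at' i 0 d))).coeff d = (r : ℂ) :=
    Complex.ext (by rw [hr, Complex.ofReal_re]) (by rw [h2, Complex.ofReal_im])
  rw [h3] at ht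
  have hr0 : (r : ℂ) ≠ 0 := by
    intro h
    rw [h, mul_zero] at ht
    exact zero_ne_one ht
  have hr0' : r ≠ 0 := fun h => hr0 (by rw [h, Complex.ofReal_zero])
  have hcr : c = ((r⁻¹ : ℝ) : ℂ) := by
    rw [Complex.ofReal_inv]
    exact eq_inv_of_mul_eq_one_left ht
  exact ⟨r⁻¹, inv_ne_zero hr0', by rw [hc, hcr]⟩

open Polynomial in
private theorem db1_hz (hP : GoodP P N) {n d : ℕ} {i : ℕ → ℕ} (hi : Adm 1 N i)
    (hd : dg N 1 i + d = n) {z : ℕ → Fin (n + 1) → ℝ}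
    (hF : Flag (Xo P n 1 i) (d + 1) (tau P n (P.g 0)) z) :
    pr (hv P n) (fun b => (z d b : ℂ)) ≠ 0 := by
  obtain ⟨c, hc, h1⟩ := db1_top hP hi hd hF
  have hy := hF.mem d (Nat.lt_succ_self d)
  rw [(pr_hv P n _ (hy.1.1 (by simp))).1, h1, db1_nod, eval_mul, eval_C, eval_mul, eval_X,
    db1_eval]
  refine mul_ne_zero (Complex.ofReal_ne_zero.2 hc) (mul_ne_zero
    (Complex.ofReal_ne_zero.2 (db1_gh hP).ne') (Complex.ofReal_ne_zero.2 ?_))
  exact Finset.prod_ne_zero_iff.2 fun q _ => pow_ne_zero _ (db1_ne hP q)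

open Polynomial in
/-- The node product with the nodes `0` and `p` separated. -/
private theorem db1_split (P : Par) {N p : ℕ} (hp : p ≠ 0) (hpN : p ≤ N) (f : ℕ → ℕ) :
    nod P N 1 f = X * ((X - C (P.g 0 : ℂ)) ^ f 0 * ((X - C (P.g p : ℂ)) ^ f p *
      ∏ q ∈ ((Finset.range (N + 1)).erase 0).erase p, (X - C (P.g q : ℂ)) ^ f q)) := by
  rw [db1_nod, Finset.mul_prod_erase _ (fun q => (X - C (P.g q : ℂ)) ^ f q),
    Finset.mul_prod_erase _ (fun q => (X - C (P.g q : ℂ)) ^ f q)]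
  · exact Finset.mem_range.2 (Nat.succ_pos N)
  · exact Finset.mem_erase.2 ⟨hp, Finset.mem_range.2 (Nat.lt_succ_of_le hpN)⟩

private theorem db1_dgs {N p : ℕ} (hp : p ≠ 0) (hpN : p ≤ N) (f : ℕ → ℕ) :
    dg N 1 f = 1 + (f 0 + (f p +
      ∑ q ∈ ((Finset.range (N + 1)).erase 0).erase p, f q)) := by
  unfold dg
  rw [Finset.add_sum_erase _ (fun q => f q), Finset.add_sum_erase _ (fun q => f q)]
  · rfl
  · exact Finset.mem_range.2 (Nat.succ_pos N)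
  · exact Finset.mem_erase.2 ⟨hp, Finset.mem_range.2 (Nat.lt_succ_of_le hpN)⟩

open Polynomial in
/-- The test vectors of high order at the node `0`. -/
private theorem db1_tst (hP : GoodP P N) {n d : ℕ} {i : ℕ → ℕ} (hi : Adm 1 N i)
    (hd : dg N 1 i + d = n) {z : ℕ → Fin (n + 1) → ℝ}
    (hF : Flag (Xo P n 1 i) (d + 1) (tau P n (P.g 0)) z) {p : ℕ} (hp : i p ≠ 0) :
    ∃ z' ∈ Xo P n 1 (dn i p), Rea z' ∧ pr (tau P n (P.g p) (i p - 1)) z' = 1 ∧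
      (∀ l, l < d + 1 → pr (tau P n (P.g 0) l) z' = 0) ∧
      (pr (hv P n) z' * pr (tau P n (P.g p) (i p)) (fun b => (z d b : ℂ)) *
        pr (hv P n) (fun b => (z d b : ℂ))).re < 0 := by
  have hiN := db1_adm hi
  have hi0 := db1_i0 hi
  obtain ⟨hp1, hpN⟩ := hi p hp
  have hp0 : p ≠ 0 := by omega
  obtain ⟨c, hc, hy⟩ := db1_top hP hi hd hF
  obtain ⟨f1, hf1⟩ : ∃ f1, f1 = at' (dn i p) 0 (d + 1) := ⟨_, rfl⟩
  obtain ⟨f2, hf2⟩ : ∃ f2, f2 = at' i 0 d := ⟨_, rfl⟩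
  obtain ⟨S, hS⟩ : ∃ S, S = ((Finset.range (N + 1)).erase 0).erase p := ⟨_, rfl⟩
  have hSq : ∀ q ∈ S, q ≠ p ∧ q ≠ 0 := by
    intro q hq
    rw [hS] at hq
    exact ⟨Finset.ne_of_mem_erase hq, Finset.ne_of_mem_erase (Finset.mem_of_mem_erase hq)⟩
  have a1 : f1 0 = d + 1 := by rw [hf1, at', Function.update_self]
  have a2 : f1 p = i p - 1 := by rw [hf1, at', Function.update_of_ne hp0, dn, Function.update_self]
  have a3 : ∀ q, q ≠ p → q ≠ 0 → f1 q = i q := fun q h1 h2 => by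
    rw [hf1, at', Function.update_of_ne h2, dn, Function.update_of_ne h1]
  have b1 : f2 0 = d := by rw [hf2, at', Function.update_self]
  have b2 : ∀ q, q ≠ 0 → f2 q = i q := fun q h2 => by
    rw [hf2, at', Function.update_of_ne h2]
  have hf1N : ∀ q, N < q → f1 q = 0 := fun q hq => by
    rw [a3 q (by omega) (by omega)]
    exact hiN q hq
  have hdg1 : dg N 1 f1 ≤ n := by
    have e1 := db1_dgs hp0 hpN f1
    have e2 := db1_dgs hp0 hpN i
    rw [← hS] at e1 e2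
    have e3 : ∑ q ∈ S, f1 q = ∑ q ∈ S, i q :=
      Finset.sum_congr rfl fun q hq => a3 q (hSq q hq).1 (hSq q hq).2
    rw [a1, a2, e3] at e1
    omega
  have n1 := db1_split P hp0 hpN f1
  have n2 := db1_split P hp0 hpN f2
  rw [← hS, a1, a2, Finset.prod_congr rfl (fun q hq => by
    rw [a3 q (hSq q hq).1 (hSq q hq).2])] at n1
  rw [← hS, b1, b2 p hp0, Finset.prod_congr rfl (fun q hq => by
    rw [b2 q (hSq q hq).2])] at n2
  rw [← hf2, n2] at hy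
  obtain ⟨H, hH⟩ : ∃ H, H = ∏ q ∈ S, (X - C (P.g q : ℂ)) ^ i q := ⟨_, rfl⟩
  rw [← hH] at n1 hy
  have eH : ∀ a : ℝ, H.eval (a : ℂ) = ((∏ q ∈ S, (a - P.g q) ^ i q : ℝ) : ℂ) := fun a => by
    rw [hH, db1_eval]
  obtain ⟨L, hL⟩ : ∃ L, L = ∏ q ∈ S, (P.g p - P.g q) ^ i q := ⟨_, rfl⟩
  obtain ⟨K, hK⟩ : ∃ K, K = ∏ q ∈ S, (P.gh - P.g q) ^ i q := ⟨_, rfl⟩
  have hgh := db1_gh hP
  have hg0 := hP.h1
  have hgp : P.gh < P.g p := by
    obtain ⟨p', rfl⟩ : ∃ p', p = p' + 1 := ⟨p - 1, by omega⟩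
    exact db1_g hP p'
  have hL0 : L ≠ 0 := by
    rw [hL]
    exact Finset.prod_ne_zero_iff.2 fun q hq =>
      pow_ne_zero _ (sub_ne_zero.2 (GoodP.inj hP (hSq q hq).1.symm))
  have hK0 : K ≠ 0 := by
    rw [hK]
    exact Finset.prod_ne_zero_iff.2 fun q _ => pow_ne_zero _ (db1_ne hP q)
  have hpg : P.g p - P.g 0 ≠ 0 := by
    have : P.g 0 < P.g p := hg0.trans hgp
    exact (sub_pos.2 this).ne'
  obtain ⟨r, hr⟩ : ∃ r : ℝ, r = (P.g p * ((P.g p - P.g 0) ^ (d + 1) * L))⁻¹ := ⟨_, rfl⟩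
  have hgp0 : P.g p ≠ 0 := by linarith
  have hr1 : r * (P.g p * ((P.g p - P.g 0) ^ (d + 1) * L)) = 1 := by
    rw [hr]
    exact inv_mul_cancel₀ (mul_ne_zero hgp0 (mul_ne_zero (pow_ne_zero _ hpg) hL0))
  obtain ⟨z', hz', rz', ez'⟩ := db1_real hP n 1 hf1N hdg1 r
  rw [n1] at ez'
  have hz0 : z' ∈ Xo P n 1 (dn i p) := by
    refine ⟨hz'.1, fun q l hl => ?_⟩
    by_cases hq : q = 0
    · subst hq
      rw [dn, Function.update_of_ne (Ne.symm hp0), hi0] at hl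
      omega
    · refine hz'.2 q l ?_
      rw [hf1, at', Function.update_of_ne hq]
      exact hl
  -- the values
  have v1 : pr (tau P n (P.g p) (i p - 1)) z' =
      ((r * (P.g p * ((P.g p - P.g 0) ^ (d + 1) * L)) : ℝ) : ℂ) := by
    rw [pr_tau, ez']
    have e1 : C (r : ℂ) * (X * ((X - C (P.g 0 : ℂ)) ^ (d + 1) *
        ((X - C (P.g p : ℂ)) ^ (i p - 1) * H))) = (X - C (P.g p : ℂ)) ^ (i p - 1) *
        (C (r : ℂ) * X * (X - C (P.g 0 : ℂ)) ^ (d + 1) * H) := by ring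
    rw [e1, db1_cf, eval_mul, eval_mul, eval_mul, eval_C, eval_X, eval_pow, eval_sub, eval_X,
      eval_C, eH, ← hL]
    push_cast
    ring
  have v2 : pr (hv P n) z' = ((r * (P.gh * ((P.gh - P.g 0) ^ (d + 1) *
      ((P.gh - P.g p) ^ (i p - 1) * K))) : ℝ) : ℂ) := by
    rw [(pr_hv P n z' (hz'.1.1 (by simp))).1, ez', eval_mul, eval_C, eval_mul, eval_X, eval_mul,
      eval_mul, eval_pow, eval_pow, eval_sub, eval_sub, eval_X, eval_C, eval_C, eH, ← hK]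
    push_cast
    ring
  have hym := hF.mem d (Nat.lt_succ_self d)
  have v3 : pr (tau P n (P.g p) (i p)) (fun b => (z d b : ℂ)) =
      ((c * (P.g p * ((P.g p - P.g 0) ^ d * L)) : ℝ) : ℂ) := by
    rw [pr_tau, hy]
    have e1 : C (c : ℂ) * (X * ((X - C (P.g 0 : ℂ)) ^ d *
        ((X - C (P.g p : ℂ)) ^ (i p) * H))) = (X - C (P.g p : ℂ)) ^ (i p) *
        (C (c : ℂ) * X * (X - C (P.g 0 : ℂ)) ^ d * H) := by ring
    rw [e1, db1_cf, eval_mul, eval_mul, eval_mul, eval_C, eval_X, eval_pow, eval_sub, eval_X,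
      eval_C, eH, ← hL]
    push_cast
    ring
  have v4 : pr (hv P n) (fun b => (z d b : ℂ)) = ((c * (P.gh * ((P.gh - P.g 0) ^ d *
      ((P.gh - P.g p) ^ (i p) * K))) : ℝ) : ℂ) := by
    rw [(pr_hv P n _ (hym.1.1 (by simp))).1, hy, eval_mul, eval_C, eval_mul, eval_X, eval_mul,
      eval_mul, eval_pow, eval_pow, eval_sub, eval_sub, eval_X, eval_C, eval_C, eH, ← hK]
    push_cast
    ring
  refine ⟨z', hz0, rz', by rw [v1, hr1, Complex.ofReal_one], fun l hl => ?_, ?_⟩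
  · exact hz'.2 0 l (by rw [a1]; exact hl)
  · rw [v2, v3, v4, ← Complex.ofReal_mul, ← Complex.ofReal_mul, Complex.ofReal_re]
    obtain ⟨k, hk⟩ : ∃ k, i p = k + 1 := ⟨i p - 1, by omega⟩
    have e1 : r * (P.gh * ((P.gh - P.g 0) ^ (d + 1) * ((P.gh - P.g p) ^ (i p - 1) * K))) *
        (c * (P.g p * ((P.g p - P.g 0) ^ d * L))) *
        (c * (P.gh * ((P.gh - P.g 0) ^ d * ((P.gh - P.g p) ^ (i p) * K)))) =
        (r * (P.g p * ((P.g p - P.g 0) ^ (d + 1) * L))) * ((c * P.gh * K *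
          (P.gh - P.g 0) ^ d * (P.gh - P.g p) ^ k) ^ 2 *
          ((P.gh - P.g 0) / (P.g p - P.g 0))) * (P.gh - P.g p) := by
      rw [hk, Nat.add_sub_cancel]
      field_simp
      ring
    rw [e1, hr1, one_mul]
    have h1 : 0 < P.gh - P.g 0 := sub_pos.2 hg0
    have h2 : P.gh - P.g p < 0 := sub_neg.2 hgp
    have h3 : 0 < P.g p - P.g 0 := sub_pos.2 (hg0.trans hgp)
    have h4 : c * P.gh * K * (P.gh - P.g 0) ^ d * (P.gh - P.g p) ^ k ≠ 0 :=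
      mul_ne_zero (mul_ne_zero (mul_ne_zero (mul_ne_zero hc hgh.ne') hK0)
        (pow_ne_zero _ h1.ne')) (pow_ne_zero _ h2.ne)
    have h5 : 0 < (c * P.gh * K * (P.gh - P.g 0) ^ d * (P.gh - P.g p) ^ k) ^ 2 := by
      positivity
    exact mul_neg_of_pos_of_neg (mul_pos h5 (div_pos h1 h3)) h2

end

section

variable {B C : Type} [Fintype B] [Fintype C] [DecidableEq B] [DecidableEq C]
  {X : Submodule ℂ (B → ℂ)} {Y : Submodule ℂ (C → ℂ)}

private theorem db1_bfl (F : B → C → ℝ) (a b : B → ℂ) (c : ℂ) (w : C → ℂ) :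
    bf F (a + c • b) w = bf F a w + c * bf F b w := by
  rw [← dt_bfB, dt_add_right, dt_smul_right, dt_bfB, dt_bfB]

private theorem db1_bfr (F : B → C → ℝ) (v : B → ℂ) (a b : C → ℂ) (c : ℂ) :
    bf F v (a + c • b) = bf F v a + c * bf F v b := by
  rw [← dt_bfC, dt_add_right, dt_smul_right, dt_bfC, dt_bfC]

omit [DecidableEq B] [DecidableEq C] in
private theorem db1_bfcj (F : B → C → ℝ) (v : B → ℂ) (w : C → ℂ) :
    bf F (cj v) (cj w) = starRingEnd ℂ (bf F v w) := by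
  unfold bf cj
  rw [map_sum]
  refine Finset.sum_congr rfl fun b _ => ?_
  rw [map_sum]
  exact Finset.sum_congr rfl fun c _ => by rw [map_mul, map_mul, Complex.conj_ofReal]

private theorem db1_cjcj {A : Type} (x : A → ℂ) : cj (cj x) = x := by
  funext a
  exact Complex.conj_conj _

/-- Vectors are determined by the equations. -/
private theorem db1_uniq {F : B → C → ℝ} {h : B → ℝ} {w : C → ℂ} (hw : w ∈ Y) {ν : ℂ}
    (hν : ν ≠ 0) (he : ∀ x ∈ X, bf F x w = ν * pr h x)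
    (hnd : ∀ w' ∈ Y, (∀ x ∈ X, bf F x w' = 0) → w' = 0) {w' : C → ℂ} (hw' : w' ∈ Y) {c : ℂ}
    (he' : ∀ x ∈ X, bf F x w' = c * pr h x) : w' = (c / ν) • w := by
  have h1 : w' + (-(c / ν)) • w = 0 := by
    refine hnd _ (add_mem hw' (Submodule.smul_mem _ _ hw)) fun x hx => ?_
    rw [db1_bfr, he x hx, he' x hx]
    field_simp
    ring
  rw [neg_smul, ← sub_eq_add_neg] at h1
  exact sub_eq_zero.1 h1

private theorem db1_rea {F : B → C → ℝ} {h : B → ℝ} (hX : Cj X) (hY : Cj Y) {w : C → ℂ}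
    (hw : w ∈ Y) {ν : ℂ} (hν : ν ≠ 0) (he : ∀ x ∈ X, bf F x w = ν * pr h x)
    (hnd : ∀ w' ∈ Y, (∀ x ∈ X, bf F x w' = 0) → w' = 0) : Rea (ν⁻¹ • w) := by
  obtain ⟨w', hw'⟩ : ∃ w', w' = ν⁻¹ • w := ⟨_, rfl⟩
  have h0 : w' ∈ Y := by
    rw [hw']
    exact Submodule.smul_mem _ _ hw
  have h1 : ∀ x ∈ X, bf F x w' = 1 * pr h x := by
    intro x hx
    have h2 := db1_bfr F x 0 w ν⁻¹
    rw [zero_add, ← hw', he x hx] at h2
    have h3 : bf F x (0 : C → ℂ) = 0 := by simp [bf]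
    rw [h2, h3, zero_add, inv_mul_cancel_left₀ hν, one_mul]
  have h2 : ∀ x ∈ X, bf F x (cj w') = 1 * pr h x := by
    intro x hx
    have h3 := h1 (cj x) (hX x hx)
    have h4 := db1_bfcj F (cj x) w'
    rw [db1_cjcj, h3, one_mul, pr_cj, Complex.conj_conj] at h4
    rw [h4, one_mul]
  have h3 := db1_uniq h0 one_ne_zero h1 hnd (hY w' h0) h2
  rw [div_one, one_smul] at h3
  rw [← hw']
  intro a
  exact Complex.conj_eq_iff_im.1 (congrFun h3 a)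

end

section

variable {P : Par} {N n2 n3 : ℕ}

/-- The form of the row `0`. -/
private noncomputable def db1_F (P : Par) (n n' m : ℕ) (δ : ℝ) :
    Fin (n + 1) → Fin (n' + 1) → ℝ :=
  rw0 (tau P n (P.g 0)) (tau P n' (P.g 0)) m fun l => 1 * δ ^ l

/-- The conclusion for one side. -/
private def db1_Cn (P : Par) {n n' : ℕ} (F : Fin (n + 1) → Fin (n' + 1) → ℝ) (i j : ℕ → ℕ)
    (v : Fin (n + 1) → ℂ) (w : Fin (n' + 1) → ℂ) (ν : ℂ) : Prop :=
  Rea (ν⁻¹ • w) ∧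
  (∀ w' ∈ Xo P n' 1 j, ∀ c : ℂ, (∀ x ∈ Xo P n 1 i, bf F x w' = c * pr (hv P n) x) →
    w' = (c / ν) • w) ∧
  pr (hv P n) v ≠ 0 ∧
  (Rea v → ∀ p, i p ≠ 0 → ∀ z ∈ Xo P n 1 (dn i p), Rea z →
    pr (tau P n (P.g p) (i p - 1)) z = 1 →
    ((pr (hv P n) z - bf F z w / ν) * pr (tau P n (P.g p) (i p)) v * pr (hv P n) v).re < 0)

private theorem db1_one (hP : GoodP P N) {n n' m d : ℕ} {i j : ℕ → ℕ} (hi : Adm 1 N i)
    (hj : Adm 1 N j) (hd : dg N 1 i + d = n) (hd' : dg N 1 j + d = n') (hm : d ≤ m) :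
    ∀ᶠ δ in 𝓝[>] (0 : ℝ), ∀ v ∈ Xo P n 1 i, ∀ w ∈ Xo P n' 1 j, ∀ ν ν' : ℂ, v ≠ 0 → ν ≠ 0 →
      (∀ x ∈ Xo P n 1 i, bf (db1_F P n n' m δ) x w = ν * pr (hv P n) x) →
      (∀ y ∈ Xo P n' 1 j, bf (db1_F P n n' m δ) v y = ν' * pr (hv P n') y) →
      db1_Cn P (db1_F P n n' m δ) i j v w ν := by
  have hiN := db1_adm hi
  have hjN := db1_adm hj
  obtain ⟨zX, hX⟩ := flag hP n 1 hiN (Nat.zero_le N) (db1_i0 hi)
  obtain ⟨zY, hY⟩ := flag hP n' 1 hjN (Nat.zero_le N) (db1_i0 hj)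
  have g1 : n + 1 - dg N 1 i = d + 1 := by omega
  have g2 : n' + 1 - dg N 1 j = d + 1 := by omega
  rw [g1] at hX
  rw [g2] at hY
  have hh := db1_hz hP hi hd hX
  have hh' := db1_hz hP hj hd' hY
  have key : ∀ᶠ δ in 𝓝[>] (0 : ℝ), ∀ p ∈ Finset.range (N + 1), ∀ v ∈ Xo P n 1 i,
      ∀ w ∈ Xo P n' 1 j, ∀ ν ν' : ℂ, v ≠ 0 → ν ≠ 0 → Rea v →
      (∀ x ∈ Xo P n 1 i, bf (db1_F P n n' m δ) x w = ν * pr (hv P n) x) →
      (∀ y ∈ Xo P n' 1 j, bf (db1_F P n n' m δ) v y = ν' * pr (hv P n') y) → i p ≠ 0 →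
      ∀ z ∈ Xo P n 1 (dn i p), pr (tau P n (P.g p) (i p - 1)) z = 1 →
        ((pr (hv P n) z - bf (db1_F P n n' m δ) z w / ν) * pr (tau P n (P.g p) (i p)) v *
          pr (hv P n) v).re < 0 := by
    rw [Filter.eventually_all_finset]
    intro p _
    by_cases hp : i p = 0
    · exact Eventually.of_forall fun δ v _ w _ ν ν' _ _ _ _ _ h => absurd hp h
    obtain ⟨z', h1, -, h3, h4, h5⟩ := db1_tst hP hi hd hX hp
    filter_upwards [db1_side hX hY hh hh' hm h4 _ h5] with δ hδ v hv w hw ν ν' v0 ν0 rv e1 e2 _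
      z hz hz1
    have h6 : z - z' ∈ Xo P n 1 i :=
      tst_diff hP n 1 hp (fun q hq => GoodP.inj hP hq.symm) hz h1 (by rw [hz1, h3])
    have h7 : pr (MPb0eK.hv P n) z - bf (db1_F P n n' m δ) z w / ν =
        pr (MPb0eK.hv P n) z' - bf (db1_F P n n' m δ) z' w / ν := by
      have h8 := e1 _ h6
      have h9 : z - z' = z + (-1 : ℂ) • z' := by rw [neg_one_smul, sub_eq_add_neg]
      rw [h9, db1_bfl, pr_add, pr_smul] at h8
      field_simp
      linear_combination -h8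
    rw [h7]
    exact hδ v hv w hw ν ν' v0 ν0 rv e1 e2
  filter_upwards [key, db1_nd (m := m) hX hY hm, db1_hne hX hY hh hh' hm] with δ h1 h2 h3 v hv w
    hw ν ν' v0 ν0 e1 e2
  refine ⟨db1_rea (Xo_cj P n 1 i) (Xo_cj P n' 1 j) hw ν0 e1 h2,
    fun w' hw' c he => db1_uniq hw ν0 e1 h2 hw' he, h3 v hv ν' v0 e2,
    fun rv p hp z hz _ hz1 => ?_⟩
  exact h1 p (Finset.mem_range.2 (Nat.lt_succ_of_le (hi p hp).2)) v hv w hw ν ν' v0 ν0 rv e1 e2
    hp z hz hz1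

/-- Different dimensions are impossible. -/
private theorem db1_no (hP : GoodP P N) {n n' m d : ℕ} {i j : ℕ → ℕ} (hi : Adm 1 N i)
    (hj : Adm 1 N j) (hd : dg N 1 i + d = n) (hd' : n' + 1 ≤ dg N 1 j + d)
    (hm : n' ≤ dg N 1 j + m) : ∀ᶠ δ in 𝓝[>] (0 : ℝ), ∀ w ∈ Xo P n' 1 j, ∀ ν : ℂ,
      (∀ x ∈ Xo P n 1 i, bf (db1_F P n n' m δ) x w = ν * pr (hv P n) x) → w = 0 := by
  have hiN := db1_adm hi
  have hjN := db1_adm hj
  obtain ⟨zX, hX⟩ := flag hP n 1 hiN (Nat.zero_le N) (db1_i0 hi)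
  obtain ⟨zY, hY⟩ := flag hP n' 1 hjN (Nat.zero_le N) (db1_i0 hj)
  have g1 : n + 1 - dg N 1 i = d + 1 := by omega
  rw [g1] at hX
  have hh := db1_hz hP hi hd hX
  filter_upwards [db1_lt (m := m) hX hY hh (by omega) (by omega)] with δ h1 w hw ν he
  exact h1 w hw ν (db1_toEq hX he)

private theorem db1_Fflip (P : Par) (n n' m : ℕ) (δ : ℝ) (v : Fin (n + 1) → ℂ)
    (w : Fin (n' + 1) → ℂ) : bf (db1_F P n n' m δ) v w = bf (db1_F P n' n m δ) w v :=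
  db1_flip _ _ _ _ _ _

/-- The two sides, for fixed orders. -/
private theorem db1_fix (hP : GoodP P N) {i j : ℕ → ℕ} (hi : Adm 1 N i) (hj : Adm 1 N j) :
    ∀ᶠ δ in 𝓝[>] (0 : ℝ), ∀ v ∈ Xo P n2 1 i, ∀ w ∈ Xo P n3 1 j, ∀ ν ν' : ℂ, v ≠ 0 → w ≠ 0 →
      ν ≠ 0 → ν' ≠ 0 →
      (∀ x ∈ Xo P n2 1 i, bf (db1_F P n2 n3 (min n2 n3) δ) x w = ν * pr (hv P n2) x) →
      (∀ y ∈ Xo P n3 1 j, bf (db1_F P n2 n3 (min n2 n3) δ) v y = ν' * pr (hv P n3) y) →
      db1_Cn P (db1_F P n2 n3 (min n2 n3) δ) i j v w ν ∧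
      db1_Cn P (db1_F P n3 n2 (min n2 n3) δ) j i w v ν' := by
  have hiN := db1_adm hi
  have hjN := db1_adm hj
  have hdi : 1 ≤ dg N 1 i := by
    unfold dg
    exact Nat.le_add_right _ _
  have hdj : 1 ≤ dg N 1 j := by
    unfold dg
    exact Nat.le_add_right _ _
  by_cases h1 : n2 < dg N 1 i
  · refine Eventually.of_forall fun δ v hv w hw ν ν' v0 => absurd ?_ v0
    rw [Xo_bot hP n2 1 hiN h1, Submodule.mem_bot] at hv
    exact hv
  by_cases h2 : n3 < dg N 1 j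
  · refine Eventually.of_forall fun δ v hv w hw ν ν' v0 w0 => absurd ?_ w0
    rw [Xo_bot hP n3 1 hjN h2, Submodule.mem_bot] at hw
    exact hw
  obtain ⟨d, hd⟩ : ∃ d, dg N 1 i + d = n2 := ⟨n2 - dg N 1 i, by omega⟩
  obtain ⟨e, he⟩ : ∃ e, dg N 1 j + e = n3 := ⟨n3 - dg N 1 j, by omega⟩
  rcases lt_trichotomy d e with h3 | h3 | h3
  · have hm : d ≤ min n2 n3 := le_min (by omega) (by omega)
    filter_upwards [db1_no (m := min n2 n3) hP hj hi he (n' := n2) (d := e) (by omega)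
      (by omega)] with δ h4 v hv w hw ν ν' v0 w0 ν0 ν0' e1 e2
    refine absurd (h4 v hv ν' fun y hy => ?_) v0
    rw [← db1_Fflip]
    exact e2 y hy
  · subst h3
    have hm : d ≤ min n2 n3 := le_min (by omega) (by omega)
    filter_upwards [db1_one hP hi hj hd he hm, db1_one hP hj hi he hd hm] with δ h4 h5 v hv w hw
      ν ν' v0 w0 ν0 ν0' e1 e2
    refine ⟨h4 v hv w hw ν ν' v0 ν0 e1 e2, h5 w hw v hv ν' ν w0 ν0' (fun y hy => ?_)
      fun x hx => ?_⟩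
    · rw [← db1_Fflip]
      exact e2 y hy
    · rw [← db1_Fflip]
      exact e1 x hx
  · have hm : e ≤ min n2 n3 := le_min (by omega) (by omega)
    filter_upwards [db1_no (m := min n2 n3) hP hi hj hd (n' := n3) (d := d) (by omega)
      (by omega)] with δ h4 v hv w hw ν ν' v0 w0 ν0 ν0' e1 e2
    exact absurd (h4 w hw ν e1) w0

end

section

variable {P : Par} {N n2 n3 : ℕ}

private theorem db1_SRt : SR N true 1 = {0} := by
  ext a
  simp only [SR, Finset.mem_filter, Finset.mem_univ, true_and, Finset.mem_singleton, true_or]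
  constructor
  · intro h2
    exact Fin.ext (by simpa using h2)
  · rintro rfl
    simp

/-- The orders given by a function on a finite type. -/
private def db1_dec (M n : ℕ) (f : Fin M → Fin n) : ℕ → ℕ :=
  fun p => if h : p < M then (f ⟨p, h⟩ : ℕ) else 0

private theorem db1_enum {n : ℕ} {i : ℕ → ℕ} (h1 : ∀ p, N < p → i p = 0) (h2 : ∀ p, i p ≤ n) :
    ∃ f : Fin (N + 1) → Fin (n + 1), i = db1_dec (N + 1) (n + 1) f := by
  refine ⟨fun p => ⟨i p, Nat.lt_succ_of_le (h2 p)⟩, ?_⟩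
  funext p
  unfold db1_dec
  split
  · rfl
  · rename_i h
    exact h1 p (by omega)

private theorem db1_bdd (hP : GoodP P N) {n : ℕ} {x : Fin 3} {i : ℕ → ℕ}
    (hi : ∀ p, N < p → i p = 0) {v : Fin (n + 1) → ℂ} (hv : v ∈ Xo P n x i) (h0 : v ≠ 0) (p : ℕ) :
    i p ≤ n := by
  by_contra hlt
  push Not at hlt
  have hp : p ≤ N := by
    by_contra h
    push Not at h
    rw [hi p h] at hlt
    omega
  have h1 : i p ≤ ∑ p ∈ Finset.range (N + 1), i p :=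
    Finset.single_le_sum (f := i) (fun _ _ => Nat.zero_le _)
      (Finset.mem_range.2 (Nat.lt_succ_of_le hp))
  have h2 : n < dg N x i := by
    unfold dg
    omega
  rw [Xo_bot hP n x hi h2, Submodule.mem_bot] at hv
  exact h0 hv

private theorem db1_prh (P : Par) (n : ℕ) {v : Fin (n + 1) → ℂ} (h0 : v 0 = 0) :
    pr (tau P n P.gh 0) v = pr (hv P n) v := by
  rw [pr_tau, Polynomial.taylor_coeff_zero, (pr_hv P n v h0).1]

private theorem db1_sup {u : Fin (N + 1) → ℂ} (h : Sup (SR N true 1) u) :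
    ∀ a, a ≠ 0 → u a = 0 := by
  intro a ha
  rw [db1_SRt] at h
  exact h a (by simpa using ha)

private theorem db1_c2 (δ : ℝ) {u : Fin (N + 1) → ℂ} (h : Sup (SR N true 1) u)
    (w : Fin (n3 + 1) → ℂ) :
    c2 (T00 P N n2 n3 δ) u w = u 0 • bfB (db1_F P n2 n3 (min n2 n3) δ) w := by
  funext b
  unfold c2 bfB
  rw [Finset.sum_eq_single 0]
  · rw [Pi.smul_apply, smul_eq_mul, Finset.mul_sum]
    refine Finset.sum_congr rfl fun c _ => ?_
    unfold T00 db1_F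
    rw [if_pos rfl, row_eq]
    ring
  · intro a _ ha
    rw [db1_sup h a ha]
    exact Finset.sum_eq_zero fun c _ => by rw [zero_mul, mul_zero]
  · intro h
    exact absurd (Finset.mem_univ _) h

private theorem db1_c3 (δ : ℝ) {u : Fin (N + 1) → ℂ} (h : Sup (SR N true 1) u)
    (v : Fin (n2 + 1) → ℂ) :
    c3 (T00 P N n2 n3 δ) u v = u 0 • bfC (db1_F P n2 n3 (min n2 n3) δ) v := by
  funext c
  unfold c3 bfC
  rw [Finset.sum_eq_single 0]
  · rw [Pi.smul_apply, smul_eq_mul, Finset.mul_sum]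
    refine Finset.sum_congr rfl fun b _ => ?_
    unfold T00 db1_F
    rw [if_pos rfl, row_eq]
    ring
  · intro a _ ha
    rw [db1_sup h a ha]
    exact Finset.sum_eq_zero fun b _ => by rw [zero_mul, mul_zero]
  · intro h
    exact absurd (Finset.mem_univ _) h

private theorem db1_im {x : ℂ} (h : x.im = 0) (h0 : x ≠ 0) :
    ∃ r : ℝ, r ≠ 0 ∧ x = (r : ℂ) := by
  have h1 : x = (x.re : ℂ) := Complex.ext rfl (by rw [h, Complex.ofReal_im])
  exact ⟨x.re, fun h2 => h0 (by rw [h1, h2, Complex.ofReal_zero]), h1⟩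

/-- Solutions of type D1 for the row `0` alone.

Proof. By contradiction: `δ n → 0+`, constant orders, solutions with `NvD`. `SR N true 1 = {0}`,
`SR N false 1 = ∅`: the equations are `u 0 G(z, w) + M h(z) = 0` on `Xo 1 i`,
`u 0 G(v, z) + M' h(z) = 0` on `Xo 1 j`, `u 0, M, M' ≠ 0`. Flags at the node `0` (`i 0 = 0`) on `X
= Xo 1 i`
and `Y = Xo 1 j`, dimensions `D`, `D'`, `f l = δ ^ l`. `h(zX (D-1)) ≠ 0`: `zX (D-1)` is a multiple
of the node
product times `(t - g 0) ^ (D-1)`. Let `ν = M / u 0`, `v`, `w` normalised with limits `v0, w0` of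
orders
`i0, j0`. Test with `zX (D-1)`: `|ν| ≤ C δ ^ (D-1)`; then `δ ^ l ψ l (w) = O(δ ^ (D-1))` for `l < D
- 1`, so
`j0 ≥ D - 1`; the same `i0 ≥ D' - 1`; as `i0 ≤ D - 1`, `j0 ≤ D' - 1`: `D = D'`, `i0 = j0 = D - 1`.
`G` on
`X × Y` is nondegenerate for small `δ` (a kernel vector `w ∈ Y`, normalised: the tests with
`zX l` give `ψ l (w) → 0` for all `l < D`; `ψ l` are coordinates on `Y`), a real square matrix. So
`w` is
determined up to a factor by `G(., w) = - (M / u 0) h` and is real up to a factor; the same for `v`;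
with real `v, w` and `a = 1 / u 0`: `a M = - G(z, w) / h(z)` is real. Kernel: `du = du_0 e_0`,
`u 0 G(z, dw) + du_0 G(z, w) + dM h(z) = 0`, so `G(z, dw)` is a multiple of `h`, i.e. of `G(z, w)`:
`dw = c w`, the same `dv = b v`, and `a = du_0 / u 0`, `dM = (a + c) M`. Signs: for `z ∈ Xo 1 (dn i
p)`,
choose `z = c1 nod(dn i p) (t - g 0) ^ D / norm` (order `D` at the node `0`, it is in the space
because
`dg N 1 (dn i p) + D = n2`): `dt gB z = u 0 G(z, w) + M h(z)`, and `u 0 G(z, w) / M = O(δ ^ D) / δ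
^ (D-1)`
tends to zero. So `dt gB z / M → h(z)`. The limit `v0` is the multiple of
`V = (t - g p) z / (t - g 0)`: `τ_{i p} (V) = 1 / (g p - g 0) > 0` and `V(gh) = (gh - g p) h(z) /
(gh - g 0)`
has the opposite sign of `h(z)`. So `dt gB z * τ(v) * (M V(gh)) < 0`. `hh`: for `v ∈ Xo 1`:
`pr (tau gh 0) v = h(v)`, and `M h(v) = - u 0 G = M' h(w)` (`DK.rel`), nonzero because
`V(gh) ≠ 0` in the limit. -/
theorem db1 (hP : GoodP P N) : ∀ᶠ δ in 𝓝[>] (0 : ℝ), PD P (T00 P N n2 n3 δ) true 1 := by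
  have key : ∀ᶠ δ in 𝓝[>] (0 : ℝ), ∀ (f : Fin (N + 1) → Fin (n2 + 1))
      (g : Fin (N + 1) → Fin (n3 + 1)), Adm 1 N (db1_dec _ _ f) → Adm 1 N (db1_dec _ _ g) →
      ∀ v ∈ Xo P n2 1 (db1_dec _ _ f), ∀ w ∈ Xo P n3 1 (db1_dec _ _ g), ∀ ν ν' : ℂ, v ≠ 0 →
      w ≠ 0 → ν ≠ 0 → ν' ≠ 0 →
      (∀ x ∈ Xo P n2 1 (db1_dec _ _ f),
        bf (db1_F P n2 n3 (min n2 n3) δ) x w = ν * pr (hv P n2) x) →
      (∀ y ∈ Xo P n3 1 (db1_dec _ _ g),
        bf (db1_F P n2 n3 (min n2 n3) δ) v y = ν' * pr (hv P n3) y) →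
      db1_Cn P (db1_F P n2 n3 (min n2 n3) δ) (db1_dec _ _ f) (db1_dec _ _ g) v w ν ∧
      db1_Cn P (db1_F P n3 n2 (min n2 n3) δ) (db1_dec _ _ g) (db1_dec _ _ f) w v ν' := by
    refine eventually_all.2 fun f => eventually_all.2 fun g => ?_
    by_cases h : Adm 1 N (db1_dec _ _ f) ∧ Adm 1 N (db1_dec _ _ g)
    · filter_upwards [db1_fix (n2 := n2) (n3 := n3) hP h.1 h.2] with δ h4 _ _
      exact h4
    · exact Eventually.of_forall fun δ h5 h6 => absurd ⟨h5, h6⟩ h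
  filter_upwards [key] with δ hδ i j hi hj u v w M M' hD hn
  obtain ⟨v0, w0, hM, hM', -, hu0⟩ := hn
  have u0 := hu0 rfl
  have sv : v ∈ Xo P n2 1 i := by
    have := hD.sv
    simpa using this
  have sw : w ∈ Xo P n3 1 j := by
    have := hD.sw
    simpa using this
  obtain ⟨f, hf⟩ := db1_enum (db1_adm hi) (db1_bdd hP (db1_adm hi) sv v0)
  obtain ⟨g, hg⟩ := db1_enum (db1_adm hj) (db1_bdd hP (db1_adm hj) sw w0)
  have hδ' := hδ f g
  rw [← hf, ← hg] at hδ'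
  obtain ⟨F, hF⟩ : ∃ F, F = db1_F P n2 n3 (min n2 n3) δ := ⟨_, rfl⟩
  have hc2 : ∀ {u : Fin (N + 1) → ℂ}, Sup (SR N true 1) u → ∀ w z,
      dt (c2 (T00 P N n2 n3 δ) u w) z = u 0 * bf F z w := by
    intro u h w z
    rw [db1_c2 δ h, dt_smul_left, dt_bfB, hF]
  have hc3 : ∀ {u : Fin (N + 1) → ℂ}, Sup (SR N true 1) u → ∀ v z,
      dt (c3 (T00 P N n2 n3 δ) u v) z = u 0 * bf F v z := by
    intro u h v z
    rw [db1_c3 δ h, dt_smul_left, dt_bfC, hF]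
  obtain ⟨ν, hν⟩ : ∃ ν, ν = -(M / u 0) := ⟨_, rfl⟩
  obtain ⟨ν', hν'⟩ : ∃ ν', ν' = -(M' / u 0) := ⟨_, rfl⟩
  have ν0 : ν ≠ 0 := by
    rw [hν]
    exact neg_ne_zero.2 (div_ne_zero hM u0)
  have ν0' : ν' ≠ 0 := by
    rw [hν']
    exact neg_ne_zero.2 (div_ne_zero hM' u0)
  have eM : M = -(u 0 * ν) := by
    rw [hν]
    field_simp
  have eM' : M' = -(u 0 * ν') := by
    rw [hν']
    field_simp
  have e1 : ∀ x ∈ Xo P n2 1 i, bf F x w = ν * pr (hv P n2) x := by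
    intro x hx
    have h1 := hD.e2 x hx
    rw [hc2 hD.su, eM] at h1
    refine mul_left_cancel₀ u0 ?_
    linear_combination h1
  have e2 : ∀ y ∈ Xo P n3 1 j, bf F v y = ν' * pr (hv P n3) y := by
    intro y hy
    have h1 := hD.e3 y hy
    rw [hc3 hD.su, eM'] at h1
    refine mul_left_cancel₀ u0 ?_
    linear_combination h1
  have hFf : ∀ y x, bf (db1_F P n3 n2 (min n2 n3) δ) y x = bf F x y := by
    intro y x
    rw [hF, db1_Fflip]
  rw [← hF] at hδ'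
  obtain ⟨⟨b1, b2, b3, b4⟩, c1', c2', c3', c4⟩ := hδ' hi hj v sv w sw ν ν' v0 w0 ν0 ν0' e1 e2
  have z1 : v 0 = 0 := sv.1.1 (by simp)
  have z2 : w 0 = 0 := sw.1.1 (by simp)
  refine ⟨⟨⟨(u 0)⁻¹, ν'⁻¹, ν⁻¹, inv_ne_zero u0, inv_ne_zero ν0', inv_ne_zero ν0, ?_, c1', b1,
    ?_, ?_⟩, ?_⟩, ?_⟩
  · intro a
    rw [Pi.smul_apply, smul_eq_mul]
    by_cases ha : a = 0
    · rw [ha, inv_mul_cancel₀ u0]
      exact Complex.one_im
    · rw [db1_sup hD.su a ha, mul_zero]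
      exact Complex.zero_im
  · have h1 : (u 0)⁻¹ * ν⁻¹ * M = -1 := by
      rw [eM]
      field_simp
    rw [h1, Complex.neg_im, Complex.one_im, neg_zero]
  · have h1 : (u 0)⁻¹ * ν'⁻¹ * M' = -1 := by
      rw [eM']
      field_simp
    rw [h1, Complex.neg_im, Complex.one_im, neg_zero]
  · intro du dv dw dM dM' hK
    have sdv : dv ∈ Xo P n2 1 i := by
      have := hK.sv
      simpa using this
    have sdw : dw ∈ Xo P n3 1 j := by
      have := hK.sw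
      simpa using this
    have hdu : du = (du 0 / u 0) • u := by
      funext a
      rw [Pi.smul_apply, smul_eq_mul]
      by_cases ha : a = 0
      · rw [ha, div_mul_cancel₀ _ u0]
      · rw [db1_sup hK.su a ha, db1_sup hD.su a ha, mul_zero]
    have k1 := b2 dw sdw (-(du 0 * ν + dM) / u 0) fun x hx => by
      have h1 := hK.e2 x hx
      rw [hc2 hK.su, hc2 hD.su, e1 x hx] at h1
      field_simp
      linear_combination h1
    have k2 := c2' dv sdv (-(du 0 * ν' + dM') / u 0) fun y hy => by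
      have h1 := hK.e3 y hy
      rw [hc3 hK.su, hc3 hD.su, e2 y hy] at h1
      rw [hFf]
      field_simp
      linear_combination h1
    refine ⟨_, _, _, hdu, k2, k1, ?_, ?_⟩
    · rw [eM]
      field_simp
      ring
    · rw [eM']
      field_simp
      ring
  · intro ru rv rw' rM rM'
    obtain ⟨m, hm0, hm⟩ := db1_im rM hM
    obtain ⟨m', hm0', hm'⟩ := db1_im rM' hM'
    refine ⟨fun p hp z hz rz ez => ?_, fun p hp z hz rz ez => ?_, ?_⟩
    · have h1 := b4 rv p hp z hz rz ez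
      have h2 : dt (fun b => c2 (T00 P N n2 n3 δ) u w b + M * hv P n2 b) z =
          M * (pr (hv P n2) z - bf F z w / ν) := by
        have h3 : dt (fun b => c2 (T00 P N n2 n3 δ) u w b + M * hv P n2 b) z =
            dt (c2 (T00 P N n2 n3 δ) u w) z + M * pr (hv P n2) z := by
          unfold dt pr
          rw [Finset.mul_sum, ← Finset.sum_add_distrib]
          exact Finset.sum_congr rfl fun b _ => by ring
        rw [h3, hc2 hD.su, eM]
        field_simp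
        ring
      rw [h2, db1_prh P n2 z1]
      have h4 : M * (pr (hv P n2) z - bf F z w / ν) * pr (tau P n2 (P.g p) (i p)) v *
          (M * pr (hv P n2) v) = ((m ^ 2 : ℝ) : ℂ) * ((pr (hv P n2) z - bf F z w / ν) *
            pr (tau P n2 (P.g p) (i p)) v * pr (hv P n2) v) := by
        rw [hm]
        push_cast
        ring
      rw [h4, Complex.re_ofReal_mul]
      exact mul_neg_of_pos_of_neg (by positivity) h1
    · have h1 := c4 rw' p hp z hz rz ez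
      rw [hFf] at h1
      have h2 : dt (fun b => c3 (T00 P N n2 n3 δ) u v b + M' * hv P n3 b) z =
          M' * (pr (hv P n3) z - bf F v z / ν') := by
        have h3 : dt (fun b => c3 (T00 P N n2 n3 δ) u v b + M' * hv P n3 b) z =
            dt (c3 (T00 P N n2 n3 δ) u v) z + M' * pr (hv P n3) z := by
          unfold dt pr
          rw [Finset.mul_sum, ← Finset.sum_add_distrib]
          exact Finset.sum_congr rfl fun b _ => by ring
        rw [h3, hc3 hD.su, eM']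
        field_simp
        ring
      rw [h2, db1_prh P n3 z2]
      have h4 : M' * (pr (hv P n3) z - bf F v z / ν') * pr (tau P n3 (P.g p) (j p)) w *
          (M' * pr (hv P n3) w) = ((m' ^ 2 : ℝ) : ℂ) * ((pr (hv P n3) z - bf F v z / ν') *
            pr (tau P n3 (P.g p) (j p)) w * pr (hv P n3) w) := by
        rw [hm']
        push_cast
        ring
      rw [h4, Complex.re_ofReal_mul]
      exact mul_neg_of_pos_of_neg (by positivity) h1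
    · rw [db1_prh P n2 z1, db1_prh P n3 z2]
      have h1 : M' * pr (hv P n3) w = M * pr (hv P n2) v := by
        have h2 := e1 v sv
        rw [e2 w sw] at h2
        rw [eM, eM']
        linear_combination (-(u 0)) * h2
      rw [h1]
      have h3 : (M * pr (hv P n2) v).im = 0 := by
        rw [Complex.mul_im, rM, pr_re _ rv, mul_zero, zero_mul, add_zero]
      obtain ⟨r, hr0, hr⟩ := db1_im h3 (mul_ne_zero hM b3)
      rw [hr, ← Complex.ofReal_mul, Complex.ofReal_re]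
      exact mul_self_pos.2 hr0

end

end Pool.Agent.MPb0eK
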