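import Mathlib
import Pool.Agent.Lib.MP_b0e20b_ag_K.EA
import Pool.Agent.Lib.MP_b0e20b_ag_K.RaC
import Pool.Agent.Lib.MP_b0e20b_ag_R.Cpt

/-!
# MP_b0e20b_ag, project K: constrained tuples: boundedness of the multipliers
-/

set_option autoImplicit false

open scoped BigOperators Topology
open Filter

namespace Pool.Agent.MPb0eK

open MPb0eR (c1 c2 c3 tr q Sup Rl Rea uf Nrm cj AF scl)

section

variable {A B C : Type} [Fintype A] [Fintype B] [Fintype C] [DecidableEq A] [DecidableEq B]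
  [DecidableEq C]

omit [Fintype B] [DecidableEq B] in
private theorem EB_nz {v : B → ℂ} {ib : B} (h : Nrm v ib) : v ≠ 0 := by
  intro h0
  have h1 := h.1
  rw [h0] at h1
  exact zero_ne_one h1

private theorem EB_kill {v : B → ℂ} (hv : v ≠ 0) {β : ℂ} (h : dt ((-β) • v) (cj v) = 0) :
    β = 0 := by
  rw [dt_smul_left] at h
  rcases mul_eq_zero.1 h with h1 | h1
  · exact neg_eq_zero.1 h1
  · exfalso
    have h2 := (dt_cj_pos v hv).1
    rw [h1] at h2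
    simp at h2

/-- The multipliers of normalised constrained tuples with hierarchical constraint rows are bounded.

Proof. `α = c1 T v w ia` (`ia ∈ SA`) is bounded. By `CX.tr`, `β q v` and `γ q w` are bounded.
Suppose
that `s n = max ‖β n‖ ‖γ n‖` is unbounded, so `s → ∞` along `uf`. Let `b' = β / s → β'`,
`γ / s → γ'`, `(β', γ') ≠ 0`. Apply `ra_cls` with `a n = (c2 T u w - β v) / s`, which tends to `-
β' v0`,
`b n → - γ' w0`, and `r / s`. It gives `i, j`; let `k = min i j`. (1) If `β' ≠ 0` then `dt v0 z =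
0` for
all `z ∈ Xi X φ (k + 1)`; if `i > k` then `z = cj v0` is allowed (`cX`), but `dt v0 (cj v0) > 0`: so
`i = k`, and `v0` is orthogonal to `Xi X φ (k + 1)`; moreover `dt v0 z = 0` on `Xi X φ i = Xi X φ
k`,
again with `z = cj v0`: contradiction. So `β' = 0`, and `γ' = 0` in the same way. -/
theorem bdE {X : Submodule ℂ (B → ℂ)} {Y : Submodule ℂ (C → ℂ)} (cX : Cj X) (cY : Cj Y)
    {DX DY m : ℕ} {φ zX : ℕ → B → ℝ} {ψ zY : ℕ → C → ℝ} (hX : Flag X DX φ zX)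
    (hY : Flag Y DY ψ zY) (hm : min DX DY ≤ m + 1) {s : ℝ} {f : ℕ → ℕ → ℝ} (hf : Hi m s f)
    {T : A → B → C → ℝ} {SA : Finset A} {ia : A} {ib : B} {ic : C} {u : ℕ → A → ℂ} {v : ℕ → B → ℂ}
    {w : ℕ → C → ℂ} {α β γ r : ℕ → ℂ}
    (ht : ∀ n, CX T (rw0 φ ψ m (f n)) SA X Y (u n) (v n) (w n) (α n) (β n) (γ n) (r n))
    (nu : ∀ n, Nrm (u n) ia) (nv : ∀ n, Nrm (v n) ib) (nw : ∀ n, Nrm (w n) ic) :
    ∃ M : ℝ, ∀ᶠ n in uf, ‖α n‖ ≤ M ∧ ‖β n‖ ≤ M ∧ ‖γ n‖ ≤ M := by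
  classical
  obtain ⟨u0, hu0⟩ := MPb0eR.ulim_vec u 1 fun n a => (nu n).2 a
  obtain ⟨v0, hv0⟩ := MPb0eR.ulim_vec v 1 fun n a => (nv n).2 a
  obtain ⟨w0, hw0⟩ := MPb0eR.ulim_vec w 1 fun n a => (nw n).2 a
  have nv0 : Nrm v0 ib := MPb0eR.Nrm.lim nv hv0
  have nw0 : Nrm w0 ic := MPb0eR.Nrm.lim nw hw0
  have v0n : v0 ≠ 0 := EB_nz nv0
  have w0n : w0 ≠ 0 := EB_nz nw0
  have hia : ia ∈ SA := by
    by_contra hn
    have h1 := (ht 0).su ia hn
    rw [(nu 0).1] at h1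
    exact one_ne_zero h1
  have hα : ∀ n, α n = c1 T (v n) (w n) ia := by
    intro n
    rw [(ht n).e1 ia hia, (nu n).1, mul_one]
  have la : Tendsto (fun n => ‖α n‖) uf (𝓝 ‖c1 T v0 w0 ia‖) := by
    have h1 := (MPb0eR.lim_c1 (T := T) hv0 hw0 ia).norm
    refine h1.congr fun n => ?_
    rw [hα n]
  have ea : ∀ᶠ n in uf, ‖α n‖ ≤ ‖c1 T v0 w0 ia‖ + 1 :=
    (la.eventually (gt_mem_nhds (lt_add_one _))).mono fun n hn => le_of_lt hn
  obtain ⟨σ, hσ⟩ : ∃ σ : ℕ → ℝ, ∀ n, σ n = max ‖β n‖ ‖γ n‖ := ⟨_, fun n => rfl⟩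
  have σβ : ∀ n, ‖β n‖ ≤ σ n := fun n => by rw [hσ n]; exact le_max_left _ _
  have σγ : ∀ n, ‖γ n‖ ≤ σ n := fun n => by rw [hσ n]; exact le_max_right _ _
  have σ0 : ∀ n, 0 ≤ σ n := fun n => (norm_nonneg _).trans (σβ n)
  have σn : ∀ n, ‖((σ n : ℝ) : ℂ)‖ = σ n := fun n => by
    rw [Complex.norm_real, Real.norm_eq_abs, abs_of_nonneg (σ0 n)]
  rcases MPb0eR.ualt (fun n => ((σ n : ℝ) : ℂ)) with ⟨σ', hσ'⟩ | hinf
  · have h1 : ∀ᶠ n in uf, ‖((σ n : ℝ) : ℂ)‖ < ‖σ'‖ + 1 :=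
      hσ'.norm.eventually (gt_mem_nhds (lt_add_one _))
    refine ⟨max (‖c1 T v0 w0 ia‖ + 1) (‖σ'‖ + 1), ?_⟩
    filter_upwards [ea, h1] with n h2 h3
    rw [σn n] at h3
    exact ⟨h2.trans (le_max_left _ _), ((σβ n).trans h3.le).trans (le_max_right _ _),
      ((σγ n).trans h3.le).trans (le_max_right _ _)⟩
  · exfalso
    have hσi : Tendsto σ uf atTop := by
      refine hinf.congr fun n => ?_
      exact σn n
    obtain ⟨t, ht'⟩ : ∃ t : ℕ → ℂ, ∀ n, t n = (((σ n)⁻¹ : ℝ) : ℂ) := ⟨_, fun n => rfl⟩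
    have t0 : Tendsto t uf (𝓝 0) := by
      have h1 : Tendsto (fun n => (((σ n)⁻¹ : ℝ) : ℂ)) uf (𝓝 ((0 : ℝ) : ℂ)) :=
        (Complex.continuous_ofReal.tendsto 0).comp (tendsto_inv_atTop_zero.comp hσi)
      rw [Complex.ofReal_zero] at h1
      exact h1.congr fun n => (ht' n).symm
    have tn : ∀ n, ‖t n‖ = (σ n)⁻¹ := fun n => by
      rw [ht' n, Complex.norm_real, Real.norm_eq_abs, abs_of_nonneg (inv_nonneg.2 (σ0 n))]
    have tb : ∀ n, ‖t n * β n‖ ≤ 1 := fun n => by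
      rw [norm_mul, tn n]
      exact (mul_le_mul_of_nonneg_left (σβ n) (inv_nonneg.2 (σ0 n))).trans inv_mul_le_one
    have tc : ∀ n, ‖t n * γ n‖ ≤ 1 := fun n => by
      rw [norm_mul, tn n]
      exact (mul_le_mul_of_nonneg_left (σγ n) (inv_nonneg.2 (σ0 n))).trans inv_mul_le_one
    obtain ⟨β', hβ'⟩ := MPb0eR.ulim_c (fun n => t n * β n) 1 (Eventually.of_forall tb)
    obtain ⟨γ', hγ'⟩ := MPb0eR.ulim_c (fun n => t n * γ n) 1 (Eventually.of_forall tc)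
    have c2l : Tendsto (fun n => c2 T (u n) (w n)) uf (𝓝 (c2 T u0 w0)) :=
      tendsto_pi_nhds.2 fun b => MPb0eR.lim_c2 hu0 hw0 b
    have c3l : Tendsto (fun n => c3 T (u n) (v n)) uf (𝓝 (c3 T u0 v0)) :=
      tendsto_pi_nhds.2 fun b => MPb0eR.lim_c3 hu0 hv0 b
    have hal : Tendsto (fun n => t n • c2 T (u n) (w n) + (-(t n * β n)) • v n) uf
        (𝓝 ((-β') • v0)) := by
      have h1 := (t0.smul c2l).add (hβ'.neg.smul hv0)
      rwa [zero_smul, zero_add] at h1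
    have hbl : Tendsto (fun n => t n • c3 T (u n) (v n) + (-(t n * γ n)) • w n) uf
        (𝓝 ((-γ') • w0)) := by
      have h1 := (t0.smul c3l).add (hγ'.neg.smul hw0)
      rwa [zero_smul, zero_add] at h1
    obtain ⟨i, j, -, -, -, hvi, -, hwj, -, hai, hbj, -⟩ :=
      ra_cls hX hY hm hf hal hbl hv0 hw0 v0n w0n (fun n => (ht n).sv) (fun n => (ht n).sw)
        (r := fun n => t n * r n) (fun n z hz => by
          have h1 := (ht n).e2 z hz
          rw [dt_bfB] at h1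
          rw [dt_add_left, dt_smul_left, dt_smul_left]
          linear_combination t n * h1) (fun n z hz => by
          have h1 := (ht n).e3 z hz
          rw [dt_bfC] at h1
          rw [dt_add_left, dt_smul_left, dt_smul_left]
          linear_combination t n * h1) (fun n => (ht n).e0)
    have hb0 : β' = 0 := EB_kill v0n (hai _ (Xi_cj cX φ i v0 hvi))
    have hc0 : γ' = 0 := EB_kill w0n (hbj _ (Xi_cj cY ψ j w0 hwj))
    have h1 : Tendsto (fun n => max ‖t n * β n‖ ‖t n * γ n‖) uf (𝓝 (max ‖β'‖ ‖γ'‖)) :=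
      hβ'.norm.max hγ'.norm
    rw [hb0, hc0, norm_zero, max_self] at h1
    have h2 : ∀ᶠ n in uf, max ‖t n * β n‖ ‖t n * γ n‖ = 1 := by
      filter_upwards [hσi.eventually_gt_atTop 0] with n hn
      rw [norm_mul, norm_mul, tn n, ← mul_max_of_nonneg _ _ (inv_nonneg.2 (σ0 n)), ← hσ n]
      exact inv_mul_cancel₀ hn.ne'
    have h3 : Tendsto (fun _ : ℕ => (1 : ℝ)) uf (𝓝 0) :=
      h1.congr' h2
    exact one_ne_zero (tendsto_nhds_unique tendsto_const_nhds h3)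

end

end Pool.Agent.MPb0eK
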