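import Mathlib
import Pool.Agent.Lib.MP_b0e20b_ag_K.ES
import Pool.Agent.Lib.MP_b0e20b_ag_K.EB
import Pool.Agent.Lib.MP_b0e20b_ag_K.RaD
import Pool.Agent.Lib.MP_b0e20b_ag_R.Cpt

/-!
# MP_b0e20b_ag, project K: constrained tuples for a small hierarchical row
-/

set_option autoImplicit false

open scoped BigOperators Topology
open Filter

namespace Pool.Agent.MPb0eK

open MPb0eR (c1 c2 c3 tr q Sup Rl Rea uf Nrm cj AF scl)

section

variable {A B C : Type} [Fintype A] [Fintype B] [Fintype C] [DecidableEq A] [DecidableEq B]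
  [DecidableEq C]

/-- Sequences of constrained tuples: the limit is an old tuple, and the tuples are eventually real
and
nondegenerate.

Proof. `bdE`; the vectors and multipliers converge; `ra_all` for `syE T SA ia ib ic` (`syE_ext`,
`syE_sol`, `syE_nd`). The old solutions: `old` gives `OkX`, so real (normalised), `Nd`, and the sign
information. -/
theorem e1_seq {X : Submodule ℂ (B → ℂ)} {Y : Submodule ℂ (C → ℂ)} (cX : Cj X) (cY : Cj Y)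
    {DX DY m : ℕ} {φ zX : ℕ → B → ℝ} {ψ zY : ℕ → C → ℝ} (hX : Flag X DX φ zX)
    (hY : Flag Y DY ψ zY) (hm : min DX DY ≤ m + 1) {f : ℕ → ℕ → ℝ} (hf : Hi m (-1) f)
    {T : A → B → C → ℝ} {SA : Finset A}
    (old : ∀ i j u v w α β γ, i < DX → j < DY →
      TX T SA (Xi X φ i) (Xi Y ψ j) u v w α β γ → u ≠ 0 → v ≠ 0 → w ≠ 0 →
      OkX T SA (Xi X φ i) (Xi Y ψ j) u v w α β γ ∧ (Rea u → Rea v → Rea w →
      (1 ≤ i → (dt (c2 T u w - β • v) (fun b => (zX (i - 1) b : ℂ)) * pr (φ i) v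
        * (α * q u)).re < 0) ∧
      (1 ≤ j → (dt (c3 T u v - γ • w) (fun c => (zY (j - 1) c : ℂ)) * pr (ψ j) w
        * (α * q u)).re < 0)))
    {ia : A} {ib : B} {ic : C} {u : ℕ → A → ℂ} {v : ℕ → B → ℂ} {w : ℕ → C → ℂ}
    {α β γ r : ℕ → ℂ}
    (ht : ∀ n, CX T (rw0 φ ψ m (f n)) SA X Y (u n) (v n) (w n) (α n) (β n) (γ n) (r n))
    (nu : ∀ n, Nrm (u n) ia) (nv : ∀ n, Nrm (v n) ib) (nw : ∀ n, Nrm (w n) ic) :
    (∀ᶠ n in uf, OkC T (rw0 φ ψ m (f n)) SA X Y (u n) (v n) (w n) (α n) (β n) (γ n) (r n)) ∧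
    ∃ i j u0 v0 w0 α0 β0 γ0, i < DX ∧ j < DY ∧ Tendsto u uf (𝓝 u0) ∧ Tendsto v uf (𝓝 v0) ∧
      Tendsto w uf (𝓝 w0) ∧ Tendsto α uf (𝓝 α0) ∧ Tendsto β uf (𝓝 β0) ∧ Tendsto γ uf (𝓝 γ0) ∧
      TX T SA (Xi X φ i) (Xi Y ψ j) u0 v0 w0 α0 β0 γ0 ∧
      (∀ z : B → ℂ, (∀ l, l < i → pr (φ l) z = 0) →
        Tendsto (fun n => r n * bf (rw0 φ ψ m (f n)) z (w n)) uf (𝓝 0)) ∧
      ∀ z : C → ℂ, (∀ l, l < j → pr (ψ l) z = 0) →
        Tendsto (fun n => r n * bf (rw0 φ ψ m (f n)) (v n) z) uf (𝓝 0) := by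
  classical
  obtain ⟨u0, hu0⟩ := MPb0eR.ulim_vec u 1 fun n a => (nu n).2 a
  obtain ⟨v0, hv0⟩ := MPb0eR.ulim_vec v 1 fun n a => (nv n).2 a
  obtain ⟨w0, hw0⟩ := MPb0eR.ulim_vec w 1 fun n a => (nw n).2 a
  obtain ⟨M, hM⟩ := bdE cX cY hX hY hm hf ht nu nv nw
  obtain ⟨α0, hα0⟩ := MPb0eR.ulim_c α M (hM.mono fun n hn => hn.1)
  obtain ⟨β0, hβ0⟩ := MPb0eR.ulim_c β M (hM.mono fun n hn => hn.2.1)
  obtain ⟨γ0, hγ0⟩ := MPb0eR.ulim_c γ M (hM.mono fun n hn => hn.2.2)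
  have nu0 : Nrm u0 ia := MPb0eR.Nrm.lim nu hu0
  have nv0 : Nrm v0 ib := MPb0eR.Nrm.lim nv hv0
  have nw0 : Nrm w0 ic := MPb0eR.Nrm.lim nw hw0
  have hp : Tendsto (fun n => ptE (u n) (v n) (w n) (α n) (β n) (γ n)) uf
      (𝓝 (ptE u0 v0 w0 α0 β0 γ0)) := by
    have h1 : Tendsto (fun n => (Sum.elim (u n) ![α n, β n, γ n] : A ⊕ Fin 3 → ℂ)) uf
        (𝓝 (Sum.elim u0 ![α0, β0, γ0])) := by
      refine tendsto_pi_nhds.2 fun k => ?_
      rcases k with a | k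
      · exact tendsto_pi_nhds.1 hu0 a
      · fin_cases k
        · exact hα0
        · exact hβ0
        · exact hγ0
    exact h1.prodMk_nhds (hv0.prodMk_nhds hw0)
  have hsol : ∀ n, ((syE T SA ia ib ic).ext (rw0 φ ψ m (f n))).Sol X Y
      (fun o => o.elim (r n) (ptE (u n) (v n) (w n) (α n) (β n) (γ n)).1,
        (ptE (u n) (v n) (w n) (α n) (β n) (γ n)).2) := fun n =>
    syE_ext.2 ⟨ht n, (nu n).1, (nv n).1, (nw n).1⟩
  have key : ∀ i j, i < DX → j < DY → (syE T SA ia ib ic).Sol (Xi X φ i) (Xi Y ψ j)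
      (ptE u0 v0 w0 α0 β0 γ0) → pr (φ i) (ptE u0 v0 w0 α0 β0 γ0).2.1 ≠ 0 →
      pr (ψ j) (ptE u0 v0 w0 α0 β0 γ0).2.2 ≠ 0 →
      cj3 (ptE u0 v0 w0 α0 β0 γ0) = ptE u0 v0 w0 α0 β0 γ0 ∧
      (syE T SA ia ib ic).Nd (Xi X φ i) (Xi Y ψ j) (ptE u0 v0 w0 α0 β0 γ0) ∧
      (1 ≤ i → dt ((syE T SA ia ib ic).a (ptE u0 v0 w0 α0 β0 γ0))
        (fun b => (zX (i - 1) b : ℂ)) ≠ 0) ∧
      (1 ≤ j → dt ((syE T SA ia ib ic).b (ptE u0 v0 w0 α0 β0 γ0))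
        (fun c => (zY (j - 1) c : ℂ)) ≠ 0) ∧
      (1 ≤ i → i = j → 0 < (dt ((syE T SA ia ib ic).a (ptE u0 v0 w0 α0 β0 γ0))
        (fun b => (zX (i - 1) b : ℂ)) * pr (φ i) (ptE u0 v0 w0 α0 β0 γ0).2.1
        * (dt ((syE T SA ia ib ic).b (ptE u0 v0 w0 α0 β0 γ0)) (fun c => (zY (i - 1) c : ℂ))
          * pr (ψ i) (ptE u0 v0 w0 α0 β0 γ0).2.2)).re) := by
    intro i j hi hj h0 hvi hwj
    obtain ⟨tx, -⟩ := syE_sol.1 h0
    obtain ⟨ok, sg⟩ := old i j u0 v0 w0 α0 β0 γ0 hi hj tx nu0.ne nv0.ne nw0.ne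
    have ru : Rea u0 := rea_of_rl ok.ru nu0.1
    have rv : Rea v0 := rea_of_rl ok.rv nv0.1
    have rw' : Rea w0 := rea_of_rl ok.rw' nw0.1
    obtain ⟨ra, rb, rc⟩ := tx.re nu0.ne nv0.ne nw0.ne ru rv rw'
    obtain ⟨sg1, sg2⟩ := sg ru rv rw'
    have ea : (syE T SA ia ib ic).a (ptE u0 v0 w0 α0 β0 γ0) = c2 T u0 w0 - β0 • v0 := rfl
    have eb : (syE T SA ia ib ic).b (ptE u0 v0 w0 α0 β0 γ0) = c3 T u0 v0 - γ0 • w0 := rfl
    have sσ : (α0 * q u0).im = 0 := by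
      rw [Complex.mul_im, ra, (q_rea_pos ru nu0.ne).2, mul_zero, zero_mul, add_zero]
    have im2 : ∀ {s t : ℂ}, s.im = 0 → t.im = 0 → (s * t).im = 0 := by
      intro s t hs ht
      rw [Complex.mul_im, hs, ht, mul_zero, zero_mul, add_zero]
    have sA : ∀ z : B → ℝ, (dt (c2 T u0 w0 - β0 • v0) (fun b => (z b : ℂ))).im = 0 := by
      intro z
      unfold dt
      rw [Complex.im_sum]
      refine Finset.sum_eq_zero fun b _ => im2 ?_ (Complex.ofReal_im _)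
      rw [Pi.sub_apply, Complex.sub_im, MPb0eR.c2_re T u0 w0 ru rw' b, Pi.smul_apply, smul_eq_mul,
        im2 rb (rv b), sub_zero]
    have sB : ∀ z : C → ℝ, (dt (c3 T u0 v0 - γ0 • w0) (fun c => (z c : ℂ))).im = 0 := by
      intro z
      unfold dt
      rw [Complex.im_sum]
      refine Finset.sum_eq_zero fun b _ => im2 ?_ (Complex.ofReal_im _)
      rw [Pi.sub_apply, Complex.sub_im, MPb0eR.c3_re T u0 v0 ru rv b, Pi.smul_apply, smul_eq_mul,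
        im2 rc (rw' b), sub_zero]
    refine ⟨?_, syE_nd (Xi_cj cX φ i) (Xi_cj cY ψ j) tx nu0.1 nv0.1 nw0.1 ok.nd, ?_, ?_, ?_⟩
    · have h1 : cj (Sum.elim u0 ![α0, β0, γ0] : A ⊕ Fin 3 → ℂ) = Sum.elim u0 ![α0, β0, γ0] := by
        refine (MPb0eR.rea_iff _).1 fun k => ?_
        rcases k with a | k
        · exact ru a
        · fin_cases k
          · exact ra
          · exact rb
          · exact rc
      exact Prod.ext h1 (Prod.ext ((MPb0eR.rea_iff _).1 rv) ((MPb0eR.rea_iff _).1 rw'))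
    · intro h1 h2
      have h3 := sg1 h1
      rw [ea] at h2
      rw [h2, zero_mul, zero_mul, Complex.zero_re] at h3
      exact lt_irrefl _ h3
    · intro h1 h2
      have h3 := sg2 h1
      rw [eb] at h2
      rw [h2, zero_mul, zero_mul, Complex.zero_re] at h3
      exact lt_irrefl _ h3
    · intro h1 h2
      subst h2
      have h3 := sg1 h1
      have h4 := sg2 h1
      rw [ea, eb]
      have iA := im2 (sA (zX (i - 1))) (pr_re (φ i) rv)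
      have iB := im2 (sB (zY (i - 1))) (pr_re (ψ i) rw')
      have h5 : (ptE u0 v0 w0 α0 β0 γ0).2.1 = v0 := rfl
      have h6 : (ptE u0 v0 w0 α0 β0 γ0).2.2 = w0 := rfl
      rw [h5, h6]
      generalize dt (c2 T u0 w0 - β0 • v0) (fun b => (zX (i - 1) b : ℂ)) * pr (φ i) v0 = a at *
      generalize dt (c3 T u0 v0 - γ0 • w0) (fun c => (zY (i - 1) c : ℂ)) * pr (ψ i) w0 = b at *
      generalize α0 * q u0 = σ at *
      rw [Complex.mul_re, iA, zero_mul, sub_zero] at h3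
      rw [Complex.mul_re, iB, zero_mul, sub_zero] at h4
      rw [Complex.mul_re, iA, zero_mul, sub_zero]
      have h7 : 0 < (a.re * σ.re) * (b.re * σ.re) := mul_pos_of_neg_of_neg h3 h4
      have h8 : (a.re * σ.re) * (b.re * σ.re) = (a.re * b.re) * (σ.re * σ.re) := by ring
      rw [h8] at h7
      by_contra hc
      exact absurd h7 (not_lt.2 (mul_nonpos_of_nonpos_of_nonneg (not_lt.1 hc)
        (mul_self_nonneg _)))
  obtain ⟨hev, i, j, hi, hj, h0, hvi, hwj, l1, l2⟩ := ra_all (syE_sm T SA ia ib ic) cX cY hX hY hm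
    hf hp hsol nv0.ne nw0.ne key
  obtain ⟨tx, -⟩ := syE_sol.1 h0
  obtain ⟨ok, -⟩ := old i j u0 v0 w0 α0 β0 γ0 hi hj tx nu0.ne nv0.ne nw0.ne
  have hαn : ∀ᶠ n in uf, α n ≠ 0 := hα0.eventually_ne ok.hα
  refine ⟨?_, i, j, u0, v0, w0, α0, β0, γ0, hi, hj, hu0, hv0, hw0, hα0, hβ0, hγ0, tx, l1, l2⟩
  filter_upwards [hev, hαn] with n hn hα
  obtain ⟨g1, g2, g3⟩ := hn
  have k1 : cj (Sum.elim (u n) ![α n, β n, γ n] : A ⊕ Fin 3 → ℂ) =
      Sum.elim (u n) ![α n, β n, γ n] := congrArg Prod.fst g1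
  have k2 : cj (v n) = v n :=
    congrArg (fun y : (A ⊕ Fin 3 → ℂ) × (B → ℂ) × (C → ℂ) => y.2.1) g1
  have k3 : cj (w n) = w n :=
    congrArg (fun y : (A ⊕ Fin 3 → ℂ) × (B → ℂ) × (C → ℂ) => y.2.2) g1
  refine ⟨⟨1, 1, 1, one_ne_zero, one_ne_zero, one_ne_zero, ?_, ?_, ?_, ?_⟩, hα, ?_⟩
  · rw [one_smul]
    intro a
    exact (MPb0eR.rea_iff _).2 k1 (Sum.inl a)
  · rw [one_smul]
    exact (MPb0eR.rea_iff _).2 k2
  · rw [one_smul]
    exact (MPb0eR.rea_iff _).2 k3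
  · rw [one_mul]
    exact g2
  · intro du dv dw dα dβ dγ dr hk
    exact syE_ndc (ht n) (nu n).1 (nv n).1 (nw n).1 g3 hk

end

end Pool.Agent.MPb0eK
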