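import Mathlib
import Pool.Agent.Lib.MP_b0e20b_ag_K.E1
import Pool.Agent.Lib.MP_b0e20b_ag_K.P3
import Pool.Agent.Lib.MP_b0e20b_ag_K.ObL

/-!
# MP_b0e20b_ag, project K: E types: the constraint row, all masks
-/

set_option autoImplicit false

open scoped BigOperators Topology
open Filter

namespace Pool.Agent.MPb0eK

open MPb0eR (c1 c2 c3 tr q Sup Rl Rea uf Nrm cj AF scl)

section

variable {P : Par} {N n2 n3 : ℕ} {T : Fin (N + 1) → Fin (n2 + 1) → Fin (n3 + 1) → ℝ} {full : Bool}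
  {p : ℕ}

private theorem E2_re {r z : ℂ} (hi : r.im = 0) : (r * r * z).re = r.re * r.re * z.re := by
  rw [Complex.mul_re, Complex.mul_re, Complex.mul_im, hi]
  ring

private theorem E2_neg {r z : ℂ} (hr : r ≠ 0) (hi : r.im = 0) (h : (r * r * z).re < 0) :
    z.re < 0 := by
  have h0 : r.re ≠ 0 := fun h0 => hr (Complex.ext h0 hi)
  rw [E2_re hi] at h
  have h1 : 0 < r.re * r.re := mul_self_pos.2 h0
  exact (pos_iff_neg_of_mul_neg h).1 h1

private theorem E2_pos {r z : ℂ} (hr : r ≠ 0) (hi : r.im = 0) (h : 0 < (r * r * z).re) :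
    0 < z.re := by
  have h0 : r.re ≠ 0 := fun h0 => hr (Complex.ext h0 hi)
  rw [E2_re hi] at h
  have h1 : 0 < r.re * r.re := mul_self_pos.2 h0
  exact (pos_iff_pos_of_mul_pos h).1 h1

/-- The sign conditions are invariant under real rescaling of the three vectors. -/
private theorem E2_scale {x y : Fin 3} {i j : ℕ → ℕ} {v : Fin (n2 + 1) → ℂ}
    {w : Fin (n3 + 1) → ℂ} {gB : Fin (n2 + 1) → ℂ} {gC : Fin (n3 + 1) → ℂ} {σ G a b c : ℂ}
    (ha : a ≠ 0) (hb : b ≠ 0) (hc : c ≠ 0) (ra : a.im = 0) (rb : b.im = 0) (rc : c.im = 0)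
    (h : Ob P n2 n3 full x y i j (b • v) (c • w) ((a * c) • gB) ((a * b) • gC)
      (a * b * c * σ) (b * c * G)) : Ob P n2 n3 full x y i j v w gB gC σ G := by
  have im2 : ∀ {s t : ℂ}, s.im = 0 → t.im = 0 → (s * t).im = 0 := by
    intro s t hs ht
    rw [Complex.mul_im, hs, ht, mul_zero, zero_mul, add_zero]
  have h3 : a * b * c ≠ 0 := mul_ne_zero (mul_ne_zero ha hb) hc
  have i3 : (a * b * c).im = 0 := im2 (im2 ra rb) rc
  refine ⟨?_, ?_, ?_, ?_, ?_, ?_, ?_, ?_⟩
  · intro p' hp z hz rz e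
    refine E2_neg h3 i3 ?_
    have h4 := h.oB p' hp z hz rz e
    rw [dt_smul_left, pr_smul] at h4
    convert h4 using 2
    ring
  · intro p' hp z hz rz e
    refine E2_neg h3 i3 ?_
    have h4 := h.oC p' hp z hz rz e
    rw [dt_smul_left, pr_smul] at h4
    convert h4 using 2
    ring
  · intro hf hx hy z hz rz e
    refine E2_pos h3 i3 ?_
    have h4 := h.s2 hf hx hy z hz rz e
    rw [dt_smul_left, pr_smul] at h4
    convert h4 using 2
    ring
  · intro hf hy hx z hz rz e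
    refine E2_pos h3 i3 ?_
    have h4 := h.s1 hf hy hx z hz rz e
    rw [dt_smul_left, pr_smul] at h4
    convert h4 using 2
    ring
  · intro hf hx hy h0
    refine h.g0 hf hx hy ?_
    rw [h0, mul_zero]
  · intro hf hx hy z hz rz e z' hz' rz' e'
    refine E2_neg h3 i3 ?_
    have h4 := h.t2 hf hx hy z hz rz e z' hz' rz' e'
    rw [dt_smul_left, dt_smul_left] at h4
    convert h4 using 2
    ring
  · intro hf hx hy z hz rz e z' hz' rz' e'
    refine E2_neg h3 i3 ?_
    have h4 := h.t3 hf hx hy z hz rz e z' hz' rz' e'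
    rw [dt_smul_left, dt_smul_left] at h4
    convert h4 using 2
    ring
  · intro hf hx hy
    refine E2_pos (mul_ne_zero hb hc) (im2 rb rc) ?_
    have h4 := h.t1 hf hx hy
    rw [pr_smul, pr_smul] at h4
    convert h4 using 2
    ring

private theorem E2_adm {N p : ℕ} {i : ℕ → ℕ} (hi : Adm (p + 1) N i) (hp : p ≤ N) (k : ℕ) :
    Adm p N (at' i p k) := by
  intro p' h
  by_cases h0 : p' = p
  · subst h0
    exact ⟨le_rfl, hp⟩
  · unfold at' at h
    rw [Function.update_of_ne h0] at h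
    exact ⟨by have := (hi p' h).1; omega, (hi p' h).2⟩

private theorem E2_zero {N p : ℕ} {i : ℕ → ℕ} (hi : Adm (p + 1) N i) : i p = 0 := by
  by_contra h
  have := (hi p h).1
  omega

private theorem E2_big {N p : ℕ} {i : ℕ → ℕ} (hi : Adm (p + 1) N i) : ∀ p', N < p' → i p' = 0 := by
  intro p' h
  by_contra h0
  have := (hi p' h0).2
  omega

private theorem E2_dn (i : ℕ → ℕ) (p k : ℕ) : dn (at' i p k) p = at' i p (k - 1) := by
  unfold dn at'
  rw [Function.update_self, Function.update_idem]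

private theorem E2_seq (hP : GoodP P N) (hp : p ≤ N) (hE : PE P T full p) {x y : Fin 3}
    {i j : ℕ → ℕ} (hM : Msk full x y) (hi : Adm (p + 1) N i) (hj : Adm (p + 1) N j)
    {δ : ℕ → ℝ} (hδ : Tendsto δ uf (𝓝 0)) (hpos : ∀ n, 0 < δ n) {ia : Fin (N + 1)}
    {ib : Fin (n2 + 1)} {ic : Fin (n3 + 1)} {u : ℕ → Fin (N + 1) → ℂ}
    {v : ℕ → Fin (n2 + 1) → ℂ} {w : ℕ → Fin (n3 + 1) → ℂ} {α β γ r : ℕ → ℂ}
    (ht : ∀ n, CX T (row P n2 n3 (P.g p) 1 (-(δ n))) (SR N full p) (Xo P n2 x i) (Xo P n3 y j)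
      (u n) (v n) (w n) (α n) (β n) (γ n) (r n))
    (nu : ∀ n, Nrm (u n) ia) (nv : ∀ n, Nrm (v n) ib) (nw : ∀ n, Nrm (w n) ic) :
    ∀ᶠ n in uf, OkC T (row P n2 n3 (P.g p) 1 (-(δ n))) (SR N full p) (Xo P n2 x i)
      (Xo P n3 y j) (u n) (v n) (w n) (α n) (β n) (γ n) (r n) ∧
      Ob P n2 n3 full x y i j (v n) (w n)
        (c2 T (u n) (w n) + r n • bfB (row P n2 n3 (P.g p) 1 (-(δ n))) (w n) - β n • v n)
        (c3 T (u n) (v n) + r n • bfC (row P n2 n3 (P.g p) 1 (-(δ n))) (v n) - γ n • w n)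
        (α n * q (u n)) (c1 T (v n) (w n) 0) := by
  have hinj : ∀ p', p' ≠ p → P.g p' = P.g p → False := fun p' h h' => hP.inj h h'
  obtain ⟨zX, hX⟩ := flag hP n2 x (E2_big hi) hp (E2_zero hi)
  obtain ⟨zY, hY⟩ := flag hP n3 y (E2_big hj) hp (E2_zero hj)
  have hm : min (n2 + 1 - dg N x i) (n3 + 1 - dg N y j) ≤ min n2 n3 + 1 := by omega
  have hf := (hi_row (min n2 n3) one_pos hδ hpos).2
  have hre := fun n => row_eq P n2 n3 (P.g p) 1 (-(δ n))
  have old : ∀ (k k' : ℕ) (u : Fin (N + 1) → ℂ) (v : Fin (n2 + 1) → ℂ) (w : Fin (n3 + 1) → ℂ)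
      (α β γ : ℂ), k < n2 + 1 - dg N x i → k' < n3 + 1 - dg N y j →
      TX T (SR N full p) (Xi (Xo P n2 x i) (tau P n2 (P.g p)) k)
        (Xi (Xo P n3 y j) (tau P n3 (P.g p)) k') u v w α β γ → u ≠ 0 → v ≠ 0 → w ≠ 0 →
      OkX T (SR N full p) (Xi (Xo P n2 x i) (tau P n2 (P.g p)) k)
        (Xi (Xo P n3 y j) (tau P n3 (P.g p)) k') u v w α β γ ∧ (Rea u → Rea v → Rea w →
      (1 ≤ k → (dt (c2 T u w - β • v) (fun b => (zX (k - 1) b : ℂ)) * pr (tau P n2 (P.g p) k) v
        * (α * q u)).re < 0) ∧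
      (1 ≤ k' → (dt (c3 T u v - γ • w) (fun c => (zY (k' - 1) c : ℂ)) * pr (tau P n3 (P.g p) k') w
        * (α * q u)).re < 0)) := by
    intro k k' u v w α β γ hk hk' htx hu hv hw
    have eX := Xi_Xo P n2 x (E2_zero hi) k hinj
    have eY := Xi_Xo P n3 y (E2_zero hj) k' hinj
    rw [eX, eY] at htx ⊢
    obtain ⟨h2, h3⟩ := hE x y (at' i p k) (at' j p k') hM (E2_adm hi hp k) (E2_adm hj hp k')
      u v w α β γ htx hu hv hw
    refine ⟨h2, fun ru rv rw' => ?_⟩
    have h4 := h3 ru rv rw'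
    refine ⟨fun h5 => ?_, fun h5 => ?_⟩
    · have h6 := h4.oB p (by unfold at'; rw [Function.update_self]; omega)
        (fun b => (zX (k - 1) b : ℂ)) ?_ (fun b => Complex.ofReal_im _) ?_
      · have h7 : at' i p k p = k := Function.update_self _ _ _
        rw [h7] at h6
        exact h6
      · rw [E2_dn, ← Xi_Xo P n2 x (E2_zero hi) (k - 1) hinj]
        exact hX.mem_i le_rfl (by omega)
      · have h7 : at' i p k p = k := Function.update_self _ _ _
        rw [h7, hX.dual _ _ (by omega) (by omega), if_pos rfl]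
    · have h6 := h4.oC p (by unfold at'; rw [Function.update_self]; omega)
        (fun c => (zY (k' - 1) c : ℂ)) ?_ (fun b => Complex.ofReal_im _) ?_
      · have h7 : at' j p k' p = k' := Function.update_self _ _ _
        rw [h7] at h6
        exact h6
      · rw [E2_dn, ← Xi_Xo P n3 y (E2_zero hj) (k' - 1) hinj]
        exact hY.mem_i le_rfl (by omega)
      · have h7 : at' j p k' p = k' := Function.update_self _ _ _
        rw [h7, hY.dual _ _ (by omega) (by omega), if_pos rfl]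
  have ht' : ∀ n, CX T (rw0 (tau P n2 (P.g p)) (tau P n3 (P.g p)) (min n2 n3)
      ((fun n l => (1 : ℝ) * (-(δ n)) ^ l) n)) (SR N full p) (Xo P n2 x i) (Xo P n3 y j)
      (u n) (v n) (w n) (α n) (β n) (γ n) (r n) := by
    intro n
    have h2 := ht n
    rw [hre n] at h2
    exact h2
  obtain ⟨hok, k, k', u0, v0, w0, α0, β0, γ0, hk, hk', lu, lv, lw, lα, lβ, lγ, ht0, hz, hz'⟩ :=
    e1_seq (Xo_cj P n2 x i) (Xo_cj P n3 y j) hX hY hm hf old ht' nu nv nw
  have nu0 := MPb0eR.Nrm.lim nu lu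
  have nv0 := MPb0eR.Nrm.lim nv lv
  have nw0 := MPb0eR.Nrm.lim nw lw
  have ht1 := ht0
  rw [Xi_Xo P n2 x (E2_zero hi) k hinj, Xi_Xo P n3 y (E2_zero hj) k' hinj] at ht1
  obtain ⟨ok0, ob0⟩ := hE x y (at' i p k) (at' j p k') hM (E2_adm hi hp k) (E2_adm hj hp k')
    u0 v0 w0 α0 β0 γ0 ht1 nu0.ne nv0.ne nw0.ne
  have ob1 := ob0 (rea_of_rl ok0.ru nu0.1) (rea_of_rl ok0.rv nv0.1) (rea_of_rl ok0.rw' nw0.1)
  have hob := ob_lim hP hi hj hp (full := full) (x := x) (y := y) (k := k) (k' := k')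
    (v := v) (w := w)
    (gB := fun n => c2 T (u n) (w n) + r n • bfB (row P n2 n3 (P.g p) 1 (-(δ n))) (w n)
      - β n • v n)
    (gC := fun n => c3 T (u n) (v n) + r n • bfC (row P n2 n3 (P.g p) 1 (-(δ n))) (v n)
      - γ n • w n)
    (σ := fun n => α n * q (u n)) (G := fun n => c1 T (v n) (w n) 0)
    (gB0 := c2 T u0 w0 - β0 • v0) (gC0 := c3 T u0 v0 - γ0 • w0)
    (fun h => nv0.ne ((Submodule.mem_bot ℂ).1 (h ▸ ht1.sv)))
    (fun h => nw0.ne ((Submodule.mem_bot ℂ).1 (h ▸ ht1.sw)))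
    (fun n z hz => by
      have h2 := (ht n).e2 z hz
      rw [sub_eq_add_neg, ← neg_smul, dt_add_left, dt_add_left, dt_smul_left, dt_smul_left, h2]
      ring)
    (fun n z hz => by
      have h2 := (ht n).e3 z hz
      rw [sub_eq_add_neg, ← neg_smul, dt_add_left, dt_add_left, dt_smul_left, dt_smul_left, h2]
      ring)
    lv lw (lα.mul (MPb0eR.lim_q lu)) (MPb0eR.lim_c1 lv lw 0)
    (fun z hzl => by
      have h2 := hz z hzl
      have h3 : Tendsto (fun n => dt (c2 T (u n) (w n)) z) uf (𝓝 (dt (c2 T u0 w0) z)) := by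
        unfold dt
        exact tendsto_finsetSum _ fun b _ => (MPb0eR.lim_c2 lu lw b).mul tendsto_const_nhds
      have h4 : Tendsto (fun n => dt (v n) z) uf (𝓝 (dt v0 z)) := by
        unfold dt
        exact tendsto_finsetSum _ fun b _ => ((tendsto_pi_nhds.1 lv) b).mul tendsto_const_nhds
      have h5 := (h3.add h2).sub (lβ.mul h4)
      have h6 : dt (c2 T u0 w0 - β0 • v0) z = dt (c2 T u0 w0) z + 0 - β0 * dt v0 z := by
        rw [sub_eq_add_neg, ← neg_smul, dt_add_left, dt_smul_left]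
        ring
      rw [h6]
      refine h5.congr fun n => ?_
      rw [sub_eq_add_neg (c2 T (u n) (w n) + _), ← neg_smul, dt_add_left, dt_add_left,
        dt_smul_left, dt_smul_left, dt_bfB, hre n]
      ring)
    (fun z hzl => by
      have h2 := hz' z hzl
      have h3 : Tendsto (fun n => dt (c3 T (u n) (v n)) z) uf (𝓝 (dt (c3 T u0 v0) z)) := by
        unfold dt
        exact tendsto_finsetSum _ fun b _ => (MPb0eR.lim_c3 lu lv b).mul tendsto_const_nhds
      have h4 : Tendsto (fun n => dt (w n) z) uf (𝓝 (dt w0 z)) := by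
        unfold dt
        exact tendsto_finsetSum _ fun b _ => ((tendsto_pi_nhds.1 lw) b).mul tendsto_const_nhds
      have h5 := (h3.add h2).sub (lγ.mul h4)
      have h6 : dt (c3 T u0 v0 - γ0 • w0) z = dt (c3 T u0 v0) z + 0 - γ0 * dt w0 z := by
        rw [sub_eq_add_neg, ← neg_smul, dt_add_left, dt_smul_left]
        ring
      rw [h6]
      refine h5.congr fun n => ?_
      rw [sub_eq_add_neg (c3 T (u n) (v n) + _), ← neg_smul, dt_add_left, dt_add_left,
        dt_smul_left, dt_smul_left, dt_bfC, hre n]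
      ring)
    ob1
  filter_upwards [hok, hob] with n h2 h3
  refine ⟨?_, h3⟩
  rw [hre n]
  exact h2

/-- The orders of a nonzero space are bounded. -/
private theorem E2_bd (hP : GoodP P N) {n : ℕ} {x : Fin 3} {i : ℕ → ℕ} (hi : Adm (p + 1) N i)
    {v : Fin (n + 1) → ℂ} (hv : v ∈ Xo P n x i) (h0 : v ≠ 0) (k : Fin (N + 1)) :
    i k < n + 1 := by
  by_contra h
  have h1 : i k ≤ ∑ p ∈ Finset.range (N + 1), i p :=
    Finset.single_le_sum (fun _ _ => Nat.zero_le _) (Finset.mem_range.2 k.2)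
  have h2 : n < dg N x i := by
    unfold dg
    omega
  have h3 := Xo_bot hP n x (E2_big hi) h2
  rw [h3, Submodule.mem_bot] at hv
  exact h0 hv

/-- For a small hierarchical row `p` as a constraint, all constrained tuples are real and
nondegenerate
and satisfy the sign conditions.

Proof. Suppose not: there are `δ n → 0+`, masks, orders and constrained tuples which violate the
claim;
the masks and the orders take finitely many values (`Xo ≠ ⊥` and `Adm` bound the orders,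
`Xo_bot`), so they are constant along the ultrafilter (`uconst`; replace the data of the other `n`
as in
`by_seq` of R), normalised (`exists_nrm`, `CX.smul`, `OkC.of_smul`; the sign conditions concern real
vectors; they are invariant under real rescaling). Flags at the node `p`: `flag`, `Xi_Xo`,
`row_eq`, `hi_row`. The hypothesis `old` of `e1_seq` is `PE` (for the orders `at' i p i'`,
`Adm p`), its sign part is `Ob.oB` for `p` with the test vector `zX (i' - 1)`, which is in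
`Xo x (dn (at' i p i') p)` and has Taylor coefficient one. `e1_seq` gives `OkC` and the limits; for
the
sign conditions `ob_lim` with `gB = c2 T u w + r F (., w) - β v`, which tends to
`c2 T u0 w0 - β0 v0` on the vectors of order `≥ i'` at `p` (last claims of `e1_seq`), `k = i'`,
`k' = j'`. -/
theorem e2_all (hP : GoodP P N) (h1 : 1 ≤ p) (hp : p ≤ N) (hE : PE P T full p) :
    ∀ᶠ δ in 𝓝[>] (0 : ℝ), ∀ (x y : Fin 3) (i j : ℕ → ℕ), Msk full x y → Adm (p + 1) N i →
      Adm (p + 1) N j → ∀ u v w α β γ r,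
      CX T (row P n2 n3 (P.g p) 1 (-δ)) (SR N full p) (Xo P n2 x i) (Xo P n3 y j) u v w α β γ r →
      u ≠ 0 → v ≠ 0 → w ≠ 0 →
      OkC T (row P n2 n3 (P.g p) 1 (-δ)) (SR N full p) (Xo P n2 x i) (Xo P n3 y j) u v w α β γ r ∧
      (Rea u → Rea v → Rea w → r.im = 0 → Ob P n2 n3 full x y i j v w
        (c2 T u w + r • bfB (row P n2 n3 (P.g p) 1 (-δ)) w - β • v)
        (c3 T u v + r • bfC (row P n2 n3 (P.g p) 1 (-δ)) v - γ • w) (α * q u) (c1 T v w 0)) := by
  have _ := h1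
  by_contra hcon
  rw [Filter.not_eventually] at hcon
  obtain ⟨δ0, hδ0, hbad⟩ := Filter.exists_seq_forall_of_frequently hcon
  have hδp : ∀ᶠ n in atTop, 0 < δ0 n := hδ0 self_mem_nhdsWithin
  have key : ∀ n, ∃ (x y : Fin 3) (i j : ℕ → ℕ) (ia : Fin (N + 1)) (ib : Fin (n2 + 1))
      (ic : Fin (n3 + 1)) (u : Fin (N + 1) → ℂ) (v : Fin (n2 + 1) → ℂ) (w : Fin (n3 + 1) → ℂ)
      (α β γ r : ℂ), Msk full x y ∧ Adm (p + 1) N i ∧ Adm (p + 1) N j ∧
      CX T (row P n2 n3 (P.g p) 1 (-(δ0 n))) (SR N full p) (Xo P n2 x i) (Xo P n3 y j)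
        u v w α β γ r ∧ Nrm u ia ∧ Nrm v ib ∧ Nrm w ic ∧
      ¬ (OkC T (row P n2 n3 (P.g p) 1 (-(δ0 n))) (SR N full p) (Xo P n2 x i) (Xo P n3 y j)
          u v w α β γ r ∧
        Ob P n2 n3 full x y i j v w
          (c2 T u w + r • bfB (row P n2 n3 (P.g p) 1 (-(δ0 n))) w - β • v)
          (c3 T u v + r • bfC (row P n2 n3 (P.g p) 1 (-(δ0 n))) v - γ • w)
          (α * q u) (c1 T v w 0)) := by
    intro n
    by_contra hno
    apply hbad n
    intro x y i j hM hi hj u v w α β γ r hcx hu hv hw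
    obtain ⟨a, ia, ha, na⟩ := MPb0eR.exists_nrm hu
    obtain ⟨b, ib, hb, nb⟩ := MPb0eR.exists_nrm hv
    obtain ⟨c, ic, hc, nc⟩ := MPb0eR.exists_nrm hw
    by_contra hbad2
    apply hno
    refine ⟨x, y, i, j, ia, ib, ic, a • u, b • v, c • w, _, _, _, _, hM, hi, hj,
      hcx.smul ha hb hc, na, nb, nc, fun hgood => hbad2 ?_⟩
    obtain ⟨g1, g2⟩ := hgood
    refine ⟨g1.of_smul ha hb hc, fun ru rv rw' rr => ?_⟩
    have rs : ∀ {X : Type} [Fintype X] {t : X → ℂ} {s : ℂ} {k : X}, Rea t → Nrm (s • t) k →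
        s.im = 0 := by
      intro X _ t s k rt hn
      have e1 : s * t k = 1 := hn.1
      have e2 : t k ≠ 0 := right_ne_zero_of_mul_eq_one e1
      have e3 : s = (t k)⁻¹ := eq_inv_of_mul_eq_one_left e1
      rw [e3, Complex.inv_im, rt k, neg_zero, zero_div]
    have ra := rs ru na
    have rb := rs rv nb
    have rc := rs rw' nc
    refine E2_scale ha hb hc ra rb rc ?_
    have q1 : q (a • u) = a ^ 2 * q u := by
      unfold MPb0eR.q
      rw [Finset.mul_sum]
      exact Finset.sum_congr rfl fun k _ => by rw [Pi.smul_apply, smul_eq_mul, mul_pow]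
    have f2 : c2 T (a • u) (c • w) = (a * c) • c2 T u w := by
      funext k
      rw [MPb0eR.c2_smul_left, MPb0eR.c2_smul_right, Pi.smul_apply, smul_eq_mul]
      ring
    have f3 : c3 T (a • u) (b • v) = (a * b) • c3 T u v := by
      funext k
      rw [MPb0eR.c3_smul_left, MPb0eR.c3_smul_right, Pi.smul_apply, smul_eq_mul]
      ring
    have f1 : c1 T (b • v) (c • w) 0 = b * c * c1 T v w 0 := by
      rw [MPb0eR.c1_smul_left, MPb0eR.c1_smul_right]
      ring
    have fB : ∀ F : Fin (n2 + 1) → Fin (n3 + 1) → ℝ, bfB F (c • w) = c • bfB F w := by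
      intro F
      funext k
      unfold bfB
      rw [Pi.smul_apply, smul_eq_mul, Finset.mul_sum]
      exact Finset.sum_congr rfl fun l _ => by rw [Pi.smul_apply, smul_eq_mul]; ring
    have fC : ∀ F : Fin (n2 + 1) → Fin (n3 + 1) → ℝ, bfC F (b • v) = b • bfC F v := by
      intro F
      funext k
      unfold bfC
      rw [Pi.smul_apply, smul_eq_mul, Finset.mul_sum]
      exact Finset.sum_congr rfl fun l _ => by rw [Pi.smul_apply, smul_eq_mul]; ring
    rw [q1, f1, f2, f3, fB, fC] at g2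
    convert g2 using 1
    · funext k
      simp only [Pi.smul_apply, Pi.add_apply, Pi.sub_apply, smul_eq_mul]
      linear_combination (a * c * β * v k) * inv_mul_cancel₀ hb
    · funext k
      simp only [Pi.smul_apply, Pi.add_apply, Pi.sub_apply, smul_eq_mul]
      linear_combination (a * b * γ * w k) * inv_mul_cancel₀ hc
    · linear_combination (-(a * b * c * α * q u)) * inv_mul_cancel₀ ha
  choose x y i j ia ib ic u v w α β γ r hM hi hj hcx na nb nc hbd using key
  have bi : ∀ n (k : Fin (N + 1)), i n k < n2 + 1 := fun n =>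
    E2_bd hP (hi n) (hcx n).sv (nb n).ne
  have bj : ∀ n (k : Fin (N + 1)), j n k < n3 + 1 := fun n =>
    E2_bd hP (hj n) (hcx n).sw (nc n).ne
  obtain ⟨t, ht⟩ := MPb0eR.uconst fun n => ((x n, y n), (ia n, ib n, ic n),
    (fun k : Fin (N + 1) => (⟨i n k, bi n k⟩ : Fin (n2 + 1))),
    fun k : Fin (N + 1) => (⟨j n k, bj n k⟩ : Fin (n3 + 1)))
  have hev : ∀ᶠ n in uf, 0 < δ0 n := Nat.hyperfilter_le_atTop hδp
  have hfr : ∃ᶠ n in atTop, 0 < δ0 n ∧ ((x n, y n), (ia n, ib n, ic n),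
    (fun k : Fin (N + 1) => (⟨i n k, bi n k⟩ : Fin (n2 + 1))),
    fun k : Fin (N + 1) => (⟨j n k, bj n k⟩ : Fin (n3 + 1)))
      = t := (hev.and ht).frequently.filter_mono Nat.hyperfilter_le_atTop
  obtain ⟨φ, hφ, hφt⟩ := Filter.extraction_of_frequently_atTop hfr
  have e0 : ∀ n, x (φ n) = x (φ 0) ∧ y (φ n) = y (φ 0) ∧ ia (φ n) = ia (φ 0) ∧
      ib (φ n) = ib (φ 0) ∧ ic (φ n) = ic (φ 0) ∧ i (φ n) = i (φ 0) ∧ j (φ n) = j (φ 0) := by
    intro n
    have h2 := (hφt n).2.trans (hφt 0).2.symm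
    simp only [Prod.mk.injEq] at h2
    obtain ⟨⟨h3, h4⟩, ⟨h5, h6, h7⟩, h8, h9⟩ := h2
    refine ⟨h3, h4, h5, h6, h7, ?_, ?_⟩
    · funext k
      by_cases hk : k < N + 1
      · exact congrArg Fin.val (congrFun h8 ⟨k, hk⟩)
      · rw [E2_big (hi _) k (by omega), E2_big (hi _) k (by omega)]
    · funext k
      by_cases hk : k < N + 1
      · exact congrArg Fin.val (congrFun h9 ⟨k, hk⟩)
      · rw [E2_big (hj _) k (by omega), E2_big (hj _) k (by omega)]
  have hδ1 : Tendsto (fun n => δ0 (φ n)) uf (𝓝 0) :=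
    ((hδ0.mono_right nhdsWithin_le_nhds).comp hφ.tendsto_atTop).mono_left
      Nat.hyperfilter_le_atTop
  have hfin := E2_seq (δ := fun n => δ0 (φ n)) (u := fun n => u (φ n)) (v := fun n => v (φ n))
    (w := fun n => w (φ n)) (α := fun n => α (φ n)) (β := fun n => β (φ n))
    (γ := fun n => γ (φ n)) (r := fun n => r (φ n)) (ia := ia (φ 0)) (ib := ib (φ 0))
    (ic := ic (φ 0)) hP hp hE (hM (φ 0)) (hi (φ 0)) (hj (φ 0)) hδ1 (fun n => (hφt n).1)
    (fun n => by
      obtain ⟨h2, h3, -, -, -, h4, h5⟩ := e0 n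
      have h6 := hcx (φ n)
      rw [h2, h3, h4, h5] at h6
      exact h6)
    (fun n => by
      have h6 := na (φ n)
      rw [(e0 n).2.2.1] at h6
      exact h6)
    (fun n => by
      have h6 := nb (φ n)
      rw [(e0 n).2.2.2.1] at h6
      exact h6)
    (fun n => by
      have h6 := nc (φ n)
      rw [(e0 n).2.2.2.2.1] at h6
      exact h6)
  obtain ⟨n, hn⟩ := hfin.exists
  apply hbd (φ n)
  obtain ⟨h2, h3, -, -, -, h4, h5⟩ := e0 n
  rw [h2, h3, h4, h5]
  exact hn

end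

end Pool.Agent.MPb0eK
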