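import Mathlib
import Pool.Agent.Lib.MP_b0e20b_ag_K.EA
import Pool.Agent.Lib.MP_b0e20b_ag_R.Cpt

/-!
# MP_b0e20b_ag, project K: a row with a large factor: limits
-/

set_option autoImplicit false

open scoped BigOperators Topology
open Filter

namespace Pool.Agent.MPb0eK

open MPb0eR (c1 c2 c3 tr q Sup Rl Rea uf Nrm cj AF scl)

section

variable {A B C : Type} [Fintype A] [Fintype B] [Fintype C] [DecidableEq A] [DecidableEq B]
  [DecidableEq C]

/-! ### Auxiliary lemmas -/

omit [DecidableEq B] in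
private theorem rr1_dt {x y : ℕ → B → ℂ} {x0 y0 : B → ℂ} (hx : Tendsto x uf (𝓝 x0))
    (hy : Tendsto y uf (𝓝 y0)) : Tendsto (fun n => dt (x n) (y n)) uf (𝓝 (dt x0 y0)) := by
  unfold dt
  exact tendsto_finsetSum _ fun a _ => ((tendsto_pi_nhds.1 hx) a).mul ((tendsto_pi_nhds.1 hy) a)

omit [Fintype B] [DecidableEq B] in
private theorem rr1_cj {x : ℕ → B → ℂ} {x0 : B → ℂ} (hx : Tendsto x uf (𝓝 x0)) :
    Tendsto (fun n => cj (x n)) uf (𝓝 (cj x0)) := by
  refine tendsto_pi_nhds.2 fun b => ?_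
  exact (Complex.continuous_conj.tendsto (x0 b)).comp ((tendsto_pi_nhds.1 hx) b)

omit [Fintype B] [DecidableEq B] [DecidableEq C] in
private theorem rr1_bfB (F : B → C → ℝ) {w : ℕ → C → ℂ} {w0 : C → ℂ}
    (hw : Tendsto w uf (𝓝 w0)) : Tendsto (fun n => bfB F (w n)) uf (𝓝 (bfB F w0)) := by
  refine tendsto_pi_nhds.2 fun b => ?_
  unfold bfB
  exact tendsto_finsetSum _ fun c _ => ((tendsto_pi_nhds.1 hw) c).const_mul _

omit [Fintype C] [DecidableEq B] [DecidableEq C] in
private theorem rr1_bfC (F : B → C → ℝ) {v : ℕ → B → ℂ} {v0 : B → ℂ}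
    (hv : Tendsto v uf (𝓝 v0)) : Tendsto (fun n => bfC F (v n)) uf (𝓝 (bfC F v0)) := by
  refine tendsto_pi_nhds.2 fun b => ?_
  unfold bfC
  exact tendsto_finsetSum _ fun c _ => ((tendsto_pi_nhds.1 hv) c).const_mul _

omit [DecidableEq B] [DecidableEq C] in
private theorem rr1_bf (F : B → C → ℝ) {v : ℕ → B → ℂ} {v0 : B → ℂ} {w : ℕ → C → ℂ} {w0 : C → ℂ}
    (hv : Tendsto v uf (𝓝 v0)) (hw : Tendsto w uf (𝓝 w0)) :
    Tendsto (fun n => bf F (v n) (w n)) uf (𝓝 (bf F v0 w0)) := by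
  unfold bf
  exact tendsto_finsetSum _ fun b _ => tendsto_finsetSum _ fun c _ =>
    (((tendsto_pi_nhds.1 hv) b).mul ((tendsto_pi_nhds.1 hw) c)).const_mul _

/-- The multiplier converges if the defect vector converges. -/
private theorem rr1_mult {X : Submodule ℂ (B → ℂ)} (cX : Cj X) {v : ℕ → B → ℂ} {v0 : B → ℂ}
    (hv : Tendsto v uf (𝓝 v0)) (h0 : v0 ≠ 0) (hm : ∀ n, v n ∈ X) {G : ℕ → B → ℂ} {G0 : B → ℂ}
    (hG : Tendsto G uf (𝓝 G0)) {β : ℕ → ℂ}
    (he : ∀ᶠ n in uf, ∀ z ∈ X, dt (G n) z = β n * dt (v n) z) :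
    ∃ β0, Tendsto β uf (𝓝 β0) ∧ v0 ∈ X ∧ ∀ z ∈ X, dt G0 z = β0 * dt v0 z := by
  have hmem : v0 ∈ X := (Submodule.closed_of_finiteDimensional X).mem_of_tendsto hv
    (Eventually.of_forall hm)
  have hD : Tendsto (fun n => dt (v n) (cj (v n))) uf (𝓝 (dt v0 (cj v0))) :=
    rr1_dt hv (rr1_cj hv)
  have hD0 : dt v0 (cj v0) ≠ 0 := by
    intro h
    have h1 := (dt_cj_pos v0 h0).1
    rw [h, Complex.zero_re] at h1
    exact lt_irrefl _ h1
  have hN : ∀ᶠ n in uf, dt (v n) (cj (v n)) ≠ 0 := hD.eventually_ne hD0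
  have hG1 : Tendsto (fun n => dt (G n) (cj (v n))) uf (𝓝 (dt G0 (cj v0))) :=
    rr1_dt hG (rr1_cj hv)
  have hβ : Tendsto β uf (𝓝 (dt G0 (cj v0) / dt v0 (cj v0))) := by
    refine (hG1.div hD hD0).congr' ?_
    filter_upwards [he, hN] with n h1 h2
    rw [Pi.div_apply, h1 _ (cX _ (hm n)), mul_div_cancel_right₀ _ h2]
  refine ⟨_, hβ, hmem, fun z hz => ?_⟩
  have h1 : Tendsto (fun n => dt (G n) z) uf (𝓝 (dt G0 z)) := rr1_dt hG tendsto_const_nhds
  have h2 : Tendsto (fun n => β n * dt (v n) z) uf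
      (𝓝 (dt G0 (cj v0) / dt v0 (cj v0) * dt v0 z)) := hβ.mul (rr1_dt hv tendsto_const_nhds)
  refine tendsto_nhds_unique (h1.congr' ?_) h2
  filter_upwards [he] with n h3
  exact h3 z hz

omit [DecidableEq B] [DecidableEq C] in
private theorem rr1_c2 (T : A → B → C → ℝ) (F : B → C → ℝ) (a : A) (R : ℝ) (u : A → ℂ)
    (w : C → ℂ) : c2 (Function.update T a (fun b c => R * F b c)) u w
      = c2 T (Function.update u a 0) w + ((R : ℂ) * u a) • bfB F w := by
  funext b
  rw [Pi.add_apply, Pi.smul_apply, smul_eq_mul]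
  unfold c2
  have e : ∀ x, ∑ c, ((Function.update T a (fun b c => R * F b c) x b c : ℝ) : ℂ) * (u x * w c)
      = ∑ c, (T x b c : ℂ) * (Function.update u a 0 x * w c)
        + if x = a then (R : ℂ) * u a * bfB F w b else 0 := by
    intro x
    by_cases hx : x = a
    · subst hx
      rw [if_pos rfl]
      simp only [Function.update_self, zero_mul, mul_zero, Finset.sum_const_zero, zero_add]
      unfold bfB
      rw [Finset.mul_sum]
      refine Finset.sum_congr rfl fun c _ => ?_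
      push_cast
      ring
    · rw [if_neg hx, add_zero, Function.update_of_ne hx, Function.update_of_ne hx]
  rw [Finset.sum_congr rfl fun x _ => e x, Finset.sum_add_distrib, Finset.sum_ite_eq',
    if_pos (Finset.mem_univ _)]

omit [DecidableEq B] [DecidableEq C] in
private theorem rr1_c3 (T : A → B → C → ℝ) (F : B → C → ℝ) (a : A) (R : ℝ) (u : A → ℂ)
    (v : B → ℂ) : c3 (Function.update T a (fun b c => R * F b c)) u v
      = c3 T (Function.update u a 0) v + ((R : ℂ) * u a) • bfC F v := by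
  funext c
  rw [Pi.add_apply, Pi.smul_apply, smul_eq_mul]
  unfold c3
  have e : ∀ x, ∑ b, ((Function.update T a (fun b c => R * F b c) x b c : ℝ) : ℂ) * (u x * v b)
      = ∑ b, (T x b c : ℂ) * (Function.update u a 0 x * v b)
        + if x = a then (R : ℂ) * u a * bfC F v c else 0 := by
    intro x
    by_cases hx : x = a
    · subst hx
      rw [if_pos rfl]
      simp only [Function.update_self, zero_mul, mul_zero, Finset.sum_const_zero, zero_add]
      unfold bfC
      rw [Finset.mul_sum]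
      refine Finset.sum_congr rfl fun c _ => ?_
      push_cast
      ring
    · rw [if_neg hx, add_zero, Function.update_of_ne hx, Function.update_of_ne hx]
  rw [Finset.sum_congr rfl fun x _ => e x, Finset.sum_add_distrib, Finset.sum_ite_eq',
    if_pos (Finset.mem_univ _)]

omit [Fintype A] [DecidableEq B] [DecidableEq C] in
private theorem rr1_c1 (T : A → B → C → ℝ) (F : B → C → ℝ) (a : A) (R : ℝ) (v : B → ℂ)
    (w : C → ℂ) : c1 (Function.update T a (fun b c => R * F b c)) v w a = (R : ℂ) * bf F v w := by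
  unfold c1 bf
  rw [Finset.mul_sum]
  refine Finset.sum_congr rfl fun b _ => ?_
  rw [Finset.mul_sum]
  refine Finset.sum_congr rfl fun c _ => ?_
  rw [Function.update_self]
  push_cast
  ring

omit [Fintype A] [DecidableEq B] [DecidableEq C] in
private theorem rr1_c1' (T : A → B → C → ℝ) (F : B → C → ℝ) {a x : A} (hx : x ≠ a) (R : ℝ)
    (v : B → ℂ) (w : C → ℂ) :
    c1 (Function.update T a (fun b c => R * F b c)) v w x = c1 T v w x := by
  unfold c1
  rw [Function.update_of_ne hx]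

omit [Fintype A] in
private theorem rr1_upd {u : ℕ → A → ℂ} {u0 : A → ℂ} (hu : Tendsto u uf (𝓝 u0)) (a : A) :
    Tendsto (fun n => Function.update (u n) a 0) uf (𝓝 (Function.update u0 a 0)) := by
  refine tendsto_pi_nhds.2 fun x => ?_
  by_cases hx : x = a
  · subst hx
    simp only [Function.update_self]
    exact tendsto_const_nhds
  · simp only [Function.update_of_ne hx]
    exact (tendsto_pi_nhds.1 hu) x

/-- The limits of singular tuples with a large row `a`.

Proof. `T n` has the row `R n * F` at `a`. Equations: `c1 T v w a' = α u a'` (`a' ∈ SA`, not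
changed),
`R F (v, w) = α u a`, `c2 T u' w + R u a F (., w) = β v` on `X` (`u'` = the part of `u` off `a`).
The limits `u0, v0, w0` exist. Case 1: `u0 a ≠ 0`. Then `α / R = F (v, w) / u a` converges to `α0`;
`z = cj v`: `β ‖v‖ ^ 2 = O(R)`, so `β / R → β0`, `γ / R → γ0` along the ultrafilter: `(v0, w0)` is a
singular pair of `F` with `u0 a * F (., w0) = β0 v0`; so by `hP` its value is not zero, `α0 ≠ 0`,
and
`u a' = c1 / α → 0`; so `ia = a`, `u0 a = 1`. Case 2: `u0 a = 0`, so `ia ∈ SA` and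
`α = c1 T v w ia` is bounded. Let `r = R u a`. `(r, β, γ)` is bounded: otherwise divide by
`s = max ‖.‖ → ∞`: `r' F (z, w0) = β' dt v0 z`, `r' F (v0, z) = γ' dt w0 z`, `(r', β', γ') ≠ 0`;
`r' = 0` gives
`β' = γ' = 0` (`z = cj v0`); `r' ≠ 0`: a singular pair with `F (v0, w0) = lim α u a / R = 0`,
contradiction to `hP`. So everything converges to a solution of `CX`. -/
theorem rr_lim {T : A → B → C → ℝ} {F : B → C → ℝ} {SA : Finset A} {a : A} (ha : a ∉ SA)
    {X : Submodule ℂ (B → ℂ)} {Y : Submodule ℂ (C → ℂ)} (cX : Cj X) (cY : Cj Y)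
    (hP : ∀ v w β γ, SP F X Y v w β γ → v ≠ 0 → w ≠ 0 → OkP F X Y v w β γ) {R : ℕ → ℝ}
    (hR : Tendsto R uf atTop) (hp : ∀ n, 0 < R n) {ia : A} {ib : B} {ic : C} {u : ℕ → A → ℂ}
    {v : ℕ → B → ℂ} {w : ℕ → C → ℂ} {α β γ : ℕ → ℂ}
    (ht : ∀ n, TX (Function.update T a (fun b c => R n * F b c)) (insert a SA) X Y (u n) (v n)
      (w n) (α n) (β n) (γ n))
    (nu : ∀ n, Nrm (u n) ia) (nv : ∀ n, Nrm (v n) ib) (nw : ∀ n, Nrm (w n) ic) :
    (ia = a ∧ ∃ v0 w0 α0 β0 γ0, Tendsto u uf (𝓝 (Pi.single a 1)) ∧ Tendsto v uf (𝓝 v0) ∧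
      Tendsto w uf (𝓝 w0) ∧ Tendsto (fun n => α n / R n) uf (𝓝 α0) ∧
      Tendsto (fun n => β n / R n) uf (𝓝 β0) ∧ Tendsto (fun n => γ n / R n) uf (𝓝 γ0) ∧
      α0 = bf F v0 w0 ∧ SP F X Y v0 w0 β0 γ0 ∧ OkP F X Y v0 w0 β0 γ0) ∨
    (ia ∈ SA ∧ ∃ u0 v0 w0 α0 β0 γ0 r0, Tendsto u uf (𝓝 u0) ∧ u0 a = 0 ∧ Tendsto v uf (𝓝 v0) ∧
      Tendsto w uf (𝓝 w0) ∧ Tendsto α uf (𝓝 α0) ∧ Tendsto β uf (𝓝 β0) ∧ Tendsto γ uf (𝓝 γ0) ∧
      Tendsto (fun n => (R n : ℂ) * u n a) uf (𝓝 r0) ∧ CX T F SA X Y u0 v0 w0 α0 β0 γ0 r0) := by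
  have hlu : ∃ u0, Tendsto u uf (𝓝 u0) := MPb0eR.ulim_vec u 1 fun n x => (nu n).2 x
  have hlv : ∃ v0, Tendsto v uf (𝓝 v0) := MPb0eR.ulim_vec v 1 fun n x => (nv n).2 x
  have hlw : ∃ w0, Tendsto w uf (𝓝 w0) := MPb0eR.ulim_vec w 1 fun n x => (nw n).2 x
  obtain ⟨u0, hu⟩ := hlu
  obtain ⟨v0, hv⟩ := hlv
  obtain ⟨w0, hw⟩ := hlw
  have nu0 : Nrm u0 ia := MPb0eR.Nrm.lim nu hu
  have nv0 : Nrm v0 ib := MPb0eR.Nrm.lim nv hv
  have nw0 : Nrm w0 ic := MPb0eR.Nrm.lim nw hw
  have v0ne : v0 ≠ 0 := nv0.ne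
  have w0ne : w0 ≠ 0 := nw0.ne
  have su0 : Sup (insert a SA) u0 := MPb0eR.Sup.lim (fun n => (ht n).su) hu
  have hua : Tendsto (fun n => u n a) uf (𝓝 (u0 a)) := (tendsto_pi_nhds.1 hu) a
  have hne : ∀ x ∈ SA, x ≠ a := fun x hx h => ha (h ▸ hx)
  have e1 : ∀ n, ∀ x ∈ SA, c1 T (v n) (w n) x = α n * u n x := fun n x hx => by
    rw [← (ht n).e1 x (Finset.mem_insert_of_mem hx), rr1_c1' T F (hne x hx)]
  have ea : ∀ n, (R n : ℂ) * bf F (v n) (w n) = α n * u n a := fun n => by
    rw [← (ht n).e1 a (Finset.mem_insert_self a SA), rr1_c1]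
  have e2 : ∀ n, ∀ z ∈ X, dt (c2 T (Function.update (u n) a 0) (w n)) z
      + (R n : ℂ) * u n a * dt (bfB F (w n)) z = β n * dt (v n) z := fun n z hz => by
    rw [← (ht n).e2 z hz, rr1_c2, dt_add_left, dt_smul_left]
  have e3 : ∀ n, ∀ z ∈ Y, dt (c3 T (Function.update (u n) a 0) (v n)) z
      + (R n : ℂ) * u n a * dt (bfC F (v n)) z = γ n * dt (w n) z := fun n z hz => by
    rw [← (ht n).e3 z hz, rr1_c3, dt_add_left, dt_smul_left]
  have hR' : ∀ n, (R n : ℂ) ≠ 0 := fun n => Complex.ofReal_ne_zero.2 (hp n).ne'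
  have hRi : Tendsto (fun n => ((R n : ℂ))⁻¹) uf (𝓝 0) := by
    have h1 : Tendsto (fun n => (((R n)⁻¹ : ℝ) : ℂ)) uf (𝓝 ((0 : ℝ) : ℂ)) :=
      (Complex.continuous_ofReal.tendsto 0).comp (tendsto_inv_atTop_zero.comp hR)
    simpa using h1
  have hu' : Tendsto (fun n => Function.update (u n) a 0) uf (𝓝 (Function.update u0 a 0)) :=
    rr1_upd hu a
  have hc2 : Tendsto (fun n => c2 T (Function.update (u n) a 0) (w n)) uf
      (𝓝 (c2 T (Function.update u0 a 0) w0)) :=
    tendsto_pi_nhds.2 fun b => MPb0eR.lim_c2 hu' hw b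
  have hc3 : Tendsto (fun n => c3 T (Function.update (u n) a 0) (v n)) uf
      (𝓝 (c3 T (Function.update u0 a 0) v0)) :=
    tendsto_pi_nhds.2 fun b => MPb0eR.lim_c3 hu' hv b
  have hbB := rr1_bfB F hw
  have hbC := rr1_bfC F hv
  have hbf := rr1_bf F hv hw
  by_cases h0 : u0 a = 0
  · -- case 2
    right
    have hia : ia ≠ a := by
      intro h
      have h1 := nu0.1
      rw [h, h0] at h1
      exact zero_ne_one h1
    have hiS : ia ∈ SA := by
      rcases Finset.mem_insert.1 (nu0.mem su0) with h | h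
      · exact absurd h hia
      · exact h
    have hα : Tendsto α uf (𝓝 (c1 T v0 w0 ia)) := by
      refine (MPb0eR.lim_c1 hv hw ia).congr fun n => ?_
      rw [e1 n ia hiS, (nu n).1, mul_one]
    have hbf0 : bf F v0 w0 = 0 := by
      have h1 : Tendsto (fun n => α n * u n a * (R n : ℂ)⁻¹) uf
          (𝓝 (c1 T v0 w0 ia * u0 a * 0)) := (hα.mul hua).mul hRi
      rw [mul_zero] at h1
      refine tendsto_nhds_unique (hbf.congr fun n => ?_) h1
      rw [← ea n, mul_comm (R n : ℂ), mul_assoc, mul_inv_cancel₀ (hR' n), mul_one]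
    rcases MPb0eR.ualt fun n => (R n : ℂ) * u n a with ⟨r0, hr⟩ | hr
    · -- the multiplier converges
      have hG2 : Tendsto (fun n => c2 T (Function.update (u n) a 0) (w n)
          + ((R n : ℂ) * u n a) • bfB F (w n)) uf
          (𝓝 (c2 T (Function.update u0 a 0) w0 + r0 • bfB F w0)) := hc2.add (hr.smul hbB)
      have hG3 : Tendsto (fun n => c3 T (Function.update (u n) a 0) (v n)
          + ((R n : ℂ) * u n a) • bfC F (v n)) uf
          (𝓝 (c3 T (Function.update u0 a 0) v0 + r0 • bfC F v0)) := hc3.add (hr.smul hbC)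
      obtain ⟨β0, hβ, hv0, hE2⟩ := rr1_mult cX hv v0ne (fun n => (ht n).sv) hG2 (β := β)
        (Eventually.of_forall fun n z hz => by
          rw [dt_add_left, dt_smul_left]
          exact e2 n z hz)
      obtain ⟨γ0, hγ, hw0, hE3⟩ := rr1_mult cY hw w0ne (fun n => (ht n).sw) hG3 (β := γ)
        (Eventually.of_forall fun n z hz => by
          rw [dt_add_left, dt_smul_left]
          exact e3 n z hz)
      have hupd : Function.update u0 a 0 = u0 := by
        rw [← h0]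
        exact Function.update_eq_self a u0
      rw [hupd] at hE2 hE3
      refine ⟨hiS, u0, v0, w0, _, β0, γ0, r0, hu, h0, hv, hw, hα, hβ, hγ, hr, ?_⟩
      refine ⟨fun x hx => ?_, hv0, hw0, fun x hx => ?_, hbf0, fun z hz => ?_, fun z hz => ?_⟩
      · by_cases hxa : x = a
        · rw [hxa, h0]
        · refine su0 x fun h => ?_
          rcases Finset.mem_insert.1 h with h | h
          · exact hxa h
          · exact hx h
      · refine tendsto_nhds_unique (MPb0eR.lim_c1 hv hw x)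
          ((hα.mul ((tendsto_pi_nhds.1 hu) x)).congr fun n => ?_)
        exact (e1 n x hx).symm
      · rw [← hE2 z hz, dt_add_left, dt_smul_left]
      · rw [← hE3 z hz, dt_add_left, dt_smul_left]
    · -- impossible
      exfalso
      have hrn : ∀ᶠ n in uf, (R n : ℂ) * u n a ≠ 0 := by
        filter_upwards [hr.eventually_gt_atTop 0] with n hn
        exact norm_pos_iff.1 hn
      have hri : Tendsto (fun n => ((R n : ℂ) * u n a)⁻¹) uf (𝓝 0) := by
        rw [tendsto_zero_iff_norm_tendsto_zero]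
        refine (tendsto_inv_atTop_zero.comp hr).congr fun n => ?_
        rw [Function.comp_apply, norm_inv]
      have hG2 : Tendsto (fun n => ((R n : ℂ) * u n a)⁻¹ • c2 T (Function.update (u n) a 0) (w n)
          + bfB F (w n)) uf
          (𝓝 ((0 : ℂ) • c2 T (Function.update u0 a 0) w0 + bfB F w0)) :=
        (hri.smul hc2).add hbB
      have hG3 : Tendsto (fun n => ((R n : ℂ) * u n a)⁻¹ • c3 T (Function.update (u n) a 0) (v n)
          + bfC F (v n)) uf
          (𝓝 ((0 : ℂ) • c3 T (Function.update u0 a 0) v0 + bfC F v0)) :=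
        (hri.smul hc3).add hbC
      obtain ⟨β0, hβ, hv0, hE2⟩ := rr1_mult cX hv v0ne (fun n => (ht n).sv) hG2
        (β := fun n => ((R n : ℂ) * u n a)⁻¹ * β n) (by
          filter_upwards [hrn] with n hn z hz
          rw [dt_add_left, dt_smul_left, mul_assoc, ← e2 n z hz, mul_add, ← mul_assoc _ _
            (dt (bfB F (w n)) z), inv_mul_cancel₀ hn, one_mul])
      obtain ⟨γ0, hγ, hw0, hE3⟩ := rr1_mult cY hw w0ne (fun n => (ht n).sw) hG3
        (β := fun n => ((R n : ℂ) * u n a)⁻¹ * γ n) (by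
          filter_upwards [hrn] with n hn z hz
          rw [dt_add_left, dt_smul_left, mul_assoc, ← e3 n z hz, mul_add, ← mul_assoc _ _
            (dt (bfC F (v n)) z), inv_mul_cancel₀ hn, one_mul])
      rw [zero_smul, zero_add] at hE2 hE3
      exact (hP v0 w0 β0 γ0 ⟨hv0, hw0, hE2, hE3⟩ v0ne w0ne).hF hbf0
  · -- case 1
    left
    have hua' : ∀ᶠ n in uf, u n a ≠ 0 := hua.eventually_ne h0
    have hα : Tendsto (fun n => α n / R n) uf (𝓝 (bf F v0 w0 / u0 a)) := by
      refine (hbf.div hua h0).congr' ?_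
      filter_upwards [hua'] with n hn
      rw [Pi.div_apply, div_eq_div_iff hn (hR' n), ← ea n]
      ring
    have hG2 : Tendsto (fun n => ((R n : ℂ))⁻¹ • c2 T (Function.update (u n) a 0) (w n)
        + u n a • bfB F (w n)) uf
        (𝓝 ((0 : ℂ) • c2 T (Function.update u0 a 0) w0 + u0 a • bfB F w0)) :=
      (hRi.smul hc2).add (hua.smul hbB)
    have hG3 : Tendsto (fun n => ((R n : ℂ))⁻¹ • c3 T (Function.update (u n) a 0) (v n)
        + u n a • bfC F (v n)) uf
        (𝓝 ((0 : ℂ) • c3 T (Function.update u0 a 0) v0 + u0 a • bfC F v0)) :=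
      (hRi.smul hc3).add (hua.smul hbC)
    obtain ⟨β0, hβ, hv0, hE2⟩ := rr1_mult cX hv v0ne (fun n => (ht n).sv) hG2
      (β := fun n => β n / R n) (Eventually.of_forall fun n z hz => by
        rw [dt_add_left, dt_smul_left, dt_smul_left, div_mul_eq_mul_div, ← e2 n z hz]
        have := hR' n
        field_simp)
    obtain ⟨γ0, hγ, hw0, hE3⟩ := rr1_mult cY hw w0ne (fun n => (ht n).sw) hG3
      (β := fun n => γ n / R n) (Eventually.of_forall fun n z hz => by
        rw [dt_add_left, dt_smul_left, dt_smul_left, div_mul_eq_mul_div, ← e3 n z hz]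
        have := hR' n
        field_simp)
    rw [zero_smul, zero_add] at hE2 hE3
    have hF : bf F v0 w0 ≠ 0 := by
      refine (hP v0 w0 (β0 / u0 a) (γ0 / u0 a) ⟨hv0, hw0, fun z hz => ?_, fun z hz => ?_⟩
        v0ne w0ne).hF
      · have h1 := hE2 z hz
        rw [dt_smul_left] at h1
        rw [div_mul_eq_mul_div, ← h1, mul_div_cancel_left₀ _ h0]
      · have h1 := hE3 z hz
        rw [dt_smul_left] at h1
        rw [div_mul_eq_mul_div, ← h1, mul_div_cancel_left₀ _ h0]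
    have hz : ∀ x ∈ SA, u0 x = 0 := by
      intro x hx
      have h1 : Tendsto (fun n => α n / R n * u n x) uf (𝓝 (bf F v0 w0 / u0 a * u0 x)) :=
        hα.mul ((tendsto_pi_nhds.1 hu) x)
      have h2 : Tendsto (fun n => c1 T (v n) (w n) x * (R n : ℂ)⁻¹) uf
          (𝓝 (c1 T v0 w0 x * 0)) := (MPb0eR.lim_c1 hv hw x).mul hRi
      rw [mul_zero] at h2
      have h3 : bf F v0 w0 / u0 a * u0 x = 0 := by
        refine tendsto_nhds_unique (h1.congr fun n => ?_) h2
        rw [e1 n x hx, div_eq_mul_inv]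
        ring
      exact (mul_eq_zero.1 h3).resolve_left (div_ne_zero hF h0)
    have hia : ia = a := by
      rcases Finset.mem_insert.1 (nu0.mem su0) with h | h
      · exact h
      · exfalso
        have h1 := nu0.1
        rw [hz ia h] at h1
        exact zero_ne_one h1
    have h1a : u0 a = 1 := by
      rw [← hia]
      exact nu0.1
    have hu0 : u0 = Pi.single a 1 := by
      funext x
      by_cases hx : x = a
      · rw [hx, Pi.single_eq_same, h1a]
      · rw [Pi.single_eq_of_ne hx]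
        by_cases hxS : x ∈ SA
        · exact hz x hxS
        · refine su0 x fun h => ?_
          rcases Finset.mem_insert.1 h with h | h
          · exact hx h
          · exact hxS h
    rw [h1a, one_smul] at hE2 hE3
    rw [h1a, div_one] at hα
    have hSP : SP F X Y v0 w0 β0 γ0 := ⟨hv0, hw0, hE2, hE3⟩
    refine ⟨hia, v0, w0, _, β0, γ0, hu0 ▸ hu, hv, hw, hα, hβ, hγ, rfl, hSP,
      hP v0 w0 β0 γ0 hSP v0ne w0ne⟩

end

end Pool.Agent.MPb0eK
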