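import Mathlib
import Pool.Agent.Lib.MP_b0e20b_ag_K.Rr1
import Pool.Agent.Lib.MP_b0e20b_ag_K.Rig
import Pool.Agent.Lib.MP_b0e20b_ag_R.QFin

/-!
# MP_b0e20b_ag, project K: a row with a large factor: reality
-/

set_option autoImplicit false

open scoped BigOperators Topology
open Filter

namespace Pool.Agent.MPb0eK

open MPb0eR (c1 c2 c3 tr q Sup Rl Rea uf Nrm cj AF scl)

/-! ### Subspaces as kernels -/

private theorem rr2_fun {B : Type} [Fintype B] (X : Submodule ℂ (B → ℂ)) :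
    ∃ (k : ℕ) (f : (B → ℂ) →ₗ[ℂ] (Fin k → ℂ)), ∀ v, f v = 0 ↔ v ∈ X := by
  refine ⟨_, (Module.finBasis ℂ ((B → ℂ) ⧸ X)).equivFun.toLinearMap ∘ₗ X.mkQ, fun v => ?_⟩
  rw [LinearMap.comp_apply, LinearEquiv.coe_coe, LinearEquiv.map_eq_zero_iff,
    Submodule.mkQ_apply, Submodule.Quotient.mk_eq_zero]

/-- the annihilator of `X` -/
private def rr2_perp {B : Type} [Fintype B] [DecidableEq B] (X : Submodule ℂ (B → ℂ)) :
    Submodule ℂ (B → ℂ) where
  carrier := {G | ∀ z ∈ X, dt G z = 0}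
  add_mem' := by
    intro G G' h h' z hz
    rw [dt_add_left, h z hz, h' z hz, add_zero]
  zero_mem' := by
    intro z _
    simp [dt]
  smul_mem' := by
    intro c G h z hz
    rw [dt_smul_left, h z hz, mul_zero]

section

variable {A B C : Type} [Fintype A] [Fintype B] [Fintype C]

private theorem rr2_real {I : Type} (t : ℝ) (u : I → ℂ) : t • u = (t : ℂ) • u := by
  funext x
  simp only [Pi.smul_apply, Complex.real_smul, smul_eq_mul]

private theorem rr2_bfal (F : B → C → ℝ) (v v' : B → ℂ) (w : C → ℂ) :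
    bf F (v + v') w = bf F v w + bf F v' w := by
  unfold bf
  rw [← Finset.sum_add_distrib]
  refine Finset.sum_congr rfl fun b _ => ?_
  rw [← Finset.sum_add_distrib]
  refine Finset.sum_congr rfl fun c _ => ?_
  rw [Pi.add_apply]
  ring

private theorem rr2_bfar (F : B → C → ℝ) (v : B → ℂ) (w w' : C → ℂ) :
    bf F v (w + w') = bf F v w + bf F v w' := by
  unfold bf
  rw [← Finset.sum_add_distrib]
  refine Finset.sum_congr rfl fun b _ => ?_
  rw [← Finset.sum_add_distrib]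
  refine Finset.sum_congr rfl fun c _ => ?_
  rw [Pi.add_apply]
  ring

private theorem rr2_bfsl (F : B → C → ℝ) (r : ℂ) (v : B → ℂ) (w : C → ℂ) :
    bf F (r • v) w = r * bf F v w := by
  unfold bf
  rw [Finset.mul_sum]
  refine Finset.sum_congr rfl fun b _ => ?_
  rw [Finset.mul_sum]
  refine Finset.sum_congr rfl fun c _ => ?_
  rw [Pi.smul_apply, smul_eq_mul]
  ring

private theorem rr2_bfsr (F : B → C → ℝ) (r : ℂ) (v : B → ℂ) (w : C → ℂ) :
    bf F v (r • w) = r * bf F v w := by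
  unfold bf
  rw [Finset.mul_sum]
  refine Finset.sum_congr rfl fun b _ => ?_
  rw [Finset.mul_sum]
  refine Finset.sum_congr rfl fun c _ => ?_
  rw [Pi.smul_apply, smul_eq_mul]
  ring

omit [Fintype B] in
private theorem rr2_Ba (F : B → C → ℝ) (w w' : C → ℂ) : bfB F (w + w') = bfB F w + bfB F w' := by
  funext b
  simp only [bfB, Pi.add_apply, mul_add, Finset.sum_add_distrib]

omit [Fintype C] in
private theorem rr2_Ca (F : B → C → ℝ) (v v' : B → ℂ) : bfC F (v + v') = bfC F v + bfC F v' := by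
  funext b
  simp only [bfC, Pi.add_apply, mul_add, Finset.sum_add_distrib]

omit [Fintype B] in
private theorem rr2_Bs (F : B → C → ℝ) (r : ℂ) (w : C → ℂ) : bfB F (r • w) = r • bfB F w := by
  funext b
  simp only [bfB, Pi.smul_apply, smul_eq_mul, Finset.mul_sum]
  exact Finset.sum_congr rfl fun c _ => by ring

omit [Fintype C] in
private theorem rr2_Cs (F : B → C → ℝ) (r : ℂ) (v : B → ℂ) : bfC F (r • v) = r • bfC F v := by
  funext b
  simp only [bfC, Pi.smul_apply, smul_eq_mul, Finset.mul_sum]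
  exact Finset.sum_congr rfl fun c _ => by ring

private theorem rr2_c2a (T : A → B → C → ℝ) (u u' : A → ℂ) (w : C → ℂ) :
    c2 T (u + u') w = c2 T u w + c2 T u' w := funext fun _ => MPb0eR.c2_add_left ..

private theorem rr2_c2a' (T : A → B → C → ℝ) (u : A → ℂ) (w w' : C → ℂ) :
    c2 T u (w + w') = c2 T u w + c2 T u w' := funext fun _ => MPb0eR.c2_add_right ..

private theorem rr2_c2s (T : A → B → C → ℝ) (r : ℂ) (u : A → ℂ) (w : C → ℂ) :
    c2 T (r • u) w = r • c2 T u w := funext fun _ => MPb0eR.c2_smul_left ..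

private theorem rr2_c2s' (T : A → B → C → ℝ) (r : ℂ) (u : A → ℂ) (w : C → ℂ) :
    c2 T u (r • w) = r • c2 T u w := funext fun _ => MPb0eR.c2_smul_right ..

private theorem rr2_c3a (T : A → B → C → ℝ) (u u' : A → ℂ) (v : B → ℂ) :
    c3 T (u + u') v = c3 T u v + c3 T u' v := funext fun _ => MPb0eR.c3_add_left ..

private theorem rr2_c3a' (T : A → B → C → ℝ) (u : A → ℂ) (v v' : B → ℂ) :
    c3 T u (v + v') = c3 T u v + c3 T u v' := funext fun _ => MPb0eR.c3_add_right ..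

private theorem rr2_c3s (T : A → B → C → ℝ) (r : ℂ) (u : A → ℂ) (v : B → ℂ) :
    c3 T (r • u) v = r • c3 T u v := funext fun _ => MPb0eR.c3_smul_left ..

private theorem rr2_c3s' (T : A → B → C → ℝ) (r : ℂ) (u : A → ℂ) (v : B → ℂ) :
    c3 T u (r • v) = r • c3 T u v := funext fun _ => MPb0eR.c3_smul_right ..

end

section

variable {A B C : Type} [Fintype A] [Fintype B] [Fintype C] [DecidableEq A]

/-- the unknowns -/
private abbrev RP (A B C : Type) : Type := (A → ℂ) × (B → ℂ) × (C → ℂ) × (Fin 3 → ℂ)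

/-- the values -/
private abbrev RQ (A : Type) (k l k' l' : ℕ) : Type :=
  (A → ℂ) × (Fin l → ℂ) × (Fin l' → ℂ) × (Fin k → ℂ) × (Fin k' → ℂ) × (Fin 3 → ℂ)

private def rr2_b (T : A → B → C → ℝ) (F : B → C → ℝ) (SA : Finset A) (a : A) {k l k' l' : ℕ}
    (fl : (B → ℂ) →ₗ[ℂ] (Fin l → ℂ)) (gl : (C → ℂ) →ₗ[ℂ] (Fin l' → ℂ)) (δ : ℝ)
    (p r : RP A B C) : RQ A k l k' l' :=
  (fun x => if x = a then bf F p.2.1 r.2.2.1 - p.2.2.2 0 * r.1 a
      else if x ∈ SA then c1 T p.2.1 r.2.2.1 x - p.2.2.2 0 * r.1 x else 0,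
    fl ((δ : ℂ) • c2 T p.1 r.2.2.1 + p.1 a • bfB F r.2.2.1 - p.2.2.2 1 • r.2.1),
    gl ((δ : ℂ) • c3 T p.1 r.2.1 + p.1 a • bfC F r.2.1 - p.2.2.2 2 • r.2.2.1), 0, 0, 0)

private def rr2_l (SA : Finset A) (a : A) (ib : B) (ic : C) {k l k' l' : ℕ}
    (fk : (B → ℂ) →ₗ[ℂ] (Fin k → ℂ)) (gk : (C → ℂ) →ₗ[ℂ] (Fin k' → ℂ)) (_δ : ℝ)
    (p : RP A B C) : RQ A k l k' l' :=
  (fun x => if x = a then 0 else if x ∈ SA then 0 else p.1 x, 0, 0, fk p.2.1, gk p.2.2.1,
    ![p.1 a, p.2.1 ib, p.2.2.1 ic])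

variable (T : A → B → C → ℝ) (F : B → C → ℝ) (SA : Finset A) (a : A) (ib : B) (ic : C)
  {k l k' l' : ℕ} (fk : (B → ℂ) →ₗ[ℂ] (Fin k → ℂ)) (gk : (C → ℂ) →ₗ[ℂ] (Fin k' → ℂ))
  (fl : (B → ℂ) →ₗ[ℂ] (Fin l → ℂ)) (gl : (C → ℂ) →ₗ[ℂ] (Fin l' → ℂ))

private theorem rr2_al (δ : ℝ) (p p' r : RP A B C) :
    (rr2_b T F SA a fl gl δ (p + p') r : RQ A k l k' l')
      = rr2_b T F SA a fl gl δ p r + rr2_b T F SA a fl gl δ p' r := by
  obtain ⟨u, v, w, x⟩ := p
  obtain ⟨u', v', w', x'⟩ := p'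
  obtain ⟨s, t, d, y⟩ := r
  refine Prod.ext (funext fun i => ?_) (Prod.ext ?_ (Prod.ext ?_ (Prod.ext ?_
    (Prod.ext ?_ ?_))))
  · simp only [rr2_b, Prod.mk_add_mk, Pi.add_apply, MPb0eR.c1_add_left, rr2_bfal]
    split_ifs <;> ring
  · simp only [rr2_b, Prod.mk_add_mk, Pi.add_apply, rr2_c2a, ← map_add]
    congr 1
    module
  · simp only [rr2_b, Prod.mk_add_mk, Pi.add_apply, rr2_c3a, ← map_add]
    congr 1
    module
  · simp [rr2_b]
  · simp [rr2_b]
  · simp [rr2_b]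

private theorem rr2_ar (δ : ℝ) (p r r' : RP A B C) :
    (rr2_b T F SA a fl gl δ p (r + r') : RQ A k l k' l')
      = rr2_b T F SA a fl gl δ p r + rr2_b T F SA a fl gl δ p r' := by
  obtain ⟨u, v, w, x⟩ := r
  obtain ⟨u', v', w', x'⟩ := r'
  obtain ⟨s, t, d, y⟩ := p
  refine Prod.ext (funext fun i => ?_) (Prod.ext ?_ (Prod.ext ?_ (Prod.ext ?_
    (Prod.ext ?_ ?_))))
  · simp only [rr2_b, Prod.mk_add_mk, Pi.add_apply, MPb0eR.c1_add_right, rr2_bfar]
    split_ifs <;> ring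
  · simp only [rr2_b, Prod.mk_add_mk, Pi.add_apply, rr2_c2a', rr2_Ba, ← map_add]
    congr 1
    module
  · simp only [rr2_b, Prod.mk_add_mk, Pi.add_apply, rr2_c3a', rr2_Ca, ← map_add]
    congr 1
    module
  · simp [rr2_b]
  · simp [rr2_b]
  · simp [rr2_b]

private theorem rr2_sl (δ : ℝ) (t : ℝ) (p r : RP A B C) :
    (rr2_b T F SA a fl gl δ (t • p) r : RQ A k l k' l') = t • rr2_b T F SA a fl gl δ p r := by
  obtain ⟨u, v, w, x⟩ := p
  obtain ⟨s, e, d, y⟩ := r
  refine Prod.ext (funext fun i => ?_) (Prod.ext ?_ (Prod.ext ?_ (Prod.ext ?_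
    (Prod.ext ?_ ?_))))
  · simp only [rr2_b, Prod.smul_mk, rr2_real, MPb0eR.c1_smul_left, rr2_bfsl, Pi.smul_apply,
      smul_eq_mul]
    split_ifs <;> ring
  · simp only [rr2_b, Prod.smul_mk, rr2_real, rr2_c2s, ← map_smul, Pi.smul_apply]
    congr 1
    module
  · simp only [rr2_b, Prod.smul_mk, rr2_real, rr2_c3s, ← map_smul, Pi.smul_apply]
    congr 1
    module
  · simp [rr2_b]
  · simp [rr2_b]
  · simp [rr2_b]

private theorem rr2_sr (δ : ℝ) (t : ℝ) (p r : RP A B C) :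
    (rr2_b T F SA a fl gl δ p (t • r) : RQ A k l k' l') = t • rr2_b T F SA a fl gl δ p r := by
  obtain ⟨u, v, w, x⟩ := p
  obtain ⟨s, e, d, y⟩ := r
  refine Prod.ext (funext fun i => ?_) (Prod.ext ?_ (Prod.ext ?_ (Prod.ext ?_
    (Prod.ext ?_ ?_))))
  · simp only [rr2_b, Prod.smul_mk, rr2_real, MPb0eR.c1_smul_right, rr2_bfsr, Pi.smul_apply,
      smul_eq_mul]
    split_ifs <;> ring
  · simp only [rr2_b, Prod.smul_mk, rr2_real, rr2_c2s', rr2_Bs, ← map_smul, Pi.smul_apply]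
    congr 1
    module
  · simp only [rr2_b, Prod.smul_mk, rr2_real, rr2_c3s', rr2_Cs, ← map_smul, Pi.smul_apply]
    congr 1
    module
  · simp [rr2_b]
  · simp [rr2_b]
  · simp [rr2_b]

omit [Fintype A] [Fintype B] [Fintype C] in
private theorem rr2_la (δ : ℝ) (p r : RP A B C) :
    (rr2_l SA a ib ic fk gk δ (p + r) : RQ A k l k' l')
      = rr2_l SA a ib ic fk gk δ p + rr2_l SA a ib ic fk gk δ r := by
  obtain ⟨u, v, w, x⟩ := p
  obtain ⟨s, e, d, y⟩ := r
  refine Prod.ext (funext fun i => ?_) (Prod.ext ?_ (Prod.ext ?_ (Prod.ext ?_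
    (Prod.ext ?_ (funext fun i => ?_)))))
  · simp only [rr2_l, Prod.mk_add_mk, Pi.add_apply]
    split_ifs <;> ring
  · simp [rr2_l]
  · simp [rr2_l]
  · simp [rr2_l]
  · simp [rr2_l]
  · fin_cases i <;> simp [rr2_l]

omit [Fintype A] [Fintype B] [Fintype C] in
private theorem rr2_ls (δ : ℝ) (t : ℝ) (p : RP A B C) :
    (rr2_l SA a ib ic fk gk δ (t • p) : RQ A k l k' l') = t • rr2_l SA a ib ic fk gk δ p := by
  obtain ⟨u, v, w, x⟩ := p
  refine Prod.ext (funext fun i => ?_) (Prod.ext ?_ (Prod.ext ?_ (Prod.ext ?_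
    (Prod.ext ?_ (funext fun i => ?_)))))
  · simp only [rr2_l, Prod.smul_mk, rr2_real, Pi.smul_apply, smul_eq_mul]
    split_ifs <;> ring
  · simp [rr2_l]
  · simp [rr2_l]
  · simp only [rr2_l, Prod.smul_mk, rr2_real, map_smul]
  · simp only [rr2_l, Prod.smul_mk, rr2_real, map_smul]
  · fin_cases i <;> simp [rr2_l]

private theorem rr2_cb : Continuous fun x : ℝ × RP A B C × RP A B C =>
    (rr2_b T F SA a fl gl x.1 x.2.1 x.2.2 : RQ A k l k' l') := by
  have hfl : Continuous fl := fl.continuous_of_finiteDimensional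
  have hgl : Continuous gl := gl.continuous_of_finiteDimensional
  unfold rr2_b
  refine Continuous.prodMk (continuous_pi fun x => ?_) (Continuous.prodMk (hfl.comp ?_)
    (Continuous.prodMk (hgl.comp ?_) continuous_const))
  · split_ifs
    · unfold bf
      fun_prop
    · unfold c1
      fun_prop
    · exact continuous_const
  · refine continuous_pi fun b => ?_
    simp only [Pi.sub_apply, Pi.add_apply, Pi.smul_apply, smul_eq_mul, c2, bfB]
    fun_prop
  · refine continuous_pi fun c => ?_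
    simp only [Pi.sub_apply, Pi.add_apply, Pi.smul_apply, smul_eq_mul, c3, bfC]
    fun_prop

omit [Fintype A] in
private theorem rr2_cl : Continuous fun x : ℝ × RP A B C =>
    (rr2_l SA a ib ic fk gk x.1 x.2 : RQ A k l k' l') := by
  have hfk : Continuous fk := fk.continuous_of_finiteDimensional
  have hgk : Continuous gk := gk.continuous_of_finiteDimensional
  unfold rr2_l
  refine Continuous.prodMk (continuous_pi fun x => ?_) (Continuous.prodMk continuous_const
    (Continuous.prodMk continuous_const (Continuous.prodMk (hfk.comp ?_)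
      (Continuous.prodMk (hgk.comp ?_) (continuous_pi fun i => ?_)))))
  · split_ifs <;> fun_prop
  · fun_prop
  · fun_prop
  · fin_cases i
    · show Continuous fun x : ℝ × RP A B C => x.2.1 a
      fun_prop
    · show Continuous fun x : ℝ × RP A B C => x.2.2.1 ib
      fun_prop
    · show Continuous fun x : ℝ × RP A B C => x.2.2.2.1 ic
      fun_prop

private theorem rr2_isQ : MPb0eR.IsQ
    (rr2_b T F SA a fl gl : ℝ → RP A B C → RP A B C → RQ A k l k' l')
    (rr2_l SA a ib ic fk gk) where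
  al := rr2_al T F SA a fl gl
  ar := rr2_ar T F SA a fl gl
  sl := rr2_sl T F SA a fl gl
  sr := rr2_sr T F SA a fl gl
  la := rr2_la SA a ib ic fk gk
  ls := rr2_ls SA a ib ic fk gk
  cb := rr2_cb T F SA a fl gl
  cl := rr2_cl SA a ib ic fk gk

/-- the solutions -/
private structure RS (X : Submodule ℂ (B → ℂ)) (Y : Submodule ℂ (C → ℂ)) (δ : ℝ)
    (p : RP A B C) : Prop where
  e0 : bf F p.2.1 p.2.2.1 = p.2.2.2 0 * p.1 a
  e1 : ∀ x, x ≠ a → x ∈ SA → c1 T p.2.1 p.2.2.1 x = p.2.2.2 0 * p.1 x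
  su : ∀ x, x ≠ a → x ∉ SA → p.1 x = 0
  e2 : ∀ z ∈ X, dt ((δ : ℂ) • c2 T p.1 p.2.2.1 + p.1 a • bfB F p.2.2.1 - p.2.2.2 1 • p.2.1) z = 0
  e3 : ∀ z ∈ Y, dt ((δ : ℂ) • c3 T p.1 p.2.1 + p.1 a • bfC F p.2.1 - p.2.2.2 2 • p.2.2.1) z = 0
  sv : p.2.1 ∈ X
  sw : p.2.2.1 ∈ Y
  n1 : p.1 a = 1
  n2 : p.2.1 ib = 1
  n3 : p.2.2.1 ic = 1

/-- the kernel -/
private structure RK (X : Submodule ℂ (B → ℂ)) (Y : Submodule ℂ (C → ℂ)) (δ : ℝ)
    (p h : RP A B C) : Prop where
  e0 : bf F p.2.1 h.2.2.1 + bf F h.2.1 p.2.2.1 = p.2.2.2 0 * h.1 a + h.2.2.2 0 * p.1 a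
  e1 : ∀ x, x ≠ a → x ∈ SA → c1 T p.2.1 h.2.2.1 x + c1 T h.2.1 p.2.2.1 x
    = p.2.2.2 0 * h.1 x + h.2.2.2 0 * p.1 x
  su : ∀ x, x ≠ a → x ∉ SA → h.1 x = 0
  e2 : ∀ z ∈ X, dt (((δ : ℂ) • c2 T p.1 h.2.2.1 + p.1 a • bfB F h.2.2.1 - p.2.2.2 1 • h.2.1)
    + ((δ : ℂ) • c2 T h.1 p.2.2.1 + h.1 a • bfB F p.2.2.1 - h.2.2.2 1 • p.2.1)) z = 0
  e3 : ∀ z ∈ Y, dt (((δ : ℂ) • c3 T p.1 h.2.1 + p.1 a • bfC F h.2.1 - p.2.2.2 2 • h.2.2.1)
    + ((δ : ℂ) • c3 T h.1 p.2.1 + h.1 a • bfC F p.2.1 - h.2.2.2 2 • p.2.2.1)) z = 0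
  sv : h.2.1 ∈ X
  sw : h.2.2.1 ∈ Y
  n1 : h.1 a = 0
  n2 : h.2.1 ib = 0
  n3 : h.2.2.1 ic = 0

variable {X : Submodule ℂ (B → ℂ)} {Y : Submodule ℂ (C → ℂ)}

private theorem rr2_eq (hfk : ∀ v, fk v = 0 ↔ v ∈ X) (hgk : ∀ w, gk w = 0 ↔ w ∈ Y)
    (hfl : ∀ G, fl G = 0 ↔ ∀ z ∈ X, dt G z = 0) (hgl : ∀ G, gl G = 0 ↔ ∀ z ∈ Y, dt G z = 0)
    (δ : ℝ) (p : RP A B C) :
    (rr2_b T F SA a fl gl δ p p + rr2_l SA a ib ic fk gk δ p + (0, 0, 0, 0, 0, fun _ => -1)
      : RQ A k l k' l') = 0 ↔ RS T F SA a ib ic X Y δ p := by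
  obtain ⟨u, v, w, m⟩ := p
  constructor
  · intro h
    have h1 := congrArg (fun t : RQ A k l k' l' => t.1) h
    have h2 := congrArg (fun t : RQ A k l k' l' => t.2.1) h
    have h3 := congrArg (fun t : RQ A k l k' l' => t.2.2.1) h
    have h4 := congrArg (fun t : RQ A k l k' l' => t.2.2.2.1) h
    have h5 := congrArg (fun t : RQ A k l k' l' => t.2.2.2.2.1) h
    have h6 := congrArg (fun t : RQ A k l k' l' => t.2.2.2.2.2) h
    simp only [rr2_b, rr2_l, Prod.mk_add_mk, add_zero, zero_add, Prod.fst_zero, Prod.snd_zero]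
      at h1 h2 h3 h4 h5 h6
    refine ⟨?_, fun x hx hs => ?_, fun x hx hs => ?_, (hfl _).1 h2, (hgl _).1 h3,
      (hfk _).1 h4, (hgk _).1 h5, ?_, ?_, ?_⟩
    · have h7 := congrFun h1 a
      simp at h7
      exact sub_eq_zero.1 h7
    · have h7 := congrFun h1 x
      simp [hx, hs] at h7
      exact sub_eq_zero.1 h7
    · have h7 := congrFun h1 x
      simpa [hx, hs] using h7
    · have h7 := congrFun h6 0
      have h8 : u a + -1 = 0 := h7
      exact (add_neg_eq_zero.1 h8)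
    · have h7 := congrFun h6 1
      have h8 : v ib + -1 = 0 := h7
      exact (add_neg_eq_zero.1 h8)
    · have h7 := congrFun h6 2
      have h8 : w ic + -1 = 0 := h7
      exact (add_neg_eq_zero.1 h8)
  · intro h
    refine Prod.ext (funext fun x => ?_) (Prod.ext ?_ (Prod.ext ?_ (Prod.ext ?_
      (Prod.ext ?_ (funext fun i => ?_)))))
    · simp only [rr2_b, rr2_l, Prod.mk_add_mk, add_zero, Pi.add_apply, Prod.fst_zero,
        Pi.zero_apply]
      by_cases hx : x = a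
      · simp only [hx, if_true, add_zero]
        exact sub_eq_zero.2 h.e0
      · by_cases hs : x ∈ SA
        · simp only [hx, hs, if_true, if_false, add_zero]
          exact sub_eq_zero.2 (h.e1 x hx hs)
        · simp only [hx, hs, if_false, zero_add]
          exact h.su x hx hs
    · simp only [rr2_b, rr2_l, Prod.mk_add_mk, add_zero]
      exact (hfl _).2 h.e2
    · simp only [rr2_b, rr2_l, Prod.mk_add_mk, add_zero]
      exact (hgl _).2 h.e3
    · simp only [rr2_b, rr2_l, Prod.mk_add_mk, add_zero, zero_add]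
      exact (hfk _).2 h.sv
    · simp only [rr2_b, rr2_l, Prod.mk_add_mk, add_zero, zero_add]
      exact (hgk _).2 h.sw
    · simp only [rr2_b, rr2_l, Prod.mk_add_mk, zero_add]
      fin_cases i
      · have h7 : u a = 1 := h.n1
        show u a + -1 = 0
        rw [h7]
        ring
      · have h7 : v ib = 1 := h.n2
        show v ib + -1 = 0
        rw [h7]
        ring
      · have h7 : w ic = 1 := h.n3
        show w ic + -1 = 0
        rw [h7]
        ring

private theorem rr2_ke (hfk : ∀ v, fk v = 0 ↔ v ∈ X) (hgk : ∀ w, gk w = 0 ↔ w ∈ Y)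
    (hfl : ∀ G, fl G = 0 ↔ ∀ z ∈ X, dt G z = 0) (hgl : ∀ G, gl G = 0 ↔ ∀ z ∈ Y, dt G z = 0)
    (δ : ℝ) (p h : RP A B C) :
    (rr2_b T F SA a fl gl δ p h + rr2_b T F SA a fl gl δ h p + rr2_l SA a ib ic fk gk δ h
      : RQ A k l k' l') = 0 ↔ RK T F SA a ib ic X Y δ p h := by
  obtain ⟨u, v, w, m⟩ := p
  obtain ⟨du, dv, dw, dm⟩ := h
  constructor
  · intro h
    have h1 := congrArg (fun t : RQ A k l k' l' => t.1) h
    have h2 := congrArg (fun t : RQ A k l k' l' => t.2.1) h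
    have h3 := congrArg (fun t : RQ A k l k' l' => t.2.2.1) h
    have h4 := congrArg (fun t : RQ A k l k' l' => t.2.2.2.1) h
    have h5 := congrArg (fun t : RQ A k l k' l' => t.2.2.2.2.1) h
    have h6 := congrArg (fun t : RQ A k l k' l' => t.2.2.2.2.2) h
    simp only [rr2_b, rr2_l, Prod.mk_add_mk, add_zero, zero_add, Prod.fst_zero, Prod.snd_zero,
      ← map_add] at h1 h2 h3 h4 h5 h6
    refine ⟨?_, fun x hx hs => ?_, fun x hx hs => ?_, (hfl _).1 h2, (hgl _).1 h3,
      (hfk _).1 h4, (hgk _).1 h5, ?_, ?_, ?_⟩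
    · have h7 := congrFun h1 a
      simp at h7
      linear_combination h7
    · have h7 := congrFun h1 x
      simp [hx, hs] at h7
      linear_combination h7
    · have h7 := congrFun h1 x
      simpa [hx, hs] using h7
    · exact congrFun h6 0
    · exact congrFun h6 1
    · exact congrFun h6 2
  · intro h
    refine Prod.ext (funext fun x => ?_) (Prod.ext ?_ (Prod.ext ?_ (Prod.ext ?_
      (Prod.ext ?_ (funext fun i => ?_)))))
    · simp only [rr2_b, rr2_l, Prod.mk_add_mk, Pi.add_apply, Prod.fst_zero, Pi.zero_apply]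
      by_cases hx : x = a
      · simp only [hx, if_true, add_zero]
        linear_combination h.e0
      · by_cases hs : x ∈ SA
        · simp only [hx, hs, if_true, if_false, add_zero]
          linear_combination h.e1 x hx hs
        · simp only [hx, hs, if_false, zero_add]
          exact h.su x hx hs
    · simp only [rr2_b, rr2_l, Prod.mk_add_mk, add_zero, ← map_add]
      exact (hfl _).2 h.e2
    · simp only [rr2_b, rr2_l, Prod.mk_add_mk, add_zero, ← map_add]
      exact (hgl _).2 h.e3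
    · simp only [rr2_b, rr2_l, Prod.mk_add_mk, add_zero, zero_add]
      exact (hfk _).2 h.sv
    · simp only [rr2_b, rr2_l, Prod.mk_add_mk, add_zero, zero_add]
      exact (hgk _).2 h.sw
    · simp only [rr2_b, rr2_l, Prod.mk_add_mk, zero_add]
      fin_cases i
      · exact h.n1
      · exact h.n2
      · exact h.n3

/-! ### The conjugation -/

private theorem rr2_bfcj (F : B → C → ℝ) (v : B → ℂ) (w : C → ℂ) :
    bf F (cj v) (cj w) = starRingEnd ℂ (bf F v w) := by
  simp only [bf, cj, map_sum, map_mul, Complex.conj_ofReal]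

omit [Fintype B] in
private theorem rr2_cjB (F : B → C → ℝ) (w : C → ℂ) : bfB F (cj w) = cj (bfB F w) := by
  funext b
  simp only [bfB, cj, map_sum, map_mul, Complex.conj_ofReal]

omit [Fintype C] in
private theorem rr2_cjC (F : B → C → ℝ) (v : B → ℂ) : bfC F (cj v) = cj (bfC F v) := by
  funext b
  simp only [bfC, cj, map_sum, map_mul, Complex.conj_ofReal]

omit [DecidableEq A] in
private theorem rr2_cj2 (δ : ℝ) (u : A → ℂ) (v : B → ℂ) (w : C → ℂ) (s m : ℂ) :
    (δ : ℂ) • c2 T (cj u) (cj w) + starRingEnd ℂ s • bfB F (cj w) - starRingEnd ℂ m • cj v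
      = cj ((δ : ℂ) • c2 T u w + s • bfB F w - m • v) := by
  rw [rr2_cjB]
  funext b
  simp only [Pi.sub_apply, Pi.add_apply, Pi.smul_apply, smul_eq_mul, MPb0eR.c2_cj]
  simp only [cj, Pi.sub_apply, Pi.add_apply, Pi.smul_apply, smul_eq_mul, map_sub, map_add,
    map_mul, Complex.conj_ofReal]

omit [DecidableEq A] in
private theorem rr2_cj3 (δ : ℝ) (u : A → ℂ) (v : B → ℂ) (w : C → ℂ) (s m : ℂ) :
    (δ : ℂ) • c3 T (cj u) (cj v) + starRingEnd ℂ s • bfC F (cj v) - starRingEnd ℂ m • cj w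
      = cj ((δ : ℂ) • c3 T u v + s • bfC F v - m • w) := by
  rw [rr2_cjC]
  funext b
  simp only [Pi.sub_apply, Pi.add_apply, Pi.smul_apply, smul_eq_mul, MPb0eR.c3_cj]
  simp only [cj, Pi.sub_apply, Pi.add_apply, Pi.smul_apply, smul_eq_mul, map_sub, map_add,
    map_mul, Complex.conj_ofReal]

omit [DecidableEq A] in
private theorem rr2_cjs (cX : Cj X) (cY : Cj Y) (δ : ℝ) (p : RP A B C)
    (h : RS T F SA a ib ic X Y δ p) : RS T F SA a ib ic X Y δ (cjK p) := by
  classical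
  obtain ⟨u, v, w, m⟩ := p
  refine ⟨?_, fun x hx hs => ?_, fun x hx hs => ?_, fun z hz => ?_, fun z hz => ?_,
    cX _ h.sv, cY _ h.sw, ?_, ?_, ?_⟩
  · show bf F (cj v) (cj w) = starRingEnd ℂ (m 0) * starRingEnd ℂ (u a)
    rw [rr2_bfcj, ← map_mul]
    exact congrArg _ h.e0
  · show c1 T (cj v) (cj w) x = starRingEnd ℂ (m 0) * starRingEnd ℂ (u x)
    rw [MPb0eR.c1_cj, ← map_mul]
    exact congrArg _ (h.e1 x hx hs)
  · have h1 : u x = 0 := h.su x hx hs
    show starRingEnd ℂ (u x) = 0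
    rw [h1, map_zero]
  · show dt ((δ : ℂ) • c2 T (cj u) (cj w) + starRingEnd ℂ (u a) • bfB F (cj w)
      - starRingEnd ℂ (m 1) • cj v) z = 0
    rw [rr2_cj2, ← MPb0eR.cj_cj z, dt_cj]
    have h1 : dt ((δ : ℂ) • c2 T u w + u a • bfB F w - m 1 • v) (cj z) = 0 :=
      h.e2 (cj z) (cX z hz)
    rw [h1, map_zero]
  · show dt ((δ : ℂ) • c3 T (cj u) (cj v) + starRingEnd ℂ (u a) • bfC F (cj v)
      - starRingEnd ℂ (m 2) • cj w) z = 0
    rw [rr2_cj3, ← MPb0eR.cj_cj z, dt_cj]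
    have h1 : dt ((δ : ℂ) • c3 T u v + u a • bfC F v - m 2 • w) (cj z) = 0 :=
      h.e3 (cj z) (cY z hz)
    rw [h1, map_zero]
  · have h1 : u a = 1 := h.n1
    show starRingEnd ℂ (u a) = 1
    rw [h1, map_one]
  · have h1 : v ib = 1 := h.n2
    show starRingEnd ℂ (v ib) = 1
    rw [h1, map_one]
  · have h1 : w ic = 1 := h.n3
    show starRingEnd ℂ (w ic) = 1
    rw [h1, map_one]

private theorem rr2_cjc {I : Type} : Continuous (cj : (I → ℂ) → I → ℂ) :=
  continuous_pi fun i => Complex.continuous_conj.comp (continuous_apply i)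

omit [Fintype A] [Fintype B] [Fintype C] [DecidableEq A] in
private theorem rr2_cjk : Continuous (cjK : PK A B C → PK A B C) := by
  unfold cjK
  exact Continuous.prodMk (rr2_cjc.comp continuous_fst) (Continuous.prodMk
    (rr2_cjc.comp (continuous_fst.comp continuous_snd)) (Continuous.prodMk
    (rr2_cjc.comp (continuous_fst.comp (continuous_snd.comp continuous_snd)))
    (rr2_cjc.comp (continuous_snd.comp (continuous_snd.comp continuous_snd)))))

/-! ### The rescaled tuples -/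

private def rr2_U (a : A) (R : ℝ) (u : A → ℂ) : A → ℂ := fun x => if x = a then u a else R * u x

omit [Fintype A] in
private theorem rr2_c1n (R : ℝ) (v : B → ℂ) (w : C → ℂ) {x : A} (hx : x ≠ a) :
    c1 (Function.update T a (fun b c => R * F b c)) v w x = c1 (Function.update T a 0) v w x := by
  unfold c1
  simp only [Function.update_of_ne hx]

omit [Fintype A] in
private theorem rr2_c1a (R : ℝ) (v : B → ℂ) (w : C → ℂ) :
    c1 (Function.update T a (fun b c => R * F b c)) v w a = R * bf F v w := by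
  unfold c1 bf
  simp only [Function.update_self, Finset.mul_sum]
  refine Finset.sum_congr rfl fun b _ => Finset.sum_congr rfl fun c _ => ?_
  push_cast
  ring

omit [Fintype B] in
private theorem rr2_c2n {R : ℝ} (hR : R ≠ 0) (u : A → ℂ) (w : C → ℂ) :
    (R : ℂ)⁻¹ • c2 (Function.update T a (fun b c => R * F b c)) u w
      = ((R⁻¹ ^ 2 : ℝ) : ℂ) • c2 (Function.update T a 0) (rr2_U a R u) w + u a • bfB F w := by
  have hR' : (R : ℂ) ≠ 0 := Complex.ofReal_ne_zero.2 hR
  funext b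
  simp only [Pi.add_apply, Pi.smul_apply, smul_eq_mul, c2, bfB]
  have h1 : ∀ x, ∑ c, (Function.update T a (fun b c => R * F b c) x b c : ℂ) * (u x * w c)
      = (R : ℂ)⁻¹ * (∑ c, (Function.update T a 0 x b c : ℂ) * (rr2_U a R u x * w c))
        + if x = a then R * (u a * ∑ c, (F b c : ℂ) * w c) else 0 := by
    intro x
    by_cases hx : x = a
    · subst hx
      simp only [Function.update_self, if_true, Pi.zero_apply, Complex.ofReal_zero, zero_mul,
        Finset.sum_const_zero, mul_zero, zero_add, Finset.mul_sum]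
      refine Finset.sum_congr rfl fun c _ => ?_
      push_cast
      ring
    · simp only [Function.update_of_ne hx, if_neg hx, add_zero, rr2_U, Finset.mul_sum]
      refine Finset.sum_congr rfl fun c _ => ?_
      field_simp
  rw [Finset.sum_congr rfl fun x _ => h1 x, Finset.sum_add_distrib, Finset.sum_ite_eq',
    if_pos (Finset.mem_univ _), ← Finset.mul_sum]
  push_cast
  field_simp

omit [Fintype C] in
private theorem rr2_c3n {R : ℝ} (hR : R ≠ 0) (u : A → ℂ) (v : B → ℂ) :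
    (R : ℂ)⁻¹ • c3 (Function.update T a (fun b c => R * F b c)) u v
      = ((R⁻¹ ^ 2 : ℝ) : ℂ) • c3 (Function.update T a 0) (rr2_U a R u) v + u a • bfC F v := by
  have hR' : (R : ℂ) ≠ 0 := Complex.ofReal_ne_zero.2 hR
  funext c
  simp only [Pi.add_apply, Pi.smul_apply, smul_eq_mul, c3, bfC]
  have h1 : ∀ x, ∑ b, (Function.update T a (fun b c => R * F b c) x b c : ℂ) * (u x * v b)
      = (R : ℂ)⁻¹ * (∑ b, (Function.update T a 0 x b c : ℂ) * (rr2_U a R u x * v b))
        + if x = a then R * (u a * ∑ b, (F b c : ℂ) * v b) else 0 := by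
    intro x
    by_cases hx : x = a
    · subst hx
      simp only [Function.update_self, if_true, Pi.zero_apply, Complex.ofReal_zero, zero_mul,
        Finset.sum_const_zero, mul_zero, zero_add, Finset.mul_sum]
      refine Finset.sum_congr rfl fun b _ => ?_
      push_cast
      ring
    · simp only [Function.update_of_ne hx, if_neg hx, add_zero, rr2_U, Finset.mul_sum]
      refine Finset.sum_congr rfl fun b _ => ?_
      field_simp
  rw [Finset.sum_congr rfl fun x _ => h1 x, Finset.sum_add_distrib, Finset.sum_ite_eq',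
    if_pos (Finset.mem_univ _), ← Finset.mul_sum]
  push_cast
  field_simp

end

section

variable {A B C : Type} [Fintype A] [Fintype B] [Fintype C] [DecidableEq A] [DecidableEq B]
  [DecidableEq C]

private theorem rr2_sol {T : A → B → C → ℝ} {F : B → C → ℝ} {SA : Finset A} {a : A} {ib : B}
    {ic : C} {X : Submodule ℂ (B → ℂ)} {Y : Submodule ℂ (C → ℂ)} {R : ℝ} (hR : R ≠ 0) {u : A → ℂ} {v : B → ℂ} {w : C → ℂ}
    {α β γ : ℂ} (ht : TX (Function.update T a (fun b c => R * F b c)) (insert a SA) X Y u v w α β γ)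
    (nu : u a = 1) (nv : v ib = 1) (nw : w ic = 1) :
    RS (Function.update T a 0) F SA a ib ic X Y (R⁻¹ ^ 2)
      (rr2_U a R u, v, w, ![α / R, β / R, γ / R]) := by
  have hR' : (R : ℂ) ≠ 0 := Complex.ofReal_ne_zero.2 hR
  have hUa : rr2_U a R u a = u a := if_pos rfl
  refine ⟨?_, fun x hx hs => ?_, fun x hx hs => ?_, fun z hz => ?_, fun z hz => ?_,
    ht.sv, ht.sw, ?_, nv, nw⟩
  · have h1 := ht.e1 a (Finset.mem_insert_self _ _)
    rw [rr2_c1a] at h1
    show bf F v w = α / R * rr2_U a R u a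
    rw [hUa]
    field_simp
    linear_combination h1
  · have h1 := ht.e1 x (Finset.mem_insert_of_mem hs)
    rw [rr2_c1n _ _ _ _ _ _ hx] at h1
    show c1 _ v w x = α / R * rr2_U a R u x
    rw [h1]
    simp only [rr2_U, if_neg hx]
    field_simp
  · show rr2_U a R u x = 0
    simp only [rr2_U, if_neg hx]
    rw [ht.su x (by simp [hx, hs]), mul_zero]
  · show dt (((R⁻¹ ^ 2 : ℝ) : ℂ) • c2 (Function.update T a 0) (rr2_U a R u) w
      + rr2_U a R u a • bfB F w - (β / R) • v) z = 0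
    rw [hUa, ← rr2_c2n T F a hR, sub_eq_add_neg, ← neg_smul, dt_add_left, dt_smul_left,
      dt_smul_left, ht.e2 z hz]
    field_simp
    ring
  · show dt (((R⁻¹ ^ 2 : ℝ) : ℂ) • c3 (Function.update T a 0) (rr2_U a R u) v
      + rr2_U a R u a • bfC F v - (γ / R) • w) z = 0
    rw [hUa, ← rr2_c3n T F a hR, sub_eq_add_neg, ← neg_smul, dt_add_left, dt_smul_left,
      dt_smul_left, ht.e3 z hz]
    field_simp
    ring
  · show rr2_U a R u a = 1
    rw [hUa, nu]

private theorem rr2_ker {T : A → B → C → ℝ} {F : B → C → ℝ} {SA : Finset A} {a : A} {ib : B}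
    {ic : C} {X : Submodule ℂ (B → ℂ)} {Y : Submodule ℂ (C → ℂ)} {R : ℝ} (hR : R ≠ 0) {u : A → ℂ}
    {v : B → ℂ} {w : C → ℂ} {α β γ : ℂ}
    (ht : TX (Function.update T a (fun b c => R * F b c)) (insert a SA) X Y u v w α β γ)
    (nu : u a = 1) (nv : v ib = 1) (nw : w ic = 1)
    (hk : ∀ h : RP A B C, RK (Function.update T a 0) F SA a ib ic X Y (R⁻¹ ^ 2)
      (rr2_U a R u, v, w, ![α / R, β / R, γ / R]) h → h = 0) :
    NX (Function.update T a (fun b c => R * F b c)) (insert a SA) X Y u v w α β γ := by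
  have hR' : (R : ℂ) ≠ 0 := Complex.ofReal_ne_zero.2 hR
  intro du dv dw dα dβ dγ hd
  obtain ⟨du', hdu⟩ : ∃ du', du' = du + (-(du a)) • u := ⟨_, rfl⟩
  obtain ⟨dv', hdv⟩ : ∃ dv', dv' = dv + (-(dv ib)) • v := ⟨_, rfl⟩
  obtain ⟨dw', hdw⟩ : ∃ dw', dw' = dw + (-(dw ic)) • w := ⟨_, rfl⟩
  obtain ⟨dα', hdα⟩ : ∃ dα', dα' = dα - (dv ib + dw ic - du a) * α := ⟨_, rfl⟩
  obtain ⟨dβ', hdβ⟩ : ∃ dβ', dβ' = dβ - (du a + dw ic - dv ib) * β := ⟨_, rfl⟩
  obtain ⟨dγ', hdγ⟩ : ∃ dγ', dγ' = dγ - (du a + dv ib - dw ic) * γ := ⟨_, rfl⟩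
  have hUa : rr2_U a R u a = u a := if_pos rfl
  have hd0 : du' a = 0 := by
    rw [hdu, Pi.add_apply, Pi.smul_apply, smul_eq_mul, nu]
    ring
  have hVa : rr2_U a R du' a = 0 := (if_pos rfl).trans hd0
  -- the corrected vector is in the kernel
  have k1 : ∀ x ∈ insert a SA, c1 (Function.update T a (fun b c => R * F b c)) dv' w x
      + c1 (Function.update T a (fun b c => R * F b c)) v dw' x = α * du' x + dα' * u x := by
    intro x hx
    have h1 := hd.e1 x hx
    have h2 := ht.e1 x hx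
    rw [hdv, hdw, hdu, hdα, MPb0eR.c1_add_left, MPb0eR.c1_add_right, MPb0eR.c1_smul_left,
      MPb0eR.c1_smul_right, Pi.add_apply, Pi.smul_apply, smul_eq_mul, h2]
    linear_combination h1
  have k2 : ∀ z ∈ X, dt (c2 (Function.update T a (fun b c => R * F b c)) du' w) z
      + dt (c2 (Function.update T a (fun b c => R * F b c)) u dw') z
      = β * dt dv' z + dβ' * dt v z := by
    intro z hz
    have h1 := hd.e2 z hz
    have h2 := ht.e2 z hz
    rw [hdv, hdw, hdu, hdβ, rr2_c2a, rr2_c2a', rr2_c2s, rr2_c2s', dt_add_left, dt_add_left,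
      dt_add_left, dt_smul_left, dt_smul_left, dt_smul_left, h2]
    linear_combination h1
  have k3 : ∀ z ∈ Y, dt (c3 (Function.update T a (fun b c => R * F b c)) du' v) z
      + dt (c3 (Function.update T a (fun b c => R * F b c)) u dv') z
      = γ * dt dw' z + dγ' * dt w z := by
    intro z hz
    have h1 := hd.e3 z hz
    have h2 := ht.e3 z hz
    rw [hdv, hdw, hdu, hdγ, rr2_c3a, rr2_c3a', rr2_c3s, rr2_c3s', dt_add_left, dt_add_left,
      dt_add_left, dt_smul_left, dt_smul_left, dt_smul_left, h2]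
    linear_combination h1
  have hmv : dv' ∈ X := by
    rw [hdv]
    exact X.add_mem hd.sv (X.smul_mem _ ht.sv)
  have hmw : dw' ∈ Y := by
    rw [hdw]
    exact Y.add_mem hd.sw (Y.smul_mem _ ht.sw)
  have h0 := hk (rr2_U a R du', dv', dw', ![dα' / R, dβ' / R, dγ' / R]) (by
    refine ⟨?_, fun x hx hs => ?_, fun x hx hs => ?_, fun z hz => ?_, fun z hz => ?_,
      hmv, hmw, hVa, ?_, ?_⟩
    · have h1 := k1 a (Finset.mem_insert_self _ _)
      rw [rr2_c1a, rr2_c1a, hd0] at h1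
      show bf F v dw' + bf F dv' w = α / R * rr2_U a R du' a + dα' / R * rr2_U a R u a
      rw [hUa, hVa]
      field_simp
      linear_combination h1
    · have h1 := k1 x (Finset.mem_insert_of_mem hs)
      rw [rr2_c1n _ _ _ _ _ _ hx, rr2_c1n _ _ _ _ _ _ hx] at h1
      show c1 _ v dw' x + c1 _ dv' w x = α / R * rr2_U a R du' x + dα' / R * rr2_U a R u x
      simp only [rr2_U, if_neg hx]
      field_simp
      linear_combination h1
    · show rr2_U a R du' x = 0
      simp only [rr2_U, if_neg hx]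
      have h1 : du' x = 0 := by
        have hn : x ∉ insert a SA := by simp [hx, hs]
        rw [hdu, Pi.add_apply, Pi.smul_apply, hd.su x hn, ht.su x hn, smul_zero, add_zero]
      rw [h1, mul_zero]
    · have h1 := k2 z hz
      have h3 := congrArg (fun G => dt G z) (rr2_c2n T F a hR du' w)
      have h4 := congrArg (fun G => dt G z) (rr2_c2n T F a hR u dw')
      simp only [dt_add_left, dt_smul_left] at h3 h4
      show dt ((((R⁻¹ ^ 2 : ℝ) : ℂ) • c2 (Function.update T a 0) (rr2_U a R u) dw'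
        + rr2_U a R u a • bfB F dw' - (β / R) • dv')
        + (((R⁻¹ ^ 2 : ℝ) : ℂ) • c2 (Function.update T a 0) (rr2_U a R du') w
        + rr2_U a R du' a • bfB F w - (dβ' / R) • v)) z = 0
      simp only [sub_eq_add_neg, ← neg_smul, dt_add_left, dt_smul_left, hUa, hVa]
      rw [hd0] at h3
      have h5 : (R : ℂ)⁻¹ * (dt (c2 (Function.update T a (fun b c => R * F b c)) du' w) z
        + dt (c2 (Function.update T a (fun b c => R * F b c)) u dw') z)
        = (R : ℂ)⁻¹ * (β * dt dv' z + dβ' * dt v z) := by rw [h1]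
      linear_combination h5 - h3 - h4
    · have h1 := k3 z hz
      have h3 := congrArg (fun G => dt G z) (rr2_c3n T F a hR du' v)
      have h4 := congrArg (fun G => dt G z) (rr2_c3n T F a hR u dv')
      simp only [dt_add_left, dt_smul_left] at h3 h4
      show dt ((((R⁻¹ ^ 2 : ℝ) : ℂ) • c3 (Function.update T a 0) (rr2_U a R u) dv'
        + rr2_U a R u a • bfC F dv' - (γ / R) • dw')
        + (((R⁻¹ ^ 2 : ℝ) : ℂ) • c3 (Function.update T a 0) (rr2_U a R du') v
        + rr2_U a R du' a • bfC F v - (dγ' / R) • w)) z = 0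
      simp only [sub_eq_add_neg, ← neg_smul, dt_add_left, dt_smul_left, hUa, hVa]
      rw [hd0] at h3
      have h5 : (R : ℂ)⁻¹ * (dt (c3 (Function.update T a (fun b c => R * F b c)) du' v) z
        + dt (c3 (Function.update T a (fun b c => R * F b c)) u dv') z)
        = (R : ℂ)⁻¹ * (γ * dt dw' z + dγ' * dt w z) := by rw [h1]
      linear_combination h5 - h3 - h4
    · show dv' ib = 0
      rw [hdv, Pi.add_apply, Pi.smul_apply, smul_eq_mul, nv]
      ring
    · show dw' ic = 0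
      rw [hdw, Pi.add_apply, Pi.smul_apply, smul_eq_mul, nw]
      ring)
  have z1 : rr2_U a R du' = 0 := congrArg (fun t : RP A B C => t.1) h0
  have z2 : dv' = 0 := congrArg (fun t : RP A B C => t.2.1) h0
  have z3 : dw' = 0 := congrArg (fun t : RP A B C => t.2.2.1) h0
  refine ⟨⟨du a, ?_⟩, ⟨dv ib, ?_⟩, dw ic, ?_⟩
  · have h1 : du' = 0 := by
      funext x
      by_cases hx : x = a
      · rw [hx]
        exact hd0
      · have h2 := congrFun z1 x
        simp only [rr2_U, if_neg hx, Pi.zero_apply] at h2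
        exact (mul_eq_zero.1 h2).resolve_left hR'
    rw [h1] at hdu
    rw [neg_smul, ← sub_eq_add_neg] at hdu
    exact sub_eq_zero.1 hdu.symm
  · rw [z2, neg_smul, ← sub_eq_add_neg] at hdv
    exact sub_eq_zero.1 hdv.symm
  · rw [z3, neg_smul, ← sub_eq_add_neg] at hdw
    exact sub_eq_zero.1 hdw.symm

private theorem rr2_ker0 {T0 : A → B → C → ℝ} {F : B → C → ℝ} {SA : Finset A} {a : A} {ib : B}
    {ic : C} {X : Submodule ℂ (B → ℂ)} {Y : Submodule ℂ (C → ℂ)} (cX : Cj X) (cY : Cj Y)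
    {U0 : A → ℂ} {v0 : B → ℂ} {w0 : C → ℂ} {α0 β0 γ0 : ℂ} (hU : U0 a = 1) (hv : v0 ib = 1)
    (hw : w0 ic = 1) (hα : α0 ≠ 0) (hs : SP F X Y v0 w0 β0 γ0) (ho : OkP F X Y v0 w0 β0 γ0)
    (h : RP A B C) (hk : RK T0 F SA a ib ic X Y 0 (U0, v0, w0, ![α0, β0, γ0]) h) : h = 0 := by
  obtain ⟨du, dv, dw, m⟩ := h
  have n1 : du a = 0 := hk.n1
  have n2 : dv ib = 0 := hk.n2
  have n3 : dw ic = 0 := hk.n3
  have e2 : ∀ z ∈ X, dt (bfB F dw) z = β0 * dt dv z + m 1 * dt v0 z := by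
    intro z hz
    have h1 : dt ((((0 : ℝ) : ℂ) • c2 T0 U0 dw + U0 a • bfB F dw - β0 • dv)
      + (((0 : ℝ) : ℂ) • c2 T0 du w0 + du a • bfB F w0 - m 1 • v0)) z = 0 := hk.e2 z hz
    simp only [sub_eq_add_neg, ← neg_smul, dt_add_left, dt_smul_left, hU, n1,
      Complex.ofReal_zero] at h1
    linear_combination h1
  have e3 : ∀ z ∈ Y, dt (bfC F dv) z = γ0 * dt dw z + m 2 * dt w0 z := by
    intro z hz
    have h1 : dt ((((0 : ℝ) : ℂ) • c3 T0 U0 dv + U0 a • bfC F dv - γ0 • dw)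
      + (((0 : ℝ) : ℂ) • c3 T0 du v0 + du a • bfC F v0 - m 2 • w0)) z = 0 := hk.e3 z hz
    simp only [sub_eq_add_neg, ← neg_smul, dt_add_left, dt_smul_left, hU, n1,
      Complex.ofReal_zero] at h1
    linear_combination h1
  obtain ⟨⟨r, hr⟩, r', hr'⟩ := ho.nd dv dw (m 1) (m 2) hk.sv hk.sw e2 e3
  have hr0 : r = 0 := by
    have h1 := congrFun hr ib
    rw [Pi.smul_apply, hv, n2, smul_eq_mul, mul_one] at h1
    exact h1.symm
  have hr0' : r' = 0 := by
    have h1 := congrFun hr' ic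
    rw [Pi.smul_apply, hw, n3, smul_eq_mul, mul_one] at h1
    exact h1.symm
  have dv0 : dv = 0 := by rw [hr, hr0, zero_smul]
  have dw0 : dw = 0 := by rw [hr', hr0', zero_smul]
  have hv0 : v0 ≠ 0 := by
    intro h1
    rw [h1] at hv
    exact zero_ne_one hv
  have hw0 : w0 ≠ 0 := by
    intro h1
    rw [h1] at hw
    exact zero_ne_one hw
  have m1 : m 1 = 0 := by
    have h1 := e2 (cj v0) (cX _ hs.sv)
    have h2 : dt v0 (cj v0) ≠ 0 := by
      intro h3
      have h4 := (dt_cj_pos v0 hv0).1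
      rw [h3, Complex.zero_re] at h4
      exact lt_irrefl _ h4
    rw [dv0, dw0] at h1
    have h3 : dt (bfB F (0 : C → ℂ)) (cj v0) = 0 := by simp [dt, bfB]
    have h4 : dt (0 : B → ℂ) (cj v0) = 0 := by simp [dt]
    rw [h3, h4, mul_zero, zero_add] at h1
    exact (mul_eq_zero.1 h1.symm).resolve_right h2
  have m2 : m 2 = 0 := by
    have h1 := e3 (cj w0) (cY _ hs.sw)
    have h2 : dt w0 (cj w0) ≠ 0 := by
      intro h3
      have h4 := (dt_cj_pos w0 hw0).1
      rw [h3, Complex.zero_re] at h4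
      exact lt_irrefl _ h4
    rw [dv0, dw0] at h1
    have h3 : dt (bfC F (0 : B → ℂ)) (cj w0) = 0 := by simp [dt, bfC]
    have h4 : dt (0 : C → ℂ) (cj w0) = 0 := by simp [dt]
    rw [h3, h4, mul_zero, zero_add] at h1
    exact (mul_eq_zero.1 h1.symm).resolve_right h2
  have m0 : m 0 = 0 := by
    have h1 : bf F v0 dw + bf F dv w0 = α0 * du a + m 0 * U0 a := hk.e0
    have h2 : bf F v0 (0 : C → ℂ) = 0 := by simp [bf]
    have h3 : bf F (0 : B → ℂ) w0 = 0 := by simp [bf]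
    rw [dv0, dw0, h2, h3, n1, hU] at h1
    linear_combination -h1
  have du0 : du = 0 := by
    funext x
    by_cases hx : x = a
    · rw [hx, n1, Pi.zero_apply]
    · by_cases hxs : x ∈ SA
      · have h1 : c1 T0 v0 dw x + c1 T0 dv w0 x = α0 * du x + m 0 * U0 x := hk.e1 x hx hxs
        rw [dv0, dw0, MPb0eR.c1_zero_left, MPb0eR.c1_zero_right, m0] at h1
        have h2 : α0 * du x = 0 := by linear_combination -h1
        exact (mul_eq_zero.1 h2).resolve_left hα
      · exact hk.su x hx hxs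
  refine Prod.ext du0 (Prod.ext dv0 (Prod.ext dw0 (funext fun i => ?_)))
  fin_cases i
  · exact m0
  · exact m1
  · exact m2

private theorem rr2_fin {T0 : A → B → C → ℝ} {F : B → C → ℝ} {SA : Finset A} {a : A} {ib : B}
    {ic : C} {X : Submodule ℂ (B → ℂ)} {Y : Submodule ℂ (C → ℂ)} (cX : Cj X) (cY : Cj Y)
    (z : ℕ → ℝ) (p : ℕ → RP A B C) (p0 : RP A B C) (lz : Tendsto z uf (𝓝 0))
    (lp : Tendsto p uf (𝓝 p0)) (hsol : ∀ n, RS T0 F SA a ib ic X Y (z n) (p n))
    (hr : cjK p0 = p0) (hk0 : ∀ h, RK T0 F SA a ib ic X Y 0 p0 h → h = 0) :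
    ∀ᶠ n in uf, cjK (p n) = p n ∧ ∀ h, RK T0 F SA a ib ic X Y (z n) (p n) h → h = 0 := by
  obtain ⟨k, fk, hfk⟩ := rr2_fun X
  obtain ⟨k', gk, hgk⟩ := rr2_fun Y
  obtain ⟨l, fl, hfl⟩ := rr2_fun (rr2_perp X)
  obtain ⟨l', gl, hgl⟩ := rr2_fun (rr2_perp Y)
  have heq := rr2_eq T0 F SA a ib ic fk gk fl gl hfk hgk (fun G => hfl G) (fun G => hgl G)
  have hke := rr2_ke T0 F SA a ib ic fk gk fl gl hfk hgk (fun G => hfl G) (fun G => hgl G)
  have hfin := MPb0eR.IsQ.fin (rr2_isQ T0 F SA a ib ic fk gk fl gl)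
    (0, 0, 0, 0, 0, fun _ => -1) cjK rr2_cjk
    (fun z p h => (heq z _).2 (rr2_cjs _ _ _ _ _ _ cX cY z p ((heq z p).1 h)))
    z 0 p p0 lz lp (Eventually.of_forall fun n => (heq _ _).2 (hsol n)) hr
    (fun h hh => hk0 h ((hke 0 _ h).1 hh))
  filter_upwards [hfin] with n hn
  exact ⟨hn.1, fun h hh => hn.2 h ((hke _ _ h).2 hh)⟩

omit [Fintype A] [DecidableEq A] [DecidableEq B] [DecidableEq C] in
private theorem rr2_c1l (T : A → B → C → ℝ) {v : ℕ → B → ℂ} {w : ℕ → C → ℂ} {v0 : B → ℂ}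
    {w0 : C → ℂ} (lv : Tendsto v uf (𝓝 v0)) (lw : Tendsto w uf (𝓝 w0)) (x : A) :
    Tendsto (fun n => c1 T (v n) (w n) x) uf (𝓝 (c1 T v0 w0 x)) := by
  unfold c1
  exact tendsto_finsetSum _ fun b _ => tendsto_finsetSum _ fun c _ =>
    tendsto_const_nhds.mul (((tendsto_pi_nhds.1 lv) b).mul ((tendsto_pi_nhds.1 lw) c))

/-- The tuples near a singular pair are real and nondegenerate.

Proof. Unknowns: `u a' = U a' / R` for `a' ∈ SA`, `u a`, `v ∈ X`, `w ∈ Y` in coordinates of a real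
basis
(or use the whole spaces and, for the components outside of `X`, a real complement), `α = R α'`,
`β = R β'`, `γ = R γ'`, parameter `ε = 1 / R`: `c1 T v w a' = α' U a'`, `F (v, w) = α' u a`,
`ε c2 T (ε U) w ... + u a F (z, w) = β' dt v z` and so on, normalisations. The limit system at `ε =
0`:
`(v, w)` is a singular pair, `U a' = c1 / α'`. Kernel: `OkP.nd`. `rig`, `rig_ker`. The multipliers
are
not zero since their limits `α0, β0, γ0` are not: `β0 q v0 = bf F v0 w0 ≠ 0`. -/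
theorem rr_ok1 {T : A → B → C → ℝ} {F : B → C → ℝ} {SA : Finset A} {a : A} (ha : a ∉ SA)
    {X : Submodule ℂ (B → ℂ)} {Y : Submodule ℂ (C → ℂ)} (cX : Cj X) (cY : Cj Y) {R : ℕ → ℝ}
    (hR : Tendsto R uf atTop) (hp : ∀ n, 0 < R n) {ib : B} {ic : C} {u : ℕ → A → ℂ}
    {v : ℕ → B → ℂ} {w : ℕ → C → ℂ} {α β γ : ℕ → ℂ} {v0 : B → ℂ} {w0 : C → ℂ} {α0 β0 γ0 : ℂ}
    (ht : ∀ n, TX (Function.update T a (fun b c => R n * F b c)) (insert a SA) X Y (u n) (v n)
      (w n) (α n) (β n) (γ n))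
    (nu : ∀ n, Nrm (u n) a) (nv : ∀ n, Nrm (v n) ib) (nw : ∀ n, Nrm (w n) ic)
    (lu : Tendsto u uf (𝓝 (Pi.single a 1))) (lv : Tendsto v uf (𝓝 v0)) (lw : Tendsto w uf (𝓝 w0))
    (lα : Tendsto (fun n => α n / R n) uf (𝓝 α0)) (lβ : Tendsto (fun n => β n / R n) uf (𝓝 β0))
    (lγ : Tendsto (fun n => γ n / R n) uf (𝓝 γ0)) (e0 : α0 = bf F v0 w0)
    (hs : SP F X Y v0 w0 β0 γ0) (ho : OkP F X Y v0 w0 β0 γ0) :
    ∀ᶠ n in uf, OkX (Function.update T a (fun b c => R n * F b c)) (insert a SA) X Y (u n) (v n)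
      (w n) (α n) (β n) (γ n) := by
  have hR' : ∀ n, (R n : ℂ) ≠ 0 := fun n => Complex.ofReal_ne_zero.2 (hp n).ne'
  have hα0 : α0 ≠ 0 := by
    rw [e0]
    exact ho.hF
  have hv1 : v0 ib = 1 := by
    have h1 : Tendsto (fun n => v n ib) uf (𝓝 (v0 ib)) := (tendsto_pi_nhds.1 lv) ib
    have h2 : (fun n => v n ib) = fun _ => (1 : ℂ) := funext fun n => (nv n).1
    rw [h2] at h1
    exact tendsto_nhds_unique h1 tendsto_const_nhds
  have hw1 : w0 ic = 1 := by
    have h1 : Tendsto (fun n => w n ic) uf (𝓝 (w0 ic)) := (tendsto_pi_nhds.1 lw) ic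
    have h2 : (fun n => w n ic) = fun _ => (1 : ℂ) := funext fun n => (nw n).1
    rw [h2] at h1
    exact tendsto_nhds_unique h1 tendsto_const_nhds
  have hv0 : v0 ≠ 0 := by
    intro h1
    rw [h1] at hv1
    exact zero_ne_one hv1
  have hw0 : w0 ≠ 0 := by
    intro h1
    rw [h1] at hw1
    exact zero_ne_one hw1
  have rv : cj v0 = v0 := (MPb0eR.rea_iff v0).1 (rea_of_rl ho.rv hv1)
  have rw0 : cj w0 = w0 := (MPb0eR.rea_iff w0).1 (rea_of_rl ho.rw' hw1)
  have bF : starRingEnd ℂ (bf F v0 w0) = bf F v0 w0 := by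
    rw [← rr2_bfcj, rv, rw0]
  have cα : starRingEnd ℂ α0 = α0 := by rw [e0, bF]
  have hqv : dt v0 v0 ≠ 0 := by
    rw [dt_self]
    exact q_ne ho.rv hv0
  have hqw : dt w0 w0 ≠ 0 := by
    rw [dt_self]
    exact q_ne ho.rw' hw0
  have eβ : bf F v0 w0 = β0 * dt v0 v0 := by
    rw [← dt_bfB]
    exact hs.e2 v0 hs.sv
  have eγ : bf F v0 w0 = γ0 * dt w0 w0 := by
    rw [← dt_bfC]
    exact hs.e3 w0 hs.sw
  have hβ0 : β0 ≠ 0 := by
    intro h1
    rw [h1, zero_mul] at eβ
    exact ho.hF eβ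
  have hγ0 : γ0 ≠ 0 := by
    intro h1
    rw [h1, zero_mul] at eγ
    exact ho.hF eγ
  have cβ : starRingEnd ℂ β0 = β0 := by
    have h1 : β0 = bf F v0 w0 / dt v0 v0 := by
      rw [eβ]
      field_simp
    rw [h1, map_div₀, bF, ← dt_cj, rv]
  have cγ : starRingEnd ℂ γ0 = γ0 := by
    have h1 : γ0 = bf F v0 w0 / dt w0 w0 := by
      rw [eγ]
      field_simp
    rw [h1, map_div₀, bF, ← dt_cj, rw0]
  obtain ⟨U0, hU0⟩ : ∃ U0 : A → ℂ, U0 = fun x => if x = a then (1 : ℂ)
    else if x ∈ SA then c1 (Function.update T a 0) v0 w0 x / α0 else 0 := ⟨_, rfl⟩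
  have hUa : U0 a = 1 := by rw [hU0]; exact if_pos rfl
  have rU : cj U0 = U0 := by
    funext x
    rw [hU0]
    show starRingEnd ℂ (if x = a then (1 : ℂ)
      else if x ∈ SA then c1 (Function.update T a 0) v0 w0 x / α0 else 0) =
      (if x = a then (1 : ℂ)
      else if x ∈ SA then c1 (Function.update T a 0) v0 w0 x / α0 else 0)
    by_cases hx : x = a
    · rw [if_pos hx, map_one]
    · rw [if_neg hx]
      by_cases hxs : x ∈ SA
      · rw [if_pos hxs, map_div₀, ← MPb0eR.c1_cj, rv, rw0, cα]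
      · rw [if_neg hxs, map_zero]
  have lU : Tendsto (fun n => rr2_U a (R n) (u n)) uf (𝓝 U0) := by
    refine tendsto_pi_nhds.2 fun x => ?_
    by_cases hx : x = a
    · rw [hx, hUa]
      have h1 : (fun n => rr2_U a (R n) (u n) a) = fun _ => (1 : ℂ) :=
        funext fun n => (if_pos rfl).trans (nu n).1
      rw [h1]
      exact tendsto_const_nhds
    · by_cases hxs : x ∈ SA
      · have h1 : U0 x = c1 (Function.update T a 0) v0 w0 x / α0 := by
          rw [hU0]
          simp [hx, hxs]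
        rw [h1]
        have h2 : Tendsto (fun n => c1 (Function.update T a 0) (v n) (w n) x / (α n / R n)) uf
            (𝓝 (c1 (Function.update T a 0) v0 w0 x / α0)) :=
          Tendsto.div (rr2_c1l _ lv lw x) lα hα0
        refine h2.congr' ?_
        filter_upwards [lα.eventually_ne hα0] with n hn
        have h4 := (ht n).e1 x (Finset.mem_insert_of_mem hxs)
        rw [rr2_c1n _ _ _ _ _ _ hx] at h4
        rw [h4]
        simp only [rr2_U, if_neg hx]
        have h5 : α n ≠ 0 := by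
          intro h6
          rw [h6, zero_div] at hn
          exact hn rfl
        have h6 := hR' n
        field_simp
      · have h1 : U0 x = 0 := by
          rw [hU0]
          simp [hx, hxs]
        have h2 : (fun n => rr2_U a (R n) (u n) x) = fun _ => (0 : ℂ) := by
          funext n
          simp only [rr2_U, if_neg hx]
          rw [(ht n).su x (by simp [hx, hxs]), mul_zero]
        rw [h1, h2]
        exact tendsto_const_nhds
  have lm : Tendsto (fun n => (![α n / R n, β n / R n, γ n / R n] : Fin 3 → ℂ)) uf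
      (𝓝 ![α0, β0, γ0]) := by
    refine tendsto_pi_nhds.2 fun i => ?_
    fin_cases i
    · exact lα
    · exact lβ
    · exact lγ
  have lz : Tendsto (fun n => (R n)⁻¹ ^ 2) uf (𝓝 (0 : ℝ)) := by
    have h1 := (tendsto_inv_atTop_zero.comp hR).pow 2
    simpa using h1
  have hrp : cjK ((U0, v0, w0, ![α0, β0, γ0]) : PK A B C) = (U0, v0, w0, ![α0, β0, γ0]) := by
    refine Prod.ext rU (Prod.ext rv (Prod.ext rw0 (funext fun i => ?_)))
    fin_cases i
    · exact cα
    · exact cβ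
    · exact cγ
  have hfin := rr2_fin (T0 := Function.update T a 0) (F := F) (SA := SA) (a := a) (ib := ib)
    (ic := ic) cX cY (fun n => (R n)⁻¹ ^ 2)
    (fun n => (rr2_U a (R n) (u n), v n, w n, ![α n / R n, β n / R n, γ n / R n]))
    (U0, v0, w0, ![α0, β0, γ0]) lz (lU.prodMk_nhds (lv.prodMk_nhds (lw.prodMk_nhds lm)))
    (fun n => rr2_sol (hp n).ne' (ht n) (nu n).1 (nv n).1 (nw n).1) hrp
    (fun h hh => rr2_ker0 cX cY hUa hv1 hw1 hα0 hs ho h hh)
  filter_upwards [hfin, lα.eventually_ne hα0, lβ.eventually_ne hβ0, lγ.eventually_ne hγ0] with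
    n hn h1 h2 h3
  obtain ⟨hc, hk⟩ := hn
  have c1' : cj (rr2_U a (R n) (u n)) = rr2_U a (R n) (u n) :=
    congrArg (fun t : RP A B C => t.1) hc
  have c2' : cj (v n) = v n := congrArg (fun t : RP A B C => t.2.1) hc
  have c3' : cj (w n) = w n := congrArg (fun t : RP A B C => t.2.2.1) hc
  refine ⟨?_, ((MPb0eR.rea_iff _).2 c2').rl, ((MPb0eR.rea_iff _).2 c3').rl, ?_, ?_, ?_, ?_⟩
  · refine MPb0eR.Rea.rl fun x => ?_
    by_cases hx : x = a
    · rw [hx, (nu n).1, Complex.one_im]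
    · have h4 := (MPb0eR.rea_iff _).2 c1' x
      simp only [rr2_U, if_neg hx, Complex.im_ofReal_mul] at h4
      exact (mul_eq_zero.1 h4).resolve_left (hp n).ne'
  · intro h4
    rw [h4, zero_div] at h1
    exact h1 rfl
  · intro h4
    rw [h4, zero_div] at h2
    exact h2 rfl
  · intro h4
    rw [h4, zero_div] at h3
    exact h3 rfl
  · exact rr2_ker (hp n).ne' (ht n) (nu n).1 (nv n).1 (nw n).1
      fun h hh => hk h hh

end

end Pool.Agent.MPb0eK
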