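import Mathlib
import Pool.Agent.Lib.MP_b0e20b_ag_K.Rr1
import Pool.Agent.Lib.MP_b0e20b_ag_K.Rig

/-!
# MP_b0e20b_ag, project K: a row with a large factor: reality near constrained tuples
-/

set_option autoImplicit false

open scoped BigOperators Topology
open Filter

namespace Pool.Agent.MPb0eK

open MPb0eR (c1 c2 c3 tr q Sup Rl Rea uf Nrm cj AF scl)

section

variable {A B C : Type} [Fintype A] [Fintype B] [Fintype C] [DecidableEq A] [DecidableEq B]
  [DecidableEq C]

/-! ### Auxiliary lemmas -/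

omit [DecidableEq B] in
private theorem rr3_dt {x y : ℕ → B → ℂ} {x0 y0 : B → ℂ} (hx : Tendsto x uf (𝓝 x0))
    (hy : Tendsto y uf (𝓝 y0)) : Tendsto (fun n => dt (x n) (y n)) uf (𝓝 (dt x0 y0)) := by
  unfold dt
  exact tendsto_finsetSum _ fun a _ => ((tendsto_pi_nhds.1 hx) a).mul ((tendsto_pi_nhds.1 hy) a)

omit [Fintype B] [DecidableEq B] in
private theorem rr3_cjl {x : ℕ → B → ℂ} {x0 : B → ℂ} (hx : Tendsto x uf (𝓝 x0)) :
    Tendsto (fun n => cj (x n)) uf (𝓝 (cj x0)) := by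
  refine tendsto_pi_nhds.2 fun b => ?_
  exact (Complex.continuous_conj.tendsto (x0 b)).comp ((tendsto_pi_nhds.1 hx) b)

omit [Fintype B] [DecidableEq B] [DecidableEq C] in
private theorem rr3_bfBl (F : B → C → ℝ) {w : ℕ → C → ℂ} {w0 : C → ℂ}
    (hw : Tendsto w uf (𝓝 w0)) : Tendsto (fun n => bfB F (w n)) uf (𝓝 (bfB F w0)) := by
  refine tendsto_pi_nhds.2 fun b => ?_
  unfold bfB
  exact tendsto_finsetSum _ fun c _ => ((tendsto_pi_nhds.1 hw) c).const_mul _

omit [Fintype C] [DecidableEq B] [DecidableEq C] in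
private theorem rr3_bfCl (F : B → C → ℝ) {v : ℕ → B → ℂ} {v0 : B → ℂ}
    (hv : Tendsto v uf (𝓝 v0)) : Tendsto (fun n => bfC F (v n)) uf (𝓝 (bfC F v0)) := by
  refine tendsto_pi_nhds.2 fun b => ?_
  unfold bfC
  exact tendsto_finsetSum _ fun c _ => ((tendsto_pi_nhds.1 hv) c).const_mul _

omit [DecidableEq B] [DecidableEq C] in
private theorem rr3_bfl (F : B → C → ℝ) {v : ℕ → B → ℂ} {v0 : B → ℂ} {w : ℕ → C → ℂ}
    {w0 : C → ℂ} (hv : Tendsto v uf (𝓝 v0)) (hw : Tendsto w uf (𝓝 w0)) :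
    Tendsto (fun n => bf F (v n) (w n)) uf (𝓝 (bf F v0 w0)) := by
  unfold bf
  exact tendsto_finsetSum _ fun b _ => tendsto_finsetSum _ fun c _ =>
    (((tendsto_pi_nhds.1 hv) b).mul ((tendsto_pi_nhds.1 hw) c)).const_mul _

omit [DecidableEq B] [DecidableEq C] in
private theorem rr3_bf_lin (F : B → C → ℝ) (v v' : B → ℂ) (w w' : C → ℂ) (r s : ℂ) :
    bf F (v + r • v') w = bf F v w + r * bf F v' w ∧
      bf F v (w + s • w') = bf F v w + s * bf F v w' := by
  constructor
  · unfold bf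
    rw [Finset.mul_sum, ← Finset.sum_add_distrib]
    refine Finset.sum_congr rfl fun b _ => ?_
    rw [Finset.mul_sum, ← Finset.sum_add_distrib]
    refine Finset.sum_congr rfl fun c _ => ?_
    rw [Pi.add_apply, Pi.smul_apply, smul_eq_mul]
    ring
  · unfold bf
    rw [Finset.mul_sum, ← Finset.sum_add_distrib]
    refine Finset.sum_congr rfl fun b _ => ?_
    rw [Finset.mul_sum, ← Finset.sum_add_distrib]
    refine Finset.sum_congr rfl fun c _ => ?_
    rw [Pi.add_apply, Pi.smul_apply, smul_eq_mul]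
    ring

omit [DecidableEq B] [DecidableEq C] in
private theorem rr3_bf_smul (F : B → C → ℝ) (r : ℂ) (v : B → ℂ) (w : C → ℂ) :
    bf F (r • v) w = r * bf F v w ∧ bf F v (r • w) = r * bf F v w := by
  constructor
  · unfold bf
    rw [Finset.mul_sum]
    refine Finset.sum_congr rfl fun b _ => ?_
    rw [Finset.mul_sum]
    refine Finset.sum_congr rfl fun c _ => ?_
    rw [Pi.smul_apply, smul_eq_mul]
    ring
  · unfold bf
    rw [Finset.mul_sum]
    refine Finset.sum_congr rfl fun b _ => ?_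
    rw [Finset.mul_sum]
    refine Finset.sum_congr rfl fun c _ => ?_
    rw [Pi.smul_apply, smul_eq_mul]
    ring

omit [DecidableEq B] [DecidableEq C] in
private theorem rr3_bf_cj (F : B → C → ℝ) (v : B → ℂ) (w : C → ℂ) :
    bf F (cj v) (cj w) = starRingEnd ℂ (bf F v w) := by
  simp only [bf, cj, map_sum, map_mul, Complex.conj_ofReal]

omit [Fintype B] [DecidableEq B] [DecidableEq C] in
private theorem rr3_c2 (T : A → B → C → ℝ) (F : B → C → ℝ) (a : A) (R : ℝ) (u : A → ℂ)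
    (w : C → ℂ) : c2 (Function.update T a (fun b c => R * F b c)) u w
      = c2 T (Function.update u a 0) w + ((R : ℂ) * u a) • bfB F w := by
  funext b
  rw [Pi.add_apply, Pi.smul_apply, smul_eq_mul]
  unfold c2
  have e : ∀ x, ∑ c, ((Function.update T a (fun b c => R * F b c) x b c : ℝ) : ℂ) * (u x * w c)
      = ∑ c, (T x b c : ℂ) * (Function.update u a 0 x * w c)
        + if x = a then (R : ℂ) * u a * bfB F w b else 0 := by
    intro x
    by_cases hx : x = a
    · subst hx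
      rw [if_pos rfl]
      simp only [Function.update_self, zero_mul, mul_zero, Finset.sum_const_zero, zero_add]
      unfold bfB
      rw [Finset.mul_sum]
      refine Finset.sum_congr rfl fun c _ => ?_
      push_cast
      ring
    · rw [if_neg hx, add_zero, Function.update_of_ne hx, Function.update_of_ne hx]
  rw [Finset.sum_congr rfl fun x _ => e x, Finset.sum_add_distrib, Finset.sum_ite_eq',
    if_pos (Finset.mem_univ _)]

omit [Fintype C] [DecidableEq B] [DecidableEq C] in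
private theorem rr3_c3 (T : A → B → C → ℝ) (F : B → C → ℝ) (a : A) (R : ℝ) (u : A → ℂ)
    (v : B → ℂ) : c3 (Function.update T a (fun b c => R * F b c)) u v
      = c3 T (Function.update u a 0) v + ((R : ℂ) * u a) • bfC F v := by
  funext c
  rw [Pi.add_apply, Pi.smul_apply, smul_eq_mul]
  unfold c3
  have e : ∀ x, ∑ b, ((Function.update T a (fun b c => R * F b c) x b c : ℝ) : ℂ) * (u x * v b)
      = ∑ b, (T x b c : ℂ) * (Function.update u a 0 x * v b)
        + if x = a then (R : ℂ) * u a * bfC F v c else 0 := by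
    intro x
    by_cases hx : x = a
    · subst hx
      rw [if_pos rfl]
      simp only [Function.update_self, zero_mul, mul_zero, Finset.sum_const_zero, zero_add]
      unfold bfC
      rw [Finset.mul_sum]
      refine Finset.sum_congr rfl fun c _ => ?_
      push_cast
      ring
    · rw [if_neg hx, add_zero, Function.update_of_ne hx, Function.update_of_ne hx]
  rw [Finset.sum_congr rfl fun x _ => e x, Finset.sum_add_distrib, Finset.sum_ite_eq',
    if_pos (Finset.mem_univ _)]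

omit [Fintype A] [DecidableEq B] [DecidableEq C] in
private theorem rr3_c1 (T : A → B → C → ℝ) (F : B → C → ℝ) (a : A) (R : ℝ) (v : B → ℂ)
    (w : C → ℂ) : c1 (Function.update T a (fun b c => R * F b c)) v w a = (R : ℂ) * bf F v w := by
  unfold c1 bf
  rw [Finset.mul_sum]
  refine Finset.sum_congr rfl fun b _ => ?_
  rw [Finset.mul_sum]
  refine Finset.sum_congr rfl fun c _ => ?_
  rw [Function.update_self]
  push_cast
  ring

omit [Fintype A] [DecidableEq B] [DecidableEq C] in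
private theorem rr3_c1' (T : A → B → C → ℝ) (F : B → C → ℝ) {a x : A} (hx : x ≠ a) (R : ℝ)
    (v : B → ℂ) (w : C → ℂ) :
    c1 (Function.update T a (fun b c => R * F b c)) v w x = c1 T v w x := by
  unfold c1
  rw [Function.update_of_ne hx]

omit [Fintype A] in
private theorem rr3_upd {u : ℕ → A → ℂ} {u0 : A → ℂ} (hu : Tendsto u uf (𝓝 u0)) (a : A) :
    Tendsto (fun n => Function.update (u n) a 0) uf (𝓝 (Function.update u0 a 0)) := by
  refine tendsto_pi_nhds.2 fun x => ?_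
  by_cases hx : x = a
  · subst hx
    simp only [Function.update_self]
    exact tendsto_const_nhds
  · simp only [Function.update_of_ne hx]
    exact (tendsto_pi_nhds.1 hu) x

omit [DecidableEq A] in
/-- The kernel of the limit system is trivial after normalisation. -/
private theorem rr3_triv {T : A → B → C → ℝ} {F : B → C → ℝ} {SA : Finset A}
    {X : Submodule ℂ (B → ℂ)} {Y : Submodule ℂ (C → ℂ)} (cX : Cj X) (cY : Cj Y) {ia : A} {ib : B}
    {ic : C} {u0 : A → ℂ} {v0 : B → ℂ} {w0 : C → ℂ} {α0 β0 γ0 r0 : ℂ} (hia : ia ∈ SA)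
    (n1 : u0 ia = 1) (n2 : v0 ib = 1) (n3 : w0 ic = 1) (hv0 : v0 ∈ X) (hw0 : w0 ∈ Y)
    (nd : ∀ du dv dw dα dβ dγ dr, KCX T F SA X Y u0 v0 w0 α0 β0 γ0 r0 du dv dw dα dβ dγ dr →
      ∃ a b c : ℂ, du = a • u0 ∧ dv = b • v0 ∧ dw = c • w0 ∧ dr = a * r0)
    {du : A → ℂ} {dv : B → ℂ} {dw : C → ℂ} {dα dβ dγ dr : ℂ}
    (h : KCX T F SA X Y u0 v0 w0 α0 β0 γ0 r0 du dv dw dα dβ dγ dr) (m1 : du ia = 0)
    (m2 : dv ib = 0) (m3 : dw ic = 0) :
    du = 0 ∧ dv = 0 ∧ dw = 0 ∧ dα = 0 ∧ dβ = 0 ∧ dγ = 0 ∧ dr = 0 := by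
  obtain ⟨a, b, c, h1, h2, h3, h4⟩ := nd _ _ _ _ _ _ _ h
  have ha : a = 0 := by
    rw [h1, Pi.smul_apply, n1, smul_eq_mul, mul_one] at m1
    exact m1
  have hb : b = 0 := by
    rw [h2, Pi.smul_apply, n2, smul_eq_mul, mul_one] at m2
    exact m2
  have hc : c = 0 := by
    rw [h3, Pi.smul_apply, n3, smul_eq_mul, mul_one] at m3
    exact m3
  rw [ha, zero_smul] at h1
  rw [hb, zero_smul] at h2
  rw [hc, zero_smul] at h3
  rw [ha, zero_mul] at h4
  subst h1 h2 h3 h4
  have v0ne : v0 ≠ 0 := by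
    intro h0
    rw [h0, Pi.zero_apply] at n2
    exact zero_ne_one n2
  have w0ne : w0 ≠ 0 := by
    intro h0
    rw [h0, Pi.zero_apply] at n3
    exact zero_ne_one n3
  refine ⟨rfl, rfl, rfl, ?_, ?_, ?_, rfl⟩
  · have h5 := h.e1 ia hia
    rw [MPb0eR.c1_zero_left, MPb0eR.c1_zero_right, Pi.zero_apply, mul_zero, n1, zero_add,
      zero_add, mul_one] at h5
    exact h5.symm
  · have h5 := h.e2 (cj v0) (cX v0 hv0)
    have e1 : c2 T (0 : A → ℂ) w0 = 0 := by
      funext x
      exact MPb0eR.c2_zero_left T w0 x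
    have e2 : c2 T u0 (0 : C → ℂ) = 0 := by
      funext x
      exact MPb0eR.c2_zero_right T u0 x
    have e3 : bfB F (0 : C → ℂ) = 0 := by
      funext x
      simp [bfB]
    have e4 : dt (0 : B → ℂ) (cj v0) = 0 := by simp [dt]
    rw [e1, e2, e3, e4, mul_zero, mul_zero, zero_mul, add_zero, add_zero, add_zero, zero_add] at h5
    have h6 := (dt_cj_pos v0 v0ne).1
    rcases mul_eq_zero.1 h5.symm with h7 | h7
    · exact h7
    · rw [h7] at h6
      simp at h6
  · have h5 := h.e3 (cj w0) (cY w0 hw0)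
    have e1 : c3 T (0 : A → ℂ) v0 = 0 := by
      funext x
      exact MPb0eR.c3_zero_left T v0 x
    have e2 : c3 T u0 (0 : B → ℂ) = 0 := by
      funext x
      exact MPb0eR.c3_zero_right T u0 x
    have e3 : bfC F (0 : B → ℂ) = 0 := by
      funext x
      simp [bfC]
    have e4 : dt (0 : C → ℂ) (cj w0) = 0 := by simp [dt]
    rw [e1, e2, e3, e4, mul_zero, mul_zero, zero_mul, add_zero, add_zero, add_zero, zero_add] at h5
    have h6 := (dt_cj_pos w0 w0ne).1
    rcases mul_eq_zero.1 h5.symm with h7 | h7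
    · exact h7
    · rw [h7] at h6
      simp at h6

omit [DecidableEq A] in
/-- Solutions of the linearised equations near the limit are zero after normalisation. -/
private theorem rr3_key {T : A → B → C → ℝ} {F : B → C → ℝ} {SA : Finset A}
    {X : Submodule ℂ (B → ℂ)} {Y : Submodule ℂ (C → ℂ)} (cX : Cj X) (cY : Cj Y) {ia : A} {ib : B}
    {ic : C} {u0 : A → ℂ} {v0 : B → ℂ} {w0 : C → ℂ} {α0 β0 γ0 r0 : ℂ} (hia : ia ∈ SA)
    (n1 : u0 ia = 1) (n2 : v0 ib = 1) (n3 : w0 ic = 1) (hv0 : v0 ∈ X) (hw0 : w0 ∈ Y)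
    (nd : ∀ du dv dw dα dβ dγ dr, KCX T F SA X Y u0 v0 w0 α0 β0 γ0 r0 du dv dw dα dβ dγ dr →
      ∃ a b c : ℂ, du = a • u0 ∧ dv = b • v0 ∧ dw = c • w0 ∧ dr = a * r0)
    {u' : ℕ → A → ℂ} {v v' : ℕ → B → ℂ} {w w' : ℕ → C → ℂ} {α β γ r r' ε : ℕ → ℂ}
    (lu' : Tendsto u' uf (𝓝 u0)) (lv : Tendsto v uf (𝓝 v0)) (lv' : Tendsto v' uf (𝓝 v0))
    (lw : Tendsto w uf (𝓝 w0)) (lw' : Tendsto w' uf (𝓝 w0)) (lα : Tendsto α uf (𝓝 α0))
    (lβ : Tendsto β uf (𝓝 β0)) (lγ : Tendsto γ uf (𝓝 γ0)) (lr : Tendsto r uf (𝓝 r0))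
    (lr' : Tendsto r' uf (𝓝 r0)) (lε : Tendsto ε uf (𝓝 0))
    {du : ℕ → A → ℂ} {dv : ℕ → B → ℂ} {dw : ℕ → C → ℂ} {dα dβ dγ dr : ℕ → ℂ}
    (s1 : ∀ᶠ n in uf, Sup SA (du n)) (s2 : ∀ᶠ n in uf, dv n ∈ X) (s3 : ∀ᶠ n in uf, dw n ∈ Y)
    (m1 : ∀ᶠ n in uf, du n ia = 0) (m2 : ∀ᶠ n in uf, dv n ib = 0) (m3 : ∀ᶠ n in uf, dw n ic = 0)
    (E1 : ∀ᶠ n in uf, ∀ x ∈ SA, c1 T (dv n) (w n) x + c1 T (v' n) (dw n) x
      = α n * du n x + dα n * u' n x)
    (Ea : ∀ᶠ n in uf, bf F (dv n) (w n) + bf F (v' n) (dw n)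
      = ε n * (α n * dr n + dα n * r' n))
    (E2 : ∀ᶠ n in uf, ∀ z ∈ X, dt (c2 T (du n) (w n)) z + dt (c2 T (u' n) (dw n)) z
      + r n * dt (bfB F (dw n)) z + dr n * dt (bfB F (w' n)) z
      = β n * dt (dv n) z + dβ n * dt (v' n) z)
    (E3 : ∀ᶠ n in uf, ∀ z ∈ Y, dt (c3 T (du n) (v n)) z + dt (c3 T (u' n) (dv n)) z
      + r n * dt (bfC F (dv n)) z + dr n * dt (bfC F (v' n)) z
      = γ n * dt (dw n) z + dγ n * dt (w' n) z) :
    ∀ᶠ n in uf, du n = 0 ∧ dv n = 0 ∧ dw n = 0 ∧ dα n = 0 ∧ dβ n = 0 ∧ dγ n = 0 ∧ dr n = 0 := by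
  obtain ⟨x, hx⟩ : ∃ x : ℕ → (A → ℂ) × (B → ℂ) × (C → ℂ) × (Fin 4 → ℂ),
      x = fun n => (du n, dv n, dw n, ![dα n, dβ n, dγ n, dr n]) := ⟨_, rfl⟩
  by_cases hz : ∀ᶠ n in uf, x n = 0
  · filter_upwards [hz] with n hn
    rw [hx] at hn
    simp only [Prod.mk_eq_zero] at hn
    obtain ⟨h1, h2, h3, h4⟩ := hn
    refine ⟨h1, h2, h3, ?_, ?_, ?_, ?_⟩
    · simpa using congrFun h4 0
    · simpa using congrFun h4 1
    · simpa using congrFun h4 2
    · simpa using congrFun h4 3
  exfalso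
  have hz' : ∀ᶠ n in uf, ¬ x n = 0 := Ultrafilter.eventually_not.2 hz
  obtain ⟨s, hs⟩ : ∃ s : ℕ → ℂ, s = fun n => ((‖x n‖⁻¹ : ℝ) : ℂ) := ⟨_, rfl⟩
  have hy : ∀ᶠ n in uf, s n • x n ∈ Metric.sphere (0 : (A → ℂ) × (B → ℂ) × (C → ℂ) × (Fin 4 → ℂ))
      1 := by
    filter_upwards [hz'] with n hn
    have h1 : 0 < ‖x n‖ := norm_pos_iff.2 hn
    rw [mem_sphere_zero_iff_norm, norm_smul, hs, Complex.norm_real, norm_inv, norm_norm,
      inv_mul_cancel₀ h1.ne']
  obtain ⟨y0, hy0, hlim⟩ : ∃ y0 ∈ Metric.sphere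
      (0 : (A → ℂ) × (B → ℂ) × (C → ℂ) × (Fin 4 → ℂ)) 1,
      Tendsto (fun n => s n • x n) uf (𝓝 y0) := by
    obtain ⟨y0, h1, h2⟩ := (isCompact_sphere
      (0 : (A → ℂ) × (B → ℂ) × (C → ℂ) × (Fin 4 → ℂ)) 1).ultrafilter_le_nhds
      ((hyperfilter ℕ).map fun n => s n • x n)
      (by
        rw [Ultrafilter.coe_map]
        exact le_principal_iff.2 hy)
    exact ⟨y0, h1, h2⟩
  have l1 : Tendsto (fun n => s n • du n) uf (𝓝 y0.1) := by
    refine ((continuous_fst.tendsto y0).comp hlim).congr fun n => ?_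
    rw [hx]
    rfl
  have l2 : Tendsto (fun n => s n • dv n) uf (𝓝 y0.2.1) := by
    refine (((continuous_fst.comp continuous_snd).tendsto y0).comp hlim).congr fun n => ?_
    rw [hx]
    rfl
  have l3 : Tendsto (fun n => s n • dw n) uf (𝓝 y0.2.2.1) := by
    refine (((continuous_fst.comp (continuous_snd.comp continuous_snd)).tendsto y0).comp
      hlim).congr fun n => ?_
    rw [hx]
    rfl
  have l4 : ∀ i, Tendsto (fun n => s n * ![dα n, dβ n, dγ n, dr n] i) uf (𝓝 (y0.2.2.2 i)) := by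
    intro i
    refine ((((continuous_apply i).comp (continuous_snd.comp
      (continuous_snd.comp continuous_snd))).tendsto y0).comp hlim).congr fun n => ?_
    rw [hx]
    rfl
  have l40 : Tendsto (fun n => s n * dα n) uf (𝓝 (y0.2.2.2 0)) := l4 0
  have l41 : Tendsto (fun n => s n * dβ n) uf (𝓝 (y0.2.2.2 1)) := l4 1
  have l42 : Tendsto (fun n => s n * dγ n) uf (𝓝 (y0.2.2.2 2)) := l4 2
  have l43 : Tendsto (fun n => s n * dr n) uf (𝓝 (y0.2.2.2 3)) := l4 3
  have hk : KCX T F SA X Y u0 v0 w0 α0 β0 γ0 r0 y0.1 y0.2.1 y0.2.2.1 (y0.2.2.2 0) (y0.2.2.2 1)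
      (y0.2.2.2 2) (y0.2.2.2 3) := by
    refine ⟨fun a ha => ?_, ?_, ?_, fun a ha => ?_, ?_, fun z hz => ?_, fun z hz => ?_⟩
    · refine tendsto_nhds_unique ((tendsto_pi_nhds.1 l1) a)
        ((tendsto_const_nhds (x := (0 : ℂ))).congr' ?_)
      filter_upwards [s1] with n hn
      rw [Pi.smul_apply, hn a ha, smul_zero]
    · exact (Submodule.closed_of_finiteDimensional X).mem_of_tendsto l2
        (s2.mono fun n hn => X.smul_mem _ hn)
    · exact (Submodule.closed_of_finiteDimensional Y).mem_of_tendsto l3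
        (s3.mono fun n hn => Y.smul_mem _ hn)
    · have h1 := (MPb0eR.lim_c1 (T := T) l2 lw a).add (MPb0eR.lim_c1 (T := T) lv' l3 a)
      have h2 := (lα.mul ((tendsto_pi_nhds.1 l1) a)).add (l40.mul ((tendsto_pi_nhds.1 lu') a))
      refine tendsto_nhds_unique (h1.congr' ?_) h2
      filter_upwards [E1] with n hn
      have h3 := hn a ha
      rw [MPb0eR.c1_smul_left, MPb0eR.c1_smul_right, Pi.smul_apply, smul_eq_mul, ← mul_add, h3]
      ring
    · have h1 := (rr3_bfl F l2 lw).add (rr3_bfl F lv' l3)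
      have h2 := lε.mul ((lα.mul l43).add (l40.mul lr'))
      rw [zero_mul] at h2
      refine tendsto_nhds_unique (h1.congr' ?_) h2
      filter_upwards [Ea] with n hn
      rw [(rr3_bf_smul F _ _ _).1, (rr3_bf_smul F _ _ _).2, ← mul_add, hn]
      ring
    · have h1 := (((rr3_dt (tendsto_pi_nhds.2 fun b => MPb0eR.lim_c2 (T := T) l1 lw b)
        (tendsto_const_nhds (x := z))).add
        (rr3_dt (tendsto_pi_nhds.2 fun b => MPb0eR.lim_c2 (T := T) lu' l3 b)
        (tendsto_const_nhds (x := z)))).add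
        (lr.mul (rr3_dt (rr3_bfBl F l3) (tendsto_const_nhds (x := z))))).add
        (l43.mul (rr3_dt (rr3_bfBl F lw') (tendsto_const_nhds (x := z))))
      have h2 := (lβ.mul (rr3_dt l2 (tendsto_const_nhds (x := z)))).add
        (l41.mul (rr3_dt lv' (tendsto_const_nhds (x := z))))
      refine tendsto_nhds_unique (h1.congr' ?_) h2
      filter_upwards [E2] with n hn
      have h3 := hn z hz
      have e1 : c2 T (s n • du n) (w n) = s n • c2 T (du n) (w n) := by
        funext b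
        exact MPb0eR.c2_smul_left T (s n) (du n) (w n) b
      have e2 : c2 T (u' n) (s n • dw n) = s n • c2 T (u' n) (dw n) := by
        funext b
        exact MPb0eR.c2_smul_right T (s n) (u' n) (dw n) b
      have e3 : bfB F (s n • dw n) = s n • bfB F (dw n) := by
        funext b
        simp only [bfB, Pi.smul_apply, smul_eq_mul, Finset.mul_sum]
        exact Finset.sum_congr rfl fun c _ => by ring
      rw [e1, e2, e3, dt_smul_left, dt_smul_left, dt_smul_left, dt_smul_left]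
      have h4 : s n * dt (c2 T (du n) (w n)) z + s n * dt (c2 T (u' n) (dw n)) z
          + r n * (s n * dt (bfB F (dw n)) z) + s n * dr n * dt (bfB F (w' n)) z
          = s n * (β n * dt (dv n) z + dβ n * dt (v' n) z) := by
        rw [← h3]
        ring
      rw [h4]
      ring
    · have h1 := (((rr3_dt (tendsto_pi_nhds.2 fun b => MPb0eR.lim_c3 (T := T) l1 lv b)
        (tendsto_const_nhds (x := z))).add
        (rr3_dt (tendsto_pi_nhds.2 fun b => MPb0eR.lim_c3 (T := T) lu' l2 b)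
        (tendsto_const_nhds (x := z)))).add
        (lr.mul (rr3_dt (rr3_bfCl F l2) (tendsto_const_nhds (x := z))))).add
        (l43.mul (rr3_dt (rr3_bfCl F lv') (tendsto_const_nhds (x := z))))
      have h2 := (lγ.mul (rr3_dt l3 (tendsto_const_nhds (x := z)))).add
        (l42.mul (rr3_dt lw' (tendsto_const_nhds (x := z))))
      refine tendsto_nhds_unique (h1.congr' ?_) h2
      filter_upwards [E3] with n hn
      have h3 := hn z hz
      have e1 : c3 T (s n • du n) (v n) = s n • c3 T (du n) (v n) := by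
        funext b
        exact MPb0eR.c3_smul_left T (s n) (du n) (v n) b
      have e2 : c3 T (u' n) (s n • dv n) = s n • c3 T (u' n) (dv n) := by
        funext b
        exact MPb0eR.c3_smul_right T (s n) (u' n) (dv n) b
      have e3 : bfC F (s n • dv n) = s n • bfC F (dv n) := by
        funext b
        simp only [bfC, Pi.smul_apply, smul_eq_mul, Finset.mul_sum]
        exact Finset.sum_congr rfl fun c _ => by ring
      rw [e1, e2, e3, dt_smul_left, dt_smul_left, dt_smul_left, dt_smul_left]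
      have h4 : s n * dt (c3 T (du n) (v n)) z + s n * dt (c3 T (u' n) (dv n)) z
          + r n * (s n * dt (bfC F (dv n)) z) + s n * dr n * dt (bfC F (v' n)) z
          = s n * (γ n * dt (dw n) z + dγ n * dt (w' n) z) := by
        rw [← h3]
        ring
      rw [h4]
      ring
  have lz : ∀ {D : Type} {d : ℕ → D → ℂ} {d0 : D → ℂ} (i : D),
      Tendsto (fun n => s n • d n) uf (𝓝 d0) → (∀ᶠ n in uf, d n i = 0) → d0 i = 0 := by
    intro D d d0 i h1 h2
    refine tendsto_nhds_unique ((tendsto_pi_nhds.1 h1) i)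
      ((tendsto_const_nhds (x := (0 : ℂ))).congr' ?_)
    filter_upwards [h2] with n hn
    rw [Pi.smul_apply, hn, smul_zero]
  obtain ⟨h1, h2, h3, h4, h5, h6, h7⟩ := rr3_triv cX cY hia n1 n2 n3 hv0 hw0 nd hk
    (lz ia l1 m1) (lz ib l2 m2) (lz ic l3 m3)
  have h8 : y0 = 0 := by
    refine Prod.ext h1 (Prod.ext h2 (Prod.ext h3 ?_))
    funext i
    fin_cases i
    · exact h4
    · exact h5
    · exact h6
    · exact h7
  rw [h8, mem_sphere_zero_iff_norm, norm_zero] at hy0
  exact zero_ne_one hy0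

omit [DecidableEq A] in
/-- Kernel vectors minus rescalings. -/
private theorem rr3_sub {T : A → B → C → ℝ} {SA : Finset A} {X : Submodule ℂ (B → ℂ)}
    {Y : Submodule ℂ (C → ℂ)} {u : A → ℂ} {v : B → ℂ} {w : C → ℂ} {α β γ : ℂ}
    (ht : TX T SA X Y u v w α β γ) {du : A → ℂ} {dv : B → ℂ} {dw : C → ℂ} {dα dβ dγ : ℂ}
    (hk : KX T SA X Y u v w α β γ du dv dw dα dβ dγ) (x y z : ℂ) :
    KX T SA X Y u v w α β γ (du + (-x) • u) (dv + (-y) • v) (dw + (-z) • w)
      (dα + (x - y - z) * α) (dβ + (y - x - z) * β) (dγ + (z - x - y) * γ) := by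
  have a1 : ∀ (p p' : B → ℂ) (k : C → ℂ) (s : ℂ) (a : A),
      c1 T (p + s • p') k a = c1 T p k a + s * c1 T p' k a := fun p p' k s a => by
    rw [MPb0eR.c1_add_left, MPb0eR.c1_smul_left]
  have a2 : ∀ (p : B → ℂ) (k k' : C → ℂ) (s : ℂ) (a : A),
      c1 T p (k + s • k') a = c1 T p k a + s * c1 T p k' a := fun p k k' s a => by
    rw [MPb0eR.c1_add_right, MPb0eR.c1_smul_right]
  have b1 : ∀ (p p' : A → ℂ) (k : C → ℂ) (s : ℂ),
      c2 T (p + s • p') k = c2 T p k + s • c2 T p' k := fun p p' k s => by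
    funext b
    rw [MPb0eR.c2_add_left, MPb0eR.c2_smul_left]
    rfl
  have b2 : ∀ (p : A → ℂ) (k k' : C → ℂ) (s : ℂ),
      c2 T p (k + s • k') = c2 T p k + s • c2 T p k' := fun p k k' s => by
    funext b
    rw [MPb0eR.c2_add_right, MPb0eR.c2_smul_right]
    rfl
  have d1 : ∀ (p p' : A → ℂ) (k : B → ℂ) (s : ℂ),
      c3 T (p + s • p') k = c3 T p k + s • c3 T p' k := fun p p' k s => by
    funext b
    rw [MPb0eR.c3_add_left, MPb0eR.c3_smul_left]
    rfl
  have d2 : ∀ (p : A → ℂ) (k k' : B → ℂ) (s : ℂ),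
      c3 T p (k + s • k') = c3 T p k + s • c3 T p k' := fun p k k' s => by
    funext b
    rw [MPb0eR.c3_add_right, MPb0eR.c3_smul_right]
    rfl
  refine ⟨fun a ha => ?_, X.add_mem hk.sv (X.smul_mem _ ht.sv), Y.add_mem hk.sw
    (Y.smul_mem _ ht.sw), fun a ha => ?_, fun t ht' => ?_, fun t ht' => ?_⟩
  · rw [Pi.add_apply, Pi.smul_apply, hk.su a ha, ht.su a ha, smul_zero, add_zero]
  · rw [a1, a2, Pi.add_apply, Pi.smul_apply, smul_eq_mul]
    have h1 := hk.e1 a ha
    have h2 := ht.e1 a ha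
    rw [h2]
    linear_combination h1
  · rw [b1, b2, dt_add_left, dt_add_left, dt_add_left, dt_smul_left, dt_smul_left, dt_smul_left]
    have h1 := hk.e2 t ht'
    have h2 := ht.e2 t ht'
    rw [h2]
    linear_combination h1
  · rw [d1, d2, dt_add_left, dt_add_left, dt_add_left, dt_smul_left, dt_smul_left, dt_smul_left]
    have h1 := hk.e3 t ht'
    have h2 := ht.e3 t ht'
    rw [h2]
    linear_combination h1

/-- The tuples near a constrained tuple are real and nondegenerate.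

Proof. If the tuples are not real (or have kernel vectors that are not multiples of the tuple)
along the ultrafilter, the differences of the tuples and their conjugates (or the kernel vectors),
normalised at `ia ∈ SA`, `ib`, `ic` and scaled to norm one, converge to a kernel vector of the
limit system `CX`, which vanishes at `ia`, `ib`, `ic` and is zero by `OkC.nd`, a contradiction.
`α0 ≠ 0` by `OkC.hα`, so `α0 q u0 ≠ 0` and `β0, γ0 ≠ 0` by `CX.tr`. -/
theorem rr_ok2 {T : A → B → C → ℝ} {F : B → C → ℝ} {SA : Finset A} {a : A} (ha : a ∉ SA)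
    {X : Submodule ℂ (B → ℂ)} {Y : Submodule ℂ (C → ℂ)} (cX : Cj X) (cY : Cj Y) {R : ℕ → ℝ}
    (hR : Tendsto R uf atTop) (hp : ∀ n, 0 < R n) {ia : A} {ib : B} {ic : C} {u : ℕ → A → ℂ}
    {v : ℕ → B → ℂ} {w : ℕ → C → ℂ} {α β γ : ℕ → ℂ} {u0 : A → ℂ} {v0 : B → ℂ} {w0 : C → ℂ}
    {α0 β0 γ0 r0 : ℂ}
    (ht : ∀ n, TX (Function.update T a (fun b c => R n * F b c)) (insert a SA) X Y (u n) (v n)
      (w n) (α n) (β n) (γ n)) (hia : ia ∈ SA)
    (nu : ∀ n, Nrm (u n) ia) (nv : ∀ n, Nrm (v n) ib) (nw : ∀ n, Nrm (w n) ic)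
    (lu : Tendsto u uf (𝓝 u0)) (lv : Tendsto v uf (𝓝 v0)) (lw : Tendsto w uf (𝓝 w0))
    (lα : Tendsto α uf (𝓝 α0)) (lβ : Tendsto β uf (𝓝 β0)) (lγ : Tendsto γ uf (𝓝 γ0))
    (lr : Tendsto (fun n => (R n : ℂ) * u n a) uf (𝓝 r0))
    (hs : CX T F SA X Y u0 v0 w0 α0 β0 γ0 r0) (ho : OkC T F SA X Y u0 v0 w0 α0 β0 γ0 r0) :
    ∀ᶠ n in uf, OkX (Function.update T a (fun b c => R n * F b c)) (insert a SA) X Y (u n) (v n)
      (w n) (α n) (β n) (γ n) := by
  have hia' : ia ≠ a := fun h => ha (h ▸ hia)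
  have hne : ∀ x ∈ SA, x ≠ a := fun x hx h => ha (h ▸ hx)
  have n1 : u0 ia = 1 := (MPb0eR.Nrm.lim nu lu).1
  have n2 : v0 ib = 1 := (MPb0eR.Nrm.lim nv lv).1
  have n3 : w0 ic = 1 := (MPb0eR.Nrm.lim nw lw).1
  have u0ne : u0 ≠ 0 := (MPb0eR.Nrm.lim nu lu).ne
  have v0ne : v0 ≠ 0 := (MPb0eR.Nrm.lim nv lv).ne
  have w0ne : w0 ≠ 0 := (MPb0eR.Nrm.lim nw lw).ne
  have hu0a : Function.update u0 a 0 = u0 := by
    funext x
    by_cases hx : x = a
    · rw [hx, Function.update_self, hs.su a ha]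
    · rw [Function.update_of_ne hx]
  -- the scaled sequences
  obtain ⟨U, hU⟩ : ∃ U : ℕ → A → ℂ, U = fun n => Function.update (u n) a 0 := ⟨_, rfl⟩
  obtain ⟨r, hr⟩ : ∃ r : ℕ → ℂ, r = fun n => (R n : ℂ) * u n a := ⟨_, rfl⟩
  obtain ⟨ε, hε⟩ : ∃ ε : ℕ → ℂ, ε = fun n => ((((R n)⁻¹ : ℝ)) : ℂ) * (((R n)⁻¹ : ℝ) : ℂ) :=
    ⟨_, rfl⟩
  have lU : Tendsto U uf (𝓝 u0) := by
    have h1 := rr3_upd lu a
    rw [hu0a] at h1
    rw [hU]
    exact h1
  have lr1 : Tendsto r uf (𝓝 r0) := by rw [hr]; exact lr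
  have lε : Tendsto ε uf (𝓝 0) := by
    have h1 : Tendsto (fun n => (((R n)⁻¹ : ℝ) : ℂ)) uf (𝓝 ((0 : ℝ) : ℂ)) :=
      (Complex.continuous_ofReal.tendsto 0).comp (tendsto_inv_atTop_zero.comp hR)
    have h2 := h1.mul h1
    rw [Complex.ofReal_zero, mul_zero] at h2
    rw [hε]
    exact h2
  have hRc : ∀ n, (R n : ℂ) ≠ 0 := fun n => Complex.ofReal_ne_zero.2 (hp n).ne'
  have hUia : ∀ n, U n ia = 1 := fun n => by
    rw [hU]
    change Function.update (u n) a 0 ia = 1
    rw [Function.update_of_ne hia', (nu n).1]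
  have sU : ∀ n, Sup SA (U n) := by
    intro n x hx
    rw [hU]
    change Function.update (u n) a 0 x = 0
    by_cases hxa : x = a
    · rw [hxa, Function.update_self]
    · rw [Function.update_of_ne hxa]
      refine (ht n).su x fun h => ?_
      rcases Finset.mem_insert.1 h with h | h
      · exact hxa h
      · exact hx h
  have e1 : ∀ n, ∀ x ∈ SA, c1 T (v n) (w n) x = α n * U n x := fun n x hx => by
    have h1 := (ht n).e1 x (Finset.mem_insert_of_mem hx)
    rw [rr3_c1' T F (hne x hx)] at h1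
    rw [h1, hU]
    change _ = α n * Function.update (u n) a 0 x
    rw [Function.update_of_ne (hne x hx)]
  have ea : ∀ n, bf F (v n) (w n) = ε n * (α n * r n) := fun n => by
    have h1 := (ht n).e1 a (Finset.mem_insert_self a SA)
    rw [rr3_c1] at h1
    rw [hε, hr]
    change bf F (v n) (w n) = (((R n)⁻¹ : ℝ) : ℂ) * (((R n)⁻¹ : ℝ) : ℂ) *
      (α n * ((R n : ℂ) * u n a))
    rw [Complex.ofReal_inv]
    have h2 := hRc n
    field_simp
    linear_combination h1
  have e2 : ∀ n, ∀ z ∈ X, dt (c2 T (U n) (w n)) z + r n * dt (bfB F (w n)) z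
      = β n * dt (v n) z := fun n z hz => by
    have h1 := (ht n).e2 z hz
    rw [rr3_c2, dt_add_left, dt_smul_left] at h1
    rw [hU, hr]
    exact h1
  have e3 : ∀ n, ∀ z ∈ Y, dt (c3 T (U n) (v n)) z + r n * dt (bfC F (v n)) z
      = γ n * dt (w n) z := fun n z hz => by
    have h1 := (ht n).e3 z hz
    rw [rr3_c3, dt_add_left, dt_smul_left] at h1
    rw [hU, hr]
    exact h1
  have cjR : ∀ x : ℝ, starRingEnd ℂ (x : ℂ) = x := fun x => Complex.conj_ofReal x
  have cjε : ∀ n, starRingEnd ℂ (ε n) = ε n := fun n => by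
    rw [hε]
    change starRingEnd ℂ ((((R n)⁻¹ : ℝ) : ℂ) * (((R n)⁻¹ : ℝ) : ℂ)) = _
    rw [map_mul, cjR]
  -- the limit is real
  obtain ⟨ka, kb, kc, hka, hkb, hkc, ra, rb, rc, hrr⟩ := ho.re
  have ru0 : Rea u0 := rea_of_rl ⟨ka, hka, ra⟩ n1
  have rv0 : Rea v0 := rea_of_rl ⟨kb, hkb, rb⟩ n2
  have rw0 : Rea w0 := rea_of_rl ⟨kc, hkc, rc⟩ n3
  have cu0 : cj u0 = u0 := (MPb0eR.rea_iff u0).1 ru0
  have cv0 : cj v0 = v0 := (MPb0eR.rea_iff v0).1 rv0
  have cw0 : cj w0 = w0 := (MPb0eR.rea_iff w0).1 rw0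
  have cr0 : starRingEnd ℂ r0 = r0 := by
    have h1 : ka.im = 0 := by
      have h2 := ra ia
      rw [Pi.smul_apply, n1, smul_eq_mul, mul_one] at h2
      exact h2
    have h3 : ka.re ≠ 0 := by
      intro h4
      exact hka (Complex.ext h4 h1)
    rw [Complex.mul_im, h1, zero_mul, add_zero] at hrr
    exact Complex.conj_eq_iff_im.2 ((mul_eq_zero.1 hrr).resolve_left h3)
  obtain ⟨t1, t2, t3⟩ := hs.tr
  have cα0 : starRingEnd ℂ α0 = α0 := by
    have h1 := hs.e1 ia hia
    rw [n1, mul_one] at h1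
    rw [← h1, ← MPb0eR.c1_cj, cv0, cw0]
  have htr : starRingEnd ℂ (MPb0eR.tr T u0 v0 w0) = MPb0eR.tr T u0 v0 w0 := by
    rw [← t1, map_mul, cα0]
    congr 1
    exact Complex.conj_eq_iff_im.2 (q_rea_pos ru0 u0ne).2
  have cdiv : ∀ {x t : ℂ}, x * t = MPb0eR.tr T u0 v0 w0 → 0 < t.re ∧ t.im = 0 →
      starRingEnd ℂ x = x := by
    intro x t hx hpt
    have ht0 : t ≠ 0 := by
      intro h0
      rw [h0] at hpt
      exact lt_irrefl _ hpt.1
    have h1 := congrArg (starRingEnd ℂ) hx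
    rw [map_mul, htr, ← hx, Complex.conj_eq_iff_im.2 hpt.2] at h1
    exact mul_right_cancel₀ ht0 h1
  have cβ0 : starRingEnd ℂ β0 = β0 := cdiv t2 (q_rea_pos rv0 v0ne)
  have cγ0 : starRingEnd ℂ γ0 = γ0 := cdiv t3 (q_rea_pos rw0 w0ne)
  -- the multipliers
  have hα0 : α0 ≠ 0 := ho.hα
  have htr0 : MPb0eR.tr T u0 v0 w0 ≠ 0 := by
    rw [← t1]
    exact mul_ne_zero hα0 (q_ne (MPb0eR.Rea.rl ru0) u0ne)
  have hβ0 : β0 ≠ 0 := by
    intro h
    rw [h, zero_mul] at t2
    exact htr0 t2.symm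
  have hγ0 : γ0 ≠ 0 := by
    intro h
    rw [h, zero_mul] at t3
    exact htr0 t3.symm
  -- reality
  have lcj : ∀ {x : ℕ → ℂ} {x0 : ℂ}, Tendsto x uf (𝓝 x0) →
      Tendsto (fun n => starRingEnd ℂ (x n)) uf (𝓝 (starRingEnd ℂ x0)) := fun h =>
    (Complex.continuous_conj.tendsto _).comp h
  have hreal : ∀ᶠ n in uf, U n - cj (U n) = 0 ∧ v n - cj (v n) = 0 ∧ w n - cj (w n) = 0 ∧
      α n - starRingEnd ℂ (α n) = 0 ∧ β n - starRingEnd ℂ (β n) = 0 ∧
      γ n - starRingEnd ℂ (γ n) = 0 ∧ r n - starRingEnd ℂ (r n) = 0 := by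
    have hsub : ∀ {D : Type} (x : D → ℂ), x - cj x = x + (-1 : ℂ) • cj x := fun x => by
      rw [neg_smul, one_smul, sub_eq_add_neg]
    refine rr3_key cX cY hia n1 n2 n3 hs.sv hs.sw ho.nd (u' := fun n => cj (U n))
      (v := v) (v' := fun n => cj (v n)) (w := w) (w' := fun n => cj (w n)) (α := α) (β := β)
      (γ := γ) (r := r) (r' := fun n => starRingEnd ℂ (r n)) (ε := ε)
      (cu0 ▸ rr3_cjl lU) lv (cv0 ▸ rr3_cjl lv) lw (cw0 ▸ rr3_cjl lw) lα lβ lγ lr1
      (cr0 ▸ lcj lr1) lε (du := fun n => U n - cj (U n)) (dv := fun n => v n - cj (v n))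
      (dw := fun n => w n - cj (w n)) (dα := fun n => α n - starRingEnd ℂ (α n))
      (dβ := fun n => β n - starRingEnd ℂ (β n)) (dγ := fun n => γ n - starRingEnd ℂ (γ n))
      (dr := fun n => r n - starRingEnd ℂ (r n)) ?_ ?_ ?_ ?_ ?_ ?_ ?_ ?_ ?_ ?_
    · refine Eventually.of_forall fun n x hx => ?_
      change U n x - starRingEnd ℂ (U n x) = 0
      rw [sU n x hx, map_zero, sub_zero]
    · exact Eventually.of_forall fun n => X.sub_mem (ht n).sv (cX _ (ht n).sv)
    · exact Eventually.of_forall fun n => Y.sub_mem (ht n).sw (cY _ (ht n).sw)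
    · refine Eventually.of_forall fun n => ?_
      change U n ia - starRingEnd ℂ (U n ia) = 0
      rw [hUia, map_one, sub_self]
    · refine Eventually.of_forall fun n => ?_
      change v n ib - starRingEnd ℂ (v n ib) = 0
      rw [(nv n).1, map_one, sub_self]
    · refine Eventually.of_forall fun n => ?_
      change w n ic - starRingEnd ℂ (w n ic) = 0
      rw [(nw n).1, map_one, sub_self]
    · refine Eventually.of_forall fun n x hx => ?_
      have h1 := e1 n x hx
      have h2 : c1 T (cj (v n)) (cj (w n)) x = starRingEnd ℂ (α n) * starRingEnd ℂ (U n x) := by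
        rw [MPb0eR.c1_cj, h1, map_mul]
      rw [hsub (v n), hsub (w n), MPb0eR.c1_add_left, MPb0eR.c1_smul_left,
        MPb0eR.c1_add_right, MPb0eR.c1_smul_right, h1, h2]
      change _ = α n * (U n x - starRingEnd ℂ (U n x)) +
        (α n - starRingEnd ℂ (α n)) * starRingEnd ℂ (U n x)
      ring
    · refine Eventually.of_forall fun n => ?_
      have h1 := ea n
      have h2 : bf F (cj (v n)) (cj (w n)) = ε n * (starRingEnd ℂ (α n) * starRingEnd ℂ (r n)) := by
        rw [rr3_bf_cj, h1, map_mul, map_mul, cjε]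
      rw [hsub (v n), hsub (w n), (rr3_bf_lin F _ _ _ (w n) _ 0).1,
        (rr3_bf_lin F (cj (v n)) 0 _ _ 0 _).2, h1, h2]
      ring
    · refine Eventually.of_forall fun n z hz => ?_
      have h1 := e2 n z hz
      have h2 : dt (c2 T (cj (U n)) (cj (w n))) z + starRingEnd ℂ (r n) * dt (bfB F (cj (w n))) z
          = starRingEnd ℂ (β n) * dt (cj (v n)) z := by
        have h3 := congrArg (starRingEnd ℂ) (e2 n (cj z) (cX z hz))
        rw [map_add, map_mul, map_mul, ← dt_cj, ← dt_cj, ← dt_cj, MPb0eR.cj_cj] at h3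
        have h4 : cj (c2 T (U n) (w n)) = c2 T (cj (U n)) (cj (w n)) := by
          funext b
          exact (MPb0eR.c2_cj T (U n) (w n) b).symm
        have h5 : cj (bfB F (w n)) = bfB F (cj (w n)) := by
          funext b
          simp only [bfB, cj, map_sum, map_mul, Complex.conj_ofReal]
        rw [h4, h5] at h3
        exact h3
      have g1 : c2 T (U n + (-1 : ℂ) • cj (U n)) (w n)
          = c2 T (U n) (w n) + (-1 : ℂ) • c2 T (cj (U n)) (w n) := by
        funext b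
        rw [MPb0eR.c2_add_left, MPb0eR.c2_smul_left]
        rfl
      have g2 : c2 T (cj (U n)) (w n + (-1 : ℂ) • cj (w n))
          = c2 T (cj (U n)) (w n) + (-1 : ℂ) • c2 T (cj (U n)) (cj (w n)) := by
        funext b
        rw [MPb0eR.c2_add_right, MPb0eR.c2_smul_right]
        rfl
      have g3 : bfB F (w n + (-1 : ℂ) • cj (w n)) = bfB F (w n) + (-1 : ℂ) • bfB F (cj (w n)) := by
        funext b
        simp only [bfB, Pi.add_apply, Pi.smul_apply, smul_eq_mul]
        rw [Finset.mul_sum, ← Finset.sum_add_distrib]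
        exact Finset.sum_congr rfl fun c _ => by ring
      rw [hsub (U n), hsub (w n), hsub (v n), g1, g2, g3, dt_add_left, dt_add_left, dt_add_left,
        dt_add_left, dt_smul_left, dt_smul_left, dt_smul_left, dt_smul_left]
      linear_combination h1 - h2
    · refine Eventually.of_forall fun n z hz => ?_
      have h1 := e3 n z hz
      have h2 : dt (c3 T (cj (U n)) (cj (v n))) z + starRingEnd ℂ (r n) * dt (bfC F (cj (v n))) z
          = starRingEnd ℂ (γ n) * dt (cj (w n)) z := by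
        have h3 := congrArg (starRingEnd ℂ) (e3 n (cj z) (cY z hz))
        rw [map_add, map_mul, map_mul, ← dt_cj, ← dt_cj, ← dt_cj, MPb0eR.cj_cj] at h3
        have h4 : cj (c3 T (U n) (v n)) = c3 T (cj (U n)) (cj (v n)) := by
          funext b
          exact (MPb0eR.c3_cj T (U n) (v n) b).symm
        have h5 : cj (bfC F (v n)) = bfC F (cj (v n)) := by
          funext b
          simp only [bfC, cj, map_sum, map_mul, Complex.conj_ofReal]
        rw [h4, h5] at h3
        exact h3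
      have g1 : c3 T (U n + (-1 : ℂ) • cj (U n)) (v n)
          = c3 T (U n) (v n) + (-1 : ℂ) • c3 T (cj (U n)) (v n) := by
        funext b
        rw [MPb0eR.c3_add_left, MPb0eR.c3_smul_left]
        rfl
      have g2 : c3 T (cj (U n)) (v n + (-1 : ℂ) • cj (v n))
          = c3 T (cj (U n)) (v n) + (-1 : ℂ) • c3 T (cj (U n)) (cj (v n)) := by
        funext b
        rw [MPb0eR.c3_add_right, MPb0eR.c3_smul_right]
        rfl
      have g3 : bfC F (v n + (-1 : ℂ) • cj (v n)) = bfC F (v n) + (-1 : ℂ) • bfC F (cj (v n)) := by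
        funext b
        simp only [bfC, Pi.add_apply, Pi.smul_apply, smul_eq_mul]
        rw [Finset.mul_sum, ← Finset.sum_add_distrib]
        exact Finset.sum_congr rfl fun c _ => by ring
      rw [hsub (U n), hsub (w n), hsub (v n), g1, g2, g3, dt_add_left, dt_add_left, dt_add_left,
        dt_add_left, dt_smul_left, dt_smul_left, dt_smul_left, dt_smul_left]
      linear_combination h1 - h2
  -- nondegeneracy
  have hnd : ∀ᶠ n in uf, NX (Function.update T a (fun b c => R n * F b c)) (insert a SA) X Y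
      (u n) (v n) (w n) (α n) (β n) (γ n) := by
    by_contra hneg
    have hneg' := Ultrafilter.eventually_not.2 hneg
    have hex : ∀ᶠ n in uf, ∃ k : (A → ℂ) × (B → ℂ) × (C → ℂ) × ℂ × ℂ × ℂ,
        KX (Function.update T a (fun b c => R n * F b c)) (insert a SA) X Y (u n) (v n) (w n)
          (α n) (β n) (γ n) k.1 k.2.1 k.2.2.1 k.2.2.2.1 k.2.2.2.2.1 k.2.2.2.2.2 ∧
        ¬ ((∃ r : ℂ, k.1 = r • u n) ∧ (∃ r : ℂ, k.2.1 = r • v n) ∧
          ∃ r : ℂ, k.2.2.1 = r • w n) := by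
      filter_upwards [hneg'] with n hn
      by_contra hcon
      apply hn
      intro du dv dw dα dβ dγ h1
      by_contra h2
      exact hcon ⟨(du, dv, dw, dα, dβ, dγ), h1, h2⟩
    obtain ⟨k, hk⟩ := hex.choice
    have hk1 : ∀ᶠ n in uf, KX (Function.update T a (fun b c => R n * F b c)) (insert a SA) X Y
        (u n) (v n) (w n) (α n) (β n) (γ n) ((k n).1 + (-((k n).1 ia)) • u n)
        ((k n).2.1 + (-((k n).2.1 ib)) • v n) ((k n).2.2.1 + (-((k n).2.2.1 ic)) • w n)
        ((k n).2.2.2.1 + ((k n).1 ia - (k n).2.1 ib - (k n).2.2.1 ic) * α n)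
        ((k n).2.2.2.2.1 + ((k n).2.1 ib - (k n).1 ia - (k n).2.2.1 ic) * β n)
        ((k n).2.2.2.2.2 + ((k n).2.2.1 ic - (k n).1 ia - (k n).2.1 ib) * γ n) := by
      filter_upwards [hk] with n hn
      exact rr3_sub (ht n) hn.1 _ _ _
    obtain ⟨du, hdu⟩ : ∃ du : ℕ → A → ℂ, du = fun n => (k n).1 + (-((k n).1 ia)) • u n :=
      ⟨_, rfl⟩
    obtain ⟨dv, hdv⟩ : ∃ dv : ℕ → B → ℂ, dv = fun n => (k n).2.1 + (-((k n).2.1 ib)) • v n :=
      ⟨_, rfl⟩
    obtain ⟨dw, hdw⟩ : ∃ dw : ℕ → C → ℂ,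
        dw = fun n => (k n).2.2.1 + (-((k n).2.2.1 ic)) • w n := ⟨_, rfl⟩
    obtain ⟨dα, hdα⟩ : ∃ dα : ℕ → ℂ,
        dα = fun n => (k n).2.2.2.1 + ((k n).1 ia - (k n).2.1 ib - (k n).2.2.1 ic) * α n :=
      ⟨_, rfl⟩
    obtain ⟨dβ, hdβ⟩ : ∃ dβ : ℕ → ℂ,
        dβ = fun n => (k n).2.2.2.2.1 + ((k n).2.1 ib - (k n).1 ia - (k n).2.2.1 ic) * β n :=
      ⟨_, rfl⟩
    obtain ⟨dγ, hdγ⟩ : ∃ dγ : ℕ → ℂ,
        dγ = fun n => (k n).2.2.2.2.2 + ((k n).2.2.1 ic - (k n).1 ia - (k n).2.1 ib) * γ n :=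
      ⟨_, rfl⟩
    have hk2 : ∀ᶠ n in uf, KX (Function.update T a (fun b c => R n * F b c)) (insert a SA) X Y
        (u n) (v n) (w n) (α n) (β n) (γ n) (du n) (dv n) (dw n) (dα n) (dβ n) (dγ n) := by
      rw [hdu, hdv, hdw, hdα, hdβ, hdγ]
      exact hk1
    have m1 : ∀ n, du n ia = 0 := fun n => by
      rw [hdu]
      change (k n).1 ia + -((k n).1 ia) * u n ia = 0
      rw [(nu n).1]
      ring
    have m2 : ∀ n, dv n ib = 0 := fun n => by
      rw [hdv]
      change (k n).2.1 ib + -((k n).2.1 ib) * v n ib = 0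
      rw [(nv n).1]
      ring
    have m3 : ∀ n, dw n ic = 0 := fun n => by
      rw [hdw]
      change (k n).2.2.1 ic + -((k n).2.2.1 ic) * w n ic = 0
      rw [(nw n).1]
      ring
    have hzero := rr3_key cX cY hia n1 n2 n3 hs.sv hs.sw ho.nd (u' := U) (v := v) (v' := v)
      (w := w) (w' := w) (α := α) (β := β) (γ := γ) (r := r) (r' := r) (ε := ε) lU lv lv lw lw
      lα lβ lγ lr1 lr1 lε (du := fun n => Function.update (du n) a 0) (dv := dv) (dw := dw)
      (dα := dα) (dβ := dβ) (dγ := dγ) (dr := fun n => (R n : ℂ) * du n a) (by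
        filter_upwards [hk2] with n hn x hx
        by_cases hxa : x = a
        · rw [hxa, Function.update_self]
        · rw [Function.update_of_ne hxa]
          refine hn.su x fun h => ?_
          rcases Finset.mem_insert.1 h with h | h
          · exact hxa h
          · exact hx h) (by
        filter_upwards [hk2] with n hn
        exact hn.sv) (by
        filter_upwards [hk2] with n hn
        exact hn.sw) (Eventually.of_forall fun n => by
        rw [Function.update_of_ne hia']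
        exact m1 n) (Eventually.of_forall m2) (Eventually.of_forall m3) (by
        filter_upwards [hk2] with n hn x hx
        have h1 := hn.e1 x (Finset.mem_insert_of_mem hx)
        rw [rr3_c1' T F (hne x hx), rr3_c1' T F (hne x hx)] at h1
        rw [Function.update_of_ne (hne x hx), h1, hU]
        change _ = α n * du n x + dα n * Function.update (u n) a 0 x
        rw [Function.update_of_ne (hne x hx)]) (by
        filter_upwards [hk2] with n hn
        have h1 := hn.e1 a (Finset.mem_insert_self a SA)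
        rw [rr3_c1, rr3_c1] at h1
        rw [hε, hr]
        change _ = (((R n)⁻¹ : ℝ) : ℂ) * (((R n)⁻¹ : ℝ) : ℂ) *
          (α n * ((R n : ℂ) * du n a) + dα n * ((R n : ℂ) * u n a))
        rw [Complex.ofReal_inv]
        have h2 := hRc n
        field_simp
        linear_combination h1) (by
        filter_upwards [hk2] with n hn z hz
        have h1 := hn.e2 z hz
        rw [rr3_c2, rr3_c2, dt_add_left, dt_add_left, dt_smul_left, dt_smul_left] at h1
        rw [hU, hr]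
        linear_combination h1) (by
        filter_upwards [hk2] with n hn z hz
        have h1 := hn.e3 z hz
        rw [rr3_c3, rr3_c3, dt_add_left, dt_add_left, dt_smul_left, dt_smul_left] at h1
        rw [hU, hr]
        linear_combination h1)
    have hfalse : ∀ᶠ n in uf, False := by
      filter_upwards [hzero, hk] with n hn hn'
      obtain ⟨g1, g2, g3, -, -, -, g7⟩ := hn
      apply hn'.2
      have g8 : du n a = 0 := (mul_eq_zero.1 g7).resolve_left (hRc n)
      have g9 : du n = 0 := by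
        funext x
        by_cases hxa : x = a
        · rw [hxa, g8, Pi.zero_apply]
        · have g10 := congrFun g1 x
          rw [Function.update_of_ne hxa] at g10
          exact g10
      rw [hdu] at g9
      rw [hdv] at g2
      rw [hdw] at g3
      refine ⟨⟨(k n).1 ia, ?_⟩, ⟨(k n).2.1 ib, ?_⟩, (k n).2.2.1 ic, ?_⟩
      · have h1 : (k n).1 + (-((k n).1 ia)) • u n = 0 := g9
        rw [neg_smul, ← sub_eq_add_neg] at h1
        exact sub_eq_zero.1 h1
      · have h1 : (k n).2.1 + (-((k n).2.1 ib)) • v n = 0 := g2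
        rw [neg_smul, ← sub_eq_add_neg] at h1
        exact sub_eq_zero.1 h1
      · have h1 : (k n).2.2.1 + (-((k n).2.2.1 ic)) • w n = 0 := g3
        rw [neg_smul, ← sub_eq_add_neg] at h1
        exact sub_eq_zero.1 h1
    obtain ⟨n, hn⟩ := hfalse.exists
    exact hn
  filter_upwards [hreal, hnd, lα.eventually_ne hα0, lβ.eventually_ne hβ0,
    lγ.eventually_ne hγ0] with n h1 h2 h3 h4 h5
  obtain ⟨g1, g2, g3, -, -, -, g7⟩ := h1
  have rv : Rea (v n) := (MPb0eR.rea_iff _).2 (sub_eq_zero.1 g2).symm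
  have rw' : Rea (w n) := (MPb0eR.rea_iff _).2 (sub_eq_zero.1 g3).symm
  have rU : Rea (U n) := (MPb0eR.rea_iff _).2 (sub_eq_zero.1 g1).symm
  have ru : Rea (u n) := by
    intro x
    by_cases hxa : x = a
    · have h6 : (r n).im = 0 := Complex.conj_eq_iff_im.1 (sub_eq_zero.1 g7).symm
      rw [hr] at h6
      have h7 : ((R n : ℂ) * u n a).im = 0 := h6
      rw [Complex.im_ofReal_mul] at h7
      rw [hxa]
      exact (mul_eq_zero.1 h7).resolve_left (hp n).ne'
    · have h6 := rU x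
      rw [hU] at h6
      have h7 : (Function.update (u n) a 0 x).im = 0 := h6
      rw [Function.update_of_ne hxa] at h7
      exact h7
  exact ⟨MPb0eR.Rea.rl ru, MPb0eR.Rea.rl rv, MPb0eR.Rea.rl rw', h3, h4, h5, h2⟩

end

end Pool.Agent.MPb0eK
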