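import Mathlib
import Pool.Agent.Lib.MP_b0e20b_ag_K.E2
import Pool.Agent.Lib.MP_b0e20b_ag_K.E3
import Pool.Agent.Lib.MP_b0e20b_ag_K.Rr2
import Pool.Agent.Lib.MP_b0e20b_ag_K.Rr3

/-!
# MP_b0e20b_ag, project K: E types: the step of the induction
-/

set_option autoImplicit false

open scoped BigOperators Topology
open Filter

namespace Pool.Agent.MPb0eK

open MPb0eR (c1 c2 c3 tr q Sup Rl Rea uf Nrm cj AF scl)

section

variable {P : Par} {N n2 n3 : ℕ} {T : Fin (N + 1) → Fin (n2 + 1) → Fin (n3 + 1) → ℝ} {full : Bool}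
  {p : ℕ}

private theorem E4_sq {k : ℝ} (hk : k ≠ 0) {x y : ℂ} (h : y = (k : ℂ) ^ 2 * x) :
    (y.re < 0 → x.re < 0) ∧ (0 < y.re → 0 < x.re) := by
  have h1 : y.re = k ^ 2 * x.re := by
    rw [h, ← Complex.ofReal_pow, Complex.re_ofReal_mul]
  have h2 : 0 < k ^ 2 := by positivity
  rw [h1]
  constructor
  · intro h3
    by_contra h4
    push Not at h4
    have := mul_nonneg h2.le h4
    linarith
  · intro h3
    by_contra h4
    push Not at h4
    have := mul_nonneg h2.le (neg_nonneg.2 h4)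
    linarith

/-- The sign conditions are invariant under real rescaling. -/
private theorem E4_ob {n2 n3 : ℕ} {x y : Fin 3} {i j : ℕ → ℕ} {v : Fin (n2 + 1) → ℂ}
    {w : Fin (n3 + 1) → ℂ} {gB : Fin (n2 + 1) → ℂ} {gC : Fin (n3 + 1) → ℂ} {σ G : ℂ} {a b c : ℝ}
    (ha : a ≠ 0) (hb : b ≠ 0) (hc : c ≠ 0)
    (h : Ob P n2 n3 full x y i j ((b : ℂ) • v) ((c : ℂ) • w) (((a * c : ℝ) : ℂ) • gB)
      (((a * b : ℝ) : ℂ) • gC) (((a * b * c : ℝ) : ℂ) * σ) (((b * c : ℝ) : ℂ) * G)) :
    Ob P n2 n3 full x y i j v w gB gC σ G := by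
  have hk : a * b * c ≠ 0 := mul_ne_zero (mul_ne_zero ha hb) hc
  have hk' : b * c ≠ 0 := mul_ne_zero hb hc
  refine ⟨fun p hp z hz hr h1 => ?_, fun p hp z hz hr h1 => ?_, fun hf hx hy z hz hr h1 => ?_,
    fun hf hy hx z hz hr h1 => ?_, fun hf hx hy => ?_,
    fun hf hx hy z hz hr h1 z' hz' hr' h1' => ?_,
    fun hf hx hy z hz hr h1 z' hz' hr' h1' => ?_, fun hf hx hy => ?_⟩
  · have h2 := h.oB p hp z hz hr h1
    refine (E4_sq hk ?_).1 h2
    rw [dt_smul_left, pr_smul]
    push_cast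
    ring
  · have h2 := h.oC p hp z hz hr h1
    refine (E4_sq hk ?_).1 h2
    rw [dt_smul_left, pr_smul]
    push_cast
    ring
  · have h2 := h.s2 hf hx hy z hz hr h1
    refine (E4_sq hk ?_).2 h2
    rw [dt_smul_left, pr_smul]
    push_cast
    ring
  · have h2 := h.s1 hf hy hx z hz hr h1
    refine (E4_sq hk ?_).2 h2
    rw [dt_smul_left, pr_smul]
    push_cast
    ring
  · exact right_ne_zero_of_mul (h.g0 hf hx hy)
  · have h2 := h.t2 hf hx hy z hz hr h1 z' hz' hr' h1'
    refine (E4_sq hk ?_).1 h2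
    rw [dt_smul_left, dt_smul_left]
    push_cast
    ring
  · have h2 := h.t3 hf hx hy z hz hr h1 z' hz' hr' h1'
    refine (E4_sq hk ?_).1 h2
    rw [dt_smul_left, dt_smul_left]
    push_cast
    ring
  · have h2 := h.t1 hf hx hy
    refine (E4_sq hk' ?_).2 h2
    rw [pr_smul, pr_smul]
    push_cast
    ring

private theorem E4_row (P : Par) (n2 n3 : ℕ) (g R δ : ℝ) :
    row P n2 n3 g R δ = fun b c => R * row P n2 n3 g 1 δ b c := by
  funext b c
  simp only [row, one_mul]

private theorem E4_val (N p : ℕ) (hp : p ≤ N) : ((Fin.ofNat (N + 1) p : Fin (N + 1)) : ℕ) = p :=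
  Nat.mod_eq_of_lt (Nat.lt_succ_of_le hp)

private theorem E4_ne {N p : ℕ} (h1 : 1 ≤ p) (hp : p ≤ N) : Fin.ofNat (N + 1) p ≠ 0 := by
  intro h
  have h2 := congrArg Fin.val h
  rw [E4_val N p hp] at h2
  simp at h2
  omega

private theorem E4_notMem {N p : ℕ} (full : Bool) (hp : p ≤ N) :
    Fin.ofNat (N + 1) p ∉ SR N full p := by
  intro h
  have h2 := (Finset.mem_filter.1 h).2.2
  rw [E4_val N p hp] at h2
  exact lt_irrefl _ h2

private theorem E4_SR {N p : ℕ} (full : Bool) (h1 : 1 ≤ p) (hp : p ≤ N) :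
    SR N full (p + 1) = insert (Fin.ofNat (N + 1) p) (SR N full p) := by
  ext a
  rw [Finset.mem_insert, SR, SR, Finset.mem_filter, Finset.mem_filter]
  have hv := E4_val N p hp
  constructor
  · rintro ⟨h2, h3, h4⟩
    by_cases h5 : (a : ℕ) = p
    · left
      exact Fin.ext (h5.trans hv.symm)
    · right
      exact ⟨h2, h3, by omega⟩
  · rintro (h2 | ⟨h2, h3, h4⟩)
    · refine ⟨Finset.mem_univ _, Or.inr ?_, ?_⟩
      · rw [h2]
        exact E4_ne h1 hp
      · rw [h2, hv]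
        exact Nat.lt_succ_self p
    · exact ⟨h2, h3, by omega⟩

section

variable {A B C : Type} [Fintype A] [Fintype B] [Fintype C] [DecidableEq A] [DecidableEq B]
  [DecidableEq C]

private theorem E4_c2 (T : A → B → C → ℝ) (F : B → C → ℝ) (a : A) (R : ℝ) (u : A → ℂ) (w : C → ℂ) :
    c2 (Function.update T a fun b c => R * F b c) u w =
      c2 T (Function.update u a 0) w + ((R : ℂ) * u a) • bfB F w := by
  funext b
  rw [Pi.add_apply, Pi.smul_apply, smul_eq_mul]
  unfold c2 bfB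
  rw [← Finset.add_sum_erase _ _ (Finset.mem_univ a),
    ← Finset.add_sum_erase (f := fun a' => ∑ c, (T a' b c : ℂ) * (Function.update u a 0 a' * w c))
      _ (Finset.mem_univ a)]
  have h1 : ∑ x ∈ Finset.univ.erase a, ∑ c,
      ((Function.update T a (fun b c => R * F b c) x b c : ℝ) : ℂ) * (u x * w c) =
      ∑ x ∈ Finset.univ.erase a, ∑ c, (T x b c : ℂ) * (Function.update u a 0 x * w c) := by
    refine Finset.sum_congr rfl fun x hx => Finset.sum_congr rfl fun c _ => ?_
    have hne := Finset.ne_of_mem_erase hx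
    rw [Function.update_of_ne hne, Function.update_of_ne hne]
  rw [h1, Function.update_self, Function.update_self]
  have h2 : ∑ c, (T a b c : ℂ) * (0 * w c) = 0 :=
    Finset.sum_eq_zero fun c _ => by rw [zero_mul, mul_zero]
  rw [h2, zero_add, add_comm, Finset.mul_sum]
  congr 1
  refine Finset.sum_congr rfl fun c _ => ?_
  push_cast
  ring

private theorem E4_c3 (T : A → B → C → ℝ) (F : B → C → ℝ) (a : A) (R : ℝ) (u : A → ℂ) (v : B → ℂ) :
    c3 (Function.update T a fun b c => R * F b c) u v =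
      c3 T (Function.update u a 0) v + ((R : ℂ) * u a) • bfC F v := by
  funext c
  rw [Pi.add_apply, Pi.smul_apply, smul_eq_mul]
  unfold c3 bfC
  rw [← Finset.add_sum_erase _ _ (Finset.mem_univ a),
    ← Finset.add_sum_erase (f := fun a' => ∑ b, (T a' b c : ℂ) * (Function.update u a 0 a' * v b))
      _ (Finset.mem_univ a)]
  have h1 : ∑ x ∈ Finset.univ.erase a, ∑ b,
      ((Function.update T a (fun b c => R * F b c) x b c : ℝ) : ℂ) * (u x * v b) =
      ∑ x ∈ Finset.univ.erase a, ∑ b, (T x b c : ℂ) * (Function.update u a 0 x * v b) := by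
    refine Finset.sum_congr rfl fun x hx => Finset.sum_congr rfl fun b _ => ?_
    have hne := Finset.ne_of_mem_erase hx
    rw [Function.update_of_ne hne, Function.update_of_ne hne]
  rw [h1, Function.update_self, Function.update_self]
  have h2 : ∑ b, (T a b c : ℂ) * (0 * v b) = 0 :=
    Finset.sum_eq_zero fun b _ => by rw [zero_mul, mul_zero]
  rw [h2, zero_add, add_comm, Finset.mul_sum]
  congr 1
  refine Finset.sum_congr rfl fun b _ => ?_
  push_cast
  ring

private theorem E4_c1 (T : A → B → C → ℝ) (K : B → C → ℝ) {a a' : A} (h : a' ≠ a) (v : B → ℂ)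
    (w : C → ℂ) : c1 (Function.update T a K) v w a' = c1 T v w a' := by
  unfold c1
  rw [Function.update_of_ne h]

private theorem E4_lim_c2 (T : A → B → C → ℝ) {u : ℕ → A → ℂ} {w : ℕ → C → ℂ} {u0 : A → ℂ}
    {w0 : C → ℂ} (hu : Tendsto u uf (𝓝 u0)) (hw : Tendsto w uf (𝓝 w0)) :
    Tendsto (fun n => c2 T (u n) (w n)) uf (𝓝 (c2 T u0 w0)) :=
  tendsto_pi_nhds.2 fun b => MPb0eR.lim_c2 hu hw b

private theorem E4_lim_c3 (T : A → B → C → ℝ) {u : ℕ → A → ℂ} {v : ℕ → B → ℂ} {u0 : A → ℂ}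
    {v0 : B → ℂ} (hu : Tendsto u uf (𝓝 u0)) (hv : Tendsto v uf (𝓝 v0)) :
    Tendsto (fun n => c3 T (u n) (v n)) uf (𝓝 (c3 T u0 v0)) :=
  tendsto_pi_nhds.2 fun c => MPb0eR.lim_c3 hu hv c

omit [Fintype B] [DecidableEq A] [DecidableEq B] [DecidableEq C] [Fintype A] in
private theorem E4_lim_bfB (F : B → C → ℝ) {w : ℕ → C → ℂ} {w0 : C → ℂ}
    (hw : Tendsto w uf (𝓝 w0)) : Tendsto (fun n => bfB F (w n)) uf (𝓝 (bfB F w0)) :=
  tendsto_pi_nhds.2 fun b => tendsto_finset_sum _ fun c _ =>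
    (tendsto_pi_nhds.1 hw c).const_mul _

omit [Fintype C] [DecidableEq A] [DecidableEq B] [DecidableEq C] [Fintype A] in
private theorem E4_lim_bfC (F : B → C → ℝ) {v : ℕ → B → ℂ} {v0 : B → ℂ}
    (hv : Tendsto v uf (𝓝 v0)) : Tendsto (fun n => bfC F (v n)) uf (𝓝 (bfC F v0)) :=
  tendsto_pi_nhds.2 fun c => tendsto_finset_sum _ fun b _ =>
    (tendsto_pi_nhds.1 hv b).const_mul _

omit [Fintype C] [Fintype A] [DecidableEq A] [DecidableEq B] [DecidableEq C] in
private theorem E4_lim_dt {g : ℕ → B → ℂ} {g0 : B → ℂ} (h : Tendsto g uf (𝓝 g0)) (z : B → ℂ) :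
    Tendsto (fun n => dt (g n) z) uf (𝓝 (dt g0 z)) :=
  tendsto_finset_sum _ fun b _ => (tendsto_pi_nhds.1 h b).mul_const _

end

/-- The eventual claim for sequences. -/
private theorem E4_seq (hP : GoodP P N) (h1 : 1 ≤ p) (hp : p ≤ N) {F : Fin (n2 + 1) →
    Fin (n3 + 1) → ℝ} {x y : Fin 3} {i j : ℕ → ℕ} (hM : Msk full x y) (hi : Adm (p + 1) N i)
    (hj : Adm (p + 1) N j)
    (hE2 : ∀ u v w α β γ r, CX T F (SR N full p) (Xo P n2 x i) (Xo P n3 y j) u v w α β γ r →
      u ≠ 0 → v ≠ 0 → w ≠ 0 →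
      OkC T F (SR N full p) (Xo P n2 x i) (Xo P n3 y j) u v w α β γ r ∧
      (Rea u → Rea v → Rea w → r.im = 0 → Ob P n2 n3 full x y i j v w
        (c2 T u w + r • bfB F w - β • v) (c3 T u v + r • bfC F v - γ • w) (α * q u)
        (c1 T v w 0)))
    (hE3 : ∀ v w β γ, SP F (Xo P n2 x i) (Xo P n3 y j) v w β γ → v ≠ 0 → w ≠ 0 →
      OkP F (Xo P n2 x i) (Xo P n3 y j) v w β γ ∧
      (Rea v → Rea w → Ob P n2 n3 full x y i j v w (bfB F w - β • v) (bfC F v - γ • w)
        (bf F v w) (c1 T v w 0)))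
    {R : ℕ → ℝ} (hR : Tendsto R uf atTop) (hRp : ∀ n, 0 < R n) {ia : Fin (N + 1)}
    {ib : Fin (n2 + 1)} {ic : Fin (n3 + 1)} {u : ℕ → Fin (N + 1) → ℂ} {v : ℕ → Fin (n2 + 1) → ℂ}
    {w : ℕ → Fin (n3 + 1) → ℂ} {α β γ : ℕ → ℂ}
    (ht : ∀ n, TX (Function.update T (Fin.ofNat (N + 1) p) (fun b c => R n * F b c))
      (insert (Fin.ofNat (N + 1) p) (SR N full p)) (Xo P n2 x i) (Xo P n3 y j) (u n) (v n) (w n)
      (α n) (β n) (γ n))
    (nu : ∀ n, Nrm (u n) ia) (nv : ∀ n, Nrm (v n) ib) (nw : ∀ n, Nrm (w n) ic) :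
    ∀ᶠ n in uf, OkX (Function.update T (Fin.ofNat (N + 1) p) (fun b c => R n * F b c))
      (insert (Fin.ofNat (N + 1) p) (SR N full p)) (Xo P n2 x i) (Xo P n3 y j) (u n) (v n) (w n)
      (α n) (β n) (γ n) ∧
      Ob P n2 n3 full x y i j (v n) (w n)
        (c2 (Function.update T (Fin.ofNat (N + 1) p) (fun b c => R n * F b c)) (u n) (w n)
          - β n • v n)
        (c3 (Function.update T (Fin.ofNat (N + 1) p) (fun b c => R n * F b c)) (u n) (v n)
          - γ n • w n) (α n * q (u n))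
        (c1 (Function.update T (Fin.ofNat (N + 1) p) (fun b c => R n * F b c)) (v n) (w n) 0) := by
  classical
  set a : Fin (N + 1) := Fin.ofNat (N + 1) p with hadef
  have ha : a ∉ SR N full p := E4_notMem full hp
  have ha0 : (0 : Fin (N + 1)) ≠ a := (E4_ne h1 hp).symm
  have cX := Xo_cj P n2 x i
  have cY := Xo_cj P n3 y j
  have hip : i p = 0 := by
    by_contra h
    have := (hi p h).1
    omega
  have hjp : j p = 0 := by
    by_contra h
    have := (hj p h).1
    omega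
  have hi0 : at' i p 0 = i := by
    rw [at', ← hip, Function.update_eq_self]
  have hj0 : at' j p 0 = j := by
    rw [at', ← hjp, Function.update_eq_self]
  have bB : Xo P n2 x (at' i p 0) ≠ ⊥ := by
    rw [hi0]
    intro h
    have h2 := (ht 0).sv
    rw [h, Submodule.mem_bot] at h2
    exact (nv 0).ne h2
  have bC : Xo P n3 y (at' j p 0) ≠ ⊥ := by
    rw [hj0]
    intro h
    have h2 := (ht 0).sw
    rw [h, Submodule.mem_bot] at h2
    exact (nw 0).ne h2
  have vB : ∀ n, ∀ z ∈ Xo P n2 x i,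
      dt (c2 (Function.update T a (fun b c => R n * F b c)) (u n) (w n) - β n • v n) z = 0 := by
    intro n z hz
    have h2 := (ht n).e2 z hz
    have h3 : dt (c2 (Function.update T a (fun b c => R n * F b c)) (u n) (w n) - β n • v n) z =
        dt (c2 (Function.update T a (fun b c => R n * F b c)) (u n) (w n)) z
          + (-1 : ℂ) * (β n * dt (v n) z) := by
      rw [sub_eq_add_neg, dt_add_left, ← neg_one_smul ℂ (β n • v n), dt_smul_left, dt_smul_left]
    rw [h3, h2]
    ring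
  have vC : ∀ n, ∀ z ∈ Xo P n3 y j,
      dt (c3 (Function.update T a (fun b c => R n * F b c)) (u n) (v n) - γ n • w n) z = 0 := by
    intro n z hz
    have h2 := (ht n).e3 z hz
    have h3 : dt (c3 (Function.update T a (fun b c => R n * F b c)) (u n) (v n) - γ n • w n) z =
        dt (c3 (Function.update T a (fun b c => R n * F b c)) (u n) (v n)) z
          + (-1 : ℂ) * (γ n * dt (w n) z) := by
      rw [sub_eq_add_neg, dt_add_left, ← neg_one_smul ℂ (γ n • w n), dt_smul_left, dt_smul_left]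
    rw [h3, h2]
    ring
  have hG : ∀ n, c1 (Function.update T a (fun b c => R n * F b c)) (v n) (w n) 0 =
      c1 T (v n) (w n) 0 := fun n => E4_c1 T _ ha0 _ _
  have hRi : Tendsto (fun n => ((R n : ℂ))⁻¹) uf (𝓝 0) := by
    have h2 := (Complex.continuous_ofReal.tendsto (0 : ℝ)).comp (tendsto_inv_atTop_zero.comp hR)
    rw [Complex.ofReal_zero] at h2
    refine h2.congr fun n => ?_
    simp
  have hRne : ∀ n, (R n : ℂ) ≠ 0 := fun n => Complex.ofReal_ne_zero.2 (hRp n).ne'
  rcases rr_lim ha cX cY (fun v w β γ hs hv hw => (hE3 v w β γ hs hv hw).1) hR hRp ht nu nv nw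
    with ⟨hia, v0, w0, α0, β0, γ0, lu, lv, lw, lα, lβ, lγ, e0, hs, ho⟩ |
      ⟨hia, u0, v0, w0, α0, β0, γ0, r0, lu, hu0, lv, lw, lα, lβ, lγ, lr, hs⟩
  · -- case 1
    have nu' : ∀ n, Nrm (u n) a := fun n => hia ▸ nu n
    have hok := rr_ok1 ha cX cY hR hRp ht nu' nv nw lu lv lw lα lβ lγ e0 hs ho
    have nv0 := MPb0eR.Nrm.lim nv lv
    have nw0 := MPb0eR.Nrm.lim nw lw
    have hOb := (hE3 v0 w0 β0 γ0 hs nv0.ne nw0.ne).2 (rea_of_rl ho.rv nv0.1)
      (rea_of_rl ho.rw' nw0.1)
    have lua : Tendsto (fun n => Function.update (u n) a 0) uf (𝓝 0) := by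
      have h2 := lu.update a (tendsto_const_nhds (x := (0 : ℂ)))
      have h3 : Function.update (Pi.single a (1 : ℂ)) a 0 = (0 : Fin (N + 1) → ℂ) := by
        funext k
        by_cases hk : k = a
        · rw [hk, Function.update_self]; rfl
        · rw [Function.update_of_ne hk, Pi.single_eq_of_ne hk]; rfl
      rwa [h3] at h2
    have hua : ∀ n, u n a = 1 := fun n => (nu' n).1
    have lB : Tendsto (fun n => ((R n : ℂ))⁻¹ •
        (c2 (Function.update T a (fun b c => R n * F b c)) (u n) (w n) - β n • v n)) uf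
        (𝓝 (bfB F w0 - β0 • v0)) := by
      have h2 := ((hRi.smul (E4_lim_c2 T lua lw)).add (E4_lim_bfB F lw)).sub (lβ.smul lv)
      rw [zero_smul, zero_add] at h2
      refine h2.congr fun n => ?_
      rw [E4_c2, hua n, mul_one, smul_sub, smul_add, smul_smul, smul_smul,
        inv_mul_cancel₀ (hRne n), one_smul, div_eq_inv_mul]
    have lC : Tendsto (fun n => ((R n : ℂ))⁻¹ •
        (c3 (Function.update T a (fun b c => R n * F b c)) (u n) (v n) - γ n • w n)) uf
        (𝓝 (bfC F v0 - γ0 • w0)) := by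
      have h2 := ((hRi.smul (E4_lim_c3 T lua lv)).add (E4_lim_bfC F lv)).sub (lγ.smul lw)
      rw [zero_smul, zero_add] at h2
      refine h2.congr fun n => ?_
      rw [E4_c3, hua n, mul_one, smul_sub, smul_add, smul_smul, smul_smul,
        inv_mul_cancel₀ (hRne n), one_smul, div_eq_inv_mul]
    have lσ : Tendsto (fun n => ((R n : ℂ))⁻¹ * (α n * q (u n))) uf (𝓝 (bf F v0 w0)) := by
      have h2 := lα.mul (MPb0eR.lim_q lu)
      have h3 : q (Pi.single a (1 : ℂ)) = 1 := by
        unfold q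
        rw [Finset.sum_eq_single a]
        · rw [Pi.single_eq_same, one_pow]
        · intro k _ hk
          rw [Pi.single_eq_of_ne hk]
          ring
        · intro h4
          exact absurd (Finset.mem_univ a) h4
      rw [h3, mul_one, e0] at h2
      refine h2.congr fun n => ?_
      rw [div_eq_inv_mul, mul_assoc]
    have hOb' := hOb
    rw [← hi0, ← hj0] at hOb'
    have hob := ob_lim hP hi hj hp bB bC (v := v) (w := w)
      (gB := fun n => ((R n : ℂ))⁻¹ •
        (c2 (Function.update T a (fun b c => R n * F b c)) (u n) (w n) - β n • v n))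
      (gC := fun n => ((R n : ℂ))⁻¹ •
        (c3 (Function.update T a (fun b c => R n * F b c)) (u n) (v n) - γ n • w n))
      (fun n z hz => by rw [dt_smul_left, vB n z hz, mul_zero])
      (fun n z hz => by rw [dt_smul_left, vC n z hz, mul_zero]) lv lw lσ
      (MPb0eR.lim_c1 lv lw 0) (fun z _ => E4_lim_dt lB z) (fun z _ => E4_lim_dt lC z) hOb'
    filter_upwards [hok, hob] with n h2 h3
    refine ⟨h2, ?_⟩
    have h4 := Ob.scale (hRp n) h3
    rw [smul_smul, smul_smul, mul_inv_cancel₀ (hRne n), one_smul, one_smul, ← mul_assoc,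
      mul_inv_cancel₀ (hRne n), one_mul] at h4
    rw [hG n]
    exact h4
  · -- case 2
    have nu0 := MPb0eR.Nrm.lim nu lu
    have nv0 := MPb0eR.Nrm.lim nv lv
    have nw0 := MPb0eR.Nrm.lim nw lw
    obtain ⟨hokc, hObc⟩ := hE2 u0 v0 w0 α0 β0 γ0 r0 hs nu0.ne nv0.ne nw0.ne
    have hok := rr_ok2 ha cX cY hR hRp ht hia nu nv nw lu lv lw lα lβ lγ lr hs hokc
    obtain ⟨a1, b1, c1', ha1, hb1, hc1, hra, hrb, hrc, hr⟩ := hokc.re
    have key : ∀ {D : Type} {z : D → ℂ} {s : ℂ} {k : D}, s ≠ 0 → Rea (s • z) → z k = 1 →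
        s.im = 0 ∧ Rea z := by
      intro D z s k hs0 hrs hz
      have h2 := hrs k
      rw [Pi.smul_apply, hz, smul_eq_mul, mul_one] at h2
      refine ⟨h2, fun d => ?_⟩
      have h3 := hrs d
      rw [Pi.smul_apply, smul_eq_mul, Complex.mul_im, h2, zero_mul, add_zero] at h3
      have h4 : s.re ≠ 0 := by
        intro h5
        exact hs0 (Complex.ext h5 h2)
      exact (mul_eq_zero.1 h3).resolve_left h4
    have hu' := key ha1 hra nu0.1
    have hv' := key hb1 hrb nv0.1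
    have hw' := key hc1 hrc nw0.1
    have hr0 : r0.im = 0 := by
      rw [Complex.mul_im, hu'.1, zero_mul, add_zero] at hr
      have h4 : a1.re ≠ 0 := by
        intro h5
        exact ha1 (Complex.ext h5 hu'.1)
      exact (mul_eq_zero.1 hr).resolve_left h4
    have hOb := hObc hu'.2 hv'.2 hw'.2 hr0
    have lua : Tendsto (fun n => Function.update (u n) a 0) uf (𝓝 u0) := by
      have h2 := lu.update a (tendsto_const_nhds (x := (0 : ℂ)))
      have h3 : Function.update u0 a 0 = u0 := by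
        rw [← hu0, Function.update_eq_self]
      rwa [h3] at h2
    have lB : Tendsto (fun n =>
        c2 (Function.update T a (fun b c => R n * F b c)) (u n) (w n) - β n • v n) uf
        (𝓝 (c2 T u0 w0 + r0 • bfB F w0 - β0 • v0)) := by
      have h2 := ((E4_lim_c2 T lua lw).add (lr.smul (E4_lim_bfB F lw))).sub (lβ.smul lv)
      refine h2.congr fun n => ?_
      rw [E4_c2]
    have lC : Tendsto (fun n =>
        c3 (Function.update T a (fun b c => R n * F b c)) (u n) (v n) - γ n • w n) uf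
        (𝓝 (c3 T u0 v0 + r0 • bfC F v0 - γ0 • w0)) := by
      have h2 := ((E4_lim_c3 T lua lv).add (lr.smul (E4_lim_bfC F lv))).sub (lγ.smul lw)
      refine h2.congr fun n => ?_
      rw [E4_c3]
    have hOb' := hOb
    rw [← hi0, ← hj0] at hOb'
    have hob := ob_lim hP hi hj hp bB bC (v := v) (w := w)
      (gB := fun n => c2 (Function.update T a (fun b c => R n * F b c)) (u n) (w n) - β n • v n)
      (gC := fun n => c3 (Function.update T a (fun b c => R n * F b c)) (u n) (v n) - γ n • w n)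
      vB vC lv lw (lα.mul (MPb0eR.lim_q lu)) (MPb0eR.lim_c1 lv lw 0)
      (fun z _ => E4_lim_dt lB z) (fun z _ => E4_lim_dt lC z) hOb'
    filter_upwards [hok, hob] with n h2 h3
    refine ⟨h2, ?_⟩
    rw [hG n]
    exact h3

/-- Orders as elements of a finite type. -/
private def E4_to (N m : ℕ) (k : Fin (N + 1) → Fin (m + 1)) : ℕ → ℕ := fun q =>
  if h : q < N + 1 then (k ⟨q, h⟩ : ℕ) else 0

private theorem E4_from {m : ℕ} {x : Fin 3} {i : ℕ → ℕ} (hP : GoodP P N)
    (hi : Adm (p + 1) N i) (hne : Xo P m x i ≠ ⊥) : ∃ k : Fin (N + 1) → Fin (m + 1),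
    E4_to N m k = i := by
  have hz : ∀ q, N < q → i q = 0 := by
    intro q hq
    by_contra h
    have := (hi q h).2
    omega
  have hd : dg N x i ≤ m := by
    by_contra h
    exact hne (Xo_bot hP m x hz (not_le.1 h))
  have hb : ∀ q, q < N + 1 → i q < m + 1 := by
    intro q hq
    have h1 : i q ≤ ∑ q' ∈ Finset.range (N + 1), i q' :=
      Finset.single_le_sum (fun _ _ => Nat.zero_le _) (Finset.mem_range.2 hq)
    unfold dg at hd
    omega
  refine ⟨fun q => ⟨i q, hb q q.2⟩, ?_⟩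
  funext q
  unfold E4_to
  by_cases h : q < N + 1
  · rw [dif_pos h]
  · rw [dif_neg h]
    exact (hz q (by omega)).symm

/-- The step: for small `δ` and then large `R` the row `p` can be added.

Proof. Fix `δ` from `e2_all` and `e3_all`, `F = row P n2 n3 (P.g p) 1 (-δ)`, so
`row ... R (-δ) = R F`. Suppose that there is no bound for `R`: sequences `R n → ∞`, constant masks
and
orders, normalised tuples of `SR N full (p + 1) = insert p (SR N full p)` (`update` does not change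
the
other rows, in particular not row `0`) which violate `OkX` or the sign conditions. `rr_lim`: case 1,
`rr_ok1`; the sign conditions: `gB / R → F (., w0) - β0 v0`, `σ / R → bf F v0 w0`, `ob_lim` with `k
= k' = 0`
(`at' i p 0 = i`) and `Ob.scale`. Case 2, `rr_ok2`; the sign conditions: `gB → c2 T u0 w0 + r0 F
(., w0) -
β0 v0`, `σ → α0 q u0`; `ob_lim` with `k = k' = 0`. In case 2, if `SR N full p = ∅`, there is no such
limit (`ia ∈ SA`). -/
theorem e4_step (hP : GoodP P N) (h1 : 1 ≤ p) (hp : p ≤ N) (h2 : BFs P N n2) (h3 : BFs P N n3)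
    (hG : BG P T) (hE : PE P T full p) :
    ∀ᶠ δ in 𝓝[>] (0 : ℝ), ∀ᶠ R in atTop,
      PE P (Function.update T (Fin.ofNat (N + 1) p) (row P n2 n3 (P.g p) R (-δ))) full (p + 1) := by
  classical
  filter_upwards [e2_all hP h1 hp hE, e3_all hP h1 hp h2 h3 hG] with δ hE2 hE3
  set F := row P n2 n3 (P.g p) 1 (-δ) with hF
  by_contra hcon
  -- normalised violations for arbitrarily large `R`
  let Q : (Fin 3 × Fin 3) × ((Fin (N + 1) → Fin (n2 + 1)) × (Fin (N + 1) → Fin (n3 + 1))) ×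
      (Fin (N + 1) × Fin (n2 + 1) × Fin (n3 + 1)) → ℕ → Prop := fun κ n =>
    Msk full κ.1.1 κ.1.2 ∧ Adm (p + 1) N (E4_to N n2 κ.2.1.1) ∧
    Adm (p + 1) N (E4_to N n3 κ.2.1.2) ∧ ∃ (R : ℝ) (u : Fin (N + 1) → ℂ)
      (v : Fin (n2 + 1) → ℂ) (w : Fin (n3 + 1) → ℂ) (α β γ : ℂ), (n : ℝ) + 1 ≤ R ∧
      TX (Function.update T (Fin.ofNat (N + 1) p) (fun b c => R * F b c))
        (insert (Fin.ofNat (N + 1) p) (SR N full p)) (Xo P n2 κ.1.1 (E4_to N n2 κ.2.1.1))
        (Xo P n3 κ.1.2 (E4_to N n3 κ.2.1.2)) u v w α β γ ∧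
      Nrm u κ.2.2.1 ∧ Nrm v κ.2.2.2.1 ∧ Nrm w κ.2.2.2.2 ∧
      ¬ (OkX (Function.update T (Fin.ofNat (N + 1) p) (fun b c => R * F b c))
        (insert (Fin.ofNat (N + 1) p) (SR N full p)) (Xo P n2 κ.1.1 (E4_to N n2 κ.2.1.1))
        (Xo P n3 κ.1.2 (E4_to N n3 κ.2.1.2)) u v w α β γ ∧
        Ob P n2 n3 full κ.1.1 κ.1.2 (E4_to N n2 κ.2.1.1) (E4_to N n3 κ.2.1.2) v w
          (c2 (Function.update T (Fin.ofNat (N + 1) p) (fun b c => R * F b c)) u w - β • v)
          (c3 (Function.update T (Fin.ofNat (N + 1) p) (fun b c => R * F b c)) u v - γ • w)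
          (α * q u)
          (c1 (Function.update T (Fin.ofNat (N + 1) p) (fun b c => R * F b c)) v w 0))
  have hQ : ∀ n, ∃ κ, Q κ n := by
    intro n
    have hfr : ∃ R : ℝ, (n : ℝ) + 1 ≤ R ∧ ¬ PE P (Function.update T (Fin.ofNat (N + 1) p)
        (row P n2 n3 (P.g p) R (-δ))) full (p + 1) := by
      by_contra hno
      push Not at hno
      exact hcon (eventually_atTop.2 ⟨(n : ℝ) + 1, fun R hR => hno R hR⟩)
    obtain ⟨R, hR, hnP⟩ := hfr
    unfold PE at hnP
    push Not at hnP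
    obtain ⟨x, y, i, j, hM, hi, hj, u, v, w, α, β, γ, ht, hu, hv, hw, hno⟩ := hnP
    rw [E4_row P n2 n3 (P.g p) R (-δ), ← hF, E4_SR full h1 hp] at ht hno
    obtain ⟨k, hk⟩ := E4_from hP hi (m := n2) (x := x) (by
      intro h
      have h4 := ht.sv
      rw [h, Submodule.mem_bot] at h4
      exact hv h4)
    obtain ⟨k', hk'⟩ := E4_from hP hj (m := n3) (x := y) (by
      intro h
      have h4 := ht.sw
      rw [h, Submodule.mem_bot] at h4
      exact hw h4)
    obtain ⟨a, ia, ha, na⟩ := MPb0eR.exists_nrm hu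
    obtain ⟨b, ib, hb, nb⟩ := MPb0eR.exists_nrm hv
    obtain ⟨c, ic, hc, nc⟩ := MPb0eR.exists_nrm hw
    refine ⟨((x, y), (k, k'), (ia, ib, ic)), hM, ?_, ?_, R, a • u, b • v, c • w,
      b * c * a⁻¹ * α, a * c * b⁻¹ * β, a * b * c⁻¹ * γ, hR, ?_, na, nb, nc, ?_⟩
    · change Adm (p + 1) N (E4_to N n2 k)
      rw [hk]
      exact hi
    · change Adm (p + 1) N (E4_to N n3 k')
      rw [hk']
      exact hj
    · change TX _ _ (Xo P n2 x (E4_to N n2 k)) (Xo P n3 y (E4_to N n3 k')) _ _ _ _ _ _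
      rw [hk, hk']
      exact ht.smul ha hb hc
    · change ¬ (OkX _ _ (Xo P n2 x (E4_to N n2 k)) (Xo P n3 y (E4_to N n3 k')) _ _ _ _ _ _ ∧
        Ob P n2 n3 full x y (E4_to N n2 k) (E4_to N n3 k') _ _ _ _ _ _)
      rw [hk, hk']
      rintro ⟨h4, h5⟩
      obtain ⟨hru, hrv, hrw, h6⟩ := hno (OkX.of_smul ha hb hc h4)
      apply h6
      -- the scalars are real
      have hreal : ∀ {m : ℕ} {s : ℂ} {z : Fin m → ℂ} {d : Fin m}, s ≠ 0 → Rea z →
          (s • z) d = 1 → ∃ s' : ℝ, s' ≠ 0 ∧ s = (s' : ℂ) := by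
        intro m s z d hs hz h7
        rw [Pi.smul_apply, smul_eq_mul] at h7
        have h8 : z d = ((z d).re : ℂ) := Complex.ext rfl (by rw [hz d, Complex.ofReal_im])
        have h9 : z d ≠ 0 := right_ne_zero_of_mul (h7.trans_ne one_ne_zero)
        have h10 : s = (((z d).re⁻¹ : ℝ) : ℂ) := by
          rw [Complex.ofReal_inv, ← h8]
          exact eq_inv_of_mul_eq_one_left h7
        refine ⟨(z d).re⁻¹, ?_, h10⟩
        intro h11
        rw [h11, Complex.ofReal_zero] at h10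
        exact hs h10
      obtain ⟨a', ha', rfl⟩ := hreal ha hru na.1
      obtain ⟨b', hb', rfl⟩ := hreal hb hrv nb.1
      obtain ⟨c', hc', rfl⟩ := hreal hc hrw nc.1
      refine E4_ob ha' hb' hc' ?_
      have hca : (a' : ℂ) ≠ 0 := ha
      have hcb : (b' : ℂ) ≠ 0 := hb
      have hcc : (c' : ℂ) ≠ 0 := hc
      convert h5 using 1
      · funext k
        rw [Pi.smul_apply, Pi.sub_apply, Pi.sub_apply, MPb0eR.c2_smul_left,
          MPb0eR.c2_smul_right, Pi.smul_apply, Pi.smul_apply, Pi.smul_apply, smul_eq_mul,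
          smul_eq_mul, smul_eq_mul, smul_eq_mul]
        push_cast
        field_simp
      · funext k
        rw [Pi.smul_apply, Pi.sub_apply, Pi.sub_apply, MPb0eR.c3_smul_left,
          MPb0eR.c3_smul_right, Pi.smul_apply, Pi.smul_apply, Pi.smul_apply, smul_eq_mul,
          smul_eq_mul, smul_eq_mul, smul_eq_mul]
        push_cast
        field_simp
      · have h7 : q ((a' : ℂ) • u) = (a' : ℂ) ^ 2 * q u := by
          unfold q
          rw [Finset.mul_sum]
          refine Finset.sum_congr rfl fun k _ => ?_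
          rw [Pi.smul_apply, smul_eq_mul]
          ring
        rw [h7]
        push_cast
        field_simp
      · rw [MPb0eR.c1_smul_left, MPb0eR.c1_smul_right]
        push_cast
        ring
  -- constant data
  obtain ⟨κ, hκ⟩ : ∃ κ, ∀ n, Q κ n := by
    by_contra hno
    push Not at hno
    choose m hm using hno
    obtain ⟨κ, hκ⟩ := hQ (Finset.univ.sup m)
    apply hm κ
    obtain ⟨g1, g2, g3, R, u, v, w, α, β, γ, g4, g5⟩ := hκ
    refine ⟨g1, g2, g3, R, u, v, w, α, β, γ, ?_, g5⟩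
    have g6 : m κ ≤ Finset.univ.sup m := Finset.le_sup (f := m) (Finset.mem_univ κ)
    have g7 : (m κ : ℝ) ≤ ((Finset.univ.sup m : ℕ) : ℝ) := by exact_mod_cast g6
    linarith
  have hM := (hκ 0).1
  have hi := (hκ 0).2.1
  have hj := (hκ 0).2.2.1
  have hκ' := fun n => (hκ n).2.2.2
  choose R u v w α β γ hR ht nu nv nw hno using hκ'
  have hlim : Tendsto R uf atTop := by
    refine tendsto_atTop_mono (fun n => ?_) MPb0eR.uf_atTop
    have := hR n
    linarith
  have hpos : ∀ n, 0 < R n := by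
    intro n
    have h4 := hR n
    have h5 : (0 : ℝ) ≤ n := Nat.cast_nonneg n
    linarith
  have hfin := E4_seq hP h1 hp hM hi hj (hE2 _ _ _ _ hM hi hj) (hE3 _ _ _ _ hM hi hj) hlim hpos
    ht nu nv nw
  obtain ⟨n, hn⟩ := hfin.exists
  exact hno n hn

end

end Pool.Agent.MPb0eK
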