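import Mathlib
import Pool.Agent.Lib.MP_b0e20b_ag_K.P2

/-!
# MP_b0e20b_ag, project K: the family of parameters, scaled polynomials
-/

set_option autoImplicit false

open scoped BigOperators Topology
open Filter

namespace Pool.Agent.MPb0eK

open MPb0eR (c1 c2 c3 tr q Sup Rl Rea uf Nrm cj AF scl)

section

/-- The family of parameters: nodes `Λ` (row `0`), `2 Λ` (`gh`), `(p + 2) Λ` (row `p ≥ 1`). -/
noncomputable def PL (K : ℕ) (L : ℝ) : Par where
  ρ := (L ^ (K + 2))⁻¹
  ξ := (L ^ (K + 1))⁻¹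
  gh := 2 * L
  g := fun p => if p = 0 then L else (p + 2 : ℝ) * L

theorem PL_good (K N : ℕ) {L : ℝ} (hL : 0 < L) : GoodP (PL K L) N := by
  constructor
  · simp only [PL]; positivity
  · simp only [PL]; positivity
  · simp only [PL, if_true]; exact hL
  · simp only [PL, if_true]; linarith
  · simp only [PL]
    rw [if_neg (by norm_num)]
    push_cast
    linarith
  · intro p hp
    simp only [PL]
    rw [if_neg (by omega), if_neg (by omega)]
    push_cast
    nlinarith

/-- The polynomial in the scaled variable. -/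
noncomputable def hat (K n : ℕ) (L : ℝ) (v : Fin (n + 1) → ℂ) : Polynomial ℂ :=
  (pol (PL K L) n v).comp (Polynomial.C (L : ℂ) * Polynomial.X)

/-- The scaled nodes. -/
def nh (p : ℕ) : ℝ := if p = 0 then 1 else p + 2

/-- The scaled node product with the constant term normalised: `∏ (1 - s / node)` and a power of
`s`:
`s ^ k (1 - s / 2) ^ [x = 2] ∏ p ≤ N, (1 - s / nh p) ^ i p`. -/
noncomputable def Om (N : ℕ) (x : Fin 3) (i : ℕ → ℕ) (k : ℕ) : Polynomial ℂ :=
  Polynomial.X ^ k * (if x = 2 then 1 - Polynomial.C (1 / 2) * Polynomial.X else 1)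
    * ∏ p ∈ Finset.range (N + 1), (1 - Polynomial.C ((nh p : ℂ)⁻¹) * Polynomial.X) ^ i p

private theorem P4_coeff (P : Par) (n : ℕ) (v : Fin (n + 1) → ℂ) :
    (pol P n v).coeff 0 = v 0 * P.ρ ∧
    ∀ j : Fin (n + 1), (j : ℕ) ≠ 0 → (pol P n v).coeff j = v j + P.ξ * P.gh ^ (j : ℕ) * v 0 := by
  constructor
  · simp only [pol, Polynomial.coeff_add, Polynomial.finset_sum_coeff, Polynomial.coeff_C_zero]
    rw [Finset.sum_eq_zero, add_zero]
    intro j hj
    have h1 : 1 ≤ j := (Finset.mem_Icc.mp hj).1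
    rw [Polynomial.coeff_C_mul, Polynomial.coeff_X_pow, if_neg (by omega), mul_zero]
  · intro j hj
    have hjn : (j : ℕ) < n + 1 := j.isLt
    simp only [pol, Polynomial.coeff_add, Polynomial.finset_sum_coeff]
    rw [Polynomial.coeff_C_ne_zero hj, zero_add, Finset.sum_eq_single (j : ℕ)]
    · rw [Polynomial.coeff_C_mul, Polynomial.coeff_X_pow, if_pos rfl, mul_one, dif_pos hjn]
    · intro k _ hk
      rw [Polynomial.coeff_C_mul, Polynomial.coeff_X_pow, if_neg (fun h => hk h.symm), mul_zero]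
    · intro h
      exact absurd (Finset.mem_Icc.mpr ⟨Nat.one_le_iff_ne_zero.mpr hj, by omega⟩) h

private theorem P4_hat (K n : ℕ) (L : ℝ) (v : Fin (n + 1) → ℂ) (k : ℕ) :
    (hat K n L v).coeff k = (pol (PL K L) n v).coeff k * (L : ℂ) ^ k := by
  rw [hat, Polynomial.comp_C_mul_X_coeff]

private theorem P4_L {L : ℝ} (hL : 0 < L) : (L : ℂ) ≠ 0 := by exact_mod_cast hL.ne'

private theorem P4_g (K p : ℕ) (L : ℝ) : (PL K L).g p = nh p * L := by
  simp only [PL, nh]
  split_ifs <;> ring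

private theorem P4_nh (p : ℕ) : nh p ≠ 0 := by
  simp only [nh]
  split_ifs
  · norm_num
  · positivity

/-- Coordinates of a vector in terms of the scaled polynomial: `v 0 = ρ⁻¹ V_0` and
`v j = L ^ (-j) V_j - ξ (2 L) ^ j v 0`. -/
theorem hat_coord (K n : ℕ) {L : ℝ} (hL : 0 < L) (v : Fin (n + 1) → ℂ) :
    v 0 = (L : ℂ) ^ (K + 2) * (hat K n L v).coeff 0 ∧
    ∀ j : Fin (n + 1), (j : ℕ) ≠ 0 → v j = ((L : ℂ) ^ (j : ℕ))⁻¹ * (hat K n L v).coeff j
      - ((L : ℂ) ^ (K + 1))⁻¹ * (2 * L) ^ (j : ℕ) * v 0 := by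
  have h0 := P4_L hL
  obtain ⟨c0, c1⟩ := P4_coeff (PL K L) n v
  constructor
  · rw [P4_hat, c0, pow_zero, mul_one]
    simp only [PL]
    push_cast
    field_simp
  · intro j hj
    rw [P4_hat, c1 j hj]
    simp only [PL]
    push_cast
    field_simp
    ring

private theorem P4_inv {L : ℝ} (hL : 0 < L) (p : Polynomial ℂ) :
    (p.comp (Polynomial.C (L : ℂ) * Polynomial.X)).comp
      (Polynomial.C ((L : ℂ)⁻¹) * Polynomial.X) = p := by
  have h0 := P4_L hL
  rw [Polynomial.comp_assoc]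
  have e : (Polynomial.C (L : ℂ) * Polynomial.X).comp
      (Polynomial.C ((L : ℂ)⁻¹) * Polynomial.X) = Polynomial.X := by
    rw [Polynomial.mul_comp, Polynomial.C_comp, Polynomial.X_comp, ← mul_assoc,
      ← Polynomial.C_mul, mul_inv_cancel₀ h0, Polynomial.C_1, one_mul]
  rw [e, Polynomial.comp_X]

private theorem P4_inv' {L : ℝ} (hL : 0 < L) (p : Polynomial ℂ) :
    (p.comp (Polynomial.C ((L : ℂ)⁻¹) * Polynomial.X)).comp
      (Polynomial.C (L : ℂ) * Polynomial.X) = p := by
  have h0 := P4_L hL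
  rw [Polynomial.comp_assoc]
  have e : (Polynomial.C ((L : ℂ)⁻¹) * Polynomial.X).comp
      (Polynomial.C (L : ℂ) * Polynomial.X) = Polynomial.X := by
    rw [Polynomial.mul_comp, Polynomial.C_comp, Polynomial.X_comp, ← mul_assoc,
      ← Polynomial.C_mul, inv_mul_cancel₀ h0, Polynomial.C_1, one_mul]
  rw [e, Polynomial.comp_X]

private theorem P4_deg {c : ℂ} (hc : c ≠ 0) (p : Polynomial ℂ) :
    (p.comp (Polynomial.C c * Polynomial.X)).natDegree = p.natDegree := by
  rw [Polynomial.natDegree_comp, Polynomial.natDegree_C_mul_X c hc, mul_one]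

private theorem P4_nod (K N : ℕ) {L : ℝ} (hL : 0 < L) (x : Fin 3) (i : ℕ → ℕ) :
    ∃ c : ℂ, c ≠ 0 ∧ (nod (PL K L) N x i).comp (Polynomial.C (L : ℂ) * Polynomial.X)
      = Polynomial.C c * Om N x i (if x = 0 then 0 else 1) := by
  have h0 := P4_L hL
  refine ⟨(if x = 0 then 1 else (L : ℂ)) * (if x = 2 then -(2 * (L : ℂ)) else 1)
    * ∏ p ∈ Finset.range (N + 1), (-(nh p * (L : ℂ))) ^ i p, ?_, ?_⟩
  · refine mul_ne_zero (mul_ne_zero ?_ ?_) ?_
    · split_ifs
      · exact one_ne_zero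
      · exact h0
    · split_ifs
      · exact neg_ne_zero.mpr (mul_ne_zero two_ne_zero h0)
      · exact one_ne_zero
    · refine Finset.prod_ne_zero_iff.mpr fun p _ => pow_ne_zero _ (neg_ne_zero.mpr
        (mul_ne_zero (by exact_mod_cast P4_nh p) h0))
  · have e1 : ((if x ≠ 0 then Polynomial.X else 1 : Polynomial ℂ)).comp
        (Polynomial.C (L : ℂ) * Polynomial.X)
        = Polynomial.C (if x = 0 then 1 else (L : ℂ))
          * Polynomial.X ^ (if x = 0 then 0 else 1) := by
      by_cases h : x = 0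
      · simp [h]
      · simp [h]
    have e2 : ((if x = 2 then Polynomial.X - Polynomial.C ((PL K L).gh : ℂ) else 1 :
        Polynomial ℂ)).comp (Polynomial.C (L : ℂ) * Polynomial.X)
        = Polynomial.C (if x = 2 then -(2 * (L : ℂ)) else 1)
          * (if x = 2 then 1 - Polynomial.C (1 / 2) * Polynomial.X else 1) := by
      by_cases h : x = 2
      · simp only [h, if_true]
        rw [Polynomial.sub_comp, Polynomial.X_comp, Polynomial.C_comp, mul_sub, mul_one,
          ← mul_assoc, ← Polynomial.C_mul]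
        have f1 : -(2 * (L : ℂ)) * (1 / 2) = -L := by ring
        have f2 : (((PL K L).gh : ℝ) : ℂ) = 2 * L := by
          simp only [PL]; push_cast; ring
        rw [f1, f2, Polynomial.C_neg, Polynomial.C_neg]
        ring
      · simp [h]
    have e3 : (∏ p ∈ Finset.range (N + 1), (Polynomial.X
        - Polynomial.C ((PL K L).g p : ℂ)) ^ i p : Polynomial ℂ).comp
        (Polynomial.C (L : ℂ) * Polynomial.X)
        = Polynomial.C (∏ p ∈ Finset.range (N + 1), (-(nh p * (L : ℂ))) ^ i p)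
          * ∏ p ∈ Finset.range (N + 1),
            (1 - Polynomial.C ((nh p : ℂ)⁻¹) * Polynomial.X) ^ i p := by
      rw [Polynomial.prod_comp, map_prod, ← Finset.prod_mul_distrib]
      refine Finset.prod_congr rfl fun p _ => ?_
      rw [Polynomial.pow_comp, Polynomial.sub_comp, Polynomial.X_comp, Polynomial.C_comp,
        Polynomial.C_pow, ← mul_pow]
      congr 1
      have hn : (nh p : ℂ) ≠ 0 := by exact_mod_cast P4_nh p
      have f1 : -((nh p : ℂ) * (L : ℂ)) * (nh p : ℂ)⁻¹ = -L := by field_simp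
      have f2 : (((PL K L).g p : ℝ) : ℂ) = nh p * L := by
        rw [P4_g]; push_cast; ring
      rw [mul_sub, mul_one, ← mul_assoc, ← Polynomial.C_mul, f1, f2, Polynomial.C_neg,
        Polynomial.C_neg]
      ring
    rw [nod, Polynomial.mul_comp, Polynomial.mul_comp, e1, e2, e3, Om, Polynomial.C_mul,
      Polynomial.C_mul]
    ring

/-- Membership in `Xo` in terms of the scaled polynomial. -/
theorem hat_mem (K N n : ℕ) {L : ℝ} (hL : 0 < L) (x : Fin 3) {i : ℕ → ℕ}
    (hi : ∀ p, N < p → i p = 0) (v : Fin (n + 1) → ℂ) :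
    v ∈ Xo (PL K L) n x i ↔ ∃ Q : Polynomial ℂ, hat K n L v = Om N x i (if x = 0 then 0 else 1) * Q
    ∧
      (Q = 0 ∨ Q.natDegree + dg N x i ≤ n) := by
  have h0 := P4_L hL
  have hi0 : ((L : ℂ)⁻¹) ≠ 0 := inv_ne_zero h0
  have hG : GoodP (PL K L) N := PL_good K N hL
  obtain ⟨c, hc, hn⟩ := P4_nod K N hL x i
  have hpd : (pol (PL K L) n v).natDegree ≤ n := (pol_lin (PL K L) n v 0 0).2.2
  have hd : (Om N x i (if x = 0 then 0 else 1)).natDegree = dg N x i := by
    have e1 := P4_deg h0 (nod (PL K L) N x i)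
    rw [hn, Polynomial.natDegree_C_mul hc, (nod_deg (PL K L) N x i).1] at e1
    exact e1
  have hO : Om N x i (if x = 0 then 0 else 1) ≠ 0 := by
    intro h
    have h1 : (nod (PL K L) N x i) = 0 := by
      have := P4_inv hL (nod (PL K L) N x i)
      rw [hn, h, mul_zero, Polynomial.zero_comp] at this
      exact this.symm
    exact (nod_deg (PL K L) N x i).2.1.ne_zero h1
  rw [mem_Xo' hG n x hi v]
  constructor
  · rintro ⟨Q, hQ⟩
    have e : hat K n L v = Om N x i (if x = 0 then 0 else 1)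
        * (Polynomial.C c * Q.comp (Polynomial.C (L : ℂ) * Polynomial.X)) := by
      rw [hat, hQ, Polynomial.mul_comp, hn]
      ring
    refine ⟨_, e, ?_⟩
    by_cases hQ0 : (Polynomial.C c * Q.comp (Polynomial.C (L : ℂ) * Polynomial.X)) = 0
    · exact Or.inl hQ0
    · right
      have h1 := P4_deg h0 (pol (PL K L) n v)
      rw [← hat, e, Polynomial.natDegree_mul hO hQ0, hd] at h1
      omega
  · rintro ⟨Q, hQ, -⟩
    refine ⟨Polynomial.C (c⁻¹) * Q.comp (Polynomial.C ((L : ℂ)⁻¹) * Polynomial.X), ?_⟩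
    have e1 : pol (PL K L) n v
        = (hat K n L v).comp (Polynomial.C ((L : ℂ)⁻¹) * Polynomial.X) := by
      rw [hat, P4_inv hL]
    have e2 : nod (PL K L) N x i = Polynomial.C c * (Om N x i (if x = 0 then 0 else 1)).comp
        (Polynomial.C ((L : ℂ)⁻¹) * Polynomial.X) := by
      rw [← P4_inv hL (nod (PL K L) N x i), hn, Polynomial.mul_comp, Polynomial.C_comp]
    have e3 : Polynomial.C c * Polynomial.C (c⁻¹) = (1 : Polynomial ℂ) := by
      rw [← Polynomial.C_mul, mul_inv_cancel₀ hc, Polynomial.C_1]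
    rw [e1, hQ, e2, Polynomial.mul_comp]
    linear_combination (-(Om N x i (if x = 0 then 0 else 1)).comp
      (Polynomial.C ((L : ℂ)⁻¹) * Polynomial.X)
        * Q.comp (Polynomial.C ((L : ℂ)⁻¹) * Polynomial.X)) * e3

/-- Every polynomial of degree `≤ n` is the scaled polynomial of a unique vector; real
coefficients correspond to real vectors; linearity. -/
theorem hat_surj (K n : ℕ) {L : ℝ} (hL : 0 < L) (p : Polynomial ℂ) (hp : p.natDegree ≤ n) :
    ∃ v, hat K n L v = p ∧ ((∀ k, (p.coeff k).im = 0) ↔ Rea v) ∧ ∀ v', hat K n L v' = p → v' = v :=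
    by
  have h0 := P4_L hL
  have hi0 : ((L : ℂ)⁻¹) ≠ 0 := inv_ne_zero h0
  have hρ : (PL K L).ρ ≠ 0 := by
    simp only [PL]
    positivity
  have hd : (p.comp (Polynomial.C ((L : ℂ)⁻¹) * Polynomial.X)).natDegree ≤ n := by
    rw [P4_deg hi0]
    exact hp
  obtain ⟨v, hv, hr, hu⟩ := pol_surj hρ n (p.comp (Polynomial.C ((L : ℂ)⁻¹) * Polynomial.X)) hd
  have hh : hat K n L v = p := by rw [hat, hv, P4_inv' hL]
  refine ⟨v, hh, ⟨fun h => hr fun k => ?_, fun h k => ?_⟩, fun v' hv' => hu v' ?_⟩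
  · rw [Polynomial.comp_C_mul_X_coeff, ← Complex.ofReal_inv, ← Complex.ofReal_pow, mul_comm,
      Complex.im_ofReal_mul, h k, mul_zero]
  · obtain ⟨c0, c1⟩ := P4_coeff (PL K L) n v
    have hk : ((pol (PL K L) n v).coeff k).im = 0 := by
      by_cases hk0 : k = 0
      · subst hk0
        rw [c0, mul_comm, Complex.im_ofReal_mul, h 0, mul_zero]
      · by_cases hkn : k < n + 1
        · have e := c1 ⟨k, hkn⟩ hk0
          simp only at e
          rw [e, Complex.add_im, h, zero_add, ← Complex.ofReal_pow, ← Complex.ofReal_mul,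
            Complex.im_ofReal_mul, h 0, mul_zero]
        · rw [Polynomial.coeff_eq_zero_of_natDegree_lt, Complex.zero_im]
          have := (pol_lin (PL K L) n v 0 0).2.2
          omega
    rw [← hh, P4_hat, ← Complex.ofReal_pow, mul_comm, Complex.im_ofReal_mul, hk, mul_zero]
  · rw [← hv', hat, P4_inv hL]

theorem hat_lin (K n : ℕ) (L : ℝ) (v v' : Fin (n + 1) → ℂ) (c : ℂ) :
    hat K n L (v + v') = hat K n L v + hat K n L v' ∧
    hat K n L (c • v) = Polynomial.C c * hat K n L v := by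
  obtain ⟨h1, h2, -⟩ := pol_lin (PL K L) n v v' c
  exact ⟨by rw [hat, h1, Polynomial.add_comp, ← hat, ← hat],
    by rw [hat, h2, Polynomial.mul_comp, Polynomial.C_comp, ← hat]⟩

/-- Taylor coefficients in the scaled variable. -/
theorem hat_tau (K n : ℕ) {L : ℝ} (hL : 0 < L) (p l : ℕ) (v : Fin (n + 1) → ℂ) :
    pr (tau (PL K L) n ((PL K L).g p) l) v
      = ((L : ℂ) ^ l)⁻¹ * (Polynomial.taylor (nh p : ℂ) (hat K n L v)).coeff l := by
  have h0 := P4_L hL
  have e : Polynomial.taylor (nh p : ℂ) (hat K n L v)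
      = (Polynomial.taylor (((PL K L).g p : ℝ) : ℂ) (pol (PL K L) n v)).comp
        (Polynomial.C (L : ℂ) * Polynomial.X) := by
    rw [Polynomial.taylor_apply, Polynomial.taylor_apply, hat, Polynomial.comp_assoc,
      Polynomial.comp_assoc]
    congr 1
    rw [Polynomial.mul_comp, Polynomial.C_comp, Polynomial.X_comp, Polynomial.add_comp,
      Polynomial.X_comp, Polynomial.C_comp, P4_g, mul_add, ← Polynomial.C_mul]
    congr 2
    push_cast
    ring
  rw [pr_tau, e, Polynomial.comp_C_mul_X_coeff]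
  have h1 : (L : ℂ) ^ l ≠ 0 := pow_ne_zero _ h0
  field_simp

theorem hat_hv (K n : ℕ) {L : ℝ} (hL : 0 < L) (v : Fin (n + 1) → ℂ) (h0 : v 0 = 0) :
    pr (hv (PL K L) n) v = (hat K n L v).eval 2 := by
  rw [(pr_hv (PL K L) n v h0).1, hat, Polynomial.eval_comp, Polynomial.eval_mul,
    Polynomial.eval_C, Polynomial.eval_X]
  congr 1
  simp only [PL]
  push_cast
  ring

end

end Pool.Agent.MPb0eK
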