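import Mathlib
import Pool.Agent.Lib.MP_b0e20b_ag_K.P4
import Pool.Agent.Lib.MP_b0e20b_ag_R.Cpt

/-!
# MP_b0e20b_ag, project K: base vectors for nodes far apart
-/

set_option autoImplicit false

open scoped BigOperators Topology
open Filter

namespace Pool.Agent.MPb0eK

open MPb0eR (c1 c2 c3 tr q Sup Rl Rea uf Nrm cj AF scl)

section

/-- The number of free zeros of a base vector. -/
def mf (N n : ℕ) (x : Fin 3) (i : ℕ → ℕ) (p l : ℕ) : ℕ := n - dg N x (at' i p l)

private theorem P5_nh (p : ℕ) : nh p ≠ 0 := by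
  simp only [nh]
  split_ifs
  · norm_num
  · positivity

private theorem P5_real_iff (p : Polynomial ℂ) :
    (∀ k, (p.coeff k).im = 0) ↔ p.map (starRingEnd ℂ) = p := by
  constructor
  · intro h
    ext k
    rw [Polynomial.coeff_map, Complex.conj_eq_iff_im]
    exact h k
  · intro h k
    rw [← Complex.conj_eq_iff_im, ← Polynomial.coeff_map, h]

private theorem P5_Om_conj (N : ℕ) (x : Fin 3) (i : ℕ → ℕ) (k : ℕ) :
    (Om N x i k).map (starRingEnd ℂ) = Om N x i k := by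
  rw [Om, Polynomial.map_mul, Polynomial.map_mul, Polynomial.map_pow, Polynomial.map_X,
    Polynomial.map_prod]
  congr 1
  · congr 1
    split_ifs
    · rw [Polynomial.map_sub, Polynomial.map_one, Polynomial.map_mul, Polynomial.map_C,
        Polynomial.map_X]
      congr 3
      rw [map_div₀, map_one, map_ofNat]
    · exact Polynomial.map_one _
  · refine Finset.prod_congr rfl fun p _ => ?_
    rw [Polynomial.map_pow, Polynomial.map_sub, Polynomial.map_one, Polynomial.map_mul,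
      Polynomial.map_C, Polynomial.map_X, map_inv₀, Complex.conj_ofReal]

private theorem P5_Om_split (N : ℕ) (x : Fin 3) (i : ℕ → ℕ) (a b : ℕ) :
    Om N x i (a + b) = Polynomial.X ^ a * Om N x i b := by
  rw [Om, Om, pow_add]
  ring

private theorem P5_Om_zero (N : ℕ) (x : Fin 3) (i : ℕ → ℕ) : (Om N x i 0).coeff 0 = 1 := by
  rw [Polynomial.coeff_zero_eq_eval_zero, Om, pow_zero, one_mul, Polynomial.eval_mul,
    Polynomial.eval_prod, Finset.prod_eq_one, mul_one]
  · split_ifs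
    · simp
    · simp
  · intro p _
    simp

private theorem P5_Om_ne (N : ℕ) (x : Fin 3) (i : ℕ → ℕ) (k : ℕ) : Om N x i k ≠ 0 := by
  have h := P5_Om_split N x i k 0
  rw [add_zero] at h
  rw [h]
  refine mul_ne_zero (pow_ne_zero _ Polynomial.X_ne_zero) fun h0 => ?_
  have h1 := P5_Om_zero N x i
  rw [h0, Polynomial.coeff_zero] at h1
  exact zero_ne_one h1

private theorem P5_Om_succ (N : ℕ) (x : Fin 3) {i : ℕ → ℕ} {p : ℕ} (hp : p ≤ N) (l k : ℕ) :
    Om N x (at' i p (l + 1)) k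
      = Om N x (at' i p l) k * (1 - Polynomial.C ((nh p : ℂ)⁻¹) * Polynomial.X) := by
  have hmem : p ∈ Finset.range (N + 1) := Finset.mem_range.2 (by omega)
  rw [Om, Om, ← Finset.mul_prod_erase _ _ hmem, ← Finset.mul_prod_erase _ _ hmem]
  have h1 : ∀ m, ∏ q ∈ (Finset.range (N + 1)).erase p,
      (1 - Polynomial.C ((nh q : ℂ)⁻¹) * Polynomial.X) ^ at' i p m q
      = ∏ q ∈ (Finset.range (N + 1)).erase p,
      (1 - Polynomial.C ((nh q : ℂ)⁻¹) * Polynomial.X) ^ i q := by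
    intro m
    refine Finset.prod_congr rfl fun q hq => ?_
    rw [at', Function.update_of_ne (Finset.ne_of_mem_erase hq)]
  have h2 : ∀ m, at' i p m p = m := fun m => by rw [at', Function.update_self]
  rw [h1, h1, h2, h2, pow_succ]
  ring

private theorem P5_dg_succ (N : ℕ) (x : Fin 3) {i : ℕ → ℕ} {p : ℕ} (hp : p ≤ N) (l : ℕ) :
    dg N x (at' i p (l + 1)) = dg N x (at' i p l) + 1 := by
  have hmem : p ∈ Finset.range (N + 1) := Finset.mem_range.2 (by omega)
  rw [dg, dg, ← Finset.add_sum_erase _ _ hmem, ← Finset.add_sum_erase _ _ hmem]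
  have h1 : ∀ m, ∑ q ∈ (Finset.range (N + 1)).erase p, at' i p m q
      = ∑ q ∈ (Finset.range (N + 1)).erase p, i q := by
    intro m
    refine Finset.sum_congr rfl fun q hq => ?_
    rw [at', Function.update_of_ne (Finset.ne_of_mem_erase hq)]
  have h2 : ∀ m, at' i p m p = m := fun m => by rw [at', Function.update_self]
  rw [h1, h1, h2, h2]
  ring

private theorem P5_re {A : Type} [Fintype A] {v : A → ℂ} (hv : Rea v) :
    (q v).re = ∑ a, ‖v a‖ ^ 2 := by
  rw [q, Complex.re_sum]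
  refine Finset.sum_congr rfl fun a _ => ?_
  have h2 : v a = ((v a).re : ℂ) := Complex.ext rfl (by rw [hv a, Complex.ofReal_im])
  rw [h2, ← Complex.ofReal_pow, Complex.ofReal_re, Complex.norm_real, Real.norm_eq_abs, sq_abs]

/-- The single vector: rescaling and comparison. -/
private theorem P5_one {K N n : ℕ} {L : ℝ} (hL : 0 < L) (x : Fin 3) {i : ℕ → ℕ} {p l : ℕ}
    (hpN : p ≤ N) (hi : Adm (p + 1) N i) {v : Fin (n + 1) → ℂ}
    (hB : Bv (PL K L) n x i p l v) :
    ∃ c : ℝ, c ≠ 0 ∧ ∃ Q : Polynomial ℂ,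
      hat K n L ((c : ℂ) • v) = Om N x (at' i p l) (if x = 0 then 0 else 1) * Q ∧
      Q.natDegree ≤ mf N n x i p l ∧ Q.eval (nh p : ℂ) = (nh p : ℂ) ^ mf N n x i p l ∧
      mf N n x i p l + dg N x (at' i p l) = n ∧
      ∀ z, hat K n L z = Om N x (at' i p l) (mf N n x i p l + if x = 0 then 0 else 1) →
        (q ((c : ℂ) • v)).re ≤ (q z).re := by
  have hi0 : ∀ m p', N < p' → at' i p m p' = 0 := by
    intro m p' hp'
    rw [at', Function.update_of_ne (by omega)]
    by_contra h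
    exact absurd (hi p' h).2 (by omega)
  have hnh : (nh p : ℂ) ≠ 0 := by exact_mod_cast P5_nh p
  obtain ⟨Q, hQ, hQd⟩ := (hat_mem K N n hL x (hi0 l) v).1 hB.mem
  -- the scaled polynomial is real
  have hdeg : (hat K n L v).natDegree ≤ n := by
    rw [hat, Polynomial.natDegree_comp]
    have h1 := (pol_lin (PL K L) n v 0 0).2.2
    have h2 : (Polynomial.C (L : ℂ) * Polynomial.X).natDegree ≤ 1 :=
      (Polynomial.natDegree_C_mul_le _ _).trans (Polynomial.natDegree_X_le)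
    calc _ ≤ (pol (PL K L) n v).natDegree * 1 := Nat.mul_le_mul_left _ h2
      _ ≤ n := by rw [mul_one]; exact h1
  have hhr : (hat K n L v).map (starRingEnd ℂ) = hat K n L v := by
    rw [← P5_real_iff]
    obtain ⟨v1, hv1, hr, hu⟩ := hat_surj K n hL (hat K n L v) hdeg
    rw [hr]
    rw [← hu v rfl]
    exact hB.re
  have hQr : Q.map (starRingEnd ℂ) = Q := by
    rw [hQ, Polynomial.map_mul, P5_Om_conj] at hhr
    exact mul_left_cancel₀ (P5_Om_ne N x (at' i p l) _) hhr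
  have hq0 : q v ≠ 0 := by
    intro h
    have := (q_rea_pos hB.re hB.ne).1
    rw [h, Complex.zero_re] at this
    exact lt_irrefl _ this
  have hh0 : hat K n L v ≠ 0 := by
    intro h
    obtain ⟨v1, hv1, hr, hu⟩ := hat_surj K n hL 0 (by simp)
    have h1 : hat K n L (0 : Fin (n + 1) → ℂ) = 0 := by
      have := (hat_lin K n L v v 0).2
      rwa [zero_smul, Polynomial.C_0, zero_mul] at this
    exact hB.ne ((hu v h).trans (hu 0 h1).symm)
  have hQ0 : Q ≠ 0 := by
    rintro rfl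
    rw [mul_zero] at hQ
    exact hh0 hQ
  have hQd' : Q.natDegree + dg N x (at' i p l) ≤ n := hQd.resolve_left hQ0
  have hmf : mf N n x i p l + dg N x (at' i p l) = n := by
    rw [mf]
    omega
  -- vectors with a zero
  have hzero : ∀ (z : Fin (n + 1) → ℂ) (R : Polynomial ℂ),
      hat K n L z = Om N x (at' i p l) (if x = 0 then 0 else 1) * R →
      R.natDegree ≤ mf N n x i p l → R.eval (nh p : ℂ) = 0 → dt v z = 0 := by
    intro z R hz hRd hR
    refine hB.orth z ((hat_mem K N n hL x (hi0 (l + 1)) z).2 ?_)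
    obtain ⟨S, hS⟩ := Polynomial.dvd_iff_isRoot.2 (Polynomial.IsRoot.def.2 hR)
    refine ⟨Polynomial.C (-(nh p : ℂ)) * S, ?_, ?_⟩
    · rw [P5_Om_succ N x hpN, hz, hS]
      have e1 : Polynomial.C (-(nh p : ℂ)) * Polynomial.C ((nh p : ℂ)⁻¹) = -1 := by
        rw [← Polynomial.C_mul, neg_mul, mul_inv_cancel₀ hnh, Polynomial.C_neg, Polynomial.C_1]
      rw [Polynomial.C_neg] at e1 ⊢
      linear_combination (Om N x (at' i p l) (if x = 0 then 0 else 1) * Polynomial.X * S) * e1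
    · by_cases hS0 : S = 0
      · left
        rw [hS0, mul_zero]
      · right
        rw [Polynomial.natDegree_C_mul (neg_ne_zero.2 hnh), P5_dg_succ N x hpN]
        have e2 : R.natDegree = 1 + S.natDegree := by
          rw [hS, Polynomial.natDegree_mul (Polynomial.X_sub_C_ne_zero _) hS0,
            Polynomial.natDegree_X_sub_C]
        omega
  have hQm : Q.natDegree ≤ mf N n x i p l := by
    rw [mf]
    omega
  have hQe : Q.eval (nh p : ℂ) ≠ 0 := by
    intro h
    have := hzero v Q hQ hQm h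
    rw [dt_self] at this
    exact hq0 this
  have hQim : (Q.eval (nh p : ℂ)).im = 0 := by
    rw [← Complex.conj_eq_iff_im]
    have h1 := Polynomial.eval_map_apply (f := starRingEnd ℂ) (p := Q) (nh p : ℂ)
    rw [hQr, Complex.conj_ofReal] at h1
    exact h1.symm
  have hQre : Q.eval (nh p : ℂ) = ((Q.eval (nh p : ℂ)).re : ℂ) :=
    Complex.ext rfl (by rw [hQim, Complex.ofReal_im])
  obtain ⟨r, hr⟩ : ∃ r, r = (Q.eval (nh p : ℂ)).re := ⟨_, rfl⟩
  rw [← hr] at hQre
  have hr0 : r ≠ 0 := by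
    rintro h
    rw [h, Complex.ofReal_zero] at hQre
    exact hQe hQre
  obtain ⟨c, hc⟩ : ∃ c : ℝ, c = nh p ^ mf N n x i p l / r := ⟨_, rfl⟩
  have hc0 : c ≠ 0 := by
    rw [hc]
    exact div_ne_zero (pow_ne_zero _ (P5_nh p)) hr0
  have hrc : (r : ℂ) ≠ 0 := by exact_mod_cast hr0
  have hat1 : hat K n L ((c : ℂ) • v)
      = Om N x (at' i p l) (if x = 0 then 0 else 1) * (Polynomial.C (c : ℂ) * Q) := by
    rw [(hat_lin K n L v v c).2, hQ]
    ring
  have hev : (Polynomial.C (c : ℂ) * Q).eval (nh p : ℂ) = (nh p : ℂ) ^ mf N n x i p l := by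
    rw [Polynomial.eval_mul, Polynomial.eval_C, hQre, hc]
    push_cast
    field_simp
  have hcd : (Polynomial.C (c : ℂ) * Q).natDegree ≤ mf N n x i p l :=
    (Polynomial.natDegree_C_mul_le _ _).trans hQm
  refine ⟨c, hc0, Polynomial.C (c : ℂ) * Q, hat1, hcd, hev, hmf, fun z hz => ?_⟩
  have hzr : Rea z := by
    have hzd : (hat K n L z).natDegree ≤ n := by
      rw [hat, Polynomial.natDegree_comp]
      have h1 := (pol_lin (PL K L) n z 0 0).2.2
      have h2 : (Polynomial.C (L : ℂ) * Polynomial.X).natDegree ≤ 1 :=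
        (Polynomial.natDegree_C_mul_le _ _).trans (Polynomial.natDegree_X_le)
      calc _ ≤ (pol (PL K L) n z).natDegree * 1 := Nat.mul_le_mul_left _ h2
        _ ≤ n := by rw [mul_one]; exact h1
    obtain ⟨v1, hv1, hr1, hu⟩ := hat_surj K n hL (hat K n L z) hzd
    rw [hu z rfl, ← hr1, P5_real_iff, hz, P5_Om_conj]
  -- the difference
  obtain ⟨y, hy⟩ : ∃ y : Fin (n + 1) → ℂ, y = z + (-1 : ℂ) • ((c : ℂ) • v) := ⟨_, rfl⟩
  have hyr : Rea y := by
    intro a
    rw [hy, Pi.add_apply, Pi.smul_apply, Pi.smul_apply, smul_eq_mul, smul_eq_mul,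
      Complex.add_im, hzr a, neg_one_mul, Complex.neg_im, Complex.im_ofReal_mul, hB.re a]
    simp
  have hyo : dt v y = 0 := by
    refine hzero y (Polynomial.X ^ mf N n x i p l - Polynomial.C (c : ℂ) * Q) ?_ ?_ ?_
    · rw [hy, (hat_lin K n L z ((-1 : ℂ) • ((c : ℂ) • v)) 0).1,
        (hat_lin K n L ((c : ℂ) • v) 0 (-1)).2, hz, hat1, P5_Om_split, Polynomial.C_neg,
        Polynomial.C_1]
      ring
    · refine (Polynomial.natDegree_sub_le _ _).trans (max_le ?_ hcd)
      exact Polynomial.natDegree_X_pow_le _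
    · rw [Polynomial.eval_sub, Polynomial.eval_pow, Polynomial.eval_X, hev, sub_self]
  have hz' : z = (c : ℂ) • v + y := by
    rw [hy, neg_one_smul]
    abel
  have e : q z = q ((c : ℂ) • v) + q y := by
    rw [← dt_self, ← dt_self, ← dt_self, hz', dt_add_left, dt_add_right, dt_add_right,
      dt_smul_left _ v y, dt_smul_right _ y v, dt_comm y v, hyo]
    ring
  rw [e, Complex.add_re]
  have : 0 ≤ (q y).re := by
    rw [P5_re hyr]
    positivity
  linarith

/-- The coordinates of the comparison vector. -/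
private theorem P5_cmp {K n : ℕ} {L : ℝ} (hL : 1 < L) {z : Fin (n + 1) → ℂ} {Z : Polynomial ℂ}
    (hz : hat K n L z = Z) {d : ℕ} (hd : d ≠ 0) (h0 : ∀ j, j < d → Z.coeff j = 0) :
    (q z).re * L ^ (2 * d) ≤ ∑ j : Fin (n + 1), ‖Z.coeff j‖ ^ 2 := by
  have hL0 : 0 < L := by linarith
  have hLc : (L : ℂ) ≠ 0 := by exact_mod_cast hL0.ne'
  obtain ⟨c0, c1⟩ := hat_coord K n hL0 z
  rw [hz] at c0 c1
  have hz0 : z 0 = 0 := by rw [c0, h0 0 (by omega), mul_zero]
  have hle : (q z).re ≤ ∑ j : Fin (n + 1), ‖z j‖ ^ 2 := by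
    rw [q, Complex.re_sum]
    refine Finset.sum_le_sum fun j _ => ?_
    calc (z j ^ 2).re ≤ ‖z j ^ 2‖ := Complex.re_le_norm _
      _ = ‖z j‖ ^ 2 := norm_pow _ _
  have hpos : 0 < L ^ (2 * d) := by positivity
  refine (mul_le_mul_of_nonneg_right hle hpos.le).trans ?_
  rw [Finset.sum_mul]
  refine Finset.sum_le_sum fun j _ => ?_
  by_cases hj : (j : ℕ) = 0
  · have : j = 0 := Fin.ext hj
    rw [this, hz0, norm_zero]
    have : (0 : ℝ) ^ 2 * L ^ (2 * d) = 0 := by ring
    rw [this]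
    positivity
  · rw [c1 j hj, hz0, mul_zero, sub_zero, norm_mul, norm_inv, norm_pow, Complex.norm_real,
      Real.norm_eq_abs, abs_of_pos hL0]
    by_cases hjd : (j : ℕ) < d
    · rw [h0 _ hjd, norm_zero, mul_zero]
      have : (0 : ℝ) ^ 2 * L ^ (2 * d) = 0 := by ring
      rw [this]
      positivity
    · have h1 : (L ^ (j : ℕ))⁻¹ * L ^ d ≤ 1 := by
        rw [inv_mul_le_iff₀ (by positivity), mul_one]
        exact pow_le_pow_right₀ hL.le (by omega)
      have h2 : 0 ≤ (L ^ (j : ℕ))⁻¹ * L ^ d := by positivity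
      calc ((L ^ (j : ℕ))⁻¹ * ‖Z.coeff j‖) ^ 2 * L ^ (2 * d)
          = ((L ^ (j : ℕ))⁻¹ * L ^ d) ^ 2 * ‖Z.coeff j‖ ^ 2 := by ring
        _ ≤ 1 ^ 2 * ‖Z.coeff j‖ ^ 2 := by gcongr
        _ = ‖Z.coeff j‖ ^ 2 := by ring

/-- Bounds for the scaled coefficients from bounds for the coordinates. -/
private theorem P5_bd {K n : ℕ} (hn : n ≤ K) {L : ℝ} (hL : 1 < L) {v : Fin (n + 1) → ℂ}
    {d : ℕ} {S : ℝ} (hS : ∀ j, ‖v j‖ * L ^ d ≤ S) :
    ‖(hat K n L v).coeff 0‖ * L ^ (K + 2 + d) ≤ S ∧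
    ∀ j, ‖(hat K n L v).coeff j‖ * L ^ d ≤ (1 + 2 ^ n) * S * L ^ j := by
  have hL0 : 0 < L := by linarith
  have hLc : (L : ℂ) ≠ 0 := by exact_mod_cast hL0.ne'
  obtain ⟨c0, c1⟩ := hat_coord K n hL0 v
  have hS0 : 0 ≤ S := le_trans (by positivity) (hS 0)
  have e0 : ‖(hat K n L v).coeff 0‖ * L ^ (K + 2 + d) = ‖v 0‖ * L ^ d := by
    rw [c0, norm_mul, norm_pow, Complex.norm_real, Real.norm_eq_abs, abs_of_pos hL0]
    ring
  refine ⟨e0.le.trans (hS 0), fun j => ?_⟩
  by_cases hj : j = 0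
  · rw [hj, pow_zero, mul_one]
    have h1 : L ^ d ≤ L ^ (K + 2 + d) := pow_le_pow_right₀ hL.le (by omega)
    calc _ ≤ ‖(hat K n L v).coeff 0‖ * L ^ (K + 2 + d) := by gcongr
      _ ≤ S := e0.le.trans (hS 0)
      _ ≤ (1 + 2 ^ n) * S := by
        have : 0 ≤ 2 ^ n * S := by positivity
        linarith
  · by_cases hjn : j < n + 1
    · have h1 := c1 ⟨j, hjn⟩ hj
      simp only at h1
      have e : (hat K n L v).coeff j = (L : ℂ) ^ j * v ⟨j, hjn⟩
          + (L : ℂ) ^ j * (((L : ℂ) ^ (K + 1))⁻¹ * (2 * L) ^ j * v 0) := by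
        rw [h1]
        field_simp
        ring
      have hn2 : ‖((L : ℂ) ^ (K + 1))⁻¹ * (2 * L) ^ j * v 0‖ ≤ 2 ^ n * ‖v 0‖ := by
        rw [norm_mul, norm_mul, norm_inv, norm_pow, norm_pow, norm_mul, Complex.norm_real,
          Real.norm_eq_abs, abs_of_pos hL0, Complex.norm_ofNat]
        have h2 : (L ^ (K + 1))⁻¹ * (2 * L) ^ j ≤ 2 ^ n := by
          rw [inv_mul_le_iff₀ (by positivity), mul_pow]
          have h3 : (2 : ℝ) ^ j ≤ 2 ^ n := pow_le_pow_right₀ (by norm_num) (by omega)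
          have h4 : L ^ j ≤ L ^ (K + 1) := pow_le_pow_right₀ hL.le (by omega)
          calc (2 : ℝ) ^ j * L ^ j ≤ 2 ^ n * L ^ (K + 1) := by gcongr
            _ = _ := by ring
        gcongr
      calc ‖(hat K n L v).coeff j‖ * L ^ d
          ≤ (L ^ j * ‖v ⟨j, hjn⟩‖ + L ^ j * (2 ^ n * ‖v 0‖)) * L ^ d := by
            rw [e]
            gcongr
            refine (norm_add_le _ _).trans ?_
            rw [norm_mul, norm_mul, norm_pow, Complex.norm_real, Real.norm_eq_abs,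
              abs_of_pos hL0]
            gcongr
        _ = L ^ j * (‖v ⟨j, hjn⟩‖ * L ^ d + 2 ^ n * (‖v 0‖ * L ^ d)) := by ring
        _ ≤ L ^ j * (S + 2 ^ n * S) := by
            gcongr
            · exact hS _
            · exact hS _
        _ = (1 + 2 ^ n) * S * L ^ j := by ring
    · have h1 : (hat K n L v).coeff j = 0 := by
        refine Polynomial.coeff_eq_zero_of_natDegree_lt ?_
        have h2 : (hat K n L v).natDegree ≤ n := by
          rw [hat, Polynomial.natDegree_comp]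
          have h1 := (pol_lin (PL K L) n v 0 0).2.2
          have h2 : (Polynomial.C (L : ℂ) * Polynomial.X).natDegree ≤ 1 :=
            (Polynomial.natDegree_C_mul_le _ _).trans (Polynomial.natDegree_X_le)
          calc _ ≤ (pol (PL K L) n v).natDegree * 1 := Nat.mul_le_mul_left _ h2
            _ ≤ n := by rw [mul_one]; exact h1
        omega
      rw [h1, norm_zero, zero_mul]
      positivity

/-- The lower bound. -/
private theorem P5_low {K n : ℕ} (hn : n ≤ K) {L : ℝ} (hL : 1 < L) {v : Fin (n + 1) → ℂ}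
    (hv : Rea v) {d : ℕ} (h : 1 / 2 ≤ ‖(hat K n L v).coeff d‖) :
    (4 * (1 + 2 ^ n) ^ 2)⁻¹ ≤ (q v).re * L ^ (2 * d) := by
  have hL0 : 0 < L := by linarith
  have hq : 0 ≤ (q v).re := by
    rw [P5_re hv]
    positivity
  obtain ⟨S, hS⟩ : ∃ S, S = √((q v).re) := ⟨_, rfl⟩
  have hS2 : S ^ 2 = (q v).re := by rw [hS, Real.sq_sqrt hq]
  have hS0 : 0 ≤ S := by rw [hS]; positivity
  have hj : ∀ j, ‖v j‖ * L ^ 0 ≤ S := by
    intro j
    rw [pow_zero, mul_one]
    refine le_of_sq_le_sq ?_ hS0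
    rw [hS2, P5_re hv]
    exact Finset.single_le_sum (f := fun a => ‖v a‖ ^ 2) (fun a _ => by positivity)
      (Finset.mem_univ j)
  have h1 := (P5_bd (K := K) hn hL hj).2 d
  rw [pow_zero, mul_one] at h1
  have h2 : 1 / 2 ≤ (1 + 2 ^ n) * S * L ^ d := h.trans h1
  rw [inv_le_iff_one_le_mul₀ (by positivity)]
  have h3 : (1 / 2 : ℝ) ^ 2 ≤ ((1 + 2 ^ n) * S * L ^ d) ^ 2 := by
    gcongr
  rw [← hS2]
  have e : S ^ 2 * L ^ (2 * d) * (4 * (1 + 2 ^ n) ^ 2) = 4 * ((1 + 2 ^ n) * S * L ^ d) ^ 2 := by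
    ring
  rw [e]
  linarith

/-- Convergence of the quotient. -/
private theorem P5_conv {m : ℕ} {W : Polynomial ℂ} (hW : W.coeff 0 = 1) {Q : ℕ → Polynomial ℂ}
    {t : ℂ} (ht : t ≠ 0) (hd : ∀ k, (Q k).natDegree ≤ m) (he : ∀ k, (Q k).eval t = t ^ m)
    (h : ∀ j, j < m → Tendsto (fun k => (W * Q k).coeff j) uf (𝓝 0)) (j : ℕ) :
    Tendsto (fun k => (Q k).coeff j) uf (𝓝 ((Polynomial.X ^ m : Polynomial ℂ).coeff j)) := by
  have hlow : ∀ j, j < m → Tendsto (fun k => (Q k).coeff j) uf (𝓝 0) := by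
    intro j
    induction j using Nat.strong_induction_on with
    | _ j ih =>
      intro hj
      have e : ∀ k, (Q k).coeff j = (W * Q k).coeff j
          - ∑ a ∈ Finset.range j, W.coeff (a + 1) * (Q k).coeff (j - (a + 1)) := by
        intro k
        rw [Polynomial.coeff_mul, Finset.Nat.sum_antidiagonal_eq_sum_range_succ
          (fun a b => W.coeff a * (Q k).coeff b), Finset.sum_range_succ', hW, one_mul,
          Nat.sub_zero]
        ring
      simp only [e]
      have h1 : Tendsto (fun k => ∑ a ∈ Finset.range j, W.coeff (a + 1)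
          * (Q k).coeff (j - (a + 1))) uf (𝓝 (∑ a ∈ Finset.range j, W.coeff (a + 1) * 0)) := by
        refine tendsto_finsetSum _ fun a ha => ?_
        have ha' := Finset.mem_range.1 ha
        exact (ih (j - (a + 1)) (by omega) (by omega)).const_mul _
      have h2 := (h j hj).sub h1
      simpa using h2
  rcases lt_trichotomy j m with hj | hj | hj
  · rw [Polynomial.coeff_X_pow, if_neg (by omega)]
    exact hlow j hj
  · subst hj
    rw [Polynomial.coeff_X_pow, if_pos rfl]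
    have e : ∀ k, (Q k).coeff j = 1 - (∑ a ∈ Finset.range j, (Q k).coeff a * t ^ a) / t ^ j := by
      intro k
      have h1 := he k
      rw [Polynomial.eval_eq_sum_range' (Nat.lt_succ_of_le (hd k)), Finset.sum_range_succ] at h1
      have h2 : t ^ j ≠ 0 := pow_ne_zero _ ht
      field_simp
      linear_combination h1
    simp only [e]
    have h1 : Tendsto (fun k => ∑ a ∈ Finset.range j, (Q k).coeff a * t ^ a) uf
        (𝓝 (∑ a ∈ Finset.range j, 0 * t ^ a)) :=
      tendsto_finsetSum _ fun a ha => (hlow a (Finset.mem_range.1 ha)).mul_const _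
    have h2 := (h1.div_const (t ^ j)).const_sub 1
    simpa using h2
  · rw [Polynomial.coeff_X_pow, if_neg (by omega)]
    refine Tendsto.congr (fun k => ?_) tendsto_const_nhds
    exact (Polynomial.coeff_eq_zero_of_natDegree_lt (lt_of_le_of_lt (hd k) hj)).symm

private theorem P5_Om_deg (N : ℕ) (x : Fin 3) (i : ℕ → ℕ) :
    (Om N x i (if x = 0 then 0 else 1)).natDegree ≤ dg N x i := by
  have h1 : ∀ a : ℂ, (1 - Polynomial.C a * Polynomial.X).natDegree ≤ 1 := by
    intro a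
    refine (Polynomial.natDegree_sub_le _ _).trans (max_le ?_ ?_)
    · rw [Polynomial.natDegree_one]
      exact Nat.zero_le _
    · exact (Polynomial.natDegree_C_mul_le _ _).trans Polynomial.natDegree_X_le
  have h2 : (if x = 2 then 1 - Polynomial.C (1 / 2) * Polynomial.X else 1 :
      Polynomial ℂ).natDegree ≤ if x = 2 then 1 else 0 := by
    split_ifs
    · exact h1 _
    · exact Polynomial.natDegree_one.le
  have h3 : (∏ p ∈ Finset.range (N + 1),
      (1 - Polynomial.C ((nh p : ℂ)⁻¹) * Polynomial.X) ^ i p).natDegree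
      ≤ ∑ p ∈ Finset.range (N + 1), i p := by
    refine (Polynomial.natDegree_prod_le _ _).trans (Finset.sum_le_sum fun p _ => ?_)
    refine Polynomial.natDegree_pow_le.trans ?_
    calc i p * _ ≤ i p * 1 := Nat.mul_le_mul_left _ (h1 _)
      _ = i p := mul_one _
  have h4 : (if x = 0 then 0 else 1) + (if x = 2 then 1 else 0) = (x : ℕ) := by
    fin_cases x <;> simp
  rw [Om, dg]
  refine Polynomial.natDegree_mul_le.trans (Nat.add_le_add ?_ h3)
  refine Polynomial.natDegree_mul_le.trans ?_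
  rw [← h4]
  exact Nat.add_le_add (Polynomial.natDegree_X_pow_le _) h2

/-- The base vectors for `L → ∞`: after a real rescaling the scaled polynomial tends to
`s ^ d (1 - s / 2) ^ [x = 2] ∏ (1 - s / node) ^ order`, `d = mf + [x ≠ 0]`, and the coefficients of
order
`< d` are small, `q v` has the order `L ^ (-2 d)`.

Proof. Let `Ω = Om N x (at' i p l) [x ≠ 0]`, `m = mf`, so `hat v = Ω Q`, `deg Q ≤ m`, and `Q (nh p)
≠ 0`
(otherwise `v ∈ Xo (order l + 1)`, and `dt v v = 0`); rescale such that `Q (nh p) = (nh p) ^ m`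
(real).
As `v` is orthogonal to `Xo (order l + 1)`, it has the smallest `q` among the real vectors
with `hat = Ω Q'`, `Q' (nh p) = (nh p) ^ m`. Case `d = 0`: then `m = 0` and `hat v = Ω`. Case `d ≥
1`: compare
with `Q' = s ^ m`: its coefficients below `d` vanish, so by `hat_coord` `q ≤ C L ^ (-2 d)`. Hence
`|v j| ≤ C L ^ (-d)` for all `j`, so `|V_0| ≤ C L ^ (-d - K - 2)`, `|V_j| ≤ C L ^ (j - d)` (`j ≤ n
≤ K`). So the
coefficients `V_j`, `j < d`, tend to zero, and by triangularity (`Ω / s ^ [x ≠ 0]` has constant term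
one) the coefficients of `Q` of order `< m` tend to zero; `Q (nh p) = (nh p) ^ m` gives that the
coefficient of order `m` tends to one. Finally `V_d → 1`, so `|v d| ≥ c L ^ (-d)`. -/
theorem base_lim {K N n : ℕ} (hn : n ≤ K) {L : ℕ → ℝ} (hL : Tendsto L uf atTop)
    (hp : ∀ k, 1 < L k) (x : Fin 3) {i : ℕ → ℕ} {p l : ℕ} (hpN : p ≤ N) (hi : Adm (p + 1) N i)
    {v : ℕ → Fin (n + 1) → ℂ} (hB : ∀ k, Bv (PL K (L k)) n x i p l (v k)) :
    ∃ c : ℕ → ℝ, (∀ k, c k ≠ 0) ∧
      (∀ m, Tendsto (fun k => (hat K n (L k) ((c k : ℂ) • v k)).coeff m) uf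
        (𝓝 ((Om N x (at' i p l) (mf N n x i p l + if x = 0 then 0 else 1)).coeff m))) ∧
      ∃ M : ℝ, 0 < M ∧ ∀ᶠ k in uf,
        (∀ m, m < mf N n x i p l + (if x = 0 then 0 else 1) →
          ‖(hat K n (L k) ((c k : ℂ) • v k)).coeff m‖ * L k ^ (mf N n x i p l
            + if x = 0 then 0 else 1) ≤ M * L k ^ m) ∧
        (mf N n x i p l + (if x = 0 then 0 else 1) ≠ 0 →
          ‖(hat K n (L k) ((c k : ℂ) • v k)).coeff 0‖ * L k ^ (K + 2 + mf N n x i p l
            + if x = 0 then 0 else 1) ≤ M ∧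
          M⁻¹ ≤ (q ((c k : ℂ) • v k)).re * L k ^ (2 * (mf N n x i p l
            + if x = 0 then 0 else 1)) ∧
          (q ((c k : ℂ) • v k)).re * L k ^ (2 * (mf N n x i p l
            + if x = 0 then 0 else 1)) ≤ M) ∧
        (mf N n x i p l + (if x = 0 then 0 else 1) = 0 →
          M⁻¹ * L k ^ (2 * (K + 2)) ≤ (q ((c k : ℂ) • v k)).re) := by
  have hL0 : ∀ k, 0 < L k := fun k => by linarith [hp k]
  choose c hc0 Q hQ hQd hQe hmf hmin using fun k => P5_one (hL0 k) x hpN hi (hB k)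
  have hmf' := hmf 0
  obtain ⟨m, hm⟩ : ∃ m, m = mf N n x i p l := ⟨_, rfl⟩
  obtain ⟨e, he⟩ : ∃ e : ℕ, e = if x = 0 then 0 else 1 := ⟨_, rfl⟩
  have hass : K + 2 + m + e = K + 2 + (m + e) := by ring
  rw [← hm] at hmf' ⊢
  simp only [← hm, ← he] at hQ hQd hQe hmin ⊢
  simp only [hass]
  obtain ⟨d, hd⟩ : ∃ d, d = m + e := ⟨_, rfl⟩
  simp only [← hd] at hmin ⊢
  obtain ⟨Z, hZ⟩ : ∃ Z, Z = Om N x (at' i p l) d := ⟨_, rfl⟩
  have hZ1 : Z = Polynomial.X ^ m * Om N x (at' i p l) e := by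
    rw [hZ, hd, P5_Om_split]
  have hZ2 : Z = Polynomial.X ^ d * Om N x (at' i p l) 0 := by
    rw [hZ, ← P5_Om_split, add_zero]
  have hZd : Z.natDegree ≤ n := by
    rw [hZ1]
    refine Polynomial.natDegree_mul_le.trans ?_
    have h1 := P5_Om_deg N x (at' i p l)
    rw [← he] at h1
    have h2 := Polynomial.natDegree_X_pow_le (R := ℂ) m
    omega
  have hZlow : ∀ j, j < d → Z.coeff j = 0 := by
    intro j hj
    rw [hZ2, Polynomial.coeff_X_pow_mul', if_neg (by omega)]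
  have hZtop : Z.coeff d = 1 := by
    rw [hZ2, Polynomial.coeff_X_pow_mul', if_pos le_rfl, Nat.sub_self, P5_Om_zero]
  have hr : ∀ k, Rea ((c k : ℂ) • v k) := by
    intro k a
    rw [Pi.smul_apply, smul_eq_mul, Complex.im_ofReal_mul, (hB k).re a, mul_zero]
  obtain ⟨C, hC⟩ : ∃ C, C = ∑ j : Fin (n + 1), ‖Z.coeff j‖ ^ 2 := ⟨_, rfl⟩
  have hC0 : 0 ≤ C := by
    rw [hC]
    positivity
  have hup : d ≠ 0 → ∀ k, (q ((c k : ℂ) • v k)).re * L k ^ (2 * d) ≤ C := by
    intro hd0 k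
    obtain ⟨z, hz, -, -⟩ := hat_surj K n (hL0 k) Z hZd
    have h1 := P5_cmp (hp k) hz hd0 hZlow
    rw [← hC] at h1
    have h2 := hmin k z (hz.trans hZ)
    have h3 : 0 < L k ^ (2 * d) := by
      have := hL0 k
      positivity
    exact (mul_le_mul_of_nonneg_right h2 h3.le).trans h1
  have hco : d ≠ 0 → ∀ k j, ‖((c k : ℂ) • v k) j‖ * L k ^ d ≤ C + 1 := by
    intro hd0 k j
    refine le_of_sq_le_sq ?_ (by linarith)
    have h1 := hup hd0 k
    have h2 : ‖((c k : ℂ) • v k) j‖ ^ 2 ≤ (q ((c k : ℂ) • v k)).re := by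
      rw [P5_re (hr k)]
      exact Finset.single_le_sum (f := fun a => ‖((c k : ℂ) • v k) a‖ ^ 2)
        (fun a _ => by positivity) (Finset.mem_univ j)
    have h3 : 0 < L k ^ (2 * d) := by
      have := hL0 k
      positivity
    calc (‖((c k : ℂ) • v k) j‖ * L k ^ d) ^ 2
        = ‖((c k : ℂ) • v k) j‖ ^ 2 * L k ^ (2 * d) := by ring
      _ ≤ (q ((c k : ℂ) • v k)).re * L k ^ (2 * d) := by gcongr
      _ ≤ C := h1
      _ ≤ (C + 1) ^ 2 := by nlinarith
  have hH : ∀ k, hat K n (L k) ((c k : ℂ) • v k)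
      = Polynomial.X ^ e * (Om N x (at' i p l) 0 * Q k) := by
    intro k
    rw [hQ k, ← mul_assoc, ← P5_Om_split, add_zero]
  have hconv : ∀ j, Tendsto (fun k => (Q k).coeff j) uf
      (𝓝 ((Polynomial.X ^ m : Polynomial ℂ).coeff j)) := by
    refine P5_conv (P5_Om_zero N x (at' i p l)) (t := (nh p : ℂ))
      (by exact_mod_cast P5_nh p) hQd hQe fun j hj => ?_
    have hd0 : d ≠ 0 := by omega
    have e1 : ∀ k, (Om N x (at' i p l) 0 * Q k).coeff j
        = (hat K n (L k) ((c k : ℂ) • v k)).coeff (j + e) := by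
      intro k
      rw [hH k, Polynomial.coeff_X_pow_mul]
    simp only [e1]
    have h1 : Tendsto (fun k => (1 + 2 ^ n) * (C + 1) / L k) uf (𝓝 0) :=
      tendsto_const_nhds.div_atTop hL
    refine squeeze_zero_norm (fun k => ?_) h1
    have h2 := (P5_bd hn (hp k) (hco hd0 k)).2 (j + e)
    have h3 := hL0 k
    rw [le_div_iff₀ h3]
    have h4 : L k ^ (j + e) * L k ≤ L k ^ d := by
      rw [← pow_succ]
      exact pow_le_pow_right₀ (hp k).le (by omega)
    have h5 : 0 < L k ^ d := by positivity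
    have h6 : ‖(hat K n (L k) ((c k : ℂ) • v k)).coeff (j + e)‖ * L k * L k ^ d
        ≤ (1 + 2 ^ n) * (C + 1) * L k ^ d := by
      calc _ = (‖(hat K n (L k) ((c k : ℂ) • v k)).coeff (j + e)‖ * L k ^ d) * L k := by ring
        _ ≤ ((1 + 2 ^ n) * (C + 1) * L k ^ (j + e)) * L k := by gcongr
        _ = (1 + 2 ^ n) * (C + 1) * (L k ^ (j + e) * L k) := by ring
        _ ≤ (1 + 2 ^ n) * (C + 1) * L k ^ d := by gcongr
    exact le_of_mul_le_mul_right h6 h5
  have hcf : ∀ j, Tendsto (fun k => (hat K n (L k) ((c k : ℂ) • v k)).coeff j) uf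
      (𝓝 (Z.coeff j)) := by
    intro j
    have e1 : Z = Om N x (at' i p l) e * Polynomial.X ^ m := by rw [hZ1, mul_comm]
    rw [e1]
    simp only [hQ, Polynomial.coeff_mul]
    exact tendsto_finsetSum _ fun a _ => (hconv a.2).const_mul _
  refine ⟨c, hc0, fun j => ?_, ?_⟩
  · rw [← hZ]
    exact hcf j
  obtain ⟨M, hM⟩ : ∃ M : ℝ, M = (1 + 2 ^ n) * (C + 1) + 4 * (1 + 2 ^ n) ^ 2 + C + 1 := ⟨_, rfl⟩
  have h2n : (0 : ℝ) < 2 ^ n := by positivity
  have hM1 : (1 + 2 ^ n) * (C + 1) ≤ M := by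
    have : (0 : ℝ) ≤ 4 * (1 + 2 ^ n) ^ 2 := by positivity
    linarith
  have hM2 : 4 * (1 + 2 ^ n) ^ 2 ≤ M := by
    have : (0 : ℝ) ≤ (1 + 2 ^ n) * (C + 1) := by positivity
    linarith
  have hM3 : C + 1 ≤ M := by
    have h1 : (0 : ℝ) ≤ (1 + 2 ^ n) * (C + 1) := by positivity
    have h2 : (0 : ℝ) ≤ 4 * (1 + 2 ^ n) ^ 2 := by positivity
    linarith
  have hM0 : 0 < M := by linarith
  have hev : ∀ᶠ k in uf, 1 / 2 ≤ ‖(hat K n (L k) ((c k : ℂ) • v k)).coeff d‖ := by
    have h1 := (hcf d).norm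
    rw [hZtop, norm_one] at h1
    exact (h1.eventually_const_lt (by norm_num)).mono fun k hk => hk.le
  refine ⟨M, hM0, ?_⟩
  filter_upwards [hev] with k hk
  have hLk := hL0 k
  refine ⟨fun j hj => ?_, fun hd0 => ⟨?_, ?_, ?_⟩, fun hd0 => ?_⟩
  · have h1 := (P5_bd hn (hp k) (hco (by omega) k)).2 j
    refine h1.trans ?_
    gcongr
  · exact (P5_bd hn (hp k) (hco hd0 k)).1.trans hM3
  · refine le_trans ?_ (P5_low hn (hp k) (hr k) hk)
    gcongr
  · exact (hup hd0 k).trans (by linarith)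
  · have hm0 : m = 0 := by omega
    have he0 : e = 0 := by omega
    have h1 : (Q k).coeff 0 = 1 := by
      have h2 := hQe k
      have h3 := hQd k
      rw [hm0] at h2 h3
      rw [Polynomial.eq_C_of_natDegree_le_zero h3, Polynomial.eval_C, pow_zero] at h2
      exact h2
    have h4 : (hat K n (L k) ((c k : ℂ) • v k)).coeff 0 = 1 := by
      rw [hH k, he0, pow_zero, one_mul, Polynomial.mul_coeff_zero, P5_Om_zero, h1, one_mul]
    have h5 := (hat_coord K n hLk ((c k : ℂ) • v k)).1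
    rw [h4, mul_one] at h5
    have h6 : ‖((c k : ℂ) • v k) 0‖ ^ 2 ≤ (q ((c k : ℂ) • v k)).re := by
      rw [P5_re (hr k)]
      exact Finset.single_le_sum (f := fun a => ‖((c k : ℂ) • v k) a‖ ^ 2)
        (fun a _ => by positivity) (Finset.mem_univ 0)
    rw [h5, norm_pow, Complex.norm_real, Real.norm_eq_abs, abs_of_pos hLk, ← pow_mul] at h6
    have h7 : M⁻¹ ≤ 1 := inv_le_one_of_one_le₀ (by linarith)
    have h8 : 0 ≤ L k ^ (2 * (K + 2)) := by positivity
    calc M⁻¹ * L k ^ (2 * (K + 2)) ≤ 1 * L k ^ (2 * (K + 2)) := by gcongr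
      _ = L k ^ ((K + 2) * 2) := by rw [one_mul, mul_comm 2]
      _ ≤ _ := h6

end

end Pool.Agent.MPb0eK
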