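import Mathlib
import Pool.Agent.Lib.MP_b0e20b_ag_K.P3
import Pool.Agent.Lib.MP_b0e20b_ag_K.P5

/-!
# MP_b0e20b_ag, project K: base vectors: the sign conditions
-/

set_option autoImplicit false

open scoped BigOperators Topology
open Filter

namespace Pool.Agent.MPb0eK

open MPb0eR (c1 c2 c3 tr q Sup Rl Rea uf Nrm cj AF scl)

section

open Polynomial (C X)

private theorem P6_tendsto_lin (F : Polynomial ℂ →ₗ[ℂ] ℂ) {n : ℕ} {f : ℕ → Polynomial ℂ}
    {g : Polynomial ℂ} (h : ∀ k, (f k).natDegree ≤ n)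
    (hc : ∀ m, Tendsto (fun k => (f k).coeff m) uf (𝓝 (g.coeff m))) :
    Tendsto (fun k => F (f k)) uf (𝓝 (F g)) := by
  have hg : g.natDegree ≤ n := by
    rw [Polynomial.natDegree_le_iff_coeff_eq_zero]
    intro m hm
    refine tendsto_nhds_unique (hc m) ?_
    have : (fun k => (f k).coeff m) = fun _ => 0 := by
      funext k
      exact Polynomial.coeff_eq_zero_of_natDegree_lt (lt_of_le_of_lt (h k) hm)
    rw [this]
    exact tendsto_const_nhds
  have e : ∀ p : Polynomial ℂ, p.natDegree ≤ n →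
      F p = ∑ j ∈ Finset.range (n + 1), p.coeff j * F (Polynomial.monomial j 1) := by
    intro p hp
    conv_lhs => rw [Polynomial.as_sum_range' p (n + 1) (Nat.lt_succ_of_le hp)]
    rw [map_sum]
    refine Finset.sum_congr rfl fun j _ => ?_
    rw [← smul_eq_mul, ← map_smul, Polynomial.smul_monomial, smul_eq_mul, mul_one]
  rw [e g hg]
  have : (fun k => F (f k)) = fun k => ∑ j ∈ Finset.range (n + 1),
      (f k).coeff j * F (Polynomial.monomial j 1) := by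
    funext k
    exact e _ (h k)
  rw [this]
  exact tendsto_finsetSum _ fun j _ => (hc j).mul_const _

private theorem P6_hat_deg (K n : ℕ) (L : ℝ) (v : Fin (n + 1) → ℂ) :
    (hat K n L v).natDegree ≤ n := by
  unfold hat
  refine Polynomial.natDegree_comp_le.trans ?_
  have h1 : (C (L : ℂ) * X : Polynomial ℂ).natDegree ≤ 1 := 
    (Polynomial.natDegree_C_mul_le _ _).trans Polynomial.natDegree_X_le
  calc _ ≤ n * 1 := Nat.mul_le_mul (pol_lin (PL K L) n v v 0).2.2 h1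
    _ = n := mul_one n

private theorem P6_cf0 (a : ℂ) (f : Polynomial ℂ) : ((1 - C a * X) * f).coeff 0 = f.coeff 0 := by
  rw [sub_mul, one_mul, mul_assoc, Polynomial.coeff_sub, Polynomial.coeff_C_mul,
    Polynomial.coeff_X_mul_zero, mul_zero, sub_zero]

private theorem P6_cfs (a : ℂ) (f : Polynomial ℂ) (m : ℕ) :
    ((1 - C a * X) * f).coeff (m + 1) = f.coeff (m + 1) - a * f.coeff m := by
  rw [sub_mul, one_mul, mul_assoc, Polynomial.coeff_sub, Polynomial.coeff_C_mul,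
    Polynomial.coeff_X_mul]

private theorem P6_coef_lim {a : ℂ} {f : ℕ → Polynomial ℂ} {g : Polynomial ℂ}
    (h : ∀ m, Tendsto (fun k => ((1 - C a * X) * f k).coeff m) uf
      (𝓝 (((1 - C a * X) * g).coeff m))) (m : ℕ) :
    Tendsto (fun k => (f k).coeff m) uf (𝓝 (g.coeff m)) := by
  induction m with
  | zero =>
    have := h 0
    simp only [P6_cf0] at this
    exact this
  | succ m ih =>
    have := h (m + 1)
    simp only [P6_cfs] at this
    have h2 := this.add (ih.const_mul a)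
    simp only [sub_add_cancel] at h2
    exact h2

private theorem P6_bd {a : ℂ} (ha : ‖a‖ ≤ 1) {f : Polynomial ℂ} {d : ℕ} {M L : ℝ} (hM : 0 < M)
    (hL : 1 < L) (h : ∀ m, m < d → ‖((1 - C a * X) * f).coeff m‖ * L ^ d ≤ M * L ^ m) (m : ℕ)
    (hm : m < d) : ‖f.coeff m‖ * L ^ d ≤ ((m : ℝ) + 1) * M * L ^ m := by
  induction m with
  | zero =>
    have := h 0 hm
    rw [P6_cf0] at this
    simpa using this
  | succ m ih =>
    have h1 := h (m + 1) hm
    have h2 := ih (by omega)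
    rw [P6_cfs] at h1
    have e : f.coeff (m + 1) = (f.coeff (m + 1) - a * f.coeff m) + a * f.coeff m := by ring
    have hL0 : 0 < L := by linarith
    have h3 : ‖f.coeff (m + 1)‖ ≤ ‖f.coeff (m + 1) - a * f.coeff m‖ + ‖f.coeff m‖ := by
      conv_lhs => rw [e]
      refine (norm_add_le _ _).trans (add_le_add le_rfl ?_)
      rw [norm_mul]
      calc ‖a‖ * ‖f.coeff m‖ ≤ 1 * ‖f.coeff m‖ :=
            mul_le_mul_of_nonneg_right ha (norm_nonneg _)
        _ = _ := one_mul _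
    have h4 : L ^ m ≤ L ^ (m + 1) := pow_le_pow_right₀ hL.le (Nat.le_succ m)
    calc ‖f.coeff (m + 1)‖ * L ^ d
        ≤ (‖f.coeff (m + 1) - a * f.coeff m‖ + ‖f.coeff m‖) * L ^ d :=
          mul_le_mul_of_nonneg_right h3 (by positivity)
      _ = ‖f.coeff (m + 1) - a * f.coeff m‖ * L ^ d + ‖f.coeff m‖ * L ^ d := by ring
      _ ≤ M * L ^ (m + 1) + ((m : ℝ) + 1) * M * L ^ m := add_le_add h1 h2
      _ ≤ M * L ^ (m + 1) + ((m : ℝ) + 1) * M * L ^ (m + 1) :=
          add_le_add le_rfl (mul_le_mul_of_nonneg_left h4 (by positivity))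
      _ = (((m + 1 : ℕ) : ℝ) + 1) * M * L ^ (m + 1) := by push_cast; ring

private theorem P6_qsum {n : ℕ} {v : Fin (n + 1) → ℂ} (hr : Rea v) :
    (q v).re = ∑ j, ‖v j‖ ^ 2 ∧ ‖q v‖ = (q v).re := by
  have e : q v = ((∑ j, ‖v j‖ ^ 2 : ℝ) : ℂ) := by
    unfold MPb0eR.q
    rw [Complex.ofReal_sum]
    refine Finset.sum_congr rfl fun j _ => ?_
    have h1 : v j = ((v j).re : ℂ) := Complex.ext rfl (by rw [hr j]; rfl)
    rw [Complex.sq_norm, Complex.normSq_apply, hr j]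
    conv_lhs => rw [h1]
    push_cast
    ring
  constructor
  · rw [e, Complex.ofReal_re]
  · rw [e, Complex.norm_real, Complex.ofReal_re, Real.norm_eq_abs]
    exact abs_of_nonneg (Finset.sum_nonneg fun j _ => sq_nonneg _)

private theorem P6_cs {n : ℕ} (v w : Fin (n + 1) → ℂ) :
    ‖dt v w‖ ^ 2 ≤ (∑ j, ‖v j‖ ^ 2) * ∑ j, ‖w j‖ ^ 2 := by
  have h1 : ‖dt v w‖ ≤ ∑ j, ‖v j‖ * ‖w j‖ := by
    refine (norm_sum_le _ _).trans (Finset.sum_le_sum fun j _ => ?_)
    rw [norm_mul]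
  have h2 : 0 ≤ ‖dt v w‖ := norm_nonneg _
  calc ‖dt v w‖ ^ 2 ≤ (∑ j, ‖v j‖ * ‖w j‖) ^ 2 := pow_le_pow_left₀ h2 h1 2
    _ ≤ _ := Finset.sum_mul_sq_le_sq_mul_sq _ _ _

/-- The estimate of one pairing. -/
private theorem P6_est {K n : ℕ} {L : ℝ} (hL : 1 < L) {a : ℂ} (ha : ‖a‖ ≤ 1) {d : ℕ}
    {v Z : Fin (n + 1) → ℂ} (hr : Rea v) (h0 : v ≠ 0)
    (hZ : hat K n L v = (1 - C a * X) * hat K n L Z) {M B : ℝ} (hM : 0 < M) (hB : 0 ≤ B)
    (hb : ∀ m, m < d → ‖(hat K n L v).coeff m‖ * L ^ d ≤ M * L ^ m)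
    (hq : M⁻¹ ≤ (q v).re * L ^ (2 * d))
    (hc : ∀ m, m ≤ n → ‖(hat K n L Z).coeff m‖ ≤ B) :
    ‖dt v Z / q v - 1‖ ≤ Real.sqrt (((n : ℝ) + 1) * ((d : ℝ) * M + B) ^ 2 * M) / L := by
  have hL0 : 0 < L := by linarith
  set W : Fin (n + 1) → ℂ := Z + (-1 : ℂ) • v with hW
  have qv : 0 < (q v).re := (q_rea_pos hr h0).1
  have qn : ‖q v‖ = (q v).re := (P6_qsum hr).2
  have q0 : q v ≠ 0 := fun h => by rw [h] at qv; simp at qv
  have hWh : hat K n L W = C a * (X * hat K n L Z) := by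
    rw [hW, (hat_lin K n L Z ((-1 : ℂ) • v) 1).1, (hat_lin K n L v v (-1)).2, hZ]
    simp only [map_neg, map_one]
    ring
  have c0 : (hat K n L W).coeff 0 = 0 := by
    rw [hWh, Polynomial.coeff_C_mul, Polynomial.coeff_X_mul_zero, mul_zero]
  have cs : ∀ m, (hat K n L W).coeff (m + 1) = a * (hat K n L Z).coeff m := by
    intro m
    rw [hWh, Polynomial.coeff_C_mul, Polynomial.coeff_X_mul]
  obtain ⟨w0, wj⟩ := hat_coord K n hL0 W
  rw [c0, mul_zero] at w0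
  have hbd : ∀ m, m < d → ‖(hat K n L Z).coeff m‖ * L ^ d ≤ ((m : ℝ) + 1) * M * L ^ m :=
    P6_bd ha hM hL fun m hm => by rw [← hZ]; exact hb m hm
  have hWb : ∀ j, ‖W j‖ * L ^ (d + 1) ≤ (d : ℝ) * M + B := by
    intro j
    by_cases hj : (j : ℕ) = 0
    · have : j = 0 := Fin.ext hj
      rw [this, w0, norm_zero, zero_mul]
      positivity
    · obtain ⟨m, hm⟩ : ∃ m, (j : ℕ) = m + 1 := Nat.exists_eq_succ_of_ne_zero hj
      rw [wj j hj, w0, mul_zero, sub_zero, hm, cs, norm_mul, norm_mul, norm_inv, norm_pow,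
        Complex.norm_real, Real.norm_eq_abs, abs_of_pos hL0]
      have hLp : 0 < L ^ (m + 1) := by positivity
      have h1 : (L ^ (m + 1))⁻¹ * (‖a‖ * ‖(hat K n L Z).coeff m‖) * L ^ (d + 1)
          ≤ (L ^ m)⁻¹ * (‖(hat K n L Z).coeff m‖ * L ^ d) := by
        have e1 : (L ^ (m + 1))⁻¹ * (‖a‖ * ‖(hat K n L Z).coeff m‖) * L ^ (d + 1)
            = ‖a‖ * ((L ^ m)⁻¹ * (‖(hat K n L Z).coeff m‖ * L ^ d)) := by
          rw [pow_succ, pow_succ]
          field_simp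
        rw [e1]
        have h2 : 0 ≤ (L ^ m)⁻¹ * (‖(hat K n L Z).coeff m‖ * L ^ d) := by positivity
        calc _ ≤ 1 * ((L ^ m)⁻¹ * (‖(hat K n L Z).coeff m‖ * L ^ d)) :=
              mul_le_mul_of_nonneg_right ha h2
          _ = _ := one_mul _
      refine h1.trans ?_
      have hLm : 0 < L ^ m := by positivity
      by_cases hmd : m < d
      · have h3 := hbd m hmd
        have h4 : ((m : ℝ) + 1) ≤ d := by exact_mod_cast hmd
        calc (L ^ m)⁻¹ * (‖(hat K n L Z).coeff m‖ * L ^ d)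
            ≤ (L ^ m)⁻¹ * (((m : ℝ) + 1) * M * L ^ m) :=
              mul_le_mul_of_nonneg_left h3 (by positivity)
          _ = ((m : ℝ) + 1) * M := by field_simp
          _ ≤ d * M := mul_le_mul_of_nonneg_right h4 hM.le
          _ ≤ d * M + B := le_add_of_nonneg_right hB
      · have hm' : m ≤ n := by
          have := j.2
          omega
        have h5 : L ^ d ≤ L ^ m := pow_le_pow_right₀ hL.le (not_lt.1 hmd)
        calc (L ^ m)⁻¹ * (‖(hat K n L Z).coeff m‖ * L ^ d)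
            ≤ (L ^ m)⁻¹ * (B * L ^ m) :=
              mul_le_mul_of_nonneg_left (mul_le_mul (hc m hm') h5 (by positivity) hB)
                (by positivity)
          _ = B := by field_simp
          _ ≤ d * M + B := le_add_of_nonneg_left (by positivity)
  have hZe : Z = v + W := by
    rw [hW]
    funext j
    simp
  have e1 : dt v Z / q v - 1 = dt v W / q v := by
    rw [hZe, dt_add_right, dt_self, add_div, div_self q0]
    ring
  rw [e1, norm_div, qn]
  set D : ℝ := (d : ℝ) * M + B with hD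
  have hD0 : 0 ≤ D := by positivity
  have hWs : ∑ j, ‖W j‖ ^ 2 ≤ ((n : ℝ) + 1) * (D / L ^ (d + 1)) ^ 2 := by
    calc ∑ j, ‖W j‖ ^ 2 ≤ ∑ _j : Fin (n + 1), (D / L ^ (d + 1)) ^ 2 :=
          Finset.sum_le_sum fun j _ => pow_le_pow_left₀ (norm_nonneg _)
            ((le_div_iff₀ (by positivity)).2 (hWb j)) 2
      _ = _ := by
          rw [Finset.sum_const, Finset.card_univ, Fintype.card_fin, nsmul_eq_mul]
          push_cast
          ring
  have h6 : (‖dt v W‖ / (q v).re) ^ 2 ≤ (((n : ℝ) + 1) * D ^ 2 * M) / L ^ 2 := by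
    have h7 := P6_cs v W
    rw [← (P6_qsum hr).1] at h7
    have h8 : ‖dt v W‖ ^ 2 ≤ (q v).re * (((n : ℝ) + 1) * (D / L ^ (d + 1)) ^ 2) :=
      h7.trans (mul_le_mul_of_nonneg_left hWs qv.le)
    rw [div_pow, div_le_div_iff₀ (by positivity) (by positivity)]
    have h9 : 1 ≤ M * ((q v).re * L ^ (2 * d)) := by
      rw [inv_eq_one_div, div_le_iff₀ hM] at hq
      linarith
    calc ‖dt v W‖ ^ 2 * L ^ 2
        ≤ (q v).re * (((n : ℝ) + 1) * (D / L ^ (d + 1)) ^ 2) * L ^ 2 :=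
          mul_le_mul_of_nonneg_right h8 (by positivity)
      _ = ((n : ℝ) + 1) * D ^ 2 * (q v).re * (1 / L ^ (2 * d)) := by
          field_simp
          ring
      _ ≤ ((n : ℝ) + 1) * D ^ 2 * (q v).re * (M * (q v).re) := by
          refine mul_le_mul_of_nonneg_left ?_ (by positivity)
          rw [div_le_iff₀ (by positivity)]
          linarith
      _ = _ := by ring
  have h10 : ‖dt v W‖ / (q v).re ≤ Real.sqrt ((((n : ℝ) + 1) * D ^ 2 * M) / L ^ 2) :=
    Real.le_sqrt_of_sq_le h6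
  refine h10.trans (le_of_eq ?_)
  rw [Real.sqrt_div (by positivity), Real.sqrt_sq hL0.le]

/-! ### Taylor coefficients -/

private theorem P6_ty (a r : ℂ) (f : Polynomial ℂ) :
    Polynomial.taylor r ((1 - C a * X) * f)
      = (C (1 - a * r) - C a * X) * Polynomial.taylor r f := by
  rw [Polynomial.taylor_mul, map_sub, Polynomial.taylor_one, Polynomial.taylor_mul,
    Polynomial.taylor_C, Polynomial.taylor_X]
  simp only [map_sub, map_mul, map_one]
  ring

private theorem P6_ty0 (a r : ℂ) (f : Polynomial ℂ) :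
    (Polynomial.taylor r ((1 - C a * X) * f)).coeff 0
      = (1 - a * r) * (Polynomial.taylor r f).coeff 0 := by
  rw [P6_ty, sub_mul, mul_assoc, Polynomial.coeff_sub, Polynomial.coeff_C_mul,
    Polynomial.coeff_C_mul, Polynomial.coeff_X_mul_zero, mul_zero, sub_zero]

private theorem P6_tys (a r : ℂ) (f : Polynomial ℂ) (m : ℕ) :
    (Polynomial.taylor r ((1 - C a * X) * f)).coeff (m + 1)
      = (1 - a * r) * (Polynomial.taylor r f).coeff (m + 1)
        - a * (Polynomial.taylor r f).coeff m := by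
  rw [P6_ty, sub_mul, mul_assoc, Polynomial.coeff_sub, Polynomial.coeff_C_mul,
    Polynomial.coeff_C_mul, Polynomial.coeff_X_mul]

private theorem P6_rel {K n : ℕ} {L : ℝ} (hL : 0 < L) {a : ℂ} {v Z : Fin (n + 1) → ℂ}
    (hZ : hat K n L v = (1 - C a * X) * hat K n L Z) (p l : ℕ)
    (h : ∀ m, m < l → pr (tau (PL K L) n ((PL K L).g p) m) Z = 0) :
    pr (tau (PL K L) n ((PL K L).g p) l) v
      = (1 - a * (nh p : ℂ)) * pr (tau (PL K L) n ((PL K L).g p) l) Z := by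
  have hLc : (L : ℂ) ≠ 0 := by exact_mod_cast hL.ne'
  rw [hat_tau K n hL p l v, hat_tau K n hL p l Z, hZ]
  rcases l with _ | l
  · rw [P6_ty0]
    ring
  · have h1 := h l (Nat.lt_succ_self l)
    rw [hat_tau K n hL p l Z] at h1
    have h2 := (mul_eq_zero.1 h1).resolve_left (inv_ne_zero (pow_ne_zero _ hLc))
    rw [P6_tys, h2]
    ring

private theorem P6_rel' {K n : ℕ} {L : ℝ} (hL : 0 < L) {a : ℂ} {v Z : Fin (n + 1) → ℂ}
    (hZ : hat K n L v = (1 - C a * X) * hat K n L Z) (p l : ℕ) (ha : a * (nh p : ℂ) = 1) :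
    pr (tau (PL K L) n ((PL K L).g p) (l + 1)) v
      = - (a / L) * pr (tau (PL K L) n ((PL K L).g p) l) Z := by
  have hLc : (L : ℂ) ≠ 0 := by exact_mod_cast hL.ne'
  rw [hat_tau K n hL p (l + 1) v, hat_tau K n hL p l Z, hZ, P6_tys, ha, pow_succ, mul_inv]
  field_simp
  ring

/-! ### The defect -/

private theorem P6_up {P : Par} {n : ℕ} {x : Fin 3} {i : ℕ → ℕ} {p l : ℕ} {v : Fin (n + 1) → ℂ}
    (hv : v ∈ Xo P n x (at' i p l)) (h : pr (tau P n (P.g p) l) v = 0) :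
    v ∈ Xo P n x (at' i p (l + 1)) := by
  refine ⟨hv.1, fun p' l' hl' => ?_⟩
  by_cases hp : p' = p
  · subst hp
    rw [at', Function.update_self] at hl'
    rcases Nat.lt_succ_iff_lt_or_eq.1 hl' with h1 | h1
    · exact hv.2 p' l' (by rw [at', Function.update_self]; exact h1)
    · rw [h1, h]
  · refine hv.2 p' l' ?_
    rw [at', Function.update_of_ne hp] at hl' ⊢
    exact hl'

private theorem P6_phi {P : Par} {n : ℕ} {x : Fin 3} {i : ℕ → ℕ} {p l : ℕ} {v : Fin (n + 1) → ℂ}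
    (hB : Bv P n x i p l v) : pr (tau P n (P.g p) l) v ≠ 0 := by
  intro h
  have h1 := hB.orth v (P6_up hB.mem h)
  rw [dt_self] at h1
  have h2 := (q_rea_pos hB.re hB.ne).1
  rw [h1] at h2
  simp at h2

private theorem P6_q0 {P : Par} {n : ℕ} {x : Fin 3} {i : ℕ → ℕ} {p l : ℕ} {v : Fin (n + 1) → ℂ}
    (hB : Bv P n x i p l v) : q v ≠ 0 := by
  intro h
  have h2 := (q_rea_pos hB.re hB.ne).1
  rw [h] at h2
  simp at h2

private theorem P6_df_add {P : Par} {n p l : ℕ} (v z z' : Fin (n + 1) → ℂ) :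
    Df P n p l v (z + z') = Df P n p l v z + Df P n p l v z' := by
  unfold Df
  rw [pr_add, dt_add_right]
  ring

private theorem P6_df_smul {P : Par} {n p l : ℕ} (v z : Fin (n + 1) → ℂ) (c : ℂ) :
    Df P n p l v (c • z) = c * Df P n p l v z := by
  unfold Df
  rw [pr_smul, dt_smul_right]
  ring

private theorem P6_df0 {P : Par} {n : ℕ} {x : Fin 3} {i : ℕ → ℕ} {p l : ℕ} {v : Fin (n + 1) → ℂ}
    (hB : Bv P n x i p l v) {z : Fin (n + 1) → ℂ} (hz : z ∈ Xo P n x (at' i p l)) :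
    Df P n p l v z = 0 := by
  have hφ := P6_phi hB
  have hq := P6_q0 hB
  set t := pr (tau P n (P.g p) l) z / pr (tau P n (P.g p) l) v with ht
  have h1 : z + (-t) • v ∈ Xo P n x (at' i p l) :=
    Submodule.add_mem _ hz (Submodule.smul_mem _ _ hB.mem)
  have h2 : pr (tau P n (P.g p) l) (z + (-t) • v) = 0 := by
    rw [pr_add, pr_smul, ht]
    field_simp
    ring
  have h3 := hB.orth _ (P6_up h1 h2)
  rw [dt_add_right, dt_smul_right, dt_self] at h3
  unfold Df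
  have h4 : dt v z = t * q v := by linear_combination h3
  rw [h4, ht]
  field_simp
  ring

/-! ### The sign conditions for one parameter -/

private theorem P6_nh_pos (p : ℕ) : 0 < nh p := by
  unfold nh
  split_ifs
  · norm_num
  · positivity

private theorem P6_nh_lt {p p' : ℕ} (h : p < p') : nh p < nh p' := by
  unfold nh
  have h1 : p' ≠ 0 := by omega
  rw [if_neg h1]
  have h2 : (p : ℝ) < p' := by exact_mod_cast h
  split_ifs with h3
  · have : (0 : ℝ) < p' := by exact_mod_cast Nat.pos_of_ne_zero h1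
    linarith
  · linarith

private theorem P6_sq {w r : ℂ} (hw : w.im = 0) : (w ^ 2 * r).re = w.re ^ 2 * r.re := by
  rw [sq, Complex.mul_re, Complex.mul_re, Complex.mul_im, hw]
  ring

private theorem P6_b1 {K N n : ℕ} {L : ℝ} (hL : 0 < L) {x : Fin 3} {i : ℕ → ℕ} {p l : ℕ}
    {v Z : Fin (n + 1) → ℂ} (hB : Bv (PL K L) n x i p l v) {p' : ℕ} (hp : p < p')
    (hi : i p' ≠ 0) (hZ : hat K n L v = (1 - C ((nh p' : ℂ))⁻¹ * X) * hat K n L Z)
    (hm : Z ∈ Xo (PL K L) n x (dn (at' i p l) p'))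
    (hr : (dt v Z / q v).re < (1 - nh p / nh p')⁻¹) {z : Fin (n + 1) → ℂ}
    (hz : z ∈ Xo (PL K L) n x (dn (at' i p l) p'))
    (h1 : pr (tau (PL K L) n ((PL K L).g p') (i p' - 1)) z = 1) :
    (Df (PL K L) n p l v z * pr (tau (PL K L) n ((PL K L).g p) l) v
      * pr (tau (PL K L) n ((PL K L).g p') (i p')) v).re < 0 := by
  have hpp : p' ≠ p := by omega
  have hn := P6_nh_pos p'
  have hs1 : nh p / nh p' < 1 := (div_lt_one hn).2 (P6_nh_lt hp)
  have hIp : at' i p l p' = i p' := by rw [at', Function.update_of_ne hpp]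
  have hφ := P6_phi hB
  have hq := P6_q0 hB
  set φv := pr (tau (PL K L) n ((PL K L).g p) l) v with hφv
  set φZ := pr (tau (PL K L) n ((PL K L).g p) l) Z with hφZ
  set t := pr (tau (PL K L) n ((PL K L).g p') (i p' - 1)) Z with ht
  have e1 : φv = (1 - ((nh p' : ℂ))⁻¹ * (nh p : ℂ)) * φZ :=
    P6_rel hL hZ p l fun m hm' => hm.2 p m (by
      rw [dn, Function.update_of_ne hpp.symm, at', Function.update_self]; exact hm')
  have hnc : (nh p' : ℂ) ≠ 0 := by exact_mod_cast hn.ne'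
  have hLc : (L : ℂ) ≠ 0 := by exact_mod_cast hL.ne'
  have e2 : pr (tau (PL K L) n ((PL K L).g p') (i p')) v = - (((nh p' : ℂ))⁻¹ / L) * t := by
    obtain ⟨m, hm'⟩ := Nat.exists_eq_succ_of_ne_zero hi
    rw [ht, hm', Nat.succ_eq_add_one, Nat.add_sub_cancel]
    exact P6_rel' hL hZ p' m (inv_mul_cancel₀ hnc)
  -- the factor
  set s : ℝ := nh p / nh p' with hs
  have hsc : (1 - ((nh p' : ℂ))⁻¹ * (nh p : ℂ)) = ((1 - s : ℝ) : ℂ) := by
    rw [hs]
    push_cast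
    field_simp
  have hs0 : (1 - s : ℝ) ≠ 0 := by linarith
  have hs0c : ((1 - s : ℝ) : ℂ) ≠ 0 := by exact_mod_cast hs0
  rw [hsc] at e1
  have e3 : φZ = (((1 - s)⁻¹ : ℝ) : ℂ) * φv := by
    rw [e1, Complex.ofReal_inv, ← mul_assoc, inv_mul_cancel₀ hs0c, one_mul]
  have e4 : Df (PL K L) n p l v Z = φv * ((((1 - s)⁻¹ : ℝ) : ℂ) - dt v Z / q v) := by
    unfold Df
    rw [← hφZ, ← hφv, e3]
    ring
  have hpos : (((((1 - s)⁻¹ : ℝ) : ℂ) - dt v Z / q v)).re > 0 := by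
    rw [Complex.sub_re, Complex.ofReal_re]
    linarith
  have hne : Df (PL K L) n p l v Z ≠ 0 := by
    rw [e4]
    refine mul_ne_zero hφ fun h => ?_
    rw [h] at hpos
    simp at hpos
  have ht0 : t ≠ 0 := by
    intro h
    refine hne (P6_df0 hB ?_)
    have h2 := tst_diff (PL_good K N hL) n x (i := at' i p l) (p' := p') (by rw [hIp]; exact hi)
      (fun p'' h => (PL_good K N hL).inj h.symm) hm (Submodule.zero_mem _)
      (by rw [hIp, ← ht, h]; simp [pr])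
    rwa [sub_zero] at h2
  have h3 := tst_diff (PL_good K N hL) n x (i := at' i p l) (p' := p') (by rw [hIp]; exact hi)
      (fun p'' h => (PL_good K N hL).inj h.symm) hz (Submodule.smul_mem _ t⁻¹ hm)
      (by rw [hIp, h1, pr_smul, ← ht, inv_mul_cancel₀ ht0])
  have h4 := P6_df0 hB h3
  have h5 : Df (PL K L) n p l v z = t⁻¹ * Df (PL K L) n p l v Z := by
    have e : z - t⁻¹ • Z = z + (-t⁻¹) • Z := by rw [neg_smul, sub_eq_add_neg]
    rw [e, P6_df_add, P6_df_smul] at h4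
    linear_combination h4
  have h6 : Df (PL K L) n p l v z * φv * pr (tau (PL K L) n ((PL K L).g p') (i p')) v
      = ((-(nh p' * L)⁻¹ : ℝ) : ℂ) * (φv ^ 2 * ((((1 - s)⁻¹ : ℝ) : ℂ) - dt v Z / q v)) := by
    rw [h5, e4, e2]
    push_cast
    field_simp
  rw [h6, Complex.re_ofReal_mul, P6_sq (pr_re _ hB.re)]
  have h7 : φv.re ≠ 0 := fun h => hφ (Complex.ext h (pr_re _ hB.re))
  have h8 : 0 < φv.re ^ 2 := by positivity
  have h9 : 0 < (nh p' * L)⁻¹ := by positivity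
  have h10 := mul_pos h9 (mul_pos h8 hpos)
  linarith

private theorem P6_b4 {K n : ℕ} {L : ℝ} (hL : 0 < L) {i : ℕ → ℕ} {p l : ℕ}
    {v Z : Fin (n + 1) → ℂ} (hB : Bv (PL K L) n 2 i p l v) (hp : 1 ≤ p)
    (hZ : hat K n L v = (1 - C (1 / 2 : ℂ) * X) * hat K n L Z)
    (hm : Z ∈ Xo (PL K L) n 1 (at' i p l)) (h2 : (hat K n L Z).eval 2 ≠ 0)
    (hr : ((((1 - nh p / 2)⁻¹ : ℝ) - dt v Z / q v)
      * ((hat K n L Z).eval 1 / (2 * (hat K n L Z).eval 2))).re < 0) {z : Fin (n + 1) → ℂ}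
    (hz : z ∈ Xo (PL K L) n 1 (at' i p l)) (h1 : pr (hv (PL K L) n) z = 1) :
    (Df (PL K L) n p l v z * pr (tau (PL K L) n ((PL K L).g p) l) v
      * pr (tau (PL K L) n ((PL K L).g 0) 0) v).re < 0 := by
  have hφ := P6_phi hB
  have hq := P6_q0 hB
  set φv := pr (tau (PL K L) n ((PL K L).g p) l) v with hφv
  set φZ := pr (tau (PL K L) n ((PL K L).g p) l) Z with hφZ
  have z0 : Z 0 = 0 := (mem_XM.1 hm.1).1 (by decide)
  have eh : pr (hv (PL K L) n) Z = (hat K n L Z).eval 2 := hat_hv K n hL Z z0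
  have e1 : φv = (1 - (1 / 2 : ℂ) * (nh p : ℂ)) * φZ :=
    P6_rel hL hZ p l fun m hm' => hm.2 p m (by rw [at', Function.update_self]; exact hm')
  have e0 : pr (tau (PL K L) n ((PL K L).g 0) 0) v = (1 / 2 : ℂ) * (hat K n L Z).eval 1 := by
    rw [P6_rel hL hZ 0 0 fun m hm' => absurd hm' (Nat.not_lt_zero m), hat_tau K n hL 0 0 Z,
      Polynomial.taylor_coeff_zero]
    have : nh 0 = 1 := by simp [nh]
    rw [this]
    push_cast
    ring
  set s : ℝ := nh p / 2 with hs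
  have hs1 : 1 < s := by
    rw [hs]
    have : (1 : ℝ) ≤ p := by exact_mod_cast hp
    have h3 : nh p = p + 2 := by
      unfold nh
      rw [if_neg (by omega)]
    rw [h3]
    linarith
  have hsc : (1 - (1 / 2 : ℂ) * (nh p : ℂ)) = ((1 - s : ℝ) : ℂ) := by
    rw [hs]
    push_cast
    ring
  have hs0 : (1 - s : ℝ) ≠ 0 := by linarith
  have hs0c : ((1 - s : ℝ) : ℂ) ≠ 0 := by exact_mod_cast hs0
  rw [hsc] at e1
  have e3 : φZ = (((1 - s)⁻¹ : ℝ) : ℂ) * φv := by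
    rw [e1, Complex.ofReal_inv, ← mul_assoc, inv_mul_cancel₀ hs0c, one_mul]
  have e4 : Df (PL K L) n p l v Z = φv * ((((1 - s)⁻¹ : ℝ) : ℂ) - dt v Z / q v) := by
    unfold Df
    rw [← hφZ, ← hφv, e3]
    ring
  set t := (hat K n L Z).eval 2 with ht
  have h3 := tst_diffh (P := PL K L) n (i := at' i p l) hz (Submodule.smul_mem _ t⁻¹ hm)
      (by rw [h1, pr_smul, eh, inv_mul_cancel₀ h2])
  have h4 := P6_df0 hB h3
  have h5 : Df (PL K L) n p l v z = t⁻¹ * Df (PL K L) n p l v Z := by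
    have e : z - t⁻¹ • Z = z + (-t⁻¹) • Z := by rw [neg_smul, sub_eq_add_neg]
    rw [e, P6_df_add, P6_df_smul] at h4
    linear_combination h4
  have h6 : Df (PL K L) n p l v z * φv * pr (tau (PL K L) n ((PL K L).g 0) 0) v
      = φv ^ 2 * (((((1 - s)⁻¹ : ℝ) : ℂ) - dt v Z / q v)
        * ((hat K n L Z).eval 1 / (2 * t))) := by
    rw [h5, e4, e0]
    field_simp
  rw [h6, P6_sq (pr_re _ hB.re)]
  have h7 : φv.re ≠ 0 := fun h => hφ (Complex.ext h (pr_re _ hB.re))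
  have h8 : 0 < φv.re ^ 2 := by positivity
  exact mul_neg_of_pos_of_neg h8 hr

/-! ### The node product -/

private theorem P6_Om_dn {N : ℕ} (x : Fin 3) {I : ℕ → ℕ} {p' : ℕ} (hp : p' ≤ N) (h : I p' ≠ 0)
    (k : ℕ) : Om N x I k = (1 - C ((nh p' : ℂ))⁻¹ * X) * Om N x (dn I p') k := by
  unfold Om
  have hm : p' ∈ Finset.range (N + 1) := Finset.mem_range.2 (Nat.lt_succ_of_le hp)
  rw [← Finset.mul_prod_erase _ _ hm, ← Finset.mul_prod_erase (Finset.range (N + 1))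
    (fun p => (1 - C ((nh p : ℂ))⁻¹ * X) ^ dn I p' p) hm]
  have e : ∏ p ∈ (Finset.range (N + 1)).erase p', (1 - C ((nh p : ℂ))⁻¹ * X) ^ dn I p' p
      = ∏ p ∈ (Finset.range (N + 1)).erase p', (1 - C ((nh p : ℂ))⁻¹ * X) ^ I p :=
    Finset.prod_congr rfl fun p hp => by
      rw [dn, Function.update_of_ne (Finset.ne_of_mem_erase hp)]
  rw [e]
  obtain ⟨m, hm'⟩ := Nat.exists_eq_succ_of_ne_zero h
  have e2 : dn I p' p' = m := by rw [dn, Function.update_self, hm']; rfl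
  rw [e2, hm', Nat.succ_eq_add_one, pow_succ]
  ring

private theorem P6_Om_2 (N : ℕ) (I : ℕ → ℕ) (k : ℕ) :
    Om N 2 I k = (1 - C (1 / 2 : ℂ) * X) * Om N 1 I k := by
  unfold Om
  rw [if_pos rfl, if_neg (by decide)]
  ring

private theorem P6_Om_ev (N : ℕ) (x : Fin 3) (I : ℕ → ℕ) (k : ℕ) (s : ℝ) :
    (Om N x I k).eval (s : ℂ) = ((s ^ k * (if x = 2 then 1 - 1 / 2 * s else 1)
      * ∏ p ∈ Finset.range (N + 1), (1 - (nh p)⁻¹ * s) ^ I p : ℝ) : ℂ) := by
  unfold Om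
  rw [Polynomial.eval_mul, Polynomial.eval_mul, Polynomial.eval_pow, Polynomial.eval_X,
    Polynomial.eval_prod]
  push_cast
  congr 1
  · congr 1
    split_ifs <;> simp
  · refine Finset.prod_congr rfl fun p _ => ?_
    simp

private theorem P6_nh3 {p : ℕ} (h : 1 ≤ p) {s : ℝ} (hs : s ≤ 2) : 0 < 1 - (nh p)⁻¹ * s := by
  have h1 : (3 : ℝ) ≤ nh p := by
    unfold nh
    rw [if_neg (by omega)]
    have : (1 : ℝ) ≤ p := by exact_mod_cast h
    linarith
  have h2 : (nh p)⁻¹ ≤ 3⁻¹ := inv_anti₀ (by norm_num) h1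
  have h3 : 0 < (nh p)⁻¹ := inv_pos.2 (by linarith)
  nlinarith

private theorem P6_prod_pos {S : Finset ℕ} {I : ℕ → ℕ} (h : ∀ p ∈ S, I p ≠ 0 → 1 ≤ p) {s : ℝ}
    (hs : s ≤ 2) : 0 < ∏ p ∈ S, (1 - (nh p)⁻¹ * s) ^ I p := by
  refine Finset.prod_pos fun p hp => ?_
  by_cases h1 : I p = 0
  · rw [h1, pow_zero]
    exact one_pos
  · exact pow_pos (P6_nh3 (h p hp h1) hs) _

private theorem P6_tl (l : ℕ) (G : Polynomial ℂ) :
    (Polynomial.taylor 1 ((1 - C (1 : ℂ) * X) ^ l * G)).coeff l = (-1) ^ l * G.eval 1 := by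
  induction l with
  | zero => simp
  | succ l ih =>
    rw [pow_succ', mul_assoc, P6_tys, ih]
    ring

private theorem P6_Om_ty (N : ℕ) (I : ℕ → ℕ) (k : ℕ) :
    (Polynomial.taylor 1 (Om N 1 I k)).coeff (I 0) = ((-1) ^ I 0
      * ((∏ p ∈ (Finset.range (N + 1)).erase 0, (1 - (nh p)⁻¹ * 1) ^ I p : ℝ) : ℂ)) := by
  have hm : 0 ∈ Finset.range (N + 1) := Finset.mem_range.2 (Nat.succ_pos N)
  have e : Om N 1 I k = (1 - C (1 : ℂ) * X) ^ I 0 * (X ^ k
      * ∏ p ∈ (Finset.range (N + 1)).erase 0, (1 - C ((nh p : ℂ))⁻¹ * X) ^ I p) := by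
    unfold Om
    rw [if_neg (by decide), ← Finset.mul_prod_erase _ _ hm]
    have : nh 0 = 1 := by simp [nh]
    rw [this, Complex.ofReal_one, inv_one]
    ring
  rw [e, P6_tl]
  congr 1
  rw [Polynomial.eval_mul, Polynomial.eval_pow, Polynomial.eval_X, one_pow, one_mul,
    Polynomial.eval_prod]
  push_cast
  refine Finset.prod_congr rfl fun p _ => ?_
  simp

private theorem P6_Om_e2 (N : ℕ) (I : ℕ → ℕ) (k : ℕ) :
    (Om N 1 I k).eval 2 = ((-1) ^ I 0 * ((2 ^ k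
      * ∏ p ∈ (Finset.range (N + 1)).erase 0, (1 - (nh p)⁻¹ * 2) ^ I p : ℝ) : ℂ)) := by
  have hm : 0 ∈ Finset.range (N + 1) := Finset.mem_range.2 (Nat.succ_pos N)
  have h := P6_Om_ev N 1 I k 2
  rw [if_neg (by decide), ← Finset.mul_prod_erase _ _ hm] at h
  have h0 : nh 0 = 1 := by simp [nh]
  have h2 : ((2 : ℝ) : ℂ) = 2 := by norm_num
  rw [h0, h2] at h
  rw [h]
  push_cast
  norm_num
  ring

/-! ### Existence of the quotients -/

private theorem P6_deg {K n : ℕ} {L : ℝ} {v : Fin (n + 1) → ℂ} {a : ℂ}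
    {R : Polynomial ℂ} (h : hat K n L v = (1 - C a * X) * R) : R.natDegree ≤ n := by
  by_cases hR : R = 0
  · rw [hR, Polynomial.natDegree_zero]
    exact Nat.zero_le _
  · have h1 : (1 - C a * X : Polynomial ℂ) ≠ 0 := by
      intro h2
      have h3 := congrArg (fun f => Polynomial.coeff f 0) h2
      simp at h3
    have h4 := Polynomial.natDegree_mul h1 hR
    rw [← h] at h4
    have h5 := P6_hat_deg K n L v
    omega

private theorem P6_dg_dn (N : ℕ) (x : Fin 3) (I : ℕ → ℕ) (p' : ℕ) :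
    dg N x (dn I p') ≤ dg N x I := by
  unfold dg
  refine Nat.add_le_add_left (Finset.sum_le_sum fun p _ => ?_) _
  by_cases h : p = p'
  · rw [h, dn, Function.update_self]
    exact Nat.sub_le _ _
  · rw [dn, Function.update_of_ne h]

private theorem P6_ex {K N n : ℕ} {L : ℝ} (hL : 0 < L) {x : Fin 3} {I : ℕ → ℕ}
    (hI : ∀ p, N < p → I p = 0) {v : Fin (n + 1) → ℂ} (hv : v ∈ Xo (PL K L) n x I) {p' : ℕ}
    (h : I p' ≠ 0) : ∃ Z ∈ Xo (PL K L) n x (dn I p'),
      hat K n L v = (1 - C ((nh p' : ℂ))⁻¹ * X) * hat K n L Z := by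
  have hp : p' ≤ N := by
    by_contra h1
    exact h (hI p' (not_le.1 h1))
  obtain ⟨Q, h1, h2⟩ := (hat_mem K N n hL x hI v).1 hv
  rw [P6_Om_dn x hp h, mul_assoc] at h1
  obtain ⟨Z, h3, -⟩ := hat_surj K n hL _ (P6_deg h1)
  refine ⟨Z, ?_, by rw [h3]; exact h1⟩
  have hI' : ∀ p, N < p → dn I p' p = 0 := fun p hp' => by
    rw [dn, Function.update_of_ne (by omega)]
    exact hI p hp'
  refine (hat_mem K N n hL x hI' Z).2 ⟨Q, h3, ?_⟩
  rcases h2 with h2 | h2
  · exact Or.inl h2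
  · exact Or.inr ((Nat.add_le_add_left (P6_dg_dn N x I p') _).trans h2)

private theorem P6_ex2 {K N n : ℕ} {L : ℝ} (hL : 0 < L) {I : ℕ → ℕ}
    (hI : ∀ p, N < p → I p = 0) {v : Fin (n + 1) → ℂ} (hv : v ∈ Xo (PL K L) n 2 I) :
    ∃ Z ∈ Xo (PL K L) n 1 I, hat K n L v = (1 - C (1 / 2 : ℂ) * X) * hat K n L Z := by
  obtain ⟨Q, h1, h2⟩ := (hat_mem K N n hL 2 hI v).1 hv
  rw [if_neg (by decide), P6_Om_2, mul_assoc] at h1
  obtain ⟨Z, h3, -⟩ := hat_surj K n hL _ (P6_deg h1)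
  refine ⟨Z, ?_, by rw [h3]; exact h1⟩
  refine (hat_mem K N n hL 1 hI Z).2 ⟨Q, by rw [if_neg (by decide)]; exact h3, ?_⟩
  rcases h2 with h2 | h2
  · exact Or.inl h2
  · refine Or.inr (le_trans ?_ h2)
    unfold dg
    have e1 : ((1 : Fin 3) : ℕ) = 1 := rfl
    have e2 : ((2 : Fin 3) : ℕ) = 2 := rfl
    rw [e1, e2]
    omega

/-! ### Limits -/

private theorem P6_conv {K n : ℕ} {L : ℕ → ℝ} (hL : Tendsto L uf atTop) (hp : ∀ k, 1 < L k)
    {a : ℂ} (ha : ‖a‖ ≤ 1) {d : ℕ} {v Z : ℕ → Fin (n + 1) → ℂ} (hr : ∀ k, Rea (v k))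
    (h0 : ∀ k, v k ≠ 0)
    (hZ : ∀ k, hat K n (L k) (v k) = (1 - C a * X) * hat K n (L k) (Z k)) {g : Polynomial ℂ}
    (hg : ∀ m, Tendsto (fun k => (hat K n (L k) (Z k)).coeff m) uf (𝓝 (g.coeff m))) {M : ℝ}
    (hM : 0 < M)
    (hb : ∀ᶠ k in uf, (∀ m, m < d → ‖(hat K n (L k) (v k)).coeff m‖ * L k ^ d ≤ M * L k ^ m) ∧
      M⁻¹ ≤ (q (v k)).re * L k ^ (2 * d)) :
    Tendsto (fun k => dt (v k) (Z k) / q (v k)) uf (𝓝 1) := by
  set B : ℝ := ∑ m ∈ Finset.range (n + 1), (‖g.coeff m‖ + 1) with hB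
  have hB0 : 0 ≤ B := Finset.sum_nonneg fun m _ => by positivity
  have h1 : ∀ᶠ k in uf, ∀ m ∈ Finset.range (n + 1),
      ‖(hat K n (L k) (Z k)).coeff m‖ ≤ ‖g.coeff m‖ + 1 := by
    refine (Filter.eventually_all_finset _).2 fun m _ => ?_
    exact ((hg m).norm.eventually (gt_mem_nhds (lt_add_one _))).mono fun k hk => le_of_lt hk
  have h2 : ∀ᶠ k in uf, ‖dt (v k) (Z k) / q (v k) - 1‖
      ≤ Real.sqrt (((n : ℝ) + 1) * ((d : ℝ) * M + B) ^ 2 * M) / L k := by
    filter_upwards [h1, hb] with k hk hk'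
    refine P6_est (hp k) ha (hr k) (h0 k) (hZ k) hM hB0 hk'.1 hk'.2 fun m hm => ?_
    have h3 := hk m (Finset.mem_range.2 (Nat.lt_succ_of_le hm))
    refine h3.trans ?_
    exact Finset.single_le_sum (f := fun m => ‖g.coeff m‖ + 1) (fun m _ => by positivity)
      (Finset.mem_range.2 (Nat.lt_succ_of_le hm))
  have h3 : Tendsto (fun k => Real.sqrt (((n : ℝ) + 1) * ((d : ℝ) * M + B) ^ 2 * M) / L k) uf
      (𝓝 0) := hL.const_div_atTop _
  rw [tendsto_iff_norm_sub_tendsto_zero]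
  exact squeeze_zero' (Eventually.of_forall fun k => norm_nonneg _) h2 h3

private theorem P6_at {i : ℕ → ℕ} {p l N : ℕ} (hpN : p ≤ N) (hi : Adm (p + 1) N i) :
    (∀ p'', N < p'' → at' i p l p'' = 0) ∧ (∀ p'', at' i p l p'' ≠ 0 → p ≤ p'') := by
  constructor
  · intro p'' h
    rw [at', Function.update_of_ne (by omega)]
    by_contra h1
    exact absurd (hi p'' h1).2 (by omega)
  · intro p'' h
    by_cases h1 : p'' = p
    · omega
    · rw [at', Function.update_of_ne h1] at h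
      have := (hi p'' h).1
      omega

private theorem P6_main {K N n : ℕ} {L : ℕ → ℝ} (hL : Tendsto L uf atTop)
    (hp : ∀ k, 1 < L k) (x : Fin 3) {i : ℕ → ℕ} {p l : ℕ} (hpN : p ≤ N) (hi : Adm (p + 1) N i)
    {v : ℕ → Fin (n + 1) → ℂ} (hB : ∀ k, Bv (PL K (L k)) n x i p l (v k)) {d : ℕ}
    (hl : ∀ m, Tendsto (fun k => (hat K n (L k) (v k)).coeff m) uf
        (𝓝 ((Om N x (at' i p l) d).coeff m))) {M : ℝ} (hM : 0 < M)
    (hb : ∀ᶠ k in uf, (∀ m, m < d → ‖(hat K n (L k) (v k)).coeff m‖ * L k ^ d ≤ M * L k ^ m) ∧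
      M⁻¹ ≤ (q (v k)).re * L k ^ (2 * d)) :
    ∀ᶠ k in uf, pr (tau (PL K (L k)) n ((PL K (L k)).g p) l) (v k) ≠ 0 ∧
      (∀ p', i p' ≠ 0 → ∀ z ∈ Xo (PL K (L k)) n x (dn (at' i p l) p'), Rea z →
        pr (tau (PL K (L k)) n ((PL K (L k)).g p') (i p' - 1)) z = 1 →
        (Df (PL K (L k)) n p l (v k) z * pr (tau (PL K (L k)) n ((PL K (L k)).g p) l) (v k)
          * pr (tau (PL K (L k)) n ((PL K (L k)).g p') (i p')) (v k)).re < 0) ∧
      (x = 2 → 1 ≤ p → ∀ z ∈ Xo (PL K (L k)) n 1 (at' i p l), Rea z →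
        pr (hv (PL K (L k)) n) z = 1 →
        (Df (PL K (L k)) n p l (v k) z * pr (tau (PL K (L k)) n ((PL K (L k)).g p) l) (v k)
          * pr (tau (PL K (L k)) n ((PL K (L k)).g 0) 0) (v k)).re < 0) ∧
      (x = 2 → 1 ≤ p → pr (tau (PL K (L k)) n ((PL K (L k)).g 0) 0) (v k) ≠ 0) ∧
      (x = 1 → 1 ≤ p → 0 < (pr (tau (PL K (L k)) n ((PL K (L k)).g 0) 0) (v k)
        * pr (hv (PL K (L k)) n) (v k)).re) ∧
      (x = 1 → p = 0 → 0 < (pr (tau (PL K (L k)) n ((PL K (L k)).g 0) l) (v k)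
        * pr (hv (PL K (L k)) n) (v k)).re) := by
  have hL0 : ∀ k, 0 < L k := fun k => lt_trans one_pos (hp k)
  obtain ⟨hI, hI'⟩ := P6_at (l := l) hpN hi
  have nh0 : nh 0 = 1 := by simp [nh]
  have c2 : ((2 : ℝ) : ℂ) = 2 := by norm_num
  have c1' : ((1 : ℝ) : ℂ) = 1 := by norm_num
  -- b1
  have A1 : ∀ᶠ k in uf, ∀ p' ∈ Finset.range (N + 1), i p' ≠ 0 →
      ∀ z ∈ Xo (PL K (L k)) n x (dn (at' i p l) p'), Rea z →
        pr (tau (PL K (L k)) n ((PL K (L k)).g p') (i p' - 1)) z = 1 →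
        (Df (PL K (L k)) n p l (v k) z * pr (tau (PL K (L k)) n ((PL K (L k)).g p) l) (v k)
          * pr (tau (PL K (L k)) n ((PL K (L k)).g p') (i p')) (v k)).re < 0 := by
    refine (Filter.eventually_all_finset _).2 fun p' _ => ?_
    by_cases hip : i p' = 0
    · exact Eventually.of_forall fun k h => absurd hip h
    have hpp : p < p' := (hi p' hip).1
    have hIp : at' i p l p' = i p' := by rw [at', Function.update_of_ne (by omega)]
    choose Z hZm hZ using fun k => P6_ex (hL0 k) hI (hB k).mem (p' := p') (by rw [hIp]; exact hip)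
    have ha : ‖((nh p' : ℂ))⁻¹‖ ≤ 1 := by
      rw [norm_inv, Complex.norm_real, Real.norm_eq_abs, abs_of_pos (P6_nh_pos p')]
      refine inv_le_one_of_one_le₀ ?_
      unfold nh
      rw [if_neg (by omega)]
      have : (0 : ℝ) ≤ p' := by positivity
      linarith
    have hg : ∀ m, Tendsto (fun k => (hat K n (L k) (Z k)).coeff m) uf
        (𝓝 ((Om N x (dn (at' i p l) p') d).coeff m)) := by
      refine P6_coef_lim (a := ((nh p' : ℂ))⁻¹) fun m => ?_
      have h1 := hl m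
      rw [P6_Om_dn x (hi p' hip).2 (by rw [hIp]; exact hip)] at h1
      refine h1.congr fun k => ?_
      rw [← hZ k]
    have hc := P6_conv hL hp ha (fun k => (hB k).re) (fun k => (hB k).ne) hZ hg hM hb
    have hs1 : nh p / nh p' < 1 := (div_lt_one (P6_nh_pos p')).2 (P6_nh_lt hpp)
    have hs0 : 0 < nh p / nh p' := div_pos (P6_nh_pos p) (P6_nh_pos p')
    have hlt : (1 : ℂ).re < (1 - nh p / nh p')⁻¹ := by
      rw [Complex.one_re]
      exact (one_lt_inv₀ (by linarith)).2 (by linarith)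
    have hre : Tendsto (fun k => (dt (v k) (Z k) / q (v k)).re) uf (𝓝 (1 : ℂ).re) :=
      (Complex.continuous_re.tendsto _).comp hc
    filter_upwards [hre.eventually (gt_mem_nhds hlt)] with k hk _ z hz _ h1
    exact P6_b1 (N := N) (hL0 k) (hB k) hpp hip (hZ k) (hZm k) hk hz h1
  -- the values
  have ev : ∀ s : ℝ, Tendsto (fun k => (hat K n (L k) (v k)).eval (s : ℂ)) uf
      (𝓝 ((Om N x (at' i p l) d).eval (s : ℂ))) := fun s =>
    P6_tendsto_lin (Polynomial.leval (s : ℂ)) (fun k => P6_hat_deg K n (L k) (v k)) hl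
  have t0 : ∀ k, pr (tau (PL K (L k)) n ((PL K (L k)).g 0) 0) (v k)
      = (hat K n (L k) (v k)).eval 1 := by
    intro k
    rw [hat_tau K n (hL0 k) 0 0 (v k), Polynomial.taylor_coeff_zero, nh0]
    simp
  have hpr : ∀ s : ℝ, 0 < s → s ≤ 1 → 1 ≤ p → ∃ r : ℝ, 0 < r ∧
      (Om N x (at' i p l) d).eval (s : ℂ) = r := by
    intro s h0 h1 h2
    refine ⟨_, ?_, P6_Om_ev N x _ d s⟩
    refine mul_pos (mul_pos (pow_pos h0 _) ?_)
      (P6_prod_pos (fun p'' _ h => h2.trans (hI' p'' h)) (by linarith))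
    split_ifs
    · linarith
    · exact one_pos
  -- b4
  have A2 : ∀ᶠ k in uf, x = 2 → 1 ≤ p → ∀ z ∈ Xo (PL K (L k)) n 1 (at' i p l), Rea z →
        pr (hv (PL K (L k)) n) z = 1 →
        (Df (PL K (L k)) n p l (v k) z * pr (tau (PL K (L k)) n ((PL K (L k)).g p) l) (v k)
          * pr (tau (PL K (L k)) n ((PL K (L k)).g 0) 0) (v k)).re < 0 := by
    by_cases hx : x = 2 ∧ 1 ≤ p
    swap
    · exact Eventually.of_forall fun k h h' => absurd ⟨h, h'⟩ hx
    obtain ⟨hx, hp1⟩ := hx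
    subst hx
    choose Z hZm hZ using fun k => P6_ex2 (hL0 k) hI (hB k).mem
    have ha : ‖(1 / 2 : ℂ)‖ ≤ 1 := by
      rw [norm_div, norm_one]
      norm_num
    have hg : ∀ m, Tendsto (fun k => (hat K n (L k) (Z k)).coeff m) uf
        (𝓝 ((Om N 1 (at' i p l) d).coeff m)) := by
      refine P6_coef_lim (a := (1 / 2 : ℂ)) fun m => ?_
      have h1 := hl m
      rw [P6_Om_2] at h1
      refine h1.congr fun k => ?_
      rw [← hZ k]
    have hc := P6_conv hL hp ha (fun k => (hB k).re) (fun k => (hB k).ne) hZ hg hM hb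
    have evZ : ∀ s : ℝ, Tendsto (fun k => (hat K n (L k) (Z k)).eval (s : ℂ)) uf
        (𝓝 ((Om N 1 (at' i p l) d).eval (s : ℂ))) := fun s =>
      P6_tendsto_lin (Polynomial.leval (s : ℂ)) (fun k => P6_hat_deg K n (L k) (Z k)) hg
    have hrr : ∀ s : ℝ, 0 < s → s ≤ 2 → ∃ r : ℝ, 0 < r ∧
        (Om N 1 (at' i p l) d).eval (s : ℂ) = r := by
      intro s h0 h1
      refine ⟨_, ?_, P6_Om_ev N 1 _ d s⟩
      rw [if_neg (by decide)]
      refine mul_pos (mul_pos (pow_pos h0 _) one_pos)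
        (P6_prod_pos (fun p'' _ h => hp1.trans (hI' p'' h)) h1)
    obtain ⟨r1, r1p, e1⟩ := hrr 1 one_pos (by norm_num)
    obtain ⟨r2, r2p, e2⟩ := hrr 2 (by norm_num) le_rfl
    have E1 := evZ 1
    have E2 := evZ 2
    rw [e1, c1'] at E1
    rw [e2, c2] at E2
    have r2c : (r2 : ℂ) ≠ 0 := by exact_mod_cast r2p.ne'
    have hz2 : ∀ᶠ k in uf, (hat K n (L k) (Z k)).eval 2 ≠ 0 := E2.eventually_ne r2c
    have hlim : Tendsto (fun k => ((((1 - nh p / 2)⁻¹ : ℝ) : ℂ) - dt (v k) (Z k) / q (v k))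
        * ((hat K n (L k) (Z k)).eval 1 / (2 * (hat K n (L k) (Z k)).eval 2))) uf
        (𝓝 (((((1 - nh p / 2)⁻¹ : ℝ) : ℂ) - 1) * ((r1 : ℂ) / (2 * (r2 : ℂ))))) := by
      refine (tendsto_const_nhds.sub hc).mul (E1.div (E2.const_mul 2) ?_)
      exact mul_ne_zero two_ne_zero r2c
    have hneg : (((((1 - nh p / 2)⁻¹ : ℝ) : ℂ) - 1) * ((r1 : ℂ) / (2 * (r2 : ℂ)))).re < 0 := by
      have e : (((((1 - nh p / 2)⁻¹ : ℝ) : ℂ) - 1) * ((r1 : ℂ) / (2 * (r2 : ℂ))))
          = ((((1 - nh p / 2)⁻¹ - 1) * (r1 / (2 * r2)) : ℝ) : ℂ) := by push_cast; ring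
      rw [e, Complex.ofReal_re]
      have h3 : nh p = p + 2 := by
        unfold nh
        rw [if_neg (by omega)]
      have h4 : (1 : ℝ) ≤ p := by exact_mod_cast hp1
      have h5 : (1 - nh p / 2)⁻¹ < 0 := inv_lt_zero.2 (by rw [h3]; linarith)
      exact mul_neg_of_neg_of_pos (by linarith) (by positivity)
    have hre := ((Complex.continuous_re.tendsto _).comp hlim).eventually (gt_mem_nhds hneg)
    filter_upwards [hre, hz2] with k hk hk2 _ _ z hz _ h1
    exact P6_b4 (hL0 k) (hB k) hp1 (hZ k) (hZm k) hk2 hk hz h1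
  -- b5
  have A3 : ∀ᶠ k in uf, x = 2 → 1 ≤ p → pr (tau (PL K (L k)) n ((PL K (L k)).g 0) 0) (v k) ≠ 0 := by
    by_cases hx : x = 2 ∧ 1 ≤ p
    swap
    · exact Eventually.of_forall fun k h h' => absurd ⟨h, h'⟩ hx
    obtain ⟨r, rp, e⟩ := hpr 1 one_pos le_rfl hx.2
    have E := ev 1
    rw [e, c1'] at E
    have rc : (r : ℂ) ≠ 0 := by exact_mod_cast rp.ne'
    filter_upwards [E.eventually_ne rc] with k hk _ _
    rw [t0 k]
    exact hk
  -- b6
  have hv' : x = 1 → ∀ k, pr (hv (PL K (L k)) n) (v k) = (hat K n (L k) (v k)).eval 2 := by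
    intro hx k
    refine hat_hv K n (hL0 k) (v k) ((mem_XM.1 (hB k).mem.1).1 ?_)
    rw [hx]
    decide
  have A4 : ∀ᶠ k in uf, x = 1 → 1 ≤ p → 0 < (pr (tau (PL K (L k)) n ((PL K (L k)).g 0) 0) (v k)
        * pr (hv (PL K (L k)) n) (v k)).re := by
    by_cases hx : x = 1 ∧ 1 ≤ p
    swap
    · exact Eventually.of_forall fun k h h' => absurd ⟨h, h'⟩ hx
    obtain ⟨r, rp, e⟩ := hpr 1 one_pos le_rfl hx.2
    obtain ⟨r2, r2p, e2⟩ : ∃ r : ℝ, 0 < r ∧ (Om N x (at' i p l) d).eval ((2 : ℝ) : ℂ) = r := by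
      refine ⟨_, ?_, P6_Om_ev N x _ d 2⟩
      rw [if_neg (by rw [hx.1]; decide)]
      exact mul_pos (mul_pos (pow_pos (by norm_num) _) one_pos)
        (P6_prod_pos (fun p'' _ h => hx.2.trans (hI' p'' h)) le_rfl)
    have E1 := ev 1
    have E2 := ev 2
    rw [e, c1'] at E1
    rw [e2, c2] at E2
    have E3 := (Complex.continuous_re.tendsto _).comp (E1.mul E2)
    have hpos : (0 : ℝ) < ((r : ℂ) * (r2 : ℂ)).re := by
      rw [← Complex.ofReal_mul, Complex.ofReal_re]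
      positivity
    filter_upwards [E3.eventually (lt_mem_nhds hpos)] with k hk _ _
    rw [t0 k, hv' hx.1 k]
    exact hk
  -- b7
  have A5 : ∀ᶠ k in uf, x = 1 → p = 0 → 0 < (pr (tau (PL K (L k)) n ((PL K (L k)).g 0) l) (v k)
        * pr (hv (PL K (L k)) n) (v k)).re := by
    by_cases hx : x = 1 ∧ p = 0
    swap
    · exact Eventually.of_forall fun k h h' => absurd ⟨h, h'⟩ hx
    have I0 : at' i p l 0 = l := by rw [hx.2, at', Function.update_self]
    have hS : ∀ p'' ∈ (Finset.range (N + 1)).erase 0, at' i p l p'' ≠ 0 → 1 ≤ p'' :=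
      fun p'' h _ => Nat.one_le_iff_ne_zero.2 (Finset.ne_of_mem_erase h)
    have T := P6_tendsto_lin ((Polynomial.lcoeff ℂ l).comp (Polynomial.taylor (1 : ℂ)))
      (fun k => P6_hat_deg K n (L k) (v k)) hl
    have T2 := P6_Om_ty N (at' i p l) d
    have E2 := ev 2
    have e2 := P6_Om_e2 N (at' i p l) d
    rw [I0] at T2 e2
    rw [hx.1, c2, e2] at E2
    simp only [LinearMap.comp_apply, Polynomial.lcoeff_apply] at T
    rw [hx.1, T2] at T
    set a1 : ℝ := ∏ p'' ∈ (Finset.range (N + 1)).erase 0, (1 - (nh p'')⁻¹ * 1) ^ at' i p l p''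
      with ha1
    set a2 : ℝ := 2 ^ d * ∏ p'' ∈ (Finset.range (N + 1)).erase 0,
      (1 - (nh p'')⁻¹ * 2) ^ at' i p l p'' with ha2
    have a1p : 0 < a1 := P6_prod_pos hS (by norm_num)
    have a2p : 0 < a2 := mul_pos (pow_pos (by norm_num) _) (P6_prod_pos hS le_rfl)
    have E3 := (Complex.continuous_re.tendsto _).comp (T.mul E2)
    have e3 : ((-1 : ℂ) ^ l * (a1 : ℂ)) * ((-1) ^ l * (a2 : ℂ)) = ((a1 * a2 : ℝ) : ℂ) := by
      have h1 : ((-1 : ℂ) ^ l) * ((-1) ^ l) = 1 := by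
        rw [← mul_pow]
        norm_num
      push_cast
      linear_combination ((a1 : ℂ) * a2) * h1
    have hpos : (0 : ℝ) < (((-1 : ℂ) ^ l * (a1 : ℂ)) * ((-1) ^ l * (a2 : ℂ))).re := by
      rw [e3, Complex.ofReal_re]
      positivity
    filter_upwards [E3.eventually (lt_mem_nhds hpos)] with k hk _ _
    rw [hat_tau K n (hL0 k) 0 l (v k), hv' hx.1 k, nh0, mul_assoc, ← Complex.ofReal_pow,
      ← Complex.ofReal_inv, Complex.re_ofReal_mul, Complex.ofReal_one]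
    exact mul_pos (inv_pos.2 (pow_pos (hL0 k) _)) hk
  filter_upwards [A1, A2, A3, A4, A5] with k a1 a2 a3 a4 a5
  refine ⟨P6_phi (hB k), fun p' hp' => ?_, a2, a3, a4, a5⟩
  exact a1 p' (Finset.mem_range.2 (Nat.lt_succ_of_le (hi p' hp').2)) hp'

/-! ### Rescaling -/

private theorem P6_q_smul {n : ℕ} (v : Fin (n + 1) → ℂ) (c : ℂ) : q (c • v) = c ^ 2 * q v := by
  rw [← dt_self, dt_smul_left, dt_smul_right, dt_self]
  ring

private theorem P6_dt_smul' {n : ℕ} (v z : Fin (n + 1) → ℂ) (c : ℂ) :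
    dt (c • v) z = c * dt v z := dt_smul_left c v z

private theorem P6_Df_sc {P : Par} {n p l : ℕ} (v z : Fin (n + 1) → ℂ) {c : ℂ} (hc : c ≠ 0) :
    Df P n p l (c • v) z = Df P n p l v z := by
  unfold Df
  rw [pr_smul, dt_smul_left, P6_q_smul]
  congr 1
  have e : c * pr (tau P n (P.g p) l) v * (c * dt v z)
      = c ^ 2 * (pr (tau P n (P.g p) l) v * dt v z) := by ring
  rw [e]
  exact mul_div_mul_left _ _ (pow_ne_zero 2 hc)

private theorem P6_Bv_sc {P : Par} {n : ℕ} {x : Fin 3} {i : ℕ → ℕ} {p l : ℕ}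
    {v : Fin (n + 1) → ℂ} (hB : Bv P n x i p l v) {c : ℝ} (hc : c ≠ 0) :
    Bv P n x i p l ((c : ℂ) • v) := by
  have hcc : (c : ℂ) ≠ 0 := by exact_mod_cast hc
  refine ⟨Submodule.smul_mem _ _ hB.mem, smul_ne_zero hcc hB.ne, fun j => ?_, fun z hz => ?_⟩
  · rw [Pi.smul_apply, smul_eq_mul, Complex.im_ofReal_mul, hB.re j, mul_zero]
  · rw [dt_smul_left, hB.orth z hz, mul_zero]

private theorem P6_sc2 {c : ℝ} (hc : c ≠ 0) (w : ℂ) : ((c : ℂ) ^ 2 * w).re < 0 ↔ w.re < 0 := by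
  have h : 0 < c ^ 2 := by positivity
  rw [← Complex.ofReal_pow, Complex.re_ofReal_mul]
  constructor
  · intro h1
    by_contra h2
    have := mul_nonneg h.le (not_lt.1 h2)
    linarith
  · intro h1
    exact mul_neg_of_pos_of_neg h h1

private theorem P6_sc3 {c : ℝ} (hc : c ≠ 0) (w : ℂ) : 0 < ((c : ℂ) ^ 2 * w).re ↔ 0 < w.re := by
  have h : 0 < c ^ 2 := by positivity
  rw [← Complex.ofReal_pow, Complex.re_ofReal_mul]
  exact mul_pos_iff_of_pos_left h

/-- The conditions `b0, b1, b4, b5, b6, b7` for `L → ∞`.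

Proof. Rescale `v` as in `base_lim` (the conditions are invariant). `b0`: see `base_lim`. `b1`: let
`Z` be the vector with `hat Z = hat v / (1 - s / nh p')` (a polynomial, in `Xo (dn (at' i p l)
p')`).
Claim: `dt v Z / q v → 1`. As `Z = v + (s / nh p') Z`, this is `dt v (s Z) / q v → 0`: with `d` as
in
`base_lim`, the coefficients of `hat Z` of order `j < d` are `O(L ^ (j - d))`, the others are
bounded, so
the vector of `s hat Z` has all entries `O(L ^ (-d - 1))` (its constant coefficient is zero, so the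
entry `0` vanishes; `hat_coord`), while `q v` has the order `L ^ (-2 d)` (`L ^ (2 K + 4)` if `d =
0`);
Cauchy-Schwarz. So `Df v Z / φ(v) → 1 / (1 - nh p / nh p') - 1 > 0`, because
`φ(Z) = φ(v) / (1 - nh p / nh p')` (`φ = pr (tau l)` at `p`, the order at `p` is `l`). Any test
vector `z`
with Taylor coefficient one is `Z / τ(Z)` plus an element of `Xo (at' i p l)`, on which `Df v = 0`
(`Df v` vanishes on `v` and on the vectors of order `l + 1`), and
`τ_{i p'} (v) = - (1 / g p') τ_{i p' - 1} (Z)`. So the product is negative. `b4`: the same with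
`1 - s / 2` instead of `1 - s / nh p'`: `1 / (1 - nh p / 2) - 1 < 0`, `pr hv Z = hat Z (2)` and
`V(g 0) = hat v (1) = hat Z (1) / 2` have the same sign because the limit of `hat Z` is positive on
`(0, 3)`. `b5, b6, b7`: the limit polynomial at `1` and `2`: for `p ≥ 1` all its nodes other than
`0` (and `2` if `x = 2`) are `≥ 3`; for `p = 0` the factor `(1 - s) ^ l` gives the sign `(-1) ^ l`
twice. -/
theorem base_bf1 {K N n : ℕ} (hn : n ≤ K) {L : ℕ → ℝ} (hL : Tendsto L uf atTop)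
    (hp : ∀ k, 1 < L k) (x : Fin 3) {i : ℕ → ℕ} {p l : ℕ} (hpN : p ≤ N) (hi : Adm (p + 1) N i)
    {v : ℕ → Fin (n + 1) → ℂ} (hB : ∀ k, Bv (PL K (L k)) n x i p l (v k)) :
    ∀ᶠ k in uf, pr (tau (PL K (L k)) n ((PL K (L k)).g p) l) (v k) ≠ 0 ∧
      (∀ p', i p' ≠ 0 → ∀ z ∈ Xo (PL K (L k)) n x (dn (at' i p l) p'), Rea z →
        pr (tau (PL K (L k)) n ((PL K (L k)).g p') (i p' - 1)) z = 1 →
        (Df (PL K (L k)) n p l (v k) z * pr (tau (PL K (L k)) n ((PL K (L k)).g p) l) (v k)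
          * pr (tau (PL K (L k)) n ((PL K (L k)).g p') (i p')) (v k)).re < 0) ∧
      (x = 2 → 1 ≤ p → ∀ z ∈ Xo (PL K (L k)) n 1 (at' i p l), Rea z →
        pr (hv (PL K (L k)) n) z = 1 →
        (Df (PL K (L k)) n p l (v k) z * pr (tau (PL K (L k)) n ((PL K (L k)).g p) l) (v k)
          * pr (tau (PL K (L k)) n ((PL K (L k)).g 0) 0) (v k)).re < 0) ∧
      (x = 2 → 1 ≤ p → pr (tau (PL K (L k)) n ((PL K (L k)).g 0) 0) (v k) ≠ 0) ∧
      (x = 1 → 1 ≤ p → 0 < (pr (tau (PL K (L k)) n ((PL K (L k)).g 0) 0) (v k)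
        * pr (hv (PL K (L k)) n) (v k)).re) ∧
      (x = 1 → p = 0 → 0 < (pr (tau (PL K (L k)) n ((PL K (L k)).g 0) l) (v k)
        * pr (hv (PL K (L k)) n) (v k)).re) := by
  obtain ⟨c, hc, hl, M, hM, hb⟩ := base_lim hn hL hp x hpN hi hB
  have hb' : ∀ᶠ k in uf, (∀ m, m < mf N n x i p l + (if x = 0 then 0 else 1) →
      ‖(hat K n (L k) ((c k : ℂ) • v k)).coeff m‖
        * L k ^ (mf N n x i p l + if x = 0 then 0 else 1) ≤ M * L k ^ m) ∧
      M⁻¹ ≤ (q ((c k : ℂ) • v k)).re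
        * L k ^ (2 * (mf N n x i p l + if x = 0 then 0 else 1)) := by
    filter_upwards [hb] with k hk
    obtain ⟨h1, h2, h3⟩ := hk
    refine ⟨h1, ?_⟩
    by_cases hd : mf N n x i p l + (if x = 0 then 0 else 1) = 0
    · have h4 := h3 hd
      rw [hd, mul_zero, pow_zero, mul_one]
      refine le_trans ?_ h4
      have h5 : 1 ≤ L k ^ (2 * (K + 2)) := one_le_pow₀ (hp k).le
      have h6 : 0 < M⁻¹ := inv_pos.2 hM
      nlinarith
    · exact (h2 hd).2.1
  have main := P6_main hL hp x hpN hi (fun k => P6_Bv_sc (hB k) (hc k)) hl hM hb'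
  filter_upwards [main] with k hk
  obtain ⟨m0, m1, m2, m3, m4, m5⟩ := hk
  have hcc : (c k : ℂ) ≠ 0 := by exact_mod_cast hc k
  refine ⟨P6_phi (hB k), fun p' h1 z hz hr h2 => ?_, fun h1 h2 z hz hr h3 => ?_,
    fun h1 h2 h3 => ?_, fun h1 h2 => ?_, fun h1 h2 => ?_⟩
  · have h := m1 p' h1 z hz hr h2
    rw [P6_Df_sc _ _ hcc, pr_smul, pr_smul] at h
    rw [← P6_sc2 (hc k)]
    refine lt_of_eq_of_lt (congrArg Complex.re ?_) h
    ring
  · have h := m2 h1 h2 z hz hr h3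
    rw [P6_Df_sc _ _ hcc, pr_smul, pr_smul] at h
    rw [← P6_sc2 (hc k)]
    refine lt_of_eq_of_lt (congrArg Complex.re ?_) h
    ring
  · refine m3 h1 h2 ?_
    rw [pr_smul, h3, mul_zero]
  · have h := m4 h1 h2
    rw [pr_smul, pr_smul] at h
    rw [← P6_sc3 (hc k)]
    refine lt_of_lt_of_eq h (congrArg Complex.re ?_)
    ring
  · have h := m5 h1 h2
    rw [pr_smul, pr_smul] at h
    rw [← P6_sc3 (hc k)]
    refine lt_of_lt_of_eq h (congrArg Complex.re ?_)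
    ring

end

end Pool.Agent.MPb0eK
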