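import Mathlib
import Pool.Agent.Lib.MP_b0e20b_ag_K.P5
import Pool.Agent.Lib.MP_b0e20b_ag_K.P3

/-!
# MP_b0e20b_ag, project K: base vectors: the sign condition at the node zero
-/

set_option autoImplicit false

open scoped BigOperators Topology
open Filter

namespace Pool.Agent.MPb0eK

open MPb0eR (c1 c2 c3 tr q Sup Rl Rea uf Nrm cj AF scl)

section

private theorem P7_eval {D : ℕ} {F : ℕ → Polynomial ℂ} {G : Polynomial ℂ}
    (hF : ∀ k, (F k).natDegree ≤ D) (hG : G.natDegree ≤ D)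
    (h : ∀ m, Tendsto (fun k => (F k).coeff m) uf (𝓝 (G.coeff m))) (a : ℂ) :
    Tendsto (fun k => (F k).eval a) uf (𝓝 (G.eval a)) := by
  have h1 : ∀ k, (F k).eval a = ∑ m ∈ Finset.range (D + 1), (F k).coeff m * a ^ m := fun k =>
    Polynomial.eval_eq_sum_range' (Nat.lt_succ_of_le (hF k)) a
  rw [Polynomial.eval_eq_sum_range' (Nat.lt_succ_of_le hG) a]
  simp only [h1]
  exact tendsto_finsetSum _ fun m _ => (h m).mul_const _

private theorem P7_taylor {D : ℕ} {F : ℕ → Polynomial ℂ} {G : Polynomial ℂ}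
    (hF : ∀ k, (F k).natDegree ≤ D) (hG : G.natDegree ≤ D)
    (h : ∀ m, Tendsto (fun k => (F k).coeff m) uf (𝓝 (G.coeff m))) (a : ℂ) (l : ℕ) :
    Tendsto (fun k => (Polynomial.taylor a (F k)).coeff l) uf
      (𝓝 ((Polynomial.taylor a G).coeff l)) := by
  simp only [Polynomial.taylor_coeff]
  refine P7_eval (D := D) (fun k => (Polynomial.natDegree_hasseDeriv_le _ _).trans
    ((Nat.sub_le _ _).trans (hF k))) ((Polynomial.natDegree_hasseDeriv_le _ _).trans
    ((Nat.sub_le _ _).trans hG)) (fun m => ?_) a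
  simp only [Polynomial.hasseDeriv_coeff]
  exact (h _).const_mul _

private theorem P7_deg (K n : ℕ) (L : ℝ) (v : Fin (n + 1) → ℂ) :
    (hat K n L v).natDegree ≤ n := by
  unfold hat
  refine Polynomial.natDegree_comp_le.trans ?_
  have h1 : (Polynomial.C (L : ℂ) * Polynomial.X).natDegree ≤ 1 := by
    refine (Polynomial.natDegree_C_mul_le _ _).trans ?_
    exact Polynomial.natDegree_X_le
  calc (pol (PL K L) n v).natDegree * (Polynomial.C (L : ℂ) * Polynomial.X).natDegree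
      ≤ n * 1 := Nat.mul_le_mul (pol_lin (PL K L) n v v 0).2.2 h1
    _ = n := mul_one n

private theorem P7_nh (p : ℕ) : (nh p : ℂ) ≠ 0 := by
  rw [Ne, Complex.ofReal_eq_zero]
  simp only [nh]
  split_ifs
  · norm_num
  · positivity

private theorem P7_nh2 (p : ℕ) : nh p ≠ 2 := by
  simp only [nh]
  split_ifs with h
  · norm_num
  · intro h1
    have h2 : (p : ℝ) = 0 := by linarith
    exact h (by exact_mod_cast h2)

private theorem P7_nhinj {p p' : ℕ} (h : nh p = nh p') : p = p' := by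
  simp only [nh] at h
  split_ifs at h with h1 h2 h2
  · rw [h1, h2]
  · exfalso
    have : (0 : ℝ) ≤ p' := Nat.cast_nonneg _
    linarith
  · exfalso
    have : (0 : ℝ) ≤ p := Nat.cast_nonneg _
    linarith
  · have h3 : (p : ℝ) = p' := by linarith
    exact_mod_cast h3

private theorem P7_im {z : ℂ} {f : ℕ → ℂ} (h : Tendsto f uf (𝓝 z)) (hf : ∀ k, (f k).im = 0) :
    z.im = 0 := by
  refine tendsto_nhds_unique ((Complex.continuous_im.tendsto z).comp h) ?_
  refine tendsto_const_nhds.congr fun k => ?_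
  exact (hf k).symm

private theorem P7_om2 (N : ℕ) (i : ℕ → ℕ) (d : ℕ) : (Om N 1 i d).eval 2 ≠ 0 := by
  unfold Om
  rw [if_neg (by decide), mul_one, Polynomial.eval_mul, Polynomial.eval_pow, Polynomial.eval_X,
    Polynomial.eval_prod]
  refine mul_ne_zero (pow_ne_zero _ two_ne_zero) (Finset.prod_ne_zero_iff.2 fun p _ => ?_)
  rw [Polynomial.eval_pow]
  refine pow_ne_zero _ ?_
  rw [Polynomial.eval_sub, Polynomial.eval_one, Polynomial.eval_mul, Polynomial.eval_C,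
    Polynomial.eval_X]
  intro h1
  have h2 := P7_nh p
  have h3 : (nh p : ℂ) = 2 := by
    have h4 : (nh p : ℂ)⁻¹ * 2 = 1 := by linear_combination -h1
    field_simp at h4
    exact h4.symm
  exact P7_nh2 p (by exact_mod_cast h3)

private theorem P7_tay (g : ℂ) (hg : g ≠ 0) (m : ℕ) (E : Polynomial ℂ) :
    (Polynomial.taylor g ((1 - Polynomial.C g⁻¹ * Polynomial.X) ^ m * E)).coeff m
      = (-g⁻¹) ^ m * E.eval g := by
  have h1 : Polynomial.taylor g (1 - Polynomial.C g⁻¹ * Polynomial.X)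
      = Polynomial.C (-g⁻¹) * Polynomial.X := by
    rw [map_sub, Polynomial.taylor_one, Polynomial.taylor_mul, Polynomial.taylor_X,
      Polynomial.taylor_C, mul_add, ← Polynomial.C_mul, inv_mul_cancel₀ hg, Polynomial.C_neg,
      Polynomial.C_1]
    ring
  have h2 : Polynomial.taylor g ((1 - Polynomial.C g⁻¹ * Polynomial.X) ^ m * E)
      = Polynomial.C ((-g⁻¹) ^ m) * (Polynomial.X ^ m * Polynomial.taylor g E) := by
    rw [Polynomial.taylor_mul, Polynomial.taylor_pow, h1, mul_pow, ← Polynomial.C_pow, mul_assoc]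
  rw [h2, Polynomial.coeff_C_mul, Polynomial.coeff_X_pow_mul', if_pos le_rfl, Nat.sub_self,
    Polynomial.taylor_coeff_zero]

private theorem P7_omt {N : ℕ} (x : Fin 3) (hx : x ≠ 2) (i : ℕ → ℕ) (d : ℕ) {p l : ℕ}
    (hp : p ≤ N) :
    (Polynomial.taylor (nh p : ℂ) (Om N x (at' i p l) d)).coeff l ≠ 0 := by
  have hmem : p ∈ Finset.range (N + 1) := Finset.mem_range.2 (Nat.lt_succ_of_le hp)
  have h1 : Om N x (at' i p l) d = (1 - Polynomial.C (nh p : ℂ)⁻¹ * Polynomial.X) ^ l *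
      (Polynomial.X ^ d * ∏ p' ∈ (Finset.range (N + 1)).erase p,
        (1 - Polynomial.C ((nh p' : ℂ)⁻¹) * Polynomial.X) ^ i p') := by
    unfold Om
    rw [if_neg hx, mul_one, ← Finset.mul_prod_erase _ _ hmem]
    have h2 : ∏ p' ∈ (Finset.range (N + 1)).erase p,
        (1 - Polynomial.C ((nh p' : ℂ)⁻¹) * Polynomial.X) ^ at' i p l p'
        = ∏ p' ∈ (Finset.range (N + 1)).erase p,
        (1 - Polynomial.C ((nh p' : ℂ)⁻¹) * Polynomial.X) ^ i p' := by
      refine Finset.prod_congr rfl fun p' hp' => ?_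
      rw [at', Function.update_of_ne (Finset.ne_of_mem_erase hp')]
    have h3 : at' i p l p = l := by rw [at', Function.update_self]
    rw [h2, h3]
    ring
  rw [h1, P7_tay _ (P7_nh p)]
  refine mul_ne_zero (pow_ne_zero _ (neg_ne_zero.2 (inv_ne_zero (P7_nh p)))) ?_
  rw [Polynomial.eval_mul, Polynomial.eval_pow, Polynomial.eval_X, Polynomial.eval_prod]
  refine mul_ne_zero (pow_ne_zero _ (P7_nh p)) (Finset.prod_ne_zero_iff.2 fun p' hp' => ?_)
  rw [Polynomial.eval_pow]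
  refine pow_ne_zero _ ?_
  rw [Polynomial.eval_sub, Polynomial.eval_one, Polynomial.eval_mul, Polynomial.eval_C,
    Polynomial.eval_X]
  intro h2
  have h3 := P7_nh p'
  have h4 : (nh p : ℂ) = nh p' := by
    have h5 : (nh p' : ℂ)⁻¹ * nh p = 1 := by linear_combination -h2
    field_simp at h5
    exact h5
  exact (Finset.ne_of_mem_erase hp').symm (P7_nhinj (by exact_mod_cast h4))

private theorem P7_om0 (N : ℕ) (i : ℕ → ℕ) : (Om N 0 i 0).coeff 0 = 1 ∧
    ∀ m, ((Om N 0 i 0).coeff m).im = 0 := by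
  constructor
  · rw [Polynomial.coeff_zero_eq_eval_zero]
    unfold Om
    rw [if_neg (by decide), pow_zero, mul_one, one_mul, Polynomial.eval_prod]
    refine Finset.prod_eq_one fun p _ => ?_
    rw [Polynomial.eval_pow, Polynomial.eval_sub, Polynomial.eval_one, Polynomial.eval_mul,
      Polynomial.eval_X, mul_zero, sub_zero, one_pow]
  · intro m
    have h1 : Om N 0 i 0 = Polynomial.map Complex.ofRealHom
        (∏ p ∈ Finset.range (N + 1), (1 - Polynomial.C ((nh p)⁻¹) * Polynomial.X) ^ i p) := by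
      unfold Om
      rw [if_neg (by decide), pow_zero, mul_one, one_mul, Polynomial.map_prod]
      refine Finset.prod_congr rfl fun p _ => ?_
      rw [Polynomial.map_pow, Polynomial.map_sub, Polynomial.map_one, Polynomial.map_mul,
        Polynomial.map_C, Polynomial.map_X]
      congr 4
      exact (Complex.ofReal_inv _).symm
    rw [h1, Polynomial.coeff_map]
    exact Complex.ofReal_im _

private theorem P7_om0d (N : ℕ) (i : ℕ → ℕ) :
    (Om N 0 i 0).natDegree ≤ ∑ p ∈ Finset.range (N + 1), i p := by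
  unfold Om
  rw [if_neg (by decide), pow_zero, mul_one, one_mul]
  refine (Polynomial.natDegree_prod_le _ _).trans (Finset.sum_le_sum fun p _ => ?_)
  refine Polynomial.natDegree_pow_le.trans ?_
  have h1 : (1 - Polynomial.C ((nh p : ℂ)⁻¹) * Polynomial.X).natDegree ≤ 1 := by
    refine (Polynomial.natDegree_sub_le _ _).trans (max_le ?_ ?_)
    · rw [Polynomial.natDegree_one]
      exact Nat.zero_le _
    · exact (Polynomial.natDegree_C_mul_le _ _).trans Polynomial.natDegree_X_le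
  calc i p * _ ≤ i p * 1 := Nat.mul_le_mul_left _ h1
    _ = i p := mul_one _

private theorem P7_sub {B : Type} [Fintype B] (f : B → ℝ) (x y : B → ℂ) :
    pr f (x - y) = pr f x - pr f y := by
  simp only [pr, Pi.sub_apply, mul_sub, Finset.sum_sub_distrib]

private theorem P7_up {P : Par} {n : ℕ} {x : Fin 3} {i : ℕ → ℕ} {p l : ℕ}
    {u : Fin (n + 1) → ℂ} (hu : u ∈ Xo P n x (at' i p l))
    (h0 : pr (tau P n (P.g p) l) u = 0) : u ∈ Xo P n x (at' i p (l + 1)) := by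
  refine ⟨hu.1, fun p' m hm => ?_⟩
  by_cases hp : p' = p
  · subst hp
    rw [at', Function.update_self] at hm
    rcases Nat.lt_succ_iff_lt_or_eq.1 hm with h1 | h1
    · refine hu.2 p' m ?_
      rw [at', Function.update_self]
      exact h1
    · rw [h1]
      exact h0
  · refine hu.2 p' m ?_
    rw [at', Function.update_of_ne hp] at hm ⊢
    exact hm

private theorem P7_b0 {P : Par} {n : ℕ} {x : Fin 3} {i : ℕ → ℕ} {p l : ℕ}
    {v : Fin (n + 1) → ℂ} (hB : Bv P n x i p l v) : pr (tau P n (P.g p) l) v ≠ 0 := by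
  intro h0
  have h1 := hB.orth v (P7_up hB.mem h0)
  rw [dt_self] at h1
  have h2 := (q_rea_pos hB.re hB.ne).1
  rw [h1, Complex.zero_re] at h2
  exact lt_irrefl _ h2

private theorem P7_Df0 {P : Par} {n : ℕ} {x : Fin 3} {i : ℕ → ℕ} {p l : ℕ}
    {v z : Fin (n + 1) → ℂ} (hB : Bv P n x i p l v) (hz : z ∈ Xo P n x (at' i p l)) :
    Df P n p l v z = 0 := by
  have hb := P7_b0 hB
  have hq : q v ≠ 0 := by
    intro h1
    have h2 := (q_rea_pos hB.re hB.ne).1
    rw [h1, Complex.zero_re] at h2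
    exact lt_irrefl _ h2
  obtain ⟨t, ht⟩ : ∃ t, t = pr (tau P n (P.g p) l) z / pr (tau P n (P.g p) l) v := ⟨_, rfl⟩
  have h1 : z + (-t) • v ∈ Xo P n x (at' i p (l + 1)) := by
    refine P7_up (Submodule.add_mem _ hz (Submodule.smul_mem _ _ hB.mem)) ?_
    rw [pr_add, pr_smul, ht]
    field_simp
    ring
  have h2 := hB.orth _ h1
  rw [dt_add_right, dt_smul_right, dt_self] at h2
  have h3 : dt v z = t * q v := by linear_combination h2
  unfold Df
  rw [h3, ht]
  field_simp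
  ring

private theorem P7_Dfa (P : Par) (n p l : ℕ) (v z z' : Fin (n + 1) → ℂ) :
    Df P n p l v (z + z') = Df P n p l v z + Df P n p l v z' := by
  unfold Df
  rw [pr_add, dt_add_right]
  ring

private theorem P7_qs {A : Type} [Fintype A] [DecidableEq A] (c : ℂ) (v : A → ℂ) :
    q (c • v) = c ^ 2 * q v := by
  rw [← dt_self, ← dt_self, dt_smul_left, dt_smul_right]
  ring

private theorem P7_Dfs (P : Par) (n p l : ℕ) {c : ℂ} (hc : c ≠ 0) (v z : Fin (n + 1) → ℂ) :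
    Df P n p l (c • v) z = Df P n p l v z := by
  unfold Df
  rw [pr_smul, dt_smul_left, P7_qs]
  congr 1
  have h1 : c * pr (tau P n (P.g p) l) v * (c * dt v z)
      = c ^ 2 * (pr (tau P n (P.g p) l) v * dt v z) := by ring
  rw [h1, mul_div_mul_left _ _ (pow_ne_zero 2 hc)]

private theorem P7_Bs {P : Par} {n : ℕ} {x : Fin 3} {i : ℕ → ℕ} {p l : ℕ}
    {v : Fin (n + 1) → ℂ} (hB : Bv P n x i p l v) {c : ℝ} (hc : c ≠ 0) :
    Bv P n x i p l ((c : ℂ) • v) := by
  refine ⟨Submodule.smul_mem _ _ hB.mem, ?_, fun a => ?_, fun z hz => ?_⟩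
  · exact smul_ne_zero (Complex.ofReal_ne_zero.2 hc) hB.ne
  · rw [Pi.smul_apply, smul_eq_mul, Complex.im_ofReal_mul, hB.re a, mul_zero]
  · rw [dt_smul_left, hB.orth z hz, mul_zero]

/-- The test vector. -/
private theorem P7_z {K N n : ℕ} {L : ℝ} (hL : 0 < L) {i : ℕ → ℕ}
    (hi : ∀ p, N < p → i p = 0) (hd : dg N 0 i ≤ n) :
    ∃ z : Fin (n + 1) → ℂ, z ∈ Xo (PL K L) n 0 i ∧ Rea z ∧ z 0 = 1 ∧
      hat K n L z = Polynomial.C (((L : ℂ) ^ (K + 2))⁻¹) * Om N 0 i 0 ∧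
      ∀ j : Fin (n + 1), j ≠ 0 → z j = ((L : ℂ) ^ (K + 2))⁻¹ * (((L : ℂ) ^ (j : ℕ))⁻¹
        * (Om N 0 i 0).coeff j) - ((L : ℂ) ^ (K + 1))⁻¹ * (2 * L) ^ (j : ℕ) := by
  have h0 : (L : ℂ) ≠ 0 := Complex.ofReal_ne_zero.2 hL.ne'
  have hdeg : (Polynomial.C (((L : ℂ) ^ (K + 2))⁻¹) * Om N 0 i 0).natDegree ≤ n := by
    refine (Polynomial.natDegree_C_mul_le _ _).trans ((P7_om0d N i).trans ?_)
    refine le_trans ?_ hd
    unfold dg
    exact Nat.le_add_left _ _
  obtain ⟨z, hz, hr, -⟩ := hat_surj K n hL _ hdeg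
  have hz0 : z 0 = 1 := by
    rw [(hat_coord K n hL z).1, hz, Polynomial.coeff_C_mul, (P7_om0 N i).1, mul_one]
    exact mul_inv_cancel₀ (pow_ne_zero _ h0)
  refine ⟨z, ?_, hr.1 fun k => ?_, hz0, hz, fun j hj => ?_⟩
  · rw [hat_mem K N n hL 0 hi z, if_pos rfl]
    refine ⟨_, hz.trans (mul_comm _ _), Or.inr ?_⟩
    rw [Polynomial.natDegree_C, zero_add]
    exact hd
  · rw [Polynomial.coeff_C_mul, ← Complex.ofReal_pow, ← Complex.ofReal_inv,
      Complex.im_ofReal_mul, (P7_om0 N i).2 k, mul_zero]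
  · have hj' : (j : ℕ) ≠ 0 := fun h => hj (Fin.ext h)
    rw [(hat_coord K n hL z).2 j hj', hz, Polynomial.coeff_C_mul, hz0]
    ring

/-- The key identity. -/
private theorem P7_key {K N n : ℕ} {L : ℝ} (hL : 0 < L) {i : ℕ → ℕ} {p l : ℕ}
    {w z : Fin (n + 1) → ℂ} (hw0 : w 0 = 0) (hq : q w ≠ 0)
    (hz : hat K n L z = Polynomial.C (((L : ℂ) ^ (K + 2))⁻¹) * Om N 0 i 0)
    (hzj : ∀ j : Fin (n + 1), j ≠ 0 → z j = ((L : ℂ) ^ (K + 2))⁻¹ * (((L : ℂ) ^ (j : ℕ))⁻¹
        * (Om N 0 i 0).coeff j) - ((L : ℂ) ^ (K + 1))⁻¹ * (2 * L) ^ (j : ℕ)) :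
    Df (PL K L) n p l w z * pr (tau (PL K L) n ((PL K L).g p) l) w * pr (hv (PL K L) n) w
      = ((L : ℂ) ^ l)⁻¹ ^ 2 * ((L : ℂ) ^ (K + 1))⁻¹ * (q w)⁻¹ *
        ((L : ℂ)⁻¹ * (Polynomial.taylor (nh p : ℂ) (Om N 0 i 0)).coeff l * q w
            * (Polynomial.taylor (nh p : ℂ) (hat K n L w)).coeff l * (hat K n L w).eval 2
          - (L : ℂ)⁻¹ * (Polynomial.taylor (nh p : ℂ) (hat K n L w)).coeff l ^ 2
            * (hat K n L w).eval 2
            * (∑ j : Fin (n + 1), if j = 0 then 0 else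
                w j * (((L : ℂ) ^ (j : ℕ))⁻¹ * (Om N 0 i 0).coeff j))
          + (Polynomial.taylor (nh p : ℂ) (hat K n L w)).coeff l ^ 2
            * (hat K n L w).eval 2 ^ 2) := by
  have h0 : (L : ℂ) ≠ 0 := Complex.ofReal_ne_zero.2 hL.ne'
  have h1 : pr (tau (PL K L) n ((PL K L).g p) l) w
      = ((L : ℂ) ^ l)⁻¹ * (Polynomial.taylor (nh p : ℂ) (hat K n L w)).coeff l :=
    hat_tau K n hL p l w
  have h2 : pr (tau (PL K L) n ((PL K L).g p) l) z
      = ((L : ℂ) ^ l)⁻¹ * (((L : ℂ) ^ (K + 2))⁻¹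
        * (Polynomial.taylor (nh p : ℂ) (Om N 0 i 0)).coeff l) := by
    rw [hat_tau K n hL p l z, hz, Polynomial.taylor_mul, Polynomial.taylor_C,
      Polynomial.coeff_C_mul]
  have h3 : pr (hv (PL K L) n) w = (hat K n L w).eval 2 := hat_hv K n hL w hw0
  have h4 : dt w z = ((L : ℂ) ^ (K + 2))⁻¹ * (∑ j : Fin (n + 1), if j = 0 then 0 else
        w j * (((L : ℂ) ^ (j : ℕ))⁻¹ * (Om N 0 i 0).coeff j))
      - ((L : ℂ) ^ (K + 1))⁻¹ * pr (hv (PL K L) n) w := by
    unfold dt pr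
    rw [Finset.mul_sum, Finset.mul_sum, ← Finset.sum_sub_distrib]
    refine Finset.sum_congr rfl fun j _ => ?_
    by_cases hj : j = 0
    · rw [if_pos hj, hj, hw0]
      ring
    · have hj' : (j : ℕ) ≠ 0 := fun h => hj (Fin.ext h)
      rw [if_neg hj, hzj j hj]
      unfold hv
      rw [if_neg hj']
      simp only [PL]
      push_cast
      ring
  unfold Df
  rw [h4, h1, h2, h3]
  have h5 : ((L : ℂ) ^ (K + 2))⁻¹ = (L : ℂ)⁻¹ * ((L : ℂ) ^ (K + 1))⁻¹ := by
    rw [pow_succ (L : ℂ) (K + 1), mul_inv, mul_comm]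
  rw [h5]
  generalize (L : ℂ)⁻¹ = x1
  generalize ((L : ℂ) ^ (K + 1))⁻¹ = x2
  generalize ((L : ℂ) ^ l)⁻¹ = x3
  generalize (Polynomial.taylor (nh p : ℂ) (hat K n L w)).coeff l = x4
  generalize (Polynomial.taylor (nh p : ℂ) (Om N 0 i 0)).coeff l = x5
  generalize (hat K n L w).eval 2 = x6
  generalize (∑ j : Fin (n + 1), if j = 0 then 0 else
    w j * (((L : ℂ) ^ (j : ℕ))⁻¹ * (Om N 0 i 0).coeff j)) = x7
  field_simp
  ring

/-- The condition `b2` for `L → ∞`.

Proof. `x = 1`. Rescale `v` as in `base_lim`. Let `z` be the vector with `hat z = ρ Om N 0 (at' i p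
l) 0`,
so `z 0 = 1`, `z ∈ Xo 0 (at' i p l)`. Any other real test vector differs by an element of
`Xo 1 (at' i p l)`, on which `Df v` vanishes. By `hat_coord` (`y = Om`, constant term one):
`z j = ρ L ^ (-j) y_j - ξ (2 L) ^ j` for `j ≥ 1`, and `v 0 = 0`, so
`dt v z = ρ ∑ j ≥ 1, v j L ^ (-j) y_j - ξ pr hv v`. So with `φ = pr (tau l)`:
`Df v z φ(v) h(v) = ρ φ(z / ρ) φ(v) h(v) + ξ φ(v)^2 h(v)^2 / q v - ρ φ(v)^2 h(v) (∑ v j L^(-j) y_j)
/ q v`.
The second term dominates: `φ(z / ρ) / φ(v)` and `h(v) = hat v (2)`, `1 / h(v)` are bounded, `ρ / ξ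
= 1 / L → 0`,
`q v ≤ M L ^ (-2 d)` is bounded, and the third term divided by the second one is
`O((ρ / ξ) ‖v‖ / (L |h(v)|)) → 0`. -/
theorem base_bf2 {K N n : ℕ} (hn : n ≤ K) {L : ℕ → ℝ} (hL : Tendsto L uf atTop)
    (hp : ∀ k, 1 < L k) {i : ℕ → ℕ} {p l : ℕ} (hpN : p ≤ N) (hi : Adm (p + 1) N i)
    {v : ℕ → Fin (n + 1) → ℂ} (hB : ∀ k, Bv (PL K (L k)) n 1 i p l (v k)) :
    ∀ᶠ k in uf, ∀ z ∈ Xo (PL K (L k)) n 0 (at' i p l), Rea z → z 0 = 1 →
      0 < (Df (PL K (L k)) n p l (v k) z * pr (tau (PL K (L k)) n ((PL K (L k)).g p) l) (v k)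
        * pr (hv (PL K (L k)) n) (v k)).re := by
  obtain ⟨c, hc, hlim, -⟩ := base_lim hn hL hp 1 hpN hi hB
  obtain ⟨d, hd⟩ : ∃ d, d = mf N n 1 i p l + if (1 : Fin 3) = 0 then 0 else 1 := ⟨_, rfl⟩
  rw [← hd] at hlim
  obtain ⟨w, hw⟩ : ∃ w : ℕ → Fin (n + 1) → ℂ, w = fun k => (c k : ℂ) • v k := ⟨_, rfl⟩
  have hwk : ∀ k, w k = (c k : ℂ) • v k := fun k => by rw [hw]
  simp only [← hwk] at hlim
  have hLp : ∀ k, 0 < L k := fun k => one_pos.trans (hp k)
  have hBw : ∀ k, Bv (PL K (L k)) n 1 i p l (w k) := fun k => by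
    rw [hwk]
    exact P7_Bs (hB k) (hc k)
  have hsup : ∀ p', N < p' → at' i p l p' = 0 := by
    intro p' hp'
    rw [at', Function.update_of_ne (by omega)]
    by_contra h
    have := (hi p' h).2
    omega
  have hw0 : ∀ k, w k 0 = 0 := fun k => (mem_XM.1 (hBw k).mem.1).1 (by decide)
  have hdg : dg N 0 (at' i p l) ≤ n := by
    have h1 : dg N 1 (at' i p l) ≤ n := by
      by_contra h
      have h2 := (hBw 0).mem
      rw [Xo_bot (PL_good K N (hLp 0)) n 1 hsup (not_le.1 h), Submodule.mem_bot] at h2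
      exact (hBw 0).ne h2
    refine le_trans ?_ h1
    unfold dg
    exact Nat.add_le_add_right (Nat.zero_le _) _
  have hGd : (Om N 1 (at' i p l) d).natDegree ≤ n := by
    rw [Polynomial.natDegree_le_iff_coeff_eq_zero]
    intro m hm
    refine tendsto_nhds_unique (hlim m) ?_
    refine tendsto_const_nhds.congr fun k => ?_
    exact (Polynomial.coeff_eq_zero_of_natDegree_lt ((P7_deg K n (L k) (w k)).trans_lt hm)).symm
  have hW := P7_taylor (fun k => P7_deg K n (L k) (w k)) hGd hlim (nh p : ℂ) l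
  have hH := P7_eval (fun k => P7_deg K n (L k) (w k)) hGd hlim 2
  obtain ⟨W, hWe⟩ : ∃ W, W = (Polynomial.taylor (nh p : ℂ) (Om N 1 (at' i p l) d)).coeff l :=
    ⟨_, rfl⟩
  obtain ⟨H, hHe⟩ : ∃ H, H = (Om N 1 (at' i p l) d).eval 2 := ⟨_, rfl⟩
  rw [← hWe] at hW
  rw [← hHe] at hH
  have hW0 : W ≠ 0 := by
    rw [hWe]
    exact P7_omt 1 (by decide) i d hpN
  have hH0 : H ≠ 0 := by
    rw [hHe]
    exact P7_om2 N _ d
  have hWi : W.im = 0 := by
    refine P7_im hW fun k => ?_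
    have h1 := pr_re (tau (PL K (L k)) n ((PL K (L k)).g p) l) (hBw k).re
    rw [hat_tau K n (hLp k) p l (w k), ← Complex.ofReal_pow, ← Complex.ofReal_inv,
      Complex.im_ofReal_mul] at h1
    exact (mul_eq_zero.1 h1).resolve_left (inv_ne_zero (pow_ne_zero _ (hLp k).ne'))
  have hHi : H.im = 0 := by
    refine P7_im hH fun k => ?_
    have h1 := pr_re (hv (PL K (L k)) n) (hBw k).re
    rwa [hat_hv K n (hLp k) (w k) (hw0 k)] at h1
  -- the coordinates tend to zero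
  have hLi : Tendsto (fun k => ((L k : ℂ))⁻¹) uf (𝓝 0) := by
    have h1 : Tendsto (fun k => ((L k)⁻¹ : ℝ)) uf (𝓝 0) := tendsto_inv_atTop_zero.comp hL
    have h2 := (Complex.continuous_ofReal.tendsto 0).comp h1
    rw [Complex.ofReal_zero] at h2
    refine h2.congr fun k => ?_
    simp only [Function.comp_apply, Complex.ofReal_inv]
  have hLj : ∀ j : Fin (n + 1), j ≠ 0 →
      Tendsto (fun k => ((L k : ℂ) ^ (j : ℕ))⁻¹) uf (𝓝 0) := by
    intro j hj
    have hj' : (j : ℕ) ≠ 0 := fun h => hj (Fin.ext h)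
    have h1 := hLi.pow (j : ℕ)
    rw [zero_pow hj'] at h1
    refine h1.congr fun k => ?_
    exact inv_pow _ _
  have hwj : ∀ j : Fin (n + 1), Tendsto (fun k => w k j) uf (𝓝 0) := by
    intro j
    by_cases hj : j = 0
    · rw [hj]
      simp only [hw0]
      exact tendsto_const_nhds
    · have hj' : (j : ℕ) ≠ 0 := fun h => hj (Fin.ext h)
      have h1 := (hLj j hj).mul (hlim (j : ℕ))
      rw [zero_mul] at h1
      refine h1.congr fun k => ?_
      rw [(hat_coord K n (hLp k) (w k)).2 j hj', hw0, mul_zero, sub_zero]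
  have hq : Tendsto (fun k => q (w k)) uf (𝓝 0) := by
    have h2 : (0 : ℂ) = ∑ j : Fin (n + 1), (0 : ℂ) ^ 2 :=
      (Finset.sum_eq_zero fun _ _ => by ring).symm
    unfold q
    rw [h2]
    exact tendsto_finsetSum _ fun j _ => (hwj j).pow 2
  have hS : Tendsto (fun k => ∑ j : Fin (n + 1), if j = 0 then 0 else
      w k j * (((L k : ℂ) ^ (j : ℕ))⁻¹ * (Om N 0 (at' i p l) 0).coeff j)) uf (𝓝 0) := by
    have h1 : 𝓝 (0 : ℂ) = 𝓝 (∑ j : Fin (n + 1), (0 : ℂ)) := by rw [Finset.sum_const_zero]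
    rw [h1]
    refine tendsto_finsetSum (Finset.univ : Finset (Fin (n + 1))) fun j _ => ?_
    by_cases hj : j = 0
    · refine (tendsto_const_nhds (x := (0 : ℂ))).congr fun k => ?_
      rw [if_pos hj]
    · have h2 := (hwj j).mul ((hLj j hj).mul_const ((Om N 0 (at' i p l) 0).coeff j))
      rw [zero_mul] at h2
      refine Tendsto.congr (fun k => ?_) h2
      rw [if_neg hj]
  -- the bracket
  have hE := (((((hLi.mul_const ((Polynomial.taylor (nh p : ℂ)
    (Om N 0 (at' i p l) 0)).coeff l)).mul hq).mul hW).mul hH).sub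
    (((hLi.mul (hW.pow 2)).mul hH).mul hS)).add ((hW.pow 2).mul (hH.pow 2))
  have hE0 : 0 * (Polynomial.taylor (nh p : ℂ) (Om N 0 (at' i p l) 0)).coeff l * 0 * W * H
      - 0 * W ^ 2 * H * 0 + W ^ 2 * H ^ 2 = ((W.re ^ 2 * H.re ^ 2 : ℝ) : ℂ) := by
    have e1 : W = (W.re : ℂ) := Complex.ext rfl (by rw [hWi, Complex.ofReal_im])
    have e2 : H = (H.re : ℂ) := Complex.ext rfl (by rw [hHi, Complex.ofReal_im])
    push_cast
    rw [← e1, ← e2]
    ring
  rw [hE0] at hE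
  have hE1 := (Complex.continuous_re.tendsto _).comp hE
  rw [Complex.ofReal_re] at hE1
  have hWr : W.re ≠ 0 := fun h => hW0 (Complex.ext h hWi)
  have hHr : H.re ≠ 0 := fun h => hH0 (Complex.ext h hHi)
  have hpos : 0 < W.re ^ 2 * H.re ^ 2 := by positivity
  filter_upwards [hE1.eventually (lt_mem_nhds hpos)] with k hk z hz hzr hz0
  simp only [Function.comp_apply] at hk
  obtain ⟨z1, hz1, hz1r, hz10, hz1h, hz1j⟩ := P7_z (K := K) (n := n) (hLp k) hsup hdg
  obtain ⟨hq1, hq2⟩ := q_rea_pos (hBw k).re (hBw k).ne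
  have hqe : q (w k) = ((q (w k)).re : ℂ) := Complex.ext rfl (by rw [hq2, Complex.ofReal_im])
  have hqne : q (w k) ≠ 0 := fun h => by
    rw [h, Complex.zero_re] at hq1
    exact lt_irrefl _ hq1
  have hkey := P7_key (K := K) (N := N) (n := n) (hLp k) (i := at' i p l) (p := p) (l := l)
    (hw0 k) hqne hz1h hz1j
  have h1 : 0 < (Df (PL K (L k)) n p l (w k) z1
      * pr (tau (PL K (L k)) n ((PL K (L k)).g p) l) (w k) * pr (hv (PL K (L k)) n) (w k)).re := by
    rw [hkey]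
    have h2 : ((L k : ℂ) ^ l)⁻¹ ^ 2 * ((L k : ℂ) ^ (K + 1))⁻¹ * (q (w k))⁻¹
        = ((((L k) ^ l)⁻¹ ^ 2 * ((L k) ^ (K + 1))⁻¹ * ((q (w k)).re)⁻¹ : ℝ) : ℂ) := by
      rw [hqe]
      push_cast
      rw [Complex.ofReal_re]
    rw [h2, Complex.re_ofReal_mul]
    refine mul_pos ?_ hk
    have := hLp k
    positivity
  have h3 : Df (PL K (L k)) n p l (w k) z = Df (PL K (L k)) n p l (w k) z1 := by
    have h4 : z = z1 + (z - z1) := by ring
    rw [h4, P7_Dfa, P7_Df0 (hBw k) (tst_diff0 n hz hz1 (hz0.trans hz10.symm)), add_zero]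
  have hcc : (c k : ℂ) ≠ 0 := Complex.ofReal_ne_zero.2 (hc k)
  rw [← h3, hwk, P7_Dfs _ _ _ _ hcc, pr_smul, pr_smul] at h1
  have h5 : Df (PL K (L k)) n p l (v k) z
      * ((c k : ℂ) * pr (tau (PL K (L k)) n ((PL K (L k)).g p) l) (v k))
      * ((c k : ℂ) * pr (hv (PL K (L k)) n) (v k))
      = ((c k ^ 2 : ℝ) : ℂ) * (Df (PL K (L k)) n p l (v k) z
        * pr (tau (PL K (L k)) n ((PL K (L k)).g p) l) (v k) * pr (hv (PL K (L k)) n) (v k)) := by
    push_cast
    ring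
  rw [h5, Complex.re_ofReal_mul] at h1
  exact pos_of_mul_pos_right h1 (sq_nonneg _)

end

end Pool.Agent.MPb0eK
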