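import Mathlib
import Pool.Agent.Lib.MP_b0e20b_ag_K.P6
import Pool.Agent.Lib.MP_b0e20b_ag_K.P7

/-!
# MP_b0e20b_ag, project K: existence of the parameters
-/

set_option autoImplicit false

open scoped BigOperators Topology
open Filter

namespace Pool.Agent.MPb0eK

open MPb0eR (c1 c2 c3 tr q Sup Rl Rea uf Nrm cj AF scl)

section

/-- The orders given by a function on the nodes `0, ..., N`. -/
private def exf {N n : ℕ} (f : Fin (N + 1) → Fin (n + 1)) : ℕ → ℕ :=
  fun q => if h : q < N + 1 then (f ⟨q, h⟩ : ℕ) else 0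

/-- For fixed masks and orders and large `L` the base vectors have the properties `BF`. -/
private theorem ev_bf {K N n : ℕ} (hn : n ≤ K) (x : Fin 3) (i : ℕ → ℕ) (p l : ℕ) (hpN : p ≤ N)
    (hi : Adm (p + 1) N i) :
    ∀ᶠ L : ℝ in atTop, ∀ v : Fin (n + 1) → ℂ, Bv (PL K L) n x i p l v →
      BF (PL K L) n x i p l v := by
  by_contra hc
  rw [Filter.not_eventually, Filter.frequently_atTop] at hc
  have h1 : ∀ k : ℕ, ∃ L : ℝ, (k : ℝ) + 2 ≤ L ∧ ∃ v : Fin (n + 1) → ℂ,
      Bv (PL K L) n x i p l v ∧ ¬ BF (PL K L) n x i p l v := by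
    intro k
    obtain ⟨L, h2, h3⟩ := hc ((k : ℝ) + 2)
    push Not at h3
    exact ⟨L, h2, h3⟩
  choose L hL v hB hF using h1
  have hp : ∀ k, 1 < L k := by
    intro k
    have := hL k
    have h0 : (0 : ℝ) ≤ (k : ℝ) := Nat.cast_nonneg k
    linarith
  have hT : Tendsto L uf atTop := by
    refine tendsto_atTop_mono (fun k => ?_) MPb0eR.uf_atTop
    have := hL k
    linarith
  have e1 := base_bf1 hn hT hp x hpN hi hB
  have e2 : ∀ᶠ k in uf, x = 1 → ∀ z ∈ Xo (PL K (L k)) n 0 (at' i p l), Rea z → z 0 = 1 →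
      0 < (Df (PL K (L k)) n p l (v k) z * pr (tau (PL K (L k)) n ((PL K (L k)).g p) l) (v k)
        * pr (hv (PL K (L k)) n) (v k)).re := by
    by_cases hx : x = 1
    · subst hx
      exact (base_bf2 hn hT hp hpN hi hB).mono fun k hk _ => hk
    · exact Eventually.of_forall fun k hk => absurd hk hx
  obtain ⟨k, ⟨f0, f1, f4, f5, f6, f7⟩, f2⟩ := (e1.and e2).exists
  exact hF k ⟨f0, f1, f2, f4, f5, f6, f7⟩

/-- The properties for all base vectors, for large `L`. -/
private theorem ev_bfs {K N n : ℕ} (hn : n ≤ K) : ∀ᶠ L : ℝ in atTop, BFs (PL K L) N n := by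
  have h1 : ∀ (a : Fin 3 × Fin (N + 1) × Fin (n + 1) × (Fin (N + 1) → Fin (n + 1))),
      ∀ᶠ L : ℝ in atTop, Adm ((a.2.1 : ℕ) + 1) N (exf a.2.2.2) →
        ∀ v : Fin (n + 1) → ℂ, Bv (PL K L) n a.1 (exf a.2.2.2) a.2.1 a.2.2.1 v →
          BF (PL K L) n a.1 (exf a.2.2.2) a.2.1 a.2.2.1 v := by
    intro a
    by_cases ha : Adm ((a.2.1 : ℕ) + 1) N (exf a.2.2.2)
    · exact (ev_bf hn a.1 (exf a.2.2.2) a.2.1 a.2.2.1 (Nat.lt_succ_iff.mp a.2.1.isLt) ha).mono
        fun L hL _ => hL
    · exact Eventually.of_forall fun L h => absurd h ha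
  filter_upwards [Filter.eventually_all.mpr h1, eventually_gt_atTop 0] with L h2 hL
  intro x i p l v hpN hi hB
  have hG := PL_good K N hL
  have hip : i p = 0 := by
    by_contra h0
    have := (hi p h0).1
    omega
  have hi0 : ∀ q, N < q → at' i p l q = 0 := by
    intro q hq
    rw [at', Function.update_of_ne (by omega)]
    by_contra h0
    have := (hi q h0).2
    omega
  have hd : dg N x (at' i p l) ≤ n := by
    by_contra hc
    push Not at hc
    have h3 := Xo_bot hG n x hi0 hc
    have h4 := hB.mem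
    rw [h3, Submodule.mem_bot] at h4
    exact hB.ne h4
  have hle : ∀ q, q ≤ N → at' i p l q ≤ n := by
    intro q hq
    have h3 : at' i p l q ≤ ∑ p' ∈ Finset.range (N + 1), at' i p l p' :=
      Finset.single_le_sum (f := fun p' => at' i p l p') (fun _ _ => Nat.zero_le _)
        (Finset.mem_range.mpr (Nat.lt_succ_iff.mpr hq))
    have h4 : dg N x (at' i p l) = (x : ℕ) + ∑ p' ∈ Finset.range (N + 1), at' i p l p' := rfl
    omega
  have hl : l ≤ n := by
    have := hle p hpN
    rwa [at', Function.update_self] at this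
  have hq : ∀ q, q ≤ N → i q ≤ n := by
    intro q hq
    by_cases h : q = p
    · rw [h, hip]
      exact Nat.zero_le _
    · have := hle q hq
      rwa [at', Function.update_of_ne h] at this
  have hiN : ∀ q, N < q → i q = 0 := by
    intro q hq
    by_contra h0
    have := (hi q h0).2
    omega
  let f : Fin (N + 1) → Fin (n + 1) := fun q =>
    ⟨i q, Nat.lt_succ_iff.mpr (hq q (Nat.lt_succ_iff.mp q.isLt))⟩
  have hf : exf f = i := by
    funext q
    simp only [exf]
    split_ifs with h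
    · rfl
    · exact (hiN q (by omega)).symm
  have h5 := h2 (x, ⟨p, Nat.lt_succ_iff.mpr hpN⟩, ⟨l, Nat.lt_succ_iff.mpr hl⟩, f)
  simp only [hf] at h5
  exact h5 hi v hB

/-- There are parameters such that all base vectors have the properties `BF`.

Proof. `P = PL K L` with `K = max n2 n3` and `L` large. Otherwise there are `L k → ∞` and masks,
orders
`i`, rows `p ≤ N`, levels `l` and base vectors violating `BF`; a base vector is not zero, so
`dg N x (at' i p l) ≤ n`, so there are finitely many `(x, i, p, l)` (`Adm`), constant along the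
ultrafilter; `base_bf1`, `base_bf2`. -/
theorem par_exists (N n2 n3 : ℕ) : ∃ P : Par, GoodP P N ∧ BFs P N n2 ∧ BFs P N n3 := by
  have h1 := ev_bfs (N := N) (le_max_left n2 n3)
  have h2 := ev_bfs (N := N) (le_max_right n2 n3)
  obtain ⟨L, ⟨h3, h4⟩, h5⟩ := ((h1.and h2).and (eventually_gt_atTop 0)).exists
  exact ⟨PL (max n2 n3) L, PL_good _ N h5, h3, h4⟩

end

end Pool.Agent.MPb0eK
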