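import Mathlib
import Pool.Agent.Lib.MP_b0e20b_ag_K.E4
import Pool.Agent.Lib.MP_b0e20b_ag_K.D2
import Pool.Agent.Lib.MP_b0e20b_ag_K.DB0
import Pool.Agent.Lib.MP_b0e20b_ag_K.DB1
import Pool.Agent.Lib.MP_b0e20b_ag_K.S0
import Pool.Agent.Lib.MP_b0e20b_ag_K.P8

/-!
# MP_b0e20b_ag, project K: level T: conclusion
-/

set_option autoImplicit false

open scoped BigOperators Topology
open Filter

namespace Pool.Agent.MPb0eK

open MPb0eR (c1 c2 c3 tr q Sup Rl Rea uf Nrm cj AF scl)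

section

private theorem TFin_val (N p : ℕ) (hp : p ≤ N) :
    ((Fin.ofNat (N + 1) p : Fin (N + 1)) : ℕ) = p :=
  Nat.mod_eq_of_lt (Nat.lt_succ_of_le hp)

private theorem TFin_ne {N p : ℕ} (h1 : 1 ≤ p) (hp : p ≤ N) : Fin.ofNat (N + 1) p ≠ 0 := by
  intro h
  have h2 := congrArg Fin.val h
  rw [TFin_val N p hp] at h2
  simp at h2
  omega

/-- The row `0` is not changed by the updates. -/
private theorem TFin_BG {P : Par} {N n2 n3 : ℕ}
    {T : Fin (N + 1) → Fin (n2 + 1) → Fin (n3 + 1) → ℝ} (h : BG P T) {a : Fin (N + 1)}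
    (ha : a ≠ 0) (K : Fin (n2 + 1) → Fin (n3 + 1) → ℝ) : BG P (Function.update T a K) := by
  intro x y i j p l v w hx hy h1 hp hi hj hv hw h2 h3
  have e : c1 (Function.update T a K) v w 0 = c1 T v w 0 := by
    unfold c1
    rw [Function.update_of_ne (Ne.symm ha)]
  rw [e]
  exact h x y i j p l v w hx hy h1 hp hi hj hv hw h2 h3

/-- The bundle for the rows `≤ k`. -/
private theorem TFin_ind {P : Par} {N n2 n3 : ℕ} (hP : GoodP P N) (h2 : BFs P N n2)
    (h3 : BFs P N n3) (k : ℕ) : k ≤ N → ∃ T : Fin (N + 1) → Fin (n2 + 1) → Fin (n3 + 1) → ℝ,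
      BG P T ∧ PE P T false (k + 1) ∧ PE P T true (k + 1) ∧ PD P T false (k + 1) ∧
        PD P T true (k + 1) := by
  induction k with
  | zero =>
    intro _
    have e1 := s0_BG (P := P) (N := N) (n2 := n2) (n3 := n3) hP
    have e2 := s0_true (P := P) (N := N) (n2 := n2) (n3 := n3) hP h2 h3
    have e3 := db1 (P := P) (N := N) (n2 := n2) (n3 := n3) hP
    obtain ⟨δ, ⟨g1, g2⟩, g3⟩ := ((e1.and e2).and e3).exists
    exact ⟨T00 P N n2 n3 δ, g1, s0_false δ, g2, db0 hP _, g3⟩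
  | succ k ih =>
    intro hk
    obtain ⟨T, hG, hE, hE', hD, hD'⟩ := ih (by omega)
    have h1 : 1 ≤ k + 1 := by omega
    have a1 := e4_step (p := k + 1) hP h1 hk h2 h3 hG hE
    have a2 := e4_step (p := k + 1) hP h1 hk h2 h3 hG hE'
    have a3 := d_step (p := k + 1) hP h1 hk hE (fun h => absurd h (by decide)) hD
    have a4 := d_step (p := k + 1) hP h1 hk hE (fun _ => hE') hD'
    obtain ⟨δ, ⟨⟨b1, b2⟩, b3⟩, b4⟩ := (((a1.and a2).and a3).and a4).exists
    obtain ⟨R, ⟨d1, d2⟩, d3⟩ := ((b1.and b2).and (eventually_gt_atTop 0)).exists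
    exact ⟨_, TFin_BG hG (TFin_ne h1 hk) _, d1, d2, b3 R d3, b4 R d3⟩

/-- The rows of the last step, without row `0`. -/
private theorem TFin_SR_false (N : ℕ) : SR N false (N + 1) = Finset.univ.erase 0 := by
  ext a
  simp only [SR, Finset.mem_filter, Finset.mem_univ, true_and, Finset.mem_erase, and_true]
  constructor
  · rintro ⟨h | h, -⟩
    · exact absurd h (by decide)
    · exact h
  · intro h
    exact ⟨Or.inr h, a.isLt⟩

/-- The rows of the last step, with row `0`. -/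
private theorem TFin_SR_true (N : ℕ) : SR N true (N + 1) = Finset.univ := by
  ext a
  simp only [SR, Finset.mem_filter, Finset.mem_univ, true_and, iff_true]
  exact ⟨Or.inl trivial, a.isLt⟩

private theorem TFin_Xo (P : Par) (n : ℕ) (x : Fin 3) :
    Xo P n x (fun _ => 0) = XM 0 (hv P n) x := by
  ext v
  constructor
  · intro h
    exact h.1
  · intro h
    exact ⟨h, fun p l hl => absurd hl (Nat.not_lt_zero l)⟩

private theorem TFin_adm (N : ℕ) : Adm (N + 1) N fun _ => 0 := fun _ h => absurd rfl h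

private theorem TFin_hv0 (P : Par) (n : ℕ) : hv P n 0 = 0 := by
  simp [hv]

private theorem TFin_gh {P : Par} {N : ℕ} (hP : GoodP P N) : 0 < P.gh := hP.h0.trans hP.h1

private theorem TFin_hne {P : Par} {N : ℕ} (hP : GoodP P N) {n : ℕ} (hn : 1 ≤ n) :
    hv P n ≠ 0 := by
  intro h
  have h1 := congrFun h ⟨1, by omega⟩
  simp only [hv, Pi.zero_apply] at h1
  rw [if_neg one_ne_zero, pow_one] at h1
  exact (TFin_gh hP).ne' h1

/-- The pairing with the first unit vector. -/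
private theorem TFin_dt_single {n : ℕ} (g : Fin (n + 1) → ℂ) :
    dt g (Pi.single 0 1) = g 0 := by
  unfold dt
  rw [Finset.sum_eq_single 0]
  · rw [Pi.single_eq_same, mul_one]
  · intro b _ hb
    rw [Pi.single_eq_of_ne hb, mul_zero]
  · intro h
    exact absurd (Finset.mem_univ _) h

private theorem TFin_rea_single {n : ℕ} (k : Fin (n + 1)) {c : ℂ} (hc : c.im = 0) :
    Rea (Pi.single k c : Fin (n + 1) → ℂ) := by
  intro b
  by_cases h : b = k
  · rw [h, Pi.single_eq_same, hc]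
  · rw [Pi.single_eq_of_ne h, Complex.zero_im]

/-- A real vector with `z 0 = 0` and `h (z) = 1`. -/
private theorem TFin_test {P : Par} {N : ℕ} (hP : GoodP P N) {n : ℕ} (hn : 1 ≤ n) :
    ∃ z : Fin (n + 1) → ℂ, z 0 = 0 ∧ pr (hv P n) z = 1 ∧ Rea z := by
  have h0 : (P.gh : ℂ) ≠ 0 := Complex.ofReal_ne_zero.2 (TFin_gh hP).ne'
  have hk : (⟨1, by omega⟩ : Fin (n + 1)) ≠ 0 := by
    intro h
    have := congrArg Fin.val h
    simp at this
  refine ⟨Pi.single ⟨1, by omega⟩ ((P.gh : ℂ)⁻¹), Pi.single_eq_of_ne (Ne.symm hk) _, ?_,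
    TFin_rea_single _ ?_⟩
  · unfold pr
    rw [Finset.sum_eq_single ⟨1, by omega⟩]
    · rw [Pi.single_eq_same]
      simp only [hv]
      rw [if_neg one_ne_zero, pow_one]
      exact mul_inv_cancel₀ h0
    · intro b _ hb
      rw [Pi.single_eq_of_ne hb, mul_zero]
    · intro h
      exact absurd (Finset.mem_univ _) h
  · rw [← Complex.ofReal_inv, Complex.ofReal_im]

/-- The pairing of the defect with a vector with `z 0 = 0`. -/
private theorem TFin_defect {P : Par} {n : ℕ} {g v z : Fin (n + 1) → ℂ} {β M : ℂ}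
    (h : ∀ b, b ≠ 0 → g b + M * hv P n b = β * v b) (hz : z 0 = 0) :
    dt (g - β • v) z = - (M * pr (hv P n) z) := by
  unfold dt pr
  rw [Finset.mul_sum, ← Finset.sum_neg_distrib]
  refine Finset.sum_congr rfl fun b _ => ?_
  by_cases hb : b = 0
  · rw [hb, hz, mul_zero, mul_zero, mul_zero, neg_zero]
  · have h1 := h b hb
    rw [Pi.sub_apply, Pi.smul_apply, smul_eq_mul]
    have h2 : g b - β * v b = - (M * hv P n b) := by
      rw [← h1]
      ring
    rw [h2]
    ring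

private theorem TFin_sum {P : Par} {n : ℕ} {g z : Fin (n + 1) → ℂ} {M : ℂ}
    (h : ∀ b, b ≠ 0 → g b + M * hv P n b = 0) (hz : z 0 = 0) :
    dt g z + M * pr (hv P n) z = 0 := by
  have h1 := TFin_defect (P := P) (g := g) (v := 0) (z := z) (β := 0) (M := M)
    (fun b hb => by rw [h b hb, zero_mul]) hz
  rw [zero_smul, sub_zero] at h1
  rw [h1]
  ring

/-- Multiplication with a positive real number. -/
private theorem TFin_pos {x t s : ℂ} (h : 0 < (x * (s * t)).re) (h1 : 0 < t.re) (h2 : t.im = 0) :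
    0 < (s * x).re := by
  have h3 : x * (s * t) = (t.re : ℂ) * (s * x) := by
    have h4 : t = (t.re : ℂ) := Complex.ext rfl (by rw [h2, Complex.ofReal_im])
    rw [← h4]
    ring
  rw [h3, Complex.re_ofReal_mul] at h
  exact (mul_pos_iff_of_pos_left h1).1 h

/-- The induction over the rows.

Proof. `par_exists` gives `P`. Choose `δ` with `s0_BG`, `s0_true`, `db1`: `T00` satisfies
`PE false 1` (`s0_false`), `PE true 1`, `PD false 1` (`db0`), `PD true 1`, `BG`. Then for `p = 1,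
..., N`:
`e4_step` (twice) and `d_step` (twice): choose `δ` and then `R`; `BG` depends only on the row `0`
(`c1 T v w 0`), which does not change. -/
theorem exists_bundle (N n2 n3 : ℕ) : ∃ (P : Par)
    (T : Fin (N + 1) → Fin (n2 + 1) → Fin (n3 + 1) → ℝ), GoodP P N ∧ PE P T false (N + 1) ∧
      PE P T true (N + 1) ∧ PD P T false (N + 1) ∧ PD P T true (N + 1) := by
  obtain ⟨P, hP, h2, h3⟩ := par_exists N n2 n3
  obtain ⟨T, -, g1, g2, g3, g4⟩ := TFin_ind (n2 := n2) (n3 := n3) hP h2 h3 N le_rfl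
  exact ⟨P, T, hP, g1, g2, g3, g4⟩

/-- The hypotheses of level W.

Proof. For `p = N + 1` the orders are zero (`Adm`), `Xo P n x 0 = XM 0 (hv P n) x`,
`SR N false (N + 1) = univ.erase 0`, `SR N true (N + 1) = univ`. `f'`, `f`: `PE` (for `full = true`
the
masks `x, y ≠ 0`, not both `2`). `s2`: `Ob.s2` with `z = e_0`: `dt gB z = c2 T u w 0 - β v 0`, `v 0
= 0`, and
`α q u = β q v` (`TX.tr`), `q v > 0`. `s1` the same, `g0`, `t1`: `Ob.g0`, `Ob.t1`. `t2`: for
`z ∈ XM 1` with `h(z) = 1`: `dt gB z = - N`, and `dt gC e_0 = c3 T u v 0` (`w 0 = 0`), so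
`Ob.t2` says `- N c3 G < 0`. `t3` the same. `d0`: `PD false`: `D0` gives `DX` (the tests
`z ∈ XM 1` have `z 0 = 0`), `d1`: `PD true`. `OkD` from `OkDX` (`KD0` implies `KDX`). `hne`:
`hv P n` is not zero for `n ≥ 1` (`gh > 0`). -/
theorem exists_HY3 (N n2 n3 : ℕ) (h2 : 1 ≤ n2) (h3 : 1 ≤ n3) : ∃ (P : Par)
    (T : Fin (N + 1) → Fin (n2 + 1) → Fin (n3 + 1) → ℝ),
    HY3 T 0 0 0 (hv P n2) (hv P n3) := by
  obtain ⟨P, T, hP, hE, hE', hD, hD'⟩ := exists_bundle N n2 n3
  have eF := TFin_SR_false N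
  have eT := TFin_SR_true N
  have kE : ∀ x y : Fin 3, ∀ u v w α β γ,
      TX T (Finset.univ.erase 0) (XM 0 (hv P n2) x) (XM 0 (hv P n3) y) u v w α β γ →
      u ≠ 0 → v ≠ 0 → w ≠ 0 →
      OkX T (Finset.univ.erase 0) (XM 0 (hv P n2) x) (XM 0 (hv P n3) y) u v w α β γ ∧
      (Rea u → Rea v → Rea w → Ob P n2 n3 false x y (fun _ => 0) (fun _ => 0) v w
        (c2 T u w - β • v) (c3 T u v - γ • w) (α * q u) (c1 T v w 0)) := by
    intro x y u v w α β γ h
    have h4 := hE x y (fun _ => 0) (fun _ => 0) (fun h => absurd h (by decide)) (TFin_adm N)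
      (TFin_adm N) u v w α β γ
    rw [eF, TFin_Xo, TFin_Xo] at h4
    exact h4 h
  have kE' : ∀ x y : Fin 3, x ≠ 0 → y ≠ 0 → ¬ (x = 2 ∧ y = 2) → ∀ u v w α β γ,
      TX T Finset.univ (XM 0 (hv P n2) x) (XM 0 (hv P n3) y) u v w α β γ →
      u ≠ 0 → v ≠ 0 → w ≠ 0 →
      OkX T Finset.univ (XM 0 (hv P n2) x) (XM 0 (hv P n3) y) u v w α β γ ∧
      (Rea u → Rea v → Rea w → Ob P n2 n3 true x y (fun _ => 0) (fun _ => 0) v w
        (c2 T u w - β • v) (c3 T u v - γ • w) (α * q u) (c1 T v w 0)) := by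
    intro x y hx hy hxy u v w α β γ h
    have h4 := hE' x y (fun _ => 0) (fun _ => 0) (fun _ => ⟨hx, hy, hxy⟩) (TFin_adm N)
      (TFin_adm N) u v w α β γ
    rw [eT, TFin_Xo, TFin_Xo] at h4
    exact h4 h
  have r1 : ∀ n : ℕ, Rea (Pi.single 0 1 : Fin (n + 1) → ℂ) := fun n =>
    TFin_rea_single 0 Complex.one_im
  have m0 : ∀ n : ℕ, ∀ z : Fin (n + 1) → ℂ, z ∈ Xo P n 0 (fun _ => 0) := by
    intro n z
    rw [TFin_Xo]
    exact ⟨fun h => absurd rfl h, fun h => absurd h (by decide)⟩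
  have m1 : ∀ n : ℕ, ∀ z : Fin (n + 1) → ℂ, z 0 = 0 → z ∈ Xo P n 1 (fun _ => 0) := by
    intro n z hz
    rw [TFin_Xo]
    exact ⟨fun _ => hz, fun h => absurd h (by decide)⟩
  refine ⟨P, T, ⟨TFin_hv0 P n2, TFin_hv0 P n3, TFin_hne hP h2, TFin_hne hP h3, ?_, ?_, ?_, ?_, ?_,
    ?_, ?_, ?_, ?_, ?_⟩⟩
  · intro x y u v w α β γ h nu nv nw
    exact (kE x y u v w α β γ h nu nv nw).1
  · intro x y hx hy hxy u v w α β γ h nu nv nw
    exact (kE' x y hx hy hxy u v w α β γ h nu nv nw).1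
  · intro y hy u v w α β γ h nu nv nw ru rv rw'
    have h4 := ((kE 1 y u v w α β γ h nu nv nw).2 ru rv rw').s2 rfl rfl hy (Pi.single 0 1)
      (m0 n2 _) (r1 n2) (Pi.single_eq_same 0 1)
    have hv0 : v 0 = 0 := h.sv.1 (by decide)
    obtain ⟨t1, t2, -⟩ := h.tr
    rw [TFin_dt_single, Pi.sub_apply, Pi.smul_apply, hv0, smul_zero, sub_zero, t1, ← t2] at h4
    obtain ⟨q1, q2⟩ := q_rea_pos rv nv
    have h5 := TFin_pos (x := c2 T u w 0 * pr (hv P n2) v) (t := q v) (s := β)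
      (by convert h4 using 2; ring) q1 q2
    convert h5 using 2
    ring
  · intro x hx u v w α β γ h nu nv nw ru rv rw'
    have h4 := ((kE x 1 u v w α β γ h nu nv nw).2 ru rv rw').s1 rfl rfl hx (Pi.single 0 1)
      (m0 n3 _) (r1 n3) (Pi.single_eq_same 0 1)
    have hw0 : w 0 = 0 := h.sw.1 (by decide)
    obtain ⟨t1, -, t2⟩ := h.tr
    rw [TFin_dt_single, Pi.sub_apply, Pi.smul_apply, hw0, smul_zero, sub_zero, t1, ← t2] at h4
    obtain ⟨q1, q2⟩ := q_rea_pos rw' nw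
    have h5 := TFin_pos (x := c3 T u v 0 * pr (hv P n3) w) (t := q w) (s := γ)
      (by convert h4 using 2; ring) q1 q2
    convert h5 using 2
    ring
  · intro u v w α β γ h nu nv nw
    have h5 := (kE 1 1 u v w α β γ h nu nv nw).1
    obtain ⟨a, ha, ra⟩ := h5.ru
    obtain ⟨b, hb, rb⟩ := h5.rv
    obtain ⟨c, hc, rc⟩ := h5.rw'
    have h6 := ((kE 1 1 _ _ _ _ _ _ (h.smul ha hb hc) (smul_ne_zero ha nu) (smul_ne_zero hb nv)
      (smul_ne_zero hc nw)).2 ra rb rc).g0 rfl rfl rfl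
    intro h7
    apply h6
    rw [MPb0eR.c1_smul_left, MPb0eR.c1_smul_right, h7, mul_zero, mul_zero]
  · intro u v w α β γ h nu nv nw ru rv rw'
    exact ((kE' 1 1 (by decide) (by decide) (by decide) u v w α β γ h nu nv nw).2 ru rv rw').t1
      rfl rfl rfl
  · intro u v w α β γ M h hM nu nv nw ru rv rw'
    obtain ⟨z, z0, z1, zr⟩ := TFin_test hP h2
    have h4 := ((kE 2 1 u v w α β γ h nu nv nw).2 ru rv rw').t2 rfl rfl rfl z (m1 n2 z z0) zr z1
      (Pi.single 0 1) (m0 n3 _) (r1 n3) (Pi.single_eq_same 0 1)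
    have hw0 : w 0 = 0 := h.sw.1 (by decide)
    rw [TFin_dt_single, Pi.sub_apply, Pi.smul_apply, hw0, smul_zero, sub_zero,
      TFin_defect hM z0, z1, mul_one] at h4
    have h5 : M * c3 T u v 0 * c1 T v w 0 = - (-M * c3 T u v 0 * c1 T v w 0) := by ring
    rw [h5, Complex.neg_re]
    linarith
  · intro u v w α β γ M h hM nu nv nw ru rv rw'
    obtain ⟨z, z0, z1, zr⟩ := TFin_test hP h3
    have h4 := ((kE 1 2 u v w α β γ h nu nv nw).2 ru rv rw').t3 rfl rfl rfl (Pi.single 0 1)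
      (m0 n2 _) (r1 n2) (Pi.single_eq_same 0 1) z (m1 n3 z z0) zr z1
    have hv0 : v 0 = 0 := h.sv.1 (by decide)
    rw [TFin_dt_single, Pi.sub_apply, Pi.smul_apply, hv0, smul_zero, sub_zero,
      TFin_defect hM z0, z1, mul_one] at h4
    have h5 : M * c2 T u w 0 * c1 T v w 0 = - (c2 T u w 0 * -M * c1 T v w 0) := by ring
    rw [h5, Complex.neg_re]
    linarith
  · intro u v w M M' h nu nv nw hM hM' hv0 hw0
    obtain ⟨⟨a, b, c, ha, hb, hc, ra, rb, rc, -, -⟩, nd⟩ := (hD (fun _ => 0) (fun _ => 0)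
      (TFin_adm N) (TFin_adm N) u v w M M'
      ⟨fun k hk => by
        have h4 : k = 0 := by
          by_contra h5
          exact hk (by rw [eF]; exact Finset.mem_erase.2 ⟨h5, Finset.mem_univ _⟩)
        rw [h4]
        exact h.su, m0 n2 v, m0 n3 w, fun k hk => h.e1 k (by
          rw [eF] at hk
          exact Finset.ne_of_mem_erase hk),
        fun z hz => TFin_sum h.e2 (hz.1.1 (by decide)),
        fun z hz => TFin_sum h.e3 (hz.1.1 (by decide)), fun _ => h.e4⟩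
      ⟨nv, nw, hM, hM', fun _ => ⟨hv0, hw0⟩, fun h => absurd h (by decide)⟩).1
    refine ⟨⟨a, ha, ra⟩, ⟨b, hb, rb⟩, ⟨c, hc, rc⟩, ?_⟩
    intro du dv dw dM dM' hk
    obtain ⟨a', b', c', h4, h5, h6, -, -⟩ := nd du dv dw dM dM'
      ⟨fun k hk' => by
        have h4 : k = 0 := by
          by_contra h5
          exact hk' (by rw [eF]; exact Finset.mem_erase.2 ⟨h5, Finset.mem_univ _⟩)
        rw [h4]
        exact hk.su, m0 n2 dv, m0 n3 dw, fun k hk' => hk.e1 k (by
          rw [eF] at hk'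
          exact Finset.ne_of_mem_erase hk'),
        fun z hz => by
          rw [← dt_add_left]
          exact TFin_sum hk.e2 (hz.1.1 (by decide)),
        fun z hz => by
          rw [← dt_add_left]
          exact TFin_sum hk.e3 (hz.1.1 (by decide)), fun _ => hk.e4⟩
    exact ⟨⟨a', h4⟩, ⟨b', h5⟩, ⟨c', h6⟩⟩
  · intro u v w M M' h nu nv nw hM hM'
    obtain ⟨⟨a, b, c, ha, hb, hc, ra, rb, rc, -, -⟩, nd⟩ := (hD' (fun _ => 0) (fun _ => 0)
      (TFin_adm N) (TFin_adm N) u v w M M'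
      ⟨fun k hk => absurd (by rw [eT]; exact Finset.mem_univ _) hk, m1 n2 v h.sv, m1 n3 w h.sw,
        fun k hk => h.e1 k (by
          rw [eF] at hk
          exact Finset.ne_of_mem_erase hk),
        fun z hz => TFin_sum h.e2 (hz.1.1 (by decide)),
        fun z hz => TFin_sum h.e3 (hz.1.1 (by decide)), fun h => absurd h (by decide)⟩
      ⟨nv, nw, hM, hM', fun h => absurd h (by decide), fun _ => nu⟩).1
    refine ⟨⟨a, ha, ra⟩, ⟨b, hb, rb⟩, ⟨c, hc, rc⟩, ?_⟩
    intro du dv dw dM dM' hk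
    obtain ⟨a', b', c', h4, h5, h6, -, -⟩ := nd du dv dw dM dM'
      ⟨fun k hk' => absurd (by rw [eT]; exact Finset.mem_univ _) hk', m1 n2 dv hk.sv,
        m1 n3 dw hk.sw, fun k hk' => hk.e1 k (by
          rw [eF] at hk'
          exact Finset.ne_of_mem_erase hk'),
        fun z hz => by
          rw [← dt_add_left]
          exact TFin_sum hk.e2 (hz.1.1 (by decide)),
        fun z hz => by
          rw [← dt_add_left]
          exact TFin_sum hk.e3 (hz.1.1 (by decide)), fun h => absurd h (by decide)⟩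
    exact ⟨⟨a', h4⟩, ⟨b', h5⟩, ⟨c', h6⟩⟩

end

end Pool.Agent.MPb0eK
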