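import Mathlib
import Pool.Agent.Lib.MP_b0e20b_ag_K.WDefs
import Pool.Agent.Lib.MP_b0e20b_ag_K.TXa
import Pool.Agent.Lib.MP_b0e20b_ag_R.Alg

/-!
# MP_b0e20b_ag, project K: exchange of the second and the third factor
-/

set_option autoImplicit false

open scoped BigOperators Topology
open Filter

namespace Pool.Agent.MPb0eK

open MPb0eR (c1 c2 c3 tr q Sup Rl Rea uf Nrm cj AF scl)

section

variable {A B C : Type} [Fintype A] [Fintype B] [Fintype C] [DecidableEq A] [DecidableEq B]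
  [DecidableEq C] {oA : A} {oB : B} {oC : C}
  {h : B → ℝ} {h' : C → ℝ}

variable {T : A → B → C → ℝ}

theorem TX.mir {SA : Finset A} {X : Submodule ℂ (B → ℂ)} {Y : Submodule ℂ (C → ℂ)} {u : A → ℂ}
    {v : B → ℂ} {w : C → ℂ} {α β γ : ℂ} (ht : TX T SA X Y u v w α β γ) :
    TX (MPb0eR.s23 T) SA Y X u w v α γ β where
  su := ht.su
  sv := ht.sw
  sw := ht.sv
  e1 := fun a ha => by
    rw [MPb0eR.c1_s23]
    exact ht.e1 a ha
  e2 := ht.e3
  e3 := ht.e2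

private theorem mir_KX {SA : Finset A} {X : Submodule ℂ (B → ℂ)} {Y : Submodule ℂ (C → ℂ)}
    {u : A → ℂ} {v : B → ℂ} {w : C → ℂ} {α β γ : ℂ} {du : A → ℂ} {dv : B → ℂ} {dw : C → ℂ}
    {dα dβ dγ : ℂ} (hk : KX T SA X Y u v w α β γ du dv dw dα dβ dγ) :
    KX (MPb0eR.s23 T) SA Y X u w v α γ β du dw dv dα dγ dβ where
  su := hk.su
  sv := hk.sw
  sw := hk.sv
  e1 := fun a ha => by
    rw [MPb0eR.c1_s23, MPb0eR.c1_s23, add_comm]
    exact hk.e1 a ha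
  e2 := hk.e3
  e3 := hk.e2

private theorem mir_OkX {SA : Finset A} {X : Submodule ℂ (B → ℂ)} {Y : Submodule ℂ (C → ℂ)}
    {u : A → ℂ} {v : B → ℂ} {w : C → ℂ} {α β γ : ℂ} (ho : OkX T SA X Y u v w α β γ) :
    OkX (MPb0eR.s23 T) SA Y X u w v α γ β where
  ru := ho.ru
  rv := ho.rw'
  rw' := ho.rv
  hα := ho.hα
  hβ := ho.hγ
  hγ := ho.hβ
  nd := fun du dw dv dα dγ dβ hk => by
    obtain ⟨h1, h2, h3⟩ := ho.nd du dv dw dα dβ dγ (mir_KX (T := MPb0eR.s23 T) hk)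
    exact ⟨h1, h3, h2⟩

theorem FX.mir {SA : Finset A} {X : Submodule ℂ (B → ℂ)} {Y : Submodule ℂ (C → ℂ)}
    (ht : FX T SA X Y) : FX (MPb0eR.s23 T) SA Y X := fun u w v α γ β h1 hu hw hv =>
  mir_OkX (ht u v w α β γ (TX.mir (T := MPb0eR.s23 T) h1) hu hv hw)

private theorem mir_D0 {u : A → ℂ} {v : B → ℂ} {w : C → ℂ} {N N' : ℂ}
    (hd : D0 T oA oB oC h h' u v w N N') : D0 (MPb0eR.s23 T) oA oC oB h' h u w v N' N where
  su := hd.su
  e1 := fun a ha => by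
    rw [MPb0eR.c1_s23]
    exact hd.e1 a ha
  e2 := hd.e3
  e3 := hd.e2
  e4 := hd.e4.symm

private theorem mir_KD0 {u : A → ℂ} {v : B → ℂ} {w : C → ℂ} {N N' : ℂ} {du : A → ℂ}
    {dv : B → ℂ} {dw : C → ℂ} {dN dN' : ℂ}
    (hd : KD0 T oA oB oC h h' u v w N N' du dv dw dN dN') :
    KD0 (MPb0eR.s23 T) oA oC oB h' h u w v N' N du dw dv dN' dN where
  su := hd.su
  e1 := fun a ha => by
    rw [MPb0eR.c1_s23, MPb0eR.c1_s23, add_comm]
    exact hd.e1 a ha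
  e2 := hd.e3
  e3 := hd.e2
  e4 := hd.e4.symm

private theorem mir_D1 {u : A → ℂ} {v : B → ℂ} {w : C → ℂ} {N N' : ℂ}
    (hd : D1 T oA oB oC h h' u v w N N') : D1 (MPb0eR.s23 T) oA oC oB h' h u w v N' N where
  sv := hd.sw
  sw := hd.sv
  e1 := fun a ha => by
    rw [MPb0eR.c1_s23]
    exact hd.e1 a ha
  e2 := hd.e3
  e3 := hd.e2

private theorem mir_KD1 {u : A → ℂ} {v : B → ℂ} {w : C → ℂ} {N N' : ℂ} {du : A → ℂ}
    {dv : B → ℂ} {dw : C → ℂ} {dN dN' : ℂ}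
    (hd : KD1 T oA oB oC h h' u v w N N' du dv dw dN dN') :
    KD1 (MPb0eR.s23 T) oA oC oB h' h u w v N' N du dw dv dN' dN where
  sv := hd.sw
  sw := hd.sv
  e1 := fun a ha => by
    rw [MPb0eR.c1_s23, MPb0eR.c1_s23, add_comm]
    exact hd.e1 a ha
  e2 := hd.e3
  e3 := hd.e2

theorem HY3.mir (hY : HY3 T oA oB oC h h') : HY3 (MPb0eR.s23 T) oA oC oB h' h where
  ho := hY.ho'
  ho' := hY.ho
  hne := hY.hne'
  hne' := hY.hne
  f' := fun x y => (hY.f' y x).mir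
  f := fun x y hx hy hxy => (hY.f y x hy hx fun hh => hxy ⟨hh.2, hh.1⟩).mir
  s2 := fun y hy u v w α β γ ht hu hv hw ru rv rw' =>
    hY.s1 y hy u w v α γ β (TX.mir (T := MPb0eR.s23 T) ht) hu hw hv ru rw' rv
  s1 := fun y hy u v w α β γ ht hu hv hw ru rv rw' =>
    hY.s2 y hy u w v α γ β (TX.mir (T := MPb0eR.s23 T) ht) hu hw hv ru rw' rv
  g0 := fun u v w α β γ ht hu hv hw => by
    rw [MPb0eR.c1_s23]
    exact hY.g0 u w v α γ β (TX.mir (T := MPb0eR.s23 T) ht) hu hw hv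
  t1 := fun u v w α β γ ht hu hv hw ru rv rw' => by
    rw [MPb0eR.c1_s23, mul_right_comm]
    exact hY.t1 u w v α γ β (TX.mir (T := MPb0eR.s23 T) ht) hu hw hv ru rw' rv
  t2 := fun u v w α β γ N ht he hu hv hw ru rv rw' => by
    rw [MPb0eR.c1_s23]
    exact hY.t3 u w v α γ β N (TX.mir (T := MPb0eR.s23 T) ht) he hu hw hv ru rw' rv
  t3 := fun u v w α β γ N ht he hu hv hw ru rv rw' => by
    rw [MPb0eR.c1_s23]
    exact hY.t2 u w v α γ β N (TX.mir (T := MPb0eR.s23 T) ht) he hu hw hv ru rw' rv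
  d0 := fun u v w N N' hd hu hv hw hN hN' hv' hw' => by
    have ho := hY.d0 u w v N' N (mir_D0 (T := MPb0eR.s23 T) hd) hu hw hv hN' hN hw' hv'
    refine ⟨ho.ru, ho.rw', ho.rv, fun du dv dw dN dN' hk => ?_⟩
    obtain ⟨h1, h2, h3⟩ := ho.nd du dw dv dN' dN (mir_KD0 (T := MPb0eR.s23 T) hk)
    exact ⟨h1, h3, h2⟩
  d1 := fun u v w N N' hd hu hv hw hN hN' => by
    have ho := hY.d1 u w v N' N (mir_D1 (T := MPb0eR.s23 T) hd) hu hw hv hN' hN
    refine ⟨ho.ru, ho.rw', ho.rv, fun du dv dw dN dN' hk => ?_⟩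
    obtain ⟨h1, h2, h3⟩ := ho.nd du dw dv dN' dN (mir_KD1 (T := MPb0eR.s23 T) hk)
    exact ⟨h1, h3, h2⟩

theorem HS.mir {l O : ℝ} {u : A → ℂ} {v : B → ℂ} {w : C → ℂ} {α β γ N N' : ℂ}
    (hs : HS T oA oB oC h h' l O u v w α β γ N N') :
    HS (MPb0eR.s23 T) oA oC oB h' h l O u w v α γ β N' N where
  xo := hs.xo
  yo := hs.zo
  zo := hs.yo
  e1 := fun a ha => by
    rw [MPb0eR.c1_s23]
    exact hs.e1 a ha
  e2 := hs.e3
  e3 := hs.e2
  eN := hs.eN'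
  eN' := hs.eN
  eα := by
    rw [mul_right_comm (u oA), mul_comm (q w)]
    exact hs.eα
  eβ := by
    rw [mul_right_comm (u oA)]
    exact hs.eγ
  eγ := by
    rw [mul_right_comm (u oA)]
    exact hs.eβ

theorem SqH.mir {T : ℕ → A → B → C → ℝ} {T0 : A → B → C → ℝ} {ε : ℕ → ℝ} {ia : A} {ib : B}
    {ic : C} {u : ℕ → A → ℂ} {v : ℕ → B → ℂ} {w : ℕ → C → ℂ} {α β γ N N' : ℕ → ℂ}
    (hs : SqH T T0 oA oB oC h h' ε ia ib ic u v w α β γ N N') :
    SqH (fun n => MPb0eR.s23 (T n)) (MPb0eR.s23 T0) oA oC oB h' h ε ia ic ib u w v α γ β N' N where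
  hT := by
    have hc : Continuous fun S : A → B → C → ℝ => MPb0eR.s23 S :=
      continuous_pi fun a => continuous_pi fun c => continuous_pi fun b =>
        (continuous_apply c).comp ((continuous_apply b).comp (continuous_apply a))
    exact (hc.tendsto T0).comp hs.hT
  hε := hs.hε
  pos := hs.pos
  sol := fun n => (hs.sol n).mir
  nu := hs.nu
  nv := hs.nw
  nw := hs.nv

private theorem mir_LE {u : A → ℂ} {v : B → ℂ} {w : C → ℂ} {α β γ N N' : ℂ}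
    (hl : LE T oA oB oC h h' u v w α β γ N N') :
    LE (MPb0eR.s23 T) oA oC oB h' h u w v α γ β N' N where
  hu := hl.hu
  hv := hl.hw
  hw := hl.hv
  e1 := fun a ha => by
    rw [MPb0eR.c1_s23]
    exact hl.e1 a ha
  e2 := hl.e3
  e3 := hl.e2

theorem CE.mir {u : A → ℂ} {v : B → ℂ} {w : C → ℂ} {α β γ N N' : ℂ} {f : Bool} {x y : Fin 3}
    (hc : CE T oA oB oC h h' u v w α β γ N N' f x y) :
    CE (MPb0eR.s23 T) oA oC oB h' h u w v α γ β N' N f y x where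
  le := mir_LE hc.le
  tx := hc.tx.mir
  hf := hc.hf
  hx := hc.hy
  hy := hc.hx
  hN := hc.hN'
  hN' := hc.hN
  hxy := fun hh => hc.hxy ⟨hh.2, hh.1⟩
  hfx := fun hh => ⟨(hc.hfx hh).2, (hc.hfx hh).1⟩

end

end Pool.Agent.MPb0eK
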