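import Mathlib
import Pool.Agent.Lib.MP_b0e20b_ag_K.WDefs
import Pool.Agent.Lib.MP_b0e20b_ag_K.TXa
import Pool.Agent.Lib.MP_b0e20b_ag_K.Ids
import Pool.Agent.Lib.MP_b0e20b_ag_R.Cpt
import Pool.Agent.Lib.MP_b0e20b_ag_R.Alg2

/-!
# MP_b0e20b_ag, project K: orders of the coordinates, mask (false; 0; 0)
-/

set_option autoImplicit false

open scoped BigOperators Topology
open Filter

namespace Pool.Agent.MPb0eK

open MPb0eR (c1 c2 c3 tr q Sup Rl Rea uf Nrm cj AF scl)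

section

variable {A B C : Type} [Fintype A] [Fintype B] [Fintype C] [DecidableEq A] [DecidableEq B]
  [DecidableEq C] {oA : A} {oB : B} {oC : C}
  {h : B → ℝ} {h' : C → ℝ}

variable {T : ℕ → A → B → C → ℝ} {T0 : A → B → C → ℝ} {ε : ℕ → ℝ} {ia : A} {ib : B} {ic : C}
  {u : ℕ → A → ℂ} {v : ℕ → B → ℂ} {w : ℕ → C → ℂ} {α β γ N N' : ℕ → ℂ}

/-- The orders of the coordinates.

Let `κ = q u q v q w / (α q u)`; it tends to `κ0 = q u0 q v0 q w0 / (α0 q u0) ≠ 0` (`hY`, `q_ne`;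
the
multipliers are not zero), and `u_o v_o w_o = ε ^ 10 κ` (`eα`), `N = ε ^ (-4) u_o w_o`,
`N' = ε ^ (-4) u_o v_o`. Write `x, y, z` for `u_o, v_o, w_o`, `τA, τB, τC` for the three
contractions at
the indices `oA, oB, oC`. `y`, `z` have nonzero limits, `x = ε ^ 10 κ / (y z)`. -/
theorem t0b {u0 : A → ℂ} {v0 : B → ℂ} {w0 : C → ℂ} {α0 β0 γ0 N0 N0' : ℂ} (hY : HY3 T0 oA oB oC h h')
    (hS : SqH T T0 oA oB oC h h' ε ia ib ic u v w α β γ N N')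
    (hL : LmH u v w α β γ N N' u0 v0 w0 α0 β0 γ0 N0 N0')
    (hC : CE T0 oA oB oC h h' u0 v0 w0 α0 β0 γ0 N0 N0' false 0 0) :
    Sc oA oB oC ε u v w (xE 0) := by
  have ht := hC.tx
  simp only [Bool.false_eq_true, if_false] at ht
  have hok := hY.f' 0 0 u0 v0 w0 α0 β0 γ0 ht hC.le.hu hC.le.hv hC.le.hw
  have hv0 : v0 oB ≠ 0 := hC.hx.1 rfl
  have hw0 : w0 oC ≠ 0 := hC.hy.1 rfl
  have hqv : q v0 ≠ 0 := q_ne hok.rv hC.le.hv
  have hqw : q w0 ≠ 0 := q_ne hok.rw' hC.le.hw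
  have hv1 : Tendsto (fun n => v n oB) uf (𝓝 (v0 oB)) := tendsto_pi_nhds.1 hL.hv oB
  have hw1 : Tendsto (fun n => w n oC) uf (𝓝 (w0 oC)) := tendsto_pi_nhds.1 hL.hw oC
  have hα : ∀ᶠ n in uf, α n ≠ 0 := hL.hα.eventually_ne hok.hα
  refine ⟨q v0 * q w0 / (v0 oB * w0 oC * α0), v0 oB, w0 oC,
    div_ne_zero (mul_ne_zero hqv hqw) (mul_ne_zero (mul_ne_zero hv0 hw0) hok.hα), hv0, hw0,
    ?_, ?_, ?_⟩
  · have h1 : Tendsto (fun n => q (v n) * q (w n) / (v n oB * w n oC * α n)) uf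
        (𝓝 (q v0 * q w0 / (v0 oB * w0 oC * α0))) :=
      ((MPb0eR.lim_q hL.hv).mul (MPb0eR.lim_q hL.hw)).div ((hv1.mul hw1).mul hL.hα)
        (mul_ne_zero (mul_ne_zero hv0 hw0) hok.hα)
    refine h1.congr' ?_
    filter_upwards [hα] with n hn
    have hs := hS.sol n
    have he : (ε n : ℂ) ≠ 0 := by exact_mod_cast (hS.pos n).ne'
    have h2 := hs.eα
    push_cast at h2
    change _ = u n oA / (ε n : ℂ) ^ 10
    rw [div_eq_div_iff (mul_ne_zero (mul_ne_zero hs.yo hs.zo) hn) (pow_ne_zero _ he)]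
    linear_combination -h2
  · change Tendsto (fun n => v n oB / (ε n : ℂ) ^ 0) uf (𝓝 (v0 oB))
    simpa using hv1
  · change Tendsto (fun n => w n oC / (ε n : ℂ) ^ 0) uf (𝓝 (w0 oC))
    simpa using hw1

end

end Pool.Agent.MPb0eK
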