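import Mathlib
import Pool.Agent.Lib.MP_b0e20b_ag_K.WDefs
import Pool.Agent.Lib.MP_b0e20b_ag_K.TXa
import Pool.Agent.Lib.MP_b0e20b_ag_K.Ids
import Pool.Agent.Lib.MP_b0e20b_ag_R.Cpt
import Pool.Agent.Lib.MP_b0e20b_ag_R.Alg2

/-!
# MP_b0e20b_ag, project K: orders of the coordinates, mask (false; 1; 0)
-/

set_option autoImplicit false

open scoped BigOperators Topology
open Filter

namespace Pool.Agent.MPb0eK

open MPb0eR (c1 c2 c3 tr q Sup Rl Rea uf Nrm cj AF scl)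

section

variable {A B C : Type} [Fintype A] [Fintype B] [Fintype C] [DecidableEq A] [DecidableEq B]
  [DecidableEq C] {oA : A} {oB : B} {oC : C}
  {h : B → ℝ} {h' : C → ℝ}

variable {T : ℕ → A → B → C → ℝ} {T0 : A → B → C → ℝ} {ε : ℕ → ℝ} {ia : A} {ib : B} {ic : C}
  {u : ℕ → A → ℂ} {v : ℕ → B → ℂ} {w : ℕ → C → ℂ} {α β γ N N' : ℕ → ℂ}

/-- The orders of the coordinates.

Let `κ = q u q v q w / (α q u)`; it tends to `κ0 = q u0 q v0 q w0 / (α0 q u0) ≠ 0` (`hY`, `q_ne`;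
the
multipliers are not zero), and `u_o v_o w_o = ε ^ 10 κ` (`eα`), `N = ε ^ (-4) u_o w_o`,
`N' = ε ^ (-4) u_o v_o`. Write `x, y, z` for `u_o, v_o, w_o`, `τA, τB, τC` for the three
contractions at
the indices `oA, oB, oC`. `z` has a nonzero limit. Multiply the first identity of `HS.st` by `y`:
`y ^ 2 (τB - β y) = N y h (v) + x y (τA - α x)` with `N y = ε ^ 6 κ`, `x y = ε ^ 10 κ / z`. So
`(y / ε ^ 3) ^ 2` tends to `κ0 h (v0) / τB ≠ 0` (`hY.s2 0`: `h (v0), τB ≠ 0`; the limit tuple is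
real up
to scaling, and real by the normalisation). So `y / ε ^ 3` is bounded, tends to a number whose
square is
this one, and `x / ε ^ 7 = κ / ((y / ε ^ 3) z)`. -/
theorem t1b {u0 : A → ℂ} {v0 : B → ℂ} {w0 : C → ℂ} {α0 β0 γ0 N0 N0' : ℂ} (hY : HY3 T0 oA oB oC h h')
    (hS : SqH T T0 oA oB oC h h' ε ia ib ic u v w α β γ N N')
    (hL : LmH u v w α β γ N N' u0 v0 w0 α0 β0 γ0 N0 N0')
    (hC : CE T0 oA oB oC h h' u0 v0 w0 α0 β0 γ0 N0 N0' false 1 0) :
    Sc oA oB oC ε u v w (xE 1) := by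
  -- the limit tuple
  have hu0A : u0 oA = 0 := by
    by_contra h1
    exact Bool.false_ne_true (hC.hf.2 h1)
  have hv0B : v0 oB = 0 := by
    by_contra h1
    have h2 := hC.hx.2 h1
    exact absurd h2 (by decide)
  have hw0C : w0 oC ≠ 0 := hC.hy.1 rfl
  have hok := hY.f' 1 0 u0 v0 w0 α0 β0 γ0 hC.tx hC.le.hu hC.le.hv hC.le.hw
  have nu0 := MPb0eR.Nrm.lim hS.nu hL.hu
  have nv0 := MPb0eR.Nrm.lim hS.nv hL.hv
  have nw0 := MPb0eR.Nrm.lim hS.nw hL.hw
  have ru := rea_of_rl hok.ru nu0.1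
  have rv := rea_of_rl hok.rv nv0.1
  have rw0 := rea_of_rl hok.rw' nw0.1
  have hs2 := hY.s2 0 (by decide) u0 v0 w0 α0 β0 γ0 hC.tx hC.le.hu hC.le.hv hC.le.hw ru rv rw0
  have hpr : pr h v0 ≠ 0 := by
    intro h1
    rw [h1] at hs2
    simp at hs2
  have hτ : c2 T0 u0 w0 oB ≠ 0 := by
    intro h1
    rw [h1] at hs2
    simp at hs2
  have hqv := q_ne hok.rv hC.le.hv
  have hqw := q_ne hok.rw' hC.le.hw
  -- the limits
  have lx : Tendsto (fun n => u n oA) uf (𝓝 0) := by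
    have h1 := tendsto_pi_nhds.1 hL.hu oA
    rwa [hu0A] at h1
  have ly : Tendsto (fun n => v n oB) uf (𝓝 0) := by
    have h1 := tendsto_pi_nhds.1 hL.hv oB
    rwa [hv0B] at h1
  have lz : Tendsto (fun n => w n oC) uf (𝓝 (w0 oC)) := tendsto_pi_nhds.1 hL.hw oC
  have lA : Tendsto (fun n => c1 (T n) (v n) (w n) oA) uf (𝓝 (c1 T0 v0 w0 oA)) :=
    tendsto_pi_nhds.1 ((MPb0eR.continuous_c1T.tendsto (T0, v0, w0)).comp
      (hS.hT.prodMk_nhds (hL.hv.prodMk_nhds hL.hw))) oA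
  have lB : Tendsto (fun n => c2 (T n) (u n) (w n) oB) uf (𝓝 (c2 T0 u0 w0 oB)) :=
    tendsto_pi_nhds.1 ((MPb0eR.continuous_c2T.tendsto (T0, u0, w0)).comp
      (hS.hT.prodMk_nhds (hL.hu.prodMk_nhds hL.hw))) oB
  have lp : Tendsto (fun n => pr h (v n)) uf (𝓝 (pr h v0)) :=
    ((continuous_pr h).tendsto v0).comp hL.hv
  have lε : Tendsto (fun n => (ε n : ℂ)) uf (𝓝 0) := by
    have h1 := (Complex.continuous_ofReal.tendsto (0 : ℝ)).comp hS.hε
    rw [Complex.ofReal_zero] at h1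
    exact h1
  have hεn : ∀ n, (ε n : ℂ) ≠ 0 := fun n => Complex.ofReal_ne_zero.2 (hS.pos n).ne'
  have hα : ∀ᶠ n in uf, α n ≠ 0 := hL.hα.eventually_ne hok.hα
  set κ : ℕ → ℂ := fun n => q (v n) * q (w n) / α n with hκ
  have lκ : Tendsto κ uf (𝓝 (q v0 * q w0 / α0)) :=
    ((MPb0eR.lim_q hL.hv).mul (MPb0eR.lim_q hL.hw)).div hL.hα hok.hα
  have hκ0 : q v0 * q w0 / α0 ≠ 0 := div_ne_zero (mul_ne_zero hqv hqw) hok.hα
  have hprod : ∀ᶠ n in uf, u n oA * v n oB * w n oC = (ε n : ℂ) ^ 10 * κ n := by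
    filter_upwards [hα] with n hn
    have h1 := (hS.sol n).eα
    rw [Complex.ofReal_pow] at h1
    rw [hκ]
    change _ = (ε n : ℂ) ^ 10 * (q (v n) * q (w n) / α n)
    rw [← mul_div_assoc, ← h1, mul_div_cancel_right₀ _ hn]
  -- the square of the scaled second coordinate
  have hden : Tendsto (fun n => c2 (T n) (u n) (w n) oB - β n * v n oB) uf
      (𝓝 (c2 T0 u0 w0 oB)) := by
    have h1 := lB.sub (hL.hβ.mul ly)
    rwa [mul_zero, sub_zero] at h1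
  have hden0 : ∀ᶠ n in uf, c2 (T n) (u n) (w n) oB - β n * v n oB ≠ 0 := hden.eventually_ne hτ
  have hsq : ∀ᶠ n in uf, (v n oB / (ε n : ℂ) ^ 3) ^ 2 =
      ((ε n : ℂ) ^ 4 * κ n / w n oC * (c1 (T n) (v n) (w n) oA - α n * u n oA)
        + κ n * pr h (v n)) / (c2 (T n) (u n) (w n) oB - β n * v n oB) := by
    filter_upwards [hprod, hden0] with n h1 h2
    have h3 := (HS.st hY.ho hY.ho' (hS.sol n)).1
    have h4 := (hS.sol n).eN
    have h5 := (hS.sol n).zo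
    have h6 := (hS.sol n).yo
    have h7 := hεn n
    rw [Complex.ofReal_inv, Complex.ofReal_pow] at h4
    rw [eq_div_iff h2, div_pow, ← pow_mul]
    have h8 : u n oA * v n oB = (ε n : ℂ) ^ 10 * κ n / w n oC := by
      rw [eq_div_iff h5, h1]
    have h9 : N n * v n oB = (ε n : ℂ) ^ 6 * κ n := by
      rw [h4]
      have h10 : ((ε n : ℂ) ^ 4)⁻¹ * (u n oA * w n oC) * v n oB =
          ((ε n : ℂ) ^ 4)⁻¹ * (u n oA * v n oB * w n oC) := by ring
      rw [h10, h1]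
      field_simp
    have h11 : v n oB ^ 2 * (c2 (T n) (u n) (w n) oB - β n * v n oB) =
        u n oA * v n oB * (c1 (T n) (v n) (w n) oA - α n * u n oA)
          + N n * v n oB * pr h (v n) := by
      linear_combination (-v n oB) * h3
    rw [h8, h9] at h11
    rw [div_mul_eq_mul_div, h11]
    field_simp
    ring
  have hsqlim : Tendsto (fun n => (v n oB / (ε n : ℂ) ^ 3) ^ 2) uf
      (𝓝 (q v0 * q w0 / α0 * pr h v0 / c2 T0 u0 w0 oB)) := by
    have e1 : Tendsto (fun n => (ε n : ℂ) ^ 4 * κ n / w n oC) uf (𝓝 0) := by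
      have h1 := ((lε.pow 4).mul lκ).div lz hw0C
      rwa [zero_pow (by norm_num), zero_mul, zero_div] at h1
    have e2 : Tendsto (fun n => c1 (T n) (v n) (w n) oA - α n * u n oA) uf
        (𝓝 (c1 T0 v0 w0 oA)) := by
      have h1 := lA.sub (hL.hα.mul lx)
      rwa [mul_zero, sub_zero] at h1
    have e3 := ((e1.mul e2).add (lκ.mul lp)).div hden hτ
    rw [zero_mul, zero_add] at e3
    exact e3.congr' (hsq.mono fun n hn => hn.symm)
  have hs0 : q v0 * q w0 / α0 * pr h v0 / c2 T0 u0 w0 oB ≠ 0 :=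
    div_ne_zero (mul_ne_zero hκ0 hpr) hτ
  obtain ⟨Y, hYl⟩ : ∃ Y : ℂ, Tendsto (fun n => v n oB / (ε n : ℂ) ^ 3) uf (𝓝 Y) := by
    have h1 := hsqlim.norm
    have h2 := h1.eventually_lt_const
      (lt_add_one ‖q v0 * q w0 / α0 * pr h v0 / c2 T0 u0 w0 oB‖)
    refine MPb0eR.ulim_c _ (‖q v0 * q w0 / α0 * pr h v0 / c2 T0 u0 w0 oB‖ + 1) ?_
    filter_upwards [h2] with n hn
    rw [norm_pow] at hn
    have h3 := norm_nonneg (v n oB / (ε n : ℂ) ^ 3)
    have h4 := norm_nonneg (q v0 * q w0 / α0 * pr h v0 / c2 T0 u0 w0 oB)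
    by_contra h5
    push Not at h5
    nlinarith
  have hY2 : Y ^ 2 = q v0 * q w0 / α0 * pr h v0 / c2 T0 u0 w0 oB :=
    tendsto_nhds_unique (hYl.pow 2) hsqlim
  have hY0 : Y ≠ 0 := by
    intro h1
    rw [h1, zero_pow (by norm_num)] at hY2
    exact hs0 hY2.symm
  refine ⟨q v0 * q w0 / α0 / (Y * w0 oC), Y, w0 oC, div_ne_zero hκ0 (mul_ne_zero hY0 hw0C),
    hY0, hw0C, ?_, hYl, ?_⟩
  · have h1 := lκ.div (hYl.mul lz) (mul_ne_zero hY0 hw0C)
    refine h1.congr' ?_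
    filter_upwards [hprod] with n h2
    have h3 := (hS.sol n).yo
    have h4 := (hS.sol n).zo
    have h5 := hεn n
    change κ n / (v n oB / (ε n : ℂ) ^ 3 * w n oC) = u n oA / (ε n : ℂ) ^ 7
    rw [div_eq_div_iff (mul_ne_zero (div_ne_zero h3 (pow_ne_zero 3 h5)) h4) (pow_ne_zero 7 h5)]
    have h6 : u n oA * (v n oB / (ε n : ℂ) ^ 3 * w n oC) =
        u n oA * v n oB * w n oC / (ε n : ℂ) ^ 3 := by ring
    rw [h6, h2]
    field_simp
  · have h1 : ∀ n, w n oC / (ε n : ℂ) ^ (xE 1 2) = w n oC := by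
      intro n
      change w n oC / (ε n : ℂ) ^ 0 = w n oC
      rw [pow_zero, div_one]
    simp only [h1]
    exact lz

end

end Pool.Agent.MPb0eK
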