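import Mathlib
import Pool.Agent.Lib.MP_b0e20b_ag_K.WDefs
import Pool.Agent.Lib.MP_b0e20b_ag_K.TXa
import Pool.Agent.Lib.MP_b0e20b_ag_K.Ids
import Pool.Agent.Lib.MP_b0e20b_ag_R.Cpt
import Pool.Agent.Lib.MP_b0e20b_ag_R.Alg2

/-!
# MP_b0e20b_ag, project K: orders of the coordinates, mask (false; 2; 0)
-/

set_option autoImplicit false

open scoped BigOperators Topology
open Filter

namespace Pool.Agent.MPb0eK

open MPb0eR (c1 c2 c3 tr q Sup Rl Rea uf Nrm cj AF scl)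

section

variable {A B C : Type} [Fintype A] [Fintype B] [Fintype C] [DecidableEq A] [DecidableEq B]
  [DecidableEq C] {oA : A} {oB : B} {oC : C}
  {h : B → ℝ} {h' : C → ℝ}

variable {T : ℕ → A → B → C → ℝ} {T0 : A → B → C → ℝ} {ε : ℕ → ℝ} {ia : A} {ib : B} {ic : C}
  {u : ℕ → A → ℂ} {v : ℕ → B → ℂ} {w : ℕ → C → ℂ} {α β γ N N' : ℕ → ℂ}

/-- The orders of the coordinates.

Let `κ = q u q v q w / (α q u)`; it tends to `κ0 = q u0 q v0 q w0 / (α0 q u0) ≠ 0` (`hY`, `q_ne`;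
the
multipliers are not zero), and `u_o v_o w_o = ε ^ 10 κ` (`eα`), `N = ε ^ (-4) u_o w_o`,
`N' = ε ^ (-4) u_o v_o`. Write `x, y, z` for `u_o, v_o, w_o`, `τA, τB, τC` for the three
contractions at
the indices `oA, oB, oC`. `z` and `N` have nonzero limits: `x / ε ^ 4 = N / z`,
`y / ε ^ 6 = κ / ((x / ε ^ 4) z)`. -/
theorem t2b {u0 : A → ℂ} {v0 : B → ℂ} {w0 : C → ℂ} {α0 β0 γ0 N0 N0' : ℂ} (hY : HY3 T0 oA oB oC h h')
    (hS : SqH T T0 oA oB oC h h' ε ia ib ic u v w α β γ N N')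
    (hL : LmH u v w α β γ N N' u0 v0 w0 α0 β0 γ0 N0 N0')
    (hC : CE T0 oA oB oC h h' u0 v0 w0 α0 β0 γ0 N0 N0' false 2 0) :
    Sc oA oB oC ε u v w (xE 2) := by
  have htx : TX T0 (Finset.univ.erase oA) (XM oB h 2) (XM oC h' 0) u0 v0 w0 α0 β0 γ0 := hC.tx
  have hok := hY.f' 2 0 u0 v0 w0 α0 β0 γ0 htx hC.le.hu hC.le.hv hC.le.hw
  have hα0 : α0 ≠ 0 := hok.hα
  have hqv : q v0 ≠ 0 := q_ne hok.rv hC.le.hv
  have hqw : q w0 ≠ 0 := q_ne hok.rw' hC.le.hw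
  have hN0 : N0 ≠ 0 := hC.hN.1 rfl
  have hZ : w0 oC ≠ 0 := hC.hy.1 rfl
  have hX : N0 / w0 oC ≠ 0 := div_ne_zero hN0 hZ
  have hYY : q v0 * q w0 / (N0 / w0 oC * w0 oC * α0) ≠ 0 :=
    div_ne_zero (mul_ne_zero hqv hqw) (mul_ne_zero (mul_ne_zero hX hZ) hα0)
  have lw : Tendsto (fun n => w n oC) uf (𝓝 (w0 oC)) := (tendsto_pi_nhds.1 hL.hw) oC
  have lX : Tendsto (fun n => u n oA / (ε n : ℂ) ^ 4) uf (𝓝 (N0 / w0 oC)) := by
    refine (hL.hN.div lw hZ).congr fun n => ?_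
    have e1 := (hS.sol n).eN
    have e2 := (hS.sol n).zo
    have e3 : (ε n : ℂ) ≠ 0 := Complex.ofReal_ne_zero.2 (hS.pos n).ne'
    change N n / w n oC = u n oA / (ε n : ℂ) ^ 4
    rw [e1]
    push_cast
    field_simp
  have lq : Tendsto (fun n => q (v n) * q (w n)) uf (𝓝 (q v0 * q w0)) :=
    (MPb0eR.lim_q hL.hv).mul (MPb0eR.lim_q hL.hw)
  have lY : Tendsto (fun n => v n oB / (ε n : ℂ) ^ 6) uf
      (𝓝 (q v0 * q w0 / (N0 / w0 oC * w0 oC * α0))) := by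
    have l1 := lq.div ((lX.mul lw).mul hL.hα) (mul_ne_zero (mul_ne_zero hX hZ) hα0)
    refine l1.congr' ?_
    filter_upwards [hL.hα.eventually_ne hα0] with n hn
    have e1 := (hS.sol n).eα
    have e2 := (hS.sol n).zo
    have e4 := (hS.sol n).xo
    have e3 : (ε n : ℂ) ≠ 0 := Complex.ofReal_ne_zero.2 (hS.pos n).ne'
    push_cast at e1
    change q (v n) * q (w n) / (u n oA / (ε n : ℂ) ^ 4 * w n oC * α n) = v n oB / (ε n : ℂ) ^ 6
    rw [div_eq_div_iff (mul_ne_zero (mul_ne_zero (div_ne_zero e4 (pow_ne_zero _ e3)) e2) hn)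
      (pow_ne_zero _ e3)]
    field_simp
    linear_combination (-1 : ℂ) * e1
  exact ⟨N0 / w0 oC, q v0 * q w0 / (N0 / w0 oC * w0 oC * α0), w0 oC, hX, hYY, hZ, lX, lY,
    lw.congr fun n => by
      change w n oC = w n oC / (ε n : ℂ) ^ 0
      rw [pow_zero, div_one]⟩

end

end Pool.Agent.MPb0eK
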