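import Mathlib
import Pool.Agent.Lib.MP_b0e20b_ag_K.WDefs
import Pool.Agent.Lib.MP_b0e20b_ag_K.TXa
import Pool.Agent.Lib.MP_b0e20b_ag_K.Ids
import Pool.Agent.Lib.MP_b0e20b_ag_R.Cpt
import Pool.Agent.Lib.MP_b0e20b_ag_R.Alg2

/-!
# MP_b0e20b_ag, project K: orders of the coordinates, mask (false; 1; 1)
-/

set_option autoImplicit false

open scoped BigOperators Topology
open Filter

namespace Pool.Agent.MPb0eK

open MPb0eR (c1 c2 c3 tr q Sup Rl Rea uf Nrm cj AF scl)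

section

variable {A B C : Type} [Fintype A] [Fintype B] [Fintype C] [DecidableEq A] [DecidableEq B]
  [DecidableEq C] {oA : A} {oB : B} {oC : C}
  {h : B → ℝ} {h' : C → ℝ}

variable {T : ℕ → A → B → C → ℝ} {T0 : A → B → C → ℝ} {ε : ℕ → ℝ} {ia : A} {ib : B} {ic : C}
  {u : ℕ → A → ℂ} {v : ℕ → B → ℂ} {w : ℕ → C → ℂ} {α β γ N N' : ℕ → ℂ}

/-- A sequence whose squares converge to a nonzero number converges. -/
private theorem T3bAux.sq {s : ℕ → ℂ} {s0 : ℂ} (hs : Tendsto (fun n => s n ^ 2) uf (𝓝 s0))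
    (h0 : s0 ≠ 0) : ∃ Y : ℂ, Y ≠ 0 ∧ Tendsto s uf (𝓝 Y) := by
  rcases MPb0eR.ualt s with ⟨Y, hY⟩ | hi
  · refine ⟨Y, ?_, hY⟩
    rintro rfl
    refine h0 (tendsto_nhds_unique hs ?_)
    have h1 := hY.pow 2
    rwa [zero_pow two_ne_zero] at h1
  · exfalso
    have h2 := hs.norm
    have h3 : Tendsto (fun n => ‖s n ^ 2‖) uf atTop := by
      simp only [norm_pow]
      exact (tendsto_pow_atTop two_ne_zero).comp hi
    exact not_tendsto_nhds_of_tendsto_atTop h3 _ h2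

/-- The abstract situation. -/
private structure T3bAux.St (x y z e κ P Q R H H' : ℕ → ℂ) (κ0 P0 Q0 R0 H0 H0' : ℂ) : Prop where
  x0 : ∀ n, x n ≠ 0
  y0 : ∀ n, y n ≠ 0
  z0 : ∀ n, z n ≠ 0
  e0 : ∀ n, e n ≠ 0
  le : Tendsto e uf (𝓝 0)
  lk : Tendsto κ uf (𝓝 κ0)
  lP : Tendsto P uf (𝓝 P0)
  lQ : Tendsto Q uf (𝓝 Q0)
  lR : Tendsto R uf (𝓝 R0)
  lH : Tendsto H uf (𝓝 H0)
  lH' : Tendsto H' uf (𝓝 H0')
  nk : κ0 ≠ 0
  nP : P0 ≠ 0
  nQ : Q0 ≠ 0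
  nR : R0 ≠ 0
  nH : H0 ≠ 0
  nH' : H0' ≠ 0
  h1 : ∀ᶠ n in uf, y n ^ 2 * Q n = e n ^ 6 * κ n * (H n + e n ^ 4 / z n * P n)
  h2 : ∀ᶠ n in uf, z n ^ 2 * R n = e n ^ 6 * κ n * (H' n + e n ^ 4 / y n * P n)
  h3 : ∀ᶠ n in uf, x n * y n * z n = e n ^ 10 * κ n

private theorem T3bAux.St.symm {x y z e κ P Q R H H' : ℕ → ℂ} {κ0 P0 Q0 R0 H0 H0' : ℂ}
    (s : T3bAux.St x y z e κ P Q R H H' κ0 P0 Q0 R0 H0 H0') :
    T3bAux.St x z y e κ P R Q H' H κ0 P0 R0 Q0 H0' H0 where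
  x0 := s.x0
  y0 := s.z0
  z0 := s.y0
  e0 := s.e0
  le := s.le
  lk := s.lk
  lP := s.lP
  lQ := s.lR
  lR := s.lQ
  lH := s.lH'
  lH' := s.lH
  nk := s.nk
  nP := s.nP
  nQ := s.nR
  nR := s.nQ
  nH := s.nH'
  nH' := s.nH
  h1 := s.h2
  h2 := s.h1
  h3 := s.h3.mono fun n hn => by rw [← hn]; ring

/-- If the bracket converges to a nonzero number, then `y / e ^ 3` has a nonzero limit. -/
private theorem T3bAux.St.root {x y z e κ P Q R H H' : ℕ → ℂ} {κ0 P0 Q0 R0 H0 H0' : ℂ}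
    (s : T3bAux.St x y z e κ P Q R H H' κ0 P0 Q0 R0 H0 H0')
    (ha : Tendsto (fun n => e n ^ 4 / z n) uf (𝓝 0)) :
    ∃ Y : ℂ, Y ≠ 0 ∧ Tendsto (fun n => y n / e n ^ 3) uf (𝓝 Y) := by
  refine T3bAux.sq (s0 := κ0 * (H0 + 0 * P0) / Q0) ?_ ?_
  · have h1 : Tendsto (fun n => κ n * (H n + e n ^ 4 / z n * P n) / Q n) uf
        (𝓝 (κ0 * (H0 + 0 * P0) / Q0)) :=
      (s.lk.mul (s.lH.add (ha.mul s.lP))).div s.lQ s.nQ
    refine h1.congr' ?_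
    filter_upwards [s.h1, s.lQ.eventually_ne s.nQ] with n hn hQ
    have he := s.e0 n
    rw [div_pow, eq_comm, ← pow_mul, div_eq_div_iff (pow_ne_zero _ he) hQ, hn]
    ring
  · rw [zero_mul, add_zero]
    exact div_ne_zero (mul_ne_zero s.nk s.nH) s.nQ

/-- The limit of `x`. -/
private theorem T3bAux.St.xlim {x y z e κ P Q R H H' : ℕ → ℂ} {κ0 P0 Q0 R0 H0 H0' : ℂ}
    (s : T3bAux.St x y z e κ P Q R H H' κ0 P0 Q0 R0 H0 H0') {i j k : ℕ} (hi : i + j + k = 10)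
    {Y Z : ℂ} (hY : Y ≠ 0) (hZ : Z ≠ 0) (ly : Tendsto (fun n => y n / e n ^ j) uf (𝓝 Y))
    (lz : Tendsto (fun n => z n / e n ^ k) uf (𝓝 Z)) :
    Tendsto (fun n => x n / e n ^ i) uf (𝓝 (κ0 / (Y * Z))) := by
  have h1 := s.lk.div (ly.mul lz) (mul_ne_zero hY hZ)
  refine h1.congr' ?_
  filter_upwards [s.h3] with n hn
  have he := s.e0 n
  have hy := s.y0 n
  have hz := s.z0 n
  have h4 : e n ^ 10 = e n ^ i * e n ^ j * e n ^ k := by rw [← pow_add, ← pow_add, hi]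
  rw [h4] at hn
  have h5 : y n / e n ^ j * (z n / e n ^ k) ≠ 0 :=
    mul_ne_zero (div_ne_zero hy (pow_ne_zero _ he)) (div_ne_zero hz (pow_ne_zero _ he))
  change κ n / (y n / e n ^ j * (z n / e n ^ k)) = x n / e n ^ i
  rw [div_eq_div_iff h5 (pow_ne_zero _ he), div_mul_div_comm, mul_div_assoc',
    eq_div_iff (mul_ne_zero (pow_ne_zero _ he) (pow_ne_zero _ he))]
  linear_combination -hn

/-- Type 3. -/
private theorem T3bAux.St.caseA {x y z e κ P Q R H H' : ℕ → ℂ} {κ0 P0 Q0 R0 H0 H0' : ℂ}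
    (s : T3bAux.St x y z e κ P Q R H H' κ0 P0 Q0 R0 H0 H0')
    (ha : Tendsto (fun n => e n ^ 4 / z n) uf (𝓝 0)) :
    ∃ X Y Z : ℂ, X ≠ 0 ∧ Y ≠ 0 ∧ Z ≠ 0 ∧ Tendsto (fun n => x n / e n ^ 4) uf (𝓝 X) ∧
      Tendsto (fun n => y n / e n ^ 3) uf (𝓝 Y) ∧ Tendsto (fun n => z n / e n ^ 3) uf (𝓝 Z) := by
  obtain ⟨Y, hY, ly⟩ := s.root ha
  have hb : Tendsto (fun n => e n ^ 4 / y n) uf (𝓝 0) := by
    have h1 := s.le.div ly hY
    rw [zero_div] at h1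
    refine h1.congr fun n => ?_
    have he := s.e0 n
    have hy := s.y0 n
    change e n / (y n / e n ^ 3) = e n ^ 4 / y n
    rw [div_div_eq_mul_div, ← pow_succ']
  obtain ⟨Z, hZ, lz⟩ := s.symm.root hb
  exact ⟨κ0 / (Y * Z), Y, Z, div_ne_zero s.nk (mul_ne_zero hY hZ), hY, hZ,
    s.xlim (by norm_num) hY hZ ly lz, ly, lz⟩

/-- In the second case `y / e ^ 4` has a nonzero limit. -/
private theorem T3bAux.St.lin {x y z e κ P Q R H H' : ℕ → ℂ} {κ0 P0 Q0 R0 H0 H0' : ℂ}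
    (s : T3bAux.St x y z e κ P Q R H H' κ0 P0 Q0 R0 H0 H0')
    (ha : ¬ Tendsto (fun n => e n ^ 4 / z n) uf (𝓝 0)) :
    ∃ Y : ℂ, Y ≠ 0 ∧ Tendsto (fun n => y n / e n ^ 4) uf (𝓝 Y) := by
  have hz : ∃ Z : ℂ, Tendsto (fun n => z n / e n ^ 4) uf (𝓝 Z) := by
    rcases MPb0eR.ualt (fun n => z n / e n ^ 4) with h1 | h1
    · exact h1
    · exfalso
      apply ha
      rw [tendsto_zero_iff_norm_tendsto_zero]
      refine (tendsto_inv_atTop_zero.comp h1).congr fun n => ?_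
      change (‖z n / e n ^ 4‖)⁻¹ = ‖e n ^ 4 / z n‖
      rw [← norm_inv, inv_div]
  obtain ⟨Z, lz⟩ := hz
  have h4 : Tendsto (fun n => H' n + e n ^ 4 / y n * P n) uf (𝓝 0) := by
    have h5 : Tendsto (fun n => (e n * (z n / e n ^ 4)) ^ 2 * R n / κ n) uf
        (𝓝 ((0 * Z) ^ 2 * R0 / κ0)) :=
      (((s.le.mul lz).pow 2).mul s.lR).div s.lk s.nk
    rw [zero_mul, zero_pow two_ne_zero, zero_mul, zero_div] at h5
    refine h5.congr' ?_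
    filter_upwards [s.h2, s.lk.eventually_ne s.nk] with n hn hk
    have he := s.e0 n
    rw [div_eq_iff hk, mul_div_assoc', div_pow, div_mul_eq_mul_div,
      div_eq_iff (pow_ne_zero _ (pow_ne_zero _ he))]
    linear_combination (e n ^ 2) * hn
  have h6 : Tendsto (fun n => e n ^ 4 / y n) uf (𝓝 ((0 - H0') / P0)) := by
    refine ((h4.sub s.lH').div s.lP s.nP).congr' ?_
    filter_upwards [s.lP.eventually_ne s.nP] with n hP
    change (H' n + e n ^ 4 / y n * P n - H' n) / P n = e n ^ 4 / y n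
    rw [add_sub_cancel_left, mul_div_assoc, div_self hP, mul_one]
  have h7 : (0 - H0') / P0 ≠ 0 := by
    rw [zero_sub]
    exact div_ne_zero (neg_ne_zero.2 s.nH') s.nP
  refine ⟨((0 - H0') / P0)⁻¹, inv_ne_zero h7, (h6.inv₀ h7).congr fun n => ?_⟩
  rw [inv_div]

private theorem T3bAux.St.main {x y z e κ P Q R H H' : ℕ → ℂ} {κ0 P0 Q0 R0 H0 H0' : ℂ}
    (s : T3bAux.St x y z e κ P Q R H H' κ0 P0 Q0 R0 H0 H0') :
    (∃ X Y Z : ℂ, X ≠ 0 ∧ Y ≠ 0 ∧ Z ≠ 0 ∧ Tendsto (fun n => x n / e n ^ 4) uf (𝓝 X) ∧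
      Tendsto (fun n => y n / e n ^ 3) uf (𝓝 Y) ∧ Tendsto (fun n => z n / e n ^ 3) uf (𝓝 Z)) ∨
    (∃ X Y Z : ℂ, X ≠ 0 ∧ Y ≠ 0 ∧ Z ≠ 0 ∧ Tendsto (fun n => x n / e n ^ 2) uf (𝓝 X) ∧
      Tendsto (fun n => y n / e n ^ 4) uf (𝓝 Y) ∧
      Tendsto (fun n => z n / e n ^ 4) uf (𝓝 Z)) := by
  by_cases ha : Tendsto (fun n => e n ^ 4 / z n) uf (𝓝 0)
  · exact Or.inl (s.caseA ha)
  by_cases hb : Tendsto (fun n => e n ^ 4 / y n) uf (𝓝 0)
  · left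
    obtain ⟨X, Z, Y, hX, hZ, hY, lx, lz, ly⟩ := s.symm.caseA hb
    exact ⟨X, Y, Z, hX, hY, hZ, lx, ly, lz⟩
  · right
    obtain ⟨Y, hY, ly⟩ := s.lin ha
    obtain ⟨Z, hZ, lz⟩ := s.symm.lin hb
    exact ⟨κ0 / (Y * Z), Y, Z, div_ne_zero s.nk (mul_ne_zero hY hZ), hY, hZ,
      s.xlim (by norm_num) hY hZ ly lz, ly, lz⟩

/-- The algebra behind the two identities. -/
private theorem T3bAux.alg {x y z e κ P Q H N : ℂ} (hz : z ≠ 0) (he : e ≠ 0)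
    (hst : x * P = y * Q - N * H) (hN : e ^ 4 * N = x * z) (hxyz : x * y * z = e ^ 10 * κ) :
    y ^ 2 * Q = e ^ 6 * κ * (H + e ^ 4 / z * P) := by
  have ha : e ^ 4 / z * z = e ^ 4 := div_mul_cancel₀ _ hz
  apply mul_right_cancel₀ (mul_ne_zero hz (pow_ne_zero 4 he))
  linear_combination (-e ^ 4 * y * z) * hst + (y * z * H) * hN + (e ^ 4 * P + z * H) * hxyz
    - (e ^ 10 * κ * P) * ha

/-- The orders of the coordinates.

Let `κ = q u q v q w / (α q u)`; it tends to `κ0 = q u0 q v0 q w0 / (α0 q u0) ≠ 0` (`hY`, `q_ne`;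
the
multipliers are not zero), and `u_o v_o w_o = ε ^ 10 κ` (`eα`), `N = ε ^ (-4) u_o w_o`,
`N' = ε ^ (-4) u_o v_o`. Write `x, y, z` for `u_o, v_o, w_o`, `τA, τB, τC` for the three
contractions at
the indices `oA, oB, oC`. The identities of `HS.st`, times `y` and times `z`:
`y ^ 2 (τB - β y) = ε ^ 6 κ (h (v) + (ε ^ 4 / z) (τA - α x))`,
`z ^ 2 (τC - γ z) = ε ^ 6 κ (h' (w) + (ε ^ 4 / y) (τA - α x))`. All the numbers `τA, τB, τC, h (v),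
h' (w)` have nonzero limits (`hY.s2 1`, `hY.s1 1`, `hY.g0`).
Case 1: `ε ^ 4 / z → 0`. Then `(y / ε ^ 3) ^ 2 → κ0 h / τB ≠ 0`, so `ε ^ 4 / y → 0` and
`(z / ε ^ 3) ^ 2 → κ0 h' / τC ≠ 0`, `x / ε ^ 4 = κ / ((y / ε ^ 3) (z / ε ^ 3))`: type 3. The same if
`ε ^ 4 / y → 0`. Case 2: `ε ^ 4 / z` and `ε ^ 4 / y` do not tend to `0`: so (ultrafilter, `ualt`)
`z / ε ^ 4` and `y / ε ^ 4` are bounded. Then `z ^ 2 / ε ^ 6 → 0`, so `(ε ^ 4 / y) τA → - h'`,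
`y / ε ^ 4 → - τA / h' ≠ 0`; the same for `z`; and `x / ε ^ 2 = κ / ((y / ε ^ 4) (z / ε ^ 4))`:
type 4. -/
theorem t3b {u0 : A → ℂ} {v0 : B → ℂ} {w0 : C → ℂ} {α0 β0 γ0 N0 N0' : ℂ} (hY : HY3 T0 oA oB oC h h')
    (hS : SqH T T0 oA oB oC h h' ε ia ib ic u v w α β γ N N')
    (hL : LmH u v w α β γ N N' u0 v0 w0 α0 β0 γ0 N0 N0')
    (hC : CE T0 oA oB oC h h' u0 v0 w0 α0 β0 γ0 N0 N0' false 1 1) :
    Sc oA oB oC ε u v w (xE 3) ∨ Sc oA oB oC ε u v w (xE 4) := by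
  have hu0 : Nrm u0 ia := MPb0eR.Nrm.lim hS.nu hL.hu
  have hv0 : Nrm v0 ib := MPb0eR.Nrm.lim hS.nv hL.hv
  have hw0 : Nrm w0 ic := MPb0eR.Nrm.lim hS.nw hL.hw
  have htx : TX T0 (Finset.univ.erase oA) (XM oB h 1) (XM oC h' 1) u0 v0 w0 α0 β0 γ0 := hC.tx
  have hux : u0 oA = 0 := by
    by_contra h1
    exact absurd (hC.hf.2 h1) (by decide)
  have hvy : v0 oB = 0 := by
    by_contra h1
    exact absurd (hC.hx.2 h1) (by decide)
  have hwz : w0 oC = 0 := by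
    by_contra h1
    exact absurd (hC.hy.2 h1) (by decide)
  have hok := hY.f' 1 1 u0 v0 w0 α0 β0 γ0 htx hC.le.hu hC.le.hv hC.le.hw
  have ru : Rea u0 := rea_of_rl hok.ru hu0.1
  have rv : Rea v0 := rea_of_rl hok.rv hv0.1
  have rw' : Rea w0 := rea_of_rl hok.rw' hw0.1
  have hs2 := hY.s2 1 (by decide) u0 v0 w0 α0 β0 γ0 htx hC.le.hu hC.le.hv hC.le.hw ru rv rw'
  have hs1 := hY.s1 1 (by decide) u0 v0 w0 α0 β0 γ0 htx hC.le.hu hC.le.hv hC.le.hw ru rv rw'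
  have hg0 := hY.g0 u0 v0 w0 α0 β0 γ0 htx hC.le.hu hC.le.hv hC.le.hw
  have hH : pr h v0 ≠ 0 := by
    intro h1
    rw [h1, mul_zero, zero_mul, Complex.zero_re] at hs2
    exact lt_irrefl _ hs2
  have hQ : c2 T0 u0 w0 oB ≠ 0 := by
    intro h1
    rw [h1, mul_zero, Complex.zero_re] at hs2
    exact lt_irrefl _ hs2
  have hH' : pr h' w0 ≠ 0 := by
    intro h1
    rw [h1, mul_zero, zero_mul, Complex.zero_re] at hs1
    exact lt_irrefl _ hs1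
  have hR : c3 T0 u0 v0 oC ≠ 0 := by
    intro h1
    rw [h1, mul_zero, Complex.zero_re] at hs1
    exact lt_irrefl _ hs1
  have lx : Tendsto (fun n => u n oA) uf (𝓝 (u0 oA)) := tendsto_pi_nhds.1 hL.hu oA
  have ly : Tendsto (fun n => v n oB) uf (𝓝 (v0 oB)) := tendsto_pi_nhds.1 hL.hv oB
  have lz : Tendsto (fun n => w n oC) uf (𝓝 (w0 oC)) := tendsto_pi_nhds.1 hL.hw oC
  have lA : Tendsto (fun n => c1 (T n) (v n) (w n) oA) uf (𝓝 (c1 T0 v0 w0 oA)) :=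
    tendsto_pi_nhds.1 ((MPb0eR.continuous_c1T.tendsto (T0, v0, w0)).comp
      (hS.hT.prodMk_nhds (hL.hv.prodMk_nhds hL.hw))) oA
  have lB : Tendsto (fun n => c2 (T n) (u n) (w n) oB) uf (𝓝 (c2 T0 u0 w0 oB)) :=
    tendsto_pi_nhds.1 ((MPb0eR.continuous_c2T.tendsto (T0, u0, w0)).comp
      (hS.hT.prodMk_nhds (hL.hu.prodMk_nhds hL.hw))) oB
  have lC : Tendsto (fun n => c3 (T n) (u n) (v n) oC) uf (𝓝 (c3 T0 u0 v0 oC)) :=
    tendsto_pi_nhds.1 ((MPb0eR.continuous_c3T.tendsto (T0, u0, v0)).comp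
      (hS.hT.prodMk_nhds (hL.hu.prodMk_nhds hL.hv))) oC
  have lε : Tendsto (fun n => (ε n : ℂ)) uf (𝓝 0) := by
    have h1 := (Complex.continuous_ofReal.tendsto 0).comp hS.hε
    rwa [Complex.ofReal_zero] at h1
  have hε0 : ∀ n, (ε n : ℂ) ≠ 0 := fun n => Complex.ofReal_ne_zero.2 (hS.pos n).ne'
  have key : T3bAux.St (fun n => u n oA) (fun n => v n oB) (fun n => w n oC)
      (fun n => (ε n : ℂ)) (fun n => q (v n) * q (w n) / α n)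
      (fun n => c1 (T n) (v n) (w n) oA - α n * u n oA)
      (fun n => c2 (T n) (u n) (w n) oB - β n * v n oB)
      (fun n => c3 (T n) (u n) (v n) oC - γ n * w n oC) (fun n => pr h (v n))
      (fun n => pr h' (w n)) (q v0 * q w0 / α0) (c1 T0 v0 w0 oA - α0 * u0 oA)
      (c2 T0 u0 w0 oB - β0 * v0 oB) (c3 T0 u0 v0 oC - γ0 * w0 oC) (pr h v0) (pr h' w0) := by
    have h3 : ∀ᶠ n in uf, u n oA * v n oB * w n oC =
        (ε n : ℂ) ^ 10 * (q (v n) * q (w n) / α n) := by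
      filter_upwards [hL.hα.eventually_ne hok.hα] with n hn
      have h1 := (hS.sol n).eα
      rw [Complex.ofReal_pow] at h1
      rw [mul_div_assoc', eq_div_iff hn, h1]
    have hN1 : ∀ n, (ε n : ℂ) ^ 4 * N n = u n oA * w n oC := by
      intro n
      rw [(hS.sol n).eN, Complex.ofReal_inv, Complex.ofReal_pow, ← mul_assoc,
        mul_inv_cancel₀ (pow_ne_zero 4 (hε0 n)), one_mul]
    have hN2 : ∀ n, (ε n : ℂ) ^ 4 * N' n = u n oA * v n oB := by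
      intro n
      rw [(hS.sol n).eN', Complex.ofReal_inv, Complex.ofReal_pow, ← mul_assoc,
        mul_inv_cancel₀ (pow_ne_zero 4 (hε0 n)), one_mul]
    refine ⟨fun n => (hS.sol n).xo, fun n => (hS.sol n).yo, fun n => (hS.sol n).zo, hε0, lε,
      ((MPb0eR.lim_q hL.hv).mul (MPb0eR.lim_q hL.hw)).div hL.hα hok.hα, lA.sub (hL.hα.mul lx),
      lB.sub (hL.hβ.mul ly), lC.sub (hL.hγ.mul lz),
      ((continuous_pr h).tendsto v0).comp hL.hv, ((continuous_pr h').tendsto w0).comp hL.hw,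
      div_ne_zero (mul_ne_zero (q_ne hok.rv hC.le.hv) (q_ne hok.rw' hC.le.hw)) hok.hα,
      ?_, ?_, ?_, hH, hH', ?_, ?_, h3⟩
    · rw [hux, mul_zero, sub_zero]
      exact hg0
    · rw [hvy, mul_zero, sub_zero]
      exact hQ
    · rw [hwz, mul_zero, sub_zero]
      exact hR
    · filter_upwards [h3] with n hn
      exact T3bAux.alg (hS.sol n).zo (hε0 n) (HS.st hY.ho hY.ho' (hS.sol n)).1 (hN1 n) hn
    · filter_upwards [h3] with n hn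
      refine T3bAux.alg (hS.sol n).yo (hε0 n) (HS.st hY.ho hY.ho' (hS.sol n)).2 (hN2 n) ?_
      rw [← hn]
      ring
  exact key.main

end

end Pool.Agent.MPb0eK
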