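import Mathlib
import Pool.Agent.Lib.MP_b0e20b_ag_K.WDefs
import Pool.Agent.Lib.MP_b0e20b_ag_K.TXa
import Pool.Agent.Lib.MP_b0e20b_ag_K.Ids
import Pool.Agent.Lib.MP_b0e20b_ag_R.Cpt
import Pool.Agent.Lib.MP_b0e20b_ag_R.Alg2

/-!
# MP_b0e20b_ag, project K: orders of the coordinates, mask (false; 2; 1)
-/

set_option autoImplicit false

open scoped BigOperators Topology
open Filter

namespace Pool.Agent.MPb0eK

open MPb0eR (c1 c2 c3 tr q Sup Rl Rea uf Nrm cj AF scl)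

section

variable {A B C : Type} [Fintype A] [Fintype B] [Fintype C] [DecidableEq A] [DecidableEq B]
  [DecidableEq C] {oA : A} {oB : B} {oC : C}
  {h : B → ℝ} {h' : C → ℝ}

variable {T : ℕ → A → B → C → ℝ} {T0 : A → B → C → ℝ} {ε : ℕ → ℝ} {ia : A} {ib : B} {ic : C}
  {u : ℕ → A → ℂ} {v : ℕ → B → ℂ} {w : ℕ → C → ℂ} {α β γ N N' : ℕ → ℂ}

/-- The orders of the coordinates.

Let `κ = q u q v q w / (α q u)`; it tends to `κ0 = q u0 q v0 q w0 / (α0 q u0) ≠ 0` (`hY`, `q_ne`;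
the
multipliers are not zero), and `u_o v_o w_o = ε ^ 10 κ` (`eα`), `N = ε ^ (-4) u_o w_o`,
`N' = ε ^ (-4) u_o v_o`. Write `x, y, z` for `u_o, v_o, w_o`, `τA, τB, τC` for the three
contractions at
the indices `oA, oB, oC`. `N → N0 ≠ 0`: `x z = ε ^ 4 N`, `y / ε ^ 6 = κ / N`. The second identity
of `HS.st`, times `x`: `x ^ 2 (τA - α x + ε ^ (-4) y h' (w)) = ε ^ 4 N (τC - γ z)`, where
`ε ^ (-4) y → 0`, `x, z → 0`. So `(x / ε ^ 2) ^ 2 → N0 τC / τA ≠ 0` (`hY.t2`), and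
`z / ε ^ 2 = N / (x / ε ^ 2)`. -/
theorem t5b {u0 : A → ℂ} {v0 : B → ℂ} {w0 : C → ℂ} {α0 β0 γ0 N0 N0' : ℂ} (hY : HY3 T0 oA oB oC h h')
    (hS : SqH T T0 oA oB oC h h' ε ia ib ic u v w α β γ N N')
    (hL : LmH u v w α β γ N N' u0 v0 w0 α0 β0 γ0 N0 N0')
    (hC : CE T0 oA oB oC h h' u0 v0 w0 α0 β0 γ0 N0 N0' false 2 1) :
    Sc oA oB oC ε u v w (xE 5) := by
  have hu0 := hC.le.hu
  have hv0 := hC.le.hv
  have hw0 := hC.le.hw
  have htx : TX T0 (Finset.univ.erase oA) (XM oB h 2) (XM oC h' 1) u0 v0 w0 α0 β0 γ0 := by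
    have h1 := hC.tx
    simpa using h1
  have hok := hY.f' 2 1 u0 v0 w0 α0 β0 γ0 htx hu0 hv0 hw0
  have ru : Rea u0 := rea_of_rl hok.ru (MPb0eR.Nrm.lim hS.nu hL.hu).1
  have rv : Rea v0 := rea_of_rl hok.rv (MPb0eR.Nrm.lim hS.nv hL.hv).1
  have rw0 : Rea w0 := rea_of_rl hok.rw' (MPb0eR.Nrm.lim hS.nw hL.hw).1
  have hqv : q v0 ≠ 0 := q_ne hok.rv hv0
  have hqw : q w0 ≠ 0 := q_ne hok.rw' hw0
  have hα0 := hok.hα
  have hN0 : N0 ≠ 0 := hC.hN.1 rfl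
  have hxo : u0 oA = 0 := by
    by_contra h1
    have h2 := hC.hf.2 h1
    exact Bool.false_ne_true h2
  have hzo : w0 oC = 0 := by
    by_contra h1
    have h2 := hC.hy.2 h1
    exact absurd h2 (by decide)
  have ht2 := hY.t2 u0 v0 w0 α0 β0 γ0 N0 htx hC.le.e2 hu0 hv0 hw0 ru rv rw0
  have hprod : N0 * c3 T0 u0 v0 oC * c1 T0 v0 w0 oA ≠ 0 := by
    intro h1
    rw [h1] at ht2
    exact lt_irrefl _ ht2
  have hτA : c1 T0 v0 w0 oA ≠ 0 := right_ne_zero_of_mul hprod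
  have hτC : c3 T0 u0 v0 oC ≠ 0 := right_ne_zero_of_mul (left_ne_zero_of_mul hprod)
  have hε : ∀ n, (ε n : ℂ) ≠ 0 := fun n => Complex.ofReal_ne_zero.2 (hS.pos n).ne'
  have hεl : Tendsto (fun n => (ε n : ℂ)) uf (𝓝 0) := by
    have h1 := (Complex.continuous_ofReal.tendsto 0).comp hS.hε
    rwa [Complex.ofReal_zero] at h1
  have lx : Tendsto (fun n => u n oA) uf (𝓝 0) := by
    rw [← hxo]
    exact tendsto_pi_nhds.1 hL.hu oA
  have lz : Tendsto (fun n => w n oC) uf (𝓝 0) := by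
    rw [← hzo]
    exact tendsto_pi_nhds.1 hL.hw oC
  have lA : Tendsto (fun n => c1 (T n) (v n) (w n) oA) uf (𝓝 (c1 T0 v0 w0 oA)) :=
    tendsto_pi_nhds.1 ((MPb0eR.continuous_c1T.tendsto (T0, v0, w0)).comp
      (hS.hT.prodMk_nhds (hL.hv.prodMk_nhds hL.hw))) oA
  have lC : Tendsto (fun n => c3 (T n) (u n) (v n) oC) uf (𝓝 (c3 T0 u0 v0 oC)) :=
    tendsto_pi_nhds.1 ((MPb0eR.continuous_c3T.tendsto (T0, u0, v0)).comp
      (hS.hT.prodMk_nhds (hL.hu.prodMk_nhds hL.hv))) oC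
  have lqv := MPb0eR.lim_q hL.hv
  have lqw := MPb0eR.lim_q hL.hw
  have lpr : Tendsto (fun n => pr h' (w n)) uf (𝓝 (pr h' w0)) :=
    ((continuous_pr h').tendsto w0).comp hL.hw
  have eN : ∀ n, u n oA * w n oC = (ε n : ℂ) ^ 4 * N n := by
    intro n
    rw [(hS.sol n).eN]
    push_cast
    rw [← mul_assoc, mul_inv_cancel₀ (pow_ne_zero 4 (hε n)), one_mul]
  have hNn : ∀ n, N n ≠ 0 := by
    intro n h1
    have h2 := eN n
    rw [h1, mul_zero] at h2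
    exact mul_ne_zero (hS.sol n).xo (hS.sol n).zo h2
  have eY : ∀ᶠ n in uf, q (v n) * q (w n) / α n / N n = v n oB / (ε n : ℂ) ^ 6 := by
    filter_upwards [hL.hα.eventually_ne hα0] with n hn
    have h1 := (hS.sol n).eα
    push_cast at h1
    have h2 : (ε n : ℂ) ^ 4 * (N n * v n oB * α n - (ε n : ℂ) ^ 6 * (q (v n) * q (w n))) = 0 := by
      linear_combination h1 - v n oB * α n * eN n
    have h3 := (mul_eq_zero.1 h2).resolve_left (pow_ne_zero 4 (hε n))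
    rw [div_div, div_eq_div_iff (mul_ne_zero hn (hNn n)) (pow_ne_zero 6 (hε n))]
    linear_combination -h3
  have lY : Tendsto (fun n => v n oB / (ε n : ℂ) ^ 6) uf (𝓝 (q v0 * q w0 / α0 / N0)) :=
    Tendsto.congr' eY (((lqv.mul lqw).div hL.hα hα0).div hL.hN hN0)
  have lD : Tendsto (fun n => c1 (T n) (v n) (w n) oA - α n * u n oA
      + (ε n : ℂ) ^ 2 * (v n oB / (ε n : ℂ) ^ 6) * pr h' (w n)) uf
      (𝓝 (c1 T0 v0 w0 oA)) := by
    have h1 := (lA.sub (hL.hα.mul lx)).add (((hεl.pow 2).mul lY).mul lpr)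
    simpa using h1
  have lE : Tendsto (fun n => c3 (T n) (u n) (v n) oC - γ n * w n oC) uf
      (𝓝 (c3 T0 u0 v0 oC)) := by
    have h1 := lC.sub (hL.hγ.mul lz)
    simpa using h1
  have eS : ∀ᶠ n in uf, N n * (c3 (T n) (u n) (v n) oC - γ n * w n oC)
      / (c1 (T n) (v n) (w n) oA - α n * u n oA
        + (ε n : ℂ) ^ 2 * (v n oB / (ε n : ℂ) ^ 6) * pr h' (w n))
      = (u n oA / (ε n : ℂ) ^ 2) ^ 2 := by
    filter_upwards [lD.eventually_ne hτA] with n hn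
    have h1 := ((hS.sol n).st hY.ho hY.ho').2
    have h2 := (hS.sol n).eN'
    push_cast at h2
    have h4 : (ε n : ℂ) ^ 4 * ((ε n : ℂ) ^ 4)⁻¹ = 1 := mul_inv_cancel₀ (pow_ne_zero 4 (hε n))
    have h3 : (ε n : ℂ) ^ 2 * (v n oB / (ε n : ℂ) ^ 6) = ((ε n : ℂ) ^ 4)⁻¹ * v n oB := by
      have := hε n
      field_simp
    rw [h3] at hn ⊢
    rw [div_eq_iff hn, div_pow, ← pow_mul, div_mul_eq_mul_div,
      eq_div_iff (pow_ne_zero (2 * 2) (hε n))]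
    rw [h2] at h1
    linear_combination (-(c3 (T n) (u n) (v n) oC - γ n * w n oC)) * eN n - u n oA * h1
  have lS : Tendsto (fun n => (u n oA / (ε n : ℂ) ^ 2) ^ 2) uf
      (𝓝 (N0 * c3 T0 u0 v0 oC / c1 T0 v0 w0 oA)) :=
    Tendsto.congr' eS ((hL.hN.mul lE).div lD hτA)
  obtain ⟨X, hX⟩ : ∃ X, Tendsto (fun n => u n oA / (ε n : ℂ) ^ 2) uf (𝓝 X) := by
    refine MPb0eR.ulim_c _ (‖N0 * c3 T0 u0 v0 oC / c1 T0 v0 w0 oA‖ + 1 + 1) ?_
    have h1 := lS.norm.eventually_lt_const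
      (lt_add_one ‖N0 * c3 T0 u0 v0 oC / c1 T0 v0 w0 oA‖)
    filter_upwards [h1] with n hn
    rw [norm_pow] at hn
    nlinarith [norm_nonneg (u n oA / (ε n : ℂ) ^ 2), sq_nonneg (‖u n oA / (ε n : ℂ) ^ 2‖ - 1)]
  have hX2 : X ^ 2 = N0 * c3 T0 u0 v0 oC / c1 T0 v0 w0 oA := tendsto_nhds_unique (hX.pow 2) lS
  have hX0 : X ≠ 0 := by
    rintro rfl
    have h1 : N0 * c3 T0 u0 v0 oC / c1 T0 v0 w0 oA ≠ 0 :=
      div_ne_zero (mul_ne_zero hN0 hτC) hτA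
    exact h1 (by rw [← hX2]; simp)
  have eZ : ∀ n, N n / (u n oA / (ε n : ℂ) ^ 2) = w n oC / (ε n : ℂ) ^ 2 := by
    intro n
    have h1 := hε n
    have h2 := (hS.sol n).xo
    rw [div_eq_div_iff (div_ne_zero h2 (pow_ne_zero 2 h1)) (pow_ne_zero 2 h1),
      mul_div_assoc', eq_div_iff (pow_ne_zero 2 h1)]
    linear_combination -eN n
  have lZ : Tendsto (fun n => w n oC / (ε n : ℂ) ^ 2) uf (𝓝 (N0 / X)) :=
    Tendsto.congr eZ (hL.hN.div hX hX0)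
  exact ⟨X, _, _, hX0, div_ne_zero (div_ne_zero (mul_ne_zero hqv hqw) hα0) hN0,
    div_ne_zero hN0 hX0, hX, lY, lZ⟩

end

end Pool.Agent.MPb0eK
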