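import Mathlib
import Pool.Agent.Lib.MP_b0e20b_ag_K.WDefs
import Pool.Agent.Lib.MP_b0e20b_ag_K.TXa
import Pool.Agent.Lib.MP_b0e20b_ag_K.Ids
import Pool.Agent.Lib.MP_b0e20b_ag_R.Cpt
import Pool.Agent.Lib.MP_b0e20b_ag_R.Alg2

/-!
# MP_b0e20b_ag, project K: orders of the coordinates, mask (true; 1; 1)
-/

set_option autoImplicit false

open scoped BigOperators Topology
open Filter

namespace Pool.Agent.MPb0eK

open MPb0eR (c1 c2 c3 tr q Sup Rl Rea uf Nrm cj AF scl)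

section

variable {A B C : Type} [Fintype A] [Fintype B] [Fintype C] [DecidableEq A] [DecidableEq B]
  [DecidableEq C] {oA : A} {oB : B} {oC : C}
  {h : B → ℝ} {h' : C → ℝ}

variable {T : ℕ → A → B → C → ℝ} {T0 : A → B → C → ℝ} {ε : ℕ → ℝ} {ia : A} {ib : B} {ic : C}
  {u : ℕ → A → ℂ} {v : ℕ → B → ℂ} {w : ℕ → C → ℂ} {α β γ N N' : ℕ → ℂ}

omit [DecidableEq A] [DecidableEq B] [DecidableEq C] in
private theorem T6b_c2 {u0 : A → ℂ} {w0 : C → ℂ} (hT : Tendsto T uf (𝓝 T0))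
    (hu : Tendsto u uf (𝓝 u0)) (hw : Tendsto w uf (𝓝 w0)) (b : B) :
    Tendsto (fun n => c2 (T n) (u n) (w n) b) uf (𝓝 (c2 T0 u0 w0 b)) :=
  tendsto_pi_nhds.1 ((MPb0eR.continuous_c2T.tendsto (T0, u0, w0)).comp
    (hT.prodMk_nhds (hu.prodMk_nhds hw))) b

omit [DecidableEq A] [DecidableEq B] [DecidableEq C] in
private theorem T6b_c3 {u0 : A → ℂ} {v0 : B → ℂ} (hT : Tendsto T uf (𝓝 T0))
    (hu : Tendsto u uf (𝓝 u0)) (hv : Tendsto v uf (𝓝 v0)) (c : C) :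
    Tendsto (fun n => c3 (T n) (u n) (v n) c) uf (𝓝 (c3 T0 u0 v0 c)) :=
  tendsto_pi_nhds.1 ((MPb0eR.continuous_c3T.tendsto (T0, u0, v0)).comp
    (hT.prodMk_nhds (hu.prodMk_nhds hv))) c

private theorem T6b_pr {B : Type} [Fintype B] [DecidableEq B] (f : B → ℝ) {v : ℕ → B → ℂ}
    {v0 : B → ℂ} (hv : Tendsto v uf (𝓝 v0)) :
    Tendsto (fun n => pr f (v n)) uf (𝓝 (pr f v0)) :=
  ((continuous_pr f).tendsto v0).comp hv

/-- A sequence whose squares converge to a nonzero number converges to a nonzero number. -/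
private theorem T6b_sqrt (y : ℕ → ℂ) {L : ℂ} (hL : L ≠ 0)
    (hy : Tendsto (fun n => y n ^ 2) uf (𝓝 L)) : ∃ Y : ℂ, Y ≠ 0 ∧ Tendsto y uf (𝓝 Y) := by
  have h1 : ∀ᶠ n in uf, ‖y n ^ 2‖ < ‖L‖ + 1 :=
    hy.norm.eventually (gt_mem_nhds (lt_add_one _))
  have h2 : ∀ᶠ n in uf, ‖y n‖ ≤ ‖L‖ + 1 := by
    filter_upwards [h1] with n hn
    rw [norm_pow] at hn
    by_contra h3
    push Not at h3
    have h4 := norm_nonneg L
    nlinarith
  obtain ⟨Y, hY⟩ := MPb0eR.ulim_c y _ h2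
  refine ⟨Y, ?_, hY⟩
  rintro rfl
  have h3 := tendsto_nhds_unique (hY.pow 2) hy
  apply hL
  rw [← h3]
  ring

/-- The orders of the coordinates.

Let `κ = q u q v q w / (α q u)`; it tends to `κ0 = q u0 q v0 q w0 / (α0 q u0) ≠ 0` (`hY`, `q_ne`;
the
multipliers are not zero), and `u_o v_o w_o = ε ^ 10 κ` (`eα`), `N = ε ^ (-4) u_o w_o`,
`N' = ε ^ (-4) u_o v_o`. Write `x, y, z` for `u_o, v_o, w_o`, `τA, τB, τC` for the three
contractions at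
the indices `oA, oB, oC`. `x` has a nonzero limit, `y z = ε ^ 10 κ / x`. The difference of the two
identities of `HS.st`, times `ε ^ 4 y`:
`y ^ 2 (ε ^ 4 (τB - β y) + x h' (w)) = y z (ε ^ 4 (τC - γ z) + x h (v))`, so
`(y / ε ^ 5) ^ 2 → κ0 h (v0) / (u0_o h' (w0)) ≠ 0` (`hY.t1`), `z / ε ^ 5 = κ / (x (y / ε ^ 5))`. -/
theorem t6b {u0 : A → ℂ} {v0 : B → ℂ} {w0 : C → ℂ} {α0 β0 γ0 N0 N0' : ℂ} (hY : HY3 T0 oA oB oC h h')
    (hS : SqH T T0 oA oB oC h h' ε ia ib ic u v w α β γ N N')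
    (hL : LmH u v w α β γ N N' u0 v0 w0 α0 β0 γ0 N0 N0')
    (hC : CE T0 oA oB oC h h' u0 v0 w0 α0 β0 γ0 N0 N0' true 1 1) :
    Sc oA oB oC ε u v w (xE 6) := by
  have htx : TX T0 Finset.univ (XM oB h 1) (XM oC h' 1) u0 v0 w0 α0 β0 γ0 := hC.tx
  have hx0 : u0 oA ≠ 0 := hC.hf.1 rfl
  have hok := hY.f 1 1 (by decide) (by decide) (by decide) u0 v0 w0 α0 β0 γ0 htx hC.le.hu hC.le.hv
    hC.le.hw
  have nu0 := MPb0eR.Nrm.lim hS.nu hL.hu
  have nv0 := MPb0eR.Nrm.lim hS.nv hL.hv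
  have nw0 := MPb0eR.Nrm.lim hS.nw hL.hw
  have ru := rea_of_rl hok.ru nu0.1
  have rv := rea_of_rl hok.rv nv0.1
  have rw0 := rea_of_rl hok.rw' nw0.1
  have hpos := hY.t1 u0 v0 w0 α0 β0 γ0 htx hC.le.hu hC.le.hv hC.le.hw ru rv rw0
  have hh : pr h v0 ≠ 0 := by
    intro h0
    rw [h0, mul_zero, zero_mul] at hpos
    exact lt_irrefl _ hpos
  have hh' : pr h' w0 ≠ 0 := by
    intro h0
    rw [h0, mul_zero] at hpos
    exact lt_irrefl _ hpos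
  have hqv : q v0 ≠ 0 := q_ne hok.rv hC.le.hv
  have hqw : q w0 ≠ 0 := q_ne hok.rw' hC.le.hw
  -- the limits
  have lx : Tendsto (fun n => u n oA) uf (𝓝 (u0 oA)) := tendsto_pi_nhds.1 hL.hu oA
  have ly : Tendsto (fun n => v n oB) uf (𝓝 (v0 oB)) := tendsto_pi_nhds.1 hL.hv oB
  have lz : Tendsto (fun n => w n oC) uf (𝓝 (w0 oC)) := tendsto_pi_nhds.1 hL.hw oC
  have lε : Tendsto (fun n => (ε n : ℂ) ^ 4) uf (𝓝 0) := by
    have h1 : Tendsto (fun n => (ε n : ℂ)) uf (𝓝 ((0 : ℝ) : ℂ)) :=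
      (Complex.continuous_ofReal.tendsto 0).comp hS.hε
    have h2 := h1.pow 4
    rw [Complex.ofReal_zero, zero_pow (by norm_num)] at h2
    exact h2
  have lτB := T6b_c2 (b := oB) hS.hT hL.hu hL.hw
  have lτC := T6b_c3 (c := oC) hS.hT hL.hu hL.hv
  obtain ⟨P, hP⟩ : ∃ P : ℕ → ℂ, P = fun n =>
      (ε n : ℂ) ^ 4 * (c2 (T n) (u n) (w n) oB - β n * v n oB) + u n oA * pr h' (w n) := ⟨_, rfl⟩
  obtain ⟨Q, hQ⟩ : ∃ Q : ℕ → ℂ, Q = fun n =>
      (ε n : ℂ) ^ 4 * (c3 (T n) (u n) (v n) oC - γ n * w n oC) + u n oA * pr h (v n) := ⟨_, rfl⟩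
  have lP : Tendsto P uf (𝓝 (u0 oA * pr h' w0)) := by
    have h1 := (lε.mul (lτB.sub (hL.hβ.mul ly))).add (lx.mul (T6b_pr h' hL.hw))
    rw [zero_mul, zero_add] at h1
    rw [hP]
    exact h1
  have lQ : Tendsto Q uf (𝓝 (u0 oA * pr h v0)) := by
    have h1 := (lε.mul (lτC.sub (hL.hγ.mul lz))).add (lx.mul (T6b_pr h hL.hv))
    rw [zero_mul, zero_add] at h1
    rw [hQ]
    exact h1
  have hP0 : u0 oA * pr h' w0 ≠ 0 := mul_ne_zero hx0 hh'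
  obtain ⟨κ, hκ⟩ : ∃ κ : ℕ → ℂ, κ = fun n => q (v n) * q (w n) / α n := ⟨_, rfl⟩
  have lκ : Tendsto κ uf (𝓝 (q v0 * q w0 / α0)) := by
    rw [hκ]
    exact ((MPb0eR.lim_q hL.hv).mul (MPb0eR.lim_q hL.hw)).div hL.hα hok.hα
  have hκ0 : q v0 * q w0 / α0 ≠ 0 := div_ne_zero (mul_ne_zero hqv hqw) hok.hα
  have eα : ∀ᶠ n in uf, α n ≠ 0 := hL.hα.eventually_ne hok.hα
  have eP : ∀ᶠ n in uf, P n ≠ 0 := lP.eventually_ne hP0
  -- the product of the three coordinates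
  have hprod : ∀ᶠ n in uf, u n oA * v n oB * w n oC = (ε n : ℂ) ^ 10 * κ n := by
    filter_upwards [eα] with n hn
    have h1 := (hS.sol n).eα
    rw [hκ]
    push_cast at h1
    field_simp
    linear_combination h1
  -- the square of the second coordinate
  have hid : ∀ n, v n oB ^ 2 * P n = v n oB * w n oC * Q n := by
    intro n
    have hs := hS.sol n
    obtain ⟨h1, h2⟩ := HS.st hY.ho hY.ho' hs
    have h3 := h1.symm.trans h2
    have h4 : ((((ε n ^ 4)⁻¹ : ℝ)) : ℂ) * (ε n : ℂ) ^ 4 = 1 := by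
      have h5 : (ε n : ℂ) ^ 4 ≠ 0 := pow_ne_zero _ (Complex.ofReal_ne_zero.2 (hS.pos n).ne')
      push_cast
      exact inv_mul_cancel₀ h5
    rw [hs.eN, hs.eN'] at h3
    rw [hP, hQ]
    linear_combination ((ε n : ℂ) ^ 4 * v n oB) * h3 +
      (v n oB * (u n oA * w n oC * pr h (v n) - u n oA * v n oB * pr h' (w n))) * h4
  have hsq : Tendsto (fun n => (v n oB / (ε n : ℂ) ^ 5) ^ 2) uf
      (𝓝 (q v0 * q w0 / α0 / u0 oA * (u0 oA * pr h v0) / (u0 oA * pr h' w0))) := by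
    have h1 := ((lκ.div lx hx0).mul lQ).div lP hP0
    refine h1.congr' ?_
    filter_upwards [hprod, eP] with n h2 h3
    have h4 : (ε n : ℂ) ≠ 0 := Complex.ofReal_ne_zero.2 (hS.pos n).ne'
    have h5 := (hS.sol n).xo
    have h6 := hid n
    have h7 : v n oB * w n oC = (ε n : ℂ) ^ 10 * κ n / u n oA := by
      rw [eq_div_iff h5, ← h2]
      ring
    rw [h7] at h6
    have h8 : v n oB ^ 2 = (ε n : ℂ) ^ 10 * κ n / u n oA * Q n / P n := by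
      rw [eq_div_iff h3]
      exact h6
    change κ n / u n oA * Q n / P n = _
    rw [div_pow, h8]
    field_simp
  have hlim0 : q v0 * q w0 / α0 / u0 oA * (u0 oA * pr h v0) / (u0 oA * pr h' w0) ≠ 0 :=
    div_ne_zero (mul_ne_zero (div_ne_zero hκ0 hx0) (mul_ne_zero hx0 hh)) hP0
  obtain ⟨Y, hY0, lY⟩ := T6b_sqrt _ hlim0 hsq
  refine ⟨u0 oA, Y, q v0 * q w0 / α0 / u0 oA / Y, hx0, hY0,
    div_ne_zero (div_ne_zero hκ0 hx0) hY0, ?_, ?_, ?_⟩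
  · have e0 : xE 6 0 = 0 := rfl
    rw [e0]
    simp only [pow_zero, div_one]
    exact lx
  · have e1 : xE 6 1 = 5 := rfl
    rw [e1]
    exact lY
  · have e2 : xE 6 2 = 5 := rfl
    rw [e2]
    have h1 := (lκ.div lx hx0).div lY hY0
    refine h1.congr' ?_
    filter_upwards [hprod] with n h2
    have h4 : (ε n : ℂ) ≠ 0 := Complex.ofReal_ne_zero.2 (hS.pos n).ne'
    have h5 := (hS.sol n).xo
    have h6 := (hS.sol n).yo
    change κ n / u n oA / (v n oB / (ε n : ℂ) ^ 5) = _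
    rw [div_eq_div_iff (div_ne_zero h6 (pow_ne_zero _ h4)) (pow_ne_zero _ h4)]
    field_simp
    linear_combination -h2

end

end Pool.Agent.MPb0eK
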