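import Mathlib
import Pool.Agent.Lib.MP_b0e20b_ag_K.AsE
import Pool.Agent.Lib.MP_b0e20b_ag_K.AsD
import Pool.Agent.Lib.MP_b0e20b_ag_K.Cls3
import Pool.Agent.Lib.MP_b0e20b_ag_K.Mir
import Pool.Agent.Lib.MP_b0e20b_ag_K.AFHS
import Pool.Agent.Lib.MP_b0e20b_ag_K.T0b
import Pool.Agent.Lib.MP_b0e20b_ag_K.T1b
import Pool.Agent.Lib.MP_b0e20b_ag_K.T2b
import Pool.Agent.Lib.MP_b0e20b_ag_K.T3b
import Pool.Agent.Lib.MP_b0e20b_ag_K.T5b
import Pool.Agent.Lib.MP_b0e20b_ag_K.T6b
import Pool.Agent.Lib.MP_b0e20b_ag_K.T7b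
import Pool.Agent.Lib.MP_b0e20b_ag_R.StepA

/-!
# MP_b0e20b_ag, project K: level W: conclusion
-/

set_option autoImplicit false

open scoped BigOperators Topology
open Filter

namespace Pool.Agent.MPb0eK

open MPb0eR (c1 c2 c3 tr q Sup Rl Rea uf Nrm cj AF scl)

section

variable {A B C : Type} [Fintype A] [Fintype B] [Fintype C] [DecidableEq A] [DecidableEq B]
  [DecidableEq C] {oA : A} {oB : B} {oC : C}
  {h : B → ℝ} {h' : C → ℝ}

private theorem WFin_E {T : ℕ → A → B → C → ℝ} {T0 : A → B → C → ℝ} {ε : ℕ → ℝ} {ia : A}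
    {ib : B} {ic : C} {u : ℕ → A → ℂ} {v : ℕ → B → ℂ} {w : ℕ → C → ℂ} {α β γ N N' : ℕ → ℂ}
    {u0 : A → ℂ} {v0 : B → ℂ} {w0 : C → ℂ} {α0 β0 γ0 N0 N0' : ℂ} {f : Bool} {x y : Fin 3}
    (hY : HY3 T0 oA oB oC h h')
    (hS : SqH T T0 oA oB oC h h' ε ia ib ic u v w α β γ N N')
    (hL : LmH u v w α β γ N N' u0 v0 w0 α0 β0 γ0 N0 N0')
    (hC : CE T0 oA oB oC h h' u0 v0 w0 α0 β0 γ0 N0 N0' f x y) (hyx : y ≤ x) :
    ∀ᶠ n in uf, Rea (u n) ∧ Rea (v n) ∧ Rea (w n) := by
  have hx : x = 0 ∨ x = 1 ∨ x = 2 := by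
    fin_cases x <;> simp
  have hy : y = 0 ∨ y = 1 ∨ y = 2 := by
    fin_cases y <;> simp
  cases f
  · rcases hx with rfl | rfl | rfl
    · rcases hy with rfl | rfl | rfl
      · exact asE hY hS hL 0 (t0b hY hS hL hC)
      · exact absurd hyx (by decide)
      · exact absurd hyx (by decide)
    · rcases hy with rfl | rfl | rfl
      · exact asE hY hS hL 1 (t1b hY hS hL hC)
      · rcases t3b hY hS hL hC with h1 | h1
        · exact asE hY hS hL 3 h1
        · exact asE hY hS hL 4 h1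
      · exact absurd hyx (by decide)
    · rcases hy with rfl | rfl | rfl
      · exact asE hY hS hL 2 (t2b hY hS hL hC)
      · exact asE hY hS hL 5 (t5b hY hS hL hC)
      · exact absurd ⟨rfl, rfl⟩ hC.hxy
  · obtain ⟨hx0, hy0⟩ := hC.hfx rfl
    rcases hx with rfl | rfl | rfl
    · exact absurd rfl hx0
    · rcases hy with rfl | rfl | rfl
      · exact absurd rfl hy0
      · exact asE hY hS hL 6 (t6b hY hS hL hC)
      · exact absurd hyx (by decide)
    · rcases hy with rfl | rfl | rfl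
      · exact absurd rfl hy0
      · exact asE hY hS hL 7 (t7b hY hS hL hC)
      · exact absurd ⟨rfl, rfl⟩ hC.hxy

/-- If `r • u` and the entry `r` are real, then so is `u`. -/
private theorem WFin_re {X : Type} {u : X → ℂ} {r : ℂ} {o : X} (hr : r ≠ 0) (hu : u o = 1)
    (h : Rea (r • u)) : Rea u := by
  have h1 : r.im = 0 := by
    have := h o
    rwa [Pi.smul_apply, hu, smul_eq_mul, mul_one] at this
  intro a
  have h2 := h a
  rw [Pi.smul_apply, smul_eq_mul, Complex.mul_im, h1, zero_mul, add_zero] at h2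
  rcases mul_eq_zero.1 h2 with h3 | h3
  · exact absurd (Complex.ext h3 h1) hr
  · exact h3

/-- One term of the sequence. -/
private theorem WFin_one {T0 : A → B → C → ℝ} (ho : h oB = 0) (ho' : h' oC = 0) {n : ℕ} {e : ℝ}
    (he : e ≠ 0)
    (hh : ∃ᶠ T in 𝓝 T0, ∃ u v w, AF (win T oA oB oC h h' (e ^ 10) (e ^ 4)⁻¹) oA oB oC u v w ∧
      (Rea u → Rea v → ¬ Rea w)) :
    ∃ (T : A → B → C → ℝ) (i : A × B × C) (u : A → ℂ) (v : B → ℂ)
        (w : C → ℂ) (x : Fin 5 → ℂ), dist T T0 < 1 / ((n : ℝ) + 1) ∧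
          HS T oA oB oC h h' (e ^ 10) (e ^ 4)⁻¹ u v w (x 0) (x 1) (x 2) (x 3) (x 4) ∧
          Nrm u i.1 ∧ Nrm v i.2.1 ∧ Nrm w i.2.2 ∧ ¬ (Rea u ∧ Rea v ∧ Rea w) := by
  obtain ⟨T, ⟨u, v, w, hAF, hre⟩, hT⟩ :=
    (hh.and_eventually (Metric.ball_mem_nhds T0 (show (0 : ℝ) < 1 / ((n : ℝ) + 1) by
      positivity))).exists
  have hu : u ≠ 0 := fun h0 => by
    have := hAF.nu
    rw [h0] at this
    exact zero_ne_one this
  have hv : v ≠ 0 := fun h0 => by
    have := hAF.nv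
    rw [h0] at this
    exact zero_ne_one this
  have hw : w ≠ 0 := fun h0 => by
    have := hAF.nw
    rw [h0] at this
    exact zero_ne_one this
  obtain ⟨r, ia, hr, nu⟩ := MPb0eR.exists_nrm hu
  obtain ⟨t, ib, ht, nv⟩ := MPb0eR.exists_nrm hv
  obtain ⟨k, ic, hk, nw⟩ := MPb0eR.exists_nrm hw
  obtain ⟨α, β, γ, θ, ν, hat⟩ := hs_of_AF ho ho' (pow_ne_zero 10 he) hAF hr ht hk
  refine ⟨T, (ia, ib, ic), r • u, t • v, k • w, ![α, β, γ, θ, ν], hT, hat, nu, nv, nw, ?_⟩
  rintro ⟨h1, h2, h3⟩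
  exact hre (WFin_re hr hAF.nu h1) (WFin_re ht hAF.nv h2) (WFin_re hk hAF.nw h3)

/-- All solutions of a sequence are eventually real.

Proof. If `‖N‖` is unbounded (`→ ∞` along the ultrafilter): `asP`. If `‖N'‖ → ∞`: `asP` for the
exchanged sequence (`SqH.mir`, `HY3.mir`). Otherwise `cls2`, and `cls_D`, `asD` or `cls_E`. For
`cls_E`
the masks `(f; x; y)`: `f = false`: `(0,0) (1,0) (2,0) (1,1) (2,1)` by `t0b, ..., t5b` and `asE`,
`(0,1) (0,2) (1,2)` by exchange (`CE.mir`, and `LmH` for the exchanged sequence), `(2,2)` is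
excluded;
`f = true`: `(1,1)`: `t6b`, `(2,1)`: `t7b`, `(1,2)`: exchange. -/
theorem seqH {T : ℕ → A → B → C → ℝ} {T0 : A → B → C → ℝ} {ε : ℕ → ℝ} {ia : A} {ib : B} {ic : C}
    {u : ℕ → A → ℂ} {v : ℕ → B → ℂ} {w : ℕ → C → ℂ} {α β γ N N' : ℕ → ℂ}
    (hY : HY3 T0 oA oB oC h h')
    (hS : SqH T T0 oA oB oC h h' ε ia ib ic u v w α β γ N N') :
    ∀ᶠ n in uf, Rea (u n) ∧ Rea (v n) ∧ Rea (w n) := by
  rcases MPb0eR.ualt N with ⟨n0, hN⟩ | hN
  · rcases MPb0eR.ualt N' with ⟨n0', hN'⟩ | hN'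
    · have b1 : ∀ᶠ n in uf, ‖N n‖ ≤ max (‖n0‖ + 1) (‖n0'‖ + 1) := by
        have h1 := hN.norm.eventually (gt_mem_nhds (lt_add_one ‖n0‖))
        filter_upwards [h1] with n hn
        exact hn.le.trans (le_max_left _ _)
      have b2 : ∀ᶠ n in uf, ‖N' n‖ ≤ max (‖n0‖ + 1) (‖n0'‖ + 1) := by
        have h1 := hN'.norm.eventually (gt_mem_nhds (lt_add_one ‖n0'‖))
        filter_upwards [h1] with n hn
        exact hn.le.trans (le_max_right _ _)
      obtain ⟨u0, v0, w0, α0, β0, γ0, N0, N0', hL, hE⟩ := cls2 hY hS b1 b2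
      by_cases h1 : N0 = 0 ∨ N0' = 0
      · obtain ⟨f, x, y, hC⟩ := cls_E hY hS hL hE h1
        rcases le_total y x with hyx | hyx
        · exact WFin_E hY hS hL hC hyx
        · have h2 := WFin_E hY.mir hS.mir
            (⟨hL.hu, hL.hw, hL.hv, hL.hα, hL.hγ, hL.hβ, hL.hN', hL.hN⟩ :
              LmH u w v α γ β N' N u0 w0 v0 α0 γ0 β0 N0' N0) hC.mir hyx
          filter_upwards [h2] with n hn
          exact ⟨hn.1, hn.2.2, hn.2.1⟩
      · rw [not_or] at h1
        exact asD hY hS hL hE h1.1 h1.2 (cls_D hY hS hL hE h1.1 h1.2)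
    · have h2 := asP hY.mir hS.mir hN'
      filter_upwards [h2] with n hn
      exact ⟨hn.1, hn.2.2, hn.2.1⟩
  · exact asP hY hS hN

/-- There is an open set of tensors all of whose critical points are real.

Proof. As `MPb0eR.stepA`: claim: there is `ε > 0` such that for all `T` near `T0` all solutions of
`AF`
for `win T oA oB oC h h' (ε ^ 10) (ε ^ 4)⁻¹` are real. Otherwise take `ε n = 1 / (n + 1)`,
normalise the
vectors (`exists_nrm`, `hs_of_AF`), restrict to constant indices (`uconst`): a `SqH` with non-real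
vectors
for all `n`, contradiction to `seqH` (a vector `r u` with `u oA = 1` is real iff ...: see
`StepA_re` in
`R/StepA.lean`). Finally `M ↦ T` with `M = win T ...` is continuous in `M` (`T = l M - ...`), and
`M0 = win T0 ...`. -/
theorem windowK {T0 : A → B → C → ℝ} (hY : HY3 T0 oA oB oC h h') :
    ∃ M0 : A → B → C → ℝ, ∀ᶠ M in 𝓝 M0, ∀ u v w, AF M oA oB oC u v w →
      Rea u ∧ Rea v ∧ Rea w := by
  obtain ⟨n, hn⟩ : ∃ n : ℕ, ∀ᶠ T in 𝓝 T0, ∀ u v w,
      AF (win T oA oB oC h h' ((1 / ((n : ℝ) + 1)) ^ 10) ((1 / ((n : ℝ) + 1)) ^ 4)⁻¹) oA oB oC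
        u v w → Rea u ∧ Rea v ∧ Rea w := by
    by_contra hcon
    push Not at hcon
    have hcon' : ∀ n : ℕ, ∃ (T : A → B → C → ℝ) (i : A × B × C) (u : A → ℂ) (v : B → ℂ)
        (w : C → ℂ) (x : Fin 5 → ℂ), dist T T0 < 1 / ((n : ℝ) + 1) ∧
          HS T oA oB oC h h' ((1 / ((n : ℝ) + 1)) ^ 10) ((1 / ((n : ℝ) + 1)) ^ 4)⁻¹ u v w
            (x 0) (x 1) (x 2) (x 3) (x 4) ∧
          Nrm u i.1 ∧ Nrm v i.2.1 ∧ Nrm w i.2.2 ∧ ¬ (Rea u ∧ Rea v ∧ Rea w) := fun n =>
      WFin_one hY.ho hY.ho' (by positivity) (hcon n)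
    choose T i u v w x hd hat nu nv nw hre using hcon'
    obtain ⟨j, hj⟩ := MPb0eR.uconst i
    obtain ⟨m, hm⟩ := hj.exists
    let g : ℕ → ℕ := fun n => if i n = j then n else m
    have hg : ∀ᶠ n in uf, g n = n := by
      filter_upwards [hj] with n hn
      exact if_pos hn
    have hgi : ∀ n, i (g n) = j := by
      intro n
      by_cases h : i n = j
      · rw [show g n = n from if_pos h, h]
      · rw [show g n = m from if_neg h, hm]
    have hT : Tendsto T uf (𝓝 T0) := by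
      rw [tendsto_iff_dist_tendsto_zero]
      exact squeeze_zero (fun _ => dist_nonneg) (fun n => (hd n).le)
        (tendsto_one_div_add_atTop_nhds_zero_nat.mono_left Nat.hyperfilter_le_atTop)
    have hsq : SqH (fun n => T (g n)) T0 oA oB oC h h' (fun n => 1 / ((g n : ℝ) + 1))
        j.1 j.2.1 j.2.2
        (fun n => u (g n)) (fun n => v (g n)) (fun n => w (g n)) (fun n => x (g n) 0)
        (fun n => x (g n) 1) (fun n => x (g n) 2) (fun n => x (g n) 3) (fun n => x (g n) 4) := by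
      refine ⟨?_, ?_, fun n => by positivity, fun n => hat (g n), fun n => ?_, fun n => ?_,
        fun n => ?_⟩
      · refine hT.congr' ?_
        filter_upwards [hg] with n hn
        rw [hn]
      · refine (tendsto_one_div_add_atTop_nhds_zero_nat.mono_left
          Nat.hyperfilter_le_atTop).congr' ?_
        filter_upwards [hg] with n hn
        rw [hn]
      · rw [← hgi n]
        exact nu (g n)
      · rw [← hgi n]
        exact nv (g n)
      · rw [← hgi n]
        exact nw (g n)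
    obtain ⟨n, hn⟩ := (seqH hY hsq).exists
    exact hre (g n) hn
  have hL : ((1 / ((n : ℝ) + 1)) ^ 10) ≠ 0 := by positivity
  generalize hl : (1 / ((n : ℝ) + 1)) ^ 10 = l at hn hL
  generalize hO : ((1 / ((n : ℝ) + 1)) ^ 4)⁻¹ = O at hn
  refine ⟨win T0 oA oB oC h h' l O, ?_⟩
  have hφ : Tendsto (fun (M : A → B → C → ℝ) a b c => l * M a b c
      - (if a = oA ∧ c = oC then O * h b else 0) - (if a = oA ∧ b = oB then O * h' c else 0))
      (𝓝 (win T0 oA oB oC h h' l O)) (𝓝 T0) := by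
    have h1 : Continuous (fun (M : A → B → C → ℝ) a b c => l * M a b c
      - (if a = oA ∧ c = oC then O * h b else 0)
      - (if a = oA ∧ b = oB then O * h' c else 0)) := by
      refine continuous_pi fun a => continuous_pi fun b => continuous_pi fun k => ?_
      fun_prop
    refine (h1.tendsto _).mono_right (le_of_eq ?_)
    congr 1
    funext a b c
    simp only [win]
    rw [mul_inv_cancel_left₀ hL]
    ring
  filter_upwards [hφ.eventually hn] with M hM u v w h2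
  refine hM u v w ?_
  convert h2 using 1
  funext a b c
  simp only [win]
  rw [show l * M a b c - (if a = oA ∧ c = oC then O * h b else 0)
    - (if a = oA ∧ b = oB then O * h' c else 0)
    + (if a = oA ∧ c = oC then O * h b else 0)
    + (if a = oA ∧ b = oB then O * h' c else 0) = l * M a b c by ring]
  rw [inv_mul_cancel_left₀ hL]

end

end Pool.Agent.MPb0eK
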