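import Mathlib
import Pool.Agent.Lib.MP_b0e20b_ag_K.TFin
import Pool.Agent.Lib.MP_b0e20b_ag_K.WFin
import Pool.Agent.Lib.MP_b0e20b_ag_R.Fin

/-!
# MP_b0e20b_ag, project K: all formats of order three
-/

set_option autoImplicit false

open scoped BigOperators Topology
open Filter

namespace Pool.Agent.MPb0eK

open MPb0eR (c1 c2 c3 tr q Sup Rl Rea uf Nrm cj AF scl)

open MPb0eQ (Tensor total IsReal crit realCrit IsGenericNumber)

/-- All three-way formats.

Proof. `MPb0eR.attained_all`; the open set: `exists_HY3 (n 0) (n 1) (n 2)`, `windowK`, `MPb0eR.lnk`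
with
`i, j, k = 0, 1, 2`, `A = Fin (n 0 + 1)`, `eA = (finSuccEquiv (n 0)).symm` (`none ↦ 0`) and so on.
-/
theorem mainK (n : Fin 3 → ℕ) (hn : ∀ i, 1 ≤ n i) :
    ∃ N : ℕ, IsGenericNumber n N ∧ Odd N ∧
      ∀ k : ℕ, (∃ T : Tensor n, total T = 1 ∧ IsReal T ∧ (crit T).encard = N ∧
        (realCrit T).encard = k) ↔ Odd k ∧ k ≤ N := by
  apply MPb0eR.attained_all n hn
  obtain ⟨P, T, hT⟩ := exists_HY3 (n 0) (n 1) (n 2) (hn 1) (hn 2)
  obtain ⟨M0, hM0⟩ := windowK hT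
  exact MPb0eR.lnk (i := 0) (j := 1) (k := 2) (by decide) (by decide) (by decide)
    (finSuccEquiv (n 0)).symm (finSuccEquiv_symm_none (n := n 0))
    (finSuccEquiv (n 1)).symm (finSuccEquiv_symm_none (n := n 1))
    (finSuccEquiv (n 2)).symm (finSuccEquiv_symm_none (n := n 2)) hM0

end Pool.Agent.MPb0eK
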