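import Mathlib
import Pool.Agent.Lib.MP_b0e20b_ag_K.WDefs
import Pool.Agent.Lib.MP_b0e20b_ag_K.TXa
import Pool.Agent.Lib.MP_b0e20b_ag_K.KerEx

/-!
# MP_b0e20b_ag, project K: the limit system of the E type 6
-/

set_option autoImplicit false

open scoped BigOperators Topology
open Filter

namespace Pool.Agent.MPb0eK

open MPb0eR (c1 c2 c3 tr q Sup Rl Rea uf Nrm cj AF scl)

section

variable {A B C : Type} [Fintype A] [Fintype B] [Fintype C] [DecidableEq A] [DecidableEq B]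
  [DecidableEq C] {oA : A} {oB : B} {oC : C}
  {h : B → ℝ} {h' : C → ℝ}

private theorem t6a_zE : zE 6 0 = ![1, 0, 0, 0, 0, -1, 0, 0, 0, 0, 0, 0, -1, 0, 1] := by
  simp [zE]

omit [Fintype A] in
private theorem t6a_scl1 (o : A) (u : A → ℂ) : scl o 1 1 u = u := by
  funext a
  simp [scl]

omit [Fintype A] in
private theorem t6a_scl0 (o : A) (u : A → ℂ) {a : A} (ha : a ≠ o) : scl o 0 1 u a = u a := by
  simp [scl, ha]

omit [Fintype A] in
private theorem t6a_sclo (o : A) (u : A → ℂ) : scl o 0 1 u o = 0 := by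
  simp [scl]

/-- The equations of the limit system. -/
private structure T6S (T : A → B → C → ℝ) (oA : A) (oB : B) (oC : C) (h : B → ℝ) (h' : C → ℝ)
    (ia : A) (ib : B) (ic : C) (u : A → ℂ) (y : B → ℂ) (z : C → ℂ) (α β γ : ℂ) : Prop where
  e1 : ∀ a, c1 T (scl oB 0 1 y) (scl oC 0 1 z) a = α * u a
  e2 : ∀ b, b ≠ oB → c2 T u (scl oC 0 1 z) b = β * y b
  e3 : ∀ c, c ≠ oC → c3 T u (scl oB 0 1 y) c = γ * z c
  e4 : y oB * pr h' (scl oC 0 1 z) = z oC * pr h (scl oB 0 1 y)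
  e5 : u oA * y oB * z oC * α = q (scl oB 0 1 y) * q (scl oC 0 1 z)
  n1 : u ia = 1
  n2 : y ib = 1
  n3 : z ic = 1

private theorem t6a_sys {T : A → B → C → ℝ} {ia : A} {ib : B} {ic : C} {p : PK A B C}
    (hp : locE oA oB oC h h' ia ib ic (T, zE 6 0) p = 0) (hX : p.1 oA ≠ 0) :
    T6S T oA oB oC h h' ia ib ic p.1 p.2.1 p.2.2.1 (p.2.2.2 0) (p.2.2.2 1) (p.2.2.2 2) := by
  rw [t6a_zE] at hp
  have hA := fun a => congrFun (congrArg Prod.fst hp) a
  have hB := fun b => congrFun (congrArg (fun x : QK A B C => x.2.1) hp) b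
  have hC := fun c => congrFun (congrArg (fun x : QK A B C => x.2.2.1) hp) c
  have hN := fun i => congrFun (congrArg (fun x : QK A B C => x.2.2.2) hp) i
  have hN0 := hN 0
  have hN1 := hN 1
  have hN2 := hN 2
  have hAo := hA oA
  have hBo := hB oB
  have hCo := hC oC
  simp [locE, t6a_scl1] at hAo hBo hCo hN0 hN1 hN2
  have k1 : c1 T (scl oB 0 1 p.2.1) (scl oC 0 1 p.2.2.1) oA = p.2.2.2 0 * p.1 oA :=
    sub_eq_zero.1 (hAo.resolve_left hX)
  have k3 : p.2.1 oB * pr h' (scl oC 0 1 p.2.2.1) = p.2.2.1 oC * pr h (scl oB 0 1 p.2.1) := by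
    refine mul_left_cancel₀ hX ?_
    linear_combination hBo
  refine ⟨fun a => ?_, fun b hb => ?_, fun c hc => ?_, k3, sub_eq_zero.1 hCo, sub_eq_zero.1 hN0,
    sub_eq_zero.1 hN1, sub_eq_zero.1 hN2⟩
  · by_cases ha : a = oA
    · rw [ha, k1]
    · have h1 := hA a
      simp [locE, ha] at h1
      exact sub_eq_zero.1 h1
  · have h1 := hB b
    simp [locE, hb, t6a_scl1] at h1
    exact sub_eq_zero.1 h1
  · have h1 := hC c
    simp [locE, hc, t6a_scl1] at h1
    exact sub_eq_zero.1 h1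

omit [DecidableEq A] in
/-- The tuple. -/
private theorem t6a_tx {T : A → B → C → ℝ} {ia : A} {ib : B} {ic : C} {u : A → ℂ}
    {y : B → ℂ} {z : C → ℂ} {α β γ : ℂ} (hs : T6S T oA oB oC h h' ia ib ic u y z α β γ) :
    TX T Finset.univ (XM oB h 1) (XM oC h' 1) u (scl oB 0 1 y) (scl oC 0 1 z) α β γ := by
  refine ⟨fun a ha => absurd (Finset.mem_univ a) ha, ?_, ?_, fun a _ => hs.e1 a, ?_, ?_⟩
  · rw [mem_XM]
    exact ⟨fun _ => t6a_sclo _ _, fun h1 => absurd h1 (by decide)⟩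
  · rw [mem_XM]
    exact ⟨fun _ => t6a_sclo _ _, fun h1 => absurd h1 (by decide)⟩
  · intro x hx
    rw [mem_XM] at hx
    have h1 := hx.1 (by decide)
    unfold dt
    rw [Finset.mul_sum]
    refine Finset.sum_congr rfl fun b _ => ?_
    by_cases hb : b = oB
    · rw [hb, h1]
      simp
    · rw [t6a_scl0 _ _ hb, hs.e2 b hb, mul_assoc]
  · intro x hx
    rw [mem_XM] at hx
    have h1 := hx.1 (by decide)
    unfold dt
    rw [Finset.mul_sum]
    refine Finset.sum_congr rfl fun c _ => ?_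
    by_cases hc : c = oC
    · rw [hc, h1]
      simp
    · rw [t6a_scl0 _ _ hc, hs.e3 c hc, mul_assoc]

/-- The linearised equations. -/
private structure T6L (T : A → B → C → ℝ) (oA : A) (oB : B) (oC : C) (h : B → ℝ) (h' : C → ℝ)
    (ia : A) (ib : B) (ic : C) (u : A → ℂ) (y : B → ℂ) (z : C → ℂ) (α β γ : ℂ) (du : A → ℂ)
    (dy : B → ℂ) (dz : C → ℂ) (dα dβ dγ : ℂ) : Prop where
  e1 : ∀ a, c1 T (scl oB 0 1 dy) (scl oC 0 1 z) a + c1 T (scl oB 0 1 y) (scl oC 0 1 dz) a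
    = α * du a + dα * u a
  e2 : ∀ b, b ≠ oB → c2 T du (scl oC 0 1 z) b + c2 T u (scl oC 0 1 dz) b
    = β * dy b + dβ * y b
  e3 : ∀ c, c ≠ oC → c3 T du (scl oB 0 1 y) c + c3 T u (scl oB 0 1 dy) c
    = γ * dz c + dγ * z c
  e4 : (du oA * y oB + u oA * dy oB) * pr h' (scl oC 0 1 z)
      + u oA * y oB * pr h' (scl oC 0 1 dz)
    = (du oA * z oC + u oA * dz oC) * pr h (scl oB 0 1 y)
      + u oA * z oC * pr h (scl oB 0 1 dy)
  e5 : (du oA * y oB * z oC + u oA * dy oB * z oC + u oA * y oB * dz oC) * α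
      + u oA * y oB * z oC * dα
    = 2 * dt (scl oB 0 1 y) (scl oB 0 1 dy) * q (scl oC 0 1 z)
      + q (scl oB 0 1 y) * (2 * dt (scl oC 0 1 z) (scl oC 0 1 dz))
  n1 : du ia = 0
  n2 : dy ib = 0
  n3 : dz ic = 0

omit [DecidableEq A] in
/-- The kernel equations of the tuple. -/
private theorem t6a_kx {T : A → B → C → ℝ} {ia : A} {ib : B} {ic : C} {u : A → ℂ}
    {y : B → ℂ} {z : C → ℂ} {α β γ : ℂ} {du : A → ℂ} {dy : B → ℂ} {dz : C → ℂ} {dα dβ dγ : ℂ}
    (hk : T6L T oA oB oC h h' ia ib ic u y z α β γ du dy dz dα dβ dγ) :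
    KX T Finset.univ (XM oB h 1) (XM oC h' 1) u (scl oB 0 1 y) (scl oC 0 1 z) α β γ du
      (scl oB 0 1 dy) (scl oC 0 1 dz) dα dβ dγ := by
  refine ⟨fun a ha => absurd (Finset.mem_univ a) ha, ?_, ?_, fun a _ => hk.e1 a, ?_, ?_⟩
  · rw [mem_XM]
    exact ⟨fun _ => t6a_sclo _ _, fun h1 => absurd h1 (by decide)⟩
  · rw [mem_XM]
    exact ⟨fun _ => t6a_sclo _ _, fun h1 => absurd h1 (by decide)⟩
  · intro x hx
    rw [mem_XM] at hx
    have h1 := hx.1 (by decide)
    unfold dt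
    rw [Finset.mul_sum, Finset.mul_sum, ← Finset.sum_add_distrib, ← Finset.sum_add_distrib]
    refine Finset.sum_congr rfl fun b _ => ?_
    by_cases hb : b = oB
    · rw [hb, h1]
      simp
    · rw [t6a_scl0 _ _ hb, t6a_scl0 _ _ hb]
      linear_combination x b * hk.e2 b hb
  · intro x hx
    rw [mem_XM] at hx
    have h1 := hx.1 (by decide)
    unfold dt
    rw [Finset.mul_sum, Finset.mul_sum, ← Finset.sum_add_distrib, ← Finset.sum_add_distrib]
    refine Finset.sum_congr rfl fun c _ => ?_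
    by_cases hc : c = oC
    · rw [hc, h1]
      simp
    · rw [t6a_scl0 _ _ hc, t6a_scl0 _ _ hc]
      linear_combination x c * hk.e3 c hc

omit [Fintype A] in
private theorem t6a_scl_zero (o : A) {y : A → ℂ} (hy : scl o 0 1 y = 0) (ho : y o = 0) : y = 0 := by
  funext a
  by_cases ha : a = o
  · rw [ha, ho]
    rfl
  · have h1 := congrFun hy a
    rw [t6a_scl0 _ _ ha] at h1
    exact h1

omit [DecidableEq A] in
/-- The kernel is zero. -/
private theorem t6a_ker {T : A → B → C → ℝ} {ia : A}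
    {ib : B} {ic : C} (jb : ib ≠ oB) (jc : ic ≠ oC) {u : A → ℂ} {y : B → ℂ} {z : C → ℂ}
    {α β γ : ℂ} (hs : T6S T oA oB oC h h' ia ib ic u y z α β γ)
    (ok : OkX T Finset.univ (XM oB h 1) (XM oC h' 1) u (scl oB 0 1 y) (scl oC 0 1 z) α β γ)
    (hX : u oA ≠ 0) (hYo : y oB ≠ 0) (hZ : z oC ≠ 0) (hpr : pr h (scl oB 0 1 y) ≠ 0) {du : A → ℂ}
    {dy : B → ℂ} {dz : C → ℂ} {dα dβ dγ : ℂ}
    (hk : T6L T oA oB oC h h' ia ib ic u y z α β γ du dy dz dα dβ dγ) :
    du = 0 ∧ dy = 0 ∧ dz = 0 ∧ dα = 0 ∧ dβ = 0 ∧ dγ = 0 := by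
  obtain ⟨⟨r1, h1⟩, ⟨r2, h2⟩, r3, h3⟩ := ok.nd _ _ _ _ _ _ (t6a_kx hk)
  have hr1 : r1 = 0 := by
    have h4 := congrFun h1 ia
    rw [hk.n1, Pi.smul_apply, hs.n1, smul_eq_mul, mul_one] at h4
    exact h4.symm
  have hr2 : r2 = 0 := by
    have h4 := congrFun h2 ib
    rw [t6a_scl0 _ _ jb, hk.n2, Pi.smul_apply, t6a_scl0 _ _ jb, hs.n2, smul_eq_mul, mul_one] at h4
    exact h4.symm
  have hr3 : r3 = 0 := by
    have h4 := congrFun h3 ic
    rw [t6a_scl0 _ _ jc, hk.n3, Pi.smul_apply, t6a_scl0 _ _ jc, hs.n3, smul_eq_mul, mul_one] at h4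
    exact h4.symm
  rw [hr1, zero_smul] at h1
  rw [hr2, zero_smul] at h2
  rw [hr3, zero_smul] at h3
  obtain ⟨e1, e2, e3, e4, e5, n1, n2, n3⟩ := hk
  rw [h2, h3] at e1 e5 e4
  rw [h1, h3] at e2
  rw [h1, h2] at e3
  have hα : dα = 0 := by
    have h4 := e1 ia
    rw [h1, hs.n1, MPb0eR.c1_zero_left, MPb0eR.c1_zero_right] at h4
    simpa using h4.symm
  have hβ : dβ = 0 := by
    have h4 := e2 ib jb
    rw [n2, hs.n2, MPb0eR.c2_zero_left, MPb0eR.c2_zero_right] at h4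
    simpa using h4.symm
  have hγ : dγ = 0 := by
    have h4 := e3 ic jc
    rw [n3, hs.n3, MPb0eR.c3_zero_left, MPb0eR.c3_zero_right] at h4
    simpa using h4.symm
  have hd0 : ∀ {I : Type} [Fintype I] (x : I → ℂ), dt x 0 = 0 := by
    intro I _ x
    simp [dt]
  have hp0 : ∀ {I : Type} [Fintype I] (f : I → ℝ), pr f 0 = 0 := by
    intro I _ f
    simp [pr]
  have f5 : dy oB * z oC + y oB * dz oC = 0 := by
    rw [h1, hα, hd0, hd0] at e5
    have h4 : u oA * α * (dy oB * z oC + y oB * dz oC) = 0 := by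
      simp only [Pi.zero_apply] at e5
      linear_combination e5
    exact (mul_eq_zero.1 h4).resolve_left (mul_ne_zero hX ok.hα)
  have f4 : dy oB * pr h' (scl oC 0 1 z) = dz oC * pr h (scl oB 0 1 y) := by
    rw [h1, hp0, hp0] at e4
    simp only [Pi.zero_apply] at e4
    refine mul_left_cancel₀ hX ?_
    linear_combination e4
  have hdz : dz oC = 0 := by
    have h4 : 2 * y oB * pr h (scl oB 0 1 y) * dz oC = 0 := by
      linear_combination pr h (scl oB 0 1 y) * f5 - y oB * f4 + dy oB * hs.e4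
    refine (mul_eq_zero.1 h4).resolve_left (mul_ne_zero (mul_ne_zero two_ne_zero hYo) hpr)
  have hdy : dy oB = 0 := by
    rw [hdz, mul_zero, add_zero] at f5
    exact (mul_eq_zero.1 f5).resolve_right hZ
  exact ⟨h1, t6a_scl_zero oB h2 hdy, t6a_scl_zero oC h3 hdz, hα, hβ, hγ⟩

/-- A number whose square is a positive real multiple is real. -/
private theorem t6a_sq {r s t : ℂ} (h1 : r ^ 2 * s = t) (hs : s.im = 0) (hs' : 0 < s.re)
    (ht : t.im = 0) (ht' : 0 < t.re) : r.im = 0 := by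
  have h2 := congrArg Complex.im h1
  have h3 := congrArg Complex.re h1
  rw [Complex.mul_im, hs, mul_zero, zero_add, ht] at h2
  rw [Complex.mul_re, hs, mul_zero, sub_zero] at h3
  have h4 : (r ^ 2).im = 0 := (mul_eq_zero.1 h2).resolve_right hs'.ne'
  have h5 : 0 < (r ^ 2).re := by
    rw [← h3] at ht'
    exact (pos_iff_pos_of_mul_pos ht').2 hs'
  rw [pow_two, Complex.mul_im] at h4
  rw [pow_two, Complex.mul_re] at h5
  have h6 : r.re * r.im = 0 := by linarith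
  rcases mul_eq_zero.1 h6 with h7 | h7
  · rw [h7] at h5
    nlinarith [mul_self_nonneg r.im]
  · exact h7

/-- Real and nondegenerate.

Proof. `zE 6 0 = ![1,0,0,0,0, -1,0,0,0,0, 0,0,-1,0,1]`. `u = p.1`; `k1 = 0`: `τA = α u_o`: a tuple
for
the masks `(univ; 1; 1)`. `k5 = k3`: `Y h' (w) = Z h (v)` (`X ≠ 0`). `X Y Z α = q v q w`, so
`Y Z = q v q w / τA`; by `hY.t1` `τA h (v) h' (w) > 0`, so `Y ^ 2 = Y Z h (v) / h' (w) > 0`:
`Y, Z` are real. Kernel: the derivative of `k1` gives the equation of `KX` at `oA`; the vectors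
(`du`
including `oA`) and the multipliers are zero; `dY h' = dZ h`, `dY Z + Y dZ = 0` give
`dY = dZ = 0`. -/
theorem t6a {T : A → B → C → ℝ} (hY : HY3 T oA oB oC h h') {ia : A} {ib : B} {ic : C}
    (jb : ib ≠ oB) (jc : ic ≠ oC) {p : PK A B C}
    (hp : locE oA oB oC h h' ia ib ic (T, zE 6 0) p = 0) (hX : p.1 oA ≠ 0) (hY' : p.2.1 oB ≠ 0)
    (hZ : p.2.2.1 oC ≠ 0) :
    cjK p = p ∧ ∀ x, HasDerivAt (fun t : ℝ => locE oA oB oC h h' ia ib ic (T, zE 6 0) (p + t • x))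
      0 0 → x = 0 := by
  have hs := t6a_sys hp hX
  have ht : TX T Finset.univ (XM oB h 1) (XM oC h' 1) _ _ _ _ _ _ := t6a_tx hs
  set u := p.1 with hu
  set y := p.2.1 with hy
  set z := p.2.2.1 with hz
  set v := scl oB 0 1 y with hv
  set w := scl oC 0 1 z with hw
  set α := p.2.2.2 0 with hα
  set β := p.2.2.2 1 with hβ
  set γ := p.2.2.2 2 with hγ
  have vi : v ib = 1 := by rw [hv, t6a_scl0 _ _ jb, hs.n2]
  have wi : w ic = 1 := by rw [hw, t6a_scl0 _ _ jc, hs.n3]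
  have u0 : u ≠ 0 := fun h1 => hX (by rw [h1]; rfl)
  have v0 : v ≠ 0 := fun h1 => one_ne_zero (α := ℂ) (by rw [← vi, h1]; rfl)
  have w0 : w ≠ 0 := fun h1 => one_ne_zero (α := ℂ) (by rw [← wi, h1]; rfl)
  have ok := hY.f 1 1 (by decide) (by decide) (by decide) _ _ _ _ _ _ ht u0 v0 w0
  have ru := rea_of_rl ok.ru hs.n1
  have rv := rea_of_rl ok.rv vi
  have rw' := rea_of_rl ok.rw' wi
  obtain ⟨rα, rβ, rγ⟩ := ht.re u0 v0 w0 ru rv rw'
  have cr : ∀ {r : ℂ}, r.im = 0 ↔ starRingEnd ℂ r = r := fun {r} => Complex.conj_eq_iff_im.symm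
  have hα0 : α ≠ 0 := ok.hα
  have ht1 := hY.t1 _ _ _ _ _ _ ht u0 v0 w0 ru rv rw'
  have rp : (pr h v).im = 0 := pr_re h rv
  have rp' : (pr h' w).im = 0 := pr_re h' rw'
  have rc : (c1 T v w oA).im = 0 := MPb0eR.c1_re T v w rv rw' oA
  have im0 : ∀ {r s : ℂ}, r.im = 0 → s.im = 0 → (r * s).im = 0 := by
    intro r s h1 h2
    rw [Complex.mul_im, h1, h2]
    ring
  have hp0 : pr h v ≠ 0 := by
    intro h1
    rw [h1, mul_zero, zero_mul, Complex.zero_re] at ht1
    exact lt_irrefl _ ht1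
  have qv := q_rea_pos rv v0
  have qw := q_rea_pos rw' w0
  -- the square of `Y` is positive
  have hY2 : y oB ^ 2 * (c1 T v w oA * pr h v * pr h' w) = q v * q w * pr h v ^ 2 := by
    have h1 := hs.e1 oA
    have h4 := hs.e4
    have h5 := hs.e5
    rw [← hv, ← hw] at h1 h4 h5
    linear_combination y oB ^ 2 * pr h v * pr h' w * h1
      + y oB * pr h v * α * u oA * h4 + pr h v ^ 2 * h5
  have rY : (y oB).im = 0 := by
    refine t6a_sq hY2 (im0 (im0 rc rp) rp') ht1 ?_ ?_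
    · refine im0 (im0 qv.2 qw.2) ?_
      rw [pow_two]
      exact im0 rp rp
    · have hre : (pr h v).re ≠ 0 := fun h1 => hp0 (Complex.ext h1 rp)
      rw [Complex.mul_re, Complex.mul_re, Complex.mul_im, qv.2, qw.2, pow_two, Complex.mul_re,
        Complex.mul_im, rp]
      have h2 : 0 < (pr h v).re * (pr h v).re := mul_self_pos.2 hre
      have h3 := mul_pos (mul_pos qv.1 qw.1) h2
      linarith
  have cX : starRingEnd ℂ (u oA) = u oA := cr.1 (ru oA)
  have cY : starRingEnd ℂ (y oB) = y oB := cr.1 rY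
  have cZ : starRingEnd ℂ (z oC) = z oC := by
    have h1 := congrArg (starRingEnd ℂ) hs.e4
    rw [← hv, ← hw, map_mul, map_mul, cY, cr.1 rp, cr.1 rp'] at h1
    have h2 := hs.e4
    rw [← hv, ← hw] at h2
    rw [h2] at h1
    exact (mul_right_cancel₀ hp0 h1).symm
  refine ⟨?_, ?_⟩
  · refine Prod.ext ?_ (Prod.ext ?_ (Prod.ext ?_ ?_))
    · funext a
      exact cr.1 (ru a)
    · funext b
      show starRingEnd ℂ (y b) = y b
      by_cases hb : b = oB
      · rw [hb, cY]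
      · have h1 := cr.1 (rv b)
        rw [hv, t6a_scl0 _ _ hb] at h1
        exact h1
    · funext c
      show starRingEnd ℂ (z c) = z c
      by_cases hc : c = oC
      · rw [hc, cZ]
      · have h1 := cr.1 (rw' c)
        rw [hw, t6a_scl0 _ _ hc] at h1
        exact h1
    · funext i
      show starRingEnd ℂ (p.2.2.2 i) = p.2.2.2 i
      fin_cases i
      · exact cr.1 rα
      · exact cr.1 rβ
      · exact cr.1 rγ
  · intro x hd
    have hk := kerE hd
    rw [t6a_zE] at hk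
    obtain ⟨e1, e2, e3, e4, e5, n1, n2, n3⟩ := hk
    simp [t6a_scl1] at e1 e2 e3 e4 e5
    have k0 : c1 T v w oA - α * u oA = 0 := sub_eq_zero.2 (hs.e1 oA)
    have k1 : c1 T (scl oB 0 1 x.2.1) w oA + c1 T v (scl oC 0 1 x.2.2.1) oA
        = α * x.1 oA + x.2.2.2 0 * u oA := by
      have h1 := e4.1
      rw [← hu, ← hy, ← hz, ← hv, ← hw, ← hα, k0, mul_zero, neg_zero, add_zero] at h1
      have h2 : u oA * (c1 T (scl oB 0 1 x.2.1) w oA + c1 T v (scl oC 0 1 x.2.2.1) oA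
          - (α * x.1 oA + x.2.2.2 0 * u oA)) = 0 := by
        linear_combination -h1
      exact sub_eq_zero.1 ((mul_eq_zero.1 h2).resolve_left hX)
    have hL : T6L T oA oB oC h h' ia ib ic u y z α β γ x.1 x.2.1 x.2.2.1 (x.2.2.2 0) (x.2.2.2 1)
        (x.2.2.2 2) := by
      refine ⟨fun a => ?_, e2, e3, ?_, e5, n1, n2, n3⟩
      · by_cases ha : a = oA
        · rw [ha]
          exact k1
        · exact e1 a ha
      · linear_combination e4.2
    obtain ⟨h1, h2, h3, h4, h5, h6⟩ := t6a_ker jb jc hs ok hX hY' hZ hp0 hL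
    refine Prod.ext h1 (Prod.ext h2 (Prod.ext h3 ?_))
    funext i
    fin_cases i
    · exact h4
    · exact h5
    · exact h6

end

end Pool.Agent.MPb0eK
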