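import Mathlib
import Pool.Agent.Lib.MP_b0e20b_ag_K.WDefs
import Pool.Agent.Lib.MP_b0e20b_ag_K.TXa
import Pool.Agent.Lib.MP_b0e20b_ag_K.Ids
import Pool.Agent.Lib.MP_b0e20b_ag_R.Cpt
import Pool.Agent.Lib.MP_b0e20b_ag_R.Alg2

/-!
# MP_b0e20b_ag, project K: orders of the coordinates, mask (true; 2; 1)
-/

set_option autoImplicit false

open scoped BigOperators Topology
open Filter

namespace Pool.Agent.MPb0eK

open MPb0eR (c1 c2 c3 tr q Sup Rl Rea uf Nrm cj AF scl)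

section

variable {A B C : Type} [Fintype A] [Fintype B] [Fintype C] [DecidableEq A] [DecidableEq B]
  [DecidableEq C] {oA : A} {oB : B} {oC : C}
  {h : B → ℝ} {h' : C → ℝ}

variable {T : ℕ → A → B → C → ℝ} {T0 : A → B → C → ℝ} {ε : ℕ → ℝ} {ia : A} {ib : B} {ic : C}
  {u : ℕ → A → ℂ} {v : ℕ → B → ℂ} {w : ℕ → C → ℂ} {α β γ N N' : ℕ → ℂ}

/-- The orders of the coordinates.

Let `κ = q u q v q w / (α q u)`; it tends to `κ0 = q u0 q v0 q w0 / (α0 q u0) ≠ 0` (`hY`, `q_ne`;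
the
multipliers are not zero), and `u_o v_o w_o = ε ^ 10 κ` (`eα`), `N = ε ^ (-4) u_o w_o`,
`N' = ε ^ (-4) u_o v_o`. Write `x, y, z` for `u_o, v_o, w_o`, `τA, τB, τC` for the three
contractions at
the indices `oA, oB, oC`. `x` and `N` have nonzero limits: `z / ε ^ 4 = N / x`,
`y / ε ^ 6 = κ / (x (z / ε ^ 4))`. -/
theorem t7b {u0 : A → ℂ} {v0 : B → ℂ} {w0 : C → ℂ} {α0 β0 γ0 N0 N0' : ℂ} (hY : HY3 T0 oA oB oC h h')
    (hS : SqH T T0 oA oB oC h h' ε ia ib ic u v w α β γ N N')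
    (hL : LmH u v w α β γ N N' u0 v0 w0 α0 β0 γ0 N0 N0')
    (hC : CE T0 oA oB oC h h' u0 v0 w0 α0 β0 γ0 N0 N0' true 2 1) :
    Sc oA oB oC ε u v w (xE 7) := by
  have hu0A : u0 oA ≠ 0 := hC.hf.1 rfl
  have hN0 : N0 ≠ 0 := hC.hN.1 rfl
  have hok := hY.f 2 1 (by decide) (by decide) (by decide) u0 v0 w0 α0 β0 γ0 hC.tx hC.le.hu
    hC.le.hv hC.le.hw
  have hqv := q_ne hok.rv hC.le.hv
  have hqw := q_ne hok.rw' hC.le.hw
  have lx : Tendsto (fun n => u n oA) uf (𝓝 (u0 oA)) := tendsto_pi_nhds.1 hL.hu oA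
  have hεn : ∀ n, (ε n : ℂ) ≠ 0 := fun n => Complex.ofReal_ne_zero.2 (hS.pos n).ne'
  have hα : ∀ᶠ n in uf, α n ≠ 0 := hL.hα.eventually_ne hok.hα
  have lκ : Tendsto (fun n => q (v n) * q (w n) / α n) uf (𝓝 (q v0 * q w0 / α0)) :=
    ((MPb0eR.lim_q hL.hv).mul (MPb0eR.lim_q hL.hw)).div hL.hα hok.hα
  have hκ0 : q v0 * q w0 / α0 ≠ 0 := div_ne_zero (mul_ne_zero hqv hqw) hok.hα
  have hprod : ∀ᶠ n in uf,
      u n oA * v n oB * w n oC = (ε n : ℂ) ^ 10 * (q (v n) * q (w n) / α n) := by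
    filter_upwards [hα] with n hn
    have h1 := (hS.sol n).eα
    rw [Complex.ofReal_pow] at h1
    rw [← mul_div_assoc, ← h1, mul_div_cancel_right₀ _ hn]
  have lz : Tendsto (fun n => w n oC / (ε n : ℂ) ^ 4) uf (𝓝 (N0 / u0 oA)) := by
    have h1 := hL.hN.div lx hu0A
    refine h1.congr' (Filter.Eventually.of_forall fun n => ?_)
    have h2 := (hS.sol n).eN
    have h3 := (hS.sol n).xo
    have h4 := hεn n
    rw [Complex.ofReal_inv, Complex.ofReal_pow] at h2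
    change N n / u n oA = w n oC / (ε n : ℂ) ^ 4
    rw [h2]
    field_simp
  have hz0 : N0 / u0 oA ≠ 0 := div_ne_zero hN0 hu0A
  refine ⟨u0 oA, q v0 * q w0 / α0 / (u0 oA * (N0 / u0 oA)), N0 / u0 oA, hu0A,
    div_ne_zero hκ0 (mul_ne_zero hu0A hz0), hz0, ?_, ?_, lz⟩
  · have h1 : ∀ n, u n oA / (ε n : ℂ) ^ (xE 7 0) = u n oA := by
      intro n
      change u n oA / (ε n : ℂ) ^ 0 = u n oA
      rw [pow_zero, div_one]
    simp only [h1]
    exact lx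
  · have h1 := lκ.div (lx.mul lz) (mul_ne_zero hu0A hz0)
    refine h1.congr' ?_
    filter_upwards [hprod] with n h2
    have h3 := (hS.sol n).xo
    have h4 := (hS.sol n).zo
    have h5 := hεn n
    change q (v n) * q (w n) / α n / (u n oA * (w n oC / (ε n : ℂ) ^ 4)) =
      v n oB / (ε n : ℂ) ^ 6
    have h6 : (ε n : ℂ) ^ 10 ≠ 0 := pow_ne_zero 10 h5
    have h7 : q (v n) * q (w n) / α n = u n oA * v n oB * w n oC / (ε n : ℂ) ^ 10 := by
      rw [h2, mul_div_cancel_left₀ _ h6]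
    rw [h7]
    field_simp

end

end Pool.Agent.MPb0eK
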